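import Pool.Agent.H11.PT3

set_option autoImplicit false

namespace Pool.Agent.H24.Bz
open Pool.Agent.H11.PT Polynomial

def bal (l : List Bool) : List (Bool × Bool) := l.map fun b => (b, !b)

/-- integers in binary (each digit written twice, so that the size only depends on the length) -/
instance encInt : Enc ℤ :=
  ⟨fun z => Enc.tr ((decide (z < 0), !decide (z < 0)), bal z.natAbs.bits)⟩

variable {α β γ : Type} [Enc α] [Enc β] [Enc γ]

theorem sz_bal (l : List Bool) : sz (bal l) = 6 * l.length + 1 := by
  induction l with
  | nil => rfl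
  | cons b l ih =>
    have : sz b + sz (!b) = 4 := by cases b <;> decide
    simp only [bal, List.map_cons, sz_cons, sz_pair, List.length_cons] at ih ⊢; omega

theorem sz_int (z : ℤ) : sz z = 6 * z.natAbs.size + 7 := by
  have : ∀ b : Bool, sz b + sz (!b) = 4 := fun b => by cases b <;> decide
  have e : sz z = sz ((decide (z < 0), !decide (z < 0)), bal z.natAbs.bits) := rfl
  rw [e, sz_pair, sz_pair, sz_bal, Nat.size_eq_bits_len, this]; omega

theorem sz_le_of_lt {z : ℤ} {k : ℕ} (h : z.natAbs < 2 ^ k) : sz z ≤ 6 * k + 7 := by
  have := Nat.size_le.2 h; rw [sz_int]; omega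

theorem lt_sz (z : ℤ) : z.natAbs < 2 ^ sz z := by
  rw [← Nat.size_le, sz_int]; omega

theorem size_add (a b : ℕ) : (a + b).size ≤ a.size + b.size + 1 := by
  have h1 := Nat.lt_size_self a; have h2 := Nat.lt_size_self b
  have h3 : 2 ^ a.size ≤ 2 ^ (a.size + b.size) := Nat.pow_le_pow_right (by omega) (by omega)
  have h4 : 2 ^ b.size ≤ 2 ^ (a.size + b.size) := Nat.pow_le_pow_right (by omega) (by omega)
  rw [Nat.size_le, pow_succ]; omega

theorem sz_add (a b : ℤ) : sz (a + b) ≤ sz a + sz b := by
  have := Nat.size_le_size (Int.natAbs_add_le a b)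
  have := size_add a.natAbs b.natAbs
  simp only [sz_int]; omega

theorem sz_mul (a b : ℤ) : sz (a * b) ≤ sz a + sz b := by
  have : (a.natAbs * b.natAbs).size ≤ a.natAbs.size + b.natAbs.size := by
    rw [Nat.size_le, pow_add]
    exact Nat.mul_lt_mul'' (Nat.lt_size_self _) (Nat.lt_size_self _)
  simp only [sz_int, Int.natAbs_mul]; omega

def bn (l : List Bool) : ℕ := l.foldr Nat.bit 0

theorem bn_cons (b : Bool) (l : List Bool) : bn (b :: l) = 2 * bn l + b.toNat := by
  simp [bn, Nat.bit_val]

theorem bn_bits (n : ℕ) : bn n.bits = n := by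
  induction n using Nat.binaryRec' with
  | zero => rfl
  | bit b n h ih => rw [Nat.bits_append_bit _ _ h]; simp only [bn, List.foldr_cons] at ih ⊢; rw [ih]

theorem bn_snoc (l : List Bool) (b : Bool) : bn (l ++ [b]) = bn l + 2 ^ l.length * b.toNat := by
  induction l with
  | nil => simp [bn_cons, show bn [] = 0 from rfl]
  | cons a l ih => simp only [List.cons_append, bn_cons, ih, List.length_cons]; ring

theorem bn_lt (l : List Bool) : bn l < 2 ^ l.length := by
  induction l with
  | nil => simp [bn]
  | cons a l ih => have := Bool.toNat_le a; rw [bn_cons, List.length_cons, pow_succ]; omega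

theorem bn_take (l : List Bool) (i : ℕ) :
    bn (l.take (i + 1)) = bn (l.take i) + 2 ^ i * (l.getD i false).toNat := by
  by_cases h : i < l.length
  · rw [List.take_add_one, List.getElem?_eq_getElem h]
    simp only [Option.toList_some, bn_snoc, List.length_take, min_eq_left h.le]
    simp [List.getD_eq_getElem?_getD, h]
  · rw [List.take_of_length_le (by omega), List.take_of_length_le (by omega)]
    simp [List.getD_eq_getElem?_getD, List.getElem?_eq_none (not_lt.1 h)]

def nrm (l : List Bool) : List Bool :=
  l.foldr (fun b s => bif s.isEmpty && !b then [] else b :: s) []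

theorem nrm_eq (l : List Bool) : nrm l = (bn l).bits := by
  induction l with
  | nil => rfl
  | cons b l ih =>
    have e : bn (b :: l) = Nat.bit b (bn l) := rfl
    have e' : nrm (b :: l) = bif (nrm l).isEmpty && !b then [] else b :: nrm l := rfl
    rw [e, e', ih]
    by_cases h : bn l = 0
    · rw [h]; cases b <;> rfl
    · rw [Nat.bits_append_bit _ _ fun h' => absurd h' h]
      have : (bn l).bits ≠ [] := fun h' => h (by rw [← bn_bits (bn l), h']; rfl)
      rw [List.isEmpty_eq_false_iff.2 this]; rfl

@[fun_prop] theorem pt_bn {f : α → List Bool} (hf : PT f) : PT fun x => (bn (f x) : ℤ) := by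
  have h1 : PT fun x => nrm (f x) :=
    PT.foldr_add (g := fun _ b (s : List Bool) => bif s.isEmpty && !b then [] else b :: s) hf
      (PT.const []) (by fun_prop) (fun _ _ => ()) 4 (by fun_prop) (fun _ c b => by
        have := sz_bool b
        have := sz_pos c
        cases (c.isEmpty && !b) <;> simp <;> omega)
  have h2 : PT fun x => ((false, true), bal (nrm (f x))) := by unfold bal; fun_prop
  refine h2.cast (fun x => x) (fun _ => rfl) fun x => ?_
  show _ = Enc.tr ((decide (_ < _), !decide (_ < _)), bal (Int.natAbs _).bits)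
  rw [nrm_eq, Int.natAbs_natCast, decide_eq_false (by omega)]; rfl

theorem pt_un : PT fun z : ℤ => ((decide (z < 0), !decide (z < 0)), bal z.natAbs.bits) :=
  PT.ofId fun _ => rfl

@[fun_prop] theorem pt_bits {f : α → ℤ} (hf : PT f) : PT fun x => (f x).natAbs.bits :=
  (PT.map (f := fun _ (p : Bool × Bool) => p.1) (pt_un.comp hf).snd (by fun_prop)).of_eq fun x => by
    simp [bal, Function.comp_def]

theorem pt_neg0 {f : α → ℤ} (hf : PT f) : PT fun x => decide (f x < 0) :=
  (pt_un.comp hf).fst.fst

@[fun_prop] theorem pt_neg {f : α → ℤ} (hf : PT f) : PT fun x => -f x := by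
  have h0 := pt_neg0 hf
  have h1 : PT fun x => !decide (f x < 0) && !(f x).natAbs.bits.isEmpty := by fun_prop
  have h2 := PT.pair (PT.pair h1 h1.not) (pt_un.comp hf).snd
  refine h2.cast (fun x => x) (fun _ => rfl) fun x => ?_
  show _ = Enc.tr ((decide (_ < _), !decide (_ < _)), bal (Int.natAbs _).bits)
  have : (!decide (f x < 0) && !(f x).natAbs.bits.isEmpty) = decide (-f x < 0) := by
    by_cases h : f x = 0
    · simp [h]
    · have : (f x).natAbs.bits ≠ [] := fun h' => h (by
        have := bn_bits (f x).natAbs; rw [h'] at this; exact Int.natAbs_eq_zero.1 this.symm)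
      by_cases h' : f x < 0
      · simp [h', h'.le]
      · simp [h', this, show 0 < f x by omega]
  simp only [this, Int.natAbs_neg]

def stp (g : Bool) (a b : List Bool) (s : Bool × List Bool) (i : ℕ) : Bool × List Bool :=
  ((a.getD i false && (b.getD i false ^^ g)) || (s.1 && (a.getD i false ^^ (b.getD i false ^^ g))),
    s.2 ++ [a.getD i false ^^ (b.getD i false ^^ g) ^^ s.1])

def rip (g : Bool) (a b : List Bool) : Bool × List Bool :=
  (List.range (a.length + b.length)).foldl (stp g a b) (g, [])

theorem rip_inv (g : Bool) (a b : List Bool) (K : ℕ) :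
    let s := (List.range K).foldl (stp g a b) (g, [])
    s.2.length = K ∧ bn s.2 + 2 ^ K * s.1.toNat + (bif g then bn (b.take K) else 0) =
      bn (a.take K) + bif g then 2 ^ K else bn (b.take K) := by
  induction K with
  | zero => cases g <;> simp [bn]
  | succ K ih =>
    simp only [List.range_succ, List.foldl_append, List.foldl_cons, List.foldl_nil] at ih ⊢
    generalize (List.range K).foldl (stp g a b) (g, []) = s at ih ⊢
    obtain ⟨c, o⟩ := s
    obtain ⟨h1, h2⟩ := ih
    simp only at h1 h2
    simp only [stp, List.length_append, h1, List.length_singleton, true_and, bn_snoc, bn_take,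
      pow_succ]
    generalize a.getD K false = x
    generalize b.getD K false = y
    cases g <;> cases x <;> cases y <;> cases c <;> simp at h2 ⊢ <;> omega

theorem rip_spec (g : Bool) (a b : List Bool) : (rip g a b).2.length = a.length + b.length ∧
    bn (rip g a b).2 + 2 ^ (a.length + b.length) * (rip g a b).1.toNat + (bif g then bn b else 0) =
      bn a + bif g then 2 ^ (a.length + b.length) else bn b := by
  have := rip_inv g a b (a.length + b.length)
  rwa [List.take_of_length_le (l := a) (by omega), List.take_of_length_le (l := b) (by omega)] at this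

@[fun_prop] theorem pt_rip (g : Bool) {a b : α → List Bool} (ha : PT a) (hb : PT b) :
    PT fun x => rip g (a x) (b x) :=
  PT.foldl_add (g := fun x => stp g (a x) (b x)) (by fun_prop) (by fun_prop)
    (by unfold stp; fun_prop) (fun _ _ => ()) 8 (by fun_prop) fun x c i => by
      obtain ⟨c, o⟩ := c
      simp only [stp, sz_pair]
      generalize (_ || _ : Bool) = u
      generalize (_ ^^ c : Bool) = v
      have := sz_append o [v]
      have := sz_bool u; have := sz_bool v; have := sz_pos c
      simp only [sz_cons, sz_nil, sz_unit] at *; omega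

def addL (a b : List Bool) : List Bool := (rip false a b).2 ++ [(rip false a b).1]

theorem bn_addL (a b : List Bool) : bn (addL a b) = bn a + bn b := by
  obtain ⟨h1, h2⟩ := rip_spec false a b
  rw [addL, bn_snoc, h1]; simpa using h2

def subL (a b : List Bool) : ℤ :=
  bif (rip true a b).1 then (bn (rip true a b).2 : ℤ) else -(bn (rip true b a).2 : ℤ)

theorem subL_eq (a b : List Bool) : subL a b = (bn a : ℤ) - bn b := by
  obtain ⟨h1, h2⟩ := rip_spec true a b
  obtain ⟨h3, h4⟩ := rip_spec true b a
  have h5 := bn_lt (rip true a b).2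
  have h6 := bn_lt (rip true b a).2
  rw [h1] at h5; rw [h3] at h6
  rw [add_comm b.length] at h4 h6
  unfold subL
  generalize 2 ^ (a.length + b.length) = P at *
  revert h2 h4
  cases (rip true a b).1 <;> cases (rip true b a).1 <;> simp <;> omega

def ps (z : ℤ) : List Bool := if z < 0 then [] else z.natAbs.bits
def ng (z : ℤ) : List Bool := if z < 0 then z.natAbs.bits else []

@[fun_prop] theorem pt_add {f g : α → ℤ} (hf : PT f) (hg : PT g) : PT fun x => f x + g x := by
  have h1 := pt_neg0 hf
  have h2 := pt_neg0 hg
  have h : PT fun x => subL (addL (ps (f x)) (ps (g x))) (addL (ng (f x)) (ng (g x))) := by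
    unfold subL addL ps ng; fun_prop
  refine h.of_eq fun x => ?_
  rw [subL_eq, bn_addL, bn_addL]
  unfold ps ng
  split_ifs <;> simp only [bn_bits, show bn [] = 0 from rfl] <;> omega

@[fun_prop] theorem pt_sub {f g : α → ℤ} (hf : PT f) (hg : PT g) : PT fun x => f x - g x :=
  (pt_add hf (pt_neg hg)).of_eq fun _ => by ring

@[fun_prop] theorem pt_lt {f g : α → ℤ} (hf : PT f) (hg : PT g) : PT fun x => decide (f x < g x) :=
  (pt_neg0 (pt_sub hf hg)).of_eq fun _ => by simp

@[fun_prop] theorem pt_le {f g : α → ℤ} (hf : PT f) (hg : PT g) : PT fun x => decide (f x ≤ g x) :=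
  (pt_lt hg hf).not.of_eq fun x => by by_cases h : f x ≤ g x <;> simp [h, not_le.1]

@[fun_prop] theorem pt_mul {f g : α → ℤ} (hf : PT f) (hg : PT g) : PT fun x => f x * g x := by
  have h : PT fun x => (g x).natAbs.bits.foldr (fun b c => c + c + bif b then f x else 0) 0 :=
    PT.foldr_add (g := fun x b c => c + c + bif b then f x else 0) (by fun_prop) (by fun_prop)
      (by fun_prop) (fun x _ => f x) 13 (by fun_prop) fun x c b => by
        have h1 := sz_add (c + c) (bif b then f x else 0)
        have h2 : sz (c + c) ≤ sz c + 6 := by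
          have : (c + c).natAbs.size ≤ c.natAbs.size + 1 := by
            have := Nat.lt_size_self c.natAbs
            rw [Nat.size_le, pow_succ]; omega
          simp only [sz_int]; omega
        have h3 : sz (bif b then f x else 0) ≤ sz (f x) + 7 := by
          cases b
          · simp [sz_int]
          · simp
        omega
  have e : ∀ (z : ℤ) (l : List Bool),
      l.foldr (fun b c => c + c + bif b then z else 0) 0 = z * bn l := by
    intro z l
    induction l with
    | nil => simp [bn]
    | cons b l ih => rw [List.foldr_cons, ih, bn_cons]; cases b <;> simp <;> ring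
  refine (PT.ite (pt_neg0 hg) (pt_neg h) h).of_eq fun x => ?_
  simp only [e, bn_bits]
  split_ifs with h
  · rw [show ((g x).natAbs : ℤ) = -g x by omega]; ring
  · rw [show ((g x).natAbs : ℤ) = g x by omega]

instance : Inj ℤ := ⟨fun a b h => by
  have h1 : ((decide (a < 0), !decide (a < 0)), bal a.natAbs.bits) =
    ((decide (b < 0), !decide (b < 0)), bal b.natAbs.bits) := Inj.inj _ _ h
  simp only [Prod.mk.injEq, decide_eq_decide] at h1
  have h2 := congrArg (fun l => bn (l.map Prod.fst)) h1.2
  simp only [bal, List.map_map, Function.comp_def, List.map_id', bn_bits] at h2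
  have := h1.1.1
  omega⟩

@[fun_prop] theorem pt_sum {l : α → List ℤ} (hl : PT l) : PT fun x => (l x).sum :=
  (PT.foldr_add (g := fun _ b c => b + c) hl (PT.const 0) (by fun_prop) (fun _ b => b) 0
    (by fun_prop) fun _ c b => by have := sz_add b c; omega).of_eq fun _ => rfl

@[fun_prop] theorem pt_prod {l : α → List ℤ} (hl : PT l) : PT fun x => (l x).prod :=
  (PT.foldr_add (g := fun _ b c => b * c) hl (PT.const 1) (by fun_prop) (fun _ b => b) 0
    (by fun_prop) fun _ c b => by have := sz_mul b c; omega).of_eq fun _ => rfl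

@[fun_prop] theorem pt_cast {f : α → ℕ} (hf : PT f) : PT fun x => (f x : ℤ) :=
  (pt_sum (PT.replicate hf (PT.const 1))).of_eq fun _ => by simp

theorem sz_map_le {l : List α} (f : α → β) {S : ℕ} (h : ∀ a ∈ l, sz (f a) ≤ S) :
    sz (l.map f) ≤ l.length * (S + 1) + 1 := by
  induction l with
  | nil => simp
  | cons a l ih =>
    have := h a List.mem_cons_self
    have := ih fun b hb => h b (List.mem_cons_of_mem _ hb)
    simp only [List.map_cons, sz_cons, List.length_cons, add_mul]; omega

/-- iteration with an explicit bound on all intermediate states -/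
theorem pt_iter {n : α → ℕ} {i : α → γ} {g : α → γ → γ} (hn : PT n) (hi : PT i)
    (hg : PT fun p : α × γ => g p.1 p.2) (d : α → ℕ) (hd : PT d)
    (h : ∀ x m, m ≤ n x → sz ((g x)^[m] (i x)) ≤ d x) : PT fun x => (g x)^[n x] (i x) := by
  obtain ⟨q, hq⟩ := hd.out
  refine (PT.foldl (g := fun x c _ => g x c) hn.units hi
    (hg.comp (g := fun p : α × γ × Unit => (p.1, p.2.1)) (by fun_prop)) q fun x m => ?_).of_eq
    fun x => foldl_units _ _ _
  rw [List.take_replicate, foldl_units]
  have := h x _ (min_le_right m (n x))
  have := hq x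
  simp only [sz_nat] at this; omega

end Pool.Agent.H24.Bz
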