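import Mathlib

set_option autoImplicit false
open FirstOrder FirstOrder.Language Filter

namespace Pool.Agent.H24.FO

universe u v w w'
variable {L : FirstOrder.Language.{u, v}}

theorem asym_term {A : Type w} {B : Type w'} [L.Structure A] [L.Structure B] (σ : ℕ → A → B)
    (hσ : ∀ n (f : L.Functions n), ∀ᶠ N in atTop, ∀ x : Fin n → A,
      σ N (Structure.funMap f x) = Structure.funMap f (σ N ∘ x))
    {α : Type*} (t : L.Term α) :
    ∀ᶠ N in atTop, ∀ v : α → A, t.realize (σ N ∘ v) = σ N (t.realize v) := by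
  induction t with
  | var k => exact Eventually.of_forall fun N v => rfl
  | func f ts ih =>
    filter_upwards [hσ _ f, eventually_all.2 ih] with N h1 h2 v
    simp only [Term.realize, h1, h2]
    rfl

theorem asym (hL : ∀ n, IsEmpty (L.Relations n))
    {A : Type w} {B : Type w'} [L.Structure A] [L.Structure B] (σ : ℕ → A ≃ B)
    (hσ : ∀ n (f : L.Functions n), ∀ᶠ N in atTop, ∀ x : Fin n → A,
      σ N (Structure.funMap f x) = Structure.funMap f (σ N ∘ x))
    {α : Type*} {n : ℕ} (φ : L.BoundedFormula α n) :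
    ∀ᶠ N in atTop, ∀ (v : α → A) (xs : Fin n → A),
      φ.Realize (σ N ∘ v) (σ N ∘ xs) ↔ φ.Realize v xs := by
  induction φ with
  | falsum => exact Eventually.of_forall fun N v xs => Iff.rfl
  | equal t1 t2 =>
    filter_upwards [asym_term (fun N => σ N) hσ t1, asym_term (fun N => σ N) hσ t2]
      with N h1 h2 v xs
    simp only [BoundedFormula.Realize]
    rw [← Sum.comp_elim, h1, h2]
    exact (σ N).injective.eq_iff
  | rel R ts => exact (hL _).elim R
  | imp φ ψ ih1 ih2 =>
    filter_upwards [ih1, ih2] with N h1 h2 v xs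
    simp only [BoundedFormula.realize_imp, h1, h2]
  | all φ ih =>
    filter_upwards [ih] with N h1 v xs
    simp only [BoundedFormula.realize_all]
    rw [(σ N).surjective.forall]
    refine forall_congr' fun a => ?_
    rw [← h1, Fin.comp_snoc]

theorem asym_formula (hL : ∀ n, IsEmpty (L.Relations n))
    {A : Type w} {B : Type w'} [L.Structure A] [L.Structure B] (σ : ℕ → A ≃ B)
    (hσ : ∀ n (f : L.Functions n), ∀ᶠ N in atTop, ∀ x : Fin n → A,
      σ N (Structure.funMap f x) = Structure.funMap f (σ N ∘ x))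
    {α : Type*} (φ : L.Formula α) :
    ∀ᶠ N in atTop, ∀ (v : α → A), φ.Realize (σ N ∘ v) ↔ φ.Realize v := by
  filter_upwards [asym hL σ hσ φ] with N h v
  have := h v default
  rw [Unique.eq_default (σ N ∘ (default : Fin 0 → A))] at this
  exact this

theorem sep (hL : ∀ n, IsEmpty (L.Relations n))
    {W : Type w} {H : Type w'} [L.Structure W] [L.Structure H] {n : ℕ} (x : Fin n → W)
    (hx : ∀ x' : Fin n → W, (∀ φ : L.Formula (Fin n), φ.Realize x' ↔ φ.Realize x) →
      ∀ y : W, ∃ t : L.Term (Fin n), t.realize x' = y)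
    (h : Fin n → H) (hh : ∀ φ : L.Formula (Fin n), φ.Realize h ↔ φ.Realize x)
    (hH : ∀ b : Fin (n + 1) → H, ∃ a : Fin (n + 1) → W,
      ∀ φ : L.Formula (Fin (n + 1)), φ.Realize a ↔ φ.Realize b) :
    Nonempty (W ≃[L] H) := by
  choose T hT using hx x (fun _ => Iff.rfl)
  have he : ∀ s t : L.Term (Fin n), s.realize h = t.realize h ↔ s.realize x = t.realize x := by
    intro s t
    have := hh (s.equal t)
    simpa using this
  have hg : ∀ t : L.Term (Fin n), (T (t.realize x)).realize h = t.realize h := fun t =>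
    (he _ _).2 (hT _)
  have hb : Function.Bijective (fun y => (T y).realize h) := by
    constructor
    · intro y z hyz
      rw [← hT y, ← hT z]
      exact (he _ _).1 hyz
    · intro z
      obtain ⟨a, ha⟩ := hH (Fin.cons z h)
      obtain ⟨t, ht⟩ := hx (a ∘ Fin.succ) (fun φ => by
        rw [← hh, ← Formula.realize_relabel, ha, Formula.realize_relabel]
        rfl) (a 0)
      refine ⟨t.realize x, ?_⟩
      have h1 := (ha ((t.relabel Fin.succ).equal (Term.var 0))).1 (by simpa using ht)
      simp only [Formula.realize_equal, Term.realize_relabel, Term.realize_var] at h1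
      exact (hg t).trans h1
  refine ⟨{ toEquiv := _root_.Equiv.ofBijective _ hb, map_fun' := ?_, map_rel' := ?_ }⟩
  · intro k f y
    have h1 := hg (Term.func f (fun i => T (y i)))
    simp only [Term.realize, hT] at h1
    exact h1
  · intro k r
    exact (hL _).elim r

theorem exists_tuple {A : Type w} {B : Type w'} [L.Structure A] [L.Structure B] {m r : ℕ}
    (a : Fin m → A) (b : Fin m → B)
    (hab : ∀ φ : L.Formula (Fin m), φ.Realize a ↔ φ.Realize b)
    (t : Fin m → L.Term (Fin r)) (x : Fin r → A) (hx : ∀ i, (t i).realize x = a i) :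
    ∃ y : Fin r → B, ∀ i, (t i).realize y = b i := by
  have := (hab ((Formula.iInf fun i : Fin m => ((t i).relabel Sum.inr).equal
    (Term.var (Sum.inl i))).iExs (Fin r))).1 (by
      rw [Formula.realize_iExs]
      refine ⟨x, ?_⟩
      rw [Formula.realize_iInf]
      intro i
      simpa using hx i)
  rw [Formula.realize_iExs] at this
  obtain ⟨y, hy⟩ := this
  rw [Formula.realize_iInf] at hy
  exact ⟨y, fun i => by simpa using hy i⟩

theorem sep_of_homog (hL : ∀ n, IsEmpty (L.Relations n))
    {W : Type w} {H : Type w'} [L.Structure W] [L.Structure H] {n : ℕ} (x : Fin n → W)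
    (hgen : ∀ y : W, ∃ t : L.Term (Fin n), t.realize x = y)
    (hhom : ∀ x' : Fin n → W, (∀ φ : L.Formula (Fin n), φ.Realize x' ↔ φ.Realize x) →
      ∃ σ : W ≃[L] W, σ ∘ x = x')
    (h : Fin n → H) (hh : ∀ φ : L.Formula (Fin n), φ.Realize h ↔ φ.Realize x)
    (hH : ∀ b : Fin (n + 1) → H, ∃ a : Fin (n + 1) → W,
      ∀ φ : L.Formula (Fin (n + 1)), φ.Realize a ↔ φ.Realize b) :
    Nonempty (W ≃[L] H) := by
  refine sep hL x (fun x' hx' y => ?_) h hh hH
  obtain ⟨σ, rfl⟩ := hhom x' hx'
  obtain ⟨t, ht⟩ := hgen (σ.symm y)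
  exact ⟨t, by rw [HomClass.realize_term, ht]; simp⟩

end Pool.Agent.H24.FO
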