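import Mathlib
import Pool.Agent.H24.FOOld

set_option autoImplicit false
open FirstOrder FirstOrder.Language Filter

namespace Pool.Agent.H24.ActVar

abbrev Mo := Multiset ℕ ⊕ ZMod 2

def deg : Mo → ZMod 2
  | .inl w => (w.card : ZMod 2)
  | .inr h => h

def mul : Mo → Mo → Mo
  | .inl u, .inl w => .inl (u + w)
  | .inl u, .inr h => .inr (u.card + h)
  | .inr g, q => .inr (g + deg q)

def one : Mo := .inl 0

theorem mul_assoc' (p q r : Mo) : mul p (mul q r) = mul (mul p q) r := by
  rcases p with p | p <;> rcases q with q | q <;> rcases r with r | r <;>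
    simp [mul, deg, add_assoc]

theorem one_mul' (p : Mo) : mul one p = p := by
  rcases p with p | p <;> simp [mul, one]

theorem mul_one' (p : Mo) : mul p one = p := by
  rcases p with p | p <;> simp [mul, one, deg]

theorem eq_one {p q : Mo} (h : mul p q = one) : p = one := by
  rcases p with p | p <;> rcases q with q | q <;> simp_all [mul, one]

inductive Fn : ℕ → Type
  | op : Mo → Fn 1

def LM : FirstOrder.Language.{0, 0} := ⟨Fn, fun _ => Empty⟩

theorem LM_rel (n : ℕ) : IsEmpty (LM.Relations n) := inferInstanceAs (IsEmpty Empty)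

def ap {α : Type} (m : Mo) (t : LM.Term α) : LM.Term α :=
  Functions.apply₁ (L := LM) (Fn.op m) t

def act {A : Type} [LM.Structure A] (m : Mo) (a : A) : A :=
  Structure.funMap (L := LM) (Fn.op m) ![a]

@[simp] theorem realize_ap {α A : Type} [LM.Structure A] (m : Mo) (t : LM.Term α) (v : α → A) :
    (ap m t).realize v = act m (t.realize v) := Term.realize_functions_apply₁

theorem funMap_eq {A : Type} [LM.Structure A] (m : Mo) (x : Fin 1 → A) :
    Structure.funMap (L := LM) (Fn.op m) x = act m (x 0) := by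
  unfold act
  congr 1
  ext i
  fin_cases i
  rfl

def E : Set (Σ n : ℕ, LM.Term (Fin n) × LM.Term (Fin n)) :=
  {e | (∃ p q, e = ⟨1, (ap p (ap q (Term.var 0)), ap (mul p q) (Term.var 0))⟩) ∨
    e = ⟨1, (ap one (Term.var 0), Term.var 0)⟩}

theorem sat_iff (A : Type) [LM.Structure A] :
    (∀ e ∈ E, ∀ v : Fin e.1 → A, e.2.1.realize v = e.2.2.realize v) ↔
      (∀ p q (a : A), act p (act q a) = act (mul p q) a) ∧ ∀ a : A, act one a = a := by
  constructor
  · intro h
    refine ⟨fun p q a => ?_, fun a => ?_⟩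
    · simpa using h _ (Or.inl ⟨p, q, rfl⟩) (fun _ => a)
    · simpa using h _ (Or.inr rfl) (fun _ => a)
  · rintro ⟨h1, h2⟩ e (⟨p, q, rfl⟩ | rfl) v
    · simp [h1]
    · simp [h2]

def W (n : ℕ) : Type := Fin n × Mo

instance (n : ℕ) : LM.Structure (W n) where
  funMap := fun {_} f x => match f, x with
    | Fn.op m, x => ((x 0).1, mul m (x 0).2)
  RelMap := fun r _ => Empty.elim r

theorem act_W {n : ℕ} (m : Mo) (i : Fin n) (q : Mo) :
    act m (show W n from (i, q)) = (show W n from (i, mul m q)) := rfl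

def gen (n : ℕ) (i : Fin n) : W n := (i, one)

theorem W_sat (n : ℕ) : ∀ e ∈ E, ∀ v : Fin e.1 → W n, e.2.1.realize v = e.2.2.realize v :=
  (sat_iff _).2 ⟨fun p q ⟨i, r⟩ => Prod.ext rfl (mul_assoc' p q r),
    fun ⟨i, r⟩ => Prod.ext rfl (one_mul' r)⟩

theorem act_gen {n : ℕ} (y : W n) : act y.2 (gen n y.1) = y := Prod.ext rfl (mul_one' _)

theorem map_act {A B : Type} [LM.Structure A] [LM.Structure B] {F : Type} [FunLike F A B]
    [HomClass LM F A B] (h : F) (m : Mo) (a : A) : h (act m a) = act m (h a) := by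
  unfold act
  rw [HomClass.map_fun, funMap_eq]
  rfl

theorem W_free (n : ℕ) (M : Type) [LM.Structure M]
    (hM : ∀ e ∈ E, ∀ v : Fin e.1 → M, e.2.1.realize v = e.2.2.realize v) (f : Fin n → M) :
    ∃! h : LM.Hom (W n) M, ⇑h ∘ gen n = f := by
  obtain ⟨h1, h2⟩ := (sat_iff M).1 hM
  refine ⟨⟨fun y => act y.2 (f y.1), ?_, fun r => (LM_rel _).elim r⟩, ?_, ?_⟩
  · intro k g x
    cases g with
    | op m => rw [funMap_eq (A := M)]; exact (h1 _ _ _).symm
  · ext i
    exact h2 _
  · rintro h rfl
    ext y
    conv_lhs => rw [← act_gen y, map_act]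
    rfl

theorem W_rigid (n : ℕ) (x' : Fin n → W n)
    (hx : ∀ φ : LM.Formula (Fin n), φ.Realize x' ↔ φ.Realize (gen n)) (y : W n) :
    ∃ t : LM.Term (Fin n), t.realize x' = y := by
  have h1 : ∀ i, (x' i).2 = one := by
    intro i
    obtain ⟨z, hz⟩ := FO.exists_tuple x' (gen n) hx
      (fun j => ap (x' j).2 (Term.var j)) (fun j => gen n (x' j).1) (fun j => by
        simpa using act_gen (x' j))
    have := hz i
    simp only [realize_ap, Term.realize_var] at this
    exact eq_one (congrArg Prod.snd this)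
  have h2 : Function.Injective (fun i => (x' i).1) := by
    intro i j hij
    have h3 : x' i = x' j := Prod.ext hij (by rw [h1, h1])
    have := (hx ((Term.var i).equal (Term.var j))).1 (by simpa using h3)
    simp only [Formula.realize_equal, Term.realize_var] at this
    exact congrArg Prod.fst this
  obtain ⟨i, hi⟩ := (Finite.injective_iff_surjective.1 h2) y.1
  refine ⟨ap y.2 (Term.var i), ?_⟩
  have : x' i = gen n y.1 := Prod.ext hi (h1 i)
  simp [this, act_gen]

theorem free_equiv (n : ℕ) (F : Type) [LM.Structure F] (ι : Fin n → F)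
    (hF : ∀ e ∈ E, ∀ v : Fin e.1 → F, e.2.1.realize v = e.2.2.realize v)
    (hu : ∀ (M : Type) [LM.Structure M],
          (∀ e ∈ E, ∀ v : Fin e.1 → M, e.2.1.realize v = e.2.2.realize v) →
          ∀ f : Fin n → M, ∃! h : LM.Hom F M, ⇑h ∘ ι = f) : Nonempty (F ≃[LM] W n) := by
  obtain ⟨g, hg, -⟩ := hu (W n) (W_sat n) (gen n)
  obtain ⟨k, hk, -⟩ := W_free n F hF ι
  have h1 : k.comp g = Hom.id LM F :=
    (hu F hF ι).unique (by
      ext1 i
      have h3 := congrFun hg i
      have h4 := congrFun hk i
      simp only [Function.comp, Hom.comp_apply] at h3 h4 ⊢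
      rw [h3, h4]) rfl
  have h2 : g.comp k = Hom.id LM (W n) :=
    (W_free n (W n) (W_sat n) (gen n)).unique (by
      ext1 i
      have h3 := congrFun hg i
      have h4 := congrFun hk i
      simp only [Function.comp, Hom.comp_apply] at h3 h4 ⊢
      rw [h4, h3]) rfl
  exact ⟨{ toFun := g, invFun := k, left_inv := fun a => DFunLike.congr_fun h1 a,
           right_inv := fun a => DFunLike.congr_fun h2 a, map_fun' := g.map_fun,
           map_rel' := fun r => (LM_rel _).elim r }⟩

def flip (N : ℕ) (w : Multiset ℕ) : Multiset ℕ :=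
  if Even (w.count N) then N ::ₘ w else w.erase N

theorem flip_flip (N : ℕ) (w : Multiset ℕ) : flip N (flip N w) = w := by
  by_cases h : Even (w.count N)
  · simp [flip, h, Nat.even_add_one]
  · have h1 : N ∈ w := by
      by_contra h2
      exact h (by simp [Multiset.count_eq_zero_of_notMem h2])
    have h2 : Even ((w.erase N).count N) := by
      rw [Multiset.count_erase_self]
      rw [Nat.not_even_iff_odd] at h
      exact Nat.Odd.sub_odd h odd_one
    simp only [flip, if_neg h, if_pos h2, Multiset.cons_erase h1]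

theorem flip_card (N : ℕ) (w : Multiset ℕ) :
    ((flip N w).card : ZMod 2) = w.card + 1 := by
  by_cases h : Even (w.count N)
  · simp [flip, h]
  · have h1 : N ∈ w := by
      by_contra h2
      exact h (by simp [Multiset.count_eq_zero_of_notMem h2])
    simp only [flip, if_neg h]
    rw [← Multiset.card_erase_add_one h1]
    push_cast
    rw [add_assoc]
    have : (1 + 1 : ZMod 2) = 0 := rfl
    rw [this, add_zero]

theorem flip_add (N : ℕ) (u w : Multiset ℕ) (h : N ∉ u) : flip N (u + w) = u + flip N w := by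
  simp only [flip, Multiset.count_add, Multiset.count_eq_zero_of_notMem h, zero_add]
  split_ifs
  · simp
  · exact Multiset.erase_add_right_neg _ h

def sg (N : ℕ) : Mo → Mo
  | .inl w => .inl (flip N w)
  | .inr h => .inr (h + 1)

theorem sg_sg (N : ℕ) (p : Mo) : sg N (sg N p) = p := by
  rcases p with p | p
  · simp [sg, flip_flip]
  · have : (1 + 1 : ZMod 2) = 0 := rfl
    simp [sg, add_assoc, this]

theorem sg_mul (m : Mo) : ∀ᶠ N in atTop, ∀ q, sg N (mul m q) = mul m (sg N q) := by
  rcases m with u | g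
  · have : ∀ᶠ N in atTop, N ∉ u := by
      rw [← Nat.cofinite_eq_atTop, eventually_cofinite]
      simpa using u.finite_toSet
    filter_upwards [this] with N hN q
    rcases q with q | q
    · simp [sg, mul, flip_add N u q hN]
    · simp [sg, mul, add_assoc]
  · refine Eventually.of_forall fun N q => ?_
    rcases q with q | q
    · simp [sg, mul, deg, flip_card, add_assoc]
    · simp [sg, mul, deg, add_assoc]

def sgW (N : ℕ) : W 1 ≃ W 1 :=
  Function.Involutive.toPerm (fun y => (y.1, sg N y.2)) (fun y => Prod.ext rfl (sg_sg N y.2))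

def aa : Fin 1 → W 1 := fun _ => (0, .inr 1)
def bb : Fin 1 → W 1 := fun _ => (0, .inr 0)

theorem same_type (φ : LM.Formula (Fin 1)) : φ.Realize aa ↔ φ.Realize bb := by
  obtain ⟨N, hN⟩ := (FO.asym_formula LM_rel sgW (fun n f => by
    cases f with
    | op m =>
      filter_upwards [sg_mul m] with N hN x
      exact Prod.ext rfl (hN _)) φ).exists
  rw [← hN bb]
  have : sgW N ∘ bb = aa := by
    ext1 i
    exact Prod.ext rfl (by simp [sgW, bb, aa, sg])
  rw [this]

theorem not_conj (σ : W 1 ≃[LM] W 1) : σ ∘ bb ≠ aa := by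
  intro h
  have h1 : (σ (gen 1 0)).2 = one := by
    have h2 := act_gen (σ.symm (gen 1 0))
    have h3 : (σ.symm (gen 1 0)).1 = 0 := Subsingleton.elim _ _
    rw [h3] at h2
    have h4 := congrArg σ h2
    rw [map_act, Language.Equiv.apply_symm_apply] at h4
    have h5 : mul (σ.symm (gen 1 0)).2 (σ (gen 1 0)).2 = one := congrArg Prod.snd h4
    revert h5
    rcases (σ.symm (gen 1 0)).2 with p | p <;> rcases (σ (gen 1 0)).2 with q | q <;>
      simp_all [mul, one]
  have h2 : σ (bb 0) = bb 0 := by
    have h3 := act_gen (bb 0)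
    have h4 : σ (gen 1 0) = gen 1 0 := Prod.ext (Subsingleton.elim _ _) h1
    have h5 : (bb 0).1 = 0 := rfl
    rw [h5] at h3
    rw [← h3, map_act, h4]
  have h3 := congrFun h 0
  simp only [Function.comp, h2] at h3
  have h4 := congrArg Prod.snd h3
  simp [aa, bb] at h4

end Pool.Agent.H24.ActVar
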