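import Mathlib

set_option autoImplicit false
open FirstOrder FirstOrder.Language

namespace Pool.Agent.H24.Alg

universe u v w

/-- Function symbols of the language of `K`-algebras. -/
inductive AlgFn (K : Type u) : ℕ → Type u
  | add : AlgFn K 2
  | neg : AlgFn K 1
  | zero : AlgFn K 0
  | mul : AlgFn K 2
  | smul : K → AlgFn K 1

/-- The language of `K`-algebras (no relation symbols). -/
def algLang (K : Type u) : FirstOrder.Language.{u, 0} := ⟨AlgFn K, fun _ => Empty⟩

/-- A `K`-module with a product `m` as a structure for the language of `K`-algebras. -/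
@[reducible] def algStr (K : Type u) (A : Type v) [Add A] [Neg A] [Zero A] [SMul K A]
    (m : A → A → A) : (algLang K).Structure A where
  funMap := fun {_} f x => match f, x with
    | AlgFn.add, x => x 0 + x 1
    | AlgFn.neg, x => - x 0
    | AlgFn.zero, _ => 0
    | AlgFn.mul, x => m (x 0) (x 1)
    | AlgFn.smul c, x => c • x 0
  RelMap := fun r _ => Empty.elim r

/-- The tuples `a` in `(A, mA)` and `b` in `(B, mB)` satisfy the same first-order formulas. -/
def TypeEq (K : Type u) {A : Type v} {B : Type w} [Add A] [Neg A] [Zero A] [SMul K A]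
    [Add B] [Neg B] [Zero B] [SMul K B] (mA : A → A → A) (mB : B → B → B) {k : ℕ}
    (a : Fin k → A) (b : Fin k → B) : Prop :=
  ∀ φ : (algLang K).Formula (Fin k),
    @Formula.Realize (algLang K) A (algStr K A mA) (Fin k) φ a ↔
      @Formula.Realize (algLang K) B (algStr K B mB) (Fin k) φ b

/-- `(A, mA)` and `(B, mB)` realize the same types of `k`-tuples for every `k ≥ 1`. -/
def Isotyp (K : Type u) {A : Type v} {B : Type w} [Add A] [Neg A] [Zero A] [SMul K A]
    [Add B] [Neg B] [Zero B] [SMul K B] (mA : A → A → A) (mB : B → B → B) : Prop :=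
  ∀ k : ℕ, 1 ≤ k → (∀ a : Fin k → A, ∃ b : Fin k → B, TypeEq K mA mB a b) ∧
    (∀ b : Fin k → B, ∃ a : Fin k → A, TypeEq K mA mB a b)

/-- Every product `x₁ (x₂ (⋯ xₙ))` of `n` elements is zero. -/
def NilIndex (n : ℕ) (A : Type v) [NonUnitalRing A] : Prop :=
  ∀ (l : List A) (x : A), l.length + 1 = n → l.foldr (· * ·) x = 0

/-- The series `A⁽⁰⁾ = A`, `A⁽ᵏ⁺¹⁾ =` span of the products of two elements of `A⁽ᵏ⁾`. -/
def der (K : Type u) (A : Type v) [Field K] [NonUnitalRing A] [Module K A] :
    ℕ → Submodule K A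
  | 0 => ⊤
  | k + 1 => Submodule.span K {z | ∃ a ∈ der K A k, ∃ b ∈ der K A k, z = a * b}

end Pool.Agent.H24.Alg
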