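import Mathlib

set_option autoImplicit false
open Submodule

namespace Pool.Agent.H24.NilCore

variable {K A : Type*} [Field K] [AddCommGroup A] [Module K A] (μ : A →ₗ[K] A →ₗ[K] A)

def IsEnd (φ : A →ₗ[K] A) : Prop := ∀ a b, φ (μ a b) = μ (φ a) (φ b)

def Pw (U : Submodule K A) : ℕ → Submodule K A
  | 0 => U
  | k + 1 => map₂ μ U (Pw U k)

theorem Pw_mono {U U' : Submodule K A} (h : U ≤ U') (k : ℕ) : Pw μ U k ≤ Pw μ U' k := by
  induction k with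
  | zero => exact h
  | succ k ih => exact map₂_le_map₂ h ih

theorem naka (hH : ∀ k a b c, c ∈ Pw μ ⊤ k → μ (μ a b) c ∈ Pw μ ⊤ (k + 2)) {n : ℕ}
    (hn : Pw μ ⊤ n = ⊥) (U : Submodule K A) (hU : U ⊔ Pw μ ⊤ 1 = ⊤) (S : Submodule K A)
    (hS : ∀ k < n, Pw μ U k ≤ S) : S = ⊤ := by
  have h1 : ∀ k, Pw μ ⊤ k ≤ Pw μ U k ⊔ Pw μ ⊤ (k + 1) := by
    intro k
    induction k with
    | zero => exact hU.ge
    | succ k ih =>
      refine map₂_le.2 fun a _ c hc => ?_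
      obtain ⟨u, hu, a', ha', rfl⟩ := mem_sup.1 (hU.ge (mem_top (x := a)))
      obtain ⟨u', hu', c', hc', rfl⟩ := mem_sup.1 (ih hc)
      have h2 : μ (u + a') (u' + c') = μ u u' + (μ a' u' + μ (u + a') c') := by
        simp only [map_add, LinearMap.add_apply]; abel
      rw [h2]
      refine add_mem_sup (apply_mem_map₂ μ hu hu') (add_mem ?_ (apply_mem_map₂ μ mem_top hc'))
      have h3 : Pw μ ⊤ 1 ≤ (Pw μ ⊤ (k + 2)).comap (μ.flip u') :=
        map₂_le.2 fun p _ q _ => hH k p q u' (Pw_mono μ le_top k hu')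
      exact h3 ha'
  have h2 : ∀ j, j ≤ n → Pw μ ⊤ (n - j) ≤ S := by
    intro j
    induction j with
    | zero => intro _; simp [hn]
    | succ j ih =>
      intro hj
      refine (h1 _).trans (sup_le (hS _ (by omega)) ?_)
      have : n - (j + 1) + 1 = n - j := by omega
      rw [this]
      exact ih (by omega)
  have := h2 n le_rfl
  rw [Nat.sub_self] at this
  exact top_unique this

theorem Pw_le {U B : Submodule K A} (hU : U ≤ B) (hB : ∀ a ∈ B, ∀ b ∈ B, μ a b ∈ B) (k : ℕ) :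
    Pw μ U k ≤ B := by
  induction k with
  | zero => exact hU
  | succ k ih => exact map₂_le.2 fun a ha b hb => hB a (hU ha) b (ih hb)

theorem Pw_fg {U : Submodule K A} (hU : U.FG) (k : ℕ) : (Pw μ U k).FG := by
  induction k with
  | zero => exact hU
  | succ k ih => exact hU.map₂ μ ih

theorem IsEnd.map_sq {φ : A →ₗ[K] A} (h : IsEnd μ φ) {a : A} (ha : a ∈ Pw μ ⊤ 1) :
    φ a ∈ Pw μ ⊤ 1 := by
  have : Pw μ ⊤ 1 ≤ (Pw μ ⊤ 1).comap φ := map₂_le.2 fun p _ q _ => by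
    rw [mem_comap, h]; exact apply_mem_map₂ μ mem_top mem_top
  exact this ha

theorem IsEnd.comp {φ ψ : A →ₗ[K] A} (h : IsEnd μ φ) (h' : IsEnd μ ψ) : IsEnd μ (φ ∘ₗ ψ) := by
  intro a b
  simp [h' a b, h (ψ a) (ψ b)]

theorem IsEnd.pow {φ : A →ₗ[K] A} (h : IsEnd μ φ) (m : ℕ) : IsEnd μ (φ ^ m) := by
  induction m with
  | zero => intro a b; rfl
  | succ m ih => rw [pow_succ]; exact ih.comp μ h

theorem fitting [FiniteDimensional K A] {ε : A →ₗ[K] A} (hε : IsEnd μ ε) :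
    ∃ π : A →ₗ[K] A, IsEnd μ π ∧ (∀ a, π (π a) = π a) ∧ (∀ a, ε a = a → π a = a) ∧
      ∀ a, ε (π a) ∈ Pw μ ⊤ 1 → π a ∈ Pw μ ⊤ 1 := by
  obtain ⟨m, hm, hm1⟩ := ((LinearMap.eventually_isCompl_ker_pow_range_pow ε).and
    (Filter.eventually_ge_atTop 1)).exists
  obtain ⟨m, rfl⟩ := Nat.exists_eq_add_of_le' hm1
  obtain ⟨δ, hδ⟩ : ∃ δ, δ = ε ^ (m + 1) := ⟨_, rfl⟩
  have hδe : IsEnd μ δ := hδ ▸ hε.pow μ _
  rw [← hδ] at hm
  let π := (LinearMap.range δ).projection (LinearMap.ker δ) hm.symm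
  have h1 : ∀ a, π a ∈ LinearMap.range δ := projection_apply_mem hm.symm
  have h2 : ∀ a, δ (π a) = δ a := fun a => by
    have := sub_projection_mem hm.symm a
    rw [LinearMap.mem_ker, map_sub, sub_eq_zero] at this
    exact this.symm
  have h3 : ∀ a ∈ LinearMap.range δ, ∀ b ∈ LinearMap.range δ, δ a = δ b → a = b := by
    intro a ha b hb hab
    rw [← sub_eq_zero]
    refine (disjoint_def.1 hm.disjoint) _ ?_ (sub_mem ha hb)
    rw [LinearMap.mem_ker, map_sub, hab, sub_self]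
  refine ⟨π, fun a b => h3 _ (h1 _) _ ?_ ?_, fun a => h3 _ (h1 _) _ (h1 _) (h2 _),
    fun a ha => h3 _ (h1 _) _ ⟨a, ?_⟩ (h2 _), fun a ha => ?_⟩
  · obtain ⟨a', ha'⟩ := h1 a
    obtain ⟨b', hb'⟩ := h1 b
    exact ⟨μ a' b', by rw [hδe, ha', hb']⟩
  · rw [h2, hδe, hδe, h2, h2]
  · rw [hδ]
    rw [Module.End.pow_apply]
    exact Function.iterate_fixed ha _
  · have h4 : δ (π a) ∈ Pw μ ⊤ 1 := by
      rw [hδ, pow_succ]
      exact (hε.pow μ m).map_sq μ ha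
    let W := Pw μ ⊤ 1 ⊓ LinearMap.range δ
    have h5 : ∀ x ∈ W, δ x ∈ W := fun x hx => ⟨hδe.map_sq μ hx.1, ⟨x, rfl⟩⟩
    have h6 : Function.Injective (δ.restrict h5) := fun x y hxy =>
      Subtype.ext (h3 _ x.2.2 _ y.2.2 (congrArg Subtype.val hxy))
    obtain ⟨b, hb⟩ := LinearMap.injective_iff_surjective.1 h6 ⟨δ (π a), h4, ⟨_, rfl⟩⟩
    rw [h3 _ (h1 a) _ b.2.2 (congrArg Subtype.val hb).symm]
    exact b.2.1

theorem core2 {V : Type*} [AddCommGroup V] [Module K V] [FiniteDimensional K V]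
    (hH : ∀ k a b c, c ∈ Pw μ ⊤ k → μ (μ a b) c ∈ Pw μ ⊤ (k + 2)) {n : ℕ}
    (hn : Pw μ ⊤ n = ⊥) (ι : V →ₗ[K] A) (l : A →ₗ[K] V) (hl : ∀ v, l (ι v) = v)
    (hl2 : ∀ a ∈ Pw μ ⊤ 1, l a = 0) (hgen : LinearMap.range ι ⊔ Pw μ ⊤ 1 = ⊤)
    (hext : ∀ g : V →ₗ[K] A, ∃ φ, IsEnd μ φ ∧ ∀ v, φ (ι v) = g v)
    {h h' : A →ₗ[K] A} (hh : IsEnd μ h) (hh' : IsEnd μ h') :
    ∃ σ : A ≃ₗ[K] A, IsEnd μ σ.toLinearMap ∧ ∀ a, h' (h a) = a → σ a = h a := by
  have hsq : ∀ a, a - ι (l a) ∈ Pw μ ⊤ 1 := by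
    intro a
    obtain ⟨_, ⟨v, rfl⟩, a', ha', rfl⟩ := mem_sup.1 (hgen.ge (mem_top (x := a)))
    simpa [hl, hl2 a' ha'] using ha'
  have hsub : ∀ (U B : Submodule K A), U ⊔ Pw μ ⊤ 1 = ⊤ → U ≤ B →
      (∀ a ∈ B, ∀ b ∈ B, μ a b ∈ B) → B = ⊤ := fun U B h1 h2 h3 =>
    naka μ hH hn U h1 B fun k _ => Pw_le μ h2 h3 k
  have hfd : FiniteDimensional K A := by
    have h1 : (LinearMap.range ι).FG := by
      rw [LinearMap.range_eq_map]; exact Module.Finite.fg_top.map ι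
    have h2 := naka μ hH hn _ hgen ((Finset.range n).sup (Pw μ (LinearMap.range ι)))
      (fun k hk => Finset.le_sup (Finset.mem_range.2 hk))
    exact ⟨h2 ▸ fg_finset_sup _ _ fun k _ => Pw_fg μ h1 k⟩
  have huniq : ∀ φ ψ : A →ₗ[K] A, IsEnd μ φ → IsEnd μ ψ → (∀ v, φ (ι v) = ψ (ι v)) →
      ∀ a, φ a = ψ a := by
    intro φ ψ h1 h2 h3 a
    have := hsub _ (LinearMap.eqLocus φ ψ) hgen (by rintro _ ⟨v, rfl⟩; exact h3 v) (by
      intro a ha b hb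
      rw [LinearMap.mem_eqLocus] at ha hb ⊢
      rw [h1, h2, ha, hb])
    exact (this.ge mem_top : a ∈ LinearMap.eqLocus φ ψ)
  have hmul : ∀ φ : A →ₗ[K] A, IsEnd μ φ → ∀ a, l (φ (ι (l a))) = l (φ a) := by
    intro φ h1 a
    have := hl2 _ (h1.map_sq μ (hsq a))
    rw [map_sub, map_sub, sub_eq_zero] at this
    exact this.symm
  have hbij : ∀ φ : A →ₗ[K] A, IsEnd μ φ → (∀ v, ∃ w, l (φ (ι w)) = v) →
      Function.Bijective φ := by
    intro φ h1 h2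
    have h3 : LinearMap.range φ = ⊤ := by
      refine hsub _ _ ?_ le_rfl ?_
      · refine top_unique fun a _ => ?_
        obtain ⟨w, hw⟩ := h2 (l a)
        have h4 := sub_mem (hsq a) (hsq (φ (ι w)))
        rw [hw, sub_sub_sub_cancel_right] at h4
        have h5 : a = φ (ι w) + (a - φ (ι w)) := by abel
        rw [h5]
        exact add_mem_sup ⟨_, rfl⟩ h4
      · rintro _ ⟨a, rfl⟩ _ ⟨b, rfl⟩
        exact ⟨μ a b, h1 a b⟩
    have h4 := LinearMap.range_eq_top.1 h3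
    exact ⟨LinearMap.injective_iff_surjective.2 h4, h4⟩
  obtain ⟨π, hπ, hπ2, hπ3, hπ4⟩ := fitting μ (hh'.comp μ hh)
  let P : V →ₗ[K] V := l ∘ₗ π ∘ₗ ι
  have hP : ∀ v, P (P v) = P v := fun v => by
    simp only [P, LinearMap.comp_apply]
    rw [hmul π hπ, hπ2]
  have hP' : ∀ v, P (v - P v) = 0 := fun v => by rw [map_sub, hP, sub_self]
  obtain ⟨θ, hθ, hθ2⟩ := hext (π ∘ₗ ι ∘ₗ P + (LinearMap.id - π) ∘ₗ ι ∘ₗ (LinearMap.id - P))
  have hθ3 : ∀ v, θ (ι v) = π (ι (P v)) + (ι (v - P v) - π (ι (v - P v))) := hθ2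
  have hθ4 : ∀ v, l (θ (ι v)) = v := by
    intro v
    rw [hθ3, map_add, map_sub, hl]
    change P (P v) + (v - P v - P (v - P v)) = v
    rw [hP, hP']; abel
  have hθb := hbij θ hθ fun v => ⟨v, hθ4 v⟩
  obtain ⟨Ph, hPh, hPh2⟩ := hext (ι ∘ₗ P)
  have hPh3 : ∀ v, Ph (ι v) = ι (P v) := hPh2
  have he1 : ∀ a, π (θ a) = θ (Ph a) := huniq _ _ (hπ.comp μ hθ) (hθ.comp μ hPh) fun v => by
    simp only [LinearMap.comp_apply]
    rw [hPh3, hθ3, hθ3, hP, sub_self]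
    simp [hπ2]
  let Lh : V →ₗ[K] V := l ∘ₗ h ∘ₗ ι
  have hinj : Function.Injective (Lh ∘ₗ (LinearMap.range P).subtype) := by
    rw [injective_iff_map_eq_zero]
    rintro ⟨_, w, rfl⟩ hw
    have h1 : l (h (π (ι w))) = 0 := by rw [← hmul h hh]; exact hw
    have h2 := hsq (h (π (ι w)))
    rw [h1, map_zero, sub_zero] at h2
    exact Subtype.ext (hl2 _ (hπ4 _ (hh'.map_sq μ h2)))
  obtain ⟨T, hT⟩ := exists_linearEquiv_restrict_eq (LinearEquiv.ofInjective _ hinj)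
  have hT2 : ∀ v, Lh (P v) = T (P v) := fun v => hT ⟨P v, v, rfl⟩
  obtain ⟨s, hs, hs2⟩ := hext (h ∘ₗ θ ∘ₗ ι ∘ₗ P + ι ∘ₗ T.toLinearMap ∘ₗ (LinearMap.id - P))
  have hs3 : ∀ v, s (ι v) = h (θ (ι (P v))) + ι (T (v - P v)) := hs2
  have hsb := hbij s hs fun v => ⟨T.symm v, by
    rw [hs3, map_add, hl, ← hmul h hh, hθ4]
    change Lh (P _) + _ = _
    rw [hT2, ← map_add]
    simp⟩
  have he2 : ∀ a, s (Ph a) = h (θ (Ph a)) :=
    huniq _ _ (hs.comp μ hPh) (hh.comp μ (hθ.comp μ hPh)) fun v => by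
      simp only [LinearMap.comp_apply]
      rw [hPh3, hs3, hP, sub_self]
      simp
  refine ⟨(LinearEquiv.ofBijective θ hθb).symm.trans (LinearEquiv.ofBijective s hsb), ?_, ?_⟩
  · intro a b
    obtain ⟨a, rfl⟩ := hθb.2 a
    obtain ⟨b, rfl⟩ := hθb.2 b
    have h1 : ∀ x, (LinearEquiv.ofBijective θ hθb).symm (θ x) = x := fun x =>
      (LinearEquiv.ofBijective θ hθb).symm_apply_apply x
    rw [← hθ]
    simp only [LinearEquiv.coe_coe, LinearEquiv.trans_apply, h1, LinearEquiv.ofBijective_apply]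
    exact hs a b
  · intro a ha
    obtain ⟨a, rfl⟩ := hθb.2 a
    have h1 : (LinearEquiv.ofBijective θ hθb).symm (θ a) = a :=
      (LinearEquiv.ofBijective θ hθb).symm_apply_apply a
    have h2 : Ph a = a := hθb.1 (by rw [← he1]; exact hπ3 _ ha)
    simp only [LinearEquiv.trans_apply, h1, LinearEquiv.ofBijective_apply]
    rw [← h2, he2]

theorem core (hH : ∀ k a b c, c ∈ Pw μ ⊤ k → μ (μ a b) c ∈ Pw μ ⊤ (k + 2)) {n : ℕ}
    (hn : Pw μ ⊤ n = ⊥) {r : ℕ} (x : Fin r → A)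
    (hgen : ∀ B : Submodule K A, (∀ i, x i ∈ B) → (∀ a ∈ B, ∀ b ∈ B, μ a b ∈ B) → B = ⊤)
    (hext : ∀ y : Fin r → A, ∃ φ, IsEnd μ φ ∧ ∀ i, φ (x i) = y i)
    {h h' : A →ₗ[K] A} (hh : IsEnd μ h) (hh' : IsEnd μ h') :
    ∃ σ : A ≃ₗ[K] A, IsEnd μ σ.toLinearMap ∧ ∀ a, h' (h a) = a → σ a = h a := by
  classical
  by_cases htop : Pw μ ⊤ 1 = ⊤
  · have h1 := naka μ hH hn ⊥ (by simpa using htop) ⊥ fun k _ => Pw_le μ le_rfl (by simp) k
    have h2 : ∀ a : A, a = 0 := fun a => (h1.ge mem_top : a ∈ (⊥ : Submodule K A))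
    exact ⟨LinearEquiv.refl K A, fun a b => rfl, fun a _ => (h2 _).trans (h2 _).symm⟩
  let ι : (Fin r → K) →ₗ[K] A := Fintype.linearCombination K x
  have hι : ∀ i, ι (Pi.single i 1) = x i := fun i => by simp [ι]
  have hinj : LinearMap.ker ((Pw μ ⊤ 1).mkQ ∘ₗ ι) = ⊥ := by
    rw [LinearMap.ker_eq_bot']
    intro c hc
    rw [LinearMap.comp_apply, mkQ_apply, Quotient.mk_eq_zero] at hc
    ext j
    by_contra hj
    refine htop (top_unique fun a _ => ?_)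
    obtain ⟨φ, h1, h2⟩ := hext (Pi.single j a)
    have h3 := h1.map_sq μ hc
    simp only [ι, Fintype.linearCombination_apply, map_sum, map_smul, h2] at h3
    rw [Finset.sum_eq_single j (fun i _ hi => by simp [hi]) (by simp), Pi.single_eq_same] at h3
    exact (smul_mem_iff _ hj).1 h3
  obtain ⟨l, hl⟩ := LinearMap.exists_leftInverse_of_injective _ hinj
  refine core2 μ hH hn ι (l ∘ₗ (Pw μ ⊤ 1).mkQ) (fun v => DFunLike.congr_fun hl v) ?_ ?_ ?_ hh hh'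
  · intro a ha
    rw [LinearMap.comp_apply, mkQ_apply, (Quotient.mk_eq_zero _).2 ha, map_zero]
  · refine hgen _ (fun i => mem_sup_left ⟨_, hι i⟩) fun a _ b _ => mem_sup_right ?_
    exact apply_mem_map₂ μ mem_top mem_top
  · intro g
    obtain ⟨φ, h1, h2⟩ := hext fun i => g (Pi.single i 1)
    refine ⟨φ, h1, fun v => ?_⟩
    have : φ ∘ₗ ι = g := by
      refine LinearMap.pi_ext' fun i => LinearMap.ext_ring ?_
      simp [hι, h2]
    exact DFunLike.congr_fun this v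

end Pool.Agent.H24.NilCore
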