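import Mathlib
import Pool.Agent.H24.AlgDefs
import Pool.Agent.H24.NilCore
import Pool.Agent.H24.FOOld

set_option autoImplicit false
open FirstOrder FirstOrder.Language

namespace Pool.Agent.H24.Alg
open Pool.Agent.H24.NilCore

universe u v w

theorem alg_rel (K : Type u) (n : ℕ) : IsEmpty ((algLang K).Relations n) :=
  inferInstanceAs (IsEmpty Empty)

variable {K : Type u} [Field K] {A : Type v} [AddCommGroup A] [Module K A]
  {B : Type w} [AddCommGroup B] [Module K B]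

def mkHom (mA : A → A → A) (mB : B → B → B) (φ : A →ₗ[K] B)
    (h : ∀ a b, φ (mA a b) = mB (φ a) (φ b)) :
    @Language.Hom (algLang K) A B (algStr K A mA) (algStr K B mB) :=
  @Language.Hom.mk (algLang K) A B (algStr K A mA) (algStr K B mB) φ (by
    intro n f x
    cases f with
    | add => exact map_add φ _ _
    | neg => exact map_neg φ _
    | zero => exact map_zero φ
    | mul => exact h _ _
    | smul c => exact map_smul φ c _) (fun r => (alg_rel K _).elim r)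

def mkEquiv (mA : A → A → A) (mB : B → B → B) (φ : A ≃ₗ[K] B)
    (h : ∀ a b, φ (mA a b) = mB (φ a) (φ b)) :
    @Language.Equiv (algLang K) A B (algStr K A mA) (algStr K B mB) :=
  @Language.Equiv.mk (algLang K) A B (algStr K A mA) (algStr K B mB) φ.toEquiv (by
    intro n f x
    cases f with
    | add => exact map_add φ _ _
    | neg => exact map_neg φ _
    | zero => exact map_zero φ
    | mul => exact h _ _
    | smul c => exact map_smul φ c _) (fun r => (alg_rel K _).elim r)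

theorem typeEq_of_equiv (mA : A → A → A) (mB : B → B → B) (φ : A ≃ₗ[K] B)
    (h : ∀ a b, φ (mA a b) = mB (φ a) (φ b)) {k : ℕ} (a : Fin k → A) (b : Fin k → B)
    (hab : ∀ i, φ (a i) = b i) : TypeEq K mA mB a b := by
  intro ψ
  letI := algStr K A mA
  letI := algStr K B mB
  have h1 : b = mkEquiv mA mB φ h ∘ a := funext fun i => (hab i).symm
  rw [h1]
  exact (StrongHomClass.realize_formula (mkEquiv mA mB φ h) ψ).symm

theorem of_equiv (mA : A → A → A) (mB : B → B → B)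
    (e : @Language.Equiv (algLang K) A B (algStr K A mA) (algStr K B mB)) :
    ∃ φ : A ≃ₗ[K] B, ∀ a b, φ (mA a b) = mB (φ a) (φ b) := by
  letI := algStr K A mA
  letI := algStr K B mB
  refine ⟨{ toFun := e, invFun := e.symm, left_inv := e.symm_apply_apply,
            right_inv := e.apply_symm_apply, map_add' := fun a b => ?_,
            map_smul' := fun c a => ?_ }, fun a b => ?_⟩
  · exact e.map_fun (AlgFn.add : AlgFn K 2) ![a, b]
  · exact e.map_fun (AlgFn.smul c : AlgFn K 1) ![a]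
  · exact e.map_fun (AlgFn.mul : AlgFn K 2) ![a, b]

theorem term_gen (μ : A →ₗ[K] A →ₗ[K] A) {r : ℕ} (x : Fin r → A)
    (hgen : ∀ S : Submodule K A, (∀ i, x i ∈ S) → (∀ a ∈ S, ∀ b ∈ S, μ a b ∈ S) → S = ⊤)
    (y : A) : ∃ t : (algLang K).Term (Fin r),
      @Term.realize (algLang K) A (algStr K A fun a b => μ a b) _ x t = y := by
  letI := algStr K A fun a b => μ a b
  let S : Submodule K A :=
    { carrier := {y | ∃ t : (algLang K).Term (Fin r), t.realize x = y}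
      add_mem' := by
        rintro _ _ ⟨s, rfl⟩ ⟨t, rfl⟩
        exact ⟨Term.func (AlgFn.add : AlgFn K 2) ![s, t], rfl⟩
      zero_mem' := ⟨Term.func (AlgFn.zero : AlgFn K 0) ![], rfl⟩
      smul_mem' := by
        rintro c _ ⟨t, rfl⟩
        exact ⟨Term.func (AlgFn.smul c : AlgFn K 1) ![t], rfl⟩ }
  have := hgen S (fun i => ⟨Term.var i, rfl⟩) (by
    rintro _ ⟨s, rfl⟩ _ ⟨t, rfl⟩
    exact ⟨Term.func (AlgFn.mul : AlgFn K 2) ![s, t], rfl⟩)
  exact (this.ge Submodule.mem_top : y ∈ S)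

theorem exists_end (μ : A →ₗ[K] A →ₗ[K] A) {r : ℕ} (x : Fin r → A)
    (hgen : ∀ S : Submodule K A, (∀ i, x i ∈ S) → (∀ a ∈ S, ∀ b ∈ S, μ a b ∈ S) → S = ⊤)
    (hext : ∀ y : Fin r → A, ∃ φ, IsEnd μ φ ∧ ∀ i, φ (x i) = y i)
    {k : ℕ} (a b : Fin k → A) (hab : TypeEq K (fun a b => μ a b) (fun a b => μ a b) a b) :
    ∃ h, IsEnd μ h ∧ ∀ i, h (a i) = b i := by
  letI := algStr K A fun a b => μ a b
  choose t ht using fun i => term_gen μ x hgen (a i)
  obtain ⟨y, hy⟩ := FO.exists_tuple a b hab t x ht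
  obtain ⟨h, h1, h2⟩ := hext y
  refine ⟨h, h1, fun i => ?_⟩
  rw [← ht, ← hy]
  have h3 : y = mkHom (fun a b => μ a b) (fun a b => μ a b) h h1 ∘ x := funext fun j => (h2 j).symm
  rw [h3, HomClass.realize_term]
  rfl

theorem homog (μ : A →ₗ[K] A →ₗ[K] A)
    (hH : ∀ k a b c, c ∈ Pw μ ⊤ k → μ (μ a b) c ∈ Pw μ ⊤ (k + 2)) {n : ℕ}
    (hn : Pw μ ⊤ n = ⊥) {r : ℕ} (x : Fin r → A)
    (hgen : ∀ S : Submodule K A, (∀ i, x i ∈ S) → (∀ a ∈ S, ∀ b ∈ S, μ a b ∈ S) → S = ⊤)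
    (hext : ∀ y : Fin r → A, ∃ φ, IsEnd μ φ ∧ ∀ i, φ (x i) = y i)
    {k : ℕ} (a b : Fin k → A) (hab : TypeEq K (fun a b => μ a b) (fun a b => μ a b) a b) :
    ∃ σ : A ≃ₗ[K] A, (∀ p q, σ (μ p q) = μ (σ p) (σ q)) ∧ ∀ i, σ (a i) = b i := by
  obtain ⟨h, h1, h2⟩ := exists_end μ x hgen hext a b hab
  obtain ⟨h', h3, h4⟩ := exists_end μ x hgen hext b a fun φ => (hab φ).symm
  obtain ⟨σ, h5, h6⟩ := core μ hH hn x hgen hext h1 h3
  exact ⟨σ, h5, fun i => by rw [h6 _ (by rw [h2, h4]), h2]⟩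

theorem separ (μ : A →ₗ[K] A →ₗ[K] A)
    (hH : ∀ k a b c, c ∈ Pw μ ⊤ k → μ (μ a b) c ∈ Pw μ ⊤ (k + 2)) {n : ℕ}
    (hn : Pw μ ⊤ n = ⊥) {r : ℕ} (x : Fin r → A)
    (hgen : ∀ S : Submodule K A, (∀ i, x i ∈ S) → (∀ a ∈ S, ∀ b ∈ S, μ a b ∈ S) → S = ⊤)
    (hext : ∀ y : Fin r → A, ∃ φ, IsEnd μ φ ∧ ∀ i, φ (x i) = y i)
    (mB : B → B → B) (hiso : Isotyp K (fun a b => μ a b) mB) :
    ∃ φ : A ≃ₗ[K] B, ∀ a b, φ (μ a b) = mB (φ a) (φ b) := by
  letI := algStr K A fun a b => μ a b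
  letI := algStr K B mB
  obtain ⟨h, hh⟩ := (hiso (r + 1) (by omega)).1 (Fin.cons 0 x)
  obtain ⟨e⟩ := FO.sep_of_homog (alg_rel K) x (term_gen μ x hgen) (fun x' hx' => by
      obtain ⟨σ, h1, h2⟩ := homog μ hH hn x hgen hext x x' fun φ => (hx' φ).symm
      exact ⟨mkEquiv (fun a b => μ a b) (fun a b => μ a b) σ h1, funext h2⟩) (h ∘ Fin.succ) (fun φ => by
      rw [← Formula.realize_relabel, ← hh, Formula.realize_relabel]
      rfl) (hiso (r + 1) (by omega)).2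
  exact of_equiv _ _ e

end Pool.Agent.H24.Alg
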