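import Pool.Agent.H24.Ki1

set_option autoImplicit false

namespace Pool.Agent.H24.Ki
open Pool.Agent.H11.PT Pool.Agent.H25.CB Finset

theorem cf {β : Type} [DecidableEq β] {l : List β} (h : l.Nodup) (p : β → Bool) :
    l.countP p = #{a ∈ l.toFinset | p a = true} := by rw [cs h, card_filter]

def nx (C s : ℕ) : ℕ := if s + 1 = C then 0 else s + 1

theorem nx_iff {C s t : ℕ} : t = nx C s ↔ (s + 1 = C ∧ t = 0) ∨ (s + 1 ≠ C ∧ t = s + 1) := by
  unfold nx; split_ifs <;> omega

theorem around {n : ℕ} {P : ℕ → Prop} (h : ∀ i < n, P i → P (nx n i)) {i j : ℕ} (hi : i < n)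
    (hj : j < n) (hp : P i) : P j := by
  have k : ∀ a, P a → ∀ b, a ≤ b → b < n → P b := fun a ha b hab => by
    induction b, hab using Nat.le_induction with
    | base => exact fun _ => ha
    | succ b _ ih =>
      intro hb
      have := h b (by omega) (ih (by omega))
      rwa [nx, if_neg (by omega)] at this
  have := h (n - 1) (by omega) (k i hp _ (by omega) (by omega))
  rw [nx, if_pos (by omega)] at this
  exact k 0 this j (by omega) hj

theorem blk (σ : ℕ → Bool) (n : ℕ) : #{s ∈ range (3 * n) | σ s = true} =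
    ∑ i ∈ range n, ((σ (3 * i)).toNat + (σ (3 * i + 1)).toNat + (σ (3 * i + 2)).toNat) := by
  rw [card_filter]
  induction n with
  | zero => rfl
  | succ n ih =>
    rw [sum_range_succ, ← ih, mul_add, sum_range_add]
    simp only [mul_one, sum_range_succ, sum_range_zero, add_zero]
    cases σ (3 * n) <;> cases σ (3 * n + 1) <;> cases σ (3 * n + 2) <;> rfl

theorem blk1 {σ : ℕ → Bool} {n : ℕ}
    (h : ∀ i < n, ¬ (σ (3 * i) = true ∧ σ (3 * i + 1) = true ∧ σ (3 * i + 2) = true)) :
    ∀ i ∈ range n, (σ (3 * i)).toNat + (σ (3 * i + 1)).toNat + (σ (3 * i + 2)).toNat ≤ 2 := by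
  intro i hi
  have := h i (mem_range.1 hi)
  revert this
  cases σ (3 * i) <;> cases σ (3 * i + 1) <;> cases σ (3 * i + 2) <;> simp

theorem cyc {σ : ℕ → Bool} {n : ℕ} (hn : 0 < n) (W : ∀ a < 3 * n, ∀ b c, b = nx (3 * n) a →
    c = nx (3 * n) b → ¬ (σ a = true ∧ σ b = true ∧ σ c = true))
    (h : 2 * n ≤ #{s ∈ range (3 * n) | σ s = true}) :
    (∀ s < 3 * n, σ s = σ (s % 3)) ∧ (σ 0).toNat + (σ 1).toNat + (σ 2).toNat = 2 := by
  have b1 := blk1 (σ := σ) (n := n) fun i hi => W _ (by omega) _ _ (nx_iff.2 (by omega))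
    (nx_iff.2 (by omega))
  rw [blk] at h
  have b2 := (sum_eq_sum_iff_of_le b1).1 (le_antisymm (sum_le_sum b1) (by simpa [mul_comm] using h))
  simp only [mem_range] at b2
  have hx : ∀ i < n, nx n i < n := fun i hi => by unfold nx; split_ifs <;> omega
  have h3 : ∀ i < n, 3 * nx n i = nx (3 * n) (3 * i + 2) := fun i hi => by
    unfold nx; split_ifs <;> omega
  have p1 : ∀ i < n, σ (3 * i) = false → σ (3 * nx n i) = false := fun i hi e => by
    have a := b2 i hi
    have b := W (3 * i + 1) (by omega) (3 * i + 2) _ (nx_iff.2 (by omega)) (h3 i hi)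
    revert a b e
    cases σ (3 * i) <;> cases σ (3 * i + 1) <;> cases σ (3 * i + 2) <;> simp
  have p2 : ∀ i < n, σ (3 * i + 2) = true → σ (3 * nx n i + 2) = true := fun i hi e => by
    have a := b2 _ (hx i hi)
    have := hx i hi
    have b := W (3 * i + 2) (by omega) _ (3 * nx n i + 1) (h3 i hi) (nx_iff.2 (by omega))
    revert a b e
    cases σ (3 * nx n i) <;> cases σ (3 * nx n i + 1) <;> cases σ (3 * nx n i + 2) <;> simp
  refine ⟨fun s hs => ?_, b2 0 hn⟩
  have hi : s / 3 < n := by omega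
  have a1 := around (P := fun i => σ (3 * i) = false) p1 hi hn
  have a2 := around (P := fun i => σ (3 * i) = false) p1 hn hi
  have a3 := around (P := fun i => σ (3 * i + 2) = true) p2 hi hn
  have a4 := around (P := fun i => σ (3 * i + 2) = true) p2 hn hi
  have a5 := b2 _ hi
  have a6 := b2 0 hn
  obtain ⟨i, e⟩ : ∃ i, i = s / 3 := ⟨_, rfl⟩
  rw [← e] at a1 a2 a3 a4 a5
  simp only [mul_zero, zero_add] at a1 a2 a3 a4 a6
  have : σ (3 * i) = σ 0 ∧ σ (3 * i + 1) = σ 1 ∧ σ (3 * i + 2) = σ 2 := by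
    revert a1 a2 a3 a4 a5 a6
    cases σ (3 * i) <;> cases σ (3 * i + 1) <;> cases σ (3 * i + 2) <;> cases σ 0 <;> cases σ 1 <;>
      cases σ 2 <;> simp
  have h3 : s % 3 = 0 ∨ s % 3 = 1 ∨ s % 3 = 2 := by omega
  rcases h3 with h3 | h3 | h3 <;> rw [h3]
  · rw [← this.1]; congr 1; omega
  · rw [← this.2.1]; congr 1; omega
  · rw [← this.2.2]; congr 1; omega

abbrev B := Bool × ℕ × ℕ

def pos (φ : F3) (o : ℕ) : ℕ := 3 * o + bif (lit φ o).2 then 0 else 2

def VB (q : ℕ) (φ : F3) : List B :=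
  (List.range (nv φ) ×ˢ List.range (3 * (3 * φ.length))).map (fun p => (false, p)) ++
    (List.range φ.length ×ˢ List.range q).map fun p => (true, p)

def port (q : ℕ) (φ : F3) (a b : B) : Prop :=
  a.1 = false ∧ b.1 = true ∧ a.2.2 / 9 = b.2.1 ∧ a.2.2 / 3 % 3 % q = b.2.2 ∧
    a.2.1 = (lit φ (a.2.2 / 3)).1 ∧ a.2.2 = pos φ (a.2.2 / 3)

def AB (q : ℕ) (φ : F3) (a b : B) : Prop :=
  (a.1 = false ∧ b.1 = false ∧ a.2.1 = b.2.1 ∧
    (b.2.2 = nx (3 * (3 * φ.length)) a.2.2 ∨ a.2.2 = nx (3 * (3 * φ.length)) b.2.2)) ∨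
  (a.1 = true ∧ b.1 = true ∧ a.2.1 = b.2.1 ∧ (b.2.2 = (a.2.2 + 1) % 4 ∨ a.2.2 = (b.2.2 + 1) % 4)) ∨
  port q φ a b ∨ port q φ b a

instance (q : ℕ) (φ : F3) (a b : B) : Decidable (AB q φ a b) := by
  unfold AB port; infer_instance

def base (q c : ℕ) (φ : F3) : I B :=
  (VB q φ, (VB q φ ×ˢ VB q φ).filter fun e => decide (AB q φ e.1 e.2),
    nv φ * (2 * (3 * φ.length)) + φ.length * c)

theorem pt_base (q c : ℕ) : PT (base q c) := by
  have h2 : PT (VB q) := by unfold VB; fun_prop
  have h3 : PT fun p : F3 × B × B => decide (AB q p.1 p.2.1 p.2.2) := by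
    unfold AB port pos nx; fun_prop
  unfold base
  exact PT.pair h2 (PT.pair (PT.filter (by fun_prop) h3) (by fun_prop))

variable {q c : ℕ} {φ : F3}

theorem memF {x s : ℕ} : (false, x, s) ∈ VB q φ ↔ x < nv φ ∧ s < 3 * (3 * φ.length) := by simp [VB]
theorem memT {j t : ℕ} : (true, j, t) ∈ VB q φ ↔ j < φ.length ∧ t < q := by simp [VB]

theorem nodupB : (VB q φ).Nodup := by
  refine List.nodup_append.2 ⟨(List.nodup_range.product List.nodup_range).map fun _ _ h => ?_,
    (List.nodup_range.product List.nodup_range).map fun _ _ h => ?_, by simp⟩ <;> simpa using h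

theorem cntB (σ : B → Bool) : (VB q φ).countP σ =
    ∑ x ∈ range (nv φ), #{s ∈ range (3 * (3 * φ.length)) | σ (false, x, s) = true} +
      ∑ j ∈ range φ.length, #{t ∈ range q | σ (true, j, t) = true} := by
  have : ∀ (b : Bool) m g, ((List.range m ×ˢ List.range g).map fun p => (b, p)).countP σ
      = ∑ i ∈ range m, #{t ∈ range g | σ (b, i, t) = true} := fun b m g => by
    rw [List.countP_map, cs (List.nodup_range.product List.nodup_range)]
    simp only [card_filter]
    rw [← sum_product']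
    refine sum_congr ?_ fun _ _ => rfl
    ext ⟨a, b⟩; simp
  rw [VB, List.countP_append, this, this]

theorem dgB (σ : B → Bool) {a : B} (ha : a ∈ VB q φ) :
    dg (base q c φ) σ a = #{b ∈ (VB q φ).toFinset | σ b = true ∧ AB q φ a b} := by
  refine (cf nodupB _).trans ?_
  exact congrArg card (filter_congr fun b hb => by simp [base, ha, List.mem_toFinset.1 hb])

theorem pos3 (o : ℕ) : pos φ o = 3 * o ∧ (lit φ o).2 = true ∨
    pos φ o = 3 * o + 2 ∧ (lit φ o).2 = false := by
  unfold pos; cases (lit φ o).2 <;> simp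

theorem valB (hq : q = 1 ∨ q = 4) (hφ : 0 < φ.length) : Val (· ≤ 3) (base q c φ) := by
  refine ⟨nodupB, ?_, ?_, ?_⟩
  · have := lit_lt φ 0
    have : 0 < nv φ * (2 * (3 * φ.length)) := Nat.mul_pos (by omega) (by omega)
    simp only [base]; omega
  · rintro ⟨b, x, s⟩ ⟨b', x', s'⟩ e
    simp only [base, List.mem_filter, List.mem_product, decide_eq_true_eq] at e ⊢
    refine ⟨⟨e.1.symm, by unfold AB at *; tauto⟩, fun h => ?_⟩
    obtain ⟨rfl, rfl, rfl⟩ := h
    simp only [AB, port, nx_iff] at e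
    cases b <;> simp at e <;> omega
  · rintro ⟨b, x, s⟩ ha
    rw [dgB _ ha]
    cases b
    · refine (card_le_card (t := {(false, x, nx (3 * (3 * φ.length)) s),
        (false, x, if s = 0 then 3 * (3 * φ.length) - 1 else s - 1),
        (true, s / 9, s / 3 % 3 % q)}) ?_).trans card_le_three
      rintro ⟨b', x', s'⟩ hb
      simp only [mem_filter, AB, port, nx_iff, mem_insert, mem_singleton, Prod.mk.injEq] at hb ⊢
      cases b' <;> simp at hb ⊢ <;> (try split_ifs) <;> omega
    · have k : ∀ x' s', port q φ (false, x', s') (true, x, s) →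
          (false, x', s') = (false, (lit φ (s' / 3)).1, pos φ (s' / 3)) ∧ s' / 9 = x ∧
            s' / 3 % 3 % q = s := fun x' s' h => by
        simp only [port] at h; simp only [Prod.mk.injEq]; tauto
      have ht := (memT.1 ha).2
      rcases hq with rfl | rfl
      · refine (card_le_card (t := {(false, (lit φ (3 * x)).1, pos φ (3 * x)),
          (false, (lit φ (3 * x + 1)).1, pos φ (3 * x + 1)),
          (false, (lit φ (3 * x + 2)).1, pos φ (3 * x + 2))}) ?_).trans card_le_three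
        rintro ⟨b', x', s'⟩ hb
        simp only [mem_filter, AB, List.mem_toFinset] at hb
        cases b'
        · obtain ⟨k1, k2, -⟩ := k x' s' (by simpa [port] using hb.2)
          have : s' / 3 = 3 * x ∨ s' / 3 = 3 * x + 1 ∨ s' / 3 = 3 * x + 2 := by omega
          rcases this with e | e | e <;> simp [k1, e]
        · have := (memT.1 hb.1).2
          simp [port] at hb; omega
      · refine (card_le_card (t := {(false, (lit φ (3 * x + s)).1, pos φ (3 * x + s)),
          (true, x, (s + 1) % 4), (true, x, (s + 3) % 4)}) ?_).trans card_le_three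
        rintro ⟨b', x', s'⟩ hb
        simp only [mem_filter, AB, List.mem_toFinset] at hb
        cases b'
        · obtain ⟨k1, k2, k3⟩ := k x' s' (by simpa [port] using hb.2)
          have e : s' / 3 = 3 * x + s := by omega
          simp [k1, e]
        · have := (memT.1 hb.1).2
          simp [port] at hb ⊢; omega

theorem portO {j t : ℕ} (hj : j < φ.length) (ht : t < 3) :
    (false, (lit φ (3 * j + t)).1, pos φ (3 * j + t)) ∈ VB q φ ∧
      port q φ (false, (lit φ (3 * j + t)).1, pos φ (3 * j + t)) (true, j, t % q) := by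
  have a := pos3 (φ := φ) (3 * j + t)
  have e : pos φ (3 * j + t) / 3 = 3 * j + t := by omega
  refine ⟨memF.2 ⟨lit_lt _ _, by omega⟩, rfl, rfl, by simp only; omega, ?_, ?_, ?_⟩
  · simp only [e]; congr 1; omega
  all_goals simp only [e]

theorem tight {σ : B → Bool} (h : (base q c φ).2.2 ≤ (VB q φ).countP σ)
    (h1 : ∀ x < nv φ, ∀ i < 3 * φ.length, ¬ (σ (false, x, 3 * i) = true ∧
      σ (false, x, 3 * i + 1) = true ∧ σ (false, x, 3 * i + 2) = true))
    (h2 : ∀ j ∈ range φ.length, #{t ∈ range q | σ (true, j, t) = true} ≤ c) :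
    (∀ x < nv φ, 2 * (3 * φ.length) ≤ #{s ∈ range (3 * (3 * φ.length)) | σ (false, x, s) = true}) ∧
      ∀ j < φ.length, #{t ∈ range q | σ (true, j, t) = true} = c := by
  have h3 : ∀ x ∈ range (nv φ), #{s ∈ range (3 * (3 * φ.length)) | σ (false, x, s) = true}
      ≤ 2 * (3 * φ.length) := fun x hx => by
    rw [blk (fun s => σ (false, x, s))]
    exact (sum_le_sum (blk1 (σ := fun s => σ (false, x, s)) (h1 x (mem_range.1 hx)))).trans
      (by simp [mul_comm])
  have a := sum_le_sum h2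
  have b := sum_le_sum h3
  rw [cntB] at h
  simp only [base] at h
  refine ⟨fun x hx => ((sum_eq_sum_iff_of_le h3).1 (le_antisymm b ?_) x (mem_range.2 hx)).ge,
    fun j hj => (sum_eq_sum_iff_of_le h2).1 (le_antisymm a ?_) j (mem_range.2 hj)⟩ <;>
  simp only [sum_const, card_range, smul_eq_mul] at a b ⊢ <;> omega

theorem fin {σ : B → Bool} (h : ∀ x < nv φ, (∀ s < 3 * (3 * φ.length),
      σ (false, x, s) = σ (false, x, s % 3)) ∧
      (σ (false, x, 0)).toNat + (σ (false, x, 1)).toNat + (σ (false, x, 2)).toNat = 2)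
    (h2 : ∀ j < φ.length, ∃ t < 3, σ (false, (lit φ (3 * j + t)).1, pos φ (3 * j + t)) = false) :
    SAT3 φ := by
  refine (sat_iff φ).2 ⟨fun x => !σ (false, x, 0), fun j hj => ?_⟩
  obtain ⟨t, ht, e⟩ := h2 j hj
  obtain ⟨a, b⟩ := h _ (lit_lt φ (3 * j + t))
  refine ⟨t, ht, ?_⟩
  rcases pos3 (φ := φ) (3 * j + t) with c | c <;> rw [a _ (by omega), c.1] at e
  · rw [show 3 * (3 * j + t) % 3 = 0 by omega] at e
    simp [e, c.2]
  · rw [show (3 * (3 * j + t) + 2) % 3 = 2 by omega] at e
    rw [e] at b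
    rw [c.2]
    have : σ (false, (lit φ (3 * j + t)).1, 0) = true := by
      revert b
      cases σ (false, (lit φ (3 * j + t)).1, 0) <;>
        cases σ (false, (lit φ (3 * j + t)).1, 1) <;> simp
    simp [this]

theorem cntS (τ : ℕ → Bool) (ρ : ℕ → ℕ → Bool) (h : ∀ j < φ.length, #{t ∈ range q | ρ j t = true} = c) :
    (base q c φ).2.2 ≤ (VB q φ).countP fun a =>
      bif a.1 then ρ a.2.1 a.2.2 else a.2.2 % 3 != bif τ a.2.1 then 0 else 2 := by
  rw [cntB]
  simp only [cond_true, cond_false]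
  rw [sum_congr rfl fun j hj => h j (mem_range.1 hj),
    sum_congr rfl (g := fun _ => 2 * (3 * φ.length)) fun x _ => ?_]
  · simp [base]
  · rw [blk, sum_congr rfl (g := fun _ => 2) fun i _ => ?_]
    · simp [mul_comm]
    · cases τ x <;> simp [Nat.add_mod]

theorem hard0 : HardFor InNP (fun φ : F3 => 0 < φ.length) SAT3 :=
  hard_SAT3.hardFor.red (fun φ => ((0, true), (0, false), (0, true)) :: φ) (by fun_prop)
    fun φ _ => ⟨by simp, by simp [SAT3]⟩

theorem hardA {r : ℕ} (hr : 3 ≤ r) : HardFor InNP (Val (β := B) (· ≤ 3)) (Q (r - ·) (r - 1)) := by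
  refine hard0.red (base 1 1) (pt_base _ _) fun φ hφ => ⟨valB (.inl rfl) hφ, ?_⟩
  have hv := (valB (c := 1) (.inl rfl) hφ).2.2.2
  have key : ∀ σ : B → Bool, ∀ a ∈ VB 1 φ, dg (base 1 1 φ) σ a + (r - dg (base 1 1 φ)
      (fun _ => true) a) ≤ r - 1 ↔ ∃ b ∈ VB 1 φ, AB 1 φ a b ∧ σ b = false := fun σ a ha => by
    have := hv a ha
    have s : {b ∈ (VB 1 φ).toFinset | σ b = true ∧ AB 1 φ a b} ⊆
        {b ∈ (VB 1 φ).toFinset | true = true ∧ AB 1 φ a b} := monotone_filter_right _ (by tauto)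
    refine Iff.trans (b := dg (base 1 1 φ) σ a < dg (base 1 1 φ) (fun _ => true) a) (by omega) ?_
    rw [dgB _ ha, dgB _ ha, ← not_le, eq_iff_card_ge_of_superset s, ← Ne, ne_comm,
      ← (Finset.ssubset_iff_subset_ne.trans (and_iff_right s)), ssubset_iff_of_subset s]
    simp only [mem_filter, List.mem_toFinset]
    exact exists_congr fun b => by cases σ b <;> simp
  constructor
  · intro h
    obtain ⟨τ, hτ⟩ := (sat_iff φ).1 h
    refine ⟨_, cntS τ (fun _ _ => true) (by simp), ?_⟩
    rintro ⟨b, x, s⟩ ha hσ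
    rw [key _ _ ha]
    cases b
    · obtain ⟨h1, h2⟩ := memF.1 ha
      by_cases e : (s + 1) % 3 = bif τ x then 0 else 2
      · refine ⟨(false, x, nx (3 * (3 * φ.length)) s), memF.2 ⟨h1, ?_⟩, .inl (by simp), ?_⟩
        · unfold nx; split_ifs <;> omega
        · revert e; unfold nx; cases τ x <;> simp <;> split_ifs <;> omega
      · refine ⟨(false, x, if s = 0 then 3 * (3 * φ.length) - 1 else s - 1), memF.2 ⟨h1, ?_⟩,
          .inl ?_, ?_⟩
        · split_ifs <;> omega
        · simp only [nx_iff, true_and]; split_ifs <;> omega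
        · revert e hσ; cases τ x <;> simp <;> split_ifs <;> omega
    · obtain ⟨h1, h2⟩ := memT.1 ha
      obtain ⟨t, ht, e⟩ := hτ x h1
      obtain ⟨p1, p2⟩ := portO (q := 1) h1 ht
      rw [show t % 1 = s by omega] at p2
      refine ⟨_, p1, .inr (.inr (.inr p2)), ?_⟩
      rcases pos3 (φ := φ) (3 * x + t) with c | c <;> simp [e, c.1, c.2]
  · rintro ⟨σ, a1, a2⟩
    have nb : ∀ x < nv φ, ∀ a < 3 * (3 * φ.length), ∀ b c, b = nx (3 * (3 * φ.length)) a →
        c = nx (3 * (3 * φ.length)) b → σ (false, x, a) = true ∧ σ (false, x, b) = true ∧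
          σ (false, x, c) = true → b % 3 ≠ 1 ∧ σ (true, b / 9, 0) = false := by
      intro x hx a ha b c hb hc ⟨s1, s2, s3⟩
      have hb' : b < 3 * (3 * φ.length) := by rw [nx_iff] at hb; omega
      obtain ⟨⟨b', x', s'⟩, m, e, f⟩ := (key σ _ (memF.2 ⟨hx, hb'⟩)).1 (a2 _ (memF.2 ⟨hx, hb'⟩) s2)
      cases b'
      · have := (memF.1 m).2
        simp [AB, port, nx_iff] at e hb hc
        obtain ⟨rfl, e⟩ := e
        have : s' = a ∨ s' = c := by omega
        rcases this with rfl | rfl <;> simp_all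
      · have := pos3 (φ := φ) (b / 3)
        simp [AB, port, Nat.mod_one] at e
        obtain ⟨rfl, rfl, -, e⟩ := e
        exact ⟨by omega, f⟩
    obtain ⟨t1, t2⟩ := tight a1 (fun x hx i hi h => (nb x hx _ (by omega) _ _ (nx_iff.2 (by omega))
      (nx_iff.2 (by omega)) h).1 (by omega)) fun j _ => (card_filter_le _ _).trans (by simp)
    have t3 : ∀ j < φ.length, σ (true, j, 0) = true := fun j hj => by
      have := t2 j hj
      by_contra h
      simp [filter_singleton, h] at this
    refine fin (σ := σ) (fun x hx => cyc (σ := fun s => σ (false, x, s)) (by omega)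
      (fun a ha b c hb hc h => ?_) (t1 x hx)) fun j hj => ?_
    · have := (nb x hx a ha b c hb hc h).2
      rw [t3 _ (by rw [nx_iff] at hb; omega)] at this
      simp at this
    · obtain ⟨⟨b', x', s'⟩, m, e, f⟩ := (key σ _ (memT.2 ⟨hj, one_pos⟩)).1
        (a2 _ (memT.2 ⟨hj, one_pos⟩) (t3 j hj))
      cases b'
      · simp [AB, port] at e
        obtain ⟨e1, -, e2, e3⟩ := e
        refine ⟨s' / 3 % 3, by omega, ?_⟩
        rw [show 3 * j + s' / 3 % 3 = s' / 3 by omega, ← e2, ← e3, f]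
      · have := (memT.1 m).2
        simp [AB, port] at e; omega

theorem hardB {k : ℕ} (hk : 1 ≤ k) : HardFor InNP (Val (β := B) (· ≤ 3)) (Q (fun _ => k - 1) k) := by
  refine hard0.red (base 4 2) (pt_base _ _) fun φ hφ => ⟨valB (.inr rfl) hφ, ?_⟩
  have key : ∀ σ : B → Bool, ∀ a ∈ VB 4 φ, dg (base 4 2 φ) σ a + (k - 1) ≤ k ↔
      ∀ b ∈ VB 4 φ, σ b = true → AB 4 φ a b → ∀ c ∈ VB 4 φ, σ c = true → AB 4 φ a c → b = c :=
    fun σ a ha => by
      refine Iff.trans (b := dg (base 4 2 φ) σ a ≤ 1) (by omega) ?_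
      rw [dgB _ ha, card_le_one]
      simp only [mem_filter, List.mem_toFinset, and_imp]
  constructor
  · intro h
    obtain ⟨τ, hτ⟩ := (sat_iff φ).1 h
    choose! T h1 h2 using hτ
    refine ⟨_, cntS τ (fun j t => t == 3 || t == T j) fun j hj => ?_, ?_⟩
    · have := h1 j hj
      rw [show {t ∈ range 4 | (t == 3 || t == T j) = true} = {3, T j} by ext; simp; omega,
        card_pair (by omega)]
    have np : ∀ x s j t, j < φ.length → (s % 3 != bif τ x then 0 else 2) = true →
        (t == 3 || t == T j) = true → ¬ port 4 φ (false, x, s) (true, j, t) := by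
      intro x s j t hj a b ⟨_, _, e1, e2, e3, e4⟩
      simp only at e1 e2 e3 e4
      have := h1 j hj
      have e : s / 3 = 3 * j + T j := by simp at b; omega
      rw [e] at e3 e4
      rw [e3, h2 j hj, e4] at a
      rcases pos3 (φ := φ) (3 * j + T j) with c | c <;> simp [c.1, c.2] at a
    rintro ⟨b, x, s⟩ ha hσ
    rw [key _ _ ha]
    rintro ⟨b1, x1, s1⟩ m1 c1 e1 ⟨b2, x2, s2⟩ m2 c2 e2
    cases b
    · have k : ∀ b1 x1 s1, (b1, x1, s1) ∈ VB 4 φ → (bif b1 then s1 == 3 || s1 == T x1 else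
          s1 % 3 != bif τ x1 then 0 else 2) = true → AB 4 φ (false, x, s) (b1, x1, s1) →
          b1 = false ∧ x1 = x ∧ s1 < 3 * (3 * φ.length) ∧ s1 % 3 ≠ (bif τ x then 0 else 2) ∧
            (s1 = nx (3 * (3 * φ.length)) s ∨ s = nx (3 * (3 * φ.length)) s1) := by
        intro b1 x1 s1 m c e
        cases b1
        · simp [AB, port] at e
          obtain ⟨rfl, e⟩ := e
          exact ⟨rfl, rfl, (memF.1 m).2, by simpa using c, e⟩
        · exact absurd (by simpa [AB, port] using e) (np x s x1 s1 (memT.1 m).1 hσ c)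
      obtain ⟨rfl, rfl, a1, a2, a3⟩ := k _ _ _ m1 c1 e1
      obtain ⟨rfl, rfl, a4, a5, a6⟩ := k _ _ _ m2 c2 e2
      have := (memF.1 ha).2
      simp only [nx_iff, cond_false, bne_iff_ne] at a3 a6 hσ
      revert hσ a2 a5
      cases τ x2 <;> simp <;> omega
    · have k : ∀ b1 x1 s1, (b1, x1, s1) ∈ VB 4 φ → (bif b1 then s1 == 3 || s1 == T x1 else
          s1 % 3 != bif τ x1 then 0 else 2) = true → AB 4 φ (true, x, s) (b1, x1, s1) →
          b1 = true ∧ x1 = x ∧ s1 ≠ s ∧ (s1 = 3 ∨ s1 = T x) := by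
        intro b1 x1 s1 m c e
        cases b1
        · exact absurd (by simpa [AB, port] using e) (np x1 s1 x s (memT.1 ha).1 c hσ)
        · simp [AB, port] at e
          obtain ⟨rfl, e⟩ := e
          exact ⟨rfl, rfl, by omega, by simpa using c⟩
      obtain ⟨rfl, rfl, a1, a2⟩ := k _ _ _ m1 c1 e1
      obtain ⟨rfl, rfl, a4, a5⟩ := k _ _ _ m2 c2 e2
      simp at hσ ⊢; omega
  · rintro ⟨σ, a1, a2⟩
    have a3 := fun a ha hσ => (key σ a ha).1 (a2 a ha hσ)
    have W : ∀ x < nv φ, ∀ a < 3 * (3 * φ.length), ∀ b c, b = nx (3 * (3 * φ.length)) a →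
        c = nx (3 * (3 * φ.length)) b → ¬ (σ (false, x, a) = true ∧ σ (false, x, b) = true ∧
          σ (false, x, c) = true) := by
      intro x hx a ha b c hb hc ⟨s1, s2, s3⟩
      have := a3 _ (memF.2 ⟨hx, by rw [nx_iff] at hb; omega⟩) s2 _ (memF.2 ⟨hx, ha⟩) s1
        (.inl (by simp [hb])) _ (memF.2 ⟨hx, by rw [nx_iff] at hb hc; omega⟩) s3 (.inl (by simp [hc]))
      simp [nx_iff] at this hb hc; omega
    obtain ⟨t1, t2⟩ := tight a1 (fun x hx i hi => W x hx _ (by omega) _ _ (nx_iff.2 (by omega))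
      (nx_iff.2 (by omega))) fun j hj => by
        have hj := mem_range.1 hj
        have w : ∀ a < 4, ¬ (σ (true, j, a) = true ∧ σ (true, j, (a + 1) % 4) = true ∧
            σ (true, j, (a + 2) % 4) = true) := fun a ha ⟨s1, s2, s3⟩ => by
          have := a3 _ (memT.2 ⟨hj, by omega⟩) s2 _ (memT.2 ⟨hj, ha⟩) s1 (.inr (.inl (by simp)))
            _ (memT.2 ⟨hj, by omega⟩) s3 (.inr (.inl (by simp)))
          simp at this; omega
        have w0 := w 0 (by omega)
        have w1 := w 1 (by omega)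
        have w2 := w 2 (by omega)
        have w3 := w 3 (by omega)
        simp only [card_filter, sum_range_succ, sum_range_zero]
        revert w0 w1 w2 w3
        cases σ (true, j, 0) <;> cases σ (true, j, 1) <;> cases σ (true, j, 2) <;>
          cases σ (true, j, 3) <;> simp
    have cy := fun x hx => cyc (σ := fun s => σ (false, x, s)) (by omega) (W x hx) (t1 x hx)
    refine fin (σ := σ) cy fun j hj => ?_
    have : ∃ t < 3, σ (true, j, t) = true := by
      have := t2 j hj
      simp only [card_filter, sum_range_succ, sum_range_zero] at this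
      by_contra h
      push Not at h
      simp [h 0 (by omega), h 1 (by omega), h 2 (by omega)] at this
      split_ifs at this <;> omega
    obtain ⟨t, ht, e⟩ := this
    refine ⟨t, ht, ?_⟩
    obtain ⟨p1, p2⟩ := portO (q := 4) hj ht
    rw [show t % 4 = t by omega] at p2
    by_contra h
    rw [Bool.not_eq_false] at h
    generalize (lit φ (3 * j + t)).1 = x, pos φ (3 * j + t) = s at p1 p2 h
    obtain ⟨hx, hs⟩ := memF.1 p1
    obtain ⟨c1, c2⟩ := cy x hx
    have k : ∀ s' < 3 * (3 * φ.length), (s' = nx (3 * (3 * φ.length)) s ∨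
        s = nx (3 * (3 * φ.length)) s') → σ (false, x, s' % 3) = false := fun s' h1 h2 => by
      rw [← c1 s' h1]
      by_contra h3
      simpa using a3 _ p1 h _ (memT.2 ⟨hj, by omega⟩) e (.inr (.inr (.inl p2))) _
        (memF.2 ⟨hx, h1⟩) (by simpa using h3) (.inl (by simpa using h2))
    have k1 := k (nx (3 * (3 * φ.length)) s) (by unfold nx; split_ifs <;> omega) (.inl rfl)
    have k2 := k (if s = 0 then 3 * (3 * φ.length) - 1 else s - 1) (by split_ifs <;> omega)
      (.inr (by rw [nx_iff]; split_ifs <;> omega))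
    rw [show nx (3 * (3 * φ.length)) s % 3 = (s + 1) % 3 by unfold nx; split_ifs <;> omega] at k1
    rw [show (if s = 0 then 3 * (3 * φ.length) - 1 else s - 1) % 3 = (s + 2) % 3 by
      split_ifs <;> omega] at k2
    have h3 : s % 3 = 0 ∨ s % 3 = 1 ∨ s % 3 = 2 := by omega
    rcases h3 with h3 | h3 | h3 <;> simp only [Nat.add_mod s, h3] at k1 k2 <;>
      simp [k1, k2] at c2 <;> revert c2 <;> cases σ (false, x, _) <;> simp

end Pool.Agent.H24.Ki
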