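import Pool.Agent.H24.AnsDefs
import Pool.Agent.H24.Ki2
import Pool.Agent.H25.CBase

set_option autoImplicit false

namespace Pool.Agent.H24.Ans
open Relation Pool.Agent.H11.PT Pool.Agent.H25.CB
open Pool.Agent.H24.Ki (nx nx_iff around)

def RR {α : Type} (D : α → α → Prop) (a b : α) : Prop := ∃ z, D a z ∧ D b z

def BC {α : Type} (D : α → α → Prop) (x y : α) : Prop := ∃ t, ReflTransGen (RR D) x t ∧ D t y

theorem FT.bc {D : ℕ → ℕ → Prop} {x y : ℕ} {l : List (ℕ × ℕ)} (h : FT D x y l) : BC D x y := by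
  induction h with
  | one a => exact ⟨_, .refl, a⟩
  | more a b _ ih => obtain ⟨t, c, d⟩ := ih; exact ⟨t, .head ⟨_, a, b⟩ c, d⟩

theorem FT.tl {D : ℕ → ℕ → Prop} {x y : ℕ} {l : List (ℕ × ℕ)} (h : FT D x y l) (n : l.Nodup)
    {e : ℕ × ℕ} (m : e ∈ l) : (∃ l', FT D e.1 y l' ∧ l'.Nodup ∧ l'.length ≤ l.length) ∧
      ∀ w, D w e.2 → (w, e.2) ∉ l → ∃ l', FT D w y l' ∧ l'.Nodup ∧ l'.length ≤ l.length := by
  induction h with
  | one a =>
    obtain rfl : e = _ := by simpa using m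
    exact ⟨⟨_, .one a, n, le_rfl⟩, fun w b _ => ⟨_, .one b, by simp, le_rfl⟩⟩
  | @more x z t y l a b c ih =>
    have n2 := n.of_cons
    have k : ∀ w, D w z → (w, z) ∉ (x, z) :: (t, z) :: l →
        ∃ l', FT D w y l' ∧ l'.Nodup ∧ l'.length ≤ ((x, z) :: (t, z) :: l).length :=
      fun w d f => ⟨_, .more d b c, List.nodup_cons.2 ⟨fun g => f (List.mem_cons_of_mem _ g), n2⟩,
        le_rfl⟩
    rcases List.mem_cons.1 m with rfl | m
    · exact ⟨⟨_, .more a b c, n, le_rfl⟩, k⟩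
    rcases List.mem_cons.1 m with rfl | m
    · exact ⟨⟨_, c, n2.of_cons, by simp; omega⟩, k⟩
    obtain ⟨⟨l1, p1, p2, p3⟩, q⟩ := ih n2.of_cons m
    refine ⟨⟨l1, p1, p2, by simp; omega⟩, fun w d f => ?_⟩
    obtain ⟨l1, p1, p2, p3⟩ := q w d fun g => f (by simp [g])
    exact ⟨l1, p1, p2, by simp; omega⟩

theorem BC.ft {D : ℕ → ℕ → Prop} {x y : ℕ} (h : BC D x y) : ∃ l, FT D x y l ∧ l.Nodup := by
  obtain ⟨t, c, d⟩ := h
  induction c using ReflTransGen.head_induction_on with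
  | refl => exact ⟨_, .one d, by simp⟩
  | @head a b r _ ih =>
    obtain ⟨z, r1, r2⟩ := r
    obtain ⟨l, p, n⟩ := ih
    by_cases e : a = b
    · exact e ▸ ⟨l, p, n⟩
    by_cases m : (a, z) ∈ l
    · obtain ⟨l1, p1, p2, -⟩ := (p.tl n m).1
      exact ⟨l1, p1, p2⟩
    by_cases m2 : (b, z) ∈ l
    · obtain ⟨l1, p1, p2, -⟩ := (p.tl n m2).2 a r1 m
      exact ⟨l1, p1, p2⟩
    exact ⟨_, .more r1 r2 p, by simp [e, m, m2, n]⟩

theorem anti_iff {V : List ℕ} {D : ℕ → ℕ → Prop} : Anti V D ↔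
    3 ≤ V.toFinset.card ∧ ∀ x ∈ V, ∀ y ∈ V, x ≠ y → BC D x y :=
  and_congr .rfl (forall₂_congr fun _ _ => forall₃_congr fun _ _ _ =>
    ⟨fun ⟨_, a, _⟩ => a.bc, BC.ft⟩)

abbrev J := ℕ × ℕ × ℕ

def LL (φ : F3) : ℕ := 6 * φ.length + 2
def U (φ : F3) (s : ℕ) : J := (1, (lit φ s).1, 2 * s + 1)
def W (φ : F3) (s : ℕ) : J := (2, (lit φ s).1, if (lit φ s).2 = true then 2 * s + 2 else 2 * s + 1)
def nt (s : ℕ) : ℕ := 3 * (s / 3) + (s + 1) % 3
def cu (φ : F3) (b : J) : Prop := b.2.2 / 2 < 3 * φ.length ∧ b = U φ (b.2.2 / 2)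
def cw (φ : F3) (a : J) : Prop := (a.2.2 - 1) / 2 < 3 * φ.length ∧ a = W φ ((a.2.2 - 1) / 2)
def inV (φ : F3) (a : J) : Prop :=
  (a.1 = 0 ∧ a.2.1 = 0 ∧ a.2.2 < 4) ∨ ((a.1 = 1 ∨ a.1 = 2) ∧ a.2.1 < nv φ ∧ a.2.2 < LL φ)

def arc0 (φ : F3) (a b : J) : Prop :=
  (a.1 = 0 ∧ b.1 = 0 ∧ ¬ a = b) ∨ (¬ a.1 = 0 ∧ b = (0, 0, 1)) ∨ (a = (0, 0, 1) ∧ b.1 = 1) ∨
  (a.1 = 1 ∧ b.1 = 2 ∧ a.2.1 = b.2.1 ∧ (b.2.2 = a.2.2 ∨ b.2.2 = nx (LL φ) a.2.2)) ∨
  (a = (0, 0, 0) ∧ b.1 = 1 ∧ ¬ cu φ b) ∨ (a.1 = 2 ∧ b = (0, 0, 0) ∧ ¬ cw φ a) ∨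
  (cw φ a ∧ b = U φ (nt ((a.2.2 - 1) / 2)))

def arc (φ : F3) (a b : J) : Prop := inV φ a ∧ inV φ b ∧ arc0 φ a b

def OK (φ : F3) : Prop := ∃ D1 D2 : J → J → Prop, (∀ a b, D1 a b → arc φ a b) ∧
  (∀ a b, D2 a b → arc φ a b) ∧ (∀ a b, ¬ (D1 a b ∧ D2 a b)) ∧
  (∀ x, inV φ x → ∀ y, inV φ y → x ≠ y → BC D1 x y) ∧
  ∀ x, inV φ x → ∀ y, inV φ y → ReflTransGen D2 x y

theorem cwW {φ : F3} {s : ℕ} : ((W φ s).2.2 - 1) / 2 = s := by
  unfold W; split_ifs <;> simp <;> omega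

theorem inU {φ : F3} {s : ℕ} (h : s < 3 * φ.length) : inV φ (U φ s) :=
  .inr ⟨.inl rfl, lit_lt _ _, by simp [U, LL]; omega⟩

theorem inW {φ : F3} {s : ℕ} (h : s < 3 * φ.length) : inV φ (W φ s) :=
  .inr ⟨.inr rfl, lit_lt _ _, by unfold W LL; split_ifs <;> simp <;> omega⟩

theorem sound {φ : F3} (h : OK φ) : SAT3 φ := by
  obtain ⟨D1, D2, a1, a2, dj, an, st⟩ := h
  have hh : inV φ (0, 0, 1) := .inl (by simp)
  have hr : inV φ (0, 0, 0) := .inl (by simp)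
  have i2 : ∀ z, inV φ z → z.1 ≠ 0 → ∃ a, D2 a z := fun z hz e => by
    rcases (st _ hr _ hz).cases_tail with rfl | ⟨a, -, b⟩
    · simp at e
    · exact ⟨a, b⟩
  have o2 : ∀ z, inV φ z → z.1 ≠ 0 → ∃ a, D2 z a := fun z hz e => by
    rcases (st _ hz _ hr).cases_head with rfl | ⟨a, b, -⟩
    · simp at e
    · exact ⟨a, b⟩
  have i1 : ∀ z, inV φ z → z.1 ≠ 0 → ∃ a, D1 a z := fun z hz e => by
    obtain ⟨t, -, b⟩ := an _ hr _ hz (by rintro rfl; simp at e)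
    exact ⟨t, b⟩
  have star : ∀ x, inV φ x → x.1 ≠ 0 → (∀ z, arc φ x z → z ≠ (0, 0, 1) → z.1 ≠ 0 ∧ ∀ a b,
      arc φ a z → arc φ b z → a ≠ x → b ≠ x → a = b) → D1 x (0, 0, 1) := fun x hx e k => by
    by_contra n
    obtain ⟨t, c, d⟩ := an _ hx _ hh (by rintro rfl; simp at e)
    suffices t = x from n (this ▸ d)
    clear d
    induction c with
    | refl => rfl
    | @tail b c _ r ih =>
      subst ih
      obtain ⟨z, r1, r2⟩ := r
      by_contra n2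
      obtain ⟨k1, k2⟩ := k z (a1 _ _ r1) (by rintro rfl; exact n r1)
      obtain ⟨a, f⟩ := i2 z (a1 _ _ r1).2.1 k1
      obtain rfl := k2 a c (a2 _ _ f) (a1 _ _ r2) (by rintro rfl; exact dj _ _ ⟨r1, f⟩) n2
      exact dj _ _ ⟨r2, f⟩
  have ou : ∀ i j z, arc φ (1, i, j) z → z = (0, 0, 1) ∨ z = (2, i, j) ∨
      z = (2, i, nx (LL φ) j) := by
    rintro i j ⟨z1, z2, z3⟩ ⟨-, -, k⟩
    simp [arc0, cw, W] at k ⊢
    omega
  have iw : ∀ i j a, arc φ a (2, i, j) → a.1 = 1 ∧ a.2.1 = i ∧ a.2.2 < LL φ ∧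
      (j = a.2.2 ∨ j = nx (LL φ) a.2.2) := by
    rintro i j ⟨z1, z2, z3⟩ ⟨k1, -, k⟩
    simp [arc0, U, inV] at k k1 ⊢
    omega
  have uh : ∀ i < nv φ, ∀ j < LL φ, D1 (1, i, j) (0, 0, 1) := fun i hi j hj =>
    star _ (.inr ⟨.inl rfl, hi, hj⟩) (by simp) fun z k n => by
      rcases ou _ _ _ k with rfl | rfl | rfl
      · simp at n
      all_goals
        refine ⟨by simp, fun ⟨a1, a2, a3⟩ ⟨b1, b2, b3⟩ ka kb na nb => ?_⟩
        have f1 := iw _ _ _ ka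
        have f2 := iw _ _ _ kb
        have e1 := (@nx_iff (LL φ) a3 _).1 rfl
        have e2 := (@nx_iff (LL φ) b3 _).1 rfl
        have e3 := (@nx_iff (LL φ) j _).1 rfl
        simp only [ne_eq, Prod.mk.injEq] at *
        omega
  have t1 : ∀ i < nv φ, ∀ j < LL φ, ¬ D2 (1, i, j) (2, i, j) →
      D2 (1, i, j) (2, i, nx (LL φ) j) := fun i hi j hj n => by
    obtain ⟨z, k⟩ := o2 (1, i, j) (.inr ⟨.inl rfl, hi, hj⟩) (by simp)
    rcases ou _ _ _ (a2 _ _ k) with rfl | rfl | rfl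
    · exact absurd ⟨uh i hi j hj, k⟩ (dj _ _)
    · exact absurd k n
    · exact k
  have t2 : ∀ i < nv φ, ∀ j < LL φ, D2 (1, i, j) (2, i, nx (LL φ) j) →
      ¬ D2 (1, i, nx (LL φ) j) (2, i, nx (LL φ) j) := fun i hi j hj k n => by
    obtain ⟨⟨z1, z2, z3⟩, f⟩ := i1 _ (a2 _ _ k).2.1 (by simp)
    obtain ⟨rfl, rfl, g, e⟩ := iw _ _ _ (a1 _ _ f)
    have e1 := (@nx_iff (LL φ) z3 _).1 rfl
    have e3 := (@nx_iff (LL φ) j _).1 rfl
    simp only at g e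
    rcases (by omega : z3 = j ∨ z3 = nx (LL φ) j) with rfl | rfl
    · exact dj _ _ ⟨f, k⟩
    · exact dj _ _ ⟨f, n⟩
  have t3 : ∀ i < nv φ, ∀ j < LL φ, ∀ k < LL φ, D2 (1, i, j) (2, i, j) →
      D2 (1, i, k) (2, i, k) := fun i hi j hj k hk f => by
    by_contra n
    exact around (P := fun j => ¬ D2 (1, i, j) (2, i, j))
      (fun j hj n => t2 i hi j hj (t1 i hi j hj n)) hk hj n f
  have ow : ∀ s < 3 * φ.length, ∀ z, arc φ (W φ s) z → z = (0, 0, 1) ∨ z = U φ (nt s) := by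
    rintro s hs z ⟨-, -, k⟩
    simp only [arc0, cw, cwW] at k
    simp [W, hs] at k
    exact k
  have wh : ∀ s < 3 * φ.length, D1 (W φ s) (0, 0, 1) := fun s hs =>
    star _ (inW hs) (by simp [W]) fun z k n => by
      obtain rfl := (ow s hs z k).resolve_left n
      refine ⟨by simp [U], fun a b ka kb na nb => ?_⟩
      have : ∀ a, arc φ a (U φ (nt s)) → a ≠ W φ s → a = (0, 0, 1) := by
        rintro a ⟨-, -, k⟩ n
        have c : cu φ (U φ (nt s)) := by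
          have : (U φ (nt s)).2.2 / 2 = nt s := by simp [U]; omega
          unfold cu; rw [this]; exact ⟨by unfold nt; omega, rfl⟩
        simp only [arc0, c] at k
        rcases k with k | k | k | k | k | k | ⟨k, f⟩
        any_goals (simp [U] at k; done)
        · exact k.1
        · have := congrArg (fun x => x.2.2) f
          simp only [U, nt] at this
          exact absurd (k.2.trans (congrArg _ (by omega))) n
      rw [this a ka na, this b kb nb]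
  classical
  rw [sat_iff]
  refine ⟨fun i => decide (D2 (1, i, 0) (2, i, 0)), fun c hc => ?_⟩
  by_contra n
  push Not at n
  have cl : ∀ z, ReflTransGen D2 (U φ (3 * c)) z → ∃ s, s / 3 = c ∧ (z = U φ s ∨ z = W φ s) := by
    intro z k
    induction k with
    | refl => exact ⟨3 * c, by omega, .inl rfl⟩
    | @tail b z _ r ih =>
      obtain ⟨s, e, rfl | rfl⟩ := ih
      · refine ⟨s, e, .inr ?_⟩
        have f := n (s % 3) (by omega)
        rw [show 3 * c + s % 3 = s by omega] at f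
        have l1 := lit_lt φ s
        have l2 : 2 * s + 1 < LL φ := by unfold LL; omega
        have l3 : nx (LL φ) (2 * s + 1) = 2 * s + 2 := (nx_iff.2 (by unfold LL; omega)).symm
        have l0 : 0 < LL φ := by omega
        rcases ou _ _ _ (a2 _ _ r) with rfl | rfl | rfl
        · exact absurd ⟨uh _ l1 _ l2, r⟩ (dj _ _)
        · have := t3 _ l1 _ l2 0 l0 r
          simp [this] at f
          simp [W, f]
        · have : ¬ D2 (1, (lit φ s).1, 0) (2, (lit φ s).1, 0) :=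
            fun g => t2 _ l1 _ l2 r (t3 _ l1 0 l0 _ (by unfold LL at *; omega) g)
          simp [this] at f
          simp [W, f, l3]
      · rcases ow s (by omega) z (a2 _ _ r) with rfl | rfl
        · exact absurd ⟨wh s (by omega), r⟩ (dj _ _)
        · exact ⟨nt s, by unfold nt; omega, .inl rfl⟩
  obtain ⟨s, -, k | k⟩ := cl _ (st _ (inU (by omega)) _ hr) <;> simp [U, W] at k

end Pool.Agent.H24.Ans
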