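import Pool.Agent.H24.Seg1
import Pool.Agent.H24.Ki2

set_option autoImplicit false

namespace Pool.Agent.H24.Seg
open Pool.Agent.H11.PT Finset
open Pool.Agent.H24.Ki (nx_iff around)

abbrev F := List (ℕ × ℕ × ℕ)
abbrev J := ℕ × ℕ × ℕ × ℕ

def nv (φ : F) : ℕ := (φ.map fun c => c.1 + c.2.1 + c.2.2).sum + 1

def var (φ : F) (o : ℕ) : ℕ :=
  if o % 3 = 0 then (φ.getD (o / 3) (0, 0, 0)).1 else
    if o % 3 = 1 then (φ.getD (o / 3) (0, 0, 0)).2.1 else (φ.getD (o / 3) (0, 0, 0)).2.2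

theorem var_lt (φ : F) (o : ℕ) : var φ o < nv φ := by
  have : ∀ c ∈ φ, c.1 + c.2.1 + c.2.2 < nv φ := fun c hc =>
    Nat.lt_succ_of_le (List.single_le_sum (by simp) _ (List.mem_map_of_mem hc))
  unfold var
  by_cases h : o / 3 < φ.length
  · have := this _ (List.getElem_mem h)
    simp only [List.getD_eq_getElem _ _ h]
    split_ifs <;> omega
  · simp only [List.getD_eq_default _ _ (not_lt.1 h)]
    split_ifs <;> exact Nat.succ_pos _

theorem one_iff (φ : F) : ONE3 φ ↔ ∃ s : ℕ → Bool, ∀ j < φ.length, (s (var φ (3 * j))).toNat +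
    (s (var φ (3 * j + 1))).toNat + (s (var φ (3 * j + 2))).toNat = 1 := by
  refine exists_congr fun σ => List.forall_mem_iff_forall_getElem.trans
    (forall_congr' fun j => forall_congr' fun hj => ?_)
  have e : ∀ i < 3, (3 * j + i) / 3 = j ∧ (3 * j + i) % 3 = i := fun i hi => by omega
  have e0 := e 0 (by omega)
  rw [add_zero] at e0
  simp [var, e0, e 1 (by omega), e 2 (by omega), hj]

def ls (φ : F) : List J :=
  List.range (nv φ) ×ˢ List.range (3 * φ.length) ×ˢ List.range 2 ×ˢ List.range 3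

def yy (φ : F) (e : J) : ℕ × ℕ × ℕ :=
  if e.2.2.2 = 0 then (if var φ e.2.1 = e.1 then (0, e.2.1 / 3, e.2.2.1) else (1, e.1, e.2.1)) else
  if e.2.2.2 = 1 then (2, e.1, e.2.1) else
    (3, e.1, if e.2.2.1 = 0 then e.2.1 else Ki.nx (3 * φ.length) e.2.1)

def zz (φ : F) (e : J) : ℕ :=
  if e.2.2.2 = 0 then (if var φ e.2.1 = e.1 ∧ ¬ e.2.1 % 3 = 0 then 1 - e.2.2.1 else e.2.2.1) else
  if e.2.2.2 = 1 then 1 + e.2.2.1 else 2 - 2 * e.2.2.1

def p3 (a : ℕ × ℕ × ℕ) : ℕ := Nat.pair a.1 (Nat.pair a.2.1 a.2.2)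

theorem p3_inj {a b : ℕ × ℕ × ℕ} : p3 a = p3 b ↔ a = b := by
  simp [p3, Nat.pair_eq_pair, Prod.ext_iff]

def rc (φ : F) (e : J) : R :=
  (Nat.pair e.1 (p3 e.2), p3 (e.1, e.2.1, e.2.2.1), p3 (yy φ e), zz φ e, e.2.2.2)

def red (φ : F) : List (ℕ × ℕ) × ℕ :=
  (chs ((((ls φ).map (rc φ)).map fun r => r.1 + r.2.1 + r.2.2.1 + r.2.2.2.1 + r.2.2.2.2).sum + 1)
    ((ls φ).map (rc φ)), (ls φ).length)

theorem pt_red : PT red := by
  have h1 : PT ls := by unfold ls nv; fun_prop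
  have h2 : PT fun p : F × J => rc p.1 p.2 := by unfold rc p3 yy zz var Ki.nx; fun_prop
  have h3 : PT fun φ => (ls φ).map (rc φ) := PT.map h1 h2
  unfold red; fun_prop

variable {φ : F}

theorem mem_ls {v o b t : ℕ} : (v, o, b, t) ∈ (ls φ).toFinset ↔
    v < nv φ ∧ o < 3 * φ.length ∧ b < 2 ∧ t < 3 := by simp [ls]

theorem red_iff {g : ℕ} (hg : 3 ≤ g) : SegCol g (red φ) ↔ ∃ σ τ : J → J,
    Set.BijOn σ (ls φ).toFinset (ls φ).toFinset ∧ Set.BijOn τ (ls φ).toFinset (ls φ).toFinset ∧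
      ∀ e ∈ (ls φ).toFinset, yy φ (σ e) = yy φ e ∧
        ((τ e).1, (τ e).2.1, (τ e).2.2.1) = (e.1, e.2.1, e.2.2.1) ∧ zz φ (σ e) = (τ e).2.2.2 := by
  refine (geo hg (List.nodup_range.product (List.nodup_range.product
    (List.nodup_range.product List.nodup_range))) (rc φ) (fun e he => ?_) (fun e _ f _ h => ?_)
      ?_).trans ?_
  · have := List.single_le_sum (l := ((ls φ).map (rc φ)).map
      fun r => r.1 + r.2.1 + r.2.2.1 + r.2.2.2.1 + r.2.2.2.2) (by simp) _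
      (List.mem_map_of_mem (List.mem_map_of_mem he))
    unfold Ok; omega
  · simp only [rc, Nat.pair_eq_pair, p3_inj] at h
    exact Prod.ext h.1 h.2
  · change ∑ e ∈ (ls φ).toFinset, zz φ e = ∑ e ∈ (ls φ).toFinset, e.2.2.2
    rw [show (ls φ).toFinset = range (nv φ) ×ˢ range (3 * φ.length) ×ˢ range 2 ×ˢ range 3 by
      ext ⟨v, o, b, t⟩; simp [ls]]
    simp only [sum_product]
    refine sum_congr rfl fun v _ => sum_congr rfl fun o _ => ?_
    simp only [sum_range_succ, sum_range_zero, zz]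
    split_ifs <;> simp_all
  · simp only [rc, p3_inj, List.mem_toFinset]; rfl

theorem complete (h : ONE3 φ) : ∃ σ τ : J → J,
    Set.BijOn σ (ls φ).toFinset (ls φ).toFinset ∧ Set.BijOn τ (ls φ).toFinset (ls φ).toFinset ∧
      ∀ e ∈ (ls φ).toFinset, yy φ (σ e) = yy φ e ∧
        ((τ e).1, (τ e).2.1, (τ e).2.2.1) = (e.1, e.2.1, e.2.2.1) ∧ zz φ (σ e) = (τ e).2.2.2 := by
  obtain ⟨s, h⟩ := (one_iff φ).1 h
  have : ∀ j < φ.length, ∃ p < 3, ∀ q < 3, s (var φ (3 * j + q)) = true ↔ q = p := fun j hj => by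
    have := h j hj
    cases e0 : s (var φ (3 * j)) <;> cases e1 : s (var φ (3 * j + 1)) <;>
      cases e2 : s (var φ (3 * j + 2)) <;> simp [e0, e1, e2] at this
    · exact ⟨2, by omega, fun q hq => by interval_cases q <;> simp [*]⟩
    · exact ⟨1, by omega, fun q hq => by interval_cases q <;> simp [*]⟩
    · exact ⟨0, by omega, fun q hq => by interval_cases q <;> simp [*]⟩
  choose! T h1 h2 using this
  let w : ℕ → ℕ := fun o => 3 * (o / 3) +
    if o % 3 = T (o / 3) then 0 else if o % 3 = 0 then T (o / 3) else o % 3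
  have w1 : ∀ o < 3 * φ.length, w o / 3 = o / 3 ∧ w (w o) = o ∧
      (w o % 3 = 0 ↔ s (var φ o) = true) := fun o ho => by
    have a := h1 (o / 3) (by omega)
    have b := h2 (o / 3) (by omega) (o % 3) (by omega)
    rw [show 3 * (o / 3) + o % 3 = o by omega] at b
    have c : w o / 3 = o / 3 := by simp only [w]; split_ifs <;> omega
    refine ⟨c, ?_, ?_⟩
    · simp only [w] at c ⊢; rw [c]; split_ifs <;> omega
    · rw [b]; simp only [w]; split_ifs <;> omega
  let σ : J → J := fun e => if e.2.2.2 = 0 ∧ var φ e.2.1 = e.1 then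
    (var φ (w e.2.1), w e.2.1, e.2.2.1, 0) else if s e.1 = true then e else
    if e.2.2.2 < 2 then (e.1, e.2.1, 1 - e.2.2.1, e.2.2.2) else
    if e.2.2.1 = 0 then (e.1, if e.2.1 = 0 then 3 * φ.length - 1 else e.2.1 - 1, 1, 2) else
      (e.1, Ki.nx (3 * φ.length) e.2.1, 0, 2)
  let τ : ℕ → J → J := fun d e => (e.1, e.2.1, e.2.2.1,
    if (s e.1 = true ↔ e.2.2.1 = 0) then e.2.2.2 else (e.2.2.2 + d) % 3)
  have k : ∀ e ∈ (ls φ).toFinset, σ e ∈ (ls φ).toFinset ∧ σ (σ e) = e ∧ yy φ (σ e) = yy φ e ∧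
      zz φ (σ e) = (τ 1 e).2.2.2 := by
    rintro ⟨v, o, b, t⟩ he
    obtain ⟨a1, a2, a3, a4⟩ := mem_ls.1 he
    by_cases c1 : t = 0 ∧ var φ o = v
    · obtain ⟨rfl, rfl⟩ := c1
      obtain ⟨b1, b2, b3⟩ := w1 o a2
      have e : σ (var φ o, o, b, 0) = (var φ (w o), w o, b, 0) := by simp [σ]
      rw [e]
      refine ⟨mem_ls.2 ⟨var_lt _ _, by omega, a3, a4⟩, by simp [σ, b2], by simp [yy, b1], ?_⟩
      simp only [zz, τ, b3]
      cases s (var φ o) <;> interval_cases b <;> simp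
    cases c2 : s v
    · by_cases c3 : t < 2
      · have e : σ (v, o, b, t) = (v, o, 1 - b, t) := by simp only [σ, c1, c2, c3]; simp
        rw [e]
        refine ⟨mem_ls.2 ⟨a1, a2, by omega, a4⟩, ?_, ?_, ?_⟩
        · simp only [σ, c1, c2, c3]; simp; omega
        · interval_cases t <;> simp_all [yy]
        · interval_cases t <;> interval_cases b <;> simp_all [zz, τ]
      · obtain rfl : t = 2 := by omega
        interval_cases b
        · have e : σ (v, o, 0, 2) = (v, if o = 0 then 3 * φ.length - 1 else o - 1, 1, 2) := by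
            simp [σ, c2]
          have e2 : Ki.nx (3 * φ.length) (if o = 0 then 3 * φ.length - 1 else o - 1) = o := by
            symm; rw [nx_iff]; split_ifs <;> omega
          rw [e]
          exact ⟨mem_ls.2 ⟨a1, by split_ifs <;> omega, by omega, a4⟩, by simp [σ, c2, e2],
            by simp [yy, e2], by simp [zz, τ, c2]⟩
        · have e : σ (v, o, 1, 2) = (v, Ki.nx (3 * φ.length) o, 0, 2) := by simp [σ, c2]
          rw [e]
          refine ⟨mem_ls.2 ⟨a1, by unfold Ki.nx; split_ifs <;> omega, by omega, a4⟩, ?_,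
            by simp [yy], by simp [zz, τ, c2]⟩
          simp only [σ, c2, Ki.nx]
          simp
          split_ifs <;> omega
    · have e : σ (v, o, b, t) = (v, o, b, t) := by simp only [σ, c1, c2]; simp
      rw [e, e]
      refine ⟨he, rfl, rfl, ?_⟩
      interval_cases t <;> interval_cases b <;> simp_all [zz, τ]
  have m : ∀ d, Set.MapsTo (τ d) (ls φ).toFinset (ls φ).toFinset := by
    rintro d ⟨v, o, b, t⟩ he
    obtain ⟨a1, a2, a3, a4⟩ := mem_ls.1 he
    exact mem_ls.2 ⟨a1, a2, a3, by split_ifs <;> omega⟩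
  have n : ∀ d d', d + d' = 3 → Set.LeftInvOn (τ d) (τ d') (ls φ).toFinset := by
    rintro d d' hd ⟨v, o, b, t⟩ he
    obtain ⟨a1, a2, a3, a4⟩ := mem_ls.1 he
    simp only [τ, Prod.mk.injEq, true_and]
    split_ifs <;> omega
  exact ⟨σ, τ 1, Set.InvOn.bijOn ⟨fun e he => (k e he).2.1, fun e he => (k e he).2.1⟩
    (fun e he => (k e he).1) fun e he => (k e he).1,
    Set.InvOn.bijOn ⟨n 2 1 rfl, n 1 2 rfl⟩ (m 1) (m 2),
    fun e he => ⟨(k e he).2.2.1, rfl, (k e he).2.2.2⟩⟩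

theorem sound {σ τ : J → J} (h1 : Set.BijOn σ (ls φ).toFinset (ls φ).toFinset)
    (h2 : Set.BijOn τ (ls φ).toFinset (ls φ).toFinset)
    (h : ∀ e ∈ (ls φ).toFinset, yy φ (σ e) = yy φ e ∧
      ((τ e).1, (τ e).2.1, (τ e).2.2.1) = (e.1, e.2.1, e.2.2.1) ∧ zz φ (σ e) = (τ e).2.2.2) :
    ONE3 φ := by
  let c : J → ℕ := fun e => zz φ (σ e)
  have f1 : ∀ v < nv φ, ∀ o < 3 * φ.length, ∀ b < 2, ∀ t < 3, ∀ t' < 3,
      c (v, o, b, t) = c (v, o, b, t') → t = t' := fun v hv o ho b hb t ht t' ht' e => by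
    have m1 := mem_ls.2 ⟨hv, ho, hb, ht⟩
    have m2 := mem_ls.2 ⟨hv, ho, hb, ht'⟩
    obtain ⟨-, a1, a2⟩ := h _ m1
    obtain ⟨-, a3, a4⟩ := h _ m2
    simp only [Prod.mk.injEq, c] at a1 a3 e
    simpa using h2.2.1 m1 m2 (Prod.ext (by omega) (Prod.ext (by omega) (Prod.ext (by omega)
      (by omega))))
  have f2 : ∀ e ∈ (ls φ).toFinset, ∃ v o b t, σ e = (v, o, b, t) ∧ c e = zz φ (v, o, b, t) ∧
      o < 3 * φ.length ∧ b < 2 ∧ t < 3 ∧ yy φ (v, o, b, t) = yy φ e := fun e he => by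
    have := mem_ls.1 (h1.1 he)
    exact ⟨_, _, _, _, rfl, rfl, this.2.1, this.2.2.1, this.2.2.2, (h e he).1⟩
  have g0 : ∀ v < nv φ, ∀ o < 3 * φ.length, ∀ b < 2, c (v, o, b, 0) ≤ 1 := fun v hv o ho b hb => by
    obtain ⟨v', o', b', t, -, e, a1, a2, a3, a4⟩ := f2 _ (mem_ls.2 ⟨hv, ho, hb, three_pos⟩)
    rw [e]
    simp only [yy, zz] at a4 ⊢
    split_ifs at a4 ⊢ <;> simp at a4 <;> omega
  have g1 : ∀ v < nv φ, ∀ o < 3 * φ.length, ∀ b < 2, ∃ b' < 2, σ (v, o, b, 1) = (v, o, b', 1) ∧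
      c (v, o, b, 1) = 1 + b' := fun v hv o ho b hb => by
    obtain ⟨v', o', b', t, e1, e, a1, a2, a3, a4⟩ :=
      f2 (v, o, b, 1) (mem_ls.2 ⟨hv, ho, hb, by omega⟩)
    rw [e, e1]
    refine ⟨b', a2, ?_⟩
    simp only [yy, zz] at a4 ⊢
    split_ifs at a4 ⊢ <;> simp_all
  have g2 : ∀ v < nv φ, ∀ o < 3 * φ.length, ∀ b < 2, ∃ b' < 2, ∃ o' < 3 * φ.length,
      σ (v, o, b, 2) = (v, o', b', 2) ∧ c (v, o, b, 2) = 2 - 2 * b' ∧
      (if b' = 0 then o' else Ki.nx (3 * φ.length) o') = if b = 0 then o else Ki.nx (3 * φ.length) o :=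
    fun v hv o ho b hb => by
      obtain ⟨v', o', b', t, e1, e, a1, a2, a3, a4⟩ :=
        f2 (v, o, b, 2) (mem_ls.2 ⟨hv, ho, hb, by omega⟩)
      rw [e, e1]
      refine ⟨b', a2, o', a1, ?_⟩
      interval_cases t
      · by_cases k : var φ o' = v' <;> simp [yy, k] at a4
      · simp [yy] at a4
      · simpa [yy, zz] using a4
  have st : ∀ v < nv φ, ∀ o < 3 * φ.length, ∀ b < 2,
      c (v, o, b, 1) = c (v, o, b, 0) + 1 ∧ c (v, o, b, 2) + 2 * c (v, o, b, 0) = 2 :=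
    fun v hv o ho b hb => by
      have := g0 v hv o ho b hb
      obtain ⟨b1, _, -, _⟩ := g1 v hv o ho b hb
      obtain ⟨b2, _, _, -, -, _, -⟩ := g2 v hv o ho b hb
      have := f1 v hv o ho b hb 0 (by omega) 1 (by omega)
      have := f1 v hv o ho b hb 0 (by omega) 2 (by omega)
      have := f1 v hv o ho b hb 1 (by omega) 2 (by omega)
      omega
  have l1 : ∀ v < nv φ, ∀ o < 3 * φ.length, c (v, o, 0, 0) + c (v, o, 1, 0) = 1 :=
    fun v hv o ho => by
      obtain ⟨b1, _, e1, _⟩ := g1 v hv o ho 0 (by omega)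
      obtain ⟨b2, _, e2, _⟩ := g1 v hv o ho 1 (by omega)
      have := st v hv o ho 0 (by omega)
      have := st v hv o ho 1 (by omega)
      have : b1 ≠ b2 := fun e => by
        have := h1.2.1 (mem_ls.2 ⟨hv, ho, by omega, by omega⟩)
          (mem_ls.2 ⟨hv, ho, by omega, by omega⟩) (e1.trans (e ▸ e2.symm))
        simp only [Prod.mk.injEq] at this
        omega
      omega
  have l2 : ∀ v < nv φ, ∀ o < 3 * φ.length, c (v, Ki.nx (3 * φ.length) o, 0, 0) = c (v, o, 0, 0) :=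
    fun v hv o ho => by
      have hx : Ki.nx (3 * φ.length) o < 3 * φ.length := by unfold Ki.nx; split_ifs <;> omega
      obtain ⟨b1, _, o1, _, e1, _, n1⟩ := g2 v hv _ hx 0 (by omega)
      obtain ⟨b2, _, o2, _, e2, _, n2⟩ := g2 v hv o ho 1 (by omega)
      have := st v hv _ hx 0 (by omega)
      have := st v hv o ho 1 (by omega)
      have := l1 v hv o ho
      have : b1 ≠ b2 := fun e => by
        subst e
        have : o1 = o2 := by
          simp only [if_true, one_ne_zero, if_false] at n1 n2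
          rw [← n2] at n1
          unfold Ki.nx at n1
          split_ifs at n1 <;> omega
        have := h1.2.1 (mem_ls.2 ⟨hv, hx, by omega, by omega⟩)
          (mem_ls.2 ⟨hv, ho, by omega, by omega⟩) (e1.trans (this ▸ e2.symm))
        simp only [Prod.mk.injEq] at this
        omega
      omega
  refine (one_iff φ).2 ⟨fun v => c (v, 0, 0, 0) == 0, fun j hj => ?_⟩
  have k : ∀ q < 3, ∃ n < 3, σ (var φ (3 * j + q), 3 * j + q, 1, 0) =
      (var φ (3 * j + n), 3 * j + n, 1, 0) ∧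
      (c (var φ (3 * j + q), 0, 0, 0) == 0).toNat = if n = 0 then 1 else 0 := fun q hq => by
    have hv := var_lt φ (3 * j + q)
    have ho : 3 * j + q < 3 * φ.length := by omega
    obtain ⟨v', o', b', t, e1, e, a1, a2, a3, a4⟩ :=
      f2 (_, _, 1, 0) (mem_ls.2 ⟨hv, ho, by omega, by omega⟩)
    have a5 : t = 0 ∧ var φ o' = v' ∧ o' / 3 = j ∧ b' = 1 := by
      simp only [yy] at a4
      split_ifs at a4 <;> simp at a4
      omega
    obtain ⟨rfl, rfl, a5, rfl⟩ := a5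
    have a6 : c (var φ (3 * j + q), 3 * j + q, 0, 0) = c (var φ (3 * j + q), 0, 0, 0) :=
      around (n := 3 * φ.length) (P := fun o => c (var φ (3 * j + q), o, 0, 0) =
        c (var φ (3 * j + q), 0, 0, 0)) (fun i hi a => (l2 _ hv i hi).trans a) (by omega) ho rfl
    have a7 := l1 _ hv _ ho
    refine ⟨o' % 3, by omega, by rw [e1, show 3 * j + o' % 3 = o' by omega], ?_⟩
    rw [e, a6] at a7
    simp only [zz] at a7
    split_ifs at a7 ⊢ <;> simp_all
  obtain ⟨n0, _, e0, a0⟩ := k 0 (by omega)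
  obtain ⟨n1, _, e1, a1⟩ := k 1 (by omega)
  obtain ⟨n2, _, e2, a2⟩ := k 2 (by omega)
  have m : ∀ q < 3, (var φ (3 * j + q), 3 * j + q, 1, 0) ∈ (ls φ).toFinset := fun q hq =>
    mem_ls.2 ⟨var_lt _ _, by omega, by omega, by omega⟩
  have : n0 ≠ n1 := fun e => by
    simpa using h1.2.1 (m 0 (by omega)) (m 1 (by omega)) (e0.trans (e ▸ e1.symm))
  have : n0 ≠ n2 := fun e => by
    simpa using h1.2.1 (m 0 (by omega)) (m 2 (by omega)) (e0.trans (e ▸ e2.symm))
  have : n1 ≠ n2 := fun e => by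
    simpa using h1.2.1 (m 1 (by omega)) (m 2 (by omega)) (e1.trans (e ▸ e2.symm))
  rw [add_zero] at a0
  rw [a0, a1, a2]
  split_ifs <;> omega

theorem main (g : ℕ) (hg : 3 ≤ g) : NPComplete (SegCol g) := by
  refine ⟨np g, ?_⟩
  simpa using (hard_ONE3.red (Val' := fun _ => True) (Y := SegCol g) red pt_red fun φ _ =>
    ⟨trivial, ⟨fun h => (red_iff hg).2 (complete h), fun h => by
      obtain ⟨σ, τ, h1, h2, h3⟩ := (red_iff hg).1 h
      exact sound h1 h2 h3⟩⟩).npHard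

end Pool.Agent.H24.Seg
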