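import Pool.Agent.H24.Ans1
import Pool.Agent.H24.Seg2
import Pool.Agent.H23.Ori3

set_option autoImplicit false

namespace Pool.Agent.H24.Ans
open Relation Pool.Agent.H11.PT Pool.Agent.H25.CB
open Pool.Agent.H24.Ki (nx nx_iff around)
open Pool.Agent.H24.Seg (p3 p3_inj)
open Pool.Agent.H23.Ori (dc dc_iff pt_rtg dc_of)

def mt (φ : F3) (σ : ℕ → Bool) (i j : ℕ) : ℕ := if σ i = true then j else nx (LL φ) j

def d2 (φ : F3) (σ : ℕ → Bool) (a b : J) : Prop :=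
  (a.1 = 0 ∧ b.1 = 0 ∧ b.2.2 = (a.2.2 + 1) % 4) ∨ (a = (0, 0, 0) ∧ b.1 = 1) ∨
  (a.1 = 1 ∧ b.1 = 2 ∧ b.2.2 = mt φ σ a.2.1 a.2.2) ∨ (a.1 = 2 ∧ ¬ b = (0, 0, 1))

theorem complete {φ : F3} (h : SAT3 φ) : OK φ := by
  obtain ⟨σ, h⟩ := (sat_iff φ).1 h
  have hx : ∀ j < LL φ, nx (LL φ) j < LL φ ∧ nx (LL φ) j ≠ j := fun j hj => by
    have := (@nx_iff (LL φ) j _).1 rfl
    unfold LL at *; omega
  have hp : ∀ j < LL φ, ∃ k < LL φ, nx (LL φ) k = j := fun j hj =>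
    ⟨if j = 0 then LL φ - 1 else j - 1, by split_ifs <;> omega,
      (nx_iff.2 (by split_ifs <;> omega)).symm⟩
  have hm : ∀ i, ∀ j < LL φ, mt φ σ i j < LL φ := fun i j hj => by
    unfold mt; split_ifs; exacts [hj, (hx j hj).1]
  have iu : ∀ i < nv φ, ∀ j < LL φ, inV φ (1, i, j) := fun i hi j hj => .inr ⟨.inl rfl, hi, hj⟩
  have iw : ∀ i < nv φ, ∀ j < LL φ, inV φ (2, i, j) := fun i hi j hj => .inr ⟨.inr rfl, hi, hj⟩
  have ih : ∀ i < 4, inV φ (0, 0, i) := fun i hi => .inl ⟨rfl, rfl, hi⟩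
  refine ⟨fun a b => arc φ a b ∧ ¬ d2 φ σ a b, fun a b => arc φ a b ∧ d2 φ σ a b,
    fun _ _ h => h.1, fun _ _ h => h.1, fun _ _ h => h.1.2 h.2.2, ?_, ?_⟩
  · set D : J → J → Prop := fun a b => arc φ a b ∧ ¬ d2 φ σ a b with hD
    have hb : ∀ i < 4, ∀ j < 4, i ≠ j → j ≠ (i + 1) % 4 → D (0, 0, i) (0, 0, j) :=
      fun i hi j hj e f => ⟨⟨ih i hi, ih j hj, .inl (by simpa using e)⟩, by simpa [d2] using f⟩
    have sy : ∀ a b, ReflTransGen (RR D) a b → ReflTransGen (RR D) b a := fun a b k => by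
      induction k with
      | refl => exact .refl
      | tail _ r ih => obtain ⟨z, r1, r2⟩ := r; exact .head ⟨z, r2, r1⟩ ih
    have c3 : ReflTransGen (RR D) (0, 0, 3) (0, 0, 2) :=
      .single ⟨(0, 0, 1), by apply hb <;> omega, by apply hb <;> omega⟩
    have c0 : ReflTransGen (RR D) (0, 0, 0) (0, 0, 2) :=
      .head ⟨(0, 0, 2), by apply hb <;> omega, by apply hb <;> omega⟩ c3
    have c1 : ReflTransGen (RR D) (0, 0, 1) (0, 0, 2) :=
      .head ⟨(0, 0, 3), by apply hb <;> omega, by apply hb <;> omega⟩ c0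
    have cc : ∀ x, inV φ x → ReflTransGen (RR D) x (0, 0, 2) := by
      rintro ⟨a, b, c⟩ k
      rcases id k with ⟨rfl, rfl, f⟩ | ⟨f, -⟩
      · simp only at f
        interval_cases c
        exacts [c0, c1, .refl, c3]
      · refine .single ⟨(0, 0, 1), ⟨⟨k, ih 1 (by omega), .inr (.inl ⟨by omega, rfl⟩)⟩, ?_⟩,
          by apply hb <;> omega⟩
        simp only at f
        simp [d2]; omega
    have dd : ∀ y, inV φ y → ∃ t, D t y := by
      rintro ⟨a, b, c⟩ k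
      rcases id k with ⟨rfl, rfl, f⟩ | ⟨rfl | rfl, f, g⟩
      · exact ⟨(0, 0, (c + 2) % 4), by simp only at f; apply hb <;> omega⟩
      · exact ⟨(0, 0, 1), ⟨ih 1 (by omega), k, .inr (.inr (.inl ⟨rfl, rfl⟩))⟩, by simp [d2]⟩
      · by_cases s : σ b = true
        · obtain ⟨j, hj, rfl⟩ := hp c g
          exact ⟨(1, b, j), ⟨iu b f j hj, k, by simp [arc0]⟩, by simpa [d2, mt, s] using (hx j hj).2⟩
        · exact ⟨(1, b, c), ⟨iu b f c g, k, by simp [arc0]⟩,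
            by simpa [d2, mt, s] using (hx c g).2.symm⟩
    intro x hx y hy _
    obtain ⟨t, k⟩ := dd y hy
    exact ⟨t, (cc x hx).trans (sy _ _ (cc t k.1.1)), k⟩
  · set D : J → J → Prop := fun a b => arc φ a b ∧ d2 φ σ a b with hD
    have hb : ∀ i < 4, ∀ j, j = (i + 1) % 4 → D (0, 0, i) (0, 0, j) := fun i hi j f =>
      ⟨⟨ih i hi, ih j (by omega), .inl (by simp; omega)⟩, .inl ⟨rfl, rfl, f⟩⟩
    have h0 := ih 0 (by omega)
    have um : ∀ i < nv φ, ∀ j < LL φ, D (1, i, j) (2, i, mt φ σ i j) := fun i hi j hj =>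
      ⟨⟨iu i hi j hj, iw i hi _ (hm i j hj), by
        unfold mt; split_ifs <;> simp [arc0]⟩, by simp [d2]⟩
    have wr : ∀ i < nv φ, ∀ j < LL φ, ¬ cw φ (2, i, j) → D (2, i, j) (0, 0, 0) :=
      fun i hi j hj n => ⟨⟨iw i hi j hj, h0, by simp [arc0, n]⟩, by simp [d2]⟩
    have ru : ∀ i < nv φ, ∀ j < LL φ, ¬ cu φ (1, i, j) → D (0, 0, 0) (1, i, j) :=
      fun i hi j hj n => ⟨⟨h0, iu i hi j hj, by simp [arc0, n]⟩, by simp [d2]⟩
    have wu : ∀ s < 3 * φ.length, D (W φ s) (U φ (nt s)) := fun s hs =>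
      ⟨⟨inW hs, inU (by unfold nt; omega), by simp [arc0, cw, cwW, hs]⟩, by simp [d2, W, U]⟩
    have l2 : ∀ s < 3 * φ.length, 2 * s + 2 < LL φ := fun s hs => by unfold LL; omega
    have l3 : ∀ s < 3 * φ.length, nx (LL φ) (2 * s + 1) = 2 * s + 2 ∧ nx (LL φ) (2 * s) = 2 * s + 1 :=
      fun s hs => ⟨(nx_iff.2 (by unfold LL; omega)).symm, (nx_iff.2 (by unfold LL; omega)).symm⟩
    have uw : ∀ s < 3 * φ.length, σ (lit φ s).1 ≠ (lit φ s).2 → D (U φ s) (W φ s) := fun s hs n => by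
      have := um _ (lit_lt φ s) (2 * s + 1) (by have := l2 s hs; omega)
      convert this using 1
      · rfl
      unfold W mt
      cases e : (lit φ s).2 <;> simp [e] at n <;> simp [n, l3 s hs]
    have tU : ∀ s < 3 * φ.length, σ (lit φ s).1 = (lit φ s).2 →
        ReflTransGen D (U φ s) (0, 0, 0) := fun s hs n => by
      have k := l2 s hs
      refine .head (um _ (lit_lt φ s) (2 * s + 1) (by omega))
        (.single (wr _ (lit_lt φ s) _ (hm _ _ (by omega)) ?_))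
      unfold mt cw
      cases e : (lit φ s).2 <;> simp [e] at n <;> simp [n, l3 s hs, W]
      · rw [show (2 * s + 1) / 2 = s by omega]; simp [e]
      · simp [e]
    have fW : ∀ s < 3 * φ.length, σ (lit φ s).1 = (lit φ s).2 →
        ReflTransGen D (0, 0, 0) (W φ s) := fun s hs n => by
      have k := l2 s hs
      have c : ∀ j, ¬ cu φ (1, (lit φ s).1, 2 * j) := fun j c => by
        have := congrArg (fun x => x.2.2) c.2
        simp only [U] at this; omega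
      cases e : (lit φ s).2
      · refine .head (ru _ (lit_lt φ s) (2 * s) (by omega) (c s)) (.single ?_)
        convert um _ (lit_lt φ s) (2 * s) (by omega) using 1
        simp [W, mt, n, e, l3 s hs]
      · refine .head (ru _ (lit_lt φ s) (2 * (s + 1)) (by omega) (c _)) (.single ?_)
        convert um _ (lit_lt φ s) (2 * (s + 1)) (by omega) using 1
        simp [W, mt, n, e]; omega
    have ntl : ∀ s < 3 * φ.length, nt s < 3 * φ.length := fun s hs => by unfold nt; omega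
    have sU : ∀ s < 3 * φ.length, ReflTransGen D (U φ (nt s)) (0, 0, 0) →
        ReflTransGen D (U φ s) (0, 0, 0) := fun s hs k => by
      by_cases n : σ (lit φ s).1 = (lit φ s).2
      · exact tU s hs n
      · exact .head (uw s hs n) (.head (wu s hs) k)
    have sW : ∀ s < 3 * φ.length, ReflTransGen D (0, 0, 0) (W φ s) →
        ReflTransGen D (0, 0, 0) (W φ (nt s)) := fun s hs k => by
      by_cases n : σ (lit φ (nt s)).1 = (lit φ (nt s)).2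
      · exact fW _ (ntl s hs) n
      · exact .tail (.tail k (wu s hs)) (uw _ (ntl s hs) n)
    have aU : ∀ s < 3 * φ.length, ReflTransGen D (U φ s) (0, 0, 0) := fun s hs => by
      obtain ⟨i, hi, e⟩ := h (s / 3) (by omega)
      have := tU _ (by omega) e
      rcases (by unfold nt; omega : 3 * (s / 3) + i = s ∨ 3 * (s / 3) + i = nt s ∨
        3 * (s / 3) + i = nt (nt s)) with f | f | f <;> rw [f] at this
      exacts [this, sU s hs this, sU s hs (sU _ (ntl s hs) this)]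
    have aW : ∀ s < 3 * φ.length, ReflTransGen D (0, 0, 0) (W φ s) := fun s hs => by
      obtain ⟨i, hi, e⟩ := h (s / 3) (by omega)
      have l : 3 * (s / 3) + i < 3 * φ.length := by omega
      have := fW _ l e
      rcases (by unfold nt; omega : s = 3 * (s / 3) + i ∨ s = nt (3 * (s / 3) + i) ∨
        s = nt (nt (3 * (s / 3) + i))) with f | f | f <;> rw [f]
      exacts [this, sW _ l this, sW _ (ntl _ l) (sW _ l this)]
    have tw : ∀ i < nv φ, ∀ j < LL φ, ReflTransGen D (2, i, j) (0, 0, 0) := fun i hi j hj => by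
      by_cases c : cw φ (2, i, j)
      · rw [c.2]; exact .head (wu _ c.1) (aU _ (ntl _ c.1))
      · exact .single (wr i hi j hj c)
    have fu : ∀ i < nv φ, ∀ j < LL φ, ReflTransGen D (0, 0, 0) (1, i, j) := fun i hi j hj => by
      by_cases c : cu φ (1, i, j)
      · have c1 := c.1
        rw [c.2, show (1, i, j).2.2 / 2 = nt (nt (nt (j / 2))) by unfold nt; simp only; omega]
        exact .tail (aW _ (ntl _ (ntl _ c1))) (wu _ (ntl _ (ntl _ c1)))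
      · exact .single (ru i hi j hj c)
    have b0 := hb 0 (by omega) 1 rfl
    have b1 := hb 1 (by omega) 2 rfl
    have b2 := hb 2 (by omega) 3 rfl
    have b3 := hb 3 (by omega) 0 rfl
    have tt : ∀ x, inV φ x → ReflTransGen D x (0, 0, 0) ∧ ReflTransGen D (0, 0, 0) x := by
      rintro ⟨a, b, c⟩ (⟨rfl, rfl, f⟩ | ⟨rfl | rfl, f, g⟩)
      · simp only at f
        interval_cases c
        exacts [⟨.refl, .refl⟩, ⟨.head b1 (.head b2 (.single b3)), .single b0⟩,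
          ⟨.head b2 (.single b3), .head b0 (.single b1)⟩,
          ⟨.single b3, .head b0 (.head b1 (.single b2))⟩]
      · exact ⟨.head (um b f c g) (tw b f _ (hm _ _ g)), fu b f c g⟩
      · refine ⟨tw b f c g, ?_⟩
        by_cases s : σ b = true
        · exact .tail (fu b f c g) (by simpa [mt, s] using um b f c g)
        · obtain ⟨j, hj, rfl⟩ := hp c g
          exact .tail (fu b f j hj) (by simpa [mt, s] using um b f j hj)
    exact fun x hx y hy => (tt x hx).1.trans (tt y hy).2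

def VJ (φ : F3) : List J :=
  ([0] ×ˢ [0] ×ˢ List.range 4) ++ [1, 2] ×ˢ List.range (nv φ) ×ˢ List.range (LL φ)

theorem mem_VJ {φ : F3} {a : J} : a ∈ VJ φ ↔ inV φ a := by
  obtain ⟨a, b, c⟩ := a
  simp [VJ, inV, List.mem_product]
  omega

noncomputable def red (φ : F3) : List ℕ × List (ℕ × ℕ) :=
  ((VJ φ).map p3, ((VJ φ ×ˢ VJ φ).filter fun e => dc (arc0 φ e.1 e.2)).map fun e => (p3 e.1, p3 e.2))

theorem mem_A {φ : F3} {x y : ℕ} : (x, y) ∈ (red φ).2 ↔ ∃ a b, arc φ a b ∧ x = p3 a ∧ y = p3 b := by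
  simp only [red, List.mem_map, List.mem_filter, Prod.exists, List.mem_product, mem_VJ, dc_iff, arc,
    Prod.mk.injEq]
  constructor
  · rintro ⟨a, b, c, d, e, f, ⟨⟨g, h⟩, i⟩, rfl, rfl⟩
    exact ⟨a, b, c, d, e, f, ⟨g, h, i⟩, rfl, rfl⟩
  · rintro ⟨a, b, c, d, e, f, ⟨g, h, i⟩, rfl, rfl⟩
    exact ⟨a, b, c, d, e, f, ⟨⟨g, h⟩, i⟩, rfl, rfl⟩

theorem mem_V {φ : F3} {x : ℕ} : x ∈ (red φ).1 ↔ ∃ a, inV φ a ∧ p3 a = x := by
  simp only [red, List.mem_map, mem_VJ]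

theorem red_iff (φ : F3) : OK φ ↔ AS (red φ) := by
  constructor
  · rintro ⟨D1, D2, a1, a2, dj, an, st⟩
    refine ⟨fun e he => ?_, fun x y => ∃ a b, D1 a b ∧ x = p3 a ∧ y = p3 b,
      fun x y => ∃ a b, D2 a b ∧ x = p3 a ∧ y = p3 b,
      fun x y ⟨a, b, c, d⟩ => mem_A.2 ⟨a, b, a1 _ _ c, d⟩,
      fun x y ⟨a, b, c, d⟩ => mem_A.2 ⟨a, b, a2 _ _ c, d⟩, ?_, anti_iff.2 ⟨?_, ?_⟩, ?_⟩
    · obtain ⟨a, b, c, d, f⟩ := mem_A.1 (show (e.1, e.2) ∈ _ from he)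
      refine ⟨mem_V.2 ⟨a, c.1, d.symm⟩, mem_V.2 ⟨b, c.2.1, f.symm⟩, ?_⟩
      rw [d, f, Ne, p3_inj]
      rintro rfl
      obtain ⟨a, b, c'⟩ := a
      have := c.2.2
      simp [arc0, cw, U, W] at this
      omega
    · rintro x y ⟨⟨a, b, c, rfl, rfl⟩, a', b', d, e, f⟩
      rw [p3_inj] at e f
      subst e f
      exact dj _ _ ⟨c, d⟩
    · refine Finset.two_lt_card_iff.2 ⟨p3 (0, 0, 0), p3 (0, 0, 1), p3 (0, 0, 2), ?_⟩
      simp only [List.mem_toFinset, mem_V, Ne, p3_inj]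
      simp [inV]
    · intro x hx y hy n
      obtain ⟨a, ha, rfl⟩ := mem_V.1 hx
      obtain ⟨b, hb, rfl⟩ := mem_V.1 hy
      obtain ⟨t, c, d⟩ := an a ha b hb (by rintro rfl; exact n rfl)
      exact ⟨p3 t, c.lift p3 fun u v ⟨z, e, f⟩ => ⟨p3 z, ⟨_, _, e, rfl, rfl⟩, _, _, f, rfl, rfl⟩,
        _, _, d, rfl, rfl⟩
    · intro x hx y hy
      obtain ⟨a, ha, rfl⟩ := mem_V.1 hx
      obtain ⟨b, hb, rfl⟩ := mem_V.1 hy
      exact (st a ha b hb).lift p3 fun u v e => ⟨_, _, e, rfl, rfl⟩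
  · rintro ⟨-, D1, D2, a1, a2, dj, an, st⟩
    have pb : ∀ a b, (p3 a, p3 b) ∈ (red φ).2 → arc φ a b := fun a b k => by
      obtain ⟨a', b', c, d, e⟩ := mem_A.1 k
      rw [p3_inj] at d e
      exact d ▸ e ▸ c
    have tr : ∀ (R : ℕ → ℕ → Prop) (S : J → J → Prop), (∀ a y, R (p3 a) y → ∃ b, y = p3 b ∧ S a b) →
        ∀ a y, ReflTransGen R (p3 a) y → ∃ b, y = p3 b ∧ ReflTransGen S a b := fun R S k a y c => by
      induction c with
      | refl => exact ⟨a, rfl, .refl⟩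
      | tail _ r ih =>
        obtain ⟨b, rfl, d⟩ := ih
        obtain ⟨e, rfl, f⟩ := k _ _ r
        exact ⟨e, rfl, d.tail f⟩
    refine ⟨fun a b => D1 (p3 a) (p3 b), fun a b => D2 (p3 a) (p3 b), fun a b k => pb a b (a1 _ _ k),
      fun a b k => pb a b (a2 _ _ k), fun a b => dj _ _, fun x hx y hy n => ?_, fun x hx y hy => ?_⟩
    · obtain ⟨t, c, d⟩ := (anti_iff.1 an).2 _ (mem_V.2 ⟨x, hx, rfl⟩) _ (mem_V.2 ⟨y, hy, rfl⟩)
        (by rwa [Ne, p3_inj])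
      obtain ⟨b, rfl, e⟩ := tr _ (RR fun a b => D1 (p3 a) (p3 b)) (fun a y ⟨z, f, g⟩ => by
        obtain ⟨u, v, -, rfl, rfl⟩ := mem_A.1 (a1 _ _ g)
        exact ⟨u, rfl, v, f, g⟩) _ _ c
      exact ⟨b, e, d⟩
    · obtain ⟨b, e, f⟩ := tr _ (fun a b => D2 (p3 a) (p3 b)) (fun a y g => by
        obtain ⟨u, v, -, -, rfl⟩ := mem_A.1 (a2 _ _ g)
        exact ⟨v, rfl, g⟩) _ _ (st _ (mem_V.2 ⟨x, hx, rfl⟩) _ (mem_V.2 ⟨y, hy, rfl⟩))
      exact p3_inj.1 e ▸ f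

theorem hard : NPHard AS := by
  have := (hard_SAT3.hardFor.red (Val' := fun _ => True) (Y := AS) red
    (by unfold red VJ arc0 cu cw U W nt LL p3 Ki.nx; fun_prop) fun φ _ =>
      ⟨trivial, ⟨fun h => (red_iff φ).1 (complete h), fun h => sound ((red_iff φ).2 h)⟩⟩).npHard
  simpa using this

def pk (A : List (ℕ × ℕ)) (c : List ℕ) (k : ℕ) : List (ℕ × ℕ) :=
  ((List.range A.length).filter fun i => decide (c.getD i 0 = k)).map fun i => A.getD i (0, 0)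

def ck (V : List ℕ) (A B1 B2 : List (ℕ × ℕ)) : Prop :=
  (∀ e, e ∈ A → e.1 ∈ V ∧ e.2 ∈ V ∧ ¬ e.1 = e.2) ∧ (∀ e, e ∈ B1 → ¬ e ∈ B2) ∧
  (∃ a, a ∈ V ∧ ∃ b, b ∈ V ∧ ∃ c, c ∈ V ∧ ¬ a = b ∧ ¬ a = c ∧ ¬ b = c) ∧
  (∀ x, x ∈ V → ∀ y, y ∈ V → x = y ∨ ∃ t, t ∈ V ∧ (t, y) ∈ B1 ∧
    ReflTransGen (fun a b => b ∈ V ∧ ∃ z, z ∈ V ∧ (a, z) ∈ B1 ∧ (b, z) ∈ B1) x t) ∧
  ∀ x, x ∈ V → ∀ y, y ∈ V → ReflTransGen (fun a b => b ∈ V ∧ (a, b) ∈ B2) x y

theorem pt_ck : PT fun p : List ℕ × List (ℕ × ℕ) × List (ℕ × ℕ) × List (ℕ × ℕ) =>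
    dc (ck p.1 p.2.1 p.2.2.1 p.2.2.2) := by
  have a : PT fun p : (List ℕ × List (ℕ × ℕ)) × ℕ × ℕ => dc (ReflTransGen
      (fun a b => b ∈ p.1.1 ∧ ∃ z, z ∈ p.1.1 ∧ (a, z) ∈ p.1.2 ∧ (b, z) ∈ p.1.2) p.2.1 p.2.2) :=
    pt_rtg (N := fun p => p.2.1 :: p.1.1) (by fun_prop) (by fun_prop) (by fun_prop) (by fun_prop)
      (by simp) fun _ _ _ h _ => List.mem_cons_of_mem _ h.1
  have b : PT fun p : (List ℕ × List (ℕ × ℕ)) × ℕ × ℕ => dc (ReflTransGen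
      (fun a b => b ∈ p.1.1 ∧ (a, b) ∈ p.1.2) p.2.1 p.2.2) :=
    pt_rtg (N := fun p => p.2.1 :: p.1.1) (by fun_prop) (by fun_prop) (by fun_prop) (by fun_prop)
      (by simp) fun _ _ _ h _ => List.mem_cons_of_mem _ h.1
  obtain ⟨f, k1⟩ : ∃ f : (List ℕ × List (ℕ × ℕ)) × ℕ × ℕ → Bool, ∀ p, f p = dc (ReflTransGen
      (fun a b => b ∈ p.1.1 ∧ ∃ z, z ∈ p.1.1 ∧ (a, z) ∈ p.1.2 ∧ (b, z) ∈ p.1.2) p.2.1 p.2.2) :=
    ⟨_, fun _ => rfl⟩
  obtain ⟨g, k2⟩ : ∃ f : (List ℕ × List (ℕ × ℕ)) × ℕ × ℕ → Bool, ∀ p, f p = dc (ReflTransGen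
      (fun a b => b ∈ p.1.1 ∧ (a, b) ∈ p.1.2) p.2.1 p.2.2) := ⟨_, fun _ => rfl⟩
  simp only [← k1, ← k2] at a b
  refine dc_of (p := fun p : List ℕ × List (ℕ × ℕ) × List (ℕ × ℕ) × List (ℕ × ℕ) =>
    (∀ e, e ∈ p.2.1 → e.1 ∈ p.1 ∧ e.2 ∈ p.1 ∧ ¬ e.1 = e.2) ∧ (∀ e, e ∈ p.2.2.1 → ¬ e ∈ p.2.2.2) ∧
    (∃ a, a ∈ p.1 ∧ ∃ b, b ∈ p.1 ∧ ∃ c, c ∈ p.1 ∧ ¬ a = b ∧ ¬ a = c ∧ ¬ b = c) ∧
    (∀ x, x ∈ p.1 → ∀ y, y ∈ p.1 → x = y ∨ ∃ t, t ∈ p.1 ∧ (t, y) ∈ p.2.2.1 ∧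
      f ((p.1, p.2.2.1), x, t) = true) ∧
    ∀ x, x ∈ p.1 → ∀ y, y ∈ p.1 → g ((p.1, p.2.2.2), x, y) = true) (by fun_prop) fun p => ?_
  simp only [k1, k2, dc_iff, ck]

theorem pk_sub {A : List (ℕ × ℕ)} {c : List ℕ} {k : ℕ} {e : ℕ × ℕ} (h : e ∈ pk A c k) : e ∈ A := by
  simp only [pk, List.mem_map, List.mem_filter, List.mem_range] at h
  obtain ⟨i, ⟨a, -⟩, rfl⟩ := h
  rw [List.getD_eq_getElem _ _ a]
  exact List.getElem_mem a

theorem pk_map {A : List (ℕ × ℕ)} {f : ℕ × ℕ → ℕ} {k : ℕ} {e : ℕ × ℕ} :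
    e ∈ pk A (A.map f) k ↔ e ∈ A ∧ f e = k := by
  simp only [pk, List.mem_map, List.mem_filter, List.mem_range, decide_eq_true_eq]
  constructor
  · rintro ⟨i, ⟨a, b⟩, rfl⟩
    rw [List.getD_eq_getElem _ _ (by simpa using a)] at b
    rw [List.getD_eq_getElem _ _ a]
    exact ⟨List.getElem_mem a, by simpa using b⟩
  · rintro ⟨a, rfl⟩
    obtain ⟨i, hi, rfl⟩ := List.getElem_of_mem a
    exact ⟨i, ⟨hi, by rw [List.getD_eq_getElem _ _ (by simpa using hi)]; simp⟩,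
      List.getD_eq_getElem _ _ hi⟩

theorem ck_iff {V : List ℕ} {A B1 B2 : List (ℕ × ℕ)} (h1 : ∀ e ∈ B1, e ∈ A) (h2 : ∀ e ∈ B2, e ∈ A) :
    ck V A B1 B2 ↔ Dig (V, A) ∧ (∀ a b, ¬ ((a, b) ∈ B1 ∧ (a, b) ∈ B2)) ∧
      Anti V (fun a b => (a, b) ∈ B1) ∧ Strong V fun a b => (a, b) ∈ B2 := by
  refine and_congr_right fun d => and_congr (by simp) ?_
  rw [anti_iff, and_assoc]
  refine and_congr ?_ (and_congr (forall₄_congr fun x _ y _ => ?_) (forall₄_congr fun x _ y _ => ?_))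
  · rw [Nat.succ_le_iff, Finset.two_lt_card]
    simp only [List.mem_toFinset, ne_eq]
  · have : (fun a b => b ∈ V ∧ ∃ z, z ∈ V ∧ (a, z) ∈ B1 ∧ (b, z) ∈ B1) =
        RR fun a b => (a, b) ∈ B1 := by
      ext a b
      exact ⟨fun ⟨_, z, _, k⟩ => ⟨z, k⟩, fun ⟨z, k, l⟩ =>
        ⟨(d _ (h1 _ l)).1, z, (d _ (h1 _ l)).2.1, k, l⟩⟩
    rw [this, or_iff_not_imp_left]
    exact forall_congr' fun _ => exists_congr fun t =>
      ⟨fun k => ⟨k.2.2, k.2.1⟩, fun k => ⟨(d _ (h1 _ k.2)).1, k.2, k.1⟩⟩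
  · have : (fun a b => b ∈ V ∧ (a, b) ∈ B2) = fun a b => (a, b) ∈ B2 := by
      ext a b
      exact ⟨fun k => k.2, fun k => ⟨(d _ (h2 _ k)).2.1, k⟩⟩
    rw [this]

theorem np : InNP AS := by
  have a := pt_ck
  obtain ⟨f, k⟩ : ∃ f : List ℕ × List (ℕ × ℕ) × List (ℕ × ℕ) × List (ℕ × ℕ) → Bool, ∀ p,
    f p = dc (ck p.1 p.2.1 p.2.2.1 p.2.2.2) := ⟨_, fun _ => rfl⟩
  simp only [← k] at a
  refine PT.inNP_nats (V := fun y c => f (y.1, y.2, pk y.2 c 1, pk y.2 c 2))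
    (by unfold pk; fun_prop) (fun y => 3 * y.2.length) (by fun_prop) (fun y c h => ?_) fun y h => ?_
  · rw [k, dc_iff, ck_iff (fun _ => pk_sub) fun _ => pk_sub] at h
    exact ⟨h.1, _, _, fun _ _ => pk_sub, fun _ _ => pk_sub, h.2⟩
  · obtain ⟨d, D1, D2, a1, a2, dj, an, st⟩ := h
    classical
    refine ⟨y.2.map fun e => if D1 e.1 e.2 then 1 else if D2 e.1 e.2 then 2 else 0, ?_, ?_⟩
    · have := List.sum_le_card_nsmul (y.2.map fun e => if D1 e.1 e.2 then 1 else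
        if D2 e.1 e.2 then 2 else 0) 2 (by
          simp only [List.mem_map]
          rintro _ ⟨e, -, rfl⟩
          split_ifs <;> omega)
      simp only [List.length_map, smul_eq_mul] at this ⊢
      omega
    · rw [k, dc_iff, ck_iff (fun _ => pk_sub) fun _ => pk_sub]
      have e1 : (fun a b => (a, b) ∈ pk y.2 (y.2.map fun e => if D1 e.1 e.2 then 1 else
          if D2 e.1 e.2 then 2 else 0) 1) = D1 := by
        ext a b
        have := a1 a b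
        rw [pk_map]; dsimp only; split_ifs <;> simp_all
      have e2 : (fun a b => (a, b) ∈ pk y.2 (y.2.map fun e => if D1 e.1 e.2 then 1 else
          if D2 e.1 e.2 then 2 else 0) 2) = D2 := by
        ext a b
        have := a2 a b
        have := dj a b
        rw [pk_map]; dsimp only; split_ifs <;> simp_all
      exact ⟨d, fun a b c => dj a b ⟨(congrFun₂ e1 a b).mp c.1, (congrFun₂ e2 a b).mp c.2⟩,
        (congrArg (Anti y.1) e1).mpr an, (congrArg (Strong y.1) e2).mpr st⟩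

theorem main : NPComplete AS := ⟨np, hard⟩

end Pool.Agent.H24.Ans
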