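import Pool.Agent.H11.GDefs

set_option autoImplicit false

namespace Pool.Agent.H24.Ans
open Relation

/-- `FT D x y l`: `l` lists the arcs of a walk from `x` to `y` in the digraph with arc relation
`D` whose arcs are alternately forward and backward, the first and the last being forward -/
inductive FT (D : ℕ → ℕ → Prop) : ℕ → ℕ → List (ℕ × ℕ) → Prop
  | one {x y : ℕ} : D x y → FT D x y [(x, y)]
  | more {x z t y : ℕ} {l : List (ℕ × ℕ)} : D x z → D t z → FT D t y l →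
      FT D x y ((x, z) :: (t, z) :: l)

def Anti (V : List ℕ) (D : ℕ → ℕ → Prop) : Prop :=
  3 ≤ V.toFinset.card ∧ ∀ x ∈ V, ∀ y ∈ V, x ≠ y → ∃ l, FT D x y l ∧ l.Nodup

def Strong (V : List ℕ) (D : ℕ → ℕ → Prop) : Prop := ∀ x ∈ V, ∀ y ∈ V, ReflTransGen D x y

/-- the input `(V, A)` is a digraph: arcs join distinct listed vertices -/
def Dig (y : List ℕ × List (ℕ × ℕ)) : Prop := ∀ e ∈ y.2, e.1 ∈ y.1 ∧ e.2 ∈ y.1 ∧ e.1 ≠ e.2

def AS (y : List ℕ × List (ℕ × ℕ)) : Prop :=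
  Dig y ∧ ∃ D1 D2 : ℕ → ℕ → Prop, (∀ a b, D1 a b → (a, b) ∈ y.2) ∧ (∀ a b, D2 a b → (a, b) ∈ y.2) ∧
    (∀ a b, ¬ (D1 a b ∧ D2 a b)) ∧ Anti y.1 D1 ∧ Strong y.1 D2

end Pool.Agent.H24.Ans
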