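import Mathlib
import Pool.Agent.H24.AlgFO

set_option autoImplicit false

namespace Pool.Agent.H24.Alg
open Pool.Agent.H24.NilCore Submodule

universe u v w

variable {K : Type u} [Field K] {A : Type v} [NonUnitalRing A] [Module K A]
  [IsScalarTower K A A] [SMulCommClass K A A]

theorem assoc_H (k : ℕ) (a b c : A) (hc : c ∈ Pw (LinearMap.mul K A) ⊤ k) :
    LinearMap.mul K A (LinearMap.mul K A a b) c ∈ Pw (LinearMap.mul K A) ⊤ (k + 2) := by
  simp only [LinearMap.mul_apply', mul_assoc]
  exact apply_mem_map₂ (LinearMap.mul K A) mem_top (apply_mem_map₂ (LinearMap.mul K A) mem_top hc)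

theorem pw_le_span (k : ℕ) : Pw (LinearMap.mul K A) ⊤ k ≤
    span K {z | ∃ (l : List A) (x : A), l.length = k ∧ z = l.foldr (· * ·) x} := by
  induction k with
  | zero => exact fun z _ => subset_span ⟨[], z, rfl, rfl⟩
  | succ k ih =>
    refine map₂_le.2 fun a _ c hc => ?_
    have : span K {z | ∃ (l : List A) (x : A), l.length = k ∧ z = l.foldr (· * ·) x} ≤
        (span K {z | ∃ (l : List A) (x : A), l.length = k + 1 ∧ z = l.foldr (· * ·) x}).comap
          (LinearMap.mul K A a) := by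
      rw [span_le]
      rintro _ ⟨l, x, hl, rfl⟩
      exact subset_span ⟨a :: l, x, by simp [hl], rfl⟩
    exact this (ih hc)

theorem pw_of_nil {n : ℕ} (hn : 1 ≤ n) (h : NilIndex n A) :
    Pw (LinearMap.mul K A) ⊤ (n - 1) = ⊥ := by
  refine le_bot_iff.1 ((pw_le_span _).trans ?_)
  rw [span_le]
  rintro _ ⟨l, x, hl, rfl⟩
  exact h l x (by omega)

theorem foldr_append_mul (l : List A) (x y : A) :
    l.foldr (· * ·) (x * y) = l.foldr (· * ·) x * y := by
  induction l with
  | nil => rfl
  | cons a l ih => simp [ih, mul_assoc]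

theorem foldr_mem_der (k : ℕ) (l : List A) (x : A) (hl : l.length + 1 = 2 ^ k) :
    l.foldr (· * ·) x ∈ der K A k := by
  induction k generalizing l x with
  | zero => exact mem_top
  | succ k ih =>
    have h1 : 2 ^ k - 1 < l.length := by
      have := Nat.two_pow_pos k
      rw [pow_succ] at hl; omega
    have h2 : l = l.take (2 ^ k - 1) ++ l[2 ^ k - 1] :: l.drop (2 ^ k - 1 + 1) := by simp
    rw [h2, List.foldr_append, List.foldr_cons, foldr_append_mul]
    refine subset_span ⟨_, ih _ _ ?_, _, ih _ _ ?_, rfl⟩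
    · have := Nat.two_pow_pos k
      rw [List.length_take]; omega
    · have := Nat.two_pow_pos k
      rw [pow_succ] at hl
      rw [List.length_drop]; omega

theorem nil_of_der {n : ℕ} (h : der K A n = ⊥) : NilIndex (2 ^ n) A := by
  intro l x hl
  have := foldr_mem_der (K := K) n l x hl
  rwa [h] at this

theorem nil_sub {n : ℕ} (h : NilIndex n A) (S : NonUnitalSubalgebra K A) : NilIndex n S := by
  intro l x hl
  have h1 : ∀ l : List S, ((l.foldr (· * ·) x : S) : A) = (l.map (↑)).foldr (· * ·) (x : A) := by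
    intro l
    induction l with
    | nil => rfl
    | cons a l ih => simp [ih]
  exact Subtype.ext ((h1 l).trans (h _ _ (by simpa using hl)))

theorem der_sub (S : NonUnitalSubalgebra K A) (n : ℕ) :
    ∀ z ∈ der K S n, (z : A) ∈ der K A n := by
  induction n with
  | zero => exact fun _ _ => mem_top
  | succ n ih =>
    intro z hz
    induction hz using span_induction with
    | mem z hz =>
      obtain ⟨a, ha, b, hb, rfl⟩ := hz
      exact subset_span ⟨a, ih a ha, b, ih b hb, rfl⟩
    | zero => exact zero_mem _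
    | add x y _ _ hx hy => exact add_mem hx hy
    | smul c x _ hx => exact smul_mem _ c hx

theorem gen_of_free {r : ℕ} (x : Fin r → A)
    (h1 : ∀ (S : NonUnitalSubalgebra K A) (y : Fin r → S), ∃ φ : A →ₙₐ[K] S, ∀ i, φ (x i) = y i)
    (h2 : ∃! φ : A →ₙₐ[K] A, ∀ i, φ (x i) = x i) (S : Submodule K A) (hx : ∀ i, x i ∈ S)
    (hS : ∀ a ∈ S, ∀ b ∈ S, LinearMap.mul K A a b ∈ S) : S = ⊤ := by
  let S' : NonUnitalSubalgebra K A := S.toNonUnitalSubalgebra fun a b ha hb => hS a ha b hb
  obtain ⟨φ, hφ⟩ := h1 S' fun i => ⟨x i, hx i⟩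
  have h3 : (NonUnitalSubalgebraClass.subtype S').comp φ = NonUnitalAlgHom.id K A :=
    h2.unique (fun i => by simp [hφ]) (fun i => rfl)
  refine top_unique fun a _ => ?_
  have h4 : ((φ a : S') : A) = a := DFunLike.congr_fun h3 a
  rw [← h4]
  exact (φ a).2

theorem ext_of_free {r : ℕ} (x : Fin r → A)
    (h : ∀ y : Fin r → A, ∃ φ : A →ₙₐ[K] A, ∀ i, φ (x i) = y i) (y : Fin r → A) :
    ∃ φ, IsEnd (LinearMap.mul K A) φ ∧ ∀ i, φ (x i) = y i := by
  obtain ⟨φ, hφ⟩ := h y
  exact ⟨{ toFun := φ, map_add' := map_add φ, map_smul' := map_smul φ },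
    fun a b => map_mul φ a b, hφ⟩

end Pool.Agent.H24.Alg
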