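import Mathlib

/-! Finite-state relations given semantically, and their equivalence with Nivat form. -/

namespace Pool.Agent.H24.Bfr

theorem reg_of_fin {A β : Type} [Finite β] (L : Language A) (φ : List A → β)
    (H : ∀ x x', φ x = φ x' → ∀ z, x ++ z ∈ L → x' ++ z ∈ L) : L.IsRegular := by
  apply Language.IsRegular.of_finite_range_leftQuotient
  let F : β → Language A := fun b => {z | ∃ x, φ x = b ∧ x ++ z ∈ L}
  refine (Set.finite_range F).subset ?_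
  rintro _ ⟨x, rfl⟩
  refine ⟨φ x, ?_⟩
  ext z
  constructor
  · rintro ⟨x', h1, h2⟩
    exact H _ _ h1 z h2
  · intro h
    exact ⟨x, rfl, h⟩

structure FR (X Y : Type) where
  Q : Type
  fin : Finite Q
  T : Q → List X → List Y → Q → Prop
  I : Q → Prop
  F : Q → Prop
  refl : ∀ s, T s [] [] s
  trans : ∀ {s s' s'' u u' y y'}, T s u y s' → T s' u' y' s'' → T s (u ++ u') (y ++ y') s''
  splitIn : ∀ {s s' u u' y}, T s (u ++ u') y s' →
    ∃ s'' y1 y2, y = y1 ++ y2 ∧ T s u y1 s'' ∧ T s'' u' y2 s'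
  splitOut : ∀ {s s' u y y'}, T s u (y ++ y') s' →
    ∃ s'' u1 u2, u = u1 ++ u2 ∧ T s u1 y s'' ∧ T s'' u2 y' s'

variable {X Y Z : Type}

def FR.rel (τ : FR X Y) (x : List X) (y : List Y) : Prop := ∃ s f, τ.I s ∧ τ.F f ∧ τ.T s x y f

def FR.swap (τ : FR X Y) : FR Y X where
  Q := τ.Q
  fin := τ.fin
  T s y u f := τ.T s u y f
  I := τ.I
  F := τ.F
  refl := τ.refl
  trans h1 h2 := τ.trans h1 h2
  splitIn h := τ.splitOut h
  splitOut h := τ.splitIn h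

theorem FR.swap_rel (τ : FR X Y) (x y) : τ.swap.rel y x ↔ τ.rel x y := Iff.rfl

def FR.comp (τ : FR X Y) (σ : FR Y Z) : FR X Z where
  Q := τ.Q × σ.Q
  fin := by have := τ.fin; have := σ.fin; infer_instance
  T s u z f := ∃ y, τ.T s.1 u y f.1 ∧ σ.T s.2 y z f.2
  I s := τ.I s.1 ∧ σ.I s.2
  F s := τ.F s.1 ∧ σ.F s.2
  refl s := ⟨[], τ.refl _, σ.refl _⟩
  trans := by
    rintro s s' s'' u u' y y' ⟨v, h1, h2⟩ ⟨v', h3, h4⟩
    exact ⟨v ++ v', τ.trans h1 h3, σ.trans h2 h4⟩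
  splitIn := by
    rintro s s' u u' y ⟨v, h1, h2⟩
    obtain ⟨a, v1, v2, rfl, h3, h4⟩ := τ.splitIn h1
    obtain ⟨b, y1, y2, rfl, h5, h6⟩ := σ.splitIn h2
    exact ⟨(a, b), y1, y2, rfl, ⟨v1, h3, h5⟩, ⟨v2, h4, h6⟩⟩
  splitOut := by
    rintro s s' u y y' ⟨v, h1, h2⟩
    obtain ⟨b, v1, v2, rfl, h5, h6⟩ := σ.splitOut h2
    obtain ⟨a, u1, u2, rfl, h3, h4⟩ := τ.splitOut h1
    exact ⟨(a, b), u1, u2, rfl, ⟨v1, h3, h5⟩, ⟨v2, h4, h6⟩⟩

theorem FR.comp_rel (τ : FR X Y) (σ : FR Y Z) (x z) :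
    (τ.comp σ).rel x z ↔ ∃ y, τ.rel x y ∧ σ.rel y z := by
  constructor
  · rintro ⟨s, f, ⟨a, b⟩, ⟨c, d⟩, y, h1, h2⟩
    exact ⟨y, ⟨_, _, a, c, h1⟩, ⟨_, _, b, d, h2⟩⟩
  · rintro ⟨y, ⟨s, f, a, c, h1⟩, ⟨s', f', b, d, h2⟩⟩
    exact ⟨(s, s'), (f, f'), ⟨a, b⟩, ⟨c, d⟩, y, h1, h2⟩

theorem exists_inter {R : Language X} (hR : R.IsRegular) :
    ∃ τ : FR X X, ∀ x y, τ.rel x y ↔ x = y ∧ x ∈ R := by
  obtain ⟨σ, _, M, rfl⟩ := hR
  refine ⟨⟨σ, inferInstance, fun s u y f => u = y ∧ M.evalFrom s u = f, fun s => s = M.start,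
    fun s => s ∈ M.accept, fun s => ⟨rfl, rfl⟩, ?_, ?_, ?_⟩, ?_⟩
  · rintro s s' s'' u u' y y' ⟨rfl, rfl⟩ ⟨rfl, rfl⟩
    exact ⟨rfl, M.evalFrom_of_append _ _ _⟩
  · rintro s s' u u' y ⟨rfl, rfl⟩
    exact ⟨_, u, u', rfl, ⟨rfl, rfl⟩, rfl, (M.evalFrom_of_append _ _ _).symm⟩
  · rintro s s' u y y' ⟨rfl, rfl⟩
    exact ⟨_, y, y', rfl, ⟨rfl, rfl⟩, rfl, (M.evalFrom_of_append _ _ _).symm⟩
  · intro x y
    constructor
    · rintro ⟨s, f, rfl, h, rfl, rfl⟩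
      exact ⟨rfl, h⟩
    · rintro ⟨rfl, h⟩
      exact ⟨_, _, rfl, h, rfl, rfl⟩

theorem morph_out (g : X → List Y) (l : ℕ) (hl : ∀ c, (g c).length ≤ l) (y2 b' : List Y) :
    ∀ (u : List X) (b y1 : List Y), b.length ≤ l → b ++ u.flatMap g = (y1 ++ y2) ++ b' →
      ∃ b'' u1 u2, b''.length ≤ l ∧ u = u1 ++ u2 ∧ b ++ u1.flatMap g = y1 ++ b'' ∧
        b'' ++ u2.flatMap g = y2 ++ b' := by
  intro u
  induction u with
  | nil =>
    intro b y1 hb h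
    refine ⟨y2 ++ b', [], [], ?_, rfl, by simpa using h, by simp⟩
    have := congrArg List.length h
    simp at this ⊢
    omega
  | cons c u ih =>
    intro b y1 hb h
    rw [List.append_assoc y1] at h
    rcases List.append_eq_append_iff.1 h with ⟨a, rfl, h2⟩ | ⟨a, rfl, h2⟩
    · obtain ⟨b'', u1, u2, h3, rfl, h4, h5⟩ := ih (g c) a (hl c) (by simpa using h2)
      exact ⟨b'', c :: u1, u2, h3, rfl, by simp [h4], h5⟩
    · refine ⟨a, [], c :: u, ?_, rfl, by simp, h2.symm⟩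
      simp at hb
      omega

theorem exists_morph [Finite X] [Finite Y] (g : X → List Y) :
    ∃ τ : FR X Y, ∀ x y, τ.rel x y ↔ x.flatMap g = y := by
  obtain ⟨l, hl⟩ : ∃ l, ∀ c, (g c).length ≤ l := by
    obtain ⟨l, hl⟩ := (Set.finite_range fun c => (g c).length).bddAbove
    exact ⟨l, fun c => hl ⟨c, rfl⟩⟩
  refine ⟨⟨{b : List Y // b.length ≤ l}, (List.finite_length_le Y l).to_subtype,
    fun s u y f => s.1 ++ u.flatMap g = y ++ f.1, fun s => s.1 = [],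
    fun s => s.1 = [], fun s => by simp, ?_, ?_, ?_⟩, ?_⟩
  · intro s s' s'' u u' y y' h1 h2
    rw [List.flatMap_append, ← List.append_assoc, h1, List.append_assoc, h2, List.append_assoc]
  · intro s s' u u' y h
    rw [List.flatMap_append, ← List.append_assoc] at h
    rcases List.append_eq_append_iff.1 h with ⟨a, rfl, h2⟩ | ⟨a, h1, h2⟩
    · exact ⟨⟨[], by simp⟩, _, a, rfl, by simp, by simpa using h2⟩
    · refine ⟨⟨a, ?_⟩, y, [], by simp, h1, by simpa using h2.symm⟩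
      have h3 := s'.2
      rw [h2] at h3
      simp at h3
      omega
  · intro s s' u y y' h
    obtain ⟨b'', u1, u2, h3, rfl, h4, h5⟩ := morph_out g l hl y' s'.1 u s.1 y s.2 h
    exact ⟨⟨b'', h3⟩, u1, u2, rfl, h4, h5⟩
  · intro x y
    constructor
    · rintro ⟨s, f, h1, h2, h3⟩
      dsimp only at h1 h2 h3
      simpa [h1, h2] using h3
    · intro h
      exact ⟨⟨[], by simp⟩, ⟨[], by simp⟩, rfl, rfl, by simpa using h⟩

/-- `M` is the image of `L` under a rational transduction in Nivat form. -/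
def InT (L : Language X) (M : Language Y) : Prop :=
  ∃ (C : Type) (_ : Finite C) (h : C → List X) (g : C → List Y) (R : Language C),
    R.IsRegular ∧ ∀ y, y ∈ M ↔ ∃ z, z ∈ R ∧ z.flatMap h ∈ L ∧ z.flatMap g = y

theorem InT.fr [Finite X] [Finite Y] {L : Language X} {M : Language Y} (H : InT L M) :
    ∃ τ : FR X Y, ∀ y, y ∈ M ↔ ∃ x, x ∈ L ∧ τ.rel x y := by
  obtain ⟨C, _, h, g, R, hR, H⟩ := H
  obtain ⟨a, ha⟩ := exists_morph h
  obtain ⟨b, hb⟩ := exists_inter hR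
  obtain ⟨c, hc⟩ := exists_morph g
  refine ⟨(a.swap.comp b).comp c, fun y => ?_⟩
  rw [H]
  simp only [FR.comp_rel, FR.swap_rel, ha, hb, hc]
  constructor
  · rintro ⟨z, h1, h2, h3⟩
    exact ⟨_, h2, z, ⟨z, rfl, rfl, h1⟩, h3⟩
  · rintro ⟨x, h1, z, ⟨z', rfl, rfl, h2⟩, h3⟩
    exact ⟨z', h2, h1, h3⟩

def Edge (τ : FR X Y) : Type :=
  {e : τ.Q × Option X × Option Y × τ.Q // τ.T e.1 e.2.1.toList e.2.2.1.toList e.2.2.2}

def Pth (τ : FR X Y) : τ.Q → List (Edge τ) → τ.Q → Prop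
  | s, [], f => s = f
  | s, e :: z, f => e.1.1 = s ∧ Pth τ e.1.2.2.2 z f

theorem pth_append (τ : FR X Y) (z z' : List (Edge τ)) : ∀ s f,
    Pth τ s (z ++ z') f ↔ ∃ m, Pth τ s z m ∧ Pth τ m z' f := by
  induction z with
  | nil => intro s f; simp [Pth]
  | cons e z ih =>
    intro s f
    simp only [List.cons_append, Pth, ih]
    constructor
    · rintro ⟨h, m, h1, h2⟩; exact ⟨m, ⟨h, h1⟩, h2⟩
    · rintro ⟨m, ⟨h, h1⟩, h2⟩; exact ⟨h, m, h1, h2⟩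

theorem pth_sound (τ : FR X Y) (z : List (Edge τ)) : ∀ s f, Pth τ s z f →
    τ.T s (z.flatMap fun e => e.1.2.1.toList) (z.flatMap fun e => e.1.2.2.1.toList) f := by
  induction z with
  | nil => rintro s f rfl; exact τ.refl _
  | cons e z ih =>
    rintro s f ⟨rfl, h⟩
    exact τ.trans e.2 (ih _ _ h)

theorem pth_complete (τ : FR X Y) : ∀ (n : ℕ) (s f : τ.Q) (u : List X) (y : List Y),
    u.length + y.length ≤ n → τ.T s u y f → ∃ z, Pth τ s z f ∧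
      (z.flatMap fun e => e.1.2.1.toList) = u ∧ (z.flatMap fun e => e.1.2.2.1.toList) = y := by
  intro n
  induction n with
  | zero =>
    intro s f u y hn h
    obtain rfl : u = [] := List.eq_nil_of_length_eq_zero (by omega)
    obtain rfl : y = [] := List.eq_nil_of_length_eq_zero (by omega)
    exact ⟨[⟨(s, none, none, f), h⟩], ⟨rfl, rfl⟩, rfl, rfl⟩
  | succ n ih =>
    intro s f u y hn h
    have key : ∀ s'' u1 u2 y1 y2, u = u1 ++ u2 → y = y1 ++ y2 → τ.T s u1 y1 s'' →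
        τ.T s'' u2 y2 f → 0 < u1.length + y1.length → 0 < u2.length + y2.length →
        ∃ z, Pth τ s z f ∧
      (z.flatMap fun e => e.1.2.1.toList) = u ∧ (z.flatMap fun e => e.1.2.2.1.toList) = y := by
      rintro s'' u1 u2 y1 y2 rfl rfl h1 h2 p1 p2
      simp only [List.length_append] at hn
      obtain ⟨z1, a1, a2, a3⟩ := ih _ _ _ _ (by omega) h1
      obtain ⟨z2, b1, b2, b3⟩ := ih _ _ _ _ (by omega) h2
      exact ⟨z1 ++ z2, (pth_append _ _ _ _ _).2 ⟨_, a1, b1⟩, by simp [a2, b2], by simp [a3, b3]⟩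
    match u, y, h, key with
    | a :: b :: u, y, h, key =>
      obtain ⟨s'', y1, y2, e, h1, h2⟩ := τ.splitIn (u := [a]) (u' := b :: u) h
      exact key s'' [a] (b :: u) y1 y2 rfl e h1 h2 (by simp) (by simp)
    | u, a :: b :: y, h, key =>
      obtain ⟨s'', u1, u2, e, h1, h2⟩ := τ.splitOut (y := [a]) (y' := b :: y) h
      exact key s'' u1 u2 [a] (b :: y) e rfl h1 h2 (by simp) (by simp)
    | [], [], h, _ => exact ⟨[⟨(s, none, none, f), h⟩], ⟨rfl, rfl⟩, rfl, rfl⟩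
    | [a], [], h, _ => exact ⟨[⟨(s, some a, none, f), h⟩], ⟨rfl, rfl⟩, rfl, rfl⟩
    | [], [b], h, _ => exact ⟨[⟨(s, none, some b, f), h⟩], ⟨rfl, rfl⟩, rfl, rfl⟩
    | [a], [b], h, _ => exact ⟨[⟨(s, some a, some b, f), h⟩], ⟨rfl, rfl⟩, rfl, rfl⟩

theorem InT.of_fr [Finite X] [Finite Y] {L : Language X} {M : Language Y} (τ : FR X Y)
    (H : ∀ y, y ∈ M ↔ ∃ x, x ∈ L ∧ τ.rel x y) : InT L M := by
  have := τ.fin
  refine ⟨Edge τ, by unfold Edge; infer_instance, fun e => e.1.2.1.toList,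
    fun e => e.1.2.2.1.toList, {z | ∃ s f, τ.I s ∧ τ.F f ∧ Pth τ s z f}, ?_, fun y => ?_⟩
  · apply reg_of_fin _ (fun z => {m | ∃ s, τ.I s ∧ Pth τ s z m})
    rintro x x' e z ⟨s, f, h1, h2, h3⟩
    obtain ⟨m, h4, h5⟩ := (pth_append _ _ _ _ _).1 h3
    have h6 : m ∈ {m | ∃ s, τ.I s ∧ Pth τ s x m} := ⟨s, h1, h4⟩
    rw [e] at h6
    obtain ⟨s', h7, h8⟩ := h6
    exact ⟨s', f, h7, h2, (pth_append _ _ _ _ _).2 ⟨m, h8, h5⟩⟩
  · rw [H]
    constructor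
    · rintro ⟨x, hx, s, f, h1, h2, h3⟩
      obtain ⟨z, a1, a2, a3⟩ := pth_complete τ _ s f x y le_rfl h3
      exact ⟨z, ⟨s, f, h1, h2, a1⟩, a2 ▸ hx, a3⟩
    · rintro ⟨z, ⟨s, f, h1, h2, h3⟩, h4, rfl⟩
      exact ⟨_, h4, s, f, h1, h2, pth_sound τ z s f h3⟩

theorem InT.trans [Finite X] [Finite Y] [Finite Z] {L : Language X} {M : Language Y}
    {N : Language Z} (h1 : InT L M) (h2 : InT M N) : InT L N := by
  obtain ⟨a, ha⟩ := h1.fr
  obtain ⟨b, hb⟩ := h2.fr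
  refine InT.of_fr (a.comp b) fun y => ?_
  simp only [hb, ha, FR.comp_rel]
  constructor
  · rintro ⟨v, ⟨x, p1, p2⟩, p3⟩
    exact ⟨x, p1, v, p2, p3⟩
  · rintro ⟨x, p1, v, p2, p3⟩
    exact ⟨v, ⟨x, p1, p2⟩, p3⟩

theorem FR.range_reg (τ : FR X Y) : Language.IsRegular ({y | ∃ x, τ.rel x y} : Language Y) := by
  have := τ.fin
  apply reg_of_fin _ (fun y => {m | ∃ s x, τ.I s ∧ τ.T s x y m})
  rintro y y' e z ⟨x, s, f, h1, h2, h3⟩
  obtain ⟨m, u1, u2, rfl, h4, h5⟩ := τ.splitOut h3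
  have h6 : m ∈ {m | ∃ s x, τ.I s ∧ τ.T s x y m} := ⟨s, u1, h1, h4⟩
  rw [e] at h6
  obtain ⟨s', x', h7, h8⟩ := h6
  exact ⟨x' ++ u2, s', f, h7, h2, τ.trans h8 h5⟩

theorem image_reg [Finite X] [Finite Y] {R : Language X} (hR : R.IsRegular) (g : X → List Y) :
    Language.IsRegular ({y | ∃ x, x ∈ R ∧ x.flatMap g = y} : Language Y) := by
  obtain ⟨b, hb⟩ := exists_inter hR
  obtain ⟨c, hc⟩ := exists_morph g
  have := (b.comp c).range_reg
  convert this using 1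
  ext y
  change (∃ x, _) ↔ ∃ x, _
  simp only [FR.comp_rel, hb, hc]
  constructor
  · rintro ⟨x, h1, h2⟩; exact ⟨x, x, ⟨rfl, h1⟩, h2⟩
  · rintro ⟨x, x', ⟨rfl, h1⟩, h2⟩; exact ⟨x, h1, h2⟩

end Pool.Agent.H24.Bfr
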