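import Mathlib

/-! Combinatorial core: sets of exponent vectors with upward pumping. -/

namespace Pool.Agent.H24.Bfr

variable {k : ℕ}

def Diag (n : Fin k → ℕ) : Prop := ∀ a b, n a = n b

structure Pump (ρ : (Fin k → ℕ) → (Fin k → ℕ) → Prop) (t0 P : ℕ) : Prop where
  pos : 0 < P
  up : ∀ n m, ρ n m → ∃ (l : Fin k → Fin k) (c : Fin k → ℕ), ∀ t : Fin k → ℕ,
    (∀ i, m i < t0 → t i = 0) →
    ρ (fun a => n a + ∑ i, if a = l i then t i * c i else 0) (fun i => m i + t i * P)

def InA (ρ : (Fin k → ℕ) → (Fin k → ℕ) → Prop) (m : Fin k → ℕ) : Prop := ∃ n, ρ n m ∧ ¬ Diag n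

def Ray (ρ : (Fin k → ℕ) → (Fin k → ℕ) → Prop) : Prop :=
  ∃ y v : Fin k → ℕ, ∀ n, InA ρ (fun i => y i + n i * v i) ↔ ¬ Diag n

def Box (P : ℕ) (I : Finset (Fin k)) (y m : Fin k → ℕ) : Prop :=
  ∀ i, (i ∈ I → ∃ t, m i = y i + t * P) ∧ (i ∉ I → m i = y i)

theorem bdd_of_classes (S : ℕ → Prop) (C : ℕ) (hC : 0 < C)
    (h : ∀ s, S s → ∃ U, ∀ u, U ≤ u → ¬ S (s + u * C)) : ∃ B, ∀ s, S s → s ≤ B := by
  have h1 : ∀ r : Fin C, ∃ B, ∀ s, S s → s % C = r → s ≤ B := by
    intro r
    by_cases e : ∃ s, S s ∧ s % C = r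
    · obtain ⟨s0, p1, p2⟩ := e
      obtain ⟨U, hU⟩ := h s0 p1
      refine ⟨s0 + U * C, fun s q1 q2 => ?_⟩
      by_contra hlt
      push Not at hlt
      have hd : C ∣ s - s0 := (Nat.modEq_iff_dvd' (by omega)).1 (by unfold Nat.ModEq; omega)
      obtain ⟨u, hu⟩ := hd
      have e2 : s = s0 + u * C := by rw [mul_comm]; omega
      refine hU u ?_ (e2 ▸ q1)
      by_contra hu2
      have : u * C ≤ U * C := Nat.mul_le_mul_right _ (by omega)
      omega
    · exact ⟨0, fun s q1 q2 => (e ⟨s, q1, q2⟩).elim⟩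
  choose B hB using h1
  obtain ⟨b, hb⟩ := (Set.finite_range B).bddAbove
  exact ⟨b, fun s hs => (hB ⟨s % C, Nat.mod_lt _ hC⟩ s hs rfl).trans (hb ⟨_, rfl⟩)⟩

variable {ρ : (Fin k → ℕ) → (Fin k → ℕ) → Prop} {t0 P : ℕ}

theorem ray_event (H : Pump ρ t0 P) (p d : Fin k → ℕ) (hp : ∀ i, t0 ≤ p i) (h : InA ρ p) :
    ∃ U, ∀ u, U ≤ u → InA ρ (fun i => p i + (u * d i) * P) := by
  obtain ⟨n, h1, h2⟩ := h
  obtain ⟨l, c, hl⟩ := H.up n p h1
  unfold Diag at h2
  push Not at h2
  obtain ⟨a, b, hab⟩ := h2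
  refine ⟨n a + n b + 1, fun u hu => ⟨_, hl (fun i => u * d i) (fun i hi => by have := hp i; omega),
    fun hD => ?_⟩⟩
  have e := hD a b
  have f : ∀ a, (∑ i, if a = l i then u * d i * c i else 0) =
      u * ∑ i, if a = l i then d i * c i else 0 := by
    intro a
    rw [Finset.mul_sum]
    refine Finset.sum_congr rfl fun i _ => ?_
    split_ifs <;> ring
  dsimp only at e
  rw [f, f] at e
  generalize (∑ i, if a = l i then d i * c i else 0) = x at e
  generalize (∑ i, if b = l i then d i * c i else 0) = y at e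
  rcases lt_trichotomy x y with g | g | g
  · have : u * (x + 1) ≤ u * y := Nat.mul_le_mul_left _ g
    nlinarith
  · subst g; omega
  · have : u * (y + 1) ≤ u * x := Nat.mul_le_mul_left _ g
    nlinarith

theorem box_above (hP : 0 < P) {I : Finset (Fin k)} {y z m : Fin k → ℕ} (hz : Box P I y z)
    (hm : Box P I y m) (B : ℕ) (hB : ∀ i ∈ I, (∑ j, z j) + (B + 1) * P < m i) :
    ∃ t : Fin k → ℕ, (∀ i, i ∉ I → t i = 0) ∧ (∀ i ∈ I, B < t i) ∧
      m = fun i => z i + t i * P := by
  have : ∀ i, ∃ t, (i ∉ I → t = 0) ∧ (i ∈ I → B < t) ∧ m i = z i + t * P := by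
    intro i
    by_cases hi : i ∈ I
    · obtain ⟨a, ha⟩ := (hz i).1 hi
      obtain ⟨b, hb⟩ := (hm i).1 hi
      have h1 := hB i hi
      have h2 : z i ≤ ∑ j, z j := Finset.single_le_sum (fun _ _ => Nat.zero_le _) (Finset.mem_univ i)
      have h3 : (a + (B + 1)) * P < b * P := by rw [add_mul]; omega
      have h4 : a + (B + 1) < b := Nat.lt_of_mul_lt_mul_right h3
      obtain ⟨e, rfl⟩ : ∃ e, b = a + e := ⟨b - a, by omega⟩
      exact ⟨e, fun h => (h hi).elim, fun _ => by omega, by rw [hb, ha]; ring⟩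
    · exact ⟨0, fun _ => rfl, fun h => (hi h).elim, by rw [(hm i).2 hi, (hz i).2 hi]; simp⟩
  choose t h1 h2 h3 using this
  exact ⟨t, h1, h2, funext h3⟩

theorem box_cases (hk : 0 < k) (H : Pump ρ t0 P) (hR : ¬ Ray ρ) (I : Finset (Fin k))
    (y : Fin k → ℕ) (hy : ∀ i ∈ I, t0 ≤ y i) :
    (∀ m, Box P I y m → ¬ InA ρ m) ∨
      ∃ M, ∀ m, Box P I y m → (∀ i ∈ I, M < m i) → InA ρ m := by
  by_cases e : ∃ z, Box P I y z ∧ InA ρ z
  swap
  · exact Or.inl fun m h1 h2 => e ⟨m, h1, h2⟩
  right
  obtain ⟨z, hz, n, h1, h2⟩ := e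
  obtain ⟨l, c, hl⟩ := H.up n z h1
  have hz0 : ∀ i ∈ I, t0 ≤ z i := by
    intro i hi
    obtain ⟨a, ha⟩ := (hz i).1 hi
    have := hy i hi
    omega
  by_cases hs : ∀ a, ∃ i ∈ I, l i = a ∧ 0 < c i
  · have hsur : Function.Surjective l := fun a => by
      obtain ⟨i, _, h, _⟩ := hs a; exact ⟨i, h⟩
    have hinj : Function.Injective l := Finite.injective_iff_surjective.2 hsur
    have hI : ∀ i, i ∈ I ∧ 0 < c i := by
      intro i
      obtain ⟨j, p1, p2, p3⟩ := hs (l i)
      obtain rfl := hinj p2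
      exact ⟨p1, p3⟩
    have hsum : ∀ (t : Fin k → ℕ) j, (∑ i, if l j = l i then t i * c i else 0) = t j * c j := by
      intro t j
      rw [Finset.sum_eq_single j]
      · simp
      · intro b _ hb
        rw [if_neg fun h => hb (hinj h).symm]
      · simp
    have hin : ∀ t : Fin k → ℕ, InA ρ (fun i => z i + t i * P) ∨
        ∀ i j, n (l i) + t i * c i = n (l j) + t j * c j := by
      intro t
      have := hl t (fun i hi => by have := hz0 i (hI i).1; omega)
      by_cases hD : Diag (fun a => n a + ∑ i, if a = l i then t i * c i else 0)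
      · right
        intro i j
        have := hD (l i) (l j)
        simpa only [hsum] using this
      · exact Or.inl ⟨_, this, hD⟩
    obtain ⟨C, d, hC, hd⟩ : ∃ (C : ℕ) (d : Fin k → ℕ), 0 < C ∧ ∀ i, d i * c i = C := by
      refine ⟨∏ i, c i, fun i => (∏ i, c i) / c i, Finset.prod_pos fun i _ => (hI i).2,
        fun i => Nat.div_mul_cancel (Finset.dvd_prod_of_mem _ (Finset.mem_univ i))⟩
    obtain ⟨B, hB⟩ := bdd_of_classes (fun s => ∃ t : Fin k → ℕ, (∀ i, n (l i) + t i * c i = s) ∧
        ¬ InA ρ (fun i => z i + t i * P)) C hC (by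
      rintro s ⟨t, p1, p2⟩
      have hex : ∃ u, InA ρ (fun i => z i + t i * P + (u * d i) * P) := by
        by_contra hne
        push Not at hne
        refine hR ⟨fun i => z i + t i * P, fun i => d i * P, fun w => ⟨fun h hD => ?_, fun hD => ?_⟩⟩
        · refine hne (w ⟨0, hk⟩) ?_
          convert h using 2 with i
          rw [hD ⟨0, hk⟩ i]; ring
        · rcases hin (fun i => t i + w i * d i) with h | h
          · convert h using 2 with i
            ring
          · refine (hD fun i j => ?_).elim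
            have := h i j
            have a1 := p1 i
            have a2 := p1 j
            have b1 : (t i + w i * d i) * c i = t i * c i + w i * C := by rw [← hd i]; ring
            have b2 : (t j + w j * d j) * c j = t j * c j + w j * C := by rw [← hd j]; ring
            have : w i * C = w j * C := by omega
            exact Nat.eq_of_mul_eq_mul_right hC this
      obtain ⟨u0, hu0⟩ := hex
      obtain ⟨U, hU⟩ := ray_event H _ d (fun i => by have := hz0 i (hI i).1; omega) hu0
      refine ⟨u0 + U, fun u hu ⟨t', q1, q2⟩ => q2 ?_⟩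
      have := hU (u - u0) (by omega)
      convert this using 2 with i
      have a1 := p1 i
      have a2 := q1 i
      have b1 : (t i + u * d i) * c i = t i * c i + u * C := by rw [← hd i]; ring
      have b2 : t' i = t i + u * d i := Nat.eq_of_mul_eq_mul_right (hI i).2 (by omega)
      obtain ⟨w, rfl⟩ : ∃ w, u = u0 + w := ⟨u - u0, by omega⟩
      rw [b2, Nat.add_sub_cancel_left]; ring)
    refine ⟨(∑ j, z j) + (B + 1) * P, fun m hm hM => ?_⟩
    obtain ⟨t, p1, p2, rfl⟩ := box_above H.pos hz hm B hM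
    rcases hin t with h | h
    · exact h
    · by_contra hn
      have := hB _ ⟨t, fun i => h i ⟨0, hk⟩, hn⟩
      have a1 := p2 ⟨0, hk⟩ (hI _).1
      have a2 : t ⟨0, hk⟩ * 1 ≤ t ⟨0, hk⟩ * c ⟨0, hk⟩ := Nat.mul_le_mul_left _ (hI _).2
      omega
  · push Not at hs
    obtain ⟨a0, ha0⟩ := hs
    refine ⟨(∑ j, z j) + (n a0 + 1) * P, fun m hm hM => ?_⟩
    obtain ⟨t, p1, p2, rfl⟩ := box_above H.pos hz hm (n a0) hM
    refine ⟨_, hl t (fun i hi => p1 i fun h => by have := hz0 i h; omega), fun hD => h2 ?_⟩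
    have z0 : (∑ i, if a0 = l i then t i * c i else 0) = 0 := by
      refine Finset.sum_eq_zero fun i _ => ?_
      split_ifs with h
      · by_cases hi : i ∈ I
        · have := ha0 i hi h.symm
          simp [show c i = 0 by omega]
        · simp [p1 i hi]
      · rfl
    have key : ∀ a, n a = n a0 := by
      intro a
      have e := hD a a0
      dsimp only at e
      rw [z0] at e
      have z1 : (∑ i, if a = l i then t i * c i else 0) = 0 := by
        refine Finset.sum_eq_zero fun i _ => ?_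
        have le : (if a = l i then t i * c i else 0) ≤ ∑ i, if a = l i then t i * c i else 0 :=
          Finset.single_le_sum (f := fun i => if a = l i then t i * c i else 0)
            (fun _ _ => Nat.zero_le _) (Finset.mem_univ i)
        split_ifs at le ⊢ with h
        · by_cases hi : i ∈ I
          · have := p2 i hi
            rcases Nat.eq_zero_or_pos (c i) with g | g
            · simp [g]
            · have : t i * 1 ≤ t i * c i := Nat.mul_le_mul_left _ g
              omega
          · simp [p1 i hi]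
        · rfl
      omega
    intro a b
    rw [key a, key b]

def step (P : ℕ) (m : Fin k → ℕ) (i : Fin k) : Fin k → ℕ := Function.update m i (m i + P)

theorem box_step {I : Finset (Fin k)} {y m : Fin k → ℕ} (h : Box P I y m) {i} (hi : i ∈ I) :
    Box P I y (step P m i) := by
  intro j
  by_cases e : j = i
  · subst e
    refine ⟨fun _ => ?_, fun h' => (h' hi).elim⟩
    obtain ⟨t, ht⟩ := (h j).1 hi
    exact ⟨t + 1, by simp [step, ht]; ring⟩
  · simpa [step, e] using h j

theorem box_per (hk : 0 < k) (H : Pump ρ t0 P) (hR : ¬ Ray ρ) (I : Finset (Fin k)) :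
    ∀ (y : Fin k → ℕ), (∀ i ∈ I, t0 ≤ y i) → ∃ T, ∀ m i, Box P I y m → i ∈ I → T ≤ m i →
      (InA ρ m ↔ InA ρ (step P m i)) := by
  induction I using Finset.strongInduction with
  | H I ih =>
    intro y hy
    rcases box_cases hk H hR I y hy with h | ⟨M, h⟩
    · exact ⟨0, fun m i h1 h2 _ => iff_of_false (h m h1) (h _ (box_step h1 h2))⟩
    · have h3 : ∀ p : Fin k × Fin (M + 1), ∃ T, p.1 ∈ I → ∀ m i,
          Box P (I.erase p.1) (Function.update y p.1 p.2) m → i ∈ I.erase p.1 → T ≤ m i →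
          (InA ρ m ↔ InA ρ (step P m i)) := by
        intro p
        by_cases hp : p.1 ∈ I
        · obtain ⟨T, hT⟩ := ih _ (Finset.erase_ssubset hp) (Function.update y p.1 p.2) (by
            intro i hi
            rw [Finset.mem_erase] at hi
            rw [Function.update_of_ne hi.1]
            exact hy i hi.2)
          exact ⟨T, fun _ => hT⟩
        · exact ⟨0, fun h => (hp h).elim⟩
      choose T hT using h3
      obtain ⟨b, hb⟩ := (Set.finite_range T).bddAbove
      refine ⟨b + M + 1, fun m i h1 h2 h4 => ?_⟩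
      by_cases e : ∀ j ∈ I, M < m j
      · refine iff_of_true (h m h1 e) (h _ (box_step h1 h2) fun j hj => ?_)
        have := e j hj
        by_cases e2 : j = i
        · subst e2; simp [step]; omega
        · simpa [step, e2] using this
      · push Not at e
        obtain ⟨j, hj, hj2⟩ := e
        have hji : i ≠ j := by rintro rfl; omega
        refine hT (j, ⟨m j, by omega⟩) hj m i ?_ (Finset.mem_erase.2 ⟨hji, h2⟩) ?_
        · intro a
          by_cases e2 : a = j
          · subst e2; simp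
          · simpa [e2] using h1 a
        · have := hb ⟨(j, ⟨m j, by omega⟩), rfl⟩
          omega

theorem per_or_ray (hk : 0 < k) (H : Pump ρ t0 P) :
    Ray ρ ∨ ∃ T, ∀ m i, T ≤ m i → (InA ρ m ↔ InA ρ (step P m i)) := by
  by_cases hR : Ray ρ
  · exact Or.inl hR
  right
  have h3 : ∀ p : Finset (Fin k) × (Fin k → Fin (t0 + P)), ∃ T, (∀ i ∈ p.1, t0 ≤ p.2 i) →
      ∀ m i, Box P p.1 (fun i => p.2 i) m → i ∈ p.1 → T ≤ m i →
      (InA ρ m ↔ InA ρ (step P m i)) := by
    intro p
    by_cases hp : ∀ i ∈ p.1, t0 ≤ p.2 i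
    · obtain ⟨T, hT⟩ := box_per hk H hR p.1 (fun i => p.2 i) hp
      exact ⟨T, fun _ => hT⟩
    · exact ⟨0, fun h => (hp h).elim⟩
  choose T hT using h3
  obtain ⟨b, hb⟩ := (Set.finite_range T).bddAbove
  have hP := H.pos
  refine ⟨b + t0, fun m i h => ?_⟩
  let y : Fin k → Fin (t0 + P) := fun j =>
    if hj : m j < t0 then ⟨m j, by omega⟩ else ⟨t0 + (m j - t0) % P, by
      have := Nat.mod_lt (m j - t0) hP; omega⟩
  refine hT (Finset.univ.filter fun j => t0 ≤ m j, y) ?_ m i ?_ (by simp; omega) ?_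
  · intro j hj
    simp only [Finset.mem_filter, Finset.mem_univ, true_and] at hj
    simp [y, show ¬ m j < t0 by omega]
  · intro j
    simp only [Finset.mem_filter, Finset.mem_univ, true_and]
    refine ⟨fun hj => ⟨(m j - t0) / P, ?_⟩, fun hj => ?_⟩
    · simp only [y, show ¬ m j < t0 by omega, dif_neg, not_false_eq_true]
      have := Nat.mod_add_div' (m j - t0) P
      omega
    · simp [y, show m j < t0 by omega]
  · have := hb ⟨(Finset.univ.filter fun j => t0 ≤ m j, y), rfl⟩
    omega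

end Pool.Agent.H24.Bfr
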