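import Pool.Agent.H24.Bfr1
import Pool.Agent.H24.Bfr2

/-! Pumping for finite-state relations between sorted words. -/

namespace Pool.Agent.H24.Bfr

variable {X Y : Type} {k : ℕ}

theorem seq_split (τ : FR X Y) (b : Y) (s f : τ.Q) (x : List X) : ∀ (r : ℕ) (y : List Y),
    τ.T s x (List.replicate r b ++ y) f → ∃ (st : ℕ → τ.Q) (px : ℕ → List X) (x' : List X),
      st 0 = s ∧ px 0 = [] ∧ x = px r ++ x' ∧ τ.T (st r) x' y f ∧
      ∀ i j, i ≤ j → j ≤ r → ∃ u, px j = px i ++ u ∧ τ.T (st i) u (List.replicate (j - i) b) (st j) := by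
  intro r
  induction r with
  | zero =>
    intro y h
    refine ⟨fun _ => s, fun _ => [], x, rfl, rfl, rfl, by simpa using h, fun i j h1 h2 => ?_⟩
    obtain rfl : j = 0 := by omega
    exact ⟨[], rfl, by simpa using τ.refl s⟩
  | succ r ih =>
    intro y h
    rw [List.replicate_succ', List.append_assoc] at h
    obtain ⟨st, px, x', h1, h2, h3, h4, h5⟩ := ih _ h
    obtain ⟨s'', u1, u2, rfl, h6, h7⟩ := τ.splitOut h4
    refine ⟨Function.update st (r + 1) s'', Function.update px (r + 1) (px r ++ u1), u2,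
      by simpa using h1, by simpa using h2, by simpa using h3, by simpa using h7, ?_⟩
    intro i j p1 p2
    by_cases e : j = r + 1
    · subst e
      by_cases e2 : i = r + 1
      · subst e2
        exact ⟨[], by simp, by simpa using τ.refl _⟩
      · obtain ⟨u, q1, q2⟩ := h5 i r (by omega) le_rfl
        refine ⟨u ++ u1, by simp [e2, q1], ?_⟩
        have := τ.trans q2 h6
        rw [← List.replicate_succ'] at this
        simpa [e2, show r + 1 - i = r - i + 1 by omega] using this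
    · have e2 : i ≠ r + 1 := by omega
      simpa [e, e2] using h5 i j p1 (by omega)

theorem loop_pow (τ : FR X Y) (b : Y) (s : τ.Q) (u : List X) (j : ℕ)
    (h : τ.T s u (List.replicate j b) s) (N : ℕ) :
    τ.T s (List.replicate N u).flatten (List.replicate (N * j) b) s := by
  induction N with
  | zero => simpa using τ.refl s
  | succ N ih =>
    have := τ.trans h ih
    rw [← List.replicate_add] at this
    simpa [List.replicate_succ, show (N + 1) * j = j + N * j by ring] using this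

theorem pump_block [DecidableEq X] (τ : FR X Y)
    (hloop : ∀ s u y, τ.T s u y s → ∃ l, ∀ a ∈ u, a = l) (s f : τ.Q) (x : List X) (b : Y) (r : ℕ)
    (hr : Nat.card τ.Q ≤ r) (h : τ.T s x (List.replicate r b) f) :
    ∃ (l : X) (c : ℕ), ∀ t, ∃ x', τ.T s x' (List.replicate (r + t * (Nat.card τ.Q).factorial) b) f ∧
      ∀ a, x'.count a = x.count a + if a = l then t * c else 0 := by
  have := τ.fin
  have := Fintype.ofFinite τ.Q
  generalize hq : Nat.card τ.Q = q at hr
  obtain ⟨r', rfl⟩ : ∃ r', r = q + r' := ⟨r - q, by omega⟩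
  rw [List.replicate_add] at h
  obtain ⟨st, px, x', h1, h2, h3, h4, h5⟩ := seq_split τ b s f x q _ h
  obtain ⟨i, j, hij, hj, e⟩ : ∃ i j, i < j ∧ j ≤ q ∧ st i = st j := by
    obtain ⟨i, j, p1, p2⟩ := Fintype.exists_ne_map_eq_of_card_lt (fun i : Fin (q + 1) => st i)
      (by rw [Fintype.card_fin, ← Nat.card_eq_fintype_card]; omega)
    rcases lt_or_gt_of_ne p1 with g | g
    · exact ⟨i, j, g, by omega, p2⟩
    · exact ⟨j, i, g, by omega, p2.symm⟩
  obtain ⟨u0, a1, a2⟩ := h5 0 i (by omega) (by omega)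
  obtain ⟨u, b1, b2⟩ := h5 i j hij.le hj
  obtain ⟨u', c1, c2⟩ := h5 j q hj le_rfl
  rw [← e] at b2 c2
  rw [h1] at a2
  obtain ⟨l, hl⟩ := hloop _ _ _ b2
  obtain ⟨d, hd⟩ : (j - i) ∣ q.factorial := Nat.dvd_factorial (by omega) (by omega)
  refine ⟨l, d * u.length, fun t =>
    ⟨u0 ++ ((List.replicate (1 + t * d) u).flatten ++ (u' ++ x')), ?_, ?_⟩⟩
  · have := τ.trans a2 (τ.trans (loop_pow τ b _ u _ b2 (1 + t * d)) (τ.trans c2 h4))
    simp only [← List.replicate_add] at this
    convert this using 2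
    rw [hd]
    obtain ⟨w, rfl⟩ : ∃ w, j = i + w := ⟨j - i, by omega⟩
    obtain ⟨w', rfl⟩ : ∃ w', q = i + w + w' := ⟨q - (i + w), by omega⟩
    simp only [Nat.add_sub_cancel_left, Nat.sub_zero]
    ring
  · intro a
    rw [h3, c1, b1, a1, h2]
    have hu : u.count a = if a = l then u.length else 0 := by
      split_ifs with g
      · subst g; exact List.count_eq_length.2 fun z hz => (hl z hz).symm
      · exact List.count_eq_zero.2 fun hz => g (hl a hz)
    simp only [List.count_append, List.count_flatten, List.map_replicate, List.sum_replicate, hu,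
      List.nil_append, smul_eq_mul]
    split_ifs <;> ring

theorem pump_list (τ : FR (Fin k) (Fin k))
    (hloop : ∀ s u y, τ.T s u y s → ∃ l, ∀ a ∈ u, a = l) (m : Fin k → ℕ) (f : τ.Q) :
    ∀ (is : List (Fin k)), is.Nodup → ∀ (s : τ.Q) (x : List (Fin k)),
    τ.T s x (is.flatMap fun i => List.replicate (m i) i) f →
    ∃ (l : Fin k → Fin k) (c : Fin k → ℕ), ∀ t : Fin k → ℕ, (∀ i, m i < Nat.card τ.Q → t i = 0) →
      ∃ x', τ.T s x' (is.flatMap fun i =>
        List.replicate (m i + t i * (Nat.card τ.Q).factorial) i) f ∧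
      ∀ a, x'.count a = x.count a + (is.map fun i => if a = l i then t i * c i else 0).sum := by
  intro is
  induction is with
  | nil => exact fun _ s x h => ⟨id, fun _ => 0, fun t _ => ⟨x, h, by simp⟩⟩
  | cons i is ih =>
    intro hn s x h
    rw [List.nodup_cons] at hn
    rw [List.flatMap_cons] at h
    obtain ⟨s'', u1, u2, rfl, h1, h2⟩ := τ.splitOut h
    obtain ⟨l, c, hl⟩ := ih hn.2 _ _ h2
    obtain ⟨l0, c0, h0⟩ : ∃ (l0 : Fin k) (c0 : ℕ), ∀ t, (m i < Nat.card τ.Q → t = 0) → ∃ x',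
        τ.T s x' (List.replicate (m i + t * (Nat.card τ.Q).factorial) i) s'' ∧
        ∀ a, x'.count a = u1.count a + if a = l0 then t * c0 else 0 := by
      by_cases e : m i < Nat.card τ.Q
      · refine ⟨i, 0, fun t ht => ⟨u1, ?_, by simp⟩⟩
        simpa [ht e] using h1
      · obtain ⟨l0, c0, h0⟩ := pump_block τ hloop s s'' u1 i (m i) (by omega) h1
        exact ⟨l0, c0, fun t _ => h0 t⟩
    refine ⟨Function.update l i l0, Function.update c i c0, fun t ht => ?_⟩
    obtain ⟨x1, p1, p2⟩ := h0 (t i) (ht i)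
    obtain ⟨x2, q1, q2⟩ := hl t ht
    refine ⟨x1 ++ x2, τ.trans p1 q1, fun a => ?_⟩
    have : (is.map fun j => if a = Function.update l i l0 j then t j * Function.update c i c0 j
        else 0) = is.map fun j => if a = l j then t j * c j else 0 := by
      refine List.map_congr_left fun j hj => ?_
      have : j ≠ i := by rintro rfl; exact hn.1 hj
      simp [this]
    simp only [List.count_append, List.map_cons, List.sum_cons, this, p2, q2, Function.update_self]
    ring

def Ch (l : Fin k) (u : List (Fin k)) (l' : Fin k) : Prop :=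
  l ≤ l' ∧ u.Pairwise (· ≤ ·) ∧ ∀ a ∈ u, l ≤ a ∧ a ≤ l'

theorem ch_split {l l' : Fin k} {u u' : List (Fin k)} (h : Ch l (u ++ u') l') :
    ∃ m, Ch l u m ∧ Ch m u' l' := by
  obtain ⟨h1, h2, h3⟩ := h
  rw [List.pairwise_append] at h2
  cases u' with
  | nil => exact ⟨l', ⟨h1, h2.1, fun a ha => h3 a (by simp [ha])⟩, le_rfl, by simp, by simp⟩
  | cons b u' =>
    refine ⟨b, ⟨(h3 b (by simp)).1, h2.1, fun a ha => ⟨(h3 a (by simp [ha])).1,
      h2.2.2 a ha b (by simp)⟩⟩, (h3 b (by simp)).2, h2.2.1, fun a ha => ⟨?_, (h3 a (by simp [ha])).2⟩⟩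
    rcases List.mem_cons.1 ha with rfl | ha
    · exact le_rfl
    · exact (List.pairwise_cons.1 h2.2.1).1 a ha

def FR.srt (τ : FR (Fin k) Y) : FR (Fin k) Y where
  Q := τ.Q × Fin k
  fin := by have := τ.fin; infer_instance
  T s u y f := τ.T s.1 u y f.1 ∧ Ch s.2 u f.2
  I s := τ.I s.1
  F s := τ.F s.1
  refl s := ⟨τ.refl _, le_rfl, by simp, by simp⟩
  trans := by
    rintro s s' s'' u u' y y' ⟨h1, a1, a2, a3⟩ ⟨h2, b1, b2, b3⟩
    refine ⟨τ.trans h1 h2, a1.trans b1, List.pairwise_append.2 ⟨a2, b2, fun a ha b hb =>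
      (a3 a ha).2.trans (b3 b hb).1⟩, fun a ha => ?_⟩
    rcases List.mem_append.1 ha with ha | ha
    · exact ⟨(a3 a ha).1, (a3 a ha).2.trans b1⟩
    · exact ⟨a1.trans (b3 a ha).1, (b3 a ha).2⟩
  splitIn := by
    rintro s s' u u' y ⟨h1, h2⟩
    obtain ⟨a, y1, y2, rfl, h3, h4⟩ := τ.splitIn h1
    obtain ⟨m, h5, h6⟩ := ch_split h2
    exact ⟨(a, m), y1, y2, rfl, ⟨h3, h5⟩, h4, h6⟩
  splitOut := by
    rintro s s' u y y' ⟨h1, h2⟩
    obtain ⟨a, u1, u2, rfl, h3, h4⟩ := τ.splitOut h1
    obtain ⟨m, h5, h6⟩ := ch_split h2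
    exact ⟨(a, m), u1, u2, rfl, ⟨h3, h5⟩, h4, h6⟩

theorem FR.srt_rel (hk : 0 < k) (τ : FR (Fin k) Y) (x y) :
    τ.srt.rel x y ↔ τ.rel x y ∧ x.Pairwise (· ≤ ·) := by
  constructor
  · rintro ⟨s, f, h1, h2, h3, h4⟩
    exact ⟨⟨_, _, h1, h2, h3⟩, h4.2.1⟩
  · rintro ⟨⟨s, f, h1, h2, h3⟩, h4⟩
    refine ⟨(s, ⟨0, hk⟩), (f, ⟨k - 1, by omega⟩), h1, h2, h3, ?_, h4, fun a _ => ⟨?_, ?_⟩⟩
    · simp [Fin.le_def]
    · simp [Fin.le_def]
    · have := a.2
      simp only [Fin.le_def]; omega

theorem FR.srt_loop (τ : FR (Fin k) Y) (s u y) (h : τ.srt.T s u y s) : ∃ l, ∀ a ∈ u, a = l :=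
  ⟨s.2, fun a ha => le_antisymm (h.2.2.2 a ha).2 (h.2.2.2 a ha).1⟩

def wd (m : Fin k → ℕ) : List (Fin k) := (List.finRange k).flatMap fun i => List.replicate (m i) i

theorem count_wd (m : Fin k → ℕ) (a : Fin k) : (wd m).count a = m a := by
  unfold wd
  rw [List.count_flatMap, ← Fin.sum_univ_def]
  simp [List.count_replicate]

theorem sorted_wd (m : Fin k → ℕ) : (wd m).Pairwise (· ≤ ·) := by
  unfold wd
  rw [List.pairwise_flatMap]
  refine ⟨fun a _ => by simp [List.pairwise_replicate], ?_⟩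
  refine (List.pairwise_lt_finRange k).imp fun {a b} h x hx y hy => ?_
  rw [List.eq_of_mem_replicate hx, List.eq_of_mem_replicate hy]
  exact h.le

theorem eq_wd {x : List (Fin k)} (h : x.Pairwise (· ≤ ·)) : x = wd fun a => x.count a := by
  refine List.Perm.eq_of_pairwise (fun a b _ _ h1 h2 => le_antisymm h1 h2) h (sorted_wd _) ?_
  exact List.perm_iff_count.2 fun a => (count_wd (fun a => x.count a) a).symm

theorem pump_fr (hk : 0 < k) (τ : FR (Fin k) (Fin k)) :
    ∃ t0 P, Pump (fun n m => τ.rel (wd n) (wd m)) t0 P := by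
  refine ⟨Nat.card τ.srt.Q, (Nat.card τ.srt.Q).factorial, Nat.factorial_pos _, fun n m h => ?_⟩
  obtain ⟨s, f, h1, h2, h3⟩ := (τ.srt_rel hk _ _).2 ⟨h, sorted_wd n⟩
  obtain ⟨l, c, hl⟩ := pump_list τ.srt τ.srt_loop m f _ (List.nodup_finRange k) s _ h3
  refine ⟨l, c, fun t ht => ?_⟩
  obtain ⟨x', p1, p2⟩ := hl t ht
  obtain ⟨q1, q2⟩ := (τ.srt_rel hk _ _).1 ⟨s, f, h1, h2, p1⟩
  rw [eq_wd q2] at q1
  have e : (fun a => n a + ∑ i, if a = l i then t i * c i else 0) = fun a => x'.count a := by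
    ext a
    rw [p2, count_wd, Fin.sum_univ_def]
  rw [e]
  exact q1

theorem sorted_reg {C : Type} (p : C → Fin k) :
    Language.IsRegular ({z | (z.map p).Pairwise (· ≤ ·)} : Language C) := by
  apply reg_of_fin _ (fun z : List C => ((z.map p).Pairwise (· ≤ ·), {b | ∀ a ∈ z.map p, a ≤ b}))
  intro x x' e z h
  obtain ⟨e1, e2⟩ := Prod.mk.inj e
  change ((x ++ z).map p).Pairwise (· ≤ ·) at h
  change ((x' ++ z).map p).Pairwise (· ≤ ·)
  rw [List.map_append, List.pairwise_append] at h ⊢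
  refine ⟨e1 ▸ h.1, h.2.1, fun a ha b hb => ?_⟩
  have : b ∈ {b | ∀ a ∈ x.map p, a ≤ b} := fun a ha => h.2.2 a ha b hb
  rw [e2] at this
  exact this a ha

theorem per_congr {C : Type} [Finite C] [DecidableEq C] (A : (C → ℕ) → Prop) (T P : ℕ)
    (H : ∀ m i, T ≤ m i → (A m ↔ A (Function.update m i (m i + P)))) (m m' : C → ℕ)
    (h : ∀ i, m i = m' i ∨ (T ≤ m i ∧ T ≤ m' i ∧ m i % P = m' i % P)) : A m ↔ A m' := by
  have h1 : ∀ (t : ℕ) m i, T ≤ m i → (A m ↔ A (Function.update m i (m i + t * P))) := by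
    intro t
    induction t with
    | zero => intro m i _; simp
    | succ t ih =>
      intro m i hi
      rw [ih m i hi, H _ i (by simp; omega)]
      simp [add_mul, add_assoc]
  have h2 : ∀ m i v, (m i = v ∨ (T ≤ m i ∧ T ≤ v ∧ m i % P = v % P)) →
      (A m ↔ A (Function.update m i v)) := by
    rintro m i v (rfl | ⟨p1, p2, p3⟩)
    · simp
    · rcases le_total (m i) v with g | g
      · obtain ⟨t, ht⟩ : P ∣ v - m i := (Nat.modEq_iff_dvd' g).1 p3
        rw [h1 t m i p1, show m i + t * P = v by rw [mul_comm]; omega]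
      · obtain ⟨t, ht⟩ : P ∣ m i - v := (Nat.modEq_iff_dvd' g).1 p3.symm
        rw [h1 t (Function.update m i v) i (by simpa using p2)]
        simp [show v + t * P = m i by rw [mul_comm]; omega]
  have := Fintype.ofFinite C
  have h3 : ∀ s : Finset C, A m ↔ A (fun i => if i ∈ s then m' i else m i) := by
    intro s
    induction s using Finset.induction_on with
    | empty => simp
    | insert j s hj ih =>
      rw [ih, h2 _ j (m' j) (by simpa [hj] using h j)]
      congr! 1
      ext i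
      by_cases e : i = j
      · subst e; simp
      · simp [e]
  simpa using h3 Finset.univ

theorem count_reg {C : Type} [Finite C] [DecidableEq C] [BEq C] (A : (C → ℕ) → Prop) (T P : ℕ) (hP : 0 < P)
    (H : ∀ m i, T ≤ m i → (A m ↔ A (Function.update m i (m i + P)))) :
    Language.IsRegular ({z | A fun a => z.count a} : Language C) := by
  apply reg_of_fin _ (fun z : List C => fun a : C =>
    ((⟨min (z.count a) T, by omega⟩, ⟨z.count a % P, Nat.mod_lt _ hP⟩) : Fin (T + 1) × Fin P))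
  intro x x' e z h
  change A fun a => (x ++ z).count a at h
  change A fun a => (x' ++ z).count a
  refine (per_congr A T P H _ _ fun a => ?_).1 h
  have := congrFun e a
  simp only [Prod.mk.injEq, Fin.mk.injEq] at this
  simp only [List.count_append]
  by_cases g : x.count a < T
  · left; omega
  · right
    refine ⟨by omega, by omega, ?_⟩
    rw [Nat.add_mod, this.2, ← Nat.add_mod]

end Pool.Agent.H24.Bfr
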