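import Pool.Agent.H11.PTDefs

set_option autoImplicit false

namespace Pool.Agent.H24.Par
open Pool.Agent.H11.PT MeasureTheory

/-- rationals are written in binary: sign, numerator, denominator -/
instance encRat : Enc ℚ := ⟨fun q => Enc.tr (decide (q < 0), q.num.natAbs.bits, q.den.bits)⟩

/-- an instance: dimension `n`, rows `(a, β)` of the system `A x ≤ b`, threshold `λ` -/
abbrev Inst : Type := ℕ × List (List ℚ × ℚ) × ℚ

/-- the set `{x | A x ≤ b}` -/
def poly (n : ℕ) (R : List (List ℚ × ℚ)) : Set (EuclideanSpace ℝ (Fin n)) :=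
  {x | ∀ r ∈ R, ∑ j : Fin n, (r.1.getD j 0 : ℝ) * x j ≤ r.2}

/-- the instance presents an `n`-dimensional parallelotope (redundant rows allowed), `λ > 0` -/
def Valid (I : Inst) : Prop :=
  1 ≤ I.1 ∧ (∀ r ∈ I.2.1, r.1.length = I.1) ∧ 0 < I.2.2 ∧
    ∃ f : EuclideanSpace ℝ (Fin I.1) ≃ᵃ[ℝ] EuclideanSpace ℝ (Fin I.1),
      poly I.1 I.2.1 = f '' {y | ∀ i, y i ∈ Set.Icc (0 : ℝ) 1}

/-- the polytope contains a `j`-simplex `S`, `j = γ n`, with `(j!)^2 vol_j(S)^2 ≥ λ` -/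
def Big (γ : ℕ → ℕ) (I : Inst) : Prop :=
  ∃ v : Fin (γ I.1 + 1) → EuclideanSpace ℝ (Fin I.1), AffineIndependent ℝ v ∧
    convexHull ℝ (Set.range v) ⊆ poly I.1 I.2.1 ∧
      (I.2.2 : ℝ) ≤ ((γ I.1).factorial : ℝ) ^ 2 * (μHE[γ I.1] (convexHull ℝ (Set.range v))).toReal ^ 2

/-- NP-hardness of the problem with instances `Val` and question `X` (many-one reductions) -/
def HardOn {β : Type} [Enc β] (Val X : β → Prop) : Prop :=
  ∀ L : List Bool → Prop, InNP L →
    ∃ f : List Bool → β, PolyTime id bits f ∧ ∀ x, Val (f x) ∧ (L x ↔ X (f x))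

def PeqNP : Prop := ∀ L : List Bool → Prop, InNP L → InP L

end Pool.Agent.H24.Par
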