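import Pool.Agent.H24.Bz1
import Pool.Agent.H24.ParDefs

set_option autoImplicit false

namespace Pool.Agent.H24.Bz
open Pool.Agent.H11.PT Pool.Agent.H24.Par

variable {α : Type} [Enc α]

def ds (b : ℤ) (d : Bool) (s : ℤ × ℤ) : ℤ × ℤ :=
  if b ≤ 2 * s.2 + (bif d then 1 else 0) then (2 * s.1 + 1, 2 * s.2 + (bif d then 1 else 0) - b)
  else (2 * s.1, 2 * s.2 + bif d then 1 else 0)

theorem ds_spec {b : ℤ} (hb : 0 < b) (l : List Bool) :
    let s := l.foldr (ds b) (0, 0); s.2 + b * s.1 = bn l ∧ 0 ≤ s.2 ∧ s.2 < b := by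
  induction l with
  | nil => simp [bn, hb]
  | cons d l ih =>
    simp only [List.foldr_cons, bn_cons] at ih ⊢
    generalize l.foldr (ds b) (0, 0) = s at ih ⊢
    obtain ⟨h1, h2, h3⟩ := ih
    have e : ((d.toNat : ℕ) : ℤ) = bif d then 1 else 0 := by cases d <;> rfl
    have : (0 : ℤ) ≤ (bif d then 1 else 0) ∧ (bif d then 1 else 0 : ℤ) ≤ 1 := by cases d <;> simp
    unfold ds
    push_cast
    rw [e, ← h1]
    split_ifs with h
    · exact ⟨by ring, by simp only; omega, by simp only; omega⟩
    · exact ⟨by ring, by simp only; omega, by simp only; omega⟩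

theorem pt_ds {b : α → ℤ} {d : α → Bool} {s : α → ℤ × ℤ} (hb : PT b) (hd : PT d) (hs : PT s) :
    PT fun x => ds (b x) (d x) (s x) := by unfold ds; fun_prop

/-- quotient and remainder of absolute values -/
theorem pt_dm {f g : α → ℤ} (hf : PT f) (hg : PT g) :
    PT fun x => ((((f x).natAbs / (g x).natAbs : ℕ) : ℤ), (((f x).natAbs % (g x).natAbs : ℕ) : ℤ)) := by
  have ha : ∀ {f : α → ℤ}, PT f → PT fun x => ((f x).natAbs : ℤ) := fun hf =>
    (pt_bn (pt_bits hf)).of_eq fun x => by rw [bn_bits]
  have h : PT fun x => (f x).natAbs.bits.foldr (ds (g x).natAbs) (0, 0) :=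
    PT.foldr_add (g := fun x => ds (g x).natAbs) (by fun_prop) (by fun_prop)
      (pt_ds ((ha hg).comp PT.id.fst) (by fun_prop) (by fun_prop)) (fun x _ => ((g x).natAbs : ℤ)) 64
      ((ha hg).comp PT.id.fst) fun x c d => by
        obtain ⟨q, r⟩ := c
        generalize ((g x).natAbs : ℤ) = b
        have h0 : sz (bif d then 1 else 0 : ℤ) ≤ 13 := by cases d <;> decide
        have h1 := sz_mul 2 q
        have h2 := sz_mul 2 r
        have h3 := sz_add (2 * q) 1
        have h4 := sz_add (2 * r) (bif d then 1 else 0)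
        have h5 := sz_add (2 * r + bif d then 1 else 0) (-b)
        have h6 : sz (-b) = sz b := by simp [sz_int]
        have h7 : sz (2 : ℤ) = 19 := by decide
        have h8 : sz (1 : ℤ) = 13 := by decide
        unfold ds
        split_ifs <;> simp only [sz_pair, sub_eq_add_neg] <;> omega
  refine (PT.ite (c := fun x => g x = 0) (by fun_prop) (PT.pair (PT.const 0) (ha hf)) h).of_eq
    fun x => ?_
  split_ifs with h0
  · simp [h0]
  · have := ds_spec (b := (g x).natAbs) (by omega) (f x).natAbs.bits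
    rw [bn_bits] at this
    have := (Int.ediv_emod_unique (by omega)).2 this
    exact Prod.ext (this.1.symm.trans (Int.natCast_div _ _).symm)
      (this.2.symm.trans (Int.natCast_mod _ _).symm)

def gst (p : ℤ × ℤ) : ℤ × ℤ := if p.2 = 0 then p else (p.2, (p.1.natAbs % p.2.natAbs : ℕ))

theorem gst_it (k : ℕ) : ∀ a b : ℕ, b ≤ a → a * b < 2 ^ k →
    gst^[k] ((a : ℤ), (b : ℤ)) = (((Nat.gcd a b : ℕ) : ℤ), 0) := by
  induction k with
  | zero =>
    intro a b h1 h2
    obtain rfl : b = 0 := by
      by_contra h; have := Nat.mul_pos (show 0 < a by omega) (show 0 < b by omega); omega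
    simp
  | succ k ih =>
    intro a b h1 h2
    by_cases h : b = 0
    · subst h; rw [Function.iterate_fixed (by simp [gst])]; simp
    · have h3 := Nat.mod_lt a (Nat.pos_of_ne_zero h)
      have h4 : 2 * (a % b) ≤ a := by
        have := Nat.div_add_mod a b
        have := Nat.mul_le_mul_left b (Nat.div_pos h1 (Nat.pos_of_ne_zero h))
        omega
      rw [Function.iterate_succ_apply, show gst (a, b) = ((b : ℤ), ((a % b : ℕ) : ℤ)) by simp [gst, h],
        ih b (a % b) h3.le (by rw [pow_succ] at h2; nlinarith), Nat.gcd_comm b, ← Nat.gcd_rec,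
        Nat.gcd_comm]

theorem pt_gcd {f g : α → ℤ} (hf : PT f) (hg : PT g) : PT fun x => (Int.gcd (f x) (g x) : ℤ) := by
  have ha : ∀ {f : α → ℤ}, PT f → PT fun x => ((f x).natAbs : ℤ) := fun hf =>
    (pt_bn (pt_bits hf)).of_eq fun x => by rw [bn_bits]
  have h1 := ha hf
  have h2 := ha hg
  let s : α → ℤ := fun x => (f x).natAbs + (g x).natAbs
  have hs : PT s := pt_add h1 h2
  have h : PT fun x => gst^[2 * sz (s x)] (s x, (g x).natAbs) :=
    PT.iterate (g := fun _ => gst) (by fun_prop) (by fun_prop)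
      (PT.ite (by fun_prop) (by fun_prop) (PT.pair (by fun_prop)
        (pt_dm (f := fun p : α × ℤ × ℤ => p.2.1) (by fun_prop) (by fun_prop)).snd))
      (fun x c => c.1.natAbs ≤ (s x).natAbs ∧ c.2.natAbs ≤ (s x).natAbs) (fun x => (s x, s x))
      (by fun_prop) (fun x => by simp only [s]; omega) (fun x c h => by
        unfold gst; split_ifs with h0
        · exact h
        · have := Nat.mod_lt c.1.natAbs (show 0 < c.2.natAbs by omega)
          simp only [Int.natAbs_natCast]; omega) fun x c h => by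
        obtain ⟨a, b⟩ := c
        have := Nat.size_le_size h.1; have := Nat.size_le_size h.2
        simp only [sz_pair, sz_int] at *; omega
  refine h.fst.of_eq fun x => ?_
  have e : s x = (((f x).natAbs + (g x).natAbs : ℕ) : ℤ) := by simp [s]
  have := lt_sz (s x)
  rw [e] at this ⊢
  rw [gst_it _ _ _ (by omega) (by
    rw [two_mul, pow_add]
    exact Nat.mul_lt_mul'' (by rwa [Int.natAbs_natCast] at this)
      (by rw [Int.natAbs_natCast] at this; omega))]
  simp [Int.gcd]

@[fun_prop] theorem pt_divInt {f g : α → ℤ} (hf : PT f) (hg : PT g) :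
    PT fun x => Rat.divInt (f x) (g x) := by
  have hc := pt_gcd hg hf
  have h1 := pt_bits (pt_dm hf hc).fst
  have h2 := pt_bits (pt_dm hg hc).fst
  have h : PT fun x => if g x = 0 then (false, ([] : List Bool), [true]) else
      (decide (f x * g x < 0), _, _) := PT.ite (by fun_prop) (by fun_prop)
    (PT.pair (by fun_prop) (PT.pair h1 h2))
  refine h.cast (fun x => x) (fun _ => rfl) fun x => ?_
  show _ = Enc.tr (decide (_ < _), (Int.natAbs _).bits, Nat.bits _)
  split_ifs with h0
  · rw [h0, Rat.divInt_zero]; rfl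
  · congr 3
    · rw [Rat.divInt_eq_div, div_neg_iff, mul_neg_iff]; norm_cast
    · rw [Rat.num_divInt, Int.natAbs_ediv_of_dvd (Dvd.dvd.mul_left (Int.gcd_dvd_right _ _) _)]
      simp only [Int.natAbs_mul, Int.natAbs_sign_of_ne_zero h0, Int.natAbs_natCast, one_mul]
    · rw [Rat.den_divInt, if_neg h0]; simp only [Int.natAbs_natCast]

end Pool.Agent.H24.Bz
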