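import Mathlib
import Pool.Agent.H24.Bfr1

/-! Context-free languages given semantically (finite systems of languages in binary form). -/

namespace Pool.Agent.H24.Cf
open Pool.Agent.H24.Bfr

variable {X Y N : Type}

def Mu (B C A : Set (List X)) : Prop := ∀ u ∈ B, ∀ v ∈ C, u ++ v ∈ A

structure SC (L : N → Set (List X)) : Prop where
  ne : ∀ A, [] ∉ L A
  split : ∀ A, ∀ w ∈ L A, 2 ≤ w.length →
    ∃ B C u v, Mu (L B) (L C) (L A) ∧ u ∈ L B ∧ v ∈ L C ∧ w = u ++ v

def SCF (K : Set (List X)) : Prop :=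
  ∃ (N : Type) (_ : Finite N) (L : N → Set (List X)) (A : N), SC L ∧ ∀ w, w ∈ L A ↔ w ∈ K ∧ w ≠ []

theorem SCF.of [Finite N] {L : N → Set (List X)} (h : SC L) {K : Set (List X)}
    (hK : ∀ w ∈ K, w ≠ [] → ∃ A, w ∈ L A ∧ L A ⊆ K) : SCF K := by
  refine ⟨Option N, inferInstance, fun o => o.elim {w | w ∈ K ∧ w ≠ []} L, none, ⟨?_, ?_⟩,
    fun w => Iff.rfl⟩
  · rintro (_ | A)
    · simp
    · exact h.ne A
  · rintro (_ | A) w hw hl
    · obtain ⟨A, h1, h2⟩ := hK w hw.1 hw.2
      obtain ⟨B, C, u, v, a, b, c, d⟩ := h.split A w h1 hl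
      refine ⟨some B, some C, u, v, fun u hu v hv => ⟨h2 (a u hu v hv), fun e => ?_⟩, b, c, d⟩
      exact h.ne A (e ▸ a u hu v hv)
    · obtain ⟨B, C, u, v, a, b, c, d⟩ := h.split A w hw hl
      exact ⟨some B, some C, u, v, a, b, c, d⟩

theorem SCF.congr {K K' : Set (List X)} (h : SCF K) (e : ∀ w, w ≠ [] → (w ∈ K ↔ w ∈ K')) :
    SCF K' := by
  obtain ⟨N, _, L, A, h, hA⟩ := h
  exact ⟨N, inferInstance, L, A, h, fun w => (hA w).trans
    ⟨fun ⟨a, b⟩ => ⟨(e w b).1 a, b⟩, fun ⟨a, b⟩ => ⟨(e w b).2 a, b⟩⟩⟩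

theorem SCF.inter {M : Type} [Finite M] {K : Set (List X)} (h : SCF K) (f : List X → M)
    (hf : ∀ u u' v v', f u = f u' → f v = f v' → f (u ++ v) = f (u' ++ v')) (P : List X → Prop)
    (hP : ∀ u v, f u = f v → P u → P v) : SCF {w | w ∈ K ∧ P w} := by
  obtain ⟨N, _, L, A, h, hA⟩ := h
  refine SCF.of (L := fun p : N × M => {w | w ∈ L p.1 ∧ f w = p.2}) ⟨fun p k => h.ne _ k.1, ?_⟩ ?_
  · rintro ⟨A, m⟩ w ⟨h1, rfl⟩ hl
    obtain ⟨B, C, u, v, a, b, c, rfl⟩ := h.split A w h1 hl
    exact ⟨(B, f u), (C, f v), u, v, fun u' hu v' hv => ⟨a _ hu.1 _ hv.1, hf _ _ _ _ hu.2 hv.2⟩,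
      ⟨b, rfl⟩, ⟨c, rfl⟩, rfl⟩
  · rintro w ⟨h1, h2⟩ h3
    exact ⟨(A, f w), ⟨(hA w).2 ⟨h1, h3⟩, rfl⟩, fun v hv => ⟨((hA v).1 hv.1).1, hP _ _ hv.2.symm h2⟩⟩

theorem SCF.inter_reg {K : Set (List X)} (h : SCF K) {R : Language X} (hR : R.IsRegular) :
    SCF {w | w ∈ K ∧ w ∈ R} := by
  obtain ⟨σ, _, M, rfl⟩ := hR
  refine h.inter (fun w s => M.evalFrom s w) (fun u u' v v' a b => ?_) _ fun u v e k => ?_
  · funext s
    simp only [DFA.evalFrom_of_append]
    rw [show M.evalFrom s u = M.evalFrom s u' from congrFun a s]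
    exact congrFun b _
  · have : M.evalFrom M.start u = M.evalFrom M.start v := congrFun e _
    change M.evalFrom M.start v ∈ M.accept
    rw [← this]
    exact k

theorem SCF.comap {K : Set (List X)} (h : SCF K) (p : Y → Option X) :
    SCF {w | w.filterMap p ∈ K} := by
  obtain ⟨N, _, L, A, h, hA⟩ := h
  refine SCF.of (L := fun o : Option N => o.elim {w | w ≠ [] ∧ w.filterMap p = []}
    fun B => {w | w.filterMap p ∈ L B}) ⟨?_, ?_⟩ ?_
  · rintro (_ | B)
    · simp
    · exact h.ne B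
  · rintro (_ | B) w hw hl
    · obtain ⟨a, b, w, rfl⟩ : ∃ a b w', w = a :: b :: w' := by
        rcases w with _ | ⟨a, _ | ⟨b, w⟩⟩ <;> simp at hl ⊢
      have := hw.2
      rw [show a :: b :: w = [a] ++ (b :: w) from rfl, List.filterMap_append,
        List.append_eq_nil_iff] at this
      refine ⟨none, none, [a], b :: w, fun u hu v hv => ⟨by simp [hu.1], ?_⟩, ⟨by simp, this.1⟩,
        ⟨by simp, this.2⟩, rfl⟩
      rw [List.filterMap_append, hu.2, hv.2]; rfl
    · change w.filterMap p ∈ L B at hw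
      by_cases e : 2 ≤ (w.filterMap p).length
      · obtain ⟨C, D, u, v, a, b, c, d⟩ := h.split B _ hw e
        obtain ⟨u', v', rfl, rfl, rfl⟩ := List.filterMap_eq_append_iff.1 d
        refine ⟨some C, some D, u', v', fun x hx y hy => ?_, b, c, rfl⟩
        change (x ++ y).filterMap p ∈ L B
        rw [List.filterMap_append]
        exact a _ hx _ hy
      · obtain ⟨a, b, w, rfl⟩ : ∃ a b w', w = a :: b :: w' := by
          rcases w with _ | ⟨a, _ | ⟨b, w⟩⟩ <;> simp at hl ⊢
        rw [show a :: b :: w = [a] ++ (b :: w) from rfl, List.filterMap_append] at hw e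
        by_cases e1 : [a].filterMap p = []
        · refine ⟨none, some B, [a], b :: w, fun x hx y hy => ?_, ⟨by simp, e1⟩, ?_, rfl⟩
          · change (x ++ y).filterMap p ∈ L B
            rw [List.filterMap_append, hx.2]
            exact hy
          · rw [e1] at hw
            exact hw
        · have e2 : (b :: w).filterMap p = [] := by
            have := List.length_pos_iff.2 e1
            rw [List.length_append] at e
            exact List.length_eq_zero_iff.1 (by omega)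
          refine ⟨some B, none, [a], b :: w, fun x hx y hy => ?_, ?_, ⟨by simp, e2⟩, rfl⟩
          · change (x ++ y).filterMap p ∈ L B
            rw [List.filterMap_append, hy.2, List.append_nil]
            exact hx
          · rw [e2, List.append_nil] at hw
            exact hw
  · intro w h1 h2
    by_cases e : w.filterMap p = []
    · refine ⟨none, ⟨h2, e⟩, fun v hv => ?_⟩
      change v.filterMap p ∈ K
      rw [hv.2, ← e]
      exact h1
    · exact ⟨some A, (hA _).2 ⟨h1, e⟩, fun v hv => ((hA _).1 hv).1⟩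

theorem SCF.comap' {K : Set (List X)} (h : SCF K) (p : Y → X) : SCF {w | w.map p ∈ K} :=
  (h.comap fun y => some (p y)).congr fun w _ => by
    simp only [Set.mem_ofPred_eq]
    rw [show (fun y => some (p y)) = some ∘ p from rfl, List.filterMap_eq_map]

inductive Gn (R : N → List (Symbol X N) → Prop) : List (Symbol X N) → List X → Prop
  | nil : Gn R [] []
  | t (a : X) {s w} : Gn R s w → Gn R (.terminal a :: s) (a :: w)
  | n {A o s u w} : R A o → Gn R o u → Gn R s w → Gn R (.nonterminal A :: s) (u ++ w)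

variable {R : N → List (Symbol X N) → Prop}

theorem Gn.app {s s' w w'} (h : Gn R s w) (h' : Gn R s' w') : Gn R (s ++ s') (w ++ w') := by
  induction h with
  | nil => exact h'
  | t a _ ih => exact ih.t a
  | n h1 h2 _ _ ih => rw [List.append_assoc]; exact .n h1 h2 ih

theorem Gn.split {s s' w} (h : Gn R (s ++ s') w) : ∃ u v, w = u ++ v ∧ Gn R s u ∧ Gn R s' v := by
  induction s generalizing w with
  | nil => exact ⟨[], w, rfl, .nil, h⟩
  | cons x s ih =>
    cases h with
    | t a h => obtain ⟨u, v, rfl, h1, h2⟩ := ih h; exact ⟨a :: u, v, rfl, h1.t a, h2⟩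
    | n h1 h2 h =>
      obtain ⟨u, v, rfl, h3, h4⟩ := ih h
      exact ⟨_, v, (List.append_assoc ..).symm, .n h1 h2 h3, h4⟩

theorem Gn.one {A o u} (h : R A o) (h' : Gn R o u) : Gn R [.nonterminal A] u := by
  simpa using Gn.n h h' .nil

theorem Gn.tm (w : List X) : Gn R (w.map .terminal) w := by
  induction w with
  | nil => exact .nil
  | cons a w ih => exact ih.t a

theorem gn_scf (hR : {o | ∃ A, R A o}.Finite) (s : List (Symbol X N)) : SCF {w | Gn R s w} := by
  let G : Set (List (Symbol X N)) := {γ | ∃ ρ, (ρ = s ∨ ∃ A, R A ρ) ∧ γ.Sublist ρ}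
  have hG : G.Finite := by
    refine (((Set.finite_singleton s).union hR).biUnion
      fun ρ _ => (List.finite_toSet ρ.sublists)).subset ?_
    rintro γ ⟨ρ, h1, h2⟩
    exact Set.mem_biUnion (x := ρ) h1 (List.mem_sublists.2 h2)
  have := hG.to_subtype
  have key : ∀ γ w, Gn R γ w → γ ∈ G → 2 ≤ w.length → ∃ β ∈ G, ∃ δ ∈ G, ∃ u v,
      (∀ u v, Gn R β u → Gn R δ v → Gn R γ (u ++ v)) ∧ Gn R β u ∧ u ≠ [] ∧ Gn R δ v ∧ v ≠ [] ∧
        w = u ++ v := by
    intro γ w h
    induction h with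
    | nil => intro _ h; simp at h
    | @t a s' w h _ =>
      rintro ⟨ρ, h1, h2⟩ hl
      refine ⟨[.terminal a], ⟨ρ, h1, .trans (by simp) h2⟩, s', ⟨ρ, h1, .trans (by simp) h2⟩, [a], w,
        fun u v a b => a.app b, .t a .nil, by simp, h, ?_, rfl⟩
      rintro rfl
      simp at hl
    | @n A o s' u w h1 h2 h3 i2 i3 =>
      rintro ⟨ρ, k1, k2⟩ hl
      by_cases eu : u = []
      · subst eu
        obtain ⟨β, b1, δ, b2, u, v, a, b⟩ := i3 ⟨ρ, k1, .trans (by simp) k2⟩ hl
        exact ⟨β, b1, δ, b2, u, v, fun u v c d => Gn.n (u := []) h1 h2 (a u v c d), b⟩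
      by_cases ew : w = []
      · subst ew
        rw [List.append_nil] at hl
        obtain ⟨β, b1, δ, b2, u', v, a, b⟩ := i2 ⟨o, .inr ⟨A, h1⟩, .refl _⟩ hl
        refine ⟨β, b1, δ, b2, u', v, fun u v c d => ?_, by simpa using b⟩
        simpa using Gn.n h1 (a u v c d) h3
      exact ⟨[.nonterminal A], ⟨ρ, k1, .trans (by simp) k2⟩, s', ⟨ρ, k1, .trans (by simp) k2⟩, u, w,
        fun u v a b => a.app b, .one h1 h2, eu, h3, ew, rfl⟩
  refine SCF.of (L := fun γ : G => {w | Gn R γ.1 w ∧ w ≠ []}) ⟨fun _ h => h.2 rfl, ?_⟩ ?_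
  · rintro ⟨γ, hγ⟩ w ⟨h1, -⟩ hl
    obtain ⟨β, b1, δ, b2, u, v, a, b, c, d, e, f⟩ := key γ w h1 hγ hl
    exact ⟨⟨β, b1⟩, ⟨δ, b2⟩, u, v, fun u hu v hv => ⟨a u v hu.1 hv.1, by simp [hu.2]⟩, ⟨b, c⟩,
      ⟨d, e⟩, f⟩
  · exact fun w h1 h2 => ⟨⟨s, s, .inl rfl, .refl _⟩, ⟨h1, h2⟩, fun v hv => hv.1⟩

theorem mem_lang (g : ContextFreeGrammar X) (w : List X) :
    w ∈ g.language ↔ Gn (fun A o => ⟨A, o⟩ ∈ g.rules) [.nonterminal g.initial] w := by
  constructor
  · intro h
    have : ∀ s, g.Derives s (w.map Symbol.terminal) → Gn (fun A o => ⟨A, o⟩ ∈ g.rules) s w := by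
      intro s h
      induction h using Relation.ReflTransGen.head_induction_on with
      | refl => exact .tm w
      | head e _ ih =>
        obtain ⟨r, hr, e⟩ := e
        obtain ⟨p, q, rfl, rfl⟩ := e.exists_parts
        obtain ⟨_, v, rfl, h1, h2⟩ := ih.split
        obtain ⟨u, u', rfl, h1, h3⟩ := h1.split
        exact (h1.app (.one hr h3)).app h2
    exact this _ h
  · intro h
    have : ∀ s w, Gn (fun A o => ⟨A, o⟩ ∈ g.rules) s w → g.Derives s (w.map Symbol.terminal) := by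
      intro s w h
      induction h with
      | nil => rfl
      | t a _ ih => exact ih.append_left [_]
      | @n A o s u w h1 _ _ i1 i2 =>
        refine ContextFreeGrammar.Produces.trans_derives ⟨⟨A, o⟩, h1, .head _⟩ ?_
        rw [List.map_append]
        exact (i1.append_right _).trans (i2.append_left _)
    exact this _ _ h

theorem scf_of_cf {K : Language X} (h : K.IsContextFree) : SCF (K : Set (List X)) := by
  obtain ⟨g, rfl⟩ := h
  refine (gn_scf (R := fun A o => (⟨A, o⟩ : ContextFreeRule X g.NT) ∈ g.rules) ?_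
    [.nonterminal g.initial]).congr fun w _ => (mem_lang g w).symm
  refine ((g.rules.finite_toSet).image fun r => r.output).subset ?_
  rintro o ⟨A, h⟩
  exact ⟨_, h, rfl⟩

inductive Rl (L : N → Set (List X)) (h : X → List Y) (S : N) (e : Prop) :
    Option N → List (Symbol Y (Option N)) → Prop
  | bin {A B C} : Mu (L B) (L C) (L A) →
      Rl L h S e (some A) [.nonterminal (some B), .nonterminal (some C)]
  | tm {A a} : [a] ∈ L A → Rl L h S e (some A) ((h a).map .terminal)
  | st : Rl L h S e none [.nonterminal (some S)]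
  | em : e → Rl L h S e none []

theorem rl_fin [Finite N] [Finite X] (L : N → Set (List X)) (h : X → List Y) (S : N) (e : Prop) :
    {r : ContextFreeRule Y (Option N) | Rl L h S e r.input r.output}.Finite := by
  refine (((Set.finite_range fun p : N × N × N => (⟨some p.1, [.nonterminal (some p.2.1),
    .nonterminal (some p.2.2)]⟩ : ContextFreeRule Y (Option N))).union
    (Set.finite_range fun p : N × X => ⟨some p.1, (h p.2).map .terminal⟩)).union
    (Set.toFinite {⟨none, [.nonterminal (some S)]⟩, ⟨none, []⟩})).subset ?_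
  rintro ⟨A, o⟩ h
  cases h with
  | bin => exact .inl (.inl ⟨(_, _, _), rfl⟩)
  | tm => exact .inl (.inr ⟨(_, _), rfl⟩)
  | st => exact .inr (by simp)
  | em => exact .inr (by simp)

def Sem (P : N → List X → Prop) : List (Symbol X N) → List X → Prop
  | [], w => w = []
  | .terminal a :: s, w => ∃ v, w = a :: v ∧ Sem P s v
  | .nonterminal A :: s, w => ∃ u v, w = u ++ v ∧ P A u ∧ Sem P s v

theorem sem_tm {P : N → List X → Prop} (u : List X) : ∀ w, Sem P (u.map .terminal) w → w = u := by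
  induction u with
  | nil => exact fun w h => h
  | cons a u ih => rintro w ⟨v, rfl, h⟩; rw [ih v h]

theorem Gn.sem {P : N → List X → Prop} (hP : ∀ A o, R A o → ∀ w, Sem P o w → P A w) {s w}
    (h : Gn R s w) : Sem P s w := by
  induction h with
  | nil => rfl
  | t a _ ih => exact ⟨_, rfl, ih⟩
  | n h1 _ _ i1 i2 => exact ⟨_, _, rfl, hP _ _ h1 _ i1, i2⟩

theorem rl_lang {L : N → Set (List X)} (hL : SC L) (h : X → List Y) (S : N) (K : Set (List X))
    (hK : ∀ w, w ∈ L S ↔ w ∈ K ∧ w ≠ []) (y : List Y) :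
    Gn (Rl L h S ([] ∈ K)) [.nonterminal none] y ↔ ∃ w ∈ K, w.flatMap h = y := by
  constructor
  · intro k
    obtain ⟨u, _, rfl, k', rfl⟩ := k.sem (P := fun o y => ∃ w ∈ o.elim K L, w.flatMap h = y) (by
      rintro _ _ (k | k | _ | k) w hw
      · obtain ⟨_, _, rfl, ⟨u, a, rfl⟩, _, _, rfl, ⟨v, b, rfl⟩, rfl⟩ := hw
        exact ⟨u ++ v, k u a v b, by simp⟩
      · exact ⟨_, k, by simp [sem_tm _ _ hw]⟩
      · obtain ⟨_, _, rfl, ⟨u, a, rfl⟩, rfl⟩ := hw
        exact ⟨u, ((hK u).1 a).1, by simp⟩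
      · exact ⟨[], k, hw.symm⟩)
    simpa using k'
  · rintro ⟨w, hw, rfl⟩
    have : ∀ n w, w.length ≤ n → ∀ A, w ∈ L A →
        Gn (Rl L h S ([] ∈ K)) [.nonterminal (some A)] (w.flatMap h) := by
      intro n
      induction n with
      | zero => intro w hl A k; exact (hL.ne A (List.length_eq_zero_iff.1 (Nat.le_zero.1 hl) ▸ k)).elim
      | succ n ih =>
        intro w hl A k
        by_cases e : 2 ≤ w.length
        · obtain ⟨B, C, u, v, a, b, c, rfl⟩ := hL.split A w k e
          have h1 : 0 < u.length := List.length_pos_iff.2 fun e => hL.ne B (e ▸ b)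
          have h2 : 0 < v.length := List.length_pos_iff.2 fun e => hL.ne C (e ▸ c)
          rw [List.length_append] at hl
          rw [List.flatMap_append]
          exact .one (.bin a) ((ih u (by omega) B b).app (ih v (by omega) C c))
        · rcases w with _ | ⟨a, _ | ⟨b, w⟩⟩
          · exact (hL.ne A k).elim
          · simpa using Gn.one (Rl.tm k) (.tm _)
          · simp at e
    by_cases e : w = []
    · subst e
      exact .one (.em hw) .nil
    · exact .one .st (this _ w le_rfl S ((hK w).2 ⟨hw, e⟩))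

theorem SCF.image_cf [Finite X] {K : Set (List X)} (hK : SCF K) (h : X → List Y) :
    Language.IsContextFree ({y | ∃ w ∈ K, w.flatMap h = y} : Language Y) := by
  obtain ⟨N, _, L, S, hL, hS⟩ := hK
  refine ⟨⟨Option N, none, (rl_fin L h S ([] ∈ K)).toFinset⟩, ?_⟩
  ext y
  rw [mem_lang]
  simp only [Set.Finite.mem_toFinset, Set.mem_ofPred_eq]
  exact rl_lang hL h S K hS y

theorem SCF.cf [Finite X] {K : Language X} (hK : SCF (K : Set (List X))) : K.IsContextFree := by
  convert hK.image_cf fun a => [a]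
  ext y
  simp only [List.flatMap_singleton']
  exact ⟨fun h => ⟨y, h, rfl⟩, fun ⟨_, h, e⟩ => e ▸ h⟩

theorem SCF.image [Finite X] {K : Set (List X)} (hK : SCF K) (h : X → List Y) :
    SCF {y | ∃ w ∈ K, w.flatMap h = y} := scf_of_cf (hK.image_cf h)

theorem SCF.fr [Finite X] [Finite Y] {K : Set (List X)} (hK : SCF K) (τ : FR X Y) :
    SCF {y | ∃ x ∈ K, τ.rel x y} := by
  have := τ.fin
  have : Finite (Edge τ) := by unfold Edge; infer_instance
  have h1 := ((hK.comap fun e : Edge τ => e.1.2.1).inter (fun z => {p : τ.Q × τ.Q | Pth τ p.1 z p.2})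
    (fun u u' v v' a b => ?_) (fun z => ∃ s f, τ.I s ∧ τ.F f ∧ Pth τ s z f) ?_).image
    fun e => e.1.2.2.1.toList
  · refine h1.congr fun y _ => ⟨?_, ?_⟩
    · rintro ⟨z, ⟨k1, s, f, k2, k3, k4⟩, rfl⟩
      refine ⟨_, k1, s, f, k2, k3, ?_⟩
      rw [List.filterMap_eq_flatMap_toList]
      exact pth_sound τ z s f k4
    · rintro ⟨x, k1, s, f, k2, k3, k4⟩
      obtain ⟨z, k5, rfl, rfl⟩ := pth_complete τ _ s f x y le_rfl k4
      refine ⟨z, ⟨?_, s, f, k2, k3, k5⟩, rfl⟩
      change _ ∈ K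
      rw [List.filterMap_eq_flatMap_toList]
      exact k1
  · ext ⟨s, f⟩
    simp only [Set.mem_ofPred_eq, pth_append]
    exact exists_congr fun m => and_congr (Set.ext_iff.1 a (s, m)) (Set.ext_iff.1 b (m, f))
  · rintro u v e ⟨s, f, k1, k2, k3⟩
    exact ⟨s, f, k1, k2, (Set.ext_iff.1 e (s, f)).1 k3⟩

theorem SCF.preimage [Finite X] [Finite Y] {K : Set (List X)} (hK : SCF K) (h : Y → List X) :
    SCF {y | y.flatMap h ∈ K} := by
  obtain ⟨τ, hτ⟩ := exists_morph h
  refine (hK.fr τ.swap).congr fun y _ => ⟨?_, fun k => ⟨_, k, (hτ _ _).2 rfl⟩⟩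
  rintro ⟨x, k1, k2⟩
  change _ ∈ K
  rw [(hτ _ _).1 k2]
  exact k1

end Pool.Agent.H24.Cf
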