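import Mathlib
import Pool.Agent.H24.Cf1

/-! Stack runs, and real-time pushdown recognition of context-free languages. -/

namespace Pool.Agent.H24.Cf

variable {X Y N Γ Ψ : Type}

def Stk (pop : Ψ → Γ) (push : Ψ → List Γ) : List Γ → List Ψ → List Γ → Prop
  | α, [], β => α = β
  | α, r :: μ, β => ∃ α', α = pop r :: α' ∧ Stk pop push (push r ++ α') μ β

theorem stk_gn (pop : Ψ → Γ) (push : Ψ → List Γ) (μ : List Ψ) : ∀ γ, Stk pop push γ μ [] ↔
    Gn (fun Z o => ∃ r, pop r = Z ∧ o = .terminal r :: (push r).map .nonterminal)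
      (γ.map .nonterminal) μ := by
  induction μ with
  | nil =>
    intro γ
    refine ⟨fun h => by rw [show γ = [] from h]; exact .nil, fun h => ?_⟩
    rcases γ with _ | ⟨Z, γ⟩
    · rfl
    · generalize e : ([] : List Ψ) = w at h
      cases h with
      | n h1 h2 h3 =>
        obtain ⟨r, -, rfl⟩ := h1
        cases h2
        simp at e
  | cons r μ ih =>
    intro γ
    constructor
    · rintro ⟨α, rfl, h⟩
      rw [ih, List.map_append] at h
      obtain ⟨u, v, rfl, h1, h2⟩ := h.split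
      exact Gn.n ⟨r, rfl, rfl⟩ (h1.t r) h2
    · intro h
      rcases γ with _ | ⟨Z, γ⟩
      · cases h
      · generalize e : r :: μ = w at h
        cases h with
        | n h1 h2 h3 =>
          obtain ⟨r', rfl, rfl⟩ := h1
          cases h2 with
          | t _ h2 =>
            obtain ⟨rfl, rfl⟩ := List.cons.inj e
            refine ⟨γ, rfl, (ih _).2 ?_⟩
            rw [List.map_append]
            exact h2.app h3

theorem stk_scf [Finite Ψ] (pop : Ψ → Γ) (push : Ψ → List Γ) (γ : List Γ) :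
    SCF {μ | Stk pop push γ μ []} := by
  refine (gn_scf ?_ _).congr fun μ _ => (stk_gn pop push μ γ).symm
  refine (Set.finite_range fun r => Symbol.terminal r :: (push r).map .nonterminal).subset ?_
  rintro o ⟨_, r, -, rfl⟩
  exact ⟨r, rfl⟩

def Cat (S : Γ → Set (List X)) : List Γ → List X → Prop
  | [], w => w = []
  | Z :: γ, w => ∃ u v, w = u ++ v ∧ u ∈ S Z ∧ Cat S γ v

theorem cat_append {S : Γ → Set (List X)} (γ δ : List Γ) : ∀ w,
    Cat S (γ ++ δ) w ↔ ∃ u v, w = u ++ v ∧ Cat S γ u ∧ Cat S δ v := by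
  induction γ with
  | nil => intro w; simp [Cat]
  | cons Z γ ih =>
    intro w
    constructor
    · rintro ⟨u, v, rfl, h1, h2⟩
      obtain ⟨x, y, rfl, h3, h4⟩ := (ih v).1 h2
      exact ⟨u ++ x, y, by simp, ⟨u, x, rfl, h1, h3⟩, h4⟩
    · rintro ⟨_, y, rfl, ⟨u, x, rfl, h1, h3⟩, h4⟩
      exact ⟨u, x ++ y, by simp, h1, (ih _).2 ⟨x, y, rfl, h3, h4⟩⟩

inductive Sp (L : N → Set (List X)) (A : N) : N → List X → Prop
  | refl : Sp L A A []
  | step {B C D u w} : Mu (L B) (L C) (L D) → u ∈ L C → Sp L A D w → Sp L A B (u ++ w)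

theorem Sp.sound {L : N → Set (List X)} {A B w} (h : Sp L A B w) : ∀ u ∈ L B, u ++ w ∈ L A := by
  induction h with
  | refl => simp
  | step h1 h2 _ ih => intro x hx; rw [← List.append_assoc]; exact ih _ (h1 _ hx _ h2)

theorem Sp.snoc {L : N → Set (List X)} {A B C E u v} (h : Sp L B E u) (k : Mu (L B) (L C) (L A))
    (hv : v ∈ L C) : Sp L A E (u ++ v) := by
  induction h with
  | refl => simpa using Sp.step k hv .refl
  | step h1 h2 _ ih => rw [List.append_assoc]; exact .step h1 h2 ih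

theorem SC.left {L : N → Set (List X)} (hL : SC L) : ∀ n w, w.length ≤ n → ∀ A, w ∈ L A →
    ∃ d E w', w = d :: w' ∧ [d] ∈ L E ∧ Sp L A E w' := by
  intro n
  induction n with
  | zero => intro w hl A k; exact (hL.ne A (List.length_eq_zero_iff.1 (Nat.le_zero.1 hl) ▸ k)).elim
  | succ n ih =>
    intro w hl A k
    by_cases e : 2 ≤ w.length
    · obtain ⟨B, C, u, v, a, b, c, rfl⟩ := hL.split A w k e
      have h2 : 0 < v.length := List.length_pos_iff.2 fun e => hL.ne C (e ▸ c)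
      rw [List.length_append] at hl
      obtain ⟨d, E, w', rfl, h3, h4⟩ := ih u (by omega) B b
      exact ⟨d, E, w' ++ v, rfl, h3, h4.snoc a c⟩
    · rcases w with _ | ⟨a, _ | ⟨b, w⟩⟩
      · exact (hL.ne A k).elim
      · exact ⟨a, A, [], rfl, k, .refl⟩
      · simp at e

theorem SCF.gnf {K : Set (List X)} (hK : SCF K) : ∃ (Γ : Type) (_ : Finite Γ)
    (S : Γ → Set (List X)) (Z0 : Γ), (∀ w, w ∈ S Z0 ↔ w ∈ K ∧ w ≠ []) ∧ ∀ Z, ∀ w ∈ S Z,
      ∃ d γ w', γ.length ≤ 2 ∧ w = d :: w' ∧ Cat S γ w' ∧ ∀ w'', Cat S γ w'' → d :: w'' ∈ S Z := by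
  obtain ⟨N, _, L, A0, hL, hA⟩ := hK
  let S : Option (N × N) → Set (List X) :=
    fun o => o.elim (L A0) fun p => {w | w ≠ [] ∧ Sp L p.1 p.2 w}
  have opt : ∀ A D w, Sp L A D w → ∃ γ, γ.length ≤ 1 ∧ Cat S γ w ∧ ∀ w', Cat S γ w' → Sp L A D w' := by
    intro A D w h
    by_cases e : w = []
    · subst e
      exact ⟨[], by simp, rfl, fun w' k => by rw [show w' = [] from k]; exact h⟩
    · refine ⟨[some (A, D)], le_rfl, ⟨w, [], by simp, ⟨e, h⟩, rfl⟩, ?_⟩
      rintro _ ⟨u, _, rfl, k, rfl⟩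
      simpa using k.2
  refine ⟨_, inferInstance, S, none, hA, ?_⟩
  rintro (_ | ⟨A, B⟩) w hw
  · obtain ⟨d, E, w', rfl, h1, h2⟩ := hL.left _ w le_rfl A0 hw
    obtain ⟨γ, h3, h4, h5⟩ := opt _ _ _ h2
    exact ⟨d, γ, w', by omega, rfl, h4, fun x hx => (h5 x hx).sound _ h1⟩
  · obtain ⟨h1, h2⟩ := hw
    cases h2 with
    | refl => exact (h1 rfl).elim
    | @step _ C D u w k1 k2 k3 =>
      obtain ⟨d, E, u', rfl, h3, h4⟩ := hL.left _ u le_rfl C k2
      obtain ⟨γ, a1, a2, a3⟩ := opt _ _ _ h4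
      obtain ⟨δ, b1, b2, b3⟩ := opt _ _ _ k3
      refine ⟨d, γ ++ δ, u' ++ w, by rw [List.length_append]; omega, rfl,
        (cat_append _ _ _).2 ⟨_, _, rfl, a2, b2⟩, fun x hx => ?_⟩
      obtain ⟨y, z, rfl, c1, c2⟩ := (cat_append _ _ _).1 hx
      exact ⟨by simp, Sp.step (u := d :: y) k1 ((a3 y c1).sound _ h3) (b3 z c2)⟩

theorem SCF.realtime [Finite X] {K : Set (List X)} (hK : SCF K) : ∃ (Γ Ψ : Type) (_ : Finite Γ)
    (_ : Finite Ψ) (Z0 : Γ) (pop : Ψ → Γ) (push : Ψ → List Γ) (lt : Ψ → X),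
    (Function.Injective fun r => (pop r, lt r, push r)) ∧
    ∀ w, (w ∈ K ∧ w ≠ []) ↔ ∃ μ, Stk pop push [Z0] μ [] ∧ μ.map lt = w := by
  obtain ⟨Γ, _, S, Z0, h0, hS⟩ := hK.gnf
  let Ψ := {p : Γ × X × List Γ // p.2.2.length ≤ 2 ∧ ∀ w, Cat S p.2.2 w → p.2.1 :: w ∈ S p.1}
  have : Finite Ψ := by
    refine Set.Finite.to_subtype (s := {p : Γ × X × List Γ | _}) ?_
    exact (Set.finite_univ.prod (Set.finite_univ.prod (List.finite_length_le Γ 2))).subset
      fun p h => ⟨trivial, trivial, h.1⟩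
  refine ⟨Γ, Ψ, inferInstance, this, Z0, fun r => r.1.1, fun r => r.1.2.2, fun r => r.1.2.1,
    Subtype.val_injective, fun w => ⟨fun h => ?_, ?_⟩⟩
  · have : ∀ n w, w.length ≤ n → ∀ γ, Cat S γ w → ∃ μ : List Ψ,
        Stk (fun r => r.1.1) (fun r => r.1.2.2) γ μ [] ∧ (μ.map fun r => r.1.2.1) = w := by
      intro n
      induction n with
      | zero =>
        rintro w hl (_ | ⟨Z, γ⟩) k
        · exact ⟨[], rfl, k.symm⟩
        · obtain ⟨u, v, rfl, k1, -⟩ := k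
          obtain ⟨d, _, w', -, rfl, -⟩ := hS Z u k1
          simp at hl
      | succ n ih =>
        rintro w hl (_ | ⟨Z, γ⟩) k
        · exact ⟨[], rfl, k.symm⟩
        · obtain ⟨u, v, rfl, k1, k2⟩ := k
          obtain ⟨d, δ, w', a1, rfl, a2, a3⟩ := hS Z u k1
          obtain ⟨μ, b1, b2⟩ := ih (w' ++ v) (by simp at hl ⊢; omega) (δ ++ γ)
            ((cat_append _ _ _).2 ⟨_, _, rfl, a2, k2⟩)
          exact ⟨⟨(Z, d, δ), a1, a3⟩ :: μ, ⟨γ, rfl, b1⟩, by simp [b2]⟩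
    exact this _ w le_rfl [Z0] ⟨w, [], by simp, (h0 w).2 h, rfl⟩
  · rintro ⟨μ, h, rfl⟩
    have : ∀ (μ : List Ψ) γ, Stk (fun r => r.1.1) (fun r => r.1.2.2) γ μ [] →
        Cat S γ (μ.map fun r => r.1.2.1) := by
      intro μ
      induction μ with
      | nil => intro γ h; rw [show γ = [] from h]; rfl
      | cons r μ ih =>
        rintro _ ⟨γ, rfl, h⟩
        obtain ⟨u, v, e, h1, h2⟩ := (cat_append _ _ _).1 (ih _ h)
        exact ⟨r.1.2.1 :: u, v, by simp [e], r.2.2 u h1, h2⟩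
    obtain ⟨u, _, e, k, rfl⟩ := this μ _ h
    rw [e, List.append_nil]
    exact (h0 u).1 k

end Pool.Agent.H24.Cf
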