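import Mathlib
import Pool.Agent.H24.Cf1

/-! Parikh decomposition with pumps. -/

namespace Pool.Agent.H24.Cf
open Classical

variable {X N : Type}

inductive BT (N X : Type)
  | leaf (A : N) (a : X)
  | node (A : N) (l r : BT N X)

def BT.root : BT N X → N
  | .leaf A _ => A
  | .node A _ _ => A

def BT.yd : BT N X → List X
  | .leaf _ a => [a]
  | .node _ l r => l.yd ++ r.yd

noncomputable def BT.lab : BT N X → Finset N
  | .leaf A _ => {A}
  | .node A l r => insert A (l.lab ∪ r.lab)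

def BT.ok (L : N → Set (List X)) : BT N X → Prop
  | .leaf A a => [a] ∈ L A
  | .node A l r => Mu (L l.root) (L r.root) (L A) ∧ l.ok L ∧ r.ok L

variable {L : N → Set (List X)}

theorem BT.sound {t : BT N X} (h : t.ok L) : t.yd ∈ L t.root := by
  induction t with
  | leaf => exact h
  | node A l r i1 i2 => exact h.1 _ (i1 h.2.1) _ (i2 h.2.2)

theorem BT.pos (t : BT N X) : 0 < t.yd.length := by
  induction t with
  | leaf => simp [yd]
  | node A l r i1 i2 => simp only [yd, List.length_append]; omega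

theorem BT.root_mem (t : BT N X) : t.root ∈ t.lab := by cases t <;> simp [root, lab]

theorem SC.tree (hL : SC L) : ∀ n w, w.length ≤ n → ∀ A, w ∈ L A →
    ∃ t : BT N X, t.ok L ∧ t.root = A ∧ t.yd = w := by
  intro n
  induction n with
  | zero => intro w hl A k; exact (hL.ne A (List.length_eq_zero_iff.1 (Nat.le_zero.1 hl) ▸ k)).elim
  | succ n ih =>
    intro w hl A k
    by_cases e : 2 ≤ w.length
    · obtain ⟨B, C, u, v, a, b, c, rfl⟩ := hL.split A w k e
      have h1 : 0 < u.length := List.length_pos_iff.2 fun e => hL.ne B (e ▸ b)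
      have h2 : 0 < v.length := List.length_pos_iff.2 fun e => hL.ne C (e ▸ c)
      rw [List.length_append] at hl
      obtain ⟨l, a1, rfl, rfl⟩ := ih u (by omega) B b
      obtain ⟨r, b1, rfl, rfl⟩ := ih v (by omega) C c
      exact ⟨.node A l r, ⟨a, a1, b1⟩, rfl, rfl⟩
    · rcases w with _ | ⟨a, _ | ⟨b, w⟩⟩
      · exact (hL.ne A k).elim
      · exact ⟨.leaf A a, k, rfl, rfl⟩
      · simp at e

def Cx (L : N → Set (List X)) (A B : N) (x z : List X) (S : Finset N) : Prop :=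
  ∀ s : BT N X, s.ok L → s.root = B →
    ∃ s' : BT N X, s'.ok L ∧ s'.root = A ∧ s'.yd = x ++ s.yd ++ z ∧ s.lab ∪ S ⊆ s'.lab

theorem Cx.trans {A B C x z u v S S'} (h : Cx L A B x z S) (k : Cx L B C u v S') :
    Cx L A C (x ++ u) (v ++ z) (S ∪ S') := by
  intro s h1 h2
  obtain ⟨s1, a1, a2, a3, a4⟩ := k s h1 h2
  obtain ⟨s2, b1, b2, b3, b4⟩ := h s1 a1 a2
  refine ⟨s2, b1, b2, by simp [b3, a3], fun y hy => b4 ?_⟩
  simp only [Finset.subset_iff, Finset.mem_union] at a4 hy ⊢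
  rcases hy with hy | hy | hy
  exacts [.inl (a4 (.inl hy)), .inr hy, .inl (a4 (.inr hy))]

def Occ (L : N → Set (List X)) (t s : BT N X) (x z : List X) (S : Finset N) : Prop :=
  s.ok L ∧ Cx L t.root s.root x z S ∧ t.yd = x ++ s.yd ++ z ∧ t.lab ⊆ s.lab ∪ S

theorem Occ.refl {t : BT N X} (h : t.ok L) : Occ L t t [] [] ∅ :=
  ⟨h, fun s a b => ⟨s, a, b, by simp, by simp⟩, by simp, by simp⟩

theorem Occ.trans {t s s' : BT N X} {x z u v S S'} (h : Occ L t s x z S) (k : Occ L s s' u v S') :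
    Occ L t s' (x ++ u) (v ++ z) (S ∪ S') := by
  refine ⟨k.1, h.2.1.trans k.2.1, by simp [h.2.2.1, k.2.2.1], fun y hy => ?_⟩
  have a := h.2.2.2 hy
  simp only [Finset.mem_union] at a ⊢
  rcases a with a | a
  · have := k.2.2.2 a
    simp only [Finset.mem_union] at this
    tauto
  · tauto

theorem Occ.left {A} {l r : BT N X} (h : (BT.node A l r).ok L) :
    Occ L (.node A l r) l [] r.yd (insert A r.lab) := by
  refine ⟨h.2.1, fun s a b => ⟨.node A s r, ⟨b ▸ h.1, a, h.2.2⟩, rfl, rfl, ?_⟩, rfl, ?_⟩ <;>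
  · intro y
    simp only [BT.lab, Finset.mem_union, Finset.mem_insert]
    tauto

theorem Occ.right {A} {l r : BT N X} (h : (BT.node A l r).ok L) :
    Occ L (.node A l r) r l.yd [] (insert A l.lab) := by
  refine ⟨h.2.2, fun s a b => ⟨.node A l s, ⟨b ▸ h.1, h.2.1, a⟩, rfl, by simp [BT.yd], ?_⟩,
    by simp [BT.yd], ?_⟩ <;>
  · intro y
    simp only [BT.lab, Finset.mem_union, Finset.mem_insert]
    tauto

theorem occ_lab {t : BT N X} (h : t.ok L) {B} (hB : B ∈ t.lab) :
    ∃ s x z S, Occ L t s x z S ∧ s.root = B := by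
  induction t with
  | leaf A a => exact ⟨_, _, _, _, .refl h, (Finset.mem_singleton.1 hB).symm⟩
  | node A l r i1 i2 =>
    simp only [BT.lab, Finset.mem_union, Finset.mem_insert] at hB
    rcases hB with rfl | hB | hB
    · exact ⟨_, _, _, _, .refl h, rfl⟩
    · obtain ⟨s, x, z, S, a, b⟩ := i1 h.2.1 hB
      exact ⟨s, _, _, _, (Occ.left h).trans a, b⟩
    · obtain ⟨s, x, z, S, a, b⟩ := i2 h.2.2 hB
      exact ⟨s, _, _, _, (Occ.right h).trans a, b⟩

theorem ins {t : BT N X} (h : t.ok L) {B u v S} (hB : B ∈ t.lab) (hp : Cx L B B u v S) :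
    ∃ (t' : BT N X) (x y z : List X), t'.ok L ∧ t'.root = t.root ∧ t.lab ∪ S ⊆ t'.lab ∧
      t.yd = x ++ y ++ z ∧ t'.yd = x ++ (u ++ y ++ v) ++ z := by
  obtain ⟨s, x, z, S', a, rfl⟩ := occ_lab h hB
  obtain ⟨s1, a1, a2, a3, a4⟩ := hp s a.1 rfl
  obtain ⟨s2, b1, b2, b3, b4⟩ := a.2.1 s1 a1 a2
  refine ⟨s2, x, s.yd, z, b1, b2, fun y hy => b4 ?_, a.2.2.1, by rw [b3, a3]⟩
  have a5 := a.2.2.2
  simp only [Finset.subset_iff, Finset.mem_union] at a4 a5 hy ⊢
  rcases hy with hy | hy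
  · exact (a5 hy).elim (fun k => .inl (a4 (.inl k))) .inr
  · exact .inl (a4 (.inr hy))

theorem rep [Fintype N] {t : BT N X} (h : t.ok L) : ∀ U : Finset N,
    (∃ s x z S, Occ L t s x z S ∧ s.root ∈ U) ∨
    (∃ s x z S s' u v S', Occ L t s x z S ∧ Occ L s s' u v S' ∧ s'.root = s.root ∧ u ++ v ≠ []) ∨
    t.yd.length ≤ 2 ^ (Fintype.card N - U.card) := by
  induction t with
  | leaf A a => exact fun U => .inr (.inr Nat.one_le_two_pow)
  | node A l r i1 i2 =>
    intro U
    by_cases e : A ∈ U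
    · exact .inl ⟨_, _, _, _, .refl h, e⟩
    have key : ∀ c x z S, Occ L (.node A l r) c x z S → x ++ z ≠ [] →
        ((∃ s x z S, Occ L c s x z S ∧ s.root ∈ insert A U) ∨
          ∃ s x z S s' u v S', Occ L c s x z S ∧ Occ L s s' u v S' ∧ s'.root = s.root ∧
            u ++ v ≠ []) →
        (∃ s x z S, Occ L (.node A l r) s x z S ∧ s.root ∈ U) ∨
        (∃ s x z S s' u v S', Occ L (.node A l r) s x z S ∧ Occ L s s' u v S' ∧
          s'.root = s.root ∧ u ++ v ≠ []) := by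
      rintro c x z S k1 k2 (⟨s, x', z', S', a, b⟩ | ⟨s, x', z', S', s', u, v, S'', a, b⟩)
      · rcases Finset.mem_insert.1 b with b | b
        · refine .inr ⟨_, _, _, _, s, _, _, _, .refl h, k1.trans a, b, fun e => k2 ?_⟩
          simp only [List.append_eq_nil_iff] at e ⊢
          tauto
        · exact .inl ⟨s, _, _, _, k1.trans a, b⟩
      · exact .inr ⟨s, _, _, _, s', u, v, S'', k1.trans a, b⟩
    rcases or_assoc.2 (i1 h.2.1 (insert A U)) with a | a
    · exact or_assoc.1 (.inl (key _ _ _ _ (.left h) (List.length_pos_iff.1 r.pos) a))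
    rcases or_assoc.2 (i2 h.2.2 (insert A U)) with b | b
    · exact or_assoc.1 (.inl (key _ _ _ _ (.right h) (by simpa using List.length_pos_iff.1 l.pos) b))
    refine .inr (.inr ?_)
    have c := Finset.card_le_univ (insert A U)
    rw [Finset.card_insert_of_notMem e] at a b c
    rw [show Fintype.card N - U.card = Fintype.card N - (U.card + 1) + 1 by omega, pow_succ]
    simp only [BT.yd, List.length_append]
    omega

theorem mid (K : ℕ) (hK : 0 < K) {t : BT N X} (h : t.ok L) (hl : K < t.yd.length) :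
    ∃ s x z S, Occ L t s x z S ∧ K < s.yd.length ∧ s.yd.length ≤ 2 * K := by
  induction t with
  | leaf A a => simp [BT.yd] at hl; omega
  | node A l r i1 i2 =>
    by_cases e : (BT.node A l r).yd.length ≤ 2 * K
    · exact ⟨_, _, _, _, .refl h, hl, e⟩
    simp only [BT.yd, List.length_append] at e
    by_cases e1 : K < l.yd.length
    · obtain ⟨s, x, z, S, a, b⟩ := i1 h.2.1 e1
      exact ⟨s, _, _, _, (Occ.left h).trans a, b⟩
    · obtain ⟨s, x, z, S, a, b⟩ := i2 h.2.2 (by omega)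
      exact ⟨s, _, _, _, (Occ.right h).trans a, b⟩

theorem extract [Fintype N] {t : BT N X} (h : t.ok L) (hl : 2 ^ Fintype.card N < t.yd.length) :
    ∃ (t' : BT N X) (B : N) (u v : List X) (S : Finset N) (x y z : List X), t'.ok L ∧
      t'.root = t.root ∧ B ∈ t'.lab ∧ t.lab ⊆ t'.lab ∪ S ∧ u ++ v ≠ [] ∧
      (u ++ y ++ v).length ≤ 2 * 2 ^ Fintype.card N ∧ Cx L B B u v S ∧
      t.yd = x ++ (u ++ y ++ v) ++ z ∧ t'.yd = x ++ y ++ z := by
  obtain ⟨s0, x0, z0, S0, a, b, c⟩ := mid _ (by positivity) h hl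
  rcases rep a.1 ∅ with ⟨_, _, _, _, _, k⟩ | ⟨s, x, z, S, s', u, v, S', k1, k2, k3, k4⟩ | k
  · simp at k
  · have k5 := a.trans k1
    obtain ⟨t', b1, b2, b3, b4⟩ := k5.2.1 s' k2.1 k3
    refine ⟨t', s.root, u, v, S', _, s'.yd, _, b1, b2, b4 (Finset.mem_union_left _ (k3 ▸ s'.root_mem)),
      fun y hy => ?_, k4, ?_, by simpa only [k3] using k2.2.1, by rw [k5.2.2.1, k2.2.2.1], b3⟩
    · have a5 := k5.2.2.2 hy
      have a6 := k2.2.2.2
      simp only [Finset.subset_iff, Finset.mem_union] at a5 a6 b4 ⊢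
      rcases a5 with a5 | a5
      · exact (a6 a5).elim (fun k => .inl (b4 (.inl k))) .inr
      · exact .inl (b4 (.inr a5))
    · rw [← k2.2.2.1]
      rw [k1.2.2.1] at c
      simp only [List.length_append] at c
      omega
  · simp at k
    omega

def fl (ps : List (List X × List X)) : List X := ps.flatMap fun p => p.1 ++ p.2

theorem perm_ins (x y z u v : List X) : (x ++ (u ++ y ++ v) ++ z).Perm (x ++ y ++ z ++ (u ++ v)) := by
  rw [List.perm_iff_count]
  intro a
  simp only [List.count_append]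
  omega

theorem decomp [Fintype N] : ∀ n (t : BT N X), t.yd.length ≤ n → t.ok L →
    ∃ (b : BT N X) (ps : List (List X × List X)), b.ok L ∧ b.root = t.root ∧ t.lab ⊆ b.lab ∧
      b.yd.length ≤ 2 * 2 ^ Fintype.card N * b.lab.card ∧
      (∀ p ∈ ps, (p.1 ++ p.2).length ≤ 2 * 2 ^ Fintype.card N ∧ p.1 ++ p.2 ≠ [] ∧
        ∃ B ∈ b.lab, ∃ S, Cx L B B p.1 p.2 S) ∧ t.yd.Perm (b.yd ++ fl ps) := by
  intro n
  induction n with
  | zero => intro t hl; have := t.pos; omega
  | succ n ih =>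
    intro t hl h
    by_cases e : 2 ^ Fintype.card N < t.yd.length
    · obtain ⟨t', B, u, v, S, x, y, z, a1, a2, a3, a4, a5, a6, a7, a8, a9⟩ := extract h e
      have p1 : t.yd.Perm (t'.yd ++ (u ++ v)) := by rw [a8, a9]; exact perm_ins ..
      have p2 := p1.length_eq
      have p3 := List.length_pos_iff.2 a5
      have p4 : (u ++ v).length ≤ 2 * 2 ^ Fintype.card N := by
        simp only [List.length_append] at a6 ⊢
        omega
      rw [List.length_append] at p2
      obtain ⟨b, ps, b1, b2, b3, b4, b5, b6⟩ := ih t' (by omega) a1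
      by_cases e2 : t.lab ⊆ b.lab
      · refine ⟨b, (u, v) :: ps, b1, b2.trans a2, e2, b4, ?_, ?_⟩
        · rintro p (_ | ⟨_, hp⟩)
          · exact ⟨p4, a5, B, b3 a3, S, a7⟩
          · exact b5 p hp
        · refine p1.trans ((b6.append_right _).trans ?_)
          rw [List.append_assoc]
          exact List.perm_append_comm.append_left _
      · obtain ⟨b', x', y', z', c1, c2, c3, c4, c5⟩ := ins b1 (b3 a3) a7
        have q1 : t.lab ⊆ b'.lab := a4.trans ((Finset.union_subset_union_left b3).trans c3)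
        have q2 : b.lab ⊆ b'.lab := Finset.subset_union_left.trans c3
        have q3 : b.lab.card < b'.lab.card :=
          Finset.card_lt_card ⟨q2, fun k => e2 (q1.trans k)⟩
        have q4 : b'.yd.Perm (b.yd ++ (u ++ v)) := by rw [c4, c5]; exact perm_ins ..
        refine ⟨b', ps, c1, c2.trans (b2.trans a2), q1, ?_, fun p hp => ?_, ?_⟩
        · rw [q4.length_eq, List.length_append]
          nlinarith
        · obtain ⟨d1, d2, B', d3, d4⟩ := b5 p hp
          exact ⟨d1, d2, B', q2 d3, d4⟩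
        · refine p1.trans ((b6.append_right _).trans (.trans ?_ (q4.append_right _).symm))
          simp only [List.append_assoc]
          exact (List.perm_append_comm.trans (by simp)).append_left _
    · refine ⟨t, [], h, rfl, subset_rfl, ?_, by simp, by simp [fl]⟩
      have := Finset.card_pos.2 ⟨_, t.root_mem⟩
      nlinarith

theorem SCF.parikh [Finite X] {K : Set (List X)} (hK : SCF K) :
    ∃ (I : Set (List X × Set (List X × List X))), I.Finite ∧ (∀ i ∈ I, i.2.Finite) ∧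
      (∀ w ∈ K, w ≠ [] → ∃ i ∈ I, ∃ ps, (∀ p ∈ ps, p ∈ i.2) ∧ w.Perm (i.1 ++ fl ps)) ∧
      (∀ i ∈ I, ∀ ps, (∀ p ∈ ps, p ∈ i.2) → ∃ w ∈ K, w.Perm (i.1 ++ fl ps)) ∧
      ∀ i ∈ I, ∀ p ∈ i.2, ∃ x y z, x ++ (p.1 ++ p.1 ++ y ++ (p.2 ++ p.2)) ++ z ∈ K := by
  obtain ⟨N, _, L, A, hL, hA⟩ := hK
  have := Fintype.ofFinite N
  let c := 2 * 2 ^ Fintype.card N
  let P : Finset N → Set (List X × List X) := fun U =>
    {p | (p.1 ++ p.2).length ≤ c ∧ ∃ B ∈ U, ∃ S, Cx L B B p.1 p.2 S}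
  refine ⟨{i | ∃ b : BT N X, b.ok L ∧ b.root = A ∧ b.yd.length ≤ c * Fintype.card N ∧
    i = (b.yd, P b.lab)}, ?_, ?_, ?_, ?_, ?_⟩
  · refine ((List.finite_length_le X (c * Fintype.card N)).prod (Set.finite_range P)).subset ?_
    rintro _ ⟨b, -, -, h, rfl⟩
    exact ⟨h, _, rfl⟩
  · rintro _ ⟨b, -, -, -, rfl⟩
    refine ((List.finite_length_le X c).prod (List.finite_length_le X c)).subset fun p hp => ?_
    have := hp.1
    rw [List.length_append] at this
    exact ⟨(by omega : p.1.length ≤ c), (by omega : p.2.length ≤ c)⟩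
  · intro w h1 h2
    obtain ⟨t, a1, a2, rfl⟩ := hL.tree _ w le_rfl A ((hA w).2 ⟨h1, h2⟩)
    obtain ⟨b, ps, b1, b2, -, b4, b5, b6⟩ := decomp _ t le_rfl a1
    exact ⟨_, ⟨b, b1, b2.trans a2, b4.trans (Nat.mul_le_mul_left _ (Finset.card_le_univ _)), rfl⟩,
      ps, fun p hp => ⟨(b5 p hp).1, (b5 p hp).2.2⟩, b6⟩
  · rintro _ ⟨b, b1, b2, -, rfl⟩ ps hp
    suffices ∃ t : BT N X, t.ok L ∧ t.root = A ∧ b.lab ⊆ t.lab ∧ t.yd.Perm (b.yd ++ fl ps) by
      obtain ⟨t, a1, rfl, -, a4⟩ := this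
      exact ⟨_, ((hA _).1 (BT.sound a1)).1, a4⟩
    induction ps with
    | nil => exact ⟨b, b1, b2, subset_rfl, by simp [fl]⟩
    | cons p ps ih =>
      obtain ⟨t, a1, a2, a3, a4⟩ := ih fun q hq => hp q (.tail _ hq)
      obtain ⟨-, B, c1, S, c2⟩ := hp p (.head _)
      obtain ⟨t', x, y, z, d1, d2, d3, d4, d5⟩ := ins a1 (a3 c1) c2
      refine ⟨t', d1, d2.trans a2, a3.trans (Finset.subset_union_left.trans d3), ?_⟩
      rw [d5]
      refine (perm_ins ..).trans ?_
      rw [← d4]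
      refine (a4.append_right _).trans ?_
      rw [List.append_assoc]
      exact List.perm_append_comm.append_left _
  · rintro _ ⟨b, b1, b2, -, rfl⟩ p ⟨-, B, c1, S, c2⟩
    obtain ⟨t', x, y, z, d1, d2, -, -, d5⟩ := ins b1 c1 (c2.trans c2)
    refine ⟨x, y, z, ?_⟩
    rw [← d5]
    exact ((hA _).1 (by simpa only [d2, b2] using BT.sound d1)).1

end Pool.Agent.H24.Cf
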