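import Pool.Agent.H24.Cf3

/-! Vector form of the Parikh decomposition, and a two-point (Dickson) consequence. -/

namespace Pool.Agent.H24.Cf
open Classical

variable {X V : Type}

theorem sum_fl [AddCommMonoid V] (g : X → V) (ps : List (List X × List X)) :
    ((fl ps).map g).sum = (ps.map fun p => ((p.1 ++ p.2).map g).sum).sum := by
  induction ps with
  | nil => rfl
  | cons p ps ih => simp_all [fl, add_assoc]

theorem sum_cnt {α : Type} [AddCommMonoid V] (U : Finset α) (φ : α → V) (ps : List α)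
    (h : ∀ p ∈ ps, p ∈ U) :
    ∃ c : U → ℕ, (∀ p : U, p.1 ∉ ps → c p = 0) ∧ (ps.map φ).sum = ∑ p, c p • φ p.1 := by
  refine ⟨fun p => ps.count p.1, fun p hp => List.count_eq_zero.2 hp, ?_⟩
  rw [Finset.sum_list_map_count ps, Finset.sum_coe_sort U fun p => ps.count p • φ p]
  refine Finset.sum_subset (fun p hp => h p (List.mem_toFinset.1 hp)) fun p _ hp => ?_
  rw [List.count_eq_zero.2 fun k => hp (List.mem_toFinset.2 k), zero_smul]

theorem SCF.parikh_vec [Finite X] [AddCommMonoid V] {K : Set (List X)} (hK : SCF K) (g : X → V) :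
    ∃ (ι P : Type) (_ : Finite ι) (_ : Fintype P) (b : ι → V) (pu : P → List X × List X)
      (al : ι → P → Prop),
      (∀ w ∈ K, w ≠ [] → ∃ i, ∃ c : P → ℕ, (∀ p, ¬ al i p → c p = 0) ∧
        (w.map g).sum = b i + ∑ p, c p • (((pu p).1 ++ (pu p).2).map g).sum) ∧
      (∀ i, ∀ c : P → ℕ, (∀ p, ¬ al i p → c p = 0) → ∃ w ∈ K,
        (w.map g).sum = b i + ∑ p, c p • (((pu p).1 ++ (pu p).2).map g).sum) ∧
      ∀ i p, al i p → ∃ x y z,
        x ++ ((pu p).1 ++ (pu p).1 ++ y ++ ((pu p).2 ++ (pu p).2)) ++ z ∈ K := by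
  obtain ⟨I, h1, h2, h3, h4, h5⟩ := hK.parikh
  let U := (h1.biUnion h2).toFinset
  refine ⟨I, U, h1.to_subtype, inferInstance, fun i => (i.1.1.map g).sum, fun p => p.1,
    fun i p => p.1 ∈ i.1.2, fun w a b => ?_, fun i c hc => ?_, fun i p h => h5 i.1 i.2 p.1 h⟩
  · obtain ⟨i, hi, ps, a1, a2⟩ := h3 w a b
    obtain ⟨c, c1, c2⟩ := sum_cnt U (fun p => ((p.1 ++ p.2).map g).sum) ps fun p hp => by
      simp only [U, Set.Finite.mem_toFinset]
      exact Set.mem_biUnion hi (a1 p hp)
    refine ⟨⟨i, hi⟩, c, fun p hp => c1 p fun k => hp (a1 _ k), ?_⟩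
    rw [(a2.map g).sum_eq, List.map_append, List.sum_append, sum_fl, c2]
  · obtain ⟨w, a, b⟩ := h4 i.1 i.2 (Finset.univ.toList.flatMap fun p : U => List.replicate (c p) p.1)
      (by
        intro p hp
        obtain ⟨q, -, hq⟩ := List.mem_flatMap.1 hp
        obtain ⟨e, rfl⟩ := List.mem_replicate.1 hq
        exact not_not.1 fun k => e (hc q k))
    refine ⟨w, a, ?_⟩
    rw [(b.map g).sum_eq, List.map_append, List.sum_append, sum_fl, ← Finset.sum_map_toList]
    congr 1
    induction (Finset.univ : Finset U).toList with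
    | nil => rfl
    | cons q l ih => simp_all

/-- From an infinite sequence of words of `K`, two whose decompositions are comparable. -/
theorem SCF.two_point [Finite X] [AddCommGroup V] {K : Set (List X)} (hK : SCF K) (g : X → V)
    (s : ℕ → List X) (hs : ∀ m, s m ∈ K ∧ s m ≠ []) :
    ∃ (P : Type) (_ : Fintype P) (pu : P → List X × List X) (m m' : ℕ), m < m' ∧
      (∀ p, ∃ x y z, x ++ ((pu p).1 ++ (pu p).1 ++ y ++ ((pu p).2 ++ (pu p).2)) ++ z ∈ K) ∧
      (∃ d : P → ℕ, ((s m').map g).sum =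
        ((s m).map g).sum + ∑ p, d p • (((pu p).1 ++ (pu p).2).map g).sum) ∧
      ∀ l : P → ℤ, ∃ N : ℕ, ∃ w ∈ K, (w.map g).sum = ((s m).map g).sum +
        N • (((s m').map g).sum - ((s m).map g).sum) +
          ∑ p, l p • (((pu p).1 ++ (pu p).2).map g).sum := by
  obtain ⟨ι, P, _, _, b, pu, al, h1, h2, h3⟩ := hK.parikh_vec g
  choose i c hc hw using fun m => h1 (s m) (hs m).1 (hs m).2
  obtain ⟨m, m', hm, hle⟩ := wellQuasiOrdered_le (α := ι ⊕ P → ℕ)
    fun m => Sum.elim (fun j => if j = i m then 1 else 0) (c m)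
  have e : i m = i m' := by
    have := hle (.inl (i m))
    by_contra k
    simp [k] at this
  have hl : ∀ p, c m p ≤ c m' p := fun p => hle (.inr p)
  let φ := fun p => (((pu p).1 ++ (pu p).2).map g).sum
  have hd : ((s m').map g).sum - ((s m).map g).sum = ∑ p, (c m' p - c m p) • φ p := by
    rw [hw, hw, e, add_sub_add_left_eq_sub, ← Finset.sum_sub_distrib]
    exact Finset.sum_congr rfl fun p _ => by rw [sub_nsmul _ (hl p), sub_eq_add_neg]
  have hsub : ∀ f : P → V, (∀ p, ¬ c m p < c m' p → f p = 0) →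
      ∑ p : {p // c m p < c m' p}, f p = ∑ p, f p := fun f hf => by
    rw [← Finset.sum_subtype (Finset.univ.filter fun p => c m p < c m' p) (by simp)]
    exact Finset.sum_filter_of_ne fun p _ hp => not_not.1 fun k => hp (hf p k)
  refine ⟨{p // c m p < c m' p}, inferInstance, fun p => pu p.1, m, m', hm, fun p => h3 (i m') p.1
    (not_not.1 fun k => by have := hc m' _ k; have := p.2; omega), ⟨fun p => c m' p - c m p, ?_⟩,
    fun l => ?_⟩
  · rw [hsub (fun p => (c m' p - c m p) • φ p) fun p hp => by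
      rw [show c m' p - c m p = 0 by omega, zero_smul], ← hd]
    abel
  · let l' : P → ℤ := fun p => if h : c m p < c m' p then l ⟨p, h⟩ else 0
    let N := ∑ p, (l' p).natAbs
    have hN : ∀ p, (0 : ℤ) ≤ c m p + N * (c m' p - c m p : ℕ) + l' p := fun p => by
      by_cases h : c m p < c m' p
      · have a : (l' p).natAbs ≤ N :=
          Finset.single_le_sum (f := fun p => (l' p).natAbs) (fun _ _ => Nat.zero_le _) (Finset.mem_univ p)
        have b : N ≤ N * (c m' p - c m p) := Nat.le_mul_of_pos_right _ (by omega)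
        rw [← Nat.cast_mul]
        omega
      · simp only [l', dif_neg h]
        positivity
    obtain ⟨w, a, b⟩ := h2 (i m) (fun p => (c m p + N * (c m' p - c m p : ℕ) + l' p).toNat)
      fun p hp => by
        have a := hc m p hp
        have b := hc m' p (e ▸ hp)
        simp [l', a, b]
    refine ⟨N, w, a, ?_⟩
    have := hsub (fun p => l' p • φ p) fun p hp => by simp only [l', dif_neg hp, zero_smul]
    rw [show ∑ p, l p • φ p.1 = ∑ p : {p // c m p < c m' p}, l' p • φ p from
      Finset.sum_congr rfl fun p _ => by simp only [l', dif_pos p.2], this, hd, b, hw m,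
      Finset.smul_sum, add_assoc, add_assoc, ← Finset.sum_add_distrib, ← Finset.sum_add_distrib]
    congr 1
    refine Finset.sum_congr rfl fun p _ => ?_
    rw [← natCast_zsmul, Int.toNat_of_nonneg (hN p), add_smul, add_smul, mul_smul, natCast_zsmul,
      natCast_zsmul, natCast_zsmul, add_assoc]

end Pool.Agent.H24.Cf
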