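import Pool.Agent.H24.CgDefs
import Pool.Agent.H21.Sim

set_option autoImplicit false

namespace Pool.Agent.H24.Cg
open Pool.Agent.H11.PT Finset

variable {n : ℕ} {G : SimpleGraph (Fin n)}

theorem lip (φ : (Fin n → ℝ) → ℝ) (h : ∀ u v s t, u ≠ v → 0 ≤ s → s ≤ 1 → 0 ≤ t → t ≤ 1 →
    φ (pt u v t) ≤ φ (pt u v s) + |s - t|) {p q : Fin n → ℝ} (hq : q ∈ ball G p) :
    φ q ≤ φ p + 1 / 2 := by
  have k : ∀ a, Way G p q a → φ q - φ p ≤ a := fun a w => by
    clear hq
    induction w with
    | refl => simp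
    | step _ e a b c d ih => have := h _ _ _ _ e.ne a b c d; linarith
  have : ENNReal.ofReal (φ q - φ p) ≤ ENNReal.ofReal (1 / 2) := by
    refine le_trans (le_iInf₂ fun a w => ENNReal.ofReal_le_ofReal (k a w)) (hq.2.trans ?_)
    rw [ENNReal.ofReal_div_of_pos (by norm_num)]; simp
  have := (ENNReal.ofReal_le_ofReal_iff (by norm_num)).1 this
  linarith

theorem near {u v : Fin n} {s t : ℝ} (e : G.Adj u v) (a : 0 ≤ s) (b : s ≤ 1) (c : 0 ≤ t)
    (d : t ≤ 1) (h : |s - t| ≤ 1 / 2) : pt u v t ∈ ball G (pt u v s) := by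
  refine ⟨⟨u, v, t, .inr e, c, d, rfl⟩, ?_⟩
  refine (iInf₂_le _ (Way.step (.refl _) e a b c d)).trans ?_
  refine (ENNReal.ofReal_le_ofReal (q := 1 / 2) (by linarith)).trans ?_
  rw [ENNReal.ofReal_div_of_pos (by norm_num)]; simp

theorem pt0 (u v : Fin n) : pt u v 0 = pt u u 0 := by ext w; simp [pt]
theorem pt1 (u v : Fin n) : pt u v 1 = pt v v 0 := by ext w; simp [pt]
theorem ptt (u : Fin n) (t : ℝ) : pt u u t = pt u u 0 := by ext w; simp only [pt]; split_ifs <;> ring
theorem pts (u v : Fin n) (t : ℝ) : pt u v t = pt v u (1 - t) := by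
  ext w; simp only [pt]; ring_nf

theorem co {p q : Fin n → ℝ} (hq : q ∈ ball G p) (w : Fin n) : p w ≤ q w + 1 / 2 := by
  have := lip (fun x => - x w) (fun u v s t h _ _ _ _ => by
    have := le_abs_self (s - t)
    have := neg_abs_le (s - t)
    simp only [pt]
    split_ifs with h1 h2 <;> first | linarith | exact absurd (h1.symm.trans h2) h) hq
  linarith

theorem far {p : Fin n → ℝ} {a b : Fin n} (h : a ≠ b) (hq : pt a b (1 / 2) ∈ ball G p) :
    1 - p a - p b ≤ min (p a) (p b) := by
  have := lip (fun x => min (x a) (x b) + x a + x b) (fun u v s t h' _ _ _ _ => by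
    have := le_abs_self (s - t)
    have := neg_abs_le (s - t)
    simp only [pt, min_def]
    by_cases h1 : a = u <;> by_cases h2 : a = v <;> by_cases h3 : b = u <;> by_cases h4 : b = v <;>
      first
      | exact absurd (h1.symm.trans h2) h'
      | exact absurd (h3.symm.trans h4) h'
      | exact absurd (h1.trans h3.symm) h
      | exact absurd (h2.trans h4.symm) h
      | (simp only [h1, h2, h3, h4, h', Ne.symm h', if_true, if_false]; split_ifs <;> linarith)) hq
  simp only [pt, h, h.symm, if_true, if_false] at this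
  norm_num at this
  linarith

theorem mid {p : Fin n → ℝ} {a b : Fin n} (h : a ≠ b) (hp : p ∈ Gam G)
    (hq : pt a b (1 / 2) ∈ ball G p) (ha : p ≠ pt a a 0) (hb : p ≠ pt b b 0) :
    ∃ s, 0 < s ∧ s < 1 ∧ p = pt a b s := by
  have k := far h hq
  obtain ⟨u, v, t, -, t0, t1, rfl⟩ := hp
  by_cases e0 : t = 0 ∨ u = v
  · have e : pt u v t = pt u u 0 := by
      rcases e0 with rfl | rfl
      · exact pt0 _ _
      · exact ptt _ _
    rw [e] at ha hb k
    have h1 : a ≠ u := fun x => ha (by rw [x])
    have h2 : b ≠ u := fun x => hb (by rw [x])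
    norm_num [pt, h1, h2] at k
  by_cases e1 : t = 1
  · rw [e1, pt1] at ha hb k
    have h1 : a ≠ v := fun x => ha (by rw [x])
    have h2 : b ≠ v := fun x => hb (by rw [x])
    norm_num [pt, h1, h2] at k
  push Not at e0
  have t0' : 0 < t := lt_of_le_of_ne t0 e0.1.symm
  have t1' : t < 1 := lt_of_le_of_ne t1 e1
  by_cases c1 : a = u ∧ b = v
  · exact ⟨t, t0', t1', by rw [c1.1, c1.2]⟩
  by_cases c2 : a = v ∧ b = u
  · exact ⟨1 - t, by linarith, by linarith, by rw [c2.1, c2.2, pts]⟩
  exfalso
  have h' := e0.2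
  simp only [pt, min_def] at k
  by_cases h1 : a = u <;> by_cases h2 : a = v <;> by_cases h3 : b = u <;> by_cases h4 : b = v <;>
    first
    | exact absurd (h1.symm.trans h2) h'
    | exact absurd (h3.symm.trans h4) h'
    | exact absurd (h1.trans h3.symm) h
    | exact absurd (h2.trans h4.symm) h
    | exact c1 ⟨h1, h4⟩
    | exact c2 ⟨h2, h3⟩
    | (simp only [h1, h2, h3, h4, h', Ne.symm h', if_true, if_false] at k
       split_ifs at k <;> linarith)

theorem degen {V : Type} [Fintype V] (R : V → V → Prop) [DecidableRel R] (c : ℕ)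
    (h : ∀ u, #{v | R u v} ≤ c) (s : Finset V) :
    ∃ col : V → Fin (2 * c + 1), ∀ u ∈ s, ∀ v ∈ s, u ≠ v → R u v → col u ≠ col v := by
  classical
  induction s using Finset.strongInduction with
  | H s ih =>
    rcases s.eq_empty_or_nonempty with rfl | hs
    · exact ⟨fun _ => 0, by simp⟩
    have : ∃ w ∈ s, #{u ∈ s | R u w} ≤ c := by
      by_contra hc
      push Not at hc
      have := card_mul_le_card_mul (s := s) (t := s) (m := c + 1) (n := c) (fun a b => R b a)
        (fun a ha => hc a ha) fun b _ => (card_le_card fun x hx => by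
          simpa using (mem_filter.1 hx).2).trans (h b)
      have := hs.card_pos
      nlinarith
    obtain ⟨w, hw, hc⟩ := this
    obtain ⟨col, hcol⟩ := ih (s.erase w) (erase_ssubset hw)
    have : ∃ x, x ∉ (s.filter (fun u => R u w) ∪ univ.filter (fun v => R w v)).image col := by
      by_contra hx
      push Not at hx
      have h1 := card_le_card (s := univ) fun x _ => hx x
      have h2 := card_image_le (s := (s.filter (fun u => R u w) ∪ univ.filter (fun v => R w v))) (f := col)
      have h3 := card_union_le (s.filter (fun u => R u w)) (univ.filter (fun v => R w v))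
      have := h w
      simp only [card_univ, Fintype.card_fin] at h1
      omega
    obtain ⟨x, hx⟩ := this
    refine ⟨Function.update col w x, fun u hu v hv huv r => ?_⟩
    by_cases e1 : u = w
    · subst e1
      rw [Function.update_self, Function.update_of_ne huv.symm]
      exact fun e => hx (mem_image.2 ⟨v, by simp [r], e.symm⟩)
    by_cases e2 : v = w
    · subst e2
      rw [Function.update_self, Function.update_of_ne huv]
      exact fun e => hx (mem_image.2 ⟨u, by simp [r, hu], e⟩)
    rw [Function.update_of_ne e1, Function.update_of_ne e2]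
    exact hcol u (by simp [e1, hu]) v (by simp [e2, hv]) huv r

theorem up {c : ℕ} (h : HalfCol G c) : G.Colorable (3 * c + 1) := by
  classical
  obtain ⟨𝓑, f, h1, h2, h3⟩ := h
  let A : Fin n → Prop := fun u => ball G (pt u u 0) ∈ 𝓑
  let R : Fin n → Fin n → Prop := fun u v => G.Adj u v ∧ ¬ A u ∧ ¬ A v ∧
    ∃ B ∈ 𝓑, pt u v (1 / 2) ∈ B ∧ pt u u 0 ∈ B
  have hm : ∀ u v B, G.Adj u v → ¬ A u → ¬ A v → B ∈ 𝓑 → pt u v (1 / 2) ∈ B →
      ∃ s, 0 < s ∧ s < 1 ∧ B = ball G (pt u v s) := fun u v B e a b hB m => by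
    obtain ⟨p, hp, rfl⟩ := h1 B hB
    obtain ⟨s, s0, s1, rfl⟩ := mid e.ne hp m (fun x => a (by subst x; exact hB)) fun x => b (by subst x; exact hB)
    exact ⟨s, s0, s1, rfl⟩
  have hR : ∀ u, #{v | R u v} ≤ c := fun u => by
    have : ∀ v, ∃ B, R u v → B ∈ 𝓑 ∧ pt u v (1 / 2) ∈ B ∧ pt u u 0 ∈ B := fun v => by
      by_cases r : R u v
      · obtain ⟨-, -, -, B, hB⟩ := r
        exact ⟨B, fun _ => hB⟩
      · exact ⟨∅, fun x => absurd x r⟩
    choose B hB using this
    have := card_le_card_of_injOn (s := {v | R u v}) (t := univ) (fun v => f (B v)) (by simp)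
      fun v hv w hw e => by
        have r : R u v := by simpa using hv
        have r' : R u w := by simpa using hw
        by_contra hne
        refine h3 _ (hB v r).1 _ (hB w r').1 (fun x => ?_) ⟨_, (hB v r).2.2, (hB w r').2.2⟩ e
        obtain ⟨s, s0, s1, hs⟩ := hm u w _ r'.1 r'.2.1 r'.2.2.1 (hB w r').1 (hB w r').2.1
        have k := far r.1.ne (hs ▸ x ▸ (hB v r).2.1)
        simp only [pt, r'.1.ne, r.1.ne', hne, if_true, if_false, min_def] at k
        split_ifs at k <;> linarith
    simpa using this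
  obtain ⟨col, hcol⟩ := degen R c hR univ
  have C : G.Coloring (Fin c ⊕ Fin (2 * c + 1)) := .mk
    (fun u => if A u then .inl (f (ball G (pt u u 0))) else .inr (col u)) fun {u v} e => by
      by_cases a : A u <;> by_cases b : A v <;> simp only [a, b, if_true, if_false] <;> simp
      · refine h3 _ a _ b (fun x => ?_) ⟨pt u v (1 / 2), ?_, ?_⟩
        · have k : pt v v 0 ∈ ball G (pt v v 0) := by
            simpa only [pt1] using near (s := 1) (t := 1) e (by norm_num) le_rfl (by norm_num) le_rfl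
              (by norm_num)
          have := co (x ▸ k) u
          norm_num [pt, e.ne] at this
        · rw [← pt0 u v]; apply near e <;> norm_num [abs_le]
        · rw [← pt1 u v]; apply near e <;> norm_num [abs_le]
      · have : pt u v (1 / 2) ∈ ⋃₀ 𝓑 := h2 ▸ ⟨u, v, _, .inr e, by norm_num, by norm_num, rfl⟩
        obtain ⟨B, hB, m⟩ := this
        obtain ⟨s, s0, s1, rfl⟩ := hm u v B e a b hB m
        by_cases hs : s ≤ 1 / 2
        · refine hcol u (mem_univ _) v (mem_univ _) e.ne ⟨e, a, b, _, hB, m, ?_⟩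
          rw [← pt0 u v]; apply near e <;> first | linarith | (rw [abs_le]; constructor <;> linarith)
        · refine (hcol v (mem_univ _) u (mem_univ _) e.ne' ⟨e.symm, b, a, _, hB, ?_, ?_⟩).symm
          · rw [pts v u, show (1 : ℝ) - 1 / 2 = 1 / 2 by norm_num]; exact m
          · rw [← pt1 u v]; apply near e <;> first | linarith | (rw [abs_le]; constructor <;> linarith)
  have := C.colorable
  simp only [Fintype.card_sum, Fintype.card_fin] at this
  exact this.mono (by omega)

theorem down {c : ℕ} (hc : 0 < c) (h : G.Colorable c) : HalfCol G c := by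
  classical
  obtain ⟨C⟩ := h
  have self : ∀ u, pt u u 0 ∈ ball G (pt u u 0) := fun u =>
    ⟨⟨u, u, 0, .inl rfl, le_rfl, by norm_num, rfl⟩,
      (iInf₂_le _ (Way.refl _)).trans (by simp)⟩
  have adj : ∀ u v, u ≠ v → ∀ x ∈ ball G (pt u u 0), x ∈ ball G (pt v v 0) → G.Adj u v := by
    intro u v h x h1 h2
    have k1 := co h1 u
    have k2 := co h2 v
    obtain ⟨a, b, t, e, t0, t1, rfl⟩ := h1.1
    simp only [pt, if_true] at k1 k2
    by_cases h1 : u = a <;> by_cases h2 : u = b <;> by_cases h3 : v = a <;> by_cases h4 : v = b <;>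
      first
      | exact absurd (h1.trans h3.symm) h
      | exact absurd (h2.trans h4.symm) h
      | (rw [if_neg h1, if_neg h2] at k1; linarith)
      | (rw [if_neg h3, if_neg h4] at k2; linarith)
      | (subst h1 h4; exact e.resolve_left h)
      | (subst h2 h3; exact (e.resolve_left (Ne.symm h)).symm)
  refine ⟨Set.range fun u => ball G (pt u u 0),
    fun B => if h : ∃ u, ball G (pt u u 0) = B then C h.choose else ⟨0, hc⟩, ?_, ?_, ?_⟩
  · rintro _ ⟨u, rfl⟩
    exact ⟨_, (self u).1, rfl⟩
  · refine Set.Subset.antisymm (by rintro x ⟨_, ⟨u, rfl⟩, hx⟩; exact hx.1) ?_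
    rintro _ ⟨u, v, t, rfl | e, t0, t1, rfl⟩
    · exact ⟨_, ⟨u, rfl⟩, ptt u t ▸ self u⟩
    · by_cases ht : t ≤ 1 / 2
      · refine ⟨_, ⟨u, rfl⟩, ?_⟩
        simp only
        rw [← pt0 u v]; apply near e <;> first | linarith | (rw [abs_le]; constructor <;> linarith)
      · refine ⟨_, ⟨v, rfl⟩, ?_⟩
        simp only
        rw [← pt1 u v]; apply near e <;> first | linarith | (rw [abs_le]; constructor <;> linarith)
  · intro B hB B' hB' hne ⟨x, x1, x2⟩
    have a : ∃ u, ball G (pt u u 0) = B := hB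
    have b : ∃ u, ball G (pt u u 0) = B' := hB'
    simp only [dif_pos a, dif_pos b]
    refine C.valid (adj _ _ (fun e => hne ?_) x ?_ ?_)
    · rw [← a.choose_spec, ← b.choose_spec, e]
    · rw [a.choose_spec]; exact x1
    · rw [b.choose_spec]; exact x2

theorem chi_le {c : ℕ} : chi G ≤ c ↔ G.Colorable c := by
  rw [← SimpleGraph.chromaticNumber_le_iff_colorable, chi]
  have : G.chromaticNumber ≠ ⊤ := G.colorable_of_fintype.chromaticNumber_le.trans_lt
    (ENat.natCast_lt_top _) |>.ne
  obtain ⟨m, hm⟩ := ENat.ne_top_iff_exists.1 this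
  simp [← hm]

theorem chiH_mem : 0 < chiH G ∧ HalfCol G (chiH G) :=
  Nat.sInf_mem (s := {c | 0 < c ∧ HalfCol G c})
    ⟨n + 1, by omega, down (by omega) (G.colorable_of_fintype.mono (by simp))⟩

theorem main : chi G ≤ 3 * chiH G + 1 := chi_le.2 (up chiH_mem.2)

theorem main' (hn : 0 < n) : chiH G ≤ chi G := by
  have : 0 < chi G := Nat.pos_of_ne_zero fun e => by
    obtain ⟨C⟩ := chi_le.1 e.le
    exact (C ⟨0, hn⟩).elim0
  exact Nat.sInf_le ⟨this, down this (chi_le.1 le_rfl)⟩

def brute (K : List (List ℕ)) (y : (ℕ × List (ℕ × ℕ)) × ℕ) : Bool :=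
  K.any fun c => (List.range y.1.1).all (fun i => decide (c.getD i 0 < y.2)) &&
    y.1.2.all fun e => decide (y.1.1 ≤ e.1) || decide (y.1.1 ≤ e.2) || e.1 == e.2 ||
      c.getD e.1 0 != c.getD e.2 0

theorem gap {ε : ℝ} (h0 : 0 < ε) (h1 : ε ≤ 1) (h : GapHard chi fun n => (n : ℝ) ^ (1 - ε / 2)) :
    GapHard chiH fun n => (n : ℝ) ^ (1 - ε) := fun L hL => by
  classical
  obtain ⟨f, hf, e⟩ := h L hL
  have hf := Pool.Agent.H21.Sim.pt_of_raw hf
  obtain ⟨N, hN⟩ : ∃ N : ℕ, ∀ m ≥ N, (4 : ℝ) ≤ (m : ℝ) ^ (ε / 2) :=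
    Filter.eventually_atTop.1 (((tendsto_rpow_atTop (by linarith)).comp
      tendsto_natCast_atTop_atTop).eventually_ge_atTop 4)
  let K : List (List ℕ) := (univ : Finset (Fin (N + 1) → Fin (N + 1))).toList.map
    fun g => List.ofFn fun i => (g i).val
  refine ⟨fun x => if N < (f x).1.1 then f x else ((0, []), bif brute K (f x) then 1 else 0),
    PT.polyTime_raw (by unfold brute; fun_prop), fun x => ?_⟩
  obtain ⟨e1, e2⟩ := e x
  beta_reduce
  generalize f x = y at e1 e2 ⊢
  obtain ⟨⟨m, E⟩, k⟩ := y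
  simp only at e1 e2 ⊢
  by_cases hm : N < m
  · rw [if_pos hm]
    refine ⟨fun hx => (main' (show 0 < m by omega)).trans (e1 hx), fun hx => ?_⟩
    have a1 := e2 hx
    have a2 : (chi (gr m E) : ℝ) ≤ 4 * chiH (gr m E) := by
      have := main (G := gr m E)
      have := (chiH_mem (G := gr m E)).1
      exact_mod_cast (by omega)
    have a3 : (m : ℝ) ^ (1 - ε / 2) = (m : ℝ) ^ (1 - ε) * (m : ℝ) ^ (ε / 2) := by
      rw [← Real.rpow_add (by exact_mod_cast (by omega))]; ring_nf
    have a4 := hN m hm.le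
    have a5 : 0 ≤ (m : ℝ) ^ (1 - ε) * k := by positivity
    simp only
    rw [a3] at a1
    nlinarith
  · rw [if_neg hm]
    refine ⟨fun hx => ?_, fun hx => ?_⟩
    · have : brute K ((m, E), k) = true := by
        have c1 : chi (gr m E) ≤ m := chi_le.2 (by simpa using (gr m E).colorable_of_fintype)
        obtain ⟨C⟩ := chi_le.1 (le_min (e1 hx) c1)
        let g : Fin (N + 1) → Fin (N + 1) := fun i =>
          if h : i.val < m then ⟨C ⟨i, h⟩, by have := (C ⟨i, h⟩).2; omega⟩ else 0
        have hg : ∀ i (h : i < m), (List.ofFn fun i => (g i).val).getD i 0 = C ⟨i, h⟩ := by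
          intro i h
          rw [List.getD_eq_getElem _ _ (by simp; omega)]
          rw [List.getElem_ofFn]
          simp [g, h]
        simp only [brute, List.any_eq_true]
        refine ⟨_, List.mem_map.2 ⟨g, by simp, rfl⟩, ?_⟩
        simp only [Bool.and_eq_true, List.all_eq_true, List.mem_range, decide_eq_true_eq,
          Bool.or_eq_true, beq_iff_eq, bne_iff_ne]
        refine ⟨fun i hi => ?_, fun a ha => ?_⟩
        · rw [hg i hi]; have := (C ⟨i, hi⟩).2; omega
        · by_contra hc
          push Not at hc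
          obtain ⟨⟨⟨b1, b2⟩, b3⟩, b4⟩ := hc
          rw [hg _ b1, hg _ b2] at b4
          exact C.valid (show (gr m E).Adj ⟨_, b1⟩ ⟨_, b2⟩ by simp [gr, b3, ha]) (Fin.ext b4)
      simp only [this, cond_true]
      exact Nat.sInf_le ⟨one_pos, down one_pos ⟨.mk (fun v => v.elim0) fun {v} => v.elim0⟩⟩
    · have : brute K ((m, E), k) = false := by
        by_contra hb
        simp only [brute, Bool.not_eq_false, List.any_eq_true, Bool.and_eq_true, List.all_eq_true,
          List.mem_range, decide_eq_true_eq, Bool.or_eq_true, beq_iff_eq, bne_iff_ne] at hb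
        obtain ⟨c, -, b1, b2⟩ := hb
        have : chi (gr m E) ≤ k := chi_le.2 ⟨.mk (fun i => ⟨c.getD i 0, b1 _ i.2⟩) fun {u v} a => by
          have := u.2
          have := v.2
          simp only [gr, SimpleGraph.fromRel_adj, ne_eq, Fin.ext_iff] at a ⊢
          rcases a.2 with x | x <;> have := b2 _ x <;> simp only at this <;> omega⟩
        have a1 := e2 hx
        rcases Nat.eq_zero_or_pos m with rfl | hm0
        · have : chi (gr 0 E) ≤ 0 := chi_le.2 ⟨.mk (fun v => v.elim0) fun {v} => v.elim0⟩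
          have a2 : (0 : ℝ) ≤ ((0 : ℕ) : ℝ) ^ (1 - ε / 2) * k := by positivity
          have : (chi (gr 0 E) : ℝ) ≤ 0 := by exact_mod_cast this
          linarith
        · have a2 : (1 : ℝ) ≤ (m : ℝ) ^ (1 - ε / 2) :=
            Real.one_le_rpow (by exact_mod_cast hm0) (by linarith)
          have : (chi (gr m E) : ℝ) ≤ k := by exact_mod_cast this
          have : (0 : ℝ) ≤ k := by positivity
          nlinarith
      simp only [this, cond_false, Nat.cast_zero, mul_zero, Nat.cast_pos]
      exact chiH_mem.1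

end Pool.Agent.H24.Cg
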