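import Pool.Agent.H11.GDefs

set_option autoImplicit false

namespace Pool.Agent.H24.Cg
open Pool.Agent.H11.PT

variable {n : ℕ} (G : SimpleGraph (Fin n))

/-- the point at distance `t` from `u` on the unit segment from `u` to `v`,
in barycentric coordinates; `pt u u t` is the vertex `u` -/
def pt (u v : Fin n) (t : ℝ) : Fin n → ℝ :=
  fun w => (if w = u then 1 - t else 0) + (if w = v then t else 0)

/-- the points of the continuous graph -/
def Gam : Set (Fin n → ℝ) :=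
  {p | ∃ u v t, (u = v ∨ G.Adj u v) ∧ 0 ≤ t ∧ t ≤ 1 ∧ p = pt u v t}

/-- `Way G p q a`: a path of length `a` from `p` to `q` made of straight pieces inside edges -/
inductive Way : (Fin n → ℝ) → (Fin n → ℝ) → ℝ → Prop
  | refl (p : Fin n → ℝ) : Way p p 0
  | step {p : Fin n → ℝ} {a : ℝ} {u v : Fin n} {s t : ℝ} : Way p (pt u v s) a → G.Adj u v →
      0 ≤ s → s ≤ 1 → 0 ≤ t → t ≤ 1 → Way p (pt u v t) (a + |s - t|)

/-- the path metric -/
noncomputable def dis (p q : Fin n → ℝ) : ENNReal := ⨅ (a : ℝ) (_ : Way G p q a), ENNReal.ofReal a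

/-- the closed ball of radius 1/2 -/
def ball (p : Fin n → ℝ) : Set (Fin n → ℝ) := {q ∈ Gam G | dis G p q ≤ 1 / 2}

/-- `(1/2, c)`-colourability -/
def HalfCol (c : ℕ) : Prop :=
  ∃ (𝓑 : Set (Set (Fin n → ℝ))) (f : Set (Fin n → ℝ) → Fin c),
    (∀ B ∈ 𝓑, ∃ p ∈ Gam G, B = ball G p) ∧ ⋃₀ 𝓑 = Gam G ∧
      ∀ B ∈ 𝓑, ∀ B' ∈ 𝓑, B ≠ B' → (B ∩ B').Nonempty → f B ≠ f B'

noncomputable def chiH : ℕ := sInf {c | 0 < c ∧ HalfCol G c}

noncomputable def chi : ℕ := G.chromaticNumber.toNat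

/-- NP-hardness of approximating the parameter `χ` within the factor `ρ n` (gap form) -/
def GapHard (χ : ∀ {n : ℕ}, SimpleGraph (Fin n) → ℕ) (ρ : ℕ → ℝ) : Prop :=
  ∀ L : List Bool → Prop, InNP L → ∃ f : List Bool → (ℕ × List (ℕ × ℕ)) × ℕ,
    PolyTime id bits f ∧ ∀ x, (L x → χ (gr (f x).1.1 (f x).1.2) ≤ (f x).2) ∧
      (¬ L x → ρ (f x).1.1 * (f x).2 < χ (gr (f x).1.1 (f x).1.2))

end Pool.Agent.H24.Cg
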