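import Pool.Agent.Lead.Nae
import Pool.Agent.H11.Base1

set_option autoImplicit false

namespace Pool.Agent.H24.Col

open Pool.Agent.H11.PT Pool.Agent.Lead.Nae

/-- 4-colourability of an edge list -/
def COL4 (E : List (ℕ × ℕ)) : Prop := ∃ c : ℕ → Bool × Bool, ∀ e ∈ E, c e.1 ≠ c e.2

def toCol (φ : List (ℕ × ℕ × ℕ)) : List (ℕ × ℕ) :=
  (0, 1) :: φ.zipIdx.flatMap fun p =>
    [(4 * p.2 + 3, 4 * p.2 + 4), (4 * p.2 + 3, 4 * p.2 + 5), (4 * p.2 + 4, 4 * p.2 + 5),
     (0, 4 * p.2 + 3), (0, 4 * p.2 + 4), (0, 4 * p.2 + 5),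
     (4 * p.1.1 + 2, 4 * p.2 + 3), (4 * p.1.2.1 + 2, 4 * p.2 + 4), (4 * p.1.2.2 + 2, 4 * p.2 + 5),
     (0, 4 * p.1.1 + 2), (0, 4 * p.1.2.1 + 2), (0, 4 * p.1.2.2 + 2),
     (1, 4 * p.1.1 + 2), (1, 4 * p.1.2.1 + 2), (1, 4 * p.1.2.2 + 2)]

theorem hard_COL4 : HardFor InNP (fun E : List (ℕ × ℕ) => ∀ e ∈ E, e.1 ≠ e.2) COL4 := by
  refine hard_NAE.hardFor.red toCol (by unfold toCol; fun_prop) fun φ _ => ⟨?_, ?_, ?_⟩
  · simp only [toCol, List.forall_mem_cons, List.forall_mem_flatMap]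
    refine ⟨by simp, fun p _ => ?_⟩
    simp only [List.not_mem_nil, false_imp_iff, implies_true, and_true]
    omega
  · rintro ⟨σ, h⟩
    let F : ℕ × ℕ × ℕ → ℕ → Bool × Bool := fun c r =>
      if σ c.1 ≠ σ c.2.1 then (if r = 3 then (false, σ c.2.1) else if r = 0 then (false, σ c.1)
        else (true, false))
      else (if r = 3 then (false, σ c.2.2) else if r = 0 then (true, false) else (false, σ c.1))
    let c : ℕ → Bool × Bool := fun v => if v = 0 then (true, true) else if v = 1 then (true, false)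
      else if v % 4 = 2 then (false, σ (v / 4)) else F (φ.getD ((v - 3) / 4) (0, 0, 0)) (v % 4)
    have c1 : ∀ x, c (4 * x + 2) = (false, σ x) := by
      intro x
      simp only [c]
      rw [if_neg (by omega), if_neg (by omega), if_pos (by omega),
        show (4 * x + 2) / 4 = x by omega]
    have c2 : ∀ j r, 3 ≤ r → r ≤ 5 → c (4 * j + r) = F (φ.getD j (0, 0, 0)) (r % 4) := by
      intro j r h1 h2
      simp only [c]
      rw [if_neg (by omega), if_neg (by omega), if_neg (by omega),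
        show (4 * j + r - 3) / 4 = j by omega, show (4 * j + r) % 4 = r % 4 by omega]
    refine ⟨c, ?_⟩
    simp only [toCol, List.forall_mem_cons, List.forall_mem_flatMap]
    refine ⟨by simp [c], fun p hp => ?_⟩
    have e : φ.getD p.2 (0, 0, 0) = p.1 := by
      have := List.mem_zipIdx_iff_getElem?.1 hp
      simp [List.getD_eq_getElem?_getD, this]
    have k := h _ (List.fst_mem_of_mem_zipIdx hp)
    have c0 : c 0 = (true, true) := rfl
    have c3 : c 1 = (true, false) := rfl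
    simp only [c1, c2 _ 3 (by omega) (by omega), c2 _ 4 (by omega) (by omega),
      c2 _ 5 (by omega) (by omega), e, c0, c3, F]
    revert k
    cases σ p.1.1 <;> cases σ p.1.2.1 <;> cases σ p.1.2.2 <;> simp
  · rintro ⟨c, h⟩
    simp only [toCol, List.forall_mem_cons, List.forall_mem_flatMap] at h
    have a : ∀ u b : Bool × Bool, u ≠ b → ∃ r : Bool × Bool, ∀ x y, u ≠ x → b ≠ x → u ≠ y → b ≠ y →
        (x == r) = (y == r) → x = y := by decide
    have b : ∀ u x p q r : Bool × Bool, u ≠ x → p ≠ q → p ≠ r → q ≠ r → u ≠ p → u ≠ q → u ≠ r →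
        x ≠ p → x ≠ q → x ≠ r → False := by
      rintro ⟨_ | _, _ | _⟩ ⟨_ | _, _ | _⟩ ⟨_ | _, _ | _⟩ ⟨_ | _, _ | _⟩ ⟨_ | _, _ | _⟩ <;> simp
    obtain ⟨r, hr⟩ := a _ _ h.1
    refine ⟨fun x => c (4 * x + 2) == r, fun cl hcl ⟨e1, e2⟩ => ?_⟩
    obtain ⟨j, hj, rfl⟩ := List.getElem_of_mem hcl
    obtain ⟨h1, h2, h3, h4, h5, h6, h7, h8, h9, h10, h11, h12, h13, h14, h15, -⟩ :=
      h.2 (φ[j], j) (by simp [List.mk_mem_zipIdx_iff_getElem?])
    have f1 := hr _ _ h10 h13 h11 h14 e1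
    have f2 := hr _ _ h11 h14 h12 h15 e2
    simp only at *
    exact b _ _ _ _ _ h10 h1 h2 h3 h4 h5 h6 h7 (f1 ▸ h8) (f1 ▸ f2 ▸ h9)

/-- binary length, in a form that is visibly polynomial -/
def lg (n : ℕ) : ℕ := (List.range n).countP fun i => decide (0 < (fun m => m / 2)^[i] n)

theorem PT.lg {α : Type} [Enc α] {f : α → ℕ} (hf : PT f) : PT fun x => lg (f x) := by
  unfold Col.lg
  refine PT.countP (by fun_prop) (PT.decLt (by fun_prop) ?_)
  exact PT.iterate_add (g := fun _ m => m / 2) (by fun_prop) (by fun_prop) (by fun_prop)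
    (fun _ => ()) 0 (by fun_prop) (fun _ c => by simp; omega)

theorem lg_eq (n : ℕ) : lg n = n.size := by
  have a : ∀ i m, (fun m => m / 2)^[i] m = m / 2 ^ i := by
    intro i
    induction i with
    | zero => simp
    | succ i ih => intro m; rw [Function.iterate_succ_apply, ih, Nat.div_div_eq_div_mul, pow_succ']
  have b : ∀ s k, (List.range k).countP (fun i => decide (i < s)) = min s k := by
    intro s k
    induction k with
    | zero => simp
    | succ k ih =>
      rw [List.range_succ, List.countP_append, ih]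
      by_cases h : k < s <;> simp [h] <;> omega
  have c : n.size ≤ n := Nat.size_le.2 Nat.lt_two_pow_self
  rw [← min_eq_left c, ← b, lg]
  congr 1
  ext i
  rw [a, decide_eq_decide, Nat.lt_size, Nat.div_pos_iff]
  simp

theorem lt_lg (n : ℕ) : n < 2 ^ lg n := lg_eq n ▸ Nat.lt_size_self n

theorem lg_le (n : ℕ) : 2 ^ lg n ≤ 2 * n + 1 := by
  rw [lg_eq]
  rcases h : n.size with _ | s
  · simp
  · have : 2 ^ s ≤ n := Nat.lt_size.1 (by omega)
    rw [pow_succ]; omega

end Pool.Agent.H24.Col
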