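import Mathlib

set_option autoImplicit false
open FirstOrder FirstOrder.Language Filter

namespace Pool.Agent.H24.GrpFO

/-- Function symbols of the language of groups: the unit, the inverse and the product. -/
inductive GrpFun : ℕ → Type
  | one : GrpFun 0
  | inv : GrpFun 1
  | mul : GrpFun 2

/-- The first-order language of groups (no relation symbols). -/
def grpLang : FirstOrder.Language.{0, 0} := ⟨GrpFun, fun _ => Empty⟩

/-- A group as a structure for the language of groups. -/
@[reducible] def grpStr (G : Type) [Group G] : grpLang.Structure G where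
  funMap := fun {n} f => match n, f with
    | _, GrpFun.one => fun _ => 1
    | _, GrpFun.inv => fun v => (v 0)⁻¹
    | _, GrpFun.mul => fun v => v 0 * v 1
  RelMap := fun r => r.elim

/-- Two `k`-tuples of the group `G` satisfy the same formulas of the language of groups. -/
def SameType {G : Type} [Group G] {k : ℕ} (u v : Fin k → G) : Prop :=
  ∀ φ : grpLang.Formula (Fin k),
    @Formula.Realize grpLang G (grpStr G) (Fin k) φ u ↔
      @Formula.Realize grpLang G (grpStr G) (Fin k) φ v

/-- Tuples with the same type are related by an automorphism. -/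
def Homogeneous (G : Type) [Group G] : Prop :=
  ∀ k : ℕ, 1 ≤ k → ∀ u v : Fin k → G, SameType u v → ∃ α : G ≃* G, ∀ i, α (u i) = v i

attribute [local instance] grpStr

theorem term_hom {G H : Type} [Group G] [Group H] (π : G →* H) {α : Type}
    (t : grpLang.Term α) (v : α → G) : t.realize (π ∘ v) = π (t.realize v) := by
  induction t with
  | var k => rfl
  | func f ts ih =>
    simp only [Term.realize, ih]
    cases f
    · exact (map_one π).symm
    · exact (map_inv π _).symm
    · exact (map_mul π _ _).symm

theorem los {G H : Type} [Group G] [Group H] (U : Ultrafilter ℕ) (π : (ℕ → G) →* H)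
    (hs : Function.Surjective π) (he : ∀ g g', π g = π g' ↔ ∀ᶠ n in U, g n = g' n)
    {α : Type} {k : ℕ} (φ : grpLang.BoundedFormula α k) :
    ∀ (v : α → ℕ → G) (xs : Fin k → ℕ → G),
      φ.Realize (π ∘ v) (π ∘ xs) ↔
        ∀ᶠ n in U, φ.Realize (fun a => v a n) (fun i => xs i n) := by
  induction φ with
  | falsum => intro v xs; simp [BoundedFormula.Realize, U.neBot.ne]
  | equal t1 t2 =>
    intro v xs
    simp only [BoundedFormula.Realize]
    rw [← Sum.comp_elim, term_hom, term_hom, he]
    refine eventually_congr (Eventually.of_forall fun n => ?_)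
    have h : ∀ t : grpLang.Term _, (t.realize (Sum.elim v xs)) n =
        t.realize (Sum.elim (fun a => v a n) (fun i => xs i n)) := by
      intro t
      have := term_hom (Pi.evalMonoidHom (fun _ : ℕ => G) n) t (Sum.elim v xs)
      rw [Sum.comp_elim] at this
      exact this.symm
    rw [h, h]
  | rel R ts => exact R.elim
  | imp φ ψ ih1 ih2 =>
    intro v xs
    simp only [BoundedFormula.realize_imp, ih1, ih2]
    exact Ultrafilter.eventually_imp.symm
  | all φ ih =>
    intro v xs
    simp only [BoundedFormula.realize_all]
    rw [hs.forall]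
    have h1 : ∀ g : ℕ → G, φ.Realize (π ∘ v) (Fin.snoc (π ∘ xs) (π g)) ↔
        ∀ᶠ n in U, φ.Realize (fun a => v a n) (Fin.snoc (fun i => xs i n) (g n)) := by
      intro g
      rw [← Fin.comp_snoc, ih]
      refine eventually_congr (Eventually.of_forall fun n => ?_)
      have : (fun i => (Fin.snoc xs g : Fin _ → ℕ → G) i n) =
          Fin.snoc (fun i => xs i n) (g n) := by
        have := Fin.comp_snoc (fun g : ℕ → G => g n) xs g
        exact this
      rw [this]
    simp only [h1]
    constructor
    · intro h
      classical
      have hc : ∀ n, ∃ a : G, φ.Realize (fun a => v a n) (Fin.snoc (fun i => xs i n) a) →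
          ∀ b : G, φ.Realize (fun a => v a n) (Fin.snoc (fun i => xs i n) b) := by
        intro n
        by_cases hb : ∀ b : G, φ.Realize (fun a => v a n) (Fin.snoc (fun i => xs i n) b)
        · exact ⟨1, fun _ => hb⟩
        · push Not at hb
          obtain ⟨b, hb⟩ := hb
          exact ⟨b, fun h => (hb h).elim⟩
      choose g hg using hc
      filter_upwards [h g] with n hn using hg n hn
    · intro h g
      filter_upwards [h] with n hn using hn _

theorem aut_realize {H : Type} [Group H] (Θ : H ≃* H) {α : Type}
    (φ : grpLang.Formula α) (v : α → H) : φ.Realize (Θ ∘ v) ↔ φ.Realize v := by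
  let e : grpLang.Equiv H H :=
    { toEquiv := Θ.toEquiv
      map_fun' := by
        intro n f x
        cases f
        · exact map_one Θ
        · exact map_inv Θ _
        · exact map_mul Θ _ _
      map_rel' := fun r => r.elim }
  exact StrongHomClass.realize_formula e φ

theorem sameType_of_ultra {G H : Type} [Group G] [Group H] (U : Ultrafilter ℕ)
    (π : (ℕ → G) →* H)
    (hs : Function.Surjective π) (he : ∀ g g', π g = π g' ↔ ∀ᶠ n in U, g n = g' n)
    {k : ℕ} (u v : Fin k → G) (Θ : H ≃* H)
    (h : ∀ i, Θ (π (fun _ => u i)) = π (fun _ => v i)) : SameType u v := by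
  intro φ
  have key : ∀ w : Fin k → G, φ.Realize (π ∘ fun i _ => w i) ↔ φ.Realize w := by
    intro w
    have := los U π hs he φ (fun i _ => w i) default
    rw [Unique.eq_default (π ∘ (default : Fin 0 → ℕ → G))] at this
    refine this.trans ?_
    have h2 : ∀ n, (fun i : Fin 0 => (default : Fin 0 → ℕ → G) i n) = default :=
      fun n => Unique.eq_default _
    simp only [h2]
    exact eventually_const
  rw [← key u, ← key v, ← aut_realize Θ]
  have : (Θ ∘ π ∘ fun i _ => u i) = π ∘ fun i _ => v i := funext h
  rw [this]

end Pool.Agent.H24.GrpFO
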