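import Mathlib

set_option autoImplicit false
open Filter

namespace Pool.Agent.H24.UltraZ

noncomputable abbrev U : Ultrafilter ℕ := hyperfilter ℕ

abbrev A : Type := Germ (U : Filter ℕ) ℤ

theorem tf (n : ℕ) (hn : n ≠ 0) (a : A) (h : (n : A) * a = 0) : a = 0 := by
  induction a using Germ.inductionOn with
  | h f =>
    have h1 : ((fun i => (n : ℤ) * f i : ℕ → ℤ) : A) = ((fun _ => 0 : ℕ → ℤ) : A) := h
    rw [Germ.coe_eq] at h1
    change (f : A) = ((fun _ => 0 : ℕ → ℤ) : A)
    rw [Germ.coe_eq]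
    filter_upwards [h1] with i hi
    rcases mul_eq_zero.1 hi with h | h
    · exact absurd (by exact_mod_cast h) hn
    · exact h

/-- infinitely divisible elements -/
def D : Ideal A where
  carrier := {a | ∀ n : ℕ, n ≠ 0 → (n : A) ∣ a}
  add_mem' := fun ha hb n hn => dvd_add (ha n hn) (hb n hn)
  zero_mem' := fun n _ => dvd_zero _
  smul_mem' := fun c x hx n hn => Dvd.dvd.mul_left (hx n hn) c

theorem D_div (n : ℕ) (hn : n ≠ 0) (a : A) (ha : a ∈ D) : ∃ b ∈ D, (n : A) * b = a := by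
  obtain ⟨b, hb⟩ := ha n hn
  refine ⟨b, fun m hm => ?_, hb.symm⟩
  obtain ⟨c, hc⟩ := ha (n * m) (mul_ne_zero hn hm)
  refine ⟨c, ?_⟩
  have := tf n hn (b - m * c) (by
    rw [mul_sub, ← hb, hc]; push_cast; ring)
  exact sub_eq_zero.1 this

theorem exists_retr : ∃ π : A →+ A, (∀ z, π z ∈ D) ∧ ∀ z ∈ D, π z = z := by
  have hdiv : ∀ (n : ℤ), n ≠ 0 → Function.Surjective (fun a : D => n • a) := by
    intro n hn a
    obtain ⟨b, hb, hab⟩ := D_div n.natAbs (by simpa using hn) a a.2
    rcases Int.natAbs_eq n with h | h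
    · refine ⟨⟨b, hb⟩, Subtype.ext ?_⟩
      change n • b = a
      rw [h, natCast_zsmul, nsmul_eq_mul, hab]
    · refine ⟨⟨-b, D.neg_mem hb⟩, Subtype.ext ?_⟩
      change n • (-b) = a
      rw [h, neg_smul, smul_neg, neg_neg, natCast_zsmul, nsmul_eq_mul, hab]
  letI : DivisibleBy D ℤ := divisibleByOfSMulRightSurj D ℤ (fun {n} hn => hdiv n hn)
  obtain ⟨g, hg⟩ := (Module.Baer.of_divisible D).extension_property_addMonoidHom
    (D.subtype.toAddMonoidHom) Subtype.val_injective (AddMonoidHom.id D)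
  refine ⟨D.subtype.toAddMonoidHom.comp g, fun z => (g z).2, fun z hz => ?_⟩
  have := DFunLike.congr_fun hg ⟨z, hz⟩
  exact congrArg Subtype.val this

theorem exists_lam : ∃ l m c : A, l * m - 1 ∈ D ∧ l = 2 + 5 * c := by
  have h : ∀ N : ℕ, ∃ l m c : ℤ, ((N.factorial : ℕ) : ℤ) ∣ l * m - 1 ∧ l = 2 + 5 * c := by
    intro N
    obtain ⟨p, hpN, hp, hm⟩ := Nat.forall_exists_prime_gt_and_modEq N (q := 5) (a := 2)
      (by norm_num) (by norm_num)
    have hc : Nat.Coprime p N.factorial := by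
      rw [Nat.Prime.coprime_iff_not_dvd hp, hp.dvd_factorial]; omega
    obtain ⟨a, b, hab⟩ := Nat.isCoprime_iff_coprime.2 hc
    refine ⟨p, a, (p : ℤ) / 5, ⟨-b, by linear_combination hab⟩, ?_⟩
    unfold Nat.ModEq at hm
    omega
  choose l m c h1 h2 using h
  refine ⟨(l : A), (m : A), (c : A), fun n hn => ?_, ?_⟩
  · refine ⟨((fun i => (l i * m i - 1) / n : ℕ → ℤ) : A), ?_⟩
    change ((fun i => l i * m i - 1 : ℕ → ℤ) : A) =
      ((fun i => (n : ℤ) * ((l i * m i - 1) / n) : ℕ → ℤ) : A)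
    rw [Germ.coe_eq]
    have hU : ∀ᶠ i in (U : Filter ℕ), n ≤ i :=
      Nat.hyperfilter_le_atTop (eventually_ge_atTop n)
    filter_upwards [hU] with i hi
    refine (Int.mul_ediv_cancel' ?_).symm
    exact (Int.natCast_dvd_natCast.2 (Nat.dvd_factorial (Nat.pos_of_ne_zero hn) hi)).trans (h1 i)
  · change (l : A) = ((fun i => 2 + 5 * c i : ℕ → ℤ) : A)
    exact congrArg _ (funext h2)

theorem exists_theta : ∃ (θ : A ≃+ A) (c : A), θ 1 = 2 + 5 * c := by
  obtain ⟨π, hπ, hD⟩ := exists_retr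
  obtain ⟨l, m, c, hlm, hl⟩ := exists_lam
  have key : ∀ l m : A, l * m - 1 ∈ D → ∀ z,
      m * (l * z - π (l * z) + π z) - π (m * (l * z - π (l * z) + π z))
        + π (l * z - π (l * z) + π z) = z := by
    intro l m hlm z
    have h1 : π (l * z - π (l * z) + π z) = π z := by
      rw [map_add, map_sub, hD _ (hπ _), hD _ (hπ _)]; abel
    have h2 : m * (l * z - π (l * z) + π z) - z ∈ D := by
      have : m * (l * z - π (l * z) + π z) - z =
          z * (l * m - 1) + m * (π z - π (l * z)) := by ring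
      rw [this]
      exact D.add_mem (D.mul_mem_left _ hlm) (D.mul_mem_left _ (D.sub_mem (hπ _) (hπ _)))
    have h3 := hD _ h2
    rw [map_sub] at h3
    rw [h1]
    linear_combination -h3
  obtain ⟨d, hd⟩ : (5 : A) ∣ π 1 - π (l * 1) := by
    have := (D.sub_mem (hπ 1) (hπ (l * 1))) 5 (by norm_num)
    exact_mod_cast this
  refine ⟨{ toFun := fun z => l * z - π (l * z) + π z
            invFun := fun z => m * z - π (m * z) + π z
            left_inv := key l m hlm
            right_inv := key m l (by rwa [mul_comm])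
            map_add' := fun x y => by
              simp only [mul_add, map_add]; abel }, c + d, ?_⟩
  change l * 1 - π (l * 1) + π 1 = _
  linear_combination hl + hd

end Pool.Agent.H24.UltraZ
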