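import Mathlib
import Pool.Agent.H24.GrpFO
import Pool.Agent.H24.UltraZ

set_option autoImplicit false
open Filter Multiplicative Matrix

namespace Pool.Agent.H24.Cryst

abbrev M4 : Type := Matrix (Fin 4) (Fin 4) ℤ

def S : M4 := !![0,0,0,-1; 1,0,0,-1; 0,1,0,-1; 0,0,1,-1]
def T : M4 := !![1,0,-1,0; 0,0,-1,1; 0,1,-1,0; 0,0,-1,0]

def El (p : Fin 5 × Fin 4) : M4 := S ^ p.1.val * T ^ p.2.val

theorem El_mul : ∀ p q : Fin 5 × Fin 4, ∃ r, El p * El q = El r := by decide +kernel
theorem El_inv : ∀ p : Fin 5 × Fin 4, ∃ r, El p * El r = 1 := by decide +kernel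
theorem El_pow : ∀ p : Fin 5 × Fin 4, El p ^ 20 = 1 := by decide +kernel

def G0 : Subgroup (GL (Fin 4) ℤ) where
  carrier := {g | ∃ p, (g : M4) = El p}
  mul_mem' := by
    rintro a b ⟨p, hp⟩ ⟨q, hq⟩
    obtain ⟨r, hr⟩ := El_mul p q
    exact ⟨r, by rw [Units.val_mul, hp, hq, hr]⟩
  one_mem' := ⟨(0, 0), by decide +kernel⟩
  inv_mem' := by
    rintro a ⟨p, hp⟩
    obtain ⟨r, hr⟩ := El_inv p
    refine ⟨r, ?_⟩
    rw [← hp] at hr
    exact Units.inv_eq_of_mul_eq_one_right hr

instance : Finite G0 := by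
  refine Finite.of_injective (fun g : G0 => g.2.choose) ?_
  intro g h hgh
  apply Subtype.ext
  apply Units.ext
  rw [g.2.choose_spec, h.2.choose_spec]
  exact congrArg El hgh

def sG : G0 := ⟨⟨S, S ^ 4, by decide +kernel, by decide +kernel⟩, (1, 0), by decide +kernel⟩
def tG : G0 := ⟨⟨T, T ^ 3, by decide +kernel, by decide +kernel⟩, (0, 1), by decide +kernel⟩

section act
variable {A : Type} [AddCommGroup A]

def mv (M : M4) (x : Fin 4 → A) : Fin 4 → A := fun i => ∑ j, M i j • x j

theorem mv_one (x : Fin 4 → A) : mv 1 x = x := by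
  funext i
  simp [mv, Matrix.one_apply]

theorem mv_mul (M N : M4) (x : Fin 4 → A) : mv (M * N) x = mv M (mv N x) := by
  funext i
  simp only [mv, Matrix.mul_apply, Finset.sum_smul, Finset.smul_sum, smul_smul]
  exact Finset.sum_comm

theorem mv_add (M : M4) (x y : Fin 4 → A) : mv M (x + y) = mv M x + mv M y := by
  funext i
  simp [mv, Finset.sum_add_distrib]

theorem mv_map {B : Type} [AddCommGroup B] (θ : A →+ B) (M : M4) (x : Fin 4 → A) :
    θ ∘ mv M x = mv M (θ ∘ x) := by
  funext i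
  simp [mv, map_sum]

def mat (g : G0) : M4 := ((g : GL (Fin 4) ℤ) : M4)

theorem mat_mul (g h : G0) : mat (g * h) = mat g * mat h := rfl
theorem mat_one : mat 1 = 1 := rfl

variable (A) in
def phi : G0 →* MulAut (Multiplicative (Fin 4 → A)) :=
  MonoidHom.mk' (fun g =>
    { toFun := fun x => ofAdd (mv (mat g) x.toAdd)
      invFun := fun x => ofAdd (mv (mat g⁻¹) x.toAdd)
      left_inv := fun x => by
        simp only [toAdd_ofAdd]
        rw [← mv_mul, ← mat_mul, inv_mul_cancel, mat_one, mv_one]; rfl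
      right_inv := fun x => by
        simp only [toAdd_ofAdd]
        rw [← mv_mul, ← mat_mul, mul_inv_cancel, mat_one, mv_one]; rfl
      map_mul' := fun x y => by
        rw [toAdd_mul, mv_add]; rfl })
    (fun g h => by
      ext1 x
      change ofAdd (mv (mat (g * h)) x.toAdd) = ofAdd (mv (mat g) (mv (mat h) x.toAdd))
      rw [mat_mul, mv_mul])

theorem phi_apply (g : G0) (x : Multiplicative (Fin 4 → A)) :
    phi A g x = ofAdd (mv (mat g) x.toAdd) := rfl

variable (A) in
abbrev H : Type := Multiplicative (Fin 4 → A) ⋊[phi A] G0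

def lift (θ : A ≃+ A) : H A ≃* H A where
  toFun := fun x => ⟨ofAdd (θ ∘ x.left.toAdd), x.right⟩
  invFun := fun x => ⟨ofAdd (θ.symm ∘ x.left.toAdd), x.right⟩
  left_inv := fun x => by
    ext1
    · change ofAdd (θ.symm ∘ θ ∘ x.left.toAdd) = x.left
      have : θ.symm ∘ θ ∘ x.left.toAdd = x.left.toAdd := by funext i; simp
      rw [this]; rfl
    · rfl
  right_inv := fun x => by
    ext1
    · change ofAdd (θ ∘ θ.symm ∘ x.left.toAdd) = x.left
      have : θ ∘ θ.symm ∘ x.left.toAdd = x.left.toAdd := by funext i; simp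
      rw [this]; rfl
    · rfl
  map_mul' := fun x y => by
    ext1
    · change ofAdd (θ ∘ (x.left.toAdd + mv (mat x.right) y.left.toAdd)) =
        ofAdd (θ ∘ x.left.toAdd + mv (mat x.right) (θ ∘ y.left.toAdd))
      have := mv_map θ.toAddMonoidHom (mat x.right) y.left.toAdd
      change θ ∘ _ = mv _ (θ ∘ _) at this
      rw [← this]
      congr 1
      funext i
      simp
    · rfl

end act

open UltraZ

theorem ex_lim (g : ℕ → G0) : ∃ f, ∀ᶠ n in (U : Filter ℕ), g n = f :=
  Ultrafilter.eventually_exists_iff.1 (Eventually.of_forall fun n => ⟨g n, rfl⟩)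

noncomputable def lim (g : ℕ → G0) : G0 := (ex_lim g).choose

theorem lim_spec (g : ℕ → G0) : ∀ᶠ n in (U : Filter ℕ), g n = lim g := (ex_lim g).choose_spec

theorem lim_eq {g : ℕ → G0} {f : G0} (h : ∀ᶠ n in (U : Filter ℕ), g n = f) : lim g = f := by
  obtain ⟨n, h1, h2⟩ := ((lim_spec g).and h).exists
  rw [← h1, h2]

noncomputable def piF (g : ℕ → H ℤ) : H A :=
  ⟨ofAdd (fun i => ((fun n => (g n).left.toAdd i : ℕ → ℤ) : A)), lim (fun n => (g n).right)⟩

noncomputable def pi : (ℕ → H ℤ) →* H A :=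
  MonoidHom.mk' piF (fun g h => by
    ext1
    · change ofAdd (fun i => ((fun n => ((g n).left.toAdd +
          mv (mat (g n).right) (h n).left.toAdd) i : ℕ → ℤ) : A)) =
        ofAdd ((fun i => ((fun n => (g n).left.toAdd i : ℕ → ℤ) : A)) +
          mv (mat (lim fun n => (g n).right))
            (fun i => ((fun n => (h n).left.toAdd i : ℕ → ℤ) : A)))
      have := mv_map (Germ.coeRingHom (U : Filter ℕ) (R := ℤ)).toAddMonoidHom
        (mat (lim fun n => (g n).right)) (fun i n => (h n).left.toAdd i)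
      change _ = mv _ (fun i => ((fun n => (h n).left.toAdd i : ℕ → ℤ) : A)) at this
      rw [← this]
      congr 1
      funext i
      change _ = ((fun n => (g n).left.toAdd i + mv (mat (lim fun n => (g n).right))
        (fun i n => (h n).left.toAdd i) i n : ℕ → ℤ) : A)
      rw [Germ.coe_eq]
      filter_upwards [lim_spec (fun n => (g n).right)] with n hn
      rw [← hn]
      simp [mv]
    · change lim (fun n => (g n).right * (h n).right) = lim _ * lim _
      apply lim_eq
      filter_upwards [lim_spec (fun n => (g n).right), lim_spec (fun n => (h n).right)]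
        with n h1 h2
      rw [h1, h2])

theorem pi_surj : Function.Surjective pi := by
  rintro ⟨a, f⟩
  have : ∀ i, ∃ s : ℕ → ℤ, (s : A) = a.toAdd i := fun i =>
    Germ.inductionOn (a.toAdd i) (fun s => ⟨s, rfl⟩)
  choose s hs using this
  refine ⟨fun n => ⟨ofAdd (fun i => s i n), f⟩, ?_⟩
  ext1
  · change ofAdd (fun i => ((s i : ℕ → ℤ) : A)) = a
    rw [funext hs]; rfl
  · exact lim_eq (Eventually.of_forall fun n => rfl)

theorem pi_eq (g g' : ℕ → H ℤ) : pi g = pi g' ↔ ∀ᶠ n in (U : Filter ℕ), g n = g' n := by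
  constructor
  · intro h
    have h1 : ∀ i, ∀ᶠ n in (U : Filter ℕ), (g n).left.toAdd i = (g' n).left.toAdd i := by
      intro i
      have := congrFun (congrArg (fun x : H A => x.left.toAdd) h) i
      exact Germ.coe_eq.1 this
    have h2 : lim (fun n => (g n).right) = lim (fun n => (g' n).right) :=
      congrArg SemidirectProduct.right h
    filter_upwards [eventually_all.2 h1, lim_spec (fun n => (g n).right),
      lim_spec (fun n => (g' n).right)] with n a b c
    ext1
    · exact toAdd.injective (funext a)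
    · rw [b, c, h2]
  · intro h
    ext1
    · change ofAdd _ = ofAdd _
      congr 1
      funext i
      rw [Germ.coe_eq]
      filter_upwards [h] with n hn
      rw [hn]
    · apply lim_eq
      filter_upwards [h, lim_spec (fun n => (g' n).right)] with n h1 h2
      rw [h1, h2]; rfl

def g1 : H ℤ := ⟨ofAdd ![1, 0, 0, 0], sG⟩
def g2 : H ℤ := ⟨ofAdd ![2, 0, 0, 0], sG⟩

theorem sameType : GrpFO.SameType ![g1] ![g2] := by
  obtain ⟨θ, c, hθ⟩ := exists_theta
  let s : H A := SemidirectProduct.inl (ofAdd ![-(4 * c), -(3 * c), -(2 * c), -c])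
  refine GrpFO.sameType_of_ultra U pi pi_surj pi_eq _ _ ((lift θ).trans (MulAut.conj s)) ?_
  intro i
  obtain rfl : i = 0 := Subsingleton.elim _ _
  have e1 : pi (fun _ => g1) = ⟨ofAdd ![1, 0, 0, 0], sG⟩ := by
    ext1
    · change ofAdd _ = ofAdd _
      congr 1
      funext i
      fin_cases i <;> rfl
    · exact lim_eq (Eventually.of_forall fun n => rfl)
  have e2 : pi (fun _ => g2) = ⟨ofAdd ![2, 0, 0, 0], sG⟩ := by
    ext1
    · change ofAdd _ = ofAdd _
      congr 1
      funext i
      fin_cases i <;> rfl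
    · exact lim_eq (Eventually.of_forall fun n => rfl)
  change s * lift θ (pi (fun _ => g1)) * s⁻¹ = pi (fun _ => g2)
  rw [e1, e2, mul_inv_eq_iff_eq_mul]
  ext1
  · change ofAdd (![-(4 * c), -(3 * c), -(2 * c), -c] + mv 1 (θ ∘ ![1, 0, 0, 0])) =
      ofAdd (![2, 0, 0, 0] + mv S ![-(4 * c), -(3 * c), -(2 * c), -c])
    rw [mv_one]
    congr 1
    funext i
    fin_cases i <;> simp [mv, S, Fin.sum_univ_four, hθ] <;> ring
  · change 1 * sG = sG * 1
    simp

theorem irred (W : Submodule ℚ (Fin 4 → ℚ))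
    (hW : ∀ g ∈ G0, ∀ w ∈ W, ((g : M4).map (Int.cast : ℤ → ℚ)) *ᵥ w ∈ W) :
    W = ⊥ ∨ W = ⊤ := by
  have hS : ∀ w ∈ W, ![-w 3, w 0 - w 3, w 1 - w 3, w 2 - w 3] ∈ W := by
    intro w hw
    have := hW _ sG.2 w hw
    convert this using 1
    funext i
    fin_cases i <;> simp [sG, S, mulVec, dotProduct, Fin.sum_univ_four] <;> ring
  have hT : ∀ w ∈ W, ![w 0 - w 2, w 3 - w 2, w 1 - w 2, - w 2] ∈ W := by
    intro w hw
    have := hW _ tG.2 w hw
    convert this using 1
    funext i
    fin_cases i <;> simp [tG, T, mulVec, dotProduct, Fin.sum_univ_four] <;> ring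
  have hP : ∀ w ∈ W, (4 * w 0 - w 1 - w 2 - w 3) • (![1, 0, 0, 0] : Fin 4 → ℚ) ∈ W := by
    intro w hw
    have h1 := hT _ hw
    have h2 := hT _ h1
    have h3 := hT _ h2
    convert W.add_mem (W.add_mem hw h1) (W.add_mem h2 h3) using 1
    funext i
    fin_cases i <;> simp [vecHead, vecTail] <;> ring
  by_cases h0 : (![1, 0, 0, 0] : Fin 4 → ℚ) ∈ W
  · right
    have h1 := hS _ h0
    have h2 := hS _ h1
    have h3 := hS _ h2
    rw [eq_top_iff]
    intro w _
    convert W.add_mem (W.add_mem (W.smul_mem (w 0) h0) (W.smul_mem (w 1) h1))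
      (W.add_mem (W.smul_mem (w 2) h2) (W.smul_mem (w 3) h3)) using 1
    funext i
    fin_cases i <;> simp [vecHead, vecTail]
  · left
    have hz : ∀ w ∈ W, 4 * w 0 - w 1 - w 2 - w 3 = 0 := by
      intro w hw
      by_contra hne
      exact h0 ((W.smul_mem_iff hne).1 (hP w hw))
    rw [eq_bot_iff]
    intro w hw
    have a0 := hz _ hw
    have a1 := hz _ (hS _ hw)
    have a2 := hz _ (hS _ (hS _ hw))
    have a3 := hz _ (hS _ (hS _ (hS _ hw)))
    simp at a1 a2 a3
    rw [Submodule.mem_bot]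
    funext i
    fin_cases i <;> simp <;> linarith

end Pool.Agent.H24.Cryst
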