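import Mathlib
import Pool.Agent.H24.Cryst

set_option autoImplicit false
open Filter Multiplicative Matrix

namespace Pool.Agent.H24.Cryst

theorem mv_inj {M : M4} (h : ∀ x : Fin 4 → ℤ, mv M x = x) : M = 1 := by
  ext i j
  have := congrFun (h (Pi.single j 1)) i
  simp only [mv, Pi.single_apply, smul_eq_mul, mul_ite, mul_one, mul_zero,
    Finset.sum_ite_eq', Finset.mem_univ, if_true] at this
  rw [this, Matrix.one_apply]

theorem G0_pow (g : G0) : g ^ 20 = 1 := by
  obtain ⟨p, hp⟩ := g.2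
  apply Subtype.ext
  apply Units.ext
  change ((g : GL (Fin 4) ℤ) : M4) ^ 20 = 1
  rw [hp, El_pow]

theorem comm_of_right {x y : H ℤ} (hx : x.right = 1) (hy : y.right = 1) : x * y = y * x := by
  ext1
  · simp only [SemidirectProduct.mul_left, hx, hy, map_one, MulAut.one_apply]
    exact mul_comm _ _
  · simp [hx, hy]

theorem mv_smul (M : M4) (m : ℤ) (x : Fin 4 → ℤ) : mv M (m • x) = m • mv M x := by
  funext i
  simp only [mv, Pi.smul_apply, smul_eq_mul, Finset.mul_sum]
  exact Finset.sum_congr rfl fun j _ => by ring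

theorem aut_right (α : H ℤ ≃* H ℤ) (x : H ℤ) (hx : x.right = 1) : (α x).right = 1 := by
  have h : ∀ s : Fin 4 → ℤ, mv (mat (α x).right) s = s := by
    intro s
    let y : H ℤ := SemidirectProduct.inl (ofAdd s)
    have h1 : ((α.symm y) ^ 20).right = 1 := by
      have := map_pow (SemidirectProduct.rightHom (φ := phi ℤ)) (α.symm y) 20
      rw [G0_pow] at this
      exact this
    have h2 := congrArg α (comm_of_right hx h1)
    simp only [map_mul, map_pow, MulEquiv.apply_symm_apply] at h2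
    have h3 : y ^ 20 = SemidirectProduct.inl (ofAdd ((20 : ℤ) • s)) := by
      rw [← map_pow]
      congr 1
    rw [h3] at h2
    have h4 := congrArg (fun z : H ℤ => z.left.toAdd) h2
    simp only [SemidirectProduct.mul_left, SemidirectProduct.left_inl,
      SemidirectProduct.right_inl, map_one, MulAut.one_apply, toAdd_mul, phi_apply,
      toAdd_ofAdd, mv_smul] at h4
    rw [add_comm, add_left_inj] at h4
    exact smul_right_injective _ (by norm_num : (20 : ℤ) ≠ 0) h4
  apply Subtype.ext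
  apply Units.ext
  exact mv_inj h

def uu (α : H ℤ ≃* H ℤ) : (Fin 4 → ℤ) →+ (Fin 4 → ℤ) :=
  AddMonoidHom.mk' (fun t => (α (SemidirectProduct.inl (ofAdd t))).left.toAdd) (fun s t => by
    rw [ofAdd_add, map_mul, map_mul]
    simp only [SemidirectProduct.mul_left, toAdd_mul]
    rw [aut_right α _ rfl]
    simp)

theorem uu_spec (α : H ℤ ≃* H ℤ) (t : Fin 4 → ℤ) :
    α (SemidirectProduct.inl (ofAdd t)) = SemidirectProduct.inl (ofAdd (uu α t)) := by
  ext1
  · rfl
  · exact aut_right α _ rfl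

theorem uu_surj (α : H ℤ ≃* H ℤ) (t : Fin 4 → ℤ) : uu α (uu α.symm t) = t := by
  have := uu_spec α (uu α.symm t)
  rw [← uu_spec, MulEquiv.apply_symm_apply] at this
  exact (ofAdd.injective (SemidirectProduct.inl_injective this)).symm

theorem conj_inl (g : H ℤ) (t : Fin 4 → ℤ) :
    g * SemidirectProduct.inl (ofAdd t) =
      SemidirectProduct.inl (ofAdd (mv (mat g.right) t)) * g := by
  ext1
  · simp only [SemidirectProduct.mul_left, SemidirectProduct.left_inl,
      SemidirectProduct.right_inl, map_one, MulAut.one_apply, phi_apply, toAdd_ofAdd]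
    exact mul_comm _ _
  · simp

theorem uu_mv (α : H ℤ ≃* H ℤ) (g : H ℤ) (t : Fin 4 → ℤ) :
    uu α (mv (mat g.right) t) = mv (mat (α g).right) (uu α t) := by
  have h := congrArg α (conj_inl g t)
  rw [map_mul, map_mul, uu_spec, uu_spec, conj_inl, mul_left_inj] at h
  exact (ofAdd.injective (SemidirectProduct.inl_injective h)).symm

theorem colsum : ∀ p : Fin 5 × Fin 4, ∀ j, (∑ i, El p i j) % 5 = 1 := by decide +kernel

theorem sel : ∀ p : Fin 5 × Fin 4, El p * S = S * S * El p → p.2 = 1 := by decide +kernel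

theorem eps_mv (p : Fin 5 × Fin 4) (x : Fin 4 → ℤ) :
    (5 : ℤ) ∣ ∑ i, mv (El p) x i - ∑ i, x i := by
  simp only [mv, smul_eq_mul]
  rw [Finset.sum_comm, ← Finset.sum_sub_distrib]
  refine Finset.dvd_sum fun j _ => ?_
  rw [← Finset.sum_mul]
  have := colsum p j
  have h : (5 : ℤ) ∣ (∑ i, El p i j) - 1 := by omega
  have := h.mul_right (x j)
  rwa [sub_mul, one_mul] at this

theorem fixed (i : Fin 5) (w : Fin 4 → ℤ) (h : mv (El (i, 1)) w = w) :
    ∃ (m : ℤ) (z : Fin 4 → ℤ), w = m • z ∧ (∑ i, z i) % 5 = 1 := by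
  have h0 := congrFun h 0
  have h1 := congrFun h 1
  have h2 := congrFun h 2
  have h3 := congrFun h 3
  fin_cases i
  · have e : El (0, 1) = !![1,0,-1,0; 0,0,-1,1; 0,1,-1,0; 0,0,-1,0] := by decide +kernel
    simp [e, mv, Fin.sum_univ_four] at h0 h1 h2 h3
    refine ⟨w 0, ![1, 0, 0, 0], ?_, by decide⟩
    funext i
    fin_cases i <;> simp <;> omega
  · have e : El (1, 1) = !![0,0,1,0; 1,0,0,0; 0,0,0,1; 0,1,0,0] := by decide +kernel
    simp [e, mv, Fin.sum_univ_four] at h0 h1 h2 h3
    refine ⟨-w 0, ![-1, -1, -1, -1], ?_, by decide⟩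
    funext i
    fin_cases i <;> simp <;> omega
  · have e : El (2, 1) = !![0,-1,0,0; 0,-1,1,0; 1,-1,0,0; 0,-1,0,1] := by decide +kernel
    simp [e, mv, Fin.sum_univ_four] at h0 h1 h2 h3
    refine ⟨w 3, ![0, 0, 0, 1], ?_, by decide⟩
    funext i
    fin_cases i <;> simp <;> omega
  · have e : El (3, 1) = !![0,1,0,-1; 0,0,0,-1; 0,0,1,-1; 1,0,0,-1] := by decide +kernel
    simp [e, mv, Fin.sum_univ_four] at h0 h1 h2 h3
    refine ⟨w 2, ![0, 0, 1, 0], ?_, by decide⟩
    funext i
    fin_cases i <;> simp <;> omega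
  · have e : El (4, 1) = !![-1,0,0,1; -1,1,0,0; -1,0,0,0; -1,0,1,0] := by decide +kernel
    simp [e, mv, Fin.sum_univ_four] at h0 h1 h2 h3
    refine ⟨w 1, ![0, 1, 0, 0], ?_, by decide⟩
    funext i
    fin_cases i <;> simp <;> omega

theorem not_conj (α : H ℤ ≃* H ℤ) (hα : α g1 = g2) : False := by
  set w := uu α ![1, 0, 0, 0] with hw
  have hS : ∀ t, uu α (mv S t) = mv S (uu α t) := by
    intro t
    have := uu_mv α g1 t
    rw [hα] at this
    exact this
  let h : H ℤ := SemidirectProduct.inr tG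
  let k : H ℤ := SemidirectProduct.inr sG
  obtain ⟨p, hp⟩ := (α h).right.2
  have hp' : mat (α h).right = El p := hp
  have hk : α k = ⟨ofAdd (![2, 0, 0, 0] - w), sG⟩ := by
    have e : g1 = SemidirectProduct.inl (ofAdd ![1, 0, 0, 0]) * k := by
      ext1
      · simp [g1, k]
      · simp [g1, k]
    rw [e, map_mul, uu_spec, ← eq_inv_mul_iff_mul_eq, ← map_inv] at hα
    rw [hα]
    ext1
    · simp only [SemidirectProduct.mul_left, SemidirectProduct.left_inl,
        SemidirectProduct.right_inl, map_one, MulAut.one_apply, g2]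
      rw [← ofAdd_neg, ← ofAdd_add, ← hw]
      congr 1
      abel
    · simp [g2]
  have hrel : h * k = k * k * h := by
    simp only [h, k, ← map_mul]
    congr 1
    apply Subtype.ext
    apply Units.ext
    change T * S = S * S * T
    decide +kernel
  have hrel2 := congrArg α hrel
  simp only [map_mul, hk] at hrel2
  have r1 : El p * S = S * S * El p := by
    have := congrArg (fun z : H ℤ => mat z.right) hrel2
    simp only [SemidirectProduct.mul_right, mat_mul, hp'] at this
    exact this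
  have r2 := congrArg (fun z : H ℤ => ∑ i, z.left.toAdd i) hrel2
  simp only [SemidirectProduct.mul_left, SemidirectProduct.mul_right, phi_apply, toAdd_mul,
    toAdd_ofAdd, hp', Pi.add_apply, Finset.sum_add_distrib, mat_mul] at r2
  have eS : mat sG = El (1, 0) := by change S = _; decide +kernel
  have eS2 : mat sG * mat sG = El (2, 0) := by change S * S = _; decide +kernel
  rw [eS2, eS] at r2
  have a1 := eps_mv p (![2, 0, 0, 0] - w)
  have a2 := eps_mv (1, 0) (![2, 0, 0, 0] - w)
  have a3 := eps_mv (2, 0) (α h).left.toAdd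
  have a4 : ∑ i, (![2, 0, 0, 0] - w : Fin 4 → ℤ) i = 2 - ∑ i, w i := by
    simp [Fin.sum_univ_four]
  have hw2 : (∑ i, w i) % 5 = 2 := by omega
  have hfix : mv (El p) w = w := by
    have := uu_mv α h ![1, 0, 0, 0]
    rw [hp'] at this
    rw [← this, hw]
    congr 1
    change mv T _ = _
    decide +kernel
  obtain ⟨i, j⟩ := p
  obtain rfl : j = 1 := sel _ r1
  obtain ⟨m, z, hz, hz1⟩ := fixed i w hfix
  have hm : ∀ t, ∃ y, uu α t = m • y := by
    intro t
    have e : t = t 0 • ![1, 0, 0, 0] + t 1 • mv S ![1, 0, 0, 0] + t 2 • mv S (mv S ![1, 0, 0, 0])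
        + t 3 • mv S (mv S (mv S ![1, 0, 0, 0])) := by
      funext i
      fin_cases i <;> simp [mv, S, Fin.sum_univ_four, vecHead, vecTail]
    refine ⟨t 0 • z + t 1 • mv S z + t 2 • mv S (mv S z) + t 3 • mv S (mv S (mv S z)), ?_⟩
    conv_lhs => rw [e]
    simp only [map_add, map_zsmul, hS, ← hw, hz, mv_smul, smul_add, smul_comm m]
  obtain ⟨y, hy⟩ := hm (uu α.symm ![1, 0, 0, 0])
  rw [uu_surj] at hy
  have hy0 : (1 : ℤ) = m * y 0 := congrFun hy 0
  have hsum : ∑ i, w i = m * ∑ i, z i := by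
    rw [hz, Finset.mul_sum]; rfl
  rcases Int.eq_one_or_neg_one_of_mul_eq_one hy0.symm with rfl | rfl <;> omega

theorem not_homog : ¬ GrpFO.Homogeneous (H ℤ) := by
  intro h
  obtain ⟨α, hα⟩ := h 1 le_rfl _ _ sameType
  exact not_conj α (hα 0)

end Pool.Agent.H24.Cryst
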