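import Mathlib

set_option autoImplicit false

namespace Pool.Agent.H24.Ctrs

open FirstOrder FirstOrder.Language Relation

/-- A conditional rule `u₁ ↓ v₁ ∧ … ∧ uₖ ↓ vₖ ⇒ l → r`. -/
structure Rule (L : FirstOrder.Language.{0, 0}) where
  conds : List (L.Term ℕ × L.Term ℕ)
  l : L.Term ℕ
  r : L.Term ℕ

variable {L L' : FirstOrder.Language.{0, 0}}

/-- Closure of a relation on terms under contexts. -/
inductive Ctx (ρ : L.Term ℕ → L.Term ℕ → Prop) : L.Term ℕ → L.Term ℕ → Prop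
  | root {a b} : ρ a b → Ctx ρ a b
  | arg {n} (f : L.Functions n) (ts : Fin n → L.Term ℕ) (i : Fin n) (u : L.Term ℕ) :
      Ctx ρ (ts i) u → Ctx ρ (.func f ts) (.func f (Function.update ts i u))

/-- The rewrite relation of level `n` of a join CTRS. -/
def lev (R : Set (Rule L)) : ℕ → L.Term ℕ → L.Term ℕ → Prop
  | 0 => fun _ _ => False
  | n + 1 => Ctx fun a b => ∃ ρ ∈ R, ∃ σ : ℕ → L.Term ℕ, a = ρ.l.subst σ ∧ b = ρ.r.subst σ ∧
      ∀ c ∈ ρ.conds, ∃ w, ReflTransGen (lev R n) (c.1.subst σ) w ∧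
        ReflTransGen (lev R n) (c.2.subst σ) w

/-- The rewrite relation of a join CTRS. -/
def Step (R : Set (Rule L)) (a b : L.Term ℕ) : Prop := ∃ n, lev R n a b

/-- Unique normal forms: convertible normal forms are identical. -/
def UN (R : Set (Rule L)) : Prop :=
  ∀ s t, (∀ u, ¬ Step R s u) → (∀ u, ¬ Step R t u) → EqvGen (Step R) s t → s = t

/-- Left sides are not variables, and right sides and conditions have no extra variables. -/
def Valid (R : Set (Rule L)) : Prop :=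
  ∀ ρ ∈ R, (∀ x, ρ.l ≠ .var x) ∧ ρ.r.varFinset ⊆ ρ.l.varFinset ∧
    ∀ c ∈ ρ.conds, c.1.varFinset ⊆ ρ.l.varFinset ∧ c.2.varFinset ⊆ ρ.l.varFinset

def Rule.map (φ : L →ᴸ L') (ρ : Rule L) : Rule L' :=
  ⟨ρ.conds.map fun c => (φ.onTerm c.1, φ.onTerm c.2), φ.onTerm ρ.l, φ.onTerm ρ.r⟩

/-- The disjoint union of two systems, over the sum of the signatures. -/
def union (R : Set (Rule L)) (S : Set (Rule L')) : Set (Rule (L.sum L')) :=
  Rule.map LHom.sumInl '' R ∪ Rule.map LHom.sumInr '' S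

theorem un_of (R : Set (Rule L)) (ι : L.Term ℕ → L.Term ℕ) (h1 : ∀ a b, Step R a b → ι a = ι b)
    (h2 : ∀ a, (∀ u, ¬ Step R a u) → ι a = a) : UN R := fun s t hs ht h => by
  rw [← h2 s hs, ← h2 t ht]
  clear hs ht
  induction h with
  | rel a b h => exact h1 a b h
  | refl => rfl
  | symm _ _ _ ih => exact ih.symm
  | trans _ _ _ _ _ a b => exact a.trans b

theorem Step.arg {R : Set (Rule L)} {n} (f : L.Functions n) (ts : Fin n → L.Term ℕ) (i : Fin n)
    {u : L.Term ℕ} (h : Step R (ts i) u) : Step R (.func f ts) (.func f (Function.update ts i u)) := by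
  obtain ⟨_ | k, h⟩ := h
  exacts [h.elim, ⟨k + 1, .arg f ts i u h⟩]

inductive F1 : ℕ → Type
  | k (i : Fin 7) : F1 0
  | f : F1 1

inductive F2 : ℕ → Type
  | m : F2 3

def L1 : FirstOrder.Language.{0, 0} := ⟨F1, fun _ => Empty⟩
def L2 : FirstOrder.Language.{0, 0} := ⟨F2, fun _ => Empty⟩

def k (i : Fin 7) : L1.Term ℕ := .func (F1.k i) ![]
def ff (t : L1.Term ℕ) : L1.Term ℕ := .func F1.f ![t]
def mm (a b c : L2.Term ℕ) : L2.Term ℕ := .func F2.m ![a, b, c]

/-- `0 → 2`, `0 → 3`, `1 → 3`, `1 → 4`, loops at `2, 3, 4`, and `f x → 5`, `f x → 6` if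
`x ↓ 2` and `x ↓ 4`. -/
def R1 : List (Rule L1) :=
  [⟨[], k 0, k 2⟩, ⟨[], k 0, k 3⟩, ⟨[], k 1, k 3⟩, ⟨[], k 1, k 4⟩, ⟨[], k 2, k 2⟩, ⟨[], k 3, k 3⟩,
    ⟨[], k 4, k 4⟩, ⟨[(.var 0, k 2), (.var 0, k 4)], ff (.var 0), k 5⟩,
    ⟨[(.var 0, k 2), (.var 0, k 4)], ff (.var 0), k 6⟩]

def R2 : List (Rule L2) :=
  [⟨[], mm (.var 0) (.var 0) (.var 1), .var 1⟩, ⟨[], mm (.var 0) (.var 1) (.var 1), .var 0⟩]

@[simp] theorem k_subst (i : Fin 7) (σ : ℕ → L1.Term ℕ) : (k i).subst σ = k i :=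
  congrArg (Term.func _) (funext fun j => j.elim0)

theorem k_inj {i j : Fin 7} : k i = k j ↔ i = j :=
  ⟨fun h => by cases h; rfl, fun h => h ▸ rfl⟩

theorem mm_subst (a b c : L2.Term ℕ) (σ : ℕ → L2.Term ℕ) :
    (mm a b c).subst σ = mm (a.subst σ) (b.subst σ) (c.subst σ) :=
  congrArg (Term.func _) (funext fun j => by fin_cases j <;> rfl)

open Classical in
noncomputable def nf2 : L2.Term ℕ → L2.Term ℕ
  | .var x => .var x
  | .func .m ts => if nf2 (ts 0) = nf2 (ts 1) then nf2 (ts 2) else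
      if nf2 (ts 1) = nf2 (ts 2) then nf2 (ts 0) else mm (nf2 (ts 0)) (nf2 (ts 1)) (nf2 (ts 2))

theorem un2 : UN {ρ | ρ ∈ R2} := by
  refine un_of _ nf2 ?_ fun a h => ?_
  · rintro a b ⟨_ | n, h⟩
    · exact h.elim
    induction h with
    | root h =>
      obtain ⟨ρ, hρ, σ, rfl, rfl, -⟩ := h
      simp only [R2, Set.mem_ofPred_eq, List.mem_cons, List.not_mem_nil, or_false] at hρ
      rcases hρ with rfl | rfl <;> simp only [mm_subst] <;> simp [mm, nf2, Term.subst]
      exact fun h => h.symm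
    | arg f ts i u _ ih =>
      cases f
      have : ∀ j, nf2 (Function.update ts i u j) = nf2 (ts j) := fun j => by
        by_cases h : j = i
        · rw [h, Function.update_self, ih]
        · rw [Function.update_of_ne h]
      rw [nf2, nf2, this, this, this]
  · induction a with
    | var => rfl
    | func f ts ih =>
      cases f
      have e := fun i => ih i fun u k => h _ (k.arg F2.m ts i)
      have e2 : Term.func F2.m ts = mm (ts 0) (ts 1) (ts 2) :=
        congrArg (Term.func _) (funext fun j => by fin_cases j <;> rfl)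
      rw [nf2, e, e, e, if_neg, if_neg, e2]
      · intro c
        exact h _ ⟨1, .root ⟨_, List.mem_cons_of_mem _ List.mem_cons_self,
          fun n => if n = 0 then ts 0 else ts 1, by rw [mm_subst, e2, ← c]; rfl, rfl, by simp⟩⟩
      · intro c
        exact h _ ⟨1, .root ⟨_, List.mem_cons_self,
          fun n => if n = 0 then ts 0 else ts 2, by rw [mm_subst, e2, ← c]; rfl, rfl, by simp⟩⟩

def nf1 : L1.Term ℕ → L1.Term ℕ
  | .var x => .var x
  | .func (.k i) _ => if i < 5 then k 3 else k i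
  | .func .f ts => ff (nf1 (ts 0))

theorem pre {n : ℕ} {a b : L1.Term ℕ} (h : lev {ρ | ρ ∈ R1} n a b) :
    (b = k 2 → a = k 2 ∨ a = k 0) ∧ (b = k 4 → a = k 4 ∨ a = k 1) ∧ b ≠ k 0 ∧ b ≠ k 1 ∧
      (a = k 2 → b = k 2) ∧ (a = k 4 → b = k 4) := by
  cases n with
  | zero => exact h.elim
  | succ n =>
    cases h with
    | root h =>
      obtain ⟨ρ, hρ, σ, rfl, rfl, -⟩ := h
      simp only [R1, Set.mem_ofPred_eq, List.mem_cons, List.not_mem_nil, or_false] at hρ
      rcases hρ with rfl | rfl | rfl | rfl | rfl | rfl | rfl | rfl | rfl <;> simp [k_inj] <;>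
        refine ⟨?_, ?_⟩ <;> intro h <;> cases h
    | arg f ts i u _ =>
      cases f
      · exact i.elim0
      · refine ⟨?_, ?_, ?_, ?_, ?_, ?_⟩ <;> intro h <;> cases h

theorem un1 : UN {ρ | ρ ∈ R1} := by
  refine un_of _ nf1 ?_ fun a h => ?_
  · rintro a b ⟨_ | n, h⟩
    · exact h.elim
    have k1 : ∀ (i j : Fin 7), (∀ a b, lev {ρ | ρ ∈ R1} n a b → (b = k i → a = k i ∨ a = k j) ∧
        b ≠ k j ∧ (a = k i → b = k i)) → ∀ t, (∃ w, ReflTransGen (lev {ρ | ρ ∈ R1} n) t w ∧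
        ReflTransGen (lev {ρ | ρ ∈ R1} n) (k i) w) → t = k i ∨ t = k j := by
      rintro i j h t ⟨w, a, b⟩
      obtain rfl : w = k i := by
        clear a
        induction b with
        | refl => rfl
        | tail _ c ih => exact (h _ _ c).2.2 ih
      induction a using ReflTransGen.head_induction_on with
      | refl => exact Or.inl rfl
      | head c _ ih => exact ih.elim (h _ _ c).1 fun e => absurd e (h _ _ c).2.1
    have k2 : ∀ σ : ℕ → L1.Term ℕ, ¬ ∀ c ∈ [((.var 0, k 2) : L1.Term ℕ × L1.Term ℕ), (.var 0, k 4)],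
        ∃ w, ReflTransGen (lev {ρ | ρ ∈ R1} n) (c.1.subst σ) w ∧
          ReflTransGen (lev {ρ | ρ ∈ R1} n) (c.2.subst σ) w := fun σ h => by
      simp only [List.mem_cons, List.not_mem_nil, or_false, forall_eq_or_imp, forall_eq,
        k_subst] at h
      have a := k1 2 0 (fun _ _ c => ⟨(pre c).1, (pre c).2.2.1, (pre c).2.2.2.2.1⟩) _ h.1
      have b := k1 4 1 (fun _ _ c => ⟨(pre c).2.1, (pre c).2.2.2.1, (pre c).2.2.2.2.2⟩) _ h.2
      rcases a with a | a <;> rw [a] at b <;> simp [k_inj] at b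
    induction h with
    | root h =>
      obtain ⟨ρ, hρ, σ, rfl, rfl, h⟩ := h
      simp only [R1, Set.mem_ofPred_eq, List.mem_cons, List.not_mem_nil, or_false] at hρ
      rcases hρ with rfl | rfl | rfl | rfl | rfl | rfl | rfl | rfl | rfl <;>
        first | rfl | exact absurd h (k2 σ)
    | arg f ts i u _ ih =>
      cases f
      · exact i.elim0
      · fin_cases i
        exact congrArg ff ih
  · induction a with
    | var => rfl
    | func f ts ih =>
      cases f with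
      | f =>
        rw [nf1, ih 0 fun u k => h _ (k.arg F1.f ts 0)]
        exact congrArg (Term.func _) (funext fun j => by fin_cases j; rfl)
      | k i =>
        obtain rfl : ts = ![] := funext fun j => j.elim0
        have : ∀ i j, (⟨[], k i, k j⟩ : Rule L1) ∈ R1 → Step {ρ | ρ ∈ R1} (k i) (k j) := fun i j e =>
          ⟨1, .root ⟨_, e, .var, by simp, by simp, by simp⟩⟩
        fin_cases i
        exacts [absurd (this 0 2 (by simp [R1])) (h _), absurd (this 1 3 (by simp [R1])) (h _),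
          absurd (this 2 2 (by simp [R1])) (h _), rfl, absurd (this 4 4 (by simp [R1])) (h _), rfl, rfl]

theorem not_un : ¬ UN (union {ρ | ρ ∈ R1} {ρ | ρ ∈ R2}) := by
  intro h
  let U := union {ρ | ρ ∈ R1} {ρ | ρ ∈ R2}
  let K : Fin 7 → (L1.sum L2).Term ℕ := fun i => .func (Sum.inl (F1.k i)) ![]
  let M : Fin 7 → Fin 7 → Fin 7 → (L1.sum L2).Term ℕ := fun a b c =>
    .func (Sum.inr F2.m) ![K a, K b, K c]
  have e : ∀ i (σ : ℕ → (L1.sum L2).Term ℕ), (LHom.sumInl.onTerm (k i)).subst σ = K i := fun i σ =>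
    congrArg (Term.func _) (funext fun j => j.elim0)
  have s : ∀ i j, (⟨[], k i, k j⟩ : Rule L1) ∈ R1 → lev U 1 (K i) (K j) := fun i j h =>
    .root ⟨_, Or.inl ⟨_, h, rfl⟩, .var, (e i _).symm, (e j _).symm, by simp [Rule.map]⟩
  have a1 : lev U 1 (M 0 3 1) (M 3 3 1) := by
    have := Ctx.arg (Sum.inr F2.m) ![K 0, K 3, K 1] 0 _ (s 0 3 (by simp [R1]))
    rwa [show Function.update ![K 0, K 3, K 1] 0 (K 3) = ![K 3, K 3, K 1] from
      funext fun j => by fin_cases j <;> rfl] at this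
  have a2 : lev U 1 (M 0 3 1) (M 0 3 3) := by
    have := Ctx.arg (Sum.inr F2.m) ![K 0, K 3, K 1] 2 _ (s 1 3 (by simp [R1]))
    rwa [show Function.update ![K 0, K 3, K 1] 2 (K 3) = ![K 0, K 3, K 3] from
      funext fun j => by fin_cases j <;> rfl] at this
  have a3 : lev U 1 (M 3 3 1) (K 1) := .root ⟨_, Or.inr ⟨_, List.mem_cons_self, rfl⟩,
    fun n => if n = 0 then K 3 else K 1,
    congrArg (Term.func _) (funext fun j => by fin_cases j <;> rfl), rfl, by simp [Rule.map]⟩
  have a4 : lev U 1 (M 0 3 3) (K 0) := .root ⟨_, Or.inr ⟨_, List.mem_cons_of_mem _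
    List.mem_cons_self, rfl⟩, fun n => if n = 0 then K 0 else K 3,
    congrArg (Term.func _) (funext fun j => by fin_cases j <;> rfl), rfl, by simp [Rule.map]⟩
  have b : ∀ i, (⟨[(.var 0, k 2), (.var 0, k 4)], ff (.var 0), k i⟩ : Rule L1) ∈ R1 →
      Step U (.func (Sum.inl F1.f) ![M 0 3 1]) (K i) := fun i h => by
    refine ⟨2, .root ⟨_, Or.inl ⟨_, h, rfl⟩, fun _ => M 0 3 1,
      congrArg (Term.func _) (funext fun j => by fin_cases j; rfl), (e i _).symm, ?_⟩⟩
    simp only [Rule.map, List.map_cons, List.map_nil, List.mem_cons, List.not_mem_nil, or_false,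
      forall_eq_or_imp, forall_eq, e]
    exact ⟨⟨_, .head a2 (.head a4 (.single (s 0 2 (by simp [R1])))), .refl⟩,
      _, .head a1 (.head a3 (.single (s 1 4 (by simp [R1])))), .refl⟩
  have n : ∀ i, 4 < i → ∀ u, ¬ Step U (K i) u := by
    rintro i hi u ⟨_ | n, h⟩
    · exact h
    generalize hx : K i = x at h
    cases h with
    | arg f ts j => cases hx; exact j.elim0
    | root h =>
      obtain ⟨_, ⟨ρ, hρ, rfl⟩ | ⟨ρ, hρ, rfl⟩, σ, rfl, -⟩ := h
      · simp only [R1, Set.mem_ofPred_eq, List.mem_cons, List.not_mem_nil, or_false] at hρ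
        rcases hρ with rfl | rfl | rfl | rfl | rfl | rfl | rfl | rfl | rfl <;>
          simp only [Rule.map, e] at hx <;> cases hx <;> simp at hi
      · simp only [R2, Set.mem_ofPred_eq, List.mem_cons, List.not_mem_nil, or_false] at hρ
        rcases hρ with rfl | rfl <;> cases hx
  have := h _ _ (n 5 (by decide)) (n 6 (by decide))
    (.trans _ _ _ (.symm _ _ (.rel _ _ (b 5 (by simp [R1])))) (.rel _ _ (b 6 (by simp [R1]))))
  cases this

theorem final : ∃ (L L' : FirstOrder.Language.{0, 0}) (R : Set (Rule L)) (S : Set (Rule L')),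
    R.Finite ∧ S.Finite ∧ Valid R ∧ Valid S ∧ UN R ∧ UN S ∧ ¬ UN (union R S) := by
  refine ⟨L1, L2, _, _, List.finite_toSet _, List.finite_toSet _, fun ρ hρ => ?_, fun ρ hρ => ?_,
    un1, un2, not_un⟩
  · simp only [R1, Set.mem_ofPred_eq, List.mem_cons, List.not_mem_nil, or_false] at hρ
    rcases hρ with rfl | rfl | rfl | rfl | rfl | rfl | rfl | rfl | rfl <;>
      simp [k, ff, Term.varFinset]
  · simp only [R2, Set.mem_ofPred_eq, List.mem_cons, List.not_mem_nil, or_false] at hρ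
    rcases hρ with rfl | rfl <;> simp [mm, Term.varFinset] <;> decide

end Pool.Agent.H24.Ctrs
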