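import Mathlib

set_option autoImplicit false

namespace Pool.Agent.H24.D0L

def h : Fin 2 → List (Fin 2) := ![[1], [0, 1, 1]]

abbrev H : List (Fin 2) → List (Fin 2) := fun u => u.flatMap h

theorem H_inj : Function.Injective H := by
  intro u
  induction u with
  | nil =>
    intro v hv
    cases v with
    | nil => rfl
    | cons b v => fin_cases b <;> simp [H, h] at hv
  | cons a u ih =>
    intro v hv
    cases v with
    | nil => fin_cases a <;> simp [H, h] at hv
    | cons b v =>
      fin_cases a <;> fin_cases b <;> simp [H, h] at hv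
      · exact congrArg _ (ih hv)
      · exact congrArg _ (ih hv)

theorem H_flatten (L : List (List (Fin 2))) : H L.flatten = (L.map H).flatten := by
  induction L with
  | nil => rfl
  | cons a L ih => simp [H, List.flatMap_append] at ih ⊢; exact ih

theorem Hn_flatten (n : ℕ) (L : List (List (Fin 2))) :
    H^[n] L.flatten = (L.map H^[n]).flatten := by
  induction n generalizing L with
  | zero => simp
  | succ n ih => rw [Function.iterate_succ_apply, H_flatten, ih, List.map_map]; rfl

theorem shift (L : List ℕ) (d : ℕ) (hL : ∀ i ∈ L, i ≤ d) (w : List (Fin 2)) (N : ℕ) :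
    H^[N + d] w = (L.map (fun i => H^[N + d - i] w)).flatten ↔
      H^[d] w = (L.map (fun i => H^[d - i] w)).flatten := by
  rw [← (H_inj.iterate N).eq_iff (a := H^[d] w), Hn_flatten, List.map_map, ← Function.iterate_add_apply]
  have : L.map (fun i => H^[N + d - i] w) = L.map (H^[N] ∘ fun i => H^[d - i] w) := by
    refine List.map_congr_left fun i hi => ?_
    have := hL i hi
    rw [Function.comp_apply, ← Function.iterate_add_apply, show N + d - i = N + (d - i) by omega]
  rw [this]

theorem le_foldr (L : List ℕ) : ∀ i ∈ L, i ≤ L.foldr max 0 := by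
  induction L with
  | nil => simp
  | cons a L ih =>
    intro i hi
    rcases List.mem_cons.1 hi with rfl | hi
    · simp
    · simp [ih i hi]

theorem yes : ∀ m : ℕ, 3 ≤ m → H^[m] [0, 1] =
    (([2, 3, 2, 2, 1] : List ℕ).map (fun i => H^[m - i] [0, 1])).flatten := by
  intro m hm
  obtain ⟨N, rfl⟩ : ∃ N, m = N + 3 := ⟨m - 3, by omega⟩
  rw [shift _ 3 (by simp)]
  decide

theorem no (L : List ℕ) (h1 : ∀ i ∈ L, 0 < i) (h2 : ∀ i ∈ L, i ≤ 2) (N : ℕ) :
    H^[N + 2] [0, 1] ≠ (L.map (fun i => H^[N + 2 - i] [0, 1])).flatten := by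
  rw [Ne, shift L 2 h2]
  intro e
  match L, h1, h2, e with
  | [], _, _, e => revert e; decide
  | [a], h1, h2, e =>
    have := h1 a (by simp)
    have := h2 a (by simp)
    interval_cases a <;> revert e <;> decide
  | a :: b :: L, h1, h2, e =>
    have := h1 a (by simp)
    have := h2 a (by simp)
    have := h1 b (by simp)
    have := h2 b (by simp)
    interval_cases a <;> interval_cases b <;> simp [H, h] at e

end Pool.Agent.H24.D0L
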