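import Pool.Agent.H24.DPRM2

set_option autoImplicit false

/-! The Davis-Putnam-Robinson-Matiyasevich theorem. -/

namespace Pool.Agent.H24.DPRM

open Dioph Nat

/-- `f` may be composed with Diophantine functions -/
def G (f : ℕ → ℕ) : Prop :=
  ∀ (α : Type) (g : (α → ℕ) → ℕ), DiophFn g → DiophFn fun v => f (g v)

variable {α : Type}

theorem fpair {f g : (α → ℕ) → ℕ} (df : DiophFn f) (dg : DiophFn g) :
    DiophFn fun v => Nat.pair (f v) (g v) := by
  refine fgraph (P := fun v r => (f v < g v ∧ r = g v * g v + f v) ∨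
    (g v ≤ f v ∧ r = f v * f v + f v + g v)) ?_ fun v r => ?_
  · exact dor (dand (lt_dioph (fup df) (fup dg)) (eq_dioph (fproj _)
      (add_dioph (mul_dioph (fup dg) (fup dg)) (fup df))))
      (dand (le_dioph (fup dg) (fup df)) (eq_dioph (fproj _)
        (add_dioph (add_dioph (mul_dioph (fup df) (fup df)) (fup df)) (fup dg))))
  · unfold Nat.pair
    split_ifs with h <;> omega

theorem fleft {f : (α → ℕ) → ℕ} (df : DiophFn f) : DiophFn fun v => (f v).unpair.1 := by
  refine fgraph (P := fun v r => ∃ b, Nat.pair r b = f v) (dex ?_) fun v r => ?_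
  · exact eq_dioph (fpair (fproj _) (fproj _)) (fup (fup df))
  · exact ⟨fun ⟨b, h⟩ => by rw [← h, Nat.unpair_pair], fun h => ⟨(f v).unpair.2, by
      rw [← h, Nat.pair_unpair]⟩⟩

theorem fright {f : (α → ℕ) → ℕ} (df : DiophFn f) : DiophFn fun v => (f v).unpair.2 := by
  refine fgraph (P := fun v r => ∃ b, Nat.pair b r = f v) (dex ?_) fun v r => ?_
  · exact eq_dioph (fpair (fproj _) (fproj _)) (fup (fup df))
  · exact ⟨fun ⟨b, h⟩ => by rw [← h, Nat.unpair_pair], fun h => ⟨(f v).unpair.1, by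
      rw [← h, Nat.pair_unpair]⟩⟩

theorem fbeta {f g : (α → ℕ) → ℕ} (df : DiophFn f) (dg : DiophFn g) :
    DiophFn fun v => Nat.beta (f v) (g v) :=
  mod_dioph (fleft df) (add_dioph (mul_dioph (add_dioph dg (fconst 1)) (fright df)) (fconst 1))

theorem rec_iff (a : ℕ) (g : ℕ → ℕ → ℕ) (n r : ℕ) :
    (∃ m, Nat.beta m 0 = a ∧ Nat.beta m n = r ∧ ∀ k < n, Nat.beta m (k + 1) = g k (Nat.beta m k)) ↔
      (n.rec a g : ℕ) = r := by
  constructor
  · rintro ⟨m, h0, hn, hs⟩
    have : ∀ k ≤ n, (k.rec a g : ℕ) = Nat.beta m k := by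
      intro k
      induction k with
      | zero => intro _; exact h0.symm
      | succ k ih => intro hk; rw [hs k hk, ← ih (by omega)]
    rw [this n le_rfl, hn]
  · intro h
    set l := List.ofFn (fun i : Fin (n + 1) => ((i : ℕ).rec a g : ℕ)) with hl
    have : ∀ k ≤ n, Nat.beta (Nat.unbeta l) k = (k.rec a g : ℕ) := fun k hk => by
      have := Nat.beta_unbeta_coe l ⟨k, by simp [hl]; omega⟩
      simpa [hl, -List.ofFn_succ] using this
    exact ⟨_, this 0 (by omega), (this n le_rfl).trans h, fun k hk => by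
      rw [this _ hk, this k hk.le]⟩

theorem G_of_primrec {f : ℕ → ℕ} (hf : Nat.Primrec f) : G f := by
  induction hf with
  | zero => exact fun _ _ _ => fconst 0
  | succ => exact fun _ _ d => add_dioph d (fconst 1)
  | left => exact fun _ _ d => fleft d
  | right => exact fun _ _ d => fright d
  | pair _ _ h h' => exact fun _ _ d => fpair (h _ _ d) (h' _ _ d)
  | comp _ _ h h' => exact fun _ _ d => h _ _ (h' _ _ d)
  | @prec f g _ _ h h' =>
    intro α x d
    refine fgraph (P := fun v r => ∃ m, Nat.beta m 0 = f (x v).unpair.1 ∧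
      Nat.beta m (x v).unpair.2 = r ∧ ∀ k < (x v).unpair.2, Nat.beta m (k + 1) =
        g (Nat.pair (x v).unpair.1 (Nat.pair k (Nat.beta m k)))) (dex ?_) fun v r =>
      rec_iff _ (fun y IH => g (Nat.pair (x v).unpair.1 (Nat.pair y IH))) _ _
    refine dand (eq_dioph (fbeta (fproj _) (fconst 0)) (h _ _ (fleft (fup (fup d)))))
      (dand (eq_dioph (fbeta (fproj _) (fright (fup (fup d)))) (fproj _))
        (dball ?_ (fright (fup (fup d)))))
    exact eq_dioph (fbeta (fproj _) (add_dioph (fproj _) (fconst 1)))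
      (h' _ _ (fpair (fleft (fup (fup (fup d)))) (fpair (fproj _) (fbeta (fproj _) (fproj _)))))

theorem fprim {f : ℕ → ℕ} (hf : Primrec f) {g : (α → ℕ) → ℕ} (d : DiophFn g) :
    DiophFn fun v => f (g v) := G_of_primrec (Primrec.nat_iff.1 hf) _ _ d

open Nat.Partrec in
/-- DPRM: recursively enumerable predicates are Diophantine. -/
theorem dioph_of_re {p : ℕ → Prop} (hp : REPred p) {g : (α → ℕ) → ℕ} (d : DiophFn g) :
    Dioph {v | p (g v)} := by
  obtain ⟨c, hc⟩ := Code.exists_code.1 hp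
  have h1 : Primrec fun x : ℕ => Encodable.encode (Code.evaln x.unpair.2 c x.unpair.1) :=
    Primrec.encode.comp (Code.primrec_evaln.comp
      (((Primrec.snd.comp Primrec.unpair).pair (Primrec.const c)).pair
        (Primrec.fst.comp Primrec.unpair)))
  refine dcongr (A := fun v => ∃ k, 0 < (fun x : ℕ =>
    Encodable.encode (Code.evaln x.unpair.2 c x.unpair.1)) (Nat.pair (g v) k))
    (dex (lt_dioph (fconst 0) (fprim h1 (fpair (fup d) (fproj _))))) fun v => ?_
  have h2 : p (g v) ↔ (c.eval (g v)).Dom := by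
    rw [hc]; simp [Part.dom_iff_mem]
  rw [h2, Part.dom_iff_mem]
  simp only [Nat.unpair_pair, Code.evaln_complete]
  constructor
  · rintro ⟨k, hk⟩
    cases h : Code.evaln k c (g v) with
    | none => simp [h] at hk
    | some x => exact ⟨x, k, h⟩
  · rintro ⟨x, k, hk⟩
    exact ⟨k, by rw [Option.mem_def.1 hk]; simp⟩

open Nat.Partrec in
/-- a recursively enumerable set that is not computable -/
theorem exists_re : ∃ K : ℕ → Prop, REPred K ∧ ¬ ComputablePred K := by
  refine ⟨fun m => (Code.eval (Denumerable.ofNat Code m) 0).Dom, ?_, fun h => ?_⟩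
  · exact Partrec.dom_re (Code.eval_part.comp (Computable.ofNat _) (Computable.const 0))
  · apply ComputablePred.halting_problem 0
    obtain ⟨f, hf, e⟩ := ComputablePred.computable_iff.1 h
    refine ComputablePred.computable_iff.2 ⟨fun c => f (Encodable.encode c),
      hf.comp Computable.encode, funext fun c => ?_⟩
    have := congrFun e (Encodable.encode c)
    simpa using this

theorem poly_mv {γ : Type} (p : Poly γ) : ∃ P : MvPolynomial γ ℤ,
    ∀ v : γ → ℕ, p v = MvPolynomial.eval (fun i => (v i : ℤ)) P := by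
  induction p using Poly.induction with
  | H1 i => exact ⟨MvPolynomial.X i, fun v => by simp⟩
  | H2 n => exact ⟨MvPolynomial.C n, fun v => by simp⟩
  | H3 f g hf hg =>
    obtain ⟨P, h⟩ := hf
    obtain ⟨Q, h'⟩ := hg
    exact ⟨P - Q, fun v => by simp [h, h']⟩
  | H4 f g hf hg =>
    obtain ⟨P, h⟩ := hf
    obtain ⟨Q, h'⟩ := hg
    exact ⟨P * Q, fun v => by simp [h, h']⟩

/-- DPRM with `MvPolynomial` in finitely many variables; variable `0` is the parameter. -/
theorem mv_of_re {p : ℕ → Prop} (hp : REPred p) : ∃ (m : ℕ) (P : MvPolynomial (Fin (m + 1)) ℤ),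
    ∀ n, p n ↔ ∃ x : Fin (m + 1) → ℕ, x 0 = n ∧ MvPolynomial.eval (fun i => (x i : ℤ)) P = 0 := by
  classical
  obtain ⟨β, q, hq⟩ := dioph_of_re (α := Unit) hp (fproj ())
  obtain ⟨P, hP⟩ := poly_mv q
  obtain ⟨s, Q, rfl⟩ := MvPolynomial.exists_finset_rename P
  let t : Finset β := s.preimage Sum.inr Sum.inr_injective.injOn
  let e := t.equivFin
  let j : s → Fin (t.card + 1) := fun i => match i with
    | ⟨Sum.inl _, _⟩ => 0
    | ⟨Sum.inr b, h⟩ => (e ⟨b, by simpa [t] using h⟩).succ
  refine ⟨t.card, MvPolynomial.rename j Q, fun n => (hq fun _ => n).trans ?_⟩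
  simp only [hP, MvPolynomial.eval_rename]
  constructor
  · rintro ⟨y, hy⟩
    refine ⟨Fin.cons n fun i => y (e.symm i), rfl, ?_⟩
    rw [← hy]
    congr 2
    funext i
    rcases i with ⟨_ | b, h⟩ <;> simp [j]
  · rintro ⟨x, hx, hy⟩
    refine ⟨fun b => if h : b ∈ t then x (e ⟨b, h⟩).succ else 0, ?_⟩
    rw [← hy]
    congr 2
    funext i
    rcases i with ⟨_ | b, h⟩
    · simp [j, hx]
    · have : b ∈ t := by simpa [t] using h
      simp [j, this]

/-- one polynomial family with undecidable solvability in natural numbers -/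
theorem h10 : ∃ (m : ℕ) (P : MvPolynomial (Fin (m + 1)) ℤ), ¬ ComputablePred fun n : ℕ =>
    ∃ x : Fin (m + 1) → ℕ, x 0 = n ∧ MvPolynomial.eval (fun i => (x i : ℤ)) P = 0 := by
  obtain ⟨K, h, h'⟩ := exists_re
  obtain ⟨m, P, e⟩ := mv_of_re h
  exact ⟨m, P, fun c => h' (c.of_eq fun n => (e n).symm)⟩

end Pool.Agent.H24.DPRM
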