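import Mathlib

set_option autoImplicit false

/-! Diophantine toolkit: logical closure, binomial coefficients, factorials, products. -/

namespace Pool.Agent.H24.DPRM

open Dioph Nat

variable {α : Type}

theorem dand {A B : (α → ℕ) → Prop} (h : Dioph {v | A v}) (h' : Dioph {v | B v}) :
    Dioph {v | A v ∧ B v} := h.inter h'

theorem dor {A B : (α → ℕ) → Prop} (h : Dioph {v | A v}) (h' : Dioph {v | B v}) :
    Dioph {v | A v ∨ B v} := h.union h'

theorem dcongr {A B : (α → ℕ) → Prop} (h : Dioph {v | A v}) (e : ∀ v, A v ↔ B v) :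
    Dioph {v | B v} := h.ext e

theorem fcongr {f g : (α → ℕ) → ℕ} (h : DiophFn f) (e : ∀ v, f v = g v) : DiophFn g := by
  rwa [← funext e]

theorem dex {P : (α → ℕ) → ℕ → Prop}
    (h : Dioph {w : Option α → ℕ | P (fun a => w (some a)) (w none)}) :
    Dioph {v | ∃ x, P v x} := Dioph.ex1_dioph h

theorem fup {f : (α → ℕ) → ℕ} (h : DiophFn f) :
    DiophFn (fun w : Option α → ℕ => f (fun a => w (some a))) := reindex_diophFn some h

theorem dup {A : (α → ℕ) → Prop} (h : Dioph {v | A v}) :
    Dioph {w : Option α → ℕ | A (fun a => w (some a))} := reindex_dioph _ some h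

theorem fgraph {f : (α → ℕ) → ℕ} {P : (α → ℕ) → ℕ → Prop}
    (h : Dioph {w : Option α → ℕ | P (fun a => w (some a)) (w none)})
    (e : ∀ v r, P v r ↔ f v = r) : DiophFn f := h.ext fun w => e _ _

theorem fconst (n : ℕ) : DiophFn (fun _ : α → ℕ => n) := const_dioph n

theorem fproj (i : α) : DiophFn (fun v : α → ℕ => v i) := proj_dioph i

theorem dtrue : Dioph {_v : α → ℕ | True} :=
  dcongr (eq_dioph (fconst 0) (fconst 0)) fun _ => by simp

theorem dall_finset {β : Type} (s : Finset β) {A : β → (α → ℕ) → Prop}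
    (h : ∀ b, Dioph {v | A b v}) : Dioph {v | ∀ b ∈ s, A b v} := by
  classical
  induction s using Finset.induction_on with
  | empty => exact dcongr dtrue fun _ => by simp
  | insert b s _ ih => exact dcongr (dand (h b) ih) fun _ => by simp

/-- substitution of a Diophantine function for the extra variable -/
theorem dsubst {P : (α → ℕ) → ℕ → Prop}
    (h : Dioph {w : Option α → ℕ | P (fun a => w (some a)) (w none)}) {f : (α → ℕ) → ℕ}
    (df : DiophFn f) : Dioph {v | P v (f v)} := diophFn_comp1 h df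

theorem digit (u : ℕ) : ∀ (k m : ℕ) (c : ℕ → ℕ), (∀ j, c j < u) →
    (∑ j ∈ Finset.range m, c j * u ^ j) / u ^ k % u = if k < m then c k else 0 := by
  intro k
  induction k with
  | zero =>
    intro m c hc
    cases m with
    | zero => simp
    | succ m =>
      rw [Finset.sum_range_succ']
      have : ∑ j ∈ Finset.range m, c (j + 1) * u ^ (j + 1)
          = u * ∑ j ∈ Finset.range m, c (j + 1) * u ^ j := by
        rw [Finset.mul_sum]; exact Finset.sum_congr rfl fun j _ => by ring
      simp [this, Nat.mod_eq_of_lt (hc 0)]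
  | succ k ih =>
    intro m c hc
    cases m with
    | zero => simp
    | succ m =>
      rw [Finset.sum_range_succ']
      have : ∑ j ∈ Finset.range m, c (j + 1) * u ^ (j + 1)
          = u * ∑ j ∈ Finset.range m, c (j + 1) * u ^ j := by
        rw [Finset.mul_sum]; exact Finset.sum_congr rfl fun j _ => by ring
      have hu : 0 < u := lt_of_le_of_lt (Nat.zero_le _) (hc 0)
      rw [this, pow_succ', ← Nat.div_div_eq_div_mul, pow_zero, mul_one, Nat.mul_add_div hu,
        Nat.div_eq_of_lt (hc 0), add_zero, ih m (fun j => c (j + 1)) (fun j => hc _)]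
      simp

theorem choose_eq (n k : ℕ) :
    (2 ^ n + 1 + 1) ^ n / (2 ^ n + 1) ^ k % (2 ^ n + 1) = n.choose k := by
  have h := digit (2 ^ n + 1) k (n + 1) (fun j => n.choose j)
    (fun j => Nat.lt_succ_of_le (Nat.choose_le_two_pow n j))
  have e : (2 ^ n + 1 + 1) ^ n = ∑ j ∈ Finset.range (n + 1), n.choose j * (2 ^ n + 1) ^ j := by
    rw [add_pow]; exact Finset.sum_congr rfl fun j _ => by simp [mul_comm]
  rw [e, h]
  split_ifs with hk
  · rfl
  · exact (Nat.choose_eq_zero_of_lt (by omega)).symm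

theorem fchoose {f g : (α → ℕ) → ℕ} (df : DiophFn f) (dg : DiophFn g) :
    DiophFn fun v => (f v).choose (g v) := by
  have du : DiophFn fun v => 2 ^ f v + 1 := add_dioph (pow_dioph (fconst 2) df) (fconst 1)
  exact fcongr (mod_dioph (div_dioph (pow_dioph (add_dioph du (fconst 1)) df) (pow_dioph du dg)) du)
    fun v => choose_eq _ _

theorem pow_gap (s n : ℕ) : ∀ k : ℕ, (s + n) ^ (k + 1) ≤ s ^ (k + 1) + (k + 1) * n * (s + n) ^ k := by
  intro k
  induction k with
  | zero => simp
  | succ k ih =>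
    have h1 : s ^ (k + 1) ≤ (s + n) ^ (k + 1) := Nat.pow_le_pow_left (by omega) _
    calc (s + n) ^ (k + 1 + 1) = (s + n) ^ (k + 1) * (s + n) := pow_succ _ _
      _ ≤ (s ^ (k + 1) + (k + 1) * n * (s + n) ^ k) * (s + n) := Nat.mul_le_mul_right _ ih
      _ = s ^ (k + 1 + 1) + n * s ^ (k + 1) + (k + 1) * n * (s + n) ^ (k + 1) := by ring
      _ ≤ s ^ (k + 1 + 1) + n * (s + n) ^ (k + 1) + (k + 1) * n * (s + n) ^ (k + 1) := by
          gcongr
      _ = _ := by ring

theorem fact_eq (n r : ℕ) (hr : (n ^ n + 1) * (n * n) + n < r) : r ^ n / r.choose n = n ! := by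
  have hD := Nat.descFactorial_eq_factorial_mul_choose r n
  have hC : 0 < r.choose n := Nat.choose_pos (by omega)
  have h1 : r.descFactorial n ≤ r ^ n := Nat.descFactorial_le_pow r n
  have hF : n ! ≤ n ^ n := Nat.factorial_le_pow n
  rw [Nat.div_eq_iff hC]
  refine ⟨by rw [← hD]; exact h1, ?_⟩
  suffices h : r ^ n < n ! * r.choose n + r.choose n by omega
  cases n with
  | zero => simp
  | succ k =>
    obtain ⟨s, rfl⟩ : ∃ s, r = s + (k + 1) := ⟨r - (k + 1), by omega⟩
    have h2 : s ^ (k + 1) ≤ (s + (k + 1)).descFactorial (k + 1) :=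
      le_trans (Nat.pow_le_pow_left (by omega) _) (Nat.pow_sub_le_descFactorial _ _)
    have h3 := pow_gap s (k + 1) k
    set F := (k + 1)! with hFd
    set C := (s + (k + 1)).choose (k + 1)
    set r := s + (k + 1) with hrd
    set R := r ^ k with hR
    have hRpos : 0 < R := by positivity
    have h4 : r ^ (k + 1) = r * R := by rw [pow_succ, mul_comm]
    have hFpos : 0 < F := Nat.factorial_pos _
    have h5 : (F + 1) * ((k + 1) * (k + 1)) < r := by
      have : (F + 1) * ((k + 1) * (k + 1)) ≤ ((k + 1) ^ (k + 1) + 1) * ((k + 1) * (k + 1)) := by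
        gcongr
      omega
    rw [h4] at h3 ⊢
    have h6 : r * R ≤ F * C + (k + 1) * (k + 1) * R := by omega
    have h7 : (F + 1) * ((k + 1) * (k + 1)) * R < r * R := Nat.mul_lt_mul_of_pos_right h5 hRpos
    have h8 : F * (r * R) < F * (F * C + C) := by nlinarith
    exact Nat.lt_of_mul_lt_mul_left h8

theorem ffact {f : (α → ℕ) → ℕ} (df : DiophFn f) : DiophFn fun v => (f v)! := by
  have dr : DiophFn fun v => (f v ^ f v + 1) * (f v * f v) + f v + 1 :=
    add_dioph (add_dioph (mul_dioph (add_dioph (pow_dioph df df) (fconst 1)) (mul_dioph df df)) df)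
      (fconst 1)
  exact fcongr (div_dioph (pow_dioph dr df) (fchoose dr df)) fun v => fact_eq _ _ (by omega)

theorem fdesc {f g : (α → ℕ) → ℕ} (df : DiophFn f) (dg : DiophFn g) :
    DiophFn fun v => (f v).descFactorial (g v) :=
  fcongr (mul_dioph (ffact dg) (fchoose df dg)) fun _ =>
    (Nat.descFactorial_eq_factorial_mul_choose _ _).symm

/-- product of the moduli -/
def PM (T y : ℕ) : ℕ := ∏ k ∈ Finset.range y, ((k + 1) * (T + 1) + 1)

theorem PM_eq (T y : ℕ) :
    ((T + 1) ^ y * (y ! * (T * (y * (T + 1) + 1) ^ y + 1 + y).choose y)) %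
      ((T + 1) * (y * (T + 1) + 1) ^ y + 1) = PM T y := by
  set Z := (y * (T + 1) + 1) ^ y with hZ
  have h1 : PM T y ≤ Z := by
    have := Finset.prod_le_pow_card (Finset.range y) (fun k => (k + 1) * (T + 1) + 1)
      (y * (T + 1) + 1) (fun k hk => by
        have : k + 1 ≤ y := Finset.mem_range.1 hk
        show (k + 1) * (T + 1) + 1 ≤ _
        gcongr)
    simpa [PM] using this
  rw [← Nat.ascFactorial_eq_factorial_mul_choose, Nat.ascFactorial_eq_prod_range]
  have h2 : (T + 1) ^ y * ∏ i ∈ Finset.range y, (T * Z + 1 + 1 + i)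
      = ∏ i ∈ Finset.range y, ((T + 1) * (T * Z + 1 + 1 + i)) := by
    rw [Finset.prod_mul_distrib]; simp
  rw [h2]
  have h3 : ∏ i ∈ Finset.range y, ((T + 1) * (T * Z + 1 + 1 + i)) ≡ PM T y [MOD (T + 1) * Z + 1] := by
    refine Nat.ModEq.prod fun i _ => ?_
    have : (T + 1) * (T * Z + 1 + 1 + i) = (i + 1) * (T + 1) + 1 + ((T + 1) * Z + 1) * T := by ring
    rw [this]
    exact Nat.add_mul_mod_self_left _ _ _
  rw [h3, Nat.mod_eq_of_lt]
  nlinarith

theorem fPM {f g : (α → ℕ) → ℕ} (df : DiophFn f) (dg : DiophFn g) :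
    DiophFn fun v => PM (f v) (g v) := by
  have d1 : DiophFn fun v => f v + 1 := add_dioph df (fconst 1)
  have dZ : DiophFn fun v => (g v * (f v + 1) + 1) ^ g v :=
    pow_dioph (add_dioph (mul_dioph dg d1) (fconst 1)) dg
  exact fcongr (mod_dioph (mul_dioph (pow_dioph d1 dg) (mul_dioph (ffact dg)
    (fchoose (add_dioph (add_dioph (mul_dioph df dZ) (fconst 1)) dg) dg)))
    (add_dioph (mul_dioph d1 dZ) (fconst 1))) fun v => PM_eq _ _

end Pool.Agent.H24.DPRM
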