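import Pool.Agent.H24.DPRM1

set_option autoImplicit false

/-! Bounded universal quantifiers preserve Diophantine sets (Davis). -/

namespace Pool.Agent.H24.DPRM

open Dioph Nat

variable {α : Type}

theorem poly_data {β : Type} (p : Poly (Option α ⊕ β)) :
    ∃ (s : Finset β) (Q : (α → ℕ) → ℕ → ℕ),
      DiophFn (fun w : Option α → ℕ => Q (fun a => w (some a)) (w none)) ∧
      (∀ (q : ℤ) (v : α → ℕ) (k k' : ℕ) (t t' : β → ℕ), (k : ℤ) ≡ k' [ZMOD q] →
        (∀ b ∈ s, (t b : ℤ) ≡ t' b [ZMOD q]) →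
        p (Sum.elim (Option.elim' k v) t) ≡ p (Sum.elim (Option.elim' k' v) t') [ZMOD q]) ∧
      (∀ (v : α → ℕ) (u k : ℕ) (t : β → ℕ), k ≤ u → (∀ b ∈ s, t b ≤ u) →
        (p (Sum.elim (Option.elim' k v) t)).natAbs ≤ Q v u) := by
  classical
  induction p using Poly.induction with
  | H1 i =>
    rcases i with (_ | a) | b
    · exact ⟨∅, fun _ u => u, fproj none, fun q v k k' t t' h _ => by simpa using h,
        fun v u k t h _ => by simpa using h⟩
    · exact ⟨∅, fun v _ => v a, fproj (some a), fun q v k k' t t' _ _ => by simp [Int.ModEq],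
        fun v u k t _ _ => by simp⟩
    · exact ⟨{b}, fun _ u => u, fproj none, fun q v k k' t t' _ h => by simpa using h,
        fun v u k t _ h => by simpa using h⟩
  | H2 n =>
    exact ⟨∅, fun _ _ => n.natAbs, fconst _, fun q v k k' t t' _ _ => by simp [Int.ModEq],
      fun v u k t _ _ => by simp⟩
  | H3 f g hf hg =>
    obtain ⟨s, Q, d, c, b⟩ := hf
    obtain ⟨s', Q', d', c', b'⟩ := hg
    refine ⟨s ∪ s', fun v u => Q v u + Q' v u, add_dioph d d', fun q v k k' t t' h h' => ?_,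
      fun v u k t h h' => ?_⟩
    · exact (c q v k k' t t' h fun x hx => h' x (by simp [hx])).sub
        (c' q v k k' t t' h fun x hx => h' x (by simp [hx]))
    · exact (Int.natAbs_sub_le _ _).trans (Nat.add_le_add (b v u k t h fun x hx => h' x (by simp [hx]))
        (b' v u k t h fun x hx => h' x (by simp [hx])))
  | H4 f g hf hg =>
    obtain ⟨s, Q, d, c, b⟩ := hf
    obtain ⟨s', Q', d', c', b'⟩ := hg
    refine ⟨s ∪ s', fun v u => Q v u * Q' v u, mul_dioph d d', fun q v k k' t t' h h' => ?_,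
      fun v u k t h h' => ?_⟩
    · exact (c q v k k' t t' h fun x hx => h' x (by simp [hx])).mul
        (c' q v k k' t t' h fun x hx => h' x (by simp [hx]))
    · rw [Poly.mul_apply, Int.natAbs_mul]
      exact Nat.mul_le_mul (b v u k t h fun x hx => h' x (by simp [hx]))
        (b' v u k t h fun x hx => h' x (by simp [hx]))

theorem PM_dvd (T y N X : ℕ) (hT : T + 1 = N !) (hy : y ≤ N)
    (h : ∀ k < y, (k + 1) * (T + 1) + 1 ∣ X) : PM T y ∣ X := by
  unfold PM
  refine Finset.prod_dvd_of_isRelPrime (fun i hi j hj hij => ?_) (fun k hk => h k (by simpa using hk))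
  have hi' := Finset.mem_range.1 hi
  have hj' := Finset.mem_range.1 hj
  show IsRelPrime _ _
  rw [← Nat.coprime_iff_isRelPrime]
  rcases lt_or_gt_of_ne hij with l | l
  · exact Nat.coprime_mul_succ (by rw [hT]; exact Nat.dvd_factorial (by omega) (by omega))
  · exact (Nat.coprime_mul_succ (by rw [hT]; exact Nat.dvd_factorial (by omega) (by omega))).symm

theorem ball_iff {β : Type} (s : Finset β) (y : ℕ) (Q : ℕ → ℕ) (E : ℕ → (β → ℕ) → ℤ)
    (hc : ∀ (q : ℤ) (k k' : ℕ) (t t' : β → ℕ), (k : ℤ) ≡ k' [ZMOD q] →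
        (∀ b ∈ s, (t b : ℤ) ≡ t' b [ZMOD q]) → E k t ≡ E k' t' [ZMOD q])
    (hb : ∀ (u k : ℕ) (t : β → ℕ), k ≤ u → (∀ b ∈ s, t b ≤ u) → (E k t).natAbs ≤ Q u) :
    (∃ u T c, ∃ a : β → ℕ, y ≤ u ∧ T + 1 = (Q u + u)! ∧ PM T y ∣ (c + 1) * (T + 1) + 1 ∧
      (∀ b ∈ s, PM T y ∣ (a b).descFactorial (u + 1)) ∧ PM T y ∣ (E c a).natAbs) ↔
    ∀ k < y, ∃ t, E k t = 0 := by
  classical
  constructor
  · rintro ⟨u, T, c, a, hu, hT, h1, h2, h3⟩ k hk
    obtain ⟨q, hq, hqd⟩ := Nat.exists_prime_and_dvd (n := (k + 1) * (T + 1) + 1) (by nlinarith)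
    have hqM : q ∣ PM T y :=
      hqd.trans (Finset.dvd_prod_of_mem (fun k => (k + 1) * (T + 1) + 1) (Finset.mem_range.2 hk))
    have hqT : ¬ q ∣ T + 1 := fun h =>
      hq.not_dvd_one ((Nat.dvd_add_right (h.mul_left _)).1 hqd)
    have hqN : Q u + u < q := by
      by_contra h
      exact hqT (hT ▸ Nat.dvd_factorial hq.pos (by omega))
    have hqZ : Prime (q : ℤ) := Nat.prime_iff_prime_int.1 hq
    have hck : (k : ℤ) ≡ c [ZMOD q] := by
      have e1 : (q : ℤ) ∣ ((c + 1) * (T + 1) + 1 : ℕ) := Int.natCast_dvd_natCast.2 (hqM.trans h1)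
      have e2 : (q : ℤ) ∣ ((k + 1) * (T + 1) + 1 : ℕ) := Int.natCast_dvd_natCast.2 hqd
      have e3 : (q : ℤ) ∣ ((c : ℤ) - k) * ((T + 1 : ℕ) : ℤ) := by
        have e4 := dvd_sub e1 e2
        push_cast at e4 ⊢
        exact (show ((c : ℤ) + 1) * (T + 1) + 1 - ((k + 1) * (T + 1) + 1) = (c - k) * (T + 1) by
          ring) ▸ e4
      rcases hqZ.dvd_or_dvd e3 with h | h
      · exact Int.modEq_iff_dvd.2 h
      · exact absurd (Int.natCast_dvd_natCast.1 h) hqT
    have ht : ∀ b, ∃ j, b ∈ s → j ≤ u ∧ (j : ℤ) ≡ a b [ZMOD q] := by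
      intro b
      by_cases hb' : b ∈ s
      · have := hqM.trans (h2 b hb')
        rw [Nat.descFactorial_eq_prod_range] at this
        obtain ⟨j, hj, hjd⟩ := (Prime.dvd_finsetProd_iff hq.prime _).1 this
        have hj' := Finset.mem_range.1 hj
        by_cases hja : j ≤ a b
        · refine ⟨j, fun _ => ⟨by omega, Int.modEq_iff_dvd.2 ?_⟩⟩
          have := Int.natCast_dvd_natCast.2 hjd
          rwa [Nat.cast_sub hja] at this
        · exact ⟨a b, fun _ => ⟨by omega, rfl⟩⟩
      · exact ⟨0, fun h => absurd h hb'⟩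
    choose t ht using ht
    refine ⟨t, ?_⟩
    have e1 := hc q k c t a hck fun b hb' => (ht b hb').2
    have e2 := hb u k t (by omega) fun b hb' => (ht b hb').1
    have e3 : (q : ℤ) ∣ E c a := Int.natCast_dvd.2 (hqM.trans h3)
    have e4 : (q : ℤ) ∣ E k t := by
      have := dvd_sub e3 (Int.modEq_iff_dvd.1 e1)
      simpa using this
    have e5 := Int.natCast_dvd.1 e4
    have := Nat.eq_zero_of_dvd_of_lt e5 (by omega)
    exact Int.natAbs_eq_zero.1 this
  · intro h
    have h' : ∀ k, ∃ t, k < y → E k t = 0 := fun k => by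
      by_cases hk : k < y
      · obtain ⟨t, ht⟩ := h k hk; exact ⟨t, fun _ => ht⟩
      · exact ⟨0, fun h => absurd h hk⟩
    choose t ht using h'
    set u := y + ∑ k ∈ Finset.range y, ∑ b ∈ s, t k b with hu
    have htu : ∀ k < y, ∀ b ∈ s, t k b ≤ u := fun k hk b hb' => by
      have h1 : t k b ≤ ∑ b ∈ s, t k b :=
        Finset.single_le_sum (f := fun b => t k b) (fun _ _ => Nat.zero_le _) hb'
      have h2 : ∑ b ∈ s, t k b ≤ ∑ k ∈ Finset.range y, ∑ b ∈ s, t k b :=
        Finset.single_le_sum (f := fun k => ∑ b ∈ s, t k b) (fun _ _ => Nat.zero_le _)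
          (Finset.mem_range.2 hk)
      omega
    obtain ⟨T, hT⟩ : ∃ T, T + 1 = (Q u + u)! :=
      ⟨(Q u + u)! - 1, by have := Nat.factorial_pos (Q u + u); omega⟩
    have hyN : y ≤ Q u + u := by omega
    have hcr : ∀ r : ℕ → ℕ, ∃ x, ∀ k < y, x ≡ r k [MOD (k + 1) * (T + 1) + 1] := fun r => by
      obtain ⟨x, hx⟩ := Nat.chineseRemainderOfFinset r (fun k => (k + 1) * (T + 1) + 1)
        (Finset.range y) (fun _ _ => by omega) (fun i hi j hj hij => by
          have hi' := Finset.mem_range.1 hi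
          have hj' := Finset.mem_range.1 hj
          show Nat.Coprime _ _
          rcases lt_or_gt_of_ne hij with l | l
          · exact Nat.coprime_mul_succ (by rw [hT]; exact Nat.dvd_factorial (by omega) (by omega))
          · exact (Nat.coprime_mul_succ
              (by rw [hT]; exact Nat.dvd_factorial (by omega) (by omega))).symm)
      exact ⟨x, fun k hk => hx k (Finset.mem_range.2 hk)⟩
    obtain ⟨c, hc'⟩ := hcr id
    choose a ha using fun b => hcr fun k => t k b
    refine ⟨u, T, c, a, by omega, hT, PM_dvd T y _ _ hT hyN fun k hk => ?_,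
      fun b hb' => PM_dvd T y _ _ hT hyN fun k hk => ?_, PM_dvd T y _ _ hT hyN fun k hk => ?_⟩
    · have := (((hc' k hk).add_right 1).mul_right (T + 1)).add_right 1
      exact (Nat.modEq_zero_iff_dvd).1 (this.trans (Nat.modEq_zero_iff_dvd.2 dvd_rfl))
    · rw [Nat.descFactorial_eq_prod_range]
      refine Dvd.dvd.trans ?_ (Finset.dvd_prod_of_mem (fun i => a b - i)
        (Finset.mem_range.2 (Nat.lt_succ_of_le (htu k hk b hb'))))
      exact (ha b k hk).symm.dvd'
    · have e1 := hc (((k + 1) * (T + 1) + 1 : ℕ) : ℤ) c k a (t k)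
        (Int.natCast_modEq_iff.2 (hc' k hk)) fun b _ => Int.natCast_modEq_iff.2 (ha b k hk)
      rw [ht k hk] at e1
      exact Int.natCast_dvd.1 (Int.modEq_zero_iff_dvd.1 e1)

theorem dexs {β : Type} {P : (α → ℕ) → (β → ℕ) → Prop}
    (h : Dioph {w : α ⊕ β → ℕ | P (fun a => w (Sum.inl a)) (fun b => w (Sum.inr b))}) :
    Dioph {v | ∃ x, P v x} := Dioph.ex_dioph h

theorem dball {P : (α → ℕ) → ℕ → Prop}
    (h : Dioph {w : Option α → ℕ | P (fun a => w (some a)) (w none)}) {f : (α → ℕ) → ℕ}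
    (df : DiophFn f) : Dioph {v | ∀ k < f v, P v k} := by
  obtain ⟨β, p, hp⟩ := h
  obtain ⟨s, Q, dQ, hc, hb⟩ := poly_data p
  have key : ∀ v, (∃ u T c, ∃ a : β → ℕ, f v ≤ u ∧ T + 1 = (Q v u + u)! ∧
      PM T (f v) ∣ (c + 1) * (T + 1) + 1 ∧
      (∀ b ∈ s, PM T (f v) ∣ (a b).descFactorial (u + 1)) ∧
      PM T (f v) ∣ (p (Sum.elim (Option.elim' c v) a)).natAbs) ↔ ∀ k < f v, P v k := fun v => by
    rw [ball_iff s (f v) (Q v) (fun k t => p (Sum.elim (Option.elim' k v) t))
      (fun q => hc q v) (hb v)]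
    exact forall₂_congr fun k _ => (hp (Option.elim' k v)).symm
  refine dcongr (dex (dex (dex (dexs ?_)))) key
  have df' : DiophFn fun w : Option (Option (Option α)) ⊕ β → ℕ =>
      f fun a => w (Sum.inl (some (some (some a)))) :=
    reindex_diophFn (fun a => Sum.inl (some (some (some a)))) df
  have dQ' : DiophFn fun w : Option (Option (Option α)) ⊕ β → ℕ =>
      Q (fun a => w (Sum.inl (some (some (some a))))) (w (Sum.inl (some (some none)))) :=
    reindex_diophFn (fun a => Sum.inl (some (some a))) dQ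
  have dM : DiophFn fun w : Option (Option (Option α)) ⊕ β → ℕ =>
      PM (w (Sum.inl (some none))) (f fun a => w (Sum.inl (some (some (some a))))) :=
    fPM (fproj _) df'
  have dE : DiophFn fun w : Option (Option (Option α)) ⊕ β → ℕ =>
      (p (Sum.elim (Option.elim' (w (Sum.inl none)) fun a => w (Sum.inl (some (some (some a)))))
        fun b => w (Sum.inr b))).natAbs := by
    refine fcongr (abs_poly_dioph (p.map (Sum.elim (Option.elim' (Sum.inl none)
      fun a => Sum.inl (some (some (some a)))) Sum.inr))) fun w => ?_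
    rw [Poly.map_apply]
    congr 2
    funext i
    rcases i with (_ | a) | b <;> rfl
  exact dand (le_dioph df' (fproj _)) (dand (eq_dioph (add_dioph (fproj _) (fconst 1))
    (ffact (add_dioph dQ' (fproj _)))) (dand (dvd_dioph dM (add_dioph (mul_dioph
      (add_dioph (fproj _) (fconst 1)) (add_dioph (fproj _) (fconst 1))) (fconst 1)))
    (dand (dall_finset s fun b => dvd_dioph dM (fdesc (fproj _) (add_dioph (fproj _) (fconst 1))))
      (dvd_dioph dM dE))))

end Pool.Agent.H24.DPRM
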