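import Pool.Agent.H24.Col4

set_option autoImplicit false

namespace Pool.Agent.H24.Dbg

open Pool.Agent.H11.PT Pool.Agent.H24.Col

/-- the digraph on `{0,…,n-1}` with the listed arcs has a `(2,k)`-labeling for some `k ≥ 1` -/
def InL2 (G : ℕ × List (ℕ × ℕ)) : Prop :=
  (∀ a ∈ G.2, a.1 < G.1 ∧ a.2 < G.1) ∧ ∃ k, 1 ≤ k ∧ ∃ L : Fin G.1 → List Bool,
    (∀ v, (L v).length = k) ∧ Function.Injective L ∧
      ∀ u v, (u.1, v.1) ∈ G.2 ↔ (L u).tail = (L v).dropLast

abbrev V := ℕ × ℕ × ℕ × ℕ

def mk (vs : List V) (g : V → V → Bool) : ℕ × List (ℕ × ℕ) :=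
  (vs.length, (List.range vs.length ×ˢ List.range vs.length).filter fun a =>
    g (vs.getD a.1 (0, 0, 0, 0)) (vs.getD a.2 (0, 0, 0, 0)))

theorem eq_iff {l l' : List Bool} {k : ℕ} (h : l.length = k) (h' : l'.length = k) :
    l = l' ↔ ∀ x < k, l.getD x false = l'.getD x false := by
  refine ⟨fun e => by simp [e], fun e => List.ext_getElem (by omega) fun x h1 h2 => ?_⟩
  simpa [List.getD_eq_getElem?_getD, h1, h2] using e x (by omega)

theorem shift_iff {l l' : List Bool} {k : ℕ} (h : l.length = k) (h' : l'.length = k) :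
    l.tail = l'.dropLast ↔ ∀ x, x + 1 < k → l.getD (x + 1) false = l'.getD x false := by
  rw [eq_iff (k := k - 1) (by simp [h]) (by simp [h'])]
  refine forall_congr' fun x => ?_
  rw [show x < k - 1 ↔ x + 1 < k by omega]
  refine imp_congr_right fun hx => ?_
  simp [List.getD_eq_getElem?_getD, h', show x < k - 1 by omega, show x < k by omega]

def Lab (vs : List V) (g : V → V → Bool) (k : ℕ) (lab : V → ℕ → Bool) : Prop :=
  (∀ p ∈ vs, ∀ q ∈ vs, (∀ x < k, lab p x = lab q x) → p = q) ∧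
    ∀ p ∈ vs, ∀ q ∈ vs, (g p q = true ↔ ∀ x, x + 1 < k → lab p (x + 1) = lab q x)

theorem mk_iff (vs : List V) (hv : vs.Nodup) (g : V → V → Bool) :
    InL2 (mk vs g) ↔ ∃ k, 1 ≤ k ∧ ∃ lab, Lab vs g k lab := by
  have a1 : ∀ p ∈ vs, vs.idxOf p < vs.length := fun p hp => List.idxOf_lt_length_iff.2 hp
  have a2 : ∀ p ∈ vs, vs.getD (vs.idxOf p) (0, 0, 0, 0) = p := fun p hp => by
    rw [List.getD_eq_getElem _ _ (a1 p hp), List.getElem_idxOf]
  have a3 : ∀ u < vs.length, vs.getD u (0, 0, 0, 0) ∈ vs := fun u hu => by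
    rw [List.getD_eq_getElem _ _ hu]; exact List.getElem_mem _
  have a4 : ∀ u < vs.length, vs.idxOf (vs.getD u (0, 0, 0, 0)) = u := fun u hu => by
    rw [List.getD_eq_getElem _ _ hu]; exact hv.idxOf_getElem _ _
  have m : ∀ u < vs.length, ∀ v < vs.length, (u, v) ∈ (mk vs g).2 ↔
      g (vs.getD u (0, 0, 0, 0)) (vs.getD v (0, 0, 0, 0)) = true := by
    intro u hu v hv
    simp only [mk, List.mem_filter, List.mem_product, List.mem_range, hu, hv, true_and]
  rw [InL2, and_iff_right (by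
    rintro ⟨u, v⟩ h
    simpa [mk] using (List.mem_filter.1 h).1)]
  refine exists_congr fun k => and_congr_right fun _ => ⟨?_, ?_⟩
  · rintro ⟨L, h1, h2, h3⟩
    refine ⟨fun p x => if h : vs.idxOf p < vs.length then (L ⟨_, h⟩).getD x false else false,
      fun p hp q hq e => ?_, fun p hp q hq => ?_⟩
    · simp only [dif_pos (a1 p hp), dif_pos (a1 q hq)] at e
      have := congrArg Fin.val (h2 ((eq_iff (h1 _) (h1 _)).2 e))
      rw [← a2 p hp, ← a2 q hq]
      exact congrArg (vs.getD · _) this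
    · simp only [dif_pos (a1 p hp), dif_pos (a1 q hq)]
      rw [← shift_iff (h1 _) (h1 _), ← h3, m _ (a1 p hp) _ (a1 q hq), a2 p hp, a2 q hq]
  · rintro ⟨lab, h1, h2⟩
    have e : ∀ p, ∀ x < k, ((List.range k).map (lab p)).getD x false = lab p x := by
      intro p x hx
      simp [List.getD_eq_getElem?_getD, hx]
    refine ⟨fun u => (List.range k).map (lab (vs.getD u (0, 0, 0, 0))), by simp, fun u v h => ?_,
      fun u v => ?_⟩
    · rw [eq_iff (k := k) (by simp) (by simp)] at h
      have := h1 _ (a3 u u.2) _ (a3 v v.2) fun x hx => by rw [← e _ x hx, ← e _ x hx, h x hx]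
      exact Fin.ext (by rw [← a4 u u.2, this, a4 v v.2])
    · rw [m u u.2 v v.2, h2 _ (a3 u u.2) _ (a3 v v.2), shift_iff (k := k) (by simp) (by simp)]
      exact forall_congr' fun x => imp_congr_right fun hx => by rw [e _ _ hx, e _ x (by omega)]

def nv (E : List (ℕ × ℕ)) : ℕ := (E.map fun e => e.1 + e.2).sum + 1
def aa (E : List (ℕ × ℕ)) : ℕ := lg (nv E + E.length)
def pp (E : List (ℕ × ℕ)) : ℕ := 32 * (2 * (nv E + E.length) + 1) ^ 2
def en (E : List (ℕ × ℕ)) (s e : ℕ) : ℕ := if s = 1 then (E.getD e (0, 0)).1 else (E.getD e (0, 0)).2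
def nx (E : List (ℕ × ℕ)) (t l : ℕ) : ℕ := if t < 5 + aa E then l else l / 2

def ok (E : List (ℕ × ℕ)) (p : V) : Prop :=
  if p.1 = 0 then p.2.1 < nv E ∧ 1 ≤ p.2.2.1 ∧ p.2.2.1 ≤ 5 + 2 * aa E ∧ p.2.2.2 < E.length ∧
    (5 + aa E ≤ p.2.2.1 ∨ p.2.1 = en E 1 p.2.2.2 ∨ p.2.1 = en E 2 p.2.2.2)
  else if p.1 = 3 then p.2.1 = 0 ∧ p.2.2.1 = 0 ∧ p.2.2.2 < pp E
  else p.1 < 3 ∧ p.2.1 = 0 ∧ p.2.2.1 + p.1 ≤ 5 ∧ p.2.2.2 < E.length
instance (E : List (ℕ × ℕ)) (p : V) : Decidable (ok E p) := by unfold ok; infer_instance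

def vs (E : List (ℕ × ℕ)) : List V :=
  (List.range 4 ×ˢ List.range (nv E) ×ˢ List.range (6 + 2 * aa E) ×ˢ
    List.range (E.length + pp E)).filter fun p => decide (ok E p)

def arc (E : List (ℕ × ℕ)) (p q : V) : Prop :=
  q.2.2.1 = p.2.2.1 + 1 ∧ q.2.2.2 = nx E p.2.2.1 p.2.2.2 ∧ p.1 ≠ 3 ∧
    (if p.1 = 0 then q.1 = 0 ∧ q.2.1 = p.2.1
    else if q.1 = 0 then p.2.2.1 = 0 ∧ q.2.1 = en E p.1 p.2.2.2
    else q.1 = p.1 ∨ q.2.2.1 = 4)
instance (E : List (ℕ × ℕ)) (p q : V) : Decidable (arc E p q) := by unfold arc; infer_instance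

def red (E : List (ℕ × ℕ)) : ℕ × List (ℕ × ℕ) := mk (vs E) fun p q => decide (arc E p q)

variable {E : List (ℕ × ℕ)}

theorem mem_vs {p : V} : p ∈ vs E ↔ ok E p := by
  obtain ⟨a, b, c, d⟩ := p
  simp only [vs, List.mem_filter, List.mem_product, List.mem_range, decide_eq_true_eq,
    and_iff_right_iff_imp, ok]
  have : 0 < nv E := by unfold nv; omega
  intro h
  split_ifs at h <;> omega

theorem vs_nodup : (vs E).Nodup := (List.nodup_range.product (List.nodup_range.product
  (List.nodup_range.product List.nodup_range))).filter _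

theorem en_lt (s e : ℕ) : en E s e < nv E := by
  by_cases h : e < E.length
  · have := List.le_sum_of_mem (List.mem_map_of_mem (f := fun e : ℕ × ℕ => e.1 + e.2)
      (List.getElem_mem h))
    unfold en nv
    rw [List.getD_eq_getElem _ _ h]
    split_ifs <;> omega
  · unfold en nv
    rw [List.getD_eq_default _ _ (by omega)]
    simp

theorem sound (hE : ∀ e ∈ E, e.1 ≠ e.2) {k : ℕ} {lab : V → ℕ → Bool}
    (h : Lab (vs E) (fun p q => decide (arc E p q)) k lab) : COL4 E := by
  obtain ⟨h1, h2⟩ := h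
  simp only [mem_vs, decide_eq_true_eq] at h1 h2
  have hk : 5 + 2 * aa E ≤ k := by
    have i : Function.Injective fun (p : Fin (pp E)) (x : Fin k) => lab (3, 0, 0, p) x := by
      intro p q e
      have := h1 (3, 0, 0, p) (by simp [ok]) (3, 0, 0, q) (by simp [ok])
        fun x hx => congrFun e ⟨x, hx⟩
      exact Fin.ext (by simpa using this)
    have c := Fintype.card_le_of_injective _ i
    simp only [Fintype.card_fin, Fintype.card_pi, Fintype.card_bool, Finset.prod_const,
      Finset.card_univ] at c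
    refine (Nat.pow_le_pow_iff_right (by omega : 1 < 2)).1 (le_trans ?_ c)
    rw [pow_add, pow_mul', pp]
    exact Nat.mul_le_mul_left _ (Nat.pow_le_pow_left (lg_le _) 2)
  let u : ℕ → ℕ → ℕ → V := fun i e t => (0, i, t, e / 2 ^ (t - (5 + aa E)))
  have uo : ∀ s e t, e < E.length → s = 1 ∨ s = 2 → 1 ≤ t → t ≤ 5 + 2 * aa E →
      ok E (u (en E s e) e t) := by
    intro s e t he hs h1 h2
    simp only [ok, u, if_true]
    refine ⟨en_lt _ _, h1, h2, (Nat.div_le_self _ _).trans_lt he, ?_⟩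
    by_cases c : 5 + aa E ≤ t
    · exact .inl c
    · rw [show t - (5 + aa E) = 0 by omega]
      rcases hs with rfl | rfl <;> simp
  have us : ∀ s e t d x, e < E.length → s = 1 ∨ s = 2 → 1 ≤ t → t + d ≤ 5 + 2 * aa E → x + d < k →
      lab (u (en E s e) e (t + d)) x = lab (u (en E s e) e t) (x + d) := by
    intro s e t d x he hs ht
    induction d generalizing x with
    | zero => intros; rfl
    | succ d ih =>
      intro a b
      rw [show x + (d + 1) = x + 1 + d by omega, ← ih _ (by omega) (by omega)]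
      refine ((h2 _ (uo s e _ he hs (by omega) (by omega)) _ (uo s e _ he hs (by omega) a)).1 ?_ x
        (by omega)).symm
      refine ⟨rfl, ?_, by simp [u], by simp [u]⟩
      simp only [u, nx]
      split_ifs with c
      · rw [show t + (d + 1) - (5 + aa E) = 0 by omega, show t + d - (5 + aa E) = 0 by omega]
      · rw [Nat.div_div_eq_div_mul, ← pow_succ]
        congr 2
        omega
  refine ⟨fun i => (lab (0, i, 5 + 2 * aa E, 0) (k - 2 - (2 + 2 * aa E)),
    lab (0, i, 5 + 2 * aa E, 0) (k - 1 - (2 + 2 * aa E))), fun ed hed hc => ?_⟩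
  obtain ⟨e, he, rfl⟩ := List.getElem_of_mem hed
  have n1 : en E 1 e = E[e].1 := by simp [en, List.getD_eq_getElem?_getD, he]
  have n2 : en E 2 e = E[e].2 := by simp [en, List.getD_eq_getElem?_getD, he]
  rw [← n1, ← n2] at hc
  have root : ∀ s, s = 1 ∨ s = 2 → ∀ y, 2 + 2 * aa E ≤ y → y < k →
      lab (0, en E s e, 5 + 2 * aa E, 0) (y - (2 + 2 * aa E)) = lab (u (en E s e) e 3) y := by
    intro s hs y h1 h2
    have := us s e 3 (2 + 2 * aa E) (y - (2 + 2 * aa E)) he hs (by omega) (by omega) (by omega)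
    rw [Nat.sub_add_cancel h1] at this
    rw [← this]
    simp only [u]
    rw [show 3 + (2 + 2 * aa E) = 5 + 2 * aa E by omega,
      show 5 + 2 * aa E - (5 + aa E) = aa E by omega,
      Nat.div_eq_of_lt (show e < 2 ^ aa E from (by omega : e < nv E + E.length).trans (lt_lg _))]
  simp only [Prod.mk.injEq] at hc
  rw [root 1 (by omega) _ (by omega) (by omega), root 2 (by omega) _ (by omega) (by omega),
    root 1 (by omega) _ (by omega) (by omega), root 2 (by omega) _ (by omega) (by omega)] at hc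
  have mo : ∀ s t, s = 1 ∨ s = 2 → t + s ≤ 5 → ok E (s, 0, t, e) := by
    rintro s t (rfl | rfl) h <;> simp [ok, h, he]
  have ms : ∀ s t s' x, s = 1 ∨ s = 2 → s' = s ∨ (s' = 1 ∧ t = 3) → t + 1 + s' ≤ 5 → t + s ≤ 5 →
      x + 1 < k → lab (s', 0, t + 1, e) x = lab (s, 0, t, e) (x + 1) := by
    intro s t s' x hs hs' a b c
    refine ((h2 _ (mo s t hs b) _ (mo s' _ (by omega) a)).1 ⟨rfl, ?_, by simp; omega, ?_⟩ x c).symm
    · simp only [nx]; rw [if_pos (by omega)]
    · simp only []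
      rw [if_neg (by omega), if_neg (by omega)]
      omega
  have xs : ∀ s x, s = 1 ∨ s = 2 → x + 1 < k →
      lab (u (en E s e) e 1) x = lab (s, 0, 0, e) (x + 1) := by
    intro s x hs c
    refine ((h2 _ (mo s 0 hs (by omega)) _ (uo s e 1 he hs (by omega) (by omega))).1
      ⟨rfl, ?_, by simp; omega, ?_⟩ x c).symm
    · simp [nx, u, show 1 - (5 + aa E) = 0 by omega]
    · simp only [u]
      rw [if_neg (by omega)]
      simp
  have m4 : ∀ s x, s = 1 ∨ s = 2 → x + 3 < k → lab (1, 0, 4, e) x = lab (s, 0, 1, e) (x + 3) := by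
    intro s x hs c
    rw [ms s 3 1 x hs (by omega) (by omega) (by omega) (by omega),
      ms s 2 s _ hs (by omega) (by omega) (by omega) (by omega),
      ms s 1 s _ hs (by omega) (by omega) (by omega) (by omega)]
  have df : ∀ s, s = 1 ∨ s = 2 → lab (u (en E s e) e 1) (k - 1) ≠ lab (1, 0, 4, e) (k - 4) := by
    intro s hs c
    rw [m4 s _ hs (by omega), show k - 4 + 3 = k - 1 by omega] at c
    have := h1 _ (uo s e 1 he hs (by omega) (by omega)) _ (mo s 1 hs (by omega)) fun x hx => by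
      by_cases z : x = k - 1
      · rw [z, c]
      · rw [xs s x hs (by omega), ms s 0 s x hs (by omega) (by omega) (by omega) (by omega)]
    simp only [u, Prod.mk.injEq] at this
    omega
  have := (h2 _ (uo 1 e 3 he (by omega) (by omega) (by omega)) _
    (uo 2 e 4 he (by omega) (by omega) (by omega))).2 fun x hx => by
      rw [us 2 e 3 1 x he (by omega) (by omega) (by omega) hx]
      by_cases z1 : x + 1 = k - 1
      · rw [z1, hc.2]
      by_cases z2 : x + 1 = k - 2
      · rw [z2, hc.1]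
      rw [us 1 e 1 2 _ he (by omega) (by omega) (by omega) (by omega),
        us 2 e 1 2 _ he (by omega) (by omega) (by omega) (by omega)]
      by_cases z3 : x + 1 + 2 = k - 1
      · have d1 := df 1 (by omega)
        have d2 := df 2 (by omega)
        rw [z3]
        revert d1 d2
        cases lab (u (en E 1 e) e 1) (k - 1) <;> cases lab (u (en E 2 e) e 1) (k - 1) <;>
          cases lab (1, 0, 4, e) (k - 4) <;> simp
      rw [xs 1 _ (by omega) (by omega), xs 2 _ (by omega) (by omega),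
        ← ms 1 0 1 _ (by omega) (by omega) (by omega) (by omega) (by omega),
        ← ms 2 0 2 _ (by omega) (by omega) (by omega) (by omega) (by omega),
        ← m4 1 x (by omega) (by omega), ← m4 2 x (by omega) (by omega)]
  have := this.2.2.2
  simp only [u, if_true, n1, n2] at this
  exact hE _ hed this.2.symm

end Pool.Agent.H24.Dbg
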