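import Pool.Agent.H24.Dbg1

set_option autoImplicit false

namespace Pool.Agent.H24.Dbg

open Pool.Agent.H11.PT Pool.Agent.H24.Col

variable {E : List (ℕ × ℕ)}

theorem decIte {α : Type} [Enc α] {c p q : α → Prop} [DecidablePred c] [DecidablePred p]
    [DecidablePred q] [∀ x, Decidable (if c x then p x else q x)] (hc : PT fun x => decide (c x))
    (hp : PT fun x => decide (p x)) (hq : PT fun x => decide (q x)) :
    PT fun x => decide (if c x then p x else q x) :=
  (PT.ite hc hp hq).of_eq fun x => by split_ifs <;> simp [*]

theorem red_pt : PT red := by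
  have h1 : PT nv := by unfold nv; fun_prop
  have h2 : PT aa := PT.lg (by fun_prop)
  have h3 : PT pp := by unfold pp; fun_prop
  have h4 : PT fun x : List (ℕ × ℕ) × ℕ × ℕ => en x.1 x.2.1 x.2.2 := by unfold en; fun_prop
  have h5 : PT fun x : List (ℕ × ℕ) × ℕ × ℕ => nx x.1 x.2.1 x.2.2 := by unfold nx; fun_prop
  have h6 : PT fun x : List (ℕ × ℕ) × V => decide (ok x.1 x.2) :=
    decIte (by fun_prop) (by fun_prop) (decIte (by fun_prop) (by fun_prop) (by fun_prop))
  have h7 : PT fun x : List (ℕ × ℕ) × V × V => decide (arc x.1 x.2.1 x.2.2) :=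
    PT.decAnd (by fun_prop) (PT.decAnd (by fun_prop) (PT.decAnd (by fun_prop)
      (decIte (by fun_prop) (by fun_prop) (decIte (by fun_prop) (by fun_prop) (by fun_prop)))))
  have h : PT vs := PT.filter (by fun_prop) h6
  unfold red mk
  refine PT.pair (by fun_prop) (PT.filter (by fun_prop) ?_)
  exact h7.comp (g := fun x : List (ℕ × ℕ) × ℕ × ℕ =>
    (x.1, (vs x.1).getD x.2.1 (0, 0, 0, 0), (vs x.1).getD x.2.2 (0, 0, 0, 0))) (by fun_prop)

def side (E : List (ℕ × ℕ)) (p : V) : Bool :=
  if p.1 = 0 then p.2.1 == en E 2 p.2.2.2 else p.1 == 2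
def lb (E : List (ℕ × ℕ)) (p : V) (x : ℕ) : Bool :=
  if x < 5 + aa E then (if x = 3 then side E p else x == 4 && p.1 == 3)
  else p.2.2.2.testBit (x - max p.2.2.1 (5 + aa E))
def rb (c : ℕ → Bool × Bool) (p : V) (r : ℕ) : Bool :=
  if p.1 = 0 then (if r = 0 then false else if r = 1 then (c p.2.1).1 else if r = 2 then (c p.2.1).2
    else p.2.1.testBit (r - 3)) else r == 0
def tt (E : List (ℕ × ℕ)) : ℕ := 6 + 2 * aa E + (E.length + pp E)
def wd (E : List (ℕ × ℕ)) (c : ℕ → Bool × Bool) (p : V) (x : ℕ) : Bool :=
  if x < tt E then lb E p x else if x < 2 * tt E + 2 then x == tt E else rb c p (x - (2 * tt E + 2))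

theorem ok_le {p : V} (h : ok E p) : p.2.2.1 ≤ 5 + 2 * aa E ∧ p.2.2.2 < E.length + pp E := by
  unfold ok at h
  split_ifs at h <;> omega

theorem bits_eq {a b n : ℕ} (ha : a < 2 ^ n) (hb : b < 2 ^ n)
    (h : ∀ y < n, a.testBit y = b.testBit y) : a = b := by
  refine Nat.eq_of_testBit_eq fun y => ?_
  by_cases k : y < n
  · exact h y k
  · have := Nat.pow_le_pow_right (show 0 < 2 by omega) (Nat.le_of_not_lt k)
    rw [Nat.testBit_lt_two_pow (ha.trans_le this), Nat.testBit_lt_two_pow (hb.trans_le this)]

section
variable {c : ℕ → Bool × Bool}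

theorem level {p q : V} {s t n : ℕ} (hs : s ≤ tt E) (ht : t ≤ tt E) (hn : tt E < n)
    (h : ∀ x < n, wd E c p (x + s) = wd E c q (x + t)) : s = t := by
  by_contra k
  rcases Nat.lt_or_gt_of_ne k with l | l
  · have := h (tt E - s) (by omega)
    simp only [wd] at this
    rw [if_neg (by omega), if_pos (by omega), if_neg (by omega), if_pos (by omega)] at this
    simp only [beq_eq_beq] at this
    omega
  · have := h (tt E - t) (by omega)
    simp only [wd] at this
    rw [if_neg (by omega), if_pos (by omega), if_neg (by omega), if_pos (by omega)] at this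
    simp only [beq_eq_beq] at this
    omega

theorem agree {p q : V} {t r : ℕ} (ht : t ≤ tt E) :
    (∀ x, x + t < 2 * tt E + 2 + r → wd E c p (x + t) = wd E c q (x + t)) ↔
      (∀ x, t ≤ x → x < tt E → lb E p x = lb E q x) ∧ ∀ y < r, rb c p y = rb c q y := by
  constructor
  · intro h
    refine ⟨fun x a b => ?_, fun y hy => ?_⟩
    · simpa [wd, Nat.sub_add_cancel a, b] using h (x - t) (by omega)
    · have := h (2 * tt E + 2 + y - t) (by omega)
      rw [Nat.sub_add_cancel (by omega)] at this
      simp only [wd] at this
      rwa [if_neg (by omega), if_neg (by omega), if_neg (by omega), if_neg (by omega),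
        Nat.add_sub_cancel_left] at this
  · rintro ⟨h1, h2⟩ x hx
    unfold wd
    split_ifs with a b
    · exact h1 _ (by omega) a
    · rfl
    · exact h2 _ (by omega)

theorem same_u (hc : ∀ e ∈ E, c e.1 ≠ c e.2) {i j t t' l r : ℕ} (hp : ok E (0, i, t, l))
    (hq : ok E (0, j, t', l)) (h1 : t ≤ t') (h2 : t' ≤ r + 1) (h3 : t' < 5 + aa E)
    (hl : ∀ x, t' ≤ x → x < tt E → lb E (0, i, t, l) x = lb E (0, j, t', l) x)
    (hr : ∀ y < r, rb c (0, i, t, l) y = rb c (0, j, t', l) y) : i = j := by
  simp only [ok, if_true] at hp hq
  have he := hp.2.2.2.1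
  have n1 : en E 1 l = E[l].1 := by simp [en, List.getD_eq_getElem?_getD, he]
  have n2 : en E 2 l = E[l].2 := by simp [en, List.getD_eq_getElem?_getD, he]
  have k := hc _ (List.getElem_mem he)
  rw [← n1, ← n2] at k
  by_cases z : t' ≤ 3
  · have := hl 3 z (by unfold tt; omega)
    simp only [lb, side, if_true, if_pos (show 3 < 5 + aa E by omega), beq_eq_beq] at this
    omega
  · have e : c i = c j := Prod.ext (by simpa [rb] using hr 1 (by omega))
      (by simpa [rb] using hr 2 (by omega))
    rcases hp.2.2.2.2 with a | rfl | rfl <;> rcases hq.2.2.2.2 with b | b | b <;>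
      first | omega | exact (k (by simp_all)).elim

theorem same_id {i j t t' l l' r : ℕ} (hp : ok E (0, i, t, l)) (hq : ok E (0, j, t', l'))
    (h : 4 + aa E ≤ r) (hr : ∀ y < r, rb c (0, i, t, l) y = rb c (0, j, t', l') y) : i = j := by
  simp only [ok, if_true] at hp hq
  have := lt_lg (nv E + E.length)
  refine bits_eq (n := aa E) (by unfold aa; omega) (by unfold aa; omega) fun y hy => ?_
  simpa [rb] using hr (y + 3) (by omega)

theorem complete (hc : ∀ e ∈ E, c e.1 ≠ c e.2) : Lab (vs E) (fun p q => decide (arc E p q))
    (2 * tt E + 2) fun p x => wd E c p (x + p.2.2.1) := by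
  have tl : ∀ p, ok E p → p.2.2.1 + 1 ≤ tt E := fun p hp => by
    have := (ok_le hp).1; unfold tt; omega
  have bl : ∀ p, ok E p → p.2.2.2 < 2 ^ (E.length + pp E) := fun p hp =>
    (ok_le hp).2.trans Nat.lt_two_pow_self
  simp only [Lab, mem_vs, decide_eq_true_eq]
  constructor
  · rintro ⟨a, i, t, l⟩ hp ⟨b, j, t', l'⟩ hq h
    have t1 := tl _ hp
    have t2 := tl _ hq
    simp only at h t1 t2
    obtain rfl : t = t' := level (by omega) (by omega) (by omega) h
    obtain ⟨hl, hr⟩ := (agree (r := t) (by omega)).1 fun x hx => h x (by omega)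
    have o := (ok_le hp).1
    obtain rfl : l = l' := bits_eq (bl _ hp) (bl _ hq) fun y hy => by
      have := hl (y + max t (5 + aa E)) (by omega) (by unfold tt; simp only at o; omega)
      simp only [lb] at this
      rwa [if_neg (by omega), if_neg (by omega), Nat.add_sub_cancel] at this
    have f4 : t ≤ 4 → (a = 3 ↔ b = 3) := fun z => by
      simpa [lb, show 4 < 5 + aa E by omega] using hl 4 z (by unfold tt; omega)
    have f0 : 0 < t → (a = 0 ↔ b = 0) := fun z => by
      have := hr 0 z
      by_cases a0 : a = 0 <;> by_cases b0 : b = 0 <;> simp_all [rb]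
    by_cases a0 : a = 0
    · subst a0
      have : 1 ≤ t := by simp only [ok, if_true] at hp; omega
      obtain rfl : 0 = b := ((f0 this).1 rfl).symm
      by_cases z : t < 5 + aa E
      · rw [same_u hc hp hq le_rfl (by omega) z hl hr]
      · rw [same_id hp hq (by omega) hr]
    have b0 : b ≠ 0 := by
      rintro rfl
      simp only [ok, if_true] at hq
      omega
    have f3 : t ≤ 3 → (a = 2 ↔ b = 2) := fun z => by
      simpa [lb, side, a0, b0, show 3 < 5 + aa E by omega] using hl 3 z (by unfold tt; omega)
    simp only [ok, a0, b0, if_false] at hp hq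
    simp only [Prod.mk.injEq, and_true]
    split_ifs at hp hq <;> omega
  · rintro ⟨a, i, t, l⟩ hp ⟨b, j, t', l'⟩ hq
    have t1 := tl _ hp
    have t2 := tl _ hq
    have o := (ok_le hq).1
    simp only at t1 t2 o ⊢
    have k : t' = t + 1 → ((∀ x, x + 1 < 2 * tt E + 2 → wd E c (a, i, t, l) (x + 1 + t) =
        wd E c (b, j, t', l') (x + t')) ↔ (∀ x, t' ≤ x → x < tt E →
          lb E (a, i, t, l) x = lb E (b, j, t', l') x) ∧
            ∀ y < t, rb c (a, i, t, l) y = rb c (b, j, t', l') y) := by
      rintro rfl
      rw [← agree (by omega)]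
      refine forall_congr' fun x => ?_
      rw [show x + 1 + t = x + (t + 1) by omega]
      exact imp_congr_left (by omega)
    constructor
    · rintro ⟨e1, e2, e3, e4⟩
      simp only at e1 e2 e3 e4
      rw [k e1]
      subst e1 e2
      have b3 : b ≠ 3 := by
        rintro rfl
        simp [ok] at hq
      refine ⟨fun x h1 h2 => ?_, fun y hy => ?_⟩
      · simp only [lb]
        split_ifs with z1 z2
        · have : nx E t l = l := if_pos (by omega)
          rw [this] at hq ⊢
          simp only [side]
          by_cases a0 : a = 0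
          · simp_all
          by_cases b0 : b = 0
          · simp only [a0, b0, if_true, if_false] at e4 ⊢
            simp only [ok, a0, e3, if_false] at hp
            have he : l < E.length := hp.2.2.2
            have n1 : en E 1 l = E[l].1 := by simp [en, List.getD_eq_getElem?_getD, he]
            have n2 : en E 2 l = E[l].2 := by simp [en, List.getD_eq_getElem?_getD, he]
            have k := hc _ (List.getElem_mem he)
            rw [← n1, ← n2] at k
            have : en E 1 l ≠ en E 2 l := fun h => k (by rw [h])
            obtain rfl | rfl : a = 1 ∨ a = 2 := by omega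
            · simp [e4.2, this]
            · simp [e4.2]
          · simp only [a0, b0, if_false] at e4 ⊢
            rw [e4.resolve_right (by omega)]
        · rw [beq_false_of_ne e3, beq_false_of_ne b3]
        · unfold nx
          split_ifs with z3
          · rw [max_eq_right (by omega), max_eq_right (by omega)]
          · rw [max_eq_left (by omega), max_eq_left (by omega), Nat.testBit_div_two]
            congr 1
            omega
      · by_cases a0 : a = 0
        · simp_all [rb]
        by_cases b0 : b = 0
        · simp only [a0, b0, if_true, if_false] at e4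
          omega
        · simp [rb, a0, b0]
    · intro h
      obtain rfl : t' = t + 1 := (level (n := 2 * tt E + 1) (by omega) (by omega) (by omega)
        fun x hx => by rw [← h x (by omega), show x + 1 + t = x + (t + 1) by omega]).symm
      obtain ⟨hl, hr⟩ := (k rfl).1 h
      have e : l' = nx E t l := by
        refine bits_eq (bl _ hq) (lt_of_le_of_lt (show _ ≤ l by unfold nx; split_ifs <;> omega) (bl _ hp))
          fun y hy => ?_
        have := hl (y + max (t + 1) (5 + aa E)) (by omega) (by unfold tt; omega)
        simp only [lb] at this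
        rw [if_neg (by omega), if_neg (by omega), Nat.add_sub_cancel] at this
        rw [← this]
        unfold nx
        split_ifs with z3
        · rw [max_eq_right (by omega), max_eq_right (by omega), Nat.add_sub_cancel]
        · rw [max_eq_left (by omega), max_eq_left (by omega), Nat.testBit_div_two]
          congr 1
          omega
      subst e
      have b3 : b ≠ 3 := by
        rintro rfl
        simp [ok] at hq
      have a3 : a ≠ 3 := by
        rintro rfl
        have : t = 0 := by simp [ok] at hp; omega
        simpa [lb, show 4 < 5 + aa E by omega, b3] using hl 4 (by omega) (by unfold tt; omega)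
      have f0 : 0 < t → (a = 0 ↔ b = 0) := fun z => by
        have := hr 0 z
        by_cases a0 : a = 0 <;> by_cases b0 : b = 0 <;> simp_all [rb]
      refine ⟨rfl, rfl, a3, ?_⟩
      simp only
      by_cases a0 : a = 0
      · subst a0
        have : 1 ≤ t := by simp only [ok, if_true] at hp; omega
        obtain rfl : 0 = b := ((f0 this).1 rfl).symm
        rw [if_pos rfl]
        refine ⟨rfl, Eq.symm ?_⟩
        by_cases z : t + 1 < 5 + aa E
        · have : nx E t l = l := if_pos (by omega)
          rw [this] at hq hl hr
          exact same_u hc hp hq (by omega) le_rfl z hl hr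
        · exact same_id hp hq (by omega) hr
      rw [if_neg a0]
      simp only [ok, a0, a3, if_false] at hp
      have n : nx E t l = l := if_pos (by omega)
      rw [n] at hq hl hr
      by_cases b0 : b = 0
      · subst b0
        obtain rfl : t = 0 := by omega
        have := hl 3 (by omega) (by unfold tt; omega)
        simp only [lb, side, a0, if_true, if_false, if_pos (show 3 < 5 + aa E by omega),
          beq_eq_beq] at this
        simp only [ok, if_true] at hq
        rw [if_pos rfl]
        obtain rfl | rfl : a = 1 ∨ a = 2 := by omega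
        all_goals omega
      · rw [if_neg b0]
        simp only [ok, b0, b3, if_false] at hq
        have f3 : t + 1 ≤ 3 → (a = 2 ↔ b = 2) := fun z => by
          simpa [lb, side, a0, b0, show 3 < 5 + aa E by omega] using hl 3 z (by unfold tt; omega)
        omega

end

theorem hard : Hard InL2 := fun L hL => by
  obtain ⟨f, hf, e⟩ := hard_COL4 L hL
  refine ⟨fun x => red (f x), red_pt.comp hf, fun x => (e x).2.trans ?_⟩
  simp only [red]
  rw [mk_iff _ vs_nodup]
  exact ⟨fun ⟨c, hc⟩ => ⟨_, by omega, _, complete hc⟩, fun ⟨_, _, _, h⟩ => sound (e x).1 h⟩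

end Pool.Agent.H24.Dbg
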