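import Pool.Agent.H24.H10Sys

set_option autoImplicit false

/-! First-order formulas over a type of atomic formulas (de Bruijn variables), Gödel codes,
definability, and a generic undecidability criterion. -/

namespace Pool.Agent.H24.FO

/-- first-order formulas built from atomic formulas in `α` by negation, conjunction and the
existential quantifier (which binds the variable `0` and shifts the others) -/
inductive Fm (α : Type) : Type
  | atom (a : α) : Fm α
  | neg (φ : Fm α) : Fm α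
  | and (φ ψ : Fm α) : Fm α
  | ex (φ : Fm α) : Fm α

/-- Gödel number of a formula -/
def Fm.code {α : Type} [Encodable α] : Fm α → ℕ
  | .atom a => Nat.pair 0 (Encodable.encode a)
  | .neg φ => Nat.pair 1 φ.code
  | .and φ ψ => Nat.pair 2 (Nat.pair φ.code ψ.code)
  | .ex φ => Nat.pair 3 φ.code

/-- Tarski semantics, given the meaning of the atomic formulas -/
def Fm.Sat {α M : Type} (sat : α → (ℕ → M) → Prop) : Fm α → (ℕ → M) → Prop
  | .atom a, σ => sat a σ
  | .neg φ, σ => ¬ φ.Sat sat σ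
  | .and φ ψ, σ => φ.Sat sat σ ∧ ψ.Sat sat σ
  | .ex φ, σ => ∃ m : M, φ.Sat sat fun i => Nat.casesOn i m σ

theorem Fm.code_inj {α : Type} [Encodable α] : ∀ φ ψ : Fm α, φ.code = ψ.code → φ = ψ := by
  intro φ
  induction φ with
  | atom a => intro ψ h; cases ψ <;> simp_all [Fm.code, Nat.pair_eq_pair]
  | neg φ ih =>
    intro ψ h
    cases ψ <;> simp [Fm.code, Nat.pair_eq_pair] at h
    rw [ih _ h]
  | and φ φ' ih ih' =>
    intro ψ h
    cases ψ <;> simp [Fm.code, Nat.pair_eq_pair] at h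
    rw [ih _ h.1, ih' _ h.2]
  | ex φ ih =>
    intro ψ h
    cases ψ <;> simp [Fm.code, Nat.pair_eq_pair] at h
    rw [ih _ h]

variable {α M : Type} {sat : α → (ℕ → M) → Prop}

/-- definable relations -/
def Def (sat : α → (ℕ → M) → Prop) (R : (ℕ → M) → Prop) : Prop :=
  ∃ φ : Fm α, ∀ σ, φ.Sat sat σ ↔ R σ

theorem Def.congr {R S : (ℕ → M) → Prop} (h : Def sat R) (e : ∀ σ, R σ ↔ S σ) : Def sat S :=
  let ⟨φ, hφ⟩ := h; ⟨φ, fun σ => (hφ σ).trans (e σ)⟩

theorem Def.not {R : (ℕ → M) → Prop} (h : Def sat R) : Def sat fun σ => ¬ R σ :=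
  let ⟨φ, hφ⟩ := h; ⟨.neg φ, fun σ => not_congr (hφ σ)⟩

theorem Def.and {R S : (ℕ → M) → Prop} (h : Def sat R) (k : Def sat S) :
    Def sat fun σ => R σ ∧ S σ :=
  let ⟨φ, hφ⟩ := h; let ⟨ψ, hψ⟩ := k; ⟨.and φ ψ, fun σ => and_congr (hφ σ) (hψ σ)⟩

theorem Def.or {R S : (ℕ → M) → Prop} (h : Def sat R) (k : Def sat S) :
    Def sat fun σ => R σ ∨ S σ :=
  (h.not.and k.not).not.congr fun σ => by tauto

theorem Def.imp {R S : (ℕ → M) → Prop} (h : Def sat R) (k : Def sat S) :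
    Def sat fun σ => R σ → S σ :=
  (h.and k.not).not.congr fun σ => by tauto

theorem Def.ex {R : M → (ℕ → M) → Prop} (h : Def sat fun σ => R (σ 0) fun i => σ (i + 1)) :
    Def sat fun σ => ∃ m, R m σ :=
  let ⟨φ, hφ⟩ := h; ⟨.ex φ, fun _ => exists_congr fun _ => hφ _⟩

theorem Def.all {R : M → (ℕ → M) → Prop} (h : Def sat fun σ => R (σ 0) fun i => σ (i + 1)) :
    Def sat fun σ => ∀ m, R m σ :=
  (Def.ex (R := fun m σ => ¬ R m σ) h.not).not.congr fun σ => by simp

theorem Def.list {ι : Type} {R : ι → (ℕ → M) → Prop} {T : (ℕ → M) → Prop} (hT : Def sat T)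
    (L : List ι) (h : ∀ c, Def sat (R c)) : Def sat fun σ => T σ ∧ ∀ c ∈ L, R c σ := by
  induction L with
  | nil => exact hT.congr (by simp)
  | cons c L ih => exact (ih.and (h c)).congr fun σ => by simp only [List.forall_mem_cons]; tauto

/-- dependence on the first `k` variables only -/
def Supp (R : (ℕ → M) → Prop) (k : ℕ) : Prop := ∀ σ τ, (∀ i < k, σ i = τ i) → (R σ ↔ R τ)

theorem Supp.mono {R : (ℕ → M) → Prop} {k l : ℕ} (h : Supp R k) (e : k ≤ l) : Supp R l :=
  fun σ τ h' => h σ τ fun i hi => h' i (by omega)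

theorem supp (hs : ∀ a, ∃ k, Supp (sat a) k) (φ : Fm α) : ∃ k, Supp (φ.Sat sat) k := by
  induction φ with
  | atom a => exact hs a
  | neg φ ih => obtain ⟨k, h⟩ := ih; exact ⟨k, fun σ τ e => not_congr (h σ τ e)⟩
  | and φ ψ ih ih' =>
    obtain ⟨k, h⟩ := ih
    obtain ⟨l, h'⟩ := ih'
    exact ⟨k + l, fun σ τ e => and_congr (h.mono (by omega) σ τ e) (h'.mono (by omega) σ τ e)⟩
  | ex φ ih =>
    obtain ⟨k, h⟩ := ih
    refine ⟨k, fun σ τ e => exists_congr fun m => h _ _ fun i hi => ?_⟩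
    cases i with
    | zero => rfl
    | succ i => exact e i (by omega)

theorem sat_iter (k : ℕ) (φ : Fm α) (σ : ℕ → M) :
    (Fm.ex^[k] φ).Sat sat σ ↔ ∃ τ, (∀ i, τ (i + k) = σ i) ∧ φ.Sat sat τ := by
  induction k generalizing σ with
  | zero => exact ⟨fun h => ⟨σ, fun _ => rfl, h⟩, fun ⟨τ, e, h⟩ => by rwa [← funext e]⟩
  | succ k ih =>
    rw [Function.iterate_succ_apply']
    constructor
    · rintro ⟨m, h⟩
      obtain ⟨τ, e, h⟩ := (ih _).1 h
      exact ⟨τ, fun i => by rw [add_comm k, ← add_assoc, e], h⟩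
    · rintro ⟨τ, e, h⟩
      refine ⟨τ k, (ih _).2 ⟨τ, fun i => ?_, h⟩⟩
      cases i with
      | zero => simp
      | succ i => rw [add_assoc, add_comm 1, e]

theorem undec' [Encodable α] (hs : ∀ a, ∃ k, Supp (sat a) k) {K : ℕ → Prop}
    (hK : ¬ ComputablePred K) {R : (ℕ → M) → Prop} (hR : Def sat R) (c : ℕ → α)
    (hc : Computable fun n => Encodable.encode (c n)) (k : ℕ) (hk : ∀ n, Supp (sat (c n)) k)
    (h : ∀ n, K n ↔ ∃ σ, sat (c n) σ ∧ R σ) (σ0 : ℕ → M) :
    ¬ ComputablePred fun n : ℕ => ∃ φ : Fm α, φ.code = n ∧ φ.Sat sat σ0 := by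
  obtain ⟨ψ, hψ⟩ := hR
  obtain ⟨l, hl⟩ := supp hs ψ
  refine H10.not_comp_of_red hK (fun n => (Fm.ex^[k + l] (.and (.atom (c n)) ψ)).code) ?_
    fun n => ?_
  · generalize k + l = j
    induction j with
    | zero =>
      exact Primrec₂.natPair.to_comp.comp (Computable.const 2) (Primrec₂.natPair.to_comp.comp
        (Primrec₂.natPair.to_comp.comp (Computable.const 0) hc)
        (Computable.const _))
    | succ j ih =>
      simp only [Function.iterate_succ_apply']
      exact Primrec₂.natPair.to_comp.comp (Computable.const 3) ih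
  · rw [h]
    constructor
    · rintro ⟨σ, h1, h2⟩
      refine ⟨_, rfl, (sat_iter _ _ _).2
        ⟨fun i => if i < k + l then σ i else σ0 (i - (k + l)), fun i => by simp, ?_, ?_⟩⟩
      · exact ((hk n).mono (Nat.le_add_right k l) _ _ fun i hi => by simp [hi]).2 h1
      · exact (hl.mono (Nat.le_add_left l k) _ _ fun i hi => by simp [hi]).2 ((hψ σ).2 h2)
    · rintro ⟨φ, e, h1⟩
      rw [Fm.code_inj _ _ e, sat_iter] at h1
      obtain ⟨τ, -, h1, h2⟩ := h1
      exact ⟨τ, h1, (hψ τ).1 h2⟩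

theorem undec [Primcodable α] (hs : ∀ a, ∃ k, Supp (sat a) k) {K : ℕ → Prop}
    (hK : ¬ ComputablePred K) {R : (ℕ → M) → Prop} (hR : Def sat R) (c : ℕ → α)
    (hc : Computable c) (k : ℕ) (hk : ∀ n, Supp (sat (c n)) k)
    (h : ∀ n, K n ↔ ∃ σ, sat (c n) σ ∧ R σ) (σ0 : ℕ → M) :
    ¬ ComputablePred fun n : ℕ => ∃ φ : Fm α, φ.code = n ∧ φ.Sat sat σ0 :=
  undec' hs hK hR c (Computable.encode.comp hc) k hk h σ0

end Pool.Agent.H24.FO
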