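import Mathlib

set_option autoImplicit false
open FirstOrder FirstOrder.Language

namespace Pool.Agent.H24.Forb

abbrev C : Type := Fin 8 ⊕ Fin 2

inductive Rl : ℕ → Type
  | r (c : C) : Rl 3

def LL : FirstOrder.Language.{0, 0} := ⟨fun _ => Empty, Rl⟩

theorem LL_fin : Finite (Σ l, LL.Relations l) :=
  Finite.of_surjective (fun c : C => (⟨3, Rl.r c⟩ : Σ l, LL.Relations l)) (by
    rintro ⟨l, ⟨c⟩⟩
    exact ⟨c, rfl⟩)

abbrev D (X : Type) : Type := C → X → X → X → Prop

@[reducible] def st {X : Type} (R : D X) : LL.Structure X where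
  funMap := fun f => Empty.elim f
  RelMap := fun {_} r v => match r, v with
    | Rl.r c, v => R c (v 0) (v 1) (v 2)

def un {X : Type} (M : LL.Structure X) : D X :=
  fun c x y z => @Structure.RelMap LL X M 3 (Rl.r c) ![x, y, z]

def eqv (X : Type) : D X ≃ LL.Structure X where
  toFun := st
  invFun := un
  left_inv := fun R => rfl
  right_inv := fun M => by
    ext l r v
    · exact Empty.elim r
    · cases r with
      | r c =>
        change @Structure.RelMap LL X M 3 (Rl.r c) ![v 0, v 1, v 2] ↔ _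
        have : ![v 0, v 1, v 2] = v := by
          funext i; fin_cases i <;> rfl
        rw [this]

def F (p : Fin 8 × C) : D (Fin 6) := fun c x y z =>
  (c = Sum.inl p.1 ∧ x = 0 ∧ y = 1 ∧ z = 2) ∨
    (c = p.2 ∧ x = (if p.2.isLeft then 1 else 5) ∧ y = 3 ∧ z = 4)

def Good {X : Type} (R : D X) : Prop :=
  (∀ c c' x y z v w, R (Sum.inl c) x y z → R (Sum.inl c') y v w → False) ∧
    (∀ c t x y z u v w, R (Sum.inl c) x y z → R (Sum.inr t) u v w → False)

theorem hom_iff {X Y : Type} (R : D X) (S : D Y) :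
    IsEmpty (@Language.Hom LL X Y (st R) (st S)) ↔
      ¬ ∃ f : X → Y, ∀ c x y z, R c x y z → S c (f x) (f y) (f z) := by
  rw [← not_nonempty_iff]
  refine not_congr ⟨fun ⟨h⟩ => ?_, fun ⟨f, hf⟩ => ?_⟩
  · letI := st R
    letI := st S
    exact ⟨h, fun c x y z hc => h.map_rel (Rl.r c) ![x, y, z] hc⟩
  · exact ⟨@Language.Hom.mk LL X Y (st R) (st S) f (fun g => Empty.elim g) (by
      intro l r v hv
      cases r with
      | r c => exact hf c _ _ _ hv)⟩

theorem good_iff {X : Type} (R : D X) :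
    (∀ p, IsEmpty (@Language.Hom LL (Fin 6) X (st (F p)) (st R))) ↔ Good R := by
  simp only [hom_iff]
  constructor
  · intro h
    refine ⟨fun c c' x y z v w h1 h2 => h (c, Sum.inl c') ⟨![x, y, z, v, w, x], ?_⟩,
      fun c t x y z u v w h1 h2 => h (c, Sum.inr t) ⟨![x, y, z, v, w, u], ?_⟩⟩
    · rintro _ _ _ _ (⟨rfl, rfl, rfl, rfl⟩ | ⟨rfl, rfl, rfl, rfl⟩)
      · exact h1
      · exact h2
    · rintro _ _ _ _ (⟨rfl, rfl, rfl, rfl⟩ | ⟨rfl, rfl, rfl, rfl⟩)
      · exact h1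
      · exact h2
  · rintro ⟨h1, h2⟩ ⟨c, c'⟩ ⟨f, hf⟩
    have a := hf _ _ _ _ (Or.inl ⟨rfl, rfl, rfl, rfl⟩)
    have b := hf _ _ _ _ (Or.inr ⟨rfl, rfl, rfl, rfl⟩)
    rcases c' with c' | t
    · exact h1 _ _ _ _ _ _ _ a b
    · exact h2 _ _ _ _ _ _ _ _ a b

def at3 (t : Fin 2) : LL.BoundedFormula Empty 3 :=
  Relations.boundedFormula (L := LL) (Rl.r (Sum.inr t)) ![&0, &1, &2]

def ph : LL.Sentence := ∀' ∀' ∀' (∼(at3 0) ⊓ ∼(at3 1))

def TE {X : Type} (R : D X) : Prop := ∀ t x y z, ¬ R (Sum.inr t) x y z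

theorem ph_iff {X : Type} (R : D X) : @Sentence.Realize LL X (st R) ph ↔ TE R := by
  letI := st R
  simp only [ph, Sentence.Realize, Formula.Realize, BoundedFormula.realize_all,
    BoundedFormula.realize_inf, BoundedFormula.realize_not, at3, BoundedFormula.realize_rel, TE,
    Fin.forall_fin_two, forall_and]
  rfl

theorem cardP : Nat.card Prop = 2 := by simp

theorem card_T (n : ℕ) : Nat.card (Fin 2 → Fin n → Fin n → Fin n → Prop) = 2 ^ (2 * n ^ 3) := by
  simp only [Nat.card_fun, Nat.card_fin, cardP, ← pow_mul]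
  congr 1; ring

theorem c1 (n : ℕ) : 2 ^ (2 * n ^ 3) ≤ Nat.card {R : D (Fin n) // Good R} := by
  rw [← card_T]
  refine Nat.card_le_card_of_injective
    (fun T => ⟨Sum.elim (fun _ _ _ _ => False) T, fun _ _ _ _ _ _ _ h => h.elim,
      fun _ _ _ _ _ _ _ _ h => h.elim⟩) ?_
  intro T T' h
  funext t
  exact congrFun (congrArg Subtype.val h) (Sum.inr t)

theorem c2 (n : ℕ) : Nat.card {R : D (Fin n) // Good R} ≤
    Nat.card {R : D (Fin n) // Good R ∧ TE R} + 2 ^ (2 * n ^ 3) := by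
  classical
  rw [← card_T, ← Nat.card_sum]
  refine Nat.card_le_card_of_injective
    (fun R => if h : TE R.1 then Sum.inl ⟨R.1, R.2, h⟩ else Sum.inr (fun t => R.1 (Sum.inr t))) ?_
  intro R R' h
  have key : ∀ R : {R : D (Fin n) // Good R}, ¬ TE R.1 → ∀ c, R.1 (Sum.inl c) =
      fun _ _ _ => False := by
    intro R hR c
    funext x y z
    refine propext ⟨fun h1 => hR fun t u v w h2 => R.2.2 _ _ _ _ _ _ _ _ h1 h2, False.elim⟩
  simp only at h
  split_ifs at h with a b b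
  · exact Subtype.ext (Subtype.mk.inj (Sum.inl_injective h))
  · refine Subtype.ext (funext fun c => ?_)
    rcases c with c | t
    · rw [key R a, key R' b]
    · exact congrFun (Sum.inr_injective h) t

theorem c3 (k : ℕ) : 2 ^ (2 * (k + k) ^ 3) ≤ Nat.card {R : D (Fin (k + k)) // Good R ∧ TE R} := by
  have : Nat.card (Fin 8 → Fin k → Fin k → Fin (k + k) → Prop) = 2 ^ (2 * (k + k) ^ 3) := by
    simp only [Nat.card_fun, Nat.card_fin, cardP, ← pow_mul]
    congr 1; ring
  rw [← this]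
  refine Nat.card_le_card_of_injective
    (fun f => ⟨Sum.elim (fun c x y z => ∃ i j, x = Fin.castAdd k i ∧ y = Fin.natAdd k j ∧
      f c i j z) (fun _ _ _ _ => False), ⟨?_, fun _ _ _ _ _ _ _ _ _ h => h⟩,
      fun _ _ _ _ h => h⟩) ?_
  · rintro c c' x y z v w ⟨i, j, -, h1, -⟩ ⟨i', j', h2, -⟩
    have := congrArg Fin.val (h1.symm.trans h2)
    simp at this
    omega
  · intro f g h
    funext c i j z
    have := congrFun (congrFun (congrFun (congrFun (congrArg Subtype.val h) (Sum.inl c))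
      (Fin.castAdd k i)) (Fin.natAdd k j)) z
    simpa using this

theorem c4 (k : ℕ) (hk : 1 ≤ k) :
    4 * Nat.card {R : D (Fin (2 * k + 1)) // Good R ∧ TE R} ≤ 2 ^ (2 * (2 * k + 1) ^ 3) := by
  classical
  set n := 2 * k + 1 with hn
  have h1 : Nat.card {R : D (Fin n) // Good R ∧ TE R} ≤
      Nat.card (Σ A : Finset (Fin n), (Fin 8 → A → (Aᶜ : Finset (Fin n)) → Fin n → Prop)) := by
    refine Nat.card_le_card_of_surjective (fun s => (⟨Sum.elim (fun c x y z =>
      ∃ (hx : x ∈ s.1) (hy : y ∈ s.1ᶜ), s.2 c ⟨x, hx⟩ ⟨y, hy⟩ z) (fun _ _ _ _ => False),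
      ⟨?_, fun _ _ _ _ _ _ _ _ _ h => h⟩, fun _ _ _ _ h => h⟩ :
        {R : D (Fin n) // Good R ∧ TE R})) ?_
    · rintro c c' x y z v w ⟨-, h1, -⟩ ⟨h2, -⟩
      exact Finset.mem_compl.1 h1 h2
    · rintro ⟨R, hR, hT⟩
      refine ⟨⟨Finset.univ.filter (fun x => ∃ c y z, R (Sum.inl c) x y z),
        fun c x y z => R (Sum.inl c) x y z⟩, Subtype.ext (funext fun c => ?_)⟩
      rcases c with c | t
      · funext x y z
        refine propext ⟨fun ⟨_, _, h⟩ => h, fun h => ⟨?_, ?_, h⟩⟩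
        · simpa using ⟨c, y, z, h⟩
        · simpa using fun c' v w h' => hR.1 _ _ _ _ _ _ _ h h'
      · funext x y z
        exact propext ⟨False.elim, hT t x y z⟩
  have h2 : ∀ A : Finset (Fin n),
      Nat.card (Fin 8 → A → (Aᶜ : Finset (Fin n)) → Fin n → Prop) * 2 ^ (2 * n) ≤
        2 ^ (2 * n ^ 3) := by
    intro A
    simp only [Nat.card_fun, Nat.card_fin, cardP, ← pow_mul, ← pow_add,
      Nat.card_eq_finsetCard]
    refine Nat.pow_le_pow_right (by norm_num) ?_
    have h3 : A.card + Aᶜ.card = n := by simp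
    generalize A.card = a at h3
    generalize Aᶜ.card = b at h3
    have h4 : 4 * (a * b) + 1 ≤ n ^ 2 := by
      rw [← h3]
      have : (a : ℤ) - b ≠ 0 := by omega
      have h5 := sq_pos_of_ne_zero this
      zify
      nlinarith
    nlinarith [Nat.mul_le_mul_left n h4]
  rw [Nat.card_sigma] at h1
  have h3 : Nat.card {R : D (Fin n) // Good R ∧ TE R} * 2 ^ (2 * n) ≤ 2 ^ n * 2 ^ (2 * n ^ 3) := by
    refine (Nat.mul_le_mul_right _ h1).trans ?_
    rw [Finset.sum_mul]
    refine (Finset.sum_le_sum fun A _ => h2 A).trans ?_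
    simp
  have h4 : 2 ^ (2 * n) = 2 ^ n * 2 ^ n := by rw [← pow_add]; congr 1; ring
  have h5 : 4 ≤ 2 ^ n := by
    calc 4 = 2 ^ 2 := rfl
      _ ≤ 2 ^ n := Nat.pow_le_pow_right (by norm_num) (by omega)
  rw [h4, ← mul_assoc, mul_comm (2 ^ n) (2 ^ (2 * n ^ 3))] at h3
  have h6 := Nat.le_of_mul_le_mul_right h3 (by positivity)
  nlinarith

theorem noconv (c : ℝ) : ¬ Filter.Tendsto (fun n : ℕ =>
    (Nat.card {R : D (Fin n) // Good R ∧ TE R} : ℝ) / (Nat.card {R : D (Fin n) // Good R} : ℝ))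
    Filter.atTop (nhds c) := by
  intro h
  have hpos : ∀ n, (0 : ℝ) < (Nat.card {R : D (Fin n) // Good R} : ℝ) := fun n => by
    exact_mod_cast lt_of_lt_of_le (by positivity) (c1 n)
  have h1 : 1 / 2 ≤ c := by
    refine ge_of_tendsto' (h.comp (Filter.tendsto_atTop_atTop.2
      (fun b => ⟨b, fun a ha => (by omega : b ≤ a + a)⟩))) fun k => ?_
    simp only [Function.comp_apply]
    rw [le_div_iff₀ (hpos _)]
    have : Nat.card {R : D (Fin (k + k)) // Good R} ≤
        2 * Nat.card {R : D (Fin (k + k)) // Good R ∧ TE R} := by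
      have := c2 (k + k)
      have := c3 k
      omega
    have : (Nat.card {R : D (Fin (k + k)) // Good R} : ℝ) ≤
        2 * Nat.card {R : D (Fin (k + k)) // Good R ∧ TE R} := by exact_mod_cast this
    linarith
  have h2 : c ≤ 1 / 4 := by
    refine le_of_tendsto' (h.comp (Filter.tendsto_atTop_atTop.2
      (fun b => ⟨b, fun a ha => (by omega : b ≤ 2 * (a + 1) + 1)⟩))) fun k => ?_
    simp only [Function.comp_apply]
    rw [div_le_iff₀ (hpos _)]
    have := (c4 (k + 1) (by omega)).trans (c1 _)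
    have : (4 : ℝ) * Nat.card {R : D (Fin (2 * (k + 1) + 1)) // Good R ∧ TE R} ≤
        Nat.card {R : D (Fin (2 * (k + 1) + 1)) // Good R} := by exact_mod_cast this
    linarith
  linarith

end Pool.Agent.H24.Forb
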