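import Pool.Agent.H24.FsDefs
import Pool.Agent.H24.Cf2

namespace Pool.Agent.H24.Fs
open Pool.Agent.H24.Cf

variable {T Δ Ψ Ψ' Q Γ A B : Type}

def Path (src tgt : Ψ → Q) : Q → List Ψ → Q → Prop
  | q, [], p => q = p
  | q, r :: μ, p => src r = q ∧ Path src tgt (tgt r) μ p

theorem path_append {src tgt : Ψ → Q} (u v : List Ψ) : ∀ q p,
    Path src tgt q (u ++ v) p ↔ ∃ m, Path src tgt q u m ∧ Path src tgt m v p := by
  induction u with
  | nil => intro q p; simp [Path]
  | cons r u ih => intro q p; simp [Path, ih, and_assoc]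

theorem path_map {src tgt : Ψ' → Q} (φ : Ψ → Ψ') (μ : List Ψ) : ∀ q p,
    Path src tgt q (μ.map φ) p ↔ Path (fun r => src (φ r)) (fun r => tgt (φ r)) q μ p := by
  induction μ with
  | nil => intro q p; rfl
  | cons r u ih => intro q p; simp [Path, ih]

theorem stk_map {pop : Ψ' → Γ} {push} (φ : Ψ → Ψ') (μ : List Ψ) : ∀ α β,
    Stk pop push α (μ.map φ) β ↔ Stk (fun r => pop (φ r)) (fun r => push (φ r)) α μ β := by
  induction μ with
  | nil => intro q p; rfl
  | cons r u ih => intro q p; simp [Stk, ih]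

theorem path_scf [Finite Q] {K : Set (List Ψ)} (hK : SCF K) (src tgt : Ψ → Q) (q : Q) (F : Set Q) :
    SCF {w | w ∈ K ∧ ∃ f ∈ F, Path src tgt q w f} := by
  refine hK.inter (fun z => {p : Q × Q | Path src tgt p.1 z p.2}) (fun u u' v v' a b => ?_) _ ?_
  · ext ⟨s, f⟩
    simp only [Set.mem_ofPred_eq, path_append]
    exact exists_congr fun m => and_congr (Set.ext_iff.1 a (s, m)) (Set.ext_iff.1 b (m, f))
  · rintro u v e ⟨f, k2, k3⟩
    exact ⟨f, k2, (Set.ext_iff.1 e (q, f)).1 k3⟩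

theorem SPDA.run_iff (M : SPDA T) (μ : List M.Ψ) : ∀ α q v α' q' v', M.Run (α, q, v) μ (α', q', v') ↔
    Stk M.pop (fun r => (M.push r).reverse) α.reverse μ α'.reverse ∧ Path M.src M.tgt q μ q' ∧
      v = μ.flatMap M.inp ++ v' := by
  induction μ with
  | nil =>
    intro α q v α' q' v'
    constructor
    · intro h; cases h; exact ⟨rfl, rfl, rfl⟩
    · rintro ⟨a, rfl, rfl⟩
      rw [List.reverse_inj.1 a]
      exact .nil _
  | cons r μ ih =>
    intro α q v α' q' v'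
    constructor
    · intro h
      cases h with
      | cons _ α v _ _ h =>
        obtain ⟨a, b, rfl⟩ := (ih _ _ _ _ _ _).1 h
        exact ⟨⟨α.reverse, by simp, by simpa using a⟩, ⟨rfl, b⟩, by simp⟩
    · rintro ⟨⟨β, a, b⟩, ⟨rfl, c⟩, rfl⟩
      rw [List.reverse_eq_iff.1 a, List.reverse_cons, List.flatMap_cons, List.append_assoc]
      exact .cons r _ _ _ _ ((ih _ _ _ _ _ _).2 ⟨by simpa using b, c, rfl⟩)

theorem SFA.run_iff (M : SFA T) (μ : List M.Ψ) : ∀ q v q' v', M.Run (q, v) μ (q', v') ↔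
    Path M.src M.tgt q μ q' ∧ v = μ.flatMap M.inp ++ v' := by
  induction μ with
  | nil =>
    intro q v q' v'
    constructor
    · intro h; cases h; exact ⟨rfl, rfl⟩
    · rintro ⟨rfl, rfl⟩
      exact .nil _
  | cons r μ ih =>
    intro q v q' v'
    constructor
    · intro h
      cases h with
      | cons _ v _ _ h =>
        obtain ⟨b, rfl⟩ := (ih _ _ _ _).1 h
        exact ⟨⟨rfl, b⟩, by simp⟩
    · rintro ⟨⟨rfl, c⟩, rfl⟩
      rw [List.flatMap_cons, List.append_assoc]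
      exact .cons r _ _ _ ((ih _ _ _ _).2 ⟨c, rfl⟩)

theorem map_split (f : A → B) : ∀ (m : ℕ) (g : Fin m → List B) (l : List A),
    l.map f = (List.ofFn g).flatten →
      ∃ b : Fin m → List A, l = (List.ofFn b).flatten ∧ ∀ j, (b j).map f = g j := by
  intro m
  induction m with
  | zero => intro g l h; exact ⟨Fin.elim0, by simpa using h, fun j => j.elim0⟩
  | succ m ih =>
    intro g l h
    rw [List.ofFn_succ, List.flatten_cons] at h
    obtain ⟨u, v, rfl, h1, h2⟩ := List.map_eq_append_iff.1 h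
    obtain ⟨b, rfl, h3⟩ := ih _ v h2
    exact ⟨Fin.cons u b, by simp [List.ofFn_succ], fun j => Fin.cases h1 h3 j⟩

theorem map_flat (f : A → B) {m : ℕ} (b : Fin m → List A) :
    (List.ofFn b).flatten.map f = (List.ofFn fun j => (b j).map f).flatten := by
  rw [List.map_flatten, List.map_ofFn]
  rfl

theorem shape_map {turn : Ψ' → Prop} {R} (φ : Ψ → Ψ') (n : ℕ) (μ : List Ψ) :
    Shape turn R n (μ.map φ) ↔ Shape (fun r => turn (φ r)) (fun r s => R (φ r) (φ s)) n μ := by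
  constructor
  · rintro ⟨k, g, h1, h2, h3, ⟨u, r, h4, h5, h6⟩, h7⟩
    obtain ⟨b, rfl, hb⟩ := map_split φ _ g μ h3
    refine ⟨k, b, h1, fun j => by rw [← h2 j, ← hb j, List.length_map], rfl, ?_, fun j => ?_⟩
    · rw [← hb] at h4
      obtain ⟨u', v', e, rfl, e2⟩ := List.map_eq_append_iff.1 h4
      obtain ⟨r', rfl, rfl⟩ : ∃ r', v' = [r'] ∧ φ r' = r := by simpa using e2
      exact ⟨u', r', e, h5, fun s hs => h6 _ (List.mem_map_of_mem hs)⟩
    · obtain ⟨r, r', a, b', c⟩ := h7 j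
      rw [← hb, List.head?_map, Option.map_eq_some_iff] at a b'
      obtain ⟨s, a, rfl⟩ := a
      obtain ⟨s', b', rfl⟩ := b'
      exact ⟨s, s', a, b', c⟩
  · rintro ⟨k, b, h1, h2, rfl, ⟨u, r, h4, h5, h6⟩, h7⟩
    refine ⟨k, fun j => (b j).map φ, h1, fun j => by simp [h2], map_flat φ b,
      ⟨u.map φ, φ r, by simp [h4], h5, by simpa using h6⟩, fun j => ?_⟩
    obtain ⟨r, r', a, b', c⟩ := h7 j
    exact ⟨φ r, φ r', by simp [a], by simp [b'], c⟩

theorem eqb_iff {n} (c : Δ → Fin (n + 1)) (w : List Δ) : w.map c ∈ EqB n ↔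
    ∃ (k : ℕ) (b : Fin (n + 1) → List Δ), 1 ≤ k ∧ w = (List.ofFn b).flatten ∧
      ∀ j, (b j).length = k ∧ ∀ d ∈ b j, c d = j := by
  constructor
  · rintro ⟨k, h1, h2⟩
    obtain ⟨b, rfl, hb⟩ := map_split c _ _ w h2
    refine ⟨k, b, h1, rfl, fun j => ?_⟩
    have := List.eq_replicate_iff.1 (hb j)
    simpa using this
  · rintro ⟨k, b, h1, rfl, hb⟩
    refine ⟨k, h1, ?_⟩
    rw [map_flat]
    congr 2
    funext j
    exact List.eq_replicate_iff.2 (by simpa using hb j)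

theorem flat_single : ∀ (m : ℕ) (g : Fin m → List A) (j : Fin m), (∀ i, i ≠ j → g i = []) →
    (List.ofFn g).flatten = g j := by
  intro m
  induction m with
  | zero => exact fun _ j => j.elim0
  | succ m ih =>
    intro g j h
    rw [List.ofFn_succ, List.flatten_cons]
    cases j using Fin.cases with
    | zero =>
      rw [List.flatten_eq_nil_iff.2, List.append_nil]
      simpa [List.mem_ofFn'] using fun i => h _ (Fin.succ_ne_zero i)
    | succ j =>
      rw [h 0 (Fin.succ_ne_zero j).symm, ih _ j fun i hi => h _ (by simpa using hi)]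
      rfl

def flt {n} (j : Fin n) (w : List (Ψ × Fin n)) : List Ψ := (w.filter fun d => d.2 = j).map (·.1)

theorem flt_append {n} (j : Fin n) (u v : List (Ψ × Fin n)) :
    flt j (u ++ v) = flt j u ++ flt j v := by simp [flt]

theorem flt_flat {n} (b : Fin n → List (Ψ × Fin n)) (hb : ∀ j, ∀ d ∈ b j, d.2 = j) (j : Fin n) :
    flt j (List.ofFn b).flatten = (b j).map (·.1) := by
  unfold flt
  rw [List.filter_flatten, List.map_ofFn, flat_single _ _ j fun i hi => ?_]
  · congr 1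
    exact List.filter_eq_self.2 (by simpa using fun x y h => hb j (x, y) h)
  · exact List.filter_eq_nil_iff.2 fun d hd => by simpa [hb i d hd] using hi

def Tn (turn : Ψ → Prop) (l : List Ψ) : Prop := ∃ u r, l = u ++ [r] ∧ turn r ∧ ∀ s ∈ u, ¬ turn s

theorem tn_append (turn : Ψ → Prop) (u v : List Ψ) : Tn turn (u ++ v) ↔
    (v = [] ∧ Tn turn u) ∨ ((∀ s ∈ u, ¬ turn s) ∧ Tn turn v) := by
  rcases v.eq_nil_or_concat with rfl | ⟨v, a, rfl⟩
  · simp [Tn]
  · simp only [Tn, List.concat_eq_append, ← List.append_assoc, List.append_cancel_right_eq,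
      List.append_singleton_inj]
    constructor
    · rintro ⟨_, _, ⟨rfl, rfl⟩, h1, h2⟩
      exact .inr ⟨fun s hs => h2 s (by simp [hs]), _, _, ⟨rfl, rfl⟩, h1, fun s hs => h2 s (by simp [hs])⟩
    · rintro (⟨h, -⟩ | ⟨h, _, _, ⟨rfl, rfl⟩, h1, h2⟩)
      · simp at h
      · exact ⟨_, _, ⟨rfl, rfl⟩, h1, fun s hs => (List.mem_append.1 hs).elim (h s) (h2 s)⟩

theorem ctl_reg [Finite Ψ] (turn : Ψ → Prop) (R : Ψ → Ψ → Prop) (n : ℕ) :
    ∃ P : List (Ψ × Fin (n + 1)) → Prop, (∀ K, SCF K → SCF {w | w ∈ K ∧ P w}) ∧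
      ∀ μ, Shape turn R n μ ↔ ∃ w, w.map (·.1) = μ ∧ P w ∧ w.map (·.2) ∈ EqB n := by
  refine ⟨fun w => Tn turn (flt 0 w) ∧ ∀ j : Fin n, ∃ r r', (flt j.castSucc w).head? = some r ∧
    (flt j.succ w).head? = some r' ∧ R r r', fun K hK => ?_, fun μ => ⟨?_, ?_⟩⟩
  · refine hK.inter (fun w => (Tn turn (flt 0 w), flt 0 w = [], (∀ s ∈ flt 0 w, ¬ turn s),
      fun j => (flt j w).head?)) (fun u u' v v' a b => ?_) _ fun u v e k => ?_
    · simp only [Prod.mk.injEq, eq_iff_iff, funext_iff] at a b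
      simp only [flt_append, tn_append, List.append_eq_nil_iff, List.forall_mem_append,
        List.head?_append, a, b]
    · simp only [Prod.mk.injEq, eq_iff_iff, funext_iff] at e
      simpa only [e] using k
  · rintro ⟨k, b, h1, h2, rfl, h4, h7⟩
    have hb : ∀ j, ∀ d ∈ (b j).map fun r => (r, j), d.2 = j := by simp
    refine ⟨(List.ofFn fun j => (b j).map fun r => (r, j)).flatten, by simp [map_flat, Function.comp_def],
      ?_, (eqb_iff _ _).2 ⟨k, _, h1, rfl, fun j => ⟨by simp [h2], hb j⟩⟩⟩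
    simp only [flt_flat _ hb, List.map_map, Function.comp_def, List.map_id']
    exact ⟨h4, h7⟩
  · rintro ⟨w, rfl, h1, h2⟩
    obtain ⟨k, b, a1, rfl, a2⟩ := (eqb_iff _ _).1 h2
    simp only [flt_flat _ fun j => (a2 j).2] at h1
    exact ⟨k, _, a1, fun j => by simp [(a2 j).1], map_flat _ b, h1.1, h1.2⟩

end Pool.Agent.H24.Fs
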