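import Pool.Agent.H24.Fs1

namespace Pool.Agent.H24.Fs
open Pool.Agent.H24.Cf

variable {T Δ Ψ Ψ' Q Γ A B : Type} {n : ℕ}

theorem SPDA.mem_lang (M : SPDA T) (w) : w ∈ M.lang n ↔ ∃ f ∈ M.F, ∃ μ,
    (Stk M.pop (fun r => (M.push r).reverse) [M.Z0] μ [] ∧ Path M.src M.tgt M.q0 μ f ∧
      w = μ.flatMap M.inp) ∧ Shape (fun r => M.tgt r = M.qt) M.R n μ := by
  change (∃ f ∈ M.F, ∃ μ, M.Run ([M.Z0], M.q0, w) μ ([], f, []) ∧ _) ↔ _
  simp only [SPDA.run_iff, List.append_nil]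
  rfl

theorem SFA.mem_lang (M : SFA T) (w) : w ∈ M.lang n ↔ ∃ f ∈ M.F, ∃ μ,
    (Path M.src M.tgt M.q0 μ f ∧ w = μ.flatMap M.inp) ∧ Shape (fun r => M.tgt r = M.qt) M.R n μ := by
  change (∃ f ∈ M.F, ∃ μ, M.Run (M.q0, w) μ (f, []) ∧ _) ↔ _
  simp only [SFA.run_iff, List.append_nil]

abbrev CQ (n : ℕ) := Fin (n + 1) × Bool

def csrc (c : Δ → Fin (n + 1)) (e : Δ × CQ n × Bool) : CQ n := (min e.2.1.1 (c e.1), e.2.1.2)
def ctgt (c : Δ → Fin (n + 1)) (e : Δ × CQ n × Bool) : CQ n := (c e.1, e.2.2)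
def R0 (x y : CQ n × CQ n) : Prop := (y.2.1 : ℕ) = x.2.1 + 1 ∧ y.1.1 = x.2.1

theorem path_pw (c : Δ → Fin (n + 1)) (μ : List (Δ × CQ n × Bool)) : ∀ q f,
    Path (csrc c) (ctgt c) q μ f → (∀ r ∈ μ, q.1 ≤ (csrc c r).1) ∧
      μ.Pairwise fun r s => c r.1 ≤ (csrc c s).1 := by
  induction μ with
  | nil => simp
  | cons r μ ih =>
    rintro _ f ⟨rfl, h⟩
    obtain ⟨a, b⟩ := ih _ _ h
    refine ⟨?_, .cons a b⟩
    rintro s (_ | ⟨_, hs⟩)
    · exact le_rfl
    · exact (min_le_right _ _).trans (a s hs)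

theorem path_flat {src tgt : Ψ → Q} : ∀ (m : ℕ) (b : Fin m → List Ψ) (q : Fin (m + 1) → Q),
    (∀ j, Path src tgt (q j.castSucc) (b j) (q j.succ)) →
      Path src tgt (q 0) (List.ofFn b).flatten (q (Fin.last m)) := by
  intro m
  induction m with
  | zero => intro b q _; simp [Path]
  | succ m ih =>
    intro b q h
    rw [List.ofFn_succ, List.flatten_cons, path_append]
    exact ⟨_, h 0, ih (fun i => b i.succ) (fun i => q i.succ) fun j => h j.succ⟩

def mk (c : Δ → Fin (n + 1)) : CQ n → List Δ → List (Δ × CQ n × Bool)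
  | _, [] => []
  | q, d :: l => (d, q, l.isEmpty) :: mk c (c d, l.isEmpty) l

theorem mk_fst (c : Δ → Fin (n + 1)) (l : List Δ) : ∀ q, (mk c q l).map (·.1) = l := by
  induction l with
  | nil => intro q; rfl
  | cons d l ih => intro q; simp [mk, ih]

theorem mk_path (c : Δ → Fin (n + 1)) (j) (l : List Δ) (h : ∀ d ∈ l, c d = j) : ∀ q, l ≠ [] →
    q.1 ≤ j → Path (csrc c) (ctgt c) q (mk c q l) (j, true) ∧
      Tn (fun e => ctgt c e = (j, true)) (mk c q l) := by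
  induction l with
  | nil => simp
  | cons d l ih =>
    intro q _ hq
    have e := h d (.head _)
    have e1 : csrc c (d, q, l.isEmpty) = q := by simp [csrc, e, hq]
    rcases l with _ | ⟨d', l⟩
    · exact ⟨⟨e1, by simp [mk, Path, ctgt, e]⟩, [], _, rfl, by simp [ctgt, e], by simp⟩
    · obtain ⟨a, b⟩ := ih (fun x hx => h x (.tail _ hx)) (c d, false) (by simp) e.le
      exact ⟨⟨e1, a⟩, (tn_append _ [_] _).2 (.inr ⟨by simp [ctgt], b⟩)⟩

theorem ctl_can (c : Δ → Fin (n + 1)) (w : List Δ) : w.map c ∈ EqB n ↔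
    ∃ μ f, μ.map (·.1) = w ∧ Path (csrc c) (ctgt c) (0, false) μ f ∧
      Shape (fun r => ctgt c r = (0, true))
        (fun r s => R0 (csrc c r, ctgt c r) (csrc c s, ctgt c s)) n μ := by
  rw [eqb_iff]
  constructor
  · rintro ⟨k, b, h1, rfl, hb⟩
    have ne : ∀ j, b j ≠ [] := fun j e => by have := (hb j).1; simp [e] at this; omega
    let st : Fin (n + 2) → CQ n := Fin.cons (0, false) fun j => (j, true)
    have hs : ∀ j : Fin (n + 1), (st j.castSucc).1 ≤ j := fun j => by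
      cases j using Fin.cases with
      | zero => exact le_rfl
      | succ j => exact (Fin.castSucc_lt_succ (i := j)).le
    have hp := fun j => mk_path c j (b j) (hb j).2 _ (ne j) (hs j)
    refine ⟨(List.ofFn fun j => mk c (st j.castSucc) (b j)).flatten, _, by simp only [map_flat, mk_fst],
      path_flat _ _ st fun j => (hp j).1, k, _, h1, fun j => ?_, rfl, (hp 0).2, fun j => ?_⟩
    · rw [← (hb j).1, ← List.length_map (·.1), mk_fst]
    · obtain ⟨d, l, e⟩ := List.exists_cons_of_ne_nil (ne j.castSucc)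
      obtain ⟨d', l', e'⟩ := List.exists_cons_of_ne_nil (ne j.succ)
      have a := (hb j.castSucc).2 d (by simp [e])
      have a' := (hb j.succ).2 d' (by simp [e'])
      refine ⟨_, _, by rw [e]; rfl, by rw [e']; rfl, by simp [ctgt, a, a'], ?_⟩
      simp only [csrc, ctgt, a, a']
      exact min_eq_left (Fin.castSucc_lt_succ (i := j)).le
  · rintro ⟨_, f, rfl, h, k, b, h1, h2, rfl, ⟨u, r, h4, h5, -⟩, h7⟩
    obtain ⟨p1, p2⟩ := List.pairwise_flatten.1 (path_pw c _ _ _ h).2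
    rw [List.pairwise_ofFn] at p2
    have hd : ∀ j x, (b j).head? = some x → ∀ d ∈ b j, c x.1 ≤ c d.1 := by
      intro j x hx d hd
      have := p1 (b j) (List.mem_ofFn.2 ⟨j, rfl⟩)
      obtain ⟨l, e⟩ := List.head?_eq_some_iff.1 hx
      rw [e] at this hd
      rcases List.mem_cons.1 hd with rfl | hd
      · exact le_rfl
      · exact (List.rel_of_pairwise_cons this hd).trans (min_le_right _ _)
    have hc : ∀ j x, (b j).head? = some x → c x.1 = j := by
      intro j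
      induction j using Fin.induction with
      | zero =>
        intro x hx
        have := hd 0 x hx r (by simp [h4])
        rw [show c r.1 = 0 from congrArg Prod.fst h5] at this
        exact le_antisymm this (Fin.zero_le _)
      | succ j ih =>
        intro x hx
        obtain ⟨s, s', a1, a2, a3, -⟩ := h7 j
        obtain rfl : s' = x := Option.some.inj (a2.symm.trans hx)
        have := ih s a1
        apply Fin.ext
        simpa [ctgt, this] using a3
    refine ⟨k, _, h1, map_flat _ b, fun j => ⟨by simp [h2], ?_⟩⟩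
    simp only [List.forall_mem_map]
    intro d hd'
    apply le_antisymm
    · cases j using Fin.lastCases with
      | last => exact Fin.le_last _
      | cast j =>
        obtain ⟨s, s', a1, a2, -, a4⟩ := h7 j
        have := p2 (Fin.castSucc_lt_succ (i := j)) d hd' s' (List.mem_of_mem_head? a2)
        rw [show (csrc c s').1 = c s.1 from a4, hc _ _ a1] at this
        exact this
    · obtain ⟨x, l, e⟩ := List.exists_cons_of_ne_nil (List.ne_nil_of_mem hd')
      have hx : (b j).head? = some x := by rw [e]; rfl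
      exact hc j x hx ▸ hd j x hx d hd'

theorem fspda_raw [Finite Q] [Finite Γ] [Finite Ψ] (pop : Ψ → Γ) (src : Ψ → Q) (inp : Ψ → List T)
    (push : Ψ → List Γ) (tgt : Ψ → Q) (q0 qt : Q) (Z0 : Γ) (R : Q × Q → Q × Q → Prop) :
    FSPDA n ({w | ∃ μ f, Stk pop push [Z0] μ [] ∧ Path src tgt q0 μ f ∧ μ.flatMap inp = w ∧
      Shape (fun r => tgt r = qt) (fun r s => R (src r, tgt r) (src s, tgt s)) n μ} :
        Language T) := by
  let κ := fun r => (pop r, src r, inp r, (push r).reverse, tgt r)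
  refine ⟨⟨Q, Γ, Set.range κ, inferInstance, inferInstance, inferInstance, fun x => x.1.1,
    fun x => x.1.2.1, fun x => x.1.2.2.1, fun x => x.1.2.2.2.1, fun x => x.1.2.2.2.2,
    Subtype.val_injective, q0, qt, Z0, Set.univ,
    fun x y => R (x.1.2.1, x.1.2.2.2.2) (y.1.2.1, y.1.2.2.2.2)⟩, ?_⟩
  ext w
  rw [SPDA.mem_lang]
  constructor
  · rintro ⟨f, -, μ', ⟨h1, h2, rfl⟩, h4⟩
    obtain ⟨μ, rfl⟩ := (Set.rangeFactorization_surjective (f := κ)).list_map μ'
    rw [stk_map] at h1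
    rw [path_map] at h2
    rw [shape_map] at h4
    exact ⟨μ, f, by simpa [κ] using h1, h2, by simp [List.flatMap_map, κ], h4⟩
  · rintro ⟨μ, f, h1, h2, rfl, h4⟩
    refine ⟨f, trivial, μ.map (Set.rangeFactorization κ), ⟨?_, ?_, by simp [List.flatMap_map, κ]⟩, ?_⟩
    · rw [stk_map]; simpa [κ] using h1
    · rw [path_map]; exact h2
    · rw [shape_map]; exact h4

theorem fsfa_raw [Finite Q] [Finite Ψ] (src : Ψ → Q) (inp : Ψ → List T)
    (tgt : Ψ → Q) (q0 qt : Q) (R : Q × Q → Q × Q → Prop) :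
    FSFA n ({w | ∃ μ f, Path src tgt q0 μ f ∧ μ.flatMap inp = w ∧
      Shape (fun r => tgt r = qt) (fun r s => R (src r, tgt r) (src s, tgt s)) n μ} :
        Language T) := by
  let κ := fun r => (src r, inp r, tgt r)
  refine ⟨⟨Q, Set.range κ, inferInstance, inferInstance, fun x => x.1.1,
    fun x => x.1.2.1, fun x => x.1.2.2, Subtype.val_injective, q0, qt, Set.univ,
    fun x y => R (x.1.1, x.1.2.2) (y.1.1, y.1.2.2)⟩, ?_⟩
  ext w
  rw [SFA.mem_lang]
  constructor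
  · rintro ⟨f, -, μ', ⟨h2, rfl⟩, h4⟩
    obtain ⟨μ, rfl⟩ := (Set.rangeFactorization_surjective (f := κ)).list_map μ'
    rw [path_map] at h2
    rw [shape_map] at h4
    exact ⟨μ, f, h2, by simp [List.flatMap_map, κ], h4⟩
  · rintro ⟨μ, f, h2, rfl, h4⟩
    refine ⟨f, trivial, μ.map (Set.rangeFactorization κ), ⟨?_, by simp [List.flatMap_map, κ]⟩, ?_⟩
    · rw [path_map]; exact h2
    · rw [shape_map]; exact h4

def Ch (n : ℕ) (L : Language T) : Prop := ∃ (Δ : Type) (_ : Finite Δ) (K : Set (List Δ))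
  (c : Δ → Fin (n + 1)) (h : Δ → List T), SCF K ∧
    ∀ y, y ∈ L ↔ ∃ w ∈ K, w.map c ∈ EqB n ∧ w.flatMap h = y

theorem eqb_ne {u} (h : u ∈ EqB n) : u ≠ [] := by
  obtain ⟨k, h1, rfl⟩ := h
  simp [List.ofFn_succ]
  omega

theorem char1 (L : Language T) : FSPDA n L ↔ Ch n L := by
  constructor
  · rintro ⟨M, rfl⟩
    have := M.finQ
    have := M.finΨ
    obtain ⟨P, h1, h2⟩ := ctl_reg (fun r => M.tgt r = M.qt) M.R n
    refine ⟨_, inferInstance, _, (·.2), fun d => M.inp d.1, h1 _ ((path_scf (stk_scf M.pop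
      (fun r => (M.push r).reverse) [M.Z0]) M.src M.tgt M.q0 M.F).comap' (·.1)), fun y => ?_⟩
    simp only [SPDA.mem_lang, h2]
    constructor
    · rintro ⟨f, a1, _, ⟨a2, a3, rfl⟩, w, rfl, a4, a5⟩
      exact ⟨w, ⟨⟨a2, f, a1, a3⟩, a4⟩, a5, by simp [List.flatMap_map]⟩
    · rintro ⟨w, ⟨⟨a2, f, a1, a3⟩, a4⟩, a5, rfl⟩
      exact ⟨f, a1, _, ⟨a2, a3, by simp [List.flatMap_map]⟩, w, rfl, a4, a5⟩
  · rintro ⟨Δ, _, K, c, h, hK, hL⟩
    obtain ⟨Γ, Ψ, _, _, Z0, pop, push, lt, -, H⟩ := hK.realtime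
    convert fspda_raw (n := n) (fun e : Ψ × CQ n × Bool => pop e.1) (csrc fun r => c (lt r))
      (fun e => h (lt e.1)) (fun e => push e.1) (ctgt fun r => c (lt r)) (0, false) (0, true) Z0 R0
    ext y
    rw [hL]
    constructor
    · rintro ⟨w, a1, a2, rfl⟩
      obtain ⟨μ, b1, rfl⟩ := (H w).1 ⟨a1, fun e => eqb_ne a2 (by simp [e])⟩
      rw [List.map_map] at a2
      obtain ⟨ν, f, rfl, b2, b3⟩ := (ctl_can _ _).1 a2
      exact ⟨ν, f, (stk_map _ _ _ _).1 b1, b2, by simp [List.flatMap_map], b3⟩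
    · rintro ⟨ν, f, b1, b2, rfl, b3⟩
      refine ⟨(ν.map (·.1)).map lt, ((H _).2 ⟨_, (stk_map _ _ _ _).2 b1, rfl⟩).1, ?_,
        by simp [List.flatMap_map]⟩
      rw [List.map_map]
      exact (ctl_can _ _).2 ⟨ν, f, rfl, b2, b3⟩

theorem char2 (L : Language T) : Ch n L ↔ ∃ (Δ : Type) (_ : Finite Δ) (K P : Language Δ)
    (h : Δ → List T), K.IsContextFree ∧ FSFA n P ∧
      ∀ y, y ∈ L ↔ ∃ w, w ∈ K ∧ w ∈ P ∧ w.flatMap h = y := by
  constructor
  · rintro ⟨Δ, _, K, c, h, hK, hL⟩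
    refine ⟨Δ, inferInstance, K, _, h, hK.cf, fsfa_raw (n := n) (csrc c) (fun e => [e.1]) (ctgt c)
      (0, false) (0, true) R0, fun y => (hL y).trans (exists_congr fun w => ?_)⟩
    rw [ctl_can]
    refine and_congr Iff.rfl (and_congr (exists₂_congr fun μ f => ?_) Iff.rfl)
    rw [← List.map_eq_flatMap]
    tauto
  · rintro ⟨Δ, _, K, _, h, hK, ⟨M, rfl⟩, hL⟩
    have := M.finQ
    have := M.finΨ
    obtain ⟨P, h1, h2⟩ := ctl_reg (fun r => M.tgt r = M.qt) M.R n
    refine ⟨_, inferInstance, _, (·.2), fun d => (M.inp d.1).flatMap h, h1 _ ((path_scf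
      ((scf_of_cf hK).preimage M.inp) M.src M.tgt M.q0 M.F).comap' (·.1)), fun y => ?_⟩
    simp only [hL, SFA.mem_lang, h2]
    constructor
    · rintro ⟨_, a0, ⟨f, a1, _, ⟨a3, rfl⟩, w, rfl, a4, a5⟩, rfl⟩
      exact ⟨w, ⟨⟨a0, f, a1, a3⟩, a4⟩, a5, by simp [List.flatMap_map, List.flatMap_assoc]⟩
    · rintro ⟨w, ⟨⟨a2, f, a1, a3⟩, a4⟩, a5, rfl⟩
      exact ⟨_, a2, ⟨f, a1, _, ⟨a3, by simp⟩, w, rfl, a4, a5⟩,
        by simp [List.flatMap_map, List.flatMap_assoc]⟩

end Pool.Agent.H24.Fs
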