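import Pool.Agent.H24.Fs2
import Pool.Agent.H24.Cf3

namespace Pool.Agent.H24.Fs
open Pool.Agent.H24.Cf

variable {T Δ X A B : Type} {n : ℕ}

def eb (n k : ℕ) : List (Fin n) := (List.ofFn fun j => List.replicate k j).flatten

theorem eb_succ (n k : ℕ) :
    eb (n + 1) k = (eb n k).map Fin.castSucc ++ List.replicate k (Fin.last n) := by
  unfold eb
  rw [List.ofFn_succ', map_flat]
  simp

theorem ch_succ {L : Language T} (h : Ch n L) : Ch (n + 1) L := by
  obtain ⟨Δ, _, K, c, h, hK, hL⟩ := h
  have e1 : ∀ w : List (Option Δ), (w.flatMap fun o => o.elim [] h) = (w.filterMap id).flatMap h := by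
    intro w
    induction w with
    | nil => rfl
    | cons a w ih => cases a <;> simp_all
  refine ⟨Option Δ, inferInstance, _, fun o => o.elim (Fin.last _) fun d => (c d).castSucc,
    fun o => o.elim [] h, hK.comap id, fun y => (hL y).trans ⟨?_, ?_⟩⟩
  · rintro ⟨w, a1, ⟨k, a2, a3⟩, rfl⟩
    have e : (w.map some ++ List.replicate k none).filterMap id = w := by
      simp [List.filterMap_map]
    refine ⟨w.map some ++ List.replicate k none, e.symm ▸ a1, ⟨k, a2, ?_⟩, by rw [e1, e]⟩
    refine .trans ?_ (eb_succ (n + 1) k).symm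
    rw [show eb (n + 1) k = w.map c from a3.symm]
    simp [Function.comp_def]
  · rintro ⟨w, a1, ⟨k, a2, a3⟩, rfl⟩
    refine ⟨_, a1, ⟨k, a2, ?_⟩, (e1 w).symm⟩
    let g : Fin (n + 2) → Option (Fin (n + 1)) := Fin.lastCases none some
    have e2 : ∀ w : List (Option Δ), (w.map fun o => o.elim (Fin.last _)
        fun d => (c d).castSucc).filterMap g = (w.filterMap id).map c := by
      intro w
      induction w with
      | nil => rfl
      | cons a w ih => cases a <;> simp_all [g]
    rw [← e2, a3]
    change (eb (n + 2) k).filterMap g = eb (n + 1) k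
    rw [eb_succ]
    simp [g, List.filterMap_map, Function.comp_def]

theorem count_flat [BEq A] [LawfulBEq A] {m} (b : Fin m → List A) (a : A) (j : Fin m)
    (h : ∀ i, i ≠ j → a ∉ b i) : (List.ofFn b).flatten.count a = (b j).count a := by
  rw [List.count_flatten, List.map_ofFn, List.sum_ofFn, Finset.sum_eq_single j]
  · rfl
  · exact fun i _ hi => List.count_eq_zero.2 (h i hi)
  · simp

theorem eb_count (k : ℕ) (j : Fin n) : (eb n k).count j = k := by
  rw [eb, count_flat _ _ j fun i hi => by simp [List.mem_replicate, hi.symm]]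
  simp

theorem eb_sorted (n k : ℕ) : (eb n k).Pairwise (· ≤ ·) := by
  rw [eb, List.pairwise_flatten, List.pairwise_ofFn]
  refine ⟨by simp [List.mem_ofFn', List.pairwise_replicate], fun i j h x hx y hy => ?_⟩
  rw [List.eq_of_mem_replicate hx, List.eq_of_mem_replicate hy]
  exact h.le

abbrev LT2 (n : ℕ) := Fin n × Bool

def le2 (a b : LT2 n) : Prop := a.1 < b.1 ∨ (a.1 = b.1 ∧ a.2 ≤ b.2)

theorem le2_anti {a b : LT2 n} (h : le2 a b) (k : le2 b a) : a = b := by
  rcases h with h | h <;> rcases k with k | k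
  · exact absurd h k.le.not_gt
  · exact absurd k.1 h.ne'
  · exact absurd h.1 k.ne'
  · exact Prod.ext h.1 (le_antisymm h.2 k.2)

def W (n m : ℕ) : List (LT2 n) :=
  (List.ofFn fun j => List.replicate m (j, false) ++ List.replicate m (j, true)).flatten

theorem W_count (m : ℕ) (a : LT2 n) : (W n m).count a = m := by
  rw [W, count_flat _ _ a.1 fun i hi => by
    simp only [List.mem_append, List.mem_replicate, not_or, not_and]
    exact ⟨fun _ e => hi (e ▸ rfl), fun _ e => hi (e ▸ rfl)⟩]
  obtain ⟨j, _ | _⟩ := a <;> simp [List.count_replicate]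

theorem W_sorted (n m : ℕ) : (W n m).Pairwise le2 := by
  rw [W, List.pairwise_flatten, List.pairwise_ofFn]
  refine ⟨?_, fun i j h x hx y hy => .inl ?_⟩
  · simp only [List.mem_ofFn', Set.mem_range]
    rintro _ ⟨j, rfl⟩
    simp +contextual [List.pairwise_append, List.pairwise_replicate, le2, List.mem_replicate]
  · simp only [List.mem_append, List.mem_replicate] at hx hy
    rcases hx with ⟨-, rfl⟩ | ⟨-, rfl⟩ <;> rcases hy with ⟨-, rfl⟩ | ⟨-, rfl⟩ <;> exact h

theorem eq_W {m : ℕ} {y : List (LT2 n)} (h : y.Pairwise le2) (k : ∀ a, y.count a = m) :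
    y = W n m :=
  List.Perm.eq_of_pairwise (fun _ _ _ _ => le2_anti) h (W_sorted n m)
    (List.perm_iff_count.2 fun a => (k a).trans (W_count m a).symm)

theorem pw_scf [Finite A] {K : Set (List X)} (hK : SCF K) (g : X → List A) (r : A → A → Prop) :
    SCF {w | w ∈ K ∧ (w.flatMap g).Pairwise r} := by
  refine hK.inter (fun w => ((w.flatMap g).Pairwise r, fun a => a ∈ w.flatMap g))
    (fun u u' v v' a b => ?_) _ fun u v e k => ?_
  · simp only [Prod.mk.injEq, eq_iff_iff, funext_iff] at a b
    simp only [List.flatMap_append, List.pairwise_append, List.mem_append, a, b]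
  · exact (congrArg Prod.fst e).mp k

def DR (n : ℕ) (_ : Unit) (o : List (Symbol (LT2 n) Unit)) : Prop :=
  o = [] ∨ ∃ j, o = [.terminal (j, false), .nonterminal (), .terminal (j, true), .nonterminal ()]

theorem dy_wrap (j : Fin n) (m : ℕ) : ∀ v, Gn (DR n) [.nonterminal ()] v → Gn (DR n) [.nonterminal ()]
    (List.replicate m (j, false) ++ List.replicate m (j, true) ++ v) := by
  induction m with
  | zero => exact fun v h => h
  | succ m ih =>
    intro v h
    have := Gn.one (R := DR n) (A := ()) (.inr ⟨j, rfl⟩)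
      (.t _ ((ih [] (.one (.inl rfl) .nil)).app (.t _ h)))
    simpa [List.replicate_succ' (n := m) (a := (j, true)), List.replicate_succ (n := m) (a := (j, false))]
      using this

theorem dy_W (m : ℕ) : Gn (DR n) [.nonterminal ()] (W n m) := by
  rw [W, List.ofFn_eq_map]
  induction List.finRange n with
  | nil => exact .one (.inl rfl) .nil
  | cons j l ih => exact dy_wrap j m _ ih

theorem dy_count {y} (h : Gn (DR n) [.nonterminal ()] y) (j : Fin n) :
    y.count (j, false) = y.count (j, true) := by
  obtain ⟨u, _, rfl, k, rfl⟩ := h.sem (P := fun _ y => y.count (j, false) = y.count (j, true)) (by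
    rintro _ _ (rfl | ⟨i, rfl⟩) w hw
    · rw [show w = [] from hw]; rfl
    · obtain ⟨_, rfl, u, _, rfl, a, _, rfl, v, _, rfl, b, rfl⟩ := hw
      simp [List.count_cons, a, b]
      omega)
  simpa using k

theorem count_fst (y : List (LT2 n)) (j : Fin n) :
    (y.map (·.1)).count j = y.count (j, false) + y.count (j, true) := by
  induction y with
  | nil => rfl
  | cons a y ih =>
    obtain ⟨i, _ | _⟩ := a <;> simp [List.count_cons, ih] <;> omega

def LW (n : ℕ) : Language (LT2 n) := {y | ∃ m, 1 ≤ m ∧ y = W n m}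

theorem ch_LW (n : ℕ) : Ch n (LW (n + 1)) := by
  refine ⟨_, inferInstance, _, (·.1), fun a => [a], pw_scf (gn_scf (R := DR (n + 1)) ?_
    [.nonterminal ()]) (fun a => [a]) le2, fun y => ⟨?_, ?_⟩⟩
  · refine ((Set.finite_singleton []).union (Set.finite_range fun j => [Symbol.terminal (j, false),
      .nonterminal (), .terminal (j, true), .nonterminal ()])).subset ?_
    rintro _ ⟨_, rfl | ⟨j, rfl⟩⟩
    exacts [.inl rfl, .inr ⟨j, rfl⟩]
  · rintro ⟨m, h, rfl⟩
    refine ⟨_, ⟨dy_W m, by simpa using W_sorted _ m⟩, ⟨m + m, by omega, ?_⟩, by simp⟩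
    simp only [W, map_flat, List.map_append, List.map_replicate, List.replicate_add]
  · rintro ⟨w, ⟨a1, a2⟩, ⟨k, a3, a4⟩, rfl⟩
    simp only [List.flatMap_singleton'] at a2 ⊢
    have : ∀ j, w.count (j, false) + w.count (j, true) = k := fun j => by
      rw [← count_fst, a4]; exact eb_count k j
    refine ⟨k / 2, ?_, eq_W a2 ?_⟩
    · have := this 0
      have := dy_count a1 0
      omega
    · rintro ⟨j, b⟩
      have := this j
      have := dy_count a1 j
      cases b <;> omega

end Pool.Agent.H24.Fs
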