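import Pool.Agent.H24.Fs3
import Pool.Agent.H24.Cf4

namespace Pool.Agent.H24.Fs
open Pool.Agent.H24.Cf Classical

variable {T Δ X A B P : Type} {n : ℕ}

theorem uncovered [Fintype T] (e : P → T → ℤ) (sup : ∀ p, ∃ a b, ∀ x, e p x ≠ 0 → x = a ∨ x = b)
    {l : ℕ} (hl : 2 * l < Fintype.card T) (f : Fin l → P) : ∃ x, ∀ i, e (f i) x = 0 := by
  choose a b h using sup
  by_contra k
  push Not at k
  have : Function.Surjective fun p : Fin l × Bool => if p.2 then a (f p.1) else b (f p.1) := by
    intro x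
    obtain ⟨i, hi⟩ := k x
    rcases h _ _ hi with rfl | rfl
    exacts [⟨(i, true), rfl⟩, ⟨(i, false), rfl⟩]
  have := Fintype.card_le_of_surjective _ this
  simp at this
  omega

theorem indep [Fintype T] (e : P → T → ℤ) (cov : ∀ x, ∃ p, e p x ≠ 0)
    (sup : ∀ p, ∃ a b, ∀ x, e p x ≠ 0 → x = a ∨ x = b) : ∀ l, 2 * l < Fintype.card T →
    ∃ f : Fin l → P, ∀ g : Fin l → ℤ, (∀ x, ∑ i, g i * e (f i) x = 0) → ∀ i, g i = 0 := by
  intro l
  induction l with
  | zero => exact fun _ => ⟨Fin.elim0, fun _ _ i => i.elim0⟩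
  | succ l ih =>
    intro hl
    obtain ⟨f, hf⟩ := ih (by omega)
    obtain ⟨x, hx⟩ := uncovered e sup (by omega) f
    obtain ⟨p, hp⟩ := cov x
    refine ⟨Fin.cons p f, fun g hg => ?_⟩
    simp only [Fin.sum_univ_succ, Fin.cons_zero, Fin.cons_succ] at hg
    have h0 : g 0 = 0 := by simpa [hx, hp] using hg x
    simp only [h0, zero_mul, zero_add] at hg
    exact Fin.cases h0 (hf _ hg)

theorem la [Fintype T] [Fintype P] (e : P → T → ℤ) (t : P → Fin (n + 1) → ℤ)
    (cov : ∀ x, ∃ p, e p x ≠ 0) (sup : ∀ p, ∃ a b, ∀ x, e p x ≠ 0 → x = a ∨ x = b)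
    (H : ∀ l : P → ℤ, (∀ j, ∑ p, l p * t p j = ∑ p, l p * t p 0) →
      ∀ x y, ∑ p, l p * e p x = ∑ p, l p * e p y) (hc : 2 * (n + 1) < Fintype.card T) : False := by
  obtain ⟨f, hf⟩ := indep e cov sup _ hc
  obtain ⟨x, hx⟩ := uncovered e sup hc f
  have : ¬ LinearIndependent ℤ fun i (j : Fin n) => t (f i) j.succ - t (f i) 0 := fun h => by
    have := h.fintype_card_le_finrank
    simp at this
  obtain ⟨g, h1, i, h2⟩ := Fintype.not_linearIndependent_iff.1 this
  have key : ∀ z : P → ℤ, ∑ p, (∑ i, if f i = p then g i else 0) * z p = ∑ i, g i * z (f i) := by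
    intro z
    simp only [Finset.sum_mul]
    rw [Finset.sum_comm]
    simp
  have := H (fun p => ∑ i, if f i = p then g i else 0) fun j => by
    rw [key, key]
    cases j using Fin.cases with
    | zero => rfl
    | succ j =>
      have := congrFun h1 j
      simpa [mul_sub, sub_eq_zero] using this
  refine h2 (hf g (fun y => ?_) i)
  rw [← key fun p => e p y, this y x, key]
  simp [hx]

theorem pw_const {r : A → A → Prop} (hr : ∀ a b, r a b → r b a → a = b) [Nonempty A] {u x z : List A}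
    (h : (x ++ (u ++ u) ++ z).Pairwise r) : ∃ a, ∀ b ∈ u, b = a := by
  have := (List.pairwise_append.1 (List.pairwise_append.1 (List.pairwise_append.1 h).1).2.1).2.2
  rcases u with _ | ⟨a, u⟩
  · exact ⟨Classical.arbitrary A, by simp⟩
  · exact ⟨a, fun b hb => hr _ _ (this _ hb _ (.head _)) (this _ (.head _) _ hb)⟩

theorem not_ch (n : ℕ) : ¬ Ch n (LW (n + 2)) := by
  rintro ⟨Δ, _, K, c, h, hK, hL⟩
  have hK' := pw_scf (pw_scf hK (fun d => [c d]) (· ≤ ·)) h le2
  choose s s1 s2 s3 using fun m => (hL _).1 ⟨m + 1, by omega, rfl⟩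
  choose k k1 k2 using s2
  let g : Δ → (LT2 (n + 2) → ℤ) × (Fin (n + 1) → ℤ) :=
    fun d => (fun a => (h d).count a, fun j => [c d].count j)
  have hg : ∀ w : List Δ, (w.map g).sum =
      (fun a => ((w.flatMap h).count a : ℤ), fun j => ((w.map c).count j : ℤ)) := by
    intro w
    induction w with
    | nil => rfl
    | cons d w ih =>
      rw [List.map_cons, List.sum_cons, ih]
      ext <;> simp [g, List.count_cons, add_comm]
  have hs : ∀ m, ((s m).map g).sum = (fun _ => (m + 1 : ℤ), fun _ => (k m : ℤ)) := fun m => by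
    rw [hg, s3, k2]
    ext x
    · simp [W_count]
    · exact congrArg _ (eb_count _ _)
  obtain ⟨P, _, pu, m, m', hm, h1, ⟨d, h2⟩, h3⟩ := hK'.two_point g s fun m =>
    ⟨⟨⟨s1 m, by rw [← List.map_eq_flatMap, k2]; exact eb_sorted _ _⟩, s3 m ▸ W_sorted _ _⟩,
      fun e => eqb_ne ⟨_, k1 m, k2 m⟩ (by simp [e])⟩
  simp only [hs] at h2 h3
  refine la (fun p => (((pu p).1 ++ (pu p).2).map g).sum.1)
    (fun p => (((pu p).1 ++ (pu p).2).map g).sum.2) (fun x => ?_) (fun p => ?_) (fun l hl x y => ?_)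
    (by simp; omega)
  · by_contra k
    push Not at k
    have := congrFun (congrArg Prod.fst h2) x
    simp only [Prod.fst_add, Prod.fst_sum, Prod.smul_fst, Pi.add_apply, Finset.sum_apply,
      Pi.smul_apply, k, smul_zero, Finset.sum_const_zero] at this
    omega
  · obtain ⟨x, y, z, -, a⟩ := h1 p
    simp only [List.flatMap_append] at a
    obtain ⟨a1, b1⟩ := pw_const (u := (pu p).1.flatMap h) (fun _ _ => le2_anti)
      (by simpa only [List.append_assoc] using a)
    obtain ⟨a2, b2⟩ := pw_const (u := (pu p).2.flatMap h) (fun _ _ => le2_anti)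
      (x := x.flatMap h ++ ((pu p).1.flatMap h ++ (pu p).1.flatMap h ++ y.flatMap h))
      (by simpa only [List.append_assoc] using a)
    refine ⟨a1, a2, fun x hx => ?_⟩
    rw [hg] at hx
    have : x ∈ ((pu p).1 ++ (pu p).2).flatMap h := List.count_pos_iff.1 (by dsimp only at hx; omega)
    rw [List.flatMap_append, List.mem_append] at this
    exact this.imp (b1 x) (b2 x)
  · obtain ⟨N, w, ⟨⟨a1, a2⟩, a3⟩, a4⟩ := h3 l
    rw [hg] at a4
    have b1 := fun x => congrFun (congrArg Prod.fst a4) x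
    have b2 := fun x => congrFun (congrArg Prod.snd a4) x
    simp only [Prod.fst_add, Prod.fst_sum, Prod.smul_fst, Pi.add_apply, Finset.sum_apply,
      Pi.smul_apply, Prod.snd_add, Prod.snd_sum, Prod.smul_snd, Prod.fst_sub, Prod.snd_sub,
      Pi.sub_apply, smul_eq_mul] at b1 b2
    have e : ∀ j, (w.map c).count j = (w.map c).count 0 := fun j => by
      have := b2 j
      rw [hl j, ← b2 0] at this
      exact_mod_cast this
    have e2 : (w.flatMap h).count x = (w.flatMap h).count y := by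
      by_cases e0 : (w.map c).count 0 = 0
      · rcases w with _ | ⟨d, w⟩
        · rfl
        · have := e (c d)
          simp only [List.map_cons, List.count_cons_self] at this e0
          omega
      · rw [← List.map_eq_flatMap] at a2
        obtain ⟨q, -, hq⟩ := (hL _).2 ⟨w, a1, ⟨(w.map c).count 0, by omega,
          List.Perm.eq_of_pairwise (fun _ _ _ _ => le_antisymm) a2 (eb_sorted _ _)
            (List.perm_iff_count.2 fun j => (e j).trans (eb_count _ j).symm)⟩, rfl⟩
        rw [hq, W_count, W_count]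
    have := b1 x
    rw [e2, b1 y] at this
    omega

end Pool.Agent.H24.Fs
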