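import Mathlib

/-! First-move self-regulating pushdown and finite automata. -/

namespace Pool.Agent.H24.Fs

/-- `μ` splits into `n+1` blocks of equal length `k ≥ 1`; the last label of block `0` is the
earliest label satisfying `turn`; first labels of consecutive blocks are `R`-related. -/
def Shape {Ψ : Type} (turn : Ψ → Prop) (R : Ψ → Ψ → Prop) (n : ℕ) (μ : List Ψ) : Prop :=
  ∃ (k : ℕ) (b : Fin (n + 1) → List Ψ), 1 ≤ k ∧ (∀ j, (b j).length = k) ∧
    μ = (List.ofFn b).flatten ∧ (∃ u r, b 0 = u ++ [r] ∧ turn r ∧ ∀ s ∈ u, ¬ turn s) ∧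
    ∀ j : Fin n, ∃ r r', (b j.castSucc).head? = some r ∧ (b j.succ).head? = some r' ∧ R r r'

/-- Self-regulating pushdown automaton; label `r` names the rule `pop r, src r, inp r → push r, tgt r`. -/
structure SPDA (T : Type) where
  Q : Type
  Γ : Type
  Ψ : Type
  finQ : Finite Q
  finΓ : Finite Γ
  finΨ : Finite Ψ
  pop : Ψ → Γ
  src : Ψ → Q
  inp : Ψ → List T
  push : Ψ → List Γ
  tgt : Ψ → Q
  inj : Function.Injective fun r => (pop r, src r, inp r, push r, tgt r)
  q0 : Q
  qt : Q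
  Z0 : Γ
  F : Set Q
  R : Ψ → Ψ → Prop

/-- Computations on configurations (pushdown with top at the right, state, unread input). -/
inductive SPDA.Run {T : Type} (M : SPDA T) :
    List M.Γ × M.Q × List T → List M.Ψ → List M.Γ × M.Q × List T → Prop
  | nil (c) : SPDA.Run M c [] c
  | cons (r α v μ c) : SPDA.Run M (α ++ M.push r, M.tgt r, v) μ c →
      SPDA.Run M (α ++ [M.pop r], M.src r, M.inp r ++ v) (r :: μ) c

def SPDA.lang {T : Type} (M : SPDA T) (n : ℕ) : Language T :=
  {w | ∃ f ∈ M.F, ∃ μ, M.Run ([M.Z0], M.q0, w) μ ([], f, []) ∧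
    Shape (fun r => M.tgt r = M.qt) M.R n μ}

def FSPDA {T : Type} (n : ℕ) (L : Language T) : Prop := ∃ M : SPDA T, M.lang n = L

/-- Self-regulating finite automaton; label `r` names the rule `src r, inp r → tgt r`. -/
structure SFA (T : Type) where
  Q : Type
  Ψ : Type
  finQ : Finite Q
  finΨ : Finite Ψ
  src : Ψ → Q
  inp : Ψ → List T
  tgt : Ψ → Q
  inj : Function.Injective fun r => (src r, inp r, tgt r)
  q0 : Q
  qt : Q
  F : Set Q
  R : Ψ → Ψ → Prop

inductive SFA.Run {T : Type} (M : SFA T) : M.Q × List T → List M.Ψ → M.Q × List T → Prop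
  | nil (c) : SFA.Run M c [] c
  | cons (r v μ c) : SFA.Run M (M.tgt r, v) μ c → SFA.Run M (M.src r, M.inp r ++ v) (r :: μ) c

def SFA.lang {T : Type} (M : SFA T) (n : ℕ) : Language T :=
  {w | ∃ f ∈ M.F, ∃ μ, M.Run (M.q0, w) μ (f, []) ∧ Shape (fun r => M.tgt r = M.qt) M.R n μ}

def FSFA {T : Type} (n : ℕ) (L : Language T) : Prop := ∃ M : SFA T, M.lang n = L

/-- The language of the words `0^k 1^k ... n^k`, `k ≥ 1`. -/
def EqB (n : ℕ) : Language (Fin (n + 1)) :=
  {u | ∃ k, 1 ≤ k ∧ u = (List.ofFn fun j => List.replicate k j).flatten}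

end Pool.Agent.H24.Fs
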