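import Pool.Agent.H24.FtrDefs

namespace Pool.Agent.H24.Ftr

variable {A : Type}

theorem bd (r : RegularExpression A) (h : height r = 0) : ∃ l, ∀ w ∈ r.matches', w.length ≤ l := by
  induction r with
  | zero => exact ⟨0, fun w h => h.elim⟩
  | epsilon => exact ⟨0, fun w h => by rw [(Language.mem_one w).1 h]; rfl⟩
  | char a => exact ⟨1, fun w h => by rw [show w = [a] from h]; rfl⟩
  | plus r s i1 i2 =>
    obtain ⟨a, h1⟩ := i1 (by simp only [height] at h; omega)
    obtain ⟨b, h2⟩ := i2 (by simp only [height] at h; omega)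
    exact ⟨a + b, fun w k => k.elim (fun k => by have := h1 w k; omega) fun k => by
      have := h2 w k; omega⟩
  | comp r s i1 i2 =>
    obtain ⟨a, h1⟩ := i1 (by simp only [height] at h; omega)
    obtain ⟨b, h2⟩ := i2 (by simp only [height] at h; omega)
    refine ⟨a + b, ?_⟩
    rintro _ ⟨u, hu, v, hv, rfl⟩
    simpa using add_le_add (h1 u hu) (h2 v hv)
  | star r => simp [height] at h

def wd (w : List A) : RegularExpression A := w.foldr (fun a r => .comp (.char a) r) .epsilon

def un (l : List (List A)) : RegularExpression A := l.foldr (fun w r => .plus (wd w) r) .zero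

theorem wd_spec (w : List A) : height (wd w) = 0 ∧ ∀ u, u ∈ (wd w).matches' ↔ u = w := by
  induction w with
  | nil => exact ⟨rfl, fun u => Language.mem_one u⟩
  | cons a w ih =>
    refine ⟨show max 0 (height (wd w)) = 0 by rw [ih.1]; rfl, fun u => ⟨?_, ?_⟩⟩
    · rintro ⟨_, rfl, v, h, rfl⟩
      rw [(ih.2 v).1 h]; rfl
    · rintro rfl
      exact ⟨[a], rfl, w, (ih.2 w).2 rfl, rfl⟩

theorem un_spec (l : List (List A)) : height (un l) = 0 ∧ ∀ u, u ∈ (un l).matches' ↔ u ∈ l := by
  induction l with
  | nil => exact ⟨rfl, fun u => ⟨fun h => h.elim, fun h => nomatch h⟩⟩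
  | cons a w ih =>
    refine ⟨show max (height (wd a)) (height (un w)) = 0 by rw [ih.1, (wd_spec a).1]; rfl, fun u => ?_⟩
    exact (or_congr ((wd_spec a).2 u) (ih.2 u)).trans List.mem_cons.symm

end Pool.Agent.H24.Ftr
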