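import Pool.Agent.H24.Bfr1

/-! FTR languages, star height, maximal submonoids. -/

namespace Pool.Agent.H24.Ftr

variable {A : Type}

def FTR (L : Language A) : Prop :=
  (∀ w ∈ L, ∀ u, u <:+: w → u ∈ L) ∧ (∀ u ∈ L, ∀ v ∈ L, ∃ w, u ++ w ++ v ∈ L) ∧ L.IsRegular

def height : RegularExpression A → ℕ
  | .zero => 0
  | .epsilon => 0
  | .char _ => 0
  | .plus r s => max (height r) (height s)
  | .comp r s => max (height r) (height s)
  | .star r => height r + 1

def IsSub (M : Language A) : Prop := [] ∈ M ∧ ∀ u ∈ M, ∀ v ∈ M, u ++ v ∈ M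

def MaxSub (L M : Language A) : Prop := IsSub M ∧ M ≤ L ∧ ∀ N, IsSub N → M ≤ N → N ≤ L → N = M

def FG (M : Language A) : Prop := ∃ X : Language A, Set.Finite X ∧ M = KStar.kstar X

end Pool.Agent.H24.Ftr
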