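import Pool.Agent.H24.Bz1

set_option autoImplicit false

namespace Pool.Agent.H24.Gd
open Pool.Agent.H11.PT Pool.Agent.H24.Bz Matrix

def ent (M : List (List ℤ)) (i j : ℕ) : ℤ := (M.getD i []).getD j 0
def tab (k : ℕ) (f : ℕ → ℕ → ℤ) : List (List ℤ) :=
  (List.range k).map fun i => (List.range k).map fun j => f i j
def mul (k : ℕ) (G P : List (List ℤ)) : List (List ℤ) :=
  tab k fun i j => ((List.range k).map fun l => ent P i l * ent G l j).sum
def pw (k : ℕ) (G : List (List ℤ)) (t : ℕ) : List (List ℤ) :=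
  (mul k G)^[t] (tab k fun i j => if i = j then 1 else 0)
def trc (k : ℕ) (P : List (List ℤ)) : ℤ := ((List.range k).map fun i => ent P i i).sum
def sg (m : ℕ) (z : ℤ) : ℤ := if m % 2 = 0 then z else -z
def ns (p L : List ℤ) : List ℤ := L.map (fun z : ℤ => z * (L.length : ℤ)) ++
  [((List.range L.length).map fun i => sg (L.length + 1 + i) (L.getD i 0 * p.getD (L.length - i) 0)).sum]
/-- `k!` times the determinant of a symmetric integer matrix (Newton's identities) -/
def dt (k : ℕ) (G : List (List ℤ)) : ℤ :=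
  ((ns ((List.range (k + 1)).map fun t => trc k (pw k G t)))^[k] [1]).getD k 0

theorem ent_tab {k i j : ℕ} (f : ℕ → ℕ → ℤ) :
    ent (tab k f) i j = if i < k ∧ j < k then f i j else 0 := by
  unfold ent tab
  by_cases hi : i < k <;> by_cases hj : j < k <;> simp [List.getD_eq_getElem?_getD, hi, hj]

theorem abs_getD {l : List ℤ} {B : ℕ} (h : ∀ a ∈ l, a.natAbs ≤ B) (i : ℕ) :
    (l.getD i 0).natAbs ≤ B := by
  rw [List.getD_eq_getElem?_getD]
  cases e : l[i]? with
  | none => simp
  | some a => exact h a (List.mem_of_getElem? e)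

theorem abs_mem {l : List ℤ} {a : ℤ} (h : a ∈ l) : a.natAbs ≤ 2 ^ sz l :=
  (lt_sz a).le.trans (Nat.pow_le_pow_right (by omega) (sz_mem h))

theorem abs_ent (G : List (List ℤ)) (i j : ℕ) : (ent G i j).natAbs ≤ 2 ^ sz G := by
  refine abs_getD (fun a ha => (abs_mem ha).trans (Nat.pow_le_pow_right (by omega) ?_)) j
  rw [List.getD_eq_getElem?_getD] at ha ⊢
  cases e : G[i]? with
  | none => simp [e] at ha
  | some r => exact sz_mem (List.mem_of_getElem? e)

theorem abs_sum {k B : ℕ} {f : ℕ → ℤ} (h : ∀ i, (f i).natAbs ≤ B) :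
    ((List.range k).map f).sum.natAbs ≤ k * B := by
  induction k with
  | zero => simp
  | succ k ih =>
    rw [List.range_succ, List.map_append, List.sum_append, add_mul]
    have := h k
    refine (Int.natAbs_add_le _ _).trans ?_
    simp; omega

theorem sz_le2 {z : ℤ} {c : ℕ} (h : z.natAbs ≤ 2 ^ c) : sz z ≤ 6 * c + 13 :=
  (sz_le_of_lt (k := c + 1) (by rw [pow_succ]; have := Nat.two_pow_pos c; omega)).trans (by omega)

variable {α : Type} [Enc α]

@[fun_prop] theorem pt_ent {G : α → List (List ℤ)} {i j : α → ℕ} (hG : PT G) (hi : PT i)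
    (hj : PT j) : PT fun x => ent (G x) (i x) (j x) := by unfold ent; fun_prop

theorem pw_bd (k : ℕ) (G : List (List ℤ)) (t : ℕ) : ∃ f, pw k G t = tab k f ∧
    ∀ i j, (f i j).natAbs ≤ 2 ^ ((k + sz G) * t) := by
  induction t with
  | zero => exact ⟨_, rfl, fun i j => by split_ifs <;> simp⟩
  | succ t ih =>
    obtain ⟨f, e, h⟩ := ih
    refine ⟨_, by rw [pw, Function.iterate_succ_apply', ← pw, mul], fun i j => ?_⟩
    refine (abs_sum (B := 2 ^ ((k + sz G) * t) * 2 ^ sz G) fun l => ?_).trans ?_
    · rw [Int.natAbs_mul]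
      refine Nat.mul_le_mul ?_ (abs_ent _ _ _)
      rw [e, ent_tab]; split_ifs
      · exact h _ _
      · simp
    · rw [mul_add, mul_one, pow_add, pow_add]
      calc _ ≤ 2 ^ k * (2 ^ ((k + sz G) * t) * 2 ^ sz G) :=
            Nat.mul_le_mul_right _ Nat.lt_two_pow_self.le
        _ = _ := by ring

@[fun_prop] theorem pt_pw {k t : α → ℕ} {G : α → List (List ℤ)} (hk : PT k) (hG : PT G)
    (ht : PT t) : PT fun x => pw (k x) (G x) (t x) := by
  refine pt_iter (g := fun x => mul (k x) (G x)) ht (by unfold tab; fun_prop)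
    (by unfold mul tab; fun_prop)
    (fun x => k x * (k x * (6 * ((k x + sz (G x)) * t x) + 13 + 1) + 1 + 1) + 1) (by fun_prop)
    fun x m hm => ?_
  obtain ⟨f, e, h⟩ := pw_bd (k x) (G x) m
  rw [← pw, e, tab]
  refine (sz_map_le _ fun i _ => (sz_map_le _ fun j _ => (sz_le2 (h i j)).trans
    (show _ ≤ 6 * ((k x + sz (G x)) * t x) + 13 by gcongr))).trans (by simp)

theorem ns_bd (p : List ℤ) (K j : ℕ) (hj : j ≤ K) : ((ns p)^[j] [1]).length = j + 1 ∧
    ∀ a ∈ (ns p)^[j] [1], a.natAbs ≤ 2 ^ ((K + sz p) * j) := by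
  induction j with
  | zero => simp
  | succ j ih =>
    obtain ⟨h1, h2⟩ := ih (by omega)
    rw [Function.iterate_succ_apply']
    generalize (ns p)^[j] [1] = L at h1 h2
    refine ⟨by simp [ns, h1], fun a ha => ?_⟩
    have h3 : L.length ≤ 2 ^ K := by have := @Nat.lt_two_pow_self K; omega
    have e : 2 ^ ((K + sz p) * (j + 1)) = 2 ^ K * (2 ^ ((K + sz p) * j) * 2 ^ sz p) := by
      rw [mul_add, mul_one, pow_add, pow_add]; ring
    rw [e]
    simp only [ns, List.mem_append, List.mem_map, List.mem_singleton] at ha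
    rcases ha with ⟨b, hb, rfl⟩ | rfl
    · rw [Int.natAbs_mul, Int.natAbs_natCast, mul_comm]
      exact Nat.mul_le_mul h3 ((h2 b hb).trans (Nat.le_mul_of_pos_right _ (by positivity)))
    · refine (abs_sum fun i => ?_).trans (Nat.mul_le_mul_right _ h3)
      have := Nat.mul_le_mul (abs_getD h2 i) (abs_getD (fun a => @abs_mem p a) (L.length - i))
      unfold sg; split_ifs <;> simpa [Int.natAbs_mul] using this

theorem pt_ns {k : α → ℕ} {p : α → List ℤ} (hk : PT k) (hp : PT p) :
    PT fun x => (ns (p x))^[k x] [1] := by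
  refine pt_iter (g := fun x => ns (p x)) hk (by fun_prop) (by unfold ns sg; fun_prop)
    (fun x => (k x + 1) * (6 * ((k x + sz (p x)) * k x) + 13 + 1) + 1) (by fun_prop)
    fun x m hm => ?_
  obtain ⟨h1, h2⟩ := ns_bd (p x) (k x) m hm
  have := sz_map_le (fun a : ℤ => a) fun a ha => (sz_le2 (h2 a ha)).trans
    (show _ ≤ 6 * ((k x + sz (p x)) * k x) + 13 by gcongr)
  rw [List.map_id', h1] at this
  exact this.trans (by gcongr)

@[fun_prop] theorem pt_dt {k : α → ℕ} {G : α → List (List ℤ)} (hk : PT k) (hG : PT G) :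
    PT fun x => dt (k x) (G x) :=
  PT.getD (pt_ns hk (by unfold trc; fun_prop)) hk (PT.const 0)

def toM (k : ℕ) (P : List (List ℤ)) : Matrix (Fin k) (Fin k) ℝ := of fun i j => (ent P i j : ℝ)

theorem cast_sum (k : ℕ) (f : ℕ → ℤ) :
    ((((List.range k).map f).sum : ℤ) : ℝ) = ∑ i ∈ Finset.range k, (f i : ℝ) := by
  rw [← Int.cast_sum]; rfl

theorem toM_pw (k : ℕ) (G : List (List ℤ)) (t : ℕ) : toM k (pw k G t) = toM k G ^ t := by
  induction t with
  | zero =>
    ext i j
    simp [toM, pw, ent_tab, one_apply, Fin.val_inj]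
  | succ t ih =>
    rw [pw, Function.iterate_succ_apply', ← pw, pow_succ, ← ih]
    ext i j
    simp only [toM, mul, of_apply, ent_tab, i.2, j.2, and_self, if_true, cast_sum, mul_apply,
      Finset.sum_range, Int.cast_mul]

theorem trace_pow {k : ℕ} {A : Matrix (Fin k) (Fin k) ℝ} (hA : A.IsHermitian) (t : ℕ) :
    (A ^ t).trace = ∑ i, hA.eigenvalues i ^ t := by
  conv_lhs => rw [hA.spectral_theorem, ← map_pow, Unitary.conjStarAlgAut_apply, trace_mul_cycle]
  simp [diagonal_pow]

open MvPolynomial in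
theorem newton {k : ℕ} (v : Fin k → ℝ) (m : ℕ) :
    (m : ℝ) * eval v (esymm (Fin k) ℝ m) = ∑ i ∈ Finset.range m,
      (-1) ^ (m + 1 + i) * (eval v (esymm (Fin k) ℝ i) * ∑ a, v a ^ (m - i)) := by
  have := congrArg (eval v) (mul_esymm_eq_sum (Fin k) ℝ m)
  rw [Finset.sum_filter, Finset.Nat.sum_antidiagonal_eq_sum_range_succ_mk, Finset.sum_range_succ,
    if_neg (by simp), add_zero] at this
  simp only [map_mul, map_natCast, map_pow, map_neg, map_one, map_sum] at this
  rw [this, Finset.mul_sum]
  refine Finset.sum_congr rfl fun i hi => ?_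
  rw [if_pos (Finset.mem_range.1 hi)]
  simp [psum, pow_add, mul_assoc]

theorem sg_cast (m : ℕ) (z : ℤ) : (sg m z : ℝ) = (-1) ^ m * z := by
  unfold sg; split_ifs with h
  · rw [(Nat.even_iff.2 h).neg_one_pow, one_mul]
  · rw [(Nat.odd_iff.2 (by omega)).neg_one_pow]; simp

open MvPolynomial in
theorem dt_eq (k : ℕ) (G : List (List ℤ)) (hA : (toM k G).IsHermitian) :
    (dt k G : ℝ) = k.factorial * (toM k G).det := by
  set p := (List.range (k + 1)).map fun t => trc k (pw k G t) with hp
  have h1 : ∀ t ≤ k, (p.getD t 0 : ℝ) = ∑ a, hA.eigenvalues a ^ t := fun t ht => by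
    rw [← trace_pow, ← toM_pw]
    simp only [hp, List.getD_eq_getElem?_getD, List.getElem?_map,
      List.getElem?_range (Nat.lt_succ_of_le ht), Option.map_some, Option.getD_some, trc, cast_sum,
      Finset.sum_range]
    rfl
  have h2 : ∀ j ≤ k, ∀ i ≤ j, (((ns p)^[j] [1]).getD i 0 : ℝ) =
      j.factorial * eval hA.eigenvalues (esymm (Fin k) ℝ i) := by
    intro j
    induction j with
    | zero => intro _ i hi; simp [Nat.le_zero.1 hi]
    | succ j ih =>
      intro hj i hi
      have l := (ns_bd p k j (by omega)).1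
      replace ih := ih (by omega)
      rw [Function.iterate_succ_apply']
      generalize (ns p)^[j] [1] = L at l ih
      rcases hi.lt_or_eq with hi | rfl
      · have := ih i (by omega)
        rw [List.getD_eq_getElem?_getD, List.getElem?_eq_getElem (by omega), Option.getD_some] at this
        rw [ns, List.getD_eq_getElem?_getD, List.getElem?_append_left (by simp; omega),
          List.getElem?_map, List.getElem?_eq_getElem (by omega)]
        simp only [Option.map_some, Option.getD_some, Int.cast_mul, this, l, Nat.factorial_succ]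
        push_cast; ring
      · rw [ns, List.getD_eq_getElem?_getD, List.getElem?_append_right (by simp; omega)]
        simp only [List.length_map, l, tsub_self, List.getElem?_cons_zero, Option.getD_some,
          cast_sum, sg_cast, Int.cast_mul]
        rw [Nat.factorial_succ, Nat.cast_mul, mul_comm ((j + 1 : ℕ) : ℝ), mul_assoc, newton,
          Finset.mul_sum]
        refine Finset.sum_congr rfl fun i hi => ?_
        rw [ih i (by have := Finset.mem_range.1 hi; omega), h1 _ (by omega)]; ring
  rw [dt, ← hp, h2 k le_rfl k le_rfl, hA.det_eq_prod_eigenvalues, esymm]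
  conv_lhs => rw [show Finset.powersetCard k (Finset.univ : Finset (Fin k)) = {Finset.univ} by
    simpa using Finset.powersetCard_self (Finset.univ : Finset (Fin k))]
  simp

end Pool.Agent.H24.Gd
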