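import Pool.Agent.H24.Bfr1

/-! Deterministic generalized sequential machines with accepting states. -/

namespace Pool.Agent.H24.Gsm

open Pool.Agent.H24.Bfr

/-- A deterministic gsm with accepting states from `X` to `Y`. -/
structure AGsm (X Y : Type) where
  Q : Type
  fin : Finite Q
  start : Q
  next : Q → X → Q
  out : Q → X → List Y
  acc : Set Q

variable {X Y Z : Type}

/-- State reached from `q` after reading a word. -/
def AGsm.run (τ : AGsm X Y) (q : τ.Q) (u : List X) : τ.Q := u.foldl τ.next q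

/-- Output produced from `q` while reading a word. -/
def AGsm.outw (τ : AGsm X Y) : τ.Q → List X → List Y
  | _, [] => []
  | q, a :: u => τ.out q a ++ τ.outw (τ.next q a) u

/-- The inverse image of a language under the a-gsm mapping. -/
def AGsm.inv (τ : AGsm X Y) (L : Language Y) : Language X :=
  {u | τ.run τ.start u ∈ τ.acc ∧ τ.outw τ.start u ∈ L}

/-- `G(L0)`: the least family containing `L0` and closed under inverse a-gsm mappings. -/
inductive InG {Y : Type} (L0 : Language Y) : (X : Type) → Language X → Prop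
  | base : InG L0 Y L0
  | inv (X Z : Type) (τ : AGsm X Z) (L : Language Z) : InG L0 Z L → InG L0 X (τ.inv L)

@[simp] theorem AGsm.run_nil (τ : AGsm X Y) (q) : τ.run q [] = q := rfl
@[simp] theorem AGsm.run_cons (τ : AGsm X Y) (q a u) : τ.run q (a :: u) = τ.run (τ.next q a) u := rfl
theorem AGsm.run_append (τ : AGsm X Y) (q u v) : τ.run q (u ++ v) = τ.run (τ.run q u) v :=
  List.foldl_append

theorem AGsm.outw_append (τ : AGsm X Y) (u v) : ∀ q,
    τ.outw q (u ++ v) = τ.outw q u ++ τ.outw (τ.run q u) v := by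
  induction u with
  | nil => intro q; rfl
  | cons a u ih => intro q; simp [AGsm.outw, ih]

def AGsm.comp (τ : AGsm X Z) (σ : AGsm Z Y) : AGsm X Y where
  Q := τ.Q × σ.Q
  fin := by have := τ.fin; have := σ.fin; infer_instance
  start := (τ.start, σ.start)
  next q a := (τ.next q.1 a, σ.run q.2 (τ.out q.1 a))
  out q a := σ.outw q.2 (τ.out q.1 a)
  acc := {q | q.1 ∈ τ.acc ∧ q.2 ∈ σ.acc}

theorem AGsm.comp_spec (τ : AGsm X Z) (σ : AGsm Z Y) (u : List X) : ∀ p q,
    (τ.comp σ).run (p, q) u = (τ.run p u, σ.run q (τ.outw p u)) ∧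
    (τ.comp σ).outw (p, q) u = σ.outw q (τ.outw p u) := by
  induction u with
  | nil => intro p q; exact ⟨rfl, rfl⟩
  | cons a u ih =>
    intro p q
    obtain ⟨h1, h2⟩ := ih (τ.next p a) (σ.run q (τ.out p a))
    constructor
    · rw [AGsm.run_cons, AGsm.run_cons, AGsm.outw, σ.run_append]
      exact h1
    · rw [AGsm.outw, AGsm.outw, σ.outw_append, ← h2]
      rfl

theorem InG.single {L0 : Language Y} {L : Language X} (h : InG L0 X L) :
    ∃ τ : AGsm X Y, L = τ.inv L0 := by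
  induction h with
  | base =>
    refine ⟨⟨Unit, inferInstance, (), fun _ _ => (), fun _ a => [a], Set.univ⟩, ?_⟩
    ext u
    have : ∀ u : List Y, AGsm.outw (⟨Unit, inferInstance, (), fun _ _ => (), fun _ a => [a],
        Set.univ⟩ : AGsm Y Y) () u = u := by
      intro u
      induction u with
      | nil => rfl
      | cons a u ih => simp [AGsm.outw, ih]
    change _ ↔ _ ∧ _
    rw [this]
    simp
  | inv X Z τ L _ ih =>
    obtain ⟨σ, rfl⟩ := ih
    refine ⟨τ.comp σ, ?_⟩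
    ext u
    obtain ⟨h1, h2⟩ := τ.comp_spec σ u τ.start σ.start
    change (_ ∧ _ ∧ _) ↔ (τ.comp σ).run (τ.start, σ.start) u ∈ _ ∧
      (τ.comp σ).outw (τ.start, σ.start) u ∈ _
    rw [h1, h2]
    exact and_assoc.symm

def pw (n : ℕ) (w : List X) : List X := (List.replicate n w).flatten

@[simp] theorem pw_zero (w : List X) : pw 0 w = [] := rfl
theorem pw_succ (n) (w : List X) : pw (n + 1) w = w ++ pw n w := by simp [pw, List.replicate_succ]
theorem pw_add (m n) (w : List X) : pw (m + n) w = pw m w ++ pw n w := by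
  unfold pw; rw [List.replicate_add, List.flatten_append]
theorem pw_succ' (n) (w : List X) : pw (n + 1) w = pw n w ++ w := by rw [pw_add]; simp [pw]
theorem mem_pw {n} {w : List X} {a} : a ∈ pw n w ↔ 0 < n ∧ a ∈ w := by
  simp only [pw, List.mem_flatten, List.mem_replicate]
  constructor
  · rintro ⟨l, ⟨h, rfl⟩, h2⟩; exact ⟨by omega, h2⟩
  · rintro ⟨h, h2⟩; exact ⟨w, ⟨by omega, rfl⟩, h2⟩
theorem length_pw (n) (w : List X) : (pw n w).length = n * w.length := by simp [pw]
theorem pw_pw (m n) (w : List X) : pw m (pw n w) = pw (m * n) w := by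
  induction m with
  | zero => simp
  | succ m ih => rw [pw_succ, ih, ← pw_add]; congr 1; ring
theorem pw_single (n) (a : X) : pw n [a] = List.replicate n a := by simp [pw]

theorem run_pw_fix (τ : AGsm X Y) {q w} (h : τ.run q w = q) (n) : τ.run q (pw n w) = q := by
  induction n with
  | zero => rfl
  | succ n ih => rw [pw_succ, τ.run_append, h, ih]

theorem outw_pw_fix (τ : AGsm X Y) {q w} (h : τ.run q w = q) (n) :
    τ.outw q (pw n w) = pw n (τ.outw q w) := by
  induction n with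
  | zero => rfl
  | succ n ih => rw [pw_succ, τ.outw_append, h, ih, pw_succ]

theorem exists_idem (τ : AGsm X Y) (w : List X) : ∃ p, 0 < p ∧ ∀ n, 0 < n → ∀ q,
    τ.run (τ.run q (pw (n * p) w)) (pw (n * p) w) = τ.run q (pw (n * p) w) := by
  have := τ.fin
  obtain ⟨i, j, hij, e⟩ : ∃ i j, i < j ∧ ∀ q, τ.run q (pw i w) = τ.run q (pw j w) := by
    obtain ⟨i, j, h1, h2⟩ := Finite.exists_ne_map_eq_of_infinite (fun i : ℕ => fun q => τ.run q (pw i w))
    rcases lt_or_gt_of_ne h1 with g | g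
    · exact ⟨i, j, g, congrFun h2⟩
    · exact ⟨j, i, g, congrFun h2.symm⟩
  obtain ⟨d, rfl⟩ : ∃ d, j = i + (d + 1) := ⟨j - i - 1, by omega⟩
  have h1 : ∀ t q, τ.run q (pw (i + t * (d + 1)) w) = τ.run q (pw i w) := by
    intro t
    induction t with
    | zero => simp
    | succ t ih =>
      intro q
      rw [show i + (t + 1) * (d + 1) = i + (d + 1) + t * (d + 1) by ring, pw_add, τ.run_append,
        ← e, ← τ.run_append, ← pw_add, ih]
  refine ⟨(i + 1) * (d + 1), by positivity, fun n hn q => ?_⟩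
  obtain ⟨s, hs⟩ : ∃ s, n * ((i + 1) * (d + 1)) = i + s := by
    obtain ⟨n, rfl⟩ : ∃ n', n = n' + 1 := ⟨n - 1, by omega⟩
    exact ⟨n * ((i + 1) * (d + 1)) + (i + 1) * d + 1, by ring⟩
  rw [← τ.run_append, ← pw_add]
  have e1 : n * ((i + 1) * (d + 1)) + n * ((i + 1) * (d + 1)) = i + (n * (i + 1)) * (d + 1) + s := by
    rw [hs]; nlinarith
  rw [e1, pw_add, τ.run_append, h1, ← τ.run_append, ← pw_add, hs]

theorem exists_fix (τ : AGsm X Y) (ls : List X) : ∃ g : List X, (∀ a, a ∈ g ↔ a ∈ ls) ∧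
    ∀ r, ∃ g' : List X, (∀ a, a ∈ g' ↔ a ∈ ls.drop r) ∧ ∀ q, τ.run (τ.run q g) g' = τ.run q g := by
  induction ls with
  | nil => exact ⟨[], by simp, fun r => ⟨[], by simp, by simp⟩⟩
  | cons a ls ih =>
    obtain ⟨g0, h1, h2⟩ := ih
    obtain ⟨p, hp, h3⟩ := exists_idem τ (a :: g0)
    have h4 := h3 1 one_pos
    rw [one_mul] at h4
    have hm : ∀ b, b ∈ pw p (a :: g0) ↔ b ∈ a :: ls := by
      intro b; simp [mem_pw, hp, h1]
    refine ⟨pw p (a :: g0), hm, fun r => ?_⟩
    cases r with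
    | zero => exact ⟨_, hm, h4⟩
    | succ r =>
      obtain ⟨g', h5, h6⟩ := h2 r
      refine ⟨g', h5, fun q => ?_⟩
      obtain ⟨p, rfl⟩ : ∃ p', p = p' + 1 := ⟨p - 1, by omega⟩
      rw [pw_succ', τ.run_append, AGsm.run_cons, h6]

theorem last_occ {a : X} {l : List X} (h : a ∈ l) : ∃ x y, l = x ++ a :: y ∧ a ∉ y := by
  obtain ⟨as, bs, h1, h2⟩ := List.eq_append_cons_of_mem (List.mem_reverse.2 h)
  refine ⟨bs.reverse, as.reverse, ?_, by simpa using h2⟩
  have := congrArg List.reverse h1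
  simpa using this

theorem gsm_out (τ : AGsm X Y) (l : ℕ) (hl : ∀ q c, (τ.out q c).length ≤ l) (y2 b' : List Y) :
    ∀ (u : List X) (q : τ.Q) (b y1 : List Y), b.length ≤ l → b ++ τ.outw q u = (y1 ++ y2) ++ b' →
      ∃ b'' u1 u2, b''.length ≤ l ∧ u = u1 ++ u2 ∧ b ++ τ.outw q u1 = y1 ++ b'' ∧
        b'' ++ τ.outw (τ.run q u1) u2 = y2 ++ b' := by
  intro u
  induction u with
  | nil =>
    intro q b y1 hb h
    refine ⟨y2 ++ b', [], [], ?_, rfl, by simpa [AGsm.outw] using h, by simp [AGsm.outw]⟩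
    have := congrArg List.length h
    simp [AGsm.outw] at this ⊢
    omega
  | cons c u ih =>
    intro q b y1 hb h
    rw [List.append_assoc y1] at h
    rcases List.append_eq_append_iff.1 h with ⟨a, rfl, h2⟩ | ⟨a, rfl, h2⟩
    · obtain ⟨b'', u1, u2, h3, rfl, h4, h5⟩ := ih (τ.next q c) (τ.out q c) a (hl q c)
        (by simpa [AGsm.outw] using h2)
      exact ⟨b'', c :: u1, u2, h3, rfl, by simp [AGsm.outw, h4], h5⟩
    · refine ⟨a, [], c :: u, ?_, rfl, by simp [AGsm.outw], h2.symm⟩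
      simp at hb
      omega

theorem exists_gsm_fr [Finite X] [Finite Y] (τ : AGsm X Y) :
    ∃ (γ : FR X Y) (ι : τ.Q → γ.Q), ∀ q q' u y,
      γ.T (ι q) u y (ι q') ↔ τ.run q u = q' ∧ τ.outw q u = y := by
  have := τ.fin
  obtain ⟨l, hl⟩ : ∃ l, ∀ q c, (τ.out q c).length ≤ l := by
    obtain ⟨l, hl⟩ := (Set.finite_range fun c : τ.Q × X => (τ.out c.1 c.2).length).bddAbove
    exact ⟨l, fun q c => hl ⟨(q, c), rfl⟩⟩
  have := (List.finite_length_le Y l).to_subtype
  refine ⟨⟨τ.Q × {b : List Y // b.length ≤ l}, by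
      have : Finite {b : List Y // b.length ≤ l} := this
      infer_instance,
    fun s u y f => τ.run s.1 u = f.1 ∧ s.2.1 ++ τ.outw s.1 u = y ++ f.2.1, fun _ => True,
    fun _ => True, fun s => by simp [AGsm.outw], ?_, ?_, ?_⟩, fun q => (q, ⟨[], by simp⟩), ?_⟩
  · rintro s s' s'' u u' y y' ⟨h1, h2⟩ ⟨h3, h4⟩
    refine ⟨by rw [τ.run_append, h1, h3], ?_⟩
    rw [τ.outw_append, ← List.append_assoc, h2, List.append_assoc, h1, h4, List.append_assoc]
  · rintro s s' u u' y ⟨h0, h⟩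
    rw [τ.outw_append, ← List.append_assoc] at h
    rw [τ.run_append] at h0
    rcases List.append_eq_append_iff.1 h with ⟨a, rfl, h2⟩ | ⟨a, h1, h2⟩
    · exact ⟨(τ.run s.1 u, ⟨[], by simp⟩), _, a, rfl, ⟨rfl, by simp⟩, h0, by simpa using h2⟩
    · refine ⟨(τ.run s.1 u, ⟨a, ?_⟩), y, [], by simp, ⟨rfl, h1⟩, h0, by simpa using h2.symm⟩
      have h3 := s'.2.2
      rw [h2] at h3
      simp at h3
      omega
  · rintro s s' u y y' ⟨h0, h⟩
    obtain ⟨b'', u1, u2, h3, rfl, h4, h5⟩ := gsm_out τ l hl y' s'.2.1 u s.1 s.2.1 y s.2.2 h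
    rw [τ.run_append] at h0
    exact ⟨(_, ⟨b'', h3⟩), u1, u2, rfl, ⟨rfl, h4⟩, h0, h5⟩
  · intro q q' u y
    simp

end Pool.Agent.H24.Gsm
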