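import Pool.Agent.H24.Gsm1

/-! Pushdown automata with a single pushdown symbol and their pumping properties. -/

namespace Pool.Agent.H24.Gsm

open Pool.Agent.H24.Bfr

/-- A nondeterministic pushdown automaton with one pushdown symbol. A move `(q, a, k, q')` reads
`a` (a letter or nothing) in state `q`, replaces the top symbol by `k` symbols and enters `q'`. -/
structure Oca (X : Type) where
  Q : Type
  fin : Finite Q
  start : Q
  acc : Set Q
  tr : Set (Q × Option X × ℕ × Q)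
  trfin : tr.Finite

variable {X Y : Type}

/-- `Run q n w q' n'`: from state `q` with stack height `n`, reading `w`, the automaton can reach
state `q'` with stack height `n'`. -/
inductive Oca.Run (A : Oca X) : A.Q → ℕ → List X → A.Q → ℕ → Prop
  | refl (q n) : Oca.Run A q n [] q n
  | step {q a k q1 n w q' n'} : (q, a, k, q1) ∈ A.tr → Oca.Run A q1 (n + k) w q' n' →
      Oca.Run A q (n + 1) (Option.toList a ++ w) q' n'

/-- Words accepted from one initial stack symbol by empty stack in an accepting state. -/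
def Oca.lang (A : Oca X) : Language X := {w | ∃ f ∈ A.acc, A.Run A.start 1 w f 0}

theorem Oca.Run.trans {A : Oca X} {q n u q' n' v q'' n''} (h1 : A.Run q n u q' n')
    (h2 : A.Run q' n' v q'' n'') : A.Run q n (u ++ v) q'' n'' := by
  induction h1 with
  | refl => exact h2
  | step h _ ih => rw [List.append_assoc]; exact .step h (ih h2)

theorem Oca.Run.mono {A : Oca X} {q n u q' n'} (h1 : A.Run q n u q' n') (d : ℕ) :
    A.Run q (n + d) u q' (n' + d) := by
  induction h1 with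
  | refl => exact .refl _ _
  | @step q a k q1 n w q' n' h _ ih =>
    rw [show n + 1 + d = (n + d) + 1 by ring]
    exact .step h (by rw [show n + d + k = n + k + d by ring]; exact ih)

theorem Oca.Run.split {A : Oca X} {q n w q' n'} (h1 : A.Run q n w q' n') :
    ∀ u v, w = u ++ v → ∃ p m, A.Run q n u p m ∧ A.Run p m v q' n' := by
  induction h1 with
  | refl q n =>
    intro u v h
    obtain ⟨rfl, rfl⟩ := List.append_eq_nil_iff.1 h.symm
    exact ⟨q, n, .refl _ _, .refl _ _⟩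
  | @step q a k q1 n w q' n' h h2 ih =>
    intro u v e
    cases u with
    | nil => exact ⟨q, n + 1, .refl _ _, by rw [List.nil_append] at e; exact e ▸ .step h h2⟩
    | cons b u =>
      cases a with
      | none =>
        obtain ⟨p, m, h3, h4⟩ := ih (b :: u) v (by simpa using e)
        exact ⟨p, m, .step h h3, h4⟩
      | some a =>
        simp only [Option.toList, List.cons_append, List.nil_append, List.cons.injEq] at e
        obtain ⟨rfl, e⟩ := e
        obtain ⟨p, m, h3, h4⟩ := ih u v e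
        exact ⟨p, m, .step h h3, h4⟩

theorem Oca.Run.down {A : Oca X} {q c w q' z} (h1 : A.Run q c w q' z) (hz : z = 0) :
    ∀ m n, c = m + n → ∃ p u v, w = u ++ v ∧ A.Run q m u p 0 ∧ A.Run p n v q' 0 := by
  induction h1 with
  | refl q c =>
    intro m n e
    obtain rfl : m = 0 := by omega
    obtain rfl : n = 0 := by omega
    exact ⟨q, [], [], rfl, .refl _ _, .refl _ _⟩
  | @step q a k q1 c w q' n' h h2 ih =>
    intro m n e
    subst hz
    cases m with
    | zero =>
      refine ⟨q, [], _, rfl, .refl _ _, ?_⟩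
      rw [show n = c + 1 by omega]
      exact .step h h2
    | succ m =>
      obtain ⟨p, u, v, rfl, h3, h4⟩ := ih rfl (m + k) n (by omega)
      exact ⟨p, a.toList ++ u, v, by simp, .step h h3, h4⟩

theorem Oca.Run.up {A : Oca X} {K} (hK : ∀ q a k q1, (q, a, k, q1) ∈ A.tr → k ≤ K) {q c w q' c'}
    (h1 : A.Run q c w q' c') : ∀ n, c ≤ n → n < c' → ∃ p m u v, w = u ++ v ∧ n < m ∧ m ≤ n + K ∧
      A.Run q c u p m ∧ A.Run p m v q' c' := by
  induction h1 with
  | refl q c => intro n h1 h2; omega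
  | @step q a k q1 c w q' n' h h2 ih =>
    intro n p1 p2
    have := hK _ _ _ _ h
    by_cases e : n < c + k
    · exact ⟨q1, c + k, a.toList ++ [], w, by simp, e, by omega, .step h (.refl _ _), h2⟩
    · obtain ⟨p, m, u, v, rfl, h3, h4, h5, h6⟩ := ih n (by omega) p2
      exact ⟨p, m, a.toList ++ u, v, by simp, h3, h4, .step h h5, h6⟩

structure CS (X : Type) where
  S : Type
  fin : Finite S
  R : S → ℕ → List X → S → ℕ → Prop
  K : ℕ
  refl : ∀ s n, R s n [] s n
  trans : ∀ {q n u q' n' v q'' n''}, R q n u q' n' → R q' n' v q'' n'' → R q n (u ++ v) q'' n''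
  mono : ∀ {q n u q' n'}, R q n u q' n' → ∀ d, R q (n + d) u q' (n' + d)
  down : ∀ {q m n w q'}, R q (m + n) w q' 0 → ∃ p u v, w = u ++ v ∧ R q m u p 0 ∧ R p n v q' 0
  up : ∀ {q c w q' c'}, R q c w q' c' → c < c' → ∃ p m u v, c < m ∧ m ≤ c + K ∧
    R q c u p m ∧ R p m v q' c'

theorem exists_cs (γ : FR X Y) (A : Oca Y) : ∃ (C : CS X) (ι : A.Q → γ.Q → C.S),
    ∀ p s n u p' s' n', C.R (ι p s) n u (ι p' s') n' ↔ ∃ y, γ.T s u y s' ∧ A.Run p n y p' n' := by
  obtain ⟨K, hK⟩ : ∃ K, ∀ q a k q1, (q, a, k, q1) ∈ A.tr → k ≤ K := by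
    obtain ⟨K, hK⟩ := (A.trfin.image fun e => e.2.2.1).bddAbove
    exact ⟨K, fun q a k q1 h => hK ⟨_, h, rfl⟩⟩
  have := γ.fin
  have := A.fin
  refine ⟨⟨A.Q × γ.Q, inferInstance,
    fun s n u s' n' => ∃ y, γ.T s.2 u y s'.2 ∧ A.Run s.1 n y s'.1 n', K,
    fun s n => ⟨[], γ.refl _, .refl _ _⟩, ?_, ?_, ?_, ?_⟩, fun p s => (p, s), fun _ _ _ _ _ _ _ => Iff.rfl⟩
  · rintro q n u q' n' v q'' n'' ⟨y, h1, h2⟩ ⟨y', h3, h4⟩
    exact ⟨_, γ.trans h1 h3, h2.trans h4⟩
  · rintro q n u q' n' ⟨y, h1, h2⟩ d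
    exact ⟨y, h1, h2.mono d⟩
  · rintro q m n w q' ⟨y, h1, h2⟩
    obtain ⟨p, u, v, rfl, h3, h4⟩ := h2.down rfl m n rfl
    obtain ⟨s, u1, u2, rfl, h5, h6⟩ := γ.splitOut h1
    exact ⟨(p, s), u1, u2, rfl, ⟨_, h5, h3⟩, _, h6, h4⟩
  · rintro q c w q' c' ⟨y, h1, h2⟩ hc
    obtain ⟨p, m, u, v, rfl, h3, h4, h7, h8⟩ := h2.up hK c le_rfl hc
    obtain ⟨s, u1, u2, rfl, h5, h6⟩ := γ.splitOut h1
    exact ⟨(p, s), m, u1, u2, h3, h4, ⟨_, h5, h7⟩, _, h6, h8⟩

theorem pigeon {S : Type} [Finite S] (st : ℕ → S) :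
    ∃ i j, i < j ∧ j ≤ Nat.card S ∧ st i = st j := by
  have := Fintype.ofFinite S
  obtain ⟨i, j, p1, p2⟩ := Fintype.exists_ne_map_eq_of_card_lt
    (fun i : Fin (Nat.card S + 1) => st i)
    (by rw [Fintype.card_fin, ← Nat.card_eq_fintype_card]; omega)
  rcases lt_or_gt_of_ne p1 with g | g
  · exact ⟨i, j, g, by omega, p2⟩
  · exact ⟨j, i, g, by omega, p2.symm⟩

theorem CS.loop_up (C : CS X) {s c d u} (h : C.R s c u s (c + d)) (H : ℕ) (hH : c ≤ H) (e : ℕ) :
    C.R s H (pw e u) s (H + e * d) := by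
  induction e with
  | zero => simpa using C.refl s H
  | succ e ih =>
    rw [pw_succ']
    refine C.trans ih ?_
    have := C.mono h (H - c + e * d)
    rwa [show c + (H - c + e * d) = H + e * d by omega,
      show c + d + (H - c + e * d) = H + (e + 1) * d by rw [add_mul]; omega] at this

theorem CS.loop_down (C : CS X) {s c d u} (h : C.R s (c + d) u s c) (H : ℕ) (hH : c ≤ H) (e : ℕ) :
    C.R s (H + e * d) (pw e u) s H := by
  induction e with
  | zero => simpa using C.refl s H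
  | succ e ih =>
    rw [pw_succ]
    refine C.trans ?_ ih
    have := C.mono h (H - c + e * d)
    rwa [show c + (H - c + e * d) = H + e * d by omega,
      show c + d + (H - c + e * d) = H + (e + 1) * d by rw [add_mul]; omega] at this

theorem CS.down_seq (C : CS X) (s f : C.S) (x : List X) : ∀ (r c : ℕ),
    C.R s (r + c) x f 0 → ∃ (st : ℕ → C.S) (px : ℕ → List X) (x' : List X),
      st 0 = s ∧ px 0 = [] ∧ x = px r ++ x' ∧ C.R (st r) c x' f 0 ∧
      ∀ i j, i ≤ j → j ≤ r → ∃ u, px j = px i ++ u ∧ C.R (st i) (j - i) u (st j) 0 := by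
  intro r
  induction r with
  | zero =>
    intro c h
    refine ⟨fun _ => s, fun _ => [], x, rfl, rfl, rfl, by simpa using h, fun i j h1 h2 => ?_⟩
    obtain rfl : j = 0 := by omega
    exact ⟨[], rfl, by simpa using C.refl s 0⟩
  | succ r ih =>
    intro c h
    rw [add_assoc] at h
    obtain ⟨st, px, x', h1, h2, h3, h4, h5⟩ := ih _ h
    obtain ⟨s'', u1, u2, rfl, h6, h7⟩ := C.down h4
    refine ⟨Function.update st (r + 1) s'', Function.update px (r + 1) (px r ++ u1), u2,
      by simpa using h1, by simpa using h2, by simpa using h3, by simpa using h7, ?_⟩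
    intro i j p1 p2
    by_cases e : j = r + 1
    · subst e
      by_cases e2 : i = r + 1
      · subst e2
        exact ⟨[], by simp, by simpa using C.refl _ 0⟩
      · obtain ⟨u, q1, q2⟩ := h5 i r (by omega) le_rfl
        refine ⟨u ++ u1, by simp [e2, q1], ?_⟩
        have := C.trans (C.mono q2 1) (by simpa using h6)
        simpa [e2, show r + 1 - i = r - i + 1 by omega] using this
    · have e2 : i ≠ r + 1 := by omega
      simpa [e, e2] using h5 i j p1 (by omega)

theorem CS.pump_down (C : CS X) {s f c x} (h : C.R s c x f 0) (hc : Nat.card C.S ≤ c) :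
    ∃ P, 0 < P ∧ ∀ e, ∃ x', C.R s (c + e * P) x' f 0 ∧ ∀ a, a ∈ x' ↔ a ∈ x := by
  have := C.fin
  obtain ⟨c, rfl⟩ : ∃ c', c = Nat.card C.S + c' := ⟨c - Nat.card C.S, by omega⟩
  obtain ⟨st, px, x', h1, h2, h3, h4, h5⟩ := C.down_seq s f x _ _ h
  obtain ⟨i, j, hij, hj, e⟩ := pigeon st
  generalize Nat.card C.S = q at *
  obtain ⟨u0, a1, a2⟩ := h5 0 i (by omega) (by omega)
  obtain ⟨u, b1, b2⟩ := h5 i j hij.le hj
  obtain ⟨u', c1, c2⟩ := h5 j q hj le_rfl
  rw [← e] at b2 c2
  rw [h1] at a2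
  refine ⟨j - i, by omega, fun t => ⟨u0 ++ (pw (t + 1) u ++ (u' ++ x')), ?_, fun a => ?_⟩⟩
  · have d1 := C.trans (C.mono c2 c) (by simpa using h4)
    have d2 := C.loop_down (c := 0) (by simpa using b2) (q - j + c) (by omega) (t + 1)
    have d3 := C.mono a2 (q - j + c + (t + 1) * (j - i))
    rw [zero_add] at d3
    have := C.trans d3 (C.trans d2 d1)
    rwa [show i - 0 + (q - j + c + (t + 1) * (j - i)) = q + c + t * (j - i) by
      rw [add_mul]; omega] at this
  · rw [h3, c1, b1, a1, h2]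
    simp [mem_pw]

theorem CS.pump_up (C : CS X) {s f n c x} (h : C.R s n x f c) (hc : n + Nat.card C.S * C.K < c) :
    ∃ P, 0 < P ∧ ∀ e, ∃ x', C.R s n x' f (c + e * P) := by
  have := C.fin
  have key : ∀ r, r ≤ Nat.card C.S → ∃ (st : ℕ → C.S) (ct : ℕ → ℕ), st 0 = s ∧ ct 0 = n ∧
      ct r ≤ n + r * C.K ∧ (∃ x', C.R (st r) (ct r) x' f c) ∧
      ∀ i j, i ≤ j → j ≤ r → (i < j → ct i < ct j) ∧ ∃ u, C.R (st i) (ct i) u (st j) (ct j) := by
    intro r
    induction r with
    | zero =>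
      intro _
      refine ⟨fun _ => s, fun _ => n, rfl, rfl, by simp, ⟨x, h⟩, fun i j h1 h2 => ⟨by omega, [], C.refl _ _⟩⟩
    | succ r ih =>
      intro hr
      obtain ⟨st, ct, h1, h2, h3, ⟨x', h4⟩, h5⟩ := ih (by omega)
      have : r * C.K ≤ Nat.card C.S * C.K := Nat.mul_le_mul_right _ (by omega)
      obtain ⟨p, m, u, v, g1, g2, g3, g4⟩ := C.up h4 (by omega)
      refine ⟨Function.update st (r + 1) p, Function.update ct (r + 1) m, by simpa using h1,
        by simpa using h2, by simp [add_mul]; omega, ⟨v, by simpa using g4⟩, ?_⟩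
      intro i j p1 p2
      by_cases e : j = r + 1
      · subst e
        by_cases e2 : i = r + 1
        · subst e2
          exact ⟨by omega, [], C.refl _ _⟩
        · obtain ⟨q1, u', q2⟩ := h5 i r (by omega) le_rfl
          refine ⟨fun _ => ?_, u' ++ u, by simpa [e2] using C.trans q2 g3⟩
          simp only [e2, Function.update_self, ne_eq, not_false_eq_true, Function.update_of_ne]
          rcases Nat.lt_or_ge i r with g | g
          · have := q1 g; omega
          · obtain rfl : i = r := by omega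
            omega
      · have e2 : i ≠ r + 1 := by omega
        simpa [e, e2] using h5 i j p1 (by omega)
  obtain ⟨st, ct, h1, h2, -, ⟨x', h4⟩, h5⟩ := key _ le_rfl
  obtain ⟨i, j, hij, hj, e⟩ := pigeon st
  obtain ⟨-, u0, a2⟩ := h5 0 i (by omega) (by omega)
  obtain ⟨b1, u, b2⟩ := h5 i j hij.le hj
  obtain ⟨-, u', c2⟩ := h5 j _ hj le_rfl
  have b3 := b1 hij
  rw [h1, h2] at a2
  obtain ⟨d, hd⟩ : ∃ d, ct j = ct i + d := ⟨ct j - ct i, by omega⟩
  rw [← e, hd] at b2 c2
  refine ⟨d, by omega, fun t => ?_⟩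
  have := C.mono (C.trans c2 h4) (t * d)
  rw [show ct i + d + t * d = ct i + (t + 1) * d by ring] at this
  exact ⟨_, C.trans a2 (C.trans (C.loop_up b2 _ le_rfl (t + 1)) this)⟩

/-- Two loops at the same state whose effects have the same sign can be exchanged. -/
theorem CS.exchange (C : CS X) {s0 s f : C.S} {c c1 d d1 : ℕ} {α β u v : List X}
    (h1 : C.R s0 1 α s c) (h2 : C.R s c β f 0) (hc : 1 + Nat.card C.S * C.K + Nat.card C.S < c)
    (hu : C.R s c u s c1) (hv : C.R s d v s d1) (hs : compare c c1 = compare d d1) :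
    ∃ α' β' i j, 0 < j ∧ (∀ a, a ∈ β' ↔ a ∈ β) ∧ C.R s0 1 (α' ++ pw i u ++ β') f 0 ∧
      C.R s0 1 (α' ++ pw j v ++ β') f 0 := by
  obtain ⟨P1, hP1, g1⟩ := C.pump_up h1 (by omega)
  obtain ⟨P2, hP2, g2⟩ := C.pump_down h2 (by omega)
  have hb : d ≤ c + P2 * d * P1 := by
    have : 1 * d * 1 ≤ P2 * d * P1 := Nat.mul_le_mul (Nat.mul_le_mul_right _ hP2) hP1
    omega
  rcases lt_trichotomy c c1 with g | g | g
  · have g' : d < d1 := by rwa [compare_lt_iff_lt.2 g, eq_comm, compare_lt_iff_lt] at hs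
    obtain ⟨a, rfl⟩ : ∃ a, c1 = c + a := ⟨c1 - c, by omega⟩
    obtain ⟨b, rfl⟩ : ∃ b, d1 = d + b := ⟨d1 - d, by omega⟩
    obtain ⟨α', k1⟩ := g1 (P2 * d)
    obtain ⟨β', k2, k3⟩ := g2 (P1 * d + a * b)
    refine ⟨α', β', b * P2, a * P2, Nat.mul_pos (by omega) hP2, k3, ?_, ?_⟩
    · refine C.trans (C.trans k1 (C.loop_up hu _ (by omega) _)) ?_
      convert k2 using 1; ring
    · refine C.trans (C.trans k1 (C.loop_up hv _ hb _)) ?_
      convert k2 using 1; ring
  · have g' : d = d1 := by rwa [compare_eq_iff_eq.2 g, eq_comm, compare_eq_iff_eq] at hs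
    subst g g'
    obtain ⟨α', k1⟩ := g1 (P2 * d)
    obtain ⟨β', k2, k3⟩ := g2 (P1 * d)
    refine ⟨α', β', 0, 1, one_pos, k3, ?_, ?_⟩
    · refine C.trans (C.trans k1 (C.loop_up (d := 0) hu _ (by omega) _)) ?_
      convert k2 using 1; ring
    · refine C.trans (C.trans k1 (C.loop_up (d := 0) hv _ hb _)) ?_
      convert k2 using 1; ring
  · have g' : d1 < d := by rwa [compare_gt_iff_gt.2 g, eq_comm, compare_gt_iff_gt] at hs
    obtain ⟨a, rfl⟩ : ∃ a, c = c1 + a := ⟨c - c1, by omega⟩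
    obtain ⟨b, rfl⟩ : ∃ b, d = d1 + b := ⟨d - d1, by omega⟩
    obtain ⟨α', k1⟩ := g1 (P2 * (d1 + b) + a * b)
    obtain ⟨β', k2, k3⟩ := g2 (P1 * (d1 + b))
    have e : c1 + a + P1 * (d1 + b) * P2 = c1 + a + P2 * (d1 + b) * P1 := by ring
    refine ⟨α', β', b * P1, a * P1, Nat.mul_pos (by omega) hP1, k3, ?_, ?_⟩
    · refine C.trans (C.trans ?_ (C.loop_down hu _ (by omega) _)) k2
      convert k1 using 1; ring
    · refine C.trans (C.trans ?_ (C.loop_down hv _ (by omega) _)) k2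
      convert k1 using 1; ring

end Pool.Agent.H24.Gsm
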