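import Pool.Agent.H24.Gsm2

/-! The restricted one-counter languages are not G-principal. -/

namespace Pool.Agent.H24.Gsm

open Pool.Agent.H24.Bfr

inductive Lt (k : ℕ) : Type
  | s (i : Fin k) | bar (i : Fin k) | a | b | c
  deriving DecidableEq, Fintype

variable {k : ℕ} {Y : Type}

def Good (w : List (Lt k)) : Prop :=
  ∀ t, Lt.bar t ∈ w → w[w.count Lt.c]? = some (Lt.s t) ∧ Lt.s t ∉ w.drop (w.count Lt.c + 1)

theorem good_of (x y : List (Fin k)) (t : Fin k) (ht : t ∉ y) (z : List (Lt k))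
    (h1 : ∀ i, Lt.s i ∉ z) (h2 : ∀ i, Lt.bar i ∉ z) (h3 : z.count Lt.c = x.length) :
    Good (x.map Lt.s ++ Lt.s t :: (y.map Lt.s ++ Lt.bar t :: z)) := by
  intro r hr
  obtain rfl : r = t := by simpa [h2] using hr
  have e : (x.map Lt.s ++ Lt.s r :: (y.map Lt.s ++ Lt.bar r :: z)).count Lt.c = (x.map (Lt.s (k := k))).length := by
    have : ∀ x : List (Fin k), (x.map Lt.s).count Lt.c = 0 := fun x => List.count_eq_zero.2 (by simp)
    simp [List.count_append, this, h3]
  rw [e]
  refine ⟨by simp, ?_⟩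
  rw [List.drop_append, List.drop_eq_nil_of_le (by omega)]
  simp [ht, h1]

theorem good_swap {α β u v : List (Lt k)} {t} (h1 : Good (α ++ u ++ β)) (h2 : Good (α ++ v ++ β))
    (hb : Lt.bar t ∈ β) (hu : Lt.s t ∉ u) (hβ : Lt.s t ∉ β) (hv : Lt.s t ∈ v)
    (hc : u.count Lt.c = v.count Lt.c) : False := by
  obtain ⟨a1, -⟩ := h1 t (by simp [hb])
  obtain ⟨-, a2⟩ := h2 t (by simp [hb])
  have e : (α ++ v ++ β).count Lt.c = (α ++ u ++ β).count Lt.c := by simp [List.count_append, hc]
  rw [e] at a2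
  generalize (α ++ u ++ β).count Lt.c = n at a1 a2
  by_cases hn : n < α.length
  · apply a2
    rw [List.append_assoc, List.drop_append_of_le_length (by omega)]
    simp [hv]
  · rw [List.append_assoc, List.getElem?_append_right (by omega)] at a1
    have := List.mem_of_getElem? a1
    simp [hu, hβ] at this

theorem good_uniq {γ z z' : List (Lt k)} {t} (h1 : Good (γ ++ Lt.bar t :: z))
    (h2 : Good (γ ++ Lt.bar t :: z')) (hz : Lt.s t ∉ z)
    (hlt : z'.count Lt.c < z.count Lt.c) : False := by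
  obtain ⟨a1, -⟩ := h1 t (by simp)
  obtain ⟨-, a2⟩ := h2 t (by simp)
  have e : (γ ++ Lt.bar t :: z').count Lt.c < (γ ++ Lt.bar t :: z).count Lt.c := by
    simp [List.count_append, hlt]
  generalize (γ ++ Lt.bar t :: z).count Lt.c = n at a1 e
  generalize (γ ++ Lt.bar t :: z').count Lt.c = m at a2 e
  by_cases hn : n < γ.length
  · apply a2
    rw [List.getElem?_append_left hn] at a1
    rw [List.drop_append_of_le_length (by omega)]
    refine List.mem_append_left _ (List.mem_of_getElem? (i := n - (m + 1)) ?_)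
    rw [List.getElem?_drop, show m + 1 + (n - (m + 1)) = n by omega, a1]
  · rw [List.getElem?_append_right (by omega)] at a1
    have := List.mem_of_getElem? a1
    simp [hz] at this

theorem setup (τ : AGsm (Lt k) Y) : ∃ (g : List (Fin k)) (f x y : Fin k → List (Fin k)),
    (∀ r, g = x r ++ r :: y r ∧ r ∉ y r ∧ r ∉ f r ∧ ∀ r', r' < r → r ∈ f r') ∧
    (∀ q, τ.run (τ.run q (g.map Lt.s)) (g.map Lt.s) = τ.run q (g.map Lt.s)) ∧
    ∀ r q, τ.run (τ.run q (g.map Lt.s)) ((f r).map Lt.s) = τ.run q (g.map Lt.s) := by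
  let σ : AGsm (Fin k) Y := ⟨τ.Q, τ.fin, τ.start, fun q i => τ.next q (Lt.s i), fun _ _ => [], τ.acc⟩
  have hσ : ∀ q u, σ.run q u = τ.run q (u.map Lt.s) := fun q u => by
    simp [AGsm.run, List.foldl_map, σ]
  obtain ⟨g, h1, h2⟩ := exists_fix σ (List.finRange k)
  choose f hf1 hf2 using h2
  have hm : ∀ r (a : Fin k), a ∈ f r ↔ r ≤ a.1 := by
    intro r a
    rw [hf1, List.mem_drop_iff_getElem]
    constructor
    · rintro ⟨j, h, rfl⟩; simp
    · intro h
      exact ⟨a.1 - r, by simp; omega, by simp [Fin.ext_iff]; omega⟩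
  have h3 : ∀ r : Fin k, ∃ x y, g = x ++ r :: y ∧ r ∉ y := fun r => last_occ (by simp [h1])
  choose x y h4 h5 using h3
  have h6 : ∀ r q, τ.run (τ.run q (g.map Lt.s)) ((f r).map Lt.s) = τ.run q (g.map Lt.s) := by
    intro r q
    have := hf2 r q
    rwa [hσ, hσ] at this
  obtain ⟨p, hp, h7⟩ := exists_idem σ g
  refine ⟨pw p g, fun r => f (r + 1), fun r => pw (p - 1) g ++ x r, y, fun r => ⟨?_, h5 r, by simp [hm],
    fun r' h => (hm _ _).2 h⟩, fun q => ?_, fun r q => ?_⟩
  · obtain ⟨p, rfl⟩ : ∃ p', p = p' + 1 := ⟨p - 1, by omega⟩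
    rw [pw_succ', List.append_assoc, ← h4]; rfl
  · have := h7 1 one_pos q
    rwa [one_mul, hσ, hσ] at this
  · obtain ⟨p, rfl⟩ : ∃ p', p = p' + 1 := ⟨p - 1, by omega⟩
    rw [pw_succ', List.map_append, τ.run_append, h6]

inductive TrB (k : ℕ) : Option (Option (Fin k)) × Option (Lt k) × ℕ × Option (Option (Fin k)) → Prop
  | x (i) : TrB k (none, some (Lt.s i), 2, none)
  | t (i) : TrB k (none, some (Lt.s i), 1, some (some i))
  | y (t i) : i ≠ t → TrB k (some (some t), some (Lt.s i), 1, some (some t))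
  | bar (t) : TrB k (some (some t), some (Lt.bar t), 0, some none)
  | c : TrB k (some none, some Lt.c, 0, some none)

def ocaB (k : ℕ) : Oca (Lt k) where
  Q := Option (Option (Fin k))
  fin := inferInstance
  start := none
  acc := Set.univ
  tr := {e | TrB k e}
  trfin := by
    refine Set.Finite.subset (Set.finite_univ.prod (Set.finite_univ.prod
      ((Set.finite_le_nat 2).prod Set.finite_univ))) ?_
    intro e he
    cases he <;> simp

def InvB : Option (Option (Fin k)) → ℕ → List (Lt k) → Prop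
  | some none, n, w => w = List.replicate n Lt.c
  | some (some t), n, w => n = 0 ∨ ∃ (y : List (Fin k)) (m : ℕ), n = m + 1 ∧ t ∉ y ∧
      w = y.map Lt.s ++ Lt.bar t :: List.replicate m Lt.c
  | none, n, w => n = 0 ∨ ∃ (x y : List (Fin k)) (t : Fin k) (m : ℕ), n = m + 1 ∧ t ∉ y ∧
      w = x.map Lt.s ++ Lt.s t :: (y.map Lt.s ++ Lt.bar t :: List.replicate (m + x.length) Lt.c)

theorem invB {q n w q' z} (h : (ocaB k).Run q n w q' z) (hz : z = 0) : InvB q n w := by
  induction h with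
  | refl q n =>
    subst hz
    rcases q with _ | _ | t <;> simp [InvB]
  | @step q a j q1 n w q' n' h _ ih =>
    have ih := ih hz
    change TrB k _ at h
    cases h with
    | x i =>
      obtain h | ⟨x, y, t, m, h1, h2, rfl⟩ := ih
      · omega
      · exact Or.inr ⟨i :: x, y, t, n, rfl, h2, by simp; omega⟩
    | t i =>
      obtain h | ⟨y, m, h1, h2, rfl⟩ := ih
      · omega
      · exact Or.inr ⟨[], y, i, n, rfl, h2, by simp; omega⟩
    | y t i hi =>
      obtain h | ⟨y, m, h1, h2, rfl⟩ := ih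
      · omega
      · exact Or.inr ⟨i :: y, n, rfl, by simp [h2, hi.symm], by simp; omega⟩
    | bar t =>
      exact Or.inr ⟨[], n, rfl, by simp, by simpa [InvB] using ih⟩
    | c =>
      simp only [InvB] at ih ⊢
      simp [ih, List.replicate_succ]

theorem ocaB_good {w} (h : w ∈ (ocaB k).lang) : Good w := by
  obtain ⟨f, -, h⟩ := h
  obtain h | ⟨x, y, t, m, h1, h2, rfl⟩ := invB h rfl
  · omega
  · obtain rfl : m = 0 := by omega
    exact good_of x y t h2 _ (by simp [List.mem_replicate]) (by simp [List.mem_replicate]) (by simp)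

theorem ocaB_mem (x y : List (Fin k)) (t) (ht : t ∉ y) :
    x.map Lt.s ++ Lt.s t :: (y.map Lt.s ++ Lt.bar t :: List.replicate x.length Lt.c) ∈
      (ocaB k).lang := by
  have h1 : ∀ n, (ocaB k).Run (some none) n (List.replicate n Lt.c) (some none) 0 := by
    intro n
    induction n with
    | zero => exact .refl _ _
    | succ n ih => exact .step (a := some Lt.c) TrB.c ih
  have h2 : ∀ n (y : List (Fin k)), t ∉ y → (ocaB k).Run (some (some t)) (n + 1)
      (y.map Lt.s ++ Lt.bar t :: List.replicate n Lt.c) (some none) 0 := by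
    intro n y
    induction y with
    | nil => exact fun _ => .step (a := some (Lt.bar t)) (TrB.bar t) (h1 n)
    | cons i y ih =>
      intro h
      simp only [List.mem_cons, not_or] at h
      exact .step (a := some (Lt.s i)) (TrB.y t i (Ne.symm h.1)) (ih h.2)
  have h3 : ∀ (x : List (Fin k)) n, (ocaB k).Run none (n + 1) (x.map Lt.s ++ Lt.s t ::
      (y.map Lt.s ++ Lt.bar t :: List.replicate (n + x.length) Lt.c)) (some none) 0 := by
    intro x
    induction x with
    | nil => exact fun n => .step (a := some (Lt.s t)) (TrB.t t) (h2 n y ht)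
    | cons i x ih =>
      intro n
      refine .step (a := some (Lt.s i)) (TrB.x i) ?_
      have := ih (n + 1)
      rwa [show n + 1 + x.length = n + (i :: x).length by simp; ring] at this
  have := h3 x 0
  rw [zero_add, zero_add] at this
  exact ⟨some none, trivial, this⟩

theorem run_blocks (A : Oca Y) (F : List Y) (p f : A.Q) (n z : ℕ) (y0 : List Y) :
    ∀ (N : ℕ) (y1 : List Y), A.Run p n (y0 ++ pw N F ++ y1) f z →
    ∃ (st : ℕ → A.Q) (ct : ℕ → ℕ), (∀ i, i ≤ N → A.Run p n (y0 ++ pw i F) (st i) (ct i) ∧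
      A.Run (st i) (ct i) (pw (N - i) F ++ y1) f z) ∧
      ∀ i j, i ≤ j → j ≤ N → A.Run (st i) (ct i) (pw (j - i) F) (st j) (ct j) := by
  intro N
  induction N with
  | zero =>
    intro y1 h
    obtain ⟨q, m, h1, h2⟩ := h.split _ _ rfl
    refine ⟨fun _ => q, fun _ => m, fun i hi => ?_, fun i j h1 h2 => ?_⟩
    · obtain rfl : i = 0 := by omega
      exact ⟨h1, by simpa using h2⟩
    · obtain rfl : j = 0 := by omega
      simpa using Oca.Run.refl q m
  | succ N ih =>
    intro y1 h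
    rw [pw_succ', ← List.append_assoc, List.append_assoc _ F] at h
    obtain ⟨st, ct, h1, h2⟩ := ih _ h
    obtain ⟨a1, a2⟩ := h1 N le_rfl
    rw [Nat.sub_self, pw_zero, List.nil_append] at a2
    obtain ⟨q, m, a3, a4⟩ := a2.split _ _ rfl
    refine ⟨Function.update st (N + 1) q, Function.update ct (N + 1) m, fun i hi => ?_,
      fun i j p1 p2 => ?_⟩
    · by_cases e : i = N + 1
      · subst e
        refine ⟨?_, by simpa using a4⟩
        rw [pw_succ', ← List.append_assoc]
        simpa using a1.trans a3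
      · obtain ⟨b1, b2⟩ := h1 i (by omega)
        rw [show N + 1 - i = N - i + 1 by omega, pw_succ', List.append_assoc]
        simpa [e] using And.intro b1 b2
    · by_cases e : j = N + 1
      · subst e
        by_cases e2 : i = N + 1
        · subst e2
          simpa using Oca.Run.refl q m
        · rw [show N + 1 - i = N - i + 1 by omega, pw_succ']
          simpa [e2] using (h2 i N (by omega) le_rfl).trans a3
      · have e2 : i ≠ N + 1 := by omega
        simpa [e, e2] using h2 i j p1 (by omega)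

theorem roc_main [Finite Y] (A : Oca Y) : ¬ InG A.lang (Lt (3 * Nat.card A.Q + 1))
    (ocaB (3 * Nat.card A.Q + 1)).lang := by
  intro H
  have := A.fin
  generalize hk : 3 * Nat.card A.Q + 1 = k at H
  obtain ⟨τ, hτ⟩ := H.single
  obtain ⟨g, f, x, y, h1, h2, h3⟩ := setup τ
  obtain ⟨γ, ι, hγ⟩ := exists_gsm_fr τ
  obtain ⟨C, κ, hC⟩ := exists_cs γ A
  set q1 := τ.run τ.start (g.map Lt.s) with hq1
  have hacc : ∀ w p q, q ∈ τ.acc → p ∈ A.acc → C.R (κ A.start (ι τ.start)) 1 w (κ p (ι q)) 0 →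
      Good w := by
    intro w p q a1 a2 a3
    obtain ⟨z, b1, b2⟩ := (hC ..).1 a3
    obtain ⟨rfl, rfl⟩ := (hγ ..).1 b1
    exact ocaB_good (hτ ▸ ⟨a1, p, a2, b2⟩)
  have hz : ∀ M r i, τ.run τ.start ((pw (M + 1) g ++ pw i (f r)).map Lt.s) = q1 := by
    intro M r i
    have e1 : ∀ n (l : List (Fin k)), (pw n l).map Lt.s = pw n (l.map Lt.s) := by
      intro n l; simp [pw, List.map_flatten]
    rw [List.map_append, τ.run_append, e1, e1, pw_succ, τ.run_append, run_pw_fix τ (h2 _),
      run_pw_fix τ (h3 r _)]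
  -- the runs
  have hrun : ∀ r M, ∃ (st : ℕ → A.Q) (ct : ℕ → ℕ) (p : A.Q) (q : τ.Q), q ∈ τ.acc ∧ p ∈ A.acc ∧
      (∀ i, i ≤ Nat.card A.Q → C.R (κ A.start (ι τ.start)) 1
        ((pw (M + 1) g ++ pw i (f r)).map Lt.s) (κ (st i) (ι q1)) (ct i) ∧
        C.R (κ (st i) (ι q1)) (ct i) ((pw (Nat.card A.Q - i) (f r)).map Lt.s ++ Lt.bar r ::
          List.replicate (pw M g ++ x r).length Lt.c) (κ p (ι q)) 0) ∧
      ∀ i j, i ≤ j → j ≤ Nat.card A.Q → C.R (κ (st i) (ι q1)) (ct i) (pw (j - i) ((f r).map Lt.s))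
        (κ (st j) (ι q1)) (ct j) := by
    intro r M
    have e1 : ∀ n (l : List (Fin k)), (pw n l).map Lt.s = pw n (l.map Lt.s) := by
      intro n l; simp [pw, List.map_flatten]
    have hm := ocaB_mem (pw M g ++ x r) (y r ++ pw (Nat.card A.Q) (f r)) r
      (by simp [mem_pw, (h1 r).2.1, (h1 r).2.2.1])
    have e2 : (pw M g ++ x r).map Lt.s ++ Lt.s r :: ((y r ++ pw (Nat.card A.Q) (f r)).map Lt.s ++
        Lt.bar r :: List.replicate (pw M g ++ x r).length Lt.c) =
        (pw (M + 1) g).map Lt.s ++ pw (Nat.card A.Q) ((f r).map Lt.s) ++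
          Lt.bar r :: List.replicate (pw M g ++ x r).length Lt.c := by
      rw [pw_succ', ← e1]
      have := congrArg (List.map (Lt.s (k := k))) (h1 r).1
      simp only [List.map_append, this, List.map_cons, List.append_assoc, List.cons_append]
    rw [e2, hτ] at hm
    obtain ⟨a1, p, a2, a3⟩ := hm
    have z0 := hz M r 0
    rw [pw_zero, List.append_nil] at z0
    rw [τ.outw_append, τ.outw_append, τ.run_append, z0, run_pw_fix τ (h3 r _),
      outw_pw_fix τ (h3 r _)] at a3
    rw [τ.run_append, τ.run_append, z0, run_pw_fix τ (h3 r _)] at a1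
    obtain ⟨st, ct, b1, b2⟩ := run_blocks A _ _ _ _ _ _ _ _ a3
    refine ⟨st, ct, p, _, a1, a2, fun i hi => ⟨(hC ..).2 ⟨_, (hγ ..).2 ⟨hz M r i, ?_⟩, (b1 i hi).1⟩,
      (hC ..).2 ⟨_, (hγ ..).2 ⟨?_, ?_⟩, (b1 i hi).2⟩⟩, fun i j p1 p2 =>
      (hC ..).2 ⟨_, (hγ ..).2 ⟨run_pw_fix τ (h3 r _) _, outw_pw_fix τ (h3 r _) _⟩, b2 i j p1 p2⟩⟩
    · rw [List.map_append, τ.outw_append, z0, e1 i, outw_pw_fix τ (h3 r _)]
    · rw [τ.run_append, e1, run_pw_fix τ (h3 r _)]
    · rw [τ.outw_append, e1, run_pw_fix τ (h3 r _), outw_pw_fix τ (h3 r _)]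
  choose st ct pf qf g1 g2 g3 g4 using hrun
  set B := 1 + Nat.card C.S * C.K + Nat.card C.S with hB
  have hbig : ∀ r, ∃ M, ∀ i, i ≤ Nat.card A.Q → B < ct r M i := by
    intro r
    by_contra hn
    push Not at hn
    choose I hI1 hI2 using hn
    obtain ⟨M, M', hM, e⟩ : ∃ M M', M < M' ∧ I M = I M' ∧ st r M (I M) = st r M' (I M') ∧
        ct r M (I M) = ct r M' (I M') := by
      obtain ⟨M, M', p1, p2⟩ := Finite.exists_ne_map_eq_of_infinite (fun M : ℕ =>
        ((⟨I M, Nat.lt_succ_of_le (hI1 M)⟩, st r M (I M), ⟨ct r M (I M), Nat.lt_succ_of_le (hI2 M)⟩) :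
          Fin (Nat.card A.Q + 1) × A.Q × Fin (B + 1)))
      simp only [Prod.mk.injEq, Fin.mk.injEq] at p2
      rcases lt_or_gt_of_ne p1 with g | g
      · exact ⟨M, M', g, p2⟩
      · exact ⟨M', M, g, p2.1.symm, p2.2.1.symm, p2.2.2.symm⟩
    obtain ⟨e1, e2, e3⟩ := e
    have a1 := g3 r M (I M) (hI1 M)
    have a2 := g3 r M' (I M') (hI1 M')
    rw [e2, e3, e1] at a1
    have b1 := hacc _ _ _ (g1 r M) (g2 r M) (C.trans a2.1 a1.2)
    have b2 := hacc _ _ _ (g1 r M') (g2 r M') (C.trans a2.1 a2.2)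
    rw [← List.append_assoc] at b1 b2
    refine good_uniq b2 b1 (by simp [List.mem_replicate]) ?_
    have : 0 < g.length := by rw [(h1 r).1]; simp
    simp only [List.count_replicate_self, List.length_append, length_pw]
    nlinarith
  choose M hM using hbig
  have hl : ∀ r, ∃ i j, i < j ∧ j ≤ Nat.card A.Q ∧ st r (M r) i = st r (M r) j := fun r => pigeon _
  choose I J l1 l2 l3 using hl
  obtain ⟨r', r, hr, e1, e2⟩ : ∃ r' r : Fin k, r' < r ∧ st r (M r) (I r) = st r' (M r') (I r') ∧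
      compare (ct r (M r) (I r)) (ct r (M r) (J r)) =
        compare (ct r' (M r') (I r')) (ct r' (M r') (J r')) := by
    have := Fintype.ofFinite A.Q
    obtain ⟨i, j, p1, p2⟩ := Fintype.exists_ne_map_eq_of_card_lt (fun r : Fin k =>
      (st r (M r) (I r), compare (ct r (M r) (I r)) (ct r (M r) (J r))))
      (by
        rw [Fintype.card_fin, Fintype.card_prod, ← Nat.card_eq_fintype_card (α := A.Q),
          show Fintype.card Ordering = 3 from rfl]
        omega)
    simp only [Prod.mk.injEq] at p2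
    rcases lt_or_gt_of_ne p1 with g | g
    · exact ⟨i, j, g, p2.1.symm, p2.2.symm⟩
    · exact ⟨j, i, g, p2⟩
  have a1 := g3 r (M r) (I r) (by have := l1 r; have := l2 r; omega)
  have a2 := g4 r (M r) (I r) (J r) (l1 r).le (l2 r)
  have a3 := g4 r' (M r') (I r') (J r') (l1 r').le (l2 r')
  rw [← l3] at a2 a3
  rw [← e1] at a3
  obtain ⟨α, β, i, j, hj, b1, b2, b3⟩ := C.exchange a1.1 a1.2
    (hM r _ (by have := l1 r; have := l2 r; omega)) a2 a3 e2
  refine good_swap (t := r) (hacc _ _ _ (g1 r _) (g2 r _) b2) (hacc _ _ _ (g1 r _) (g2 r _) b3)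
    (by simp [b1]) (by simp [mem_pw, (h1 r).2.2.1]) ?_ ?_ ?_
  · simp [b1, mem_pw, (h1 r).2.2.1, List.mem_replicate]
  · have := l1 r'
    simp [mem_pw, hj, (h1 r).2.2.2 r' hr, this]
  · rw [List.count_eq_zero.2 (by simp [mem_pw]), List.count_eq_zero.2 (by simp [mem_pw])]

end Pool.Agent.H24.Gsm
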