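import Pool.Agent.H24.Gsm1

/-! Linear grammars as finite-state relations, and a stationary-loop lemma. -/

namespace Pool.Agent.H24.Gsm

open Pool.Agent.H24.Bfr

variable {X Y : Type}

/-- Whether a grammar symbol is a nonterminal. -/
def isNT {N : Type} : Symbol X N → Bool
  | Symbol.nonterminal _ => true
  | Symbol.terminal _ => false

/-- A context-free grammar is linear if every right-hand side has at most one nonterminal. -/
def IsLinear (g : ContextFreeGrammar X) : Prop := ∀ r ∈ g.rules, r.output.countP isNT ≤ 1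

theorem lin_shape {N : Type} (l : List (Symbol X N)) (h : l.countP isNT ≤ 1) : ∃ (u : List X) (o : Option N) (v : List X),
      l = u.map Symbol.terminal ++ o.toList.map Symbol.nonterminal ++ v.map Symbol.terminal := by
  induction l with
  | nil => exact ⟨[], none, [], rfl⟩
  | cons s l ih =>
    cases s with
    | terminal a =>
      obtain ⟨u, o, v, rfl⟩ := ih (by simpa [isNT] using h)
      exact ⟨a :: u, o, v, rfl⟩
    | nonterminal A =>
      obtain ⟨u, o, v, rfl⟩ := ih (by rw [List.countP_cons] at h; omega)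
      cases o with
      | none => exact ⟨[], some A, u ++ v, by simp⟩
      | some B => simp [isNT] at h

theorem shape_uniq {N : Type} {A : N} {o : Option N} (v : List X) (q : List (Symbol X N)) :
    ∀ (u : List X) (p : List (Symbol X N)),
    u.map Symbol.terminal ++ o.toList.map Symbol.nonterminal ++ v.map Symbol.terminal =
      p ++ [Symbol.nonterminal A] ++ q →
    o = some A ∧ p = u.map Symbol.terminal ∧ q = v.map Symbol.terminal := by
  intro u
  induction u with
  | nil =>
    intro p h
    have hv : Symbol.nonterminal A ∉ v.map (Symbol.terminal (N := N)) := by simp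
    cases o with
    | none => exact (hv (by simp at h; simp [h])).elim
    | some B =>
      cases p with
      | nil => simp at h; simp [h]
      | cons x p => exact (hv (by simp at h; simp [h.2])).elim
  | cons a u ih =>
    intro p h
    cases p with
    | nil => simp at h
    | cons x p =>
      simp only [List.map_cons, List.cons_append, List.cons.injEq] at h
      obtain ⟨h1, h2, h3⟩ := ih p h.2
      exact ⟨h1, by simp [h.1, h2], h3⟩

def Pq {C N : Type} (inp : C → N) (nxt : C → Option N) : Option N → List C → Option N → Prop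
  | o, [], o' => o = o'
  | o, c :: z, o' => o = some (inp c) ∧ Pq inp nxt (nxt c) z o'

theorem pq_append {C N : Type} (inp : C → N) (nxt : C → Option N) (z z' : List C) : ∀ s f,
    Pq inp nxt s (z ++ z') f ↔ ∃ m, Pq inp nxt s z m ∧ Pq inp nxt m z' f := by
  induction z with
  | nil => intro s f; simp [Pq]
  | cons e z ih =>
    intro s f
    simp only [List.cons_append, Pq, ih]
    constructor
    · rintro ⟨h, m, h1, h2⟩; exact ⟨m, ⟨h, h1⟩, h2⟩
    · rintro ⟨m, ⟨h, h1⟩, h2⟩; exact ⟨h, m, h1, h2⟩

theorem lin_lang (g : ContextFreeGrammar X) {C : Type} (inp : C → g.NT) (nxt : C → Option g.NT)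
    (lft rgt : C → List X)
    (H : ∀ r, r ∈ g.rules ↔ ∃ c, r = ⟨inp c, (lft c).map Symbol.terminal ++
      (nxt c).toList.map Symbol.nonterminal ++ (rgt c).map Symbol.terminal⟩) (w : List X) :
    w ∈ g.language ↔ ∃ z, Pq inp nxt (some g.initial) z none ∧
      w = z.flatMap lft ++ (z.flatMap fun c => (rgt c).reverse).reverse := by
  constructor
  · intro h
    have key : ∀ s, g.Derives [Symbol.nonterminal g.initial] s → ∃ z o,
        Pq inp nxt (some g.initial) z o ∧ s = (z.flatMap lft).map Symbol.terminal ++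
          o.toList.map Symbol.nonterminal ++
          (z.flatMap fun c => (rgt c).reverse).reverse.map Symbol.terminal := by
      intro s hs
      induction hs with
      | refl => exact ⟨[], _, rfl, rfl⟩
      | tail _ h2 ih =>
        obtain ⟨z, o, h3, rfl⟩ := ih
        obtain ⟨r, hr, h4⟩ := h2
        obtain ⟨p, q, h5, rfl⟩ := h4.exists_parts
        obtain ⟨c, rfl⟩ := (H r).1 hr
        obtain ⟨rfl, rfl, rfl⟩ := shape_uniq _ _ _ _ h5
        exact ⟨z ++ [c], nxt c, (pq_append ..).2 ⟨_, h3, rfl, rfl⟩, by simp⟩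
    obtain ⟨z, o, h1, h2⟩ := key _ h
    cases o with
    | some A =>
      have : Symbol.nonterminal A ∈ w.map (Symbol.terminal (N := g.NT)) := by rw [h2]; simp
      simp at this
    | none =>
      refine ⟨z, h1, ?_⟩
      apply List.map_injective_iff.2 (fun a b (h : Symbol.terminal (N := g.NT) a = .terminal b) =>
        Symbol.terminal.inj h)
      simpa using h2
  · rintro ⟨z, h, rfl⟩
    have key : ∀ (z : List C) o, Pq inp nxt o z none → g.Derives (o.toList.map Symbol.nonterminal)
        ((z.flatMap lft ++ (z.flatMap fun c => (rgt c).reverse).reverse).map Symbol.terminal) := by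
      intro z
      induction z with
      | nil => rintro o rfl; exact ContextFreeGrammar.Derives.refl _
      | cons c z ih =>
        rintro o ⟨rfl, h⟩
        have h1 := ((ih _ h).append_left ((lft c).map Symbol.terminal)).append_right
          ((rgt c).map Symbol.terminal)
        refine Relation.ReflTransGen.head ⟨_, (H _).2 ⟨c, rfl⟩, ContextFreeRule.Rewrites.input_output⟩ ?_
        simpa using h1
    exact key z _ h

theorem lin_fr [Finite X] (g : ContextFreeGrammar X) (hg : IsLinear g) :
    ∃ σ : FR X X, ∀ w, w ∈ g.language ↔ ∃ u v, w = u ++ v.reverse ∧ σ.rel u v := by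
  have h1 : ∀ c : {r // r ∈ g.rules}, _ := fun c => lin_shape _ (hg c.1 c.2)
  choose lft nxt rgt h1 using h1
  have h2 := lin_lang g (fun c : {r // r ∈ g.rules} => c.1.input) nxt lft rgt (by
    intro r
    constructor
    · intro h; exact ⟨⟨r, h⟩, by rw [← h1]⟩
    · rintro ⟨c, rfl⟩; rw [← h1]; exact c.2)
  have hR : Language.IsRegular ({z | Pq (fun c : {r // r ∈ g.rules} => c.1.input) nxt
      (some g.initial) z none} : Language {r // r ∈ g.rules}) := by
    apply reg_of_fin _ (fun x => {o : Option {r // r ∈ g.rules} |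
      Pq (fun c : {r // r ∈ g.rules} => c.1.input) nxt (some g.initial) x (o.map fun c => c.1.input)})
    intro x x' e z h
    obtain ⟨m, p1, p2⟩ := (pq_append ..).1 h
    refine (pq_append ..).2 ⟨m, ?_, p2⟩
    cases z with
    | nil =>
      obtain rfl : m = none := p2
      exact (Set.ext_iff.1 e none).1 p1
    | cons c z =>
      obtain ⟨rfl, -⟩ := p2
      exact (Set.ext_iff.1 e (some c)).1 p1
  obtain ⟨a, ha⟩ := exists_morph lft
  obtain ⟨b, hb⟩ := exists_inter hR
  obtain ⟨c, hc⟩ := exists_morph fun c => (rgt c).reverse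
  refine ⟨(a.swap.comp b).comp c, fun w => ?_⟩
  rw [h2]
  simp only [FR.comp_rel, FR.swap_rel, ha, hb, hc]
  constructor
  · rintro ⟨z, p1, rfl⟩
    exact ⟨_, _, rfl, z, ⟨z, rfl, rfl, p1⟩, rfl⟩
  · rintro ⟨u, v, rfl, z, ⟨z', rfl, rfl, p1⟩, rfl⟩
    exact ⟨z', p1, rfl⟩

theorem fr_blocks (τ : FR X Y) (F : List X) (s f : τ.Q) (y0 : List X) (v : List Y) :
    ∀ (N : ℕ) (y1 : List X), τ.T s (y0 ++ pw N F ++ y1) v f →
    ∃ (st : ℕ → τ.Q) (pv : ℕ → List Y), (∀ i, i ≤ N → τ.T s (y0 ++ pw i F) (pv i) (st i) ∧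
      ∃ rest, v = pv i ++ rest ∧ τ.T (st i) (pw (N - i) F ++ y1) rest f) ∧
      ∀ i j, i ≤ j → j ≤ N → ∃ seg, pv j = pv i ++ seg ∧ τ.T (st i) (pw (j - i) F) seg (st j) := by
  intro N
  induction N with
  | zero =>
    intro y1 h
    obtain ⟨q, v1, v2, rfl, h1, h2⟩ := τ.splitIn h
    refine ⟨fun _ => q, fun _ => v1, fun i hi => ?_, fun i j h1 h2 => ?_⟩
    · obtain rfl : i = 0 := by omega
      exact ⟨h1, v2, rfl, by simpa using h2⟩
    · obtain rfl : j = 0 := by omega
      exact ⟨[], by simp, by simpa using τ.refl q⟩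
  | succ N ih =>
    intro y1 h
    rw [pw_succ', ← List.append_assoc, List.append_assoc _ F] at h
    obtain ⟨st, pv, h1, h2⟩ := ih _ h
    obtain ⟨a1, rest, a0, a2⟩ := h1 N le_rfl
    rw [Nat.sub_self, pw_zero, List.nil_append] at a2
    obtain ⟨q, v1, v2, rfl, a3, a4⟩ := τ.splitIn a2
    refine ⟨Function.update st (N + 1) q, Function.update pv (N + 1) (pv N ++ v1), fun i hi => ?_,
      fun i j p1 p2 => ?_⟩
    · by_cases e : i = N + 1
      · subst e
        refine ⟨?_, v2, by simpa using a0, by simpa using a4⟩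
        rw [pw_succ', ← List.append_assoc]
        simpa using τ.trans a1 a3
      · obtain ⟨b1, b2⟩ := h1 i (by omega)
        rw [show N + 1 - i = N - i + 1 by omega, pw_succ', List.append_assoc]
        simpa [e] using And.intro b1 b2
    · by_cases e : j = N + 1
      · subst e
        by_cases e2 : i = N + 1
        · subst e2
          exact ⟨[], by simp, by simpa using τ.refl q⟩
        · rw [show N + 1 - i = N - i + 1 by omega, pw_succ']
          obtain ⟨seg, c1, c2⟩ := h2 i N (by omega) le_rfl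
          exact ⟨seg ++ v1, by simp [e2, c1], by simpa [e2] using τ.trans c2 a3⟩
      · have e2 : i ≠ N + 1 := by omega
        simpa [e, e2] using h2 i j p1 (by omega)

theorem fr_loop (τ : FR X Y) (F : List X) (s f : τ.Q) (y0 : List X) (v : List Y) (P : Y → Bool)
    (N : ℕ) (hN : Nat.card τ.Q * (v.countP P + 1) ≤ N) (h : τ.T s (y0 ++ pw N F) v f) :
    ∃ i j i' m v1 seg v2, 0 < j ∧ N = i + j + i' ∧ v = v1 ++ seg ++ v2 ∧ seg.countP P = 0 ∧
      τ.T s (y0 ++ pw i F) v1 m ∧ τ.T m (pw j F) seg m ∧ τ.T m (pw i' F) v2 f := by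
  have := τ.fin
  obtain ⟨st, pv, h1, h2⟩ := fr_blocks τ F s f y0 v N [] (by simpa using h)
  have hb : ∀ i : Fin (N + 1), (pv i).countP P < v.countP P + 1 := by
    intro i
    obtain ⟨-, rest, e, -⟩ := h1 i (by omega)
    rw [e, List.countP_append]; omega
  obtain ⟨i, j, hij, hj, e1, e2⟩ : ∃ i j, i < j ∧ j ≤ N ∧ st i = st j ∧
      (pv i).countP P = (pv j).countP P := by
    have := Fintype.ofFinite τ.Q
    obtain ⟨i, j, p1, p2⟩ := Fintype.exists_ne_map_eq_of_card_lt (fun i : Fin (N + 1) =>
      ((st i, ⟨(pv i).countP P, hb i⟩) : τ.Q × Fin (v.countP P + 1)))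
      (by
        rw [Fintype.card_fin, Fintype.card_prod, ← Nat.card_eq_fintype_card (α := τ.Q),
          Fintype.card_fin]
        omega)
    simp only [Prod.mk.injEq, Fin.mk.injEq] at p2
    rcases lt_or_gt_of_ne p1 with g | g
    · exact ⟨i, j, g, by omega, p2⟩
    · exact ⟨j, i, g, by omega, p2.1.symm, p2.2.symm⟩
  obtain ⟨a1, -⟩ := h1 i (by omega)
  obtain ⟨-, rest, a2, a3⟩ := h1 j hj
  obtain ⟨seg, a4, a5⟩ := h2 i j hij.le hj
  rw [← e1] at a3 a5
  refine ⟨i, j - i, N - j, st i, pv i, seg, rest, by omega, by omega, by rw [a2, a4], ?_, a1, a5,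
    by simpa using a3⟩
  rw [a4, List.countP_append] at e2
  omega

theorem exists_morph' [Finite X] [Finite Y] (g : X → List Y) :
    ∃ (τ : FR X Y) (s0 : τ.Q), (∀ x y, τ.T s0 x y s0 ↔ x.flatMap g = y) ∧
      ∀ s y, τ.T s [] y s → y = [] := by
  obtain ⟨l, hl⟩ : ∃ l, ∀ c, (g c).length ≤ l := by
    obtain ⟨l, hl⟩ := (Set.finite_range fun c => (g c).length).bddAbove
    exact ⟨l, fun c => hl ⟨c, rfl⟩⟩
  refine ⟨⟨{b : List Y // b.length ≤ l}, (List.finite_length_le Y l).to_subtype,
    fun s u y f => s.1 ++ u.flatMap g = y ++ f.1, fun s => s.1 = [],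
    fun s => s.1 = [], fun s => by simp, ?_, ?_, ?_⟩, ⟨[], by simp⟩, by simp, ?_⟩
  · intro s s' s'' u u' y y' h1 h2
    rw [List.flatMap_append, ← List.append_assoc, h1, List.append_assoc, h2, List.append_assoc]
  · intro s s' u u' y h
    rw [List.flatMap_append, ← List.append_assoc] at h
    rcases List.append_eq_append_iff.1 h with ⟨a, rfl, h2⟩ | ⟨a, h1, h2⟩
    · exact ⟨⟨[], by simp⟩, _, a, rfl, by simp, by simpa using h2⟩
    · refine ⟨⟨a, ?_⟩, y, [], by simp, h1, by simpa using h2.symm⟩
      have h3 := s'.2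
      rw [h2] at h3
      simp at h3
      omega
  · intro s s' u y y' h
    obtain ⟨b'', u1, u2, h3, rfl, h4, h5⟩ := morph_out g l hl y' s'.1 u s.1 y s.2 h
    exact ⟨⟨b'', h3⟩, u1, u2, rfl, h4, h5⟩
  · intro s y h
    simpa using h

theorem pw_pre (B : List X) : ∀ (n : ℕ) (v w : List X), v ++ w = pw n B →
    ∃ i v3, v = pw i B ++ v3 ∧ v3.length ≤ B.length := by
  intro n
  induction n with
  | zero =>
    intro v w h
    exact ⟨0, [], by simp at h; simp [h.1], by simp⟩
  | succ n ih =>
    intro v w h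
    rw [pw_succ] at h
    rcases List.append_eq_append_iff.1 h with ⟨a, h1, h2⟩ | ⟨a, rfl, h2⟩
    · exact ⟨0, v, by simp, by simp [h1]⟩
    · obtain ⟨i, v3, rfl, h3⟩ := ih a w h2.symm
      exact ⟨i + 1, v3, by simp [pw_succ], h3⟩

theorem ins_none (v3 : List Y) (j : ℕ) (hj : 0 < j) (p' : List (Option Y)) :
    ∀ (c : List Y) (i : ℕ) (p : List (Option Y)),
    c.map some ++ List.replicate i none ++ v3.map some = p ++ List.replicate j none ++ p' →
    0 < i ∧ p ++ (List.replicate j none ++ List.replicate j none) ++ p' =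
      c.map some ++ List.replicate (i + j) none ++ v3.map some := by
  obtain ⟨j, rfl⟩ : ∃ j', j = j' + 1 := ⟨j - 1, by omega⟩
  intro c
  induction c with
  | nil =>
    intro i
    induction i with
    | zero =>
      intro p h
      have : none ∈ v3.map some := by simp at h; rw [h]; simp [List.mem_replicate]
      simp at this
    | succ i ih =>
      intro p h
      refine ⟨by omega, ?_⟩
      cases p with
      | nil =>
        simp only [List.map_nil, List.nil_append] at h ⊢
        rw [List.append_assoc, ← h, add_comm (i + 1), List.replicate_add (j + 1) (i + 1), List.append_assoc]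
      | cons y p =>
        simp only [List.map_nil, List.nil_append, List.replicate_succ (n := i), List.cons_append,
          List.cons.injEq] at h
        obtain ⟨rfl, h⟩ := h
        have := (ih p (by simpa using h)).2
        rw [show i + 1 + (j + 1) = (i + (j + 1)) + 1 by ring, List.replicate_succ (n := i + (j + 1))]
        simpa using this
  | cons a c ih =>
    intro i p h
    cases p with
    | nil => simp [List.replicate_succ] at h
    | cons y p =>
      simp only [List.map_cons, List.cons_append, List.cons.injEq] at h ⊢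
      obtain ⟨h1, h2⟩ := ih i p h.2
      exact ⟨h1, h.1.symm, h2⟩

theorem pw_reverse (n) (B : List X) : (pw n B).reverse = pw n B.reverse := by
  induction n with
  | zero => rfl
  | succ n ih => rw [pw_succ, List.reverse_append, ih, pw_succ']

theorem lin_loop [Finite Y] (σ : FR Y Y) (L : Language Y)
    (hL : ∀ w, w ∈ L ↔ ∃ u v, w = u ++ v.reverse ∧ σ.rel u v)
    (Z F B C : List Y) (D : ℕ → List Y)
    (h1 : ∀ N P, Z ++ pw N F ++ (D P ++ pw P B ++ C) ∈ L)
    (h2 : ∀ N P P', Z ++ pw N F ++ (D P ++ pw P' B ++ C) ∈ L → P = P') :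
    ∃ s j i i' P, 0 < j ∧ σ.T s (pw j F) [] s ∧ ∀ U, σ.T s U [] s →
      Z ++ (pw i F ++ U ++ pw i' F) ++ (D P ++ pw P B ++ C) ∈ L := by
  obtain ⟨μ, s0, hμ1, hμ2⟩ := exists_morph' (fun o : Option Y => o.elim B.reverse fun y => [y])
  set N := Nat.card (σ.comp μ.swap).Q * (C.length + B.length + 1) with hN
  set P := Nat.card σ.Q * ((Z ++ pw N F).length + 1) with hP
  obtain ⟨u, v, e, s, f, a1, a2, a3⟩ := (hL _).1 (h1 N P)
  have hX : ∀ u1 u2 v2 m, u1.length ≤ (Z ++ pw N F).length → u = u1 ++ u2 →
      v = C.reverse ++ pw P B.reverse ++ v2 → σ.T s u1 (C.reverse ++ pw P B.reverse) m →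
      σ.T m u2 v2 f → False := by
    rintro u1 u2 v2 m b1 rfl rfl b2 b3
    obtain ⟨i, j, i', m', w1, seg, w2, c1, c2, rfl, c4, c5, c6, c7⟩ :=
      fr_loop σ.swap B.reverse s m C.reverse u1 (fun _ => true) P
        (Nat.mul_le_mul_left _ (by simpa using b1)) b2
    obtain rfl : seg = [] := by simpa using c4
    have d1 : σ.T s _ _ f := σ.trans (σ.trans c5 (σ.trans c6 (σ.trans c6 c7))) b3
    have d2 := h2 N P (P + j) ((hL _).2 ⟨_, _, ?_, s, f, a1, a2, d1⟩)
    · omega
    · simp only [List.reverse_append, pw_reverse, List.reverse_reverse, List.append_nil,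
        List.nil_append, ← List.append_assoc, List.append_cancel_right_eq] at e ⊢
      rw [pw_add, ← List.append_assoc, e]
      simp only [List.append_assoc, ← pw_add]
      rw [show P + j = i' + j + j + i by omega]
  obtain ⟨u2, rfl, e2⟩ : ∃ u2, u = Z ++ pw N F ++ u2 ∧ D P ++ pw P B ++ C = u2 ++ v.reverse := by
    rcases List.append_eq_append_iff.1 e with h | ⟨a, b1, b2⟩
    · exact h
    · have : v = C.reverse ++ pw P B.reverse ++ ((D P).reverse ++ a.reverse) := by
        have := congrArg List.reverse b2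
        simpa [pw_reverse] using this
      rw [this] at a3
      obtain ⟨m, u1, u2, b3, b4, b5⟩ := σ.splitOut a3
      exact (hX u1 u2 _ m (by rw [b1, b3]; simp) b3 this b4 b5).elim
  obtain ⟨m, v1, v2, rfl, b1, b2⟩ := σ.splitIn a3
  have e3 : C.reverse ++ pw P B.reverse ++ (D P).reverse = v1 ++ (v2 ++ u2.reverse) := by
    have := congrArg List.reverse e2
    simpa [pw_reverse] using this
  obtain ⟨c, i, v3, rfl, k1, k2, k3⟩ : ∃ c i v3, v1 = c ++ pw i B.reverse ++ v3 ∧
      c.length ≤ C.length ∧ v3.length ≤ B.length ∧ (0 < i → c = C.reverse) := by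
    rcases List.append_eq_append_iff.1 e3 with ⟨a, rfl, -⟩ | ⟨a, c1, -⟩
    · obtain ⟨m', u1, u1', b3, b4, b5⟩ := σ.splitOut b1
      exact (hX u1 (u1' ++ u2) (a ++ v2) m' (by rw [b3]; simp) (by rw [b3]; simp) (by simp) b4
        (σ.trans b5 b2)).elim
    · rcases List.append_eq_append_iff.1 c1 with ⟨a', rfl, c2⟩ | ⟨a', c2, -⟩
      · obtain ⟨i, v3, rfl, c3⟩ := pw_pre _ _ _ _ c2.symm
        exact ⟨C.reverse, i, v3, by simp, by simp, by simpa using c3, fun _ => rfl⟩
      · refine ⟨v1, 0, [], by simp, ?_, by simp, by omega⟩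
        have := congrArg List.length c2
        simp at this
        omega
  have hψ : ∀ i, (c.map some ++ List.replicate i none ++ v3.map some).flatMap
      (fun o : Option Y => o.elim B.reverse fun y => [y]) = c ++ pw i B.reverse ++ v3 := by
    intro i
    simp [List.flatMap_map, List.flatMap_replicate, pw]
  have b3 : (σ.comp μ.swap).T (s, s0) (Z ++ pw N F)
      (c.map some ++ List.replicate i none ++ v3.map some) (m, s0) := ⟨_, b1, (hμ1 _ _).2 (hψ i)⟩
  obtain ⟨i1, j, i2, m', w1, seg, w2, c1, c2, c3, c4, c5, c6, c7⟩ :=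
    fr_loop (σ.comp μ.swap) F _ _ Z _ Option.isSome N (Nat.mul_le_mul_left _ (by
      simp [List.countP_replicate, List.countP_map, Function.comp_def]
      omega)) b3
  have hs : seg = List.replicate seg.length none := by
    refine List.eq_replicate_iff.2 ⟨rfl, fun b hb => ?_⟩
    have := List.countP_eq_zero.1 c4 b hb
    simpa using this
  rcases Nat.eq_zero_or_pos seg.length with g | g
  · obtain rfl : seg = [] := List.eq_nil_of_length_eq_zero g
    obtain ⟨y, d1, d2⟩ := c6
    obtain rfl : y = [] := hμ2 _ _ d2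
    refine ⟨m'.1, j, i1, j + i2, P, c1, d1, fun U hU => ?_⟩
    have d3 : (σ.comp μ.swap).T m' U [] m' := ⟨[], hU, μ.refl _⟩
    have d4 : (σ.comp μ.swap).T m' (pw j F) [] m' := ⟨[], d1, μ.refl _⟩
    obtain ⟨y, d5, d6⟩ := (σ.comp μ.swap).trans c5
      ((σ.comp μ.swap).trans d3 ((σ.comp μ.swap).trans d4 c7))
    have d7 := (hμ1 _ _).1 d6
    rw [List.append_nil] at c3
    rw [List.nil_append, List.nil_append, ← c3, hψ] at d7
    subst d7
    refine (hL _).2 ⟨_, _, ?_, s, f, a1, a2, σ.trans d5 b2⟩
    rw [e2]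
    simp [pw_add]
  · exfalso
    rw [hs] at c3 c6
    obtain ⟨d0, d1⟩ := ins_none _ _ g _ _ _ _ c3
    obtain ⟨y, d5, d6⟩ := (σ.comp μ.swap).trans c5
      ((σ.comp μ.swap).trans ((σ.comp μ.swap).trans c6 c6) c7)
    have d7 := (hμ1 _ _).1 d6
    rw [← List.append_assoc, d1, hψ] at d7
    subst d7
    obtain rfl := k3 d0
    have d2 := h2 (N + j) P (P + seg.length) ((hL _).2 ⟨_, _, ?_, s, f, a1, a2, σ.trans d5 b2⟩)
    · omega
    · simp only [List.reverse_append, pw_reverse, List.reverse_reverse, List.append_nil,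
        List.nil_append, ← List.append_assoc, List.append_cancel_right_eq] at e2 ⊢
      rw [pw_add P, ← List.append_assoc, List.append_assoc _ (D P), e2, pw_add i]
      simp only [List.append_assoc, ← pw_add, List.append_cancel_left_eq]
      simp only [← List.append_assoc, ← pw_add]
      rw [show N + j = i1 + j + j + i2 by omega]

end Pool.Agent.H24.Gsm
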