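import Pool.Agent.H24.Gsm3
import Pool.Agent.H24.Gsm4

/-! The linear languages are not G-principal. -/

namespace Pool.Agent.H24.Gsm

open Pool.Agent.H24.Bfr

variable {k : ℕ} {Y : Type}

inductive RI (k : ℕ) : Type
  | x (i : Fin k) | t (i : Fin k) | y (t i : Fin k) | bar (t : Fin k) | ab | eps
  deriving DecidableEq, Fintype

def RI.inp : RI k → Option (Option (Fin k))
  | .x _ => none | .t _ => none | .y r _ => some (some r) | .bar r => some (some r)
  | .ab => some none | .eps => some none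

def RI.nxt : RI k → Option (Option (Option (Fin k)))
  | .x _ => some none | .t i => some (some (some i)) | .y r _ => some (some (some r))
  | .bar _ => some (some none) | .ab => some (some none) | .eps => none

def RI.lft : RI k → List (Lt k)
  | .x i => [.s i] | .t i => [.s i] | .y r i => if i = r then [] else [.s i] | .bar r => [.bar r]
  | .ab => [.a] | .eps => []

def RI.rgt : RI k → List (Lt k)
  | .x _ => [.c] | .t _ => [] | .y _ _ => [] | .bar _ => [] | .ab => [.b] | .eps => []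

def ruleL (c : RI k) : ContextFreeRule (Lt k) (Option (Option (Fin k))) :=
  ⟨c.inp, c.lft.map Symbol.terminal ++
      c.nxt.toList.map Symbol.nonterminal ++ c.rgt.map Symbol.terminal⟩

theorem mem_ruleL (r) : r ∈ Finset.univ.image (ruleL (k := k)) ↔ ∃ c, r = ruleL c := by
  simp only [Finset.mem_image, Finset.mem_univ, true_and]
  exact exists_congr fun c => eq_comm

def gramL (k : ℕ) : ContextFreeGrammar (Lt k) where
  NT := Option (Option (Fin k))
  initial := none
  rules := Finset.univ.image ruleL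

theorem gramL_rules (r) : r ∈ (gramL k).rules ↔ ∃ c : RI k, r = ⟨c.inp, c.lft.map Symbol.terminal ++
      c.nxt.toList.map Symbol.nonterminal ++ c.rgt.map Symbol.terminal⟩ :=
  mem_ruleL r

theorem gramL_linear : IsLinear (gramL k) := by
  intro r hr
  obtain ⟨c, rfl⟩ := (gramL_rules r).1 hr
  have : ∀ l : List (Lt k),
      (l.map (Symbol.terminal (N := Option (Option (Fin k))))).countP isNT = 0 := by
    intro l; simp [List.countP_eq_zero, isNT]
  change (c.lft.map (Symbol.terminal (N := Option (Option (Fin k)))) ++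
      c.nxt.toList.map Symbol.nonterminal ++ c.rgt.map Symbol.terminal).countP isNT ≤ 1
  simp only [List.countP_append, this]
  cases c.nxt <;> simp [isNT]

def val (z : List (RI k)) : List (Lt k) :=
  z.flatMap RI.lft ++ (z.flatMap fun c => (RI.rgt c).reverse).reverse

theorem val_cons (c) (z : List (RI k)) : val (c :: z) = c.lft ++ val z ++ c.rgt := by simp [val]

theorem gramL_mem (w) : w ∈ (gramL k).language ↔
    ∃ z, Pq RI.inp RI.nxt (some none) z none ∧ w = val z :=
  lin_lang (gramL k) RI.inp RI.nxt RI.lft RI.rgt gramL_rules w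

def InvL : Option (Option (Option (Fin k))) → List (Lt k) → Prop
  | none, w => w = []
  | some (some none), w => ∃ p, w = List.replicate p Lt.a ++ List.replicate p Lt.b
  | some (some (some t)), w => ∃ (y : List (Fin k)) (p : ℕ), t ∉ y ∧
      w = y.map Lt.s ++ Lt.bar t :: (List.replicate p Lt.a ++ List.replicate p Lt.b)
  | some none, w => ∃ (x y : List (Fin k)) (t : Fin k) (p : ℕ), t ∉ y ∧
      w = x.map Lt.s ++ Lt.s t :: (y.map Lt.s ++ Lt.bar t ::
        (List.replicate p Lt.a ++ List.replicate p Lt.b ++ List.replicate x.length Lt.c))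

theorem invL (z : List (RI k)) : ∀ o, Pq RI.inp RI.nxt o z none → InvL o (val z) := by
  induction z with
  | nil => rintro o rfl; rfl
  | cons c z ih =>
    rintro o ⟨rfl, h⟩
    have ih := ih _ h
    rw [val_cons]
    cases c with
    | x i =>
      obtain ⟨x, y, t, p, h1, h2⟩ := ih
      exact ⟨i :: x, y, t, p, h1, by simp [h2, RI.lft, RI.rgt, List.replicate_succ']⟩
    | t i =>
      obtain ⟨y, p, h1, h2⟩ := ih
      exact ⟨[], y, i, p, h1, by simp [h2, RI.lft, RI.rgt]⟩
    | y t i =>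
      obtain ⟨y, p, h1, h2⟩ := ih
      by_cases e : i = t
      · exact ⟨y, p, h1, by simp [h2, RI.lft, RI.rgt, e]⟩
      · exact ⟨i :: y, p, by simp [h1, Ne.symm e], by simp [h2, RI.lft, RI.rgt, e]⟩
    | bar t =>
      obtain ⟨p, h2⟩ := ih
      exact ⟨[], p, by simp, by simp [h2, RI.lft, RI.rgt]⟩
    | ab =>
      obtain ⟨p, h2⟩ := ih
      refine ⟨p + 1, ?_⟩
      rw [h2, List.replicate_succ, List.replicate_succ']
      simp [RI.lft, RI.rgt]
    | eps =>
      exact ⟨0, by rw [show val z = [] from ih]; rfl⟩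

theorem gramL_good {w} (h : w ∈ (gramL k).language) : Good w ∧ w.count Lt.a = w.count Lt.b := by
  obtain ⟨z, h1, rfl⟩ := (gramL_mem w).1 h
  obtain ⟨x, y, t, p, h2, h3⟩ := invL z _ h1
  rw [h3]
  refine ⟨good_of x y t h2 _ (by simp [List.mem_replicate]) (by simp [List.mem_replicate])
    (by simp [List.count_replicate]), ?_⟩
  have ha : ∀ x : List (Fin k), (x.map Lt.s).count Lt.a = 0 := fun x => List.count_eq_zero.2 (by simp)
  have hb : ∀ x : List (Fin k), (x.map Lt.s).count Lt.b = 0 := fun x => List.count_eq_zero.2 (by simp)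
  simp [List.count_replicate, ha, hb]

theorem gramL_in (x y : List (Fin k)) (t) (ht : t ∉ y) (p : ℕ) :
    x.map Lt.s ++ Lt.s t :: (y.map Lt.s ++ Lt.bar t ::
      (List.replicate p Lt.a ++ List.replicate p Lt.b ++ List.replicate x.length Lt.c)) ∈
      (gramL k).language := by
  rw [gramL_mem]
  have h1 : ∃ z : List (RI k), Pq RI.inp RI.nxt (some (some none)) z none ∧
      List.replicate p Lt.a ++ List.replicate p Lt.b = val z := by
    induction p with
    | zero => exact ⟨[.eps], ⟨rfl, rfl⟩, rfl⟩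
    | succ p ih =>
      obtain ⟨z, a1, a2⟩ := ih
      refine ⟨.ab :: z, ⟨rfl, a1⟩, ?_⟩
      rw [val_cons, ← a2, List.replicate_succ, List.replicate_succ']
      simp [RI.lft, RI.rgt]
  have h2 : ∃ z : List (RI k), Pq RI.inp RI.nxt (some (some (some t))) z none ∧
      y.map Lt.s ++ Lt.bar t :: (List.replicate p Lt.a ++ List.replicate p Lt.b) = val z := by
    induction y with
    | nil =>
      obtain ⟨z, a1, a2⟩ := h1
      exact ⟨.bar t :: z, ⟨rfl, a1⟩, by simp [val_cons, ← a2, RI.lft, RI.rgt]⟩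
    | cons i y ih =>
      simp only [List.mem_cons, not_or] at ht
      obtain ⟨z, a1, a2⟩ := ih ht.2
      exact ⟨.y t i :: z, ⟨rfl, a1⟩, by simp [val_cons, ← a2, RI.lft, RI.rgt, Ne.symm ht.1]⟩
  induction x with
  | nil =>
    obtain ⟨z, a1, a2⟩ := h2
    exact ⟨.t t :: z, ⟨rfl, a1⟩, by simp [val_cons, ← a2, RI.lft, RI.rgt]⟩
  | cons i x ih =>
    obtain ⟨z, a1, a2⟩ := ih
    exact ⟨.x i :: z, ⟨rfl, a1⟩, by simp [val_cons, ← a2, RI.lft, RI.rgt, List.replicate_succ']⟩

theorem lin_main [Finite Y] (g : ContextFreeGrammar Y) (hg : IsLinear g) :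
    ∃ k, ¬ InG g.language (Lt k) (gramL k).language := by
  obtain ⟨σ, hσ⟩ := lin_fr g hg
  have := σ.fin
  refine ⟨Nat.card σ.Q + 1, fun H => ?_⟩
  generalize hk : Nat.card σ.Q + 1 = k at H
  obtain ⟨τ, hτ⟩ := H.single
  obtain ⟨z, f, x, y, h1, h2, h3⟩ := setup τ
  obtain ⟨pa, hpa, ha⟩ := exists_idem τ [Lt.a]
  obtain ⟨pb, hpb, hb⟩ := exists_idem τ [Lt.b]
  replace ha := ha pb hpb
  replace hb := hb pa hpa
  rw [mul_comm pa pb] at hb
  have hω : 0 < pb * pa := Nat.mul_pos hpb hpa
  generalize pb * pa = ω at ha hb hω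
  set q1 := τ.run τ.start (z.map Lt.s) with hq1
  let W : Fin k → List (Lt k) → ℕ → ℕ → List (Lt k) := fun r U P P' =>
    z.map Lt.s ++ U ++ Lt.bar r :: (pw (P + 1) (pw ω [Lt.a]) ++ pw (P' + 1) (pw ω [Lt.b]) ++
      List.replicate (x r).length Lt.c)
  let qa : Fin k → τ.Q := fun r => τ.run (τ.next q1 (Lt.bar r)) (pw ω [Lt.a])
  let qb : Fin k → τ.Q := fun r => τ.run (qa r) (pw ω [Lt.b])
  let D : Fin k → ℕ → List Y := fun r P => τ.out q1 (Lt.bar r) ++
    τ.outw (τ.next q1 (Lt.bar r)) (pw ω [Lt.a]) ++ pw P (τ.outw (qa r) (pw ω [Lt.a])) ++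
    τ.outw (qa r) (pw ω [Lt.b])
  have hW : ∀ r U P P', τ.run q1 U = q1 → (W r U P P' ∈ (gramL k).language ↔
      τ.run (qb r) (List.replicate (x r).length Lt.c) ∈ τ.acc ∧
      τ.outw τ.start (z.map Lt.s) ++ τ.outw q1 U ++ (D r P ++ pw P' (τ.outw (qb r) (pw ω [Lt.b])) ++
        τ.outw (qb r) (List.replicate (x r).length Lt.c)) ∈ g.language) := by
    intro r U P P' hU
    have ea : τ.run (qa r) (pw ω [Lt.a]) = qa r := ha _
    have eb : τ.run (qb r) (pw ω [Lt.b]) = qb r := hb _
    rw [hτ]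
    change (τ.run _ _ ∈ _ ∧ τ.outw _ _ ∈ _) ↔ _
    simp only [W, D, pw_succ, τ.run_append, τ.outw_append, AGsm.run_cons, AGsm.outw, ← hq1, hU]
    simp only [show τ.run (τ.next q1 (Lt.bar r)) (pw ω [Lt.a]) = qa r from rfl,
      run_pw_fix τ ea, outw_pw_fix τ ea, show τ.run (qa r) (pw ω [Lt.b]) = qb r from rfl,
      run_pw_fix τ eb, outw_pw_fix τ eb, List.append_assoc]
  have e1 : ∀ n (l : List (Fin k)), (pw n l).map Lt.s = pw n (l.map Lt.s) := by
    intro n l; simp [pw, List.map_flatten]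
  have hin : ∀ r N P, W r (pw N ((f r).map Lt.s)) P P ∈ (gramL k).language := by
    intro r N P
    have := gramL_in (x r) (y r ++ pw N (f r)) r (by simp [mem_pw, (h1 r).2.1, (h1 r).2.2.1])
      ((P + 1) * ω)
    have e := congrArg (List.map (Lt.s (k := k))) (h1 r).1
    simp only [W, pw_pw]
    simp only [pw_single, e, ← e1]
    simpa using this
  have hcnt : ∀ r N P P', W r (pw N ((f r).map Lt.s)) P P' ∈ (gramL k).language → P = P' := by
    intro r N P P' h
    have := (gramL_good h).2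
    have ha : ∀ x : List (Fin k), (x.map Lt.s).count Lt.a = 0 :=
      fun x => List.count_eq_zero.2 (by simp)
    have hb : ∀ x : List (Fin k), (x.map Lt.s).count Lt.b = 0 :=
      fun x => List.count_eq_zero.2 (by simp)
    simp only [W, pw_pw] at this
    simp only [pw_single, ← e1] at this
    simp [List.count_replicate, ha, hb] at this
    omega
  have hf : ∀ r, τ.run q1 ((f r).map Lt.s) = q1 := fun r => h3 r _
  have hloop := fun r => lin_loop σ g.language hσ (τ.outw τ.start (z.map Lt.s))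
    (τ.outw q1 ((f r).map Lt.s)) (τ.outw (qb r) (pw ω [Lt.b]))
    (τ.outw (qb r) (List.replicate (x r).length Lt.c)) (D r)
    (fun N P => by
      have := ((hW r _ P P (run_pw_fix τ (hf r) N)).1 (hin r N P)).2
      rwa [outw_pw_fix τ (hf r)] at this)
    (fun N P P' h => hcnt r N P P' ((hW r _ P P' (run_pw_fix τ (hf r) N)).2
      ⟨((hW r _ P P (run_pw_fix τ (hf r) N)).1 (hin r N P)).1, by rwa [outw_pw_fix τ (hf r)]⟩))
  choose s J I I' P l1 l2 l3 using hloop
  obtain ⟨r', r, hr, e2⟩ : ∃ r' r : Fin k, r' < r ∧ s r = s r' := by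
    have := Fintype.ofFinite σ.Q
    obtain ⟨i, j, p1, p2⟩ := Fintype.exists_ne_map_eq_of_card_lt s
      (by rw [Fintype.card_fin, ← Nat.card_eq_fintype_card (α := σ.Q)]; omega)
    rcases lt_or_gt_of_ne p1 with g | g
    · exact ⟨i, j, g, p2.symm⟩
    · exact ⟨j, i, g, p2⟩
  have b1 := l3 r _ (e2 ▸ l2 r')
  have b2 : W r (pw (I r) ((f r).map Lt.s) ++ pw (J r') ((f r').map Lt.s) ++
      pw (I' r) ((f r).map Lt.s)) (P r) (P r) ∈ (gramL k).language := by
    refine (hW r _ _ _ ?_).2 ⟨((hW r _ 0 0 (run_pw_fix τ (hf r) 0)).1 (hin r 0 0)).1, ?_⟩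
    · simp only [τ.run_append, run_pw_fix τ (hf _)]
    · simp only [τ.run_append, τ.outw_append, run_pw_fix τ (hf _), outw_pw_fix τ (hf _)]
      exact b1
  have b3 := hin r (I r + I' r) (P r)
  have g2 := (gramL_good b2).1
  have g3 := (gramL_good b3).1
  refine good_swap (t := r) (α := z.map Lt.s ++ pw (I r) ((f r).map Lt.s)) (u := [])
    (v := pw (J r') ((f r').map Lt.s))
    (β := pw (I' r) ((f r).map Lt.s) ++ Lt.bar r :: (pw (P r + 1) (pw ω [Lt.a]) ++
      pw (P r + 1) (pw ω [Lt.b]) ++ List.replicate (x r).length Lt.c))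
    (by simpa [W, pw_add (I r)] using g3) (by simpa [W] using g2) (by simp) (by simp) ?_ ?_ ?_
  · simp [mem_pw, (h1 r).2.2.1, List.mem_replicate]
  · simp [mem_pw, l1 r', (h1 r).2.2.2 r' hr]
  · rw [List.count_nil, List.count_eq_zero.2 (by simp [mem_pw])]

end Pool.Agent.H24.Gsm
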