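import Pool.Agent.H24.GtDefs
import Pool.Agent.H24.Bz2

set_option autoImplicit false

namespace Pool.Agent.H24.Gt
open Finset Nat

theorem fib {α β : Type} [Fintype α] [DecidableEq α] [DecidableEq β] (f : α → β) (t : Finset β)
    (ht : ∀ a, f a ∈ t) (S : Finset (α → β))
    (h : ∀ g ∈ S, ∀ b, #{a | g a = b} = #{a | f a = b}) :
    #S ≤ Nat.multinomial t fun b => #{a | f a = b} := by
  have e1 := multinomial_spec t fun b => #{a | f a = b}
  rw [← card_eq_sum_card_fiberwise (s := univ) (fun a _ => ht a), Finset.card_univ] at e1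
  have e2 : ∏ b ∈ t, (#{a | f a = b})! = Fintype.card {g : Equiv.Perm α // f ∘ g = f} := by
    rw [DomMulAct.stabilizer_card']
    simp only [Fintype.card_subtype]
    refine (prod_subset (fun b hb => ?_) fun b _ hb => ?_).symm
    · obtain ⟨a, -, rfl⟩ := mem_image.1 hb
      exact ht a
    · rw [filter_eq_empty_iff.2 fun a _ e => hb (mem_image.2 ⟨a, mem_univ _, e⟩)]; rfl
  have : ∀ g : S, ∃ σ : Equiv.Perm α, f ∘ σ = g := fun g =>
    ⟨Equiv.ofFiberEquiv (f := g.1) (g := f) fun b => Fintype.equivOfCardEq (by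
      simp only [Fintype.card_subtype]; exact h g g.2 b),
      funext fun a => Equiv.ofFiberEquiv_map _ a⟩
  choose σ hσ using this
  have e3 := Fintype.card_le_of_injective
    (fun p : S × {g : Equiv.Perm α // f ∘ g = f} => p.2.1 * σ p.1) (by
      rintro ⟨g, τ⟩ ⟨g', τ'⟩ e
      have k : ∀ (g : S) (τ : {g : Equiv.Perm α // f ∘ g = f}), f ∘ ⇑(τ.1 * σ g) = g :=
        fun g τ => by rw [Equiv.Perm.coe_mul, ← Function.comp_assoc, τ.2, hσ]
      have : g = g' := Subtype.ext (by rw [← k g τ, ← k g' τ']; exact congrArg (fun z : Equiv.Perm α => f ∘ ⇑z) e)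
      subst this
      simpa [Subtype.ext_iff] using e)
  rw [Fintype.card_prod, Fintype.card_coe, Fintype.card_perm, ← e1, ← e2, mul_comm] at e3
  exact Nat.le_of_mul_le_mul_left e3 (prod_pos fun _ _ => factorial_pos _)

theorem wsum {ι γ : Type} [DecidableEq γ] (X : Finset ι) (κ : ι → γ) (M : ι → ℕ) (F : γ → ℚ)
    (T : Finset γ) (hT : ∀ x ∈ X, κ x ∈ T) (hF : ∀ c, 0 ≤ F c)
    (h : ∀ x ∈ X, #{y ∈ X | κ y = κ x} ≤ M x) :
    ∑ x ∈ X, ((M x : ℕ) : ℚ)⁻¹ * F (κ x) ≤ ∑ c ∈ T, F c := by
  rw [← sum_fiberwise_of_maps_to hT]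
  refine sum_le_sum fun c _ => ?_
  refine (sum_le_sum (g := fun _ => ((#{y ∈ X | κ y = c} : ℕ) : ℚ)⁻¹ * F c) fun x hx => ?_).trans ?_
  · obtain ⟨h1, rfl⟩ := mem_filter.1 hx
    refine mul_le_mul_of_nonneg_right (inv_anti₀ ?_ (by exact_mod_cast h x h1)) (hF _)
    exact_mod_cast card_pos.2 ⟨x, hx⟩
  · rw [sum_const, nsmul_eq_mul, ← mul_assoc]
    exact mul_le_of_le_one_left (hF c) mul_inv_le_one

variable {d : ℕ}

theorem cnt_ofFn {n : ℕ} (f : Fin n → Fin d) (i : Fin d) :
    (List.ofFn f).count i = #{a | f a = i} := by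
  rw [← Multiset.coe_count, ← Fin.univ_val_map, Multiset.count_map]
  simp [Finset.card, eq_comm]

def M1 (x : List (Fin d)) : ℕ := Nat.multinomial univ fun i : Fin d => x.count i
def M2 (n : ℕ) (c : Fin d → ℕ) : ℕ := Nat.multinomial (range (n + 1)) fun r => #{i | c i = r}

theorem count1 (n : ℕ) : ∑ f : Fin n → Fin d, ((M1 (List.ofFn f) : ℕ) : ℚ)⁻¹ *
    ((M2 n fun i => (List.ofFn f).count i : ℕ) : ℚ)⁻¹ ≤ Fintype.card (Nat.Partition n) := by
  classical
  let κ : (Fin n → Fin d) → Fin d → ℕ := fun f i => (List.ofFn f).count i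
  have hs : ∀ c ∈ univ.image κ, ∑ i, c i = n := fun c hc => by
    obtain ⟨f, -, rfl⟩ := mem_image.1 hc
    simp only [κ, cnt_ofFn]
    rw [← card_eq_sum_card_fiberwise (s := univ) (fun a _ => mem_univ _)]; simp
  refine (wsum univ κ (fun f => M1 (List.ofFn f)) (fun c => ((M2 n c : ℕ) : ℚ)⁻¹) (univ.image κ)
    (fun x _ => mem_image_of_mem _ (mem_univ _)) (fun _ => by positivity) fun f _ => ?_).trans ?_
  · simp only [M1, cnt_ofFn]
    refine fib f univ (fun _ => mem_univ _) _ fun g hg b => ?_
    simpa only [κ, cnt_ofFn] using congrFun (mem_filter.1 hg).2 b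
  have := wsum (univ.image κ) (fun c => (univ.val.map c).filter (· ≠ 0)) (M2 n) (fun _ => 1)
    (univ.image fun p : Nat.Partition n => p.parts)
    (fun c hc => mem_image.2 ⟨.ofSums n (univ.val.map c) (hs c hc), mem_univ _, rfl⟩)
    (fun _ => zero_le_one) fun c hc => by
      refine fib c _ (fun a => mem_range.2 (Nat.lt_succ_of_le ?_)) _ fun g hg b => ?_
      · rw [← hs c hc]; exact single_le_sum (fun _ _ => Nat.zero_le _) (mem_univ a)
      have e := (mem_filter.1 hg).2
      have k : ∀ g : Fin d → ℕ, #{a | g a = b} = (univ.val.map g).count b := fun g => by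
        rw [Multiset.count_map]; simp [Finset.card, eq_comm]
      rw [k, k]
      by_cases hb : b = 0
      · have k2 : ∀ m : Multiset ℕ, m.count 0 + (m.filter (· ≠ 0)).card = m.card := fun m => by
          conv_rhs => rw [← Multiset.filter_add_not (0 = ·) m]
          rw [Multiset.card_add, Multiset.count_eq_card_filter_eq]
          simp [eq_comm]
        have a1 := k2 (univ.val.map g)
        have a2 := k2 (univ.val.map c)
        rw [e] at a1
        simp only [Multiset.card_map] at a1 a2
        subst hb; omega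
      · rw [← Multiset.count_filter_of_pos (p := (· ≠ 0)) hb, e,
          Multiset.count_filter_of_pos (p := (· ≠ 0)) hb]
  simp only [mul_one, sum_const, nsmul_eq_mul] at this
  refine this.trans ?_
  exact_mod_cast card_image_le.trans (by simp)

def E (k : ℕ) (F : List (Fin d) → ℚ) (x : List (Fin d)) : ℚ :=
  ∑ f : Fin k → Fin d, F (x ++ List.ofFn f)

theorem E0 (F : List (Fin d) → ℚ) (x : List (Fin d)) : E 0 F x = F x := by simp [E]

theorem ES (k : ℕ) (F : List (Fin d) → ℚ) (x : List (Fin d)) :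
    E (k + 1) F x = ∑ a, E k F (x ++ [a]) := by
  unfold E
  rw [← Fintype.sum_prod_type', ← (Fin.consEquiv fun _ => Fin d).sum_comp]
  simp [Fin.consEquiv, List.ofFn_succ]

theorem q_eq (x : List (Fin d)) : q x = ((M1 x : ℕ) : ℚ)⁻¹ *
    ((M2 x.length fun i => x.count i : ℕ) : ℚ)⁻¹ *
      ((Fintype.card (Nat.Partition x.length) : ℕ) : ℚ)⁻¹ := rfl

theorem q0 (x : List (Fin d)) : 0 < q x := by
  have := Fintype.card_pos (α := Nat.Partition x.length)
  have := multinomial_pos univ fun i : Fin d => x.count i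
  have := multinomial_pos (range (x.length + 1)) fun r => #{i : Fin d | x.count i = r}
  unfold q; positivity

theorem Z1 (n : ℕ) : E n (q (d := d)) [] ≤ 1 := by
  have := Fintype.card_pos (α := Nat.Partition n)
  simp only [E, List.nil_append, q_eq, List.length_ofFn, ← sum_mul]
  rw [mul_inv_le_iff₀ (by positivity), one_mul]
  exact count1 n

def lap (x : List (Fin d)) : ℚ :=
  (∏ i, (x.count i)! : ℕ) * ((d - 1)! : ℕ) / ((x.length + (d - 1))! : ℕ)

theorem sum_cnt (x : List (Fin d)) : ∑ i, x.count i = x.length := by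
  conv_rhs => rw [← List.ofFn_get x]
  conv_lhs => rw [← List.ofFn_get x]
  simp only [cnt_ofFn]
  rw [← card_eq_sum_card_fiberwise (s := univ) (fun a _ => mem_univ _)]; simp

theorem lap_step (hd : 0 < d) (x : List (Fin d)) : lap x = ∑ a, lap (x ++ [a]) := by
  have e : ∀ a, (∏ i, ((x ++ [a]).count i)! : ℕ) = (x.count a + 1) * ∏ i, (x.count i)! := fun a => by
    rw [← mul_prod_erase _ _ (mem_univ a), ← mul_prod_erase _ _ (mem_univ a), ← mul_assoc]
    congr 1
    · simp [factorial_succ]
    · refine prod_congr rfl fun i hi => ?_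
      simp [List.count_cons, (mem_erase.1 hi).1.symm]
  simp only [lap, e, List.length_append, List.length_singleton, ← sum_div, ← sum_mul,
    ← Nat.cast_sum]
  rw [sum_add_distrib, sum_cnt, show x.length + 1 + (d - 1) = x.length + (d - 1) + 1 by omega,
    factorial_succ]
  simp only [sum_const, Finset.card_univ, Fintype.card_fin, smul_eq_mul, mul_one]
  rw [show x.length + (d - 1) + 1 = x.length + d by omega]
  have : ((x.length + d : ℕ) : ℚ) ≠ 0 := by positivity
  rw [Nat.cast_mul, Nat.cast_mul]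
  field_simp

theorem lap0 (x : List (Fin d)) : 0 < lap x := by unfold lap; positivity

theorem lap_nil : lap ([] : List (Fin d)) = 1 := by
  have : (((d - 1)! : ℕ) : ℚ) ≠ 0 := by positivity
  simp [lap, this]

theorem E_con {F : List (Fin d) → ℚ} (h : ∀ x, F x = ∑ a, F (x ++ [a])) (k : ℕ) :
    ∀ x, E k F x = F x := by
  induction k with
  | zero => exact E0 F
  | succ k ih => intro x; rw [ES, h x]; simp [ih]

theorem q_lap (hd : 0 < d) (x : List (Fin d)) : q x ≤ d ! * lap x := by
  set n := x.length with hn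
  let K : ℚ := (n ! : ℕ) * ((d - 1)! : ℕ) / ((n + (d - 1))! : ℕ)
  have hK : 0 < K := by positivity
  have e : ∀ y : List (Fin d), y.length = n → lap y = ((M1 y : ℕ) : ℚ)⁻¹ * K := fun y hy => by
    have := multinomial_spec univ fun i : Fin d => y.count i
    rw [sum_cnt, hy] at this
    have h0 : ((M1 y : ℕ) : ℚ) ≠ 0 := by
      have := multinomial_pos univ fun i : Fin d => y.count i
      unfold M1; positivity
    simp only [lap, K, hy, ← this]
    rw [Nat.cast_mul]; unfold M1 at *
    field_simp
  have m2 : ∀ y : List (Fin d), y.length = n → M2 n (fun i => y.count i) ≤ d ! := fun y hy => by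
    have := multinomial_spec (range (n + 1)) fun r => #{i : Fin d | y.count i = r}
    rw [← card_eq_sum_card_fiberwise (s := univ) (fun a _ => by
      simpa [← hy, Nat.lt_succ_iff] using List.count_le_length), Finset.card_univ, Fintype.card_fin] at this
    rw [← this]
    exact Nat.le_mul_of_pos_left _ (prod_pos fun _ _ => factorial_pos _)
  have m2' : ∀ c : Fin d → ℕ, 0 < M2 n c := fun c => multinomial_pos _ _
  have a1 := E_con (lap_step hd) n []
  rw [lap_nil] at a1
  have a2 : (1 : ℚ) ≤ K * d ! * Fintype.card (Nat.Partition n) := by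
    refine le_trans ?_ (mul_le_mul_of_nonneg_left (count1 (d := d) n) (by positivity))
    rw [← a1, mul_sum]
    refine sum_le_sum fun f _ => ?_
    rw [List.nil_append, e _ (by simp)]
    have b1 : ((M2 n fun i => (List.ofFn f).count i : ℕ) : ℚ) ≤ d ! := by
      exact_mod_cast m2 _ (by simp)
    have b2 : (0 : ℚ) < (M2 n fun i => (List.ofFn f).count i : ℕ) := by exact_mod_cast m2' _
    have b3 : (1 : ℚ) ≤ d ! * ((M2 n fun i => (List.ofFn f).count i : ℕ) : ℚ)⁻¹ := by
      rw [← div_eq_mul_inv, one_le_div b2]; exact b1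
    have b4 : 0 ≤ ((M1 (List.ofFn f) : ℕ) : ℚ)⁻¹ * K := by positivity
    nlinarith
  rw [q_eq, e x rfl, ← hn]
  have := Fintype.card_pos (α := Nat.Partition n)
  have b1 : ((M2 n fun i => x.count i : ℕ) : ℚ)⁻¹ ≤ 1 :=
    inv_le_one_of_one_le₀ (by exact_mod_cast m2' _)
  have b2 : ((Fintype.card (Nat.Partition n) : ℕ) : ℚ)⁻¹ ≤ K * d ! := by
    rw [inv_le_iff_one_le_mul₀ (by positivity)]; exact a2
  calc _ ≤ ((M1 x : ℕ) : ℚ)⁻¹ * 1 * (K * d !) := by gcongr
    _ = _ := by ring

def G (s : ℕ) (x : List (Fin d)) : ℚ := E (s - x.length) q (x.take s) / (d : ℚ) ^ (x.length - s)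

theorem G0 (s : ℕ) (x : List (Fin d)) : 0 ≤ G s x :=
  div_nonneg (sum_nonneg fun _ _ => (q0 _).le) (by positivity)

theorem G_step (hd : 0 < d) (s : ℕ) (x : List (Fin d)) : G s x = ∑ a, G s (x ++ [a]) := by
  simp only [G, List.length_append, List.length_singleton]
  by_cases h : x.length < s
  · rw [show s - x.length = s - (x.length + 1) + 1 by omega, ES, show x.length - s = 0 by omega,
      show x.length + 1 - s = 0 by omega, List.take_of_length_le h.le, sum_div]
    refine sum_congr rfl fun a _ => ?_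
    rw [List.take_of_length_le (by simpa using h)]
  · have : (d : ℚ) ≠ 0 := by positivity
    simp only [List.take_append_of_le_length (not_lt.1 h), show s - x.length = 0 by omega,
      show s - (x.length + 1) = 0 by omega, show x.length + 1 - s = x.length - s + 1 by omega,
      sum_const, Finset.card_univ, Fintype.card_fin, nsmul_eq_mul, pow_succ]
    field_simp

def H (N : ℕ) (x : List (Fin d)) : ℚ := ∑ s ∈ range (N + 1), G s x / ((s : ℚ) + 2) ^ 2

theorem H_nil (N : ℕ) : H N ([] : List (Fin d)) ≤ 3 / 4 - 1 / ((N : ℚ) + 2) := by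
  have k : ∀ s, G s ([] : List (Fin d)) ≤ 1 := fun s => by simpa [G] using Z1 s
  induction N with
  | zero => have := k 0; simp only [H, zero_add, range_one, sum_singleton]; norm_num; linarith
  | succ N ih =>
    unfold H at *
    rw [sum_range_succ]
    have a1 : G (N + 1) ([] : List (Fin d)) / (((N + 1 : ℕ) : ℚ) + 2) ^ 2
        ≤ 1 / (((N + 1 : ℕ) : ℚ) + 2) ^ 2 := by gcongr; exact k _
    have a2 : 1 / (((N + 1 : ℕ) : ℚ) + 2) ^ 2 ≤ 1 / ((N : ℚ) + 2) - 1 / (((N + 1 : ℕ) : ℚ) + 2) := by
      push_cast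
      rw [div_sub_div _ _ (by positivity) (by positivity), div_le_div_iff₀ (by positivity)
        (by positivity)]
      nlinarith [show (0 : ℚ) ≤ N by positivity]
    linarith

theorem H_take (N : ℕ) (x : List (Fin d)) : H N x = H N (x.take N) / (d : ℚ) ^ (x.length - N) := by
  by_cases h : x.length ≤ N
  · rw [List.take_of_length_le h, Nat.sub_eq_zero_of_le h]; simp
  · simp only [H, sum_div]
    refine sum_congr rfl fun s hs => ?_
    have := mem_range.1 hs
    simp only [G, List.length_take, List.take_take, min_eq_left (show N ≤ x.length by omega),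
      min_eq_left (show s ≤ N by omega), show s - x.length = 0 by omega, show s - N = 0 by omega,
      show x.length - s = (N - s) + (x.length - N) by omega, pow_add]
    ring

def qt (x : List (Fin d)) : ℚ :=
  H (4 * d !) x + (1 - H (4 * d !) ([] : List (Fin d))) * lap x

theorem tail4 : 1 / 4 ≤ 1 - H (4 * d !) ([] : List (Fin d)) := by
  have := H_nil (d := d) (4 * d !)
  have : (0 : ℚ) ≤ 1 / (((4 * d ! : ℕ) : ℚ) + 2) := by positivity
  linarith

theorem H0 (N : ℕ) (x : List (Fin d)) : 0 ≤ H N x :=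
  sum_nonneg fun s _ => div_nonneg (G0 s x) (by positivity)

theorem qt0 (x : List (Fin d)) : 0 < qt x :=
  add_pos_of_nonneg_of_pos (H0 _ _) (mul_pos (by linarith [tail4 (d := d)]) (lap0 x))

theorem qt_nil : qt ([] : List (Fin d)) = 1 := by simp [qt, lap_nil]

theorem qt_step (hd : 0 < d) (x : List (Fin d)) : qt x = ∑ a, qt (x ++ [a]) := by
  simp only [qt, sum_add_distrib, ← mul_sum, ← lap_step hd]
  congr 1
  simp only [H]
  rw [sum_comm]
  exact sum_congr rfl fun s _ => by rw [← sum_div, ← G_step hd]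

theorem qt1 (hd : 0 < d) (x : List (Fin d)) : qt x ≤ 1 := by
  induction x using List.reverseRecOn with
  | nil => exact qt_nil.le
  | append_singleton x a ih =>
    rw [qt_step hd] at ih
    exact (single_le_sum (f := fun a => qt (x ++ [a])) (fun _ _ => (qt0 _).le) (mem_univ a)).trans ih

theorem q_qt (hd : 0 < d) (x : List (Fin d)) : q x ≤ ((x.length : ℚ) + 2) ^ 2 * qt x := by
  have a0 := mul_nonneg (by linarith [tail4 (d := d)] :
    0 ≤ 1 - H (4 * d !) ([] : List (Fin d))) (lap0 x).le
  by_cases h : x.length ≤ 4 * d.factorial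
  · have := single_le_sum (f := fun s => G s x / ((s : ℚ) + 2) ^ 2)
      (fun s _ => div_nonneg (G0 s x) (by positivity)) (mem_range.2 (Nat.lt_succ_of_le h))
    have e : G x.length x = q x := by simp [G, E0]
    rw [e, div_le_iff₀' (by positivity)] at this
    refine this.trans (mul_le_mul_of_nonneg_left ?_ (by positivity))
    exact le_add_of_nonneg_right a0
  · have a1 : ((4 * d ! : ℕ) : ℚ) ≤ x.length := by exact_mod_cast (not_le.1 h).le
    push_cast at a1
    have a2 := q_lap hd x
    have a3 := lap0 x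
    have a4 : lap x / 4 ≤ qt x := by
      have := H0 (4 * d !) x
      have := mul_le_mul_of_nonneg_right (tail4 (d := d)) a3.le
      unfold qt; linarith
    have a5 : (4 * d ! : ℚ) ≤ ((x.length : ℚ) + 2) ^ 2 := by
      nlinarith [show (0 : ℚ) ≤ x.length by positivity]
    calc q x ≤ (4 * d !) * (lap x / 4) := by linarith
      _ ≤ _ := by gcongr

open Pool.Agent.H11.PT Pool.Agent.H24.Bz Pool.Agent.H24.Par

theorem pt_fin {α β : Type} [Enc α] [Enc β] [Inj α] [Inhabited β] (K : List α) (g : α → β) :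
    ∃ h, PT h ∧ ∀ k ∈ K, h k = g k := by
  classical
  induction K with
  | nil => exact ⟨fun _ => default, by fun_prop, by simp⟩
  | cons a K ih =>
    obtain ⟨h, h1, h2⟩ := ih
    refine ⟨fun k => if k = a then g a else h k, by fun_prop, fun k hk => ?_⟩
    by_cases e : k = a
    · simp [e]
    · simp only [e, if_false]
      exact h2 k (by simpa [e] using hk)

def fz (n : ℕ) : ℤ := ((List.range n).map fun i => ((i + 1 : ℕ) : ℤ)).prod

theorem fz_eq (n : ℕ) : fz n = (n ! : ℕ) := by
  induction n with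
  | zero => rfl
  | succ n ih =>
    unfold fz at *
    rw [List.range_succ, List.map_append, List.prod_append, ih, factorial_succ]; simp [mul_comm]

@[fun_prop] theorem pt_fz {α : Type} [Enc α] {f : α → ℕ} (hf : PT f) : PT fun x => fz (f x) := by
  unfold fz; fun_prop

theorem alg (hd : 0 < d) : ∃ A : List ℕ → ℚ, PT A ∧ ∀ x : List (Fin d), A (x.map Fin.val) = qt x := by
  classical
  haveI : NeZero d := ⟨hd.ne'⟩
  set N := 4 * d.factorial
  obtain ⟨h, h1, h2⟩ := pt_fin (β := ℤ × ℤ)
    ((List.finite_length_le (Fin d) N).toFinset.toList.map (List.map Fin.val))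
    fun y => ((H N (y.map (Fin.ofNat d))).num, (H N (y.map (Fin.ofNat d))).den)
  set c := 1 - H N ([] : List (Fin d)) with hc
  let P : List ℕ → ℤ := fun y => ((List.range d).map fun i => fz (y.count i)).prod * fz (d - 1)
  let Q : List ℕ → ℤ := fun y => fz (y.length + (d - 1))
  let D : List ℕ → ℤ := fun y => (List.replicate (y.length - N) (d : ℤ)).prod
  have hP : PT P := by unfold P; fun_prop
  have hQ : PT Q := by unfold Q; fun_prop
  have hD : PT D := by unfold D; fun_prop
  refine ⟨fun y => Rat.divInt ((h (y.take N)).1 * (c.den * Q y) + c.num * P y * ((h (y.take N)).2 * D y))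
    ((h (y.take N)).2 * D y * (c.den * Q y)), by fun_prop, fun x => ?_⟩
  have e1 := h2 ((x.map Fin.val).take N) (List.mem_map.2 ⟨x.take N, by simp, by simp [List.map_take]⟩)
  have e2 : ((x.map Fin.val).take N).map (Fin.ofNat d) = x.take N := by
    rw [← List.map_take, List.map_map]
    simp [Function.comp_def]
  have e3 : P (x.map Fin.val) = ((∏ i, (x.count i)!) * (d - 1)! : ℕ) := by
    simp only [P, fz_eq]
    push_cast
    congr 1
    change ∏ i ∈ range d, _ = _
    rw [prod_range]
    exact prod_congr rfl fun i _ => by rw [List.count_map_of_injective _ _ Fin.val_injective]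
  simp only [e1, e2, e3, Q, D, fz_eq, List.prod_replicate, List.length_map, Rat.divInt_eq_div]
  rw [show qt x = H N x + c * lap x from rfl, H_take N x, lap]
  conv_rhs => rw [← Rat.num_div_den c, ← Rat.num_div_den (H N (x.take N))]
  have : (d : ℚ) ≠ 0 := by positivity
  push_cast
  field_simp

end Pool.Agent.H24.Gt
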