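import Pool.Agent.H24.ParDefs

set_option autoImplicit false

namespace Pool.Agent.H24.Gt
open Finset

/-- the triple uniform (Good-Turing) offline estimator `q_n(x)`, `n` the length of `x` -/
def q {d : ℕ} (x : List (Fin d)) : ℚ :=
  ((Nat.multinomial univ fun i : Fin d => x.count i : ℕ) : ℚ)⁻¹ *
    ((Nat.multinomial (range (x.length + 1))
      fun r => #{i : Fin d | x.count i = r} : ℕ) : ℚ)⁻¹ *
    ((Fintype.card (Nat.Partition x.length) : ℕ) : ℚ)⁻¹

end Pool.Agent.H24.Gt
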