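import Pool.Agent.H24.GuessDefs

namespace Pool.Agent.H24.Guess
open Matrix MulOpposite

def M : Submonoid (Function.End ℕ) where
  carrier := {g | g = id ∨ g = Nat.succ ∨ (∃ k, g = fun _ => k) ∨ ∀ n, n + 2 ≤ g n}
  one_mem' := .inl rfl
  mul_mem' := by
    rintro g h a (rfl | rfl | ⟨k, rfl⟩ | b)
    · exact a
    · rcases a with rfl | rfl | ⟨k, rfl⟩ | a
      exacts [.inr (.inl rfl), .inr (.inr (.inr fun _ => le_rfl)), .inr (.inr (.inl ⟨k, rfl⟩)),
        .inr (.inr (.inr fun n => (Nat.le_succ _).trans (a (n + 1))))]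
    · exact .inr (.inr (.inl ⟨g k, rfl⟩))
    · rcases a with rfl | rfl | ⟨k, rfl⟩ | a
      exacts [.inr (.inr (.inr b)), .inr (.inr (.inr fun n => (b n).trans (Nat.le_succ _))),
        .inr (.inr (.inl ⟨k, rfl⟩)),
        .inr (.inr (.inr fun n => (b n).trans ((Nat.le_add_right _ _).trans (a _))))]

abbrev S0 := SetSemiring M

def F (n : ℕ) : S0 := Set.up {⟨fun _ => n, .inr (.inr (.inl ⟨n, rfl⟩))⟩}
def al : S0 := Set.up {⟨Nat.succ, .inr (.inl rfl)⟩}
def be (N : ℕ) : S0 := Set.up {⟨fun n => if n ≤ N then n + 2 else n + 3,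
  .inr (.inr (.inr fun n => by dsimp only; split_ifs <;> omega))⟩}

theorem mul_F (l : S0) (n k : ℕ) :
    F k = l * F n ↔ l.down.Nonempty ∧ ∀ m ∈ l.down, (m : Function.End ℕ) n = k := by
  rw [SetSemiring.mul_def, F, F, Set.up.apply_eq_iff_eq, SetSemiring.down_up, eq_comm,
    Set.eq_singleton_iff_nonempty_unique_mem, Set.mul_singleton, Set.image_nonempty,
    Set.forall_mem_image]
  exact and_congr_right fun _ => forall₂_congr fun m _ =>
    ⟨fun h => congrFun (congrArg Subtype.val h) 0, fun h => Subtype.ext (funext fun _ => h)⟩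

theorem K0 {l : S0} (a : F 0 = l * F 0) (b : F 1 = l * F 1) (n : ℕ) : F n = l * F n := by
  rw [mul_F] at *
  refine ⟨a.1, fun ⟨m, h⟩ hm => ?_⟩
  have a : m 0 = 0 := a.2 _ hm
  have b : m 1 = 1 := b.2 _ hm
  rcases h with rfl | rfl | ⟨k, rfl⟩ | h
  exacts [rfl, by simp at a, absurd (a.symm.trans b) (by omega), by have := h 0; omega]

theorem K1 {l : S0} (a : F 1 = l * F 0) (b : F 2 = l * F 1) (n : ℕ) : F (n + 1) = l * F n := by
  rw [mul_F] at *
  refine ⟨a.1, fun ⟨m, h⟩ hm => ?_⟩
  have a : m 0 = 1 := a.2 _ hm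
  have b : m 1 = 2 := b.2 _ hm
  rcases h with rfl | rfl | ⟨k, rfl⟩ | h
  exacts [by simp at a, rfl, absurd (a.symm.trans b) (by omega), by have := h 0; omega]

theorem al_F (n : ℕ) : F (n + 1) = al * F n :=
  (mul_F ..).2 ⟨Set.singleton_nonempty _, by rintro _ rfl; rfl⟩

theorem be_F (N n : ℕ) : F (n + 2) = be N * F n ↔ n ≤ N := by
  rw [mul_F]
  refine ⟨fun h => ?_, fun h => ⟨Set.singleton_nonempty _, by rintro _ rfl; exact if_pos h⟩⟩
  have : (if n ≤ N then n + 2 else n + 3) = n + 2 := h.2 _ rfl
  split_ifs at this <;> omega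

theorem bound (T : Finset (List Unit)) : ∃ N, ∀ w ∈ T, w.length ≤ N :=
  ⟨T.sup List.length, fun _ h => Finset.le_sup (f := List.length) h⟩

theorem q1 : Comp (fun w : List Unit => F w.length) ∧ Guessable (fun w : List Unit => F w.length) ∧
    ¬ StronglyGuessable (fun w : List Unit => F w.length) := by
  refine ⟨⟨1, 1, fun _ => F 0, fun _ => of fun _ _ => al, fun w => ?_⟩,
    ⟨{[]}, {[], [()]}, by simp, subset_antisymm (fun l h w _ => ?_) fun l h w _ => h w trivial,
      (1, fun _ _ _ => al), fun w _ => by simpa using al_F _⟩, fun h => ?_⟩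
  · suffices ((w.map fun _ => of fun _ _ : Fin 1 => al).prod *ᵥ fun _ => F 0) = fun _ => F w.length by
      rw [this]; simp [dotProduct]
    induction w with
    | nil => simp
    | cons a w ih =>
      rw [List.map_cons, List.prod_cons, ← mulVec_mulVec, ih]
      funext i
      simpa [mulVec, dotProduct] using (al_F _).symm
  · have a := h [] (by simp)
    have b := h [()] (by simp)
    simp only [Finset.univ_unique, Finset.sum_singleton, Unique.forall_iff,
      Finset.default_singleton, List.nil_append, List.length_cons] at a b ⊢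
    exact ⟨K0 a.1 b.1 _, K1 a.2 b.2 _⟩
  · obtain ⟨T, h⟩ := h.2 {[], [()]} (by simp)
    obtain ⟨N, hN⟩ := bound T
    have e : ∀ (x : S0) (w : List Unit), ∑ p : ({[], [()]} : Finset (List Unit)),
        (if p.1 = [] then x else 0) * F (p.1 ++ w).length = x * F w.length := fun x w => by
      rw [Finset.sum_eq_single ⟨[], by simp⟩ (fun p _ hp => by
        rw [if_neg fun e => hp (Subtype.ext e), zero_mul]) (by simp)]
      simp
    have := (Set.ext_iff.1 h (fun p => if p.1 = [] then 1 else 0,
      fun q _ p => if p.1 = [] then (if q.1 = [] then al else be N) else 0)).1 (fun w hw => by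
        simp only [e]
        refine ⟨by simp, ?_⟩
        rintro ⟨_, hq⟩ _
        rcases Finset.mem_insert.1 hq with rfl | hq
        · simpa using al_F _
        · obtain rfl := Finset.mem_singleton.1 hq
          simpa using (be_F N _).2 (hN w hw)) (List.replicate (N + 1) ()) trivial
    simp only [e] at this
    have := (be_F N (N + 1)).1 (by simpa using this.2 ⟨[()], by simp⟩ ())
    omega

theorem q2 : Comp (fun w : List Unit => op (F w.length)) ∧
    CoGuessable (fun w : List Unit => op (F w.length)) ∧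
    ¬ StronglyCoGuessable (fun w : List Unit => op (F w.length)) := by
  have k : ∀ (a b : S0) (c : S0ᵐᵒᵖ), op a = op b * c ↔ a = c.unop * b := fun a b c => by
    rw [← unop_inj]; rfl
  refine ⟨⟨1, fun _ => op (F 0), 1, fun _ => of fun _ _ => op al, fun w => ?_⟩,
    ⟨{[], [()]}, {[]}, by simp, subset_antisymm (fun l h w _ => ?_) fun l h w _ => h w trivial,
      (1, fun _ _ _ => op al), fun w _ => by simpa [k] using al_F _⟩, fun h => ?_⟩
  · rw [dotProduct_mulVec]
    suffices ∀ n, ((fun _ => op (F n)) ᵥ* (w.map fun _ => of fun _ _ : Fin 1 => op al).prod) =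
        fun _ => op (F (n + w.length)) by rw [this]; simp [dotProduct]
    induction w with
    | nil => simp
    | cons a w ih =>
      intro n
      rw [List.map_cons, List.prod_cons, ← vecMul_vecMul, List.length_cons, add_comm w.length,
        ← add_assoc, ← ih]
      congr 1
      funext i
      simp [vecMul, dotProduct, al_F]
  · have a := h [] (by simp)
    have b := h [()] (by simp)
    simp only [Finset.univ_unique, Finset.sum_singleton, Unique.forall_iff, k, List.length_append,
      Finset.default_singleton, List.append_nil, List.length_cons] at a b ⊢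
    exact ⟨K0 a.1 b.1 _, K1 a.2 b.2 _⟩
  · obtain ⟨T, h⟩ := h.2 {[], [()]} (by simp)
    obtain ⟨N, hN⟩ := bound T
    have e : ∀ (x : S0) (w : List Unit), ∑ p : ({[], [()]} : Finset (List Unit)),
        op (F (w ++ p.1).length) * (if p.1 = [] then op x else 0) = op (x * F w.length) := fun x w => by
      rw [Finset.sum_eq_single ⟨[], by simp⟩ (fun p _ hp => by
        rw [if_neg fun e => hp (Subtype.ext e), mul_zero]) (by simp)]
      simp
    have := (Set.ext_iff.1 h (fun p => if p.1 = [] then op 1 else 0,
      fun p _ q => if p.1 = [] then op (if q.1 = [] then al else be N) else 0)).1 (fun w hw => by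
        simp only [e, op_inj]
        refine ⟨by simp, ?_⟩
        rintro _ ⟨_, hq⟩
        rcases Finset.mem_insert.1 hq with rfl | hq
        · simpa using al_F _
        · obtain rfl := Finset.mem_singleton.1 hq
          simpa using (be_F N _).2 (hN w hw)) (List.replicate (N + 1) ()) trivial
    simp only [e, op_inj] at this
    have := (be_F N (N + 1)).1 (by simpa using this.2 () ⟨[()], by simp⟩)
    omega

end Pool.Agent.H24.Guess
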