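import Mathlib

/-! Guessable functions computed by weighted automata. -/

namespace Pool.Agent.H24.Guess
open Matrix

variable {S A : Type} [Semiring S]

def Comp (f : List A → S) : Prop :=
  ∃ (n : ℕ) (ι τ : Fin n → S) (μ : A → Matrix (Fin n) (Fin n) S),
    ∀ w, f w = ι ⬝ᵥ ((w.map μ).prod *ᵥ τ)

def Lam (f : List A → S) (Q : Finset (List A)) (T : Set (List A)) :
    Set ((Q → S) × (Q → A → Q → S)) :=
  {l | ∀ w ∈ T, f w = ∑ q : Q, l.1 q * f (q.1 ++ w) ∧
    ∀ (q : Q) (a : A), f (q.1 ++ a :: w) = ∑ p : Q, l.2 q a p * f (p.1 ++ w)}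

def Guessable (f : List A → S) : Prop := ∃ Q T : Finset (List A), Q.Nonempty ∧
  Lam f Q T = Lam f Q Set.univ ∧ (Lam f Q Set.univ).Nonempty

def StronglyGuessable (f : List A → S) : Prop := Guessable f ∧
  ∀ Q : Finset (List A), Q.Nonempty → ∃ T : Finset (List A), Lam f Q T = Lam f Q Set.univ

def Gam (f : List A → S) (Q : Set (List A)) (T : Finset (List A)) :
    Set ((T → S) × (T → A → T → S)) :=
  {g | ∀ w ∈ Q, f w = ∑ t : T, f (w ++ t.1) * g.1 t ∧
    ∀ (a : A) (t : T), f (w ++ a :: t.1) = ∑ s : T, f (w ++ s.1) * g.2 s a t}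

def CoGuessable (f : List A → S) : Prop := ∃ Q T : Finset (List A), T.Nonempty ∧
  Gam f Q T = Gam f Set.univ T ∧ (Gam f Set.univ T).Nonempty

def StronglyCoGuessable (f : List A → S) : Prop := CoGuessable f ∧
  ∀ T : Finset (List A), T.Nonempty → ∃ Q : Finset (List A), Gam f Q T = Gam f Set.univ T

end Pool.Agent.H24.Guess
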