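import Pool.Agent.H24.DPRM

set_option autoImplicit false

/-! Hilbert's tenth problem in the form of addition / multiplication constraints, and a generic
reduction to systems of atoms over an arbitrary structure. -/

namespace Pool.Agent.H24.H10

open MvPolynomial

/-- an addition (`true`) or multiplication (`false`) constraint -/
def Con {τ : Type} (w : τ → ℕ) (c : Bool × τ × τ × τ) : Prop :=
  if c.1 then w c.2.1 + w c.2.2.1 = w c.2.2.2 else w c.2.1 * w c.2.2.1 = w c.2.2.2

theorem posneg {α : Type} (P : MvPolynomial α ℤ) : ∃ A B : MvPolynomial α ℕ, ∀ x : α → ℕ,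
    eval (fun i => (x i : ℤ)) P = (eval x A : ℕ) - (eval x B : ℕ) := by
  induction P using MvPolynomial.induction_on with
  | C a => exact ⟨C a.toNat, C (-a).toNat, fun x => by simp⟩
  | add p q hp hq =>
    obtain ⟨A, B, h⟩ := hp
    obtain ⟨A', B', h'⟩ := hq
    exact ⟨A + A', B + B', fun x => by simp [h, h']; ring⟩
  | mul_X p i hp =>
    obtain ⟨A, B, h⟩ := hp
    exact ⟨A * X i, B * X i, fun x => by simp [h]; ring⟩

theorem slp {α : Type} (Q : MvPolynomial α ℕ) :
    ∃ L : List (Bool × MvPolynomial α ℕ × MvPolynomial α ℕ × MvPolynomial α ℕ),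
      (∀ x : α → ℕ, ∀ c ∈ L, Con (fun R => eval x R) c) ∧
      ∀ w : MvPolynomial α ℕ → ℕ, w 1 = 1 → (∀ c ∈ L, Con w c) →
        w Q = eval (fun i => w (X i)) Q := by
  induction Q using MvPolynomial.induction_on with
  | C a =>
    induction a with
    | zero => exact ⟨[(true, 0, 0, 0)], by simp [Con], fun w _ h => by simpa [Con] using h⟩
    | succ a ih =>
      obtain ⟨L, h, h'⟩ := ih
      refine ⟨(true, C a, 1, C (a + 1)) :: L, fun x c hc => ?_, fun w h1 hw => ?_⟩
      · rcases List.mem_cons.1 hc with rfl | hc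
        · simp [Con]
        · exact h x c hc
      · have e1 := h' w h1 fun c hc => hw c (List.mem_cons_of_mem _ hc)
        have e2 := hw _ List.mem_cons_self
        simp only [Con, if_true, eval_C] at e1 e2 ⊢
        omega
  | add p q hp hq =>
    obtain ⟨L, h, h'⟩ := hp
    obtain ⟨M, k, k'⟩ := hq
    refine ⟨(true, p, q, p + q) :: (L ++ M), fun x c hc => ?_, fun w h1 hw => ?_⟩
    · rcases List.mem_cons.1 hc with rfl | hc
      · simp [Con]
      · rcases List.mem_append.1 hc with hc | hc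
        exacts [h x c hc, k x c hc]
    · have e1 := h' w h1 fun c hc => hw c (by simp [hc])
      have e2 := k' w h1 fun c hc => hw c (by simp [hc])
      have e3 := hw _ List.mem_cons_self
      simp only [Con, if_true] at e3
      rw [map_add, ← e1, ← e2, e3]
  | mul_X p i hp =>
    obtain ⟨L, h, h'⟩ := hp
    refine ⟨(false, p, X i, p * X i) :: L, fun x c hc => ?_, fun w h1 hw => ?_⟩
    · rcases List.mem_cons.1 hc with rfl | hc
      · simp [Con]
      · exact h x c hc
    · have e1 := h' w h1 fun c hc => hw c (by simp [hc])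
      have e3 := hw _ List.mem_cons_self
      simp only [Con, Bool.false_eq_true, if_false] at e3
      rw [map_mul, ← e1, eval_X, e3]

theorem h10sys : ∃ (L : List (Bool × ℕ × ℕ × ℕ)) (p o : ℕ), ¬ ComputablePred fun n : ℕ =>
    ∃ v : ℕ → ℕ, v p = n ∧ v o = 1 ∧ ∀ c ∈ L, Con v c := by
  obtain ⟨m, P, hP⟩ := Pool.Agent.H24.DPRM.h10
  obtain ⟨A, B, hAB⟩ := posneg P
  obtain ⟨LA, a1, a2⟩ := slp A
  obtain ⟨LB, b1, b2⟩ := slp B
  haveI : Countable (MvPolynomial (Fin (m + 1)) ℕ) :=
    Function.Injective.countable (f := fun R : MvPolynomial (Fin (m + 1)) ℕ =>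
      R.support.toList.map fun d => (d, coeff d R)) fun R S h => by
        have h1 := congrArg (fun l : List ((Fin (m + 1) →₀ ℕ) × ℕ) =>
          (l.map fun t => (monomial t.1 t.2 : MvPolynomial (Fin (m + 1)) ℕ)).sum) h
        simpa [List.map_map, Function.comp_def, Finset.sum_map_toList] using h1
  obtain ⟨f, hf⟩ := exists_injective_nat (MvPolynomial (Fin (m + 1)) ℕ)
  refine ⟨((false, A, 1, B) :: (LA ++ LB)).map fun c => (c.1, f c.2.1, f c.2.2.1, f c.2.2.2),
    f (X 0), f 1, fun h => hP (h.of_eq fun n => ⟨?_, ?_⟩)⟩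
  · rintro ⟨v, h0, h1, hv⟩
    have hw : ∀ c ∈ (false, A, 1, B) :: (LA ++ LB), Con (fun R => v (f R)) c := fun c hc =>
      hv _ (List.mem_map_of_mem hc)
    have e1 := a2 _ h1 fun c hc => hw c (by simp [hc])
    have e2 := b2 _ h1 fun c hc => hw c (by simp [hc])
    have e3 := hw _ List.mem_cons_self
    simp only [Con, Bool.false_eq_true, if_false, h1, mul_one] at e3
    exact ⟨fun i => v (f (X i)), h0, by rw [hAB, ← e1, ← e2, e3, sub_self]⟩
  · rintro ⟨x, h0, hx⟩
    rw [hAB, sub_eq_zero] at hx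
    have hx' : eval x A = eval x B := by exact_mod_cast hx
    have he : ∀ R, Function.extend f (fun R => eval x R) 0 (f R) = eval x R := fun R =>
      hf.extend_apply _ _ _
    refine ⟨Function.extend f (fun R => eval x R) 0, by simp [he, h0], by simp [he], fun c hc => ?_⟩
    obtain ⟨c, hc2, rfl⟩ := List.mem_map.1 hc
    have : Con (fun R => eval x R) c := by
      rcases List.mem_cons.1 hc2 with rfl | hc
      · simp [Con, hx']
      · rcases List.mem_append.1 hc with hc | hc
        exacts [a1 x c hc, b1 x c hc]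
    simpa only [Con, he] using this

theorem not_comp_of_red {α : Type} [Primcodable α] {K : ℕ → Prop} (hK : ¬ ComputablePred K)
    {P : α → Prop} (r : ℕ → α) (hr : Computable r) (e : ∀ n, K n ↔ P (r n)) :
    ¬ ComputablePred P := by
  intro hc
  apply hK
  obtain ⟨f, hf, e'⟩ := ComputablePred.computable_iff.1 hc
  refine ComputablePred.computable_iff.2 ⟨fun n => f (r n), hf.comp hr, funext fun n => ?_⟩
  rw [propext (e n)]
  exact congrFun e' (r n)

/-- Generic reduction: gadgets for addition and multiplication (main variables `0,1,2`) and for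
constants make satisfiability of finite systems of atoms undecidable.  The reduction consists of a
fixed system plus the constant gadget. -/
theorem generic' {M Atom : Type} (sat : Atom → (ℕ → M) → Prop)
    (ren : (ℕ → ℕ) → Atom → Atom) (hren : ∀ f a σ, sat (ren f a) σ ↔ sat a (fun i => σ (f i)))
    (code : M → ℕ → Prop) (hfun : ∀ m a b, code m a → code m b → a = b) (num : ℕ → M)
    (G : Bool → List Atom)
    (hs : ∀ b σ, (∀ a ∈ G b, sat a σ) → ∃ x y z, code (σ 0) x ∧ code (σ 1) y ∧ code (σ 2) z ∧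
      if b then x + y = z else x * y = z)
    (hc : ∀ (b : Bool) x y, ∃ σ, σ 0 = num x ∧ σ 1 = num y ∧
      σ 2 = num (if b then x + y else x * y) ∧ ∀ a ∈ G b, sat a σ) :
    ∃ (S : List Atom) (p o : ℕ) (K : ℕ → Prop), ¬ ComputablePred K ∧
      (∀ n σ, code (σ p) n → code (σ o) 1 → (∀ a ∈ S, sat a σ) → K n) ∧
      ∀ n, K n → ∃ σ, σ p = num n ∧ σ o = num 1 ∧ ∀ a ∈ S, sat a σ := by
  classical
  obtain ⟨L, p, o, hK⟩ := h10sys
  let f : Bool × ℕ × ℕ × ℕ → ℕ → ℕ := fun c s => match s with
    | 0 => 2 * c.2.1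
    | 1 => 2 * c.2.2.1
    | 2 => 2 * c.2.2.2
    | s + 3 => 2 * Nat.pair (Encodable.encode c) s + 1
  refine ⟨L.flatMap fun c => (G c.1).map (ren (f c)), 2 * p, 2 * o, _, hK, ?_, ?_⟩
  · intro n σ hp ho hS
    let v : ℕ → ℕ := fun i => if h : ∃ a, code (σ (2 * i)) a then h.choose else 0
    have hv : ∀ i a, code (σ (2 * i)) a → v i = a := fun i a h => by
      have h' : ∃ a, code (σ (2 * i)) a := ⟨a, h⟩
      simp only [v, dif_pos h']
      exact hfun _ _ _ h'.choose_spec h
    refine ⟨v, hv _ _ hp, hv _ _ ho, fun c hc' => ?_⟩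
    obtain ⟨x, y, z, h0, h1, h2, h⟩ := hs c.1 (fun i => σ (f c i)) fun a ha =>
      (hren _ _ _).1 (hS _ (List.mem_flatMap.2 ⟨c, hc', List.mem_map_of_mem ha⟩))
    unfold Con
    rw [hv _ _ h0, hv _ _ h1, hv _ _ h2]
    exact h
  · rintro n ⟨v, hp, ho, hv⟩
    choose τ h0 h1 h2 hτ using hc
    let σ : ℕ → M := fun i => if i % 2 = 0 then num (v (i / 2)) else
      match (Encodable.decode (i / 2).unpair.1 : Option (Bool × ℕ × ℕ × ℕ)) with
      | some c => τ c.1 (v c.2.1) (v c.2.2.1) ((i / 2).unpair.2 + 3)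
      | none => num 0
    have he : ∀ i, σ (2 * i) = num (v i) := fun i => by simp [σ]
    refine ⟨σ, by rw [he, hp], by rw [he, ho], fun a ha => ?_⟩
    obtain ⟨c, hc', ha1⟩ := List.mem_flatMap.1 ha
    obtain ⟨a, ha2, rfl⟩ := List.mem_map.1 ha1
    rw [hren]
    have : (fun i => σ (f c i)) = τ c.1 (v c.2.1) (v c.2.2.1) := by
      funext s
      match s with
      | 0 => rw [h0]; exact he _
      | 1 => rw [h1]; exact he _
      | 2 =>
        rw [h2]
        have := hv c hc'
        unfold Con at this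
        refine (he _).trans ?_
        split_ifs at this ⊢ <;> rw [this]
      | s + 3 =>
        have e1 : (2 * Nat.pair (Encodable.encode c) s + 1) % 2 = 1 := by omega
        have e2 : (2 * Nat.pair (Encodable.encode c) s + 1) / 2 = Nat.pair (Encodable.encode c) s := by
          omega
        simp only [σ, f, e1, e2, Nat.unpair_pair, Encodable.encodek]
        simp
    rw [this]
    exact hτ _ _ _ a ha2

theorem generic {M Atom : Type} [Primcodable Atom] (sat : Atom → (ℕ → M) → Prop)
    (ren : (ℕ → ℕ) → Atom → Atom) (hren : ∀ f a σ, sat (ren f a) σ ↔ sat a (fun i => σ (f i)))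
    (code : M → ℕ → Prop) (hfun : ∀ m a b, code m a → code m b → a = b) (num : ℕ → M)
    (G : Bool → List Atom)
    (hs : ∀ b σ, (∀ a ∈ G b, sat a σ) → ∃ x y z, code (σ 0) x ∧ code (σ 1) y ∧ code (σ 2) z ∧
      if b then x + y = z else x * y = z)
    (hc : ∀ (b : Bool) x y, ∃ σ, σ 0 = num x ∧ σ 1 = num y ∧
      σ 2 = num (if b then x + y else x * y) ∧ ∀ a ∈ G b, sat a σ)
    (cst : ℕ → ℕ → Atom) (hcomp : ∀ i, Computable (cst i))
    (hcs : ∀ i n σ, sat (cst i n) σ → code (σ i) n)
    (hcc : ∀ i n σ, σ i = num n → sat (cst i n) σ) :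
    ¬ ComputablePred fun S : List Atom => ∃ σ, ∀ a ∈ S, sat a σ := by
  obtain ⟨S, p, o, K, hK, h1, h2⟩ := generic' sat ren hren code hfun num G hs hc
  refine not_comp_of_red hK (fun n => cst p n :: cst o 1 :: S)
    (Primrec.list_cons.to_comp.comp (hcomp p) (Computable.const _)) fun n => ⟨fun h => ?_, ?_⟩
  · obtain ⟨σ, a, b, c⟩ := h2 n h
    refine ⟨σ, fun x hx => ?_⟩
    rcases List.mem_cons.1 hx with rfl | hx
    · exact hcc _ _ _ a
    · rcases List.mem_cons.1 hx with rfl | hx
      exacts [hcc _ _ _ b, c x hx]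
  · rintro ⟨σ, h⟩
    exact h1 n σ (hcs _ _ _ (h _ (by simp))) (hcs _ _ _ (h _ (by simp)))
      fun a ha => h a (by simp [ha])

theorem prim_replicate {α : Type} [Primcodable α] (a : α) :
    Primrec fun n : ℕ => List.replicate n a := by
  have : Primrec fun n : ℕ => (List.range n).map fun _ => a :=
    Primrec.list_map Primrec.list_range (Primrec.const a).to₂
  exact this.of_eq fun n => by simp

end Pool.Agent.H24.H10
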