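import Mathlib

set_option autoImplicit false
open LaurentPolynomial
open scoped commutatorElement

namespace Pool.Agent.H24.HallGrp

noncomputable def p (k : ℕ) : ℕ := Nat.nth Nat.Prime k

theorem p_prime (k : ℕ) : (p k).Prime := Nat.prime_nth_prime k

theorem p_inj : Function.Injective p := Nat.nth_injective Nat.infinite_setOfPred_prime

instance (k : ℕ) : Fact (p k).Prime := ⟨p_prime k⟩

abbrev Cc := Π₀ k : ℕ, ZMod (p k)
abbrev L := ℤ[T;T⁻¹]

noncomputable def c (j : ℤ) : Cc := if 2 ≤ j then DFinsupp.single (j - 2).toNat 1 else 0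

noncomputable def lam : L →+ Cc :=
  (Finsupp.liftAddHom fun j => zmultiplesHom Cc (c j)).comp
    AddMonoidAlgebra.coeffAddEquiv.toAddMonoidHom

theorem lam_T (j : ℤ) : lam (T j) = c j := by
  simp [lam, T, -single_eq_C_mul_T]

@[ext] structure H where
  n : ℤ
  f : L
  z : Cc

noncomputable instance : Mul H :=
  ⟨fun a b => ⟨a.n + b.n, a.f + T a.n * b.f, a.z + b.z + lam (invert a.f * (T a.n * b.f))⟩⟩
noncomputable instance : One H := ⟨⟨0, 0, 0⟩⟩
noncomputable instance : Inv H :=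
  ⟨fun a => ⟨-a.n, -(T (-a.n) * a.f), -a.z + lam (invert a.f * a.f)⟩⟩

@[simp] theorem mul_n (a b : H) : (a * b).n = a.n + b.n := rfl
@[simp] theorem mul_f (a b : H) : (a * b).f = a.f + T a.n * b.f := rfl
@[simp] theorem mul_z (a b : H) :
  (a * b).z = a.z + b.z + lam (invert a.f * (T a.n * b.f)) := rfl
@[simp] theorem one_n : (1 : H).n = 0 := rfl
@[simp] theorem one_f : (1 : H).f = 0 := rfl
@[simp] theorem one_z : (1 : H).z = 0 := rfl
@[simp] theorem inv_n (a : H) : a⁻¹.n = -a.n := rfl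
@[simp] theorem inv_f (a : H) : a⁻¹.f = -(T (-a.n) * a.f) := rfl
@[simp] theorem inv_z (a : H) : a⁻¹.z = -a.z + lam (invert a.f * a.f) := rfl

theorem TT (n : ℤ) : (T (-n) * T n : L) = 1 := by rw [← T_add]; simp

noncomputable instance : Group H := Group.ofLeftAxioms (fun a b d => by
    ext1
    · simp [add_assoc]
    · simp only [mul_f, mul_n, T_add]; ring
    · simp only [mul_z, mul_f, mul_n, T_add, map_add, map_mul, invert_T]
      have h1 : (invert a.f + T (-a.n) * invert b.f) * (T a.n * T b.n * d.f) =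
          invert a.f * (T a.n * (T b.n * d.f)) + invert b.f * (T b.n * d.f) := by
        linear_combination (invert b.f * (T b.n * d.f)) * TT a.n
      rw [h1, mul_add (T a.n), mul_add (invert a.f), map_add, map_add]
      abel)
  (fun a => by ext1 <;> simp)
  (fun a => by
    ext1
    · simp
    · simp
    · simp only [mul_z, inv_z, inv_f, inv_n, one_z, map_neg, map_mul, invert_T, neg_neg]
      have h1 : -(T a.n * invert a.f) * (T (-a.n) * a.f) = -(invert a.f * a.f) := by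
        linear_combination (-(invert a.f * a.f)) * TT a.n
      rw [h1, map_neg]
      abel)

abbrev F := FreeGroup (Fin 2)

noncomputable def φ : F →* H := FreeGroup.lift ![⟨0, 1, 0⟩, ⟨1, 0, 0⟩]

theorem comm0 (a b : H) (ha : a.n = 0) (hb : b.n = 0) :
    ⁅a, b⁆ = ⟨0, 0, lam (invert a.f * b.f) - lam (invert b.f * a.f)⟩ := by
  rw [commutatorElement_def]
  ext1
  · simp
  · simp [ha, hb]
  · simp [ha, hb, add_mul]
    abel

theorem F1 {w : F} (hw : w ∈ derivedSeries F 2) : (φ w).n = 0 ∧ (φ w).f = 0 := by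
  let N : Subgroup H :=
    { carrier := {g | g.n = 0}
      mul_mem' := fun {a b} ha hb => by simp_all
      one_mem' := rfl
      inv_mem' := fun {a} ha => by simp_all }
  let Z : Subgroup H :=
    { carrier := {g | g.n = 0 ∧ g.f = 0}
      mul_mem' := fun {a b} ha hb => by simp_all
      one_mem' := ⟨rfl, rfl⟩
      inv_mem' := fun {a} ha => by simp_all }
  have h1 : derivedSeries H 1 ≤ N := Subgroup.commutator_le.2 fun a _ b _ => by
    change (⁅a, b⁆).n = 0
    simp [commutatorElement_def]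
  have h2 : derivedSeries H 2 ≤ Z := Subgroup.commutator_le.2 fun a ha b hb => by
    rw [comm0 a b (h1 ha) (h1 hb)]
    exact ⟨rfl, rfl⟩
  exact h2 (map_derivedSeries_le_derivedSeries φ 2 ⟨w, hw, rfl⟩)

theorem exists_u (i : ℕ) : ∃ u ∈ derivedSeries F 1, (φ u).n = 0 ∧ (φ u).f = T i * (T 1 - 1) := by
  induction i with
  | zero =>
    refine ⟨⁅FreeGroup.of 1, FreeGroup.of 0⁆,
      Subgroup.commutator_mem_commutator (Subgroup.mem_top _) (Subgroup.mem_top _), ?_, ?_⟩ <;>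
    simp [φ, commutatorElement_def, sub_eq_add_neg]
  | succ i ih =>
    obtain ⟨u, h1, h2, h3⟩ := ih
    refine ⟨FreeGroup.of 1 * u * (FreeGroup.of 1)⁻¹, (derivedSeries_normal F 1).conj_mem _ h1 _,
      ?_, ?_⟩
    · simp only [map_mul, map_inv, mul_n, inv_n, h2]; simp
    · simp only [map_mul, map_inv, mul_f, inv_f, h3]
      simp [φ, T_add, -T_mul]; ring

theorem F2' (m : ℕ) : (∃ w ∈ derivedSeries F 2, φ w = ⟨0, 0, c m⟩) ∧
    ∃ w ∈ derivedSeries F 2, φ w = ⟨0, 0, c (m + 1)⟩ := by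
  induction m with
  | zero => exact ⟨⟨1, one_mem _, by simp [c]; rfl⟩, ⟨1, one_mem _, by simp [c]; rfl⟩⟩
  | succ m ih =>
    obtain ⟨⟨w1, h1, h2⟩, ⟨w2, h3, h4⟩⟩ := ih
    refine ⟨⟨w2, h3, by rw [h4]; simp⟩, ?_⟩
    obtain ⟨u, hu, hu1, hu2⟩ := exists_u 0
    obtain ⟨v, hv, hv1, hv2⟩ := exists_u (m + 1)
    refine ⟨w2 * w2 * w1⁻¹ * ⁅u, v⁆⁻¹, mul_mem (mul_mem (mul_mem h3 h3) (inv_mem h1))
      (inv_mem (Subgroup.commutator_mem_commutator hu hv)), ?_⟩
    have e1 : invert (φ u).f * (φ v).f = T (m + 1) + T (m + 1) - T (m + 1 + 1) - T m := by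
      rw [hu2, hv2]
      simp only [Nat.cast_zero, T_zero, one_mul, map_sub, invert_T, map_one, Nat.cast_add,
        Nat.cast_one, T_add]
      linear_combination (T m * T 1 - T m) * TT 1
    have e2 : invert (φ v).f * (φ u).f =
        T (-m + -1) + T (-m + -1) - T (-m + -1 + -1) - T (-m) := by
      rw [hu2, hv2]
      simp only [Nat.cast_zero, T_zero, one_mul, map_sub, map_mul, invert_T, map_one, Nat.cast_add,
        Nat.cast_one, T_add, neg_add]
      linear_combination (T (-m) * T (-1) - T (-m)) * TT 1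
    have c0 : ∀ j : ℤ, j ≤ 1 → c j = 0 := fun j hj => if_neg (by omega)
    rw [map_mul, map_mul, map_mul, map_inv, map_inv, map_commutatorElement, comm0 _ _ hu1 hv1,
      h2, h4, e1, e2]
    simp only [map_sub, map_add, lam_T]
    rw [c0 (-m + -1) (by omega), c0 (-m + -1 + -1) (by omega), c0 (-m) (by omega)]
    ext1
    · simp
    · simp
    · simp
      abel

theorem F2 (k : ℕ) : ∃ w ∈ derivedSeries F 2, φ w = ⟨0, 0, DFinsupp.single k 1⟩ := by
  obtain ⟨w, h1, h2⟩ := (F2' (k + 2)).1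
  refine ⟨w, h1, ?_⟩
  rw [h2, c, if_pos (by omega)]
  have : (((k + 2 : ℕ) : ℤ) - 2).toNat = k := by omega
  exact congrArg (fun j => (⟨0, 0, DFinsupp.single j 1⟩ : H)) this

def CT (S : ℕ → Prop) : Subgroup H where
  carrier := {g | g.n = 0 ∧ g.f = 0 ∧ ∀ k, S k → g.z k = 0}
  mul_mem' := fun {a b} ha hb => by simp_all
  one_mem' := ⟨rfl, rfl, fun _ _ => rfl⟩
  inv_mem' := fun {a} ha => by simp_all

instance (S : ℕ → Prop) : (CT S).Normal := ⟨fun a ha g => by
  have : g * a * g⁻¹ = a := by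
    rw [mul_inv_eq_iff_eq_mul]
    ext1 <;> simp [ha.1, ha.2.1, add_comm]
  rwa [this]⟩

noncomputable def NT (S : ℕ → Prop) : Subgroup F := (CT S).comap φ

instance (S : ℕ → Prop) : (NT S).Normal := Subgroup.normal_comap φ

theorem pow_z (a : H) (h1 : a.n = 0) (h2 : a.f = 0) (m : ℕ) : a ^ m = ⟨0, 0, m • a.z⟩ := by
  induction m with
  | zero => simp; rfl
  | succ m ih => rw [pow_succ, ih]; ext1 <;> simp [h1, h2, succ_nsmul]

def piN (N : F → Prop) (k : ℕ) : Prop := ∃ w, w ∈ derivedSeries F 2 ∧ ¬ N w ∧ N (w ^ p k)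

theorem F3 (S : ℕ → Prop) (M : Subgroup F) (h : NT S ≤ M) (k : ℕ) (hk : piN (· ∈ M) k) : S k := by
  classical
  obtain ⟨w, h1, h2, h3⟩ := hk
  by_contra hS
  obtain ⟨h4, h5⟩ := F1 h1
  let m := ∏ j ∈ (φ w).z.support.erase k, p j
  have h6 : w ^ m ∈ M := by
    refine h ?_
    rw [NT, Subgroup.mem_comap, map_pow, pow_z _ h4 h5]
    refine ⟨rfl, rfl, fun j hj => ?_⟩
    simp only [DFinsupp.coe_nsmul, Pi.smul_apply, nsmul_eq_mul]
    by_cases h7 : j ∈ (φ w).z.support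
    · rw [(ZMod.natCast_eq_zero_iff _ _).2 (Finset.dvd_prod_of_mem _
        (Finset.mem_erase.2 ⟨fun e : j = k => hS (e ▸ hj), h7⟩)), zero_mul]
    · rw [DFinsupp.notMem_support_iff.1 h7, mul_zero]
  have h7 : (p k).Coprime m := Nat.Coprime.prod_right fun j hj =>
    (Nat.coprime_primes (p_prime k) (p_prime j)).2 fun e => (Finset.mem_erase.1 hj).1 (p_inj e).symm
  have h8 := Nat.gcd_eq_gcd_ab (p k) m
  rw [h7] at h8
  have h9 : w = (w ^ p k) ^ Nat.gcdA (p k) m * (w ^ m) ^ Nat.gcdB (p k) m := by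
    rw [← zpow_natCast, ← zpow_natCast, ← zpow_mul, ← zpow_mul, ← zpow_add, ← h8]
    simp
  exact h2 (h9 ▸ mul_mem (zpow_mem h3 _) (zpow_mem h6 _))

theorem F4 (k : ℕ) : ∃ w ∈ derivedSeries F 2, (∀ S : ℕ → Prop, S k → w ∉ NT S) ∧
    ∀ S : ℕ → Prop, w ^ p k ∈ NT S := by
  obtain ⟨w, h1, h2⟩ := F2 k
  refine ⟨w, h1, fun S hS h => ?_, fun S => ?_⟩
  · have := h.2.2 k hS
    rw [h2] at this
    simp at this
  · rw [NT, Subgroup.mem_comap, map_pow, h2, pow_z _ rfl rfl]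
    refine ⟨rfl, rfl, fun j _ => ?_⟩
    rw [← DFinsupp.single_smul]
    simp

theorem piN_NT (S : ℕ → Prop) : piN (· ∈ NT S) = S := by
  funext k
  refine propext ⟨F3 S _ le_rfl k, fun hk => ?_⟩
  obtain ⟨w, h1, h2, h3⟩ := F4 k
  exact ⟨w, h1, h2 S hk, h3 S⟩

theorem piN_quot (N : Subgroup F) [N.Normal] (k : ℕ) : piN (· ∈ N) k ↔
    ∃ g ∈ derivedSeries (F ⧸ N) 2, g ≠ 1 ∧ g ^ p k = 1 := by
  rw [← map_derivedSeries_eq (f := QuotientGroup.mk' N) (QuotientGroup.mk'_surjective N)]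
  constructor
  · rintro ⟨w, h1, h2, h3⟩
    refine ⟨_, ⟨w, h1, rfl⟩, fun h => h2 ((QuotientGroup.eq_one_iff w).1 h), ?_⟩
    rw [← map_pow]
    exact (QuotientGroup.eq_one_iff _).2 h3
  · rintro ⟨_, ⟨w, h1, rfl⟩, h2, h3⟩
    rw [← map_pow] at h3
    exact ⟨w, h1, fun h => h2 ((QuotientGroup.eq_one_iff w).2 h), (QuotientGroup.eq_one_iff _).1 h3⟩

theorem piN_iso (N M : Subgroup F) [N.Normal] [M.Normal] (e : (F ⧸ N) ≃* (F ⧸ M)) (k : ℕ)
    (h : piN (· ∈ N) k) : piN (· ∈ M) k := by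
  rw [piN_quot] at h ⊢
  obtain ⟨g, h1, h2, h3⟩ := h
  exact ⟨e g, map_derivedSeries_le_derivedSeries e.toMonoidHom 2 ⟨g, h1, rfl⟩,
    by simpa using h2, by rw [← map_pow, h3, map_one]⟩

end Pool.Agent.H24.HallGrp
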