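import Mathlib
import Pool.Agent.H23.RE

set_option autoImplicit false

namespace Pool.Agent.H24.HomP

open FreeGroup

section Tree
variable {β : Type} [DecidableEq β]

theorem step (x : β × Bool) (a : FreeGroup β) :
    (mk [x] * a).toWord = x :: a.toWord ∨ (mk [x] * a).toWord <:+ a.toWord := by
  have : (mk [x] * a).toWord = reduce (x :: a.toWord) := by
    conv_lhs => rw [← mk_toWord (x := a), mul_mk, toWord_mk]
    rfl
  rw [this, reduce.cons, reduce_toWord]
  cases a.toWord with
  | nil => exact Or.inl rfl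
  | cons y t =>
    dsimp only
    split_ifs
    · exact Or.inr (List.suffix_cons _ _)
    · exact Or.inl rfl

theorem cross (c : List (β × Bool)) (a : FreeGroup β) (m : List (β × Bool))
    (h1 : ¬ m <:+ a.toWord) (h2 : m <:+ (mk c * a).toWord) :
    (mk c * a * (mk m)⁻¹).norm ≤ c.length := by
  induction c with
  | nil => exact absurd (by simpa [← one_eq_mk] using h2) h1
  | cons x c ih =>
    have e : mk (x :: c) * a = mk [x] * (mk c * a) := by rw [← mul_assoc, mul_mk]; rfl
    rw [e] at h2 ⊢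
    by_cases h : m <:+ (mk c * a).toWord
    · have := norm_mul_le (mk [x]) (mk c * a * (mk m)⁻¹)
      have h3 := norm_mk_le (L₁ := [x])
      have := ih h
      rw [mul_assoc]
      simp only [List.length_cons, List.length_nil] at *
      omega
    · rcases step x (mk c * a) with h3 | h3
      · rw [h3, List.suffix_cons_iff] at h2
        rcases h2 with h2 | h2
        · rw [h2, ← h3, mk_toWord, mul_inv_cancel, FreeGroup.norm_one]; exact Nat.zero_le _
        · exact absurd h2 h
      · exact absurd (h2.trans h3) h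

theorem cross' (a b : FreeGroup β) (m : List (β × Bool))
    (h1 : ¬ m <:+ a.toWord) (h2 : m <:+ b.toWord) :
    (b * (mk m)⁻¹).norm ≤ (b * a⁻¹).norm := by
  have := cross (b * a⁻¹).toWord a m h1 (by simpa [mk_toWord] using h2)
  rw [mk_toWord, inv_mul_cancel_right] at this
  exact this

theorem split (z : ℕ → FreeGroup β) (n L : ℕ) (hn : 2 ≤ n)
    (hz : ∀ i < n, (z (i + 1) * (z i)⁻¹).norm ≤ L) (hK : (z n * (z 0)⁻¹).norm ≤ 3 * L + 1) :
    ∃ i, 0 < i ∧ i < n ∧ (z i * (z 0)⁻¹).norm ≤ 3 * L + 1 ∧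
      (z n * (z i)⁻¹).norm ≤ 3 * L + 1 := by
  by_cases hl : (z n * (z 0)⁻¹).norm ≤ 2 * L + 1
  · refine ⟨1, one_pos, hn, (hz 0 (by omega)).trans (by omega), ?_⟩
    have h1 := norm_mul_le (z n * (z 0)⁻¹) (z 1 * (z 0)⁻¹)⁻¹
    have h2 := hz 0 (by omega)
    rw [norm_inv_eq, show z n * (z 0)⁻¹ * (z 1 * (z 0)⁻¹)⁻¹ = z n * (z 1)⁻¹ by group] at h1
    simp only [zero_add] at h2
    omega
  · set r := (z n * (z 0)⁻¹).toWord with hr
    have hrl : r.length = (z n * (z 0)⁻¹).norm := rfl
    set m := r.drop (r.length - (L + 1)) with hm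
    have hml : m.length = L + 1 := by simp [hm]; omega
    have hmr : IsReduced m := List.IsChain.drop (isReduced_toWord (x := z n * (z 0)⁻¹)) _
    have hmn : (mk m).norm = L + 1 := by
      rw [← hml]; show (mk m).toWord.length = _; rw [toWord_mk, hmr.reduce_eq]
    have hrm : (z n * (z 0)⁻¹ * (mk m)⁻¹).norm = r.length - (L + 1) := by
      have e : z n * (z 0)⁻¹ = mk (r.take (r.length - (L + 1))) * mk m := by
        rw [mul_mk, List.take_append_drop, mk_toWord]
      rw [e, mul_inv_cancel_right]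
      have : IsReduced (r.take (r.length - (L + 1))) :=
        List.IsChain.take (isReduced_toWord (x := z n * (z 0)⁻¹)) _
      show (mk _).toWord.length = _
      rw [toWord_mk, this.reduce_eq]; simp
    have hex : ∃ i, m <:+ (z i * (z 0)⁻¹).toWord := ⟨n, List.drop_suffix _ _⟩
    have hin : Nat.find hex ≤ n := Nat.find_min' hex (List.drop_suffix _ _)
    have hi0 : Nat.find hex ≠ 0 := by
      intro h
      have := Nat.find_spec hex
      rw [h] at this
      simp at this
      simp [this] at hml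
    obtain ⟨j, hj⟩ := Nat.exists_eq_succ_of_ne_zero hi0
    have h1 := Nat.find_min hex (m := j) (by omega)
    have h2 := Nat.find_spec hex
    rw [hj] at h2 hin
    have h3 := cross' _ _ _ h1 h2
    rw [show z j.succ * (z 0)⁻¹ * (z j * (z 0)⁻¹)⁻¹ = z (j + 1) * (z j)⁻¹ by group] at h3
    have h4 := h3.trans (hz j (by omega))
    refine ⟨j + 1, by omega, ?_, ?_, ?_⟩
    · by_contra h
      have : j.succ = n := by omega
      rw [this, hrm] at h4
      omega
    · have := norm_mul_le (z j.succ * (z 0)⁻¹ * (mk m)⁻¹) (mk m)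
      rw [inv_mul_cancel_right] at this
      show (z j.succ * (z 0)⁻¹).norm ≤ _
      omega
    · have := norm_mul_le (z n * (z 0)⁻¹ * (mk m)⁻¹) (z j.succ * (z 0)⁻¹ * (mk m)⁻¹)⁻¹
      rw [norm_inv_eq, show z n * (z 0)⁻¹ * (mk m)⁻¹ * (z j.succ * (z 0)⁻¹ * (mk m)⁻¹)⁻¹ =
        z n * (z (j + 1))⁻¹ by group] at this
      omega

end Tree

/-- The value of a word. -/
def ev {σ H : Type} [Group H] (s : σ → H) (W : List (σ × Bool)) : H :=
  (W.map fun p => cond p.2 (s p.1) (s p.1)⁻¹).prod

section FP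
variable {σ H : Type} [Group H]

@[simp] theorem ev_nil (s : σ → H) : ev s [] = 1 := rfl
@[simp] theorem ev_append (s : σ → H) (U V : List (σ × Bool)) :
    ev s (U ++ V) = ev s U * ev s V := by simp [ev]
theorem ev_cons (s : σ → H) (p : σ × Bool) (V : List (σ × Bool)) :
    ev s (p :: V) = cond p.2 (s p.1) (s p.1)⁻¹ * ev s V := by simp [ev]
theorem ev_invRev (s : σ → H) (U : List (σ × Bool)) : ev s (invRev U) = (ev s U)⁻¹ := by
  induction U with
  | nil => simp [invRev]
  | cons p U ih =>
    rw [invRev_cons, ev_append, ih, ev_cons s p, mul_inv_rev]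
    obtain ⟨a, b⟩ := p
    cases b <;> simp [ev, invRev]

def Mono (W : List (σ × Bool)) : Prop := W.Pairwise fun a b => b.2 = true → a.2 = true

def ty (s : σ → H) (W : List (σ × Bool)) : H × Prop × Prop :=
  (ev s W, ∃ p ∈ W, p.2 = true, ∃ p ∈ W, p.2 = false)

theorem ty_append (s : σ → H) {U V U' V' : List (σ × Bool)} (h1 : ty s U = ty s U')
    (h2 : ty s V = ty s V') : ty s (U ++ V) = ty s (U' ++ V') := by
  simp only [ty, Prod.mk.injEq, eq_iff_iff] at *
  simp only [ev_append, List.mem_append, or_and_right, exists_or, h1, h2, and_self]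

theorem mono_sub (s : σ → H) {A B W W' : List (σ × Bool)} (h : ty s W = ty s W') (hW : Mono W')
    (hm : Mono (A ++ W ++ B)) : Mono (A ++ W' ++ B) := by
  simp only [ty, Prod.mk.injEq, eq_iff_iff] at h
  simp only [Mono, List.pairwise_append, List.mem_append] at *
  obtain ⟨⟨a1, _, a3⟩, a4, a5⟩ := hm
  refine ⟨⟨a1, hW, fun a ha b hb hb2 => ?_⟩, a4, fun a ha b hb hb2 => ?_⟩
  · obtain ⟨p, hp, hp2⟩ := h.2.1.2 ⟨b, hb, hb2⟩
    exact a3 a ha p hp hp2
  · rcases ha with ha | ha
    · exact a5 a (Or.inl ha) b hb hb2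
    · by_contra h0
      obtain ⟨p, hp, hp2⟩ := h.2.2.2 ⟨a, ha, by simpa using h0⟩
      have := a5 p (Or.inr hp) b hb hb2
      simp [hp2] at this

theorem fp (s : σ → H) (C : Set H) (hC : C.Finite) (h1 : (1 : H) ∈ C)
    (hs : ∀ W : List (σ × Bool), 2 ≤ W.length → ev s W ∈ C →
      ∃ U V, W = U ++ V ∧ U ≠ [] ∧ V ≠ [] ∧ ev s U ∈ C ∧ ev s V ∈ C) :
    ∃ N : ℕ, ∀ (G : Type) [Group G] (φ : σ → G),
      (∀ W, Mono W → W.length ≤ N → ev s W = 1 → ev φ W = 1) →
      ∀ W, Mono W → ev s W = 1 → ev φ W = 1 := by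
  have hT : (C ×ˢ (Set.univ : Set (Prop × Prop))).Finite := hC.prod Set.finite_univ
  have key : ∀ t : H × Prop × Prop, ∃ n : ℕ, (∃ A W B, ty s W = t ∧ Mono (A ++ W ++ B) ∧
      ev s (A ++ W ++ B) = 1) → ∃ A W B, ty s W = t ∧ Mono (A ++ W ++ B) ∧
      ev s (A ++ W ++ B) = 1 ∧ (A ++ W ++ B).length ≤ n := by
    intro t
    by_cases h : ∃ A W B, ty s W = t ∧ Mono (A ++ W ++ B) ∧ ev s (A ++ W ++ B) = 1
    · obtain ⟨A, W, B, a, b, c⟩ := h
      exact ⟨_, fun _ => ⟨A, W, B, a, b, c, le_rfl⟩⟩
    · exact ⟨0, fun h' => absurd h' h⟩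
  choose nb hnb using key
  obtain ⟨N0, hN0⟩ := (hT.image nb).bddAbove
  refine ⟨3 * (N0 + 1), fun G _ φ hφ => ?_⟩
  have main : ∀ (n : ℕ) (W A B : List (σ × Bool)), W.length ≤ n → ev s W ∈ C →
      Mono (A ++ W ++ B) → ev s (A ++ W ++ B) = 1 →
      ∃ W', ty s W = ty s W' ∧ Mono W' ∧ W'.length ≤ N0 + 1 ∧ ev φ W = ev φ W' := by
    intro n
    induction n with
    | zero =>
      intro W A B hW _ _ _
      have : W = [] := List.length_eq_zero_iff.1 (by omega)
      exact ⟨W, rfl, by simp [this, Mono], by omega, rfl⟩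
    | succ n ih =>
      intro W A B hW hc hm he
      have hmW : Mono W := List.Pairwise.sublist ((List.sublist_append_right A W).trans
        (List.sublist_append_left _ B)) hm
      by_cases h2 : W.length ≤ 1
      · exact ⟨W, rfl, hmW, by omega, rfl⟩
      obtain ⟨U, V, rfl, hU, hV, cU, cV⟩ := hs W (by omega) hc
      have lU := List.length_pos_iff.2 hU
      have lV := List.length_pos_iff.2 hV
      rw [List.length_append] at hW
      obtain ⟨U', u1, u2, u3, u4⟩ := ih U A (V ++ B) (by omega) cU (by simpa using hm)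
        (by simpa using he)
      obtain ⟨V', v1, v2, v3, v4⟩ := ih V (A ++ U) B (by omega) cV (by simpa using hm)
        (by simpa using he)
      obtain ⟨A0, W0, B0, w1, w2, w3, w4⟩ := hnb (ty s (U ++ V)) ⟨A, _, B, rfl, hm, he⟩
      have w5 : nb (ty s (U ++ V)) ≤ N0 := hN0 ⟨_, ⟨hc, trivial⟩, rfl⟩
      have t1 := ty_append s u1 v1
      have mUV : Mono (U' ++ V') := by
        have a := mono_sub s (A := []) (B := V) u1 u2 (by simpa using hmW)
        have b := mono_sub s (A := U') (B := []) v1 v2 (by simpa using a)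
        simpa using b
      have t2 : ty s W0 = ty s (U' ++ V') := w1.trans t1
      have m2 := mono_sub s t2 mUV w2
      have e2 : ev s W0 = ev s (U' ++ V') := congrArg Prod.fst t2
      simp only [List.length_append] at w4
      have r1 := hφ _ w2 (by simp only [List.length_append]; omega) w3
      have r2 := hφ _ m2 (by simp only [List.length_append]; omega)
        (by rw [ev_append, ev_append, ← e2, ← ev_append, ← ev_append]; exact w3)
      refine ⟨W0, w1.symm, List.Pairwise.sublist ((List.sublist_append_right A0 W0).trans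
        (List.sublist_append_left _ B0)) w2, by omega, ?_⟩
      rw [ev_append, u4, v4, ← ev_append]
      rw [ev_append, ev_append] at r1 r2
      exact mul_left_cancel (mul_right_cancel (r2.trans r1.symm))
  intro W hm he
  obtain ⟨W', a, b, c, d⟩ := main _ W [] [] le_rfl (he ▸ h1) (by simpa using hm) (by simpa using he)
  rw [d]
  exact hφ _ b (by omega) ((congrArg Prod.fst a).symm.trans he)

theorem ext_iff {ι G : Type} [Group G] (s : ι → H) (φ : ι → G) (M : Submonoid H)
    (hM : Submonoid.closure (Set.range s) = M) :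
    (∃ Φ : M →* G, ∀ i, ∀ h : s i ∈ M, Φ ⟨s i, h⟩ = φ i) ↔
      ∀ U V : List ι, (U.map s).prod = (V.map s).prod → (U.map φ).prod = (V.map φ).prod := by
  subst hM
  have mem : ∀ i, s i ∈ Submonoid.closure (Set.range s) := fun i =>
    Submonoid.subset_closure ⟨i, rfl⟩
  have memU : ∀ U : List ι, (U.map s).prod ∈ Submonoid.closure (Set.range s) := fun U =>
    Submonoid.list_prod_mem _ (by simpa using fun a _ => mem a)
  constructor
  · rintro ⟨Φ, hΦ⟩
    have : ∀ U : List ι, Φ ⟨_, memU U⟩ = (U.map φ).prod := by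
      intro U
      induction U with
      | nil => exact Φ.map_one
      | cons i U ih =>
        rw [List.map_cons (f := φ), List.prod_cons, ← ih, ← hΦ i (mem i), ← Φ.map_mul]
        congr 1
    intro U V h
    rw [← this, ← this]
    congr 2
  · intro h
    have ex : ∀ m : Submonoid.closure (Set.range s), ∃ U : List ι, (U.map s).prod = m := by
      rintro ⟨m, hm⟩
      induction hm using Submonoid.closure_induction with
      | mem x hx => obtain ⟨i, rfl⟩ := hx; exact ⟨[i], by simp⟩
      | one => exact ⟨[], rfl⟩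
      | mul x y _ _ h1 h2 =>
        obtain ⟨U, hU⟩ := h1
        obtain ⟨V, hV⟩ := h2
        exact ⟨U ++ V, by simp only [List.map_append, List.prod_append, hU, hV]⟩
    choose u hu using ex
    refine ⟨⟨⟨fun m => ((u m).map φ).prod, h _ [] (hu 1)⟩, fun a b => ?_⟩, fun i hi => ?_⟩
    · have := h (u (a * b)) (u a ++ u b) (by simp [hu])
      simpa using this
    · have := h (u ⟨s i, hi⟩) [i] (by simp [hu])
      simpa using this

theorem ev_pos (s : σ → H) (U : List σ) : ev s (U.map fun i => (i, true)) = (U.map s).prod := by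
  simp [ev, Function.comp_def]

theorem mono_rel (U V : List σ) :
    Mono ((U.map fun i => (i, true)) ++ invRev (V.map fun i => (i, true))) := by
  simp only [Mono, List.pairwise_append, invRev]
  refine ⟨List.pairwise_of_forall_mem_list fun a ha b hb _ => ?_,
    List.pairwise_of_forall_mem_list fun a ha b hb h => ?_, fun a ha b hb _ => ?_⟩
  · obtain ⟨_, _, rfl⟩ := List.mem_map.1 ha; rfl
  · simp only [List.mem_reverse, List.mem_map] at hb
    obtain ⟨_, ⟨_, _, rfl⟩, rfl⟩ := hb
    simp at h
  · obtain ⟨_, _, rfl⟩ := List.mem_map.1 ha; rfl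

theorem mono_dec (W : List (σ × Bool)) (h : Mono W) : ∃ U V : List σ,
    W = (U.map fun i => (i, true)) ++ invRev (V.map fun i => (i, true)) := by
  induction W with
  | nil => exact ⟨[], [], by simp [invRev]⟩
  | cons p W ih =>
    obtain ⟨h1, h2⟩ := List.pairwise_cons.1 h
    obtain ⟨U, V, rfl⟩ := ih h2
    obtain ⟨a, b⟩ := p
    cases b
    · cases U with
      | nil => exact ⟨[], V ++ [a], by simp [invRev]⟩
      | cons c U => simpa using h1 (c, true) (by simp) rfl
    · exact ⟨a :: U, V, rfl⟩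

end FP

end Pool.Agent.H24.HomP
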