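import Mathlib
import Pool.Agent.H24.HomP1

set_option autoImplicit false

namespace Pool.Agent.H24.HomP

open FreeGroup Pool.Agent.H23 Pool.Agent.H23.RE

theorem fin_basis (B : Type) [h : Group.FG (FreeGroup B)] : Finite B := by
  classical
  obtain ⟨S, hS, hf⟩ := Group.fg_iff.1 h
  have h1 : (⋃ g ∈ S, {b | b ∈ g.toWord.map Prod.fst}).Finite :=
    hf.biUnion fun g _ => List.finite_toSet _
  refine Set.finite_univ_iff.1 (h1.subset fun b _ => ?_)
  by_contra hb
  simp only [Set.mem_iUnion, Set.mem_ofPred_eq, not_exists] at hb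
  let f : FreeGroup B →* Multiplicative ℤ :=
    FreeGroup.lift fun c => if c = b then Multiplicative.ofAdd 1 else 1
  have h2 : f.ker = ⊤ := by
    rw [eq_top_iff, ← hS, Subgroup.closure_le]
    intro g hg
    have := hb g hg
    show f g = 1
    rw [← mk_toWord (x := g), lift_mk]
    refine List.prod_eq_one fun y hy => ?_
    obtain ⟨p, hp, rfl⟩ := List.mem_map.1 hy
    have : p.1 ≠ b := fun e => this (List.mem_map.2 ⟨p, hp, e⟩)
    cases p.2 <;> simp [this]
  have h3 : f (of b) = 1 := by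
    have : of b ∈ f.ker := h2 ▸ Subgroup.mem_top _
    exact this
  simp [f] at h3

theorem red_prim {k : ℕ} : Primrec (reduce : List (Fin k × Bool) → List (Fin k × Bool)) := by
  have h0 : Primrec fun q : List (Fin k × Bool) => q.head? := Primrec.list_head?
  have h : Primrec fun L : List (Fin k × Bool) => L.foldr (fun x ih =>
      bif (ih.head? == some (x.1, !x.2)) then ih.tail else x :: ih) [] := by
    refine PR.foldr' (by fun_prop) (by fun_prop) (PR.cond' (PR.beq' (h0.comp (by fun_prop))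
      (by fun_prop)) (by fun_prop) (by fun_prop))
  refine h.of_eq fun L => ?_
  induction L with
  | nil => rfl
  | cons x L ih =>
    rw [List.foldr_cons, ih, reduce.cons]
    cases reduce L with
    | nil => rfl
    | cons y t =>
      obtain ⟨a, b⟩ := x
      obtain ⟨c, d⟩ := y
      rw [Bool.cond_eq_ite]
      by_cases h : a = c
      · subst h; cases b <;> cases d <;> simp
      · simp [h, Ne.symm h]

section VF
variable {H : Type} [Group H] (N : Subgroup H) {k : ℕ} (j : N ≃* FreeGroup (Fin k))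

noncomputable def nu (h : H) : FreeGroup (Fin k) :=
  j ⟨((h : H ⧸ N).out)⁻¹ * h, QuotientGroup.eq.1 (QuotientGroup.out_eq' (h : H ⧸ N))⟩

noncomputable def cc (g : H) (q : H ⧸ N) : FreeGroup (Fin k) :=
  j ⟨((g • q).out)⁻¹ * (g * q.out), QuotientGroup.eq.1 (by
    rw [QuotientGroup.out_eq', ← smul_eq_mul, ← MulAction.Quotient.smul_mk,
      QuotientGroup.out_eq'])⟩

theorem nu_mul (g h : H) : nu N j (g * h) * (nu N j h)⁻¹ = cc N j g h := by
  unfold nu cc
  rw [← _root_.map_inv, ← _root_.map_mul]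
  congr 1
  ext
  simp only [Subgroup.coe_mul, Subgroup.coe_inv]
  have : (g • (h : H ⧸ N)) = ((g * h : H) : H ⧸ N) := rfl
  rw [this]
  group

theorem fin_chord [N.FiniteIndex] (K : ℕ) : {g : H | ∃ q, (cc N j g q).norm ≤ K}.Finite := by
  have h1 : {a : FreeGroup (Fin k) | a.norm ≤ K}.Finite :=
    (List.finite_length_le (Fin k × Bool) K).preimage (f := toWord) toWord_injective.injOn
  have h2 := ((Set.finite_univ (α := (H ⧸ N) × (H ⧸ N))).prod h1).image
    fun p => p.1.1.out * (j.symm p.2 : H) * p.1.2.out⁻¹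
  refine h2.subset ?_
  rintro g ⟨q, hq⟩
  refine ⟨((g • q, q), cc N j g q), ⟨trivial, hq⟩, ?_⟩
  simp [cc]

include j in
theorem vf_split [N.FiniteIndex] {σ : Type} [Finite σ] (s : σ → H) :
    ∃ C : Set H, C.Finite ∧ (1 : H) ∈ C ∧ ∀ W : List (σ × Bool), 2 ≤ W.length → ev s W ∈ C →
      ∃ U V, W = U ++ V ∧ U ≠ [] ∧ V ≠ [] ∧ ev s U ∈ C ∧ ev s V ∈ C := by
  obtain ⟨L, hL⟩ := (Set.finite_range fun p : (σ × Bool) × (H ⧸ N) =>
    (cc N j (cond p.1.2 (s p.1.1) (s p.1.1)⁻¹) p.2).norm).bddAbove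
  refine ⟨_, fin_chord N j (3 * L + 1), ⟨((1 : H) : H ⧸ N), ?_⟩, ?_⟩
  · rw [← nu_mul]; simp
  rintro W hW ⟨q, hq⟩
  obtain ⟨h, rfl⟩ := QuotientGroup.mk_surjective q
  obtain ⟨i, a, b, c, d⟩ := split (fun i => nu N j (ev s (W.drop (W.length - i)) * h)) W.length L
    hW (fun i hi => by
      rw [List.drop_eq_getElem_cons (i := W.length - (i + 1)) (by omega), ev_cons, mul_assoc,
        show W.length - (i + 1) + 1 = W.length - i by omega, nu_mul]
      exact hL ⟨(_, _), rfl⟩) (by simpa [nu_mul] using hq)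
  refine ⟨W.take (W.length - i), W.drop (W.length - i), (List.take_append_drop _ _).symm,
    ?_, ?_, ⟨((ev s (W.drop (W.length - i)) * h : H) : H ⧸ N), ?_⟩, ⟨h, ?_⟩⟩
  · rw [← List.length_pos_iff]; simp; omega
  · rw [← List.length_pos_iff]; simp; omega
  · rw [← nu_mul, ← mul_assoc, ← ev_append, List.take_append_drop]
    simpa using d
  · simpa [nu_mul] using c

include j in
theorem vf_wp [N.FiniteIndex] {a : ℕ} (x : Fin a → H) :
    ∃ f : List (Fin a × Bool) → Bool, Primrec f ∧ ∀ w, f w = true ↔ ev x w = 1 := by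
  classical
  letI : Primcodable (H ⧸ N) := Primcodable.ofEquiv _ (Finite.equivFin (H ⧸ N))
  let gl : Fin a × Bool → H := fun p => cond p.2 (x p.1) (x p.1)⁻¹
  have h1 : Primrec fun p : (Fin a × Bool) × (H ⧸ N) => gl p.1 • p.2 := Primrec.dom_finite _
  have h2 : Primrec fun p : (Fin a × Bool) × (H ⧸ N) => (cc N j (gl p.1) p.2).toWord :=
    Primrec.dom_finite _
  let st : List (Fin a × Bool) → (H ⧸ N) × List (Fin k × Bool) := fun w => w.foldr
    (fun p t => (gl p • t.1, reduce ((cc N j (gl p) t.1).toWord ++ t.2)))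
    (((1 : H) : H ⧸ N), (nu N j 1).toWord)
  have h3 : Primrec st := by
    refine PR.foldr' (by fun_prop) (by fun_prop) (PR.pair' ?_ (red_prim.comp (PR.append' ?_
      (by fun_prop))))
    · exact h1.comp (g := fun p : List (Fin a × Bool) × (Fin a × Bool) × (H ⧸ N) ×
        List (Fin k × Bool) => (p.2.1, p.2.2.1)) (by fun_prop)
    · exact h2.comp (g := fun p : List (Fin a × Bool) × (Fin a × Bool) × (H ⧸ N) ×
        List (Fin k × Bool) => (p.2.1, p.2.2.1)) (by fun_prop)
  have h4 : ∀ w, st w = (((ev x w : H) : H ⧸ N), (nu N j (ev x w)).toWord) := by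
    intro w
    induction w with
    | nil => rfl
    | cons p w ih =>
      have : st (p :: w) = (gl p • (st w).1,
        reduce ((cc N j (gl p) (st w).1).toWord ++ (st w).2)) := rfl
      rw [this, ih, ev_cons, ← toWord_mul, ← nu_mul, inv_mul_cancel_right]
      rfl
  refine ⟨fun w => st w == st [], PR.beq' h3 (by fun_prop), fun w => ?_⟩
  rw [beq_iff_eq, h4, h4]
  refine ⟨fun h => ?_, fun h => by rw [h]; rfl⟩
  obtain ⟨e1, e2⟩ := Prod.mk.inj h
  have := congrArg Subtype.val (j.injective (toWord_injective e2))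
  simp only [e1, ev_nil] at this
  exact mul_left_cancel this

end VF

theorem sep {α : Type} [Primcodable α] {p q : α → Prop} (hp : REPred p) (hq : REPred q) :
    ∃ f : α →. Bool, Partrec f ∧ ∀ a, p a ∨ q a → ∃ b ∈ f a, (b = true → p a) ∧
      (b = false → q a) := by
  obtain ⟨R, h1, _, h3⟩ := CTools.re_stage hp
  obtain ⟨S, k1, _, k3⟩ := CTools.re_stage hq
  have e1 : Primrec fun x : α × ℕ => R x.2 x.1 := h1.comp (Primrec.snd.pair Primrec.fst)
  have e2 : Primrec fun x : α × ℕ => S x.2 x.1 := k1.comp (Primrec.snd.pair Primrec.fst)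
  have e3 : Primrec fun x : α × ℕ => (R x.2 x.1 || S x.2 x.1) := by fun_prop
  refine ⟨fun a => (Nat.rfind fun s => Part.some (R s a || S s a)).map fun s => R s a,
    Partrec.map (Partrec.rfind (p := fun a s => Part.some (R s a || S s a))
      e3.to_comp.partrec) (g := fun a s => R s a) e1.to_comp, fun a ha => ?_⟩
  have hd : (Nat.rfind fun s => Part.some (R s a || S s a)).Dom := by
    rw [h3, k3] at ha
    simpa [Nat.rfind_dom, exists_or] using ha
  obtain ⟨s, hs⟩ := Part.dom_iff_mem.1 hd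
  refine ⟨R s a, Part.mem_map _ hs, fun h => (h3 a).2 ⟨s, h⟩, fun h => (k3 a).2 ⟨s, ?_⟩⟩
  simpa [h] using Nat.rfind_spec hs

theorem invRev_prim {α β : Type} [Primcodable α] [Primcodable β] {f : α → List (β × Bool)}
    (hf : Primrec f) : Primrec fun a => invRev (f a) := by
  unfold invRev; fun_prop

theorem ev_flat {σ τ H : Type} [Group H] (s : σ → H) (u : τ → List (σ × Bool)) (U : List τ) :
    ev s (U.flatMap u) = (U.map fun i => ev s (u i)).prod := by
  induction U with
  | nil => rfl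
  | cons i U ih => simp [ih]

theorem ev_flat' {σ τ H : Type} [Group H] (s : σ → H) (u : τ → List (σ × Bool))
    (U : List (τ × Bool)) :
    ev s (U.flatMap fun q => bif q.2 then u q.1 else invRev (u q.1)) =
      ev (fun i => ev s (u i)) U := by
  induction U with
  | nil => rfl
  | cons i U ih =>
    rw [List.flatMap_cons, ev_append, ih, ev_cons]
    obtain ⟨a, b⟩ := i
    cases b <;> simp [ev_invRev]

theorem ex_prod {ι H : Type} [Monoid H] (s : ι → H) {m : H}
    (hm : m ∈ Submonoid.closure (Set.range s)) : ∃ U : List ι, (U.map s).prod = m := by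
  induction hm using Submonoid.closure_induction with
  | mem x hx => obtain ⟨i, rfl⟩ := hx; exact ⟨[i], by simp⟩
  | one => exact ⟨[], rfl⟩
  | mul x y _ _ h1 h2 =>
    obtain ⟨U, hU⟩ := h1
    obtain ⟨V, hV⟩ := h2
    exact ⟨U ++ V, by simp only [List.map_append, List.prod_append, hU, hV]⟩

theorem hom_prod {ι H G : Type} [Monoid H] [Monoid G] (s : ι → H) (φ : ι → G) (M : Submonoid H)
    (Φ : M →* G) (hs : ∀ i, s i ∈ M) (hΦ : ∀ i, Φ ⟨s i, hs i⟩ = φ i) (U : List ι)
    (h : (U.map s).prod ∈ M) : Φ ⟨_, h⟩ = (U.map φ).prod := by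
  induction U with
  | nil => exact Φ.map_one
  | cons i U ih =>
    have h' : (U.map s).prod ∈ M := M.list_prod_mem (by simpa using fun a _ => hs a)
    rw [List.map_cons (f := φ), List.prod_cons, ← ih h', ← hΦ i, ← Φ.map_mul]
    congr 1

end Pool.Agent.H24.HomP
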