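import Mathlib
import Pool.Agent.H24.HomP2

set_option autoImplicit false

namespace Pool.Agent.H24.HomP

open FreeGroup Pool.Agent.H23 Pool.Agent.H23.RE

theorem re_eq {X G α : Type} [Primcodable X] [Primcodable α] [Group G] {y : X → G}
    (h : REPred fun w => ev y w = 1) {u v : α → List (X × Bool)} (hu : Primrec u)
    (hv : Primrec v) : REPred fun a => ev y (u a) = ev y (v a) :=
  (re_comp' h (fun a => u a ++ invRev (v a)) (PR.append' hu (invRev_prim hv))).of_eq fun a => by
    rw [ev_append, ev_invRev, mul_inv_eq_one]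

theorem re_ne {X G α : Type} [Primcodable X] [Primcodable α] [Group G] {y : X → G}
    (h : REPred fun w => ¬ ev y w = 1) {u v : α → List (X × Bool)} (hu : Primrec u)
    (hv : Primrec v) : REPred fun a => ¬ ev y (u a) = ev y (v a) :=
  (re_comp' h (fun a => u a ++ invRev (v a)) (PR.append' hu (invRev_prim hv))).of_eq fun a => by
    rw [ev_append, ev_invRev, mul_inv_eq_one]

section
variable {X Y : Type}

def cH (l : List (List (X × Bool) × List (Y × Bool))) (U : List ℕ) : List (X × Bool) :=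
  U.flatMap fun k => (l.getD k ([], [])).1
def cG (l : List (List (X × Bool) × List (Y × Bool))) (U : List ℕ) : List (Y × Bool) :=
  U.flatMap fun k => (l.getD k ([], [])).2

variable [Primcodable X] [Primcodable Y]

@[fun_prop] theorem cH_prim {α : Type} [Primcodable α]
    {l : α → List (List (X × Bool) × List (Y × Bool))} {U : α → List ℕ} (hl : Primrec l)
    (hU : Primrec U) : Primrec fun a => cH (l a) (U a) := by
  unfold cH; fun_prop
@[fun_prop] theorem cG_prim {α : Type} [Primcodable α]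
    {l : α → List (List (X × Bool) × List (Y × Bool))} {U : α → List ℕ} (hl : Primrec l)
    (hU : Primrec U) : Primrec fun a => cG (l a) (U a) := by
  unfold cG; fun_prop
@[fun_prop] theorem val_prim {α : Type} [Primcodable α] {n : ℕ} {f : α → Fin n}
    (hf : Primrec f) : Primrec fun a => (f a : ℕ) := Primrec.fin_val.comp hf

end

theorem clo {X Y H : Type} [Group H] (x : X → H) (l : List (List (X × Bool) × List (Y × Bool))) :
    Submonoid.closure (Set.range fun k => ev x (l.getD k ([], [])).1) =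
      Submonoid.closure {h | ∃ p ∈ l, ev x p.1 = h} := by
  apply le_antisymm
  · rw [Submonoid.closure_le]
    rintro _ ⟨k, rfl⟩
    by_cases hk : k < l.length
    · exact Submonoid.subset_closure ⟨l[k], List.getElem_mem hk, by simp [hk]⟩
    · simp only [List.getD_eq_default _ _ (not_lt.1 hk)]
      exact Submonoid.one_mem _
  · refine Submonoid.closure_mono ?_
    rintro _ ⟨p, hp, rfl⟩
    obtain ⟨k, hk, rfl⟩ := List.getElem_of_mem hp
    exact ⟨k, by simp [hk]⟩

theorem main {H G X Y : Type} [Group H] [Group G] [Primcodable X] [Primcodable Y]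
    (x : X → H) (y : Y → G) (hH : REPred fun w => ev x w = 1)
    (hG : REPred fun w => ev y w = 1) (hG' : REPred fun w => ¬ ev y w = 1)
    (hs : ∀ (n : ℕ) (s : Fin n → H), ∃ C : Set H, C.Finite ∧ (1 : H) ∈ C ∧
      ∀ W : List (Fin n × Bool), 2 ≤ W.length → ev s W ∈ C →
      ∃ U V, W = U ++ V ∧ U ≠ [] ∧ V ≠ [] ∧ ev s U ∈ C ∧ ev s V ∈ C) (M : Submonoid H) :
    ∃ f : List (List (X × Bool) × List (Y × Bool)) →. Bool, Partrec f ∧
      ∀ l, Submonoid.closure {h | ∃ p ∈ l, ev x p.1 = h} = M → ∃ b ∈ f l,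
        (b = true ↔ ∃ Φ : M →* G, ∀ p ∈ l, ∀ h : ev x p.1 ∈ M, Φ ⟨_, h⟩ = ev y p.2) := by
  by_cases h0 : ∃ l0 : List (List (X × Bool) × List (Y × Bool)),
    Submonoid.closure {h | ∃ p ∈ l0, ev x p.1 = h} = M
  swap
  · exact ⟨fun _ => Part.none, Partrec.none, fun l hl => absurd ⟨l, hl⟩ h0⟩
  obtain ⟨l0, hl0⟩ := h0
  let w0 : Fin l0.length → List (X × Bool) := fun i => (l0.get i).1
  have hw0 : Primrec w0 := Primrec.dom_finite _
  let s : Fin l0.length → H := fun i => ev x (w0 i)
  have hM : Submonoid.closure (Set.range s) = M := by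
    rw [← hl0]
    congr 1
    ext h
    exact ⟨fun ⟨i, hi⟩ => ⟨_, List.get_mem _ i, hi⟩, fun ⟨p, hp, e⟩ => by
      obtain ⟨i, rfl⟩ := List.get_of_mem hp
      exact ⟨i, e⟩⟩
  obtain ⟨C, c1, c2, c3⟩ := hs _ s
  obtain ⟨N, hN⟩ := fp s C c1 c2 c3
  have hR : {W : List (Fin l0.length × Bool) | Mono W ∧ W.length ≤ N ∧ ev s W = 1}.Finite :=
    (List.finite_length_le _ N).subset fun W h => h.2.1
  let R := hR.toFinset.toList
  have hR' : ∀ W, W ∈ R ↔ Mono W ∧ W.length ≤ N ∧ ev s W = 1 := by simp [R]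
  let yes : List (List (X × Bool) × List (Y × Bool)) → Prop := fun l => ∃ E : List (List ℕ),
    (∀ W ∈ R, ev y (W.flatMap fun q => bif q.2 then cG l (E.getD q.1 []) else
      invRev (cG l (E.getD q.1 []))) = ev y []) ∧
    ∀ p ∈ l, ∃ F : List (Fin l0.length), ev x p.1 = ev x (F.flatMap w0) ∧
      ev y p.2 = ev y (F.flatMap fun i : Fin l0.length => cG l (E.getD i []))
  let no : List (List (X × Bool) × List (Y × Bool)) → Prop := fun l => ∃ U : List ℕ × List ℕ,
    ev x (cH l U.1) = ev x (cH l U.2) ∧ ¬ ev y (cG l U.1) = ev y (cG l U.2)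
  have ryes : REPred yes := by
    apply re_ex
    apply re_and
    on_goal 2 =>
      refine re_all ?_ (by fun_prop)
      apply re_ex
      apply re_and
    on_goal 1 => refine re_all ?_ (by fun_prop)
    · refine re_eq hG (PR.flatMap' (by fun_prop) (PR.cond' (by fun_prop) (by fun_prop)
        (invRev_prim (by fun_prop)))) (by fun_prop)
    · exact re_eq hH (by fun_prop) (by fun_prop)
    · exact re_eq hG (by fun_prop) (by fun_prop)
  have rno : REPred no :=
    re_ex (re_and (re_eq hH (by fun_prop) (by fun_prop)) (re_ne hG' (by fun_prop) (by fun_prop)))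
  obtain ⟨f, hf, hf'⟩ := sep ryes rno
  refine ⟨f, hf, fun l hl => ?_⟩
  have hl' := (clo x l).trans hl
  have eH : ∀ U, ev x (cH l U) = (U.map fun k => ev x (l.getD k ([], [])).1).prod :=
    fun U => ev_flat _ _ U
  have eG : ∀ U, ev y (cG l U) = (U.map fun k => ev y (l.getD k ([], [])).2).prod :=
    fun U => ev_flat _ _ U
  have e1 := ext_iff _ (fun k => ev y (l.getD k ([], [])).2) M hl'
  have e2 : (∃ Φ : M →* G, ∀ p ∈ l, ∀ h : ev x p.1 ∈ M, Φ ⟨_, h⟩ = ev y p.2) ↔
      ∃ Φ : M →* G, ∀ i, ∀ h : ev x (l.getD i ([], [])).1 ∈ M,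
        Φ ⟨_, h⟩ = ev y (l.getD i ([], [])).2 := by
    refine exists_congr fun Φ => ⟨fun h k => ?_, fun h p hp => ?_⟩
    · by_cases hk : k < l.length
      · rw [List.getD_eq_getElem _ _ hk]; exact h _ (List.getElem_mem hk)
      · rw [List.getD_eq_default _ _ (not_lt.1 hk)]; exact fun _ => Φ.map_one
    · obtain ⟨k, hk, rfl⟩ := List.getElem_of_mem hp
      have := h k
      rwa [List.getD_eq_getElem _ _ hk] at this
  have n1 : no l ↔ ¬ ∃ Φ : M →* G, ∀ p ∈ l, ∀ h : ev x p.1 ∈ M, Φ ⟨_, h⟩ = ev y p.2 := by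
    rw [e2, e1]
    simp only [no, eH, eG, not_forall, Prod.exists, exists_prop]
  have sM : ∀ i, s i ∈ M := fun i => hM ▸ Submonoid.subset_closure ⟨i, rfl⟩
  have y1 : yes l ↔ ∃ Φ : M →* G, ∀ p ∈ l, ∀ h : ev x p.1 ∈ M, Φ ⟨_, h⟩ = ev y p.2 := by
    constructor
    · rintro ⟨E, a2, a3⟩
      have b1 := hN G (fun i => ev y (cG l (E.getD i []))) fun W m n e => by
        have := a2 W ((hR' W).2 ⟨m, n, e⟩)
        rwa [ev_flat' y (fun i : Fin l0.length => cG l (E.getD i []))] at this
      obtain ⟨Φ, hΦ⟩ := (ext_iff s (fun i => ev y (cG l (E.getD i []))) M hM).2 fun U V e => by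
        have := b1 _ (mono_rel U V) (by rw [ev_append, ev_invRev, ev_pos, ev_pos, e]; simp)
        rwa [ev_append, ev_invRev, ev_pos, ev_pos, mul_inv_eq_one] at this
      refine ⟨Φ, fun p hp h => ?_⟩
      obtain ⟨F, f1, f2⟩ := a3 p hp
      rw [ev_flat] at f1 f2
      rw [f2, ← hom_prod s _ M Φ sM (fun i => hΦ i _) F (f1 ▸ h)]
      congr 2
    · intro hh
      obtain ⟨Φ, hΦ⟩ := e2.1 hh
      have lM : ∀ k, ev x (l.getD k ([], [])).1 ∈ M := fun k =>
        hl' ▸ Submonoid.subset_closure ⟨k, rfl⟩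
      choose e he using fun i => ex_prod _ (hl'.symm ▸ sM i :
        s i ∈ Submonoid.closure (Set.range fun k => ev x (l.getD k ([], [])).1))
      have hE : ∀ i : Fin l0.length, (List.ofFn e).getD i [] = e i := fun i => by simp
      have k1 : ∀ i, Φ ⟨s i, sM i⟩ = ev y (cG l (e i)) := fun i => by
        rw [eG, ← hom_prod _ _ M Φ lM (fun k => hΦ k _) (e i) (by rw [he]; exact sM i)]
        congr 2
        exact (he i).symm
      have k2 := (ext_iff s (fun i => ev y (cG l (e i))) M hM).1 ⟨Φ, fun i _ => k1 i⟩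
      refine ⟨List.ofFn e, fun W hW => ?_, fun p hp => ?_⟩
      · simp only [hE]
        rw [ev_flat' y (fun i : Fin l0.length => cG l (e i))]
        obtain ⟨m, _, o⟩ := (hR' W).1 hW
        obtain ⟨U, V, rfl⟩ := mono_dec W m
        rw [ev_append, ev_invRev, ev_pos, ev_pos, mul_inv_eq_one] at o
        rw [ev_append, ev_invRev, ev_pos, ev_pos, k2 U V o]
        simp
      · obtain ⟨k, hk, rfl⟩ := List.getElem_of_mem hp
        rw [← List.getD_eq_getElem _ ([], []) hk]
        obtain ⟨F, hF⟩ := ex_prod s (hM.symm ▸ lM k)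
        refine ⟨F, by rw [ev_flat]; exact hF.symm, ?_⟩
        simp only [hE]
        rw [ev_flat, ← hom_prod s _ M Φ sM k1 F (by rw [hF]; exact lM k), ← hΦ k (lM k)]
        congr 2
        exact hF.symm
  obtain ⟨b, hb, b1, b2⟩ := hf' l (by rw [y1, n1]; exact em _)
  refine ⟨b, hb, fun h => y1.1 (b1 h), fun h => ?_⟩
  by_contra h'
  exact n1.1 (b2 (by simpa using h')) h

theorem ev_eq {σ H : Type} [Group H] (s : σ → H) (W : List (σ × Bool)) :
    FreeGroup.lift s (mk W) = ev s W := lift_mk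

theorem final {H G Y : Type} [Group H] [Group G] (N : Subgroup H) [N.FiniteIndex] [IsFreeGroup N]
    {a : ℕ} (x : Fin a → H) (hx : Subgroup.closure (Set.range x) = ⊤) (M : Submonoid H)
    [Primcodable Y] (y : Y → G) (hG : ComputablePred fun w => ev y w = 1) :
    ∃ f : List (List (Fin a × Bool) × List (Y × Bool)) →. Bool, Partrec f ∧
      ∀ l, Submonoid.closure {h | ∃ p ∈ l, ev x p.1 = h} = M → ∃ b ∈ f l,
        (b = true ↔ ∃ Φ : M →* G, ∀ p ∈ l, ∀ h : ev x p.1 ∈ M, Φ ⟨_, h⟩ = ev y p.2) := by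
  haveI : Group.FG H := Group.fg_iff.2 ⟨_, hx, Set.finite_range _⟩
  haveI : Group.FG (FreeGroup (IsFreeGroup.Generators N)) :=
    Group.fg_of_surjective (f := (IsFreeGroup.toFreeGroup N).toMonoidHom)
      (IsFreeGroup.toFreeGroup N).surjective
  haveI := fin_basis (IsFreeGroup.Generators N)
  let j := (IsFreeGroup.toFreeGroup N).trans (freeGroupCongr (Finite.equivFin _))
  obtain ⟨f, f1, f2⟩ := vf_wp N j x
  exact main x y ((re_prim f1).of_eq f2) hG.to_re hG.not.to_re (fun n s => vf_split N j s) M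

end Pool.Agent.H24.HomP
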