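import Pool.Agent.H24.Isol

set_option autoImplicit false

namespace Pool.Agent.H24.Hur
open Finset

variable {V C : Type} [Fintype V] [Fintype C] [DecidableEq V] [DecidableEq C]

inductive W (ok : V × C × V → Prop) : V → List (V × C × V) → V → Prop
  | nil (u : V) : W ok u [] u
  | cons {u v w : V} {c : C} {l : List (V × C × V)} : ok (u, c, v) → W ok v l w →
      W ok u ((u, c, v) :: l) w

variable {ok : V × C × V → Prop}

theorem W.app {u v w : V} {l l' : List (V × C × V)} (h : W ok u l v) (h' : W ok v l' w) :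
    W ok u (l ++ l') w := by
  induction h with
  | nil => exact h'
  | cons h _ ih => exact .cons h (ih h')

theorem W.split {u w : V} {l l' : List (V × C × V)} (h : W ok u (l ++ l') w) :
    ∃ v, W ok u l v ∧ W ok v l' w := by
  induction l generalizing u with
  | nil => exact ⟨u, .nil u, h⟩
  | cons e l ih =>
    cases h with
    | cons h1 h2 => obtain ⟨v, a, b⟩ := ih h2; exact ⟨v, .cons h1 a, b⟩

theorem W.at {u w : V} {l : List (V × C × V)} (h : W ok u l w) {x : V}
    (hx : x = w ∨ ∃ e ∈ l, e.1 = x) : ∃ l1 l2, l = l1 ++ l2 ∧ W ok u l1 x ∧ W ok x l2 w := by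
  rcases hx with rfl | ⟨e, he, rfl⟩
  · exact ⟨l, [], by simp, h, .nil _⟩
  · obtain ⟨l1, l2, rfl⟩ := List.append_of_mem he
    obtain ⟨v, a, b⟩ := h.split
    cases b with
    | cons b1 b2 => exact ⟨l1, _, rfl, a, .cons b1 b2⟩

theorem W.all {u w : V} {l : List (V × C × V)} (h : W ok u l w) : ∀ e ∈ l, ok e := by
  induction h with
  | nil => simp
  | cons h _ ih => exact List.forall_mem_cons.2 ⟨h, ih⟩

theorem W.short {u w : V} {l : List (V × C × V)} (h : W ok u l w) :
    ∃ l', W ok u l' w ∧ l'.length < Fintype.card V := by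
  suffices ∃ l', W ok u l' w ∧ (w :: l'.map Prod.fst).Nodup by
    obtain ⟨l', a, b⟩ := this
    exact ⟨l', a, by simpa using b.length_le_card⟩
  induction h with
  | nil => exact ⟨[], .nil _, by simp⟩
  | @cons u v w c l h _ ih =>
    obtain ⟨l', a, b⟩ := ih
    by_cases hu : u = w ∨ ∃ e ∈ l', e.1 = u
    · obtain ⟨l1, l2, rfl, -, d⟩ := a.at hu
      exact ⟨l2, d, b.sublist (by simp)⟩
    · push Not at hu
      refine ⟨_, .cons h a, ?_⟩
      simp only [List.map_cons, List.nodup_cons, List.mem_cons, List.mem_map, not_or,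
        not_exists, not_and] at b ⊢
      exact ⟨⟨hu.1.symm, b.1⟩, hu.2, b.2⟩

theorem cover (h : ∀ u w, ∃ l, W ok u l w) (u w : V) (xs : List V) : ∃ l, W ok u l w ∧
    (∀ x ∈ xs, x = w ∨ ∃ e ∈ l, e.1 = x) ∧ l.length ≤ (2 * xs.length + 1) * Fintype.card V := by
  induction xs with
  | nil => obtain ⟨l, a⟩ := h u w; obtain ⟨l, a, b⟩ := a.short; exact ⟨l, a, by simp, by simp; omega⟩
  | cons x xs ih =>
    obtain ⟨l, a, b, c⟩ := ih
    obtain ⟨p, p1⟩ := h u x
    obtain ⟨p, p1, p2⟩ := p1.short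
    obtain ⟨q, q1⟩ := h x u
    obtain ⟨q, q1, q2⟩ := q1.short
    refine ⟨p ++ (q ++ l), p1.app (q1.app a), List.forall_mem_cons.2 ⟨?_, fun y hy => ?_⟩, ?_⟩
    · have := q1.app a
      generalize q ++ l = r at this
      cases this with
      | nil => exact .inl rfl
      | cons => exact .inr ⟨_, List.mem_append_right _ List.mem_cons_self, rfl⟩
    · exact (b y hy).imp_right fun ⟨e, h1, h2⟩ => ⟨e, by simp [h1], h2⟩
    · simp only [List.length_append, List.length_cons]; nlinarith

def bd (u w : V) : V → ℤ := Pi.single u 1 - Pi.single w 1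
def cnt (l : List (V × C × V)) : V × C × V → ℤ := fun e => l.count e

theorem cnt_cons (e : V × C × V) (l : List (V × C × V)) : cnt (e :: l) = Pi.single e 1 + cnt l := by
  ext e'
  by_cases h : e' = e
  · simp [cnt, h, add_comm]
  · simp [cnt, h, List.count_cons_of_ne (Ne.symm h)]

theorem cnt_app (l l' : List (V × C × V)) : cnt (l ++ l') = cnt l + cnt l' := by ext; simp [cnt]

theorem sum_cnt {M : Type} [AddCommGroup M] (l : List (V × C × V)) (f : V × C × V → M) :
    ∑ e, cnt l e • f e = (l.map f).sum := by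
  induction l with
  | nil => simp [cnt]
  | cons e l ih => simp [cnt_cons, add_smul, sum_add_distrib, ih, Pi.single_apply, ite_smul]

theorem W.bd {u w : V} {l : List (V × C × V)} (h : W ok u l w) :
    ∑ e, cnt l e • bd e.1 e.2.2 = bd u w := by
  rw [sum_cnt]
  induction h with
  | nil => simp [Hur.bd]
  | cons _ _ ih => rw [List.map_cons, List.sum_cons, ih]; simp [Hur.bd]

theorem path (k : ℕ) : ∀ (h : V × C × V → ℤ) (u w : V), 0 ≤ h → (∀ e, 0 < h e → ok e) →
    ∑ e, h e ≤ k → ∑ e, h e • bd e.1 e.2.2 = bd u w → ∃ l, W ok u l w ∧ cnt l ≤ h := by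
  induction k with
  | zero =>
    intro h u w h0 _ h2 h3
    obtain rfl : h = 0 := funext fun e => (sum_eq_zero_iff_of_nonneg fun e _ => h0 e).1
      (le_antisymm h2 (sum_nonneg fun e _ => h0 e)) e (mem_univ _)
    obtain rfl : u = w := by
      by_contra hne; simpa [bd, hne] using congrFun h3 u
    exact ⟨[], .nil _, fun e => by simp [cnt]⟩
  | succ k ih =>
    intro h u w h0 h1 h2 h3
    by_cases hne : u = w
    · subst hne; exact ⟨[], .nil _, fun e => by simpa [cnt] using h0 e⟩
    obtain ⟨⟨u', c, v⟩, he, rfl⟩ : ∃ e, 0 < h e ∧ e.1 = u := by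
      by_contra hc
      push Not at hc
      have := congrFun h3 u
      rw [Finset.sum_apply] at this
      have h4 : ∑ e, (h e • bd e.1 e.2.2) u ≤ 0 := sum_nonpos fun e _ => by
        rcases (h0 e).lt_or_eq with h5 | h5
        · have h7 : 0 ≤ h e := h0 e
          simp only [bd, Pi.smul_apply, Pi.sub_apply, Pi.single_apply, (hc e h5).symm, if_false,
            smul_eq_mul]
          split_ifs <;> simp [h7]
        · simp [← h5]
      rw [this] at h4
      simp [bd, hne] at h4
    obtain ⟨l, a, b⟩ := ih (h - Pi.single (u', c, v) 1) v w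
      (fun e => by by_cases h5 : e = (u', c, v) <;> simp [h5]; exacts [he, h0 e])
      (fun e h5 => h1 e (by by_cases h6 : e = (u', c, v) <;> simp_all))
      (by simp only [Pi.sub_apply, sum_sub_distrib, sum_pi_single', mem_univ, if_true]; omega)
      (by simp only [Pi.sub_apply, sub_smul, sum_sub_distrib, h3]
          simp [Pi.single_apply, ite_smul, bd])
    exact ⟨_, .cons (h1 _ he) a, by rw [cnt_cons]; exact le_sub_iff_add_le'.1 b⟩

theorem ins (k : ℕ) : ∀ (h : V × C × V → ℤ) (u w : V) (l : List (V × C × V)), 0 ≤ h →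
    (∀ e, 0 < h e → ok e) → ∑ e, h e ≤ k → ∑ e, h e • bd e.1 e.2.2 = 0 → W ok u l w →
    (∀ x, x = w ∨ ∃ e ∈ l, e.1 = x) → ∃ l', W ok u l' w ∧ cnt l' = cnt l + h := by
  induction k with
  | zero =>
    intro h u w l h0 _ h2 _ a _
    obtain rfl : h = 0 := funext fun e => (sum_eq_zero_iff_of_nonneg fun e _ => h0 e).1
      (le_antisymm h2 (sum_nonneg fun e _ => h0 e)) e (mem_univ _)
    exact ⟨l, a, by simp⟩
  | succ k ih =>
    intro h u w l h0 h1 h2 h3 a b
    by_cases hz : h = 0
    · exact ⟨l, a, by simp [hz]⟩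
    obtain ⟨⟨x, c, v⟩, he⟩ : ∃ e, 0 < h e := by
      by_contra hc
      push Not at hc
      exact hz (funext fun e => le_antisymm (hc e) (h0 e))
    obtain ⟨p, p1, p2⟩ := path (k + 1) (h - Pi.single (x, c, v) 1) v x
      (fun e => by by_cases h5 : e = (x, c, v) <;> simp [h5]; exacts [he, h0 e])
      (fun e h5 => h1 e (by by_cases h6 : e = (x, c, v) <;> simp_all))
      (by simp only [Pi.sub_apply, sum_sub_distrib, sum_pi_single', mem_univ, if_true]; omega)
      (by simp only [Pi.sub_apply, sub_smul, sum_sub_distrib, h3]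
          simp [Pi.single_apply, ite_smul, bd])
    have q := W.cons (h1 _ he) p1
    obtain ⟨l1, l2, rfl, a1, a2⟩ := a.at (b x)
    have c0 : ∀ l : List (V × C × V), 0 ≤ cnt l := fun l e => by simp [cnt]
    obtain ⟨l', r1, r2⟩ := ih (h - cnt ((x, c, v) :: p)) u w _
      (by rw [cnt_cons, ← sub_sub]; exact sub_nonneg.2 p2)
      (fun e h5 => h1 e (h5.trans_le (sub_le_self _ (c0 _ e))))
      (by have := sum_nonneg fun e (_ : e ∈ univ) => c0 p e
          simp only [cnt_cons, Pi.sub_apply, Pi.add_apply, sum_sub_distrib, sum_add_distrib,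
            sum_pi_single', mem_univ, if_true] at this ⊢
          omega)
      (by simp only [Pi.sub_apply, sub_smul, sum_sub_distrib, h3, q.bd]; simp [bd])
      (a1.app (q.app a2)) fun y => (b y).imp_right fun ⟨e, h1, h2⟩ => ⟨e, by
        simp only [List.mem_append] at h1 ⊢; tauto, h2⟩
    exact ⟨l', r1, by rw [r2]; simp only [cnt_app]; abel⟩

/-- a large multiple of a positive circulation is the colour vector of walks between all pairs -/
theorem main [DecidablePred ok] (α : C → ℕ)
    (hα : ∀ u w, ∃ l, W ok u l w ∧ ∀ c, (l.map fun e => e.2.1).count c = α c)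
    (f : V × C × V → ℤ) (f1 : ∀ e, ok e → 1 ≤ f e) (f0 : ∀ e, ¬ok e → f e = 0)
    (f2 : ∑ e, f e • bd e.1 e.2.2 = 0) (K : ℕ) (h1 : Fintype.card (V ⊕ C) ≤ K)
    (h2 : Fintype.card (V × C × V) ≤ K) (hK : 1 ≤ K) (u w : V) : ∃ l, W ok u l w ∧ ∀ c,
      ((l.map fun e => e.2.1).count c : ℤ) = ((K : ℤ) ^ K * K ^ K +
        K ^ K * (K * (1 + K * (K ^ K * K ^ K))) ^ K + 3 * K * K) * ∑ x, ∑ y, f (x, c, y) := by
  have col : ∀ (l : List (V × C × V)) c,
      ((l.map fun e => e.2.1).count c : ℤ) = ∑ x, ∑ y, cnt l (x, c, y) := fun l c => by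
    induction l with
    | nil => simp [cnt]
    | cons e l ih =>
      obtain ⟨x, d, y⟩ := e
      simp only [List.map_cons, List.count_cons, Nat.cast_add, ih, cnt_cons, Pi.add_apply,
        sum_add_distrib, Pi.single_apply, Prod.mk.injEq]
      by_cases h : d = c
      · simp [h, ite_and, add_comm]
      · simp [h, Ne.symm h]
  let a : V × C × V → V ⊕ C → ℤ := fun e =>
    if ok e then Sum.elim (bd e.1 e.2.2) (Pi.single e.2.1 1) else 0
  have sa : ∀ g : V × C × V → ℤ, (∀ e, ¬ok e → g e = 0) → ∑ e, g e • a e =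
      Sum.elim (∑ e, g e • bd e.1 e.2.2) fun c => ∑ x, ∑ y, g (x, c, y) := fun g hg => by
    rw [sum_congr rfl (g := fun e => g e • Sum.elim (bd e.1 e.2.2) (Pi.single e.2.1 1))
      fun e _ => by by_cases h : ok e <;> simp [a, h, hg]]
    ext (x | c)
    · simp
    · simp [Fintype.sum_prod_type, Pi.single_apply]
      exact sum_congr rfl fun x _ => by rw [sum_comm]; simp
  have hb : ∀ u w x : V, |bd u w x| ≤ 1 := fun u w x => by
    simp only [bd, Pi.sub_apply, Pi.single_apply]; split_ifs <;> simp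
  have c0 : ∀ {u w l}, W ok u l w → ∀ e, ¬ok e → cnt l e = 0 := fun h e he => by
    simp [cnt, List.count_eq_zero.2 fun h' => he (h.all e h')]
  obtain ⟨l1, a1, b1⟩ := hα u w
  obtain ⟨l2, a2, b2⟩ := hα u u
  obtain ⟨g, g1, g2⟩ := Isol.small a (Sum.elim (bd u w) 0) (fun e i => by
      simp only [a]; split_ifs
      · rcases i with x | c
        · exact hb _ _ _
        · simp only [Sum.elim_inr, Pi.single_apply]; split_ifs <;> simp
      · simp) (by rintro (x | c); exacts [hb _ _ _, by simp]) K h1 h2 hK (cnt l1 - cnt l2) (by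
    simp only [Pi.sub_apply, sub_smul, sum_sub_distrib, sa _ (c0 a1), sa _ (c0 a2), a1.bd, a2.bd,
      ← col, b1, b2]
    ext (x | c) <;> simp [bd])
  obtain ⟨l0, a0, b0, d0⟩ := cover (fun u w => (hα u w).imp fun _ h => h.1) u w univ.toList
  generalize (K : ℤ) ^ K * K ^ K + K ^ K * (K * (1 + K * (K ^ K * K ^ K))) ^ K = N at g2 ⊢
  let g' : V × C × V → ℤ := fun e => if ok e then g e else 0
  have g3 : ∑ e, g' e • a e = Sum.elim (bd u w) 0 := by
    rw [← g1]; exact sum_congr rfl fun e _ => by by_cases h : ok e <;> simp [g', a, h]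
  rw [sa _ fun e h => by simp [g', h]] at g3
  have g4 : ∑ e, g' e • bd e.1 e.2.2 = bd u w := funext fun x => congrFun g3 (.inl x)
  have g5 : ∀ c, ∑ x, ∑ y, g' (x, c, y) = 0 := fun c => congrFun g3 (.inr c)
  have d1 : ∀ e, cnt l0 e ≤ 3 * K * K := fun e => by
    have := List.count_le_length (a := e) (l := l0)
    simp only [length_toList, card_univ, Fintype.card_sum] at d0 h1
    have : l0.count e ≤ 3 * K * K := by nlinarith
    unfold cnt; exact_mod_cast this
  have nn : 0 ≤ g' + (N + 3 * K * K) • f - cnt l0 := fun e => by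
    by_cases h : ok e
    · have := abs_le.1 (g2 e); have := f1 e h; have := d1 e
      simp only [g', h, if_true, Pi.sub_apply, Pi.add_apply, Pi.smul_apply, smul_eq_mul,
        Pi.zero_apply]
      have := le_mul_of_one_le_right (show 0 ≤ N + 3 * K * K by
        have := (abs_nonneg _).trans (g2 e); positivity) (f1 e h)
      linarith
    · simp [g', h, f0 e h, c0 a0 e h]
  obtain ⟨l, r1, r2⟩ := ins (∑ e, (g' + (N + 3 * K * K) • f - cnt l0) e).toNat _ u w l0 nn
    (fun e h => by by_contra h'; simp [g', h', f0 e h', c0 a0 e h'] at h) (Int.self_le_toNat _)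
    (by simp only [Pi.sub_apply, Pi.add_apply, Pi.smul_apply, sub_smul, add_smul, sum_sub_distrib,
          sum_add_distrib, g4, a0.bd, smul_assoc, ← smul_sum, f2]; simp)
    a0 fun x => b0 x (by simp)
  refine ⟨l, r1, fun c => ?_⟩
  rw [col, r2, add_sub_cancel]
  simp only [Pi.add_apply, Pi.smul_apply, smul_eq_mul, sum_add_distrib, g5,
    ← mul_sum, zero_add]

end Pool.Agent.H24.Hur
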