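import Mathlib

set_option autoImplicit false

namespace Pool.Agent.H24.Par
open Matrix Finset

variable {n k : ℕ}

/-- Gram determinant -/
noncomputable def Gm (w w' : Fin k → Fin n → ℝ) : ℝ := (of fun a b => w a ⬝ᵥ w' b).det

theorem Gm_comm (w w' : Fin k → Fin n → ℝ) : Gm w w' = Gm w' w := by
  rw [Gm, ← det_transpose]; congr 1; ext a b; simp [dotProduct_comm]

theorem Gm_lin (w : Fin k → Fin n → ℝ) (y : Fin n → ℝ) :
    ∃ ω : Fin n → ℝ, ∀ x, Gm (Fin.cons x w) (Fin.cons y w) = x ⬝ᵥ ω := by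
  refine ⟨∑ j : Fin (k + 1), ((-1) ^ (j : ℕ) * (of fun a b => w a ⬝ᵥ
    (Fin.cons y w : Fin (k + 1) → Fin n → ℝ) (j.succAbove b)).det) •
      (Fin.cons y w : Fin (k + 1) → Fin n → ℝ) j, fun x => ?_⟩
  rw [Gm, det_succ_row_zero, dotProduct_sum]
  refine sum_congr rfl fun j _ => ?_
  rw [dotProduct_smul, smul_eq_mul, mul_right_comm]
  rfl

theorem Gm_pos {w : Fin k → Fin n → ℝ} (h : LinearIndependent ℝ w) : 0 < Gm w w := by
  have := (PosDef.mul_conjTranspose_self (of w) (vecMul_injective_iff.2 h)).det_pos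
  exact this

theorem quad (Q : Fin n → Fin n → ℝ) (I : Fin n → Prop) (h0 : ∀ i j, I i ∨ I j → Q i j = 0)
    (h1 : ∀ i j, ¬I i → ¬I j → i ≠ j → 2 * |Q i j| < Q i i + Q j j) (l : Fin n) (hl : 0 < Q l l)
    (hd : ∀ i, 0 ≤ Q i i) (u : Fin n → ℝ) (hu : ∑ i, |u i| ≤ 1)
    (h2 : ∀ l, Q l l ≤ ∑ i, ∑ j, u i * u j * Q i j) :
    ∃ j s, ¬I j ∧ s ^ 2 = 1 ∧ u = Pi.single j s := by
  obtain ⟨m, -, hm⟩ := exists_max_image univ (fun i => Q i i) ⟨l, mem_univ _⟩
  simp only [mem_univ, true_imp_iff] at hm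
  have mp : 0 < Q m m := hl.trans_le (hm l)
  have hlt : ∀ i j, i ≠ j ∨ I i → |Q i j| < Q m m := fun i j h => by
    by_cases hi : I i
    · rw [h0 i j (.inl hi)]; simpa
    by_cases hj : I j
    · rw [h0 i j (.inr hj)]; simpa
    have := h1 i j hi hj (h.resolve_right hi); have := hm i; have := hm j; linarith
  have hle : ∀ i j, |Q i j| ≤ Q m m := fun i j => by
    by_cases h : i = j
    · subst h; rw [abs_of_nonneg (hd i)]; exact hm i
    · exact (hlt i j (.inl h)).le
  have key : ∀ i j, u i * u j * Q i j ≤ |u i| * |u j| * |Q i j| := fun i j => by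
    rw [← abs_mul, ← abs_mul]; exact le_abs_self _
  have e : ∑ i, ∑ j, (|u i| * |u j| * Q m m - u i * u j * Q i j) =
      (∑ i, |u i|) ^ 2 * Q m m - ∑ i, ∑ j, u i * u j * Q i j := by
    rw [sq, sum_mul_sum]; simp only [sum_sub_distrib, sum_mul]
  have nn : ∀ i j, 0 ≤ |u i| * |u j| * Q m m - u i * u j * Q i j := fun i j => by
    have := key i j
    have := mul_le_mul_of_nonneg_left (hle i j) (show 0 ≤ |u i| * |u j| by positivity)
    linarith
  have s0 : 0 ≤ ∑ i, |u i| := sum_nonneg fun _ _ => abs_nonneg _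
  have s1 : 0 ≤ ∑ i, ∑ j, (|u i| * |u j| * Q m m - u i * u j * Q i j) :=
    sum_nonneg fun i _ => sum_nonneg fun j _ => nn i j
  have h3 := h2 m
  have s2 : ∑ i, |u i| = 1 := by
    refine le_antisymm hu (not_lt.1 fun h => ?_)
    have : (∑ i, |u i|) ^ 2 < 1 := by nlinarith
    nlinarith
  have z : ∀ i j, i ≠ j ∨ I i → u i * u j = 0 := fun i j h => by
    have z0 : ∑ i, ∑ j, (|u i| * |u j| * Q m m - u i * u j * Q i j) = 0 := by
      rw [e, s2] at s1 ⊢; linarith
    have := (sum_eq_zero_iff_of_nonneg fun j _ => nn i j).1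
      ((sum_eq_zero_iff_of_nonneg fun i _ => sum_nonneg fun j _ => nn i j).1 z0 i (mem_univ _)) j
      (mem_univ _)
    by_contra hne
    have hp : 0 < |u i| * |u j| := by rw [← abs_mul]; exact abs_pos.2 hne
    have := key i j
    have := mul_lt_mul_of_pos_left (hlt i j h) hp
    linarith
  obtain ⟨j, -, hj⟩ := exists_ne_zero_of_sum_ne_zero (s2.trans_ne one_ne_zero)
  have hj' : u j ≠ 0 := by simpa using hj
  have eu : u = Pi.single j (u j) := by
    ext i
    by_cases h : i = j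
    · simp [h]
    · simp [h, (mul_eq_zero.1 (z i j (.inl h))).resolve_right hj']
  refine ⟨j, u j, fun h => hj' (by simpa using z j j (.inr h)), ?_, eu⟩
  rw [sum_eq_single j (fun i _ h => by rw [eu]; simp [h]) (by simp)] at s2
  rw [← sq_abs, s2]; simp

/-- the chosen vectors are, up to sign, distinct rows of `N` -/
def Inv (N : Matrix (Fin n) (Fin n) ℝ) (w : Fin k → Fin n → ℝ) : Prop :=
  ∃ σ : Fin k → Fin n, σ.Injective ∧ ∀ a, ∃ s : ℝ, s ^ 2 = 1 ∧ w a = Pi.single (σ a) s ᵥ* N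

theorem step {N : Matrix (Fin n) (Fin n) ℝ} (hN : IsUnit N.det) {w : Fin k → Fin n → ℝ}
    (h : Inv N w) (hk : k < n) (u : Fin n → ℝ) (hu : ∑ i, |u i| ≤ 1)
    (hm : ∀ l, Gm (Fin.cons (N l) w) (Fin.cons (N l) w) ≤
      Gm (Fin.cons (u ᵥ* N) w) (Fin.cons (u ᵥ* N) w)) : Inv N (Fin.cons (u ᵥ* N) w) := by
  obtain ⟨σ, hσ, h⟩ := h
  choose s hs hw using h
  have s0 : ∀ a, s a ≠ 0 := fun a h => by simpa [h] using hs a
  let B : (Fin n → ℝ) → (Fin n → ℝ) → ℝ := fun x y => Gm (Fin.cons x w) (Fin.cons y w)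
  have lin : ∀ (t : Fin n → ℝ) y, B (t ᵥ* N) y = ∑ i, t i * B (N i) y := fun t y => by
    obtain ⟨ω, e⟩ := Gm_lin w y
    simp only [B, e, ← dotProduct_mulVec]; rfl
  have ex : ∀ t : Fin n → ℝ, B (t ᵥ* N) (t ᵥ* N) = ∑ i, ∑ j, t i * t j * B (N i) (N j) := fun t => by
    rw [lin]
    refine sum_congr rfl fun i _ => ?_
    rw [show B (N i) (t ᵥ* N) = B (t ᵥ* N) (N i) from Gm_comm _ _, lin, mul_sum]
    exact sum_congr rfl fun j _ => by rw [show B (N j) (N i) = B (N i) (N j) from Gm_comm _ _]; ring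
  have pos : ∀ (t : Fin n → ℝ) i, i ∉ Set.range σ → t i ≠ 0 → 0 < B (t ᵥ* N) (t ᵥ* N) := by
    intro t i hi ht
    refine Gm_pos (Fintype.linearIndependent_iff.2 fun c hc => ?_)
    have h1 : c 0 • t + ∑ a, c a.succ • (Pi.single (σ a) (s a) : Fin n → ℝ) = 0 := by
      refine vecMul_injective_iff_isUnit.2 ((isUnit_iff_isUnit_det N).2 hN) ?_
      simpa [Fin.sum_univ_succ, hw, add_vecMul, sum_vecMul, smul_vecMul] using hc
    have h2 : c 0 = 0 := by
      have := congrFun h1 i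
      simp only [Pi.add_apply, Pi.smul_apply, Finset.sum_apply, smul_eq_mul, Pi.zero_apply] at this
      rw [sum_eq_zero fun a _ => by rw [Pi.single_eq_of_ne fun e => hi ⟨a, e.symm⟩, mul_zero]] at this
      simpa [ht] using this
    refine Fin.cases h2 fun a => ?_
    have := congrFun h1 (σ a)
    simp only [Pi.add_apply, Pi.smul_apply, Finset.sum_apply, smul_eq_mul, Pi.zero_apply] at this
    rw [sum_eq_single a (fun b _ e => by rw [Pi.single_eq_of_ne fun e' => e (hσ e').symm, mul_zero])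
      (by simp)] at this
    simpa [h2, s0] using this
  have z : ∀ i y, i ∈ Set.range σ → B (N i) y = 0 := by
    rintro _ y ⟨a, rfl⟩
    have h1 : B (w a) y = 0 := det_zero_of_row_eq (i := 0) (j := a.succ) (Fin.succ_ne_zero a).symm rfl
    rw [hw, lin, sum_eq_single (σ a) (fun b _ e => by simp [e]) (by simp)] at h1
    simpa [s0] using h1
  have one : ∀ i, i ∉ Set.range σ → 0 < B (N i) (N i) := fun i hi => by
    have := pos (Pi.single i 1) i hi (by simp)
    rwa [single_one_vecMul] at this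
  obtain ⟨l, hl⟩ : ∃ l, l ∉ Set.range σ := by
    by_contra hc
    push Not at hc
    have := Fintype.card_le_of_surjective σ hc
    simp at this; omega
  obtain ⟨j, t, hj, ht, rfl⟩ := quad (fun i j => B (N i) (N j)) (· ∈ Set.range σ)
    (fun i j h => h.elim (z i _) fun h => (Gm_comm _ _).trans (z j _ h)) (fun i j hi hj hne => by
      have two : ∀ e : ℝ, 0 < B (N i) (N i) + 2 * e * B (N i) (N j) + e * e * B (N j) (N j) := by
        intro e
        have := pos (Pi.single i 1 + Pi.single j e) i hi (by simp [hne])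
        rw [ex] at this
        simp only [Pi.add_apply, add_mul, mul_add, sum_add_distrib, Pi.single_apply, ite_mul,
          mul_ite, zero_mul, mul_zero, sum_ite_eq', mem_univ, if_true, sum_ite_irrel,
          sum_const_zero] at this
        rw [show B (N j) (N i) = B (N i) (N j) from Gm_comm _ _] at this
        linarith
      have := two 1; have := two (-1)
      cases abs_cases (B (N i) (N j)) <;> linarith) l (one l hl)
    (fun i => by by_cases h : i ∈ Set.range σ; exacts [(z i _ h).ge, (one i h).le]) u hu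
    fun l => (hm l).trans_eq (ex u)
  refine ⟨Fin.cons j σ, Fin.cons_injective_iff.2 ⟨hj, hσ⟩, Fin.cases ⟨t, ht, rfl⟩ fun a => ⟨s a, hs a, hw a⟩⟩

theorem fin {N : Matrix (Fin n) (Fin n) ℝ} {w : Fin n → Fin n → ℝ} (h : Inv N w) :
    Gm w w = N.det ^ 2 := by
  obtain ⟨σ, hσ, h⟩ := h
  choose s hs hw using h
  let S : Matrix (Fin n) (Fin n) ℝ := of fun a => Pi.single (σ a) (s a)
  have e : of w = S * N := by ext a j; rw [of_apply, hw]; rfl
  have e1 : S * Sᵀ = 1 := by
    ext a b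
    rw [mul_apply, sum_eq_single (σ a) (fun i _ h => by simp [S, h]) (by simp)]
    by_cases h : a = b
    · subst h; simp [S, ← sq, hs]
    · simp [S, h, hσ.eq_iff]
  have e2 := congrArg det e1
  rw [show Gm w w = (of w * (of w)ᵀ).det from rfl, det_mul, det_transpose, e, det_mul]
  rw [det_mul, det_transpose, det_one] at e2
  linear_combination N.det ^ 2 * e2

/-- a facet of the cube occurs among any finite system of inequalities that defines the cube -/
theorem facet {ι : Type} (R : List ι) (g : ι → Fin n → ℝ) (γ : ι → ℝ)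
    (h : ∀ y : Fin n → ℝ, (∀ i, y i ∈ Set.Icc (0 : ℝ) 1) ↔ ∀ r ∈ R, g r ⬝ᵥ y ≤ γ r) (i : Fin n)
    (p : ℝ) (hp : p = 0 ∨ p = 1) :
    ∃ r ∈ R, ∃ t, 0 < (2 * p - 1) * t ∧ g r = Pi.single i t ∧ γ r = t * p := by
  let z : Fin n → ℝ := Function.update (fun _ => 1 / 2) i p
  have hz : ∀ j (e : ℝ), j ≠ i → |e| ≤ 1 / 2 → ∀ r ∈ R, g r ⬝ᵥ (z + Pi.single j e) ≤ γ r := by
    intro j e hj he
    refine (h _).1 fun a => ?_
    rw [abs_le] at he
    by_cases h1 : a = i
    · rcases hp with rfl | rfl <;> simp [z, h1, hj.symm]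
    by_cases h2 : a = j
    · subst h2; simp only [z, Pi.add_apply, Function.update_of_ne h1, Pi.single_eq_same]
      constructor <;> linarith
    · simp [z, h1, h2]; norm_num
  have hz0 : ∀ r ∈ R, g r ⬝ᵥ z ≤ γ r := (h _).1 fun a => by
    by_cases h1 : a = i
    · rcases hp with rfl | rfl <;> simp [z, h1]
    · simp [z, h1]; norm_num
  obtain ⟨r, hr, h1, h2⟩ : ∃ r ∈ R, g r ⬝ᵥ z = γ r ∧ 0 < (2 * p - 1) * g r i := by
    by_contra hc
    push Not at hc
    have : ∀ᶠ δ in nhdsWithin (0 : ℝ) (Set.Ioi 0), ∀ r ∈ {r | r ∈ R},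
        g r ⬝ᵥ z + δ * ((2 * p - 1) * g r i) ≤ γ r := by
      refine (Filter.eventually_all_finite R.finite_toSet).2 fun r hr => ?_
      rcases (hz0 r hr).lt_or_eq with h | h
      · refine nhdsWithin_le_nhds (Filter.Eventually.mono (ContinuousAt.eventually_lt
          (f := fun δ => g r ⬝ᵥ z + δ * ((2 * p - 1) * g r i)) (g := fun _ => γ r) (by fun_prop)
          (by fun_prop) (by simpa)) fun _ => le_of_lt)
      · filter_upwards [self_mem_nhdsWithin] with δ hδ
        have := mul_nonpos_of_nonneg_of_nonpos (le_of_lt hδ) (hc r hr h)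
        linarith
    obtain ⟨δ, h1, h2⟩ := (this.and self_mem_nhdsWithin).exists
    have := (h (z + Pi.single i (δ * (2 * p - 1)))).2 (fun r hr => by
      have := h1 r hr
      rw [dotProduct_add, dotProduct_single]; linarith) i
    simp only [z, Pi.add_apply, Function.update_self, Pi.single_eq_same, Set.mem_Icc] at this
    have : 0 < δ := h2
    rcases hp with rfl | rfl <;> linarith
  have e : g r = Pi.single i (g r i) := by
    ext j
    by_cases hj : j = i
    · simp [hj]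
    have a1 := hz j (1 / 2) hj (by norm_num [abs_le]) r hr
    have a2 := hz j (-(1 / 2)) hj (by norm_num [abs_le]) r hr
    rw [dotProduct_add, dotProduct_single] at a1 a2
    rw [Pi.single_eq_of_ne hj]; linarith
  refine ⟨r, hr, g r i, h2, e, ?_⟩
  rw [← h1, e]; simp [z]

theorem width {g g' : Fin n → ℝ} {γ γ' A D : ℝ} (hA : 0 ≤ A) (hD : 0 ≤ D)
    (h : ∀ y : Fin n → ℝ, (∀ i, y i ∈ Set.Icc (0 : ℝ) 1) → g ⬝ᵥ y ≤ γ ∧ g' ⬝ᵥ y ≤ γ')
    (e : A • g' = -(D • g)) : D * ∑ i, |g i| ≤ γ * D + γ' * A := by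
  have h1 := (h (fun i => if 0 ≤ g i then 1 else 0) fun i => by split_ifs <;> simp).1
  have h2 := (h (fun i => if 0 ≤ g i then 0 else 1) fun i => by split_ifs <;> simp).2
  have h3 := congrArg (· ⬝ᵥ fun i => if 0 ≤ g i then (0 : ℝ) else 1) e
  simp only [smul_dotProduct, neg_dotProduct, smul_eq_mul] at h3
  have h4 : ∑ i, |g i| = (g ⬝ᵥ fun i => if 0 ≤ g i then 1 else 0) -
      (g ⬝ᵥ fun i => if 0 ≤ g i then 0 else 1) := by
    simp only [dotProduct, ← sum_sub_distrib]
    refine sum_congr rfl fun i _ => ?_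
    split_ifs with h
    · simp [abs_of_nonneg h]
    · simp [abs_of_neg (not_le.1 h)]
  rw [h4]
  nlinarith [mul_le_mul_of_nonneg_left h1 hD, mul_le_mul_of_nonneg_left h2 hA]

end Pool.Agent.H24.Par
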