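import Pool.Agent.H24.ParDefs
import Pool.Agent.H24.Par1
import Pool.Agent.H24.Gd1

set_option autoImplicit false

namespace Pool.Agent.H24.Par
open Pool.Agent.H11.PT Pool.Agent.H24.Bz Pool.Agent.H24.Gd Matrix

abbrev Row := List ℤ × ℤ

def clr (l : List ℚ) (i : ℕ) : ℤ := (l.getD i 0).num *
  ((List.range l.length).map fun j => if j = i then (1 : ℤ) else ((l.getD j 0).den : ℤ)).prod
def ir (n : ℕ) (r : List ℚ × ℚ) : Row :=
  ((List.range n).map fun j => clr (r.2 :: r.1) (j + 1), clr (r.2 :: r.1) 0)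
def dot (n : ℕ) (a b : List ℤ) : ℤ := ((List.range n).map fun j => a.getD j 0 * b.getD j 0).sum
def ap (n : ℕ) (p : Row × Row) : Bool := decide (dot n p.1.1 p.2.1 < 0) && (List.range n).all
  fun j => dot n p.1.1 p.1.1 * p.2.1.getD j 0 == dot n p.1.1 p.2.1 * p.1.1.getD j 0
def cv (n : ℕ) (p : Row × Row) : Row := (p.1.1.map fun z => z * -dot n p.1.1 p.2.1,
  p.1.2 * -dot n p.1.1 p.2.1 + p.2.2 * dot n p.1.1 p.1.1)
def cand (n : ℕ) (R : List Row) : List Row := ((R ×ˢ R).filter (ap n)).map (cv n)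
def gd (n : ℕ) (C : List Row) : ℤ :=
  dt C.length (tab C.length fun i j => dot n (C.getD i ([], 0)).1 (C.getD j ([], 0)).1)
def gs (n : ℕ) (V C : List Row) : List Row := (V.find? fun v => V.all fun u =>
  decide (gd n (u :: C) * (v.2 * v.2) ≤ gd n (v :: C) * (u.2 * u.2))).toList ++ C
def pw2 (C : List Row) : ℤ := (C.map fun c => c.2 * c.2).prod
def bas (I : Inst) : List Row := (gs I.1 (cand I.1 (I.2.1.map (ir I.1))))^[I.1] []
def key (I : Inst) : ℤ × ℤ := (I.2.2.num * gd I.1 (bas I), I.2.2.den * pw2 (bas I))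

section
variable {α : Type} [Enc α]

theorem pt_unq : PT fun q : ℚ => (decide (q < 0), q.num.natAbs.bits, q.den.bits) :=
  PT.ofId fun _ => rfl

@[fun_prop] theorem pt_den {f : α → ℚ} (hf : PT f) : PT fun x => ((f x).den : ℤ) :=
  (pt_bn (pt_unq.comp hf).snd.snd).of_eq fun x => by rw [bn_bits]

@[fun_prop] theorem pt_num {f : α → ℚ} (hf : PT f) : PT fun x => (f x).num := by
  have h := pt_bn (pt_unq.comp hf).snd.fst
  refine (PT.ite (pt_unq.comp hf).fst (pt_neg h) h).of_eq fun x => ?_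
  simp only [bn_bits, ← Rat.num_neg]
  split_ifs <;> omega

@[fun_prop] theorem pt_dot {n : α → ℕ} {a b : α → List ℤ} (hn : PT n) (ha : PT a) (hb : PT b) :
    PT fun x => dot (n x) (a x) (b x) := by unfold dot; fun_prop

@[fun_prop] theorem pt_gd {n : α → ℕ} {C : α → List Row} (hn : PT n) (hC : PT C) :
    PT fun x => gd (n x) (C x) := by unfold gd tab; fun_prop

@[fun_prop] theorem pt_clr {l : α → List ℚ} {i : α → ℕ} (hl : PT l) (hi : PT i) :
    PT fun x => clr (l x) (i x) := by unfold clr; fun_prop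

@[fun_prop] theorem pt_ir {n : α → ℕ} {r : α → List ℚ × ℚ} (hn : PT n) (hr : PT r) :
    PT fun x => ir (n x) (r x) := by unfold ir; fun_prop

@[fun_prop] theorem pt_ap {n : α → ℕ} {r : α → Row × Row} (hn : PT n) (hr : PT r) :
    PT fun x => ap (n x) (r x) := by unfold ap; fun_prop

@[fun_prop] theorem pt_cv {n : α → ℕ} {r : α → Row × Row} (hn : PT n) (hr : PT r) :
    PT fun x => cv (n x) (r x) := by unfold cv; fun_prop

@[fun_prop] theorem pt_cand {n : α → ℕ} {r : α → List Row} (hn : PT n) (hr : PT r) :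
    PT fun x => cand (n x) (r x) := by unfold cand; fun_prop

@[fun_prop] theorem pt_gs {n : α → ℕ} {V C : α → List Row} (hn : PT n) (hV : PT V) (hC : PT C) :
    PT fun x => gs (n x) (V x) (C x) :=
  PT.append (PT.toList (PT.find? hV (PT.all (by fun_prop)
    (pt_le (pt_mul (pt_gd (by fun_prop) (by fun_prop)) (by fun_prop))
      (pt_mul (pt_gd (by fun_prop) (by fun_prop)) (by fun_prop)))))) hC

theorem pt_it {n : α → ℕ} {V : α → List Row} (hn : PT n) (hV : PT V) :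
    PT fun x => (gs (n x) (V x))^[n x] [] :=
  PT.iterate_add (g := fun x => gs (n x) (V x)) hn (PT.const _) (by fun_prop) V 1 hV fun x c => by
    unfold gs
    cases e : List.find? _ _ with
    | none => simp; omega
    | some v => have := sz_mem (List.mem_of_find?_eq_some e); simp; omega

theorem pt_bas : PT bas := pt_it (by fun_prop) (by fun_prop)

theorem pt_key : PT key :=
  PT.pair (pt_mul (by fun_prop) (pt_gd (by fun_prop) pt_bas)) (pt_mul (by fun_prop)
    (pt_prod (PT.map pt_bas (by fun_prop))))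
end

variable {n : ℕ}

noncomputable def zv (n : ℕ) (a : List ℤ) : Fin n → ℝ := fun j => (a.getD j 0 : ℝ)
noncomputable def vec (n : ℕ) (c : Row) : Fin n → ℝ := ((c.2 : ℝ)⁻¹) • zv n c.1
noncomputable def wv (n : ℕ) (C : List Row) : Fin C.length → Fin n → ℝ := fun a => vec n C[a]

theorem wv_cons (c : Row) (C : List Row) : wv n (c :: C) = Fin.cons (vec n c) (wv n C) :=
  funext (Fin.cases rfl fun _ => rfl)

theorem dot_eq (a b : List ℤ) : (dot n a b : ℝ) = zv n a ⬝ᵥ zv n b := by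
  simp only [dot, cast_sum, Finset.sum_range, Int.cast_mul]; rfl

theorem gd_eq (C : List Row) (h : ∀ c ∈ C, 0 < c.2) :
    (gd n C : ℝ) = C.length.factorial * Gm (wv n C) (wv n C) * pw2 C := by
  have e : toM C.length (tab C.length fun i j => dot n (C.getD i ([], 0)).1 (C.getD j ([], 0)).1) =
      of fun a b : Fin C.length => (C[a].2 : ℝ) * (of (fun a b : Fin C.length => (C[b].2 : ℝ) *
        (of fun a b => wv n C a ⬝ᵥ wv n C b) a b) a b) := by
    ext a b
    have h1 : (C[a].2 : ℝ) ≠ 0 := by exact_mod_cast (h _ (List.getElem_mem a.2)).ne'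
    have h2 : (C[b].2 : ℝ) ≠ 0 := by exact_mod_cast (h _ (List.getElem_mem b.2)).ne'
    simp only [toM, of_apply, ent_tab, a.2, b.2, and_self, if_true, dot_eq, wv, vec,
      List.getD_eq_getElem _ _ a.2, List.getD_eq_getElem _ _ b.2, smul_dotProduct, dotProduct_smul,
      smul_eq_mul, Fin.getElem_fin] at h1 h2 ⊢
    field_simp
  rw [gd, dt_eq _ _ (by
    ext a b
    simp [toM, ent_tab, dot_eq, dotProduct_comm]), e, det_mul_column, det_mul_row, pw2,
    ← Fin.prod_univ_fun_getElem]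
  simp only [Gm, Int.cast_prod, Int.cast_mul, Finset.prod_mul_distrib, Fin.getElem_fin]
  ring

theorem pw2_pos (C : List Row) (h : ∀ c ∈ C, 0 < c.2) : 0 < pw2 C :=
  List.prod_pos fun a ha => by
    obtain ⟨c, hc, rfl⟩ := List.mem_map.1 ha
    exact mul_pos (h c hc) (h c hc)

theorem greedy {N : Matrix (Fin n) (Fin n) ℝ} (hN : IsUnit N.det) (V : List Row)
    (h1 : ∀ c ∈ V, 0 < c.2 ∧ ∃ u : Fin n → ℝ, ∑ i, |u i| ≤ 1 ∧ vec n c = u ᵥ* N)
    (h2 : ∀ i, ∃ c ∈ V, vec n c = N i) (j : ℕ) (hj : j ≤ n) :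
    ((gs n V)^[j] []).length = j ∧ (∀ c ∈ (gs n V)^[j] [], c ∈ V) ∧
      Inv N (wv n ((gs n V)^[j] [])) := by
  induction j with
  | zero => exact ⟨rfl, by simp, Fin.elim0, fun a => a.elim0, fun a => a.elim0⟩
  | succ j ih =>
    obtain ⟨a1, a2, a3⟩ := ih (by omega)
    rw [Function.iterate_succ_apply']
    generalize (gs n V)^[j] [] = C at a1 a2 a3
    let F : Row → ℝ := fun c => Gm (Fin.cons (vec n c) (wv n C)) (Fin.cons (vec n c) (wv n C))
    have cmp : ∀ u ∈ V, ∀ v ∈ V,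
        gd n (u :: C) * (v.2 * v.2) ≤ gd n (v :: C) * (u.2 * u.2) ↔ F u ≤ F v := by
      intro u hu v hv
      have hp : ∀ u ∈ V, ∀ c ∈ u :: C, 0 < c.2 := fun u hu c hc =>
        (List.mem_cons.1 hc).elim (fun e => e ▸ (h1 u hu).1) fun h => (h1 c (a2 c h)).1
      have p1 : (0 : ℝ) < u.2 := by exact_mod_cast (h1 u hu).1
      have p2 : (0 : ℝ) < v.2 := by exact_mod_cast (h1 v hv).1
      have p3 : (0 : ℝ) < pw2 C := by exact_mod_cast pw2_pos C fun c h => (h1 c (a2 c h)).1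
      have p4 : (0 : ℝ) < (C.length + 1).factorial := by exact_mod_cast Nat.factorial_pos _
      rw [← @Int.cast_le ℝ]
      simp only [Int.cast_mul, gd_eq _ (hp u hu), gd_eq _ (hp v hv), wv_cons]
      simp only [pw2, List.map_cons, List.prod_cons, Int.cast_mul, List.length_cons] at p3 ⊢
      rw [← mul_le_mul_iff_right₀ (show 0 < (C.length + 1).factorial * (u.2 * u.2 * (v.2 * v.2) *
        (((C.map fun c => c.2 * c.2).prod : ℤ) : ℝ)) by positivity) (b := F u)]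
      exact iff_of_eq (by congr 1 <;> ring)
    obtain ⟨c0, hc0, -⟩ := h2 ⟨j, by omega⟩
    obtain ⟨m, hm, hmax⟩ := Finset.exists_max_image V.toFinset F ⟨c0, by simpa⟩
    simp only [List.mem_toFinset] at hm hmax
    obtain ⟨v, hv⟩ := Option.isSome_iff_exists.1 (List.find?_isSome.2 ⟨m, hm, by
      simpa using fun u hu => (cmp u hu m hm).2 (hmax u hu)⟩ : (V.find? fun v => V.all fun u =>
        decide (gd n (u :: C) * (v.2 * v.2) ≤ gd n (v :: C) * (u.2 * u.2))).isSome)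
    have hv1 := List.mem_of_find?_eq_some hv
    have hv2 := List.find?_some hv
    simp only [List.all_eq_true, decide_eq_true_eq] at hv2
    rw [show gs n V C = v :: C by rw [gs, hv]; rfl]
    refine ⟨by simp [a1], fun c hc => (List.mem_cons.1 hc).elim (· ▸ hv1) (a2 c), ?_⟩
    obtain ⟨u, hu, e⟩ := (h1 v hv1).2
    rw [wv_cons, e]
    refine step hN a3 (by omega) u hu fun l => ?_
    obtain ⟨c, hc, e'⟩ := h2 l
    rw [← e, ← e']
    exact (cmp c hc v hv1).1 (hv2 c hc)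

theorem cand_ok {M : Matrix (Fin n) (Fin n) ℝ} (hM : IsUnit M.det) (c : Fin n → ℝ) (R : List Row)
    (h : ∀ y : Fin n → ℝ, (∀ i, y i ∈ Set.Icc (0 : ℝ) 1) ↔
      ∀ r ∈ R, zv n r.1 ⬝ᵥ (c + M *ᵥ y) ≤ r.2) :
    (∀ c ∈ cand n R, 0 < c.2 ∧ ∃ u : Fin n → ℝ, ∑ i, |u i| ≤ 1 ∧ vec n c = u ᵥ* M⁻¹) ∧
      ∀ i, ∃ c ∈ cand n R, vec n c = M⁻¹ i := by
  let g : Row → Fin n → ℝ := fun r => zv n r.1 ᵥ* M
  let γ : Row → ℝ := fun r => r.2 - zv n r.1 ⬝ᵥ c
  have h' : ∀ y : Fin n → ℝ, (∀ i, y i ∈ Set.Icc (0 : ℝ) 1) ↔ ∀ r ∈ R, g r ⬝ᵥ y ≤ γ r := fun y => by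
    simp only [h, g, γ, dotProduct_add, dotProduct_mulVec, le_sub_iff_add_le']
  have back : ∀ r, zv n r.1 = g r ᵥ* M⁻¹ := fun r => by
    rw [vecMul_vecMul, mul_nonsing_inv _ hM, vecMul_one]
  have hap : ∀ r s : Row, ap n (r, s) = true ↔ zv n r.1 ⬝ᵥ zv n s.1 < 0 ∧
      (zv n r.1 ⬝ᵥ zv n r.1) • zv n s.1 = (zv n r.1 ⬝ᵥ zv n s.1) • zv n r.1 := fun r s => by
    simp only [ap, Bool.and_eq_true, decide_eq_true_eq, List.all_eq_true, List.mem_range,
      beq_iff_eq, ← dot_eq, funext_iff, Pi.smul_apply, smul_eq_mul, zv, Fin.forall_iff]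
    norm_cast
  have hcv : ∀ r s : Row, ap n (r, s) = true →
      zv n (cv n (r, s)).1 = -(zv n r.1 ⬝ᵥ zv n s.1) • zv n r.1 ∧ ((cv n (r, s)).2 : ℝ) =
        γ r * -(zv n r.1 ⬝ᵥ zv n s.1) + γ s * (zv n r.1 ⬝ᵥ zv n r.1) := fun r s hrs => by
    constructor
    · ext j
      simp only [cv, zv, List.getD_eq_getElem?_getD, List.getElem?_map, Pi.smul_apply, ← dot_eq]
      cases r.1[j.1]? <;> simp [mul_comm]
    · have := congrArg (· ⬝ᵥ c) ((hap r s).1 hrs).2
      simp only [smul_dotProduct, smul_eq_mul] at this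
      simp only [cv, Int.cast_add, Int.cast_mul, Int.cast_neg, dot_eq, γ]
      linear_combination this
  constructor
  · intro x hx
    obtain ⟨⟨r, s⟩, hp, rfl⟩ := List.mem_map.1 hx
    obtain ⟨hp, hrs⟩ := List.mem_filter.1 hp
    obtain ⟨hr, hs⟩ := List.mem_product.1 hp
    obtain ⟨e1, e2⟩ := hcv r s hrs
    obtain ⟨e3, e4⟩ := (hap r s).1 hrs
    have w := width (g := g r) (g' := g s) (γ := γ r) (γ' := γ s) (dotProduct_self_star_nonneg _)
      (neg_pos.2 e3).le (fun y hy => ⟨(h' y).1 hy r hr, (h' y).1 hy s hs⟩) (by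
        have := congrArg (· ᵥ* M) e4
        simpa [smul_vecMul] using this)
    rw [show star (zv n r.1) = zv n r.1 from rfl, ← e2] at w
    have s0 : 0 < ∑ i, |g r i| := by
      refine (Finset.sum_nonneg fun _ _ => abs_nonneg _).lt_of_ne' fun e => ?_
      have : g r = 0 := funext fun i => abs_eq_zero.1
        ((Finset.sum_eq_zero_iff_of_nonneg fun _ _ => abs_nonneg _).1 e i (Finset.mem_univ _))
      rw [back r, this] at e3; simp at e3
    have wp : (0 : ℝ) < (cv n (r, s)).2 := (mul_pos (neg_pos.2 e3) s0).trans_le w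
    refine ⟨by exact_mod_cast wp, (((cv n (r, s)).2 : ℝ)⁻¹ * -(zv n r.1 ⬝ᵥ zv n s.1)) • g r, ?_, ?_⟩
    · simp only [Pi.smul_apply, smul_eq_mul, abs_mul, abs_of_pos (neg_pos.2 e3),
        abs_of_pos (inv_pos.2 wp), ← Finset.mul_sum, mul_assoc]
      exact (inv_mul_le_iff₀ wp).2 (by linarith)
    · rw [vec, e1, smul_vecMul, ← back, smul_smul]
  · intro i
    obtain ⟨r, hr, t, t0, e1, e2⟩ := facet R g γ h' i 1 (.inr rfl)
    obtain ⟨s, hs, t', t0', e1', e2'⟩ := facet R g γ h' i 0 (.inl rfl)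
    have b1 : zv n r.1 = t • M⁻¹ i := by rw [back, e1, single_vecMul]; rfl
    have b2 : zv n s.1 = t' • M⁻¹ i := by rw [back, e1', single_vecMul]; rfl
    have bp : 0 < M⁻¹ i ⬝ᵥ M⁻¹ i := (dotProduct_self_star_pos_iff (v := M⁻¹ i)).2 fun e =>
      (isUnit_nonsing_inv_det M hM).ne_zero (det_eq_zero_of_row_eq_zero i (congrFun e))
    have tp : 0 < t := by linarith
    have tn : t' < 0 := by linarith
    have d0 : zv n r.1 ⬝ᵥ zv n s.1 < 0 := by
      rw [b1, b2, smul_dotProduct, dotProduct_smul]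
      exact mul_neg_of_pos_of_neg tp (mul_neg_of_neg_of_pos tn bp)
    have hrs : ap n (r, s) = true := (hap r s).2 ⟨d0, by
      simp only [b1, b2, smul_dotProduct, dotProduct_smul, smul_smul, smul_eq_mul]
      congr 1; ring⟩
    obtain ⟨e3, e4⟩ := hcv r s hrs
    refine ⟨_, List.mem_map.2 ⟨(r, s), List.mem_filter.2 ⟨List.mem_product.2 ⟨hr, hs⟩, hrs⟩, rfl⟩, ?_⟩
    rw [vec, e3, e4, e2, e2']
    generalize zv n r.1 ⬝ᵥ zv n s.1 = D at d0
    rw [b1, smul_smul, smul_smul]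
    convert one_smul ℝ _
    have := d0.ne
    field_simp
    ring

theorem clr_eq (l : List ℚ) : ∃ D : ℝ, 0 < D ∧ ∀ i, (clr l i : ℝ) = l.getD i 0 * D := by
  refine ⟨∏ j ∈ Finset.range l.length, ((l.getD j 0).den : ℝ),
    Finset.prod_pos fun j _ => by exact_mod_cast (l.getD j 0).den_pos, fun i => ?_⟩
  by_cases hi : i < l.length
  · have e : ∀ f : ℕ → ℤ, ((((List.range l.length).map f).prod : ℤ) : ℝ) =
        ∏ j ∈ Finset.range l.length, (f j : ℝ) := fun f => by rw [← Int.cast_prod]; rfl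
    rw [clr, Int.cast_mul, e, ← Finset.mul_prod_erase _ _ (Finset.mem_range.2 hi),
      ← Finset.mul_prod_erase _ _ (Finset.mem_range.2 hi), if_pos rfl,
      Finset.prod_congr rfl fun j hj => by rw [if_neg (Finset.ne_of_mem_erase hj)],
      ← mul_assoc (_ : ℝ) (Rat.den _ : ℝ)]
    have : ((l.getD i 0 : ℚ) : ℝ) * (l.getD i 0).den = (l.getD i 0).num := by
      exact_mod_cast Rat.mul_den_eq_num _
    rw [this, Int.cast_one, one_mul]; rfl
  · simp [clr, List.getD_eq_getElem?_getD, List.getElem?_eq_none (not_lt.1 hi)]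

theorem ir_iff (r : List ℚ × ℚ) (x : Fin n → ℝ) :
    zv n (ir n r).1 ⬝ᵥ x ≤ (ir n r).2 ↔ ∑ j : Fin n, (r.1.getD j 0 : ℝ) * x j ≤ r.2 := by
  obtain ⟨D, hD, e⟩ := clr_eq (r.2 :: r.1)
  rw [← mul_le_mul_iff_left₀ hD (b := ∑ j : Fin n, _), Finset.sum_mul]
  refine iff_of_eq (congrArg₂ _ (Finset.sum_congr rfl fun j _ => ?_) (by simp [ir, e]))
  simp only [zv, ir, List.getD_eq_getElem?_getD, List.getElem?_map, List.getElem?_range j.2,
    Option.map_some, Option.getD_some, e, List.getElem?_cons_succ]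
  ring

theorem key_eq (R : List (List ℚ × ℚ)) (t : ℚ)
    (f : EuclideanSpace ℝ (Fin n) ≃ᵃ[ℝ] EuclideanSpace ℝ (Fin n))
    (hf : poly n R = f '' {y | ∀ i, y i ∈ Set.Icc (0 : ℝ) 1}) :
    0 < (key (n, R, t)).2 ∧ ((key (n, R, t)).1 : ℝ) / (key (n, R, t)).2 =
      n.factorial * t / LinearMap.det f.linear.toLinearMap ^ 2 := by
  let b := (EuclideanSpace.basisFun (Fin n) ℝ).toBasis
  let M := LinearMap.toMatrix b b f.linear.toLinearMap
  have hd : M.det = LinearMap.det f.linear.toLinearMap := LinearMap.det_toMatrix _ _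
  have hM : IsUnit M.det := hd ▸ f.linear.isUnit_det'
  have e : ∀ y : Fin n → ℝ, (f 0).ofLp + M *ᵥ y = (f (WithLp.toLp 2 y)).ofLp := fun y => by
    have h1 := LinearMap.toMatrix_mulVec_repr b b f.linear.toLinearMap (WithLp.toLp 2 y)
    have h2 := f.map_vadd 0 (WithLp.toLp 2 y)
    rw [vadd_eq_add, vadd_eq_add, add_zero] at h2
    rw [h2, add_comm]
    exact congrArg (· + _) h1
  obtain ⟨c1, c2⟩ := cand_ok hM (f 0).ofLp (R.map (ir n)) fun y => by
    simp only [List.forall_mem_map, ir_iff, e]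
    have : f (WithLp.toLp 2 y) ∈ poly n R ↔ ∀ i, y i ∈ Set.Icc (0 : ℝ) 1 := by
      rw [hf, f.injective.mem_set_image]; rfl
    exact this.symm
  obtain ⟨g1, g2, g3⟩ := greedy (isUnit_nonsing_inv_det M hM) _ c1 c2 n le_rfl
  have hp := fun c hc => (c1 c (g2 c hc)).1
  have e1 := gd_eq (n := n) _ hp
  have e2 := pw2_pos _ hp
  have e3 : ∀ {k : ℕ} (w : Fin k → Fin n → ℝ), k = n → Inv M⁻¹ w → Gm w w = M⁻¹.det ^ 2 := by
    rintro _ w rfl h; exact fin h
  rw [e3 _ g1 g3, g1, det_nonsing_inv, Ring.inverse_eq_inv, hd] at e1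
  refine ⟨mul_pos (by exact_mod_cast t.den_pos) e2, ?_⟩
  simp only [key, bas, Int.cast_mul, e1, Rat.cast_def, Int.cast_natCast]
  have : ((pw2 ((gs n (cand n (R.map (ir n))))^[n] []) : ℤ) : ℝ) ≠ 0 := by exact_mod_cast e2.ne'
  field_simp

end Pool.Agent.H24.Par
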