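import Pool.Agent.H24.HurDefs
import Pool.Agent.H24.Hur1
import Pool.Agent.H24.Par2

set_option autoImplicit false

namespace Pool.Agent.H24.Hur
open Pool.Agent.H11.PT Pool.Agent.H24.Bz Pool.Agent.H24.Gd Pool.Agent.H24.Par Finset

variable {n m : ℕ} {A : Fin m → Matrix (Fin n) (Fin n) ℚ}

theorem prod_pos (h : ∀ i u v, 0 ≤ A i u v) (d : List (Fin m)) (u w : Fin n) :
    0 ≤ (d.map A).prod u w ∧ (0 < (d.map A).prod u w ↔
      ∃ l, W (fun e => 0 < A e.2.1 e.1 e.2.2) u l w ∧ (l.map fun e => e.2.1) = d) := by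
  induction d generalizing u with
  | nil =>
    simp only [List.map_nil, List.prod_nil, Matrix.one_apply, List.map_eq_nil_iff]
    split_ifs with e
    · subst e; exact ⟨zero_le_one, iff_of_true one_pos ⟨[], .nil _, rfl⟩⟩
    · exact ⟨le_rfl, iff_of_false (lt_irrefl _) (by rintro ⟨_, h, rfl⟩; cases h; exact e rfl)⟩
  | cons c d ih =>
    have nn := fun v (_ : v ∈ univ) => mul_nonneg (h c u v) (ih v).1
    rw [List.map_cons, List.prod_cons, Matrix.mul_apply, sum_pos_iff_of_nonneg nn]
    refine ⟨sum_nonneg nn, fun ⟨v, _, hv⟩ => ?_, fun ⟨l, a, b⟩ => ?_⟩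
    · have p : 0 < A c u v := (h c u v).lt_of_ne fun e => by simp [← e] at hv
      obtain ⟨l, a, b⟩ := (ih v).2.1 ((mul_pos_iff_of_pos_left p).1 hv)
      exact ⟨_, .cons (c := c) p a, by simp [b]⟩
    · cases a with
      | nil => simp at b
      | cons a1 a2 =>
        simp only [List.map_cons, List.cons.injEq] at b
        obtain ⟨rfl, b⟩ := b
        exact ⟨_, mem_univ _, mul_pos a1 ((ih _).2.2 ⟨_, a2, b⟩)⟩

theorem hur_pos (h : ∀ i u v, 0 ≤ A i u v) (α : Fin m → ℕ) (u w : Fin n) : 0 < hur A α u w ↔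
    ∃ l, W (fun e => 0 < A e.2.1 e.1 e.2.2) u l w ∧ ∀ c, (l.map fun e => e.2.1).count c = α c := by
  rw [hur, Matrix.sum_apply, sum_pos_iff_of_nonneg fun d _ => (prod_pos h _ u w).1]
  simp only [mem_filter, mem_univ, true_and, (prod_pos h _ u w).2]
  refine ⟨fun ⟨d, h1, l, h2, h3⟩ => ⟨l, h2, h3 ▸ h1⟩, fun ⟨l, h1, h2⟩ =>
    ⟨⟨l.map fun e : Fin n × Fin m × Fin n => e.2.1, ?_⟩, h2, l, h1, rfl⟩⟩
  simp only [← h2]
  rw [← sum_subset (subset_univ (l.map fun e => e.2.1).toFinset) fun c _ hc =>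
    List.count_eq_zero.2 (by simpa using hc), List.sum_toFinset_count_eq_length]

def on (M : List (List ℚ)) (u v : ℕ) : ℤ := if 0 < ((M.getD u []).getD v 0).num then 1 else 0
def sm (n : ℕ) (L : List (List (List ℚ))) : List (List ℤ) :=
  pw n (tab n fun u v => (if u = v then 1 else 0) + (L.map fun M => on M u v).sum) n
def pz (a : ℤ) (k : ℕ) : ℤ := (List.replicate k a).prod
def big (K : ℕ) : ℤ := pz K K * pz K K + pz K K * pz (K * (1 + K * (pz K K * pz K K))) K + 3 * K * K
def tau (n : ℕ) (S : List (List ℤ)) (M : List (List ℚ)) : ℤ :=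
  ((List.range n).map fun u => ((List.range n).map fun v => on M u v * Gd.ent S v u).sum).sum
def alg (p : ℕ × List (List (List ℚ))) : List (List Bool) := p.2.map fun M =>
  (big (p.1 * (p.2.length * p.1) + (p.1 + p.2.length)) * tau p.1 (sm p.1 p.2) M).natAbs.bits

section
variable {α : Type} [Enc α]
@[fun_prop] theorem pt_on {M : α → List (List ℚ)} {u v : α → ℕ} (hM : PT M) (hu : PT u) (hv : PT v) :
    PT fun x => on (M x) (u x) (v x) := by unfold on; fun_prop
@[fun_prop] theorem pt_pz {a : α → ℤ} {k : α → ℕ} (ha : PT a) (hk : PT k) :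
    PT fun x => pz (a x) (k x) := by unfold pz; fun_prop
theorem pt_big {k : α → ℕ} (hk : PT k) : PT fun x => big (k x) := by
  have := pt_cast hk
  have h := pt_pz this hk
  exact pt_add (pt_add (pt_mul h h) (pt_mul h (pt_pz (pt_mul this (pt_add (PT.const _)
    (pt_mul this (pt_mul h h)))) hk))) (pt_mul (pt_mul (PT.const _) this) this)
theorem pt_tau {k : α → ℕ} {S : α → List (List ℤ)} {M : α → List (List ℚ)} (hk : PT k) (hS : PT S)
    (hM : PT M) : PT fun x => tau (k x) (S x) (M x) := by unfold tau; fun_prop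
theorem pt_sm {k : α → ℕ} {L : α → List (List (List ℚ))} (hk : PT k) (hL : PT L) :
    PT fun x => sm (k x) (L x) := pt_pw hk (by unfold tab; fun_prop) hk
theorem pt_alg : PT alg := PT.map (by fun_prop) (pt_bits (pt_mul (pt_big (by fun_prop))
  (pt_tau (by fun_prop) (pt_sm (by fun_prop) (by fun_prop)) (by fun_prop))))
end

theorem alg_ok (n : ℕ) (L : List (List (List ℚ))) (hn : 1 ≤ n) (h : ∀ i u v, 0 ≤ fam n L i u v)
    (α : Fin L.length → ℕ) (hα : Pos (fam n L) α) :
    ∃ β : Fin L.length → ℕ, alg (n, L) = List.ofFn (fun i => (β i).bits) ∧ Pos (fam n L) β := by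
  let ok : Fin n × Fin L.length × Fin n → Prop := fun e => 0 < fam n L e.2.1 e.1 e.2.2
  have hw := fun u w => (hur_pos h α u w).1 (hα.2 u w)
  have eon : ∀ (c : Fin L.length) (u v : Fin n), on L[c] u v = if ok (u, c, v) then 1 else 0 :=
    fun c u v => by simp only [on, Rat.num_pos]; rfl
  let B : Matrix (Fin n) (Fin n) ℝ := .of fun u v => ∑ c, if ok (u, c, v) then 1 else 0
  have eS : ∀ v u : Fin n, (Gd.ent (sm n L) v u : ℝ) = ((1 + B) ^ n) v u := fun v u => by
    rw [← show toM n _ = 1 + B from ?_, ← toM_pw]; · rfl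
    ext u v
    simp only [toM, Matrix.of_apply, ent_tab, u.2, v.2, and_self, if_true, Matrix.add_apply,
      Matrix.one_apply, B, ← Fin.sum_univ_fun_getElem, Fin.val_inj]
    push_cast
    exact congrArg _ (sum_congr rfl fun c _ => by rw [← Fin.getElem_fin, eon]; simp)
  have B1 : ∀ u v, 0 ≤ B u v := fun u v => by
    simp only [B, Matrix.of_apply]; exact sum_nonneg fun _ _ => by positivity
  have B0 : ∀ u v, 0 ≤ (1 + B) u v := fun u v =>
    add_nonneg (by rw [Matrix.one_apply]; positivity) (B1 u v)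
  have P0 : ∀ (k : ℕ) u v, 0 ≤ ((1 + B) ^ k) u v := fun k => by
    induction k with
    | zero => intro u v; rw [pow_zero, Matrix.one_apply]; positivity
    | succ k ih => 
      intro u v; rw [pow_succ', Matrix.mul_apply]
      exact sum_nonneg fun x _ => mul_nonneg (B0 _ _) (ih _ _)
  have P1 : ∀ (k : ℕ) u l w, W ok u l w → l.length ≤ k → 0 < ((1 + B) ^ k) u w := fun k => by
    induction k with
    | zero => intro u l w a b; cases a <;> simp at b ⊢
    | succ k ih =>
      intro u l w a b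
      rw [pow_succ', Matrix.mul_apply]
      refine sum_pos' (fun x _ => mul_nonneg (B0 _ _) (P0 _ _ _)) ?_
      cases a with
      | nil => exact ⟨u, mem_univ _, mul_pos (add_pos_of_pos_of_nonneg (by simp)
          (B1 _ _)) (ih _ _ _ (.nil _) (by simp))⟩
      | cons a1 a2 => exact ⟨_, mem_univ _, mul_pos (add_pos_of_nonneg_of_pos
          (by rw [Matrix.one_apply]; positivity) (by
            simp only [B, Matrix.of_apply]
            exact sum_pos' (fun _ _ => by positivity)
              ⟨_, mem_univ _, by rw [if_pos a1]; exact one_pos⟩)) (ih _ _ _ a2 (by simpa using b))⟩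
  let f : Fin n × Fin L.length × Fin n → ℤ := fun e => on L[e.2.1] e.1 e.2.2 * Gd.ent (sm n L) e.2.2 e.1
  have f1 : ∀ e, ok e → 1 ≤ f e := fun e he => by
    obtain ⟨l, a, -⟩ := hw e.2.2 e.1
    obtain ⟨l, a, b⟩ := a.short
    have := P1 n _ _ _ a (by simp at b; omega)
    rw [← eS] at this
    simp only [f, eon, show ok (e.1, e.2.1, e.2.2) from he, if_true, one_mul]
    exact_mod_cast this
  have f0 : ∀ e, ¬ok e → f e = 0 := fun e he => by
    simp only [f, eon, show ¬ok (e.1, e.2.1, e.2.2) from he, if_false, zero_mul]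
  have f2 : ∑ e, f e • bd e.1 e.2.2 = 0 := by
    ext x
    have := congrFun (congrFun ((Commute.one_left B).add_left (.refl B) |>.pow_left n).eq x) x
    rw [← @Int.cast_inj ℝ]
    simp only [Matrix.mul_apply, B, Matrix.of_apply, sum_mul, mul_sum] at this
    simp only [Finset.sum_apply, Pi.smul_apply, bd, Pi.sub_apply, Pi.single_apply, smul_eq_mul,
      mul_sub, sum_sub_distrib, Fintype.sum_prod_type, f, eon, mul_ite, mul_one, mul_zero,
      sum_ite_eq, mem_univ, if_true, sum_ite_irrel, sum_const_zero, Pi.zero_apply]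
    push_cast
    simp only [eS, B]
    rw [sub_eq_zero, sum_comm, ← this]
    exact sum_congr rfl fun _ _ => sum_congr rfl fun _ _ => mul_comm _ _
  have key := main α hw f f1 f0 f2 (n * (L.length * n) + (n + L.length)) (by simp) (by simp)
    (by omega)
  have et : ∀ c : Fin L.length, tau n (sm n L) L[c] = ∑ x, ∑ y, f (x, c, y) := fun c => by
    have : ∀ g : ℕ → ℤ, ((List.range n).map g).sum = ∑ i : Fin n, g i := fun g =>
      Finset.sum_range g
    simp only [tau, this, f]
  have eb : ∀ K : ℕ, big K = (K : ℤ) ^ K * K ^ K + K ^ K * (K * (1 + K * (K ^ K * K ^ K))) ^ K +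
      3 * K * K := fun K => by simp [big, pz]
  refine ⟨fun c => (big (n * (L.length * n) + (n + L.length)) * tau n (sm n L) L[c]).natAbs,
    (List.ofFn_getElem_eq_map L _).symm, ?_, fun u w => (hur_pos h _ u w).2 ?_⟩
  · obtain ⟨l, a, b⟩ := hw ⟨0, hn⟩ ⟨0, hn⟩
    obtain ⟨e, he⟩ : ∃ e, e ∈ l := List.exists_mem_of_ne_nil _ fun e => by
      have := hα.1; simp [← b, e] at this
    refine sum_pos' (fun _ _ => Nat.zero_le _)
      ⟨e.2.1, mem_univ _, Int.natAbs_pos.2 (mul_pos ?_ ?_).ne'⟩
    · rw [eb]; have : 0 < n * (L.length * n) + (n + L.length) := by omega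
      positivity
    · have nn : ∀ e, 0 ≤ f e := fun e => by
        by_cases h : ok e; exacts [zero_le_one.trans (f1 e h), (f0 e h).ge]
      rw [et]
      exact sum_pos' (fun _ _ => sum_nonneg fun _ _ => nn _) ⟨e.1, mem_univ _,
        sum_pos' (fun _ _ => nn _) ⟨e.2.2, mem_univ _, f1 e (a.all e he)⟩⟩
  · obtain ⟨l, a, b⟩ := key u w
    exact ⟨l, a, fun c => by rw [et, eb, ← b]; simp⟩

end Pool.Agent.H24.Hur
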