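import Pool.Agent.H24.ParDefs

set_option autoImplicit false

namespace Pool.Agent.H24.Hur

/-- the Hurwitz product: sum of all products with exactly `α i` factors equal to `A i` -/
def hur {n m : ℕ} (A : Fin m → Matrix (Fin n) (Fin n) ℚ) (α : Fin m → ℕ) :
    Matrix (Fin n) (Fin n) ℚ :=
  ∑ d : List.Vector (Fin m) (∑ i, α i) with ∀ i, d.toList.count i = α i, (d.toList.map A).prod

/-- `α` is a colour vector with positive Hurwitz product -/
def Pos {n m : ℕ} (A : Fin m → Matrix (Fin n) (Fin n) ℚ) (α : Fin m → ℕ) : Prop :=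
  1 ≤ ∑ i, α i ∧ ∀ u v, 0 < hur A α u v

/-- the `n × n` matrices given by lists of rows -/
def fam (n : ℕ) (L : List (List (List ℚ))) (i : Fin L.length) : Matrix (Fin n) (Fin n) ℚ :=
  Matrix.of fun u v => (L[i].getD u []).getD v 0

end Pool.Agent.H24.Hur
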