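import Pool.Agent.H23.RE

set_option autoImplicit false

namespace Pool.Agent.H24.Idx

open MvPolynomial Pool.Agent.H23 RE Submodule Relation

section generic
variable {α β γ σ : Type} [Primcodable α] [Primcodable β] [Primcodable γ] [Primcodable σ]

@[fun_prop] theorem inl' {f : α → β} (hf : Primrec f) :
    Primrec fun a => (Sum.inl (f a) : β ⊕ γ) := Primrec.sumInl.comp hf
@[fun_prop] theorem inr' {f : α → γ} (hf : Primrec f) :
    Primrec fun a => (Sum.inr (f a) : β ⊕ γ) := Primrec.sumInr.comp hf
@[fun_prop] theorem elim' {f : α → β ⊕ γ} {g : α → β → σ} {h : α → γ → σ} (hf : Primrec f)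
    (hg : Primrec fun p : α × β => g p.1 p.2) (hh : Primrec fun p : α × γ => h p.1 p.2) :
    Primrec fun a => Sum.elim (g a) (h a) (f a) :=
  (Primrec.sumCasesOn hf hg hh).of_eq fun a => by cases f a <;> rfl
@[fun_prop] theorem val' {n : ℕ} {f : α → Fin n} (hf : Primrec f) : Primrec fun a => (f a).val :=
  Primrec.fin_val.comp hf

theorem re_rtg [BEq β] [LawfulBEq β] {r : α → β → β → Prop}
    (h : REPred fun x : α × β × β => r x.1 x.2.1 x.2.2) :
    REPred fun x : α × β × β => ReflTransGen (r x.1) x.2.1 x.2.2 := by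
  refine (re_ex (p := fun (x : α × β × β) (l : List (β × β)) => (∀ p ∈ l, r x.1 p.1 p.2) ∧
    (l.foldr (fun p y => bif p.1 == y then p.2 else y) x.2.1 == x.2.2) = true) (re_and
      (re_all (p := fun (x : (α × β × β) × List (β × β)) (p : β × β) => r x.1.1 p.1 p.2)
        (re_comp' h (fun x : ((α × β × β) × List (β × β)) × β × β => (x.1.1.1, x.2))
          (by fun_prop)) (by fun_prop)) (re_prim (by fun_prop)))).of_eq fun ⟨a, x, y⟩ => ?_
  simp only [beq_iff_eq]
  constructor
  · rintro ⟨l, h, rfl⟩
    induction l with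
    | nil => exact .refl
    | cons p l ih =>
      have := ih fun q hq => h q (List.mem_cons_of_mem _ hq)
      rw [List.foldr_cons]
      cases e : p.1 == _
      · exact this
      · exact this.tail (eq_of_beq e ▸ h p List.mem_cons_self)
  · intro h
    induction h with
    | refl => exact ⟨[], by simp, rfl⟩
    | @tail y z _ k ih =>
      obtain ⟨l, h, e⟩ := ih
      exact ⟨(y, z) :: l, by simpa [k] using h, by simp [e]⟩

theorem select {p : α → β → Prop} (hp : REPred fun x : α × β => p x.1 x.2)
    (h : ∀ a, ∃ b, p a b) : ∃ f : α → β, Computable f ∧ ∀ a, p a (f a) := by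
  obtain ⟨R, h1, -, h3⟩ := CTools.re_stage hp
  have e1 : Primrec fun x : (α × ℕ) × β => R x.1.2.unpair.2 (x.1.1, x.2) :=
    h1.comp (show Primrec fun x : (α × ℕ) × β => (x.1.2.unpair.2, (x.1.1, x.2)) by fun_prop)
  let g : α → ℕ → Option β := fun a s => (Encodable.decode s.unpair.1 : Option β).bind
    fun b => bif R s.unpair.2 (a, b) then some b else none
  have hg : Primrec fun x : α × ℕ => g x.1 x.2 := by simp only [g]; fun_prop
  have d : ∀ a, (Nat.rfindOpt (g a)).Dom := fun a => by
    obtain ⟨b, hb⟩ := h a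
    obtain ⟨s, hs⟩ := (h3 (a, b)).1 hb
    exact Nat.rfindOpt_dom.2 ⟨Nat.pair (Encodable.encode b) s, b, by simp [g, hs]⟩
  refine ⟨fun a => (Nat.rfindOpt (g a)).get (d a),
    (Partrec.rfindOpt hg.to_comp).of_eq_tot fun a => Part.get_mem _, fun a => ?_⟩
  obtain ⟨s, hs⟩ := Nat.rfindOpt_spec (Part.get_mem (d a))
  dsimp only
  generalize (Nat.rfindOpt (g a)).get (d a) = b at hs
  simp only [g, Option.mem_def, Option.bind_eq_some_iff] at hs
  obtain ⟨c, -, hs⟩ := hs
  cases e : R s.unpair.2 (a, c) <;> simp [e] at hs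
  exact (h3 (a, b)).2 ⟨_, hs ▸ e⟩

end generic

abbrev Lab := (ℕ × ℕ) ⊕ ℕ
instance (priority := high) : BEq Lab := instBEqOfDecidableEq
instance : LawfulBEq Lab := instLawfulBEq
abbrev V := Lab × Fin 3 × Fin 3
abbrev S := MvPolynomial V ℤ
abbrev Po := List (List V)
abbrev Mx (R : Type) := Matrix (Fin 3) (Fin 3) R

noncomputable def toP (P : Po) : S := (P.map fun m => (m.map X).prod).sum

def mul (P Q : Po) : Po := P.flatMap fun m => Q.map fun m' => m ++ m'

theorem toP_append (P Q : Po) : toP (P ++ Q) = toP P + toP Q := by simp [toP]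

theorem toP_mul (P Q : Po) : toP (mul P Q) = toP P * toP Q := by
  induction P with
  | nil => simp [toP, mul]
  | cons m P ih =>
    rw [mul, List.flatMap_cons, toP_append, ← mul, ih]
    simp [toP, add_mul, ← List.sum_map_mul_left, Function.comp_def]

theorem toP_flatMap {ι : Type} (l : List ι) (f : ι → Po) :
    toP (l.flatMap f) = (l.map fun i => toP (f i)).sum := by
  induction l with
  | nil => rfl
  | cons i l ih => simp [toP_append, ih]

theorem toP_surj (s : S) : ∃ P Q, s = toP P - toP Q := by
  induction s using MvPolynomial.induction_on with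
  | C a =>
    have : ∀ n : ℕ, toP (List.replicate n []) = n := fun n => by simp [toP]
    exact ⟨List.replicate a.toNat [], List.replicate (-a).toNat [], by
      rw [this, this, eq_intCast, ← Int.cast_natCast a.toNat, ← Int.cast_natCast (-a).toNat,
        ← Int.cast_sub, Int.toNat_sub_toNat_neg]⟩
  | add p q hp hq =>
    obtain ⟨P, Q, rfl⟩ := hp
    obtain ⟨P', Q', rfl⟩ := hq
    exact ⟨P ++ P', Q ++ Q', by simp only [toP_append]; ring⟩
  | mul_X p n hp =>
    obtain ⟨P, Q, rfl⟩ := hp
    exact ⟨mul P [[n]], mul Q [[n]], by simp only [toP_mul]; simp [toP, sub_mul]⟩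

def pm (m m' : List V) : Bool :=
  (m ++ m').all fun x => (m.filter fun y => y == x).length == (m'.filter fun y => y == x).length

def eqB (P Q : Po) : Bool :=
  (P ++ Q).all fun m => (P.filter fun y => pm y m).length == (Q.filter fun y => pm y m).length

theorem pm_iff (m m' : List V) : pm m m' = true ↔
    Multiset.toFinsupp (m : Multiset V) = Multiset.toFinsupp (m' : Multiset V) := by
  rw [Multiset.toFinsupp.injective.eq_iff, Multiset.coe_eq_coe, List.perm_iff_count]
  simp only [pm, List.all_eq_true, beq_iff_eq, ← List.countP_eq_length_filter, ← List.count_eq_countP]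
  refine ⟨fun h x => ?_, fun h x _ => h x⟩
  by_cases c : x ∈ m ++ m'
  · exact h x c
  · simp only [List.mem_append, not_or] at c
    rw [List.count_eq_zero.2 c.1, List.count_eq_zero.2 c.2]

theorem coeff_toP (P : Po) (d : V →₀ ℕ) : coeff d (toP P) =
    (P.countP fun m : List V => Multiset.toFinsupp (m : Multiset V) = d : ℕ) := by
  have : ∀ m : List V, (m.map X).prod = (monomial (Multiset.toFinsupp (m : Multiset V)) 1 : S) :=
    fun m => by
      induction m with
      | nil => simp
      | cons x m ih =>
        rw [List.map_cons, List.prod_cons, ih, X, monomial_mul, ← Multiset.cons_coe,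
          ← Multiset.singleton_add, map_add, Multiset.toFinsupp_singleton, one_mul]
  induction P with
  | nil => simp [toP]
  | cons m P ih =>
    rw [← List.singleton_append, toP_append, coeff_add, ih, List.countP_append]
    simp [toP, this, coeff_monomial, List.countP_cons]

theorem eqB_iff (P Q : Po) : eqB P Q = true ↔ toP P = toP Q := by
  have : ∀ (P : Po) m, (P.filter fun y => pm y m).length = P.countP fun y : List V =>
      Multiset.toFinsupp (y : Multiset V) = Multiset.toFinsupp (m : Multiset V) := fun P m => by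
    rw [← List.countP_eq_length_filter]
    exact List.countP_congr fun y _ => by simp [pm_iff]
  simp only [eqB, List.all_eq_true, beq_iff_eq, this, MvPolynomial.ext_iff, coeff_toP,
    Nat.cast_inj]
  refine ⟨fun h d => ?_, fun h x _ => h _⟩
  by_cases c : ∃ m ∈ P ++ Q, Multiset.toFinsupp ((m : List V) : Multiset V) = d
  · obtain ⟨m, hm, rfl⟩ := c
    exact h m hm
  · push Not at c
    rw [List.countP_eq_zero.2 fun m hm => by simpa using c m (by simp [hm]),
      List.countP_eq_zero.2 fun m hm => by simpa using c m (by simp [hm])]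

def val {R : Type} [CommRing R] (φ : Lab → Mx R) (w : List Lab) : Mx R := (w.map φ).prod

noncomputable def GM : List Lab → Mx S := val fun x => Matrix.of fun i j => X (x, i, j)

def ent (w : List Lab) (i k : Fin 3) : Po :=
  (w.foldr (fun x L => [0, 1, 2].map fun i : Fin 3 => [0, 1, 2].flatMap fun j : Fin 3 =>
    (L.getD j []).map fun m => (x, i, j) :: m)
    ([0, 1, 2].map fun i : Fin 3 => bif i == k then [[]] else [])).getD i []

theorem toP_ent (w : List Lab) (i k : Fin 3) : toP (ent w i k) = GM w i k := by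
  induction w generalizing i with
  | nil => fin_cases i <;> fin_cases k <;> simp [ent, GM, val, toP]
  | cons x w ih =>
    have : ent (x :: w) i k = [0, 1, 2].flatMap fun j : Fin 3 => mul [[(x, i, j)]] (ent w j k) := by
      fin_cases i <;> simp [ent, mul]
    rw [this, toP_flatMap]
    simp only [toP_mul, ih]
    simp [GM, val, Matrix.mul_apply, Fin.sum_univ_three, toP, add_assoc]

section
variable {α : Type} [Primcodable α]
@[fun_prop] theorem mul_prim {f g : α → Po} (hf : Primrec f) (hg : Primrec g) :
    Primrec fun a => mul (f a) (g a) := by unfold mul; fun_prop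
@[fun_prop] theorem eqB_prim {f g : α → Po} (hf : Primrec f) (hg : Primrec g) :
    Primrec fun a => eqB (f a) (g a) := by unfold eqB pm; fun_prop
@[fun_prop] theorem ent_prim {f : α → List Lab} {g h : α → Fin 3} (hf : Primrec f)
    (hg : Primrec g) (hh : Primrec h) : Primrec fun a => ent (f a) (g a) (h a) := by
  unfold ent; fun_prop
end

def Mem (w : List Lab) (L : List (List Lab)) : Prop := GM w ∈ span S (GM '' {u | u ∈ L})

theorem re_mem : REPred fun x : List Lab × List (List Lab) => Mem x.1 x.2 := by
  refine (re_ex (p := fun (x : List Lab × List (List Lab)) (cs : List (List Lab × Po × Po)) =>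
    ((cs.all fun c => x.2.any fun u => u == c.1) && [0, 1, 2].all fun i : Fin 3 =>
      [0, 1, 2].all fun k : Fin 3 => eqB (ent x.1 i k ++ cs.flatMap fun c => mul c.2.1 (ent c.1 i k))
        (cs.flatMap fun c => mul c.2.2 (ent c.1 i k))) = true)
    (re_prim (by fun_prop))).of_eq fun ⟨w, L⟩ => ?_
  have a : ∀ i : Fin 3, i ∈ [0, 1, 2] := by decide
  have b : ∀ (cs : List (List Lab × Po × Po)), (∀ i k, GM w i k + (cs.map fun c =>
      toP c.2.1 * GM c.1 i k).sum = (cs.map fun c => toP c.2.2 * GM c.1 i k).sum) ↔
      GM w = (cs.map fun c => (toP c.2.2 - toP c.2.1) • GM c.1).sum := fun cs => by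
    rw [← Matrix.ext_iff]
    refine forall₂_congr fun i k => ?_
    rw [← eq_sub_iff_add_eq]
    refine Eq.congr_right ?_
    induction cs with
    | nil => simp
    | cons c cs ih => simp [← ih]; ring
  simp only [Bool.and_eq_true, List.all_eq_true, List.any_eq_true, beq_iff_eq, exists_eq_right, a,
    forall_const, eqB_iff, toP_append, toP_flatMap, toP_mul, toP_ent, b, Mem]
  constructor
  · rintro ⟨cs, h, e⟩
    rw [e]
    refine list_sum_mem fun x hx => ?_
    obtain ⟨c, hc, rfl⟩ := List.mem_map.1 hx
    exact smul_mem _ _ (subset_span ⟨_, h c hc, rfl⟩)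
  · intro h
    obtain ⟨n, f, g, e⟩ := mem_span_set'.1 h
    choose u hu eu using fun i => (g i).2
    choose P Q eP using fun i => toP_surj (f i)
    refine ⟨List.ofFn fun i => (u i, Q i, P i), by simpa using hu, ?_⟩
    simp [← e, List.map_ofFn, List.sum_ofFn, ← eP, eu]

theorem span_map {R R' : Type} [CommRing R] [CommRing R'] (f : R →+* R') {T : Set (Mx R)}
    {M : Mx R} (h : M ∈ span R T) : M.map f ∈ span R' ((fun M => M.map f) '' T) := by
  induction h using span_induction with
  | mem x h => exact subset_span ⟨x, h, rfl⟩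
  | zero => simp
  | add x y _ _ a b => rw [Matrix.map_add _ (map_add f)]; exact add_mem a b
  | smul a x _ h =>
    rw [show (a • x).map f = f a • x.map f by ext; simp]
    exact smul_mem _ _ h

theorem val_map {R R' : Type} [CommRing R] [CommRing R'] (f : R →+* R') (φ : Lab → Mx R)
    (w : List Lab) : (val φ w).map f = val (fun x => (φ x).map f) w := by
  induction w with
  | nil => simp [val]
  | cons x w ih => simpa [val, Matrix.map_mul] using congrArg _ ih

theorem Mem.sound {w L} (h : Mem w L) (φ : Lab → Mx ℚ) :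
    val φ w ∈ span ℚ (val φ '' {u | u ∈ L}) := by
  have e : ∀ u, (GM u).map (eval₂Hom (Int.castRingHom ℚ) fun v : V => φ v.1 v.2.1 v.2.2) =
      val φ u := fun u => by
    rw [GM, val_map]
    congr
    ext
    simp
  simpa only [Set.image_image, e] using
    span_map (eval₂Hom (Int.castRingHom ℚ) fun v : V => φ v.1 v.2.1 v.2.2) h

theorem noeth {K : Set Lab} (hK : K.Finite) {W : Set (List Lab)} (h : ∀ w ∈ W, ∀ x ∈ w, x ∈ K) :
    ∃ L : List (List Lab), (∀ u ∈ L, u ∈ W) ∧ ∀ w ∈ W, Mem w L := by
  classical
  haveI := hK.to_subtype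
  let g : List Lab → Mx (MvPolynomial (K × Fin 3 × Fin 3) ℤ) :=
    val fun x => if c : x ∈ K then Matrix.of fun i j => X (⟨x, c⟩, i, j) else 0
  let ι : MvPolynomial (K × Fin 3 × Fin 3) ℤ →+* S := (rename (Prod.map Subtype.val id)).toRingHom
  have e : ∀ w ∈ W, (g w).map ι = GM w := fun w hw => by
    rw [val_map, GM, val, val]
    congr 1
    refine List.map_congr_left fun x hx => ?_
    ext1
    simp [h w hw x hx, ι]
  obtain ⟨T, h1, h2⟩ := (fg_span_iff_fg_span_finset_subset (g '' W)).1
    (IsNoetherian.noetherian (R := MvPolynomial (K × Fin 3 × Fin 3) ℤ) _)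
  obtain ⟨T, h3, h4, h1⟩ := Set.Finite.exists_subset_finite_image_eq T.finite_toSet h1
  refine ⟨h4.toFinset.toList, fun u hu => h3 (by simpa using hu), fun w hw => ?_⟩
  have := span_map ι (h2.le (subset_span (Set.mem_image_of_mem g hw)))
  rw [e w hw, ← h1, Set.image_image] at this
  refine span_mono ?_ this
  rintro _ ⟨u, hu, rfl⟩
  exact ⟨u, by simpa using hu, (e u (h3 hu)).symm⟩

end Pool.Agent.H24.Idx
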