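import Pool.Agent.H24.Idx1

set_option autoImplicit false

namespace Pool.Agent.H24.Idx

open Pool.Agent.H23 RE Submodule Relation Sum

abbrev Rl := ℕ × ℕ × ℕ × List (ℕ ⊕ ℕ)
abbrev Fm := List ((ℕ × List ℕ) ⊕ ℕ)

def Act (o f : ℕ) (σ ρ : List ℕ) : Prop :=
  (o = 0 ∧ ρ = σ) ∨ (o = 1 ∧ ρ = f :: σ) ∨ (o = 2 ∧ σ = f :: ρ)

def pl (ρ : List ℕ) (α : List (ℕ ⊕ ℕ)) : Fm := α.map (Sum.elim (fun B => inl (B, ρ)) inr)

def Step (G : List Rl) (u v : Fm) : Prop := ∃ r ∈ G, ∃ pre suf σ ρ, Act r.1 r.2.2.1 σ ρ ∧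
  u = pre ++ inl (r.2.1, σ) :: suf ∧ v = pre ++ pl ρ r.2.2.2 ++ suf

inductive Gen (G : List Rl) (b : Prop) : Fm → List Lab → Prop
  | nil : Gen G b [] []
  | ter {u w} (a) : Gen G b u w → Gen G b (inr a :: u) (inr a :: w)
  | hole {u w} (B j) : b → j < 9 → Gen G b u w → Gen G b (inl (B, []) :: u) (inl (B, j) :: w)
  | rule {u w1 w2 σ ρ r} : r ∈ G → Act r.1 r.2.2.1 σ ρ → Gen G b (pl ρ r.2.2.2) w1 →
      Gen G b u w2 → Gen G b (inl (r.2.1, σ) :: u) (w1 ++ w2)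

variable {G : List Rl} {b : Prop}

theorem Gen.append {u w u' w'} (h : Gen G b u w) (k : Gen G b u' w') :
    Gen G b (u ++ u') (w ++ w') := by
  induction h with
  | nil => exact k
  | ter a _ ih => exact ih.ter a
  | hole B j x y _ ih => exact ih.hole B j x y
  | rule x y z _ _ ih => rw [List.append_assoc]; exact .rule x y z ih

theorem Gen.split {u u' w} (h : Gen G b (u ++ u') w) :
    ∃ w1 w2, w = w1 ++ w2 ∧ Gen G b u w1 ∧ Gen G b u' w2 := by
  induction u generalizing w with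
  | nil => exact ⟨[], w, rfl, .nil, h⟩
  | cons x u ih =>
    cases h with
    | ter a h => obtain ⟨w1, w2, rfl, p, q⟩ := ih h; exact ⟨_, _, rfl, p.ter a, q⟩
    | hole B j x y h => obtain ⟨w1, w2, rfl, p, q⟩ := ih h; exact ⟨_, _, rfl, p.hole B j x y, q⟩
    | rule x y z h =>
      obtain ⟨w1, w2, rfl, p, q⟩ := ih h
      exact ⟨_, _, (List.append_assoc ..).symm, .rule x y z p, q⟩

theorem gen_of {u} {w : List ℕ} (h : ReflTransGen (Step G) u (w.map inr)) :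
    Gen G b u (w.map inr) := by
  induction h using ReflTransGen.head_induction_on with
  | refl =>
    induction w with
    | nil => exact .nil
    | cons a w ih => exact ih.ter a
  | head k _ ih =>
    obtain ⟨r, hr, pre, suf, σ, ρ, a, rfl, rfl⟩ := k
    obtain ⟨w1, w2, e, p, q⟩ := ih.split
    obtain ⟨w1, w3, rfl, p, p'⟩ := p.split
    rw [e, List.append_assoc]
    exact p.append (.rule hr a p' q)

theorem ctx {u v : Fm} (h : ReflTransGen (Step G) u v) (s t : Fm) :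
    ReflTransGen (Step G) (s ++ u ++ t) (s ++ v ++ t) :=
  h.lift (fun x => s ++ x ++ t) fun _ _ ⟨r, hr, pre, suf, σ, ρ, a, e1, e2⟩ =>
    ⟨r, hr, s ++ pre, suf ++ t, σ, ρ, a, by simp [e1], by simp [e2]⟩

theorem of_gen {u w} (h : Gen G False u w) :
    ∃ w' : List ℕ, w = w'.map inr ∧ ReflTransGen (Step G) u (w'.map inr) := by
  induction h with
  | nil => exact ⟨[], rfl, .refl⟩
  | ter a _ ih =>
    obtain ⟨w, rfl, h⟩ := ih
    exact ⟨a :: w, rfl, by simpa using ctx h [inr a] []⟩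
  | hole _ _ x => exact x.elim
  | @rule u _ _ σ ρ r x y _ _ i1 i2 =>
    obtain ⟨w1, rfl, h1⟩ := i1
    obtain ⟨w2, rfl, h2⟩ := i2
    exact ⟨w1 ++ w2, by simp, .head ⟨r, x, [], u, σ, ρ, y, rfl, rfl⟩ ((ctx h1 [] u).trans
      (by simpa using ctx h2 (w1.map inr) []))⟩

def sub (γ : ℕ → List (List Lab)) (p : List Lab) : List (List Lab) :=
  p.foldr (fun x L => (Sum.elim (fun y => γ y.1) (fun a => [[inr a]]) x).flatMap
    fun u => L.map fun v => u ++ v) [[]]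

theorem mem_sub_cons {γ x p w} : w ∈ sub γ (x :: p) ↔
    ∃ u ∈ Sum.elim (fun y => γ y.1) (fun a => [[inr a]]) x, ∃ v ∈ sub γ p, u ++ v = w := by
  simp [sub]

theorem mem_sub_append {γ p q w} (h : w ∈ sub γ (p ++ q)) :
    ∃ u ∈ sub γ p, ∃ v ∈ sub γ q, u ++ v = w := by
  induction p generalizing w with
  | nil => exact ⟨[], by simp [sub], w, h, rfl⟩
  | cons x p ih =>
    obtain ⟨u, hu, v, hv, rfl⟩ := mem_sub_cons.1 h
    obtain ⟨u', hu', v', hv', rfl⟩ := ih hv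
    exact ⟨u ++ u', mem_sub_cons.2 ⟨u, hu, u', hu', rfl⟩, v', hv', by simp⟩

def ex (s : List ℕ) (u : Fm) : Fm := u.map (Sum.map (fun y => (y.1, y.2 ++ s)) id)

theorem ex_pl (s ρ α) : ex s (pl ρ α) = pl (ρ ++ s) α := by
  simp only [ex, pl, List.map_map]
  exact List.map_congr_left fun x _ => by cases x <;> rfl

theorem Gen.subst {b' : Prop} {γ s β p u} (h : Gen G b' β p) (k : u ∈ sub γ p)
    (hγ : ∀ C, ∀ v ∈ γ C, Gen G b [inl (C, s)] v) : Gen G b (ex s β) u := by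
  induction h generalizing u with
  | nil => obtain rfl : u = [] := by simpa [sub] using k
           exact .nil
  | ter a _ ih =>
    obtain ⟨u, hu, v, hv, rfl⟩ := mem_sub_cons.1 k
    obtain rfl : u = [inr a] := by simpa using hu
    exact (ih hv).ter a
  | hole B j _ _ _ ih =>
    obtain ⟨u, hu, v, hv, rfl⟩ := mem_sub_cons.1 k
    exact (hγ B u hu).append (ih hv)
  | @rule _ _ _ σ ρ r x y _ _ i1 i2 =>
    obtain ⟨u, hu, v, hv, rfl⟩ := mem_sub_append k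
    refine .rule (ρ := ρ ++ s) x ?_ (ex_pl .. ▸ i1 hu) (i2 hv)
    rcases y with ⟨a, rfl⟩ | ⟨a, rfl⟩ | ⟨a, rfl⟩ <;> simp [Act, a]

def lb (α : List (ℕ ⊕ ℕ)) : List Lab := α.map (Sum.elim (fun B => inl (B, 0)) inr)

theorem gen_lb (α) : Gen G True (pl [] α) (lb α) := by
  induction α with
  | nil => exact .nil
  | cons x α ih =>
    cases x
    exacts [ih.hole _ 0 trivial (by omega), ih.ter _]

def key : (ℕ × List ℕ) ⊕ ℕ → ℕ ⊕ ℕ := Sum.map Prod.fst id

theorem Gen.fin {K : Set (ℕ ⊕ ℕ)} (hK : ∀ r ∈ G, ∀ x ∈ r.2.2.2, x ∈ K) {u w} (h : Gen G b u w)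
    (k : ∀ y ∈ u, key y ∈ K) : ∀ x ∈ w, x ∈ (fun p : (ℕ ⊕ ℕ) × ℕ =>
      Sum.map (fun B => (B, p.2)) id p.1) '' (K ×ˢ Set.Iio 9) := by
  induction h with
  | nil => simp
  | ter a _ ih =>
    simp only [List.forall_mem_cons] at k ⊢
    exact ⟨⟨(inr a, 0), ⟨k.1, by simp⟩, rfl⟩, ih k.2⟩
  | hole B j _ y _ ih =>
    simp only [List.forall_mem_cons] at k ⊢
    exact ⟨⟨(inl B, j), ⟨k.1, y⟩, rfl⟩, ih k.2⟩
  | @rule _ _ _ _ _ r x _ _ _ i1 i2 =>
    simp only [List.forall_mem_cons, List.forall_mem_append] at k ⊢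
    refine ⟨i1 fun y hy => ?_, i2 k.2⟩
    obtain ⟨z, hz, rfl⟩ := List.mem_map.1 hy
    cases z <;> exact hK r x _ hz

abbrev Ce := List (Option ℕ × ℕ × List Lab)

def gs (c : Ce) (τ : Option ℕ) (B : ℕ) : List (List Lab) :=
  (c.filter fun t => t.1 == τ && t.2.1 == B).map fun t => t.2.2

theorem mem_gs {c τ B u} : u ∈ gs c τ B ↔ (τ, B, u) ∈ c := by
  simp only [gs, List.mem_map, List.mem_filter, Bool.and_eq_true, beq_iff_eq]
  exact ⟨fun ⟨⟨_, _, _⟩, ⟨h, rfl, rfl⟩, rfl⟩ => h, fun h => ⟨_, ⟨h, rfl, rfl⟩, rfl⟩⟩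

def hl (B : ℕ) : List (List Lab) := (List.range 9).map fun j => [inl (B, j)]

def req (c : Ce) (τ : Option ℕ) (r : Rl) : List (List Lab) :=
  bif r.1 == 0 then sub (gs c τ) (lb r.2.2.2) else
  bif r.1 == 1 then (sub (gs c (some r.2.2.1)) (lb r.2.2.2)).flatMap (sub (gs c τ)) else
  bif r.1 == 2 && τ == some r.2.2.1 then sub hl (lb r.2.2.2) else []

def Ts (G : List Rl) : List (Option ℕ) := none :: G.map fun r => some r.2.2.1

def Cert (G : List Rl) (c : Ce) : Prop :=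
  ∀ τ ∈ Ts G, ∀ r ∈ G, ∀ w ∈ req c τ r, Mem w (gs c τ r.2.1)

theorem exists_cert (G : List Rl) : ∃ c, Cert G c ∧
    ∀ τ B, ∀ u ∈ gs c τ B, Gen G (τ.isSome = true) [inl (B, τ.toList)] u := by
  have : ∀ (τ : Option ℕ) (A : ℕ), ∃ L : List (List Lab),
      (∀ u ∈ L, u ∈ {w | Gen G (τ.isSome = true) [inl (A, τ.toList)] w}) ∧
      ∀ w ∈ {w | Gen G (τ.isSome = true) [inl (A, τ.toList)] w}, Mem w L := fun τ A =>
    noeth (((List.finite_toSet (inl A :: G.flatMap fun r => r.2.2.2)).prod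
      (Set.finite_Iio 9)).image _) fun w hw => Gen.fin (fun r hr x hx =>
        List.mem_cons_of_mem _ (List.mem_flatMap.2 ⟨r, hr, hx⟩)) hw (by
        simp only [List.mem_singleton, forall_eq]; exact List.mem_cons_self)
  choose L h1 h2 using this
  let c : Ce := (Ts G).flatMap fun τ => G.flatMap fun r => (L τ r.2.1).map fun u => (τ, r.2.1, u)
  have k : ∀ τ B, ∀ u ∈ gs c τ B, Gen G (τ.isSome = true) [inl (B, τ.toList)] u := by
    intro τ B u hu
    simp only [mem_gs, c, List.mem_flatMap, List.mem_map, Prod.mk.injEq] at hu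
    obtain ⟨_, -, r, -, _, h, rfl, rfl, rfl⟩ := hu
    exact h1 _ _ _ h
  refine ⟨c, fun τ hτ r hr w hw => span_mono (Set.image_mono fun u hu => ?_) (h2 τ r.2.1 w ?_), k⟩
  · simp only [mem_gs, c, List.mem_flatMap, List.mem_map, Set.mem_ofPred_eq]
    exact ⟨τ, hτ, r, hr, u, hu, rfl⟩
  have f : ∀ ρ, Act r.1 r.2.2.1 τ.toList ρ → Gen G (τ.isSome = true) (pl ρ r.2.2.2) w →
      Gen G (τ.isSome = true) [inl (r.2.1, τ.toList)] w := fun ρ a g => by
    simpa using Gen.rule hr a g .nil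
  simp only [req, Bool.cond_eq_ite, beq_iff_eq, Bool.and_eq_true] at hw
  split_ifs at hw with a a a
  · exact f _ (.inl ⟨a, rfl⟩) (by simpa [ex_pl] using (gen_lb _).subst hw (k τ))
  · obtain ⟨p, hp, hw⟩ := List.mem_flatMap.1 hw
    exact f _ (.inr (.inl ⟨a, rfl⟩))
      (by simpa [ex_pl] using ((gen_lb _).subst hp (k _)).subst hw (k τ))
  · obtain ⟨a, rfl⟩ := a
    refine f [] (.inr (.inr ⟨a, rfl⟩)) ?_
    simpa [ex_pl] using (gen_lb _).subst (b := True) (s := []) hw fun C v hv => by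
      obtain ⟨j, hj, rfl⟩ := List.mem_map.1 hv
      exact .hole C j trivial (List.mem_range.1 hj) .nil
  · cases hw

section sound
variable (φ : ℕ → Mx ℚ)

abbrev vl (e : ℕ → ℕ → Mx ℚ) : List Lab → Mx ℚ := val (Sum.elim (fun p => e p.1 p.2) φ)

abbrev Sp (e : ℕ → ℕ → Mx ℚ) (L : List (List Lab)) : Submodule ℚ (Mx ℚ) :=
  span ℚ (vl φ e '' {u | u ∈ L})

def Q (U : ℕ → Submodule ℚ (Mx ℚ)) (p : List Lab) : Submodule ℚ (Mx ℚ) :=
  (p.map (Sum.elim (fun y => U y.1) fun a => span ℚ {φ a})).prod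

theorem Q_le (e γ) (p : List Lab) : Q φ (fun B => Sp φ e (γ B)) p ≤ Sp φ e (sub γ p) := by
  induction p with
  | nil => exact one_le.2 (subset_span ⟨[], by simp [sub], rfl⟩)
  | cons x p ih =>
    have : Sum.elim (fun y : ℕ × ℕ => Sp φ e (γ y.1)) (fun a => span ℚ {φ a}) x =
        Sp φ e (Sum.elim (fun y => γ y.1) (fun a => [[inr a]]) x) := by
      cases x <;> simp [Sp, val]
    rw [Q, List.map_cons, List.prod_cons, this]
    refine (mul_le_mul' le_rfl ih).trans ?_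
    rw [span_mul_span]
    refine span_mono ?_
    rintro _ ⟨_, ⟨u, hu, rfl⟩, _, ⟨v, hv, rfl⟩, rfl⟩
    exact ⟨u ++ v, mem_sub_cons.2 ⟨u, hu, v, hv, rfl⟩, by simp [val]⟩

theorem Q_mono {U U'} (h : ∀ B, U B ≤ U' B) (p : List Lab) : Q φ U p ≤ Q φ U' p := by
  induction p with
  | nil => rfl
  | cons x p ih => exact mul_le_mul' (by cases x; exacts [h _, le_rfl]) ih

theorem mem_Q {U e} (h : ∀ B j, e B j ∈ U B) (p : List Lab) : vl φ e p ∈ Q φ U p := by
  induction p with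
  | nil => exact one_le.1 le_rfl
  | cons x p ih => exact mul_mem_mul (by cases x; exacts [h _ _, subset_span rfl]) ih

theorem ch (U : Submodule ℚ (Mx ℚ)) :
    ∃ z : ℕ → Mx ℚ, (∀ j, z j ∈ U) ∧ U ≤ span ℚ (z '' Set.Iio 9) := by
  obtain ⟨f, h1, h2, -⟩ := exists_fun_fin_finrank_span_eq ℚ (U : Set (Mx ℚ))
  have : Module.finrank ℚ (span ℚ (U : Set (Mx ℚ))) ≤ 9 :=
    (finrank_le _).trans (by simp [Module.finrank_matrix])
  refine ⟨fun j => if h : j < _ then f ⟨j, h⟩ else 0, fun j => ?_,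
    (span_eq U).ge.trans (h2.ge.trans (span_mono ?_))⟩
  · dsimp only
    split_ifs
    exacts [h1 _, zero_mem _]
  · rintro _ ⟨i, rfl⟩
    exact ⟨i, i.2.trans_le this, dif_pos i.2⟩

noncomputable def env (c : Ce) : List ℕ → ℕ → ℕ → Mx ℚ
  | [] => 0
  | _ :: ρ => fun B => (ch (Sp φ (env c ρ) (gs c ρ.head? B))).choose

theorem sound {c} (hc : Cert G c) {u w} (h : Gen G False u w)
    (k : ∀ B σ, inl (B, σ) ∈ u → ∀ f ∈ σ, some f ∈ Ts G) : vl φ 0 w ∈ (u.map (Sum.elim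
      (fun y => Sp φ (env φ c y.2) (gs c y.2.head? y.1)) fun a => span ℚ {φ a})).prod := by
  induction h with
  | nil => exact one_le.1 le_rfl
  | ter a _ ih => exact mul_mem_mul (subset_span rfl) (ih fun B σ h => k B σ (by simp [h]))
  | hole _ _ x => exact x.elim
  | @rule u w1 w2 σ ρ r x y _ _ i1 i2 =>
    have k1 := k _ _ List.mem_cons_self
    have k2 : some r.2.2.1 ∈ Ts G := List.mem_cons_of_mem _ (List.mem_map_of_mem x)
    have k3 : σ.head? ∈ Ts G := by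
      cases σ
      exacts [List.mem_cons_self, k1 _ List.mem_cons_self]
    have i1 := i1 fun B σ' h => by
      obtain rfl : σ' = ρ := by
        obtain ⟨z, -, e⟩ := List.mem_map.1 h
        cases z <;> cases e
        rfl
      rcases y with ⟨-, rfl⟩ | ⟨-, rfl⟩ | ⟨-, rfl⟩ <;> simp_all
    rw [show vl φ 0 (w1 ++ w2) = vl φ 0 w1 * vl φ 0 w2 by simp [val]]
    refine mul_mem_mul ?_ (i2 fun B σ h => k B σ (by simp [h]))
    have i1 : vl φ 0 w1 ∈ Q φ (fun B => Sp φ (env φ c ρ) (gs c ρ.head? B)) (lb r.2.2.2) := by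
      convert i1 using 1
      simp only [Q, lb, pl, List.map_map]
      exact congrArg _ (List.map_congr_left fun x _ => by cases x <;> rfl)
    have f : ∀ L, (∀ w ∈ L, w ∈ req c σ.head? r) → Sp φ (env φ c σ) L ≤
        Sp φ (env φ c σ) (gs c σ.head? r.2.1) := fun L hL => span_le.2 (by
      rintro _ ⟨u, hu, rfl⟩
      exact (hc _ k3 r x u (hL u hu)).sound _)
    rcases y with ⟨a, rfl⟩ | ⟨a, rfl⟩ | ⟨a, rfl⟩
    · exact f _ (by simp [req, a]) (Q_le φ _ _ _ i1)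
    · refine (span_le.2 ?_ : _ ≤ Sp ..) (Q_le φ _ _ _ i1)
      rintro _ ⟨p, hp, rfl⟩
      refine f _ (fun w hw => ?_) (Q_le φ _ (gs c σ.head?) p (mem_Q φ (fun B j =>
        (ch _).choose_spec.1 j) p))
      simp only [req, a]
      exact List.mem_flatMap.2 ⟨p, hp, hw⟩
    · refine f _ (by simp [req, a]) (Q_le φ _ hl _ (Q_mono φ (fun B =>
        (ch _).choose_spec.2.trans (span_mono ?_)) _ i1))
      rintro _ ⟨j, hj, rfl⟩
      exact ⟨[inl (B, j)], List.mem_map.2 ⟨j, List.mem_range.2 hj, rfl⟩, by simp [val, env]⟩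

end sound

end Pool.Agent.H24.Idx
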