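import Pool.Agent.H24.Idx2

set_option autoImplicit false

namespace Pool.Agent.H24.Idx

open Pool.Agent.H23 RE Submodule Relation Sum Matrix

def La (x : ℕ × List Rl) (w : List ℕ) : Prop := ReflTransGen (Step x.2) [inl (x.1, [])] (w.map inr)

def act {R : Type} [CommRing R] (x : List ℕ) (t : R) : R := x.foldr (fun e t => 2 ^ (e + 1) * t + 1) t

theorem act_aff (x : List ℕ) (t : ℚ) : act x t = (act x 1 - act x 0) * t + act x 0 := by
  induction x with
  | nil => simp [act]
  | cons e x ih => simp only [act, List.foldr_cons] at ih ⊢; rw [ih]; ring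

theorem act_cast (x : List ℕ) : act x (1 : ℚ) = (act x (1 : ℤ) : ℤ) := by
  induction x with
  | nil => simp [act]
  | cons e x ih => simp only [act, List.foldr_cons] at ih ⊢; rw [ih]; push_cast; rfl

theorem act_odd (x : List ℕ) : act x (1 : ℤ) % 2 = 1 := by
  cases x with
  | nil => rfl
  | cons e x => simp [act, pow_succ, mul_comm _ (2 : ℤ), mul_assoc]

theorem act_inj {x y : List ℕ} (h : act x (1 : ℤ) = act y 1) : x = y := by
  have z : ∀ (e : ℕ) (x : List ℕ), 2 ^ (e + 1) * act x (1 : ℤ) ≠ 0 := fun e x =>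
    mul_ne_zero (by positivity) fun h => by simpa [h] using act_odd x
  have l : ∀ (e e' : ℕ) (x y : List ℕ), 2 ^ e * act x (1 : ℤ) = 2 ^ e' * act y 1 → ¬ e < e' :=
    fun e e' x y h k => by
      obtain ⟨d, rfl⟩ := Nat.exists_eq_add_of_lt k
      have := act_odd x
      rw [add_assoc, pow_add, mul_assoc, mul_right_inj' (by positivity), pow_succ', mul_assoc] at h
      omega
  induction x generalizing y with
  | nil =>
    cases y with
    | nil => rfl
    | cons e y => exact (z e y (by simpa [act] using h)).elim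
  | cons e x ih =>
    cases y with
    | nil => exact (z e x (by simpa [act] using h)).elim
    | cons e' y =>
      have h : 2 ^ (e + 1) * act x (1 : ℤ) = 2 ^ (e' + 1) * act y 1 := add_right_cancel h
      obtain rfl : e = e' := by have := l _ _ _ _ h; have := l _ _ _ _ h.symm; omega
      rw [ih (mul_left_cancel₀ (by positivity) h)]

def ph (h g : ℕ → List ℕ) (a : ℕ) : Mx ℚ :=
  !![act (h a) 1 - act (h a) 0, 0, act (h a) 0; 0, act (g a) 1 - act (g a) 0, act (g a) 0; 0, 0, 1]

theorem ph_vec (h g e) (w : List ℕ) : vl (ph h g) e (w.map inr) *ᵥ ![1, 1, 1] =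
    ![act (w.flatMap h) 1, act (w.flatMap g) 1, 1] := by
  induction w with
  | nil => simp [val, act]
  | cons a w ih =>
    rw [show vl (ph h g) e ((a :: w).map inr) = ph h g a * vl (ph h g) e (w.map inr) from rfl,
      ← mulVec_mulVec, ih]
    have : ∀ x y (t : ℚ), act (x ++ y) t = act x (act y t) := fun x y t => List.foldr_append
    simp only [List.flatMap_cons, this]
    rw [act_aff (h a), act_aff (g a)]
    ext i
    fin_cases i <;> simp [ph, mulVec, dotProduct, Fin.sum_univ_three]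

theorem test {x : ℕ × List Rl} {c} (hc : Cert x.2 c) {F : List (List ℕ)}
    (e : gs c none x.1 = F.map fun w => w.map inr) (h g : ℕ → List ℕ)
    (k : ∀ w ∈ F, w.flatMap h = w.flatMap g) {w} (hw : La x w) : w.flatMap h = w.flatMap g := by
  have := sound (ph h g) hc (gen_of hw) (by simp)
  simp only [List.map_cons, elim_inl, List.map_nil, List.prod_cons, List.prod_nil, mul_one,
    List.head?_nil, e] at this
  have : ∀ M ∈ Sp (ph h g) (env (ph h g) c []) (F.map fun w => w.map inr),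
      (M *ᵥ ![1, 1, 1]) 0 = (M *ᵥ ![1, 1, 1]) 1 := fun M hM => by
    induction hM using span_induction with
    | mem x hx =>
      obtain ⟨_, hu, rfl⟩ := hx
      obtain ⟨u, hu', rfl⟩ := List.mem_map.1 hu
      rw [ph_vec, k u hu']
      rfl
    | zero => simp
    | add x y _ _ a b => rw [add_mulVec, Pi.add_apply, Pi.add_apply, a, b]
    | smul a x _ h => rw [smul_mulVec, Pi.smul_apply, Pi.smul_apply, h]
  have := this _ ‹_›
  rw [ph_vec] at this
  exact act_inj (by simpa [act_cast] using this)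

section
variable {α : Type} [Primcodable α]
@[fun_prop] theorem sub_prim {γ : α → ℕ → List (List Lab)} {p : α → List Lab}
    (hγ : Primrec fun x : α × ℕ => γ x.1 x.2) (hp : Primrec p) :
    Primrec fun a => sub (γ a) (p a) := by
  have : Primrec fun x : (α × Lab × List (List Lab)) × ℕ × ℕ => γ x.1.1 x.2.1 :=
    hγ.comp (g := fun x : (α × Lab × List (List Lab)) × ℕ × ℕ => (x.1.1, x.2.1)) (by fun_prop)
  unfold sub; fun_prop
@[fun_prop] theorem gs_prim {c : α → Ce} {τ : α → Option ℕ} {B : α → ℕ} (h1 : Primrec c)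
    (h2 : Primrec τ) (h3 : Primrec B) : Primrec fun a => gs (c a) (τ a) (B a) := by
  unfold gs; fun_prop
end

theorem re_cert : REPred fun x : List Rl × Ce => Cert x.1 x.2 :=
  re_all (p := fun (x : List Rl × Ce) τ => ∀ r ∈ x.1, ∀ w ∈ req x.2 τ r, Mem w (gs x.2 τ r.2.1))
    (re_all (p := fun (x : (List Rl × Ce) × Option ℕ) r =>
      ∀ w ∈ req x.1.2 x.2 r, Mem w (gs x.1.2 x.2 r.2.1))
      (re_all (p := fun (x : ((List Rl × Ce) × Option ℕ) × Rl) w =>
        Mem w (gs x.1.1.2 x.1.2 x.2.2.1)) (re_comp' re_mem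
          (fun x : (((List Rl × Ce) × Option ℕ) × Rl) × List Lab =>
            (x.2, gs x.1.1.1.2 x.1.1.2 x.1.2.2.1)) (by fun_prop))
        (by unfold req lb hl; fun_prop)) (by fun_prop)) (by unfold Ts; fun_prop)

instance (priority := high) : BEq ((ℕ × List ℕ) ⊕ ℕ) := instBEqOfDecidableEq
instance : LawfulBEq ((ℕ × List ℕ) ⊕ ℕ) := instLawfulBEq

theorem re_la : REPred fun x : (ℕ × List Rl) × List ℕ => La x.1 x.2 := by
  refine re_comp' (re_rtg (r := Step) ?_) (fun x : (ℕ × List Rl) × List ℕ =>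
    (x.1.2, [inl (x.1.1, [])], x.2.map fun a => inr a)) (by fun_prop)
  refine (re_ex (p := fun (x : List Rl × Fm × Fm) (y : Fm × Fm × List ℕ × List ℕ) =>
    (x.1.any fun r => (r.1 == 0 && y.2.2.2 == y.2.2.1 || (r.1 == 1 && y.2.2.2 == r.2.2.1 :: y.2.2.1
      || r.1 == 2 && y.2.2.1 == r.2.2.1 :: y.2.2.2)) && (x.2.1 == y.1 ++ inl (r.2.1, y.2.2.1) :: y.2.1
      && x.2.2 == y.1 ++ pl y.2.2.2 r.2.2.2 ++ y.2.1)) = true)
    (re_prim (by unfold pl; fun_prop))).of_eq fun ⟨G, u, v⟩ => ?_
  simp only [List.any_eq_true, Bool.and_eq_true, Bool.or_eq_true, beq_iff_eq, Prod.exists, Step, Act]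
  exact ⟨fun ⟨a, b, c, d, e, f, g, h, i, j⟩ => ⟨e, f, g, h, i, a, b, c, d, j⟩,
    fun ⟨e, f, g, h, i, a, b, c, d, j⟩ => ⟨a, b, c, d, e, f, g, h, i, j⟩⟩

theorem main : ∃ F : ℕ × List Rl → List (List ℕ), Computable F ∧ ∀ x, (∀ w ∈ F x, La x w) ∧
    ∀ h g : ℕ → List ℕ, (∀ w ∈ F x, w.flatMap h = w.flatMap g) →
      ∀ w, La x w → w.flatMap h = w.flatMap g := by
  obtain ⟨F, h1, h2⟩ := select (p := fun (x : ℕ × List Rl) (F : List (List ℕ)) =>
    (∀ w ∈ F, La x w) ∧ ∃ c, Cert x.2 c ∧ (gs c none x.1 == F.map fun w => w.map fun a => inr a) = true)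
    (re_and (re_all (p := fun (x : (ℕ × List Rl) × List (List ℕ)) w => La x.1 w)
      (re_comp' re_la (fun x : ((ℕ × List Rl) × List (List ℕ)) × List ℕ => (x.1.1, x.2))
        (by fun_prop)) (by fun_prop))
      (re_ex (p := fun (x : (ℕ × List Rl) × List (List ℕ)) c => Cert x.1.2 c ∧
        (gs c none x.1.1 == x.2.map fun w => w.map fun a => inr a) = true) (re_and (re_comp' re_cert
          (fun x : ((ℕ × List Rl) × List (List ℕ)) × Ce => (x.1.1.2, x.2)) (by fun_prop))
          (re_prim (by fun_prop))))) fun x => by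
    obtain ⟨c, h1, h2⟩ := exists_cert x.2
    have : ∀ L : List (List Lab), (∀ u ∈ L, Gen x.2 False [inl (x.1, [])] u) →
        ∃ F : List (List ℕ), (∀ w ∈ F, La x w) ∧ L = F.map fun w => w.map inr := fun L hL => by
      induction L with
      | nil => exact ⟨[], by simp, rfl⟩
      | cons u L ih =>
        rw [List.forall_mem_cons] at hL
        obtain ⟨F, a, rfl⟩ := ih hL.2
        obtain ⟨w, rfl, b⟩ := of_gen hL.1
        exact ⟨w :: F, List.forall_mem_cons.2 ⟨b, a⟩, rfl⟩
    obtain ⟨F, a, b⟩ := this _ (by simpa using h2 none x.1)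
    exact ⟨F, a, c, h1, beq_iff_eq.2 b⟩
  exact ⟨F, h1, fun x => ⟨(h2 x).1, fun h g k w hw =>
    let ⟨_, a, b⟩ := (h2 x).2; test a (beq_iff_eq.1 b) h g k hw⟩⟩

end Pool.Agent.H24.Idx
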