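import Pool.Agent.H24.Idx3

set_option autoImplicit false

namespace Pool.Agent.H24.Idx

open Pool.Agent.H23 RE Relation Sum

def tr (r : ℕ × ℕ × ℕ × ℕ) : Rl :=
  bif r.1 == 0 then (0, r.2.1, 0, [inl r.2.2.1, inl r.2.2.2]) else
  bif r.1 == 1 then (1, r.2.1, r.2.2.2, [inl r.2.2.1]) else
  bif r.1 == 2 then (2, r.2.1, r.2.2.2, [inl r.2.2.1]) else
  bif r.1 == 3 then (0, r.2.1, 0, [inr r.2.2.1]) else
  bif r.1 == 4 then (0, r.2.1, 0, []) else (3, r.2.1, 0, [])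

theorem step_tr (P : List (ℕ × ℕ × ℕ × ℕ)) : (fun (u v : List ((ℕ × List ℕ) ⊕ ℕ)) =>
    ∃ (pre suf : List ((ℕ × List ℕ) ⊕ ℕ)) (A : ℕ) (σ : List ℕ),
      u = pre ++ Sum.inl (A, σ) :: suf ∧
      ∃ r ∈ P, r.2.1 = A ∧
        ((r.1 = 0 ∧
            v = pre ++ Sum.inl (r.2.2.1, σ) :: Sum.inl (r.2.2.2, σ) :: suf) ∨
         (r.1 = 1 ∧ v = pre ++ Sum.inl (r.2.2.1, r.2.2.2 :: σ) :: suf) ∨
         (r.1 = 2 ∧ ∃ τ : List ℕ, σ = r.2.2.2 :: τ ∧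
            v = pre ++ Sum.inl (r.2.2.1, τ) :: suf) ∨
         (r.1 = 3 ∧ v = pre ++ Sum.inr r.2.2.1 :: suf) ∨
         (r.1 = 4 ∧ v = pre ++ suf))) = Step (P.map fun r => tr r) := by
  ext u v
  constructor
  · rintro ⟨pre, suf, A, σ, rfl, ⟨k, _, x, y⟩, hr, rfl, h⟩
    refine ⟨_, List.mem_map_of_mem hr, pre, suf, σ, ?_⟩
    rcases h with ⟨rfl, rfl⟩ | ⟨rfl, rfl⟩ | ⟨rfl, τ, rfl, rfl⟩ | ⟨rfl, rfl⟩ | ⟨rfl, rfl⟩ <;>
      simp [tr, Act, pl]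
  · rintro ⟨_, hr, pre, suf, σ, ρ, a, rfl, rfl⟩
    obtain ⟨⟨k, A, x, y⟩, hr', rfl⟩ := List.mem_map.1 hr
    refine ⟨pre, suf, A, σ, ?_, _, hr', rfl, ?_⟩ <;>
      rcases k with _ | _ | _ | _ | _ | k <;> simp_all [tr, Act, pl]

theorem dec : ComputablePred
    fun p : ℕ × List (ℕ × ℕ × ℕ × ℕ) × List (List ℕ) × List (List ℕ) =>
      ∀ w : List ℕ, La (p.1, p.2.1.map fun r => tr r) w →
        w.flatMap (fun a => p.2.2.1.getD a []) = w.flatMap (fun a => p.2.2.2.getD a []) := by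
  obtain ⟨F, h1, h2⟩ := main
  refine ComputablePred.computable_iff.2 ⟨fun p => (F (p.1, p.2.1.map fun r => tr r)).all fun w =>
    w.flatMap (fun a => p.2.2.1.getD a []) == w.flatMap (fun a => p.2.2.2.getD a []), ?_, ?_⟩
  · exact (Primrec.to_comp (f := fun x : (ℕ × List (ℕ × ℕ × ℕ × ℕ) × List (List ℕ) ×
      List (List ℕ)) × List (List ℕ) => x.2.all fun w => w.flatMap (fun a => x.1.2.2.1.getD a []) ==
        w.flatMap (fun a => x.1.2.2.2.getD a [])) (by fun_prop)).comp (Computable.id.pair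
          (h1.comp (Primrec.to_comp (by unfold tr; fun_prop))))
  · ext p
    simp only [List.all_eq_true, beq_iff_eq]
    exact ⟨fun h w hw => h w ((h2 _).1 w hw), (h2 _).2 _ _⟩

end Pool.Agent.H24.Idx
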