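import Pool.Agent.H24.Idx3

set_option autoImplicit false

namespace Pool.Agent.H24.Idx

open Pool.Agent.H23 RE Relation Sum FreeMonoid

/-- An indexed grammar with nonterminals, index symbols and terminals coded by numbers: the start
symbol, the rules `A → α` as pairs `(A, α)`, the rules `A → B f` as triples `(A, B, f)`, and the
rules `A f → α` as triples `(A, f, α)`.  In `α`, `inl B` is a nonterminal, `inr a` a terminal. -/
abbrev IG := ℕ × List (ℕ × List (ℕ ⊕ ℕ)) × List (ℕ × ℕ × ℕ) × List (ℕ × ℕ × List (ℕ ⊕ ℕ))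

/-- `α` with every nonterminal carrying the stack `σ` -/
def carry (σ : List ℕ) (α : List (ℕ ⊕ ℕ)) : List ((ℕ × List ℕ) ⊕ ℕ) :=
  α.map (Sum.map (fun B => (B, σ)) id)

def IStep (G : IG) (u v : List ((ℕ × List ℕ) ⊕ ℕ)) : Prop :=
  ∃ x y A σ β, u = x ++ inl (A, σ) :: y ∧ v = x ++ β ++ y ∧
    ((∃ α, (A, α) ∈ G.2.1 ∧ β = carry σ α) ∨
     (∃ B f, (A, B, f) ∈ G.2.2.1 ∧ β = [inl (B, f :: σ)]) ∨
     (∃ f τ α, (A, f, α) ∈ G.2.2.2 ∧ σ = f :: τ ∧ β = carry τ α))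

def ILang (G : IG) : Set (List ℕ) :=
  {w | ReflTransGen (IStep G) [inl (G.1, [])] (w.map inr)}

def IsTestSet (L : Set (List ℕ)) (F : List (List ℕ)) : Prop :=
  (∀ w ∈ F, w ∈ L) ∧ ∀ (Δ : Type) [Finite Δ] (g h : FreeMonoid ℕ →* FreeMonoid Δ),
    (∀ w ∈ L, g (ofList w) = h (ofList w)) ↔ ∀ w ∈ F, g (ofList w) = h (ofList w)

def tg (G : IG) : ℕ × List Rl :=
  (G.1, (G.2.1.map fun r => (0, r.1, 0, r.2)) ++ (G.2.2.1.map fun r => (1, r.1, r.2.2, [inl r.2.1]))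
    ++ G.2.2.2.map fun r => (2, r))

theorem step_tg (G : IG) : IStep G = Step (tg G).2 := by
  have : ∀ σ α, carry σ α = pl σ α := fun σ α => List.map_congr_left fun x _ => by cases x <;> rfl
  ext u v
  simp only [IStep, this, Step, tg, List.mem_append, List.mem_map]
  constructor
  · rintro ⟨x, y, A, σ, β, rfl, rfl, ⟨α, h, rfl⟩ | ⟨B, f, h, rfl⟩ | ⟨f, τ, α, h, rfl, rfl⟩⟩
    exacts [⟨_, .inl (.inl ⟨_, h, rfl⟩), x, y, σ, σ, .inl ⟨rfl, rfl⟩, rfl, rfl⟩,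
      ⟨_, .inl (.inr ⟨_, h, rfl⟩), x, y, σ, _, .inr (.inl ⟨rfl, rfl⟩), rfl, rfl⟩,
      ⟨_, .inr ⟨_, h, rfl⟩, x, y, _, τ, .inr (.inr ⟨rfl, rfl⟩), rfl, rfl⟩]
  · rintro ⟨_, (⟨r, h, rfl⟩ | ⟨r, h, rfl⟩) | ⟨r, h, rfl⟩, x, y, σ, ρ, a, rfl, rfl⟩ <;>
      simp [Act] at a <;> subst a
    exacts [⟨x, y, _, _, _, rfl, rfl, .inl ⟨_, h, rfl⟩⟩,
      ⟨x, y, _, _, _, rfl, rfl, .inr (.inl ⟨_, _, h, rfl⟩)⟩,
      ⟨x, y, _, _, _, rfl, rfl, .inr (.inr ⟨_, _, _, h, rfl, rfl⟩)⟩]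

theorem eff : ∃ f : IG → List (List ℕ), Computable f ∧ ∀ G, IsTestSet (ILang G) (f G) := by
  obtain ⟨F, h1, h2⟩ := main
  refine ⟨fun G => F (tg G), h1.comp (Primrec.to_comp (by unfold tg; fun_prop)), fun G => ?_⟩
  have e : ∀ w, w ∈ ILang G ↔ La (tg G) w := fun w => by rw [ILang, step_tg]; rfl
  refine ⟨fun w hw => (e w).2 ((h2 _).1 w hw), fun Δ _ g h =>
    ⟨fun k w hw => k w ((e w).2 ((h2 _).1 w hw)), fun k w hw => ?_⟩⟩
  obtain ⟨c, hc⟩ := exists_injective_nat Δ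
  have : ∀ (g : FreeMonoid ℕ →* FreeMonoid Δ) (w : List ℕ),
      (w.flatMap fun a => (toList (g (of a))).map c) = (toList (g (ofList w))).map c := fun g w => by
    induction w with
    | nil => simp
    | cons a w ih => simp [ih]
  have q := (h2 _).2 (fun a => (toList (g (of a))).map c) (fun a => (toList (h (of a))).map c)
    (fun u hu => by rw [this, this, k u hu]) w ((e w).1 hw)
  rw [this, this] at q
  exact toList.injective (List.map_injective_iff.2 hc q)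

end Pool.Agent.H24.Idx
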