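import Mathlib

set_option autoImplicit false

namespace Pool.Agent.H24.Isol
open Matrix Finset

/-- a solvable integer linear system with entries in `{0, ±1}` has a small solution -/
theorem small {ι κ : Type} [Fintype ι] [Fintype κ] [DecidableEq κ] (a : κ → ι → ℤ) (b : ι → ℤ)
    (ha : ∀ j i, |a j i| ≤ 1) (hb : ∀ i, |b i| ≤ 1) (K : ℕ) (h1 : Fintype.card ι ≤ K)
    (h2 : Fintype.card κ ≤ K) (hK : 1 ≤ K) (x : κ → ℤ) (hx : ∑ j, x j • a j = b) :
    ∃ y : κ → ℤ, ∑ j, y j • a j = b ∧ ∀ j, |y j| ≤ (K : ℤ) ^ K * K ^ K +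
      K ^ K * (K * (1 + K * (K ^ K * K ^ K))) ^ K := by
  classical
  obtain ⟨I, hI, hs⟩ := exists_maximal_linearIndepOn ℤ a
  let T : Matrix ι I ℤ := of fun i j => a j i
  have eT : ∀ y : I → ℤ, T *ᵥ y = ∑ j, y j • a j := fun y => by
    ext i; simp [T, mulVec, dotProduct, mul_comm]
  let G := Tᵀ * T
  have K1 : (1 : ℤ) ≤ K := by exact_mod_cast hK
  have cI : Fintype.card I ≤ K := (Fintype.card_subtype_le _).trans h2
  have inj : ∀ y, G *ᵥ y = 0 → y = 0 := fun y hy => by
    have : T *ᵥ y = 0 := by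
      rw [← dotProduct_self_eq_zero, dotProduct_mulVec, ← vecMul_transpose, vecMul_vecMul,
        ← dotProduct_mulVec, hy, dotProduct_zero]
    exact funext (Fintype.linearIndependent_iff.1 hI y (by rw [← eT, this]))
  have D0 : G.det ≠ 0 := fun h => by
    obtain ⟨y, y0, hy⟩ := exists_mulVec_eq_zero_iff.2 h
    exact y0 (inj y hy)
  have bd : ∀ (M : Matrix I I ℤ) (X : ℤ), 1 ≤ X → (∀ i j, |M i j| ≤ X) → |M.det| ≤ K ^ K * X ^ K :=
    fun M X hX h => by
      have := det_le (abv := AbsoluteValue.abs) h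
      simp only [AbsoluteValue.abs_apply, nsmul_eq_mul] at this
      refine this.trans (mul_le_mul ?_ (pow_le_pow_right₀ hX cI) (by positivity) (by positivity))
      exact_mod_cast (Nat.factorial_le_pow _).trans
        ((Nat.pow_le_pow_left cI _).trans (Nat.pow_le_pow_right hK cI))
  have dt : ∀ (j : κ) (v : ι → ℤ) (X : ℤ), (∀ i, |v i| ≤ X) → 0 ≤ X → |a j ⬝ᵥ v| ≤ K * X :=
    fun j v X h hX => by
      refine (abs_sum_le_sum_abs _ _).trans ((sum_le_card_nsmul _ _ X fun i _ => ?_).trans ?_)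
      · rw [abs_mul]; nlinarith [ha j i, h i, abs_nonneg (v i), abs_nonneg (a j i)]
      · rw [nsmul_eq_mul]; exact mul_le_mul_of_nonneg_right (by exact_mod_cast h1) hX
  have hG : ∀ i j, |G i j| ≤ K := fun i j => (dt i (a j) 1 (ha j) zero_le_one).trans_eq (mul_one _)
  have hD := bd G K K1 hG
  have sp : ∀ j, ∃ z, G.det • a j = T *ᵥ z := fun j => by
    obtain ⟨r, r0, y, hy⟩ : ∃ r : ℤ, r ≠ 0 ∧ ∃ y, T *ᵥ y = r • a j := by
      by_cases hj : j ∈ I
      · exact ⟨1, one_ne_zero, Pi.single ⟨j, hj⟩ 1, by ext i; simp [T]⟩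
      · obtain ⟨r, r0, h⟩ := hs j hj
        obtain ⟨y, hy⟩ := (Fintype.mem_span_image_iff_exists_fun ℤ).1 h
        exact ⟨r, r0, y, by rw [eT, hy]⟩
    refine ⟨cramer G (Tᵀ *ᵥ a j), smul_right_injective _ r0 ?_⟩
    have : r • cramer G (Tᵀ *ᵥ a j) = G.det • y := by
      rw [← map_smul, ← mulVec_smul, ← hy, mulVec_mulVec, cramer_eq_adjugate_mulVec,
        mulVec_mulVec, adjugate_mul, smul_mulVec, one_mulVec]
    simp only [← mulVec_smul, this]
    rw [mulVec_smul, hy, smul_comm]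
  choose z hz using sp
  let y : I → ℤ := ∑ j, (x j / G.det) • z j
  have ev : b - ∑ j, (x j % G.det) • a j = T *ᵥ y := by
    simp only [y, mulVec_sum, mulVec_smul, ← hz, ← hx, ← sum_sub_distrib, smul_smul, ← sub_smul]
    exact sum_congr rfl fun j _ => by rw [Int.emod_def]; congr 1; ring
  have hm : ∀ j, |x j % G.det| ≤ K ^ K * K ^ K := fun j => by
    rw [abs_of_nonneg (Int.emod_nonneg _ D0)]; exact (Int.emod_lt_abs _ D0).le.trans hD
  have hy : ∀ i, |y i| ≤ K ^ K * (K * (1 + K * (K ^ K * K ^ K))) ^ K := fun i => by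
    have e : cramer G (Tᵀ *ᵥ (T *ᵥ y)) = G.det • y := by
      rw [mulVec_mulVec, cramer_eq_adjugate_mulVec, mulVec_mulVec, adjugate_mul, smul_mulVec,
        one_mulVec]
    have p : (0 : ℤ) ≤ K * (K ^ K * K ^ K) := by positivity
    have := bd (G.updateCol i (Tᵀ *ᵥ (T *ᵥ y))) (K * (1 + K * (K ^ K * K ^ K))) (by nlinarith)
      fun r s => by
        rw [updateCol_apply]; split_ifs
        · refine dt r _ _ (fun t => ?_) (by positivity)
          rw [← ev, Pi.sub_apply, Finset.sum_apply]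
          refine (abs_sub _ _).trans (add_le_add (hb t) ((abs_sum_le_sum_abs _ _).trans
            ((sum_le_card_nsmul _ _ ((K : ℤ) ^ K * K ^ K) fun j _ => ?_).trans ?_)))
          · rw [Pi.smul_apply, smul_eq_mul, abs_mul]
            nlinarith [ha j t, hm j, abs_nonneg (x j % G.det), abs_nonneg (a j t)]
          · rw [nsmul_eq_mul]
            exact mul_le_mul_of_nonneg_right (by exact_mod_cast h2) (by positivity)
        · nlinarith [hG r s]
    rw [← cramer_apply, e, Pi.smul_apply, smul_eq_mul, abs_mul] at this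
    nlinarith [Int.one_le_abs D0, abs_nonneg (y i)]
  refine ⟨fun j => x j % G.det + if h : j ∈ I then y ⟨j, h⟩ else 0, ?_, fun j => ?_⟩
  · simp only [add_smul, sum_add_distrib]
    rw [← eq_sub_iff_add_eq', ev, eT, ← Finset.sum_subset (subset_univ I.toFinset)
      (fun j _ h => by simp [show j ∉ I by simpa using h]), Finset.sum_subtype I.toFinset
      (p := (· ∈ I)) (by simp)]
    exact sum_congr rfl fun j _ => by simp
  · refine (abs_add_le _ _).trans (add_le_add (hm j) ?_)
    split_ifs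
    · exact hy _
    · simp only [abs_zero]; positivity

end Pool.Agent.H24.Isol
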