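import Pool.Agent.H24.Bz1

set_option autoImplicit false

namespace Pool.Agent.H24.Rtmp
open Finset

/-- randomization test for matched pairs: input `(pairs, K)`, question `N ≥ K` -/
def RTMP (y : List (ℤ × ℤ) × ℤ) : Prop :=
  0 ≤ y.2 ∧ y.2 ≤ #{S ∈ (range y.1.length).powerset |
    ∑ i ∈ S, |(y.1.getD i (0, 0)).1 - (y.1.getD i (0, 0)).2| ≤
      ∑ i ∈ range y.1.length, if (y.1.getD i (0, 0)).2 < (y.1.getD i (0, 0)).1 then
        (y.1.getD i (0, 0)).1 - (y.1.getD i (0, 0)).2 else 0}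

end Pool.Agent.H24.Rtmp
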