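import Pool.Agent.H11.Part
import Pool.Agent.H24.RtmpDefs
import Pool.Agent.Lead.NPc

set_option autoImplicit false

namespace Pool.Agent.H24.Rtmp
open Pool.Agent.H11.PT Pool.Agent.H24.Bz Finset

theorem bin_bn (l : List Bool) : bin l = bn l := by
  induction l with
  | nil => rfl
  | cons b l ih =>
    rw [bn_cons, ← ih]; simp [bin, Nat.ofDigits, add_comm]

def red (l : List (List Bool)) : List (ℤ × ℤ) × ℤ :=
  ((l.map fun a => ((0 : ℤ), 2 * ((l.length + 1 : ℕ) : ℤ) * (bn a : ℤ) + 1)) ++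
    [(((l.length + 1 : ℕ) : ℤ) * (l.map fun a => (bn a : ℤ)).sum - 1, 0)],
   (List.replicate (l.length - 1) (2 : ℤ)).prod + 1)

theorem half (n : ℕ) (a : ℕ → ℕ) (hn : 0 < n) :
    (¬ ∃ σ : ℕ → Bool, 2 * (∑ j ∈ range n, if σ j then a j else 0) = ∑ j ∈ range n, a j) ↔
      2 ^ (n - 1) ≤ #{S ∈ (range n).powerset | 2 * ∑ j ∈ S, a j < ∑ j ∈ range n, a j} := by
  classical
  set D := ∑ j ∈ range n, a j with hD
  have e1 : #{S ∈ (range n).powerset | 2 * ∑ j ∈ S, a j < D}
      = #{S ∈ (range n).powerset | D < 2 * ∑ j ∈ S, a j} := by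
    refine card_nbij' (range n \ ·) (range n \ ·) (fun S hS => ?_) (fun S hS => ?_)
      (fun S hS => ?_) fun S hS => ?_
    all_goals simp only [coe_filter, mem_powerset, Set.mem_ofPred_eq] at hS ⊢
    · have := sum_sdiff (f := a) hS.1
      exact ⟨sdiff_subset, by omega⟩
    · have := sum_sdiff (f := a) hS.1
      exact ⟨sdiff_subset, by omega⟩
    · exact Finset.sdiff_sdiff_eq_self hS.1
    · exact Finset.sdiff_sdiff_eq_self hS.1
  have e2 : #{S ∈ (range n).powerset | 2 * ∑ j ∈ S, a j < D}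
      + #{S ∈ (range n).powerset | D < 2 * ∑ j ∈ S, a j}
      + #{S ∈ (range n).powerset | 2 * ∑ j ∈ S, a j = D} = 2 * 2 ^ (n - 1) := by
    rw [← pow_succ', Nat.sub_add_cancel hn, ← card_range n, ← card_powerset, card_range]
    simp only [card_filter, ← sum_add_distrib]
    rw [card_eq_sum_ones]
    exact sum_congr rfl fun S _ => by split_ifs <;> omega
  have e3 : (∃ σ : ℕ → Bool, 2 * (∑ j ∈ range n, if σ j then a j else 0) = D) ↔
      0 < #{S ∈ (range n).powerset | 2 * ∑ j ∈ S, a j = D} := by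
    rw [card_pos]
    constructor
    · rintro ⟨σ, h⟩
      exact ⟨(range n).filter (σ ·), by simpa [sum_filter] using h⟩
    · rintro ⟨S, h⟩
      simp only [mem_filter, mem_powerset] at h
      refine ⟨fun j => decide (j ∈ S), ?_⟩
      simp only [decide_eq_true_eq]
      rw [← sum_filter, filter_mem_eq_inter, inter_eq_right.2 h.1, h.2]
  rw [e3]; omega

theorem hard : HardFor InNP (fun y => 0 ≤ y.2) fun y => ¬ RTMP y := by
  classical
  refine hard_PART.red red (by unfold red; fun_prop) fun l _ => ⟨by simp [red]; positivity, ?_⟩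
  set n := l.length with hn
  let a : ℕ → ℕ := fun j => bin (l.getD j [])
  set D := ∑ j ∈ range n, a j with hD
  have hs : (l.map fun a => (bn a : ℤ)).sum = D := by
    rw [hD, Nat.cast_sum, sum_range, ← List.sum_ofFn]
    congr 1
    refine List.ext_getElem (by simp [hn]) fun i h1 h2 => ?_
    have : i < l.length := by simpa using h1
    simp [a, bin_bn, this]
  have g1 : ∀ i < n, (red l).1.getD i (0, 0) = (0, 2 * ((n + 1 : ℕ) : ℤ) * a i + 1) := fun i hi => by
    simp [red, List.getD_eq_getElem?_getD, List.getElem?_append_left, hi, a, bin_bn, ← hn]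
  have g2 : (red l).1.getD n (0, 0) = (((n + 1 : ℕ) : ℤ) * D - 1, 0) := by
    simp [red, List.getD_eq_getElem?_getD, hs, ← hn]
  have g3 : (red l).1.length = n + 1 := by simp [red, hn]
  have g4 : (red l).2 = (2 ^ (n - 1) + 1 : ℕ) := by simp [red, hn]
  have g5 : ∀ S ∈ (range n).powerset, ∑ i ∈ S, |((red l).1.getD i (0, 0)).1 -
      ((red l).1.getD i (0, 0)).2| = (2 * (n + 1) * ∑ j ∈ S, a j + #S : ℕ) := fun S hS => by
    rw [card_eq_sum_ones, mul_sum, ← sum_add_distrib, Nat.cast_sum]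
    refine sum_congr rfl fun i hi => ?_
    rw [g1 i (mem_range.1 (mem_powerset.1 hS hi)), zero_sub, abs_neg, abs_of_nonneg (by positivity)]
    push_cast; ring
  have g6 : ∑ i ∈ range n, (if ((red l).1.getD i (0, 0)).2 < ((red l).1.getD i (0, 0)).1 then
      ((red l).1.getD i (0, 0)).1 - ((red l).1.getD i (0, 0)).2 else 0) = 0 :=
    sum_eq_zero fun i hi => by
      rw [g1 i (mem_range.1 hi), if_neg (not_lt.2 (by positivity))]
  have g7 : ∀ T : ℤ, #{S ∈ (range (n + 1)).powerset | ∑ i ∈ S, |((red l).1.getD i (0, 0)).1 -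
      ((red l).1.getD i (0, 0)).2| ≤ T} =
      #{S ∈ (range n).powerset | ((2 * (n + 1) * ∑ j ∈ S, a j + #S : ℕ) : ℤ) ≤ T} +
      #{S ∈ (range n).powerset | |((n + 1 : ℕ) : ℤ) * D - 1| +
        ((2 * (n + 1) * ∑ j ∈ S, a j + #S : ℕ) : ℤ) ≤ T} := fun T => by
    simp only [card_filter]
    rw [range_add_one, sum_powerset_insert (by simp)]
    congr 1 <;> refine sum_congr rfl fun S hS => ?_
    · rw [g5 S hS]
    · rw [sum_insert (fun h => by simpa using mem_powerset.1 hS h), g5 S hS, g2, sub_zero]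
  have g8 : #{S ∈ (range n).powerset | (2 * (n + 1) * ∑ j ∈ S, a j + #S : ℕ) = 0} = 1 := by
    rw [card_eq_one]
    refine ⟨∅, ?_⟩
    ext S
    simp only [mem_filter, mem_powerset, mem_singleton, Nat.add_eq_zero_iff, card_eq_zero]
    exact ⟨fun h => h.2.2, by rintro rfl; simp⟩
  rw [RTMP, g3, sum_range_succ, g6, g2, g7, g4]
  simp only [sub_zero, zero_add, Nat.cast_nonneg, true_and, Nat.cast_le]
  rcases Nat.eq_zero_or_pos D with h0 | h0
  · refine iff_of_true ⟨fun _ => false, by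
      simp only [Bool.false_eq_true, if_false, sum_const_zero, mul_zero]; exact h0.symm⟩ ?_
    simp only [h0, Nat.cast_zero, mul_zero, zero_sub, abs_neg, abs_one,
      show ¬ ((0 : ℤ) < -1) by norm_num, if_false]
    rw [filter_congr (q := fun S => (2 * (n + 1) * ∑ j ∈ S, a j + #S : ℕ) = 0) fun S _ => by omega,
      g8, filter_eq_empty_iff.2 fun S _ => by omega]
    have := Nat.two_pow_pos (n - 1)
    simp only [card_empty]; omega
  have hn0 : 0 < n := Nat.pos_of_ne_zero fun e => by simp [hD, e] at h0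
  have h2 : 2 ≤ (n + 1) * D := by nlinarith
  have h3 : (0 : ℤ) < ((n + 1 : ℕ) : ℤ) * D - 1 := by
    have : (2 : ℤ) ≤ ((n + 1 : ℕ) : ℤ) * D := by exact_mod_cast h2
    linarith
  rw [if_pos h3, abs_of_pos h3, filter_congr (p := fun S => _ + _ ≤ _)
    (q := fun S => (2 * (n + 1) * ∑ j ∈ S, a j + #S : ℕ) = 0) fun S _ => by omega, g8,
    filter_congr (q := fun S => 2 * ∑ j ∈ S, a j < D) fun S hS => ?_, Nat.add_le_add_iff_right,
    ← half n a hn0, not_not]
  · rfl
  · have c : #S ≤ n := by simpa using card_le_card (mem_powerset.1 hS)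
    rw [← Nat.cast_mul, Int.le_sub_one_iff, Nat.cast_lt]
    constructor <;> intro h
    · by_contra h'
      have := Nat.mul_le_mul_left (n + 1) (not_lt.1 h')
      nlinarith
    · have := Nat.mul_le_mul_left (n + 1) (Nat.succ_le_of_lt h)
      nlinarith

end Pool.Agent.H24.Rtmp
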