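import Pool.Agent.H24.KiDefs
import Pool.Agent.H24.Rtmp
import Pool.Agent.H25.CBase

set_option autoImplicit false

namespace Pool.Agent.H24.Ki
open Pool.Agent.H11.PT Finset

abbrev I (β : Type) : Type := List β × List (β × β) × ℕ

variable {β : Type} [DecidableEq β]

def dg (y : I β) (σ : β → Bool) (a : β) : ℕ := y.1.countP fun b => σ b && decide ((a, b) ∈ y.2.1)

def Val (P : ℕ → Prop) (y : I β) : Prop := y.1.Nodup ∧ 0 < y.2.2 ∧
  (∀ a b, (a, b) ∈ y.2.1 → (b, a) ∈ y.2.1 ∧ a ≠ b) ∧ ∀ a ∈ y.1, P (dg y (fun _ => true) a)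

def Q (w : ℕ → ℕ) (k : ℕ) (y : I β) : Prop := ∃ σ : β → Bool, y.2.2 ≤ y.1.countP σ ∧
  ∀ a ∈ y.1, σ a = true → dg y σ a + w (dg y (fun _ => true) a) ≤ k

theorem cs {l : List β} (h : l.Nodup) (p : β → Bool) :
    l.countP p = ∑ a ∈ l.toFinset, if p a = true then 1 else 0 := by
  rw [List.sum_toFinset _ h]
  clear h
  induction l with
  | nil => rfl
  | cons a l ih => simp [List.countP_cons, ih, add_comm]

def mu (μ : ℕ → ℕ) (y : I β) (v : β) : ℕ := μ (dg y (fun _ => true) v)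

def V2 (μ : ℕ → ℕ) (g : ℕ) (y : I β) : List (β × ℕ × ℕ) := y.1.flatMap fun v =>
  (v, 0, 0) :: (v, 0, 1) :: (List.range (mu μ y v) ×ˢ List.range g).map fun p => (v, p.1 + 1, p.2)

def A2 (h : ℕ → ℕ → Bool) (y : I β) (a b : β × ℕ × ℕ) : Prop :=
  (a.2.1 = 0 ∧ b.2.1 = 0 ∧ a.2.2 = b.2.2 ∧ (a.1, b.1) ∈ y.2.1) ∨ (a.1 = b.1 ∧
    ((a.2.1 = 0 ∧ ¬ b.2.1 = 0 ∧ a.2.2 = b.2.2) ∨ (¬ a.2.1 = 0 ∧ b.2.1 = 0 ∧ a.2.2 = b.2.2) ∨
      (¬ a.2.1 = 0 ∧ a.2.1 = b.2.1 ∧ h a.2.2 b.2.2 = true)))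

instance (h : ℕ → ℕ → Bool) (y : I β) (a b : β × ℕ × ℕ) : Decidable (A2 h y a b) := by
  unfold A2; infer_instance

def fill (μ : ℕ → ℕ) (g c : ℕ) (h : ℕ → ℕ → Bool) (y : I β) : I (β × ℕ × ℕ) :=
  (V2 μ g y, (V2 μ g y ×ˢ V2 μ g y).filter fun e => decide (A2 h y e.1 e.2),
    2 * y.2.2 + c * (y.1.map (mu μ y)).sum)

theorem pt_fill [Enc β] [Inj β] {μ : ℕ → ℕ} (hμ : PT μ) (g c : ℕ) {h : ℕ → ℕ → Bool}
    (hh : PT fun p : ℕ × ℕ => h p.1 p.2) : PT (fill (β := β) μ g c h) := by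
  have h1 : PT fun p : I β × β => mu μ p.1 p.2 := by unfold mu dg; fun_prop
  have h2 : PT (V2 (β := β) μ g) := by unfold V2; fun_prop
  have h3 : PT fun p : I β × (β × ℕ × ℕ) × (β × ℕ × ℕ) => decide (A2 h p.1 p.2.1 p.2.2) := by
    have : PT fun p : I β × (β × ℕ × ℕ) × (β × ℕ × ℕ) => h p.2.1.2.2 p.2.2.2.2 :=
      hh.comp (g := fun p : I β × (β × ℕ × ℕ) × (β × ℕ × ℕ) => (p.2.1.2.2, p.2.2.2.2)) (by fun_prop)
    unfold A2; fun_prop
  unfold fill
  refine PT.pair h2 (PT.pair (PT.filter (by fun_prop) h3) ?_)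
  exact PT.add (by fun_prop) (PT.mul (by fun_prop) (PT.sum (PT.map (by fun_prop) h1)))

variable {μ : ℕ → ℕ} {g c : ℕ} {h : ℕ → ℕ → Bool} {y : I β}

theorem mem2 {a : β × ℕ × ℕ} : a ∈ V2 μ g y ↔ a.1 ∈ y.1 ∧
    ((a.2.1 = 0 ∧ a.2.2 < 2) ∨ (0 < a.2.1 ∧ a.2.1 ≤ mu μ y a.1 ∧ a.2.2 < g)) := by
  obtain ⟨v, i, t⟩ := a
  simp only [V2, List.mem_flatMap, List.mem_cons, Prod.mk.injEq, List.mem_map, Prod.exists,
    List.mem_product, List.mem_range]
  constructor
  · rintro ⟨u, hu, ⟨rfl, h⟩ | ⟨rfl, h⟩ | ⟨a, b, h, rfl, h'⟩⟩ <;> exact ⟨hu, by omega⟩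
  · rintro ⟨hv, h | h⟩
    · exact ⟨v, hv, by simp only [true_and]; omega⟩
    · exact ⟨v, hv, .inr (.inr ⟨i - 1, t, by omega, rfl, by omega, rfl⟩)⟩

theorem nodup2 (hn : y.1.Nodup) : (V2 μ g y).Nodup := by
  refine List.nodup_flatMap.2 ⟨fun v _ => ?_, hn.imp fun {a b} hab => ?_⟩
  · simp only [List.nodup_cons, List.mem_cons, List.mem_map]
    refine ⟨by simp, by simp, (List.nodup_range.product List.nodup_range).map ?_⟩
    rintro ⟨a, b⟩ ⟨c, d⟩ e
    simpa using e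
  · intro x h1 h2
    have k : ∀ v, x ∈ (v, 0, 0) :: (v, 0, 1) :: (List.range (mu μ y v) ×ˢ List.range g).map
        (fun p => (v, p.1 + 1, p.2)) → x.1 = v := fun v hv => by
      simp only [List.mem_cons, List.mem_map] at hv
      rcases hv with rfl | rfl | ⟨_, _, rfl⟩ <;> rfl
    exact hab ((k a h1).symm.trans (k b h2))

theorem cnt2 (hn : y.1.Nodup) (p : β × ℕ × ℕ → Bool) : (V2 μ g y).countP p =
    ∑ v ∈ y.1.toFinset, ((if p (v, 0, 0) = true then 1 else 0) + (if p (v, 0, 1) = true then 1 else 0)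
      + ∑ i ∈ range (mu μ y v), #{t ∈ range g | p (v, i + 1, t) = true}) := by
  rw [V2, List.countP_flatMap, List.sum_toFinset _ hn]
  congr 1
  refine List.map_congr_left fun v _ => ?_
  have : ∀ m, ((List.range m ×ˢ List.range g).map fun q => (v, q.1 + 1, q.2)).countP p
      = ∑ i ∈ range m, #{t ∈ range g | p (v, i + 1, t) = true} := fun m => by
    rw [List.countP_map, cs (List.nodup_range.product List.nodup_range)]
    simp only [card_filter]
    rw [← sum_product']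
    refine sum_congr ?_ fun _ _ => rfl
    ext ⟨a, b⟩; simp
  simp only [Function.comp_apply, List.countP_cons, this]
  omega

theorem dgA (σ : β × ℕ × ℕ → Bool) {a : β × ℕ × ℕ} (ha : a ∈ V2 μ g y) :
    dg (fill μ g c h y) σ a = (V2 μ g y).countP fun b => σ b && decide (A2 h y a b) :=
  List.countP_congr fun b (hb : b ∈ V2 μ g y) => by simp [fill, ha, hb]

theorem dg0 (hn : y.1.Nodup) (hg : 2 ≤ g) (σ : β × ℕ × ℕ → Bool) {v : β} (hv : v ∈ y.1) {t : ℕ}
    (ht : t < 2) : dg (fill μ g c h y) σ (v, 0, t) =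
      dg y (fun u => σ (u, 0, t)) v + #{i ∈ range (mu μ y v) | σ (v, i + 1, t) = true} := by
  rw [dgA σ (mem2.2 ⟨hv, .inl ⟨rfl, ht⟩⟩), cnt2 hn, dg, cs hn, sum_add_distrib]
  congr 1
  · refine sum_congr rfl fun u _ => ?_
    interval_cases t <;> simp [A2]
  · rw [sum_eq_single_of_mem v (List.mem_toFinset.2 hv) fun u _ hu => by simp [A2, hu.symm],
      card_filter]
    refine sum_congr rfl fun i _ => ?_
    simp only [A2, card_filter]
    rw [sum_eq_single_of_mem t (mem_range.2 (by omega)) fun s _ hs => by simp [hs.symm]]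
    simp

theorem dg1 (hn : y.1.Nodup) (σ : β × ℕ × ℕ → Bool) {v : β} (hv : v ∈ y.1) {i t : ℕ}
    (hi : i < mu μ y v) (ht : t < g) : dg (fill μ g c h y) σ (v, i + 1, t) =
      (if t < 2 ∧ σ (v, 0, t) = true then 1 else 0) +
        #{s ∈ range g | σ (v, i + 1, s) = true ∧ h t s = true} := by
  rw [dgA σ ((mem2 (a := (v, i + 1, t))).2 ⟨hv, .inr ⟨by simp, hi, ht⟩⟩), cnt2 hn,
    sum_eq_single_of_mem v (List.mem_toFinset.2 hv) fun u _ hu => by simp [A2, hu.symm],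
    sum_eq_single_of_mem i (mem_range.2 hi) fun j _ hj => by simp [A2, hj.symm]]
  congr 1
  · rcases t with _ | _ | t <;> simp [A2]
  · simp [A2]

theorem val2 {P P' : ℕ → Prop} (hy : Val P y) (hg : 2 ≤ g) (h1 : ∀ s t, h s t = true → h t s = true ∧ s ≠ t)
    (h2 : ∀ d, P d → P' (d + μ d))
    (h3 : ∀ t < g, P' ((if t < 2 then 1 else 0) + #{s ∈ range g | h t s = true})) :
    Val P' (fill μ g c h y) := by
  obtain ⟨hn, hp, hs, hd⟩ := hy
  refine ⟨nodup2 hn, by simp [fill, hp], ?_, ?_⟩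
  · rintro ⟨v, i, t⟩ ⟨u, j, s⟩ e
    simp only [fill, List.mem_filter, List.mem_product, decide_eq_true_eq, A2] at e ⊢
    have := hs v u
    have := h1 t s
    simp only [ne_eq, Prod.mk.injEq]
    grind
  · rintro ⟨v, i, t⟩ ha
    obtain ⟨hv, ⟨rfl, ht⟩ | ⟨a, b, ht⟩⟩ := mem2.1 ha
    · rw [dg0 hn hg _ hv ht]
      simpa [mu] using h2 _ (hd v hv)
    · obtain ⟨i, rfl⟩ : ∃ j, i = j + 1 := ⟨i - 1, by simp at a; omega⟩
      rw [dg1 hn _ hv b ht]
      simpa using h3 t ht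

theorem q2 {k : ℕ} (o : Bool) (hn : y.1.Nodup) (hg : 2 ≤ g) (σ0 : ℕ → Bool)
    (l1 : #{t ∈ range g | σ0 t = true} = c) (l2 : σ0 0 = o ∧ σ0 1 = o)
    (l3 : ∀ t < g, σ0 t = true →
      (if t < 2 then 1 else 0) + #{s ∈ range g | σ0 s = true ∧ h t s = true} ≤ k)
    (u1 : ∀ σ : ℕ → Bool, (∀ t < g, σ t = true → #{s ∈ range g | σ s = true ∧ h t s = true} ≤ k) →
      #{t ∈ range g | σ t = true} + ((if o = true ∧ σ 0 = false then 1 else 0) +
        if o = true ∧ σ 1 = false then 1 else 0) ≤ c) :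
    Q (fun d => bif o then μ d else 0) k y ↔ Q (fun _ => 0) k (fill μ g c h y) := by
  have hp : (fill μ g c h y).2.2 = 2 * y.2.2 + ∑ v ∈ y.1.toFinset, mu μ y v * c := by
    simp only [fill]; rw [← List.sum_toFinset _ hn, mul_sum]; simp [mul_comm]
  constructor
  · rintro ⟨σ, a1, a2⟩
    refine ⟨fun a => if a.2.1 = 0 then σ a.1 else σ0 a.2.2, ?_, ?_⟩
    · rw [hp]
      change _ ≤ (V2 μ g y).countP _
      rw [cnt2 hn, sum_add_distrib, sum_add_distrib]
      rw [cs hn] at a1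
      simp [l1] at a1 ⊢
      omega
    · rintro ⟨v, i, t⟩ ha hσ
      obtain ⟨hv, ⟨rfl, ht⟩ | ⟨a, b, ht⟩⟩ := mem2.1 ha
      · rw [dg0 hn hg _ hv ht]
        have := a2 v hv (by simpa using hσ)
        have e : σ0 t = o := by
          simp only at ht
          interval_cases t
          exacts [l2.1, l2.2]
        cases o <;> simpa [e, mu] using this
      · obtain ⟨i, rfl⟩ : ∃ j, i = j + 1 := ⟨i - 1, by simp at a; omega⟩
        rw [dg1 hn _ hv b ht]
        have := l3 t ht (by simpa using hσ)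
        simp only [Nat.add_eq_zero_iff, one_ne_zero, and_false, if_false, if_true, add_zero]
        split_ifs at this ⊢ <;> omega
  · rintro ⟨σ, a1, a2⟩
    let τ : ℕ → β → Bool := fun t v => σ (v, 0, t) &&
      decide (o = true → ∀ i < mu μ y v, σ (v, i + 1, t) = true)
    have k1 : ∀ t < 2, ∀ a ∈ y.1, τ t a = true →
        dg y (τ t) a + (bif o then μ (dg y (fun _ => true) a) else 0) ≤ k := fun t ht v hv hτ => by
      simp only [τ, Bool.and_eq_true, decide_eq_true_eq] at hτ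
      have := a2 _ (mem2.2 ⟨hv, .inl ⟨rfl, ht⟩⟩) hτ.1
      rw [dg0 hn hg _ hv ht] at this
      have b : dg y (τ t) v ≤ dg y (fun u => σ (u, 0, t)) v :=
        List.countP_mono_left fun x _ hx => by
          simp only [τ, Bool.and_eq_true] at hx ⊢; exact ⟨hx.1.1, hx.2⟩
      cases o
      · simp only [cond_false]; omega
      · rw [filter_true_of_mem fun i hi => hτ.2 rfl i (mem_range.1 hi), card_range] at this
        simp only [cond_true, mu] at this ⊢; omega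
    have k2 : 2 * y.2.2 ≤ y.1.countP (τ 0) + y.1.countP (τ 1) := by
      rw [hp] at a1
      change _ ≤ (V2 μ g y).countP _ at a1
      rw [cnt2 hn] at a1
      rw [cs hn, cs hn, ← sum_add_distrib]
      refine Nat.le_of_add_le_add_right (a1.trans ?_)
      rw [← sum_add_distrib]
      refine sum_le_sum fun v hv => ?_
      have hv := List.mem_toFinset.1 hv
      have b := sum_le_sum (s := range (mu μ y v)) fun i hi => u1 (fun t => σ (v, i + 1, t))
        fun t ht hσ => by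
          have := a2 (v, i + 1, t) (mem2.2 ⟨hv, .inr ⟨by simp, mem_range.1 hi, ht⟩⟩) hσ
          rw [dg1 hn _ hv (mem_range.1 hi) ht] at this
          omega
      rw [sum_add_distrib, sum_add_distrib, sum_const, card_range, smul_eq_mul] at b
      have e : ∀ t, (if σ (v, 0, t) = true then 1 else 0) ≤ (if τ t v = true then 1 else 0) +
          ∑ i ∈ range (mu μ y v), if o = true ∧ σ (v, i + 1, t) = false then 1 else 0 := fun t => by
        split_ifs with h1 h2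
        · omega
        · simp only [τ, h1, Bool.true_and, decide_eq_true_eq, not_forall] at h2
          obtain ⟨ho, i, hi, h3⟩ := h2
          have := single_le_sum (f := fun i => if o = true ∧ σ (v, i + 1, t) = false then 1 else 0)
            (fun _ _ => Nat.zero_le _) (mem_range.2 hi)
          rw [if_pos ⟨ho, by simpa using h3⟩] at this
          omega
        all_goals omega
      have := e 0
      have := e 1
      omega
    by_cases k3 : y.2.2 ≤ y.1.countP (τ 0)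
    · exact ⟨τ 0, k3, k1 0 (by omega)⟩
    · exact ⟨τ 1, by omega, k1 1 (by omega)⟩

end Pool.Agent.H24.Ki
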