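import Pool.Agent.H24.Ki2

set_option autoImplicit false

namespace Pool.Agent.H24.Ki
open Pool.Agent.H11.PT Pool.Agent.H24.Bz Finset

def HO (r t s : ℕ) : Prop := t ≠ s ∧ ((t ≤ r ∧ s ≤ r ∧ ¬ (t = r ∧ s < 2) ∧ ¬ (s = r ∧ t < 2)) ∨
  (r < t ∧ r < s ∧ ¬ (t ≤ r + 2 ∧ s ≤ r + 2)) ∨ (t = r ∧ r < s ∧ s ≤ r + 2) ∨
  (s = r ∧ r < t ∧ t ≤ r + 2))

instance (r t s : ℕ) : Decidable (HO r t s) := by unfold HO; infer_instance

theorem degO {r : ℕ} (hr : 3 ≤ r) : ∀ t < 2 * r + 2,
    (if t < 2 then 1 else 0) + #{s ∈ range (2 * r + 2) | decide (HO r t s) = true} = r := by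
  intro t ht
  have k : ∀ A : Finset ℕ, (∀ s, s ∈ A ↔ s < 2 * r + 2 ∧ HO r t s) →
      #{s ∈ range (2 * r + 2) | decide (HO r t s) = true} = #A := fun A h => by
    congr 1; ext s; simp [h]
  by_cases h1 : t < 2
  · rw [k ((range r).erase t) fun s => by simp only [HO, mem_erase, mem_range]; omega,
      card_erase_of_mem (mem_range.2 (by omega)), card_range, if_pos h1]; omega
  rw [if_neg h1]
  by_cases h2 : t < r
  · rw [k ((range (r + 1)).erase t) fun s => by simp only [HO, mem_erase, mem_range]; omega,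
      card_erase_of_mem (mem_range.2 (by omega)), card_range]; omega
  by_cases h3 : t = r
  · rw [k ((Ico 2 (r + 3)).erase t) fun s => by simp only [HO, mem_erase, mem_Ico]; omega,
      card_erase_of_mem (mem_Ico.2 (by omega)), Nat.card_Ico]; omega
  by_cases h4 : t ≤ r + 2
  · rw [k (insert r (Ico (r + 3) (2 * r + 2))) fun s => by
        simp only [HO, mem_insert, mem_Ico]; omega,
      card_insert_of_notMem (by simp only [mem_Ico]; omega), Nat.card_Ico]; omega
  · rw [k ((Ico (r + 1) (2 * r + 2)).erase t) fun s => by simp only [HO, mem_erase, mem_Ico]; omega,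
      card_erase_of_mem (mem_Ico.2 (by omega)), Nat.card_Ico]; omega

theorem lt_iff {g : ℕ} (σ p : ℕ → Bool) : #{s ∈ range g | σ s = true ∧ p s = true} <
    #{s ∈ range g | p s = true} ↔ ∃ s < g, p s = true ∧ σ s = false := by
  have s : {s ∈ range g | σ s = true ∧ p s = true} ⊆ {s ∈ range g | p s = true} :=
    monotone_filter_right _ (by tauto)
  rw [← not_le, eq_iff_card_ge_of_superset s, ← Ne, ne_comm,
    ← (Finset.ssubset_iff_subset_ne.trans (and_iff_right s)), ssubset_iff_of_subset s]
  simp only [mem_filter, mem_range]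
  exact exists_congr fun b => by cases σ b <;> simp

theorem split2 {g : ℕ} (hg : 2 ≤ g) (σ : ℕ → Bool) : #{t ∈ range g | σ t = true} +
    ((if true = true ∧ σ 0 = false then 1 else 0) + if true = true ∧ σ 1 = false then 1 else 0) +
    #{t ∈ range g | 2 ≤ t ∧ σ t = false} = g := by
  obtain ⟨g, rfl⟩ := Nat.exists_eq_add_of_le' hg
  simp only [card_filter, sum_range_succ', true_and]
  have : ∑ i ∈ range g, (if σ (i + 1 + 1) = true then 1 else 0) +
      ∑ i ∈ range g, (if 2 ≤ i + 1 + 1 ∧ σ (i + 1 + 1) = false then 1 else 0) = g := by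
    rw [← sum_add_distrib, sum_congr rfl (g := fun _ => 1) fun i _ => by
      cases σ (i + 1 + 1) <;> simp]
    simp
  simp only [zero_add]
  cases σ 0 <;> cases σ 1 <;> simp at this ⊢ <;> omega

abbrev B1 : Type := B × ℕ × ℕ

theorem hardO {r : ℕ} (hr : 3 ≤ r) :
    HardFor InNP (Val (β := B1) (· = r)) (Q (fun _ => 0) (r - 1)) := by
  refine (hardA hr).red (fill (r - ·) (2 * r + 2) (2 * r) fun t s => decide (HO r t s))
    (pt_fill (by fun_prop) _ _ (by unfold HO; fun_prop)) fun y hy =>
      ⟨val2 hy (by omega) (fun s t h => by simp only [decide_eq_true_eq, HO] at h ⊢; omega)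
        (fun d h => by omega) (degO hr),
      q2 true hy.1 (by omega) (fun t => t != 2 && t != r + 3) ?_ (by simp) ?_ ?_⟩
  · rw [show {t ∈ range (2 * r + 2) | (t != 2 && t != r + 3) = true} =
      ((range (2 * r + 2)).erase 2).erase (r + 3) by ext; simp; tauto,
      card_erase_of_mem (by simp; omega), card_erase_of_mem (by simp; omega), card_range]
    omega
  · intro t ht h
    have := degO hr t ht
    have := (lt_iff (g := 2 * r + 2) (fun t => t != 2 && t != r + 3)
      fun s => decide (HO r t s)).2 (by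
        simp only [Bool.and_eq_true, bne_iff_ne] at h
        by_cases e : t ≤ r
        · exact ⟨2, by omega, by simp only [decide_eq_true_eq, HO]; omega, by simp⟩
        · exact ⟨r + 3, by omega, by simp only [decide_eq_true_eq, HO]; omega, by simp⟩)
    omega
  · intro σ h
    have d : ∀ t < 2 * r + 2, 2 ≤ t → ∃ s < 2 * r + 2, (s = t ∨ HO r t s) ∧ σ s = false := by
      intro t ht h2
      cases e : σ t
      · exact ⟨t, ht, .inl rfl, e⟩
      · have := degO hr t ht
        rw [if_neg (by omega)] at this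
        have a := h t ht e
        obtain ⟨s, a, b, c⟩ := (lt_iff (g := 2 * r + 2) σ fun s => decide (HO r t s)).1 (by omega)
        exact ⟨s, a, .inr (by simpa using b), c⟩
    have := split2 (g := 2 * r + 2) (by omega) σ
    have : 1 < #{t ∈ range (2 * r + 2) | 2 ≤ t ∧ σ t = false} := by
      rw [one_lt_card]
      simp only [mem_filter, mem_range]
      obtain ⟨a, a1, a2, a3⟩ := d r (by omega) (by omega)
      obtain ⟨b, b1, b2, b3⟩ := d (r + 3) (by omega) (by omega)
      obtain ⟨c, c1, c2, c3⟩ := d (2 * r + 3 - a) (by unfold HO at a2; omega)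
        (by unfold HO at a2; omega)
      unfold HO at a2 b2 c2
      by_cases e : a = b
      · exact ⟨a, ⟨a1, by omega, a3⟩, c, ⟨c1, by omega, c3⟩, by omega⟩
      · exact ⟨a, ⟨a1, by omega, a3⟩, b, ⟨b1, by omega, b3⟩, e⟩
    omega

theorem hardL {k r : ℕ} (hk : 1 ≤ k) (hr : k + 2 ≤ r) :
    HardFor InNP (Val (β := B1) (· ≤ r)) (Q (fun _ => 0) k) := by
  refine (hardB hk).red (fill (fun _ => k - 1) 2 2 fun _ _ => false)
    (pt_fill (by fun_prop) _ _ (by fun_prop)) fun y hy =>
      ⟨val2 hy le_rfl (by simp) (fun d h => by omega)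
        (fun t ht => by simp [ht]; omega),
      q2 true hy.1 le_rfl (fun _ => true) (by simp) (by simp) (fun t ht _ => by simp [ht, hk])
        fun σ _ => ?_⟩
  have := split2 le_rfl σ
  omega

theorem hardI {k r : ℕ} (hk : 1 ≤ k) (hr : k + 2 ≤ r) :
    HardFor InNP (Val (β := B1 × ℕ × ℕ) (· = r)) (Q (fun _ => 0) k) := by
  refine (hardL hk hr).red (fill (r - ·) (r + 1) (k + 1) fun t s => t != s && !(t < 2 && s < 2))
    (pt_fill (by fun_prop) _ _ (by fun_prop)) fun y hy =>
      ⟨val2 hy (by omega) (fun s t h => by simp at h ⊢; omega)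
        (fun d h => by omega) fun t ht => ?_,
      q2 false hy.1 (by omega) (fun t => 2 ≤ t && t < k + 3) ?_ (by simp) ?_ ?_⟩
  · split_ifs with h
    · rw [show {s ∈ range (r + 1) | (t != s && !(t < 2 && s < 2)) = true} = Ico 2 (r + 1) by
        ext; simp; omega, Nat.card_Ico]
      omega
    · rw [show {s ∈ range (r + 1) | (t != s && !(t < 2 && s < 2)) = true} =
        (range (r + 1)).erase t by ext; simp; omega, card_erase_of_mem (mem_range.2 ht)]
      simp
  · rw [show {t ∈ range (r + 1) | (2 ≤ t && t < k + 3) = true} = Ico 2 (k + 3) by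
      ext; simp; omega, Nat.card_Ico]
    omega
  · intro t ht h
    simp only [Bool.and_eq_true, decide_eq_true_eq] at h
    rw [if_neg (by omega), show {s ∈ range (r + 1) | (2 ≤ s && s < k + 3) = true ∧
      (t != s && !(t < 2 && s < 2)) = true} = (Ico 2 (k + 3)).erase t by ext; simp; omega,
      card_erase_of_mem (mem_Ico.2 h), Nat.card_Ico]
    omega
  · intro σ h
    simp only [Bool.false_eq_true, false_and, if_false, add_zero]
    by_cases e : ∃ t < r + 1, 2 ≤ t ∧ σ t = true
    · obtain ⟨t, ht, h2, e⟩ := e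
      have := h t ht e
      rw [show {s ∈ range (r + 1) | σ s = true ∧ (t != s && !(t < 2 && s < 2)) = true} =
        {s ∈ range (r + 1) | σ s = true}.erase t by
          ext s; cases e : σ s <;> simp [e]; omega,
        card_erase_of_mem (by simp [e]; omega)] at this
      omega
    · refine (card_le_card (t := range 2) fun t ht => ?_).trans (by simp; omega)
      simp only [mem_filter, mem_range] at ht ⊢
      by_contra h2
      exact e ⟨t, ht.1, by omega, ht.2⟩

def cN (n : ℕ) (E : List (ℕ × ℕ)) (σ : ℕ → Bool) (u : ℕ) : ℕ :=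
  (List.range n).countP fun v => σ v && (u != v && (E.contains (u, v) || E.contains (v, u)))

theorem cfin (n : ℕ) (p : ℕ → Bool) (S : Finset (Fin n)) (h : ∀ v, v ∈ S ↔ p v.1 = true) :
    #S = (List.range n).countP p := by
  rw [cs List.nodup_range, List.toFinset_range,
    ← Fin.sum_univ_eq_sum_range (fun a => if p a = true then 1 else 0), ← card_filter]
  congr 1; ext; simp [h]

theorem reg_iff (k r : ℕ) (y : ℕ × List (ℕ × ℕ) × List Bool) : RegMIS k r y ↔ 1 ≤ bin y.2.2 ∧
    (∀ u < y.1, cN y.1 y.2.1 (fun _ => true) u = r) ∧ ∃ σ : ℕ → Bool,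
      bin y.2.2 ≤ (List.range y.1).countP σ ∧ ∀ u < y.1, σ u = true → cN y.1 y.2.1 σ u ≤ k := by
  classical
  obtain ⟨n, E, p⟩ := y
  have a1 : ∀ u : Fin n, (gr n E).degree u = cN n E (fun _ => true) u := fun u =>
    cfin n _ _ fun v => by simp [gr, Fin.ext_iff]
  have a2 : ∀ (S : Finset (Fin n)) (σ : ℕ → Bool), (∀ v, v ∈ S ↔ σ v.1 = true) → ∀ u : Fin n,
      #{v ∈ S | (gr n E).Adj u v} = cN n E σ u := fun S σ h u =>
    cfin n _ _ fun v => by simp [gr, Fin.ext_iff, h]
  refine and_congr_right fun _ => ?_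
  simp only [SimpleGraph.IsRegularOfDegree]
  constructor
  · rintro ⟨h1, S, h2, h3, -⟩
    have e : ∀ v, v ∈ S ↔ decide (v.1 ∈ S.image Fin.val) = true := fun v => by
      simp [Fin.val_inj]
    refine ⟨fun u hu => (a1 ⟨u, hu⟩).symm.trans (by convert h1 ⟨u, hu⟩),
      fun v => decide (v ∈ S.image Fin.val), cfin n (fun v => decide (v ∈ S.image Fin.val)) S e ▸ h2, fun u hu h => ?_⟩
    rw [← a2 S (fun v => decide (v ∈ S.image Fin.val)) e ⟨u, hu⟩]
    convert h3 _ ((e ⟨u, hu⟩).2 h)
  · rintro ⟨h1, σ, h2, h3⟩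
    have h4 : ∀ u : Fin n, (gr n E).degree u = r := fun u => (a1 u).trans (h1 u u.2)
    refine ⟨fun u => by convert h4 u, univ.filter fun v : Fin n => σ v.1 = true, by rwa [cfin n σ _ (by simp)],
      fun v hv => ?_, fun u _ v _ => by convert (h4 u).trans (h4 v).symm⟩
    convert (a2 (univ.filter fun v : Fin n => σ v.1 = true) σ (by simp) v).trans_le
      (h3 v v.2 (by simpa using hv))

theorem np (k r : ℕ) : InNP (RegMIS k r) := by
  refine PT.inNP_nats (V := fun y c => decide ((1 : ℤ) ≤ bn y.2.2) &&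
    ((List.range y.1).all fun u => cN y.1 y.2.1 (fun _ => true) u == r) &&
    decide ((bn y.2.2 : ℤ) ≤ ((List.range y.1).countP c.contains : ℕ)) &&
    (List.range y.1).all fun u => !c.contains u || decide (cN y.1 y.2.1 c.contains u ≤ k))
    (by unfold cN; fun_prop) (fun y => y.1 * (y.1 + 1)) (by fun_prop) (fun y c h => ?_)
    fun y h => ?_
  · simp only [Bool.and_eq_true, decide_eq_true_eq, List.all_eq_true, List.mem_range, beq_iff_eq,
      Bool.or_eq_true, Bool.not_eq_true', ← Rtmp.bin_bn] at h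
    refine (reg_iff k r y).2 ⟨by omega, h.1.1.2, c.contains, by omega, fun u hu e => ?_⟩
    exact (h.2 u hu).resolve_left (by rw [e]; simp)
  · obtain ⟨h1, h2, σ, h3, h4⟩ := (reg_iff k r y).1 h
    have e : ∀ u < y.1, ((List.range y.1).filter σ).contains u = σ u := fun u hu => by
      cases h : σ u <;> simp [h, hu]
    have e1 : ∀ u, cN y.1 y.2.1 ((List.range y.1).filter σ).contains u = cN y.1 y.2.1 σ u :=
      fun u => List.countP_congr fun v hv => by rw [e v (List.mem_range.1 hv)]
    refine ⟨(List.range y.1).filter σ, ?_, ?_⟩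
    · have := List.sum_le_card_nsmul ((List.range y.1).filter σ) y.1 fun x hx =>
        (List.mem_range.1 (List.mem_filter.1 hx).1).le
      have b := List.length_filter_le σ (List.range y.1)
      simp only [List.length_range, smul_eq_mul] at this b
      nlinarith
    · simp only [Bool.and_eq_true, decide_eq_true_eq, List.all_eq_true, List.mem_range, beq_iff_eq,
        Bool.or_eq_true, Bool.not_eq_true', ← Rtmp.bin_bn, e1]
      rw [List.countP_congr (q := σ) fun v hv => by rw [e v (List.mem_range.1 hv)]]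
      refine ⟨⟨⟨by omega, h2⟩, by omega⟩, fun u hu => ?_⟩
      rw [e u hu]
      cases h : σ u
      · simp
      · exact .inr (h4 u hu h)

theorem fin_hard {β : Type} [Enc β] [Inj β] [DecidableEq β] (d : β) {k r : ℕ}
    (h : HardFor InNP (Val (β := β) (· = r)) (Q (fun _ => 0) k)) : NPHard (RegMIS k r) := by
  have := (h.red (Val' := fun _ => True) (Y := RegMIS k r) (fun y => (y.1.length,
    (List.range y.1.length ×ˢ List.range y.1.length).filter
      (fun e => decide ((y.1.getD e.1 d, y.1.getD e.2 d) ∈ y.2.1)), toBits y.2.2))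
    (PT.pair (by fun_prop) (PT.pair (by fun_prop) (PT.toBits (by fun_prop)))) ?_).npHard
  · simpa using this
  rintro ⟨l, E, p⟩ ⟨hn, hp, hs, hd⟩
  refine ⟨trivial, ?_⟩
  simp only at hn hp hs hd
  have c1 : ∀ q : β → Bool, l.countP q = (List.range l.length).countP fun i => q (l.getD i d) :=
    fun q => by
      conv_lhs => rw [show l = (List.range l.length).map (l.getD · d) from
        List.ext_getElem (by simp) fun i h1 h2 => by simp [h1]]
      rw [List.countP_map]; rfl
  have c2 : ∀ σ : β → Bool, ∀ u < l.length, cN l.length ((List.range l.length ×ˢ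
      List.range l.length).filter fun e => decide ((l.getD e.1 d, l.getD e.2 d) ∈ E))
      (fun i => σ (l.getD i d)) u = dg (l, E, p) σ (l.getD u d) := fun σ u hu => by
    rw [dg, c1]
    refine List.countP_congr fun v hv => ?_
    have hv := List.mem_range.1 hv
    have := hs (l.getD u d) (l.getD v d)
    have := hs (l.getD v d) (l.getD u d)
    simp only [Bool.and_eq_true, bne_iff_ne, Bool.or_eq_true, List.contains_eq_mem,
      decide_eq_true_eq, List.mem_filter, List.mem_product, List.mem_range, hu, hv, true_and]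
    grind
  have m : ∀ u < l.length, l.getD u d ∈ l := fun u hu => by simp [hu]
  rw [reg_iff]
  simp only [bin, ofDigits_toBits]
  constructor
  · rintro ⟨σ, a1, a2⟩
    exact ⟨hp, fun u hu => (c2 (fun _ => true) u hu).trans (hd _ (m u hu)),
      fun i => σ (l.getD i d), c1 σ ▸ a1, fun u hu e => (c2 σ u hu).trans_le (a2 _ (m u hu) e)⟩
  · rintro ⟨-, -, σ, a1, a2⟩
    have e : ∀ u < l.length, l.idxOf (l.getD u d) = u := fun u hu => by
      simp [hu, hn.idxOf_getElem]
    refine ⟨fun a => σ (l.idxOf a), ?_, fun a ha h => ?_⟩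
    · rwa [c1, List.countP_congr (q := σ) fun v hv => by rw [e v (List.mem_range.1 hv)]]
    · have hu := List.idxOf_lt_length_of_mem ha
      have := c2 (fun a => σ (l.idxOf a)) _ hu
      rw [show l.getD (l.idxOf a) d = a by simp [hu]] at this
      rw [add_zero, ← this]
      refine le_of_eq_of_le ?_ (a2 _ hu h)
      exact List.countP_congr fun v hv => by simp only [e v (List.mem_range.1 hv)]

theorem main (k r : ℕ) (hk : 1 ≤ k) (hr : max 3 (k + 1) ≤ r) : NPComplete (RegMIS k r) := by
  refine ⟨np k r, ?_⟩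
  by_cases h : r = k + 1
  · exact fin_hard default (show k = r - 1 by omega ▸ hardO (by omega))
  · exact fin_hard default (hardI hk (by omega))

end Pool.Agent.H24.Ki
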