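import Pool.Agent.H11.GDefs

set_option autoImplicit false

namespace Pool.Agent.H24.Ki
open Pool.Agent.H11.PT Finset

open Classical in
/-- reg-kMIS on `r`-regular graphs: input `(n, E, p)`, `p` in binary -/
def RegMIS (k r : ℕ) (y : ℕ × List (ℕ × ℕ) × List Bool) : Prop :=
  1 ≤ bin y.2.2 ∧ (gr y.1 y.2.1).IsRegularOfDegree r ∧
    ∃ S : Finset (Fin y.1), bin y.2.2 ≤ #S ∧
      (∀ v ∈ S, #{u ∈ S | (gr y.1 y.2.1).Adj v u} ≤ k) ∧
      ∀ u ∈ S, ∀ v ∈ S, (gr y.1 y.2.1).degree u = (gr y.1 y.2.1).degree v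

end Pool.Agent.H24.Ki
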