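import Mathlib
import Pool.Agent.H24.AlgFO

set_option autoImplicit false

namespace Pool.Agent.H24.Alg
open Pool.Agent.H24.NilCore Submodule LieModule

universe u v w

variable {K : Type u} [Field K]

def br (K : Type u) [Field K] (L : Type v) [LieRing L] [LieAlgebra K L] : L →ₗ[K] L →ₗ[K] L :=
  LinearMap.mk₂ K (fun a b => ⁅a, b⁆) add_lie smul_lie lie_add lie_smul

theorem br_apply {L : Type v} [LieRing L] [LieAlgebra K L] (a b : L) : br K L a b = ⁅a, b⁆ := rfl

theorem lie_H {L : Type v} [LieRing L] [LieAlgebra K L] (k : ℕ) (a b c : L)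
    (hc : c ∈ Pw (br K L) ⊤ k) : br K L (br K L a b) c ∈ Pw (br K L) ⊤ (k + 2) := by
  simp only [br_apply, lie_lie]
  exact sub_mem (apply_mem_map₂ (br K L) mem_top (apply_mem_map₂ (br K L) mem_top hc))
    (apply_mem_map₂ (br K L) mem_top (apply_mem_map₂ (br K L) mem_top hc))

abbrev FN (K : Type u) [Field K] (r n : ℕ) :=
  FreeLieAlgebra K (Fin r) ⧸ lowerCentralSeries K (FreeLieAlgebra K (Fin r))
    (FreeLieAlgebra K (Fin r)) n

theorem pw_quot {L : Type v} [LieRing L] [LieAlgebra K L] (I : LieIdeal K L) (k : ℕ) :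
    ∀ z ∈ Pw (br K (L ⧸ I)) ⊤ k, ∃ y ∈ lowerCentralSeries K L L k,
      LieSubmodule.Quotient.mk' I y = z := by
  induction k with
  | zero =>
    intro z _
    obtain ⟨y, hy⟩ := LieSubmodule.Quotient.surjective_mk' I z
    exact ⟨y, by simp, hy⟩
  | succ k ih =>
    have : Pw (br K (L ⧸ I)) ⊤ (k + 1) ≤ (lowerCentralSeries K L L (k + 1)).toSubmodule.map
        (LieSubmodule.Quotient.mk' I).toLinearMap := by
      refine map₂_le.2 fun a _ c hc => ?_
      obtain ⟨y, hy, rfl⟩ := ih c hc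
      obtain ⟨a, rfl⟩ := LieSubmodule.Quotient.surjective_mk' I a
      refine ⟨⁅a, y⁆, ?_, rfl⟩
      rw [lowerCentralSeries_succ]
      exact LieSubmodule.lie_mem_lie (LieSubmodule.mem_top _) hy
    exact fun z hz => this hz

theorem FN_nil (r n : ℕ) : Pw (br K (FN K r n)) ⊤ n = ⊥ := by
  refine le_bot_iff.1 fun z hz => ?_
  obtain ⟨y, hy, rfl⟩ := pw_quot _ n z hz
  exact (LieSubmodule.Quotient.mk_eq_zero _).2 hy

noncomputable def FNx (K : Type u) [Field K] (r n : ℕ) (i : Fin r) : FN K r n :=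
  LieSubmodule.Quotient.mk' _ (FreeLieAlgebra.of K i)

theorem FN_gen (r n : ℕ) (S : Submodule K (FN K r n)) (hx : ∀ i, FNx K r n i ∈ S)
    (hS : ∀ a ∈ S, ∀ b ∈ S, br K (FN K r n) a b ∈ S) : S = ⊤ := by
  let T : LieSubalgebra K (FreeLieAlgebra K (Fin r)) :=
    { S.comap (LieSubmodule.Quotient.mk' (lowerCentralSeries K (FreeLieAlgebra K (Fin r))
        (FreeLieAlgebra K (Fin r)) n)).toLinearMap with
      lie_mem' := fun {a b} ha hb => hS _ ha _ hb }
  let φ := FreeLieAlgebra.lift K (fun i => (⟨FreeLieAlgebra.of K i, hx i⟩ : T))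
  have h1 : T.incl.comp φ = LieHom.id := FreeLieAlgebra.hom_ext fun i => by simp [φ]
  refine top_unique fun a _ => ?_
  obtain ⟨a, rfl⟩ := LieSubmodule.Quotient.surjective_mk' _ a
  have h2 : ((φ a : T) : FreeLieAlgebra K (Fin r)) = a := DFunLike.congr_fun h1 a
  rw [← h2]
  exact (φ a).2

theorem map_lcs {L : Type v} [LieRing L] [LieAlgebra K L] (f : L →ₗ⁅K⁆ L) (k : ℕ) :
    ∀ z ∈ lowerCentralSeries K L L k, f z ∈ lowerCentralSeries K L L k := by
  intro z hz
  exact LieIdeal.map_lowerCentralSeries_le k (LieIdeal.mem_map hz)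

theorem FN_ext (r n : ℕ) (y : Fin r → FN K r n) :
    ∃ φ, IsEnd (br K (FN K r n)) φ ∧ ∀ i, φ (FNx K r n i) = y i := by
  choose y' hy' using fun i => LieSubmodule.Quotient.surjective_mk' _ (y i)
  let f := FreeLieAlgebra.lift K y'
  refine ⟨mapQ _ _ f.toLinearMap fun z hz => map_lcs f n z hz, fun a b => ?_, fun i => ?_⟩
  · obtain ⟨a, rfl⟩ := LieSubmodule.Quotient.surjective_mk' _ a
    obtain ⟨b, rfl⟩ := LieSubmodule.Quotient.surjective_mk' _ b
    exact congrArg (LieSubmodule.Quotient.mk' (lowerCentralSeries K (FreeLieAlgebra K (Fin r))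
      (FreeLieAlgebra K (Fin r)) n)) (f.map_lie a b)
  · rw [← hy']
    exact congrArg (LieSubmodule.Quotient.mk' (lowerCentralSeries K (FreeLieAlgebra K (Fin r))
      (FreeLieAlgebra K (Fin r)) n)) (FreeLieAlgebra.lift_of_apply y' i)

end Pool.Agent.H24.Alg
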