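import Pool.Agent.H24.Cf4

/-! Exchange structure of semilinear sets, and a flag form of Dickson's lemma. -/

namespace Pool.Agent.H24.Cf
open Classical

variable {M X α : Type} [AddCommMonoid M]

def LinC {J : Type} (code : M → J → ℕ) (S : Set M) : Prop :=
  ∀ x ∈ S, ∃ H : AddSubmonoid M, (∀ h ∈ H, x + h ∈ S) ∧
    ∀ y ∈ S, code x ≤ code y → ∃ h ∈ H, y = x + h

def Lin (S : Set M) : Prop := ∃ (J : Type) (_ : Finite J) (code : M → J → ℕ), LinC code S

theorem lin_fam {D : Type} [Finite D] {S : D → Set M} (h : ∀ d, Lin (S d)) :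
    ∃ (J : Type) (_ : Finite J) (code : M → J → ℕ), ∀ d, LinC code (S d) := by
  choose J hJ code h using h
  refine ⟨Σ d, J d, inferInstance, fun x j => code j.1 x j.2, fun d x hx => ?_⟩
  obtain ⟨H, a, b⟩ := h d x hx
  exact ⟨H, a, fun y hy k => b y hy fun j => k ⟨d, j⟩⟩

theorem disc {S : Set α} (hS : S.Finite) : ∃ (J : Type) (_ : Finite J) (code : α → J → ℕ),
    ∀ x ∈ S, ∀ y, code x ≤ code y → x = y := by
  refine ⟨S, hS.to_subtype, fun x j => if x = j.1 then 1 else 0, fun x hx y k => ?_⟩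
  have := k ⟨x, hx⟩
  by_contra e
  simp [Ne.symm e] at this

theorem lin_union {D : Type} [Finite D] {S : D → Set M} (h : ∀ d, Lin (S d)) : Lin (⋃ d, S d) := by
  obtain ⟨J, _, code, h⟩ := lin_fam h
  obtain ⟨J', _, code', h'⟩ := disc (Set.finite_univ (α := Option D))
  let ix : M → Option D := fun x => if k : ∃ d, x ∈ S d then some k.choose else none
  have hix : ∀ x ∈ ⋃ d, S d, ∃ d, ix x = some d ∧ x ∈ S d := fun x hx => by
    have k := Set.mem_iUnion.1 hx
    exact ⟨_, dif_pos k, k.choose_spec⟩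
  refine ⟨J ⊕ J', inferInstance, fun x => Sum.elim (code x) (code' (ix x)), fun x hx => ?_⟩
  obtain ⟨d, a1, a2⟩ := hix x hx
  obtain ⟨H, a, b⟩ := h d x a2
  refine ⟨H, fun g hg => Set.mem_iUnion.2 ⟨d, a g hg⟩, fun y hy k => ?_⟩
  obtain ⟨d', b1, b2⟩ := hix y hy
  have := h' _ trivial _ fun j => k (.inr j)
  rw [a1, b1] at this
  exact b y (Option.some.inj this ▸ b2) fun j => k (.inl j)

theorem lin_hom {J : Type} [Finite J] (a : M) (f : (J → ℕ) →+ M) : Lin {x | ∃ c, x = a + f c} := by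
  refine ⟨J, inferInstance, fun x => if k : ∃ c, x = a + f c then k.choose else 0, fun x hx => ?_⟩
  refine ⟨AddMonoidHom.mrange f, ?_, fun y hy k => ?_⟩
  · obtain ⟨c, rfl⟩ := hx
    rintro _ ⟨d, rfl⟩
    exact ⟨c + d, by rw [map_add, add_assoc]⟩
  · simp only [dif_pos (show ∃ c, x = a + f c from hx), dif_pos (show ∃ c, y = a + f c from hy)] at k
    obtain ⟨d, hd⟩ := exists_add_of_le k
    refine ⟨f d, ⟨d, rfl⟩, ?_⟩
    rw [(show ∃ c, y = a + f c from hy).choose_spec, hd, map_add, ← add_assoc,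
      ← (show ∃ c, x = a + f c from hx).choose_spec]

theorem lin_sl {S : Set M} (h : IsSemilinearSet S) : Lin S := by
  obtain ⟨T, h1, h2, rfl⟩ := h
  have := h1.to_subtype
  rw [Set.sUnion_eq_iUnion]
  refine lin_union fun t => ?_
  obtain ⟨a, n, f, e⟩ := isLinearSet_iff_exists_fin_addMonoidHom.1 (h2 t.1 t.2)
  convert lin_hom a f
  rw [e]
  ext x
  exact ⟨fun ⟨_, ⟨c, rfl⟩, e⟩ => ⟨c, e.symm⟩, fun ⟨c, e⟩ => ⟨_, ⟨c, rfl⟩, e.symm⟩⟩

theorem SCF.lin [Finite X] {K : Set (List X)} (hK : SCF K) (g : X → M) :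
    Lin {y | ∃ w ∈ K, (w.map g).sum = y} := by
  obtain ⟨ι, P, _, _, b, pu, al, h1, h2, -⟩ := hK.parikh_vec g
  let φ := fun p => (((pu p).1 ++ (pu p).2).map g).sum
  let f : ι → (P → ℕ) →+ M := fun i =>
    { toFun := fun c => ∑ p, (if al i p then c p else 0) • φ p
      map_zero' := by simp
      map_add' := fun c d => by
        rw [← Finset.sum_add_distrib]
        exact Finset.sum_congr rfl fun p _ => by split_ifs <;> simp [add_smul] }
  have := lin_union (D := Option ι)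
    (S := fun o => o.elim {x | x = 0 ∧ [] ∈ K} fun i => {x | ∃ c, x = b i + f i c}) (by
      rintro (_ | i)
      · exact ⟨Unit, inferInstance, 0, fun x hx => ⟨⊥, by simpa using hx,
          fun y hy _ => ⟨0, by simp, by rw [hx.1, hy.1, add_zero]⟩⟩⟩
      · exact lin_hom _ _)
  convert this
  ext y
  simp only [Set.mem_iUnion, Set.mem_ofPred_eq]
  constructor
  · rintro ⟨w, a, rfl⟩
    by_cases e : w = []
    · subst e
      exact ⟨none, rfl, a⟩
    · obtain ⟨i, c, a1, a2⟩ := h1 w a e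
      refine ⟨some i, c, a2.trans ?_⟩
      congr 1
      exact Finset.sum_congr rfl fun p _ => by
        split_ifs with k
        exacts [rfl, by rw [a1 p k]]
  · rintro ⟨_ | i, k⟩
    · exact ⟨[], k.2, k.1.symm⟩
    · obtain ⟨c, rfl⟩ := k
      exact h2 i _ fun p hp => if_neg hp

theorem scf_univ : SCF (Set.univ : Set (List X)) := by
  have : SCF (Set.univ : Set (List Empty)) :=
    ⟨Unit, inferInstance, fun _ => ∅, (), ⟨by simp, by simp⟩, fun w => by
      rcases w with _ | ⟨a, w⟩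
      · simp
      · exact a.elim⟩
  exact this.comap fun _ => none

theorem flag [Preorder α] [WellQuasiOrderedLE α] (F : (ℕ → ℕ) → α) : ∀ (k : ℕ) (b : ℕ → ℕ),
    ∃ n0 : ℕ → ℕ, (∀ j, k ≤ j → n0 j = b j) ∧
      ∀ i < k, ∃ n, F n0 ≤ F n ∧ (∀ j, i < j → n j = n0 j) ∧ n0 i < n i := by
  intro k
  induction k with
  | zero => exact fun b => ⟨b, fun _ _ => rfl, by simp⟩
  | succ k ih =>
    intro b
    choose n0 h1 h2 using fun t => ih (Function.update b k t)
    obtain ⟨t, t', a1, a2⟩ := wellQuasiOrdered_le fun t => F (n0 t)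
    have e : ∀ s j, k < j → n0 s j = b j := fun s j hj => by
      rw [h1 s j hj.le, Function.update_of_ne hj.ne']
    refine ⟨n0 t, e t, fun i hi => ?_⟩
    rcases Nat.lt_succ_iff_lt_or_eq.1 hi with hi | rfl
    · exact h2 t i hi
    · exact ⟨n0 t', a2, fun j hj => by rw [e _ _ hj, e _ _ hj], by simpa [h1] using a1⟩

end Pool.Agent.H24.Cf
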