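import Mathlib
import Pool.Agent.H24.HomP3

set_option autoImplicit false

namespace Pool.Agent.H24.SpInv

open FreeGroup FreeMonoid Pool.Agent.H23 Pool.Agent.H24.HomP

variable {X : Type}

def ic (R : List (List (X × Bool))) : Con (FreeMonoid (X × Bool)) := conGen fun a b =>
  (∃ u, a = ofList (u ++ invRev u ++ u) ∧ b = ofList u) ∨
  (∃ u v, a = ofList (u ++ invRev u ++ (v ++ invRev v)) ∧
    b = ofList (v ++ invRev v ++ (u ++ invRev u))) ∨
  (∃ r ∈ R, a = ofList r ∧ b = 1)

variable (R : List (List (X × Bool)))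

def q (w : List (X × Bool)) : (ic R).Quotient := (ic R).mk' (ofList w)

@[simp] theorem q_nil : q R [] = 1 := rfl
theorem q_append (u v : List (X × Bool)) : q R (u ++ v) = q R u * q R v := rfl
theorem q_eq (u v : List (X × Bool)) : q R u = q R v ↔ ic R (ofList u) (ofList v) := Con.eq _
theorem q_surj (s : (ic R).Quotient) : ∃ w, q R w = s := by
  obtain ⟨w, rfl⟩ := (ic R).mk'_surjective s
  exact ⟨toList w, rfl⟩

theorem w1 (u : List (X × Bool)) : q R u * q R (invRev u) * q R u = q R u :=
  (q_eq R _ _).2 (ConGen.Rel.of _ _ (Or.inl ⟨u, rfl, rfl⟩))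
theorem w2 (u v : List (X × Bool)) :
    Commute (q R u * q R (invRev u)) (q R v * q R (invRev v)) :=
  (q_eq R (u ++ invRev u ++ (v ++ invRev v)) (v ++ invRev v ++ (u ++ invRev u))).2
    (ConGen.Rel.of _ _ (Or.inr (Or.inl ⟨u, v, rfl, rfl⟩)))
theorem w3 {r : List (X × Bool)} (h : r ∈ R) : q R r = 1 :=
  (q_eq R _ []).2 (ConGen.Rel.of _ _ (Or.inr (Or.inr ⟨r, h, rfl, rfl⟩)))

def E : Submonoid (ic R).Quotient :=
  Submonoid.closure (Set.range fun u => q R u * q R (invRev u))

theorem E_pr (u : List (X × Bool)) : q R u * q R (invRev u) ∈ E R :=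
  Submonoid.subset_closure ⟨u, rfl⟩

theorem E_comm {e : (ic R).Quotient} (he : e ∈ E R) (u : List (X × Bool)) :
    Commute e (q R u * q R (invRev u)) := by
  induction he using Submonoid.closure_induction with
  | mem x hx => obtain ⟨v, rfl⟩ := hx; exact w2 R v u
  | one => exact Commute.one_left _
  | mul x y _ _ h1 h2 => exact h1.mul_left h2

theorem E_comm' {e f : (ic R).Quotient} (he : e ∈ E R) (hf : f ∈ E R) : Commute e f := by
  induction hf using Submonoid.closure_induction with
  | mem x hx => obtain ⟨v, rfl⟩ := hx; exact E_comm R he v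
  | one => exact Commute.one_right _
  | mul x y _ _ h1 h2 => exact h1.mul_right h2

theorem E_idem {e : (ic R).Quotient} (he : e ∈ E R) : e * e = e := by
  induction he using Submonoid.closure_induction with
  | mem x hx => obtain ⟨v, rfl⟩ := hx; dsimp only; rw [← mul_assoc, w1]
  | one => simp
  | mul x y hx hy h1 h2 =>
    rw [mul_assoc, ← mul_assoc y, ← (E_comm' R hx hy).eq, mul_assoc, h2, ← mul_assoc, h1]

theorem E_mv {e : (ic R).Quotient} (he : e ∈ E R) (u : List (X × Bool)) :
    q R u * e * q R (invRev u) * q R u = q R u * e := by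
  have := (E_comm R he (invRev u)).eq
  rw [invRev_invRev] at this
  rw [mul_assoc, mul_assoc, this, ← mul_assoc, ← mul_assoc, w1]

theorem E_conj {e : (ic R).Quotient} (he : e ∈ E R) (u : List (X × Bool)) :
    q R u * e * q R (invRev u) ∈ E R := by
  induction he using Submonoid.closure_induction with
  | mem x hx =>
    obtain ⟨v, rfl⟩ := hx
    have := E_pr R (u ++ v)
    rw [invRev_append, q_append, q_append] at this
    simpa only [mul_assoc] using this
  | one => simpa using E_pr R u
  | mul x y hx hy h1 h2 =>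
    have := (E R).mul_mem h1 h2
    rwa [← mul_assoc, ← mul_assoc, E_mv R hx, mul_assoc (q R u)] at this

def Le (a b : (ic R).Quotient) : Prop := ∃ e ∈ E R, a = e * b

theorem Le.left {a b : (ic R).Quotient} (h : Le R a b) (u : List (X × Bool)) :
    Le R (q R u * a) (q R u * b) := by
  obtain ⟨e, he, rfl⟩ := h
  exact ⟨_, E_conj R he u, by rw [← mul_assoc, ← mul_assoc, E_mv R he]⟩

theorem Le.right {a b : (ic R).Quotient} (h : Le R a b) (c : (ic R).Quotient) :
    Le R (a * c) (b * c) := by
  obtain ⟨e, he, rfl⟩ := h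
  exact ⟨e, he, mul_assoc _ _ _⟩

theorem Le.trans {a b c : (ic R).Quotient} (h : Le R a b) (k : Le R b c) : Le R a c := by
  obtain ⟨e, he, rfl⟩ := h
  obtain ⟨f, hf, rfl⟩ := k
  exact ⟨_, (E R).mul_mem he hf, (mul_assoc _ _ _).symm⟩

theorem ru_inv {w : List (X × Bool)} {t : (ic R).Quotient} (h : q R w * t = 1) :
    q R w * q R (invRev w) = 1 := by
  have := congrArg (· * t) (w1 R w)
  simp only [mul_assoc, h, mul_one] at this
  exact this

def pos (u : List X) : List (X × Bool) := u.map fun i => (i, true)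

@[simp] theorem pos_nil : pos ([] : List X) = [] := rfl
theorem pos_append (u v : List X) : pos (u ++ v) = pos u ++ pos v := List.map_append

section ok
variable {G : Type} [Group G] (x : X → G) (P : Submonoid G)

def ok : G → List (X × Bool) → Prop
  | _, [] => True
  | p, l :: w => p * ev x [l] ∈ P ∧ ok (p * ev x [l]) w

theorem ev_cons' (l : X × Bool) (w : List (X × Bool)) : ev x (l :: w) = ev x [l] * ev x w :=
  ev_append x [l] w

theorem ok_append (p : G) (u v : List (X × Bool)) :
    ok x P p (u ++ v) ↔ ok x P p u ∧ ok x P (p * ev x u) v := by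
  induction u generalizing p with
  | nil => simp [ok]
  | cons l u ih => simp only [List.cons_append, ok, ih, ev_cons' x l u, mul_assoc, and_assoc]

theorem ok_mem {p : G} {u : List (X × Bool)} (hp : p ∈ P) (h : ok x P p u) : p * ev x u ∈ P := by
  induction u generalizing p with
  | nil => simpa using hp
  | cons l u ih => rw [ev_cons', ← mul_assoc]; exact ih h.1 h.2

theorem ok_inv {p : G} {u : List (X × Bool)} (hp : p ∈ P) (h : ok x P p u) :
    ok x P (p * ev x u) (invRev u) := by
  induction u generalizing p with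
  | nil => trivial
  | cons l u ih =>
    rw [invRev_cons, ok_append, ev_cons', ← mul_assoc, ev_invRev, mul_inv_cancel_right]
    refine ⟨ih h.1 h.2, ?_, trivial⟩
    have : ev x [(l.1, !l.2)] = (ev x [l])⁻¹ := ev_invRev x [l]
    rw [this, mul_inv_cancel_right]
    exact hp

theorem ok_pos (hx : ∀ i, x i ∈ P) {p : G} (hp : p ∈ P) (u : List X) : ok x P p (pos u) := by
  induction u generalizing p with
  | nil => trivial
  | cons i u ih =>
    have : p * ev x [(i, true)] ∈ P := P.mul_mem hp (by simpa [ev] using hx i)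
    exact ⟨this, ih this⟩

def okCon : Con (FreeMonoid (X × Bool)) where
  r u v := ev x (toList u) = ev x (toList v) ∧ ∀ p ∈ P, ok x P p (toList u) ↔ ok x P p (toList v)
  iseqv := ⟨fun _ => ⟨rfl, fun _ _ => Iff.rfl⟩, fun h => ⟨h.1.symm, fun p hp => (h.2 p hp).symm⟩,
    fun h k => ⟨h.1.trans k.1, fun p hp => (h.2 p hp).trans (k.2 p hp)⟩⟩
  mul' := fun {a b c d} h k => ⟨by simp only [toList_mul, ev_append, h.1, k.1], fun p hp => by
    simp only [toList_mul, ok_append, ← h.2 p hp, ← h.1]
    exact and_congr_right fun h' => k.2 _ (ok_mem x P hp h')⟩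

theorem ic_le (hR : ∀ r ∈ R, ev x r = 1 ∧ ∀ p ∈ P, ok x P p r) : ic R ≤ okCon x P := by
  refine Con.conGen_le.2 fun a b h => ?_
  rcases h with ⟨u, e1, e2⟩ | ⟨u, v, e1, e2⟩ | ⟨r, hr, e1, e2⟩ <;> rw [e1, e2]
  · refine ⟨by simp [ev_invRev], fun p hp => ?_⟩
    simp only [toList_ofList, ok_append, ev_append, ev_invRev, mul_inv_cancel, mul_one]
    exact ⟨fun h => h.2, fun h => ⟨⟨h, ok_inv x P hp h⟩, h⟩⟩
  · refine ⟨by simp [ev_invRev], fun p hp => ?_⟩
    simp only [toList_ofList, ok_append, ev_append, ev_invRev, mul_inv_cancel, mul_one]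
    exact and_comm
  · exact ⟨(hR r hr).1, fun p hp => ⟨fun _ => trivial, fun _ => (hR r hr).2 p hp⟩⟩

end ok

def up (bar : X → List X) (w : List (X × Bool)) : List X :=
  w.flatMap fun l => bif l.2 then [l.1] else bar l.1
def kk (cc : X → ℕ) (w : List (X × Bool)) : ℕ :=
  w.foldr (fun l s => (bif l.2 then 0 else cc l.1) + s) 0

theorem up_pos (bar : X → List X) (u : List X) : up bar (pos u) = u := by
  induction u with
  | nil => rfl
  | cons i u ih => exact congrArg (i :: ·) ih

theorem kk_pos (cc : X → ℕ) (u : List X) : kk cc (pos u) = 0 := by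
  induction u with
  | nil => rfl
  | cons i u ih => exact (zero_add _).trans ih

section main
variable {R} {z : X} {bar : X → List X} {cc : X → ℕ}

theorem q_rep (n : ℕ) : q R (pos (List.replicate n z)) = q R [(z, true)] ^ n := by
  induction n with
  | zero => rfl
  | succ n ih => rw [pow_succ', ← ih]; rfl

theorem pos_ru (h1 : ∀ i, q R [(i, true)] * q R [(i, false)] = 1) (u : List X) :
    q R (pos u) * q R (invRev (pos u)) = 1 := by
  induction u with
  | nil => rfl
  | cons i u ih =>
    have : q R (pos (i :: u)) * q R (invRev (pos (i :: u))) =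
        q R [(i, true)] * (q R (pos u) * q R (invRev (pos u))) * q R [(i, false)] := by
      rw [← q_append, ← q_append, ← q_append, ← q_append]
      simp [pos, invRev]
    rw [this, ih, mul_one, h1]

theorem rel_eq (h1 : ∀ i, q R [(i, true)] * q R [(i, false)] = 1) {u v : List X}
    (h : pos u ++ invRev (pos v) ∈ R) : q R (pos u) = q R (pos v) := by
  have a := w3 R h
  rw [q_append] at a
  have b := (w2 R (invRev (pos v)) (invRev (pos u))).eq
  simp only [invRev_invRev] at b
  have c := pos_ru h1 u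
  have d := pos_ru h1 v
  generalize q R (pos u) = U, q R (invRev (pos u)) = U', q R (pos v) = V,
    q R (invRev (pos v)) = V' at a b c d
  have e : V * U' * U = V := by
    have := congrArg (U * ·) b
    simp only [← mul_assoc, a, c, one_mul] at this
    exact this
  have f : V * U' = 1 := by rw [← d, ← mul_one (V * U'), ← a, ← mul_assoc, e]
  rw [← e, f, one_mul]

theorem z_comm (h2 : ∀ i, Commute (q R [(i, true)]) (q R [(z, true)])) (u : List X) :
    Commute (q R (pos u)) (q R [(z, true)]) := by
  induction u with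
  | nil => exact Commute.one_left _
  | cons i u ih => exact (h2 i).mul_left ih

theorem key_le (h2 : ∀ i, Commute (q R [(i, true)]) (q R [(z, true)]))
    (h3 : ∀ i, q R [(i, true)] * q R (pos (bar i)) = q R [(z, true)] ^ cc i)
    (w : List (X × Bool)) : Le R (q R w * q R [(z, true)] ^ kk cc w) (q R (pos (up bar w))) := by
  induction w with
  | nil => exact ⟨1, (E R).one_mem, rfl⟩
  | cons l w ih =>
    obtain ⟨i, b⟩ := l
    cases b
    · have e1 : kk cc ((i, false) :: w) = cc i + kk cc w := rfl
      have e2 : up bar ((i, false) :: w) = bar i ++ up bar w := rfl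
      have e3 : q R ((i, false) :: w) = q R [(i, false)] * q R w := rfl
      rw [e1, e2, e3, add_comm, pow_add, ← mul_assoc, mul_assoc (q R _)]
      refine ((ih.left R _).right R _).trans R ⟨_, E_pr R [(i, false)], ?_⟩
      rw [mul_assoc, ((z_comm h2 _).pow_right _).eq, ← h3, pos_append, q_append]
      simp only [mul_assoc]
      rfl
    · have e1 : kk cc ((i, true) :: w) = kk cc w := zero_add _
      have e3 : q R ((i, true) :: w) = q R [(i, true)] * q R w := rfl
      rw [e1, e3, mul_assoc]
      exact ih.left R [(i, true)]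

theorem z_canc (h1 : ∀ i, q R [(i, true)] * q R [(i, false)] = 1) {a b : (ic R).Quotient} {n : ℕ}
    (h : a * q R [(z, true)] ^ n = b * q R [(z, true)] ^ n) : a = b := by
  have := congrArg (· * q R (invRev (pos (List.replicate n z)))) h
  simpa only [← q_rep, mul_assoc, pos_ru h1, mul_one] using this

def dCon (h1 : ∀ i, q R [(i, true)] * q R [(i, false)] = 1)
    (h2 : ∀ i, Commute (q R [(i, true)]) (q R [(z, true)])) :
    Con (FreeMonoid X × Multiplicative ℕ) where
  r a b := q R (pos (toList a.1)) * q R [(z, true)] ^ b.2.toAdd =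
    q R (pos (toList b.1)) * q R [(z, true)] ^ a.2.toAdd
  iseqv := ⟨fun _ => rfl, fun h => h.symm, fun {a b c} h k => z_canc h1 (z := z) (n := b.2.toAdd) (by
    rw [mul_assoc, ← pow_add, add_comm, pow_add, ← mul_assoc, h, mul_assoc, ← pow_add, add_comm,
      pow_add, ← mul_assoc, k, mul_assoc, mul_assoc, ← pow_add, ← pow_add, add_comm])⟩
  mul' := fun {a b c d} h k => by
    simp only [Prod.fst_mul, Prod.snd_mul, toList_mul, pos_append, q_append, toAdd_mul, pow_add]
    rw [mul_assoc, ← mul_assoc (q R (pos (toList c.1))), ((z_comm h2 _).pow_right _).eq,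
      mul_assoc, ← mul_assoc (q R _), h, k, mul_assoc, mul_assoc, ← mul_assoc (_ ^ _),
      ← ((z_comm h2 _).pow_right _).eq, mul_assoc]

theorem claimL {G : Type} [Group G] (x : X → G) (S : Set (List (X × Bool)))
    (hS : Subgroup.normalClosure (FreeGroup.mk '' S) = (FreeGroup.lift x).ker)
    (h1 : ∀ i, q R [(i, true)] * q R [(i, false)] = 1)
    (h2 : ∀ i, Commute (q R [(i, true)]) (q R [(z, true)]))
    (h3 : ∀ i, q R [(i, true)] * q R (pos (bar i)) = q R [(z, true)] ^ cc i)
    (h4 : ∀ i, q R (pos (bar i)) * q R [(i, true)] = q R [(z, true)] ^ cc i)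
    (h5 : ∀ r ∈ S, q R (pos (up bar r)) = q R [(z, true)] ^ kk cc r)
    {u v : List X} (h : ev x (pos u) = ev x (pos v)) : q R (pos u) = q R (pos v) := by
  let d := dCon h1 h2
  let U : X → d.Quotientˣ := fun i => ⟨d.mk' (FreeMonoid.of i, 1),
    d.mk' (ofList (bar i), Multiplicative.ofAdd (cc i)),
    (Con.eq d).2 (show q R (pos (i :: bar i)) * q R [(z, true)] ^ 0 =
      1 * q R [(z, true)] ^ (0 + cc i) by rw [pow_zero, mul_one, one_mul, zero_add]; exact h3 i),
    (Con.eq d).2 (show q R (pos (bar i ++ [i])) * q R [(z, true)] ^ 0 =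
      1 * q R [(z, true)] ^ (cc i + 0) by
        rw [pow_zero, mul_one, one_mul, add_zero, pos_append]; exact h4 i)⟩
  have e : ∀ w, ((FreeGroup.lift U (FreeGroup.mk w) : d.Quotientˣ) : d.Quotient) =
      d.mk' (ofList (up bar w), Multiplicative.ofAdd (kk cc w)) := by
    intro w
    rw [ev_eq]
    induction w with
    | nil => rfl
    | cons l w ih =>
      rw [ev_cons, Units.val_mul, ih]
      obtain ⟨i, b⟩ := l
      cases b <;> rfl
  have hk : (FreeGroup.lift x).ker ≤ (FreeGroup.lift U).ker := by
    rw [← hS]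
    refine Subgroup.normalClosure_le_normal ?_
    rintro _ ⟨r, hr, rfl⟩
    refine Units.ext ((e r).trans ((Con.eq d).2 ?_))
    simpa [d, dCon] using h5 r hr
  have := hk (x := FreeGroup.mk (pos u) * (FreeGroup.mk (pos v))⁻¹) (by
    rw [MonoidHom.mem_ker, _root_.map_mul, _root_.map_inv, ev_eq, ev_eq, h, mul_inv_cancel])
  rw [MonoidHom.mem_ker, _root_.map_mul, _root_.map_inv, mul_inv_eq_one] at this
  have := (Con.eq d).1 ((e _).symm.trans ((congrArg Units.val this).trans (e _)))
  simpa [d, dCon, up_pos, kk_pos] using this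

end main

theorem ev_rep {G : Type} [Group G] (x : X → G) (z : X) (n : ℕ) :
    ev x (pos (List.replicate n z)) = x z ^ n := by
  simp [pos, ev]

theorem ev_up {G : Type} [Group G] (x : X → G) (z : X) (bar : X → List X) (cc : X → ℕ)
    (hc : ∀ g, Commute (x z) g) (hb : ∀ i, (x i)⁻¹ * x z ^ cc i = ev x (pos (bar i)))
    (w : List (X × Bool)) : ev x w * x z ^ kk cc w = ev x (pos (up bar w)) := by
  induction w with
  | nil => simp [kk, up]
  | cons l w ih =>
    obtain ⟨i, b⟩ := l
    cases b
    · have e1 : kk cc ((i, false) :: w) = cc i + kk cc w := rfl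
      have e2 : up bar ((i, false) :: w) = bar i ++ up bar w := rfl
      rw [e1, e2, pos_append, ev_append, ← ih, ← hb, ev_cons, pow_add, cond_false, mul_assoc,
        mul_assoc, ← mul_assoc (ev x w), ← ((hc (ev x w)).pow_left _).eq, mul_assoc]
    · have e1 : kk cc ((i, true) :: w) = kk cc w := zero_add _
      have e2 : pos (up bar ((i, true) :: w)) = (i, true) :: pos (up bar w) := rfl
      rw [e1, e2, ev_cons, ev_cons, mul_assoc, ih]

def pi (R : List (List (X × Bool))) (w : List (X × Bool)) :
    PresentedGroup {g | ∃ r ∈ R, FreeGroup.mk r = g} := PresentedGroup.mk _ (FreeGroup.mk w)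

theorem pi_append (R : List (List (X × Bool))) (u v : List (X × Bool)) :
    pi R (u ++ v) = pi R u * pi R v := by
  unfold pi; rw [← mul_mk, _root_.map_mul]

theorem pi_inv (R : List (List (X × Bool))) (u : List (X × Bool)) :
    pi R (invRev u) = (pi R u)⁻¹ := by
  unfold pi; rw [← inv_mk, _root_.map_inv]

theorem pi_q (R : List (List (X × Bool))) {u v : List (X × Bool)} (h : q R u = q R v) :
    pi R u = pi R v := by
  let f : FreeMonoid (X × Bool) →* _ := ⟨⟨fun a => pi R (toList a), rfl⟩, fun a b => pi_append R _ _⟩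
  have : ic R ≤ Con.ker f := by
    refine Con.conGen_le.2 fun a b h => ?_
    rcases h with ⟨u, e1, e2⟩ | ⟨u, v, e1, e2⟩ | ⟨r, hr, e1, e2⟩ <;> rw [e1, e2]
    · show pi R _ = pi R _
      simp [pi_append, pi_inv]
    · show pi R _ = pi R _
      simp [pi_append, pi_inv]
    · exact PresentedGroup.one_of_mem ⟨r, hr, rfl⟩
  exact this ((q_eq R u v).1 h)

theorem comp_red {α β : Type} [Primcodable α] [Primcodable β] {P : β → Prop} {K : α → Prop}
    (hP : ComputablePred P) (r : α → β) (hr : Computable r) (e : ∀ n, K n ↔ P (r n)) :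
    ComputablePred K := by
  obtain ⟨f, hf, e'⟩ := ComputablePred.computable_iff.1 hP
  refine ComputablePred.computable_iff.2 ⟨fun n => f (r n), hf.comp hr, funext fun n => ?_⟩
  rw [propext (e n)]
  exact congrFun e' (r n)

theorem general [Finite X] [Primcodable X] {G : Type} [Group G] (x : X → G) (z : X)
    (hc : ∀ g, Commute (x z) g)
    (hz : ∀ i, ∃ m : ℕ, (x i)⁻¹ * x z ^ m ∈ Submonoid.closure (Set.range x))
    (hfp : (FreeGroup.lift x).ker.IsFinitelyNormallyGenerated)
    (hwp : ComputablePred fun w => ev x w = 1)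
    (hun : ¬ ComputablePred fun w => ev x w ∈ Submonoid.closure (Set.range x)) :
    ∃ R : List (List (X × Bool)),
      (∀ e s : (ic R).Quotient, e * e = e → (∃ f, f * f = f ∧ e = f * s) → s * s = s) ∧
      (∀ a ∈ {g | ∃ w, (∃ t, q R w * t = 1) ∧ pi R w = g},
        ∀ b ∈ {g | ∃ w, (∃ t, q R w * t = 1) ∧ pi R w = g},
        ∃ c ∈ {g | ∃ w, (∃ t, q R w * t = 1) ∧ pi R w = g},
        ∃ d ∈ {g | ∃ w, (∃ t, q R w * t = 1) ∧ pi R w = g}, a * c = b * d) ∧
      (ComputablePred fun w => pi R w = 1) ∧
      ¬ ComputablePred fun p : List (X × Bool) × List (X × Bool) =>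
        ic R (ofList p.1) (ofList p.2) := by
  choose cc hcc using hz
  choose bar hb using fun i => ex_prod x (hcc i)
  have hb' : ∀ i, (x i)⁻¹ * x z ^ cc i = ev x (pos (bar i)) := fun i =>
    (hb i).symm.trans (ev_pos x _).symm
  have hup := ev_up x z bar cc hc hb'
  obtain ⟨S0, hS0, hS⟩ := hfp
  classical
  let S := toWord '' S0
  have hS' : Subgroup.normalClosure (FreeGroup.mk '' S) = (FreeGroup.lift x).ker := by
    rw [← hS, Set.image_image]
    simp only [mk_toWord, Set.image_id']
  let T : Set (List X × List X) := (Set.range fun i => ([i], [i])) ∪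
    (Set.range fun i => ([i, z], [z, i])) ∪
    (Set.range fun i => (i :: bar i, List.replicate (cc i) z)) ∪
    (Set.range fun i => (bar i ++ [i], List.replicate (cc i) z)) ∪
    (fun r => (up bar r, List.replicate (kk cc r) z)) '' S
  have hT : T.Finite := ((((Set.finite_range _).union (Set.finite_range _)).union
    (Set.finite_range _)).union (Set.finite_range _)).union ((hS0.image _).image _)
  have hT2 : ∀ p ∈ T, ev x (pos p.1) = ev x (pos p.2) := by
    rintro _ ((((⟨i, rfl⟩ | ⟨i, rfl⟩) | ⟨i, rfl⟩) | ⟨i, rfl⟩) | ⟨_, ⟨g, hg, rfl⟩, rfl⟩)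
    · rfl
    · simpa [pos, ev] using (hc (x i)).eq.symm
    · rw [ev_rep]
      refine (ev_cons x (i, true) (pos (bar i))).trans ?_
      rw [← hb', cond_true, mul_inv_cancel_left]
    · rw [ev_rep, pos_append, ev_append, ← hb', mul_assoc]
      have : ev x (pos [i]) = x i := by simp [pos, ev]
      rw [this, ((hc _).pow_left _).eq, inv_mul_cancel_left]
    · rw [ev_rep, ← hup, ← ev_eq, mk_toWord]
      have : g ∈ (FreeGroup.lift x).ker := hS ▸ Subgroup.subset_normalClosure hg
      rw [MonoidHom.mem_ker.1 this, one_mul]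
  let R := hT.toFinset.toList.map fun p => pos p.1 ++ invRev (pos p.2)
  have hR : ∀ p ∈ T, pos p.1 ++ invRev (pos p.2) ∈ R := fun p hp =>
    List.mem_map.2 ⟨p, by simpa using hp, rfl⟩
  have hR' : ∀ r ∈ R, ∃ p ∈ T, pos p.1 ++ invRev (pos p.2) = r := fun r hr => by
    obtain ⟨p, hp, e⟩ := List.mem_map.1 hr
    exact ⟨p, by simpa using hp, e⟩
  have h1 : ∀ i, q R [(i, true)] * q R [(i, false)] = 1 := fun i =>
    w3 R (hR ([i], [i]) (by simp [T]))
  have h2 : ∀ i, Commute (q R [(i, true)]) (q R [(z, true)]) := fun i =>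
    rel_eq h1 (hR ([i, z], [z, i]) (by simp [T]))
  have h3 : ∀ i, q R [(i, true)] * q R (pos (bar i)) = q R [(z, true)] ^ cc i := fun i =>
    (rel_eq h1 (hR (i :: bar i, List.replicate (cc i) z) (by simp [T]))).trans (q_rep _)
  have h4 : ∀ i, q R (pos (bar i)) * q R [(i, true)] = q R [(z, true)] ^ cc i := fun i => by
    have := (rel_eq h1 (hR (bar i ++ [i], List.replicate (cc i) z) (by simp [T]))).trans (q_rep _)
    rwa [pos_append, q_append] at this
  have h5 : ∀ r ∈ S, q R (pos (up bar r)) = q R [(z, true)] ^ kk cc r := fun r hr =>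
    (rel_eq h1 (hR (up bar r, List.replicate (kk cc r) z) (Or.inr ⟨r, hr, rfl⟩))).trans (q_rep _)
  have L := @claimL _ _ _ _ _ _ _ x S hS' h1 h2 h3 h4 h5
  let P := Submonoid.closure (Set.range x)
  have hx : ∀ i, x i ∈ P := fun i => Submonoid.subset_closure ⟨i, rfl⟩
  have hle := ic_le R x P fun r hr => by
    obtain ⟨p, hp, rfl⟩ := hR' r hr
    refine ⟨by rw [ev_append, ev_invRev, hT2 p hp, mul_inv_cancel], fun g hg => ?_⟩
    rw [ok_append, hT2 p hp]
    exact ⟨ok_pos x P hx hg _, ok_inv x P hg (ok_pos x P hx hg _)⟩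
  have hev : ∀ {u v}, q R u = q R v → ev x u = ev x v := fun h => (hle ((q_eq R _ _).1 h)).1
  have idem : ∀ w, ev x w = 1 → q R w * q R w = q R w := by
    intro w hw
    obtain ⟨e, he, h⟩ := key_le h2 h3 w
    rw [L (v := List.replicate (kk cc w) z) (by rw [← hup, hw, one_mul, ev_rep]), q_rep] at h
    rw [z_canc h1 h]
    exact E_idem R he
  have idem' : ∀ w, q R w * q R w = q R w → ev x w = 1 := fun w h => by
    have := hev ((q_append R w w).trans h)
    rwa [ev_append, mul_eq_left] at this
  have p1 : ∀ w, pi R w = 1 ↔ ev x w = 1 := by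
    refine fun w => ⟨fun h => ?_, fun h => ?_⟩
    · have := PresentedGroup.mk_eq_one_iff.1 h
      rw [← ev_eq]
      refine Subgroup.normalClosure_le_normal (N := (FreeGroup.lift x).ker) ?_ this
      rintro _ ⟨r, hr, rfl⟩
      exact hev (w3 R hr)
    · have := pi_q R ((q_append R w w).trans (idem w h))
      rwa [pi_append, mul_eq_left] at this
  refine ⟨R, fun e s he ⟨f, hf, h⟩ => ?_, ?_, hwp.of_eq fun w => (p1 w).symm, fun h => hun ?_⟩
  · obtain ⟨e, rfl⟩ := q_surj R e
    obtain ⟨f, rfl⟩ := q_surj R f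
    obtain ⟨s, rfl⟩ := q_surj R s
    have := hev (h.trans (q_append R f s).symm)
    rw [ev_append, idem' e he, idem' f hf, one_mul] at this
    exact idem s this.symm
  · rintro _ ⟨u, _, rfl⟩ _ ⟨v, _, rfl⟩
    refine ⟨_, ⟨pos (up bar (invRev u ++ v)), ⟨_, pos_ru h1 _⟩, rfl⟩,
      _, ⟨pos (List.replicate (kk cc (invRev u ++ v)) z), ⟨_, pos_ru h1 _⟩, rfl⟩, ?_⟩
    rw [← mul_inv_eq_one, ← pi_append, ← pi_append, ← pi_inv, ← pi_append, p1, ev_append,
      ev_invRev, ev_append, ev_append, ← hup, ev_rep, ev_append, ev_invRev]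
    group
  · have hbar : Primrec bar := Primrec.dom_finite _
    have hcc' : Primrec cc := Primrec.dom_finite _
    let t : List (X × Bool) → List (X × Bool) := fun w =>
      pos (up bar w) ++ (List.range (kk cc w)).map fun _ => (z, false)
    have ht : Primrec t := by unfold t pos up kk; fun_prop
    have ht' : ∀ w, t w = pos (up bar w) ++ invRev (pos (List.replicate (kk cc w) z)) := by
      intro w
      simp [t, pos, invRev]
    refine comp_red h (fun w => (t w ++ invRev (t w), []))
      (PR.pair' (PR.append' ht (invRev_prim ht)) (PR.const' _)).to_comp fun w => ?_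
    rw [← q_eq, q_append, q_nil]
    have e1 : ev x (t w) = ev x w := by
      rw [ht', ev_append, ev_invRev, ev_rep, ← hup, mul_inv_cancel_right]
    constructor
    · intro hw
      obtain ⟨u, hu⟩ := ex_prod x hw
      have := L (u := up bar w) (v := u ++ List.replicate (kk cc w) z) (by
        rw [← hup, pos_append, ev_append, ev_rep, ← hu]; exact congrArg (· * _) (ev_pos x u).symm)
      refine ru_inv R (t := q R (invRev (pos u))) ?_
      rw [ht', q_append, this, pos_append, q_append, mul_assoc (q R _), pos_ru h1, mul_one,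
        pos_ru h1]
    · intro hw
      have := ((hle ((q_eq R (t w ++ invRev (t w)) []).1 hw)).2 1 P.one_mem).2 trivial
      have := ok_mem x P P.one_mem ((ok_append x P 1 _ _).1 this).1
      rwa [one_mul, e1] at this

end Pool.Agent.H24.SpInv
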