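import Mathlib
import Pool.Agent.H24.SpInv

set_option autoImplicit false

namespace Pool.Agent.H24.Munn

open FreeGroup FreeMonoid Pool.Agent.H24.SpInv

variable {X : Type} [DecidableEq X]

theorem step2 (x : X × Bool) (a : FreeGroup X) :
    (mk [x] * a).toWord = x :: a.toWord ∨ a.toWord = (x.1, !x.2) :: (mk [x] * a).toWord := by
  have : (mk [x] * a).toWord = reduce (x :: a.toWord) := by
    conv_lhs => rw [← mk_toWord (x := a), mul_mk, toWord_mk]
    rfl
  rw [this, reduce.cons, reduce_toWord]
  cases a.toWord with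
  | nil => exact Or.inl rfl
  | cons y t =>
    dsimp only
    split_ifs with h
    · right
      obtain ⟨h1, h2⟩ := h
      rw [h1, h2]; simp
    · exact Or.inl rfl

def V : List (X × Bool) → Finset (FreeGroup X)
  | [] => {1}
  | x :: w => insert (mk (x :: w)) (V w)

omit [DecidableEq X] in
theorem mk_cons (x : X × Bool) (w : List (X × Bool)) : mk (x :: w) = mk [x] * mk w := by
  rw [mul_mk]; rfl

theorem one_mem (w : List (X × Bool)) : 1 ∈ V w := by
  induction w with
  | nil => simp [V]
  | cons x w ih => simp [V, ih]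

theorem mk_mem (w : List (X × Bool)) : mk w ∈ V w := by
  cases w <;> simp [V, one_eq_mk]

theorem mem_append (u v : List (X × Bool)) (g : FreeGroup X) :
    g ∈ V (u ++ v) ↔ g * (mk v)⁻¹ ∈ V u ∨ g ∈ V v := by
  induction u with
  | nil =>
    simp only [List.nil_append, V, Finset.mem_singleton, mul_inv_eq_one, iff_or_self]
    rintro rfl
    exact mk_mem v
  | cons x u ih =>
    simp only [List.cons_append, V, Finset.mem_insert, ih, or_assoc, mul_inv_eq_iff_eq_mul, mul_mk]

theorem mem_inv (u : List (X × Bool)) (g : FreeGroup X) : g ∈ V (invRev u) ↔ g * mk u ∈ V u := by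
  induction u generalizing g with
  | nil => simp [V, ← one_eq_mk]
  | cons x u ih =>
    rw [invRev_cons, mem_append, ih, ← inv_mk, inv_inv, mul_assoc, ← mk_cons]
    have : invRev [x] = [(x.1, !x.2)] := rfl
    have e : mk [(x.1, !x.2)] = (mk [x])⁻¹ := by rw [inv_mk, this]
    rw [this]
    simp only [V, Finset.mem_insert, Finset.mem_singleton, e, mul_eq_right]
    constructor
    · rintro (h | rfl | h)
      · exact Or.inr h
      · right; rw [mk_cons x u, inv_mul_cancel_left]; exact mk_mem u
      · exact Or.inl h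
    · tauto

theorem suf_mem {w s : List (X × Bool)} {a : FreeGroup X} (ha : a ∈ V w) (hs : s <:+ a.toWord) :
    mk s ∈ V w := by
  induction w generalizing a with
  | nil =>
    simp only [V, Finset.mem_singleton] at ha ⊢
    subst ha
    simp only [toWord_one, List.suffix_nil] at hs
    rw [hs, one_eq_mk]
  | cons x w ih =>
    rcases Finset.mem_insert.1 ha with rfl | ha'
    · rw [mk_cons] at hs
      rcases step2 x (mk w) with h | h
      · rw [h, List.suffix_cons_iff] at hs
        rcases hs with hs | hs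
        · rw [hs, ← h, mk_toWord, ← mk_cons]; exact ha
        · exact Finset.mem_insert_of_mem (ih (mk_mem w) hs)
      · exact Finset.mem_insert_of_mem (ih (mk_mem w) (h ▸ hs.trans (List.suffix_cons _ _)))
    · exact Finset.mem_insert_of_mem (ih ha' hs)

def mCon : Con (FreeMonoid (X × Bool)) where
  r u v := V (toList u) = V (toList v) ∧ mk (toList u) = mk (toList v)
  iseqv := ⟨fun _ => ⟨rfl, rfl⟩, fun h => ⟨h.1.symm, h.2.symm⟩,
    fun h k => ⟨h.1.trans k.1, h.2.trans k.2⟩⟩
  mul' := fun {a b c d} h k => ⟨by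
    ext g
    simp only [toList_mul, mem_append, h.1, k.1, k.2], by
    simp only [toList_mul, ← mul_mk, h.2, k.2]⟩

theorem ic_le : ic ([] : List (List (X × Bool))) ≤ mCon := by
  refine Con.conGen_le.2 fun a b h => ?_
  rcases h with ⟨u, e1, e2⟩ | ⟨u, v, e1, e2⟩ | ⟨r, hr, _⟩
  · rw [e1, e2]
    refine ⟨?_, by simp only [toList_ofList, ← mul_mk, ← inv_mk]; group⟩
    ext g
    simp only [toList_ofList, mem_append, mem_inv, ← inv_mk, inv_inv, inv_mul_cancel_right, or_self]
  · rw [e1, e2]
    refine ⟨?_, by simp only [toList_ofList, ← mul_mk, ← inv_mk]; group⟩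
    ext g
    simp only [toList_ofList, mem_append, mem_inv, ← inv_mk, ← mul_mk, mul_inv_cancel, inv_one,
      mul_one]
    exact or_comm
  · simp at hr

instance (R : List (List (X × Bool))) : CommMonoid (E R) :=
  { (inferInstance : Monoid (E R)) with
    mul_comm := fun a b => Subtype.ext (E_comm' R a.2 b.2).eq }

def pr (g : FreeGroup X) : E ([] : List (List (X × Bool))) :=
  ⟨q [] (invRev g.toWord) * q [] g.toWord, by simpa using E_pr [] (invRev g.toWord)⟩

def Ew (S : Finset (FreeGroup X)) : E ([] : List (List (X × Bool))) := ∏ g ∈ S, pr g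

theorem Ew_abs {S : Finset (FreeGroup X)} {g : FreeGroup X} (h : g ∈ S) : pr g * Ew S = Ew S := by
  rw [Ew, ← Finset.mul_prod_erase S pr h, ← mul_assoc]
  congr 1
  exact Subtype.ext (E_idem _ (pr g).2)

theorem Ew_ins (S : Finset (FreeGroup X)) (g : FreeGroup X) : Ew (insert g S) = pr g * Ew S := by
  by_cases h : g ∈ S
  · rw [Finset.insert_eq_of_mem h, Ew_abs h]
  · exact Finset.prod_insert h

theorem nf (w : List (X × Bool)) : q [] w = q [] (mk w).toWord * (Ew (V w)).1 := by
  induction w with
  | nil => simp [V, Ew, pr, ← one_eq_mk]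
  | cons x w ih =>
    have e : q [] (x :: w) = q [] [x] * q [] w := rfl
    rw [e, ih, V, Ew_ins, Submonoid.coe_mul, pr, ← mul_assoc, ← mul_assoc, ← mul_assoc, w1,
      mk_cons]
    rcases step2 x (mk w) with h | h
    · rw [h]; rfl
    · conv_rhs => rw [← Ew_abs (mk_mem w), Submonoid.coe_mul, pr]
      generalize (mk [x] * mk w).toWord = r at h
      dsimp only
      rw [h, invRev_cons, q_append]
      have e1 : q [] ((x.1, !x.2) :: r) = q [] (invRev [x]) * q [] r := rfl
      have e2 : invRev [(x.1, !x.2)] = [x] := by simp [invRev]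
      have e3 := (w2 [] r [x]).eq
      rw [e1, e2]
      simp only [← mul_assoc] at e3 ⊢
      rw [e3]
      congr 1
      rw [mul_assoc _ (q [] r) (q [] (invRev r)), mul_assoc _ (q [] r * q [] (invRev r)), w1]

theorem munn (u v : List (X × Bool)) :
    ic [] (ofList u) (ofList v) ↔ V u = V v ∧ mk u = mk v :=
  ⟨fun h => ic_le h, fun h => (q_eq [] u v).1 (by rw [nf, nf v, h.1, h.2])⟩

end Pool.Agent.H24.Munn
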