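import Mathlib

set_option autoImplicit false

namespace Pool.Agent.H24.Glue

open Relation

variable {V Q : Type}

abbrev R (r : V × Q → V × Q → Prop) := ReflTransGen r

def pr (r : V × Q → V × Q → Prop) (u : V) (x : V × Q) : Set Q × Set Q :=
  ({p | R r (u, p) x}, {q | R r x (u, q)})

def dat (r : V × Q → V × Q → Prop) (u : V) (S : Set (V × Q)) :
    Set (Set Q × Set Q) × Set ((Set Q × Set Q) × (Set Q × Set Q)) :=
  (pr r u '' S, {z | ∃ x ∈ S, ∃ y ∈ S, ¬ R r x y ∧ ¬ R r y x ∧ z = (pr r u x, pr r u y)})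

def Cov (C : Set V) (good : Q → Prop) (S : Set (V × Q)) : Prop :=
  (∀ v ∈ C, ∃ q, (v, q) ∈ S) ∧ ∀ x ∈ S, x.1 ∈ C ∧ good x.2

abbrev Ty (Q : Type) :=
  Set (Q × Q) × Set (Set (Set Q × Set Q) × Set ((Set Q × Set Q) × (Set Q × Set Q)))

def ty (r : V × Q → V × Q → Prop) (C : Set V) (u : V) (good : Q → Prop) : Ty Q :=
  ({z | R r (u, z.1) (u, z.2)}, {d | ∃ S, Cov C good S ∧ dat r u S = d})

def Acc (r : V × Q → V × Q → Prop) (T : Set V) (good : Q → Prop) (s e : V × Q) : Prop :=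
  ∃ S, Cov T good S ∧ ∀ x ∈ S, R r s x ∧ R r x e ∧ ∀ y ∈ S, R r x y ∨ R r y x

def In (r : V × Q → V × Q → Prop) (C : Set V) : Prop := ∀ x y, r x y → x.1 ∈ C ∧ y.1 ∈ C

theorem In.src {r : V × Q → V × Q → Prop} {C : Set V} (h : In r C) {x y : V × Q} (k : R r x y) :
    x = y ∨ x.1 ∈ C ∧ y.1 ∈ C := by
  induction k with
  | refl => exact Or.inl rfl
  | tail _ k2 ih =>
    rcases ih with rfl | ih
    · exact Or.inr (h _ _ k2)
    · exact Or.inr ⟨ih.1, (h _ _ k2).2⟩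

section
variable {a c c' : V × Q → V × Q → Prop} {O C C' : Set V} {u : V}

theorem RL {x y : V × Q} (h : R a x y) : R (a ⊔ c) x y :=
  ReflTransGen.mono (fun _ _ k => Or.inl k) _ _ h
theorem RR {x y : V × Q} (h : R c x y) : R (a ⊔ c) x y :=
  ReflTransGen.mono (fun _ _ k => Or.inr k) _ _ h

theorem dec (ha : In a O) (hc : In c C) (hu : ∀ v ∈ O, v ∈ C → v = u)
    (hI : ∀ p q, R c (u, p) (u, q) → R c' (u, p) (u, q)) {x y : V × Q} (h : R (a ⊔ c) x y) :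
    R a x y ∨ R c x y ∨ ∃ p q, (R a x (u, p) ∨ R c x (u, p)) ∧ R (a ⊔ c') (u, p) (u, q) ∧
      (R a (u, q) y ∨ R c (u, q) y) := by
  induction h with
  | refl => exact Or.inl .refl
  | @tail y z _ k ih =>
    rcases k with k | k
    · rcases ih with ih | ih | ⟨p, q, h1, h2, h3 | h3⟩
      · exact Or.inl (ih.tail k)
      · rcases hc.src ih with rfl | e
        · exact Or.inl (.single k)
        · obtain ⟨v, t⟩ := y
          obtain rfl := hu v (ha _ _ k).1 e.2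
          exact Or.inr (Or.inr ⟨t, t, Or.inr ih, .refl, Or.inl (.single k)⟩)
      · exact Or.inr (Or.inr ⟨p, q, h1, h2, Or.inl (h3.tail k)⟩)
      · rcases hc.src h3 with rfl | e
        · exact Or.inr (Or.inr ⟨p, q, h1, h2, Or.inl (.single k)⟩)
        · obtain ⟨v, t⟩ := y
          obtain rfl := hu v (ha _ _ k).1 e.2
          exact Or.inr (Or.inr ⟨p, t, h1, h2.trans (RR (hI _ _ h3)), Or.inl (.single k)⟩)
    · rcases ih with ih | ih | ⟨p, q, h1, h2, h3 | h3⟩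
      · rcases ha.src ih with rfl | e
        · exact Or.inr (Or.inl (.single k))
        · obtain ⟨v, t⟩ := y
          obtain rfl := hu v e.2 (hc _ _ k).1
          exact Or.inr (Or.inr ⟨t, t, Or.inl ih, .refl, Or.inr (.single k)⟩)
      · exact Or.inr (Or.inl (ih.tail k))
      · rcases ha.src h3 with rfl | e
        · exact Or.inr (Or.inr ⟨p, q, h1, h2, Or.inr (.single k)⟩)
        · obtain ⟨v, t⟩ := y
          obtain rfl := hu v e.2 (hc _ _ k).1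
          exact Or.inr (Or.inr ⟨p, t, h1, h2.trans (RL h3), Or.inr (.single k)⟩)
      · exact Or.inr (Or.inr ⟨p, q, h1, h2, Or.inr (h3.tail k)⟩)

def M (c c' : V × Q → V × Q → Prop) (O C : Set V) (u : V) (x x' : V × Q) : Prop :=
  (x = x' ∧ x.1 ∈ O) ∨ (x.1 ∈ C ∧ pr c u x = pr c' u x')

theorem M.out (ha : In a O) (hc : In c C) (hu : ∀ v ∈ O, v ∈ C → v = u)
    (hI : ∀ p q, R c (u, p) (u, q) → R c' (u, p) (u, q)) {x x' : V × Q} {p : Q}
    (m : M c c' O C u x x') (h : R a x (u, p) ∨ R c x (u, p)) : R (a ⊔ c') x' (u, p) := by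
  rcases m with ⟨rfl, m⟩ | ⟨m1, m2⟩
  · rcases h with h | h
    · exact RL h
    · rcases hc.src h with rfl | e
      · exact .refl
      · obtain ⟨v, t⟩ := x
        obtain rfl := hu v m e.1
        exact RR (hI _ _ h)
  · have k : ∀ q, R c x (u, q) → R c' x' (u, q) := fun q h =>
      (Set.ext_iff.1 (congrArg Prod.snd m2) q).1 h
    rcases h with h | h
    · rcases ha.src h with rfl | e
      · exact RR (k _ .refl)
      · obtain ⟨v, t⟩ := x
        obtain rfl := hu v e.1 m1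
        exact (RR (k _ .refl)).trans (RL h)
    · exact RR (k _ h)

theorem M.inn (ha : In a O) (hc : In c C) (hu : ∀ v ∈ O, v ∈ C → v = u)
    (hI : ∀ p q, R c (u, p) (u, q) → R c' (u, p) (u, q)) {x x' : V × Q} {p : Q}
    (m : M c c' O C u x x') (h : R a (u, p) x ∨ R c (u, p) x) : R (a ⊔ c') (u, p) x' := by
  rcases m with ⟨rfl, m⟩ | ⟨m1, m2⟩
  · rcases h with h | h
    · exact RL h
    · rcases hc.src h with rfl | e
      · exact .refl
      · obtain ⟨v, t⟩ := x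
        obtain rfl := hu v m e.2
        exact RR (hI _ _ h)
  · have k : ∀ q, R c (u, q) x → R c' (u, q) x' := fun q h =>
      (Set.ext_iff.1 (congrArg Prod.fst m2) q).1 h
    rcases h with h | h
    · rcases ha.src h with rfl | e
      · exact RR (k _ .refl)
      · obtain ⟨v, t⟩ := x
        obtain rfl := hu v e.2 m1
        exact (RL h).trans (RR (k _ .refl))
    · exact RR (k _ h)

theorem M.tr (ha : In a O) (hc : In c C) (hu : ∀ v ∈ O, v ∈ C → v = u)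
    (hI : ∀ p q, R c (u, p) (u, q) → R c' (u, p) (u, q)) {x x' y y' : V × Q}
    (m : M c c' O C u x x') (n : M c c' O C u y y') (h : R (a ⊔ c) x y)
    (k : (x = x' ∧ x.1 ∈ O) ∨ (y = y' ∧ y.1 ∈ O) ∨ (x.1 ∈ C ∧ ¬ R c x y)) :
    R (a ⊔ c') x' y' := by
  have hx : x.1 = u → R a x y ∨ R c x y → R (a ⊔ c') x' y' := fun e h => by
    obtain ⟨v, t⟩ := x
    obtain rfl : v = u := e
    exact (m.out ha hc hu hI (Or.inl .refl)).trans (n.inn ha hc hu hI h)
  have hy : y.1 = u → R a x y ∨ R c x y → R (a ⊔ c') x' y' := fun e h => by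
    obtain ⟨v, t⟩ := y
    obtain rfl : v = u := e
    exact (m.out ha hc hu hI h).trans (n.inn ha hc hu hI (Or.inl .refl))
  have h1 : R a x y → R (a ⊔ c') x' y' := fun h => by
    have o : x.1 ∈ O ∧ y.1 ∈ O := by
      rcases ha.src h with rfl | e
      · rcases k with k | k | k
        exacts [⟨k.2, k.2⟩, ⟨k.2, k.2⟩, absurd .refl k.2]
      · exact e
    rcases m with ⟨rfl, _⟩ | m
    · rcases n with ⟨rfl, _⟩ | n
      · exact RL h
      · exact hy (hu _ o.2 n.1) (Or.inl h)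
    · exact hx (hu _ o.1 m.1) (Or.inl h)
  rcases dec ha hc hu hI h with h | h | ⟨p, q, h1, h2, h3⟩
  · exact h1 h
  · rcases hc.src h with rfl | e
    · exact h1 .refl
    · rcases k with k | k | k
      · exact hx (hu _ k.2 e.1) (Or.inr h)
      · exact hy (hu _ k.2 e.2) (Or.inr h)
      · exact absurd h k.2
  · exact ((m.out ha hc hu hI h1).trans h2).trans (n.inn ha hc hu hI h3)

theorem glue {good : Q → Prop} {s e : V × Q} (ha : In a O) (hc : In c C)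
    (hu : ∀ v ∈ O, v ∈ C → v = u) (ht : ty c C u good = ty c' C' u good) (hs : s.1 ∈ O)
    (he : e.1 ∈ O) (h : Acc (a ⊔ c) (O ∪ C) good s e) : Acc (a ⊔ c') (O ∪ C') good s e := by
  have hI : ∀ p q, R c (u, p) (u, q) → R c' (u, p) (u, q) := fun p q h =>
    (Set.ext_iff.1 (congrArg Prod.fst ht) (p, q)).1 h
  obtain ⟨S, ⟨c1, c2⟩, h⟩ := h
  obtain ⟨S', ⟨d1, d2⟩, d3⟩ := (Set.ext_iff.1 (congrArg Prod.snd ht) _).1
    ⟨{x ∈ S | x.1 ∈ C}, ⟨fun v hv => (c1 v (Or.inr hv)).imp fun q k => ⟨k, hv⟩,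
      fun x hx => ⟨hx.2, (c2 x hx.1).2⟩⟩, rfl⟩
  have m : ∀ x' ∈ S', ∃ x ∈ S, M c c' O C u x x' := fun x' hx => by
    obtain ⟨x, k1, k2⟩ := (Set.ext_iff.1 (congrArg Prod.fst d3) _).1 ⟨x', hx, rfl⟩
    exact ⟨x, k1.1, Or.inr ⟨k1.2, k2⟩⟩
  refine ⟨{x ∈ S | x.1 ∈ O} ∪ S', ⟨?_, ?_⟩, ?_⟩
  · rintro v (hv | hv)
    · exact (c1 v (Or.inl hv)).imp fun q k => Or.inl ⟨k, hv⟩
    · exact (d1 v hv).imp fun q k => Or.inr k
  · rintro x (hx | hx)
    · exact ⟨Or.inl hx.2, (c2 x hx.1).2⟩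
    · exact ⟨Or.inr (d2 x hx).1, (d2 x hx).2⟩
  · have m' : ∀ x' ∈ {x ∈ S | x.1 ∈ O} ∪ S', ∃ x ∈ S, M c c' O C u x x' := by
      rintro x (hx | hx)
      · exact ⟨x, hx.1, Or.inl ⟨rfl, hx.2⟩⟩
      · exact m x hx
    have mo : ∀ x ∈ S, x.1 ∈ O → ∀ y' ∈ {x ∈ S | x.1 ∈ O} ∪ S',
        R (a ⊔ c') x y' ∨ R (a ⊔ c') y' x := fun x hx ho y' hy => by
      obtain ⟨y, k1, k2⟩ := m' y' hy
      exact ((h x hx).2.2 y k1).imp
        (fun k => M.tr ha hc hu hI (Or.inl ⟨rfl, ho⟩) k2 k (Or.inl ⟨rfl, ho⟩))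
        (fun k => M.tr ha hc hu hI k2 (Or.inl ⟨rfl, ho⟩) k (Or.inr (Or.inl ⟨rfl, ho⟩)))
    intro x' hx
    obtain ⟨x, k1, k2⟩ := m' x' hx
    refine ⟨M.tr ha hc hu hI (Or.inl ⟨rfl, hs⟩) k2 (h x k1).1 (Or.inl ⟨rfl, hs⟩),
      M.tr ha hc hu hI k2 (Or.inl ⟨rfl, he⟩) (h x k1).2.1 (Or.inr (Or.inl ⟨rfl, he⟩)),
      fun y' hy => ?_⟩
    rcases hx with hx | hx
    · exact mo _ hx.1 hx.2 _ hy
    rcases hy with hy | hy
    · exact (mo _ hy.1 hy.2 _ (Or.inr hx)).symm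
    by_cases k3 : R c' x' y'
    · exact Or.inl (RR k3)
    by_cases k4 : R c' y' x'
    · exact Or.inr (RR k4)
    obtain ⟨x, hx1, y, hy1, n1, n2, n3⟩ := (Set.ext_iff.1 (congrArg Prod.snd d3) _).1
      ⟨x', hx, y', hy, k3, k4, rfl⟩
    obtain ⟨n3, n4⟩ := Prod.mk.inj n3
    exact ((h x hx1.1).2.2 y hy1.1).imp
      (fun k => M.tr ha hc hu hI (Or.inr ⟨hx1.2, n3.symm⟩) (Or.inr ⟨hy1.2, n4.symm⟩) k
        (Or.inr (Or.inr ⟨hx1.2, n1⟩)))
      (fun k => M.tr ha hc hu hI (Or.inr ⟨hy1.2, n4.symm⟩) (Or.inr ⟨hx1.2, n3.symm⟩) k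
        (Or.inr (Or.inr ⟨hy1.2, n2⟩)))

end

theorem R_equiv (f : V ≃ V) {r r' : V × Q → V × Q → Prop}
    (h : ∀ x y, r' (f x.1, x.2) (f y.1, y.2) ↔ r x y) (x y : V × Q) :
    R r' (f x.1, x.2) (f y.1, y.2) ↔ R r x y := by
  refine ⟨fun k => ?_, fun k => k.lift (fun x => (f x.1, x.2)) fun a b => (h a b).2⟩
  have := k.lift (p := r) (fun x => (f.symm x.1, x.2)) fun a b k => (h _ _).1 (by simpa using k)
  simpa [Function.onFun] using this

theorem ty_sub (f : V ≃ V) {r r' : V × Q → V × Q → Prop}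
    (h : ∀ x y, r' (f x.1, x.2) (f y.1, y.2) ↔ r x y) {C C' : Set V} (hC : ∀ v, f v ∈ C' ↔ v ∈ C)
    (u : V) (good : Q → Prop) : (ty r C u good).2 ⊆ (ty r' C' (f u) good).2 := by
  have e := R_equiv f h
  have hp : ∀ x : V × Q, pr r' (f u) (f x.1, x.2) = pr r u x := fun x =>
    Prod.ext (Set.ext fun p => e (u, p) x) (Set.ext fun p => e x (u, p))
  rintro _ ⟨S, ⟨c1, c2⟩, rfl⟩
  refine ⟨(fun x => (f x.1, x.2)) '' S, ⟨fun v hv => ?_, ?_⟩, Prod.ext ?_ (Set.ext fun z => ?_)⟩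
  · obtain ⟨q, hq⟩ := c1 (f.symm v) ((hC _).1 (by simpa using hv))
    exact ⟨q, _, hq, by simp⟩
  · rintro _ ⟨x, hx, rfl⟩
    exact ⟨(hC _).2 (c2 x hx).1, (c2 x hx).2⟩
  · simp only [dat, Set.image_image, hp]
  · simp only [dat, Set.mem_ofPred_eq, Set.exists_mem_image, hp, e]

theorem ty_equiv (f : V ≃ V) {r r' : V × Q → V × Q → Prop}
    (h : ∀ x y, r' (f x.1, x.2) (f y.1, y.2) ↔ r x y) {C C' : Set V} (hC : ∀ v, f v ∈ C' ↔ v ∈ C)
    (u : V) (good : Q → Prop) : ty r' C' (f u) good = ty r C u good := by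
  refine Prod.ext (Set.ext fun z => R_equiv f h (u, z.1) (u, z.2))
    (Set.Subset.antisymm ?_ (ty_sub f h hC u good))
  have := ty_sub f.symm (r := r') (r' := r) (fun x y => by rw [← h]; simp) (C := C') (C' := C)
    (fun v => by rw [← hC]; simp) (f u) good
  simpa using this

theorem ex_min {α : Type} {r : α → α → Prop} (S : Finset α) (hS : S.Nonempty)
    (h : ∀ x ∈ S, ∀ y ∈ S, ReflTransGen r x y ∨ ReflTransGen r y x) :
    ∃ x ∈ S, ∀ y ∈ S, ReflTransGen r x y := by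
  induction hS using Finset.Nonempty.cons_induction with
  | singleton a => exact ⟨a, by simp, by simp; exact .refl⟩
  | cons a S ha _ ih =>
    obtain ⟨x, h1, h2⟩ := ih fun x hx y hy => h x (by simp [hx]) y (by simp [hy])
    rcases h a (by simp) x (by simp [h1]) with k | k
    · refine ⟨a, by simp, fun y hy => ?_⟩
      rcases Finset.mem_cons.1 hy with rfl | hy
      exacts [.refl, k.trans (h2 y hy)]
    · refine ⟨x, by simp [h1], fun y hy => ?_⟩
      rcases Finset.mem_cons.1 hy with rfl | hy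
      exacts [k, h2 y hy]

theorem card_ty (n : ℕ) : Nat.card (Ty (Option (Fin n))) = 2 ^ ((n + 1) * (n + 1)) *
    2 ^ (2 ^ (2 ^ (n + 1) * 2 ^ (n + 1)) *
      2 ^ (2 ^ (n + 1) * 2 ^ (n + 1) * (2 ^ (n + 1) * 2 ^ (n + 1)))) := by
  classical
  simp only [Nat.card_eq_fintype_card, Fintype.card_prod, Fintype.card_set, Fintype.card_option,
    Fintype.card_fin]

end Pool.Agent.H24.Glue
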