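import Mathlib
import Pool.Agent.H24.Munn1
import Pool.Agent.H24.Munn2

set_option autoImplicit false

namespace Pool.Agent.H24.Munn

open FreeGroup Pool.Agent.H24.Glue Relation

variable {X : Type} [DecidableEq X] {Q : Type}

def Run (d : Q → X × Bool → Q → Prop) : Q → List (X × Bool) → Q → Prop
  | p, [], q => p = q
  | p, x :: w, q => ∃ p', d p x p' ∧ Run d p' w q

omit [DecidableEq X] in
theorem run_append (d : Q → X × Bool → Q → Prop) (p q : Q) (u v : List (X × Bool)) :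
    Run d p (u ++ v) q ↔ ∃ r, Run d p u r ∧ Run d r v q := by
  induction u generalizing p with
  | nil => simp [Run]
  | cons x u ih =>
    simp only [List.cons_append, Run, ih]
    exact ⟨fun ⟨a, b, c, e, f⟩ => ⟨c, ⟨a, b, e⟩, f⟩, fun ⟨c, ⟨a, b, e⟩, f⟩ => ⟨a, b, c, e, f⟩⟩

structure Aut (X Q : Type) where
  d : Q → X × Bool → Q → Prop
  s : Q
  F : Q → Prop

variable (A : Aut X Q)

def Mem (T : Finset (FreeGroup X)) (g : FreeGroup X) : Prop :=
  ∃ w f, A.F f ∧ Run A.d A.s w f ∧ V w = T ∧ mk w = g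

def dd : Option Q → X × Bool → Option Q → Prop
  | none, _, none => True
  | some p, x, some q => A.d p x q
  | _, _, _ => False

def St (T m : Set (FreeGroup X)) (a b : FreeGroup X × Option Q) : Prop :=
  a.1 ∈ T ∧ b.1 ∈ T ∧ ((∃ x, a.1 = mk [x] * b.1 ∧ dd A a.2 x b.2) ∨
    (a.1 = b.1 ∧ a.1 ∈ m ∧ a.2 = none ∧ b.2 = some A.s))

def gd (q : Option Q) : Prop := q ≠ none

theorem up_walk (T m : Set (FreeGroup X)) (w : List (X × Bool)) (h : ∀ g ∈ V w, g ∈ T) :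
    R (St A T m) (1, none) (mk w, none) := by
  induction w with
  | nil => exact .refl
  | cons x w ih =>
    refine (ih fun g hg => h g (Finset.mem_insert_of_mem hg)).tail
      ⟨h _ (Finset.mem_insert_of_mem (mk_mem w)), h _ (mk_mem _),
        Or.inl ⟨(x.1, !x.2), ?_, trivial⟩⟩
    have e : mk [(x.1, !x.2)] = (mk [x])⁻¹ := by rw [inv_mk]; rfl
    rw [e, mk_cons x w, inv_mul_cancel_left]

theorem run_chain (T m : Set (FreeGroup X)) (w : List (X × Bool)) (p f : Q)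
    (h : ∀ g ∈ V w, g ∈ T) (hr : Run A.d p w f) : ∃ S, Cov (V w) gd S ∧
      R (St A T m) (mk w, some p) (1, some f) ∧ ∀ x ∈ S, R (St A T m) (mk w, some p) x ∧
      R (St A T m) x (1, some f) ∧ ∀ y ∈ S, R (St A T m) x y ∨ R (St A T m) y x := by
  induction w generalizing p with
  | nil =>
    obtain rfl : p = f := hr
    refine ⟨{(1, some p)}, ⟨fun v hv => ⟨some p, by simpa [V] using hv⟩, ?_⟩, .refl, ?_⟩
    · rintro _ rfl; simp [V, gd]
    · rintro _ rfl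
      exact ⟨.refl, .refl, fun y hy => Or.inl (by rw [hy])⟩
  | cons x w ih =>
    obtain ⟨p', h1, h2⟩ := hr
    obtain ⟨S, ⟨c1, c2⟩, k0, k⟩ := ih p' (fun g hg => h g (Finset.mem_insert_of_mem hg)) h2
    have st : St A T m (mk (x :: w), some p) (mk w, some p') :=
      ⟨h _ (mk_mem _), h _ (Finset.mem_insert_of_mem (mk_mem w)), Or.inl ⟨x, mk_cons x w, h1⟩⟩
    refine ⟨insert (mk (x :: w), some p) S, ⟨fun v hv => ?_, ?_⟩, k0.head st, ?_⟩
    · rcases Finset.mem_insert.1 hv with rfl | hv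
      · exact ⟨_, Or.inl rfl⟩
      · exact (c1 v hv).imp fun q k => Or.inr k
    · rintro y (rfl | hy)
      · exact ⟨mk_mem _, by simp [gd]⟩
      · exact ⟨Finset.mem_insert_of_mem (c2 y hy).1, (c2 y hy).2⟩
    · rintro y (rfl | hy)
      · refine ⟨.refl, k0.head st, ?_⟩
        rintro z (rfl | hz)
        exacts [Or.inl .refl, Or.inl ((k z hz).1.head st)]
      · refine ⟨(k y hy).1.head st, (k y hy).2.1, ?_⟩
        rintro z (rfl | hz)
        exacts [Or.inr ((k y hy).1.head st), (k y hy).2.2 z hz]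

def Pa (T : Set (FreeGroup X)) (a b : FreeGroup X × Option Q) (C : Set (FreeGroup X)) : Prop :=
  ∃ u p q, a.2 = some p ∧ b.2 = some q ∧ Run A.d p u q ∧ a.1 = mk u * b.1 ∧
    (∀ g ∈ V u, g * b.1 ∈ T) ∧ ∀ c ∈ C, c * b.1⁻¹ ∈ V u

theorem Pa.trans {T C D : Set (FreeGroup X)} {a b c : FreeGroup X × Option Q}
    (h : Pa A T a b C) (k : Pa A T b c D) : Pa A T a c (C ∪ D) := by
  obtain ⟨u, p, q, h1, h2, h3, h4, h5, h6⟩ := h
  obtain ⟨v, p', q', k1, k2, k3, k4, k5, k6⟩ := k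
  obtain rfl : q = p' := Option.some.inj (h2.symm.trans k1)
  refine ⟨u ++ v, p, q', h1, k2, (run_append _ _ _ _ _).2 ⟨q, h3, k3⟩,
    by rw [h4, k4, ← mul_mk, mul_assoc], fun g hg => ?_, ?_⟩
  · rcases (mem_append _ _ _).1 hg with hg | hg
    · have := h5 _ hg
      rwa [k4, ← mul_assoc, inv_mul_cancel_right] at this
    · exact k5 g hg
  · rintro x (hx | hx)
    · exact (mem_append _ _ _).2 (Or.inl (by simpa [k4, mul_assoc] using h6 x hx))
    · exact (mem_append _ _ _).2 (Or.inr (k6 x hx))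

theorem Pa.mono {T C D : Set (FreeGroup X)} {a b : FreeGroup X × Option Q}
    (h : Pa A T a b C) (k : D ⊆ C) : Pa A T a b D := by
  obtain ⟨u, p, q, h1, h2, h3, h4, h5, h6⟩ := h
  exact ⟨u, p, q, h1, h2, h3, h4, h5, fun c hc => h6 c (k hc)⟩

theorem pa_of_R {T m : Set (FreeGroup X)} {a b : FreeGroup X × Option Q} (ha : a.1 ∈ T)
    (hg : gd a.2) (h : R (St A T m) a b) : Pa A T a b {b.1} := by
  induction h with
  | refl =>
    obtain ⟨p, hp⟩ := Option.ne_none_iff_exists'.1 hg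
    exact ⟨[], p, p, hp, hp, rfl, by simp [← one_eq_mk], by simpa [V] using ha, by simp [V]⟩
  | @tail y z _ k ih =>
    refine (ih.trans A (D := {z.1}) ?_).mono A Set.subset_union_right
    obtain ⟨u, p, q, h1, h2, _⟩ := ih
    obtain ⟨k1, k2, ⟨x, k3, k4⟩ | k3⟩ := k
    · obtain ⟨z1, _ | q'⟩ := z
      · simp [h2, dd] at k4
      · rw [h2] at k4
        exact ⟨[x], q, q', h2, rfl, ⟨q', k4, rfl⟩, k3, by simpa [V, ← k3, k1] using k2,
          by simp [V]⟩
    · simp [h2] at k3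

omit [DecidableEq X] in
theorem thru {T : Set (FreeGroup X)} {g : FreeGroup X} {s y : FreeGroup X × Option Q}
    (hs : s.2 = none) (h : R (St A T {g}) s y) :
    y.2 = none ∨ (g ∈ T ∧ R (St A T {g}) (g, some A.s) y) := by
  induction h with
  | refl => exact Or.inl hs
  | @tail y z _ k ih =>
    rcases ih with ih | ih
    · obtain ⟨k1, k2, ⟨x, k3, k4⟩ | ⟨k3, k4, k5, k6⟩⟩ := k
      · obtain ⟨z1, _ | q'⟩ := z
        · exact Or.inl rfl
        · simp [ih, dd] at k4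
      · obtain ⟨z1, z2⟩ := z
        obtain rfl : z1 = g := k3.symm.trans k4
        obtain rfl : z2 = _ := k6
        exact Or.inr ⟨k2, .refl⟩
    · exact Or.inr ⟨ih.1, ih.2.tail k⟩

theorem pa_chain {T m : Set (FreeGroup X)} {e : FreeGroup X × Option Q} (n : ℕ) :
    ∀ (S : Finset (FreeGroup X × Option Q)) (a : FreeGroup X × Option Q), S.card = n →
    a.1 ∈ T → gd a.2 → R (St A T m) a e → (∀ x ∈ S, x.1 ∈ T ∧ gd x.2 ∧ R (St A T m) a x ∧
      R (St A T m) x e ∧ ∀ y ∈ S, R (St A T m) x y ∨ R (St A T m) y x) →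
    Pa A T a e (Prod.fst '' (S : Set (FreeGroup X × Option Q))) := by
  classical
  induction n with
  | zero =>
    intro S a hS h1 h2 h3 _
    rw [Finset.card_eq_zero.1 hS]
    exact (pa_of_R A h1 h2 h3).mono A (by simp)
  | succ n ih =>
    intro S a hS h1 h2 h3 h
    obtain ⟨x, hx, hx'⟩ := ex_min S (Finset.card_pos.1 (by omega)) fun x hx => (h x hx).2.2.2.2
    have := ih (S.erase x) x (by rw [Finset.card_erase_of_mem hx]; omega) (h x hx).1
      (h x hx).2.1 (h x hx).2.2.2.1 fun y hy =>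
        have hy := Finset.mem_of_mem_erase hy
        ⟨(h y hy).1, (h y hy).2.1, hx' y hy, (h y hy).2.2.2.1,
          fun z hz => (h y hy).2.2.2.2 z (Finset.mem_of_mem_erase hz)⟩
    refine ((pa_of_R A h1 h2 (h x hx).2.2.1).trans A this).mono A ?_
    rintro _ ⟨y, hy, rfl⟩
    by_cases e : y = x
    · exact Or.inl (by rw [e]; rfl)
    · exact Or.inr ⟨y, Finset.mem_erase.2 ⟨e, hy⟩, rfl⟩

theorem mem_iff [Finite Q] (T : Finset (FreeGroup X)) (h1 : 1 ∈ T) (g : FreeGroup X) :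
    Mem A T g ↔ ∃ f, A.F f ∧ Acc (St A T {g}) T gd (1, none) (1, some f) := by
  constructor
  · rintro ⟨w, f, hf, hr, rfl, rfl⟩
    obtain ⟨S, c, _, k⟩ := run_chain A (V w) {mk w} w _ f (fun g h => h) hr
    refine ⟨f, hf, S, c, fun x hx => ⟨?_, (k x hx).2⟩⟩
    exact ((up_walk A _ {mk w} w fun g h => h).tail (c := (mk w, some A.s))
      ⟨mk_mem w, mk_mem w, Or.inr ⟨rfl, rfl, rfl, rfl⟩⟩).trans (k x hx).1
  · rintro ⟨f, hf, S, ⟨c1, c2⟩, k⟩
    have hS : S.Finite := (T.finite_toSet.prod (Set.finite_univ (α := Option Q))).subset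
      fun x hx => ⟨(c2 x hx).1, trivial⟩
    have t : ∀ x ∈ S, g ∈ (T : Set _) ∧ R (St A T {g}) (g, some A.s) x := fun x hx =>
      (thru A rfl (k x hx).1).resolve_left (c2 x hx).2
    obtain ⟨q, hq⟩ := c1 1 h1
    obtain ⟨u, p, q', a1, a2, a3, a4, a5, a6⟩ := pa_chain A _ hS.toFinset (g, some A.s) rfl
      (t _ hq).1 (by simp [gd]) ((t _ hq).2.trans (k _ hq).2.1) fun x hx =>
        have hx := hS.mem_toFinset.1 hx
        ⟨(c2 x hx).1, (c2 x hx).2, (t x hx).2, (k x hx).2.1,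
          fun y hy => (k x hx).2.2 y (hS.mem_toFinset.1 hy)⟩
    obtain rfl := Option.some.inj a1
    obtain rfl := Option.some.inj a2
    refine ⟨u, _, hf, a3, Finset.ext fun v => ⟨fun hv => by simpa using a5 v hv, fun hv => ?_⟩,
      by simpa using a4.symm⟩
    obtain ⟨q, hq⟩ := c1 v hv
    simpa using a6 v ⟨_, hS.mem_toFinset.2 hq, rfl⟩

def cone (u : FreeGroup X) : Set (FreeGroup X) := {a | u.toWord <:+ a.toWord}

instance (u : FreeGroup X) : DecidablePred (· ∈ cone u) := fun a =>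
  inferInstanceAs (Decidable (u.toWord <:+ a.toWord))

theorem cone_edge {u b : FreeGroup X} {x : X × Bool} (h1 : mk [x] * b ∈ cone u)
    (h2 : b ∉ cone u) : mk [x] * b = u := by
  rcases step2 x b with h | h
  · have h1 : u.toWord <:+ (mk [x] * b).toWord := h1
    rw [h, List.suffix_cons_iff, ← h] at h1
    exact toWord_injective (h1.resolve_right h2).symm
  · exact absurd (show u.toWord <:+ b.toWord from h ▸ List.IsSuffix.trans h1
      (List.suffix_cons _ _)) h2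

def Ot (T : Set (FreeGroup X)) (u : FreeGroup X) : Set (FreeGroup X) :=
  {a ∈ T | a ∉ cone u ∨ a = u}

theorem St_split (T m : Set (FreeGroup X)) (u : FreeGroup X) :
    St A T m = St A (Ot T u) (m \ cone u) ⊔ St A (T ∩ cone u) (m ∩ cone u) := by
  ext a b
  constructor
  · rintro ⟨h1, h2, ⟨x, h3, h4⟩ | ⟨h3, h4, h5⟩⟩
    · by_cases ha : a.1 ∈ cone u <;> by_cases hb : b.1 ∈ cone u
      · exact Or.inr ⟨⟨h1, ha⟩, ⟨h2, hb⟩, Or.inl ⟨x, h3, h4⟩⟩
      · exact Or.inl ⟨⟨h1, Or.inr (h3.trans (cone_edge (h3 ▸ ha) hb))⟩, ⟨h2, Or.inl hb⟩,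
          Or.inl ⟨x, h3, h4⟩⟩
      · have e : mk [(x.1, !x.2)] = (mk [x])⁻¹ := by rw [inv_mk]; rfl
        have e2 : b.1 = mk [(x.1, !x.2)] * a.1 := by rw [e, h3, inv_mul_cancel_left]
        exact Or.inl ⟨⟨h1, Or.inl ha⟩, ⟨h2, Or.inr (e2.trans (cone_edge (e2 ▸ hb) ha))⟩,
          Or.inl ⟨x, h3, h4⟩⟩
      · exact Or.inl ⟨⟨h1, Or.inl ha⟩, ⟨h2, Or.inl hb⟩, Or.inl ⟨x, h3, h4⟩⟩
    · by_cases ha : a.1 ∈ cone u
      · exact Or.inr ⟨⟨h1, ha⟩, ⟨h2, h3 ▸ ha⟩, Or.inr ⟨h3, ⟨h4, ha⟩, h5⟩⟩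
      · exact Or.inl ⟨⟨h1, Or.inl ha⟩, ⟨h2, Or.inl (h3 ▸ ha)⟩, Or.inr ⟨h3, ⟨h4, ha⟩, h5⟩⟩
  · rintro (⟨h1, h2, h3 | ⟨h3, h4, h5⟩⟩ | ⟨h1, h2, h3 | ⟨h3, h4, h5⟩⟩)
    · exact ⟨h1.1, h2.1, Or.inl h3⟩
    · exact ⟨h1.1, h2.1, Or.inr ⟨h3, h4.1, h5⟩⟩
    · exact ⟨h1.1, h2.1, Or.inl h3⟩
    · exact ⟨h1.1, h2.1, Or.inr ⟨h3, h4.1, h5⟩⟩

theorem Ot_union (T : Set (FreeGroup X)) (u : FreeGroup X) : Ot T u ∪ T ∩ cone u = T := by
  ext a
  simp only [Ot, Set.mem_union, Set.mem_ofPred_eq, Set.mem_inter_iff]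
  tauto

def cty (T : Set (FreeGroup X)) (g u : FreeGroup X) : Ty (Option Q) :=
  ty (St A (T ∩ cone u) ({g} ∩ cone u)) (T ∩ cone u) u gd

theorem swap [Finite Q] {T T' : Finset (FreeGroup X)} {g g' u : FreeGroup X} (hu : 1 ∉ cone u)
    (h1 : 1 ∈ T) (hO : Ot (T : Set (FreeGroup X)) u = Ot T' u)
    (hm : {g} \ cone u = {g'} \ cone u) (ht : cty A T g u = cty A T' g' u) (h : Mem A T g) :
    Mem A T' g' := by
  have o1 : 1 ∈ Ot (T : Set (FreeGroup X)) u := ⟨h1, Or.inl hu⟩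
  rw [mem_iff A T h1] at h
  rw [mem_iff A T' (hO ▸ o1).1]
  obtain ⟨f, hf, h⟩ := h
  refine ⟨f, hf, ?_⟩
  rw [St_split A _ _ u] at h ⊢
  rw [← hO, ← hm]
  have := glue (O := Ot (T : Set (FreeGroup X)) u) (e := (1, some f)) (s := (1, none))
    (a := St A (Ot T u) ({g} \ cone u)) (fun x y k => ⟨k.1, k.2.1⟩)
    (fun x y k => ⟨k.1, k.2.1⟩) (fun v hv hv' => hv.2.resolve_left (not_not.2 hv'.2)) ht o1 o1
    (by rwa [Ot_union])
  rwa [hO, Ot_union, ← hO] at this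

theorem cone_tr {u v b : FreeGroup X} (h : u.toWord.head? = v.toWord.head?) (hb : b ∈ cone v) :
    b * v⁻¹ * u ∈ cone u := by
  obtain ⟨s, hs⟩ := hb
  have e : b * v⁻¹ * u = mk (s ++ u.toWord) := by
    rw [← mul_mk, mk_toWord, ← mk_toWord (x := b), ← hs, ← mul_mk, mk_toWord,
      mul_inv_cancel_right]
  have r1 : IsReduced (s ++ v.toWord) := hs ▸ isReduced_toWord
  have r2 : IsReduced (s ++ u.toWord) := by
    have r3 : IsReduced u.toWord := isReduced_toWord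
    unfold FreeGroup.IsReduced at *
    rw [List.isChain_append] at r1 ⊢
    exact ⟨r1.1, r3, h ▸ r1.2.2⟩
  show u.toWord <:+ _
  rw [e, toWord_mk, r2.reduce_eq]
  exact List.suffix_append _ _

def rep (T : Finset (FreeGroup X)) (u v : FreeGroup X) : Finset (FreeGroup X) :=
  T.filter (· ∉ cone u) ∪ (T.filter (· ∈ cone v)).image (· * v⁻¹ * u)

theorem cone_self (u : FreeGroup X) : u ∈ cone u := List.suffix_refl _

theorem rep_card {T : Finset (FreeGroup X)} {u v : FreeGroup X} (hu : u ∈ T) (h1 : v ∈ cone u)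
    (h2 : u ∉ cone v) : (rep T u v).card < T.card := by
  have a1 := Finset.card_filter_add_card_filter_not (s := T) (· ∈ cone u)
  have a2 : (T.filter (· ∈ cone v)).card < (T.filter (· ∈ cone u)).card :=
    Finset.card_lt_card ⟨fun a ha => by
      simp only [Finset.mem_filter] at ha ⊢
      exact ⟨ha.1, List.IsSuffix.trans h1 ha.2⟩, fun h => by
      have := h (Finset.mem_filter.2 ⟨hu, cone_self u⟩)
      exact h2 (Finset.mem_filter.1 this).2⟩
  have a3 := Finset.card_union_le (T.filter (· ∉ cone u))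
    ((T.filter (· ∈ cone v)).image (· * v⁻¹ * u))
  have a4 := Finset.card_image_le (s := T.filter (· ∈ cone v)) (f := (· * v⁻¹ * u))
  unfold rep
  omega

theorem rep_cone {T : Finset (FreeGroup X)} {u v : FreeGroup X}
    (h : u.toWord.head? = v.toWord.head?) (a : FreeGroup X) :
    a * v⁻¹ * u ∈ (rep T u v : Set (FreeGroup X)) ∩ cone u ↔ a ∈ (T : Set (FreeGroup X)) ∩ cone v := by
  simp only [rep, Set.mem_inter_iff, Finset.mem_coe, Finset.mem_union, Finset.mem_filter,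
    Finset.mem_image, mul_left_inj, exists_eq_right]
  exact ⟨fun k => k.1.resolve_left fun k' => k'.2 k.2, fun k => ⟨Or.inr k, cone_tr h k.2⟩⟩

theorem rep_Ot {T : Finset (FreeGroup X)} {u v : FreeGroup X} (hu : u ∈ T) (hv : v ∈ T)
    (h : u.toWord.head? = v.toWord.head?) : Ot (T : Set (FreeGroup X)) u = Ot (rep T u v) u := by
  ext a
  simp only [Ot, rep, Set.mem_ofPred_eq, Finset.mem_coe, Finset.mem_union, Finset.mem_filter,
    Finset.mem_image]
  constructor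
  · rintro ⟨h1, h2 | rfl⟩
    · exact ⟨Or.inl ⟨h1, h2⟩, Or.inl h2⟩
    · exact ⟨Or.inr ⟨v, ⟨hv, cone_self v⟩, by simp⟩, Or.inr rfl⟩
  · rintro ⟨h1 | ⟨b, h1, rfl⟩, h2⟩
    · exact ⟨h1.1, h2⟩
    · rcases h2 with h2 | h2
      · exact absurd (cone_tr h h1.2) h2
      · exact ⟨by rw [h2]; exact hu, Or.inr h2⟩

theorem rep_cty {T : Finset (FreeGroup X)} {g g' u v : FreeGroup X}
    (h : u.toWord.head? = v.toWord.head?)
    (hg : ∀ a, a * v⁻¹ * u ∈ {g'} ∩ cone u ↔ a ∈ {g} ∩ cone v) :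
    cty A (rep T u v) g' u = cty A T g v := by
  have := ty_equiv (Equiv.mulRight (v⁻¹ * u))
    (r := St A (T ∩ cone v) ({g} ∩ cone v)) (r' := St A (rep T u v ∩ cone u) ({g'} ∩ cone u))
    (fun x y => by
      simp only [St, Equiv.coe_mulRight, ← mul_assoc, rep_cone h, hg, mul_left_inj])
    (C := T ∩ cone v) (C' := rep T u v ∩ cone u)
    (fun a => by simp only [Equiv.coe_mulRight, ← mul_assoc, rep_cone h]) v gd
  simpa [cty] using this

theorem rep_mem [Finite Q] {T : Finset (FreeGroup X)} {g u v : FreeGroup X} (h1 : 1 ∈ T)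
    (hu : u ∈ T) (hv : v ∈ T) (hu1 : 1 ∉ cone u) (hvu : v ∈ cone u)
    (h : u.toWord.head? = v.toWord.head?) (hg : g ∈ cone u ↔ g ∈ cone v)
    (ht : cty A T g u = cty A T g v) :
    Mem A (rep T u v) (if g ∈ cone u then g * v⁻¹ * u else g) ↔ Mem A T g := by
  have hO := rep_Ot hu hv h
  have hm : ({g} \ cone u : Set (FreeGroup X)) =
      {if g ∈ cone u then g * v⁻¹ * u else g} \ cone u := by
    split_ifs with k
    · rw [Set.sdiff_eq_empty.2 (by simpa using k),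
        Set.sdiff_eq_empty.2 (by simpa using cone_tr h (hg.1 k))]
    · rfl
  have hc := rep_cty A (T := T) (g := g) (g' := if g ∈ cone u then g * v⁻¹ * u else g) h
    fun a => by
      split_ifs with k
      · simp only [Set.mem_inter_iff, Set.mem_singleton_iff, mul_left_inj]
        exact ⟨fun e => ⟨e.1, e.1 ▸ hg.1 k⟩, fun e => ⟨e.1, cone_tr h e.2⟩⟩
      · simp only [Set.mem_inter_iff, Set.mem_singleton_iff]
        exact ⟨fun e => absurd (e.1 ▸ e.2) k, fun e => absurd (hg.2 (e.1 ▸ e.2)) k⟩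
  have o1 : 1 ∈ Ot (T : Set (FreeGroup X)) u := ⟨h1, Or.inl hu1⟩
  exact ⟨swap A hu1 (hO ▸ o1).1 hO.symm hm.symm (hc.trans ht.symm),
    swap A hu1 h1 hO hm (ht.trans hc.symm)⟩

end Pool.Agent.H24.Munn
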