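import Mathlib
import Pool.Agent.H24.Munn3

set_option autoImplicit false

namespace Pool.Agent.H24.Munn

open FreeGroup Pool.Agent.H24.Glue Pool.Agent.H23

section
variable {X : Type} [DecidableEq X] {Q Q' : Type}

theorem depth [Finite X] [Finite Q] [Finite Q'] (A : Aut X Q) (B : Aut X Q') (N : ℕ)
    (hN : Nat.card (Ty (Option Q) × Ty (Option Q') × Option (X × Bool) × Prop) ≤ N) (n : ℕ) :
    ∀ T g, T.card < n → Mem A T g → ¬ Mem B T g →
      ∃ T g, Mem A T g ∧ ¬ Mem B T g ∧ ∀ a ∈ T, a.norm ≤ N := by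
  induction n with
  | zero => intro T g h; omega
  | succ n ih =>
    intro T g hT h1 h2
    by_cases h : ∀ a ∈ T, a.norm ≤ N
    · exact ⟨T, g, h1, h2, h⟩
    push Not at h
    obtain ⟨b, hb, hb'⟩ := h
    have hl : N < b.toWord.length := hb'
    let u : ℕ → FreeGroup X := fun i => mk (b.toWord.drop (b.toWord.length - (i + 1)))
    have hu : ∀ i, (u i).toWord = b.toWord.drop (b.toWord.length - (i + 1)) := fun i => by
      rw [toWord_mk]
      exact IsReduced.reduce_eq (List.IsChain.drop (isReduced_toWord (x := b)) _)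
    have hT1 : 1 ∈ T ∧ ∀ i, u i ∈ T := by
      obtain ⟨w, _, _, _, rfl, _⟩ := h1
      exact ⟨one_mem w, fun i => suf_mem hb (List.drop_suffix _ _)⟩
    let F : ℕ → Ty (Option Q) × Ty (Option Q') × Option (X × Bool) × Prop := fun i =>
      (cty A T g (u i), cty B T g (u i), (u i).toWord.head?, g ∈ cone (u i))
    have key : ∀ i j, i < j → j ≤ N → F i = F j →
        ∃ T g, Mem A T g ∧ ¬ Mem B T g ∧ ∀ a ∈ T, a.norm ≤ N := by
      intro i j hij hj e
      simp only [F, Prod.mk.injEq, eq_iff_iff] at e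
      have c1 : 1 ∉ cone (u i) := fun k => by
        have := List.IsSuffix.length_le k
        rw [hu] at this
        simp at this
        omega
      have c2 : u j ∈ cone (u i) := by
        show _ <:+ _
        rw [hu, hu]
        exact List.drop_suffix_drop_left _ (by omega)
      have c3 : u i ∉ cone (u j) := fun k => by
        have := List.IsSuffix.length_le k
        rw [hu, hu] at this
        simp at this
        omega
      refine ih _ _ (lt_of_lt_of_le (rep_card (hT1.2 i) c2 c3) (by omega))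
        ((rep_mem A hT1.1 (hT1.2 i) (hT1.2 j) c1 c2 e.2.2.1 e.2.2.2 e.1).2 h1) ?_
      rwa [rep_mem B hT1.1 (hT1.2 i) (hT1.2 j) c1 c2 e.2.2.1 e.2.2.2 e.2.1]
    haveI := Fintype.ofFinite (Ty (Option Q) × Ty (Option Q') × Option (X × Bool) × Prop)
    obtain ⟨i, j, hij, e⟩ := Fintype.exists_ne_map_eq_of_card_lt (fun i : Fin (N + 1) => F i)
      (by rw [← Nat.card_eq_fintype_card, Fintype.card_fin]; omega)
    rcases lt_or_gt_of_ne hij with k | k
    · exact key i j k (by omega) e
    · exact key j i k (by omega) e.symm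

theorem pump [Fintype Q] (A : Aut X Q) (n : ℕ) : ∀ w f, w.length < n → Run A.d A.s w f →
    ∃ w', Run A.d A.s w' f ∧ V w' = V w ∧ mk w' = mk w ∧
      w'.length ≤ 2 ^ (V w).card * ((V w).card * Fintype.card Q) := by
  classical
  induction n with
  | zero => intro w f h; omega
  | succ n ih =>
    intro w f hw hr
    by_cases h : w.length ≤ 2 ^ (V w).card * ((V w).card * Fintype.card Q)
    · exact ⟨w, hr, rfl, rfl, h⟩
    have := fun i => (run_append A.d A.s f (w.take i) (w.drop i)).1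
      (by rwa [List.take_append_drop])
    choose r r1 r2 using this
    have sub : ∀ i, V (w.drop i) ⊆ V w := fun i g hg => by
      rw [← List.take_append_drop i w, mem_append]; exact Or.inr hg
    have key : ∀ i j, i < j → j ≤ w.length → (V (w.drop i), mk (w.drop i), r i) =
        (V (w.drop j), mk (w.drop j), r j) → ∃ w', Run A.d A.s w' f ∧ V w' = V w ∧ mk w' = mk w ∧
        w'.length ≤ 2 ^ (V w).card * ((V w).card * Fintype.card Q) := by
      intro i j hij hj e
      simp only [Prod.mk.injEq] at e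
      have e1 : V (w.take i ++ w.drop j) = V w := by
        ext g
        conv_rhs => rw [← List.take_append_drop i w]
        rw [mem_append, mem_append, e.1, e.2.1]
      have e2 : mk (w.take i ++ w.drop j) = mk w := by
        rw [← mul_mk, ← e.2.1, mul_mk, List.take_append_drop]
      have := ih (w.take i ++ w.drop j) f (by simp; omega)
        ((run_append _ _ _ _ _).2 ⟨_, r1 i, e.2.2 ▸ r2 j⟩)
      rwa [e1, e2] at this
    obtain ⟨i, hi, j, hj, hij, e⟩ := Finset.exists_ne_map_eq_of_card_lt_of_maps_to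
      (s := Finset.range (w.length + 1)) (t := (V w).powerset ×ˢ V w ×ˢ (Finset.univ : Finset Q))
      (f := fun i => (V (w.drop i), mk (w.drop i), r i)) (by simp; omega) fun i _ => by
        simp [sub i, sub i (mk_mem _)]
    simp only [Finset.mem_range] at hi hj
    rcases lt_or_gt_of_ne hij with k | k
    · exact key i j k (by omega) e
    · exact key j i k (by omega) e.symm

theorem V_card (w : List (X × Bool)) : (V w).card ≤ w.length + 1 := by
  induction w with
  | nil => simp [V]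
  | cons x w ih => exact (Finset.card_insert_le _ _).trans (by simpa using ih)

theorem mem_V (w : List (X × Bool)) (g : FreeGroup X) :
    g ∈ V w ↔ ∃ i < w.length + 1, mk (w.drop i) = g := by
  induction w with
  | nil => simp [V, ← one_eq_mk, eq_comm]
  | cons x w ih =>
    rw [List.length_cons, Nat.exists_lt_succ_left]
    simp [V, ih, eq_comm]

end

variable {k : ℕ}

abbrev La (k : ℕ) := Fin k × Bool
abbrev In (k : ℕ) := List (ℕ × La k × ℕ) × ℕ × List ℕ

def allW (k n : ℕ) : List (List (La k)) := Nat.rec [[]] (fun _ L => [] :: L.flatMap fun w =>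
  (List.finRange k).flatMap fun i => [(i, true) :: w, (i, false) :: w]) n

theorem mem_allW (n : ℕ) (w : List (La k)) (h : w.length ≤ n) : w ∈ allW k n := by
  induction n generalizing w with
  | zero => simp [allW, List.length_eq_zero_iff.1 (Nat.le_zero.1 h)]
  | succ n ih =>
    rcases w with _ | ⟨⟨i, b⟩, w⟩
    · exact List.mem_cons_self
    · refine List.mem_cons_of_mem _ (List.mem_flatMap.2 ⟨w, ih w (by simpa using h), ?_⟩)
      cases b <;> simp

def rch (δ : List (ℕ × La k × ℕ)) (S : List ℕ) (w : List (La k)) : List ℕ :=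
  w.foldl (fun S x => (δ.filter fun e => S.any (· == e.1) && e.2.1 == x).map fun e => e.2.2) S

theorem mem_rch (δ : List (ℕ × La k × ℕ)) (S : List ℕ) (w : List (La k)) (q : ℕ) :
    q ∈ rch δ S w ↔ ∃ p ∈ S, Run (fun p x q => (p, x, q) ∈ δ) p w q := by
  induction w generalizing S with
  | nil => simp [rch, Run]
  | cons x w ih =>
    refine (ih _).trans ?_
    simp only [List.mem_map, List.mem_filter, Run, Bool.and_eq_true, List.any_eq_true, beq_iff_eq]
    constructor
    · rintro ⟨_, ⟨⟨a, y, b⟩, ⟨h1, ⟨p, h2, rfl⟩, rfl⟩, rfl⟩, h3⟩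
      exact ⟨_, h2, _, h1, h3⟩
    · rintro ⟨p, h1, p', h2, h3⟩
      exact ⟨_, ⟨_, ⟨h2, ⟨p, h1, rfl⟩, rfl⟩, rfl⟩, h3⟩

def acc (A : In k) (w : List (La k)) : Bool :=
  (rch A.1 [A.2.1] w).any fun q => A.2.2.any (· == q)

theorem acc_iff (A : In k) (w : List (La k)) :
    acc A w = true ↔ ∃ f ∈ A.2.2, Run (fun p x q => (p, x, q) ∈ A.1) A.2.1 w f := by
  simp only [acc, List.any_eq_true, mem_rch, beq_iff_eq, List.mem_singleton, exists_eq_left,
    exists_eq_right]
  exact ⟨fun ⟨q, a, b⟩ => ⟨q, b, a⟩, fun ⟨q, a, b⟩ => ⟨q, b, a⟩⟩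

def nb (A : In k) : ℕ := A.1.foldr (fun e s => e.2.2 + s) A.2.1 + 1

theorem nb_s (A : In k) : A.2.1 < nb A ∧ ∀ e ∈ A.1, e.2.2 < nb A := by
  obtain ⟨δ, s, F⟩ := A
  simp only [nb]
  induction δ with
  | nil => simp
  | cons e δ ih =>
    simp only [List.foldr_cons, List.mem_cons, forall_eq_or_imp]
    exact ⟨by omega, by omega, fun e he => by have := ih.2 e he; omega⟩

def aut (A : In k) : Aut (Fin k) (Fin (nb A)) :=
  ⟨fun p x q => (p.1, x, q.1) ∈ A.1, ⟨A.2.1, (nb_s A).1⟩, fun q => q.1 ∈ A.2.2⟩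

theorem run_aut (A : In k) (w : List (La k)) (p : Fin (nb A)) (q : ℕ) :
    Run (fun p x q => (p, x, q) ∈ A.1) p.1 w q ↔ ∃ q', q'.1 = q ∧ Run (aut A).d p w q' := by
  induction w generalizing p with
  | nil => simp [Run]
  | cons x w ih =>
    constructor
    · rintro ⟨p', h1, h2⟩
      obtain ⟨q', h3, h4⟩ := (ih ⟨p', (nb_s A).2 _ h1⟩).1 h2
      exact ⟨q', h3, ⟨p', (nb_s A).2 _ h1⟩, h1, h4⟩
    · rintro ⟨q', h1, p', h2, h3⟩
      exact ⟨_, h2, (ih p').2 ⟨q', h1, h3⟩⟩

theorem acc_aut (A : In k) (w : List (La k)) :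
    acc A w = true ↔ ∃ f, (aut A).F f ∧ Run (aut A).d (aut A).s w f := by
  rw [acc_iff]
  constructor
  · rintro ⟨f, h1, h2⟩
    obtain ⟨q, rfl, h3⟩ := (run_aut A w (aut A).s f).1 h2
    exact ⟨q, h1, h3⟩
  · rintro ⟨f, h1, h2⟩
    exact ⟨f, h1, (run_aut A w (aut A).s f).2 ⟨f, rfl, h2⟩⟩

def sub (u v : List (La k)) : Bool := (List.range (u.length + 1)).all fun i =>
  (List.range (v.length + 1)).any fun j => reduce (v.drop j) == reduce (u.drop i)

theorem sub_iff (u v : List (La k)) : sub u v = true ↔ V u ⊆ V v := by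
  simp only [sub, List.all_eq_true, List.any_eq_true, List.mem_range, beq_iff_eq,
    Finset.subset_iff, mem_V]
  constructor
  · rintro h _ ⟨i, hi, rfl⟩
    obtain ⟨j, hj, e⟩ := h i hi
    exact ⟨j, hj, reduce.exact e⟩
  · intro h i hi
    obtain ⟨j, hj, e⟩ := h ⟨i, hi, rfl⟩
    exact ⟨j, hj, reduce.sound e⟩

def meq (u v : List (La k)) : Bool := sub u v && (sub v u && reduce u == reduce v)

theorem meq_iff (u v : List (La k)) : meq u v = true ↔ V u = V v ∧ mk u = mk v := by
  simp only [meq, Bool.and_eq_true, sub_iff, beq_iff_eq, Finset.Subset.antisymm_iff, and_assoc]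
  exact and_congr_right' (and_congr_right' ⟨reduce.exact, reduce.sound⟩)

def cT (n : ℕ) : ℕ := 2 ^ ((n + 1) * (n + 1)) * 2 ^ (2 ^ (2 ^ (n + 1) * 2 ^ (n + 1)) *
  2 ^ (2 ^ (n + 1) * 2 ^ (n + 1) * (2 ^ (n + 1) * 2 ^ (n + 1))))
def bd (t n : ℕ) : ℕ := 2 ^ t * (t * n)

def test (p : In k × In k) : Bool :=
  (allW k (bd (allW k (cT (nb p.1) * (cT (nb p.2) * ((k * 2 + 1) * 2)))).length (nb p.1))).all
    fun w => !acc p.1 w || (allW k (bd (w.length + 1) (nb p.2))).any fun w' =>
      acc p.2 w' && meq w w'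

theorem test_prim : Primrec (test (k := k)) := by
  have h0 := HomP.red_prim (k := k)
  have h1 : Primrec (allW k) := by unfold allW; fun_prop
  have h2 : Primrec fun p : In k × List (La k) => acc p.1 p.2 := by unfold acc rch; fun_prop
  have h3 : Primrec fun p : List (La k) × List (La k) => sub p.1 p.2 := by unfold sub; fun_prop
  have h4 : Primrec fun p : List (La k) × List (La k) => meq p.1 p.2 :=
    PR.and' h3 (PR.and' (h3.comp (Primrec.snd.pair Primrec.fst)) (by fun_prop))
  have h5 : Primrec (nb (k := k)) := by unfold nb; fun_prop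
  have h6 : Primrec cT := by unfold cT; fun_prop
  unfold test bd
  refine PR.all' (by fun_prop) (PR.or' (PR.not' (h2.comp (PR.pair' (by fun_prop) (by fun_prop))))
    (PR.any' (by fun_prop) (PR.and' (h2.comp (PR.pair' (by fun_prop) (by fun_prop)))
      (h4.comp (PR.pair' (by fun_prop) (by fun_prop))))))

theorem bd_mono {t t' : ℕ} (n : ℕ) (h : t ≤ t') : bd t n ≤ bd t' n := by
  unfold bd; gcongr; norm_num

theorem test_iff (p : In k × In k) : test p = true ↔
    ∀ w, acc p.1 w = true → ∃ w', acc p.2 w' = true ∧ V w = V w' ∧ mk w = mk w' := by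
  simp only [test, List.all_eq_true, Bool.or_eq_true, Bool.not_eq_true', List.any_eq_true,
    Bool.and_eq_true, meq_iff]
  constructor
  · intro h w hw
    by_contra hc
    obtain ⟨f, h1, h2⟩ := (acc_aut _ _).1 hw
    obtain ⟨T, g, ⟨u, f, a1, a2, rfl, rfl⟩, a3, a4⟩ := depth (aut p.1) (aut p.2)
      (cT (nb p.1) * (cT (nb p.2) * ((k * 2 + 1) * 2))) (by
        rw [Nat.card_prod, card_ty, Nat.card_prod, card_ty]
        simp [cT]) _ (V w) (mk w) (Nat.lt_succ_self _) ⟨w, f, h1, h2, rfl, rfl⟩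
      fun ⟨w', f', b1, b2, b3, b4⟩ => hc ⟨w', (acc_aut _ _).2 ⟨f', b1, b2⟩, b3.symm, b4.symm⟩
    obtain ⟨u', b1, b2, b3, b4⟩ := pump (aut p.1) _ u f (Nat.lt_succ_self _) a2
    have c1 : (V u).card ≤
        (allW k (cT (nb p.1) * (cT (nb p.2) * ((k * 2 + 1) * 2)))).length := by
      refine le_trans ?_ (List.toFinset_card_le _)
      exact Finset.card_le_card_of_injOn toWord
        (fun a ha => List.mem_toFinset.2 (mem_allW _ _ (a4 a ha))) toWord_injective.injOn
    rw [Fintype.card_fin] at b4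
    rcases h u' (mem_allW _ _ (b4.trans (bd_mono _ c1))) with e | ⟨w', _, e1, e2, e3⟩
    · simp [(acc_aut _ _).2 ⟨f, a1, b1⟩] at e
    · obtain ⟨f', d1, d2⟩ := (acc_aut _ _).1 e1
      exact a3 ⟨w', f', d1, d2, e2.symm.trans b2, e3.symm.trans b3⟩
  · intro h w _
    cases hw : acc p.1 w
    · exact Or.inl rfl
    obtain ⟨u, h1, h2, h3⟩ := h w hw
    obtain ⟨f, a1, a2⟩ := (acc_aut _ _).1 h1
    obtain ⟨u', b1, b2, b3, b4⟩ := pump (aut p.2) _ u f (Nat.lt_succ_self _) a2
    rw [Fintype.card_fin, ← h2] at b4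
    exact Or.inr ⟨u', mem_allW _ _ (b4.trans (bd_mono _ (V_card w))),
      (acc_aut _ _).2 ⟨f, a1, b1⟩, h2.trans b2.symm, h3.trans b3.symm⟩

theorem run_list (δ : List (ℕ × La k × ℕ)) (w : List (La k)) (p q : ℕ) :
    Run (fun p x q => (p, x, q) ∈ δ) p w q ↔ ∃ s : List ℕ, s.length = w.length + 1 ∧
      s.getD 0 0 = p ∧ s.getD w.length 0 = q ∧ ∀ (i : ℕ) (a : La k), w[i]? = some a →
        (s.getD i 0, a, s.getD (i + 1) 0) ∈ δ := by
  induction w generalizing p with
  | nil =>
    refine ⟨fun h => ⟨[p], rfl, rfl, h, by simp⟩, fun ⟨s, _, h1, h2, _⟩ => h1.symm.trans h2⟩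
  | cons x w ih =>
    constructor
    · rintro ⟨p', h1, h2⟩
      obtain ⟨s, a1, a2, a3, a4⟩ := (ih p').1 h2
      refine ⟨p :: s, by simp [a1], rfl, a3, fun i a h => ?_⟩
      cases i with
      | zero =>
        obtain rfl : x = a := by simpa using h
        exact a2 ▸ h1
      | succ i => exact a4 i a h
    · rintro ⟨_ | ⟨p0, s⟩, a1, a2, a3, a4⟩
      · simp at a1
      · obtain rfl : p0 = p := a2
        exact ⟨s.getD 0 0, a4 0 x rfl, (ih _).2 ⟨s, by simpa using a1, rfl, a3,
          fun i a h => a4 (i + 1) a h⟩⟩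

theorem acc_list (A : In k) (w : List (La k)) : acc A w = true ↔ ∃ s : List ℕ,
    s.length = w.length + 1 ∧ s.getD 0 0 = A.2.1 ∧ s.getD w.length 0 ∈ A.2.2 ∧
      ∀ (i : ℕ) (a : La k), w[i]? = some a → (s.getD i 0, a, s.getD (i + 1) 0) ∈ A.1 := by
  simp only [acc_iff, run_list]
  exact ⟨fun ⟨_, h, s, a, b, c, d⟩ => ⟨s, a, b, c ▸ h, d⟩,
    fun ⟨s, a, b, c, d⟩ => ⟨_, c, s, a, b, rfl, d⟩⟩

end Pool.Agent.H24.Munn
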