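import Mathlib
import Pool.Agent.H24.Munn4

set_option autoImplicit false

namespace Pool.Agent.H24.Munn

open FreeGroup Pool.Agent.H24.Glue Relation

variable {X : Type} [DecidableEq X] {S S' : Type}

def gr (l : FreeGroup X → S) (u : FreeGroup X) (c : FreeGroup X → S) (v : FreeGroup X) :
    FreeGroup X → S := fun a => if a ∈ cone u then c (a * u⁻¹ * v) else l a

def Hd (u v : FreeGroup X) : Prop := ∃ x, u.toWord.head? = some x ∧ v.toWord.head? = some x

theorem Hd.eq {u v : FreeGroup X} (h : Hd u v) : u.toWord.head? = v.toWord.head? := by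
  obtain ⟨x, h1, h2⟩ := h; rw [h1, h2]
theorem Hd.left {u v : FreeGroup X} (h : Hd u v) : Hd u u := by
  obtain ⟨x, h1, _⟩ := h; exact ⟨x, h1, h1⟩
theorem Hd.one {u v : FreeGroup X} (h : Hd u v) : 1 ∉ cone u := by
  obtain ⟨x, h1, _⟩ := h
  intro k
  have : u.toWord = [] := List.suffix_nil.1 k
  simp [this] at h1

def Reg (Φ : (FreeGroup X → S) → Prop) (n : ℕ) : Prop :=
  ∃ (T : Type) (_ : Finite T) (τ : (FreeGroup X → S) → FreeGroup X → T), Nat.card T ≤ n ∧
    (∀ l u c v, Hd u v → τ (gr l u c v) u = τ c v) ∧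
    ∀ l u c v, Hd u v → τ l u = τ c v → Φ l → Φ (gr l u c v)

theorem Reg.of_eq {Φ Ψ : (FreeGroup X → S) → Prop} {n : ℕ} (h : Reg Φ n) (e : ∀ l, Φ l ↔ Ψ l) :
    Reg Ψ n := (funext fun l => propext (e l) : Φ = Ψ) ▸ h

theorem Reg.not {Φ : (FreeGroup X → S) → Prop} {n : ℕ} (h : Reg Φ n) : Reg (fun l => ¬ Φ l) n := by
  obtain ⟨T, _, τ, h1, h2, h3⟩ := h
  refine ⟨T, inferInstance, τ, h1, h2, fun l u c v k e n1 n2 => n1 ?_⟩
  have := h3 _ u l u k.left ((h2 l u c v k).trans e.symm) n2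
  have e2 : gr (gr l u c v) u l u = l := by
    funext a
    simp only [gr]
    split_ifs <;> simp
  rwa [e2] at this

theorem Reg.and {Φ Ψ : (FreeGroup X → S) → Prop} {n m : ℕ} (h : Reg Φ n) (k : Reg Ψ m) :
    Reg (fun l => Φ l ∧ Ψ l) (n * m) := by
  obtain ⟨T, _, τ, h1, h2, h3⟩ := h
  obtain ⟨T', _, τ', k1, k2, k3⟩ := k
  refine ⟨T × T', inferInstance, fun l u => (τ l u, τ' l u), ?_, fun l u c v e => ?_,
    fun l u c v e e' p => ⟨h3 l u c v e (congrArg Prod.fst e') p.1,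
      k3 l u c v e (congrArg Prod.snd e') p.2⟩⟩
  · rw [Nat.card_prod]; exact Nat.mul_le_mul h1 k1
  · simp only [h2 l u c v e, k2 l u c v e]

theorem Reg.map {Φ : (FreeGroup X → S') → Prop} {n : ℕ} (h : Reg Φ n) (f : S → S') :
    Reg (fun l : FreeGroup X → S => Φ fun a => f (l a)) n := by
  obtain ⟨T, _, τ, h1, h2, h3⟩ := h
  have e : ∀ (l : FreeGroup X → S) u c v, (fun a => f (gr l u c v a)) =
      gr (fun a => f (l a)) u (fun a => f (c a)) v := fun l u c v => by
    funext a; simp only [gr]; split_ifs <;> rfl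
  exact ⟨T, inferInstance, fun l u => τ (fun a => f (l a)) u, h1,
    fun l u c v k => by simp only [e, h2 _ u _ v k], fun l u c v k e' p => by
      dsimp only; rw [e]; exact h3 _ u _ v k e' p⟩

theorem Reg.ex {Φ : (FreeGroup X → S × S') → Prop} {n : ℕ} (h : Reg Φ n) :
    Reg (fun l : FreeGroup X → S => ∃ m : FreeGroup X → S', Φ fun a => (l a, m a)) (2 ^ n) := by
  obtain ⟨T, _, τ, h1, h2, h3⟩ := h
  have e : ∀ (l : FreeGroup X → S) (m : FreeGroup X → S') u c d v,
      (fun a => (gr l u c v a, gr m u d v a)) =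
      gr (fun a => (l a, m a)) u (fun a => (c a, d a)) v := fun l m u c d v => by
    funext a; simp only [gr]; split_ifs <;> rfl
  refine ⟨Set T, inferInstance, fun l u => Set.range fun m : FreeGroup X → S' =>
    τ (fun a => (l a, m a)) u, ?_,
    fun l u c v k => Set.ext fun t => ⟨?_, ?_⟩, ?_⟩
  · haveI := Fintype.ofFinite T
    classical
    rw [Nat.card_eq_fintype_card, Fintype.card_set, ← Nat.card_eq_fintype_card]
    exact Nat.pow_le_pow_right (by norm_num) h1
  · rintro ⟨m, rfl⟩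
    refine ⟨fun b => m (b * v⁻¹ * u), ?_⟩
    dsimp only
    rw [← h2 (fun a => (l a, m a)) u _ v k, ← e]
    congr 1
    funext a
    simp only [gr]
    split_ifs <;> simp
  · rintro ⟨d, rfl⟩
    exact ⟨gr d u d v, by dsimp only; rw [e, h2 _ u _ v k]⟩
  · rintro l u c v k e' ⟨m, hm⟩
    obtain ⟨d, hd⟩ := (Set.ext_iff.1 e' _).1 ⟨m, rfl⟩
    exact ⟨gr m u d v, by rw [e]; exact h3 _ u _ v k hd.symm hm⟩

theorem Reg.imp {Φ Ψ : (FreeGroup X → S) → Prop} {n m : ℕ} (h : Reg Φ n) (k : Reg Ψ m) :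
    Reg (fun l => Φ l → Ψ l) (n * m) := (h.and k.not).not.of_eq fun l => by tauto

theorem Reg.iff {Φ Ψ : (FreeGroup X → S) → Prop} {n m : ℕ} (h : Reg Φ n) (k : Reg Ψ m) :
    Reg (fun l => Φ l ↔ Ψ l) (n * m * (m * n)) :=
  ((h.imp k).and (k.imp h)).of_eq fun _ => iff_def.symm

theorem Reg.all {Φ : (FreeGroup X → S × S') → Prop} {n : ℕ} (h : Reg Φ n) :
    Reg (fun l : FreeGroup X → S => ∀ m : FreeGroup X → S', Φ fun a => (l a, m a)) (2 ^ n) :=
  h.not.ex.not.of_eq fun l => by simp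

theorem gr_set (l c : FreeGroup X → Prop) {u v : FreeGroup X} (h : Hd u v) :
    {a ∈ cone u | gr l u c v a} = (· * v⁻¹ * u) '' {b ∈ cone v | c b} := by
  ext a
  constructor
  · rintro ⟨h1, h2⟩
    rw [gr, if_pos h1] at h2
    exact ⟨_, ⟨cone_tr h.eq.symm h1, h2⟩, by simp⟩
  · rintro ⟨b, ⟨h1, h2⟩, rfl⟩
    exact ⟨cone_tr h.eq h1, by rw [gr, if_pos (cone_tr h.eq h1)]; simpa using h2⟩

theorem gr_all (l c : FreeGroup X → Prop) (u v : FreeGroup X) :
    {a | gr l u c v a} = {a | l a} \ cone u ∪ {a ∈ cone u | gr l u c v a} := by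
  ext a
  by_cases h : a ∈ cone u <;> simp [gr, h]

theorem card_prop : Nat.card Prop ≤ 2 := by simp

theorem reg_ne : Reg (fun l : FreeGroup X → Prop => ∃ a, l a) 2 := by
  refine ⟨Prop, inferInstance, fun l u => {a ∈ cone u | l a}.Nonempty, card_prop,
    fun l u c v k => by simp only [gr_set l c k, Set.image_nonempty], ?_⟩
  rintro l u c v k e ⟨a, ha⟩
  by_cases h : a ∈ cone u
  · have : {a ∈ cone u | gr l u c v a}.Nonempty := by
      rw [gr_set l c k, Set.image_nonempty]; exact (iff_of_eq e).1 ⟨a, h, ha⟩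
    exact this.imp fun _ h => h.2
  · exact ⟨a, by rwa [gr, if_neg h]⟩

theorem reg_fin : Reg (fun l : FreeGroup X → Prop => {a | l a}.Finite) 2 := by
  refine ⟨Prop, inferInstance, fun l u => {a ∈ cone u | l a}.Finite, card_prop,
    fun l u c v k => ?_, fun l u c v k e h => ?_⟩
  · simp only [gr_set l c k]
    exact propext (Set.finite_image_iff fun a _ b _ h => by simpa using h)
  · dsimp only
    rw [gr_all, gr_set l c k]
    exact (h.subset Set.sdiff_subset).union
      (((iff_of_eq e).1 (h.subset fun a h => h.2)).image _)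

theorem reg_root : Reg (fun l : FreeGroup X → Prop => l 1) 1 :=
  ⟨Unit, inferInstance, fun _ _ => (), by simp, fun _ _ _ _ _ => rfl,
    fun l u c v k _ h => by dsimp only; rwa [gr, if_neg k.one]⟩

theorem reg_sing : Reg (fun l : FreeGroup X → Prop => ∃ s, ∀ a, l a ↔ a = s) (2 * 2 ^ (2 * 2)) := by
  refine (reg_ne.and (((reg_ne.map fun p : Prop × Prop => p.1 ∧ p.2).imp
    (reg_ne.map fun p : Prop × Prop => p.1 ∧ ¬ p.2).not).all)).of_eq fun l => ⟨?_, ?_⟩
  · rintro ⟨⟨s, hs⟩, h⟩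
    refine ⟨s, fun a => ⟨fun ha => ?_, fun e => e ▸ hs⟩⟩
    by_contra e
    exact h (· = s) ⟨s, hs, rfl⟩ ⟨a, ha, e⟩
  · rintro ⟨s, hs⟩
    refine ⟨⟨s, (hs s).2 rfl⟩, ?_⟩
    rintro m ⟨a, h1, h2⟩ ⟨b, h3, h4⟩
    exact h4 ((hs b).1 h3 ▸ (hs a).1 h1 ▸ h2)

theorem norm_tr {u v b : FreeGroup X} (h : u.toWord.head? = v.toWord.head?) (hb : b ∈ cone v) :
    (b * v⁻¹ * u).norm + v.norm = b.norm + u.norm := by
  obtain ⟨s, hs⟩ := hb
  have e : b * v⁻¹ * u = mk (s ++ u.toWord) := by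
    rw [← mul_mk, mk_toWord, ← mk_toWord (x := b), ← hs, ← mul_mk, mk_toWord,
      mul_inv_cancel_right]
  have r1 : IsReduced (s ++ v.toWord) := hs ▸ isReduced_toWord
  have r2 : IsReduced (s ++ u.toWord) := by
    have r3 : IsReduced u.toWord := isReduced_toWord
    unfold FreeGroup.IsReduced at *
    rw [List.isChain_append] at r1 ⊢
    exact ⟨r1.1, r3, h ▸ r1.2.2⟩
  simp only [FreeGroup.norm]
  rw [e, toWord_mk, r2.reduce_eq, ← hs]
  simp; omega

def anc (b : FreeGroup X) (i : ℕ) : FreeGroup X := mk (b.toWord.drop (b.toWord.length - i))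

theorem anc_word (b : FreeGroup X) (i : ℕ) :
    (anc b i).toWord = b.toWord.drop (b.toWord.length - i) := by
  rw [anc, toWord_mk]
  exact IsReduced.reduce_eq (List.IsChain.drop (isReduced_toWord (x := b)) _)

theorem anc_cone (b : FreeGroup X) (i : ℕ) : b ∈ cone (anc b i) := by
  show _ <:+ _
  rw [anc_word]; exact List.drop_suffix _ _

theorem anc_norm (b : FreeGroup X) (i : ℕ) (h : i ≤ b.norm) : (anc b i).norm = i := by
  simp only [FreeGroup.norm] at *
  rw [anc_word]; simp; omega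

theorem cone_le {u v b : FreeGroup X} (h1 : b ∈ cone u) (h2 : b ∈ cone v) (h : u.norm ≤ v.norm) :
    v ∈ cone u := List.suffix_of_suffix_length_le h1 h2 h

theorem cone_norm {u b : FreeGroup X} (h1 : b ∈ cone u) : u.norm ≤ b.norm :=
  List.IsSuffix.length_le h1

theorem pigeon [Finite X] {T : Type} [Finite T] (τ : FreeGroup X → T) {n D : ℕ}
    (hn : Nat.card T ≤ n) {b : FreeGroup X}
    (h : D + n * Nat.card (Option (X × Bool)) < b.norm) :
    ∃ u v, Hd u v ∧ τ u = τ v ∧ b ∈ cone u ∧ b ∈ cone v ∧ D < u.norm ∧ u.norm < v.norm := by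
  set N := n * Nat.card (Option (X × Bool))
  have key : ∀ i j, i < j → j ≤ N → (τ (anc b (D + 1 + i)), (anc b (D + 1 + i)).toWord.head?) =
      (τ (anc b (D + 1 + j)), (anc b (D + 1 + j)).toWord.head?) →
      ∃ u v, Hd u v ∧ τ u = τ v ∧ b ∈ cone u ∧ b ∈ cone v ∧ D < u.norm ∧ u.norm < v.norm := by
    intro i j hij hj e
    obtain ⟨e1, e2⟩ := Prod.mk.inj e
    have n1 := anc_norm b (D + 1 + i) (by omega)
    have n2 := anc_norm b (D + 1 + j) (by omega)
    refine ⟨_, _, ?_, e1, anc_cone _ _, anc_cone _ _, by omega, by omega⟩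
    cases hx : (anc b (D + 1 + i)).toWord with
    | nil => simp [FreeGroup.norm, hx] at n1; omega
    | cons x t => exact ⟨x, by simp [hx], by simp [← e2, hx]⟩
  haveI := Fintype.ofFinite (T × Option (X × Bool))
  obtain ⟨i, j, hij, e⟩ := Fintype.exists_ne_map_eq_of_card_lt (fun i : Fin (N + 1) =>
    (τ (anc b (D + 1 + i)), (anc b (D + 1 + i)).toWord.head?)) (by
      rw [← Nat.card_eq_fintype_card, Fintype.card_fin, Nat.card_prod]
      exact Nat.lt_succ_of_le (Nat.mul_le_mul_right _ hn))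
  rcases lt_or_gt_of_ne hij with k | k
  · exact key i j k (by omega) e
  · exact key j i k (by omega) e.symm

theorem Reg.down [Finite X] {Φ : (FreeGroup X → S × Prop × Prop) → Prop} {n : ℕ} (h : Reg Φ n)
    {l : FreeGroup X → S} {s0 : S} {w : List (X × Bool)} {m : FreeGroup X → Prop}
    {b v : FreeGroup X} (hb : b ∈ V w) (hv : b ∈ cone v) (hl : ∀ a ∈ cone v, l a = s0)
    (hn : v.norm + n * Nat.card (Option (X × Bool)) < b.norm)
    (hΦ : Φ fun a => (l a, a ∈ V w, m a)) : ∃ (T : Finset (FreeGroup X)) (m' : FreeGroup X → Prop),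
      T.card < (V w).card ∧ Φ fun a => (l a, a ∈ T, m' a) := by
  obtain ⟨T, _, τ, h1, _, h3⟩ := h
  obtain ⟨u, u', a1, a2, a3, a4, a5, a6⟩ := pigeon (τ fun a => (l a, a ∈ V w, m a)) h1 hn
  have c1 : u ∈ cone v := cone_le hv a3 a5.le
  have c2 : u' ∈ cone u := cone_le a3 a4 a6.le
  refine ⟨rep (V w) u u', gr m u m u', rep_card (by simpa [mk_toWord] using suf_mem hb a3) c2
    fun k => absurd (cone_norm k) (by omega), ?_⟩
  convert h3 _ u _ u' a1 a2 hΦ using 2 with a
  simp only [gr]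
  split_ifs with k
  · have k2 := cone_tr a1.eq.symm k
    have := rep_cone (T := V w) a1.eq (a * u⁻¹ * u')
    simp only [mul_inv_cancel_right, inv_mul_cancel_right, Set.mem_inter_iff, Finset.mem_coe, k, k2,
      and_true] at this
    rw [hl a (List.IsSuffix.trans c1 k), hl _ (List.IsSuffix.trans c1 (List.IsSuffix.trans c2 k2)),
      this]
  · congr 2
    simp only [rep, Finset.mem_union, Finset.mem_filter, Finset.mem_image, k, not_false_iff,
      and_true, eq_iff_iff, or_iff_left_iff_imp]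
    rintro ⟨c, k2, rfl⟩
    exact absurd (cone_tr a1.eq k2.2) k

theorem Reg.up [Finite X] {Φ : (FreeGroup X → S × Prop) → Prop} {n : ℕ} (h : Reg Φ n)
    {l : FreeGroup X → S} {v : FreeGroup X} (hn : n * Nat.card (Option (X × Bool)) < v.norm)
    (hΦ : Φ fun a => (l a, a = v)) : ∃ (l' : FreeGroup X → S) (v' : FreeGroup X),
      v.norm < v'.norm ∧ Φ fun a => (l' a, a = v') := by
  obtain ⟨T, _, τ, h1, _, h3⟩ := h
  obtain ⟨u, u', a1, a2, a3, a4, a5, a6⟩ := pigeon (D := 0) (τ fun a => (l a, a = v)) h1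
    (by rwa [zero_add])
  have a1' : Hd u' u := a1.imp fun _ h => h.symm
  refine ⟨gr l u' l u, v * u⁻¹ * u', by have := norm_tr a1'.eq a3; omega, ?_⟩
  convert h3 _ u' _ u a1' a2.symm hΦ using 2 with a
  simp only [gr]
  split_ifs with k
  · congr 1
    exact propext ⟨fun e => by simp [e], fun e => by simp [← e]⟩
  · congr 1
    exact propext ⟨fun e => absurd (e ▸ cone_tr a1'.eq a3) k, fun e => absurd (e ▸ a4) k⟩

end Pool.Agent.H24.Munn
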