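import Mathlib
import Pool.Agent.H24.Munn5

set_option autoImplicit false

namespace Pool.Agent.H24.Munn

open FreeGroup Pool.Agent.H24.Glue Relation

variable {X : Type} [DecidableEq X] {Q : Type} (A : Aut X Q)

def d2 : Q ⊕ Bool → X × Bool → Q ⊕ Bool → Prop
  | .inl p, x, .inl q => A.d p x q
  | .inr b, _, .inr c => b = c
  | _, _, _ => False

def S2 (T m e : Set (FreeGroup X)) (a b : FreeGroup X × (Q ⊕ Bool)) : Prop :=
  a.1 ∈ T ∧ b.1 ∈ T ∧ ((∃ x, a.1 = mk [x] * b.1 ∧ d2 A a.2 x b.2) ∨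
    (a.1 = b.1 ∧ ((a.1 ∈ m ∧ a.2 = .inr false ∧ b.2 = .inl A.s) ∨
      (a.1 ∈ e ∧ b.2 = .inr true ∧ ∃ f, A.F f ∧ a.2 = .inl f))))

def g2 (q : Q ⊕ Bool) : Prop := ∃ p, q = .inl p

def AccP (l : FreeGroup X → Prop × Prop × Prop) : Prop :=
  (l 1).1 ∧ Acc (S2 A {a | (l a).1} {a | (l a).2.1} {a | (l a).2.2}) {a | (l a).1} g2
    (1, .inr false) (1, .inr true)

theorem S2_split (T m e : Set (FreeGroup X)) (u : FreeGroup X) : S2 A T m e =
    S2 A (Ot T u) (m \ cone u) (e \ cone u) ⊔ S2 A (T ∩ cone u) (m ∩ cone u) (e ∩ cone u) := by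
  ext a b
  constructor
  · rintro ⟨h1, h2, ⟨x, h3, h4⟩ | ⟨h3, h4⟩⟩
    · by_cases ha : a.1 ∈ cone u <;> by_cases hb : b.1 ∈ cone u
      · exact Or.inr ⟨⟨h1, ha⟩, ⟨h2, hb⟩, Or.inl ⟨x, h3, h4⟩⟩
      · exact Or.inl ⟨⟨h1, Or.inr (h3.trans (cone_edge (h3 ▸ ha) hb))⟩, ⟨h2, Or.inl hb⟩,
          Or.inl ⟨x, h3, h4⟩⟩
      · have e : mk [(x.1, !x.2)] = (mk [x])⁻¹ := by rw [inv_mk]; rfl
        have e2 : b.1 = mk [(x.1, !x.2)] * a.1 := by rw [e, h3, inv_mul_cancel_left]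
        exact Or.inl ⟨⟨h1, Or.inl ha⟩, ⟨h2, Or.inr (e2.trans (cone_edge (e2 ▸ hb) ha))⟩,
          Or.inl ⟨x, h3, h4⟩⟩
      · exact Or.inl ⟨⟨h1, Or.inl ha⟩, ⟨h2, Or.inl hb⟩, Or.inl ⟨x, h3, h4⟩⟩
    · by_cases ha : a.1 ∈ cone u
      · exact Or.inr ⟨⟨h1, ha⟩, ⟨h2, h3 ▸ ha⟩, Or.inr ⟨h3,
          h4.imp (fun k => ⟨⟨k.1, ha⟩, k.2⟩) fun k => ⟨⟨k.1, ha⟩, k.2⟩⟩⟩
      · exact Or.inl ⟨⟨h1, Or.inl ha⟩, ⟨h2, Or.inl (h3 ▸ ha)⟩, Or.inr ⟨h3,
          h4.imp (fun k => ⟨⟨k.1, ha⟩, k.2⟩) fun k => ⟨⟨k.1, ha⟩, k.2⟩⟩⟩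
  · rintro (⟨h1, h2, h3⟩ | ⟨h1, h2, h3⟩) <;>
      exact ⟨h1.1, h2.1, h3.imp_right fun k => ⟨k.1,
        k.2.imp (fun k => ⟨k.1.1, k.2⟩) fun k => ⟨k.1.1, k.2⟩⟩⟩

def cT2 (n : ℕ) : ℕ := 2 ^ (n * n) * 2 ^ (2 ^ (2 ^ n * 2 ^ n) * 2 ^ (2 ^ n * 2 ^ n * (2 ^ n * 2 ^ n)))

theorem card_ty2 (Q : Type) [Finite Q] : Nat.card (Ty Q) = cT2 (Nat.card Q) := by
  classical
  haveI := Fintype.ofFinite Q
  simp only [Nat.card_eq_fintype_card, Fintype.card_prod, Fintype.card_set, cT2]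

theorem reg_acc [Finite Q] : Reg (AccP A) (cT2 (Nat.card Q + 2) * 2) := by
  let τ : (FreeGroup X → Prop × Prop × Prop) → FreeGroup X → Ty (Q ⊕ Bool) × Prop := fun l u =>
    (ty (S2 A ({a | (l a).1} ∩ cone u) ({a | (l a).2.1} ∩ cone u) ({a | (l a).2.2} ∩ cone u))
      ({a | (l a).1} ∩ cone u) u g2, (l u).1)
  have inv : ∀ l u c v, Hd u v → τ (gr l u c v) u = τ c v := by
    intro l u c v k
    have e : ∀ (f : Prop × Prop × Prop → Prop) a, a * (v⁻¹ * u) ∈ {a | f (gr l u c v a)} ∩ cone u ↔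
        a ∈ {a | f (c a)} ∩ cone v := fun f a => by
      rw [← mul_assoc]
      constructor
      · rintro ⟨h1, h2⟩
        have := cone_tr k.eq.symm h2
        simp only [Set.mem_ofPred_eq, gr, if_pos h2] at h1
        exact ⟨by simpa using h1, by simpa using this⟩
      · rintro ⟨h1, h2⟩
        have := cone_tr k.eq h2
        exact ⟨by simpa [gr, if_pos this] using h1, this⟩
    refine Prod.ext ?_ (by simp [τ, gr, cone_self])
    have := ty_equiv (Equiv.mulRight (v⁻¹ * u)) (r := S2 A ({a | (c a).1} ∩ cone v)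
      ({a | (c a).2.1} ∩ cone v) ({a | (c a).2.2} ∩ cone v))
      (r' := S2 A ({a | (gr l u c v a).1} ∩ cone u) ({a | (gr l u c v a).2.1} ∩ cone u)
        ({a | (gr l u c v a).2.2} ∩ cone u)) (fun x y => by
        simp only [S2, Equiv.coe_mulRight, e (·.1), e (·.2.1), e (·.2.2), ← mul_assoc (mk _),
          mul_left_inj]) (e (·.1)) v g2
    simpa using this
  refine ⟨_, inferInstance, τ, ?_, inv, fun l u c v k e h => ?_⟩
  · rw [Nat.card_prod, card_ty2]; simp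
  have e' := e.trans (inv l u c v k).symm
  have out : ∀ a, a ∉ cone u → gr l u c v a = l a := fun a h => if_neg h
  have hO : Ot {a | (l a).1} u = Ot {a | (gr l u c v a).1} u := by
    ext a
    by_cases h : a ∈ cone u
    · simp only [Ot, Set.mem_ofPred_eq, h, not_true, false_or]
      exact and_congr_left fun h => by rw [h]; exact iff_of_eq (congrArg Prod.snd e')
    · simp [Ot, out a h]
  have hm : ∀ f : Prop × Prop × Prop → Prop,
      {a | f (l a)} \ cone u = {a | f (gr l u c v a)} \ cone u := fun f => by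
    ext a
    exact and_congr_left fun h => by simp [out a h]
  refine ⟨by rw [out 1 k.one]; exact h.1, ?_⟩
  have o1 : 1 ∈ Ot {a | (l a).1} u := ⟨h.1, Or.inl k.one⟩
  have h2 := h.2
  rw [S2_split A _ _ _ u] at h2 ⊢
  rw [← hO, ← hm (·.2.1), ← hm (·.2.2)]
  have := glue (O := Ot {a | (l a).1} u) (e := (1, .inr true)) (s := (1, .inr false))
    (a := S2 A (Ot {a | (l a).1} u) ({a | (l a).2.1} \ cone u) ({a | (l a).2.2} \ cone u))
    (fun x y k => ⟨k.1, k.2.1⟩) (fun x y k => ⟨k.1, k.2.1⟩)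
    (fun v hv hv' => hv.2.resolve_left (not_not.2 hv'.2)) (congrArg Prod.fst e') o1 o1
    (by rwa [Ot_union])
  rwa [hO, Ot_union, ← hO] at this

theorem conn (T m e : Set (FreeGroup X)) (b : Bool) (z : FreeGroup X) (w : List (X × Bool))
    (h : ∀ g ∈ V w, g * z ∈ T) {g : FreeGroup X} (hg : g ∈ V w) :
    R (S2 A T m e) (mk w * z, .inr b) (g * z, .inr b) ∧
      R (S2 A T m e) (g * z, .inr b) (mk w * z, .inr b) := by
  induction w with
  | nil =>
    obtain rfl : g = 1 := by simpa [V] using hg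
    exact ⟨.refl, .refl⟩
  | cons x w ih =>
    rcases Finset.mem_insert.1 hg with rfl | hg
    · exact ⟨.refl, .refl⟩
    have i := ih (fun g hg => h g (Finset.mem_insert_of_mem hg)) hg
    have m1 := h _ (mk_mem _)
    have m2 := h _ (Finset.mem_insert_of_mem (mk_mem w))
    have e : mk [(x.1, !x.2)] = (mk [x])⁻¹ := by rw [inv_mk]; rfl
    exact ⟨ReflTransGen.head (b := (mk w * z, .inr b))
      (by exact ⟨m1, m2, Or.inl ⟨x, by rw [mk_cons x w, mul_assoc], rfl⟩⟩) i.1,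
      i.2.tail ⟨m2, m1, Or.inl ⟨(x.1, !x.2), by
        rw [e, mk_cons x w, mul_assoc, inv_mul_cancel_left], rfl⟩⟩⟩

def Mem2 (T : Set (FreeGroup X)) (s e : FreeGroup X) : Prop :=
  ∃ w f, A.F f ∧ Run A.d A.s w f ∧ (∀ a, a ∈ T ↔ a * e⁻¹ ∈ V w) ∧ s = mk w * e

def io (e : FreeGroup X) (x : FreeGroup X × Option Q) : FreeGroup X × (Q ⊕ Bool) :=
  (x.1 * e, x.2.elim (.inr false) .inl)

def ka (e : FreeGroup X) (x : FreeGroup X × (Q ⊕ Bool)) : FreeGroup X × Option Q :=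
  (x.1 * e⁻¹, x.2.getLeft?)

omit [DecidableEq X] in
theorem ka_R {T : Set (FreeGroup X)} {s e : FreeGroup X} {x y : FreeGroup X × (Q ⊕ Bool)}
    (h : R (S2 A T {s} {e}) x y) (hy : y.2 ≠ .inr true) :
    R (St A {a | a * e ∈ T} {s * e⁻¹}) (ka e x) (ka e y) := by
  induction h with
  | refl => exact .refl
  | @tail y z _ k ih =>
    obtain ⟨y1, y2⟩ := y
    obtain ⟨z1, z2⟩ := z
    obtain ⟨k1, k2, ⟨x, k3, k4⟩ | ⟨k3, ⟨k4, k5, k6⟩ | ⟨_, k5, _⟩⟩⟩ := k
    · refine (ih ?_).tail ⟨by simpa [ka] using k1, by simpa [ka] using k2,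
        Or.inl ⟨x, by simp only [ka, ← mul_assoc]; exact congrArg (· * _) k3, ?_⟩⟩
      · rintro rfl
        rcases z2 with q | c
        · exact k4
        · exact hy (congrArg _ (Eq.symm k4))
      · rcases y2 with p | b <;> rcases z2 with q | c <;> first | exact k4 | trivial
    · refine (ih (by rw [k5]; simp)).tail ⟨by simpa [ka] using k1, by simpa [ka] using k2,
        Or.inr ⟨congrArg (· * _) k3, congrArg (· * _) k4, ?_, ?_⟩⟩
      · exact congrArg Sum.getLeft? k5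
      · exact congrArg Sum.getLeft? k6
    · exact absurd k5 hy

omit [DecidableEq X] in
theorem post_R {T : Set (FreeGroup X)} {s e : FreeGroup X} {x y : FreeGroup X × (Q ⊕ Bool)}
    (h : R (S2 A T {s} {e}) x y) (hy : y.2 = .inr true) :
    x.2 = .inr true ∨ ∃ f, A.F f ∧ e ∈ T ∧ R (S2 A T {s} {e}) x (e, .inl f) := by
  induction h with
  | refl => exact Or.inl hy
  | @tail y z k0 k ih =>
    obtain ⟨y1, y2⟩ := y
    obtain ⟨z1, z2⟩ := z
    obtain rfl : z2 = _ := hy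
    obtain ⟨k1, k2, ⟨x, k3, k4⟩ | ⟨k3, ⟨k4, k5, k6⟩ | ⟨k4, _, f, k5, k6⟩⟩⟩ := k
    · rcases y2 with p | b
      · exact k4.elim
      · exact ih (congrArg _ k4)
    · simp at k6
    · obtain rfl : y1 = e := k4
      obtain rfl : y2 = _ := k6
      exact Or.inr ⟨f, k5, k1, k0⟩

theorem acc2_iff [Finite Q] {T : Set (FreeGroup X)} (hT : T.Finite) (h1 : 1 ∈ T)
    (s e : FreeGroup X) :
    Acc (S2 A T {s} {e}) T g2 (1, .inr false) (1, .inr true) ↔ Mem2 A T s e := by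
  constructor
  · rintro ⟨S, ⟨c1, c2⟩, k⟩
    have hS : S.Finite := (hT.prod (Set.finite_univ (α := Q ⊕ Bool))).subset
      fun x hx => ⟨(c2 x hx).1, trivial⟩
    obtain ⟨q, hq⟩ := c1 1 h1
    obtain ⟨z, hz, hz'⟩ := ex_min (r := Function.swap (S2 A T {s} {e})) hS.toFinset
      ⟨_, hS.mem_toFinset.2 hq⟩ fun x hx y hy => by
        simp only [reflTransGen_swap]
        exact ((k x (hS.mem_toFinset.1 hx)).2.2 y (hS.mem_toFinset.1 hy)).symm
    simp only [reflTransGen_swap, Set.Finite.mem_toFinset] at hz hz'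
    have ng : ∀ x ∈ S, x.2 ≠ .inr true := fun x hx e => by
      obtain ⟨p, hp⟩ := (c2 x hx).2
      simp [hp] at e
    have gg : ∀ x ∈ S, gd (ka e x).2 := fun x hx => by
      obtain ⟨p, hp⟩ := (c2 x hx).2
      simp [hp, gd, ka]
    obtain ⟨f, hf, he, hz2⟩ := (post_R A (k z hz).2.1 rfl).resolve_left (ng z hz)
    have t : ∀ x ∈ S, s * e⁻¹ ∈ {a | a * e ∈ T} ∧
        R (St A {a | a * e ∈ T} {s * e⁻¹}) (s * e⁻¹, some A.s) (ka e x) := fun x hx =>
      (thru A rfl (ka_R A (k x hx).1 (ng x hx))).resolve_left (gg x hx)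
    have t2 : ∀ x ∈ S, R (St A {a | a * e ∈ T} {s * e⁻¹}) (ka e x) (1, some f) := fun x hx => by
      simpa [ka] using ka_R A ((hz' x hx).trans hz2) (by simp)
    classical
    obtain ⟨u, p, q', a1, a2, a3, a4, a5, a6⟩ := pa_chain A _ (hS.toFinset.image (ka e))
      (s * e⁻¹, some A.s) rfl (t _ hq).1 (by simp [gd]) ((t _ hq).2.trans (t2 _ hq)) fun x0 hx0 => by
        obtain ⟨x, hx, rfl⟩ := Finset.mem_image.1 hx0
        have hx := hS.mem_toFinset.1 hx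
        refine ⟨by simpa [ka] using (c2 x hx).1, gg x hx, (t x hx).2, t2 x hx, fun y0 hy0 => ?_⟩
        obtain ⟨y, hy, rfl⟩ := Finset.mem_image.1 hy0
        have hy := hS.mem_toFinset.1 hy
        exact ((k x hx).2.2 y hy).imp (fun h => ka_R A h (ng y hy)) fun h => ka_R A h (ng x hx)
    obtain rfl := Option.some.inj a1
    obtain rfl := Option.some.inj a2
    refine ⟨u, _, hf, a3, fun v => ⟨fun hv => ?_, fun hv => by simpa using a5 _ hv⟩, ?_⟩
    · obtain ⟨q, hq⟩ := c1 v hv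
      simpa using a6 (v * e⁻¹) ⟨_, Finset.mem_image.2 ⟨_, hS.mem_toFinset.2 hq, rfl⟩, rfl⟩
    · simp only [mul_one] at a4
      rw [← a4, inv_mul_cancel_right]
  · rintro ⟨w, f, hf, hr, h2, rfl⟩
    obtain ⟨S, ⟨c1, c2⟩, _, k⟩ := run_chain A (V w) ∅ w _ f (fun g h => h) hr
    have hw : ∀ g ∈ V w, g * e ∈ T := fun g hg => (h2 _).2 (by simpa using hg)
    have lf : ∀ {x y}, R (St A (V w) ∅) x y → R (S2 A T {mk w * e} {e}) (io e x) (io e y) :=
      fun h => h.lift (io e) fun a b h => by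
        obtain ⟨k1, k2, ⟨x, k3, k4⟩ | k3⟩ := h
        · refine ⟨hw _ k1, hw _ k2, Or.inl ⟨x, by simp only [io, k3, mul_assoc], ?_⟩⟩
          obtain ⟨a1, _ | p⟩ := a <;> obtain ⟨b1, _ | q⟩ := b <;> first | exact k4 | rfl
        · exact k3.2.1.elim
    have he : e⁻¹ ∈ V w := by simpa using (h2 1).1 h1
    have p1 : R (S2 A T {mk w * e} {e}) (1, .inr false) (mk w * e, .inl A.s) := by
      have := (conn A T {mk w * e} {e} false e w hw he).2
      rw [inv_mul_cancel] at this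
      exact this.tail ⟨hw _ (mk_mem w), hw _ (mk_mem w), Or.inr ⟨rfl, Or.inl ⟨rfl, rfl, rfl⟩⟩⟩
    have p2 : R (S2 A T {mk w * e} {e}) (1 * e, .inl f) (1, .inr true) := by
      have a := (conn A T {mk w * e} {e} true e w hw he).1
      rw [inv_mul_cancel] at a
      exact ReflTransGen.head (b := (1 * e, .inr true))
        ⟨hw _ (one_mem w), hw _ (one_mem w), Or.inr ⟨rfl, Or.inr ⟨one_mul e, rfl, f, hf, rfl⟩⟩⟩
        ((conn A T {mk w * e} {e} true e w hw (one_mem w)).2.trans a)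
    refine ⟨io e '' S, ⟨fun v hv => ?_, ?_⟩, ?_⟩
    · obtain ⟨q, hq⟩ := c1 _ ((h2 v).1 hv)
      exact ⟨_, _, hq, Prod.ext (by simp [io]) rfl⟩
    · rintro _ ⟨x, hx, rfl⟩
      obtain ⟨p, hp⟩ := Option.ne_none_iff_exists'.1 (c2 x hx).2
      exact ⟨hw _ (c2 x hx).1, p, by simp [io, hp]⟩
    · rintro _ ⟨x, hx, rfl⟩
      refine ⟨p1.trans (lf (k x hx).1), (lf (k x hx).2.1).trans p2, ?_⟩
      rintro _ ⟨y, hy, rfl⟩
      exact ((k x hx).2.2 y hy).imp lf lf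

def W (l : FreeGroup X → Prop × Prop × Prop) : Prop :=
  ∃ s e, (∀ a, (l a).2.1 ↔ a = s) ∧ (∀ a, (l a).2.2 ↔ a = e) ∧ (l 1).1 ∧ Mem2 A {a | (l a).1} s e

def bW (n : ℕ) : ℕ := 2 * (32 * (32 * (cT2 (n + 2) * 2)))

theorem reg_W [Finite Q] : Reg (W A) (bW (Nat.card Q)) := by
  refine ((reg_fin.map fun p : Prop × Prop × Prop => p.1).and ((reg_sing.map fun p => p.2.1).and
    ((reg_sing.map fun p => p.2.2).and (reg_acc A)))).of_eq fun l => ⟨?_, ?_⟩
  · rintro ⟨h1, ⟨s, hs⟩, ⟨e, he⟩, h2, h3⟩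
    rw [show {a | (l a).2.1} = {s} from Set.ext hs, show {a | (l a).2.2} = {e} from Set.ext he,
      acc2_iff A h1 h2] at h3
    exact ⟨s, e, hs, he, h2, h3⟩
  · rintro ⟨s, e, hs, he, h2, h3⟩
    have h1 : {a | (l a).1}.Finite := by
      obtain ⟨w, _, _, _, h, _⟩ := h3
      exact ((V w).finite_toSet.image (· * e)).subset fun a ha => ⟨_, (h a).1 ha, by simp⟩
    refine ⟨h1, ⟨s, hs⟩, ⟨e, he⟩, h2, ?_⟩
    rwa [show {a | (l a).2.1} = {s} from Set.ext hs, show {a | (l a).2.2} = {e} from Set.ext he,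
      acc2_iff A h1 h2]

def U (X : Type) : Aut X Unit := ⟨fun _ _ _ => True, (), fun _ => True⟩

omit [DecidableEq X] in
theorem run_U (w : List (X × Bool)) : Run (U X).d () w () := by
  induction w with
  | nil => rfl
  | cons x w ih => exact ⟨(), trivial, ih⟩

def lab (u : List (X × Bool)) (a : FreeGroup X) : Prop × Prop := (a ∈ V u, a = mk u)

theorem reg_lab : Reg (fun l : FreeGroup X → Prop × Prop => ∃ u, l = lab u) (2 ^ (bW 1 * 1)) := by
  have := reg_W (U X)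
  rw [Nat.card_unique] at this
  refine ((this.map fun p : (Prop × Prop) × Prop => (p.1.1, p.1.2, p.2)).and
    (reg_root.map fun p => p.2)).ex.of_eq fun l => ⟨?_, ?_⟩
  · rintro ⟨m, ⟨s, e, h1, h2, _, w, _, _, _, h4, h5⟩, h6⟩
    obtain rfl := (h2 1).1 h6
    refine ⟨w, funext fun a => Prod.ext (propext ?_) (propext ?_)⟩
    · simpa [lab] using h4 a
    · simpa [lab, h5] using h1 a
  · rintro ⟨u, rfl⟩
    exact ⟨(· = 1), ⟨mk u, 1, fun _ => Iff.rfl, fun _ => Iff.rfl, one_mem u, u, (), trivial,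
      run_U u, by simp [lab], by simp⟩, rfl⟩

def res (u : List (X × Bool)) : Set (List (X × Bool)) := {w | Mem A (V (u ++ w)) (mk (u ++ w))}

theorem W_lab (u w : List (X × Bool)) : W A (fun a => ((lab u a).1 ∨ (lab (invRev w) a).1,
    (lab u a).2, (lab (invRev w) a).2)) ↔ w ∈ res A u := by
  have e : ∀ a, a * mk w ∈ V (u ++ w) ↔ a ∈ V u ∨ a ∈ V (invRev w) := fun a => by
    rw [mem_append, mem_inv, mul_inv_cancel_right]
  constructor
  · rintro ⟨s, z, h1, h2, _, v, f, h3, h4, h5, h6⟩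
    obtain rfl := (h1 _).1 rfl
    obtain rfl := (h2 _).1 rfl
    rw [← inv_mk] at h5 h6
    refine ⟨v, f, h3, h4, Finset.ext fun a => ?_, by rw [← mul_mk, h6, inv_mul_cancel_right]⟩
    have := h5 (a * (mk w)⁻¹)
    rw [inv_inv, inv_mul_cancel_right] at this
    rw [← this, ← inv_mul_cancel_right a (mk w), e, inv_mul_cancel_right]
    rfl
  · rintro ⟨v, f, h3, h4, h5, h6⟩
    refine ⟨_, _, fun _ => Iff.rfl, fun _ => Iff.rfl, Or.inl (one_mem u), v, f, h3, h4,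
      fun a => ?_, ?_⟩
    · rw [← inv_mk, inv_inv, h5, e]; rfl
    · rw [h6, ← inv_mk, ← mul_mk, mul_inv_cancel_right]

theorem lab_inj {u v : List (X × Bool)} (h : lab u = lab v) : V u = V v ∧ mk u = mk v :=
  ⟨Finset.ext fun a => iff_of_eq (congrArg Prod.fst (congrFun h a)),
    (iff_of_eq (congrArg Prod.snd (congrFun h (mk u)))).1 rfl⟩

theorem res_congr {u v : List (X × Bool)} (h : V u = V v) (k : mk u = mk v) :
    res A u = res A v := by
  ext w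
  have : V (u ++ w) = V (v ++ w) := Finset.ext fun a => by rw [mem_append, mem_append, h]
  simp only [res, Set.mem_ofPred_eq, this, ← mul_mk, k]

end Pool.Agent.H24.Munn
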