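import Mathlib
import Pool.Agent.H24.Munn6

set_option autoImplicit false

namespace Pool.Agent.H24.Munn

open FreeGroup Pool.Agent.H24.Glue Relation Pool.Agent.H23

section
variable {X : Type} [DecidableEq X] {Q : Type} (A : Aut X Q)

def Df (l : FreeGroup X → ((Prop × Prop) × Prop × Prop) × Prop × Prop) : Prop :=
  (∃ u, (fun a => (l a).2) = lab u) ∧
    ¬ (W A (fun a => ((l a).1.1.1 ∨ (l a).2.1, (l a).1.1.2, (l a).2.2)) ↔
      W A (fun a => ((l a).1.2.1 ∨ (l a).2.1, (l a).1.2.2, (l a).2.2)))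

def Ep (l : FreeGroup X → (Prop × Prop) × Prop × Prop) : Prop :=
  (∃ u, (fun a => (l a).1) = lab u) ∧ (∃ u, (fun a => (l a).2) = lab u) ∧
    ¬ ∃ m : FreeGroup X → Prop × Prop, Df A fun a => (l a, m a)

def Th (l : FreeGroup X → (Prop × Prop) × Prop) : Prop :=
  (∃ u, (fun a => (l a).1) = lab u) ∧ ∀ m : FreeGroup X → Prop × Prop,
    Ep A (fun a => ((l a).1, m a)) → ∃ a, (l a).2 ∧ (m a).1

def bD (c n : ℕ) : ℕ := c * (bW n * bW n * (bW n * bW n))
def bE (c n : ℕ) : ℕ := c * (c * 2 ^ bD c n)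
def bT (c n : ℕ) : ℕ := c * 2 ^ (bE c n * 2)

variable {c : ℕ} (hc : Reg (fun l : FreeGroup X → Prop × Prop => ∃ u, l = lab u) c)
include hc

theorem reg_Df [Finite Q] : Reg (Df A) (bD c (Nat.card Q)) :=
  (hc.map fun p : ((Prop × Prop) × Prop × Prop) × Prop × Prop => p.2).and
    (((reg_W A).map fun p : ((Prop × Prop) × Prop × Prop) × Prop × Prop =>
      (p.1.1.1 ∨ p.2.1, p.1.1.2, p.2.2)).iff
    ((reg_W A).map fun p : ((Prop × Prop) × Prop × Prop) × Prop × Prop =>
      (p.1.2.1 ∨ p.2.1, p.1.2.2, p.2.2))).not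

theorem reg_Ep [Finite Q] : Reg (Ep A) (bE c (Nat.card Q)) :=
  (hc.map fun p : (Prop × Prop) × Prop × Prop => p.1).and
    ((hc.map fun p : (Prop × Prop) × Prop × Prop => p.2).and (reg_Df A hc).ex.not)

theorem reg_Th [Finite Q] : Reg (Th A) (bT c (Nat.card Q)) :=
  (hc.map fun p : (Prop × Prop) × Prop => p.1).and
    (((reg_Ep A hc).map fun p : ((Prop × Prop) × Prop) × Prop × Prop => (p.1.1, p.2)).imp
      (reg_ne.map fun p : ((Prop × Prop) × Prop) × Prop × Prop => p.1.2 ∧ p.2.1)).all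

omit hc

theorem Df_lab (u v w : List (X × Bool)) :
    Df A (fun a => ((lab u a, lab v a), lab (invRev w) a)) ↔ ¬ (w ∈ res A u ↔ w ∈ res A v) := by
  rw [← W_lab, ← W_lab]
  exact and_iff_right ⟨_, rfl⟩

theorem Ep_lab (u v : List (X × Bool)) :
    Ep A (fun a => (lab u a, lab v a)) ↔ res A u = res A v := by
  refine (and_iff_right ⟨_, rfl⟩).trans ((and_iff_right ⟨_, rfl⟩).trans ⟨fun h => ?_, ?_⟩)
  · ext w
    by_contra k
    exact h ⟨_, (Df_lab A u v w).2 k⟩
  · rintro h ⟨m, hm⟩
    obtain ⟨w, rfl⟩ : ∃ w, m = lab w := hm.1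
    rw [← invRev_invRev (L₁ := w), Df_lab, h] at hm
    exact hm Iff.rfl

theorem V_norm {u : List (X × Bool)} {a : FreeGroup X} (h : a ∈ V u) : a.norm ≤ u.length := by
  obtain ⟨i, _, rfl⟩ := (mem_V u a).1 h
  exact norm_mk_le.trans (by simp)

theorem lab_out {u : List (X × Bool)} {v : FreeGroup X} (h : v ∉ V u) :
    ∀ a ∈ cone v, lab u a = (False, False) := fun a ha => by
  have : a ∉ V u := fun k => h (by simpa [mk_toWord] using suf_mem k ha)
  exact Prod.ext (eq_false this) (eq_false fun e => this (e ▸ mk_mem u))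

include hc

theorem shadow [Finite X] [Finite Q] (hf : (Set.range (res A)).Finite) (u : List (X × Bool))
    (v : FreeGroup X) (hv : bT c (Nat.card Q) * Nat.card (Option (X × Bool)) < v.norm) :
    ∃ u', res A u = res A u' ∧ v ∉ V u' := by
  by_contra h
  have t0 : Th A fun a => (lab u a, a = v) := ⟨⟨u, rfl⟩, fun m hm => by
    obtain ⟨w, rfl⟩ : ∃ w, m = lab w := hm.2.1
    by_contra k
    exact h ⟨w, (Ep_lab A u w).1 hm, fun k' => k ⟨v, rfl, k'⟩⟩⟩
  have t1 : ∀ m : ℕ, ∃ (l : FreeGroup X → Prop × Prop) (v' : FreeGroup X),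
      v.norm + m ≤ v'.norm ∧ Th A fun a => (l a, a = v') := by
    intro m
    induction m with
    | zero => exact ⟨_, v, le_rfl, t0⟩
    | succ m ih =>
      obtain ⟨l, v', h1, h2⟩ := ih
      obtain ⟨l', v'', h3, h4⟩ := (reg_Th A hc).up (by omega) h2
      exact ⟨l', v'', by omega, h4⟩
  have t2 : ∀ r ∈ Set.range (res A), ∃ w, res A w = r := fun r h => h
  choose! g hg using t2
  obtain ⟨L, hL⟩ := (hf.image fun r => (g r).length).bddAbove
  obtain ⟨l, v', h1, h2⟩ := t1 (L + 1)
  obtain ⟨w, rfl⟩ : ∃ w, l = lab w := h2.1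
  obtain ⟨a, rfl, h3⟩ := h2.2 _ ((Ep_lab A w (g (res A w))).2 (hg _ ⟨w, rfl⟩).symm)
  have := (V_norm h3).trans (hL ⟨_, ⟨w, rfl⟩, rfl⟩)
  omega

theorem small_rep [Finite X] [Finite Q] (hf : (Set.range (res A)).Finite) (n : ℕ) :
    ∀ u, (V u).card < n → ∃ u', res A u = res A u' ∧ ∀ a ∈ V u', a.norm ≤
      bT c (Nat.card Q) * Nat.card (Option (X × Bool)) + 1 +
        bE c (Nat.card Q) * Nat.card (Option (X × Bool)) := by
  induction n with
  | zero => intro u h; omega
  | succ n ih =>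
    intro u hu
    by_contra h
    push Not at h
    obtain ⟨b, hb, hb'⟩ := h u rfl
    have n1 := anc_norm b (bT c (Nat.card Q) * Nat.card (Option (X × Bool)) + 1) (by omega)
    obtain ⟨u2, h1, h2⟩ := shadow A hc hf u _ (by rw [n1]; omega)
    obtain ⟨T, m, h3, h4⟩ := (reg_Ep A hc).down hb (anc_cone b _) (lab_out h2) (by omega)
      ((Ep_lab A u2 u).2 h1.symm)
    obtain ⟨w, hw⟩ := h4.2.1
    have e : T = V w := Finset.ext fun a => iff_of_eq (congrArg Prod.fst (congrFun hw a))
    have e2 : (fun a => (lab u2 a, a ∈ T, m a)) = fun a => (lab u2 a, lab w a) :=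
      funext fun a => congrArg _ (congrFun hw a)
    rw [e2, Ep_lab] at h4
    obtain ⟨u', k1, k2⟩ := ih w (by rw [← e]; omega)
    obtain ⟨a, k3, k4⟩ := h u' (h1.trans (h4.trans k1))
    exact absurd (k2 a k3) (not_le.2 k4)

theorem small_dis [Finite X] [Finite Q] (u v : List (X × Bool)) (n : ℕ) :
    ∀ w, (V (invRev w)).card < n → ¬ (w ∈ res A u ↔ w ∈ res A v) →
      ∃ w', ¬ (w' ∈ res A u ↔ w' ∈ res A v) ∧ ∀ a ∈ V (invRev w'), a.norm ≤
      u.length + v.length + 1 + bD c (Nat.card Q) * Nat.card (Option (X × Bool)) := by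
  induction n with
  | zero => intro u h; omega
  | succ n ih =>
    intro w hw hd
    by_contra h
    push Not at h
    obtain ⟨b, hb, hb'⟩ := h w (by tauto)
    have n1 := anc_norm b (u.length + v.length + 1) (by omega)
    obtain ⟨T, m, h3, h4⟩ := (reg_Df A hc).down (l := fun a => (lab u a, lab v a))
      (s0 := ((False, False), (False, False))) hb (anc_cone b (u.length + v.length + 1)) (fun a ha => by
        rw [lab_out (fun k => by have := V_norm k; omega) a ha,
          lab_out (fun k => by have := V_norm k; omega) a ha]) (by omega) ((Df_lab A u v w).2 hd)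
    obtain ⟨w', hw'⟩ := h4.1
    rw [← invRev_invRev (L₁ := w')] at hw'
    have e : T = V (invRev (invRev w')) :=
      Finset.ext fun a => iff_of_eq (congrArg Prod.fst (congrFun hw' a))
    have e2 : (fun a => ((lab u a, lab v a), a ∈ T, m a)) =
        fun a => ((lab u a, lab v a), lab (invRev (invRev w')) a) :=
      funext fun a => congrArg _ (congrFun hw' a)
    rw [e2, Df_lab] at h4
    obtain ⟨u', k1, k2⟩ := ih _ (by rw [← e]; omega) h4
    obtain ⟨a, k3, k4⟩ := h u' (by tauto)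
    exact absurd (k2 a k3) (not_le.2 k4)

end

variable {k : ℕ}

theorem short (u : List (La k)) {N : ℕ} (h : ∀ a ∈ V u, a.norm ≤ N) :
    ∃ u', V u' = V u ∧ mk u' = mk u ∧ u'.length ≤ bd (allW k N).length 1 := by
  obtain ⟨u', _, b2, b3, b4⟩ := pump (U (Fin k)) _ u () (Nat.lt_succ_self _) (run_U u)
  have c1 : (V u).card ≤ (allW k N).length := by
    refine le_trans ?_ (List.toFinset_card_le _)
    exact Finset.card_le_card_of_injOn toWord
      (fun a ha => List.mem_toFinset.2 (mem_allW _ _ (h a ha))) toWord_injective.injOn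
  rw [Fintype.card_unit] at b4
  exact ⟨u', b2, b3, b4.trans (bd_mono _ c1)⟩

theorem allW_len (n : ℕ) (w : List (La k)) (h : w ∈ allW k n) : w.length ≤ n := by
  induction n generalizing w with
  | zero => simp [allW] at h; simp [h]
  | succ n ih =>
    rcases List.mem_cons.1 h with rfl | h
    · simp
    · obtain ⟨v, h1, h2⟩ := List.mem_flatMap.1 h
      obtain ⟨i, _, h3⟩ := List.mem_flatMap.1 h2
      have := ih v h1
      simp only [List.mem_cons, List.not_mem_nil, or_false] at h3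
      rcases h3 with rfl | rfl <;> simpa using this

def b1 (c k n : ℕ) : ℕ := bd (allW k (bT c n * (k * 2 + 1) + 1 + bE c n * (k * 2 + 1))).length 1
def b2 (c k n m : ℕ) : ℕ := bd (allW k (m + 1 + bD c n * (k * 2 + 1))).length 1

theorem fin_iff {n c : ℕ} (A : Aut (Fin k) (Fin n))
    (hc : Reg (fun l : FreeGroup (Fin k) → Prop × Prop => ∃ u, l = lab u) c) :
    (Set.range (res A)).Finite ↔ ∀ u ∈ allW k (b1 c k n + 1), ∃ v ∈ allW k (b1 c k n),
      ∀ w ∈ allW k (b2 c k n (u.length + v.length)), (w ∈ res A u ↔ w ∈ res A v) := by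
  have e1 : Nat.card (Option (Fin k × Bool)) = k * 2 + 1 := by simp
  constructor
  · intro h u _
    obtain ⟨u1, h1, h2⟩ := small_rep A hc h _ u (Nat.lt_succ_self _)
    rw [e1, Nat.card_fin] at h2
    obtain ⟨u2, h3, h4, h5⟩ := short u1 h2
    exact ⟨u2, mem_allW _ _ h5, fun w _ => by rw [h1, res_congr A h3 h4]⟩
  · intro h
    have h' : ∀ u ∈ allW k (b1 c k n + 1), ∃ v ∈ allW k (b1 c k n), res A u = res A v := by
      intro u hu
      obtain ⟨v, h1, h2⟩ := h u hu
      refine ⟨v, h1, Set.ext fun w => ?_⟩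
      by_contra k0
      obtain ⟨w1, k1, k2⟩ := small_dis A hc u v _ w (Nat.lt_succ_self _) k0
      rw [e1, Nat.card_fin] at k2
      obtain ⟨w2, k3, k4, k5⟩ := short _ k2
      have k6 : mk (invRev w2) = mk w1 := by rw [← inv_mk, k4, ← inv_mk, inv_inv]
      have k7 : V (invRev w2) = V w1 := Finset.ext fun a => by
        rw [mem_inv, k3, k4, mem_inv, ← inv_mk, inv_mul_cancel_right]
      have k8 : ∀ u, V (u ++ invRev w2) = V (u ++ w1) := fun u => Finset.ext fun a => by
        rw [mem_append, mem_append, k6, k7]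
      have := h2 (invRev w2) (mem_allW _ _ (by simpa [b2] using k5))
      simp only [res, Set.mem_ofPred_eq, k8, ← mul_mk, k6] at this k1
      exact k1 this
    refine ((List.finite_toSet (allW k (b1 c k n))).image (res A)).subset ?_
    rintro _ ⟨u, rfl⟩
    induction u using List.reverseRecOn with
    | nil => exact ⟨[], mem_allW _ _ (Nat.zero_le _), rfl⟩
    | append_singleton u x ih =>
      obtain ⟨v, h1, h2⟩ := ih
      obtain ⟨v', h3, h4⟩ := h' (v ++ [x]) (mem_allW _ _ (by simpa using allW_len _ _ h1))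
      refine ⟨v', h3, h4.symm.trans (Set.ext fun w => ?_)⟩
      have := Set.ext_iff.1 h2 (x :: w)
      simpa [res] using this

theorem shorten {Γ C : Type} (P : List Γ → Prop) (κ : List Γ → ℕ → C) (S : Finset C)
    (h1 : ∀ l, P l → ∀ i, κ l i ∈ S)
    (h2 : ∀ l i j, i < j → j ≤ l.length → P l → κ l i = κ l j → P (l.take i ++ l.drop j)) (n : ℕ) :
    ∀ l, l.length < n → P l → ∃ l', P l' ∧ l'.length ≤ S.card := by
  induction n with
  | zero => intro l h; omega
  | succ n ih =>
    intro l hl hp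
    by_cases h : l.length ≤ S.card
    · exact ⟨l, hp, h⟩
    obtain ⟨i, hi, j, hj, hij, e⟩ := Finset.exists_ne_map_eq_of_card_lt_of_maps_to
      (s := Finset.range (l.length + 1)) (t := S) (f := κ l) (by simp; omega) fun i _ => h1 l hp i
    simp only [Finset.mem_range] at hi hj
    rcases lt_or_gt_of_ne hij with k | k
    · exact ih _ (by simp; omega) (h2 l i j k (by omega) hp e)
    · exact ih _ (by simp; omega) (h2 l j i k (by omega) hp e.symm)

end Pool.Agent.H24.Munn
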