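import Mathlib
import Pool.Agent.H24.Munn7

set_option autoImplicit false

namespace Pool.Agent.H24.Munn

open FreeGroup FreeMonoid Pool.Agent.H24.SpInv

variable {X Z : Type} [DecidableEq X] [DecidableEq Z]

def Ev (u v : List (X × Bool)) : Prop := V u = V v ∧ mk u = mk v

theorem Ev.rfl {u : List (X × Bool)} : Ev u u := ⟨_root_.rfl, _root_.rfl⟩
theorem Ev.symm {u v : List (X × Bool)} (h : Ev u v) : Ev v u := ⟨h.1.symm, h.2.symm⟩
theorem Ev.trans {u v w : List (X × Bool)} (h : Ev u v) (k : Ev v w) : Ev u w :=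
  ⟨h.1.trans k.1, h.2.trans k.2⟩
theorem Ev.append {u v u' v' : List (X × Bool)} (h : Ev u v) (k : Ev u' v') :
    Ev (u ++ u') (v ++ v') :=
  ⟨Finset.ext fun g => by simp only [mem_append, h.1, k.1, k.2], by
    simp only [← mul_mk, h.2, k.2]⟩
theorem Ev.inv {u v : List (X × Bool)} (h : Ev u v) : Ev (invRev u) (invRev v) :=
  ⟨Finset.ext fun g => by simp only [mem_inv, h.1, h.2], by simp only [← inv_mk, h.2]⟩

theorem mk_one_ne (x : X × Bool) : mk [x] ≠ 1 := fun h => by
  simpa using congrArg toWord h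

theorem Ev.nil {u : List (X × Bool)} (h : Ev u []) : u = [] := by
  cases u with
  | nil => rfl
  | cons x u =>
    have h1 : mk u = 1 := by
      have : mk u ∈ V (x :: u) := Finset.mem_insert_of_mem (mk_mem u)
      rw [h.1] at this
      simpa [V] using this
    have h2 := h.2
    rw [mk_cons, h1, mul_one] at h2
    exact absurd h2 (mk_one_ne x)

def ps (β : Z → List (X × Bool)) (y : Z × Bool) : List (X × Bool) :=
  cond y.2 (β y.1) (invRev (β y.1))
def pw (β : Z → List (X × Bool)) (w : List (Z × Bool)) : List (X × Bool) := w.flatMap (ps β)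

variable (β : Z → List (X × Bool))

omit [DecidableEq X] [DecidableEq Z] in
theorem pw_append (u v : List (Z × Bool)) : pw β (u ++ v) = pw β u ++ pw β v := List.flatMap_append
omit [DecidableEq X] [DecidableEq Z] in
theorem pw_cons (x : Z × Bool) (v : List (Z × Bool)) : pw β (x :: v) = ps β x ++ pw β v := rfl
omit [DecidableEq X] [DecidableEq Z] in
theorem pw_one (x : Z × Bool) : pw β [x] = ps β x := by simp [pw]
omit [DecidableEq X] [DecidableEq Z] in
theorem ps_inv (x : Z × Bool) : ps β (x.1, !x.2) = invRev (ps β x) := by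
  obtain ⟨z, _ | _⟩ := x <;> simp [ps]
omit [DecidableEq X] [DecidableEq Z] in
theorem pw_inv (w : List (Z × Bool)) : pw β (invRev w) = invRev (pw β w) := by
  induction w with
  | nil => rfl
  | cons x w ih =>
    rw [invRev_cons, pw_append, ih, pw_cons, invRev_append]
    exact congrArg _ ((pw_one β _).trans (ps_inv β x))

theorem Ev.pw {u v : List (Z × Bool)} (h : Ev u v) : Ev (pw β u) (pw β v) := by
  let c : Con (FreeMonoid (Z × Bool)) :=
    { r := fun u v => Ev (Munn.pw β (toList u)) (Munn.pw β (toList v))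
      iseqv := ⟨fun _ => .rfl, .symm, .trans⟩
      mul' := fun h k => by simp only [toList_mul, pw_append]; exact h.append k }
  have : ic ([] : List (List (Z × Bool))) ≤ c := by
    refine Con.conGen_le.2 fun a b h => ?_
    rcases h with ⟨u, e1, e2⟩ | ⟨u, v, e1, e2⟩ | ⟨r, hr, _⟩
    · rw [e1, e2]
      show Ev _ _
      simp only [toList_ofList, pw_append, pw_inv]
      exact (munn _ _).1 (ConGen.Rel.of _ _ (Or.inl ⟨_, _root_.rfl, _root_.rfl⟩))
    · rw [e1, e2]
      show Ev _ _
      simp only [toList_ofList, pw_append, pw_inv]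
      exact (munn _ _).1 (ConGen.Rel.of _ _ (Or.inr (Or.inl ⟨_, _, _root_.rfl, _root_.rfl⟩)))
    · simp at hr
  exact this ((munn _ _).2 h)

theorem pw_red (w : List (Z × Bool)) : mk (pw β (mk w).toWord) = mk (pw β w) := by
  induction w with
  | nil => rfl
  | cons x w ih =>
    rw [mk_cons, pw_cons, ← mul_mk, ← ih]
    rcases step2 x (mk w) with h | h
    · rw [h, pw_cons, mul_mk]
    · rw [h, pw_cons, ← mul_mk, ← mul_assoc, ps_inv, ← inv_mk, mul_inv_cancel, one_mul]

theorem cover (v : List (Z × Bool)) (g : FreeGroup X) (h : g ∈ V (pw β v)) :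
    ∃ a ∈ V v, g ∈ V (pw β a.toWord) := by
  induction v with
  | nil => exact ⟨1, one_mem _, h⟩
  | cons x v ih =>
    rw [pw_cons, mem_append] at h
    rcases h with h | h
    · rcases step2 x (mk v) with e | e
      · refine ⟨_, mk_mem _, ?_⟩
        rw [mk_cons, e, pw_cons, mem_append, pw_red]
        exact Or.inl h
      · refine ⟨_, Finset.mem_insert_of_mem (mk_mem v), ?_⟩
        rw [e, pw_cons, mem_append, ← mk_cons, pw_red, ps_inv, mem_inv, pw_cons, ← mul_mk]
        left; simpa [mul_assoc, -inv_mk, -mul_mk] using h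
    · exact (ih h).imp fun a k => ⟨Finset.mem_insert_of_mem k.1, k.2⟩

def Crit : Prop := ∀ y, ∃ g ∈ V (ps β y), ∀ w, IsReduced w → w.getLast? ≠ some y → g ∉ V (pw β w)

theorem suf_sub (u v : List (X × Bool)) : V v ⊆ V (u ++ v) := fun _ h =>
  (mem_append _ _ _).2 (Or.inr h)

theorem mem_shift {s v : List (X × Bool)} (h : V s ⊆ V v) (g : FreeGroup X) :
    g ∈ V (v ++ invRev s) ↔ g * mk s ∈ V v := by
  rw [mem_append, mem_inv, ← inv_mk, inv_inv]
  exact or_iff_left_of_imp fun k => h k

theorem crit_sub (hc : Crit β) (u v : List (Z × Bool)) (h : V (pw β u) ⊆ V (pw β v)) :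
    V u ⊆ V v := by
  induction u with
  | nil => simp [V, one_mem]
  | cons y t ih =>
    have h1 := ih ((suf_sub _ _).trans h)
    refine Finset.insert_subset ?_ h1
    obtain ⟨g, g1, g2⟩ := hc y
    obtain ⟨i, _, hi⟩ := (mem_V _ _).1 (h1 (mk_mem t))
    have s1 : V (v.drop i) ⊆ V v := by
      conv_rhs => rw [← List.take_append_drop i v]
      exact suf_sub _ _
    have s2 : V (pw β (v.drop i)) ⊆ V (pw β v) := by
      conv_rhs => rw [← List.take_append_drop i v, pw_append]
      exact suf_sub _ _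
    obtain ⟨a, a1, a2⟩ := cover β (v ++ invRev (v.drop i)) g (by
      rw [pw_append, pw_inv, mem_shift s2, ← pw_red, hi, pw_red]
      refine h ?_
      rw [pw_cons, mem_append, mul_inv_cancel_right]
      exact Or.inl g1)
    by_contra k
    refine g2 _ isReduced_toWord (fun e => k ?_) a2
    have := suf_mem a1 (s := [y]) (List.singleton_suffix_iff_getLast?_eq_some.2 e)
    rwa [mem_shift s1, hi, ← mk_cons] at this

theorem crit_inj (hc : Crit β) (u v : List (Z × Bool)) (h : Ev (pw β u) (pw β v)) : Ev u v := by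
  have k : ∀ u v, Ev (pw β u) (pw β v) → V u = V v := fun u v h =>
    (crit_sub β hc u v h.1.le).antisymm (crit_sub β hc v u h.1.ge)
  refine ⟨k u v h, ?_⟩
  have k2 := k (invRev u) (invRev v) (by rw [pw_inv, pw_inv]; exact h.inv)
  have k3 : ∀ n : ℕ, ((mk u)⁻¹ * mk v) ^ n ∈ V v := fun n => by
    induction n with
    | zero => exact one_mem v
    | succ n ih =>
      rw [pow_succ, ← mul_assoc, ← mem_inv, ← k2, mem_inv, inv_mul_cancel_right, k u v h]
      exact ih
  by_contra e
  have : IsOfFinOrder ((mk u)⁻¹ * mk v) := finite_powers.1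
    ((V v).finite_toSet.subset (by rintro _ ⟨n, rfl⟩; exact k3 n))
  exact e (inv_mul_eq_one.1 (isOfFinOrder_iff_eq_one _ |>.1 this))

theorem inj_crit (hi : ∀ u v, Ev (pw β u) (pw β v) → Ev u v) : Crit β := by
  intro y
  by_contra h
  push Not at h
  have k : ∀ G : Finset (FreeGroup X), G ⊆ V (ps β y) → ∃ e, mk e = 1 ∧ mk (pw β e) = 1 ∧
      G ⊆ V (pw β e) ∧ mk [y] ∉ V e := by
    intro G
    induction G using Finset.induction_on with
    | empty => exact fun _ => ⟨[], rfl, rfl, by simp, by simpa [V] using mk_one_ne y⟩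
    | insert g G _ ih =>
      intro hG
      obtain ⟨e, a1, a2, a3, a4⟩ := ih ((Finset.subset_insert _ _).trans hG)
      obtain ⟨w, b1, b2, b3⟩ := h g (hG (Finset.mem_insert_self _ _))
      have c : ∀ {Y : Type} [DecidableEq Y] (e w : List (Y × Bool)) g,
          g ∈ V (e ++ (invRev w ++ w)) ↔ g ∈ V e ∨ g ∈ V w := fun e w g => by
        simp [mem_append, mem_inv, ← mul_mk, ← inv_mk]
      refine ⟨e ++ (invRev w ++ w), by simp [← mul_mk, ← inv_mk, a1], by
        simp [pw_append, pw_inv, ← mul_mk, ← inv_mk, a2], fun x hx => ?_, ?_⟩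
      · rw [pw_append, pw_append, pw_inv, c]
        exact (Finset.mem_insert.1 hx).elim (fun e => Or.inr (e ▸ b3)) fun k => Or.inl (a3 k)
      · rw [c]
        refine fun k => k.elim a4 fun k => b2 ?_
        obtain ⟨i, _, hi⟩ := (mem_V _ _).1 k
        have := congrArg toWord hi
        rw [toWord_mk, toWord_mk, IsReduced.reduce_eq (List.IsChain.drop b1 i)] at this
        exact List.singleton_suffix_iff_getLast?_eq_some.1
          ((show w.drop i = [y] from this) ▸ List.drop_suffix i w)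
  obtain ⟨e, a1, a2, a3, a4⟩ := k _ subset_rfl
  have := hi (invRev [y] ++ [y] ++ e) e ⟨Finset.ext fun g => ?_, ?_⟩
  · refine a4 (this.1 ▸ ?_)
    rw [mem_append, a1, inv_one, mul_one]
    exact Or.inl (suf_sub _ _ (mk_mem _))
  · rw [pw_append, pw_append, pw_inv, pw_one, mem_append, a2, inv_one, mul_one, mem_append, mem_inv,
      inv_mul_cancel_right, or_self]
    exact or_iff_right_of_imp fun k => a3 k
  · simp only [pw_append, pw_inv, ← mul_mk, ← inv_mk, inv_mul_cancel, one_mul]

theorem ev_gen {u v : List (Z × Bool)} {y : Z × Bool} (h : Ev (u ++ v) [y]) :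
    Ev u [y] ∨ Ev v [y] := by
  have e : ∀ w : List (Z × Bool), V w ⊆ V [y] → mk w = mk [y] → Ev w [y] := fun w a b =>
    ⟨a.antisymm (Finset.insert_subset (b ▸ mk_mem w) (by simp [V, one_mem])), b⟩
  have h1 : V v ⊆ V [y] := h.1 ▸ suf_sub u v
  rcases Finset.mem_insert.1 (h1 (mk_mem v)) with k | k
  · exact Or.inr (e v h1 k)
  · have k : mk v = 1 := by simpa [V] using k
    refine Or.inl (e u (fun g hg => h.1 ▸ (mem_append _ _ _).2 (Or.inl (by simpa [k] using hg))) ?_)
    rw [← h.2, ← mul_mk, k, mul_one]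

theorem ev_inv {a b : List (X × Bool)} (h : Ev (a ++ b ++ a) a) (k : Ev (b ++ a ++ b) b) :
    Ev b (invRev a) := by
  have e : mk b = (mk a)⁻¹ := by
    have := h.2
    rw [← mul_mk, ← mul_mk, mul_eq_right] at this
    exact eq_inv_of_mul_eq_one_right this
  refine ⟨Finset.ext fun g => ?_, by rw [e, inv_mk]⟩
  rw [mem_inv]
  constructor
  · intro hg
    rw [← h.1, mem_append, mul_inv_cancel_right]
    exact Or.inl (suf_sub _ _ hg)
  · intro hg
    rw [← k.1, mem_append, e, inv_inv]
    exact Or.inl (suf_sub _ _ hg)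

theorem ev_www (w : List (X × Bool)) : Ev (w ++ invRev w ++ w) w :=
  (munn _ _).1 (ConGen.Rel.of _ _ (Or.inl ⟨_, rfl, rfl⟩))

open Pointwise

def Mz (w : List (X × Bool)) : Set (FreeGroup X) × FreeGroup X :=
  (Set.range fun i : ℕ => mk (w.take i), mk w)

theorem mem_Mz (w : List (X × Bool)) (g : FreeGroup X) : g ∈ (Mz w).1 ↔ g⁻¹ * mk w ∈ V w := by
  have e : ∀ i, mk (w.drop i) = g⁻¹ * mk w ↔ mk (w.take i) = g := fun i => by
    rw [eq_inv_mul_iff_mul_eq]
    conv_lhs => rhs; rw [← List.take_append_drop i w, ← mul_mk]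
    rw [mul_left_inj, eq_comm]
  simp only [mem_V, e]
  refine ⟨fun ⟨i, h⟩ => ?_, fun ⟨i, _, h⟩ => ⟨i, h⟩⟩
  exact ⟨min i w.length, by omega, by rw [← h, ← List.take_take, List.take_length]⟩

theorem Mz_eq {u v : List (X × Bool)} : Mz u = Mz v ↔ Ev u v := by
  rw [Prod.ext_iff, Ev]
  refine and_congr_left fun (h : mk u = mk v) => ?_
  simp only [Set.ext_iff, mem_Mz, Finset.ext_iff, h]
  refine ⟨fun k a => ?_, fun k a => k _⟩
  simpa [-inv_mk] using k (mk v * a⁻¹)

theorem Mz_append (u v : List (X × Bool)) :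
    ((Mz u).1 ∪ (Mz u).2 • (Mz v).1, (Mz u).2 * (Mz v).2) = Mz (u ++ v) := by
  refine Prod.ext (Set.ext fun g => ?_) mul_mk
  rw [mem_Mz, mem_append, Set.mem_union, Set.mem_smul_set_iff_inv_smul_mem, mem_Mz, mem_Mz,
    ← mul_mk]
  simp [Mz, mul_assoc, -inv_mk, -mul_mk]

theorem Mz_inv (u : List (X × Bool)) : ((Mz u).2⁻¹ • (Mz u).1, (Mz u).2⁻¹) = Mz (invRev u) := by
  refine Prod.ext (Set.ext fun g => ?_) inv_mk
  rw [mem_Mz, mem_inv, Set.mem_smul_set_iff_inv_smul_mem, mem_Mz, ← inv_mk]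
  simp [Mz, mul_assoc, -inv_mk, -mul_mk]

end Pool.Agent.H24.Munn
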