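import Mathlib
import Pool.Agent.H24.Munn9

set_option autoImplicit false

namespace Pool.Agent.H24.Munn

open FreeGroup Pointwise Pool.Agent.H23

section
variable {X : Type} [DecidableEq X]

def Fr (Z : Type) : Set (Set (FreeGroup Z) × FreeGroup Z) := {p | ∃ w, w ≠ [] ∧ p = Mz w}

def Cl (gens : List (List (X × Bool))) : Set (Set (FreeGroup X) × FreeGroup X) :=
  {q | ∀ T : Set (Set (FreeGroup X) × FreeGroup X), (∀ w ∈ gens, Mz w ∈ T) →
    (∀ x ∈ T, ∀ y ∈ T, (x.1 ∪ x.2 • y.1, x.2 * y.2) ∈ T) →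
    (∀ x ∈ T, (x.2⁻¹ • x.1, x.2⁻¹) ∈ T) → q ∈ T}

def IsFree (gens : List (List (X × Bool))) : Prop :=
  ∃ (Z : Type) (φ : Set (FreeGroup Z) × FreeGroup Z → Set (FreeGroup X) × FreeGroup X),
    Set.InjOn φ (Fr Z) ∧ φ '' Fr Z = Cl gens ∧ ∀ x ∈ Fr Z, ∀ y ∈ Fr Z,
      φ (x.1 ∪ x.2 • y.1, x.2 * y.2) = ((φ x).1 ∪ (φ x).2 • (φ y).1, (φ x).2 * (φ y).2)

theorem inv_ne {Y : Type} {w : List (Y × Bool)} (h : w ≠ []) : invRev w ≠ [] := by
  cases w <;> simp_all [invRev]

theorem free_iff (gens : List (List (X × Bool))) (hg : ∀ w ∈ gens, w ≠ []) : IsFree gens ↔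
    ∃ (Z : Type) (β : Z → List (X × Bool)), Function.Injective β ∧
      (∀ z, β z ∈ gens ++ gens.map invRev) ∧ Crit β ∧ ∀ a ∈ gens, ∃ w, Ev (pw β w) a := by
  classical
  constructor
  · rintro ⟨Z, φ, h1, h2, h3⟩
    have m : ∀ w : List (Z × Bool), w ≠ [] → Mz w ∈ Fr Z := fun w h => ⟨w, h, rfl⟩
    have : ∀ w : List (Z × Bool), ∃ a, w ≠ [] → φ (Mz w) = Mz a := fun w => by
      by_cases h : w = []
      · exact ⟨[], fun k => absurd h k⟩
      obtain ⟨a, ha⟩ := (h2.le ⟨_, m w h, rfl⟩) (Set.range Mz) (fun w _ => ⟨w, rfl⟩)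
        (by rintro _ ⟨u, rfl⟩ _ ⟨v, rfl⟩; exact ⟨_, (Mz_append u v).symm⟩)
        (by rintro _ ⟨u, rfl⟩; exact ⟨_, (Mz_inv u).symm⟩)
      exact ⟨a, fun _ => ha.symm⟩
    choose f hf using this
    have f1 : ∀ u v, u ≠ [] → v ≠ [] → Ev (f (u ++ v)) (f u ++ f v) := fun u v hu hv => by
      rw [← Mz_eq, ← hf _ (by simp [hu]), ← Mz_append, h3 _ (m u hu) _ (m v hv), hf u hu, hf v hv,
        Mz_append]
    have f2 : ∀ u v, u ≠ [] → v ≠ [] → (Ev (f u) (f v) ↔ Ev u v) := fun u v hu hv => by
      rw [← Mz_eq, ← hf u hu, ← hf v hv, h1.eq_iff (m u hu) (m v hv), Mz_eq]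
    have f3 : ∀ u, u ≠ [] → Ev (f u ++ f (invRev u) ++ f u) (f u) := fun u hu =>
      (((f1 _ _ (by simp [hu]) hu).trans ((f1 _ _ hu (inv_ne hu)).append .rfl)).symm).trans
        ((f2 _ _ (by simp [hu]) hu).2 (ev_www u))
    have f4 : ∀ u, u ≠ [] → Ev (f (invRev u)) (invRev (f u)) := fun u hu =>
      ev_inv (f3 u hu) (by simpa using f3 _ (inv_ne hu))
    have f5 : ∀ a ∈ gens, ∃ w, w ≠ [] ∧ Ev (f w) a := fun a ha => by
      obtain ⟨_, ⟨w, hw, rfl⟩, e⟩ := h2.ge (show Mz a ∈ Cl gens from fun T k _ _ => k a ha)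
      exact ⟨w, hw, Mz_eq.1 ((hf w hw).symm.trans e)⟩
    have : ∀ z, ∃ b ∈ gens ++ gens.map invRev, Ev (f [(z, true)]) b := fun z => by
      by_contra k
      push Not at k
      obtain ⟨w, hw, a, _, e⟩ := (h2.le ⟨_, m [(z, true)] (by simp), rfl⟩)
        {q | ∃ w, w ≠ [] ∧ ¬ Ev w [(z, true)] ∧ ¬ Ev w [(z, false)] ∧ q = Mz (f w)}
        (fun a ha => by
          obtain ⟨w, hw, e⟩ := f5 a ha
          refine ⟨w, hw, fun c => k a (by simp [ha]) (((f2 _ _ hw (by simp)).2 c).symm.trans e),
            fun c => k (invRev a) (List.mem_append_right _ (List.mem_map_of_mem ha)) ?_, (Mz_eq.2 e).symm⟩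
          exact ((f2 _ _ (inv_ne hw) (inv_ne (by simp))).2 c.inv).symm.trans ((f4 w hw).trans e.inv))
        (by
          rintro _ ⟨u, a1, a2, a3, rfl⟩ _ ⟨v, b1, b2, b3, rfl⟩
          exact ⟨u ++ v, by simp [a1], fun c => (ev_gen c).elim a2 b2,
            fun c => (ev_gen c).elim a3 b3, (Mz_append _ _).trans (Mz_eq.2 (f1 u v a1 b1).symm)⟩)
        (by
          rintro _ ⟨u, a1, a2, a3, rfl⟩
          exact ⟨invRev u, inv_ne a1, fun c => a3 (by have := c.inv; rwa [invRev_invRev] at this),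
            fun c => a2 (by have := c.inv; rwa [invRev_invRev] at this),
            (Mz_inv _).trans (Mz_eq.2 (f4 u a1).symm)⟩)
      rw [hf _ (by simp), Mz_eq, f2 _ _ (by simp) hw] at e
      exact a e.symm
    choose β b1 b2 using this
    have g1 : ∀ y, Ev (f [y]) (ps β y) := by
      rintro ⟨z, _ | _⟩
      · exact (f4 [(z, true)] (by simp)).trans (b2 z).inv
      · exact b2 z
    have g2 : ∀ w, w ≠ [] → Ev (f w) (pw β w) := fun w hw => by
      induction w with
      | nil => exact absurd rfl hw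
      | cons y w ih =>
        by_cases h : w = []
        · rw [h, pw_one]; exact g1 y
        · exact (f1 [y] w (by simp) h).trans ((g1 y).append (ih h))
    have g3 : ∀ w, Ev (pw β w) [] → w = [] := fun w h => by
      cases w with
      | nil => rfl
      | cons y w =>
        have h1 := (List.append_eq_nil_iff.1 h.nil).1
        have h2 : β y.1 ≠ [] := by
          rcases List.mem_append.1 (b1 y.1) with k | k
          · exact hg _ k
          · obtain ⟨a, k1, k2⟩ := List.mem_map.1 k
            exact k2 ▸ inv_ne (hg a k1)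
        obtain ⟨z, _ | _⟩ := y
        · exact absurd h1 (inv_ne h2)
        · exact absurd h1 h2
    refine ⟨Z, β, fun z z' e => ?_, b1, inj_crit β fun u v e => ?_, fun a ha => ?_⟩
    · have := ((f2 _ _ (by simp) (by simp)).1 ((b2 z).trans (e ▸ (b2 z').symm))).2
      exact of_injective this
    · by_cases hu : u = []
      · subst hu
        rw [g3 v e.symm]; exact .rfl
      by_cases hv : v = []
      · subst hv
        exact absurd (g3 u e) hu
      exact (f2 u v hu hv).1 ((g2 u hu).trans (e.trans (g2 v hv).symm))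
    · obtain ⟨w, hw, e⟩ := f5 a ha
      exact ⟨w, (g2 w hw).symm.trans e⟩
  · rintro ⟨Z, β, _, h2, h3, h4⟩
    obtain ⟨φ, hφ⟩ : ∃ φ : Set (FreeGroup Z) × FreeGroup Z → Set (FreeGroup X) × FreeGroup X,
        ∀ w, φ (Mz w) = Mz (pw β w) :=
      ⟨fun p => Mz (pw β (Classical.epsilon fun w => p = Mz w)), fun w => Mz_eq.2
        ((Mz_eq.1 (Classical.epsilon_spec (p := fun v => Mz w = Mz v) ⟨w, rfl⟩)).symm.pw β)⟩
    refine ⟨Z, φ, ?_, Set.Subset.antisymm ?_ fun q hq => hq _ (fun a ha => ?_) ?_ ?_, ?_⟩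
    · rintro _ ⟨u, _, rfl⟩ _ ⟨v, _, rfl⟩ e
      rw [hφ, hφ, Mz_eq] at e
      exact Mz_eq.2 (crit_inj β h3 u v e)
    · rintro _ ⟨_, ⟨w, hw, rfl⟩, rfl⟩ T t1 t2 t3
      have t4 : ∀ a, Mz a ∈ T → Mz (invRev a) ∈ T := fun a h => Mz_inv a ▸ t3 _ h
      have t5 : ∀ y, Mz (ps β y) ∈ T := by
        have : ∀ z, Mz (β z) ∈ T := fun z => by
          rcases List.mem_append.1 (h2 z) with k | k
          · exact t1 _ k
          · obtain ⟨a, k1, k2⟩ := List.mem_map.1 k
            exact k2 ▸ t4 _ (t1 a k1)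
        rintro ⟨z, _ | _⟩
        exacts [t4 _ (this z), this z]
      rw [hφ]
      induction w with
      | nil => exact absurd rfl hw
      | cons y w ih =>
        by_cases h : w = []
        · rw [h, pw_one]; exact t5 y
        · rw [pw_cons, ← Mz_append]; exact t2 _ (t5 y) _ (ih h)
    · obtain ⟨w, e⟩ := h4 a ha
      exact ⟨_, ⟨w, fun k => hg a ha (by subst k; exact e.symm.nil), rfl⟩,
        (hφ w).trans (Mz_eq.2 e)⟩
    · rintro _ ⟨_, ⟨u, hu, rfl⟩, rfl⟩ _ ⟨_, ⟨v, hv, rfl⟩, rfl⟩
      exact ⟨_, ⟨u ++ v, by simp [hu], rfl⟩, by rw [hφ, hφ, hφ, Mz_append, pw_append]⟩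
    · rintro _ ⟨_, ⟨u, hu, rfl⟩, rfl⟩
      exact ⟨_, ⟨invRev u, inv_ne hu, rfl⟩, by rw [hφ, hφ, Mz_inv, pw_inv]⟩
    · rintro _ ⟨u, hu, rfl⟩ _ ⟨v, hv, rfl⟩
      rw [Mz_append, hφ, hφ, hφ, Mz_append, pw_append]

def alG {α : Type} (Λ : List α) (n : ℕ) : List (List α) :=
  Nat.rec [[]] (fun _ L => [] :: L.flatMap fun w => Λ.map fun t => t :: w) n

theorem mem_alG {α : Type} (Λ : List α) (n : ℕ) (l : List α) :
    l ∈ alG Λ n ↔ l.length ≤ n ∧ ∀ t ∈ l, t ∈ Λ := by
  induction n generalizing l with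
  | zero => cases l <;> simp [alG]
  | succ n ih =>
    show l ∈ [] :: (alG Λ n).flatMap _ ↔ _
    cases l with
    | nil => simp
    | cons t l => simp [ih, and_comm, and_left_comm]

theorem stab {τ : Type} (S : ℕ → Set τ) (T : Finset τ) (h1 : ∀ i, S i ⊆ S (i + 1))
    (h2 : ∀ i, S i ⊆ T) : ∃ i ≤ T.card, S (i + 1) ⊆ S i := by
  by_contra h
  push Not at h
  have k : ∀ i ≤ T.card + 1, i ≤ (S i).ncard := fun i hi => by
    induction i with
    | zero => omega
    | succ i ih =>
      have := Set.ncard_lt_ncard ⟨h1 i, h i (by omega)⟩ (T.finite_toSet.subset (h2 _))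
      have := ih (by omega)
      omega
  have := (k _ le_rfl).trans (Set.ncard_le_ncard (h2 _) T.finite_toSet)
  simp at this

def bN (G : List (List (X × Bool))) : ℕ := 2 ^ ((G.length * 2 + 1) * ((G.length * 2 + 1) *
  (alG G.flatten (3 * G.flatten.length + 1)).length))

variable {Z : Type} (β : Z → List (X × Bool)) (G : List (List (X × Bool)))

theorem ps_len (hG : ∀ y, ps β y ∈ G) (y : Z × Bool) : (ps β y).length ≤ G.flatten.length :=
  (List.sublist_flatten_of_mem (hG y)).length_le

theorem short_ty [Finite Z] (hG : ∀ y, ps β y ∈ G) (hZ : Nat.card Z ≤ G.length)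
    (w : List (Z × Bool)) (h1 : IsReduced w)
    (h2 : (mk (pw β w)).norm ≤ 3 * G.flatten.length + 1) : ∃ w', IsReduced w' ∧
      w'.length ≤ bN G ∧ (w'.head?, w'.getLast?, mk (pw β w')) =
        (w.head?, w.getLast?, mk (pw β w)) := by
  classical
  haveI := Fintype.ofFinite Z
  obtain ⟨i, hi, hs⟩ := stab (fun i => {t | ∃ w, IsReduced w ∧ w.length ≤ 2 ^ i ∧
      (mk (pw β w)).norm ≤ 3 * G.flatten.length + 1 ∧ (w.head?, w.getLast?, mk (pw β w)) = t})
    (Finset.univ ×ˢ Finset.univ ×ˢ ((alG G.flatten (3 * G.flatten.length + 1)).map mk).toFinset)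
    (fun i t ⟨w, a, b, c⟩ => ⟨w, a, by omega, c⟩) (by
      rintro i _ ⟨w, _, _, c, rfl⟩
      simp only [Finset.coe_product, Set.mem_prod, Finset.coe_univ, Set.mem_univ, true_and,
        List.coe_toFinset, Set.mem_ofPred_eq, List.mem_map, mem_alG]
      refine ⟨_, ⟨c, fun t ht => ?_⟩, mk_toWord⟩
      obtain ⟨y, _, k⟩ := List.mem_flatMap.1 (reduce.red.sublist.subset ht)
      exact List.mem_flatten.2 ⟨_, hG y, k⟩)
  have key : ∀ n, ∀ w : List (Z × Bool), w.length < n → IsReduced w →
      (mk (pw β w)).norm ≤ 3 * G.flatten.length + 1 → ∃ w', IsReduced w' ∧ w'.length ≤ 2 ^ i ∧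
      (mk (pw β w')).norm ≤ 3 * G.flatten.length + 1 ∧
      (w'.head?, w'.getLast?, mk (pw β w')) = (w.head?, w.getLast?, mk (pw β w)) := by
    intro n
    induction n with
    | zero => intro w h; omega
    | succ n ih =>
      intro w hw h1 h2
      by_cases hl : w.length ≤ 1
      · exact ⟨w, h1, hl.trans Nat.one_le_two_pow, h2, rfl⟩
      have e : ∀ j, mk (pw β (w.take j)) * mk (pw β (w.drop j)) = mk (pw β w) := fun j => by
        rw [mul_mk, ← pw_append, List.take_append_drop]
      obtain ⟨j, j1, j2, j3, j4⟩ := HomP.split (fun j => (mk (pw β (w.take j)))⁻¹) w.length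
        G.flatten.length (by omega) (fun j hj => by
          rw [List.take_succ_eq_append_getElem hj, pw_append, ← mul_mk, pw_one, mul_inv_rev,
            inv_inv, inv_mul_cancel_right, norm_inv_eq]
          exact norm_mk_le.trans (ps_len β G hG _)) (by
          simpa [pw, ← one_eq_mk, -inv_mk] using h2)
      rw [List.take_zero, show mk (pw β []) = 1 from rfl, inv_inv, mul_one, norm_inv_eq] at j3
      rw [List.take_length, ← e j, mul_inv_rev, inv_inv, inv_mul_cancel_right, norm_inv_eq] at j4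
      obtain ⟨u, a1, a2, _, a4⟩ := ih (w.take j) (by simp; omega) (List.IsChain.take h1 j) j3
      obtain ⟨v, b1, b2, _, b4⟩ := ih (w.drop j) (by simp; omega) (List.IsChain.drop h1 j) j4
      simp only [Prod.mk.injEq] at a4 b4
      have e2 : mk (pw β (u ++ v)) = mk (pw β w) := by rw [pw_append, ← mul_mk, a4.2.2, b4.2.2, e]
      rw [← List.take_append_drop j w] at h1
      refine hs ⟨u ++ v, a1.append b1 ?_, by rw [List.length_append]; omega, e2 ▸ h2, ?_⟩
      · rw [a4.2.1, b4.1]; exact (List.isChain_append.1 h1).2.2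
      · rw [e2, List.head?_append, List.getLast?_append, a4.1, a4.2.1, b4.1, b4.2.1,
          ← List.head?_append, ← List.getLast?_append, List.take_append_drop]
  obtain ⟨w', a, b, _, c⟩ := key _ w (Nat.lt_succ_self _) h1 h2
  refine ⟨w', a, b.trans (Nat.pow_le_pow_right two_pos (hi.trans ?_)), c⟩
  rw [Nat.card_eq_fintype_card] at hZ
  simp only [Finset.card_product, Finset.card_univ, Fintype.card_option, Fintype.card_prod,
    Fintype.card_bool]
  gcongr
  exact (List.toFinset_card_le _).trans (by simp)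

theorem crit_bd [Finite Z] (hG : ∀ y, ps β y ∈ G) (hZ : Nat.card Z ≤ G.length) : Crit β ↔
    ∀ y, ∃ g ∈ V (ps β y), ∀ w : List (Z × Bool), w.length ≤ bN G + 1 → IsReduced w →
      w.getLast? ≠ some y → g ∉ V (pw β w) := by
  refine forall_congr' fun y => exists_congr fun g => and_congr_right fun hg =>
    ⟨fun h w _ => h w, fun h w => ?_⟩
  induction w with
  | nil => exact h [] (by simp)
  | cons x w ih =>
    intro h1 h2 h3
    rw [pw_cons, mem_append] at h3
    rcases h3 with h3 | h3
    · obtain ⟨w', a, b, c⟩ := short_ty β G hG hZ w h1.tail (by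
        have e1 := (V_norm h3).trans (ps_len β G hG _)
        have e2 := (V_norm hg).trans (ps_len β G hG _)
        have := norm_mul_le (g * (mk (pw β w))⁻¹)⁻¹ g
        rw [norm_inv_eq, mul_inv_rev, inv_inv, inv_mul_cancel_right] at this
        omega)
      simp only [Prod.mk.injEq] at c
      refine h (x :: w') (by simpa using b) (List.isChain_cons.2 ⟨?_, a⟩) ?_ ?_
      · rw [c.1]; exact (List.isChain_cons.1 h1).1
      · rwa [List.getLast?_cons, c.2.1, ← List.getLast?_cons]
      · rw [pw_cons, mem_append, c.2.2]; exact Or.inl h3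
    · cases w with
      | nil => exact h [] (by simp) List.isChain_nil (by simp) h3
      | cons x' w => exact ih h1.tail (by rwa [List.getLast?_cons_cons] at h2) h3

theorem gen_bd (a : List (X × Bool)) (w : List (Z × Bool)) (h : Ev (pw β w) a) :
    ∃ w' : List (Z × Bool), Ev (pw β w') a ∧ w'.length ≤ 2 ^ (a.length + 1) * (a.length + 1) := by
  have s : ∀ l i, Ev (pw β l) a → V (pw β (l.drop i)) ⊆ V a := fun l i h => by
    rw [← h.1]
    conv_rhs => rw [← List.take_append_drop i l, pw_append]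
    exact suf_sub _ _
  obtain ⟨w', h1, h2⟩ := shorten (fun l => Ev (pw β l) a)
    (fun l i => (V (pw β (l.drop i)), mk (pw β (l.drop i)))) ((V a).powerset ×ˢ V a)
    (fun l h i => by simp [s l i h, s l i h (mk_mem _)]) (fun l i j _ _ h e => by
      rw [← List.take_append_drop i l, pw_append] at h
      rw [pw_append]
      exact (Ev.rfl.append ⟨(Prod.mk.inj e).1.symm, (Prod.mk.inj e).2.symm⟩).trans h)
    _ w (Nat.lt_succ_self _) h
  refine ⟨w', h1, h2.trans ?_⟩
  rw [Finset.card_product, Finset.card_powerset]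
  exact bd_mono 1 (V_card a) |>.trans_eq' (by simp [bd]) |>.trans_eq (by simp [bd])

end

theorem red_prim' {Y : Type} [Primcodable Y] [DecidableEq Y] :
    Primrec (reduce : List (Y × Bool) → List (Y × Bool)) := by
  have h0 : Primrec fun q : List (Y × Bool) => q.head? := Primrec.list_head?
  have h : Primrec fun L : List (Y × Bool) => L.foldr (fun x ih =>
      bif (ih.head? == some (x.1, !x.2)) then ih.tail else x :: ih) [] := by
    refine PR.foldr' (by fun_prop) (by fun_prop) (PR.cond' (PR.beq' (h0.comp (by fun_prop))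
      (by fun_prop)) (by fun_prop) (by fun_prop))
  refine h.of_eq fun L => ?_
  induction L with
  | nil => rfl
  | cons x L ih =>
    rw [List.foldr_cons, ih, reduce.cons]
    cases reduce L with
    | nil => rfl
    | cons y t =>
      obtain ⟨a, b⟩ := x
      obtain ⟨c, d⟩ := y
      rw [Bool.cond_eq_ite]
      by_cases h : a = c
      · subst h; cases b <;> cases d <;> simp
      · simp [h, Ne.symm h]

abbrev Wd := List (ℕ × Bool)

def inV (u g : Wd) : Bool :=
  (List.range (u.length + 1)).any fun j => reduce (u.drop j) == reduce g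

theorem inV_iff (u g : Wd) : inV u g = true ↔ mk g ∈ V u := by
  simp only [inV, List.any_eq_true, List.mem_range, beq_iff_eq, mem_V]
  exact exists_congr fun _ => and_congr_right' ⟨reduce.exact, reduce.sound⟩

def subV (u v : Wd) : Bool := (List.range (u.length + 1)).all fun i => inV v (u.drop i)

theorem subV_iff (u v : Wd) : subV u v = true ↔ V u ⊆ V v := by
  simp only [subV, List.all_eq_true, List.mem_range, inV_iff, Finset.subset_iff, mem_V u]
  exact ⟨by rintro h _ ⟨i, hi, rfl⟩; exact h i hi, fun h i hi => h ⟨i, hi, rfl⟩⟩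

def evB (u v : Wd) : Bool := subV u v && (subV v u && reduce u == reduce v)

theorem evB_iff (u v : Wd) : evB u v = true ↔ Ev u v := by
  simp only [evB, Ev, Bool.and_eq_true, subV_iff, beq_iff_eq, Finset.Subset.antisymm_iff, and_assoc]
  exact and_congr_right' (and_congr_right' ⟨reduce.exact, reduce.sound⟩)

def lt (B : List Wd) : List (Wd × Bool) := B.flatMap fun b => [(b, true), (b, false)]

def critB (G B : List Wd) : Bool := (lt B).all fun y =>
  (List.range ((ps id y).length + 1)).any fun i => (alG (lt B) (bN G + 1)).all fun w =>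
    !(reduce w == w && (!(w.reverse.head? == some y) && inV (pw id w) ((ps id y).drop i)))

def genB (gens B : List Wd) : Bool := gens.all fun a =>
  (alG (lt B) (2 ^ (a.length + 1) * (a.length + 1))).any fun w => evB (pw id w) a

def freeB (gens : List Wd) : Bool := (gens.all fun a => !(a == [])) &&
  (alG (gens ++ gens.map invRev) (gens ++ gens.map invRev).length).any fun B =>
    critB (gens ++ gens.map invRev) B && genB gens B

theorem alG_prim {α : Type} [Primcodable α] : Primrec₂ (alG (α := α)) := by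
  show Primrec fun p : List α × ℕ => alG p.1 p.2
  unfold alG; fun_prop

theorem inV_prim : Primrec₂ inV := by
  have h0 := red_prim' (Y := ℕ)
  show Primrec fun p : Wd × Wd => inV p.1 p.2
  unfold inV; fun_prop

theorem evB_prim : Primrec₂ evB := by
  have h0 := red_prim' (Y := ℕ)
  have h : Primrec₂ subV := by
    show Primrec fun p : Wd × Wd => subV p.1 p.2
    unfold subV
    refine PR.all' (by fun_prop) (inV_prim.comp (by fun_prop) (by fun_prop))
  show Primrec fun p : Wd × Wd => evB p.1 p.2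
  unfold evB
  exact PR.and' h (PR.and' (h.comp Primrec.snd Primrec.fst) (by fun_prop))

theorem ps_prim : Primrec (ps (id : Wd → Wd)) :=
  PR.cond' Primrec.snd Primrec.fst (HomP.invRev_prim Primrec.fst)

theorem pw_prim : Primrec (pw (id : Wd → Wd)) := by
  have := ps_prim
  unfold pw; fun_prop

theorem lt_prim : Primrec lt := by unfold lt; fun_prop

theorem bN_prim : Primrec (bN (X := ℕ)) := by
  have h : Primrec fun G : List Wd => G.flatten := Primrec.list_flatten
  have : Primrec fun G : List Wd => alG G.flatten (3 * G.flatten.length + 1) :=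
    alG_prim.comp h (by fun_prop)
  unfold bN; fun_prop

theorem critB_prim : Primrec₂ critB := by
  have h0 := red_prim' (Y := Wd)
  have h1 := ps_prim
  have h2 := pw_prim
  have h3 := lt_prim
  have h4 := bN_prim
  have h5 : Primrec fun q : List (Wd × Bool) => q.head? := Primrec.list_head?
  show Primrec fun p : List Wd × List Wd => critB p.1 p.2
  unfold critB
  refine PR.all' (by fun_prop) (PR.any' (by fun_prop) (PR.all'
    (alG_prim.comp (by fun_prop) (by fun_prop)) (PR.not' (PR.and' (by fun_prop) (PR.and'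
      (PR.not' (PR.beq' (h5.comp (by fun_prop)) (by fun_prop)))
      (inV_prim.comp (by fun_prop) (by fun_prop)))))))

theorem genB_prim : Primrec₂ genB := by
  have h2 := pw_prim
  have h3 := lt_prim
  show Primrec fun p : List Wd × List Wd => genB p.1 p.2
  unfold genB
  refine PR.all' (by fun_prop) (PR.any' (alG_prim.comp (by fun_prop) (by fun_prop))
    (evB_prim.comp (by fun_prop) (by fun_prop)))

theorem freeB_prim : Primrec freeB := by
  have h0 : Primrec (invRev : Wd → Wd) := HomP.invRev_prim Primrec.id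
  have h : Primrec fun gens : List Wd => gens ++ gens.map invRev := by fun_prop
  unfold freeB
  refine PR.and' (by fun_prop) (PR.any' (alG_prim.comp h (by fun_prop)) (PR.and'
    (critB_prim.comp (h.comp Primrec.fst) Primrec.snd) genB_prim))

theorem chk_iff {Z : Type} [Finite Z] (β : Z → Wd) (gens G B : List Wd)
    (hG : ∀ y, ps β y ∈ G) (hZ : Nat.card Z ≤ G.length) (hi : Function.Injective β)
    (hB : ∀ b, b ∈ B ↔ ∃ z, β z = b) :
    (critB G B && genB gens B) = true ↔ Crit β ∧ ∀ a ∈ gens, ∃ w, Ev (pw β w) a := by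
  let e : Z × Bool → Wd × Bool := Prod.map β id
  have ei : Function.Injective e := hi.prodMap Function.injective_id
  have h1 : ∀ y, y ∈ lt B ↔ ∃ x, e x = y := by
    rintro ⟨b, s⟩
    cases s <;> simp [lt, e, hB]
  have h2 : ∀ n w, w ∈ alG (lt B) n ↔ ∃ v : List (Z × Bool), v.length ≤ n ∧ v.map e = w := by
    intro n w
    simp only [mem_alG, h1]
    constructor
    · rintro ⟨a, b⟩
      obtain ⟨v, rfl⟩ : w ∈ Set.range (List.map e) := by rw [Set.range_list_map]; exact b
      exact ⟨v, by simpa using a, rfl⟩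
    · rintro ⟨v, a, rfl⟩
      exact ⟨by simpa using a, fun t ht => (List.mem_map.1 ht).imp fun _ k => k.2⟩
  have h3 : ∀ y, ps id (e y) = ps β y := fun _ => rfl
  have h4 : ∀ w : List (Z × Bool), pw id (w.map e) = pw β w := fun w => List.flatMap_map ..
  have h5 : ∀ w : List (Z × Bool), reduce (w.map e) = w.map e ↔ IsReduced w := fun w => by
    rw [← isReduced_iff_reduce_eq, FreeGroup.IsReduced, List.isChain_map]
    simp only [e, Prod.map, hi.eq_iff, id]; rfl
  rw [Bool.and_eq_true, crit_bd β G hG hZ]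
  refine and_congr ?_ ?_
  · simp only [critB, List.all_eq_true, List.any_eq_true, h1, h2, forall_exists_index,
      forall_apply_eq_imp_iff, and_imp, forall_apply_eq_imp_iff₂, h3, h4, List.mem_range,
      Bool.not_eq_true', Bool.and_eq_false_imp, beq_iff_eq, h5, List.head?_reverse,
      List.getLast?_map, beq_eq_false_iff_ne]
    have h6 : ∀ (o : Option (Z × Bool)) y, o.map e = some (e y) ↔ o = some y := fun o y =>
      (Option.map_injective ei).eq_iff (b := some y)
    simp only [ne_eq, h6, ← Bool.not_eq_true, inV_iff]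
    refine forall_congr' fun y => ⟨fun ⟨i, a, b⟩ => ⟨_, (mem_V _ _).2 ⟨i, a, rfl⟩, b⟩, ?_⟩
    rintro ⟨g, a, b⟩
    obtain ⟨i, a', rfl⟩ := (mem_V _ _).1 a
    exact ⟨i, a', b⟩
  · simp only [genB, List.all_eq_true, List.any_eq_true, h2, evB_iff]
    refine forall₂_congr fun a _ => ⟨?_, fun ⟨w, h⟩ => ?_⟩
    · rintro ⟨_, ⟨v, _, rfl⟩, h⟩
      exact ⟨v, h4 v ▸ h⟩
    · obtain ⟨v, a, b⟩ := gen_bd β a w h
      exact ⟨_, ⟨v, b, rfl⟩, (h4 v).symm ▸ a⟩

theorem freeB_iff (gens : List Wd) : freeB gens = true ↔ (∀ w ∈ gens, w ≠ []) ∧ IsFree gens := by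
  classical
  simp only [freeB, Bool.and_eq_true (List.all _ _), List.all_eq_true, Bool.not_eq_true',
    beq_eq_false_iff_ne, List.any_eq_true, mem_alG]
  refine and_congr_right fun hg => ?_
  rw [free_iff gens hg]
  have c : ∀ {Z : Type} (β : Z → Wd), (∀ z, β z ∈ gens ++ gens.map invRev) →
      ∀ y, ps β y ∈ gens ++ gens.map invRev := by
    rintro Z β h ⟨z, _ | _⟩
    · rcases List.mem_append.1 (h z) with k | k
      · exact List.mem_append_right _ (List.mem_map_of_mem k)
      · obtain ⟨a, k1, k2⟩ := List.mem_map.1 k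
        exact List.mem_append_left _ (by simpa [ps, ← k2] using k1)
    · exact h z
  have d : ∀ {Z : Type} (β : Z → Wd), Function.Injective β →
      (∀ z, β z ∈ gens ++ gens.map invRev) →
      Finite Z ∧ Nat.card Z ≤ (gens ++ gens.map invRev).length := fun β hi h => by
    have i : Function.Injective fun z => (⟨β z, List.mem_toFinset.2 (h z)⟩ :
      (gens ++ gens.map invRev).toFinset) := fun a b e => hi (congrArg Subtype.val e)
    exact ⟨.of_injective _ i, (Nat.card_le_card_of_injective _ i).trans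
      ((Nat.card_eq_finsetCard _).trans_le (List.toFinset_card_le _))⟩
  constructor
  · rintro ⟨B, ⟨_, h1⟩, h2⟩
    have h3 : ∀ z : {b // b ∈ B}, z.1 ∈ gens ++ gens.map invRev := fun z => h1 _ z.2
    obtain ⟨_, h4⟩ := d _ Subtype.val_injective h3
    exact ⟨_, _, Subtype.val_injective, h3, (chk_iff _ _ _ B (c _ h3) h4 Subtype.val_injective
      (by simp)).1 h2⟩
  · rintro ⟨Z, β, h1, h2, h3⟩
    obtain ⟨_, h4⟩ := d β h1 h2
    refine ⟨(gens ++ gens.map invRev).filter fun b => ∃ z, β z = b,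
      ⟨List.length_filter_le _ _, fun t ht => List.mem_of_mem_filter ht⟩,
      (chk_iff β _ _ _ (c _ h2) h4 h1 fun b => ?_).2 h3⟩
    rw [List.mem_filter, decide_eq_true_iff]
    exact and_iff_right_of_imp fun ⟨z, e⟩ => e ▸ h2 z

end Pool.Agent.H24.Munn
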