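import Mathlib
import Pool.Agent.H24.Munn10

set_option autoImplicit false

namespace Pool.Agent.H24.Mon

open Pool.Agent.H24.Munn

variable {A S S' : Type}

def E (f : List A → S) (u v : List A) : Prop := ∀ x y, f (x ++ u ++ y) = f (x ++ v ++ y)

theorem E.rfl {f : List A → S} {u : List A} : E f u u := fun _ _ => _root_.rfl
theorem E.trans {f : List A → S} {u v w : List A} (h : E f u v) (k : E f v w) : E f u w :=
  fun x y => (h x y).trans (k x y)
theorem E.append {f : List A → S} {u v u' v' : List A} (h : E f u v) (k : E f u' v') :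
    E f (u ++ u') (v ++ v') := fun x y => by
  have a := h x (u' ++ y)
  have b := k (x ++ v) y
  simp only [List.append_assoc] at a b ⊢
  exact a.trans b

def Sy (f : List A → S) (n : ℕ) : Prop :=
  ∃ (T : Type) (_ : Finite T) (σ : List A → T), Nat.card T ≤ n ∧ ∀ u v, σ u = σ v → E f u v

def Fi (f : List A → S) (n : ℕ) : Prop :=
  ∃ (T : Type) (_ : Finite T) (τ : List A → T), Nat.card T ≤ n ∧
    ∀ u v, τ u = τ v → ∀ y, f (u ++ y) = f (v ++ y)

theorem Fi.sy {f : List A → S} {n : ℕ} (h : Fi f n) : Sy f (n ^ n) := by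
  obtain ⟨T, _, τ, h1, h2⟩ := h
  refine ⟨T → T, inferInstance, fun u t => τ (Function.invFun τ t ++ u), ?_, fun u v e x y => ?_⟩
  · haveI : Nonempty T := ⟨τ []⟩
    have := Nat.card_pos (α := T)
    rw [Nat.card_fun]
    exact (Nat.pow_le_pow_left h1 _).trans (Nat.pow_le_pow_right (by omega) h1)
  · have k := h2 _ _ (Function.invFun_eq (f := τ) ⟨x, rfl⟩)
    rw [List.append_assoc, List.append_assoc, ← k, ← k, ← List.append_assoc, ← List.append_assoc]
    exact h2 _ _ (congrFun e _) y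

theorem Sy.rev {f : List A → S} {n : ℕ} (h : Sy f n) : Sy (fun w => f w.reverse) n := by
  obtain ⟨T, _, σ, h1, h2⟩ := h
  exact ⟨T, inferInstance, fun w => σ w.reverse, h1, fun u v e x y => by
    simpa using h2 _ _ e y.reverse x.reverse⟩

theorem Sy.prod {f : List A → S} {g : List A → S'} {n m : ℕ} (h : Sy f n) (k : Sy g m) :
    Sy (fun w => (f w, g w)) (n * m) := by
  obtain ⟨T, _, σ, h1, h2⟩ := h
  obtain ⟨T', _, σ', k1, k2⟩ := k
  exact ⟨T × T', inferInstance, fun w => (σ w, σ' w), by rw [Nat.card_prod]; gcongr,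
    fun u v e x y => Prod.ext (h2 _ _ (Prod.mk.inj e).1 x y) (k2 _ _ (Prod.mk.inj e).2 x y)⟩

theorem Sy.short {f : List A → S} {n : ℕ} (h : Sy f n) (w : List A) :
    ∃ w', E f w w' ∧ w'.length ≤ n := by
  classical
  obtain ⟨T, _, σ, h1, h2⟩ := h
  haveI := Fintype.ofFinite T
  obtain ⟨w', a, b⟩ := shorten (E f w) (fun l i => σ (l.take i)) Finset.univ (by simp)
    (fun l i j _ _ h e => h.trans (by
      conv_lhs => rw [← List.take_append_drop j l]
      exact (h2 _ _ e.symm).append .rfl)) _ w (Nat.lt_succ_self _) .rfl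
  exact ⟨w', a, b.trans (by simpa using h1)⟩

def pw (w : List A) (k : ℕ) : List A := (List.replicate k w).flatten

theorem pw_add (w : List A) (i j : ℕ) : pw w (i + j) = pw w i ++ pw w j := by
  simp [pw, List.replicate_add, -List.replicate_append_replicate]

theorem pw_succ (w : List A) (i : ℕ) : pw w (i + 1) = w ++ pw w i := rfl

theorem E.pw {f : List A → S} {u v : List A} (h : E f u v) (k : ℕ) : E f (pw u k) (pw v k) := by
  induction k with
  | zero => exact .rfl
  | succ k ih => exact h.append ih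

theorem Sy.pow {f : List A → S} {n : ℕ} (h : Sy f n) (w : List A) (k : ℕ) :
    ∃ k' ≤ n, E f (pw w k) (pw w k') := by
  classical
  obtain ⟨T, _, σ, h1, h2⟩ := h
  haveI := Fintype.ofFinite T
  obtain ⟨l, a, b⟩ := shorten (fun l : List Unit => E f (pw w k) (pw w l.length))
    (fun l i => σ (pw w i)) Finset.univ (by simp)
    (fun l i j h0 h1 h e => h.trans (by
      rw [show l.length = j + (l.length - j) by omega, pw_add, List.length_append,
        List.length_take_of_le (by omega), List.length_drop, pw_add]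
      exact (h2 _ _ e.symm).append .rfl)) _ (List.replicate k ()) (Nat.lt_succ_self _)
    (by simpa using .rfl)
  exact ⟨_, b.trans (by simpa using h1), a⟩

theorem pw_conj (α β : List A) (k : ℕ) :
    α ++ β ++ (pw (α ++ β) k ++ α) = pw (α ++ β) k ++ α ++ (β ++ α) := by
  induction k with
  | zero => simp [pw]
  | succ k ih => rw [pw_succ]; simp only [List.append_assoc] at ih ⊢; rw [ih]

theorem decomp (t t' : List A) (ht : t ≠ []) (n : ℕ) : ∀ s, s.length < n → t ++ s = s ++ t' →
    ∃ α β k, t = α ++ β ∧ t' = β ++ α ∧ s = pw (α ++ β) k ++ α := by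
  induction n with
  | zero => intro s h; omega
  | succ n ih =>
    intro s hs e
    rcases List.append_eq_append_iff.1 e with ⟨s1, rfl, e1⟩ | ⟨β, rfl, e1⟩
    · obtain ⟨α, β, k, a, b, c⟩ := ih s1 (by
        have := List.length_pos_iff.2 ht; simp at hs; omega) e1
      exact ⟨α, β, k + 1, a, b, by rw [pw_succ, List.append_assoc, ← c, ← a]⟩
    · exact ⟨s, β, 0, rfl, e1, rfl⟩

theorem pw_len (w : List A) (k : ℕ) : (pw w k).length = k * w.length := by simp [pw]

theorem Sy.conj1 {f : List A → S} {n : ℕ} (h : Sy f n) {t t' s : List A} (ht : t ≠ [])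
    (e : t ++ s = s ++ t') : ∃ s0, t ++ s0 = s0 ++ t' ∧ E f s s0 ∧ s0.length ≤ (n + 1) * t.length := by
  obtain ⟨α, β, k, rfl, rfl, rfl⟩ := decomp t t' ht _ s (Nat.lt_succ_self _) e
  obtain ⟨k', a, b⟩ := h.pow (α ++ β) k
  refine ⟨_, pw_conj α β k', b.append .rfl, ?_⟩
  rw [List.length_append, pw_len, Nat.add_mul, one_mul]
  exact Nat.add_le_add (Nat.mul_le_mul_right _ a) (by simp)

theorem Sy.conj2 {f : List A → S} {n : ℕ} (h : Sy f n) {t t' s : List A}
    (e : t ++ s = s ++ t') : ∃ t0 t0' s0, t0 ++ s0 = s0 ++ t0' ∧ E f t t0 ∧ E f t' t0' ∧ E f s s0 ∧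
      t0.length + s0.length ≤ (n + 2) * (n + n) := by
  by_cases ht : t = []
  · obtain rfl : t' = [] := by simpa [ht] using e
    obtain ⟨s0, a, b⟩ := h.short s
    exact ⟨[], [], s0, by simp, ht ▸ .rfl, .rfl, a, by simp; nlinarith⟩
  obtain ⟨α, β, k, rfl, rfl, rfl⟩ := decomp t t' ht _ s (Nat.lt_succ_self _) e
  obtain ⟨α', a1, a2⟩ := h.short α
  obtain ⟨β', b1, b2⟩ := h.short β
  obtain ⟨k', a, b⟩ := h.pow (α' ++ β') k
  refine ⟨_, _, _, pw_conj α' β' k', a1.append b1, b1.append a1,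
    (((a1.append b1).pw k).trans b).append a1, ?_⟩
  simp only [List.length_append, pw_len]
  nlinarith

theorem solve {f : List A → S} {n : ℕ} (h : Sy f n) {P Q g1 g2 g3 g4 : List A}
    (e1 : g1 ++ g2 = g3 ++ g4) (e2 : P ++ g2 = g3 ++ Q) : ∃ g1' g2' g3' g4',
      g1' ++ g2' = g3' ++ g4' ∧ P ++ g2' = g3' ++ Q ∧ f g1 = f g1' ∧ f g4 = f g4' ∧
      f (P ++ g2) = f (P ++ g2') ∧
      (g1' ++ g2').length ≤ (n + 2) * (n + n + P.length + Q.length) := by
  rcases List.append_eq_append_iff.1 e2 with ⟨s, rfl, rfl⟩ | ⟨s, rfl, rfl⟩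
  · rcases List.append_eq_append_iff.1 (e1.trans (List.append_assoc _ _ _)) with
      ⟨t, rfl, e⟩ | ⟨t, rfl, e⟩
    · by_cases ht : t = []
      · subst ht
        obtain rfl : Q = g4 := by simpa using e
        obtain ⟨s0, a, b⟩ := h.short s
        exact ⟨g1, s0 ++ Q, g1 ++ s0, Q, by simp, by simp, rfl, rfl, by simpa using a g1 Q,
          by simp; nlinarith⟩
      obtain ⟨t', rfl⟩ := List.suffix_of_suffix_length_le (l₁ := g4) (l₂ := Q)
        ⟨t ++ s, by simp [e]⟩ ⟨s, rfl⟩ (by have := congrArg List.length e; simp at this; omega)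
      obtain ⟨s0, a, b, c⟩ := h.conj1 (s := s) (t' := t') ht
        (List.append_cancel_right (as := t ++ s) (bs := g4) (by simp [e]))
      refine ⟨g1, s0 ++ (t' ++ g4), g1 ++ t ++ s0, g4, ?_, by simp, rfl, rfl,
        by simpa using b (g1 ++ t) (t' ++ g4), by simp; nlinarith⟩
      rw [List.append_assoc g1, a]; simp
    · obtain ⟨t', rfl⟩ := List.suffix_of_suffix_length_le (l₁ := Q) (l₂ := g4)
        ⟨t ++ s, by simp [e]⟩ ⟨s, rfl⟩ (by have := congrArg List.length e; simp at this; omega)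
      obtain ⟨t0, t0', s0, a, b, c, d, k⟩ := h.conj2 (t := t) (s := s) (t' := t')
        (List.append_cancel_right (as := t ++ s) (bs := Q) (by simpa using e.symm))
      refine ⟨P ++ t0, s0 ++ Q, P ++ s0, t0' ++ Q, ?_, by simp, by simpa using b P [],
        by simpa using c [] Q, by simpa using d P Q, by simp; nlinarith⟩
      rw [List.append_assoc P, ← List.append_assoc t0, a]; simp
  · rcases List.append_eq_append_iff.1 e1 with ⟨t, rfl, rfl⟩ | ⟨t, rfl, rfl⟩
    · exact ⟨_, _, _, _, e1, e2, rfl, rfl, rfl, by simp; nlinarith⟩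
    · obtain ⟨t0, a, b⟩ := h.short t
      exact ⟨g3 ++ t0, g2, g3, t0 ++ g2, by simp, e2, by simpa using a g3 [],
        by simpa using a [] g2, rfl, by simp; nlinarith⟩

end Pool.Agent.H24.Mon
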