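import Mathlib

set_option autoImplicit false

namespace Pool.Agent.H24.Srs

open Relation FreeMonoid

variable {A : Type}

/-- One rewriting step `u x v → u y v` with `(x, y) ∈ R`. -/
def St (R : Set (List A × List A)) (a b : List A) : Prop :=
  ∃ p ∈ R, ∃ u v, a = u ++ p.1 ++ v ∧ b = u ++ p.2 ++ v

/-- Confluence of the rewriting system `R`. -/
def Confl (R : Set (List A × List A)) : Prop :=
  ∀ u v w, ReflTransGen (St R) u v → ReflTransGen (St R) u w →
    ∃ z, ReflTransGen (St R) v z ∧ ReflTransGen (St R) w z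

/-- The smallest congruence on the free monoid containing `R`. -/
def cg (R : Set (List A × List A)) : Con (FreeMonoid A) :=
  conGen fun a b => (toList a, toList b) ∈ R

/-- The class of a word in `M(A; R)`. -/
def cl (R : Set (List A × List A)) (w : List A) : (cg R).Quotient := (cg R).mk' (ofList w)

/-- `z` is a zero of the monoid. -/
def IsZ {M : Type} [Monoid M] (z : M) : Prop := ∀ x, z * x = z ∧ x * z = z

/-- The set `P(a)`: everything if there is no zero, `{0}` if `a = 0`, and otherwise the `g` with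
`m a g = 0 → m a = 0` for all `m`. -/
def PP {M : Type} [Monoid M] (a : M) : Set M :=
  {g | ∀ z, IsZ z → (a = z → g = z) ∧ (a ≠ z → ∀ m, m * a * g = z → m * a = z)}

/-- `c`-conjugacy. -/
def CConj {M : Type} [Monoid M] (a b : M) : Prop :=
  ∃ g ∈ PP a, ∃ h ∈ PP b, a * g = g * b ∧ b * h = h * a

variable {R : Set (List A × List A)}

theorem St.ctx {a b : List A} (h : St R a b) (s t : List A) : St R (s ++ a ++ t) (s ++ b ++ t) := by
  obtain ⟨p, hp, u, v, rfl, rfl⟩ := h
  exact ⟨p, hp, s ++ u, v ++ t, by simp, by simp⟩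

theorem ctx {a b : List A} (h : ReflTransGen (St R) a b) (s t : List A) :
    ReflTransGen (St R) (s ++ a ++ t) (s ++ b ++ t) := h.lift (fun x => s ++ x ++ t) fun _ _ k => k.ctx s t

theorem St.of {x y : List A} (h : (x, y) ∈ R) (s t : List A) : St R (s ++ x ++ t) (s ++ y ++ t) :=
  ⟨_, h, s, t, rfl, rfl⟩

theorem cl_append (u v : List A) : cl R (u ++ v) = cl R u * cl R v := rfl
theorem cl_surj (x : (cg R).Quotient) : ∃ w, cl R w = x := by
  obtain ⟨w, rfl⟩ := (cg R).mk'_surjective x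
  exact ⟨toList w, rfl⟩

theorem cl_of {u v : List A} (h : ReflTransGen (St R) u v) : cl R u = cl R v := by
  induction h with
  | refl => rfl
  | tail _ h ih =>
    obtain ⟨p, hp, u, v, rfl, rfl⟩ := h
    rw [ih, cl_append, cl_append, cl_append, cl_append,
      show cl R p.1 = cl R p.2 from (Con.eq _).2 (ConGen.Rel.of _ _ hp)]

theorem cl_iff (hc : Confl R) {u v : List A} :
    cl R u = cl R v ↔ ∃ z, ReflTransGen (St R) u z ∧ ReflTransGen (St R) v z := by
  refine ⟨fun h => ?_, fun ⟨z, a, b⟩ => (cl_of a).trans (cl_of b).symm⟩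
  let c : Con (FreeMonoid A) :=
    { r := fun u v => ∃ z, ReflTransGen (St R) (toList u) z ∧ ReflTransGen (St R) (toList v) z
      iseqv := ⟨fun _ => ⟨_, .refl, .refl⟩, fun ⟨z, a, b⟩ => ⟨z, b, a⟩,
        fun ⟨y, a, b⟩ ⟨z, c, d⟩ => (hc _ _ _ b c).imp fun _ k => ⟨a.trans k.1, d.trans k.2⟩⟩
      mul' := fun {a b c d} ⟨y, h1, h2⟩ ⟨z, h3, h4⟩ => ⟨y ++ z,
        (ctx h1 [] (toList c)).trans (by simpa using ctx h3 y []),
        (ctx h2 [] (toList d)).trans (by simpa using ctx h4 y [])⟩ }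
  have : cg R ≤ c := Con.conGen_le.2 fun a b h =>
    ⟨toList b, .single ⟨_, h, [], [], by simp, by simp⟩, .refl⟩
  exact this ((Con.eq _).1 h)

def Irr (R : Set (List A × List A)) (w : List A) : Prop := ∀ v, ¬ St R w v

theorem Irr.eq {u v : List A} (h : Irr R u) (k : ReflTransGen (St R) u v) : v = u := by
  rcases k.cases_head with e | ⟨_, e, _⟩
  exacts [e.symm, absurd e (h _)]

theorem cl_irr (hc : Confl R) {u v : List A} (h : Irr R v) :
    cl R u = cl R v ↔ ReflTransGen (St R) u v :=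
  ⟨fun k => let ⟨_, a, b⟩ := (cl_iff hc).1 k; h.eq b ▸ a, cl_of⟩

variable (hl : ∀ p ∈ R, p.2.length < p.1.length)
include hl

theorem St.len {a b : List A} (h : St R a b) : b.length < a.length := by
  obtain ⟨p, hp, u, v, rfl, rfl⟩ := h
  simpa using hl p hp

theorem red_len {a b : List A} (h : ReflTransGen (St R) a b) : a = b ∨ b.length < a.length := by
  induction h with
  | refl => exact Or.inl rfl
  | tail _ h ih => exact Or.inr (ih.elim (fun e => e ▸ h.len hl) (h.len hl).trans)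

theorem ex_nf (n : ℕ) : ∀ u : List A, u.length < n → ∃ v, ReflTransGen (St R) u v ∧ Irr R v := by
  induction n with
  | zero => intro u h; omega
  | succ n ih =>
    intro u hu
    by_cases h : Irr R u
    · exact ⟨u, .refl, h⟩
    · obtain ⟨v, hv⟩ := not_forall.1 h
      have hv := not_not.1 hv
      obtain ⟨w, a, b⟩ := ih v (by have := hv.len hl; omega)
      exact ⟨w, a.head hv, b⟩

theorem newman (h : ∀ u v w, St R u v → St R u w →
    ∃ z, ReflTransGen (St R) v z ∧ ReflTransGen (St R) w z) : Confl R := by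
  suffices ∀ n, ∀ u : List A, u.length < n → ∀ v w, ReflTransGen (St R) u v →
      ReflTransGen (St R) u w → ∃ z, ReflTransGen (St R) v z ∧ ReflTransGen (St R) w z from
    fun u => this _ u (Nat.lt_succ_self _)
  intro n
  induction n with
  | zero => intro u h; omega
  | succ n ih =>
    intro u hu v w h1 h2
    rcases h1.cases_head with rfl | ⟨v', a1, a2⟩
    · exact ⟨w, h2, .refl⟩
    rcases h2.cases_head with rfl | ⟨w', b1, b2⟩
    · exact ⟨v, .refl, a2.head a1⟩
    obtain ⟨z, c1, c2⟩ := h u v' w' a1 b1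
    obtain ⟨y, d1, d2⟩ := ih v' (by have := a1.len hl; omega) v z a2 c1
    obtain ⟨x, e1, e2⟩ := ih w' (by have := b1.len hl; omega) y w (c2.trans d2) b2
    exact ⟨x, d1.trans e1, e2⟩

omit hl

/-- local confluence from the analysis of overlaps -/
theorem loc (h : ∀ p ∈ R, ∀ q ∈ R, ∀ s v v', p.1 ++ v = s ++ (q.1 ++ v') → s.length < p.1.length →
    ∃ z, ReflTransGen (St R) (p.2 ++ v) z ∧ ReflTransGen (St R) (s ++ (q.2 ++ v')) z)
    (u v w : List A) (h1 : St R u v) (h2 : St R u w) :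
    ∃ z, ReflTransGen (St R) v z ∧ ReflTransGen (St R) w z := by
  have key : ∀ p ∈ R, ∀ q ∈ R, ∀ s v v', p.1 ++ v = s ++ (q.1 ++ v') →
      ∃ z, ReflTransGen (St R) (p.2 ++ v) z ∧ ReflTransGen (St R) (s ++ (q.2 ++ v')) z := by
    intro p hp q hq s v v' e
    by_cases k : s.length < p.1.length
    · exact h p hp q hq s v v' e k
    obtain ⟨s', rfl⟩ := List.prefix_of_prefix_length_le ⟨v, rfl⟩ ⟨_, e.symm⟩ (not_lt.1 k)
    obtain rfl : v = s' ++ (q.1 ++ v') := by simpa using e
    exact ⟨p.2 ++ s' ++ q.2 ++ v', .single ⟨q, hq, p.2 ++ s', v', by simp, rfl⟩,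
      .single ⟨p, hp, [], s' ++ q.2 ++ v', by simp, by simp⟩⟩
  obtain ⟨p, hp, a, b, rfl, rfl⟩ := h1
  obtain ⟨q, hq, c, d, e, rfl⟩ := h2
  rw [List.append_assoc, List.append_assoc, List.append_eq_append_iff] at e
  rcases e with ⟨s, rfl, e⟩ | ⟨s, rfl, e⟩
  · obtain ⟨z, k1, k2⟩ := key p hp q hq s b d e
    exact ⟨a ++ z, by simpa using ctx k1 a [], by simpa using ctx k2 a []⟩
  · obtain ⟨z, k1, k2⟩ := key q hq p hp s d b e
    exact ⟨c ++ z, by simpa using ctx k2 c [], by simpa using ctx k1 c []⟩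

end Pool.Agent.H24.Srs
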