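import Mathlib
import Pool.Agent.H24.Mon1
import Pool.Agent.H24.Srs

set_option autoImplicit false

namespace Pool.Agent.H24.Mon

open Pool.Agent.H24.Munn (alG mem_alG alG_prim card_prop)
open Pool.Agent.H24.Srs Relation Pool.Agent.H23

variable {A : Type} {R : Set (List A × List A)}

theorem irr_in {x u v : List A} (h : Irr R (u ++ x ++ v)) : Irr R x := fun _ k => h _ (k.ctx u v)

structure Mo (R : Set (List A × List A)) (K : ℕ) : Prop where
  m : ∀ p ∈ R, p.2.length ≤ 1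
  l : ∀ p ∈ R, p.2.length < p.1.length
  k : ∀ p ∈ R, p.1.length ≤ K
  c : Confl R

variable {K : ℕ} (H : Mo R K)
include H

theorem bd {x y W : List A} (hx : Irr R x) (hy : Irr R y) (h : ReflTransGen (St R) (x ++ y) W) :
    ∃ x1 x2 c y1 y2, x = x1 ++ x2 ∧ y = y1 ++ y2 ∧ c.length ≤ 1 ∧
      ReflTransGen (St R) (x2 ++ y1) c ∧ W = x1 ++ c ++ y2 := by
  induction h with
  | refl => exact ⟨x, [], [], [], y, by simp, rfl, by simp, .refl, by simp⟩
  | tail _ h ih =>
    obtain ⟨x1, x2, c, y1, y2, rfl, rfl, a, b, rfl⟩ := ih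
    obtain ⟨p, hp, u, v, e, rfl⟩ := h
    have l := congrArg List.length e
    simp only [List.length_append] at l
    have n1 : x1.length < u.length + p.1.length := by
      by_contra k
      obtain ⟨t, rfl⟩ := List.prefix_of_prefix_length_le (l₁ := u ++ p.1) (l₂ := x1) ⟨v, e.symm⟩
        ⟨c ++ y2, by simp⟩ (by simpa using k)
      exact hx _ ⟨p, hp, u, t ++ x2, by simp, rfl⟩
    have n2 : y2.length < p.1.length + v.length := by
      by_contra k
      obtain ⟨t, rfl⟩ := List.suffix_of_suffix_length_le (l₁ := p.1 ++ v) (l₂ := y2)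
        ⟨u, by simp [e]⟩ ⟨x1 ++ c, rfl⟩ (by simpa using k)
      exact hy _ ⟨p, hp, y1 ++ t, v, by simp, rfl⟩
    obtain ⟨u', rfl⟩ := List.prefix_of_prefix_length_le (l₁ := u) (l₂ := x1)
      ⟨p.1 ++ v, (List.append_assoc _ _ _).symm.trans e.symm⟩ ⟨c ++ y2, by simp⟩ (by omega)
    obtain ⟨v', rfl⟩ := List.suffix_of_suffix_length_le (l₁ := v) (l₂ := y2) ⟨_, e.symm⟩
      ⟨u ++ u' ++ c, rfl⟩ (by omega)
    have e2 : u' ++ c ++ v' = p.1 := List.append_cancel_right (bs := v)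
      (List.append_cancel_left (as := u) (by simpa using e))
    exact ⟨u, u' ++ x2, p.2, y1 ++ v', v, by simp, by simp, H.m p hp,
      .tail (by simpa using ctx b u' v') ⟨p, hp, [], [], by simp [← e2], by simp⟩, rfl⟩

theorem tail_irr {p q w y : List A} (h1 : Irr R (p ++ w)) (h2 : Irr R (q ++ w ++ y))
    (hw : K ≤ w.length) : Irr R (p ++ w ++ y) := by
  rintro _ ⟨r, hr, u, v, e, rfl⟩
  have l := congrArg List.length e
  simp only [List.length_append] at l
  by_cases k : u.length + r.1.length ≤ p.length + w.length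
  · obtain ⟨t, ht⟩ := List.prefix_of_prefix_length_le (l₁ := u ++ r.1) (l₂ := p ++ w) ⟨v, e.symm⟩
      ⟨y, rfl⟩ (by simpa using k)
    exact h1 _ ⟨r, hr, u, t, ht.symm, rfl⟩
  · have := H.k r hr
    obtain ⟨t, rfl⟩ := List.prefix_of_prefix_length_le (l₁ := p) (l₂ := u)
      ⟨w ++ y, (List.append_assoc _ _ _).symm⟩ ⟨r.1 ++ v, by simp [e]⟩ (by omega)
    exact h2 _ ⟨r, hr, q ++ t, v, by
      simpa using List.append_cancel_left (as := p) (by simpa using e), rfl⟩

theorem win {w w' y : List A} (e : w.drop (w.length - K) = w'.drop (w'.length - K))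
    (h1 : Irr R w') (h2 : Irr R (w ++ y)) : Irr R (w' ++ y) := by
  have l := congrArg List.length e
  simp only [List.length_drop] at l
  by_cases k : K ≤ w'.length
  · rw [← List.take_append_drop (w'.length - K) w'] at h1 ⊢
    rw [← List.take_append_drop (w.length - K) w, e] at h2
    exact tail_irr H h1 h2 (by simp; omega)
  · rw [show w.length - K = 0 by omega, show w'.length - K = 0 by omega] at e
    exact (show w = w' from e) ▸ h2

theorem small {x w y v : List A} (hx : Irr R x) (h : Irr R (w ++ y))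
    (k : cl R (x ++ w ++ y) = cl R v) :
    ∃ x1 x2 e, x = x1 ++ x2 ∧ e.length ≤ v.length + K + 1 ∧ cl R (x2 ++ w) = cl R e := by
  obtain ⟨W, a, b⟩ := ex_nf H.l _ (x ++ w) (Nat.lt_succ_self _)
  obtain ⟨x1, x2, c, w1, w2, rfl, rfl, a1, a2, rfl⟩ := bd H hx (irr_in (u := []) h) a
  refine ⟨x1, x2, c ++ w2, rfl, ?_, cl_of (by simpa using ctx a2 [] w2)⟩
  by_contra n
  have i := tail_irr H b h (by simp at n; omega)
  have := red_len H.l ((cl_irr H.c i).1 (k.symm.trans (cl_of (by simpa using ctx a [] y))))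
  simp at n
  rcases this with rfl | e
  · simp at n; omega
  · simp at e; omega

omit H

abbrev W (A : Type) (n : ℕ) := {l : List A // l.length ≤ n}

instance [Finite A] (n : ℕ) : Finite (W A n) := List.finite_length_le A n

theorem card_W {Λ : List A} (hΛ : ∀ a, a ∈ Λ) (n : ℕ) : Nat.card (W A n) ≤ (alG Λ n).length := by
  classical
  have i : Function.Injective fun z : W A n => (⟨z.1, List.mem_toFinset.2 ((mem_alG _ _ _).2
    ⟨z.2, fun _ _ => hΛ _⟩)⟩ : (alG Λ n).toFinset) := fun a b e => Subtype.ext (congrArg (·.1) e)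
  exact (Nat.card_le_card_of_injective _ i).trans
    ((Nat.card_eq_finsetCard _).trans_le (List.toFinset_card_le _))

def wd (K : ℕ) (w : List A) : W A K := ⟨w.drop (w.length - K), by simp; omega⟩

def f3 (Λ : List A) (K n N : ℕ) : ℕ :=
  2 * ((alG Λ K).length * 2 ^ (N * (alG Λ (n + K + 1)).length))

include H

theorem fi3 [Finite A] {Λ : List A} (hΛ : ∀ a, a ∈ Λ) {L : List A → Prop} {N n : ℕ}
    (hL : Sy L N) (hI : ∀ m, L m → Irr R m) (v : List A) (hv : v.length ≤ n) :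
    Fi (fun x => (Irr R x, Irr R x ∧ ∃ m, L m ∧ cl R (m ++ x) = cl R v)) (f3 Λ K n N) := by
  obtain ⟨T, _, σ, h1, h2⟩ := hL
  refine ⟨Prop × W A K × Set (T × W A (n + K + 1)), inferInstance, fun x => (Irr R x, wd K x,
    {t | ∃ m, σ m = t.1 ∧ cl R (m ++ x) = cl R t.2.1}), ?_, ?_⟩
  · rw [Nat.card_prod, Nat.card_prod, show Nat.card (Set (T × W A (n + K + 1))) = _ from Nat.card_fun,
      Nat.card_prod, f3, show Nat.card Prop = 2 by simp]
    have := card_W hΛ K
    have := card_W hΛ (n + K + 1)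
    gcongr
    simp
  suffices ∀ x x' : List A, (Irr R x, wd K x, {t : T × W A (n + K + 1) | ∃ m, σ m = t.1 ∧
      cl R (m ++ x) = cl R t.2.1}) = (Irr R x', wd K x', {t | ∃ m, σ m = t.1 ∧
      cl R (m ++ x') = cl R t.2.1}) → ∀ y, Irr R (x ++ y) → Irr R (x' ++ y) ∧
      ((∃ m, L m ∧ cl R (m ++ (x ++ y)) = cl R v) → ∃ m, L m ∧ cl R (m ++ (x' ++ y)) = cl R v) from
    fun x x' e y => Prod.ext (propext ⟨fun h => (this _ _ e y h).1, fun h => (this _ _ e.symm y h).1⟩)
      (propext ⟨fun h => (this _ _ e y h.1).imp_right (· h.2),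
        fun h => (this _ _ e.symm y h.1).imp_right (· h.2)⟩)
  intro x x' e y h
  simp only [Prod.mk.injEq] at e
  refine ⟨win H (congrArg Subtype.val e.2.1) (e.1 ▸ irr_in (u := []) h) h, fun ⟨m, a, b⟩ => ?_⟩
  obtain ⟨m1, m2, c, rfl, k1, k2⟩ := small H (v := v) (hI m a) h (by rw [List.append_assoc]; exact b)
  obtain ⟨m3, k3, k4⟩ := (Set.ext_iff.1 e.2.2 (σ m2, ⟨c, by omega⟩)).1 ⟨m2, rfl, k2⟩
  refine ⟨m1 ++ m3, ?_, ?_⟩
  · simpa [a] using h2 _ _ k3 m1 []
  · simp only [cl_append, mul_assoc] at b k2 k4 ⊢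
    rwa [← mul_assoc (cl R m3), k4, ← k2, mul_assoc]

omit H

theorem sy_eq (u : List A) : Sy (fun m => m = u) ((u.length + 2) ^ (u.length + 2)) := by
  classical
  refine Fi.sy ⟨Fin (u.length + 2), inferInstance,
    fun m => if h : m <+: u then ⟨m.length, by have := h.length_le; omega⟩ else Fin.last _, by simp,
    fun m m' e y => ?_⟩
  by_cases h : m <+: u <;> by_cases h' : m' <+: u
  · rw [(List.prefix_of_prefix_length_le h h' (by simpa [h, h', Fin.ext_iff] using e.le)).eq_of_length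
      (by simpa [h, h', Fin.ext_iff] using e)]
  · have := h.length_le
    simp [h, h', Fin.ext_iff] at e; omega
  · have := h'.length_le
    simp [h, h', Fin.ext_iff] at e; omega
  · exact propext ⟨fun k => absurd ⟨y, k⟩ h, fun k => absurd ⟨y, k⟩ h'⟩

theorem Sy.mono {S : Type} {f : List A → S} {n m : ℕ} (h : Sy f n) (k : n ≤ m) : Sy f m :=
  let ⟨T, i, σ, a, b⟩ := h; ⟨T, i, σ, a.trans k, b⟩

theorem Sy.map {S S' : Type} {f : List A → S} {n : ℕ} (h : Sy f n) (g : S → S') :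
    Sy (fun w => g (f w)) n :=
  let ⟨T, i, σ, a, b⟩ := h; ⟨T, i, σ, a, fun u v e x y => congrArg g (b u v e x y)⟩

def s1 (Λ : List A) (K n : ℕ) : ℕ := f3 Λ K n ((n + 2) ^ (n + 2)) ^ f3 Λ K n ((n + 2) ^ (n + 2))

theorem sy1 (H : Mo R K) [Finite A] {Λ : List A} (hΛ : ∀ a, a ∈ Λ) {n : ℕ} {u v : List A}
    (hu : Irr R u) (h1 : u.length ≤ n) (h2 : v.length ≤ n) :
    Sy (fun x => (Irr R x, Irr R x ∧ cl R (u ++ x) = cl R v)) (s1 Λ K n) := by
  simpa [s1] using (fi3 H hΛ ((sy_eq u).mono (m := (n + 2) ^ (n + 2)) (by gcongr <;> omega))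
    (fun m h => h ▸ hu) v h2).sy

def Rv (R : Set (List A × List A)) : Set (List A × List A) := {p | (p.1.reverse, p.2.reverse) ∈ R}

theorem st_rv (u v : List A) : St (Rv R) u v ↔ St R u.reverse v.reverse := by
  constructor
  · rintro ⟨p, hp, x, y, rfl, rfl⟩
    exact ⟨_, hp, y.reverse, x.reverse, by simp, by simp⟩
  · rintro ⟨p, hp, x, y, a, b⟩
    exact ⟨(p.1.reverse, p.2.reverse), by simpa [Rv] using hp, y.reverse, x.reverse,
      by simp [List.reverse_eq_iff.1 a], by simp [List.reverse_eq_iff.1 b]⟩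

theorem rt_rv (u v : List A) :
    ReflTransGen (St (Rv R)) u v ↔ ReflTransGen (St R) u.reverse v.reverse :=
  ⟨fun h => h.lift _ fun _ _ => (st_rv _ _).1, fun h => by
    simpa [Function.onFun] using h.lift (p := St (Rv R)) List.reverse fun _ _ k => (st_rv _ _).2 (by simpa using k)⟩

theorem irr_rv (u : List A) : Irr (Rv R) u ↔ Irr R u.reverse :=
  ⟨fun h v k => h v.reverse ((st_rv _ _).2 (by simpa using k)), fun h v k => h _ ((st_rv _ _).1 k)⟩

theorem Mo.rv (H : Mo R K) : Mo (Rv R) K :=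
  ⟨fun p h => by simpa using H.m _ h, fun p h => by simpa using H.l _ h,
    fun p h => by simpa using H.k _ h, fun u v w a b => by
      obtain ⟨z, c, d⟩ := H.c _ _ _ ((rt_rv _ _).1 a) ((rt_rv _ _).1 b)
      exact ⟨z.reverse, (rt_rv _ _).2 (by simpa using c), (rt_rv _ _).2 (by simpa using d)⟩⟩

theorem cl_rv (H : Mo R K) (u v : List A) :
    cl (Rv R) u = cl (Rv R) v ↔ cl R u.reverse = cl R v.reverse := by
  simp only [cl_iff H.c, cl_iff H.rv.c, rt_rv]
  exact ⟨fun ⟨z, h⟩ => ⟨_, h⟩, fun ⟨z, h⟩ => ⟨z.reverse, by simpa using h⟩⟩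

theorem sy2 (H : Mo R K) [Finite A] {Λ : List A} (hΛ : ∀ a, a ∈ Λ) {n : ℕ} {u v : List A}
    (hu : Irr R u) (h1 : u.length ≤ n) (h2 : v.length ≤ n) :
    Sy (fun x => (Irr R x, Irr R x ∧ cl R (x ++ u) = cl R v)) (s1 Λ K n) := by
  simpa [irr_rv, cl_rv H] using (sy1 H.rv hΛ (u := u.reverse) (v := v.reverse)
    (by simpa [irr_rv] using hu) (by simpa using h1) (by simpa using h2)).rev

theorem nf' (H : Mo R K) (a : List A) : ∃ a', Irr R a' ∧ cl R a = cl R a' ∧ a'.length ≤ a.length :=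
  let ⟨a', h, k⟩ := ex_nf H.l _ a (Nat.lt_succ_self _)
  ⟨a', k, cl_of h, (red_len H.l h).elim (fun e => e ▸ le_rfl) le_of_lt⟩

def bG (Λ : List A) (K n N : ℕ) : ℕ := (s1 Λ K n * (s1 Λ K n * N) + 2) *
  (s1 Λ K n * (s1 Λ K n * N) + s1 Λ K n * (s1 Λ K n * N) + n + n)

theorem bound (H : Mo R K) [Finite A] {Λ : List A} (hΛ : ∀ a, a ∈ Λ) {n N : ℕ} {a b g : List A}
    (ha : a.length < n) (hb : b.length < n) {S : Type} {F : List A → S} (hF : Sy F N)
    (h : cl R (a ++ g) = cl R (g ++ b)) : ∃ g', g'.length ≤ bG Λ K n N ∧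
      cl R (a ++ g') = cl R (g' ++ b) ∧ ∃ X X', Irr R X ∧ cl R X = cl R (a ++ g) ∧
      cl R X' = cl R (a ++ g') ∧ F X = F X' := by
  obtain ⟨a', a1, a2, a3⟩ := nf' H a
  obtain ⟨b', b1, b2, b3⟩ := nf' H b
  obtain ⟨g, g1, g2, -⟩ := nf' H g
  simp only [cl_append, a2, b2, g2] at h ⊢
  obtain ⟨X, x1, x2⟩ := ex_nf H.l _ (a' ++ g) (Nat.lt_succ_self _)
  obtain ⟨g3, g4, c', y1, y2, e1, rfl, c1, c2, e2⟩ := bd H g1 b1
    ((cl_irr H.c x2).1 (h.symm.trans (cl_of x1)))
  obtain ⟨u1, u2, c, g1', g2', rfl, e3, d1, d2, rfl⟩ := bd H a1 g1 x1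
  simp only [List.length_append] at a3 b3
  obtain ⟨h1, h2, h3, h4, k1, k2, k3, k4, k5, k6⟩ := solve
    ((sy1 H hΛ (n := n) (v := u1 ++ c) a1 (by simp; omega) (by simp; omega)).prod
      ((sy2 H hΛ (n := n) (v := c' ++ y2) b1 (by simp; omega) (by simp; omega)).prod hF))
    (e3.symm.trans e1) (e2.trans (List.append_assoc _ _ _))
  simp only [Prod.mk.injEq, eq_iff_iff] at k3 k4 k5
  have p1 := (k3.1.2.1 ⟨irr_in (u := []) (e3 ▸ g1), cl_of (by simpa using ctx d2 u1 [])⟩).2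
  have p2 := (k4.2.1.2.1 ⟨irr_in (v := []) (by simpa [e1] using g1),
    cl_of (by simpa using ctx c2 [] y2)⟩).2
  have p3 : cl R (u1 ++ c ++ h2) = cl R (u1 ++ u2) * cl R (h1 ++ h2) := by
    rw [cl_append, ← p1, cl_append, cl_append h1, mul_assoc]
  refine ⟨h1 ++ h2, k6.trans ?_, ?_, _, _, x2, (cl_of x1).symm, p3, k5.2.2⟩
  · unfold bG; simp only [List.length_append]; gcongr <;> omega
  · change cl R (u1 ++ u2) * cl R (h1 ++ h2) = cl R (h1 ++ h2) * cl R (y1 ++ y2)
    rw [← p3, k2, k1, cl_append h3, cl_append h3, mul_assoc, ← p2, cl_append h4]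

theorem ann (H : Mo R K) [Finite A] {Λ : List A} (hΛ : ∀ a, a ∈ Λ) {n : ℕ} {a x ζ : List A}
    (ha : a.length ≤ n) (hx : x.length ≤ n) (hζ : ζ.length ≤ n)
    (h : ∀ m : List A, m.length ≤ s1 Λ K n * s1 Λ K n → cl R (m ++ x) = cl R ζ →
      cl R (m ++ a) = cl R ζ) (m : List A) (k : cl R (m ++ x) = cl R ζ) :
    cl R (m ++ a) = cl R ζ := by
  obtain ⟨a', a1, a2, a3⟩ := nf' H a
  obtain ⟨x', b1, b2, b3⟩ := nf' H x
  obtain ⟨m', c1, c2, -⟩ := nf' H m
  obtain ⟨m0, d1, d2⟩ := ((sy2 H hΛ a1 (a3.trans ha) hζ).prod (sy2 H hΛ b1 (b3.trans hx) hζ)).short m'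
  have := d1 [] []
  simp only [cl_append, a2, b2, c2, List.nil_append, List.append_nil, Prod.mk.injEq,
    eq_iff_iff] at this h k ⊢
  exact (this.1.2.2 ⟨this.1.1.1 c1, h m0 d2 (this.2.2.1 ⟨c1, k⟩).2⟩).2

def bZ (Λ : List A) (K n : ℕ) : ℕ := bG Λ K n (f3 Λ K n (s1 Λ K n) ^ f3 Λ K n (s1 Λ K n))

theorem boundZ (H : Mo R K) [Finite A] {Λ : List A} (hΛ : ∀ a, a ∈ Λ) {n : ℕ} {a b g ζ : List A}
    (ha : a.length < n) (hb : b.length < n) (hζ : ζ.length ≤ n)
    (h : cl R (a ++ g) = cl R (g ++ b))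
    (k : ∀ m, cl R (m ++ (a ++ g)) = cl R ζ → cl R (m ++ a) = cl R ζ) :
    ∃ g', g'.length ≤ bZ Λ K n ∧ cl R (a ++ g') = cl R (g' ++ b) ∧
      ∀ m, cl R (m ++ (a ++ g')) = cl R ζ → cl R (m ++ a) = cl R ζ := by
  obtain ⟨a', a1, a2, a3⟩ := nf' H a
  obtain ⟨g', b1, b2, X, X', b3, b4, b5, b6⟩ := bound H hΛ ha hb (fi3 H hΛ
    ((sy2 H hΛ (n := n) a1 (by omega) hζ).map fun p => p.1 ∧ ¬ p.2) (fun _ h => h.1) ζ hζ).sy h
  refine ⟨g', b1, b2, fun m hm => ?_⟩
  obtain ⟨m', c1, c2, -⟩ := nf' H m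
  simp only [Prod.mk.injEq, eq_iff_iff] at b6
  by_contra n
  obtain ⟨-, m0, ⟨d1, d2⟩, d3⟩ := b6.2.2 ⟨b6.1.1 b3, m', ⟨c1, fun e => n (by
    rw [cl_append, c2, a2]; exact e.2)⟩, by rw [cl_append, ← c2, b5]; exact hm⟩
  exact d2 ⟨d1, by rw [cl_append, ← a2]; exact k m0 (by rw [cl_append, ← b4]; exact d3)⟩

section
variable [Primcodable A] [DecidableEq A] (Q : List (List A × List A))

def suc (u : List A) : List (List A) := (List.range (u.length + 1)).flatMap fun i =>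
  Q.flatMap fun p => cond ((u.drop i).take p.1.length == p.1)
    [u.take i ++ p.2 ++ u.drop (i + p.1.length)] []

def desc (u : List A) (n : ℕ) : List (List A) :=
  Nat.rec [u] (fun _ L => L ++ L.flatMap (suc Q)) n

def eqB (u v : List A) : Bool := (desc Q u u.length).any fun z => (desc Q v v.length).any (· == z)

theorem eqB_prim : Primrec₂ (eqB Q) := by
  have h : Primrec (suc Q) := by unfold suc; fun_prop
  have h2 : Primrec fun u => desc Q u u.length := by unfold desc; fun_prop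
  show Primrec fun p : List A × List A => eqB Q p.1 p.2
  unfold eqB
  exact PR.any' (h2.comp Primrec.fst) (PR.any' (h2.comp (by fun_prop)) (by fun_prop))

omit [Primcodable A]

theorem mem_suc (u v : List A) : v ∈ suc Q u ↔ St {p | p ∈ Q} u v := by
  simp only [suc, List.mem_flatMap, List.mem_range, Bool.cond_eq_ite, beq_iff_eq]
  constructor
  · rintro ⟨i, _, p, hp, h⟩
    split_ifs at h with e
    · refine ⟨p, hp, _, _, ?_, List.mem_singleton.1 h⟩
      rw [← List.drop_drop]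
      conv_rhs => lhs; rw [← e]
      rw [List.append_assoc, List.take_append_drop, List.take_append_drop]
    · simp at h
  · rintro ⟨p, hp, x, y, rfl, rfl⟩
    exact ⟨x.length, by simp, p, hp, by simp⟩

theorem eqB_iff (H : Mo {p | p ∈ Q} K) (u v : List A) :
    eqB Q u v = true ↔ cl {p | p ∈ Q} u = cl {p | p ∈ Q} v := by
  have a : ∀ u n z, z ∈ desc Q u n → ReflTransGen (St {p | p ∈ Q}) u z := fun u n => by
    induction n with
    | zero => intro z h; rw [List.mem_singleton.1 h]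
    | succ n ih =>
      intro z h
      rcases List.mem_append.1 h with h | h
      · exact ih z h
      · obtain ⟨y, h1, h2⟩ := List.mem_flatMap.1 h
        exact (ih y h1).tail ((mem_suc Q _ _).1 h2)
  have b : ∀ u z, ReflTransGen (St {p | p ∈ Q}) u z → ∀ n, u.length ≤ n + z.length →
      z ∈ desc Q u n := fun u z h => by
    induction h with
    | refl =>
      intro n h
      clear h
      induction n with
      | zero => exact List.mem_singleton_self _
      | succ n ih => exact List.mem_append_left _ ih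
    | tail k h ih =>
      have := h.len H.l
      have := red_len H.l k
      rintro (_ | n) hn
      · rcases this with rfl | _ <;> omega
      · exact List.mem_append_right _ (List.mem_flatMap.2 ⟨_, ih n (by omega), (mem_suc Q _ _).2 h⟩)
  simp only [eqB, List.any_eq_true, beq_iff_eq, exists_eq_right, cl_iff H.c]
  exact exists_congr fun z => ⟨fun h => ⟨a _ _ _ h.1, a _ _ _ h.2⟩,
    fun h => ⟨b _ _ h.1 _ (by omega), b _ _ h.2 _ (by omega)⟩⟩

end

theorem final [Finite A] [Primcodable A] (hR : R.Finite)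
    (hm : ∀ p ∈ R, p.2.length ≤ 1 ∧ p.2.length < p.1.length) (hc : Confl R) :
    ComputablePred fun x : List A × List A => CConj (cl R x.1) (cl R x.2) := by
  classical
  obtain ⟨K, hK⟩ := (hR.image fun p => p.1.length).bddAbove
  have H : Mo R K := ⟨fun p h => (hm p h).1, fun p h => (hm p h).2, fun p h => hK ⟨p, h, rfl⟩, hc⟩
  obtain ⟨Q, rfl⟩ : ∃ Q : List (List A × List A), R = {p | p ∈ Q} := ⟨hR.toFinset.toList, by simp⟩
  haveI := Fintype.ofFinite A
  obtain ⟨Λ, hΛ⟩ : ∃ Λ : List A, ∀ a, a ∈ Λ := ⟨Finset.univ.toList, by simp⟩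
  have p0 : Primrec (alG Λ) := alG_prim.comp (Primrec.const Λ) Primrec.id
  have p1 : Primrec fun p : ℕ × ℕ => f3 Λ K p.1 p.2 := by unfold f3; fun_prop
  have p1' : Primrec fun n => f3 Λ K n ((n + 2) ^ (n + 2)) :=
    Primrec₂.comp (f := f3 Λ K) p1 Primrec.id (by fun_prop)
  have p2 : Primrec (s1 Λ K) := PR.pow' p1' p1'
  have p3 : Primrec fun p : ℕ × ℕ => bG Λ K p.1 p.2 := by unfold bG; fun_prop
  have p4 : Primrec fun n => f3 Λ K n (s1 Λ K n) := Primrec₂.comp (f := f3 Λ K) p1 Primrec.id p2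
  have p5 : Primrec (bZ Λ K) := Primrec₂.comp (f := bG Λ K) p3 Primrec.id (PR.pow' p4 p4)
  suffices ∃ f : List A × List A → Bool, Primrec f ∧ ∀ a b, f (a, b) = true ↔
      ∃ g ∈ PP (cl {p | p ∈ Q} a), cl _ a * g = g * cl _ b by
    obtain ⟨f, h1, h2⟩ := this
    refine ComputablePred.computable_iff.2 ⟨fun x => f x && f (x.2, x.1),
      (PR.and' h1 (h1.comp (by fun_prop))).to_comp, funext fun ⟨a, b⟩ => propext ?_⟩
    simp only [Bool.and_eq_true, h2, CConj]
    exact ⟨fun ⟨g, a, h, b, c, d⟩ => ⟨⟨g, a, c⟩, h, b, d⟩, fun ⟨⟨g, a, c⟩, h, b, d⟩ =>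
      ⟨g, a, h, b, c, d⟩⟩
  by_cases hz : ∃ z : (cg {p | p ∈ Q}).Quotient, IsZ z
  · obtain ⟨z, hz⟩ := hz
    obtain ⟨ζ, rfl⟩ := cl_surj z
    refine ⟨fun x => (alG Λ (bZ Λ K (x.1.length + x.2.length + ζ.length + 1))).any fun g =>
      eqB Q (x.1 ++ g) (g ++ x.2) && (alG Λ (s1 Λ K (x.1.length + g.length + ζ.length) *
        s1 Λ K (x.1.length + g.length + ζ.length))).all fun m =>
        !eqB Q (m ++ (x.1 ++ g)) ζ || eqB Q (m ++ x.1) ζ,
      PR.any' (by fun_prop) (PR.and' ((eqB_prim Q).comp (by fun_prop) (by fun_prop))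
        (PR.all' (by fun_prop) (PR.or' (PR.not' ((eqB_prim Q).comp (by fun_prop) (by fun_prop)))
          ((eqB_prim Q).comp (by fun_prop) (by fun_prop))))), fun a b => ?_⟩
    simp only [List.any_eq_true, Bool.and_eq_true, List.all_eq_true, mem_alG, hΛ, implies_true,
      and_true, Bool.or_eq_true, Bool.not_eq_true', ← Bool.not_eq_true, eqB_iff Q H,
      ← imp_iff_not_or]
    have u : ∀ y, IsZ y → y = cl _ ζ := fun y hy => (hy _).1.symm.trans (hz y).2
    constructor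
    · rintro ⟨g, -, h1, h2⟩
      by_cases e : cl {p | p ∈ Q} a = cl _ ζ
      · exact ⟨cl _ ζ, fun y hy => ⟨fun _ => (u y hy).symm, fun k => absurd (e.trans (u y hy).symm) k⟩,
          (hz _).2.trans (hz _).1.symm⟩
      refine ⟨cl _ g, fun y hy => ⟨fun k => absurd (k.trans (u y hy)) e, fun _ m => ?_⟩, h1⟩
      obtain ⟨m, rfl⟩ := cl_surj m
      rw [u y hy, mul_assoc]
      exact ann H hΛ (by omega) (by simp) (by omega) h2 m
    · rintro ⟨g, h1, h2⟩
      obtain ⟨g, rfl⟩ := cl_surj g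
      obtain ⟨g', a1, a2, a3⟩ := boundZ H hΛ (n := a.length + b.length + ζ.length + 1) (ζ := ζ)
        (a := a) (b := b) (g := g)
        (by omega) (by omega) (by omega) h2 fun m hm => by
          by_cases e : cl {p | p ∈ Q} a = cl _ ζ
          · rw [cl_append, e]; exact (hz _).2
          · exact (h1 _ hz).2 e (cl _ m) ((mul_assoc _ _ _).trans hm)
      exact ⟨g', a1, a2, fun m _ => a3 m⟩
  · refine ⟨fun x => (alG Λ (bG Λ K (x.1.length + x.2.length + 1) 1)).any fun g =>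
      eqB Q (x.1 ++ g) (g ++ x.2), PR.any' (p0.comp (Primrec₂.comp (f := bG Λ K) p3 (by fun_prop)
        (by fun_prop))) ((eqB_prim Q).comp (by fun_prop) (by fun_prop)), fun a b => ?_⟩
    simp only [List.any_eq_true, mem_alG, hΛ, implies_true, and_true, eqB_iff Q H]
    refine ⟨fun ⟨g, _, h⟩ => ⟨cl _ g, fun y hy => absurd ⟨y, hy⟩ hz, h⟩, fun ⟨g, _, h⟩ => ?_⟩
    obtain ⟨g, rfl⟩ := cl_surj g
    obtain ⟨g', a1, a2, -⟩ := bound H hΛ (n := a.length + b.length + 1) (F := fun _ => ())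
      (a := a) (b := b) (g := g)
      (by omega) (by omega) ⟨Unit, inferInstance, fun _ => (), le_of_eq Nat.card_unique,
        fun _ _ _ _ _ => rfl⟩ h
    exact ⟨g', a1, a2⟩

end Pool.Agent.H24.Mon
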