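import Mathlib
import Pool.Agent.H24.Munn7

set_option autoImplicit false

namespace Pool.Agent.H24.Munn

open FreeGroup Pool.Agent.H24.Glue Relation Pool.Agent.H23

variable {k : ℕ}

abbrev Tr (k : ℕ) := ℕ × Option (Fin k ⊕ Fin k) × ℕ

def cv : Fin k ⊕ Fin k → La k := Sum.elim (fun i => (i, true)) (fun i => (i, false))
def fo (o : Option (Fin k ⊕ Fin k)) : List (La k) := (o.map cv).toList
def fm (l : List (Tr k)) : List (La k) := l.flatMap fun t => fo t.2.1
def st (l : List (Tr k)) (q : ℕ) : Option ℕ :=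
  l.foldr (fun t s => cond (s == some t.2.2) (some t.1) none) (some q)

theorem st_cons (t : Tr k) (l : List (Tr k)) (p q : ℕ) :
    st (t :: l) q = some p ↔ t.1 = p ∧ st l q = some t.2.2 := by
  show cond (st l q == some t.2.2) (some t.1) none = some p ↔ _
  by_cases h : st l q = some t.2.2
  · simp [h]
  · simp [h, beq_false_of_ne h]

theorem st_append (l l' : List (Tr k)) (p q : ℕ) :
    st (l ++ l') q = some p ↔ ∃ r, st l r = some p ∧ st l' q = some r := by
  induction l generalizing p with
  | nil => simp [st, eq_comm]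
  | cons t l ih =>
    simp only [List.cons_append, st_cons, ih]
    exact ⟨fun ⟨a, r, b, c⟩ => ⟨r, ⟨a, b⟩, c⟩, fun ⟨r, ⟨a, b⟩, c⟩ => ⟨a, r, b, c⟩⟩

theorem st_iff (l : List (Tr k)) (p q : ℕ) : st l q = some p ↔
    (∀ i : ℕ, i + 1 < l.length → (l[i]?).map (fun t => t.2.2) = (l[i+1]?).map (fun t => t.1)) ∧
      ((l.head?).map (fun t => t.1)).getD p = p ∧
      ((l.getLast?).map (fun t => t.2.2)).getD p = q := by
  induction l generalizing p with
  | nil => simp [st, eq_comm]
  | cons t l ih =>
    rw [st_cons, ih]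
    cases l with
    | nil => simp
    | cons s l =>
      simp only [List.length_cons, List.head?_cons, Option.map_some, Option.getD_some,
        List.getLast?_cons_cons]
      have e : ∀ a b, (((s :: l).getLast?).map (fun t => t.2.2)).getD a =
          (((s :: l).getLast?).map (fun t => t.2.2)).getD b := fun a b => by
        rw [List.getLast?_cons]; rfl
      rw [e p t.2.2]
      constructor
      · rintro ⟨a, b, c, d⟩
        refine ⟨fun i hi => ?_, a, d⟩
        cases i with
        | zero => simp [c]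
        | succ i => exact b i (by omega)
      · rintro ⟨a, b, c⟩
        exact ⟨b, fun i hi => a (i + 1) (by omega), by simpa [eq_comm] using a 0 (by omega), c⟩

def E (δ : List (Tr k)) (p : ℕ) (v : List (La k)) (q : ℕ) : Prop :=
  ∃ l, (∀ t ∈ l, t ∈ δ) ∧ st l q = some p ∧ fm l = v

theorem E.append {δ : List (Tr k)} {p q r : ℕ} {u v : List (La k)} (h : E δ p u q)
    (h' : E δ q v r) : E δ p (u ++ v) r := by
  obtain ⟨l, a, b, rfl⟩ := h
  obtain ⟨l', a', b', rfl⟩ := h'
  exact ⟨l ++ l', fun t ht => (List.mem_append.1 ht).elim (a t) (a' t),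
    (st_append _ _ _ _).2 ⟨_, b, b'⟩, List.flatMap_append⟩

theorem E.one {δ : List (Tr k)} {t : Tr k} (h : t ∈ δ) : E δ t.1 (fo t.2.1) t.2.2 :=
  ⟨[t], by simpa using h, by simp [st], by simp [fm]⟩

abbrev InE (k : ℕ) := List (Tr k) × List ℕ

def nE (A : InE k) : ℕ := A.1.foldr (fun e s => e.2.2 + s) 0 + 1

theorem nE_lt (A : InE k) : ∀ e ∈ A.1, e.2.2 < nE A := by
  obtain ⟨δ, F⟩ := A
  simp only [nE]
  induction δ with
  | nil => simp
  | cons e δ ih =>
    simp only [List.foldr_cons, List.mem_cons, forall_eq_or_imp]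
    exact ⟨by omega, fun e he => by have := ih e he; omega⟩

def autE (A : InE k) : Aut (Fin k) (Fin (nE A)) :=
  ⟨fun p x q => E A.1 p [x] q, ⟨0, Nat.succ_pos _⟩, fun q => ∃ f ∈ A.2, E A.1 q [] f⟩

theorem run_E (A : InE k) (v : List (La k)) (p : Fin (nE A)) :
    (∃ q, (autE A).F q ∧ Run (autE A).d p v q) ↔ ∃ f ∈ A.2, E A.1 p v f := by
  constructor
  · rintro ⟨q, ⟨f, h1, h2⟩, h3⟩
    refine ⟨f, h1, ?_⟩
    induction v generalizing p with
    | nil => exact (show p = q from h3) ▸ h2
    | cons x v ih =>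
      obtain ⟨p', a, b⟩ := h3
      exact E.append a (ih p' b)
  · rintro ⟨f, h1, l, h2, h3, rfl⟩
    induction l generalizing p with
    | nil => exact ⟨p, ⟨f, h1, [], h2, h3, rfl⟩, rfl⟩
    | cons t l ih =>
      obtain ⟨a, b⟩ := (st_cons _ _ _ _).1 h3
      have ht := h2 t List.mem_cons_self
      obtain ⟨q, c, d⟩ := ih ⟨_, nE_lt A t ht⟩ (fun s hs => h2 s (List.mem_cons_of_mem _ hs)) b
      have e := E.one ht
      rw [a] at e
      show ∃ q, _ ∧ Run _ p (fo t.2.1 ++ fm l) q
      cases ho : t.2.1 with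
      | some x => exact ⟨q, c, _, by rw [ho] at e; exact e, d⟩
      | none =>
        rw [ho] at e
        show ∃ q, _ ∧ Run _ p (fm l) q
        generalize fm l = v at d
        cases v with
        | nil =>
          obtain rfl : _ = q := d
          obtain ⟨f', c1, c2⟩ := c
          exact ⟨p, ⟨f', c1, e.append c2⟩, rfl⟩
        | cons x v =>
          obtain ⟨p', d1, d2⟩ := d
          exact ⟨q, c, p', e.append d1, d2⟩

def allL (δ : List (Tr k)) (n : ℕ) : List (List (Tr k)) :=
  Nat.rec [[]] (fun _ L => [] :: L.flatMap fun w => δ.map fun t => t :: w) n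

theorem mem_allL (δ : List (Tr k)) (n : ℕ) (l : List (Tr k)) :
    l ∈ allL δ n ↔ l.length ≤ n ∧ ∀ t ∈ l, t ∈ δ := by
  induction n generalizing l with
  | zero => cases l <;> simp [allL]
  | succ n ih =>
    show l ∈ [] :: (allL δ n).flatMap _ ↔ _
    cases l with
    | nil => simp
    | cons t l => simp [ih, and_comm, and_left_comm, -Prod.exists, -Prod.forall]

theorem fm_split (l : List (Tr k)) (i : ℕ) : fm (l.take i) ++ fm (l.drop i) = fm l := by
  rw [fm, fm, ← List.flatMap_append, List.take_append_drop]; rfl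

def accE (A : InE k) (v : List (La k)) : Bool :=
  (allL A.1 ((A.1.length + 2) * (v.length + 1))).any fun l =>
    (A.2.any fun f => st l f == some 0) && fm l == v

theorem accE_iff (A : InE k) (v : List (La k)) : accE A v = true ↔ ∃ f ∈ A.2, E A.1 0 v f := by
  simp only [accE, List.any_eq_true, mem_allL, Bool.and_eq_true, beq_iff_eq]
  refine ⟨fun ⟨l, a, ⟨f, b, c⟩, d⟩ => ⟨f, b, l, a.2, c, d⟩, fun ⟨f, b, l, h⟩ => ?_⟩
  obtain ⟨l', ⟨a, c, d⟩, e⟩ := shorten (fun l => (∀ t ∈ l, t ∈ A.1) ∧ st l f = some 0 ∧ fm l = v)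
    (fun l i => (st (l.drop i) f, (fm (l.drop i)).length))
    ((none :: some f :: A.1.map fun t => some t.1).toFinset ×ˢ Finset.range (v.length + 1))
    (fun l ⟨a, _, d⟩ i => by
      refine Finset.mem_product.2 ⟨?_, ?_⟩
      · have : ∀ t ∈ l.drop i, t ∈ A.1 := fun t ht => a t (List.mem_of_mem_drop ht)
        dsimp only
        generalize l.drop i = m at this
        cases m with
        | nil => simp [st]
        | cons t m =>
          cases hs : st (t :: m) f with
          | none => simp
          | some p =>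
            rw [← ((st_cons _ _ _ _).1 hs).1]
            simp only [List.mem_toFinset, List.mem_cons, List.mem_map]
            exact Or.inr (Or.inr ⟨t, this t List.mem_cons_self, rfl⟩)
      · have := congrArg List.length (fm_split l i)
        rw [d, List.length_append] at this
        exact Finset.mem_range.2 (by dsimp only; omega))
    (fun l i j _ _ ⟨a, c, d⟩ e => by
      simp only [Prod.mk.injEq] at e
      refine ⟨fun t ht => a t ((List.mem_append.1 ht).elim List.mem_of_mem_take
        List.mem_of_mem_drop), ?_, ?_⟩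
      · rw [← List.take_append_drop i l, st_append, e.1] at c
        exact (st_append _ _ _ _).2 c
      · have s : ∀ i, fm (l.take i) ++ fm (l.drop i) = v := fun i => (fm_split l i).trans d
        have := (List.append_inj' ((s i).trans (s j).symm) e.2).2
        rw [← s i, this]
        exact List.flatMap_append) _ l (Nat.lt_succ_self _) h
  refine ⟨l', ⟨e.trans ?_, a⟩, ⟨f, b, c⟩, d⟩
  rw [Finset.card_product, Finset.card_range]
  exact Nat.mul_le_mul_right _ ((List.toFinset_card_le _).trans (by simp))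

def memE (A : InE k) (w : List (La k)) : Bool :=
  (allW k (bd (w.length + 1) (nE A))).any fun v => accE A v && meq w v

theorem memE_iff (A : InE k) (w : List (La k)) :
    memE A w = true ↔ Mem (autE A) (V w) (mk w) := by
  simp only [memE, List.any_eq_true, Bool.and_eq_true, meq_iff, accE_iff]
  constructor
  · rintro ⟨v, _, h, a, b⟩
    obtain ⟨q, c, d⟩ := (run_E A v (autE A).s).2 h
    exact ⟨v, q, c, d, a.symm, b.symm⟩
  · rintro ⟨u, f, a1, a2, h2, h3⟩
    obtain ⟨u', b1, b2, b3, b4⟩ := pump (autE A) _ u f (Nat.lt_succ_self _) a2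
    rw [Fintype.card_fin, h2] at b4
    exact ⟨u', mem_allW _ _ (b4.trans (bd_mono _ (V_card w))),
      (run_E A u' (autE A).s).1 ⟨f, a1, b1⟩, (b2.trans h2).symm, (b3.trans h3).symm⟩

def testE (c : ℕ) (A : InE k) : Bool :=
  (allW k (b1 c k (nE A) + 1)).all fun u => (allW k (b1 c k (nE A))).any fun v =>
    (allW k (b2 c k (nE A) (u.length + v.length))).all fun w => memE A (u ++ w) == memE A (v ++ w)

theorem accE_prim : Primrec fun p : InE k × List (La k) => accE p.1 p.2 := by
  have g0 : Primrec (fo (k := k)) := Primrec.dom_finite _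
  have g1 : Primrec (fm (k := k)) := by unfold fm; fun_prop
  have g2 : Primrec fun p : List (Tr k) × ℕ => st p.1 p.2 := by unfold st; fun_prop
  have g3 : Primrec fun p : List (Tr k) × ℕ => allL p.1 p.2 := by unfold allL; fun_prop
  unfold accE
  refine PR.any' (g3.comp (PR.pair' (by fun_prop) (by fun_prop))) (PR.and' (PR.any' (by fun_prop)
      (PR.beq' (g2.comp (PR.pair' (by fun_prop) (by fun_prop))) (by fun_prop))) (by fun_prop))

theorem allW_prim : Primrec (allW k) := by unfold allW; fun_prop
theorem nE_prim : Primrec (nE (k := k)) := by unfold nE; fun_prop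

theorem memE_prim : Primrec fun p : InE k × List (La k) => memE p.1 p.2 := by
  have h0 := HomP.red_prim (k := k)
  have h1 := allW_prim (k := k)
  have h3 : Primrec fun p : List (La k) × List (La k) => sub p.1 p.2 := by unfold sub; fun_prop
  have h4 : Primrec fun p : List (La k) × List (La k) => meq p.1 p.2 :=
    PR.and' h3 (PR.and' (h3.comp (Primrec.snd.pair Primrec.fst)) (by fun_prop))
  have h5 := nE_prim (k := k)
  unfold memE bd
  refine PR.any' (by fun_prop) (PR.and' (Primrec₂.comp (f := accE) accE_prim (by fun_prop) (by fun_prop))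
      (h4.comp (PR.pair' (by fun_prop) (by fun_prop))))

theorem b_prim (c : ℕ) : Primrec (b1 c k) ∧ Primrec fun p : ℕ × ℕ => b2 c k p.1 p.2 := by
  have h1 := allW_prim (k := k)
  have k0 : Primrec cT2 := by unfold cT2; fun_prop
  have k1 : Primrec bW := by unfold bW; fun_prop
  have k2 : Primrec (bD c) := by unfold bD; fun_prop
  have k3 : Primrec (bE c) := by unfold bE; fun_prop
  have k4 : Primrec (bT c) := by unfold bT; fun_prop
  refine ⟨?_, ?_⟩
  · unfold b1 bd; fun_prop
  · unfold b2 bd; fun_prop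

theorem testE_prim (c : ℕ) : Primrec (testE (k := k) c) := by
  have h1 := allW_prim (k := k)
  have h5 := nE_prim (k := k)
  have k5 := (b_prim (k := k) c).1
  unfold testE
  refine PR.all' (by fun_prop) (PR.any' (by fun_prop) (PR.all'
    (h1.comp (Primrec₂.comp (f := b2 c k) (b_prim c).2 (by fun_prop) (by fun_prop)))
    (PR.beq' (Primrec₂.comp (f := memE) memE_prim (by fun_prop) (by fun_prop))
      (Primrec₂.comp (f := memE) memE_prim (by fun_prop) (by fun_prop)))))

theorem ex_test : ∃ f : InE k → Bool, Primrec f ∧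
    ∀ A, f A = true ↔ (Set.range (res (autE A))).Finite := by
  obtain ⟨c, hc⟩ : ∃ c, Reg (fun l : FreeGroup (Fin k) → Prop × Prop => ∃ u, l = lab u) c :=
    ⟨_, reg_lab⟩
  refine ⟨testE c, testE_prim c, fun A => ?_⟩
  rw [fin_iff _ hc]
  have e : ∀ u v, memE A u = memE A v ↔ (Mem (autE A) (V u) (mk u) ↔ Mem (autE A) (V v) (mk v)) :=
    fun u v => by rw [Bool.eq_iff_iff, memE_iff, memE_iff]
  simp only [testE, List.all_eq_true, List.any_eq_true, beq_iff_eq, e]
  rfl

theorem cv_surj : Function.Surjective (cv (k := k)) := by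
  rintro ⟨i, _ | _⟩
  exacts [⟨.inr i, rfl⟩, ⟨.inl i, rfl⟩]

theorem cv_inj : Function.Injective (cv (k := k)) := by
  rintro (a | a) (b | b) h <;> simp_all [cv]

theorem prod_cv (w : List (Fin k ⊕ Fin k)) : (w.map (Sum.elim (fun i : Fin k => FreeGroup.of i)
    (fun i : Fin k => (FreeGroup.of i)⁻¹))).prod = mk (w.map cv) := by
  induction w with
  | nil => rfl
  | cons x w ih =>
    rw [List.map_cons, List.prod_cons, ih, List.map_cons, mk_cons]
    cases x <;> rfl

theorem fm_eq (l : List (Tr k)) : fm l = (l.filterMap fun t => t.2.1).map cv := by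
  induction l with
  | nil => rfl
  | cons t l ih =>
    show fo t.2.1 ++ fm l = _
    rw [ih, List.filterMap_cons]
    cases t.2.1 <;> rfl

theorem mem_pre (w : List (La k)) (g : FreeGroup (Fin k)) :
    (∃ i, mk (w.take i) = g) ↔ g⁻¹ * mk w ∈ V w := by
  have e : ∀ i, mk (w.drop i) = g⁻¹ * mk w ↔ mk (w.take i) = g := fun i => by
    rw [eq_inv_mul_iff_mul_eq]
    conv_lhs => rhs; rw [← List.take_append_drop i w, ← mul_mk]
    rw [mul_left_inj, eq_comm]
  simp only [mem_V, e]
  refine ⟨fun ⟨i, h⟩ => ?_, fun ⟨i, _, h⟩ => ⟨i, h⟩⟩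
  exact ⟨min i w.length, by omega, by rw [← h, ← List.take_take, List.take_length]⟩

theorem pre_eq {u v : List (La k)} (h : mk u = mk v) :
    {g | ∃ i, mk (u.take i) = g} = {g | ∃ i, mk (v.take i) = g} ↔ V u = V v := by
  simp only [Set.ext_iff, Set.mem_ofPred_eq, mem_pre, Finset.ext_iff, h]
  refine ⟨fun k a => ?_, fun k a => k _⟩
  simpa [-inv_mk] using k (mk v * a⁻¹)

end Pool.Agent.H24.Munn
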