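import Mathlib
import Pool.Agent.H24.HomP2

set_option autoImplicit false

namespace Pool.Agent.H24.Nil2

open Pool.Agent.H23 Pool.Agent.H24.HomP
open scoped commutatorElement

section Int
variable {α : Type} [Primcodable α]

theorem enc_nat (n : ℕ) : Encodable.encode (n : ℤ) = 2 * n := rfl
theorem enc_neg (n : ℕ) : Encodable.encode (Int.negSucc n) = 2 * n + 1 := rfl

theorem pos_prim : Primrec Int.toNat :=
  (show Primrec fun z : ℤ => bif Encodable.encode z % 2 == 0 then Encodable.encode z / 2 else 0 by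
    fun_prop).of_eq fun z => by
    cases z with
    | ofNat n => simp [enc_nat]
    | negSucc n => simp [enc_neg]

theorem ngt_prim : Primrec fun z : ℤ => (-z).toNat :=
  (show Primrec fun z : ℤ => bif Encodable.encode z % 2 == 0 then 0 else
    Encodable.encode z / 2 + 1 by fun_prop).of_eq fun z => by
    cases z with
    | ofNat n => simp [enc_nat]
    | negSucc n =>
      have : (2 * n + 1) / 2 = n := by omega
      simp [enc_neg, this]

theorem dif_prim : Primrec fun p : ℕ × ℕ => (p.1 : ℤ) - p.2 :=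
  Primrec.encode_iff.1 ((show Primrec fun p : ℕ × ℕ => bif Nat.ble p.2 p.1 then 2 * (p.1 - p.2)
    else 2 * (p.2 - p.1 - 1) + 1 by fun_prop).of_eq fun p => by
    by_cases h : p.2 ≤ p.1
    · rw [Nat.ble_eq_true_of_le h, cond_true, ← enc_nat, Nat.cast_sub h]
    · have : Nat.ble p.2 p.1 = false := by
        rw [← Bool.not_eq_true, Nat.ble_eq]; exact h
      rw [this, cond_false, ← enc_neg]
      congr 1
      omega)

@[fun_prop] theorem iadd {f g : α → ℤ} (hf : Primrec f) (hg : Primrec g) :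
    Primrec fun a => f a + g a :=
  (dif_prim.comp (PR.pair' (PR.add' (pos_prim.comp hf) (pos_prim.comp hg))
    (PR.add' (ngt_prim.comp hf) (ngt_prim.comp hg)))).of_eq fun a => by
    simp only; omega

@[fun_prop] theorem imul {f g : α → ℤ} (hf : Primrec f) (hg : Primrec g) :
    Primrec fun a => f a * g a :=
  (dif_prim.comp (PR.pair' (PR.add' (PR.mul' (pos_prim.comp hf) (pos_prim.comp hg))
    (PR.mul' (ngt_prim.comp hf) (ngt_prim.comp hg))) (PR.add' (PR.mul' (pos_prim.comp hf)
    (ngt_prim.comp hg)) (PR.mul' (ngt_prim.comp hf) (pos_prim.comp hg))))).of_eq fun a => by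
    have h1 := Int.toNat_sub_toNat_neg (f a)
    have h2 := Int.toNat_sub_toNat_neg (g a)
    push_cast
    linear_combination (g a) * h1 + (((f a).toNat : ℤ) - (-f a).toNat) * h2

end Int

/-- The integral Heisenberg group. -/
@[ext] structure Hz where
  a : ℤ
  b : ℤ
  c : ℤ

instance : Mul Hz := ⟨fun x y => ⟨x.a + y.a, x.b + y.b, x.c + y.c + x.a * y.b⟩⟩
instance : One Hz := ⟨⟨0, 0, 0⟩⟩
instance : Inv Hz := ⟨fun x => ⟨-x.a, -x.b, -x.c + x.a * x.b⟩⟩

@[simp] theorem mul_a (x y : Hz) : (x * y).a = x.a + y.a := rfl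
@[simp] theorem mul_b (x y : Hz) : (x * y).b = x.b + y.b := rfl
@[simp] theorem mul_c (x y : Hz) : (x * y).c = x.c + y.c + x.a * y.b := rfl
@[simp] theorem one_a : (1 : Hz).a = 0 := rfl
@[simp] theorem one_b : (1 : Hz).b = 0 := rfl
@[simp] theorem one_c : (1 : Hz).c = 0 := rfl
@[simp] theorem inv_a (x : Hz) : x⁻¹.a = -x.a := rfl
@[simp] theorem inv_b (x : Hz) : x⁻¹.b = -x.b := rfl
@[simp] theorem inv_c (x : Hz) : x⁻¹.c = -x.c + x.a * x.b := rfl

instance : Group Hz := Group.ofLeftAxioms
  (fun a b c => Hz.ext (by simp [add_assoc]) (by simp [add_assoc]) (by simp; ring))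
  (fun a => Hz.ext (by simp) (by simp) (by simp))
  (fun a => Hz.ext (by simp) (by simp) (by simp))

theorem hz_cl2 (a b c : Hz) : ⁅⁅a, b⁆, c⁆ = 1 :=
  Hz.ext (by simp [commutatorElement_def]) (by simp [commutatorElement_def])
    (by simp [commutatorElement_def]; ring)

def tri (x : Hz) : ℤ × ℤ × ℤ := (x.a, x.b, x.c)

theorem wp {X κ : Type} [Finite X] [Primcodable X] [Finite κ] (x : X → κ → Hz) :
    ComputablePred fun w => ev x w = 1 := by
  letI : Primcodable κ := Primcodable.ofEquiv _ (Finite.equivFin κ)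
  haveI := Fintype.ofFinite κ
  let t : (X × Bool) × κ → ℤ × ℤ × ℤ := fun p => tri (cond p.1.2 (x p.1.1) (x p.1.1)⁻¹ p.2)
  have h1 : Primrec t := Primrec.dom_finite _
  have h3 : Primrec fun p : List (X × Bool) × κ => tri (ev x p.1 p.2) := by
    refine (show Primrec fun p : List (X × Bool) × κ => p.1.foldr (fun y s =>
      ((t (y, p.2)).1 + s.1, (t (y, p.2)).2.1 + s.2.1,
        (t (y, p.2)).2.2 + s.2.2 + (t (y, p.2)).1 * s.2.1)) ((0 : ℤ), (0 : ℤ), (0 : ℤ)) by
      fun_prop).of_eq fun p => ?_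
    induction p.1 with
    | nil => rfl
    | cons y w ih => rw [List.foldr_cons, ih, ev_cons]; rfl
  refine ComputablePred.computable_iff.2 ⟨fun w => Finset.univ.toList.all fun k =>
    tri (ev x w k) == (0, 0, 0), (PR.all' (p := fun w k => tri (ev x w k) == (0, 0, 0))
      (PR.const' _) (PR.beq' h3 (PR.const' _))).to_comp, funext fun w => ?_⟩
  simp [funext_iff, tri, Hz.ext_iff]

theorem fg_comm {A : Type} [CommGroup A] [h : Group.FG A] (W : Subgroup A) : W.FG := by
  haveI : Module.Finite ℤ (Additive A) := Module.Finite.iff_addGroup_fg.2 inferInstance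
  have := IsNoetherian.noetherian (Subgroup.toAddSubgroup W).toIntSubmodule
  rw [Submodule.fg_iff_addSubgroup_fg] at this
  exact (Subgroup.fg_iff_add_fg W).2 (by simpa using this)

theorem fg_ext {Γ A : Type} [Group Γ] [Group A] (f : Γ →* A) (W : Subgroup Γ)
    (h1 : (W.map f).FG) (h2 : (W ⊓ f.ker).FG) : W.FG := by
  obtain ⟨S, hS, hf⟩ := (Subgroup.fg_iff _).1 h1
  obtain ⟨T, hT, hg⟩ := (Subgroup.fg_iff _).1 h2
  have : ∀ s ∈ S, ∃ w ∈ W, f w = s := fun s hs => (hS ▸ Subgroup.subset_closure hs : s ∈ W.map f)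
  choose! g g1 g2 using this
  refine (Subgroup.fg_iff _).2 ⟨g '' S ∪ T, le_antisymm ?_ fun w hw => ?_, (hf.image g).union hg⟩
  · rw [Subgroup.closure_le]
    rintro _ (⟨s, hs, rfl⟩ | h)
    · exact g1 s hs
    · exact (hT ▸ Subgroup.subset_closure h : _ ∈ W ⊓ f.ker).1
  · have e : (Subgroup.closure (g '' S)).map f = W.map f := by
      rw [MonoidHom.map_closure, ← hS, Set.image_image]
      congr 1
      exact (Set.image_congr g2).trans (Set.image_id S)
    obtain ⟨u, hu, hu'⟩ : f w ∈ (Subgroup.closure (g '' S)).map f := e ▸ ⟨w, hw, rfl⟩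
    have uW : u ∈ W := (Subgroup.closure_le W).2 (by rintro _ ⟨s, hs, rfl⟩; exact g1 s hs) hu
    have : u⁻¹ * w ∈ Subgroup.closure T := by
      rw [hT]
      exact ⟨W.mul_mem (W.inv_mem uW) hw, by simp [hu']⟩
    rw [← mul_inv_cancel_left u w]
    exact Subgroup.mul_mem _ (Subgroup.closure_mono Set.subset_union_left hu)
      (Subgroup.closure_mono Set.subset_union_right this)

theorem comm_of_gen {Γ : Type} [Group Γ] {S : Set Γ} (hS : Subgroup.closure S = ⊤) {a : Γ}
    (h : ∀ s ∈ S, a * s = s * a) (g : Γ) : a * g = g * a := by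
  have : g ∈ Subgroup.centralizer {a} := by
    refine (Subgroup.closure_le _).2 (fun s hs => ?_) (hS ▸ Subgroup.mem_top g)
    exact Subgroup.mem_centralizer_singleton_iff.2 (h s hs).symm
  exact (Subgroup.mem_centralizer_singleton_iff.1 this).symm

theorem fg_cl2 {Γ X : Type} [Group Γ] [Finite X] (x : X → Γ)
    (hx : Subgroup.closure (Set.range x) = ⊤) (h : ∀ a b c, ⁅⁅x a, x b⁆, x c⁆ = 1)
    (W : Subgroup Γ) : W.FG := by
  let Z := Subgroup.closure (Set.range fun p : X × X => ⁅x p.1, x p.2⁆)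
  have hZ : Z ≤ Subgroup.center Γ := by
    rw [Subgroup.closure_le]
    rintro _ ⟨p, rfl⟩
    refine Subgroup.mem_center_iff.2 fun g => (comm_of_gen hx ?_ g).symm
    rintro _ ⟨c, rfl⟩
    exact commutatorElement_eq_one_iff_mul_comm.1 (h _ _ _)
  haveI : Z.Normal := ⟨fun n hn g => by
    rw [Subgroup.mem_center_iff.1 (hZ hn) g, mul_inv_cancel_right]; exact hn⟩
  have hq : Subgroup.closure (Set.range fun a => QuotientGroup.mk' Z (x a)) = ⊤ := by
    have := MonoidHom.map_closure (QuotientGroup.mk' Z) (Set.range x)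
    rw [hx, ← Set.range_comp, Subgroup.map_top_of_surjective _ (QuotientGroup.mk'_surjective Z)]
      at this
    exact this.symm
  refine fg_ext (QuotientGroup.mk' Z) W ?_ ?_
  · letI : CommGroup (Γ ⧸ Z) := { (inferInstance : Group (Γ ⧸ Z)) with
      mul_comm := fun a b => comm_of_gen hq (by
        rintro _ ⟨c, rfl⟩
        refine (comm_of_gen hq ?_ a).symm
        rintro _ ⟨d, rfl⟩
        rw [← commutatorElement_eq_one_iff_mul_comm, ← map_commutatorElement]
        exact (QuotientGroup.eq_one_iff _).2 (Subgroup.subset_closure ⟨(c, d), rfl⟩)) b }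
    haveI : Group.FG (Γ ⧸ Z) := Group.fg_iff.2 ⟨_, hq, Set.finite_range _⟩
    exact fg_comm _
  · rw [QuotientGroup.ker_mk']
    letI : CommGroup Z := { (inferInstance : Group Z) with
      mul_comm := fun a b => Subtype.ext (Subgroup.mem_center_iff.1 (hZ b.2) a.1) }
    haveI : Group.FG Z := (Group.fg_iff_subgroup_fg Z).2
      ((Subgroup.fg_iff _).2 ⟨_, rfl, Set.finite_range _⟩)
    obtain ⟨S, hS, hf⟩ := (Subgroup.fg_iff _).1 (fg_comm (W.subgroupOf Z))
    refine (Subgroup.fg_iff _).2 ⟨Z.subtype '' S, ?_, hf.image _⟩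
    rw [← MonoidHom.map_closure, hS, Subgroup.subgroupOf_map_subtype]

theorem fp_cl2 {G X : Type} [Group G] [Finite X] (x : X → G)
    (h : ∀ a b c, ⁅⁅x a, x b⁆, x c⁆ = 1) :
    (FreeGroup.lift x).ker.IsFinitelyNormallyGenerated := by
  let N := Subgroup.normalClosure (Set.range fun p : X × X × X =>
    ⁅⁅FreeGroup.of p.1, FreeGroup.of p.2.1⁆, FreeGroup.of p.2.2⁆)
  have hN : N ≤ (FreeGroup.lift x).ker := Subgroup.normalClosure_le_normal (by
    rintro _ ⟨p, rfl⟩
    simp [MonoidHom.mem_ker, map_commutatorElement, h])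
  have hq : Subgroup.closure (Set.range fun a => QuotientGroup.mk' N (FreeGroup.of a)) = ⊤ := by
    have := MonoidHom.map_closure (QuotientGroup.mk' N) (Set.range FreeGroup.of)
    rw [FreeGroup.closure_range_of, ← Set.range_comp,
      Subgroup.map_top_of_surjective _ (QuotientGroup.mk'_surjective N)] at this
    exact this.symm
  have h1 := fg_cl2 _ hq (fun a b c => by
    rw [← map_commutatorElement, ← map_commutatorElement]
    exact (QuotientGroup.eq_one_iff _).2 (Subgroup.subset_normalClosure ⟨(a, b, c), rfl⟩))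
    ((FreeGroup.lift x).ker.map (QuotientGroup.mk' N))
  haveI := (Group.fg_iff_subgroup_fg _).2 h1
  haveI : ((FreeGroup.lift x).ker.map (QuotientGroup.mk' N)).Normal :=
    Subgroup.Normal.map inferInstance _ (QuotientGroup.mk'_surjective N)
  have h2 := (Subgroup.IsFinitelyNormallyGenerated.of_FG
    ((FreeGroup.lift x).ker.map (QuotientGroup.mk' N))).comap (QuotientGroup.mk'_surjective N)
    (by rw [QuotientGroup.ker_mk']; exact ⟨_, Set.finite_range _, rfl⟩)
  rwa [Subgroup.comap_map_eq_self (by rwa [QuotientGroup.ker_mk'])] at h2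

end Pool.Agent.H24.Nil2
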