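import Mathlib
import Pool.Agent.H24.Nil2
import Pool.Agent.H24.SpInv
import Pool.Agent.H24.H10Sys

set_option autoImplicit false

namespace Pool.Agent.H24.NilSub

open Pool.Agent.H23 Pool.Agent.H24.HomP Pool.Agent.H24.Nil2
open scoped commutatorElement

section B
variable {Y : Type} [DecidableEq Y]

def I (y y' : Y) : ℤ := if y' = y then 1 else 0

def cnt (y : Y) (w : List Y) : ℕ := w.count y

theorem cnt_cons (y a : Y) (w : List Y) : cnt y (a :: w) = cnt y w + if a = y then 1 else 0 := by
  simp [cnt, List.count_cons]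

def S (f : Y → ℤ) (w : List Y) : ℤ := (w.map f).sum

def B (f g : Y → ℤ) : List Y → ℤ
  | [] => 0
  | y :: w => f y * S g w + B f g w

omit [DecidableEq Y] in
theorem prod_eq (g : Y → Hz) (w : List Y) : (w.map g).prod = ⟨S (fun y => (g y).a) w,
    S (fun y => (g y).b) w, S (fun y => (g y).c) w + B (fun y => (g y).a) (fun y => (g y).b) w⟩ := by
  induction w with
  | nil => rfl
  | cons y w ih =>
    rw [List.map_cons, List.prod_cons, ih]
    exact Hz.ext (by simp [S]) (by simp [S]) (by simp [S, B]; ring)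

omit [DecidableEq Y] in
theorem S_sub (f g : Y → ℤ) (w : List Y) : S (fun y => f y - g y) w = S f w - S g w := by
  induction w with
  | nil => rfl
  | cons y w ih => simp only [S, List.map_cons, List.sum_cons] at *; rw [ih]; ring
omit [DecidableEq Y] in
theorem S_add (f g : Y → ℤ) (w : List Y) : S (fun y => f y + g y) w = S f w + S g w := by
  induction w with
  | nil => rfl
  | cons y w ih => simp only [S, List.map_cons, List.sum_cons] at *; rw [ih]; ring
omit [DecidableEq Y] in
theorem S_neg (f : Y → ℤ) (w : List Y) : S (fun y => -f y) w = -S f w := by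
  induction w with
  | nil => rfl
  | cons y w ih => simp only [S, List.map_cons, List.sum_cons] at *; rw [ih]; ring
omit [DecidableEq Y] in
theorem S_zero (w : List Y) : S (fun _ => 0) w = 0 := by simp [S]
omit [DecidableEq Y] in
theorem B_subl (f g h : Y → ℤ) (w : List Y) :
    B (fun y => f y - g y) h w = B f h w - B g h w := by
  induction w with
  | nil => rfl
  | cons y w ih => simp only [B, ih]; ring
omit [DecidableEq Y] in
theorem B_subr (f g h : Y → ℤ) (w : List Y) :
    B h (fun y => f y - g y) w = B h f w - B h g w := by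
  induction w with
  | nil => rfl
  | cons y w ih => simp only [B, ih, S_sub]; ring
omit [DecidableEq Y] in
theorem B_zero (h : Y → ℤ) (w : List Y) : B (fun _ => 0) h w = 0 := by
  induction w with
  | nil => rfl
  | cons y w ih => simp only [B, ih]; ring

theorem S_I (y : Y) (w : List Y) : S (I y) w = cnt y w := by
  induction w with
  | nil => rfl
  | cons a w ih =>
    simp only [S, List.map_cons, List.sum_cons, cnt_cons, I] at *
    rw [ih]; push_cast; ring

theorem B_nonneg (y z : Y) (w : List Y) : 0 ≤ B (I y) (I z) w := by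
  induction w with
  | nil => exact le_rfl
  | cons a w ih =>
    simp only [B, S_I, I]
    split_ifs <;> omega

theorem B_add (y z : Y) (h : y ≠ z) (w : List Y) :
    B (I y) (I z) w + B (I z) (I y) w = cnt y w * cnt z w := by
  induction w with
  | nil => rfl
  | cons a w ih =>
    simp only [B, S_I, I, cnt_cons]
    push_cast
    by_cases h1 : a = y
    · subst h1; simp only [if_true, h, if_false]; linear_combination ih
    · by_cases h2 : a = z
      · subst h2; simp only [if_true, h1, if_false]; linear_combination ih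
      · simp only [h1, h2, if_false]; linear_combination ih

theorem B_trans {y1 y2 y3 : Y} {w : List Y} (h12 : y1 ≠ y2) (h1 : B (I y2) (I y1) w = 0)
    (h2 : B (I y3) (I y2) w = 0) (h : 0 < cnt y2 w ∨ cnt y1 w = 0) :
    B (I y3) (I y1) w = 0 := by
  induction w with
  | nil => rfl
  | cons a w ih =>
    have n1 := B_nonneg y2 y1 w
    have n2 := B_nonneg y3 y2 w
    simp only [B, S_I, I, cnt_cons] at *
    by_cases e2 : a = y2
    · subst e2
      simp only [if_true] at h1
      have c1 : cnt y1 w = 0 := by omega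
      rw [c1, ih (by omega) (by split_ifs at h2 <;> omega) (Or.inr c1)]
      simp
    · simp only [e2, if_false] at h1 h
      by_cases e3 : a = y3
      · subst e3
        simp only [if_true] at h2 ⊢
        have c1 : cnt y1 w = 0 := by omega
        rw [c1, ih (by omega) (by omega) (Or.inr c1)]
        simp
      · simp only [e3, if_false] at h2 ⊢
        rw [ih (by omega) (by omega) (by omega)]
        simp

theorem B_pw {y z : Y} {w : List Y} {r : Y → ℕ} (hw : w.Pairwise fun a b => r a ≤ r b)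
    (h : r z < r y) : B (I y) (I z) w = 0 := by
  induction w with
  | nil => rfl
  | cons a w ih =>
    obtain ⟨h1, h2⟩ := List.pairwise_cons.1 hw
    simp only [B, ih h2, S_I, I]
    split_ifs with e
    · rw [cnt, List.count_eq_zero_of_not_mem fun hz => by have := h1 z hz; subst e; omega]
      rfl
    · simp

end B

abbrev Yt (m : ℕ) := Fin 4 × Fin m ⊕ Fin 3
abbrev Kt (m l : ℕ) := Fin 3 × Fin m ⊕ Fin l ⊕ Bool

section
variable {m l : ℕ} (L : Fin l → Bool × Fin m × Fin m × Fin m) (p o : Fin m)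

def gy (y : Yt m) : Kt m l → Hz
  | .inl (t, j) => ⟨I (.inl (t.castSucc, j)) y - I (.inl (t.succ, j)) y, I (.inr t) y,
      -I (.inl (t.castSucc, j)) y⟩
  | .inr (.inl i) => bif (L i).1 then ⟨0, 0, I (.inl (0, (L i).2.1)) y +
      I (.inl (0, (L i).2.2.1)) y - I (.inl (0, (L i).2.2.2)) y⟩ else
      ⟨I (.inl (0, (L i).2.1)) y - I (.inl (2, (L i).2.1)) y,
        I (.inl (1, (L i).2.2.1)) y - I (.inl (3, (L i).2.2.1)) y, -I (.inl (0, (L i).2.2.2)) y⟩
  | .inr (.inr b) => ⟨0, 0, I (.inl (0, bif b then p else o)) y⟩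

def tg (m l : ℕ) (e n : ℕ) : Kt m l → Hz
  | .inl _ => ⟨0, e, 0⟩
  | .inr (.inl _) => 1
  | .inr (.inr b) => ⟨0, 0, bif b then n else e⟩

def Good (w : List (Yt m)) : Prop :=
  ∀ (t : Fin 3) (j : Fin m), cnt (.inl (t.castSucc, j)) w = cnt (.inl (t.succ, j)) w ∧
    cnt (.inr t) w = 1 ∧ B (I (.inl (t.succ, j))) (I (.inr t)) w = 0 ∧
    B (I (.inr t)) (I (.inl (t.castSucc, j))) w = 0

theorem ord_iff (w : List (Yt m)) (n : ℕ) :
    (∀ k, (w.map fun y => gy L p o y (.inl k)).prod = tg m l 1 n (.inl k)) ↔ Good w := by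
  simp only [Prod.forall, Good]
  refine forall₂_congr fun t j => ?_
  have h1 := B_add (Y := Yt m) (.inl (t.castSucc, j)) (.inr t) (by simp) w
  have h2 := B_nonneg (Y := Yt m) (.inr t) (.inl (t.castSucc, j)) w
  have h3 := B_nonneg (Y := Yt m) (.inl (t.succ, j)) (.inr t) w
  simp only [prod_eq, gy, tg, Hz.mk.injEq, S_sub, S_neg, B_subl]
  eta_reduce
  simp only [S_I]
  constructor
  · rintro ⟨a, b, c⟩
    have b' : cnt (.inr t) w = 1 := by omega
    rw [b'] at h1
    omega
  · rintro ⟨a, b, c, d⟩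
    rw [b] at h1
    omega

theorem mul_area {w : List (Yt m)} (h : Good w) (a b : Fin m) :
    B (fun y => I (.inl (0, a)) y - I (.inl (2, a)) y)
      (fun y => I (.inl (1, b)) y - I (.inl (3, b)) y) w =
      cnt (.inl (0, a)) w * cnt (.inl (0, b)) w := by
  have k : ∀ (t : Fin 3) (i j : Fin m),
      B (I (.inl (t.succ, j))) (I (.inl (t.castSucc, i))) w = 0 := fun t i j =>
    B_trans (y2 := .inr t) (by simp) (h t i).2.2.2 (h t j).2.2.1 (Or.inl (by rw [(h t i).2.1]; simp))
  have c1 : ∀ j, cnt (.inl (0, j)) w = cnt (.inl (1, j)) w := fun j => (h 0 j).1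
  have c2 : ∀ j, cnt (.inl (1, j)) w = cnt (.inl (2, j)) w := fun j => (h 1 j).1
  have c3 : ∀ j, cnt (.inl (2, j)) w = cnt (.inl (3, j)) w := fun j => (h 2 j).1
  have k1 : B (I (.inl (1, b))) (I (.inl (0, a))) w = 0 := k 0 a b
  have k2 : B (I (.inl (2, a))) (I (.inl (1, b))) w = 0 := k 1 b a
  have k3 : B (I (.inl (3, b))) (I (.inl (2, a))) w = 0 := k 2 a b
  have k4 : B (I (.inl (2, a))) (I (.inl (0, a))) w = 0 :=
    B_trans (Y := Yt m) (y2 := .inl (1, a)) (y3 := .inl (2, a)) (by simp) (by exact k 0 a a)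
      (by exact k 1 a a) (by rw [← c1]; omega)
  have k5 : B (I (.inl (3, b))) (I (.inl (0, a))) w = 0 :=
    B_trans (y2 := .inl (2, a)) (by simp) k4 k3 (by rw [← c2, ← c1]; omega)
  have a1 := B_add (Y := Yt m) (.inl (0, a)) (.inl (1, b)) (by simp) w
  have a2 := B_add (Y := Yt m) (.inl (0, a)) (.inl (3, b)) (by simp) w
  have a3 := B_add (Y := Yt m) (.inl (2, a)) (.inl (3, b)) (by simp) w
  rw [B_subl, B_subr, B_subr]
  rw [← c3, ← c2, ← c1] at a2 a3
  rw [← c2, ← c1] at a3
  rw [← c1] at a1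
  linarith

theorem con_iff {w : List (Yt m)} (h : Good w) (n : ℕ) (i : Fin l) :
    (w.map fun y => gy L p o y (.inr (.inl i))).prod = tg m l 1 n (.inr (.inl i)) ↔
      H10.Con (fun j => cnt (.inl (0, j)) w) (L i) := by
  have c1 : ∀ j, cnt (.inl (0, j)) w = cnt (.inl (1, j)) w := fun j => (h 0 j).1
  have c2 : ∀ j, cnt (.inl (1, j)) w = cnt (.inl (2, j)) w := fun j => (h 1 j).1
  have c3 : ∀ j, cnt (.inl (2, j)) w = cnt (.inl (3, j)) w := fun j => (h 2 j).1
  simp only [prod_eq, gy, tg, H10.Con, Hz.ext_iff, one_a, one_b, one_c]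
  cases (L i).1
  · simp only [cond_false, mul_area h, S_sub, S_neg, Bool.false_eq_true, if_false]
    simp only [S_I, ← c3, ← c2, ← c1, sub_self, true_and]
    rw [← Nat.cast_inj (R := ℤ)]
    push_cast
    constructor <;> intro h <;> linarith
  · simp only [cond_true, S_sub, S_add, S_zero, B_zero, if_true, true_and]
    simp only [S_I]
    omega

theorem par_iff (w : List (Yt m)) (n : ℕ) (b : Bool) :
    (w.map fun y => gy L p o y (.inr (.inr b))).prod = tg m l 1 n (.inr (.inr b)) ↔
      cnt (.inl (0, bif b then p else o)) w = bif b then n else 1 := by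
  simp only [prod_eq, gy, tg, Hz.ext_iff, S_zero, B_zero, true_and]
  simp only [S_I]
  cases b <;> simp

def rk : Yt m → ℕ
  | .inl (s, _) => 2 * s
  | .inr t => 2 * t + 1

theorem ex_good (v : Fin m → ℕ) : ∃ w : List (Yt m), Good w ∧
    ∀ j, cnt (.inl (0, j)) w = v j := by
  classical
  let c : Yt m → ℕ := Sum.elim (fun q => v q.2) fun _ => 1
  let w0 := (Finsupp.toMultiset (Finsupp.equivFunOnFinite.symm c)).toList
  let w := w0.mergeSort fun a b => rk a ≤ rk b
  have h1 : ∀ y, cnt y w = c y := fun y => by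
    rw [cnt, ← Multiset.coe_count, Multiset.coe_eq_coe.2 (List.mergeSort_perm _ _),
      Multiset.coe_toList, Finsupp.count_toMultiset]
    rfl
  have h2 : w.Pairwise fun a b => rk a ≤ rk b := by
    have := List.pairwise_mergeSort (le := fun a b : Yt m => decide (rk a ≤ rk b))
      (fun a b c => by simp only [decide_eq_true_eq]; omega)
      (fun a b => by simp only [Bool.or_eq_true, decide_eq_true_eq]; omega) w0
    simpa using this
  exact ⟨w, fun t j => ⟨by simp [h1, c], by simp [h1, c], B_pw h2 (by simp [rk]; omega),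
    B_pw h2 (by simp [rk])⟩, fun j => h1 _⟩

theorem mem_iff (n : ℕ) : tg m l 1 n ∈ Submonoid.closure (Set.range (gy L p o)) ↔
    ∃ v : Fin m → ℕ, v p = n ∧ v o = 1 ∧ ∀ i, H10.Con v (L i) := by
  have e : ∀ (w : List (Yt m)) k, (w.map (gy L p o)).prod k = (w.map fun y => gy L p o y k).prod :=
    fun w k => by rw [Pi.list_prod_apply, List.map_map]; rfl
  constructor
  · intro h
    obtain ⟨w, hw⟩ := ex_prod _ h
    have h1 := fun k => (e w k).symm.trans (congrFun hw k)
    have hg := (ord_iff L p o w n).1 fun k => h1 _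
    exact ⟨_, (par_iff L p o w n true).1 (h1 _), (par_iff L p o w n false).1 (h1 _),
      fun i => (con_iff L p o hg n i).1 (h1 _)⟩
  · rintro ⟨v, h1, h2, h3⟩
    obtain ⟨w, hg, hw⟩ := ex_good v
    have : tg m l 1 n = (w.map (gy L p o)).prod := by
      funext k
      rw [e]
      rcases k with k | i | b
      · exact ((ord_iff L p o w n).2 hg k).symm
      · exact ((con_iff L p o hg n i).2 (by simpa only [hw] using h3 i)).symm
      · refine ((par_iff L p o w n b).2 ?_).symm
        cases b <;> simp [hw, h1, h2]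
    rw [this]
    exact Submonoid.list_prod_mem _ fun x hx => by
      obtain ⟨y, _, rfl⟩ := List.mem_map.1 hx
      exact Submonoid.subset_closure ⟨y, rfl⟩

theorem tg_succ (n : ℕ) : tg m l 1 (n + 1) = tg m l 0 1 * tg m l 1 n := by
  funext k
  rcases k with k | i | b
  · exact Hz.ext (by simp [tg]) (by simp [tg]) (by simp [tg])
  · simp [tg]
  · cases b <;> exact Hz.ext (by simp [tg]) (by simp [tg]) (by simp [tg]; try ring)

end

theorem h10fin : ∃ (m l : ℕ) (L : Fin l → Bool × Fin m × Fin m × Fin m) (p o : Fin m),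
    ¬ ComputablePred fun n : ℕ => ∃ v : Fin m → ℕ, v p = n ∧ v o = 1 ∧ ∀ i, H10.Con v (L i) := by
  obtain ⟨L, p, o, h⟩ := H10.h10sys
  obtain ⟨M, hM⟩ := (Set.finite_range fun i : Fin L.length =>
    (L.get i).2.1 + (L.get i).2.2.1 + (L.get i).2.2.2).bddAbove
  have hM' : ∀ i : Fin L.length, (L.get i).2.1 + (L.get i).2.2.1 + (L.get i).2.2.2 ≤ M :=
    fun i => hM ⟨i, rfl⟩
  refine ⟨M + p + o + 1, L.length, fun i => ((L.get i).1, ⟨(L.get i).2.1, by have := hM' i; omega⟩,
    ⟨(L.get i).2.2.1, by have := hM' i; omega⟩, ⟨(L.get i).2.2.2, by have := hM' i; omega⟩),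
    ⟨p, by omega⟩, ⟨o, by omega⟩, fun h' => h (h'.of_eq fun n => ⟨?_, ?_⟩)⟩
  · rintro ⟨v, h1, h2, h3⟩
    refine ⟨fun i => if hi : i < M + p + o + 1 then v ⟨i, hi⟩ else 0, ?_, ?_, fun c hc => ?_⟩
    · simp only [show p < M + p + o + 1 by omega, dif_pos, h1]
    · simp only [show o < M + p + o + 1 by omega, dif_pos, h2]
    · obtain ⟨i, rfl⟩ := List.get_of_mem hc
      have := hM' i
      have h4 := h3 i
      simp only [H10.Con] at h4 ⊢
      simpa only [show (L.get i).2.1 < M + p + o + 1 by omega,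
        show (L.get i).2.2.1 < M + p + o + 1 by omega,
        show (L.get i).2.2.2 < M + p + o + 1 by omega, dif_pos] using h4
  · rintro ⟨v, h1, h2, h3⟩
    exact ⟨fun i => v i, h1, h2, fun i => h3 _ (List.get_mem _ _)⟩

section Trick
variable {Y κ : Type} (g : Y → κ → Hz) (t : Bool → κ → Hz)

def ext1 (a : κ → Hz) (n : ℤ) : Option κ → Hz := fun k => k.elim ⟨0, 0, n⟩ a

theorem ext1_mul (a b : κ → Hz) (i j : ℤ) : ext1 a i * ext1 b j = ext1 (a * b) (i + j) := by
  funext k
  cases k
  · exact Hz.ext (by simp [ext1]) (by simp [ext1]) (by simp [ext1])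
  · rfl

theorem ext1_inv (a : κ → Hz) (i : ℤ) : (ext1 a i)⁻¹ = ext1 a⁻¹ (-i) := by
  funext k
  cases k
  · exact Hz.ext (by simp [ext1]) (by simp [ext1]) (by simp [ext1])
  · rfl

theorem ext1_one : ext1 (1 : κ → Hz) 0 = 1 := by
  funext k
  cases k <;> rfl

theorem ext1_pow (n : ℕ) : ext1 (1 : κ → Hz) 1 ^ n = ext1 1 n := by
  induction n with
  | zero => exact ext1_one.symm
  | succ n ih => rw [pow_succ, ih, ext1_mul]; simp

def xx : Option ((Y ⊕ Bool) × Bool) → Option κ → Hz
  | none => ext1 1 1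
  | some (.inl y, true) => ext1 (g y) 0
  | some (.inl y, false) => ext1 (g y)⁻¹ 1
  | some (.inr b, true) => ext1 (t b) 1
  | some (.inr b, false) => ext1 (t b)⁻¹ 1

theorem xx_comm (a : Option κ → Hz) : Commute (xx g t none) a := by
  funext k
  cases k
  · exact Hz.ext (by simp [xx, ext1]) (by simp [xx, ext1]) (by simp [xx, ext1]; ring)
  · simp [xx, ext1]

theorem xx_inv (i : Option ((Y ⊕ Bool) × Bool)) :
    ∃ m : ℕ, (xx g t i)⁻¹ * xx g t none ^ m ∈ Submonoid.closure (Set.range (xx g t)) := by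
  have mem : ∀ j, xx g t j ∈ Submonoid.closure (Set.range (xx g t)) := fun j =>
    Submonoid.subset_closure ⟨j, rfl⟩
  rcases i with _ | ⟨y | b, _ | _⟩
  · exact ⟨1, by simp⟩
  · exact ⟨1, by simpa [xx, ext1_inv, ext1_mul] using mem (some (.inl y, true))⟩
  · exact ⟨1, by simpa [xx, ext1_inv, ext1_mul] using mem (some (.inl y, false))⟩
  · exact ⟨2, by simpa [xx, ext1_inv, ext1_mul, ext1_pow] using mem (some (.inr b, true))⟩
  · exact ⟨2, by simpa [xx, ext1_inv, ext1_mul, ext1_pow] using mem (some (.inr b, false))⟩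

theorem xx_mem (a : κ → Hz) : ext1 a 0 ∈ Submonoid.closure (Set.range (xx g t)) ↔
    a ∈ Submonoid.closure (Set.range g) := by
  constructor
  · intro h
    have : ∀ u ∈ Submonoid.closure (Set.range (xx g t)), ∃ b n, u = ext1 b n ∧ 0 ≤ n ∧
        (n = 0 → b ∈ Submonoid.closure (Set.range g)) := by
      intro u hu
      induction hu using Submonoid.closure_induction with
      | mem x hx =>
        obtain ⟨i, rfl⟩ := hx
        rcases i with _ | ⟨y | b, _ | _⟩
        · exact ⟨_, _, rfl, by simp, by simp⟩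
        · exact ⟨_, _, rfl, by simp, by simp⟩
        · exact ⟨_, _, rfl, by simp, fun _ => Submonoid.subset_closure ⟨y, rfl⟩⟩
        · exact ⟨_, _, rfl, by simp, by simp⟩
        · exact ⟨_, _, rfl, by simp, by simp⟩
      | one => exact ⟨1, 0, ext1_one.symm, le_rfl, fun _ => Submonoid.one_mem _⟩
      | mul x y _ _ h1 h2 =>
        obtain ⟨b, n, rfl, a1, a2⟩ := h1
        obtain ⟨c, k, rfl, c1, c2⟩ := h2
        exact ⟨_, _, ext1_mul _ _ _ _, by omega, fun e =>
          Submonoid.mul_mem _ (a2 (by omega)) (c2 (by omega))⟩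
    obtain ⟨b, n, e, _, h2⟩ := this _ h
    have e1 : a = b := funext fun k => congrFun e (some k)
    have e2 : (0 : ℤ) = n := congrArg Hz.c (congrFun e none)
    exact e1 ▸ h2 e2.symm
  · intro h
    induction h using Submonoid.closure_induction with
    | mem x hx =>
      obtain ⟨y, rfl⟩ := hx
      exact Submonoid.subset_closure ⟨some (.inl y, true), rfl⟩
    | one => rw [ext1_one]; exact Submonoid.one_mem _
    | mul x y _ _ h1 h2 => simpa [ext1_mul] using Submonoid.mul_mem _ h1 h2

end Trick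

theorem nil_data : ∃ (n : ℕ) (κ : Type) (_ : Finite κ) (x : Fin n → κ → Hz) (z : Fin n),
    (∀ g, Commute (x z) g) ∧
    (∀ i, ∃ m : ℕ, (x i)⁻¹ * x z ^ m ∈ Submonoid.closure (Set.range x)) ∧
    ¬ ComputablePred fun w => ev x w ∈ Submonoid.closure (Set.range x) := by
  obtain ⟨m, l, L, p, o, h⟩ := h10fin
  let t : Bool → Kt m l → Hz := fun b => bif b then tg m l 0 1 else tg m l 1 0
  let e := Finite.equivFin (Option ((Yt m ⊕ Bool) × Bool))
  let x := fun i => xx (gy L p o) t (e.symm i)
  have hr : Set.range x = Set.range (xx (gy L p o) t) := e.symm.surjective.range_comp (xx (gy L p o) t)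
  refine ⟨_, _, inferInstance, x, e none, ?_, fun i => ?_, ?_⟩
  · simpa [x] using xx_comm _ t
  · rw [hr]; simpa [x] using xx_inv _ t (e.symm i)
  · let u : ℕ → List (Fin _ × Bool) := fun n => Nat.rec
      [(e (some (.inr false, true)), true), (e none, false)]
      (fun _ v => (e (some (.inr true, true)), true) :: (e none, false) :: v) n
    refine H10.not_comp_of_red h u (show Primrec u by unfold u; fun_prop).to_comp fun n => ?_
    have : ev x (u n) = ext1 (tg m l 1 n) 0 := by
      induction n with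
      | zero => simp [u, ev, x, xx, t, ext1_inv, ext1_mul]
      | succ n ih =>
        refine (ev_cons _ _ _).trans ?_
        rw [ev_cons]
        erw [ih]
        simp [x, xx, t, ext1_inv, ext1_mul, tg_succ]
    rw [this, hr, xx_mem, mem_iff]

open SpInv FreeMonoid in
theorem final : ∃ (n : ℕ) (R : List (List (Fin n × Bool))),
      (∀ e s : (ic R).Quotient, e * e = e → (∃ f, f * f = f ∧ e = f * s) → s * s = s) ∧
      (∀ a ∈ {g | ∃ w, (∃ t, q R w * t = 1) ∧ pi R w = g},
        ∀ b ∈ {g | ∃ w, (∃ t, q R w * t = 1) ∧ pi R w = g},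
        ∃ c ∈ {g | ∃ w, (∃ t, q R w * t = 1) ∧ pi R w = g},
        ∃ d ∈ {g | ∃ w, (∃ t, q R w * t = 1) ∧ pi R w = g}, a * c = b * d) ∧
      (ComputablePred fun w => pi R w = 1) ∧
      ¬ ComputablePred fun p : List (Fin n × Bool) × List (Fin n × Bool) =>
        ic R (ofList p.1) (ofList p.2) := by
  obtain ⟨n, κ, _, x, z, h1, h2, h3⟩ := nil_data
  refine ⟨n, general x z h1 h2 (fp_cl2 x fun a b c => funext fun k => ?_) (wp x) h3⟩
  exact hz_cl2 (x a k) (x b k) (x c k)

end Pool.Agent.H24.NilSub
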