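import Pool.Agent.H11.Base1

set_option autoImplicit false

namespace Pool.Agent.H24.Nlt

open Pool.Agent.H11.PT

/-- the list `N` of subsets of `{0,…,n-1}` is realised by a tournament -/
def NLT (N : List (List ℕ)) : Prop :=
  (∀ s ∈ N, ∀ x ∈ s, x < N.length) ∧
  ∃ (T : Fin N.length → Fin N.length → Prop) (σ : Equiv.Perm (Fin N.length)),
    (∀ v, ¬ T v v) ∧ (∀ u v, u ≠ v → (T u v ↔ ¬ T v u)) ∧ ∀ v w, T v w ↔ w.1 ∈ N.get (σ v)

def Sol (N : List (List ℕ)) (σ : ℕ → ℕ) : Prop :=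
  (∀ u < N.length, σ u < N.length) ∧ (∀ u < N.length, u ∉ N.getD (σ u) []) ∧
    ∀ u < N.length, ∀ v < N.length, u ≠ v → (v ∈ N.getD (σ u) [] ↔ u ∉ N.getD (σ v) [])

theorem nlt_iff (N : List (List ℕ)) :
    NLT N ↔ (∀ s ∈ N, ∀ x ∈ s, x < N.length) ∧ ∃ σ, Sol N σ := by
  refine and_congr_right fun _ => ⟨?_, ?_⟩
  · rintro ⟨T, σ, h1, h2, h3⟩
    have e : ∀ u (hu : u < N.length), N.getD (if h : u < N.length then (σ ⟨u, h⟩).1 else 0) [] =
        N.get (σ ⟨u, hu⟩) := by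
      intro u hu
      rw [dif_pos hu, List.getD_eq_getElem _ _ (σ ⟨u, hu⟩).2]
      rfl
    refine ⟨fun u => if h : u < N.length then (σ ⟨u, h⟩).1 else 0, fun u hu => ?_, fun u hu => ?_,
      fun u hu v hv h => ?_⟩
    · simp [hu]
    · rw [e u hu, ← h3 ⟨u, hu⟩ ⟨u, hu⟩]
      exact h1 _
    · rw [e u hu, e v hv, ← h3 ⟨u, hu⟩ ⟨v, hv⟩, ← h3 ⟨v, hv⟩ ⟨u, hu⟩]
      exact h2 _ _ (by simpa using h)
  · rintro ⟨σ, h1, h2, h3⟩
    let f : Fin N.length → Fin N.length := fun u => ⟨σ u, h1 u u.2⟩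
    have inj : Function.Injective f := by
      intro u v e
      by_contra k
      have e' : σ u = σ v := congrArg Fin.val e
      have a := h3 u u.2 v v.2 fun x => k (Fin.ext x)
      have b := h2 u u.2
      have c := h2 v v.2
      rw [e'] at a b
      exact c (a.2 b)
    refine ⟨fun v w => w.1 ∈ N.getD (σ v) [],
      Equiv.ofBijective f (Finite.injective_iff_bijective.1 inj), fun v => h2 v v.2,
      fun u v k => h3 u u.2 v v.2 fun x => k (Fin.ext x), fun v w => ?_⟩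
    simp only []
    rw [List.getD_eq_getElem _ _ (h1 v v.2)]
    rfl

def ver (N : List (List ℕ)) (c : List ℕ) : Bool :=
  (N.all fun s => s.all fun x => decide (x < N.length)) &&
  (List.range N.length).all fun u => decide (c.getD u 0 < N.length) &&
    !(N.getD (c.getD u 0) []).contains u &&
    (List.range N.length).all fun v => u == v ||
      ((N.getD (c.getD u 0) []).contains v != (N.getD (c.getD v 0) []).contains u)

theorem ver_iff (N : List (List ℕ)) (c : List ℕ) : ver N c = true ↔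
    (∀ s ∈ N, ∀ x ∈ s, x < N.length) ∧ Sol N fun u => c.getD u 0 := by
  simp only [ver, Sol, Bool.and_eq_true, List.all_eq_true, decide_eq_true_eq, List.mem_range,
    Bool.not_eq_true', Bool.or_eq_true, beq_iff_eq, bne_iff_ne, ne_eq, List.contains_eq_mem,
    decide_eq_false_iff_not, decide_eq_decide]
  refine and_congr_right fun _ => ⟨fun h => ⟨fun u hu => (h u hu).1.1, fun u hu => (h u hu).1.2,
    fun u hu v hv k => ?_⟩, fun h u hu => ⟨⟨h.1 u hu, h.2.1 u hu⟩, fun v hv => ?_⟩⟩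
  · have := ((h u hu).2 v hv).resolve_left k
    tauto
  · by_cases k : u = v
    · exact .inl k
    · have := h.2.2 u hu v hv k
      tauto

theorem nlt_np : InNP NLT := by
  refine PT.inNP_nats (V := ver) (by unfold ver; fun_prop) (fun N => N.length * (N.length + 1))
    (by fun_prop) (fun N c h => (nlt_iff N).2 ⟨((ver_iff N c).1 h).1, _, ((ver_iff N c).1 h).2⟩)
    fun N h => ?_
  obtain ⟨h0, σ, h1, h2, h3⟩ := (nlt_iff N).1 h
  have e : ∀ u < N.length, ((List.range N.length).map σ).getD u 0 = σ u := by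
    intro u hu
    simp [List.getD_eq_getElem?_getD, hu]
  refine ⟨(List.range N.length).map σ, ?_, (ver_iff _ _).2 ⟨h0, fun u hu => ?_, fun u hu => ?_,
    fun u hu v hv k => ?_⟩⟩
  · have := List.sum_le_card_nsmul ((List.range N.length).map σ) N.length (by
      intro x hx
      obtain ⟨u, hu, rfl⟩ := List.mem_map.1 hx
      exact (h1 u (List.mem_range.1 hu)).le)
    simp only [List.length_map, List.length_range, smul_eq_mul] at this ⊢
    nlinarith
  · simp only [e u hu]; exact h1 u hu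
  · simp only [e u hu]; exact h2 u hu
  · simp only [e u hu, e v hv]; exact h3 u hu v hv k

def mk (vs : List (ℕ × ℕ)) (g : ℕ × ℕ → ℕ × ℕ → Bool) : List (List ℕ) :=
  vs.map fun p => (List.range vs.length).filter fun k => g p (vs.getD k (0, 0))

theorem mk_iff (vs : List (ℕ × ℕ)) (hv : vs.Nodup) (g : ℕ × ℕ → ℕ × ℕ → Bool) :
    NLT (mk vs g) ↔ ∃ σ : ℕ × ℕ → ℕ × ℕ, (∀ p ∈ vs, σ p ∈ vs) ∧ (∀ p ∈ vs, g (σ p) p = false) ∧
      ∀ p ∈ vs, ∀ q ∈ vs, p ≠ q → g (σ p) q ≠ g (σ q) p := by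
  have l : (mk vs g).length = vs.length := by simp [mk]
  have m : ∀ u < vs.length, ∀ v < vs.length,
      v ∈ (mk vs g).getD u [] ↔ g (vs.getD u (0, 0)) (vs.getD v (0, 0)) = true := by
    intro u hu v hv
    simp [mk, List.getD_eq_getElem?_getD, hu, hv]
  have a1 : ∀ p ∈ vs, vs.idxOf p < vs.length := fun p hp => List.idxOf_lt_length_iff.2 hp
  have a2 : ∀ p ∈ vs, vs.getD (vs.idxOf p) (0, 0) = p := fun p hp => by
    rw [List.getD_eq_getElem _ _ (a1 p hp), List.getElem_idxOf]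
  have a3 : ∀ u < vs.length, vs.getD u (0, 0) ∈ vs := fun u hu => by
    rw [List.getD_eq_getElem _ _ hu]; exact List.getElem_mem _
  have a4 : ∀ u < vs.length, vs.idxOf (vs.getD u (0, 0)) = u := fun u hu => by
    rw [List.getD_eq_getElem _ _ hu]; exact hv.idxOf_getElem _ _
  rw [nlt_iff, and_iff_right (by
    intro s hs x hx
    obtain ⟨p, -, rfl⟩ := List.mem_map.1 hs
    rw [l]
    exact List.mem_range.1 (List.mem_filter.1 hx).1)]
  simp only [Sol, l]
  constructor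
  · rintro ⟨σ, h1, h2, h3⟩
    refine ⟨fun p => vs.getD (σ (vs.idxOf p)) (0, 0), fun p hp => a3 _ (h1 _ (a1 p hp)),
      fun p hp => ?_, fun p hp q hq k => ?_⟩
    · have := h2 _ (a1 p hp)
      rw [m _ (h1 _ (a1 p hp)) _ (a1 p hp), a2 p hp] at this
      simpa using this
    · have := h3 _ (a1 p hp) _ (a1 q hq) fun e => k (by rw [← a2 p hp, e, a2 q hq])
      rw [m _ (h1 _ (a1 p hp)) _ (a1 q hq), m _ (h1 _ (a1 q hq)) _ (a1 p hp), a2 p hp, a2 q hq]
        at this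
      intro e
      simp only [e] at this
      tauto
  · rintro ⟨σ, h1, h2, h3⟩
    refine ⟨fun u => vs.idxOf (σ (vs.getD u (0, 0))), fun u hu => a1 _ (h1 _ (a3 u hu)),
      fun u hu => ?_, fun u hu v hv k => ?_⟩
    · rw [m _ (a1 _ (h1 _ (a3 u hu))) _ hu, a2 _ (h1 _ (a3 u hu)), h2 _ (a3 u hu)]
      simp
    · rw [m _ (a1 _ (h1 _ (a3 u hu))) _ hv, m _ (a1 _ (h1 _ (a3 v hv))) _ hu,
        a2 _ (h1 _ (a3 u hu)), a2 _ (h1 _ (a3 v hv))]
      have := h3 _ (a3 u hu) _ (a3 v hv) fun e => k (by rw [← a4 u hu, e, a4 v hv])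
      revert this
      cases g (σ (vs.getD u (0, 0))) (vs.getD v (0, 0)) <;>
        cases g (σ (vs.getD v (0, 0))) (vs.getD u (0, 0)) <;> simp

def tab : List (List (List ℕ)) :=
  [[[0], [1], [2]], [[1,2,4], [2,5,6], [3,4,6], [0,1,6], [1,3,5], [0,2,3], [0,4,5]],
  [[0,3,7,10,11,14,15,16,18,20], [1,4,8,9,11,12,16,17,18,19], [2,5,6,9,10,13,15,17,19,20],
  [0,2,3,6,10,11,12,13,17,19], [0,1,4,7,9,11,13,14,15,20], [1,2,5,8,9,10,12,14,16,18],
  [1,2,3,5,6,9,14,15,16,19], [0,2,3,4,7,10,12,16,17,20], [0,1,4,5,8,11,13,15,17,18],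
  [1,4,6,8,10,12,14,15,17,18], [2,5,6,7,11,12,13,15,16,19], [0,3,7,8,9,13,14,16,17,20],
  [0,1,5,6,7,9,13,17,18,20], [1,2,3,7,8,10,14,15,18,19], [0,2,4,6,8,11,12,16,19,20],
  [2,3,4,8,9,12,13,16,18,20], [0,4,5,6,10,13,14,17,18,19], [1,3,5,7,11,12,14,15,19,20],
  [0,4,5,7,8,9,11,12,15,19], [1,3,5,6,8,9,10,13,16,20], [2,3,4,6,7,10,11,14,17,18]],
  [[0,5,7,9,11,12,15,16,19,20], [1,3,8,9,10,13,16,17,18,20], [2,4,6,10,11,14,15,17,18,19],
  [1,2,3,7,10,11,12,14,15,18], [0,2,4,8,9,11,12,13,16,19], [0,1,5,6,9,10,13,14,17,20],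
  [0,2,3,5,6,10,13,15,17,19], [0,1,3,4,7,11,14,15,16,20], [1,2,4,5,8,9,12,16,17,18],
  [1,5,6,8,9,13,14,15,16,18], [2,3,6,7,10,12,14,16,17,19], [0,4,7,8,11,12,13,15,17,20],
  [0,1,4,6,8,11,12,17,18,19], [1,2,5,6,7,9,13,15,19,20], [0,2,3,7,8,10,14,16,18,20],
  [0,3,4,7,9,13,14,17,18,20], [1,4,5,8,10,12,14,15,18,19], [2,3,5,6,11,12,13,16,19,20],
  [2,3,4,6,8,9,10,12,16,20], [0,4,5,6,7,10,11,13,17,18], [1,3,5,7,8,9,11,14,15,19]],
  [[0,4,7,9,11,13,15,17,18,20], [1,5,8,9,10,14,15,16,18,19], [2,3,6,10,11,12,16,17,19,20],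
  [0,2,3,8,9,10,12,13,16,20], [0,1,4,6,10,11,13,14,17,18], [1,2,5,7,9,11,12,14,15,19],
  [0,2,4,5,6,11,12,15,16,19], [0,1,3,5,7,9,13,16,17,20], [1,2,3,4,8,10,14,15,17,18],
  [1,3,7,8,11,12,14,15,16,18], [2,4,6,8,9,12,13,16,17,19], [0,5,6,7,10,13,14,15,17,20],
  [0,2,3,6,7,10,14,17,18,19], [0,1,4,7,8,11,12,15,19,20], [1,2,5,6,8,9,13,16,18,20],
  [1,3,5,6,9,13,14,15,19,20], [2,3,4,7,10,12,14,16,18,20], [0,4,5,8,11,12,13,17,18,19],
  [1,4,5,6,8,9,10,12,17,18], [2,3,5,6,7,10,11,13,15,19], [0,3,4,7,8,9,11,14,16,20]]]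

def loc (t i k : ℕ) : Bool := ((tab.getD t []).getD i []).contains k
def size (t : ℕ) : ℕ := if t = 0 then 3 else if t = 1 then 7 else 21
def Loc (t : ℕ) (f : ℕ → ℕ) : Prop :=
  ∀ i < size t, loc t (f i) i = false ∧ ∀ k < size t, i ≠ k → loc t (f i) k ≠ loc t (f k) i
instance (t : ℕ) (f : ℕ → ℕ) : Decidable (Loc t f) := by unfold Loc; infer_instance
def bs : List (List ℕ) := [[1, 2, 0], [2, 0, 1]]
def as : List (List ℕ) :=
  [[0,1,2,3,4,5,6], [0,2,4,6,1,3,5], [1,5,2,6,3,0,4], [1,6,4,3,5,2,0], [2,5,6,1,4,3,0],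
  [2,6,3,0,1,5,4], [4,1,6,0,3,2,5], [4,2,3,1,5,0,6]]
def wf (a b : List ℕ) (i : ℕ) : ℕ := 3 * a.idxOf (i / 3) + b.idxOf (i % 3)

theorem zero_ex : ∀ t < 5, ∀ i < size t, ∃ k < size t, loc t i k = false := by decide +kernel

def dfs (t : ℕ) : ℕ → List ℕ → List (List ℕ)
  | 0, l => [l]
  | n + 1, l => (List.range (size t)).flatMap fun a =>
      if !loc t a l.length && (List.range l.length).all fun k =>
        loc t (l.getD k 0) l.length != loc t a k then dfs t n (l ++ [a]) else []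

theorem mem_dfs (t : ℕ) (f : ℕ → ℕ) (h : ∀ i < size t, f i < size t) (l : Loc t f) (n i : ℕ)
    (e : i + n = size t) : (List.range (size t)).map f ∈ dfs t n ((List.range i).map f) := by
  induction n generalizing i with
  | zero => simp [dfs, ← e]
  | succ n ih =>
    have hi : i < size t := by omega
    simp only [dfs, List.mem_flatMap, List.mem_range]
    refine ⟨f i, h i hi, ?_⟩
    rw [if_pos]
    · simpa [List.range_succ] using ih (i + 1) (by omega)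
    · simp only [List.length_map, List.length_range, (l i hi).1, Bool.not_false, Bool.true_and,
        List.all_eq_true, List.mem_range, bne_iff_ne]
      intro k hk
      have : ((List.range i).map f).getD k 0 = f k := by simp [List.getD_eq_getElem?_getD, hk]
      rw [this]
      exact (l k (by omega)).2 i hi hk.ne

theorem solX (f : ℕ → ℕ) (h : ∀ i < 3, f i < 3) (l : Loc 0 f) : (List.range 3).map f ∈ bs :=
  (show dfs 0 3 [] = bs by decide +kernel) ▸ mem_dfs 0 f h l 3 0 rfl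

theorem solC (f : ℕ → ℕ) (h : ∀ i < 7, f i < 7) (l : Loc 1 f) : (List.range 7).map f ∈ as :=
  (show dfs 1 7 [] = as by decide +kernel) ▸ mem_dfs 1 f h l 7 0 rfl

theorem clause : ∀ a ∈ as, ∀ b1 ∈ bs, ∀ b2 ∈ bs, ∀ b3 ∈ bs, Loc 2 (wf a b1) → Loc 3 (wf a b2) →
    Loc 4 (wf a b3) → (b1.headD 0 == 2).toNat + (b2.headD 0 == 2).toNat +
      (b3.headD 0 == 2).toNat = 1 := by decide +kernel

theorem idx_as : ∀ a ∈ as, ∀ k < 7, a.idxOf (a.getD k 0) = k := by decide +kernel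
theorem idx_bs : ∀ a ∈ bs, ∀ k < 3, a.idxOf (a.getD k 0) = k := by decide +kernel

end Pool.Agent.H24.Nlt
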