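import Pool.Agent.H24.Nlt1

set_option autoImplicit false

namespace Pool.Agent.H24.Nlt

open Pool.Agent.H11.PT

def var (φ : List (ℕ × ℕ × ℕ)) (b : ℕ) : ℕ :=
  if b % 5 = 2 then (φ.getD (b / 5) (0, 0, 0)).1 else if b % 5 = 3 then (φ.getD (b / 5) (0, 0, 0)).2.1
  else (φ.getD (b / 5) (0, 0, 0)).2.2
def lnk (φ : List (ℕ × ℕ × ℕ)) (b c : ℕ) : Prop :=
  2 ≤ b % 5 ∧ (c = 5 * (b / 5) + 1 ∨ c = 5 * var φ b)
instance (φ : List (ℕ × ℕ × ℕ)) (b c : ℕ) : Decidable (lnk φ b c) := by unfold lnk; infer_instance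
def pat (c i k : ℕ) : Bool := if c % 5 = 1 then i / 3 == k else i % 3 == k
def gr (φ : List (ℕ × ℕ × ℕ)) (b c i k : ℕ) : Bool :=
  if b = c then loc (b % 5) i k else if lnk φ b c then pat c i k
  else if lnk φ c b then !pat b k i else decide (b < c)
def g (φ : List (ℕ × ℕ × ℕ)) (p q : ℕ × ℕ) : Bool :=
  if p.2 = 0 then (if q.2 = 0 then decide (p.1 < q.1) else !(q.2 == 1 && q.1 == p.1))
  else if q.2 = 0 then p.2 == 1 && p.1 == q.1
  else if p.2 = 1 then (if q.2 = 1 then decide (p.1 < q.1) else p.1 == q.1)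
  else if q.2 = 1 then p.1 != q.1 else gr φ p.1 q.1 (p.2 - 2) (q.2 - 2)
def nv (φ : List (ℕ × ℕ × ℕ)) : ℕ := (φ.map fun c => c.1 + c.2.1 + c.2.2).sum + 2
def blk (φ : List (ℕ × ℕ × ℕ)) (b : ℕ) : Bool :=
  if b % 5 = 0 then decide (b / 5 < nv φ) else decide (b / 5 < φ.length)
def vs (φ : List (ℕ × ℕ × ℕ)) : List (ℕ × ℕ) :=
  (List.range (5 * (nv φ + φ.length)) ×ˢ List.range 23).filter fun p =>
    blk φ p.1 && decide (p.2 < size (p.1 % 5) + 2)
def red (φ : List (ℕ × ℕ × ℕ)) : List (List ℕ) := mk (vs φ) (g φ)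

theorem red_pt : PT red := by
  have h : PT vs := by unfold vs blk nv size; fun_prop
  unfold red mk g gr pat loc lnk var
  fun_prop

variable {φ : List (ℕ × ℕ × ℕ)}

theorem mem_vs {b i : ℕ} : (b, i) ∈ vs φ ↔ blk φ b = true ∧ i < size (b % 5) + 2 := by
  simp only [vs, List.mem_filter, List.mem_product, List.mem_range, Bool.and_eq_true,
    decide_eq_true_eq, and_iff_right_iff_imp]
  rintro ⟨h1, h2⟩
  unfold blk at h1
  unfold size at h2
  constructor
  · split_ifs at h1 <;> simp only [decide_eq_true_eq] at h1 <;> omega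
  · split_ifs at h2 <;> omega

theorem vs_nodup : (vs φ).Nodup := (List.nodup_range.product List.nodup_range).filter _

theorem size_pos (t : ℕ) : 3 ≤ size t := by unfold size; split_ifs <;> omega

theorem var_lt {b : ℕ} (h : b / 5 < φ.length) : var φ b < nv φ := by
  have := List.le_sum_of_mem (List.mem_map_of_mem (f := fun c : ℕ × ℕ × ℕ => c.1 + c.2.1 + c.2.2)
    (List.getElem_mem h))
  unfold var nv
  rw [List.getD_eq_getElem _ _ h]
  split_ifs <;> omega

theorem gr_lnk {b c : ℕ} (h : lnk φ b c) (i k : ℕ) :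
    gr φ b c i k = pat c i k ∧ gr φ c b k i = !pat c i k := by
  have n1 : b ≠ c := by obtain ⟨_, rfl | rfl⟩ := h <;> omega
  have n2 : ¬ lnk φ c b := by
    obtain ⟨-, rfl | rfl⟩ := h <;> intro h <;> have := h.1 <;> omega
  simp [gr, n1, n1.symm, n2, h]

section
variable {σ : ℕ × ℕ → ℕ × ℕ} (h1 : ∀ p ∈ vs φ, σ p ∈ vs φ) (h2 : ∀ p ∈ vs φ, g φ (σ p) p = false)
  (h3 : ∀ p ∈ vs φ, ∀ q ∈ vs φ, p ≠ q → g φ (σ p) q ≠ g φ (σ q) p)
include h2 h3

theorem inj {p q : ℕ × ℕ} (hp : p ∈ vs φ) (hq : q ∈ vs φ) (e : σ p = σ q) : p = q := by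
  by_contra k
  have := h3 p hp q hq k
  rw [e, h2 q hq, ← e, h2 p hp] at this
  exact this rfl

include h1

theorem fix0 (b : ℕ) (hb : blk φ b = true) : σ (b, 0) = (b, 0) := by
  induction b using Nat.strong_induction_on with
  | _ b ih =>
  have m : (b, 0) ∈ vs φ := mem_vs.2 ⟨hb, by omega⟩
  have k : ∀ u ∈ vs φ, (u.2 ≠ 0 ∨ b < u.1) → g φ (σ (b, 0)) u = false → σ u = (b, 1) := by
    intro u hu c e
    have := h3 _ m u hu (by rintro rfl; simp at c)
    rw [e] at this
    have m' := h1 u hu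
    have i := @inj _ _ h2 h3 u
    generalize σ u = w at this m' i ⊢
    obtain ⟨c', i'⟩ := w
    by_cases z : i' = 0
    · subst z
      have l : c' < b := by simpa [g] using this
      obtain rfl := i hu m' (ih c' l (mem_vs.1 m').1).symm
      simp only at c
      omega
    · simpa [g, z, and_comm] using this
  have k2 : ∀ u ∈ vs φ, ∀ u' ∈ vs φ, (u.2 ≠ 0 ∨ b < u.1) → (u'.2 ≠ 0 ∨ b < u'.1) →
      g φ (σ (b, 0)) u = false → g φ (σ (b, 0)) u' = false → u = u' :=
    fun u hu u' hu' c c' e e' => inj h2 h3 hu hu' ((k u hu c e).trans (k u' hu' c' e').symm)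
  have m' := h1 _ m
  have i := @inj _ _ h2 h3 (b, 0)
  generalize σ (b, 0) = w at k2 m' i ⊢
  obtain ⟨c, i'⟩ := w
  have hc := mem_vs.1 m'
  have s := size_pos (c % 5)
  have m1 : (c, 1) ∈ vs φ := mem_vs.2 ⟨hc.1, by omega⟩
  rcases i' with _ | _ | i'
  · rcases lt_trichotomy c b with l | rfl | l
    · exact (i m m' (ih c l hc.1).symm).symm
    · rfl
    · simpa using k2 _ m' _ m1 (.inr l) (.inr l) (by simp [g]) (by simp [g])
  · have n2 : 2 ≤ nv φ := by unfold nv; omega
    by_cases z : c = 0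
    · simpa using k2 _ m' (5, 2) (mem_vs.2 ⟨by simp [blk]; omega, by simp [size]⟩) (by simp) (by simp)
        (by simp [g]) (by simp [g, z])
    · simpa using k2 _ m' (0, 2) (mem_vs.2 ⟨by simp [blk]; omega, by simp [size]⟩) (by simp) (by simp)
        (by simp [g]) (by simp [g, z])
  · obtain ⟨k, hk, e⟩ := zero_ex (c % 5) (Nat.mod_lt _ (by omega)) i' (by omega)
    simpa using k2 _ m1 (c, k + 2) (mem_vs.2 ⟨hc.1, by omega⟩) (by simp) (by simp)
      (by simp [g]) (by simp [g, gr, e])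

theorem fix1 (b : ℕ) (hb : blk φ b = true) : σ (b, 1) = (b, 1) := by
  have s := size_pos (b % 5)
  have m : (b, 0) ∈ vs φ := mem_vs.2 ⟨hb, by omega⟩
  have m1 : (b, 1) ∈ vs φ := mem_vs.2 ⟨hb, by omega⟩
  have := h3 _ m1 _ m (by simp)
  rw [fix0 h1 h2 h3 b hb] at this
  have m' := h1 _ m1
  have i := @inj _ _ h2 h3 (b, 1)
  generalize σ (b, 1) = w at this m' i ⊢
  obtain ⟨c, i'⟩ := w
  by_cases z : i' = 0
  · subst z
    simpa using i m1 m' (fix0 h1 h2 h3 c (mem_vs.1 m').1).symm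
  · simpa [g, z, and_comm] using this

theorem fix2 (b : ℕ) (hb : blk φ b = true) (i : ℕ) (hi : i < size (b % 5)) :
    ∃ k < size (b % 5), σ (b, i + 2) = (b, k + 2) := by
  have m : (b, i + 2) ∈ vs φ := mem_vs.2 ⟨hb, by omega⟩
  have m1 : (b, 1) ∈ vs φ := mem_vs.2 ⟨hb, by omega⟩
  have := h3 _ m _ m1 (by simp)
  rw [fix1 h1 h2 h3 b hb] at this
  have m' := h1 _ m
  have i := @inj _ _ h2 h3 (b, i + 2)
  generalize σ (b, _ + 2) = w at this m' i ⊢
  obtain ⟨c, _ | _ | k⟩ := w
  · simpa using i m m' (fix0 h1 h2 h3 c (mem_vs.1 m').1).symm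
  · simpa using i m m' (fix1 h1 h2 h3 c (mem_vs.1 m').1).symm
  · obtain rfl : c = b := by simpa [g] using this
    exact ⟨k, by have := (mem_vs.1 m').2; omega, rfl⟩

theorem sound : ONE3 φ := by
  let f : ℕ → ℕ → ℕ := fun b i => (σ (b, i + 2)).2 - 2
  have a : ∀ b, blk φ b = true → ∀ i < size (b % 5),
      f b i < size (b % 5) ∧ σ (b, i + 2) = (b, f b i + 2) := by
    intro b hb i hi
    obtain ⟨k, hk, e⟩ := fix2 h1 h2 h3 b hb i hi
    simp [f, e, hk]
  have c : ∀ b, blk φ b = true → ∀ i < size (b % 5), ∀ b', blk φ b' = true → ∀ k < size (b' % 5),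
      (b, i) ≠ (b', k) → gr φ b b' (f b i) k ≠ gr φ b' b (f b' k) i := by
    intro b hb i hi b' hb' k hk n
    have := h3 (b, i + 2) (mem_vs.2 ⟨hb, by omega⟩) (b', k + 2) (mem_vs.2 ⟨hb', by omega⟩)
      (by simpa using n)
    rw [(a b hb i hi).2, (a b' hb' k hk).2] at this
    simpa [g] using this
  have l : ∀ b, blk φ b = true → Loc (b % 5) (f b) := by
    intro b hb i hi
    refine ⟨?_, fun k hk n => by simpa [gr] using c b hb i hi b hb k hk (by simpa using n)⟩
    have := h2 (b, i + 2) (mem_vs.2 ⟨hb, by omega⟩)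
    rw [(a b hb i hi).2] at this
    simpa [g, gr] using this
  have X : ∀ x < nv φ, (List.range 3).map (f (5 * x)) ∈ bs := by
    intro x hx
    have hb : blk φ (5 * x) = true := by simpa [blk] using hx
    exact solX _ (fun i hi => by simpa [size] using (a _ hb i (by simpa [size] using hi)).1)
      (by simpa using l _ hb)
  refine ⟨fun x => f (5 * x) 0 == 2, fun cl hcl => ?_⟩
  obtain ⟨j, hj, rfl⟩ := List.getElem_of_mem hcl
  have hC : blk φ (5 * j + 1) = true := by simp [blk]; omega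
  have e1 : (5 * j + 1) % 5 = 1 := by omega
  have C := solC (f (5 * j + 1)) (fun i hi => by
    simpa [size, e1] using (a _ hC i (by simpa [size, e1] using hi)).1) (by simpa [e1] using l _ hC)
  have W : ∀ t, 2 ≤ t → t < 5 → Loc t (wf ((List.range 7).map (f (5 * j + 1)))
      ((List.range 3).map (f (5 * var φ (5 * j + t))))) := by
    intro t t1 t2
    have e2 : (5 * j + t) % 5 = t := by omega
    have e3 : (5 * j + t) / 5 = j := by omega
    have e4 : size t = 21 := by unfold size; rw [if_neg (by omega), if_neg (by omega)]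
    have hW : blk φ (5 * j + t) = true := by
      unfold blk; rw [if_neg (by omega), e3]; simpa using hj
    have hx := var_lt (φ := φ) (b := 5 * j + t) (by omega)
    have hX : blk φ (5 * var φ (5 * j + t)) = true := by simpa [blk] using hx
    have e : ∀ i < 21, wf ((List.range 7).map (f (5 * j + 1)))
        ((List.range 3).map (f (5 * var φ (5 * j + t)))) i = f (5 * j + t) i := by
      intro i hi
      have b := (a _ hW i (by rw [e2, e4]; exact hi)).1
      rw [e2, e4] at b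
      have c1 := c _ hW i (by rw [e2, e4]; exact hi) _ hC (f (5 * j + t) i / 3)
        (by rw [e1]; simp only [size]; simp; omega) (by simp; omega)
      have c2 := c _ hW i (by rw [e2, e4]; exact hi) _ hX (f (5 * j + t) i % 3)
        (by simp only [size]; simp; omega) (by simp; omega)
      have l1 : lnk φ (5 * j + t) (5 * j + 1) := ⟨by omega, .inl (by omega)⟩
      have l2 : lnk φ (5 * j + t) (5 * var φ (5 * j + t)) := ⟨by omega, .inr rfl⟩
      rw [(gr_lnk l1 _ _).1, (gr_lnk l1 _ _).2] at c1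
      rw [(gr_lnk l2 _ _).1, (gr_lnk l2 _ _).2] at c2
      have c1 : i / 3 = f (5 * j + 1) (f (5 * j + t) i / 3) := by simpa [pat, e1] using c1
      have c2 : i % 3 = f (5 * var φ (5 * j + t)) (f (5 * j + t) i % 3) := by simpa [pat] using c2
      have d1 := idx_as _ C (f (5 * j + t) i / 3) (by omega)
      have d2 := idx_bs _ (X _ hx) (f (5 * j + t) i % 3) (by omega)
      rw [List.getD_eq_getElem _ _ (by simp; omega), List.getElem_map, List.getElem_range] at d1 d2
      rw [wf, c1, c2, d1, d2]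
      omega
    have := l _ hW
    rw [e2] at this
    intro i hi
    rw [e i (e4 ▸ hi)]
    exact ⟨(this i hi).1, fun k hk => by rw [e k (e4 ▸ hk)]; exact (this i hi).2 k hk⟩
  have v : ∀ t, 2 ≤ t → t < 5 → var φ (5 * j + t) < nv φ := fun t _ _ => var_lt (by omega)
  have := clause _ C _ (X _ (v 2 (by omega) (by omega))) _ (X _ (v 3 (by omega) (by omega))) _
    (X _ (v 4 (by omega) (by omega))) (W 2 (by omega) (by omega)) (W 3 (by omega) (by omega))
    (W 4 (by omega) (by omega))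
  have v2 : var φ (5 * j + 2) = φ[j].1 := by
    rw [var, if_pos (by omega), show (5 * j + 2) / 5 = j by omega, List.getD_eq_getElem _ _ hj]
  have v3 : var φ (5 * j + 3) = φ[j].2.1 := by
    rw [var, if_neg (by omega), if_pos (by omega), show (5 * j + 3) / 5 = j by omega,
      List.getD_eq_getElem _ _ hj]
  have v4 : var φ (5 * j + 4) = φ[j].2.2 := by
    rw [var, if_neg (by omega), if_neg (by omega), show (5 * j + 4) / 5 = j by omega,
      List.getD_eq_getElem _ _ hj]
  rw [v2, v3, v4] at this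
  exact this

end

def bb (x : Bool) : List ℕ := bif x then [2, 0, 1] else [1, 2, 0]
def aa (x y : Bool) : List ℕ :=
  bif x then [0, 1, 2, 3, 4, 5, 6] else bif y then [0, 2, 4, 6, 1, 3, 5] else [1, 5, 2, 6, 3, 0, 4]

theorem cX : ∀ x, (∀ i < 3, (bb x).getD i 0 < 3) ∧ Loc 0 fun i => (bb x).getD i 0 := by
  decide +kernel
theorem cC : ∀ x y, (∀ i < 7, (aa x y).getD i 0 < 7) ∧ Loc 1 fun i => (aa x y).getD i 0 := by
  decide +kernel
theorem cW : ∀ x y z : Bool, x.toNat + y.toNat + z.toNat = 1 → Loc 2 (wf (aa x y) (bb x)) ∧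
    Loc 3 (wf (aa x y) (bb y)) ∧ Loc 4 (wf (aa x y) (bb z)) := by decide +kernel
theorem cL : ∀ x y z : Bool, ∀ i < 21, wf (aa x y) (bb z) i < 21 ∧
    (∀ k < 7, (wf (aa x y) (bb z) i / 3 == k) = (i / 3 == (aa x y).getD k 0)) ∧
    ∀ k < 3, (wf (aa x y) (bb z) i % 3 == k) = (i % 3 == (bb z).getD k 0) := by decide +kernel

theorem complete (h : ONE3 φ) : ∃ σ : ℕ × ℕ → ℕ × ℕ, (∀ p ∈ vs φ, σ p ∈ vs φ) ∧
    (∀ p ∈ vs φ, g φ (σ p) p = false) ∧
      ∀ p ∈ vs φ, ∀ q ∈ vs φ, p ≠ q → g φ (σ p) q ≠ g φ (σ q) p := by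
  obtain ⟨τ, h⟩ := h
  let A : ℕ → List ℕ := fun j => aa (τ (φ.getD j (0, 0, 0)).1) (τ (φ.getD j (0, 0, 0)).2.1)
  let F : ℕ → ℕ → ℕ := fun b i => if b % 5 = 0 then (bb (τ (b / 5))).getD i 0
    else if b % 5 = 1 then (A (b / 5)).getD i 0 else wf (A (b / 5)) (bb (τ (var φ b))) i
  have l : ∀ b, blk φ b = true → (∀ i < size (b % 5), F b i < size (b % 5)) ∧ Loc (b % 5) (F b) := by
    intro b hb
    by_cases e0 : b % 5 = 0
    · simp only [F, e0, if_true]
      exact cX _
    by_cases e1 : b % 5 = 1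
    · simp only [F, e1, if_true, one_ne_zero, if_false]
      exact cC _ _
    have hj : b / 5 < φ.length := by simpa [blk, e0] using hb
    have := cW _ _ _ (h _ (List.getElem_mem hj))
    rw [← List.getD_eq_getElem _ (0, 0, 0) hj] at this
    simp only [F, e0, e1, if_false, size]
    refine ⟨fun i hi => (cL _ _ _ i hi).1, ?_⟩
    have : b % 5 = 2 ∨ b % 5 = 3 ∨ b % 5 = 4 := by omega
    rcases this with e | e | e <;> simp only [var, e] <;> simp only [A] <;> simp <;> simp_all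
  have k : ∀ b c, lnk φ b c → ∀ i < size (b % 5), ∀ k < size (c % 5),
      pat c (F b i) k = pat c i (F c k) := by
    rintro b c ⟨h1, rfl | rfl⟩ i hi k hk
    · have e1 : (5 * (b / 5) + 1) % 5 = 1 := by omega
      have e2 : (5 * (b / 5) + 1) / 5 = b / 5 := by omega
      simp only [size, e1, if_neg (show ¬ b % 5 = 0 by omega), if_neg (show ¬ b % 5 = 1 by omega),
        pat, F, e2, if_true, one_ne_zero, if_false] at hi hk ⊢
      exact (cL _ _ _ i hi).2.1 k hk
    · have e1 : (5 * var φ b) % 5 = 0 := by omega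
      have e2 : (5 * var φ b) / 5 = var φ b := by omega
      simp only [size, e1, if_neg (show ¬ b % 5 = 0 by omega), if_neg (show ¬ b % 5 = 1 by omega),
        pat, F, e2, if_true, zero_ne_one, if_false] at hi hk ⊢
      exact (cL _ _ _ i hi).2.2 k hk
  refine ⟨fun p => if p.2 < 2 then p else (p.1, F p.1 (p.2 - 2) + 2), ?_, ?_, ?_⟩
  · rintro ⟨b, _ | _ | i⟩ hp
    · simpa using hp
    · simpa using hp
    · have := mem_vs.1 hp
      simpa using mem_vs.2 ⟨this.1, Nat.add_lt_add_right ((l b this.1).1 i (by omega)) 2⟩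
  · rintro ⟨b, _ | _ | i⟩ hp
    · simp [g]
    · simp [g]
    · have := mem_vs.1 hp
      simpa [g, gr] using ((l b this.1).2 i (by omega)).1
  · rintro ⟨b, _ | _ | i⟩ hp ⟨c, _ | _ | j⟩ hq n
    · simp [g] at n ⊢; omega
    · by_cases e : b = c <;> simp [g, e, eq_comm]
    · simp [g]
    · by_cases e : b = c <;> simp [g, e, eq_comm]
    · simp [g] at n ⊢; omega
    · simp [g, bne, @BEq.comm _ _ _ c b]
    · simp [g]
    · simp [g, bne, @BEq.comm _ _ _ c b]
    have hp := mem_vs.1 hp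
    have hq := mem_vs.1 hq
    have : gr φ b c (F b i) j ≠ gr φ c b (F c j) i := by
      by_cases e : b = c
      · subst e
        simpa [gr] using ((l b hp.1).2 i (by omega)).2 j (by omega) (by simpa using n)
      by_cases l1 : lnk φ b c
      · rw [(gr_lnk l1 _ _).1, (gr_lnk l1 _ _).2, k b c l1 i (by omega) j (by omega)]
        simp
      by_cases l2 : lnk φ c b
      · rw [(gr_lnk l2 _ _).1, (gr_lnk l2 _ _).2, k c b l2 j (by omega) i (by omega)]
        simp
      rw [gr, gr, if_neg e, if_neg (Ne.symm e), if_neg l1, if_neg l2, if_neg l2, if_neg l1]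
      simp
      omega
    simpa [g] using this

theorem hard : Hard NLT := fun L hL => by
  obtain ⟨f, hf, e⟩ := hard_ONE3 L hL
  refine ⟨fun x => red (f x), red_pt.comp hf, fun x => (e x).2.trans ?_⟩
  simp only [red]
  rw [mk_iff _ vs_nodup]
  exact ⟨complete, fun ⟨_, h1, h2, h3⟩ => sound h1 h2 h3⟩

end Pool.Agent.H24.Nlt
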