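import Mathlib

set_option autoImplicit false
open MeasureTheory Set TopologicalSpace

namespace Pool.Agent.H24.NonBorel

theorem exists_proj : ∃ F : Set ((ℕ → Bool) × (ℕ → Bool)), MeasurableSet F ∧
    ¬ MeasurableSet {x | ∃ y, (x, y) ∈ F} := by
  classical
  have : PolishSpace (ℕ → Bool) := {}
  obtain ⟨B, hB⟩ := (countable_countableBasis ((ℕ → Bool) × (ℕ → ℕ))).exists_eq_range
    (by
      obtain ⟨v, hv, -⟩ := (isBasis_countableBasis ((ℕ → Bool) × (ℕ → ℕ))).exists_subset_of_mem_open
        (a := default) (mem_univ _) isOpen_univ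
      exact ⟨v, hv⟩)
  have hBo : ∀ n, IsOpen (B n) := fun n => isOpen_of_mem_countableBasis (hB ▸ mem_range_self n)
  let e : (ℕ → ℕ) ≃ᵐ (ℕ → Bool) := PolishSpace.measurableEquivNatBoolOfNotCountable
    (fun h => by
      obtain ⟨s, hs⟩ := exists_surjective_nat (ℕ → ℕ)
      obtain ⟨n, hn⟩ := hs fun n => s n n + 1
      simpa using congrFun hn n)
  refine ⟨{q | ∀ n, q.1 n = true → (q.1, e.symm q.2) ∉ B n}, ?_, fun hm => ?_⟩
  · refine Measurable.setOf (Measurable.forall fun n => Measurable.imp ?_ (Measurable.not ?_))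
    · exact (measurable_from_top (f := fun b : Bool => b = true)).comp
        ((measurable_pi_apply n).comp measurable_fst)
    · exact ((hBo n).measurableSet.preimage
        (measurable_fst.prodMk (e.symm.measurable.comp measurable_snd))).mem
  · have key : ∀ K : Set ((ℕ → Bool) × (ℕ → ℕ)), IsClosed K →
        {x | ∃ y, (x, y) ∈ K} ≠
        {x | ∃ y, (x, y) ∈ {q : (ℕ → Bool) × (ℕ → Bool) | ∀ n, q.1 n = true →
          (q.1, e.symm q.2) ∉ B n}}ᶜ := by
      intro K hK h
      let c : ℕ → Bool := fun n => decide (B n ⊆ Kᶜ)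
      have h1 : ∀ y, (c, y) ∈ K ↔ ∀ n, c n = true → (c, y) ∉ B n := by
        intro y
        constructor
        · intro h2 n hn h3
          exact (of_decide_eq_true hn) h3 h2
        · intro h2
          by_contra h3
          obtain ⟨v, hv, h4, h5⟩ := (isBasis_countableBasis _).exists_subset_of_mem_open
            (a := (c, y)) h3 hK.isOpen_compl
          rw [hB] at hv
          obtain ⟨n, rfl⟩ := hv
          exact h2 n (decide_eq_true h5) h4
      have h2 := Set.ext_iff.1 h c
      simp only [mem_ofPred_eq, mem_compl_iff, h1] at h2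
      rw [← e.symm.surjective.exists (p := fun y => ∀ n, c n = true → (c, y) ∉ B n)] at h2
      exact iff_not_self h2
    have han := hm.compl.analyticSet
    rw [AnalyticSet] at han
    rcases han with h | ⟨g, hg, h⟩
    · exact key ∅ isClosed_empty (by rw [h]; simp)
    · refine key {q | g q.2 = q.1} (isClosed_eq (hg.comp continuous_snd) continuous_fst) ?_
      rw [← h]
      rfl

end Pool.Agent.H24.NonBorel
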