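import Mathlib
import Pool.Agent.H24.Srs
import Pool.Agent.H16.QueueM
import Pool.Agent.H23.PR

set_option autoImplicit false

namespace Pool.Agent.H24.PConj

open Relation Pool.Agent.H24.Srs Pool.Agent.H16.QueueM Pool.Agent.H23

inductive L (Y P T : Type)
  | s (y : Y) | ix (p : P) | q (r : T) | pp (r : T) | hh | q0 | p0 | z

open L

instance {Y P T : Type} [Finite Y] [Finite P] [Finite T] : Finite (L Y P T) :=
  Finite.of_surjective (fun x : Y ⊕ P ⊕ T ⊕ T ⊕ Fin 4 => match x with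
    | .inl y => s y | .inr (.inl p) => ix p | .inr (.inr (.inl r)) => q r
    | .inr (.inr (.inr (.inl r))) => pp r
    | .inr (.inr (.inr (.inr i))) => [hh, q0, p0, z].getD i z) (by
      rintro (y | p | r | r | _ | _ | _ | _)
      exacts [⟨.inl y, rfl⟩, ⟨.inr (.inl p), rfl⟩, ⟨.inr (.inr (.inl r)), rfl⟩,
        ⟨.inr (.inr (.inr (.inl r))), rfl⟩, ⟨.inr (.inr (.inr (.inr 0))), rfl⟩,
        ⟨.inr (.inr (.inr (.inr 1))), rfl⟩, ⟨.inr (.inr (.inr (.inr 2))), rfl⟩,
        ⟨.inr (.inr (.inr (.inr 3))), rfl⟩])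

variable {Y : Type} (S : Set (List Y × List Y)) (N : ℕ)

abbrev T (Y : Type) (N : ℕ) := {r : List Y // r.length ≤ N}
abbrev LL := L Y S (T Y N)

variable {S N}

inductive μ : LL S N → LL S N → LL S N → Prop
  | a0 (r) (h : r.1 = []) : μ q0 hh (q r)
  | a1 (p r r') (h : r.1 = []) (h' : r'.1 = p.1.1) : μ (ix p) (q r) (q r')
  | a2 (y r r') (h : r.1 = y :: r'.1) : μ (q r) (s y) (q r')
  | b0 (p r') (h' : r'.1 = p.1.2.reverse) : μ p0 (ix p) (pp r')
  | b1 (p r r') (h : r.1 = []) (h' : r'.1 = p.1.2.reverse) : μ (pp r) (ix p) (pp r')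
  | b2 (y r r') (h : r.1 = y :: r'.1) : μ (s y) (pp r) (pp r')
  | z1 (r r') : μ (q r) (pp r') z
  | z2 (r) : μ p0 (q r) z
  | z3 (r r') : μ (pp r') (q r) z
  | zl (x) : μ z x z
  | zr (x) : μ x z z

variable (S N) in
def RR : Set (List (LL S N) × List (LL S N)) := {p | ∃ a b c, μ a b c ∧ p = ([a, b], [c])}

theorem μ.det {a b c c' : LL S N} (h : μ a b c) (h' : μ a b c') : c = c' := by
  cases h <;> cases h' <;> simp_all [Subtype.ext_iff]

theorem μ.cp {a b c x y : LL S N} (h : μ a b x) (h' : μ b c y) : μ x c z ∧ μ a y z := by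
  cases h <;> cases h' <;> first | (constructor <;> constructor) | simp_all

theorem μ.st {a b c : LL S N} (h : μ a b c) (u v : List (LL S N)) :
    St (RR S N) (u ++ a :: b :: v) (u ++ c :: v) :=
  ⟨_, ⟨a, b, c, h, rfl⟩, u, v, by simp, by simp⟩

theorem len : ∀ p ∈ RR S N, p.2.length < p.1.length := by
  rintro _ ⟨a, b, c, -, rfl⟩; simp

theorem confl : Confl (RR S N) := by
  refine newman len (loc ?_)
  rintro _ ⟨a, b, c, h, rfl⟩ _ ⟨a', b', c', h', rfl⟩ u v v' e hu
  rcases u with _ | ⟨x, _ | _⟩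
  · simp only [List.cons_append, List.nil_append, List.cons.injEq] at e
    obtain ⟨rfl, rfl, rfl⟩ := e
    rw [h.det h']
    exact ⟨_, .refl, .refl⟩
  · simp only [List.cons_append, List.nil_append, List.cons.injEq] at e
    obtain ⟨rfl, rfl, rfl⟩ := e
    exact ⟨z :: v', .single ((h.cp h').1.st [] v'), .single ((h.cp h').2.st [] v')⟩
  · simp at hu

def lh (z : List S) : List Y := z.flatMap fun p => p.1.1
def rh (z : List S) : List Y := z.flatMap fun p => p.1.2

def An : LL S N → List (LL S N) → Prop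
  | q r, W => q0 ∉ W ∨ ∃ (xs : List S) (ys : List Y), W = xs.reverse.map ix ++ q0 :: hh :: ys.map s ∧
      lh xs = ys ++ r.1
  | pp r, W => p0 ∉ W ∨ ∃ (xs : List S) (ys : List Y), W = ys.map s ++ p0 :: xs.reverse.map ix ∧
      rh xs = r.1.reverse ++ ys
  | z, _ => True
  | x, W => W = [x]

theorem An.one (x : LL S N) : An x [x] := by cases x <;> simp [An]

theorem μ.an {a b c : LL S N} (h : μ a b c) {U W : List (LL S N)} (h1 : An a U) (h2 : An b W) :
    An c (U ++ W) := by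
  cases h with
  | a0 r h => exact Or.inr ⟨[], [], by rw [h1, h2]; rfl, by simp [lh, h]⟩
  | a1 p r r' h h' =>
    rw [h1]
    refine h2.imp (by simp) fun ⟨xs, ys, a, b⟩ => ⟨xs ++ [p], ys, by simp [a], ?_⟩
    simp_all [lh]
  | a2 y r r' h =>
    rw [h2]
    exact h1.imp (by simp) fun ⟨xs, ys, a, b⟩ => ⟨xs, ys ++ [y], by simp [a], by simp [b, h]⟩
  | b0 p r' h' => exact Or.inr ⟨[p], [], by rw [h1, h2]; rfl, by simp [rh, h']⟩
  | b1 p r r' h h' =>
    rw [h2]
    refine h1.imp (by simp) fun ⟨xs, ys, a, b⟩ => ⟨p :: xs, ys, by simp [a], ?_⟩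
    simp_all [rh]
  | b2 y r r' h =>
    rw [h1]
    exact h2.imp (by simp) fun ⟨xs, ys, a, b⟩ => ⟨xs, y :: ys, by simp [a], by simp [b, h]⟩
  | _ => trivial

def Bl : List (LL S N) → List (LL S N) → Prop
  | [], W => W = []
  | x :: l, W => ∃ B W', W = B ++ W' ∧ An x B ∧ Bl l W'

theorem bl_append (l l' W : List (LL S N)) :
    Bl (l ++ l') W ↔ ∃ U V, W = U ++ V ∧ Bl l U ∧ Bl l' V := by
  induction l generalizing W with
  | nil => simp [Bl]
  | cons x l ih =>
    simp only [List.cons_append, Bl, ih]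
    constructor
    · rintro ⟨B, _, rfl, a, U, V, rfl, b, c⟩
      exact ⟨B ++ U, V, by simp, ⟨B, U, rfl, a, b⟩, c⟩
    · rintro ⟨_, V, rfl, ⟨B, U, rfl, a, b⟩, c⟩
      exact ⟨B, U ++ V, by simp, a, U, V, rfl, b, c⟩

theorem blocks {W W' : List (LL S N)} (h : ReflTransGen (St (RR S N)) W W') : Bl W' W := by
  induction h with
  | refl =>
    induction W with
    | nil => rfl
    | cons x W ih => exact ⟨[x], W, rfl, An.one x, ih⟩
  | tail _ h ih =>
    obtain ⟨_, ⟨a, b, c, h, rfl⟩, u, v, rfl, rfl⟩ := h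
    simp only [bl_append] at ih ⊢
    obtain ⟨_, V, rfl, ⟨U, _, rfl, h1, B, _, rfl, h2, B', _, rfl, h3, rfl⟩, h4⟩ := ih
    exact ⟨_, V, rfl, ⟨U, _, rfl, h1, B ++ B', [], by simp, h.an h2 h3, rfl⟩, h4⟩

theorem bl_s (w : List Y) (W : List (LL S N)) (h : Bl (w.map s) W) : W = w.map s := by
  induction w generalizing W with
  | nil => exact h
  | cons y w ih =>
    obtain ⟨B, W', rfl, a, b⟩ := h
    rw [a, ih _ b]; rfl

def ε : T Y N := ⟨[], Nat.zero_le _⟩

theorem eatA (r : List Y) (h : r.length ≤ N) :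
    ReflTransGen (St (RR S N)) (q ⟨r, h⟩ :: r.map s) [q ε] := by
  induction r with
  | nil => exact .refl
  | cons y r ih => exact (ih (by simpa using h.trans' (by simp))).head ((μ.a2 y _ _ rfl).st [] _)

theorem eatB (r : List Y) (h : r.length ≤ N) :
    ReflTransGen (St (RR S N)) (r.reverse.map s ++ [pp ⟨r, h⟩]) [pp ε] := by
  induction r with
  | nil => exact .refl
  | cons y r ih =>
    refine (ih (by simpa using h.trans' (by simp))).head ?_
    simpa using (μ.b2 y ⟨_, h⟩ _ rfl).st (r.reverse.map s) []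

variable (hN : ∀ p ∈ S, p.1.length ≤ N ∧ p.2.length ≤ N)
include hN

theorem runA (xs : List S) :
    ReflTransGen (St (RR S N)) (xs.reverse.map ix ++ q ε :: (lh xs).map s) [q ε] := by
  induction xs with
  | nil => exact .refl
  | cons p xs ih =>
    refine .head (b := xs.reverse.map ix ++ (q ⟨_, (hN _ p.2).1⟩ :: p.1.1.map s) ++ (lh xs).map s)
      ?_ ((ctx (eatA _ _) _ _).trans (by simpa using ih))
    simpa [lh] using (μ.a1 p ε ⟨_, (hN _ p.2).1⟩ rfl rfl).st (xs.reverse.map ix)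
      ((lh (p :: xs)).map s)

theorem runB (xs : List S) (x : LL S N) (hx : x = pp ε ∨ x = p0 ∧ xs ≠ []) :
    ReflTransGen (St (RR S N)) ((rh xs.reverse).map s ++ x :: xs.map ix) [pp ε] := by
  induction xs generalizing x with
  | nil => rcases hx with rfl | ⟨_, h⟩; exacts [.refl, absurd rfl h]
  | cons p xs ih =>
    have h : p.1.2.reverse.length ≤ N := by simpa using (hN _ p.2).2
    refine .head (b := (rh xs.reverse).map s ++ (p.1.2.reverse.reverse.map s ++ [pp ⟨_, h⟩]) ++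
      xs.map ix) ?_ ((ctx (eatB _ _) _ _).trans (by simpa using ih _ (Or.inl rfl)))
    have : μ x (ix p) (pp ⟨_, h⟩) := by
      rcases hx with rfl | ⟨rfl, _⟩
      exacts [.b1 p _ _ rfl rfl, .b0 p _ rfl]
    simpa [rh] using this.st ((rh (p :: xs).reverse).map s) (xs.map ix)

omit hN

theorem irr {w : List (LL S N)} (h : w.IsChain fun a b => ∀ c, ¬ μ a b c) : Irr (RR S N) w := by
  rintro _ ⟨_, ⟨a, b, c, k, rfl⟩, u, v, rfl, rfl⟩
  rw [List.append_assoc] at h
  exact (List.isChain_cons_cons.1 h.right_of_append).1 c k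

theorem irr_b (w : List Y) : Irr (RR S N) (hh :: (w.map s ++ [pp ε, q0])) := by
  refine irr ?_
  suffices ∀ x : LL S N, (x = hh ∨ ∃ y, x = s y) →
    (x :: (w.map s ++ [pp ε, q0])).IsChain fun a b => ∀ c, ¬ μ a b c from this _ (Or.inl rfl)
  induction w with
  | nil =>
    rintro _ (rfl | ⟨y, rfl⟩) <;> refine .cons_cons ?_ (.cons_cons ?_ (.singleton _)) <;>
      rintro _ ⟨⟩
    next h => simp [ε] at h
  | cons y w ih =>
    rintro _ (rfl | ⟨y, rfl⟩) <;> refine .cons_cons ?_ (ih _ (Or.inr ⟨_, rfl⟩)) <;> rintro _ ⟨⟩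

/-- `p`-conjugacy. -/
def PC {M : Type} [Monoid M] (a b : M) : Prop := ∃ u v, a = u * v ∧ b = v * u

theorem reach_iff (h1 : ∀ p ∈ S, p.1.length ≤ 2) (f w : List Y)
    (h : ∀ w', ReflTransGen (qs S) w w' → 2 ≤ w'.length) :
    ReflTransGen (qs S) w f ↔ ∃ xs : List S, lh xs ++ f = w ++ rh xs := by
  constructor
  · intro k
    clear h
    induction k using ReflTransGen.head_induction_on with
    | refl => exact ⟨[], by simp [lh, rh]⟩
    | head k _ ih =>
      obtain ⟨p, hp, t, rfl, rfl⟩ := k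
      obtain ⟨xs, e⟩ := ih
      exact ⟨⟨p, hp⟩ :: xs, by simpa [lh, rh] using e⟩
  · rintro ⟨xs, e⟩
    induction xs generalizing w with
    | nil => rw [show w = f by simpa [lh, rh] using e.symm]
    | cons p xs ih =>
      obtain ⟨t, rfl⟩ := List.prefix_of_prefix_length_le (l₁ := p.1.1) (l₂ := w)
        ⟨lh xs ++ f, by simpa [lh] using e⟩ ⟨_, rfl⟩ ((h1 _ p.2).trans (h _ .refl))
      have k : qs S (p.1.1 ++ t) (t ++ p.1.2) := ⟨_, p.2, t, rfl, rfl⟩
      exact (ih _ (fun w' a => h w' (a.head k)) (by simpa [lh, rh] using e)).head k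

include hN in
theorem main (f1 f2 : Y) (w : List Y) : (∃ xs : List S, lh xs ++ [f1, f2] = w ++ rh xs) ↔
    w = [f1, f2] ∨ PC (cl (RR S N) [q ε, s f1, s f2, p0])
      (cl _ (hh :: (w.map s ++ [pp ε, q0]))) := by
  symm
  constructor
  · rintro (rfl | ⟨u, v, h1, h2⟩)
    · exact ⟨[], by simp [lh, rh]⟩
    obtain ⟨u, rfl⟩ := cl_surj u
    obtain ⟨v, rfl⟩ := cl_surj v
    have i : Irr (RR S N) [q ε, s f1, s f2, p0] := by
      refine irr (.cons_cons ?_ (.cons_cons ?_ (.cons_cons ?_ (.singleton _)))) <;> rintro _ ⟨⟩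
      next h => simp [ε] at h
    obtain ⟨B, _, e1, a1, _, _, rfl, rfl, _, _, rfl, rfl, _, _, rfl, rfl, rfl⟩ :=
      blocks ((cl_irr confl i).1 h1.symm)
    obtain ⟨_, _, e2, rfl, k⟩ := blocks ((cl_irr confl (irr_b w)).1 h2.symm)
    obtain ⟨U, _, rfl, k1, B', _, rfl, a2, _, _, rfl, rfl, rfl⟩ := (bl_append _ _ _).1 k
    obtain rfl := bl_s _ _ k1
    change u ++ v = _ at e1
    change v ++ u = _ at e2
    have m : ∀ x, x ∈ u ++ v ↔ x ∈ v ++ u := fun x => by simp [or_comm]
    obtain ⟨xs, ys, rfl, b1⟩ := a1.resolve_left (by simpa [e1, e2] using m q0)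
    obtain ⟨xs', ys', rfl, b2⟩ := a2.resolve_left (by simpa [e1, e2] using m p0)
    obtain ⟨u, x, rfl⟩ := (List.eq_nil_or_concat' u).resolve_left (by
      rintro rfl
      have := congrArg List.getLast? (e1.symm.trans ((List.append_nil v).symm.trans e2))
      simp [List.getLast?_cons, List.getLast?_append] at this)
    obtain ⟨e3, ⟨⟩⟩ := List.append_inj' (t₂ := [q0]) (s₂ := hh :: (w.map s ++ (ys'.map s ++
      p0 :: xs'.reverse.map ix))) ((List.append_assoc v u [x]).trans (e2.trans (by simp))) rfl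
    obtain ⟨rfl, -, rfl⟩ := (List.append_cons_inj_of_notMem (x₂ := u) (z₂ := v) (a₂ := q0) (a₁ := q0)
      (x₁ := xs.reverse.map ix) (z₁ := hh :: (ys.map s ++ [s f1, s f2, p0])) (by simp) (by simp)).1
      (by simpa using e1.symm)
    obtain ⟨e4, -, e5⟩ := (List.append_cons_inj_of_notMem (a₂ := p0) (a₁ := p0)
      (x₂ := (w ++ ys').map s) (z₂ := xs'.reverse.map ix)
      (x₁ := (ys ++ [f1, f2]).map s) (z₁ := xs.reverse.map ix) (by simp) (by simp)).1
      (by simpa using e3)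
    obtain rfl := List.reverse_injective (List.map_injective_iff.2 (fun _ _ => ix.inj) e5)
    exact ⟨xs, by simpa [b1, b2, ε] using List.map_injective_iff.2 (fun _ _ => s.inj) e4⟩
  · rintro ⟨xs, h2⟩
    by_cases h1 : xs = []
    · exact Or.inl (by simpa [h1, lh, rh] using h2.symm)
    refine Or.inr ⟨cl _ (xs.reverse.map ix ++ [q0]), cl _ (hh :: ((w ++ rh xs).map s ++ [p0])),
      (cl_of ?_).symm, (cl_of ?_).symm⟩
    · refine .head (b := [] ++ (xs.reverse.map ix ++ q ε :: (lh xs).map s) ++ [s f1, s f2, p0]) ?_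
        (ctx (runA hN xs) _ _)
      rw [← h2]
      simpa using (μ.a0 (ε : T Y N) rfl).st (xs.reverse.map ix)
        ((lh xs).map s ++ [s f1, s f2, p0])
    · simpa using ctx (runB hN xs.reverse p0 (Or.inr ⟨rfl, by simpa using h1⟩)) (hh :: w.map s) [q0]

theorem final : ∃ (A : Type) (_ : Finite A) (_ : Primcodable A) (R : Set (List A × List A)),
    R.Finite ∧ (∀ p ∈ R, p.2.length ≤ 1 ∧ p.2.length < p.1.length) ∧ Confl R ∧
    ¬ ComputablePred fun x : List A × List A => PC (cl R x.1) (cl R x.2) := by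
  classical
  obtain ⟨Y, _, S, f1, f2, a, u, v, hS, h1, -, h2, h⟩ := exists_queue
  obtain ⟨N, hN⟩ := (hS.image fun p => p.1.length + p.2.length).bddAbove
  haveI : Finite S := hS
  haveI : Finite (T Y N) := List.finite_length_le Y N
  obtain ⟨n, ⟨ε'⟩⟩ := Finite.exists_equiv_fin (LL S N)
  letI := Primcodable.ofEquiv _ ε'
  refine ⟨LL S N, inferInstance, this, RR S N, ((List.finite_length_le _ 2).prod
    (List.finite_length_le _ 2)).subset ?_, ?_, confl, fun k => h ?_⟩
  · rintro _ ⟨a, b, c, -, rfl⟩; simp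
  · rintro _ ⟨a, b, c, -, rfl⟩; simp
  obtain ⟨F, k1, k2⟩ := ComputablePred.computable_iff.1 k
  have h0 : Primrec fun n : ℕ => (u ++ List.replicate n a ++ v).map (s : Y → LL S N) := by
    have : Primrec fun n : ℕ => u.map (s : Y → LL S N) ++ ((List.range n).map fun _ => s a) ++
      v.map s := by fun_prop
    exact this.of_eq fun n => by simp
  have h3 : Primrec fun n : ℕ => (([q ε, s f1, s f2, p0], hh :: ((u ++ List.replicate n a ++ v).map s
      ++ [pp ε, q0])) : List (LL S N) × List (LL S N)) := by fun_prop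
  have h4 : Primrec fun n : ℕ => (u ++ List.replicate n a ++ v).map (s : Y → LL S N) ==
      [f1, f2].map s := by fun_prop
  refine ComputablePred.computable_iff.2 ⟨_, Primrec.or.to_comp.comp h4.to_comp (k1.comp h3.to_comp),
    funext fun n => propext ?_⟩
  rw [reach_iff (fun p hp => (h1 p hp).2.2.1) _ _ (h2 n), main (N := N) fun p hp => by
    have := hN ⟨p, hp, rfl⟩; simp at this; omega, Bool.or_eq_true, beq_iff_eq,
    (List.map_injective_iff.2 fun _ _ => s.inj).eq_iff, ← congrFun k2]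

end Pool.Agent.H24.PConj
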