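import Mathlib

set_option autoImplicit false

namespace Pool.Agent.H24.PGram

open Relation Sum

/-- A programmed grammar without appearance checking over the terminal alphabet `T`: one rule
`lhs r → rhs r` with success field `σ r` for each label `r`. -/
structure PG (T : Type) where
  N : Type
  Ψ : Type
  finN : Finite N
  finΨ : Finite Ψ
  lhs : Ψ → N
  rhs : Ψ → List (N ⊕ T)
  σ : Ψ → Set Ψ
  S : N

variable {T : Type} (G : PG T)

def PG.Step (x y : List (G.N ⊕ T) × G.Ψ) : Prop :=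
  ∃ u v, x.1 = u ++ inl (G.lhs x.2) :: v ∧ y.1 = u ++ G.rhs x.2 ++ v ∧ y.2 ∈ G.σ x.2

def PG.lang : Set (List T) :=
  {w | ∃ p q, ReflTransGen G.Step ([inl G.S], p) (w.map inr, q)}

def PG.Propagating : Prop := ∀ r, G.rhs r ≠ []

/-- at most one rule has two or more labels in its success field -/
def PG.OneND : Prop := ∀ r r', (G.σ r).Nontrivial → (G.σ r').Nontrivial → r = r'

def Rc (x : List (G.N ⊕ T) × G.Ψ) : Prop := ∃ p, ReflTransGen G.Step ([inl G.S], p) x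

inductive NN (N Ψ T : Type)
  | S | A | old (B : N) | st (q : Ψ) (X Y : N ⊕ T)

inductive LL (N Ψ T : Type)
  | r | dead | i1 (a : T) | i2 (p q : Ψ) | cR (p q : Ψ) (X Y : N ⊕ T) | app (p : Ψ)
  | cY (p q : Ψ) (X : N ⊕ T) | cX (p q : Ψ) (Y : N ⊕ T) | fin (q : Ψ) (a b : T) | fa (a : T)

open NN LL

abbrev em : G.N ⊕ T → NN G.N G.Ψ T ⊕ T := Sum.map old id

def pk (q : G.Ψ) : List (G.N ⊕ T) → List (NN G.N G.Ψ T ⊕ T)
  | X :: Y :: β => inl (st q X Y) :: β.map (em G)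
  | _ => [inl A]

def lh : LL G.N G.Ψ T → NN G.N G.Ψ T
  | r | dead | fa _ => A
  | i1 _ | i2 _ _ => S
  | cR p _ X Y => st p X Y
  | app p => old (G.lhs p)
  | cY p _ X => st p X (inl (G.lhs p))
  | cX p _ Y => st p (inl (G.lhs p)) Y
  | fin q a b => st q (inr a) (inr b)

def rh : LL G.N G.Ψ T → List (NN G.N G.Ψ T ⊕ T)
  | r | dead => [inl A]
  | fa a | i1 a => [inr a]
  | i2 p q => inl A :: pk G q (G.rhs p)
  | cR _ q X Y => [inl (st q X Y)]
  | app p => (G.rhs p).map (em G)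
  | cY p q X => pk G q (X :: G.rhs p)
  | cX p q Y => pk G q (G.rhs p ++ [Y])
  | fin _ _ b => [inr b]

def sg : LL G.N G.Ψ T → Set (LL G.N G.Ψ T)
  | r => {l | (∀ p, l ≠ app p) ∧ ∀ a, l ≠ fa a}
  | dead => ∅
  | fa _ => {dead}
  | i1 a => {l | l = dead ∧ [a] ∈ G.lang}
  | i2 p q => {l | l = r ∧ q ∈ G.σ p ∧ Rc G ([inl (G.lhs p)], p) ∧ 2 ≤ (G.rhs p).length}
  | cR p q _ _ => {l | l = app p ∧ q ∈ G.σ p}
  | app _ => {r}
  | cY p q _ | cX p q _ => {l | l = r ∧ q ∈ G.σ p}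
  | fin _ a _ => {fa a}

@[reducible] def G' [Finite T] : PG T where
  N := NN G.N G.Ψ T
  Ψ := LL G.N G.Ψ T
  finN := by
    haveI := G.finN
    haveI := G.finΨ
    exact Finite.of_surjective (fun x : Bool ⊕ G.N ⊕ G.Ψ × (G.N ⊕ T) × (G.N ⊕ T) => match x with
      | inl b => cond b S A | inr (inl B) => old B | inr (inr x) => st x.1 x.2.1 x.2.2) (by
      rintro (_ | _ | B | ⟨q, X, Y⟩)
      exacts [⟨inl true, rfl⟩, ⟨inl false, rfl⟩, ⟨inr (inl B), rfl⟩, ⟨inr (inr (q, X, Y)), rfl⟩])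
  finΨ := by
    haveI := G.finN
    haveI := G.finΨ
    exact Finite.of_injective (fun l : LL G.N G.Ψ T => (match l with
      | r => (0, none, none, none, none) | dead => (1, none, none, none, none)
      | i1 a => (2, none, none, some (inr a), none) | i2 p q => (3, some p, some q, none, none)
      | cR p q X Y => (4, some p, some q, some X, some Y) | app p => (5, some p, none, none, none)
      | cY p q X => (6, some p, some q, some X, none) | cX p q X => (7, some p, some q, some X, none)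
      | fin q a b => (8, some q, none, some (inr a), some (inr b))
      | fa a => (9, none, none, some (inr a), none) :
      Fin 10 × Option G.Ψ × Option G.Ψ × Option (G.N ⊕ T) × Option (G.N ⊕ T)))
      fun a b h => by cases a <;> cases b <;> simp_all
  lhs := lh G
  rhs := rh G
  σ := sg G
  S := S

def Inv (x : List (NN G.N G.Ψ T ⊕ T) × LL G.N G.Ψ T) : Prop :=
  x.1 = [inl S] ∨ (x.2 = dead ∧ ∀ w : List T, x.1 = w.map inr → w ∈ G.lang) ∨
  (∃ q X Y α, x.1 = inl A :: inl (st q X Y) :: List.map (em G) α ∧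
    ((Rc G (X :: Y :: α, q) ∧ (∀ p, x.2 ≠ app p) ∧ ∀ a, x.2 ≠ fa a) ∨
      ∃ p, x.2 = app p ∧ q ∈ G.σ p ∧ Rc G (X :: Y :: α, p))) ∨
  ∃ q a b α, x = (inl A :: inr b :: List.map (em G) α, fa a) ∧ Rc G (inr a :: inr b :: α, q)

theorem Rc.step {G : PG T} {u v : List (G.N ⊕ T)} {p q : G.Ψ} (h : Rc G (u ++ inl (G.lhs p) :: v, p))
    (k : q ∈ G.σ p) : Rc G (u ++ G.rhs p ++ v, q) :=
  h.imp fun _ h => h.tail ⟨u, v, rfl, rfl, k⟩

theorem nm {α : List (G.N ⊕ T)} {u v x} (h : List.map (em G) α = u ++ inl x :: v) :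
    ∃ B, x = old B := by
  obtain ⟨y, -, e⟩ := List.mem_map.1 (h ▸ by simp : inl x ∈ List.map (em G) α)
  cases y <;> simp at e
  exact ⟨_, e.symm⟩

theorem pk_eq (q : G.Ψ) {l : List (G.N ⊕ T)} (h : 2 ≤ l.length) (α : List (G.N ⊕ T)) :
    ∃ X Y β, l ++ α = X :: Y :: β ∧
      pk G q l ++ α.map (em G) = inl (st q X Y) :: β.map (em G) := by
  rcases l with _ | ⟨X, _ | ⟨Y, β⟩⟩ <;> simp at h
  exact ⟨X, Y, β ++ α, rfl, by simp [pk]⟩

variable [Finite T] (hG : G.Propagating)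
include hG

omit [Finite T] in
theorem inv_step {u v l l'} (h : Inv G (u ++ inl (lh G l) :: v, l)) (k : l' ∈ sg G l) :
    Inv G (u ++ rh G l ++ v, l') := by
  have hp : ∀ p, 1 ≤ (G.rhs p).length := fun p => List.length_pos_iff.2 (hG p)
  rcases h with h | ⟨rfl, -⟩ | ⟨q, X, Y, α, h, h'⟩ | ⟨q, a, b, α, h, h'⟩
  · rcases u with _ | ⟨_, _ | _⟩ <;> simp at h
    obtain ⟨h, rfl⟩ := h
    cases l <;> simp [lh] at h
    · obtain ⟨rfl, k⟩ := k
      refine Or.inr (Or.inl ⟨rfl, fun w e => ?_⟩)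
      rwa [← List.map_injective_iff.2 inr_injective (show List.map inr [_] = _ from e)]
    · obtain ⟨rfl, k1, k2, k3⟩ := k
      obtain ⟨X, Y, β, e1, e2⟩ := pk_eq G _ k3 []
      exact Or.inr (Or.inr (Or.inl ⟨_, X, Y, β, congrArg _ e2, Or.inl
        ⟨e1 ▸ Rc.step (u := []) k2 k1, by simp⟩⟩))
  · exact k.elim
  · rcases u with _ | ⟨_, _ | ⟨_, u⟩⟩ <;> simp only [List.cons_append, List.nil_append,
      List.cons.injEq, inl.injEq] at h
    · obtain ⟨h, rfl⟩ := h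
      cases l <;> simp [lh] at h h'
      · exact Or.inr (Or.inr (Or.inl ⟨q, X, Y, α, rfl, Or.inl ⟨h', k⟩⟩))
      · exact k.elim
    · obtain ⟨rfl, h, rfl⟩ := h
      cases l <;> simp [lh] at h h'
      · obtain ⟨rfl, rfl, rfl⟩ := h
        exact Or.inr (Or.inr (Or.inl ⟨_, _, _, α, rfl, Or.inr ⟨_, k.1, k.2, h'⟩⟩))
      · obtain ⟨rfl, rfl, rfl⟩ := h
        obtain ⟨rfl, k⟩ := k
        rename_i p1 q1 X1
        obtain ⟨X, Y, β, e1, e2⟩ := pk_eq G q1 (l := X1 :: G.rhs p1) (by simpa using hp p1) α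
        exact Or.inr (Or.inr (Or.inl ⟨_, X, Y, β, congrArg _ e2, Or.inl
          ⟨e1 ▸ Rc.step (u := [_]) h' k, by simp⟩⟩))
      · obtain ⟨rfl, rfl, rfl⟩ := h
        obtain ⟨rfl, k⟩ := k
        rename_i p1 q1 Y1
        obtain ⟨X, Y, β, e1, e2⟩ := pk_eq G q1 (l := G.rhs p1 ++ [Y1]) (by simpa using hp p1) α
        exact Or.inr (Or.inr (Or.inl ⟨_, X, Y, β, congrArg _ e2, Or.inl
          ⟨e1 ▸ by simpa using Rc.step (u := []) h' k, by simp⟩⟩))
      · obtain ⟨rfl, rfl, rfl⟩ := h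
        obtain rfl : l' = _ := k
        exact Or.inr (Or.inr (Or.inr ⟨_, _, _, α, rfl, h'⟩))
    · obtain ⟨rfl, rfl, h⟩ := h
      obtain ⟨B, e⟩ := nm G h.symm
      cases l <;> simp [lh] at e h'
      obtain rfl : l' = _ := k
      obtain ⟨u, _, rfl, rfl, e⟩ := List.map_eq_append_iff.1 h.symm
      obtain ⟨z, v, rfl, e, rfl⟩ := List.map_eq_cons_iff.1 e
      obtain rfl : z = inl (G.lhs _) := by cases z <;> simpa [lh] using e
      exact Or.inr (Or.inr (Or.inl ⟨q, X, Y, _, by simp [rh], Or.inl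
        ⟨Rc.step (u := X :: Y :: u) h'.2 h'.1, by simp⟩⟩))
  · obtain ⟨h, rfl⟩ := Prod.mk.inj h
    obtain rfl : l' = _ := k
    rcases u with _ | ⟨_, _ | ⟨_, u⟩⟩ <;> simp only [List.cons_append, List.nil_append,
      List.cons.injEq, inl.injEq, reduceCtorEq, false_and, and_false] at h
    · obtain ⟨-, rfl⟩ := h
      refine Or.inr (Or.inl ⟨rfl, fun w e => ?_⟩)
      obtain ⟨p, h⟩ := h'
      refine ⟨p, q, ?_⟩
      rwa [show w.map inr = inr a :: inr b :: α from List.map_injective_iff.2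
        (Sum.map_injective.2 ⟨fun _ _ => old.inj, Function.injective_id⟩ :
          Function.Injective (em G)) (by simpa [Function.comp_def, rh] using e.symm)]
    · obtain ⟨B, e⟩ := nm G h.2.2.symm
      cases e

theorem sim {x} (h : Rc G x) : (∃ z, x.1 = [z]) ∨ ∃ X Y α, x.1 = X :: Y :: α ∧
    Rc (G' G) (inl A :: inl (st x.2 X Y) :: α.map (em G), r) := by
  obtain ⟨p0, h⟩ := h
  have hp : ∀ p, 1 ≤ (G.rhs p).length := fun p => List.length_pos_iff.2 (hG p)
  induction h with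
  | refl => exact Or.inl ⟨_, rfl⟩
  | @tail x y h0 k ih =>
    obtain ⟨_, p⟩ := x
    obtain ⟨_, q⟩ := y
    obtain ⟨u, v, e1, e2, k⟩ := k
    dsimp only at e1 e2 k ih ⊢
    subst e1 e2
    rcases ih with ⟨z, e⟩ | ⟨X, Y, α, e, ih⟩
    · rcases u with _ | ⟨_, _ | _⟩ <;> simp at e
      obtain ⟨-, rfl⟩ := e
      by_cases c : 2 ≤ (G.rhs p).length
      · obtain ⟨X, Y, β, e1, e2⟩ := pk_eq G q c []
        exact Or.inr ⟨X, Y, β, e1, i2 p q, .single ⟨[], [], rfl, (congrArg _ e2).symm, rfl, k,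
          ⟨p0, h0⟩, c⟩⟩
      · exact Or.inl (List.length_eq_one_iff.1 (by have := hp p; simp; omega))
    right
    have s := fun l (a : l ∈ sg G r) => Rc.step (G := G' G) (u := []) (p := r) ih a
    rcases u with _ | ⟨X0, _ | ⟨Y0, u⟩⟩ <;> simp only [List.cons_append, List.nil_append,
      List.cons.injEq] at e
    · obtain ⟨rfl, rfl⟩ := e
      obtain ⟨X, Y', β, e1, e2⟩ := pk_eq G q (l := G.rhs p ++ [Y]) (by simpa using hp _) α
      exact ⟨X, Y', β, by simpa using e1, e2 ▸ Rc.step (G := G' G) (u := [inl A]) (p := cX p q Y)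
        (s _ ⟨by simp, by simp⟩) ⟨rfl, k⟩⟩
    · obtain ⟨rfl, rfl, rfl⟩ := e
      obtain ⟨X, Y', β, e1, e2⟩ := pk_eq G q (l := X0 :: G.rhs p) (by simpa using hp _) v
      exact ⟨X, Y', β, e1, e2 ▸ Rc.step (G := G' G) (u := [inl A]) (p := cY p q X0)
        (s (cY p q X0) ⟨by simp, by simp⟩) ⟨rfl, k⟩⟩
    · obtain ⟨rfl, rfl, rfl⟩ := e
      have a := Rc.step (G := G' G) (u := [inl A]) (p := cR p q _ _) (q := app p)
        (s _ ⟨by simp, by simp⟩) ⟨rfl, k⟩
      refine ⟨_, _, u ++ G.rhs p ++ v, rfl, ?_⟩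
      rw [List.map_append, List.map_append]
      exact Rc.step (G := G' G) (u := inl A :: inl (st q _ _) :: u.map (em G)) (p := app p)
        (by rw [List.map_append] at a; exact a) rfl

theorem final : ∃ H : PG T, H.Propagating ∧ H.OneND ∧ H.lang = G.lang := by
  refine ⟨G' G, fun l => ?_, fun l l' a b => ?_, Set.ext fun w => ⟨fun ⟨p, q, h⟩ => ?_, fun h => ?_⟩⟩
  · have : ∀ q l, pk G q l ≠ [] := fun q l => by unfold pk; split <;> simp
    cases l <;> simp [G', rh, this, hG _]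
  · have : ∀ l, (sg G l).Nontrivial → l = r := fun l ⟨a, h1, b, h2, h⟩ => by
      cases l <;> simp_all [sg]
    rw [this l a, this l' b]
  · have : ∀ y, ReflTransGen (G' G).Step ([inl S], p) y → Inv G y := fun y h => by
      induction h with
      | refl => exact Or.inl rfl
      | @tail x y _ k ih =>
        obtain ⟨u, v, a, b, k⟩ := k
        exact (show y = (_, y.2) from Prod.ext b rfl) ▸ inv_step G hG
          ((show x = (_, x.2) from Prod.ext a rfl) ▸ ih) k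
    rcases this _ h with h | ⟨-, h⟩ | ⟨_, _, _, _, h, -⟩ | ⟨_, _, _, _, h, -⟩
    · cases w <;> cases h
    · exact h w rfl
    · cases w <;> cases h
    · cases w <;> cases h
  · obtain ⟨p, q, k⟩ := id h
    rcases sim G hG ⟨p, k⟩ with ⟨z, e⟩ | ⟨X, Y, α, e, k⟩
    · rcases w with _ | ⟨a, _ | _⟩ <;> simp at e
      exact ⟨i1 a, dead, .single ⟨[], [], rfl, rfl, rfl, h⟩⟩
    · rcases w with _ | ⟨a, _ | ⟨b, w⟩⟩ <;> simp at e
      obtain ⟨rfl, rfl, rfl⟩ := e
      obtain ⟨p, k⟩ := Rc.step (G := G' G) (u := []) (p := fa a) (q := dead) (Rc.step (G := G' G)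
        (u := [inl A]) (p := fin q a b) (Rc.step (G := G' G) (u := []) (p := r) k ⟨by simp, by simp⟩)
        rfl) rfl
      rw [List.map_map] at k
      exact ⟨p, dead, k⟩

end Pool.Agent.H24.PGram
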