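import Mathlib

set_option autoImplicit false

namespace Pool.Agent.H24.PPCon

def IsPol {V ι : Type} (adj : V → V → Prop) (f : (ι → V) → V) : Prop :=
  ∀ x y : ι → V, (∀ i, adj (x i) (y i)) → adj (f x) (f y)

def IsTS {V ι : Type} (f : (ι → V) → V) : Prop :=
  ∀ x y : ι → V, Set.range x = Set.range y → f x = f y

def C (kB : ℕ) (B : Digraph (Fin kB)) (kA : ℕ) (A : Digraph (Fin kA)) : Prop :=
  ∃ (n m : ℕ)
    (Es Qs : Set (((Fin 2 × Fin n) ⊕ Fin m) × ((Fin 2 × Fin n) ⊕ Fin m)))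
    (E : (Fin n → Fin kB) → (Fin n → Fin kB) → Prop),
    0 < n ∧
    (∀ x y : Fin n → Fin kB, E x y ↔ ∃ s : Fin m → Fin kB,
        (∀ p ∈ Es,
          B.Adj (Sum.elim (fun q : Fin 2 × Fin n => (![x, y] q.1) q.2) s p.1)
                (Sum.elim (fun q : Fin 2 × Fin n => (![x, y] q.1) q.2) s p.2)) ∧
        (∀ p ∈ Qs,
          Sum.elim (fun q : Fin 2 × Fin n => (![x, y] q.1) q.2) s p.1 =
            Sum.elim (fun q : Fin 2 × Fin n => (![x, y] q.1) q.2) s p.2)) ∧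
    (∃ f : Fin kA → (Fin n → Fin kB), ∀ a b : Fin kA, A.Adj a b → E (f a) (f b)) ∧
    (∃ g : (Fin n → Fin kB) → Fin kA,
        ∀ x y : Fin n → Fin kB, E x y → A.Adj (g x) (g y))

theorem range_comp_eq {α β ι : Type} (h : α → β) {x y : ι → α} (hxy : Set.range x = Set.range y) :
    Set.range (fun j => h (x j)) = Set.range (fun j => h (y j)) := by
  have h1 := Set.range_comp h x
  have h2 := Set.range_comp h y
  rw [hxy, ← h2] at h1
  exact h1

theorem ts_of_C {kB kA : ℕ} {B : Digraph (Fin kB)} {A : Digraph (Fin kA)} (h : C kB B kA A)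
    {ι : Type} (t : (ι → Fin kB) → Fin kB) (h1 : IsPol B.Adj t) (h2 : IsTS t) :
    ∃ t' : (ι → Fin kA) → Fin kA, IsPol A.Adj t' ∧ IsTS t' := by
  obtain ⟨n, m, Es, Qs, E, -, hE, ⟨f, hf⟩, ⟨g, hg⟩⟩ := h
  refine ⟨fun a => g fun i => t fun j => f (a j) i, fun a b hab => hg _ _ ?_, fun a b hab => ?_⟩
  · choose s hs1 hs2 using fun j => (hE _ _).1 (hf _ _ (hab j))
    have key : ∀ z, Sum.elim (fun q : Fin 2 × Fin n =>
        (![fun i => t fun j => f (a j) i, fun i => t fun j => f (b j) i] q.1) q.2)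
        (fun c => t fun j => s j c) z =
        t fun j => Sum.elim (fun q : Fin 2 × Fin n => (![f (a j), f (b j)] q.1) q.2) (s j) z := by
      rintro (⟨q, i⟩ | c)
      · fin_cases q <;> rfl
      · rfl
    refine (hE _ _).2 ⟨fun c => t fun j => s j c, fun p hp => ?_, fun p hp => ?_⟩
    · rw [key, key]
      exact h1 _ _ fun j => hs1 j p hp
    · rw [key, key]
      exact congrArg t (funext fun j => hs2 j p hp)
  · refine congrArg g (funext fun i => h2 _ _ ?_)
    exact range_comp_eq (fun v => f v i) hab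

theorem C_of_hom {kB kA : ℕ} (hB : 0 < kB) (B : Digraph (Fin kB)) (A : Digraph (Fin kA))
    (g : ((Fin kA → Fin kB) → Fin kB) → Fin kA)
    (hg : ∀ h : ({e : Fin kA × Fin kA // A.Adj e.1 e.2} → Fin kB) → Fin kB, IsPol B.Adj h →
      A.Adj (g fun x => h fun e => x e.1.1) (g fun x => h fun e => x e.1.2)) :
    C kB B kA A := by
  classical
  let Ed := {e : Fin kA × Fin kA // A.Adj e.1 e.2}
  let eN := Fintype.equivFin (Fin kA → Fin kB)
  let eM := Fintype.equivFin (Ed → Fin kB)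
  have : Nonempty (Fin kB) := ⟨⟨0, hB⟩⟩
  refine ⟨_, _, {p | ∃ u v : Ed → Fin kB, (∀ e, B.Adj (u e) (v e)) ∧
      p = (Sum.inr (eM u), Sum.inr (eM v))},
    {p | ∃ x : Fin kA → Fin kB, p = (Sum.inl (0, eN x), Sum.inr (eM fun e => x e.1.1)) ∨
      p = (Sum.inl (1, eN x), Sum.inr (eM fun e => x e.1.2))},
    _, Fintype.card_pos, fun x y => Iff.rfl, ⟨fun a j => eN.symm j a, ?_⟩,
    ⟨fun x => g (x ∘ eN), ?_⟩⟩
  · intro a b hab
    refine ⟨fun c => eM.symm c ⟨(a, b), hab⟩, ?_, ?_⟩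
    · rintro _ ⟨u, v, huv, rfl⟩
      simpa using huv _
    · rintro _ ⟨x, rfl | rfl⟩ <;> simp
  · rintro x y ⟨s, h1, h2⟩
    have h3 := hg (s ∘ eM) fun u v huv => h1 _ ⟨u, v, huv, rfl⟩
    have h4 : x ∘ eN = fun z => (s ∘ eM) fun e => z e.1.1 :=
      funext fun z => h2 _ ⟨z, Or.inl rfl⟩
    have h5 : y ∘ eN = fun z => (s ∘ eM) fun e => z e.1.2 :=
      funext fun z => h2 _ ⟨z, Or.inr rfl⟩
    simp only [h4, h5]
    exact h3

noncomputable def toFin {V : Type} [Fintype V] (adj : V → V → Prop) :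
    Digraph (Fin (Fintype.card V)) :=
  ⟨fun a b => adj ((Fintype.equivFin V).symm a) ((Fintype.equivFin V).symm b)⟩

theorem C_toFin {V W : Type} [Fintype V] [Fintype W] [Nonempty V] (B : V → V → Prop)
    (A : W → W → Prop) (ξ : ∀ ι : Type, ((ι → V) → V) → (ι → W) → W)
    (h1 : ∀ (ι : Type) [Finite ι] (f : (ι → V) → V), IsPol B f → IsPol A (ξ ι f))
    (h2 : ∀ (ι ι' : Type) [Finite ι] (π : ι → ι') (f : (ι → V) → V), IsPol B f → ∀ y,
      ξ ι' (fun x => f fun i => x (π i)) y = ξ ι f fun i => y (π i)) :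
    C _ (toFin B) _ (toFin A) := by
  let eV := Fintype.equivFin V
  let eW := Fintype.equivFin W
  refine C_of_hom Fintype.card_pos _ _
    (fun f => eW (ξ _ (fun x => eV.symm (f fun i => eV (x i))) eW.symm)) fun h hh => ?_
  have h3 : IsPol B (fun x => eV.symm (h fun i => eV (x i))) := fun x y hxy =>
    hh _ _ fun i => by simpa [toFin, eV] using hxy i
  have h4 := h1 _ _ h3 (fun e => eW.symm e.1.1) (fun e => eW.symm e.1.2) fun e => e.2
  rw [← h2 _ _ (fun e => e.1.1) _ h3, ← h2 _ _ (fun e => e.1.2) _ h3] at h4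
  simpa [toFin, eW] using h4

theorem ts_toFin {V W : Type} [Fintype V] [Fintype W] (B : V → V → Prop)
    (A : W → W → Prop) (h : C _ (toFin B) _ (toFin A)) {ι : Type} (t : (ι → V) → V)
    (h1 : IsPol B t) (h2 : IsTS t) : ∃ t' : (ι → W) → W, IsPol A t' ∧ IsTS t' := by
  let eV := Fintype.equivFin V
  let eW := Fintype.equivFin W
  obtain ⟨t', h3, h4⟩ := ts_of_C h (fun x => eV (t fun i => eV.symm (x i)))
    (fun x y hxy => by simpa [toFin, eV] using h1 _ _ hxy)
    (fun x y hxy => congrArg eV (h2 _ _ (range_comp_eq _ hxy)))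
  exact ⟨fun x => eW.symm (t' fun i => eW (x i)),
    fun x y hxy => h3 _ _ fun i => by simpa [toFin, eW] using hxy i,
    fun x y hxy => congrArg eW.symm (h4 _ _ (range_comp_eq _ hxy))⟩

end Pool.Agent.H24.PPCon
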