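import Mathlib
import Pool.Agent.H24.PPCon

set_option autoImplicit false

namespace Pool.Agent.H24.PPDig
open Pool.Agent.H24.PPCon

variable {A : Type} {k : ℕ} (R : Set (Fin k → A))

@[ext] structure V where
  a : A
  r : R
  l : Fin (k + 3)
  s : Fin 4

instance [Finite A] : Finite (V R) :=
  Finite.of_injective (fun v : V R => (v.a, v.r, v.l, v.s)) fun v w h => by
    simp only [Prod.mk.injEq] at h
    exact V.ext h.1 h.2.1 h.2.2.1 h.2.2.2

variable {R}

def M (v : V R) : Prop := ∀ j : Fin k, v.l.val = j.val + 1 → v.a = v.r.1 j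

def M' (v : V R) : Prop := ∀ j : Fin k, v.l.val = j.val + 2 → v.a = v.r.1 j

def Adj (v w : V R) : Prop :=
  w.l.val = v.l.val + 1 ∧ ((v.s = 3 ∧ w.s = 3 ∧ w.l.val ≤ k + 1) ∨
    ((w.l.val ≤ k + 1 → w.a = v.a) ∧ (1 ≤ v.l.val → w.r = v.r) ∧
      ((v.s = 0 ∧ w.s = 1) ∨ (v.s = 2 ∧ w.s = 1) ∨ (v.s = 2 ∧ w.s = 0) ∨
        (v.s = 0 ∧ w.s = 0 ∧ M v))))

def Pres (R : Set (Fin k → A)) {ι : Type} (f : (ι → A) → A) : Prop :=
  ∀ r : ι → Fin k → A, (∀ i, r i ∈ R) → (fun j => f fun i => r i j) ∈ R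

def Main (X : Set (V R)) : Prop := (∀ v ∈ X, v.s ≠ 3) ∧ ∀ v ∈ X, ∀ w ∈ X, v.l = w.l

open Classical in
noncomputable def sig (X : Set (V R)) : Fin 4 :=
  if Main X then
    if (∃ v ∈ X, ¬ M v) ∧ ∀ v ∈ X, ¬ M v → v.s = 2 then 2
    else if ∃ v ∈ X, ¬ M' v ∧ v.s = 1 then 1 else 0
  else 3

noncomputable def lev (X : Set (V R)) : Fin (k + 3) :=
  ⟨sInf ((fun v : V R => v.l.val) '' X), by
    rcases X.eq_empty_or_nonempty with rfl | ⟨v, hv⟩
    · simp
    · exact lt_of_le_of_lt (Nat.sInf_le ⟨v, hv, rfl⟩) v.l.2⟩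

open Classical in
noncomputable def pick (r0 : R) (r : Fin k → A) : R := if h : r ∈ R then ⟨r, h⟩ else r0

noncomputable def ext (r0 : R) {ι : Type} (f : (ι → A) → A) (S : Set ι) (x : ι → V R) : V R :=
  ⟨f fun i => (x i).a, pick r0 fun j => f fun i => (x i).r.1 j, lev (x '' S), sig (x '' S)⟩

theorem lev_spec {ι : Type} {S : Set ι} (hS : S.Nonempty) (x : ι → V R) :
    (∃ i ∈ S, (lev (x '' S)).val = (x i).l.val) ∧ ∀ i ∈ S, (lev (x '' S)).val ≤ (x i).l.val := by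
  refine ⟨?_, fun i hi => Nat.sInf_le ⟨_, ⟨i, hi, rfl⟩, rfl⟩⟩
  obtain ⟨_, ⟨i, hi, rfl⟩, h⟩ := Nat.sInf_mem ((hS.image x).image fun v : V R => v.l.val)
  exact ⟨i, hi, h.symm⟩

theorem ext_pol (r0 : R) {ι : Type} (f : (ι → A) → A) (S : Set ι) (hS : S.Nonempty)
    (hf : Pres R f) (hd : ∀ x y, (∀ i ∈ S, x i = y i) → f x = f y) :
    IsPol Adj (ext r0 f S) := by
  intro x y hxy
  obtain ⟨⟨i0, hi0, hx0⟩, hx1⟩ := lev_spec hS x
  obtain ⟨⟨j0, hj0, hy0⟩, hy1⟩ := lev_spec hS y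
  have hl : ∀ i, (y i).l.val = (x i).l.val + 1 := fun i => (hxy i).1
  have hlev : (lev (y '' S)).val = (lev (x '' S)).val + 1 := by
    have := hx1 j0 hj0; have := hy1 i0 hi0; have := hl i0; have := hl j0; omega
  have hs3 : ∀ i, (x i).s = 3 ↔ (y i).s = 3 := by
    intro i
    rcases (hxy i).2 with h | ⟨-, -, h | h | h | h⟩ <;> simp [h.1, h.2]
  have hM : Main (x '' S) ↔ Main (y '' S) := by
    simp only [Main, Set.forall_mem_image, ne_eq, hs3]
    simp only [Fin.ext_iff (n := k + 3), hl, add_left_inj]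
  have hr : ∀ z : ι → V R, (ext r0 f S z).r.1 = fun j => f fun i => (z i).r.1 j := by
    intro z
    simp only [ext, pick]
    rw [dif_pos (hf _ fun i => (z i).r.2)]
  refine ⟨hlev, ?_⟩
  by_cases hm : Main (x '' S)
  · right
    have hm' := hM.1 hm
    have hx2 : ∀ i ∈ S, (x i).l.val = (lev (x '' S)).val := fun i hi => by
      rw [hx0, hm.2 _ ⟨i, hi, rfl⟩ _ ⟨i0, hi0, rfl⟩]
    have hadj : ∀ i ∈ S, (((y i).l.val ≤ k + 1 → (y i).a = (x i).a) ∧
        (1 ≤ (x i).l.val → (y i).r = (x i).r) ∧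
        (((x i).s = 0 ∧ (y i).s = 1) ∨ ((x i).s = 2 ∧ (y i).s = 1) ∨ ((x i).s = 2 ∧ (y i).s = 0) ∨
        ((x i).s = 0 ∧ (y i).s = 0 ∧ M (x i)))) := fun i hi =>
      (hxy i).2.resolve_left fun h => hm.1 _ ⟨i, hi, rfl⟩ h.1
    refine ⟨fun h => hd _ _ fun i hi => (hadj i hi).1 ?_, fun h => Subtype.ext ?_, ?_⟩
    · have h1 : (lev (y '' S)).val ≤ k + 1 := h
      have := hx2 i hi; have := hl i; omega
    · rw [hr, hr]
      funext j
      refine hd _ _ fun i hi => ?_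
      have h1 : 1 ≤ (lev (x '' S)).val := h
      rw [(hadj i hi).2.1 (by have := hx2 i hi; omega)]
    · have e1 : ¬ ∃ v ∈ x '' S, ¬ M' v ∧ v.s = 1 := by
        rintro ⟨_, ⟨i, hi, rfl⟩, -, h⟩
        rcases (hadj i hi).2.2 with h1 | h1 | h1 | h1 <;> simp [h] at h1
      have e2 : ¬ ((∃ v ∈ y '' S, ¬ M v) ∧ ∀ v ∈ y '' S, ¬ M v → v.s = 2) := by
        rintro ⟨⟨_, ⟨i, hi, rfl⟩, h⟩, h2⟩
        have h3 := h2 _ ⟨i, hi, rfl⟩ h
        rcases (hadj i hi).2.2 with h1 | h1 | h1 | h1 <;> simp [h3] at h1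
      have hsx : (ext r0 f S x).s = sig (x '' S) := rfl
      have hsy : (ext r0 f S y).s = sig (y '' S) := rfl
      rw [hsx, hsy, sig, sig, if_pos hm, if_pos hm', if_neg e1, if_neg e2]
      by_cases c2 : ∃ v ∈ y '' S, ¬ M' v ∧ v.s = 1
      · rw [if_pos c2]
        split_ifs <;> simp
      rw [if_neg c2]
      split_ifs with c1
      · simp
      · refine Or.inr (Or.inr (Or.inr ⟨rfl, rfl, fun j hj => ?_⟩))
        have hj' : (lev (x '' S)).val = j.val + 1 := hj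
        have hMM : ∀ i ∈ S, M' (y i) → M (x i) := by
          intro i hi h j' hj'
          have h1 := h j' (by have := hl i; omega)
          rw [(hadj i hi).1 (by have := hl i; have := j'.2; omega),
            (hadj i hi).2.1 (by omega)] at h1
          exact h1
        have hall : ∀ i ∈ S, M (x i) := by
          by_contra hn
          push Not at hn
          obtain ⟨i, hi, hn⟩ := hn
          refine c1 ⟨⟨_, ⟨i, hi, rfl⟩, hn⟩, ?_⟩
          rintro _ ⟨i', hi', rfl⟩ hn'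
          rcases (hadj i' hi').2.2 with h1 | h1 | h1 | h1
          · exact absurd ⟨_, ⟨i', hi', rfl⟩, fun h => hn' (hMM i' hi' h), h1.2⟩ c2
          · exact h1.1
          · exact h1.1
          · exact absurd h1.2.2 hn'
        have h2 := congrFun (hr x) j
        refine Eq.trans ?_ h2.symm
        exact hd _ _ fun i hi => hall i hi j (by rw [hx2 i hi, hj'])
  · left
    have hm' := mt hM.2 hm
    refine ⟨if_neg hm, if_neg hm', ?_⟩
    change (lev (y '' S)).val ≤ k + 1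
    by_contra hc
    refine hm' ⟨?_, ?_⟩
    · rintro _ ⟨i, hi, rfl⟩ h3
      have := hy1 i hi
      rcases (hxy i).2 with h | ⟨-, -, h | h | h | h⟩
      · omega
      all_goals simp [h3] at h
    · rintro _ ⟨i, hi, rfl⟩ _ ⟨j, hj, rfl⟩
      have := hy1 i hi; have := hy1 j hj; have := (y i).l.2; have := (y j).l.2
      exact Fin.ext (by omega)

theorem ext_nat (r0 : R) {ι ι' : Type} (π : ι → ι') (f : (ι → A) → A) (S : Set ι)
    (y : ι' → V R) :
    ext r0 (fun x => f fun i => x (π i)) (π '' S) y = ext r0 f S fun i => y (π i) := by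
  simp only [ext, Set.image_image]

theorem ext_ts (r0 : R) {ι : Type} (f : (ι → A) → A) (hf : IsTS f) :
    IsTS (ext r0 f Set.univ) := by
  intro x y hxy
  have h1 : (fun j => f fun i => (x i).r.1 j) = fun j => f fun i => (y i).r.1 j :=
    funext fun j => hf _ _ (range_comp_eq (fun v : V R => v.r.1 j) hxy)
  simp only [ext, Set.image_univ, hxy, h1, hf _ _ (range_comp_eq (fun v : V R => v.a) hxy)]

def res (r0 : R) {ι : Type} (F : (ι → V R) → V R) (a : ι → A) : A :=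
  (F fun i => ⟨a i, r0, 0, 0⟩).a

theorem res_ts (r0 : R) {ι : Type} (F : (ι → V R) → V R) (hF : IsTS F) : IsTS (res r0 F) :=
  fun _ _ hxy => congrArg V.a (hF _ _ (range_comp_eq (fun a => (⟨a, r0, 0, 0⟩ : V R)) hxy))

theorem res_pres (r0 : R) (a0 : A) {ι : Type} (F : (ι → V R) → V R) (hF : IsPol Adj F) :
    Pres R (res r0 F) := by
  intro r hr
  let top : V R := F fun i => ⟨a0, ⟨r i, hr i⟩, Fin.last (k + 2), 0⟩
  suffices h : (fun j => res r0 F fun i => r i j) = top.r.1 from h ▸ top.r.2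
  funext j
  let T : ℕ → Fin 4 → V R := fun l s => F fun i => ⟨r i j, ⟨r i, hr i⟩, Fin.ofNat _ l, s⟩
  let bot : V R := F fun i => ⟨r i j, r0, 0, 0⟩
  have hv : ∀ l, l ≤ k + 2 → (Fin.ofNat (k + 3) l).val = l := fun l hl =>
    Nat.mod_eq_of_lt (by omega)
  have e0 : Adj bot (T 1 0) := hF _ _ fun i =>
    ⟨hv 1 (by omega), Or.inr ⟨fun _ => rfl, fun h => by simp at h,
      Or.inr (Or.inr (Or.inr ⟨rfl, rfl, fun j' h => by simp at h⟩))⟩⟩
  have e1 : Adj (T (k + 1) 0) top := hF _ _ fun i =>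
    ⟨by simp only [hv (k + 1) (by omega), Fin.val_last], Or.inr ⟨fun h => by simp at h, fun _ => rfl,
      Or.inr (Or.inr (Or.inr ⟨rfl, rfl, fun j' h => by
        have := j'.2; simp only [hv (k + 1) (by omega)] at h; omega⟩))⟩⟩
  have e2 : ∀ l, l ≤ k + 1 → Adj (T l 0) (T (l + 1) 1) := fun l hl => hF _ _ fun i =>
    ⟨by simp only [hv l (by omega), hv (l + 1) (by omega)],
      Or.inr ⟨fun _ => rfl, fun _ => rfl, Or.inl ⟨rfl, rfl⟩⟩⟩
  have e3 : ∀ l, l ≤ k + 1 → Adj (T l 2) (T (l + 1) 1) := fun l hl => hF _ _ fun i =>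
    ⟨by simp only [hv l (by omega), hv (l + 1) (by omega)],
      Or.inr ⟨fun _ => rfl, fun _ => rfl, Or.inr (Or.inl ⟨rfl, rfl⟩)⟩⟩
  have e4 : ∀ l, l ≤ k + 1 → Adj (T l 2) (T (l + 1) 0) := fun l hl => hF _ _ fun i =>
    ⟨by simp only [hv l (by omega), hv (l + 1) (by omega)],
      Or.inr ⟨fun _ => rfl, fun _ => rfl, Or.inr (Or.inr (Or.inl ⟨rfl, rfl⟩))⟩⟩
  have e5 : Adj (T (j + 1) 0) (T (j + 1 + 1) 0) := hF _ _ fun i => by
    have := j.2
    refine ⟨by simp only [hv (j + 1) (by omega), hv (j + 1 + 1) (by omega)],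
      Or.inr ⟨fun _ => rfl, fun _ => rfl, Or.inr (Or.inr (Or.inr ⟨rfl, rfl, fun j' h => ?_⟩))⟩⟩
    simp only [hv (j + 1) (by omega), add_left_inj] at h
    rw [Fin.ext h]
  have l1 : ∀ l, l ≤ k → (T (l + 1) 0).l.val = bot.l.val + (l + 1) := by
    intro l
    induction l with
    | zero => exact fun _ => e0.1
    | succ l ih =>
      intro hl
      have := (e2 (l + 1) (by omega)).1; have := (e3 (l + 1) (by omega)).1
      have := (e4 (l + 1) (by omega)).1; have := ih (by omega)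
      omega
  have l2 : bot.l.val = 0 := by
    have := e1.1; have := l1 k le_rfl; have := top.l.2; omega
  have hs3 : ∀ v w : V R, Adj v w → (v.s = 3 ↔ w.s = 3) := by
    intro v w h
    rcases h.2 with h | ⟨-, -, h | h | h | h⟩ <;> simp [h.1, h.2]
  have s1 : ∀ l, l ≤ k → ((T (l + 1) 0).s = 3 ↔ bot.s = 3) := by
    intro l
    induction l with
    | zero => exact fun _ => (hs3 _ _ e0).symm
    | succ l ih =>
      intro hl
      rw [← hs3 _ _ (e4 (l + 1) (by omega)), hs3 _ _ (e3 (l + 1) (by omega)),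
        ← hs3 _ _ (e2 (l + 1) (by omega)), ih (by omega)]
  have s2 : bot.s ≠ 3 := by
    rw [Ne, ← s1 k le_rfl]
    intro h
    have := e1.1; have := l1 k le_rfl
    rcases e1.2 with h1 | ⟨-, -, h1 | h1 | h1 | h1⟩
    · omega
    all_goals simp [h] at h1
  have step : ∀ l, l + 1 ≤ k → (T (l + 1 + 1) 0).a = (T (l + 1) 0).a ∧
      (T (l + 1 + 1) 0).r = (T (l + 1) 0).r := by
    intro l hl
    have f2 := e2 (l + 1) (by omega)
    have f3 := e3 (l + 1) (by omega)
    have f4 := e4 (l + 1) (by omega)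
    have n1 : (T (l + 1) 0).s ≠ 3 := fun h => s2 ((s1 l (by omega)).1 h)
    have n2 : (T (l + 1) 2).s ≠ 3 := fun h => n1 ((hs3 _ _ f2).2 ((hs3 _ _ f3).1 h))
    have := l1 l (by omega); have := f2.1; have := f3.1; have := f4.1
    have g2 := f2.2.resolve_left fun h => n1 h.1
    have g3 := f3.2.resolve_left fun h => n2 h.1
    have g4 := f4.2.resolve_left fun h => n2 h.1
    exact ⟨by rw [g4.1 (by omega), ← g3.1 (by omega), g2.1 (by omega)],
      by rw [g4.2.1 (by omega), ← g3.2.1 (by omega), g2.2.1 (by omega)]⟩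
  have a1 : ∀ l, l ≤ k → (T (l + 1) 0).a = bot.a ∧ (T (l + 1) 0).r = (T 1 0).r := by
    intro l
    induction l with
    | zero =>
      intro _
      exact ⟨(e0.2.resolve_left fun h => s2 h.1).1 (by have := e0.1; omega), rfl⟩
    | succ l ih =>
      intro hl
      rw [(step l hl).1, (step l hl).2]
      exact ih (by omega)
  have hj := j.2
  have n1 : ∀ l, l ≤ k → (T (l + 1) 0).s ≠ 3 := fun l hl h => s2 ((s1 l hl).1 h)
  have r1 : top.r = (T 1 0).r := by
    rw [← (a1 k le_rfl).2]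
    exact (e1.2.resolve_left fun h => n1 k le_rfl h.1).2.1 (by have := l1 k le_rfl; omega)
  have u1 : (T (j + 1) 0).s ≠ 2 := by
    intro h
    have : ∃ v, Adj v (T (j + 1) 0) := ⟨_, e4 j (by omega)⟩
    obtain ⟨v, hv⟩ := this
    rcases hv.2 with h1 | ⟨-, -, h1 | h1 | h1 | h1⟩ <;> simp [h] at h1
  have u2 : (T (j + 1 + 1) 0).s ≠ 1 := by
    intro h
    rcases (e2 (j + 1 + 1) (by omega)).2 with h1 | ⟨-, -, h1 | h1 | h1 | h1⟩ <;> simp [h] at h1
  rcases (e5.2.resolve_left fun h => n1 j (by omega) h.1).2.2 with h | h | h | h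
  · exact absurd h.2 u2
  · exact absurd h.1 u1
  · exact absurd h.1 u1
  · have := h.2.2 j (by have := l1 j (by omega); omega)
    rw [(a1 j (by omega)).1, (a1 j (by omega)).2, ← r1] at this
    exact this

end Pool.Agent.H24.PPDig
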