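import Mathlib
import Pool.Agent.H24.PPDig

set_option autoImplicit false

namespace Pool.Agent.H24.PPChain
open Pool.Agent.H24.PPCon Pool.Agent.H24.PPDig

abbrev X := SignType

def Bo (b : X) : Prop := b = 0 ∨ b = 1
def Er (x y b : X) : Prop := Bo b ∧ (b = 0 → x = y)
def Gr (s t x : X) : Prop := Bo s ∧ Bo t ∧ (x = -1 → t = 1) ∧ (s = 1 → t = 0 → x = 1)
def Qr (x y : X) : Prop := (x = -1 → y = 1) ∧ (y = -1 → x = 1)
def Pr {m : ℕ} (x : Fin m → X) (t : X) : Prop :=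
  (∀ i j, i ≠ j → Qr (x i) (x j)) ∧ (∀ i, Gr 0 t (x i)) ∧ Bo t ∧ (t = 1 → ∃ i, x i = 1)

structure KP (m : ℕ) {ι : Type} (f : (ι → X) → X) : Prop where
  neg : ∀ x, f (fun i => - x i) = - f x
  one : f (fun _ => 1) = 1
  e : ∀ x y b, (∀ i, Er (x i) (y i) (b i)) → Er (f x) (f y) (f b)
  g : ∀ x y b, (∀ i, Gr (x i) (y i) (b i)) → Gr (f x) (f y) (f b)
  q : ∀ x y, (∀ i, Qr (x i) (y i)) → Qr (f x) (f y)
  p : ∀ (x : ι → Fin m → X) t, (∀ i, Pr (x i) (t i)) → Pr (fun j => f fun i => x i j) (f t)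

def Rel (m : ℕ) : Set (Fin (12 + m) → X) :=
  {r | r (Fin.castAdd m 0) = - r (Fin.castAdd m 1) ∧ r (Fin.castAdd m 2) = 1 ∧
    Er (r (Fin.castAdd m 3)) (r (Fin.castAdd m 4)) (r (Fin.castAdd m 5)) ∧
    Gr (r (Fin.castAdd m 6)) (r (Fin.castAdd m 7)) (r (Fin.castAdd m 8)) ∧
    Qr (r (Fin.castAdd m 9)) (r (Fin.castAdd m 10)) ∧
    Pr (fun j => r (Fin.natAdd 12 j)) (r (Fin.castAdd m 11))}

theorem mem_Rel {m : ℕ} (u : Fin 12 → X) (x : Fin m → X) : Fin.append u x ∈ Rel m ↔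
    u 0 = - u 1 ∧ u 2 = 1 ∧ Er (u 3) (u 4) (u 5) ∧ Gr (u 6) (u 7) (u 8) ∧ Qr (u 9) (u 10) ∧
      Pr x (u 11) := by
  simp only [Rel, Set.mem_ofPred_eq, Fin.append_left, Fin.append_right]

theorem pr0 (m : ℕ) : Pr (fun _ : Fin m => (0 : X)) 0 := by
  simp [Pr, Qr, Gr, Bo]

theorem e0 : Er 0 0 0 := by simp [Er, Bo]
theorem g0 : Gr 0 0 0 := by simp [Gr, Bo]
theorem q0 : Qr 0 0 := by simp [Qr]

def r0 (m : ℕ) : Rel m := ⟨Fin.append ![0, 0, 1, 0, 0, 0, 0, 0, 0, 0, 0, 0] fun _ => 0,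
  (mem_Rel _ _).2 ⟨rfl, rfl, e0, g0, q0, pr0 m⟩⟩

theorem KP_iff (m : ℕ) {ι : Type} (f : (ι → X) → X) : KP m f ↔ Pres (Rel m) f := by
  constructor
  · intro h r hr
    refine ⟨?_, ?_, h.e _ _ _ fun i => (hr i).2.2.1, h.g _ _ _ fun i => (hr i).2.2.2.1,
      h.q _ _ fun i => (hr i).2.2.2.2.1, h.p _ _ fun i => (hr i).2.2.2.2.2⟩
    · rw [← h.neg]
      exact congrArg f (funext fun i => (hr i).1)
    · rw [← h.one]
      exact congrArg f (funext fun i => (hr i).2.1)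
  · intro h
    have key : ∀ (u : ι → Fin 12 → X) (x : ι → Fin m → X),
        (∀ i, Fin.append (u i) (x i) ∈ Rel m) →
        Fin.append (fun j => f fun i => u i j) (fun j => f fun i => x i j) ∈ Rel m := by
      intro u x hu
      convert h _ hu using 1
      funext j
      refine Fin.addCases (fun j => ?_) (fun j => ?_) j <;> simp
    refine ⟨fun x => ?_, ?_, fun x y b hh => ?_, fun x y b hh => ?_, fun x y hh => ?_,
      fun x t hh => ?_⟩
    · exact ((mem_Rel _ _).1 (key (fun i => ![-x i, x i, 1, 0, 0, 0, 0, 0, 0, 0, 0, 0])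
        (fun _ _ => 0) fun i => (mem_Rel _ _).2 ⟨rfl, rfl, e0, g0, q0, pr0 m⟩)).1
    · exact ((mem_Rel _ _).1 (key (fun i => ![0, 0, 1, 0, 0, 0, 0, 0, 0, 0, 0, 0])
        (fun _ _ => 0) fun i => (mem_Rel _ _).2 ⟨rfl, rfl, e0, g0, q0, pr0 m⟩)).2.1
    · exact ((mem_Rel _ _).1 (key (fun i => ![0, 0, 1, x i, y i, b i, 0, 0, 0, 0, 0, 0])
        (fun _ _ => 0) fun i => (mem_Rel _ _).2 ⟨rfl, rfl, hh i, g0, q0, pr0 m⟩)).2.2.1
    · exact ((mem_Rel _ _).1 (key (fun i => ![0, 0, 1, 0, 0, 0, x i, y i, b i, 0, 0, 0])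
        (fun _ _ => 0) fun i => (mem_Rel _ _).2 ⟨rfl, rfl, e0, hh i, q0, pr0 m⟩)).2.2.2.1
    · exact ((mem_Rel _ _).1 (key (fun i => ![0, 0, 1, 0, 0, 0, 0, 0, 0, x i, y i, 0])
        (fun _ _ => 0) fun i => (mem_Rel _ _).2 ⟨rfl, rfl, e0, g0, hh i, pr0 m⟩)).2.2.2.2.1
    · exact ((mem_Rel _ _).1 (key (fun i => ![0, 0, 1, 0, 0, 0, 0, 0, 0, 0, 0, t i])
        x fun i => (mem_Rel _ _).2 ⟨rfl, rfl, e0, g0, q0, hh i⟩)).2.2.2.2.2

theorem neg_fix {x : X} (h : x = -x) : x = 0 := by revert x; decide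

theorem KP.zero {m : ℕ} {ι : Type} {f : (ι → X) → X} (h : KP m f) : f (fun _ => 0) = 0 :=
  neg_fix (h.neg fun _ => 0)

theorem pr_succ {m : ℕ} (x : Fin (m + 2 + 1) → X) (t : X) : Pr x t ↔
    ∃ t', Pr (fun j => x j.succ) t' ∧ (∀ i j, i ≠ j → Qr (x i) (x j)) ∧ (∀ i, Gr 0 t (x i)) ∧
      Gr t t' (x 0) := by
  classical
  constructor
  · rintro ⟨h1, h2, h3, h4⟩
    refine ⟨if ∃ j : Fin (m + 2), x j.succ = 1 then 1 else 0, ⟨fun i j hij =>
      h1 _ _ fun h => hij (Fin.succ_injective _ h), fun i => ⟨Or.inl rfl, ?_, fun h => ?_, by simp⟩,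
      ?_, ?_⟩, h1, h2, h3, ?_, fun h => ?_, fun h h' => ?_⟩
    · split_ifs <;> simp [Bo]
    · obtain ⟨j, hj⟩ := exists_ne i
      exact if_pos ⟨j, (h1 _ _ fun h => hj (Fin.succ_injective _ h)).2 h⟩
    · split_ifs <;> simp [Bo]
    · split_ifs with h
      · exact fun _ => h
      · simp
    · split_ifs <;> simp [Bo]
    · exact if_pos ⟨0, (h1 0 _ (Fin.succ_ne_zero _).symm).1 h⟩
    · obtain ⟨i, hi⟩ := h4 h
      refine Fin.cases (fun hi => hi) (fun j hi => ?_) i hi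
      rw [if_pos ⟨j, hi⟩] at h'
      simp at h'
  · rintro ⟨t', ⟨-, -, h1, h2⟩, h3, h4, h5⟩
    refine ⟨h3, h4, h5.1, fun h => ?_⟩
    rcases h1 with h1 | h1
    · exact ⟨0, h5.2.2.2 h h1⟩
    · obtain ⟨j, hj⟩ := h2 h1
      exact ⟨_, hj⟩

theorem KP.succ {m : ℕ} {ι : Type} {f : (ι → X) → X} (h : KP (m + 2) f) : KP (m + 2 + 1) f := by
  refine ⟨h.neg, h.one, h.e, h.g, h.q, fun x t hx => ?_⟩
  choose t' h1 h2 h3 h4 using fun i => (pr_succ _ _).1 (hx i)
  refine (pr_succ _ _).2 ⟨f t', h.p _ _ h1, fun i j hij => h.q _ _ fun a => h2 a i j hij,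
    fun j => ?_, h.g _ _ _ h4⟩
  have := h.g (fun _ => 0) _ _ fun a => h3 a j
  rwa [h.zero] at this

open Classical in
noncomputable def ind {ι : Type} (T : Set ι) : ι → X := fun i => if i ∈ T then 1 else 0

def Sup {ι : Type} (f : (ι → X) → X) : Set ι := {i | f (ind {i}) = 1}

theorem KP.dep {m : ℕ} {ι : Type} [Finite ι] {f : (ι → X) → X} (h : KP m f) (x y : ι → X)
    (hxy : ∀ i ∈ Sup f, x i = y i) : f x = f y := by
  classical
  have key : ∀ T : Finset ι, (∀ i ∈ T, i ∉ Sup f) → f x = f fun i => if i ∈ T then y i else x i := by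
    intro T
    induction T using Finset.induction_on with
    | empty => simp
    | insert a T ha ih =>
      intro hT
      rw [ih fun i hi => hT i (Finset.mem_insert_of_mem hi)]
      have := h.e (fun i => if i ∈ T then y i else x i)
        (fun i => if i ∈ insert a T then y i else x i) (ind {a}) fun i => by
          by_cases hi : i = a <;> simp [Er, Bo, ind, hi]
      exact this.2 (this.1.resolve_right (hT a (Finset.mem_insert_self _ _)))
  have := Fintype.ofFinite ι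
  rw [key (Finset.univ.filter fun i => i ∉ Sup f) (by simp)]
  congr 1
  funext i
  by_cases hi : i ∈ Sup f <;> simp [hi, hxy]

theorem KP.sup_ne {m : ℕ} {ι : Type} [Finite ι] {f : (ι → X) → X} (h : KP m f) :
    (Sup f).Nonempty := by
  by_contra hn
  have := h.dep (fun _ => 0) (fun _ => 1) fun i hi => absurd ⟨i, hi⟩ hn
  rw [h.zero, h.one] at this
  simp at this

theorem KP.sup_nat {m : ℕ} {ι ι' : Type} [Finite ι] {f : (ι → X) → X} (h : KP m f) (π : ι → ι') :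
    Sup (fun x => f fun i => x (π i)) = π '' Sup f := by
  ext j
  constructor
  · intro hj
    by_contra hn
    have h1 : f (fun i => ind {j} (π i)) = 1 := hj
    rw [h.dep _ (fun _ => 0) fun i hi => by
      have : π i ≠ j := fun h2 => hn ⟨i, hi, h2⟩
      simp [ind, this], h.zero] at h1
    simp at h1
  · rintro ⟨i, hi, rfl⟩
    have := h.g (ind {i}) (fun a => ind {π i} (π a)) (fun _ => 0) fun a => by
      by_cases ha : a = i
      · simp [Gr, Bo, ind, ha]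
      · by_cases hb : π a = π i <;> simp [Gr, Bo, ind, ha, hb]
    rw [h.zero] at this
    refine this.2.1.resolve_left fun h0 => ?_
    simpa using this.2.2.2 hi h0

open Classical in
noncomputable def ts {ι : Type} (x : ι → X) : X :=
  if (∃ i, x i = 1) ∧ ∀ i, x i ≠ -1 then 1 else if (∃ i, x i = -1) ∧ ∀ i, x i ≠ 1 then -1 else 0

theorem ts_one {ι : Type} (x : ι → X) : ts x = 1 ↔ (∃ i, x i = 1) ∧ ∀ i, x i ≠ -1 := by
  unfold ts; split_ifs with h1 h2 <;> simp [h1]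

theorem ts_neg {ι : Type} (x : ι → X) : ts x = -1 ↔ (∃ i, x i = -1) ∧ ∀ i, x i ≠ 1 := by
  unfold ts
  split_ifs with h1 h2
  · obtain ⟨⟨i, hi⟩, -⟩ := h1
    refine iff_of_false (by decide) ?_
    exact fun h => h.2 i hi
  · simp [h2]
  · simp [h2]

theorem ts_isTS {ι : Type} : IsTS (ts (ι := ι)) := by
  intro x y h
  have h1 : ∀ a, (∃ i, x i = a) ↔ ∃ i, y i = a := fun a => Set.ext_iff.1 h a
  have h2 : ∀ a, (∀ i, x i ≠ a) ↔ ∀ i, y i ≠ a := fun a => by
    simpa using not_congr (h1 a)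
  classical
  exact if_congr (and_congr (h1 _) (h2 _)) rfl (if_congr (and_congr (h1 _) (h2 _)) rfl rfl)

theorem ts_bo {ι : Type} (x : ι → X) (h : ∀ i, Bo (x i)) :
    Bo (ts x) ∧ (ts x = 1 ↔ ∃ i, x i = 1) := by
  have h1 : ∀ i, x i ≠ -1 := fun i hi => by have := h i; simp [Bo, hi] at this
  refine ⟨?_, by simp [ts_one, h1]⟩
  have : ts x ≠ -1 := fun h2 => by
    obtain ⟨⟨i, hi⟩, -⟩ := (ts_neg x).1 h2
    exact h1 i hi
  revert this
  generalize ts x = a
  revert a; unfold Bo; decide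

theorem ts_g {ι : Type} (x y b : ι → X) (h : ∀ i, Gr (x i) (y i) (b i)) :
    Gr (ts x) (ts y) (ts b) := by
  obtain ⟨h1, h2⟩ := ts_bo x fun i => (h i).1
  obtain ⟨h3, h4⟩ := ts_bo y fun i => (h i).2.1
  refine ⟨h1, h3, fun h5 => ?_, fun h5 h6 => ?_⟩
  · obtain ⟨⟨i, hi⟩, -⟩ := (ts_neg b).1 h5
    exact h4.2 ⟨i, (h i).2.2.1 hi⟩
  · have h7 : ∀ i, y i ≠ 1 := fun i hi => by
      rw [h4.2 ⟨i, hi⟩] at h6; simp at h6
    obtain ⟨i, hi⟩ := h2.1 h5
    exact (ts_one b).2 ⟨⟨i, (h i).2.2.2 hi ((h i).2.1.resolve_right (h7 i))⟩,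
      fun j hj => h7 j ((h j).2.2.1 hj)⟩

theorem ts_q {ι : Type} (x y : ι → X) (h : ∀ i, Qr (x i) (y i)) : Qr (ts x) (ts y) := by
  constructor
  · intro h1
    obtain ⟨⟨i, hi⟩, h2⟩ := (ts_neg x).1 h1
    exact (ts_one y).2 ⟨⟨i, (h i).1 hi⟩, fun j hj => h2 j ((h j).2 hj)⟩
  · intro h1
    obtain ⟨⟨i, hi⟩, h2⟩ := (ts_neg y).1 h1
    exact (ts_one x).2 ⟨⟨i, (h i).2 hi⟩, fun j hj => h2 j ((h j).1 hj)⟩

theorem ts_KP (m : ℕ) : KP (m + 1 + 1) (ts (ι := Fin (m + 1))) := by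
  classical
  have hz : ts (fun _ : Fin (m + 1) => (0 : X)) = 0 := by simp [ts]
  refine ⟨fun x => ?_, (ts_one _).2 (by simp), fun x y b h => ?_, ts_g, ts_q, fun x t h => ?_⟩
  · have h1 : ∀ a : X, (-a = 1 ↔ a = -1) ∧ (-a = -1 ↔ a = 1) := by decide
    have h2 : ts (fun i => -x i) = 1 ↔ ts x = -1 := by simp only [ts_one, ts_neg, ne_eq, h1]
    have h3 : ts (fun i => -x i) = -1 ↔ ts x = 1 := by simp only [ts_one, ts_neg, ne_eq, h1]
    revert h2 h3
    generalize ts (fun i => -x i) = a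
    generalize ts x = b
    revert a b; decide
  · obtain ⟨h1, h2⟩ := ts_bo b fun i => (h i).1
    refine ⟨h1, fun h3 => congrArg ts (funext fun i => (h i).2 ((h i).1.resolve_right fun h4 => ?_))⟩
    rw [h2.2 ⟨i, h4⟩] at h3; simp at h3
  · obtain ⟨h1, h2⟩ := ts_bo t fun i => (h i).2.2.1
    refine ⟨fun i j hij => ts_q _ _ fun a => (h a).1 i j hij, fun j => ?_, h1, fun h3 => ?_⟩
    · have := ts_g (fun _ => 0) _ _ fun a => (h a).2.1 j
      rwa [hz] at this
    · by_cases h4 : ∃ a j, x a j = -1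
      · obtain ⟨a, j, haj⟩ := h4
        have h5 : ∃ c, ∀ b, x b c ≠ -1 := by
          by_contra hn
          push Not at hn
          choose g hg using hn
          have h6 : Function.Injective g := fun c d hcd => by
            by_contra hne
            have h7 := ((h (g c)).1 c d hne).1 (hg c)
            rw [hcd, hg d] at h7
            simp at h7
          simpa using Fintype.card_le_of_injective g h6
        obtain ⟨c, hc⟩ := h5
        exact ⟨c, (ts_one _).2 ⟨⟨a, ((h a).1 j c fun e => hc a (e ▸ haj)).1 haj⟩, hc⟩⟩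
      · push Not at h4
        obtain ⟨a, ha⟩ := h2.1 h3
        obtain ⟨c, hc⟩ := (h a).2.2.2 ha
        exact ⟨c, (ts_one _).2 ⟨⟨a, hc⟩, fun b => h4 b c⟩⟩

theorem no_ts (m : ℕ) (f : (Fin (m + 2) → X) → X) (h : KP (m + 2) f) : ¬ IsTS f := by
  intro hf
  have h1 := h.p (fun a j => if j = a then -1 else 1) (fun _ => 1) fun a => by
    refine ⟨fun i j hij => ⟨fun h1 => ?_, fun h1 => ?_⟩, fun i => by simp [Gr, Bo], Or.inr rfl,
      fun _ => ?_⟩
    · have : i = a := by by_contra h2; simp [h2] at h1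
      exact if_neg fun h2 => hij (this.trans h2.symm)
    · have : j = a := by by_contra h2; simp [h2] at h1
      exact if_neg fun h2 => hij (h2.trans this.symm)
    · obtain ⟨j, hj⟩ := exists_ne a
      exact ⟨j, if_neg hj⟩
  obtain ⟨j, hj⟩ := h1.2.2.2 h.one
  simp only at hj
  have h2 := h.neg fun a => if j = a then -1 else 1
  rw [← hf (fun a => if j = a then -1 else 1), hj] at h2
  · simp at h2
  · obtain ⟨c, hc⟩ := exists_ne j
    have h3 : ∀ g : Fin (m + 2) → X, (∀ a, g a ≠ 0) → g c = - g j → Set.range g = {1, -1} := by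
      intro g h4 h5
      ext z
      constructor
      · rintro ⟨a, rfl⟩
        have := h4 a
        revert this
        generalize g a = w
        revert w; simp only [Set.mem_insert_iff, Set.mem_singleton_iff]; decide
      · intro hz
        have h6 : g j = z ∨ - g j = z := by
          have := h4 j
          revert this hz
          generalize g j = w
          revert w z; simp only [Set.mem_insert_iff, Set.mem_singleton_iff]; decide
        rcases h6 with h6 | h6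
        · exact ⟨j, h6⟩
        · exact ⟨c, h5.trans h6⟩
    rw [h3, h3]
    · intro a; split_ifs <;> simp
    · simp [hc.symm]
    · intro a; split_ifs <;> simp
    · simp [hc.symm]

noncomputable instance (m : ℕ) : Fintype (V (Rel m)) := Fintype.ofFinite _

instance (m : ℕ) : Nonempty (V (Rel m)) := ⟨⟨0, r0 m, 0, 0⟩⟩

theorem res_KP (m : ℕ) {ι : Type} (F : (ι → V (Rel m)) → V (Rel m)) (hF : IsPol Adj F) :
    KP m (res (r0 m) F) := (KP_iff m _).2 (res_pres _ 0 F hF)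

theorem up (m : ℕ) : C _ (toFin (Adj (R := Rel (m + 2)))) _ (toFin (Adj (R := Rel (m + 2 + 1)))) := by
  refine C_toFin _ _ (fun ι F => ext (r0 _) (res (r0 _) F) (Sup (res (r0 _) F)))
    (fun ι _ F hF => ?_) (fun ι ι' _ π F hF y => ?_)
  · have h := (res_KP _ F hF).succ
    exact ext_pol _ _ _ h.sup_ne ((KP_iff _ _).1 h) h.dep
  · rw [← ext_nat _ π, ← (res_KP _ F hF).sup_nat]
    rfl

theorem not_down (m : ℕ) :
    ¬ C _ (toFin (Adj (R := Rel (m + 2 + 1)))) _ (toFin (Adj (R := Rel (m + 2)))) := by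
  intro h
  obtain ⟨t, h1, h2⟩ := ts_toFin _ _ h (ext (r0 _) (ts (ι := Fin (m + 2))) Set.univ)
    (ext_pol _ _ _ Set.univ_nonempty ((KP_iff _ _).1 (ts_KP (m + 1)))
      fun x y hxy => congrArg ts (funext fun i => hxy i trivial)) (ext_ts _ _ ts_isTS)
  exact no_ts m _ (res_KP _ t h1) (res_ts _ t h2)

end Pool.Agent.H24.PPChain
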