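import Pool.Agent.H11.PS1
import Pool.Agent.H21.Sim
import Pool.Agent.H24.Bz1

set_option autoImplicit false

namespace Pool.Agent.H24.Sel
open Pool.Agent.H11.PT Pool.Agent.H24.Bz Polynomial

theorem pt_ver {V : List Bool × List Bool → Bool}
    (h : PolyTime (fun p => bits p.1 ++ p.2) (fun b => [b]) V) : PT V :=
  (PT.headD (Pool.Agent.H21.Sim.sim (by fun_prop) h) (PT.const false)).of_eq fun _ => rfl

theorem pt_dec {α : Type} [Enc α] {V : α → Bool} (h : PolyTime bits (fun b => [b]) V) : PT V :=
  (PT.headD (Pool.Agent.H21.Sim.sim (by fun_prop) h) (PT.const false)).of_eq fun _ => rfl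

def en (x u : List Bool) : List Bool := List.replicate x.length true ++ false :: (x ++ u)
def d1 (s : List Bool) : List Bool := (s.drop ((decN s).headD 0 + 1)).take ((decN s).headD 0)
def d2 (s : List Bool) : List Bool := (s.drop ((decN s).headD 0 + 1)).drop ((decN s).headD 0)

theorem d_en (x u : List Bool) : d1 (en x u) = x ∧ d2 (en x u) = u := by
  have h : (decN (en x u)).headD 0 = x.length := by
    have := decN_encN [x.length] (x ++ u)
    simp only [encN, List.flatMap_cons, List.flatMap_nil, List.append_nil, List.append_assoc,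
      List.cons_append, List.nil_append] at this
    rw [en, this]; rfl
  have h2 : (en x u).drop (x.length + 1) = x ++ u := by
    rw [en, List.drop_append]; simp
  simp only [d1, d2, h, h2, List.take_left', List.drop_left', and_self]

theorem sz_bools (l : List Bool) : sz l ≤ 4 * l.length + 1 := by
  have := sz_map_le (l := l) (fun b => b) (S := 3) fun b _ => sz_bool b
  simp only [List.map_id'] at this; omega

/-- the language of extendable pieces of certificates is in NP -/
theorem pre_np {V : List Bool × List Bool → Bool} (hV : PT V) (q : ℕ[X]) :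
    InNP fun s : List Bool => ∃ w : List Bool, w.length = q.eval (sz (d1 s)) ∧
      w.take (d2 s).length = d2 s ∧ V (d1 s, w) = true := by
  have h1 : PT d1 := by unfold d1; fun_prop
  have h2 : PT d2 := by unfold d2; fun_prop
  refine PT.inNP (V := fun p => decide ((p.2.take (q.eval (sz (d1 p.1)))).take (d2 p.1).length =
    d2 p.1) && V (d1 p.1, p.2.take (q.eval (sz (d1 p.1))))) (by fun_prop) q fun s => ?_
  have hs : q.eval (sz (d1 s)) ≤ q.eval (sz s) :=
    ev_mono q (sz_sublist ((List.take_sublist _ _).trans (List.drop_sublist _ _)))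
  constructor
  · rintro ⟨w, h1, h2, h3⟩
    refine ⟨w ++ List.replicate (q.eval (sz s) - q.eval (sz (d1 s))) false, by simp; omega, ?_⟩
    simp only [← h1, List.take_left', h2, h3, decide_true, Bool.and_self]
  · rintro ⟨w, h1, h2⟩
    simp only [Bool.and_eq_true, decide_eq_true_eq] at h2
    exact ⟨_, by simp; omega, h2.1, h2.2⟩

/-- A hard promise problem whose instances of each of polynomially many kinds are linearly
ordered by a polynomial-time test that is compatible with the answer forces P = NP. -/
theorem sel {β : Type} [Enc β] {Val X : β → Prop} (h : HardFor InNP Val X) (cls : β → ℕ)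
    (hc : PT cls) (le : β → β → Bool) (hle : PT fun p : β × β => le p.1 p.2) (κ : β → ℝ)
    (h1 : ∀ a b, Val a → Val b → cls a = cls b → (le a b = true ↔ κ a ≤ κ b))
    (h2 : ∀ a b, Val a → Val b → cls a = cls b → κ a ≤ κ b → X b → X a)
    (L : List Bool → Prop) (hL : InNP L) : InP L := by
  obtain ⟨V, q, hV, e⟩ := hL
  replace hV := pt_ver hV
  obtain ⟨f, hf, ef⟩ := h _ (pre_np hV q)
  let F : List Bool → List Bool → β := fun x u => f (en x u)
  have hF : PT fun p : List Bool × List Bool => F p.1 p.2 := by
    unfold F en; fun_prop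
  obtain ⟨r, hr⟩ := (hc.comp hF).out
  let m : List Bool → ℕ := fun x => q.eval (sz x)
  let N : List Bool → ℕ := fun x => r.eval (sz x + 4 * m x + 2)
  have hm : PT m := by unfold m; fun_prop
  have hN : PT N := by unfold N; fun_prop
  let ch : List (List Bool) → List (List Bool) := fun S =>
    S.flatMap fun u => [u ++ [false], u ++ [true]]
  let pr : List Bool → List (List Bool) → List (List Bool) := fun x S =>
    (List.range (N x + 1)).flatMap fun n => (S.find? fun u => cls (F x u) == n &&
      S.all fun v => cls (F x v) != n || le (F x u) (F x v)).toList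
  have hle' : PT fun p : List Bool × List Bool × List Bool => le (F p.1 p.2.1) (F p.1 p.2.2) :=
    hle.comp (g := fun p : List Bool × List Bool × List Bool => (F p.1 p.2.1, F p.1 p.2.2))
      (by fun_prop)
  have hpr : PT fun p : List Bool × List (List Bool) => pr p.1 p.2 := by
    unfold pr
    refine PT.flatMap (by fun_prop) (PT.toList (PT.find? (by fun_prop) (PT.and (by fun_prop)
      (PT.all (by fun_prop) (PT.or (by fun_prop) ?_)))))
    exact hle'.comp (g := fun p : (((List Bool × List (List Bool)) × ℕ) × List Bool) × List Bool =>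
      (p.1.1.1.1, p.1.2, p.2)) (by fun_prop)
  have sub : ∀ x S u, u ∈ pr x S → u ∈ S := by
    intro x S u hu
    obtain ⟨n, -, hn⟩ := List.mem_flatMap.1 hu
    exact List.mem_of_find?_eq_some (by simpa using hn)
  have len : ∀ x S, (pr x S).length ≤ N x + 1 := by
    intro x S
    rw [List.length_flatMap]
    refine (List.sum_le_card_nsmul _ 1 fun a ha => ?_).trans (by simp)
    obtain ⟨n, -, rfl⟩ := List.mem_map.1 ha
    exact Option.length_toList_le
  let st : List Bool → List (List Bool) → List (List Bool) := fun x S => pr x (ch S)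
  have A : ∀ x j, ∀ u ∈ (st x)^[j] [[]], u.length = j := by
    intro x j
    induction j with
    | zero => simp
    | succ j ih =>
      intro u hu
      rw [Function.iterate_succ_apply'] at hu
      obtain ⟨v, hv, h⟩ := List.mem_flatMap.1 (sub _ _ _ hu)
      have := ih v hv
      simp only [List.mem_cons, List.not_mem_nil, or_false] at h
      rcases h with rfl | rfl <;> simp [this]
  have G : ∀ x u, X (F x u) ↔
      ∃ w : List Bool, w.length = m x ∧ w.take u.length = u ∧ V (x, w) = true := fun x u => by
    have := (ef (en x u)).2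
    rw [(d_en x u).1, (d_en x u).2] at this
    exact this.symm
  have B : ∀ x, L x → ∀ j ≤ m x, ∃ u ∈ (st x)^[j] [[]], X (F x u) := by
    intro x hx j
    induction j with
    | zero =>
      obtain ⟨w, h1, h2⟩ := (e x).1 hx
      exact fun _ => ⟨[], by simp, (G _ _).2 ⟨w, h1, rfl, h2⟩⟩
    | succ j ih =>
      intro hj
      obtain ⟨u, hu, hX⟩ := ih (by omega)
      obtain ⟨w, w1, w2, w3⟩ := (G _ _).1 hX
      have lu := A x j u hu
      rw [Function.iterate_succ_apply']
      set T := ch ((st x)^[j] [[]]) with hT
      let u' := u ++ [w[j]'(by omega)]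
      have hu' : u' ∈ T := List.mem_flatMap.2 ⟨u, hu, by unfold u'; cases w[j]'(by omega) <;> simp⟩
      have hX' : X (F x u') := (G _ _).2 ⟨w, w1, by
        have : u'.length = j + 1 := by simp [u', lu]
        rw [this, List.take_add_one, List.getElem?_eq_getElem (by omega), show w.take j = u from lu ▸ w2]
        rfl, w3⟩
      have hn : cls (F x u') < N x + 1 := by
        have h3 := hr (x, u')
        have h4 := sz_bools u'
        have h5 : u'.length = j + 1 := by simp [u', lu]
        have h6 := ev_mono r (show sz (x, u') ≤ sz x + 4 * m x + 2 by rw [sz_pair]; omega)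
        simp only [sz_nat] at h3
        unfold N; omega
      obtain ⟨u0, h0, hmin⟩ := Finset.exists_min_image
        (T.toFinset.filter fun v => cls (F x v) = cls (F x u')) (fun v => κ (F x v))
        ⟨u', by simp [hu']⟩
      simp only [Finset.mem_filter, List.mem_toFinset] at h0 hmin
      have hv : ∀ u, Val (F x u) := fun u => (ef _).1
      obtain ⟨u1, hu1⟩ := Option.isSome_iff_exists.1 (List.find?_isSome.2 ⟨u0, h0.1, by
        simp only [Bool.and_eq_true, beq_iff_eq, List.all_eq_true, Bool.or_eq_true, bne_iff_ne]
        refine ⟨h0.2, fun v hv' => ?_⟩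
        by_cases hcv : cls (F x v) = cls (F x u')
        · exact .inr ((h1 _ _ (hv _) (hv _) (h0.2.trans hcv.symm)).2 (hmin v ⟨hv', hcv⟩))
        · exact .inl hcv⟩ : (T.find? fun u => cls (F x u) == cls (F x u') &&
          T.all fun v => cls (F x v) != cls (F x u') || le (F x u) (F x v)).isSome)
      have p1 := List.find?_some hu1
      simp only [Bool.and_eq_true, beq_iff_eq, List.all_eq_true, Bool.or_eq_true, bne_iff_ne] at p1
      refine ⟨u1, List.mem_flatMap.2 ⟨_, List.mem_range.2 hn, by rw [hu1]; simp⟩, ?_⟩
      exact h2 _ _ (hv _) (hv _) p1.1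
        ((h1 _ _ (hv _) (hv _) p1.1).1 ((p1.2 u' hu').resolve_left (by simp))) hX'
  have hit : PT fun x => (st x)^[m x] [[]] := by
    refine pt_iter hm (by fun_prop) (hpr.comp (g := fun p : List Bool × List (List Bool) =>
      (p.1, ch p.2)) (by unfold ch; fun_prop)) (fun x => (N x + 1) * (4 * m x + 1 + 1) + 1)
      (by fun_prop) fun x j hj => ?_
    have h3 := sz_map_le (l := (st x)^[j] [[]]) (fun u => u) (S := 4 * m x + 1) fun u hu => by
      have := sz_bools u; have := A x j u hu; omega
    have h4 : ((st x)^[j] [[]]).length ≤ N x + 1 := by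
      cases j with
      | zero => simp
      | succ j => rw [Function.iterate_succ_apply']; exact len _ _
    rw [List.map_id'] at h3
    exact h3.trans (by gcongr)
  refine PT.inP (V := fun x => ((st x)^[m x] [[]]).any fun u => V (x, u)) (by fun_prop) fun x => ?_
  rw [List.any_eq_true]
  constructor
  · intro hx
    obtain ⟨u, hu, hX⟩ := B x hx _ le_rfl
    obtain ⟨w, w1, w2, w3⟩ := (G _ _).1 hX
    rw [A x _ u hu, ← w1, List.take_length] at w2
    exact ⟨u, hu, w2 ▸ w3⟩
  · rintro ⟨u, hu, h⟩
    exact (e x).2 ⟨u, A x _ u hu, h⟩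

end Pool.Agent.H24.Sel
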