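import Pool.Agent.H24.Par2
import Pool.Agent.H24.Sel1

set_option autoImplicit false

namespace Pool.Agent.H24.Par
open Pool.Agent.H11.PT Pool.Agent.H24.Bz MeasureTheory

variable {n : ℕ}

abbrev E (n : ℕ) := EuclideanSpace ℝ (Fin n)

theorem vol_image (g : E n ≃ᵃ[ℝ] E n) (S : Set (E n)) :
    (μHE[n] (g '' S)).toReal = |LinearMap.det g.linear.toLinearMap| * (μHE[n] S).toReal := by
  have e : g '' S = (fun x => g 0 + x) '' (g.linear.toLinearMap '' S) := by
    rw [Set.image_image]
    refine Set.image_congr fun x _ => ?_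
    have := g.map_vadd 0 x
    rw [vadd_eq_add, vadd_eq_add, add_zero] at this
    rw [this, add_comm]; rfl
  rw [EuclideanSpace.euclideanHausdorffMeasure_eq_volume, e, Set.image_add_left,
    measure_preimage_add, Measure.addHaar_image_linearMap, ENNReal.toReal_mul,
    ENNReal.toReal_ofReal (abs_nonneg _)]

noncomputable def kap (I : Inst) : ℝ := ((key I).1 : ℝ) / (key I).2

def kle (a b : Inst) : Bool := decide ((key a).1 * (key b).2 ≤ (key b).1 * (key a).2)

theorem pt_kle : PT fun p : Inst × Inst => kle p.1 p.2 :=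
  pt_le (pt_mul (pt_key.comp PT.id.fst).fst (pt_key.comp PT.id.snd).snd)
    (pt_mul (pt_key.comp PT.id.snd).fst (pt_key.comp PT.id.fst).snd)

theorem kle_iff (a b : Inst) (ha : Valid a) (hb : Valid b) : kle a b = true ↔ kap a ≤ kap b := by
  obtain ⟨-, -, -, f, hf⟩ := ha
  obtain ⟨-, -, -, g, hg⟩ := hb
  have h1 : (0 : ℝ) < (key a).2 := by exact_mod_cast (key_eq _ a.2.2 f hf).1
  have h2 : (0 : ℝ) < (key b).2 := by exact_mod_cast (key_eq _ b.2.2 g hg).1
  rw [kle, kap, kap, div_le_div_iff₀ h1 h2, decide_eq_true_eq]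
  norm_cast

theorem kap_mono (a b : Inst) (ha : Valid a) (hb : Valid b) (e : a.1 = b.1) (h : kap a ≤ kap b)
    (hX : Big id b) : Big id a := by
  obtain ⟨n, R, t⟩ := a
  obtain ⟨_, R', t'⟩ := b
  obtain rfl : n = _ := e
  obtain ⟨-, -, -, f, hf⟩ := ha
  obtain ⟨-, -, -, g, hg⟩ := hb
  obtain ⟨v, v1, v2, v3⟩ := hX
  rw [kap, kap, (key_eq R t f hf).2, (key_eq R' t' g hg).2] at h
  let φ := g.symm.trans f
  have eh : convexHull ℝ (Set.range (φ ∘ v)) = φ '' convexHull ℝ (Set.range v) := by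
    rw [Set.range_comp]; exact (φ.toAffineMap.image_convexHull _).symm
  refine ⟨φ ∘ v, φ.affineIndependent_iff.2 v1, ?_, ?_⟩
  · rw [eh, hf]
    rintro _ ⟨x, hx, rfl⟩
    obtain ⟨y, hy, rfl⟩ := hg ▸ v2 hx
    exact ⟨y, hy, by simp [φ]⟩
  · have e2 : LinearMap.det φ.linear.toLinearMap * LinearMap.det g.linear.toLinearMap =
        LinearMap.det f.linear.toLinearMap := by
      rw [← map_mul]; congr 1; ext1 x
      exact congrArg f.linear (g.linear.symm_apply_apply x)
    have d1 := g.linear.isUnit_det'.ne_zero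
    have fp : (0 : ℝ) < n.factorial := by exact_mod_cast n.factorial_pos
    simp only [id] at v3 ⊢
    rw [eh, vol_image, mul_pow, sq_abs]
    have d2 := f.linear.isUnit_det'.ne_zero
    rw [div_le_div_iff₀ (by positivity) (by positivity), ← e2] at h
    generalize LinearMap.det φ.linear.toLinearMap = x at *
    generalize LinearMap.det g.linear.toLinearMap = y at *
    have h3 : (t : ℝ) ≤ t' * x ^ 2 := by
      refine le_of_mul_le_mul_right ?_ (show 0 < n.factorial * y ^ 2 by positivity)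
      linarith
    nlinarith [mul_le_mul_of_nonneg_right v3 (sq_nonneg x)]

theorem hard_id (h : HardOn Valid (Big id)) : PeqNP :=
  Sel.sel (fun L hL => by
    obtain ⟨f, hf, e⟩ := h L hL
    exact ⟨f, Pool.Agent.H21.Sim.pt_of_raw hf, e⟩) (fun I => I.1) (by fun_prop) kle pt_kle kap
    (fun a b ha hb _ => kle_iff a b ha hb) kap_mono

def seg (t : ℚ) : Inst := (1, [([1], 1), ([-1], 0)], t)

theorem poly_seg : poly 1 [([1], 1), ([-1], 0)] = {y | ∀ i, y i ∈ Set.Icc (0 : ℝ) 1} := by
  ext y; simp [poly, Fin.forall_fin_one, and_comm]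

theorem vol_seg : (μHE[1] {y : E 1 | ∀ i, y i ∈ Set.Icc (0 : ℝ) 1}) = 1 := by
  rw [EuclideanSpace.euclideanHausdorffMeasure_eq_volume]
  have := (PiLp.volume_preserving_ofLp (Fin 1)).measure_preimage
    (s := Set.Icc (0 : Fin 1 → ℝ) 1) measurableSet_Icc.nullMeasurableSet
  rw [Real.volume_Icc_pi] at this
  simp only [Pi.one_apply, Pi.zero_apply, sub_zero, ENNReal.ofReal_one, Finset.prod_const_one] at this
  rw [← this]; congr 1; ext y; simp [Pi.le_def, forall_and]

theorem valid_seg {t : ℚ} (ht : 0 < t) : Valid (seg t) :=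
  ⟨le_rfl, by simp [seg], ht, .refl ℝ _, poly_seg.trans (Set.image_id _).symm⟩

theorem big_seg {γ : ℕ → ℕ} (h : γ 1 = 1) : Big γ (seg 1) ∧ ¬Big γ (seg 2) := by
  have e : ∀ t, Big γ (seg t) ↔ ∃ v : Fin (γ 1 + 1) → E 1, AffineIndependent ℝ v ∧
      convexHull ℝ (Set.range v) ⊆ poly 1 [([1], 1), ([-1], 0)] ∧ (t : ℝ) ≤
        ((γ 1).factorial : ℝ) ^ 2 * (μHE[γ 1] (convexHull ℝ (Set.range v))).toReal ^ 2 :=
    fun _ => Iff.rfl
  rw [e, e, h, poly_seg]
  constructor
  · have hh : convexHull ℝ (Set.range ![(0 : E 1), WithLp.toLp 2 1]) =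
        {y | ∀ i, y i ∈ Set.Icc (0 : ℝ) 1} := by
      rw [Matrix.range_cons, Matrix.range_cons, Matrix.range_empty, Set.union_empty,
        Set.singleton_union, convexHull_pair, segment_eq_image]
      ext y
      simp only [Set.mem_image, Set.mem_ofPred_eq, Fin.forall_fin_one]
      constructor
      · rintro ⟨a, ha, rfl⟩; simpa using ha
      · exact fun h => ⟨_, h, by ext i; simp [Subsingleton.elim i 0]⟩
    have ne : (0 : E 1) ≠ WithLp.toLp 2 1 := fun e => by simpa using congrArg (· 0) e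
    refine ⟨![0, WithLp.toLp 2 1], affineIndependent_of_ne ℝ ne, hh.le, ?_⟩
    rw [hh, vol_seg]; simp
  · rintro ⟨v, -, h1, h2⟩
    have := ENNReal.toReal_mono (by simp) ((measure_mono h1).trans_eq vol_seg)
    have h0 := ENNReal.toReal_nonneg (a := μHE[1] (convexHull ℝ (Set.range v)))
    simp only [Nat.factorial_one, ENNReal.toReal_one] at h2 this
    have := mul_le_mul this this h0 zero_le_one
    push_cast at h2
    linarith

theorem hard_of (h : PeqNP) {γ : ℕ → ℕ} (hγ : γ 1 = 1) : HardOn Valid (Big γ) := fun L hL => by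
  obtain ⟨V, hV, e⟩ := h L hL
  have := Sel.pt_dec hV
  refine ⟨fun x => bif V x then seg 1 else seg 2, PT.polyTime_raw (by fun_prop), fun x => ?_⟩
  simp only [e]
  cases V x
  · exact ⟨valid_seg two_pos, by simpa using (big_seg hγ).2⟩
  · exact ⟨valid_seg one_pos, by simpa using (big_seg hγ).1⟩

end Pool.Agent.H24.Par
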