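import Pool.Agent.H24.Par3

set_option autoImplicit false

namespace Pool.Agent.H24.Par
open MeasureTheory Matrix Finset

variable {n : ℕ}

noncomputable def Fd (v : Fin (n + 1) → Fin n → ℝ) : ℝ :=
  (of fun i => (Fin.cons 1 (v i) : Fin (n + 1) → ℝ)).det
def Dm (v : Fin (n + 1) → Fin n → ℝ) : Matrix (Fin n) (Fin n) ℝ := of fun a j => v a.succ j - v 0 j

theorem Fd_eq (v : Fin (n + 1) → Fin n → ℝ) : Fd v = (Dm v).det := by
  rw [Fd, det_eq_of_forall_row_eq_smul_add_const (B := of (Fin.cons (Fin.cons 1 (v 0))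
    fun a => (Fin.cons 0 (Dm v a) : Fin (n + 1) → ℝ))) (Fin.cons 0 fun _ => 1) 0 rfl
    (Fin.cases (by simp) fun a => Fin.cases (by simp) fun j => by simp [Dm]), det_succ_column_zero,
    Fin.sum_univ_succ, sum_eq_zero fun a _ => by simp]
  simp only [Fin.val_zero, pow_zero, of_apply, Fin.cons_zero, mul_one, one_mul, add_zero]
  rfl

theorem ai_of {v : Fin (n + 1) → E n} (h : Fd (fun i => (v i).ofLp) ≠ 0) : AffineIndependent ℝ v := by
  refine affineIndependent_iff.2 fun s w h1 h2 =>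
    linearIndependent_iff'.1 (linearIndependent_rows_of_det_ne_zero h) s w ?_
  ext j
  refine Fin.cases (by simpa using h1) (fun j => ?_) j
  simpa using congrArg (· j) h2

theorem vol_eq : ∃ c : ENNReal, ∀ v : Fin (n + 1) → E n,
    μHE[n] (convexHull ℝ (Set.range v)) = ENNReal.ofReal |Fd fun i => (v i).ofLp| * c := by
  let e : Fin (n + 1) → E n := Fin.cons 0 fun a => EuclideanSpace.single a 1
  refine ⟨volume (convexHull ℝ (Set.range e)), fun v => ?_⟩
  let T := toEuclideanLin (Dm fun i => (v i).ofLp)ᵀ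
  let φ : E n →ᵃ[ℝ] E n := AffineMap.const ℝ _ (v 0) + T.toAffineMap
  have h1 : v = φ ∘ e := funext (Fin.cases (by simp [φ, e]) fun a => by
    ext j; simp [φ, e, T, Dm, toLpLin_apply])
  have h2 : convexHull ℝ (Set.range v) =
      (fun x => v 0 + x) '' (T '' convexHull ℝ (Set.range e)) := by
    conv_lhs => rw [h1, Set.range_comp, ← φ.image_convexHull]
    rw [Set.image_image]; rfl
  rw [EuclideanSpace.euclideanHausdorffMeasure_eq_volume, h2, Set.image_add_left,
    measure_preimage_add, Measure.addHaar_image_linearMap, Fd_eq, ← det_transpose]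
  congr 3
  exact LinearMap.det_toLin (PiLp.basisFun 2 ℝ (Fin n)) _

def bv (β : Fin (n + 1) → Fin n → Bool) : Fin (n + 1) → Fin n → ℝ := fun i j => bif β i j then 1 else 0

theorem round (v : Fin (n + 1) → Fin n → ℝ) (hv : ∀ i j, v i j ∈ Set.Icc (0 : ℝ) 1) :
    ∃ β : Fin (n + 1) → Fin n → Bool, |Fd v| ≤ |Fd (bv β)| := by
  have key : ∀ s : Finset (Fin (n + 1)), ∃ u : Fin (n + 1) → Fin n → ℝ,
      (∀ i j, u i j ∈ Set.Icc (0 : ℝ) 1) ∧ (∀ i ∈ s, ∀ j, u i j = 0 ∨ u i j = 1) ∧ |Fd v| ≤ |Fd u| := by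
    intro s
    induction s using Finset.induction_on with
    | empty => exact ⟨v, hv, by simp, le_rfl⟩
    | insert i s _ ih =>
      obtain ⟨u, h1, h2, h3⟩ := ih
      obtain ⟨k, c, hc⟩ : ∃ (k : ℝ) (c : Fin n → ℝ), ∀ x, Fd (Function.update u i x) =
          k + ∑ j, x j * c j := by
        let m : Fin (n + 1) → ℝ := fun j => (-1) ^ (i + j : ℕ) *
          ((of fun i => (Fin.cons 1 (u i) : Fin (n + 1) → ℝ)).submatrix i.succAbove j.succAbove).det
        refine ⟨m 0, fun j => m j.succ, fun x => ?_⟩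
        have e : ∀ j : Fin (n + 1), (of fun a => (Fin.cons 1 (Function.update u i x a) :
            Fin (n + 1) → ℝ)).submatrix i.succAbove j.succAbove =
            (of fun i => (Fin.cons 1 (u i) : Fin (n + 1) → ℝ)).submatrix i.succAbove j.succAbove :=
          fun j => by ext a b; simp [Function.update_of_ne (i.succAbove_ne a)]
        rw [Fd, det_succ_row _ i, Fin.sum_univ_succ]
        simp only [e, m, of_apply, Function.update_self, Fin.cons_zero, Fin.cons_succ, mul_one]
        congr 1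
        exact sum_congr rfl fun j _ => by ring
      obtain ⟨g, g1, g2⟩ : ∃ g : ℝ, |g| = 1 ∧ |Fd u| = g * Fd u := by
        cases abs_cases (Fd u)
        exacts [⟨1, by simp, by linarith⟩, ⟨-1, by simp, by linarith⟩]
      refine ⟨Function.update u i fun j => if 0 ≤ g * c j then 1 else 0, fun a j => ?_,
        fun a ha j => ?_, h3.trans ?_⟩
      · by_cases h : a = i
        · subst h; simp only [Function.update_self]; split_ifs <;> simp
        · rw [Function.update_of_ne h]; exact h1 a j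
      · by_cases h : a = i
        · subst h; simp only [Function.update_self]; split_ifs <;> simp
        · rw [Function.update_of_ne h]; exact h2 a ((mem_insert.1 ha).resolve_left h) j
      · rw [g2, ← one_mul |Fd _|, ← g1, ← abs_mul]
        refine le_trans ?_ (le_abs_self _)
        conv_lhs => rw [← Function.update_eq_self i u]
        simp only [hc, mul_add, mul_sum, add_le_add_iff_left]
        refine sum_le_sum fun j _ => ?_
        obtain ⟨a1, a2⟩ := h1 i j
        split_ifs with h <;> nlinarith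
  obtain ⟨u, -, h2, h3⟩ := key univ
  refine ⟨fun i j => decide (u i j = 1), h3.trans_eq ?_⟩
  congr 2; ext i j
  rcases h2 i (mem_univ _) j with h | h <;> simp [bv, h]

theorem best (n : ℕ) : ∃ β : Fin (n + 1) → Fin n → Bool, Fd (bv β) ≠ 0 ∧
    ∀ v : Fin (n + 1) → Fin n → ℝ, (∀ i j, v i j ∈ Set.Icc (0 : ℝ) 1) → |Fd v| ≤ |Fd (bv β)| := by
  obtain ⟨β, -, h⟩ := exists_max_image univ (fun β : Fin (n + 1) → Fin n → Bool => |Fd (bv β)|)
    univ_nonempty
  have h' := fun v hv => (round (n := n) v hv).elim fun b hb => hb.trans (h b (mem_univ _))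
  refine ⟨β, fun e => ?_, h'⟩
  have := h' (Fin.cons 0 fun a => Pi.single a 1) (Fin.cases (by simp) fun a j => by
    by_cases h : j = a <;> simp [h])
  rw [Fd_eq, e, show Dm (Fin.cons 0 fun a => Pi.single a 1) = 1 by
    ext a j; simp [Dm, one_apply, Pi.single_apply, eq_comm]] at this
  norm_num at this

theorem largest_of (X : Matrix (Fin n) (Fin n) ℝ) (hX : X.det ≠ 0) (h : Fin n → ℝ) (P : Set (E n))
    (hP : ∀ x, x ∈ P ↔ ∀ a, (h - X *ᵥ x.ofLp) a ∈ Set.Icc (0 : ℝ) 1)
    {β : Fin (n + 1) → Fin n → Bool} (b1 : Fd (bv β) ≠ 0)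
    (b2 : ∀ v : Fin (n + 1) → Fin n → ℝ, (∀ i j, v i j ∈ Set.Icc (0 : ℝ) 1) → |Fd v| ≤ |Fd (bv β)|)
    (v : Fin (n + 1) → E n) (hv : ∀ i, h - X *ᵥ (v i).ofLp = bv β i) :
    AffineIndependent ℝ v ∧ convexHull ℝ (Set.range v) ⊆ P ∧ ∀ w : Fin (n + 1) → E n,
      convexHull ℝ (Set.range w) ⊆ P →
        μHE[n] (convexHull ℝ (Set.range w)) ≤ μHE[n] (convexHull ℝ (Set.range v)) := by
  have e : ∀ w : Fin (n + 1) → Fin n → ℝ, |Fd fun i => h - X *ᵥ w i| = |Fd w| * |X.det| := fun w => by
    rw [Fd_eq, Fd_eq, show (Dm fun i => h - X *ᵥ w i) = -(Dm w * Xᵀ) by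
      ext a j; simp [Dm, mul_apply, mulVec, dotProduct, mul_sub, mul_comm], det_neg, abs_mul,
      det_mul, det_transpose, abs_mul]
    simp
  have e1 := e fun i => (v i).ofLp
  simp only [hv] at e1
  refine ⟨ai_of fun h0 => b1 (by rw [h0] at e1; simpa using e1), convexHull_min ?_ ?_, fun w hw => ?_⟩
  · rintro _ ⟨i, rfl⟩
    refine (hP _).2 fun a => ?_
    rw [hv, bv]; cases β i a <;> simp
  · intro x hx y hy a b ha hb hab
    refine (hP _).2 fun i => ?_
    have := convex_Icc (0 : ℝ) 1 ((hP _).1 hx i) ((hP _).1 hy i) ha hb hab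
    convert this using 1
    simp only [WithLp.ofLp_add, WithLp.ofLp_smul, mulVec_add, mulVec_smul, Pi.sub_apply,
      Pi.add_apply, Pi.smul_apply, smul_eq_mul]
    linear_combination (-h i) * hab
  · obtain ⟨c, hc⟩ := vol_eq (n := n)
    rw [hc, hc]
    have := b2 _ fun i => (hP _).1 (hw (subset_convexHull _ _ ⟨i, rfl⟩))
    rw [e fun i => (w i).ofLp, show bv β = fun i => bv β i from rfl, e1] at this
    exact mul_le_mul_left (ENNReal.ofReal_le_ofReal (le_of_mul_le_mul_right this (abs_pos.2 hX))) _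

end Pool.Agent.H24.Par
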