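import Pool.Agent.H24.ParDefs

set_option autoImplicit false

namespace Pool.Agent.H24.Par
open Pool.Agent.H11.PT MeasureTheory

/-- a search instance `(n, rows)` -/
abbrev Qy : Type := ℕ × List (List ℚ × ℚ)

/-- the points listed in an answer -/
noncomputable def pts (n j : ℕ) (A : List (List ℚ)) : Fin (j + 1) → EuclideanSpace ℝ (Fin n) :=
  fun i => WithLp.toLp 2 fun c => ((A.getD i []).getD c 0 : ℝ)

/-- `A` lists the vertices of a largest `γ n`-simplex in the polytope -/
def Largest (γ : ℕ → ℕ) (q : Qy) (A : List (List ℚ)) : Prop :=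
  A.length = γ q.1 + 1 ∧ (∀ r ∈ A, r.length = q.1) ∧ AffineIndependent ℝ (pts q.1 (γ q.1) A) ∧
    convexHull ℝ (Set.range (pts q.1 (γ q.1) A)) ⊆ poly q.1 q.2 ∧
    ∀ w : Fin (γ q.1 + 1) → EuclideanSpace ℝ (Fin q.1), AffineIndependent ℝ w →
      convexHull ℝ (Set.range w) ⊆ poly q.1 q.2 → μHE[γ q.1] (convexHull ℝ (Set.range w)) ≤
        μHE[γ q.1] (convexHull ℝ (Set.range (pts q.1 (γ q.1) A)))

/-- the first `k` answers of the oracle `O` to the adaptive queries `ask` -/
def hist (O : Qy → List (List ℚ)) (ask : List Bool × List (List (List ℚ)) → Qy) (x : List Bool)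
    (k : ℕ) : List (List (List ℚ)) := (fun H => H ++ [O (ask (x, H))])^[k] []

/-- NP-hardness of the search problem under polynomial-time Turing reductions -/
def TuringHard (γ : ℕ → ℕ) : Prop :=
  ∀ L : List Bool → Prop, InNP L → ∃ (ask : List Bool × List (List (List ℚ)) → Qy)
    (out : List Bool × List (List (List ℚ)) → Bool),
    PolyTime bits bits ask ∧ PolyTime bits (fun b => [b]) out ∧
    ∀ O : Qy → List (List ℚ), (∀ q, Valid (q.1, q.2, 1) → Largest γ q (O q)) →
      (∃ r : Polynomial ℕ, ∀ q, (bits (O q)).length ≤ r.eval (bits q).length) →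
      ∃ p : Polynomial ℕ, ∀ x,
        (∀ k < p.eval x.length, (bits (ask (x, hist O ask x k))).length ≤ p.eval x.length) ∧
        (L x ↔ out (x, hist O ask x (p.eval x.length)) = true)

/-- the class P/poly -/
def InPpoly (L : List Bool → Prop) : Prop :=
  ∃ (V : List Bool × List Bool → Bool) (a : ℕ → List Bool) (q : Polynomial ℕ),
    PolyTime bits (fun b => [b]) V ∧ (∀ m, (a m).length ≤ q.eval m) ∧
      ∀ x, L x ↔ V (x, a x.length) = true

end Pool.Agent.H24.Par
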