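import Pool.Agent.H24.Par4
import Pool.Agent.H24.ParDefs2
import Pool.Agent.H24.Bz2

set_option autoImplicit false

namespace Pool.Agent.H24.Par
open Pool.Agent.H11.PT Pool.Agent.H24.Bz Pool.Agent.H24.Gd Matrix Polynomial

def hv (n : ℕ) (p : Row × Row) : ℤ := p.1.2 * -dot n p.1.1 p.2.1
def hi (n : ℕ) (R : List Row) (c : Row) : ℤ :=
  hv n ((((R ×ˢ R).filter (ap n)).find? fun p => cv n p == c).getD (([], 0), ([], 0)))
def sq2 (n : ℕ) (G : List (List ℤ)) : ℤ := dt n (tab n fun a b => dot n (G.getD a []) (G.getD b []))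
def uc (n : ℕ) (Z : List (List ℤ)) (j : ℕ) (t : List ℤ) (e : ℤ) : List (List ℤ) :=
  tab n fun a l => if l = j then t.getD a 0 + e * ent Z a j else ent Z a l
def slv (n : ℕ) (Z : List (List ℤ)) (t : List ℤ) : List ℚ := (List.range n).map fun j =>
  Rat.divInt (sq2 n (uc n Z j t 1) - sq2 n (uc n Z j t (-1))) (4 * sq2 n Z)
def sol1 (n : ℕ) (R C : List Row) (a : List (List Bool)) : List (List ℚ) :=
  (List.range (n + 1)).map fun i => slv n (C.map Prod.fst) ((List.range n).map fun k =>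
    hi n R (C.getD k ([], 0)) - (C.getD k ([], 0)).2 * bif (a.getD i []).getD k false then 1 else 0)
def sol (q : Qy) (a : List (List Bool)) : List (List ℚ) :=
  sol1 q.1 (q.2.map (ir q.1)) (bas (q.1, q.2, 1)) a

section
variable {α : Type} [Enc α]

theorem pt_hv {n : α → ℕ} {r : α → Row × Row} (hn : PT n) (hr : PT r) :
    PT fun x => hv (n x) (r x) := by unfold hv; fun_prop

@[fun_prop] theorem pt_hi {n : α → ℕ} {R : α → List Row} {c : α → Row} (hn : PT n) (hR : PT R)
    (hc : PT c) : PT fun x => hi (n x) (R x) (c x) := by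
  have h1 : PT fun x => (R x ×ˢ R x).filter (ap (n x)) := by fun_prop
  have h2 : PT fun p : α × Row × Row => cv (n p.1) p.2 == c p.1 :=
    PT.beq (pt_cv (by fun_prop) (by fun_prop)) (by fun_prop)
  exact pt_hv hn (PT.optGetD (PT.find? h1 h2) (PT.const _))

@[fun_prop] theorem pt_sq2 {n : α → ℕ} {G : α → List (List ℤ)} (hn : PT n) (hG : PT G) :
    PT fun x => sq2 (n x) (G x) := by unfold sq2 tab; fun_prop

@[fun_prop] theorem pt_uc {n j : α → ℕ} {Z : α → List (List ℤ)} {t : α → List ℤ} (e : ℤ) (hn : PT n)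
    (hZ : PT Z) (hj : PT j) (ht : PT t) : PT fun x => uc (n x) (Z x) (j x) (t x) e := by
  unfold uc tab; fun_prop

@[fun_prop] theorem pt_slv {n : α → ℕ} {Z : α → List (List ℤ)} {t : α → List ℤ} (hn : PT n)
    (hZ : PT Z) (ht : PT t) : PT fun x => slv (n x) (Z x) (t x) :=
  PT.map (by fun_prop) (pt_divInt (pt_sub (pt_sq2 (by fun_prop) (by fun_prop))
    (pt_sq2 (by fun_prop) (by fun_prop))) (pt_mul (by fun_prop) (pt_sq2 (by fun_prop) (by fun_prop))))

theorem pt_sol1 {n : α → ℕ} {R C : α → List Row} {a : α → List (List Bool)} (hn : PT n) (hR : PT R)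
    (hC : PT C) (ha : PT a) : PT fun x => sol1 (n x) (R x) (C x) (a x) :=
  PT.map (by fun_prop) (pt_slv (by fun_prop) (by fun_prop) (PT.map (by fun_prop)
    (pt_sub (pt_hi (by fun_prop) (by fun_prop) (by fun_prop)) (by fun_prop))))

theorem pt_sol {q : α → Qy} {a : α → List (List Bool)} (hq : PT q) (ha : PT a) :
    PT fun x => sol (q x) (a x) :=
  pt_sol1 hq.fst (by fun_prop) (pt_bas.comp (by fun_prop)) ha
end

variable {n : ℕ}

theorem hi_ok (R : List Row) (c : Row) (hc : c ∈ cand n R) (x : Fin n → ℝ)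
    (hx : ∀ r ∈ R, zv n r.1 ⬝ᵥ x ≤ r.2) :
    (hi n R c : ℝ) - c.2 ≤ zv n c.1 ⬝ᵥ x ∧ zv n c.1 ⬝ᵥ x ≤ hi n R c := by
  obtain ⟨p, hp, e⟩ := List.mem_map.1 hc
  obtain ⟨⟨r, s⟩, h⟩ := Option.isSome_iff_exists.1 (List.find?_isSome.2 ⟨p, hp, by simpa⟩ :
    (((R ×ˢ R).filter (ap n)).find? fun p => cv n p == c).isSome)
  obtain ⟨h1, h2⟩ := List.mem_filter.1 (List.mem_of_find?_eq_some h)
  obtain ⟨hr, hs⟩ := List.mem_product.1 h1
  have h3 : cv n (r, s) = c := by simpa using List.find?_some h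
  rw [hi, h, ← h3, hv]
  have h4 : zv n r.1 ⬝ᵥ zv n s.1 < 0 ∧
      (zv n r.1 ⬝ᵥ zv n r.1) • zv n s.1 = (zv n r.1 ⬝ᵥ zv n s.1) • zv n r.1 := by
    simp only [ap, Bool.and_eq_true, decide_eq_true_eq, List.all_eq_true, List.mem_range,
      beq_iff_eq, ← dot_eq, funext_iff, Pi.smul_apply, smul_eq_mul, zv, Fin.forall_iff] at h2 ⊢
    norm_cast
  have h5 : zv n (cv n (r, s)).1 = -(zv n r.1 ⬝ᵥ zv n s.1) • zv n r.1 := by
    ext j
    simp only [cv, zv, List.getD_eq_getElem?_getD, List.getElem?_map, Pi.smul_apply, ← dot_eq]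
    cases r.1[j.1]? <;> simp [mul_comm]
  have h6 := congrArg (· ⬝ᵥ x) h4.2
  have h7 : 0 ≤ zv n r.1 ⬝ᵥ zv n r.1 := dotProduct_self_star_nonneg _
  rw [h5]
  simp only [cv, Option.getD_some, Int.cast_add, Int.cast_mul, Int.cast_neg, dot_eq,
    smul_dotProduct, smul_eq_mul] at h6 ⊢
  have := mul_le_mul_of_nonneg_left (hx s hs) h7
  have := mul_le_mul_of_nonneg_left (hx r hr) (neg_pos.2 h4.1).le
  constructor <;> linarith

theorem sq2_eq (G : List (List ℤ)) : (sq2 n G : ℝ) = n.factorial * (toM n G).det ^ 2 := by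
  have e : toM n (tab n fun a b => dot n (G.getD a []) (G.getD b [])) = toM n G * (toM n G)ᵀ := by
    ext a b
    simp only [toM, of_apply, ent_tab, a.2, b.2, and_self, if_true, dot_eq]; rfl
  rw [sq2, dt_eq _ _ (by rw [e]; exact isHermitian_mul_conjTranspose_self _), e, det_mul,
    det_transpose, sq]

theorem slv_eq (Z : List (List ℤ)) (h : (toM n Z).det ≠ 0) (t : List ℤ) :
    toM n Z *ᵥ (fun j => (((slv n Z t).getD j 0 : ℚ) : ℝ)) = zv n t := by
  have e : ∀ (j : Fin n) (e : ℤ), (toM n (uc n Z j t e)).det =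
      cramer (toM n Z) (zv n t) j + e * (toM n Z).det := fun j e => by
    rw [cramer_apply, show toM n (uc n Z j t e) =
      (toM n Z).updateCol j (zv n t + (e : ℝ) • fun a => toM n Z a j) by
        ext a l
        by_cases h : l = j <;> simp [toM, uc, ent_tab, updateCol_apply, Fin.val_inj, h, zv],
      det_updateCol_add, det_updateCol_smul, updateCol_eq_self]
  have f0 : (n.factorial : ℝ) ≠ 0 := by exact_mod_cast n.factorial_ne_zero
  rw [show (fun j : Fin n => (((slv n Z t).getD j 0 : ℚ) : ℝ)) =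
    ((toM n Z).det)⁻¹ • cramer (toM n Z) (zv n t) by
      ext j
      simp only [slv, List.getD_eq_getElem?_getD, List.getElem?_map, List.getElem?_range j.2,
        Option.map_some, Option.getD_some, Rat.divInt_eq_div, Pi.smul_apply, smul_eq_mul]
      push_cast
      rw [sq2_eq, sq2_eq, sq2_eq, e, e]
      field_simp
      push_cast
      ring, mulVec_smul, mulVec_cramer, smul_smul, inv_mul_cancel₀ h, one_smul]

def tbl (n : ℕ) (b : ℕ → ℕ → Bool) : List (List Bool) :=
  (List.range (n + 1)).map fun i => (List.range n).map fun j => b i j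

theorem sol1_ok (R : List (List ℚ × ℚ)) (b : ℕ → ℕ → Bool)
    (b1 : Fd (bv fun (i : Fin (n + 1)) (j : Fin n) => b i j) ≠ 0)
    (b2 : ∀ v : Fin (n + 1) → Fin n → ℝ, (∀ i j, v i j ∈ Set.Icc (0 : ℝ) 1) →
      |Fd v| ≤ |Fd (bv fun (i : Fin (n + 1)) (j : Fin n) => b i j)|)
    {M : Matrix (Fin n) (Fin n) ℝ} (hM : IsUnit M.det) (c : Fin n → ℝ) (R' C : List Row)
    (hc : ∀ y : Fin n → ℝ, (∀ i, y i ∈ Set.Icc (0 : ℝ) 1) ↔
      ∀ r ∈ R', zv n r.1 ⬝ᵥ (c + M *ᵥ y) ≤ r.2)
    (hq : ∀ x : E n, x ∈ poly n R ↔ ∀ r ∈ R', zv n r.1 ⬝ᵥ x.ofLp ≤ r.2) (g1 : C.length = n)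
    (g2 : ∀ c ∈ C, c ∈ cand n R') (g3 : Inv M⁻¹ (wv n C)) :
    Largest id (n, R) (sol1 n R' C (tbl n b)) := by
  have c1 := (cand_ok hM _ _ hc).1
  subst g1
  have wp : ∀ a : Fin C.length, (0 : ℝ) < C[a].2 := fun a => by
    exact_mod_cast (c1 _ (g2 _ (List.getElem_mem a.2))).1
  have d1 : (of (wv C.length C)).det ≠ 0 := fun h0 => by
    have := fin g3
    rw [show Gm (wv C.length C) (wv C.length C) = (of (wv C.length C) * (of (wv C.length C))ᵀ).det
      from rfl, det_mul, h0, zero_mul] at this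
    exact (isUnit_nonsing_inv_det M hM).ne_zero (pow_eq_zero_iff two_ne_zero |>.1 this.symm)
  have ez : toM C.length (C.map Prod.fst) =
      of fun a j : Fin C.length => (C[a].2 : ℝ) * of (wv C.length C) a j := by
    ext a j
    have := (wp a).ne'
    simp only [toM, Gd.ent, wv, vec, zv, of_apply, Pi.smul_apply, smul_eq_mul, Fin.getElem_fin,
      List.getD_eq_getElem?_getD, List.getElem?_map, List.getElem?_eq_getElem a.2,
      Option.map_some, Option.getD_some] at this ⊢
    field_simp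
  have d2 : (toM C.length (C.map Prod.fst)).det ≠ 0 := by
    rw [ez, det_mul_column]
    exact mul_ne_zero (Finset.prod_ne_zero_iff.2 fun a _ => (wp a).ne') d1
  obtain ⟨σ, hσ, hs⟩ := g3
  choose s hs hw using hs
  let h : Fin C.length → ℝ := fun a => hi C.length R' C[a] / C[a].2
  have A : ∀ x, (∀ r ∈ R', zv C.length r.1 ⬝ᵥ x ≤ r.2) → ∀ a,
      (h - of (wv C.length C) *ᵥ x) a ∈ Set.Icc (0 : ℝ) 1 := fun x hx a => by
    obtain ⟨a1, a2⟩ := hi_ok R' _ (g2 _ (List.getElem_mem a.2)) x hx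
    have := wp a
    have e : (h - of (wv C.length C) *ᵥ x) a =
        (hi C.length R' C[a] - zv C.length C[a].1 ⬝ᵥ x) / C[a].2 := by
      show (hi C.length R' C[a] : ℝ) / C[a].2 - (((C[a].2 : ℝ)⁻¹) • zv C.length C[a].1) ⬝ᵥ x = _
      rw [smul_dotProduct, smul_eq_mul]; ring
    rw [e]
    exact ⟨div_nonneg (sub_nonneg.2 a2) this.le, (div_le_one this).2 (by
      simp only [Fin.getElem_fin]; linarith)⟩
  have K : ∀ y a, (h - of (wv C.length C) *ᵥ (c + M *ᵥ y)) a =
      (h - of (wv C.length C) *ᵥ c) a - s a * y (σ a) := fun y a => by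
    have : (of (wv C.length C) *ᵥ (M *ᵥ y)) a = s a * y (σ a) := by
      show wv C.length C a ⬝ᵥ _ = _
      rw [hw, ← dotProduct_mulVec, mulVec_mulVec, nonsing_inv_mul _ hM, one_mulVec,
        single_dotProduct]
    simp only [mulVec_add, Pi.sub_apply, Pi.add_apply, this]; ring
  obtain ⟨l1, l2, l3⟩ := largest_of _ d1 h (poly C.length R) (fun x => ⟨fun hx => A _ ((hq x).1 hx),
    fun hx => (hq x).2 (by
      have ex : x.ofLp = c + M *ᵥ (M⁻¹ *ᵥ (x.ofLp - c)) := by
        rw [mulVec_mulVec, mul_nonsing_inv _ hM, one_mulVec]; simp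
      rw [ex] at hx ⊢
      refine (hc _).1 fun i => ?_
      obtain ⟨a, rfl⟩ := Finite.injective_iff_surjective.1 hσ i
      have h0 := A _ ((hc 0).1 (by simp)) a
      have h1 := A _ ((hc 1).1 (by simp)) a
      have h2 := hx a
      simp only [K, Set.mem_Icc, Pi.zero_apply, Pi.one_apply] at h0 h1 h2 ⊢
      rcases sq_eq_one_iff.1 (hs a) with h | h <;> rw [h] at h0 h1 h2 <;>
        constructor <;> linarith)⟩) b1 b2
    (pts C.length C.length (sol1 C.length R' C (tbl C.length b))) fun i => by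
      ext a
      have := congrFun (slv_eq _ d2 ((List.range C.length).map fun k =>
        hi C.length R' (C.getD k ([], 0)) - (C.getD k ([], 0)).2 *
          bif ((tbl C.length b).getD i []).getD k false then 1 else 0)) a
      rw [ez] at this
      have w := (wp a).ne'
      simp only [pts, sol1, tbl, zv, bv, h, List.getD_eq_getElem?_getD, List.getElem?_map,
        List.getElem?_range i.2, List.getElem?_range a.2, Option.map_some, Option.getD_some,
        mulVec, dotProduct, of_apply, Pi.sub_apply, List.getElem?_eq_getElem a.2, mul_assoc,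
        ← Finset.mul_sum, Fin.getElem_fin, Int.cast_sub, Int.cast_mul] at this w ⊢
      rw [div_sub' w, this]
      cases b i a <;> simp [w]
  exact ⟨by simp [sol1], by simp [sol1, slv], l1, l2, fun w _ => l3 w⟩

theorem sol_ok (R : List (List ℚ × ℚ)) (hR : Valid (n, R, 1)) (b : ℕ → ℕ → Bool)
    (b1 : Fd (bv fun (i : Fin (n + 1)) (j : Fin n) => b i j) ≠ 0)
    (b2 : ∀ v : Fin (n + 1) → Fin n → ℝ, (∀ i j, v i j ∈ Set.Icc (0 : ℝ) 1) →
      |Fd v| ≤ |Fd (bv fun (i : Fin (n + 1)) (j : Fin n) => b i j)|) :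
    Largest id (n, R) (sol (n, R) (tbl n b)) := by
  obtain ⟨-, -, -, f, hf⟩ := hR
  let B := (EuclideanSpace.basisFun (Fin n) ℝ).toBasis
  let M := LinearMap.toMatrix B B f.linear.toLinearMap
  have hM : IsUnit M.det := (LinearMap.det_toMatrix B _).symm ▸ f.linear.isUnit_det'
  have e : ∀ y : Fin n → ℝ, (f 0).ofLp + M *ᵥ y = (f (WithLp.toLp 2 y)).ofLp := fun y => by
    have h1 := LinearMap.toMatrix_mulVec_repr B B f.linear.toLinearMap (WithLp.toLp 2 y)
    have h2 := f.map_vadd 0 (WithLp.toLp 2 y)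
    rw [vadd_eq_add, vadd_eq_add, add_zero] at h2
    rw [h2, add_comm]
    exact congrArg (· + _) h1
  have hc : ∀ y : Fin n → ℝ, (∀ i, y i ∈ Set.Icc (0 : ℝ) 1) ↔
      ∀ r ∈ R.map (ir n), zv n r.1 ⬝ᵥ ((f 0).ofLp + M *ᵥ y) ≤ r.2 := fun y => by
    simp only [List.forall_mem_map, ir_iff, e]
    have : f (WithLp.toLp 2 y) ∈ poly n R ↔ ∀ i, y i ∈ Set.Icc (0 : ℝ) 1 := by
      rw [hf, f.injective.mem_set_image]; rfl
    exact this.symm
  have hq : ∀ x : E n, x ∈ poly n R ↔ ∀ r ∈ R.map (ir n), zv n r.1 ⬝ᵥ x.ofLp ≤ r.2 := fun x => by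
    simp only [List.forall_mem_map, ir_iff]; rfl
  obtain ⟨c1, c2⟩ := cand_ok hM _ _ hc
  obtain ⟨g1, g2, g3⟩ := greedy (isUnit_nonsing_inv_det M hM) _ c1 c2 n le_rfl
  exact sol1_ok R b b1 b2 hM _ _ _ hc hq g1 g2 g3

theorem turing (h : TuringHard id) (L : List Bool → Prop) (hL : InNP L) : InPpoly L := by
  obtain ⟨ask, out, h1, h2, h⟩ := h L hL
  replace h1 : PT ask := (RT.comp Pool.Agent.H21.Sim.rt_unraw
    (Pool.Agent.H21.Sim.sim (by fun_prop) h1)).of_eq id (fun _ => rfl) fun _ => rfl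
  replace h2 := Sel.pt_dec h2
  choose β b1 b2 using best
  let b : ℕ → ℕ → ℕ → Bool := fun n i j =>
    if h : i < n + 1 ∧ j < n then β n ⟨i, h.1⟩ ⟨j, h.2⟩ else false
  have eb : ∀ n, (fun (i : Fin (n + 1)) (j : Fin n) => b n i j) = β n := fun n => by
    ext i j; simp only [b, i.2, j.2, and_self, dif_pos]
  obtain ⟨r, hr⟩ := (pt_sol (q := fun p : Qy × List (List Bool) => p.1) (a := fun p => p.2)
    (by fun_prop) (by fun_prop)).out
  have st : ∀ n b, sz (tbl n b) ≤ (n + 1) * (n * 4 + 1 + 1) + 1 := fun n b =>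
    (sz_map_le (S := n * 4 + 1) _ fun i _ => (sz_map_le _ fun j _ => sz_bool _).trans
      (by simp)).trans (by simp)
  have bd : ∀ (q : Qy) b K, sz q ≤ K → sz (sol q (tbl q.1 b)) ≤
      r.eval (K + ((K + 1) * (K * 4 + 1 + 1) + 1) + 1) := fun q b K hK => by
    have h0 : q.1 ≤ K := by obtain ⟨n, R⟩ := q; simp at hK ⊢; omega
    refine (hr (q, _)).trans (ev_mono r ?_)
    rw [sz_pair]
    exact Nat.succ_le_succ (add_le_add hK ((st q.1 b).trans (by gcongr)))
  let O : Qy → List (List ℚ) := fun q => sol q (tbl q.1 (b q.1))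
  obtain ⟨p, hp⟩ := h O (fun q hq => sol_ok q.2 hq _ (eb _ ▸ b1 _) (eb _ ▸ b2 _))
    ⟨r.comp (X + ((X + 1) * (X * 4 + 1 + 1) + 1) + 1), fun q => by
      simp only [eval_comp, eval_add, eval_mul, eval_X, eval_one, eval_ofNat]
      exact bd q (b q.1) _ le_rfl⟩
  let K : List Bool → ℕ := fun x => p.eval x.length
  have hK : PT K := by unfold K; fun_prop
  let stp : List Bool × List Bool → List (List (List ℚ)) → List (List (List ℚ)) := fun y H =>
    if sz (ask (y.1, H)) ≤ K y.1 then H ++ [sol (ask (y.1, H)) (tbl (ask (y.1, H)).1 fun i j =>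
      y.2.getD (((ask (y.1, H)).1 * K y.1 + i) * K y.1 + j) false)] else H
  have hs : PT fun y : List Bool × List Bool => (stp y)^[K y.1] [] := by
    have ha : PT fun z : (List Bool × List Bool) × List (List (List ℚ)) => ask (z.1.1, z.2) := by
      fun_prop
    refine PT.iterate_add (by fun_prop) (PT.const _) (PT.ite (by fun_prop) (PT.append (by fun_prop)
      (PT.cons (pt_sol ha (by unfold tbl; fun_prop)) (PT.const _))) (by fun_prop))
      (fun y => r.eval (K y.1 + ((K y.1 + 1) * (K y.1 * 4 + 1 + 1) + 1) + 1)) 1 (by fun_prop)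
      fun y H => ?_
    unfold stp
    split_ifs with h
    · have := bd _ (fun i j => y.2.getD (((ask (y.1, H)).1 * K y.1 + i) * K y.1 + j) false) _ h
      have := sz_append H [sol (ask (y.1, H)) (tbl (ask (y.1, H)).1 fun i j =>
        y.2.getD (((ask (y.1, H)).1 * K y.1 + i) * K y.1 + j) false)]
      simp only [sz_cons, sz_nil, sz_nat] at *
      omega
    · omega
  let a : ℕ → List Bool := fun m => (List.range (p.eval m ^ 3)).map fun t =>
    b (t / p.eval m / p.eval m) (t / p.eval m % p.eval m) (t % p.eval m)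
  refine ⟨fun y => out (y.1, (stp y)^[K y.1] []), a, p ^ 3,
    RT.polyTime (RT.comp (f := fun b => b) RT.boolOut (show PT _ by fun_prop)),
    fun m => by simp [a], fun x => ?_⟩
  have e : ∀ k ≤ K x, (stp (x, a x.length))^[k] [] = hist O ask x k := by
    intro k
    induction k with
    | zero => intro _; rfl
    | succ k ih =>
      intro hk
      have h3 : sz (ask (x, hist O ask x k)) ≤ K x := (hp x).1 k hk
      rw [Function.iterate_succ_apply', ih (by omega), hist, hist, Function.iterate_succ_apply',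
        ← hist]
      simp only [stp, h3, if_true, O]
      generalize ask (x, hist O ask x k) = q at h3
      obtain ⟨n, R⟩ := q
      have h4 : n + 1 ≤ K x := by simp at h3; omega
      congr 3
      refine List.map_congr_left fun i hi => List.map_congr_left fun j hj => ?_
      rw [List.mem_range] at hi hj
      have t1 : ((n * K x + i) * K x + j) / K x = n * K x + i := by
        rw [add_comm, Nat.add_mul_div_right _ _ (by omega), Nat.div_eq_of_lt (by omega), zero_add]
      have t2 : (n * K x + i) / K x = n := by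
        rw [add_comm, Nat.add_mul_div_right _ _ (by omega), Nat.div_eq_of_lt (by omega), zero_add]
      have t3 : (n * K x + i) * K x + j < K x ^ 3 := by
        have : n * K x + i + 1 ≤ K x * K x := by nlinarith
        nlinarith
      simp only [a, List.getD_eq_getElem?_getD, List.getElem?_map,
        show p.eval x.length = K x from rfl, List.getElem?_range t3,
        Option.map_some, Option.getD_some]
      rw [t1, t2, Nat.mul_add_mod', Nat.mul_add_mod',
        Nat.mod_eq_of_lt (by omega), Nat.mod_eq_of_lt (by omega)]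
  rw [(hp x).2]
  simp only [e _ le_rfl]; rfl

end Pool.Agent.H24.Par
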