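import Pool.Agent.H24.PltDefs
import Pool.Agent.H24.Bz1
import Pool.Agent.H11.Base1

set_option autoImplicit false

namespace Pool.Agent.H24.Plt
open Pool.Agent.H11.PT Pool.Agent.H24.Bz

def Dok (n : ℕ) (D : ℕ → ℕ) : Prop := ∀ i, i + 1 < n → D i ≤ i ∧ i + 1 + D i < n ∧
  ∀ j, i ≤ j + D i → j ≤ i + D i → j ≠ i → D j = 0

def U4 : List (ℤ × ℤ) := [(1, 0), (-1, 0), (0, 1), (0, -1)]

theorem sq4 : ∀ a ∈ U4, ∀ b ∈ U4, ∀ c ∈ U4, ∀ d ∈ U4, a ≠ b → b ≠ c → c ≠ d → a + b ≠ 0 →
    b + c ≠ 0 → c + d ≠ 0 → (a + b + c).1.natAbs + (a + b + c).2.natAbs = 1 →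
    (b + c + d).1.natAbs + (b + c + d).2.natAbs = 1 → a + b + c + d = 0 := by decide +kernel

theorem geo1 {n : ℕ} {e : ℕ → ℤ × ℤ} {D : ℕ → ℕ} (h1 : ∀ a < n, ∀ b < n, e a = e b → a = b)
    (h2 : ∀ a, a + 1 < n → Adjc (e a) (e (a + 1)))
    (h3 : ∀ i, i + 1 < n → D i ≠ 0 → Elem n e i (D i)) : Dok n D := by
  have k : ∀ a, a + 2 < n → D a ≠ 0 → D (a + 1) ≠ 0 → False := fun a ha d1 d2 => by
    obtain ⟨a1, a2, a3, a4, a5, a6, a7, a8, a9⟩ := h3 a (by omega) d1
    obtain ⟨b1, b2, b3, b4, b5, b6, b7, b8, b9⟩ := h3 (a + 1) (by omega) d2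
    obtain ⟨a, rfl⟩ : ∃ c, a = c + 1 := ⟨a - 1, by omega⟩
    have e1 : D (a + 1) = 1 := by
      by_contra h
      exact b4 (a8 (a + 1 + 1 + 1) (by omega) (by omega)).symm
    have e2 : D (a + 1 + 1) = 1 := by
      by_contra h
      exact a3 (b6 a (by omega) (by omega))
    rw [e1] at a9
    rw [e2] at b9
    have U : ∀ a, a + 1 < n → dir e a ∈ U4 := fun a ha => by
      have := h2 a ha
      simp only [U4, dir, List.mem_cons, Prod.ext_iff, Prod.fst_sub, Prod.snd_sub, List.not_mem_nil]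
      unfold Adjc at this; omega
    have i : ∀ a, a + 2 < n → dir e a + dir e (a + 1) ≠ 0 := fun a ha h => by
      have := h1 (a + 2) (by omega) a (by omega) (sub_eq_zero.1 (by rw [← h]; simp [dir]))
      omega
    have := h1 (a + 4) (by omega) a (by omega) (sub_eq_zero.1 (by
      rw [← sq4 _ (U a (by omega)) _ (U (a + 1) (by omega)) _ (U (a + 2) (by omega)) _
        (U (a + 3) (by omega)) a3 a4 b4 (i a (by omega)) (i (a + 1) (by omega)) (i (a + 2) (by omega))
        ?_ ?_]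
      · simp [dir]
      · simp only [Adjc, dir, Prod.fst_sub, Prod.snd_sub, Prod.fst_add, Prod.snd_add,
          Nat.add_sub_cancel, add_assoc, Nat.reduceAdd] at a9 ⊢
        refine Eq.trans ?_ a9; congr 1 <;> omega
      · simp only [Adjc, dir, Prod.fst_sub, Prod.snd_sub, Prod.fst_add, Prod.snd_add,
          Nat.add_sub_cancel, add_assoc, Nat.reduceAdd, show a + 2 - 1 = a + 1 from rfl] at b9 ⊢
        refine Eq.trans ?_ b9; congr 1 <;> omega))
    omega
  intro i hi
  by_cases h : D i = 0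
  · exact ⟨by omega, by omega, fun j _ _ _ => by omega⟩
  obtain ⟨a1, a2, a3, a4, a5, a6, a7, a8, a9⟩ := h3 i hi h
  refine ⟨a5, a7, fun j j1 j2 j3 => by_contra fun hj => ?_⟩
  obtain ⟨b1, b2, b3, b4, -⟩ := h3 j (by omega) hj
  rcases lt_or_gt_of_ne j3 with c | c
  · by_cases c2 : j + 1 = i
    · exact k j (by omega) hj (c2 ▸ h)
    · exact b4 ((a6 j (by omega) c).trans (a6 (j + 1) (by omega) (by omega)).symm)
  · by_cases c2 : i + 1 = j
    · exact k i (by omega) h (c2 ▸ hj)
    · exact b3 ((a8 (j - 1) (by omega) (by omega)).trans (a8 j (by omega) (by omega)).symm)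

def emb (D : ℕ → ℕ) : ℕ → ℤ × ℤ
  | 0 => (0, 0)
  | a + 1 => if D a = 0 then ((emb D a).1 + (1 - 2 * ((emb D a).2 % 2)), (emb D a).2)
      else ((emb D a).1, (emb D a).2 + 1)

theorem geo2 {n : ℕ} {D : ℕ → ℕ} (h : Dok n D) : ∃ e : ℕ → ℤ × ℤ,
    (∀ a < n, ∀ b < n, e a = e b → a = b) ∧ (∀ a, a + 1 < n → Adjc (e a) (e (a + 1))) ∧
    ∀ i, i + 1 < n → D i ≠ 0 → Elem n e i (D i) := by
  have s0 : ∀ a, D a = 0 → (emb D (a + 1)).1 = (emb D a).1 + (1 - 2 * ((emb D a).2 % 2)) ∧
      (emb D (a + 1)).2 = (emb D a).2 := fun a h => by simp [emb, h]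
  have s1 : ∀ a, D a ≠ 0 → (emb D (a + 1)).1 = (emb D a).1 ∧
      (emb D (a + 1)).2 = (emb D a).2 + 1 := fun a h => by simp [emb, h]
  have k : ∀ a b, a ≤ b → (emb D a).2 ≤ (emb D b).2 ∧ ((emb D a).2 = (emb D b).2 →
      ((emb D a).2 % 2 = 0 → (emb D b).1 = (emb D a).1 + (b - a)) ∧
      ((emb D a).2 % 2 = 1 → (emb D b).1 = (emb D a).1 - (b - a))) := fun a b hab => by
    induction b, hab using Nat.le_induction with
    | base => simp
    | succ b _ ih =>
      have := s0 b
      have := s1 b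
      push_cast
      omega
  refine ⟨emb D, fun a _ b _ e => ?_, fun a _ => ?_, fun i hi hd => ?_⟩
  · have := k a b
    have := k b a
    rw [Prod.ext_iff] at e
    omega
  · have := s0 a
    have := s1 a
    unfold Adjc; omega
  · obtain ⟨a1, a2, a3⟩ := h i hi
    have t : ∀ t ≤ D i, (emb D (i - t)).1 = (emb D (i + 1 + t)).1 ∧ (emb D (i - t)).2 = (emb D i).2 ∧
        (emb D (i + 1 + t)).2 = (emb D i).2 + 1 := fun t ht => by
      induction t with
      | zero => exact ⟨(s1 i hd).1.symm, rfl, (s1 i hd).2⟩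
      | succ t ih =>
        have := ih (by omega)
        have b1 := s0 (i - (t + 1)) (a3 _ (by omega) (by omega) (by omega))
        have b2 := s0 (i + 1 + t) (a3 _ (by omega) (by omega) (by omega))
        rw [show i - (t + 1) + 1 = i - t by omega] at b1
        rw [← add_assoc]
        omega
    have u : ∀ j, i ≤ j + D i → j ≤ i + D i → j ≠ i →
        dir (emb D) j = (1 - 2 * (((emb D i).2 + if j < i then 0 else 1) % 2), 0) :=
      fun j j1 j2 j3 => by
        have b := s0 j (a3 j j1 j2 j3)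
        simp only [dir, Prod.ext_iff, Prod.fst_sub, Prod.snd_sub]
        split_ifs with c
        · have := t (i - j) (by omega)
          rw [show i - (i - j) = j by omega] at this
          omega
        · have := t (j - (i + 1)) (by omega)
          rw [show i + 1 + (j - (i + 1)) = j by omega] at this
          omega
    have v : (dir (emb D) i).2 = 1 := by 
      have := s1 i hd
      simp only [dir, Prod.snd_sub]
      omega
    refine ⟨by omega, by omega, fun e => ?_, fun e => ?_, a1, fun j j1 j2 => ?_, a2,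
      fun j j1 j2 => ?_, ?_⟩
    · rw [← e, u _ (by omega) (by omega) (by omega)] at v; simp at v
    · rw [e, u _ (by omega) (by omega) (by omega)] at v; simp at v
    · rw [u _ (by omega) (by omega) (by omega), u _ (by omega) (by omega) (by omega),
        if_pos j2, if_pos (by omega)]
    · rw [u _ (by omega) (by omega) (by omega), u _ (by omega) (by omega) (by omega),
        if_neg (by omega), if_neg (by omega)]
    · have := t _ le_rfl
      unfold Adjc; omega

abbrev Y := ℕ × List (ℕ × ℕ)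

def ad (y : Y) (u v : ℕ) : Bool := u != v && (y.2.contains (u, v) || y.2.contains (v, u))

theorem ad_iff (y : Y) (u v : Fin y.1) : (gr y.1 y.2).Adj u v ↔ ad y u v = true := by
  simp [gr, ad, Fin.ext_iff]

theorem ad_comm (y : Y) (u v : ℕ) : ad y u v = ad y v u := by
  simp [ad, bne_comm, Bool.or_comm]

/-- combinatorial structure on the vertex set `W` -/
def Sf (y : Y) (W : Set ℕ) (v d : ℕ) : Prop := ∃ (m : ℕ) (f D : ℕ → ℕ),
  Set.BijOn f {a | a < m} W ∧ Dok m D ∧ (∀ a < m, ∀ b < m, ad y (f a) (f b) = true ↔ Rg m D a b) ∧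
    d < m ∧ f d = v ∧ ∀ j < d, D j = 0

theorem pl_iff (y : Y) (h0 : 0 < y.1) : PathLike (gr y.1 y.2) ↔ ∃ v d, Sf y {a | a < y.1} v d := by
  constructor
  · rintro ⟨e, D, π, h1, h2, h3, h4⟩
    refine ⟨_, 0, y.1, fun a => if h : a < y.1 then π ⟨a, h⟩ else 0, D, ⟨fun a (ha : a < y.1) => ?_,
      fun a (ha : a < y.1) b (hb : b < y.1) e => ?_, fun b (hb : b < y.1) =>
        ⟨π.symm ⟨b, hb⟩, (π.symm ⟨b, hb⟩).2, by simp⟩⟩, geo1 h1 h2 h3, fun a ha b hb => ?_, h0, rfl,
      by simp⟩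
    · simp [ha]
    · simpa [ha, hb, Fin.val_inj] using e
    · simp only [dif_pos ha, dif_pos hb, ← ad_iff]
      exact h4 ⟨a, ha⟩ ⟨b, hb⟩
  · rintro ⟨v, d, m, f, D, h1, h2, h3, -⟩
    obtain rfl : m = y.1 := by
      have := h1.ncard_eq
      simpa [← Set.Iio_def, Set.ncard_eq_toFinset_card'] using this
    obtain ⟨e, a1, a2, a3⟩ := geo2 h2
    refine ⟨e, D, Equiv.ofBijective (fun a => ⟨f a, h1.1 a.2⟩) ⟨fun a b e =>
      Fin.ext (h1.2.1 a.2 b.2 (congrArg Fin.val e)), fun b => ?_⟩, a1, a2, a3, fun a b => ?_⟩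
    · obtain ⟨a, ha, e⟩ := h1.2.2 b.2
      exact ⟨⟨a, ha⟩, Fin.ext e⟩
    · rw [ad_iff]; exact h3 a a.2 b b.2

def kst {κ γ : Type} (K : List κ) (ok : κ → γ → Bool) (C : List γ) : List γ :=
  K.flatMap fun k => (C.find? (ok k)).toList

theorem kst1 {κ γ : Type} {K : List κ} {ok : κ → γ → Bool} {C : List γ} {c : γ}
    (h : c ∈ kst K ok C) : c ∈ C ∧ ∃ k ∈ K, ok k c = true := by
  obtain ⟨k, hk, h⟩ := List.mem_flatMap.1 h
  rw [Option.mem_toList] at h
  exact ⟨List.mem_of_find?_eq_some h, k, hk, List.find?_some h⟩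

theorem kst2 {κ γ : Type} {K : List κ} {ok : κ → γ → Bool} {C : List γ} {c : γ} {k : κ}
    (hk : k ∈ K) (h : c ∈ C) (h2 : ok k c = true) : ∃ c' ∈ kst K ok C, ok k c' = true := by
  obtain ⟨c', h3⟩ := Option.isSome_iff_exists.1 (List.find?_isSome.2 ⟨c, h, h2⟩)
  exact ⟨c', List.mem_flatMap.2 ⟨k, hk, Option.mem_toList.2 h3⟩, List.find?_some h3⟩

theorem pt_tab {α κ γ : Type} [Enc α] [Enc κ] [Enc γ] {K : α → List κ} {ok : α → κ → γ → Bool}
    {gen : α → List γ → List γ} {n B : α → ℕ} (hK : PT K)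
    (ho : PT fun p : (α × κ) × γ => ok p.1.1 p.1.2 p.2) (hg : PT fun p : α × List γ => gen p.1 p.2)
    (hn : PT n) (hB : PT B) (h : ∀ x k c, ok x k c = true → sz c ≤ B x) :
    PT fun x => (fun S => kst (K x) (ok x) (gen x S))^[n x] [] := by
  refine pt_iter (g := fun x S => kst (K x) (ok x) (gen x S)) hn (PT.const _) ?_
    (fun x => (K x).length * (B x + 1) + 1) (by fun_prop) fun x m _ => ?_
  · unfold kst
    refine PT.flatMap (by fun_prop) (PT.toList (PT.find? (by fun_prop) ?_))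
    exact ho.comp (g := fun q : ((α × List γ) × κ) × γ => ((q.1.1.1, q.1.2), q.2)) (by fun_prop)
  · cases m with
    | zero => simp
    | succ m =>
      rw [Function.iterate_succ_apply']
      generalize gen x _ = C
      unfold kst
      induction K x with
      | nil => simp
      | cons k K ih =>
        have := sz_append (C.find? (ok x k)).toList (K.flatMap fun k => (C.find? (ok x k)).toList)
        have a : sz (C.find? (ok x k)).toList ≤ B x + 2 := by
          cases e : C.find? (ok x k)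
          · simp
          · have := h _ _ _ (List.find?_some e); simp; omega
        simp only [List.flatMap_cons, List.length_cons, add_mul]
        omega

end Pool.Agent.H24.Plt
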