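import Pool.Agent.H24.PerDefs
import Pool.Agent.H24.Plt1

set_option autoImplicit false

namespace Pool.Agent.H24.Per
open Pool.Agent.H11.PT Relation Multiset

section
variable {p : ℕ} {A : ℕ → ℕ → Prop} {Q : ℕ → ℕ → ℕ → Prop}

inductive Wk (p : ℕ) (A : ℕ → ℕ → Prop) (Q : ℕ → ℕ → ℕ → Prop) (W : Set ℕ) (v : ℕ) :
    ℕ → ℕ → List ℕ → ℕ → Prop
  | cl {a : ℕ} : a < p → Wk p A Q W v a v [] a
  | op {a x : ℕ} : a < p → Wk p A Q W v a x [] p
  | st {a x z b : ℕ} {L : List ℕ} : a < p → z ∈ W → (z = x ∨ (A x z ∧ Q a x z)) →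
      Wk p A Q W v ((a + 1) % p) z L b → Wk p A Q W v a x (z :: L) b

variable {W W' : Set ℕ} {v c a x b e : ℕ} {L L' : List ℕ}

theorem Wk.lt (h : Wk p A Q W v a x L b) : a < p ∧ b ≤ p ∧ ∀ z ∈ L, z ∈ W := by
  induction h with
  | cl h => exact ⟨h, h.le, by simp⟩
  | op h => exact ⟨h, le_rfl, by simp⟩
  | st h h1 _ _ ih => exact ⟨h, ih.2.1, by simpa using ⟨h1, ih.2.2⟩⟩

theorem Wk.app (h : Wk p A Q W c a x L b) (hb : b < p) (h' : Wk p A Q W v b c L' e) :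
    Wk p A Q W v a x (L ++ L') e := by
  induction h with
  | cl => exact h'
  | op => omega
  | st h h1 h2 _ ih => exact .st h h1 h2 (ih hb h')

theorem Wk.opn (h : Wk p A Q W c a x L b) : Wk p A Q W v a x L p := by
  induction h with
  | cl h => exact .op h
  | op h => exact .op h
  | st h h1 h2 _ ih => exact .st h h1 h2 ih

def Real (p : ℕ) (A : ℕ → ℕ → Prop) (Q : ℕ → ℕ → ℕ → Prop) (W : Set ℕ) (v : ℕ)
    (M : Multiset (ℕ × ℕ)) (τ : ℕ) (C : Set ℕ) : Prop :=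
  ∃ P : Multiset ((ℕ × ℕ) × List ℕ), (∀ q ∈ P, Wk p A Q W v q.1.1 v q.2 q.1.2) ∧
    P.map Prod.fst = M ∧ (P.map fun q => q.2.length).sum = τ ∧ ∀ x ∈ C, ∃ q ∈ P, x ∈ q.2

variable {M N : Multiset (ℕ × ℕ)} {τ τ' : ℕ} {C C' : Set ℕ}

theorem real0 : Real p A Q W v 0 τ C ↔ τ = 0 ∧ C = ∅ := by
  constructor
  · rintro ⟨P, -, h1, h2, h3⟩
    rw [map_eq_zero] at h1
    subst h1
    exact ⟨h2.symm, Set.eq_empty_of_forall_notMem fun x hx => by simpa using h3 x hx⟩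
  · rintro ⟨rfl, rfl⟩
    exact ⟨0, by simp, rfl, rfl, by simp⟩

theorem real1 {t : ℕ × ℕ} : Real p A Q W v (t ::ₘ M) τ C ↔ ∃ L τ', Wk p A Q W v t.1 v L t.2 ∧
    τ = τ' + L.length ∧ Real p A Q W v M τ' (C \ {x | x ∈ L}) := by
  classical
  constructor
  · rintro ⟨P, h, h1, h2, h3⟩
    obtain ⟨q, hq, rfl, rfl⟩ := (map_eq_cons _ _ _ _).2 h1
    obtain ⟨P, rfl⟩ := exists_cons_of_mem hq
    refine ⟨q.2, _, h q hq, by simpa [add_comm] using h2.symm, P,
      fun r hr => h r (mem_cons_of_mem hr), by simp, rfl, fun x hx => ?_⟩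
    obtain ⟨r, hr, e⟩ := h3 x hx.1
    rcases mem_cons.1 hr with rfl | hr
    exacts [absurd e hx.2, ⟨r, hr, e⟩]
  · rintro ⟨L, τ', h, rfl, P, h0, rfl, rfl, h3⟩
    refine ⟨(t, L) ::ₘ P, by simpa using ⟨h, fun a b c d => h0 _ d⟩, by simp, by simp [add_comm],
      fun x hx => ?_⟩
    by_cases e : x ∈ L
    · exact ⟨_, mem_cons_self _ _, e⟩
    · obtain ⟨r, hr, e⟩ := h3 x ⟨hx, e⟩
      exact ⟨r, mem_cons_of_mem hr, e⟩

theorem Real.mono (h : Real p A Q W v M τ C) (h' : C' ⊆ C) : Real p A Q W v M τ C' := by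
  obtain ⟨P, h0, h1, h2, h3⟩ := h
  exact ⟨P, h0, h1, h2, fun x hx => h3 x (h' hx)⟩

theorem Real.sub (h : Real p A Q W v M τ C) : C ⊆ W ∧ ∀ t ∈ M, t.1 < p ∧ t.2 ≤ p := by
  obtain ⟨P, h0, rfl, h2, h3⟩ := h
  refine ⟨fun x hx => ?_, fun t ht => ?_⟩
  · obtain ⟨q, hq, e⟩ := h3 x hx
    exact (h0 q hq).lt.2.2 x e
  · obtain ⟨q, hq, rfl⟩ := mem_map.1 ht
    exact ⟨(h0 q hq).lt.1, (h0 q hq).lt.2.1⟩

theorem Real.add (h : Real p A Q W v M τ C) (h' : Real p A Q W v N τ' C') :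
    Real p A Q W v (M + N) (τ + τ') (C ∪ C') := by
  obtain ⟨P, h0, rfl, rfl, h3⟩ := h
  obtain ⟨P', h0', rfl, rfl, h3'⟩ := h'
  refine ⟨P + P', fun q hq => (mem_add.1 hq).elim (h0 q) (h0' q), by simp, by simp, ?_⟩
  rintro x (hx | hx)
  · exact (h3 x hx).imp fun q hq => ⟨mem_add.2 (.inl hq.1), hq.2⟩
  · exact (h3' x hx).imp fun q hq => ⟨mem_add.2 (.inr hq.1), hq.2⟩

theorem Real.cons {t : ℕ × ℕ} (h : Wk p A Q W v t.1 v L t.2) (h' : Real p A Q W v M τ C) :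
    Real p A Q W v (t ::ₘ M) (τ + L.length) (C ∪ {x | x ∈ L}) :=
  real1.2 ⟨L, τ, h, rfl, h'.mono (by simp [Set.sdiff_subset])⟩

def Cc (p : ℕ) (N M : Multiset (ℕ × ℕ)) : Prop :=
  ∃ a b c X, b < p ∧ N = (a, b) ::ₘ (b, c) ::ₘ X ∧ M = (a, c) ::ₘ X

theorem Real.cc (h : Real p A Q W v N τ C) (h' : Cc p N M) : Real p A Q W v M τ C := by
  obtain ⟨a, b, c, X, hb, rfl, rfl⟩ := h'
  obtain ⟨L, τ1, h1, rfl, h3⟩ := real1.1 h
  obtain ⟨L', τ2, h2, rfl, h4⟩ := real1.1 h3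
  exact real1.2 ⟨L ++ L', τ2, h1.app hb h2, by simp; omega, h4.mono fun x hx => by
    simpa [not_or, and_assoc] using hx⟩

theorem red_add (X : Multiset (ℕ × ℕ)) (h : ReflTransGen (Cc p) N M) :
    ReflTransGen (Cc p) (N + X) (M + X) := by
  induction h with
  | refl => exact .refl
  | tail _ h ih =>
    obtain ⟨a, b, c, Y, h, e1, e2⟩ := h
    exact ih.tail ⟨a, b, c, Y + X, h, by simp [e1], by simp [e2]⟩

def up (p b : ℕ) : ℕ := if b = p then p else (b + 1) % p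
def lf (p : ℕ) (t : ℕ × ℕ) : ℕ × ℕ := ((t.1 + p - 1) % p, up p t.2)
def cost (p : ℕ) (t : ℕ × ℕ) : ℕ := if t.2 = p then 1 else 2
def Lf (p : ℕ) (Q : ℕ → ℕ → ℕ → Prop) (v c : ℕ) (t : ℕ × ℕ) : Prop :=
  Q ((t.1 + p - 1) % p) v c ∧ (t.2 = p ∨ Q t.2 c v)

theorem md1 (h : a < p) : ((a + 1) % p + p - 1) % p = a := by
  rcases Nat.lt_or_ge (a + 1) p with e | e
  · rw [Nat.mod_eq_of_lt e, show a + 1 + p - 1 = a + p by omega, Nat.add_mod_right,
      Nat.mod_eq_of_lt h]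
  · rw [show a + 1 = p by omega, Nat.mod_self, Nat.mod_eq_of_lt (by omega)]; omega

theorem md2 (h : a < p) : ((a + p - 1) % p + 1) % p = a := by
  rw [Nat.mod_add_mod, show a + p - 1 + 1 = a + p by omega, Nat.add_mod_right, Nat.mod_eq_of_lt h]

theorem Real.lift (h1 : A v c) (h2 : A c v) (h : Real p A Q Set.univ c M τ C)
    (hl : ∀ t ∈ M, Lf p Q v c t) :
    Real p A Q Set.univ v (M.map (lf p)) (τ + (M.map (cost p)).sum) (C ∪ {x | x = c ∧ M ≠ 0}) := by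
  induction M using Multiset.induction_on generalizing τ C with
  | empty => simpa [real0] using h
  | cons t M ih =>
    obtain ⟨L, τ', a1, rfl, a2⟩ := real1.1 h
    have a3 := ih a2 fun s hs => hl s (mem_cons_of_mem hs)
    obtain ⟨b1, b2⟩ := hl t (mem_cons_self _ _)
    obtain ⟨c1, c2, -⟩ := a1.lt
    have hp : (t.1 + p - 1) % p < p := Nat.mod_lt _ (by omega)
    rw [map_cons, map_cons, sum_cons]
    by_cases e : t.2 = p
    · refine real1.2 ⟨c :: L, _, .st hp trivial (.inr ⟨h1, b1⟩) ?_, ?_, a3.mono ?_⟩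
      · simp only [lf, md2 c1, up, if_pos e]; exact a1.opn
      · simp [cost, e]; omega
      · intro x hx; simp at hx ⊢; tauto
    · refine real1.2 ⟨c :: (L ++ [v]), _, .st hp trivial (.inr ⟨h1, b1⟩) ?_, ?_, a3.mono ?_⟩
      · simp only [lf, md2 c1, up, if_neg e]
        exact a1.app (by omega) (.st (by omega) trivial (.inr ⟨h2, b2.resolve_left e⟩)
          (.cl (Nat.mod_lt _ (by omega))))
      · simp [cost, e]; omega
      · intro x hx; simp at hx ⊢; tauto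

/-- data of a splitting -/
def Sp (p : ℕ) (A : ℕ → ℕ → Prop) (Q : ℕ → ℕ → ℕ → Prop) (W W' : Set ℕ) (v c : ℕ)
    (N : Multiset (ℕ × ℕ)) (τ k : ℕ) (C : Set ℕ) : Prop :=
  ∃ M1 τ1 C1 M2 τ2 C2, Real p A Q W v M1 τ1 C1 ∧ Real p A Q W' c M2 τ2 C2 ∧
    (∀ t ∈ M2, Lf p Q v c t) ∧ N = M1 + M2.map (lf p) ∧ τ = τ1 + τ2 + (M2.map (cost p)).sum ∧
    card M1 ≤ card M2 + k ∧ ∀ z ∈ C, z ∈ C1 ∨ z ∈ C2 ∨ z = v ∨ (z = c ∧ M2 ≠ 0)

theorem Sp.zero (k : ℕ) : Sp p A Q W W' v c 0 0 k ∅ :=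
  ⟨0, 0, ∅, 0, 0, ∅, real0.2 ⟨rfl, rfl⟩, real0.2 ⟨rfl, rfl⟩, by simp, by simp, by simp, by simp,
    by simp⟩

theorem split (hd : ∀ x ∈ W, x ∉ W') (hv : v ∈ W)
    (hx : ∀ x ∈ W, ∀ z ∈ W', (A x z ∨ A z x) → x = v ∧ z = c)
    (h : Wk p A Q (W ∪ W') v a x L b) :
    (x ∈ W → ∃ L0 b0 N τ, Wk p A Q W v a x L0 b0 ∧ Sp p A Q W W' v c N τ 0 ({z | z ∈ L} \ {z | z ∈ L0}) ∧
      L.length = L0.length + τ ∧ ∀ a', ReflTransGen (Cc p) ((a', b0) ::ₘ N) {(a', b)}) ∧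
    (x ∈ W' → ∃ L0 b0 N τ, Wk p A Q W' c a x L0 b0 ∧ (b0 = p ∨ Q b0 c v) ∧
      Sp p A Q W W' v c N τ 1 ({z | z ∈ L} \ {z | z ∈ L0}) ∧
      L.length + 1 = L0.length + τ + cost p (0, b0) ∧
      ∀ a', ReflTransGen (Cc p) ((a', up p b0) ::ₘ N) {(a', b)}) := by
  induction h with
  | cl h => exact ⟨fun _ => ⟨[], _, 0, 0, .cl h, by simpa using Sp.zero 0, rfl, fun _ => .refl⟩,
      fun h => absurd h (hd v hv)⟩
  | op h => exact ⟨fun _ => ⟨[], _, 0, 0, .op h, by simpa using Sp.zero 0, rfl, fun _ => .refl⟩,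
      fun _ => ⟨[], p, 0, 0, .op h, .inl rfl, by simpa using Sp.zero 1, by simp [cost],
        fun _ => by simpa [up] using ReflTransGen.refl⟩⟩
  | @st a x z b L h h1 h2 _ ih =>
    have hs : ∀ L0 : List ℕ, {w | w ∈ z :: L} \ {w | w ∈ z :: L0} ⊆ {w | w ∈ L} \ {w | w ∈ L0} :=
      fun L0 w hw => by simp at hw ⊢; tauto
    have mo : ∀ {N τ k C C'}, Sp p A Q W W' v c N τ k C → C' ⊆ C → Sp p A Q W W' v c N τ k C' :=
      fun ⟨M1, τ1, C1, M2, τ2, C2, a1, a2, a3, a4, a5, a6, a7⟩ h =>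
        ⟨M1, τ1, C1, M2, τ2, C2, a1, a2, a3, a4, a5, a6, fun z hz => a7 z (h hz)⟩
    refine ⟨fun m => ?_, fun m => ?_⟩
    · rcases h1 with h1 | h1
      · obtain ⟨L0, b0, N, τ, a1, a2, a3, a4⟩ := ih.1 h1
        exact ⟨z :: L0, b0, N, τ, .st h h1 h2 a1, mo a2 (hs _), by simp; omega, a4⟩
      · obtain ⟨L0, b0, N, τ, a1, a0, ⟨M1, τ1, C1, M2, τ2, C2, b1, b2, b3, rfl, rfl, b6, b7⟩, a3,
          a4⟩ := ih.2 h1
        obtain ⟨h2, h3⟩ := h2.resolve_left fun e => hd x m (e ▸ h1)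
        obtain ⟨rfl, rfl⟩ := hx x m z h1 (.inl h2)
        refine ⟨[], a, (a, up p b0) ::ₘ (M1 + M2.map (lf p)), L.length + 1, .cl h,
          ⟨M1, τ1, C1, ((a + 1) % p, b0) ::ₘ M2, _, _, b1, b2.cons a1, ?_, ?_, ?_, by simp; omega,
            fun w hw => ?_⟩, by simp, fun a' => .head ⟨a', a, _, _, h, rfl, rfl⟩ (a4 a')⟩
        · simpa [Lf, md1 h] using ⟨⟨h3, a0⟩, fun a b h => b3 _ h⟩
        · simp [lf, md1 h]
        · simp only [map_cons, sum_cons, cost] at a3 ⊢; omega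
        · have := b7 w
          simp at hw this ⊢; tauto
    · rcases h1 with h1 | h1
      · obtain ⟨L0, b0, N, τ, a1, ⟨M1, τ1, C1, M2, τ2, C2, b1, b2, b3, rfl, rfl, b6, b7⟩, a3,
          a4⟩ := ih.1 h1
        obtain ⟨h2, h3⟩ := h2.resolve_left fun e => hd z h1 (e ▸ m)
        obtain ⟨rfl, rfl⟩ := hx z h1 x m (.inr h2)
        refine ⟨[], a, ((a + 1) % p, b0) ::ₘ (M1 + M2.map (lf p)), L.length, .cl h, .inr h3,
          ⟨((a + 1) % p, b0) ::ₘ M1, _, _, M2, τ2, C2, b1.cons a1, b2, b3, by simp, by omega,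
            by simp; omega, fun w hw => ?_⟩, by simp [cost, h.ne],
          fun a' => .head ⟨a', (a + 1) % p, _, _, Nat.mod_lt _ (by omega), by simp [up, h.ne], rfl⟩
            (a4 a')⟩
        have := b7 w
        simp at hw this ⊢; tauto
      · obtain ⟨L0, b0, N, τ, a1, a0, a2, a3, a4⟩ := ih.2 h1
        exact ⟨z :: L0, b0, N, τ, .st h h1 h2 a1, a0, mo a2 (hs _), by simp; omega, a4⟩

theorem splitR (hd : ∀ x ∈ W, x ∉ W') (hv : v ∈ W)
    (hx : ∀ x ∈ W, ∀ z ∈ W', (A x z ∨ A z x) → x = v ∧ z = c)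
    (h : Real p A Q (W ∪ W') v M τ C) :
    ∃ N, Sp p A Q W W' v c N τ (card M) C ∧ ReflTransGen (Cc p) N M := by
  induction M using Multiset.induction_on generalizing τ C with
  | empty =>
    obtain ⟨rfl, rfl⟩ := real0.1 h
    exact ⟨0, Sp.zero _, .refl⟩
  | cons t M ih =>
    obtain ⟨L, τ', a1, rfl, a2⟩ := real1.1 h
    obtain ⟨N, ⟨M1, τ1, C1, M2, τ2, C2, b1, b2, b3, rfl, rfl, b6, b7⟩, r1⟩ := ih a2
    obtain ⟨L0, b0, N, τ, c0, ⟨M3, τ3, C3, M4, τ4, C4, c1, c2, c3, rfl, rfl, c6, c7⟩, c8, r2⟩ :=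
      (split hd hv hx a1).1 hv
    refine ⟨_, ⟨(t.1, b0) ::ₘ (M1 + M3), _, _, M2 + M4, _, _, (b1.add c1).cons c0, b2.add c2,
      fun s hs => (mem_add.1 hs).elim (b3 s) (c3 s), rfl, by simp; omega, by simp; omega,
      fun z hz => ?_⟩, ?_⟩
    · have := b7 z
      have := c7 z
      simp at *; tauto
    · have e1 := red_add (M1 + M2.map (lf p)) (r2 t.1)
      have e2 := red_add {t} r1
      rw [add_comm, add_comm M] at e2
      convert e1.trans e2 using 1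
      · simp only [cons_add, map_add]
        congr 1; abel
      · simp

end

/-- inflationary closure -/
def clo {κ : Type} [BEq κ] (U : List κ) (r : List κ → κ → Bool) (m : ℕ) : List κ :=
  (fun S => U.filter fun k => S.contains k || r S k)^[m] []

theorem clo1 {κ : Type} [BEq κ] [LawfulBEq κ] {U : List κ} {r : List κ → κ → Bool} {I : κ → Prop}
    (h : ∀ S k, (∀ s ∈ S, I s) → r S k = true → I k) (m : ℕ) : ∀ k ∈ clo U r m, I k := by
  induction m with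
  | zero => simp [clo]
  | succ m ih =>
    intro k hk
    rw [clo, Function.iterate_succ_apply'] at hk
    rcases Bool.or_eq_true _ _ ▸ (List.mem_filter.1 hk).2 with e | e
    exacts [ih k (List.contains_iff_mem.1 e), h _ k ih e]

theorem clo2 {κ : Type} [BEq κ] [LawfulBEq κ] {U : List κ} {r : List κ → κ → Bool} {k : κ} (hk : k ∈ U)
    (h : r (clo U r U.length) k = true) : k ∈ clo U r U.length := by
  have e : ∀ m, clo U r (m + 1) = U.filter fun k => (clo U r m).contains k || r (clo U r m) k :=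
    fun m => Function.iterate_succ_apply' _ _ _
  have s : ∀ m, (clo U r m).Sublist (clo U r (m + 1)) := fun m => by
    cases m with
    | zero => simp [clo]
    | succ m =>
      have : clo U r (m + 1) = (clo U r (m + 1 + 1)).filter
          fun k => (clo U r m).contains k || r (clo U r m) k := by
        rw [e (m + 1), List.filter_filter]
        conv_lhs => rw [e m]
        refine List.filter_congr fun a ha => ?_
        cases h : (clo U r m).contains a || r (clo U r m) a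
        · rfl
        · rw [List.contains_iff_mem.2 (show a ∈ clo U r (m + 1) by
            rw [e m]; exact List.mem_filter.2 ⟨ha, h⟩)]
          rfl
      rw [this]
      exact List.filter_sublist
  have t : ∀ m, clo U r (m + 1) = clo U r m ∨ m < (clo U r (m + 1)).length := fun m => by
    induction m with
    | zero => cases clo U r 1 <;> simp [clo]
    | succ m ih =>
      rcases ih with ih | ih
      · exact .inl (by rw [e (m + 1), ih, ← e, ih])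
      · by_cases c : (clo U r (m + 1)).length = (clo U r (m + 1 + 1)).length
        · exact .inl ((s _).eq_of_length c).symm
        · have := (s (m + 1)).length_le; omega
  have u := List.length_filter_le
    (fun k => (clo U r U.length).contains k || r (clo U r U.length) k) U
  rw [← e] at u
  rw [← (t _).resolve_right (by omega), e]
  simp [hk, h]

end Pool.Agent.H24.Per
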