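import Pool.Agent.H24.Per1

set_option autoImplicit false

namespace Pool.Agent.H24.Per
open Pool.Agent.H11.PT Relation Multiset

section
variable {p n K B : ℕ} {A : ℕ → ℕ → Prop} {Q : ℕ → ℕ → ℕ → Prop}

def Sub (A : ℕ → ℕ → Prop) (v c x : ℕ) : Prop :=
  ReflTransGen (fun a b => A a b ∧ ¬ (a = v ∧ b = c) ∧ ¬ (a = c ∧ b = v)) c x

def WW (A : ℕ → ℕ → Prop) (u v j : ℕ) : Set ℕ := {x | x = v ∨ ∃ c < j, c ≠ u ∧ A v c ∧ Sub A v c x}

def Tr (n : ℕ) (A : ℕ → ℕ → Prop) : Prop :=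
  ∀ v c, A v c → A c v ∧ v < n ∧ c < n ∧ ¬ Sub A v c v

variable {u v c d j x : ℕ}

theorem s1 (H : Tr n A) (h1 : A v c) (h2 : A c d) (hd : d ≠ v) (h : Sub A c d x) : Sub A v c x := by
  induction h with
  | refl => exact .single ⟨h2, fun e => (H _ _ h1).2.2.2 (e.1 ▸ .refl), fun e => hd e.2⟩
  | tail a b ih =>
    exact ih.tail ⟨b.1, fun e => (H _ _ h2).2.2.2 (e.2 ▸ a.tail b), fun e =>
      (H _ _ h2).2.2.2 (e.1 ▸ a)⟩

theorem s2 (H : Tr n A) {x y : ℕ} (h : x ∈ WW A u v n) (e : A x y) (e' : ¬ (x = v ∧ y = u)) :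
    y ∈ WW A u v n := by
  rcases h with rfl | ⟨c, h1, h2, h3, h4⟩
  · exact .inr ⟨y, (H _ _ e).2.2.1, fun h => e' ⟨rfl, h⟩, e, .refl⟩
  · by_cases a : x = v ∧ y = c
    · exact .inr ⟨c, h1, h2, h3, a.2 ▸ .refl⟩
    by_cases b : x = c ∧ y = v
    · exact .inl b.2
    · exact .inr ⟨c, h1, h2, h3, h4.tail ⟨e, a, b⟩⟩

theorem s3 (H : Tr n A) (h : A v c) : x ∈ WW A v c n ↔ Sub A v c x := by
  refine ⟨?_, fun h => ?_⟩
  · rintro (rfl | ⟨d, -, h2, h3, h4⟩)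
    exacts [.refl, s1 H h h3 h2 h4]
  · induction h with
    | refl => exact .inl rfl
    | tail _ b ih => exact s2 H ih b.1 b.2.2

theorem s4 (H : Tr n A) (h : A v j) (hx : x ∈ WW A u v j) : x ∉ WW A v j n := fun h2 => by
  rw [s3 H h] at h2
  refine (H _ _ h).2.2.2 ?_
  rcases hx with rfl | ⟨c, h1, -, h3, h4⟩
  · exact h2
  · have := s1 H (H _ _ h).1 h3 h1.ne h4
    refine h2.trans ?_
    clear h2 h4
    induction this with
    | refl => exact .refl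
    | tail _ b ih => exact .head ⟨(H _ _ b.1).1, by tauto⟩ ih

theorem s5 (H : Tr n A) (h : A v j) : ∀ x ∈ WW A u v j, ∀ z ∈ WW A v j n,
    (A x z ∨ A z x) → x = v ∧ z = j := fun x hx z hz e => by_contra fun k =>
  s4 H h hx (s2 H hz (e.elim (fun e => (H _ _ e).1) id) fun e => k e.symm)

theorem s6 (H : Tr n A) (h : A v j) (hu : j ≠ u) : WW A u v (j + 1) = WW A u v j ∪ WW A v j n := by
  ext x
  rw [Set.mem_union, s3 H h]
  simp only [WW, Set.mem_ofPred_eq, Nat.exists_lt_succ_right, or_assoc, h, hu, ne_eq,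
    not_false_eq_true, true_and]

theorem s7 (h : ¬ (j ≠ u ∧ A v j)) : WW A u v (j + 1) = WW A u v j := by
  ext x
  simp only [WW, Set.mem_ofPred_eq, Nat.exists_lt_succ_right]
  exact or_congr_right (or_iff_left fun k => h ⟨k.1, k.2.1⟩)

theorem s8 (H : Tr n A) (hv : v < n) (hx : x ∈ WW A u v j) : x < n := by
  rcases hx with rfl | ⟨c, -, -, h3, h4⟩
  · exact hv
  · rcases h4.cases_tail with rfl | ⟨_, _, h⟩
    exacts [(H _ _ h3).2.2.1, (H _ _ h.1).2.2.1]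

def Rule (p n : ℕ) (A : ℕ → ℕ → Prop) (Q : ℕ → ℕ → ℕ → Prop)
    (T : ℕ → ℕ → ℕ → Multiset (ℕ × ℕ) → ℕ → Prop) (u v j : ℕ) (M : Multiset (ℕ × ℕ)) (τ : ℕ) : Prop :=
  (j = 0 ∧ M = 0 ∧ τ = 0) ∨ ∃ j1 M1 τ1, T u v j1 M1 τ1 ∧
    ((j1 = j ∧ ((∃ a < p, (M = (a, (a + 1) % p) ::ₘ M1 ∧ τ = τ1 + 1) ∨
      (M = (a, a) ::ₘ M1 ∧ τ = τ1) ∨ (M = (a, p) ::ₘ M1 ∧ τ = τ1)) ∨ (τ = τ1 ∧ Cc p M1 M))) ∨
    (j = j1 + 1 ∧ ((¬ (j1 ≠ u ∧ A v j1) ∧ M = M1 ∧ τ = τ1) ∨ (A v j1 ∧ ∃ M2 τ2, T v j1 n M2 τ2 ∧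
      M2 ≠ 0 ∧ (∀ t ∈ M2, Lf p Q v j1 t) ∧ M = M1 + M2.map (lf p) ∧
        τ = τ1 + τ2 + (M2.map (cost p)).sum))))

variable {T : ℕ → ℕ → ℕ → Multiset (ℕ × ℕ) → ℕ → Prop} {M : Multiset (ℕ × ℕ)} {τ : ℕ}

theorem sound (H : Tr n A)
    (hT : ∀ u v j M τ, T u v j M τ → Real p A Q Set.univ v M τ (WW A u v j \ {v}))
    (h : Rule p n A Q T u v j M τ) : Real p A Q Set.univ v M τ (WW A u v j \ {v}) := by
  rcases h with ⟨rfl, rfl, rfl⟩ | ⟨j1, M1, τ1, h, ⟨rfl, ⟨a, ha, ⟨rfl, rfl⟩ | ⟨rfl, rfl⟩ |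
    ⟨rfl, rfl⟩⟩ | ⟨rfl, e⟩⟩ | ⟨rfl, ⟨e, rfl, rfl⟩ | ⟨e, M2, τ2, h2, h3, h4, rfl, rfl⟩⟩⟩
  · exact real0.2 ⟨rfl, by simp [WW]⟩
  · exact ((hT _ _ _ _ _ h).cons (t := (a, _)) (L := [v])
      (.st ha (Set.mem_univ _) (.inl rfl) (.cl (Nat.mod_lt _ (by omega))))).mono Set.subset_union_left
  · exact ((hT _ _ _ _ _ h).cons (t := (a, a)) (.cl ha)).mono Set.subset_union_left
  · exact ((hT _ _ _ _ _ h).cons (t := (a, p)) (.op ha)).mono Set.subset_union_left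
  · exact (hT _ _ _ _ _ h).cc e
  · rw [s7 e]; exact hT _ _ _ _ _ h
  · rw [add_assoc]
    refine ((hT _ _ _ _ _ h).add ((hT _ _ _ _ _ h2).lift e (H _ _ e).1 h4)).mono fun x hx => ?_
    by_cases k : j1 = u
    · rw [s7 (by simp [k])] at hx
      exact .inl hx
    · rw [s6 H e k] at hx
      simp only [Set.mem_sdiff, Set.mem_union, Set.mem_ofPred_eq, Set.mem_singleton_iff] at hx ⊢
      tauto

theorem cost_ge (M : Multiset (ℕ × ℕ)) : card M ≤ (M.map (cost p)).sum := by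
  induction M using Multiset.induction_on with
  | empty => simp
  | cons t M ih => rw [card_cons, map_cons, sum_cons, cost]; split_ifs <;> omega

theorem complete (H : Tr n A) (hT : ∀ u < n, ∀ v < n, ∀ j ≤ n, ∀ M τ, card M ≤ 3 * B + 2 →
    τ ≤ 3 * B + 2 → (∀ t ∈ M, t.1 < p ∧ t.2 ≤ p) → Rule p n A Q T u v j M τ → T u v j M τ) :
    ∀ m, ∀ u < n, ∀ v < n, ∀ j ≤ n, (WW A u v j).ncard * (n + 1) + j = m → ∀ M τ,
      Real p A Q (WW A u v j) v M τ (WW A u v j \ {v}) → card M + τ ≤ B → T u v j M τ := by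
  have cc : ∀ u < n, ∀ v < n, ∀ j ≤ n, ∀ τ ≤ 3 * B + 2, ∀ N M, ReflTransGen (Cc p) N M →
      T u v j N τ → card N ≤ 3 * B + 2 → (∀ t ∈ N, t.1 < p ∧ t.2 ≤ p) → T u v j M τ := by
    intro u hu v hv j hj τ hτ N M h
    induction h using ReflTransGen.head_induction_on with
    | refl => exact fun h _ _ => h
    | head h _ ih =>
      intro h1 h2 h3
      obtain ⟨a, b, c, X, hb, rfl, rfl⟩ := id h
      have k1 : card ((a, c) ::ₘ X) ≤ 3 * B + 2 := by simp at h2 ⊢; omega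
      have k2 : ∀ t ∈ (a, c) ::ₘ X, t.1 < p ∧ t.2 ≤ p := by
        simp only [forall_mem_cons] at h3 ⊢; tauto
      exact ih (hT u hu v hv j hj _ _ k1 hτ k2 (.inr ⟨j, _, τ, h1, .inl ⟨rfl, .inr ⟨rfl, h⟩⟩⟩)) k1 k2
  intro m
  induction m using Nat.strong_induction_on with
  | _ m ih =>
  intro u hu v hv j hj hm M τ h hB
  rcases j with _ | j
  · generalize WW A u v 0 \ {v} = C at h
    have e : WW A u v 0 = {v} := by simp [WW]
    rw [e] at h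
    clear hm ih
    induction M using Multiset.induction_on generalizing τ C with
    | empty =>
      exact hT u hu v hv 0 hj _ _ (by simp) (by omega) (by simp) (.inl ⟨rfl, rfl, (real0.1 h).1⟩)
    | cons t M ih =>
      obtain ⟨L, τ', a1, rfl, a2⟩ := real1.1 h
      rw [card_cons] at hB
      have a3 := ih τ' (by omega) _ a2
      have a4 := a2.sub.2
      have : ∀ a x L b, Wk p A Q ({v} : Set ℕ) v a x L b → x = v → τ' + L.length ≤ B →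
          T u v 0 ((a, b) ::ₘ M) (τ' + L.length) := by
        intro a x L b h
        induction h with
        | cl h =>
          exact fun _ _ => hT u hu v hv 0 hj _ _ (by simp; omega) (by omega)
            (forall_mem_cons.2 ⟨⟨h, h.le⟩, a4⟩)
            (.inr ⟨0, M, τ', a3, .inl ⟨rfl, .inl ⟨_, h, .inr (.inl ⟨rfl, rfl⟩)⟩⟩⟩)
        | op h =>
          exact fun _ _ => hT u hu v hv 0 hj _ _ (by simp; omega) (by omega)
            (forall_mem_cons.2 ⟨⟨h, le_rfl⟩, a4⟩)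
            (.inr ⟨0, M, τ', a3, .inl ⟨rfl, .inl ⟨_, h, .inr (.inr ⟨rfl, rfl⟩)⟩⟩⟩)
        | @st a x z b L h h1 _ w ih =>
          intro _ k
          rw [List.length_cons] at k ⊢
          have k2 : ∀ t ∈ (a, (a + 1) % p) ::ₘ ((a + 1) % p, b) ::ₘ M, t.1 < p ∧ t.2 ≤ p :=
            forall_mem_cons.2 ⟨⟨h, w.lt.1.le⟩, forall_mem_cons.2 ⟨⟨w.lt.1, w.lt.2.1⟩, a4⟩⟩
          exact cc u hu v hv 0 hj _ (by omega) _ _ (.single ⟨a, _, b, M, w.lt.1, rfl, rfl⟩)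
            (hT u hu v hv 0 hj _ _ (by simp; omega) (by omega) k2 (.inr ⟨0, _, _, ih h1 (by omega),
              .inl ⟨rfl, .inl ⟨a, h, .inl ⟨rfl, rfl⟩⟩⟩⟩)) (by simp; omega) k2
      exact this _ _ _ _ a1 rfl (by omega)
  by_cases e : j ≠ u ∧ A v j
  swap
  · rw [s7 e] at h hm
    exact hT u hu v hv _ hj _ _ (by omega) (by omega) h.sub.2 (.inr ⟨j, M, τ,
      ih _ (by omega) u hu v hv j (by omega) rfl M τ h hB, .inr ⟨rfl, .inl ⟨e, rfl, rfl⟩⟩⟩)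
  obtain ⟨e1, e⟩ := e
  rw [s6 H e e1] at h hm
  obtain ⟨N, ⟨M1, τ1, C1, M2, τ2, C2, b1, b2, b3, rfl, rfl, b6, b7⟩, r⟩ :=
    splitR (fun x => s4 H e) (.inl rfl) (s5 H e) h
  have c0 := cost_ge (p := p) M2
  have hj' := (H _ _ e).2.2.1
  have f1 : (WW A u v j).Finite := (Set.finite_lt_nat n).subset fun x => s8 H hv
  have f2 : (WW A v j n).Finite := (Set.finite_lt_nat n).subset fun x => s8 H hj'
  rw [Set.ncard_union_eq (Set.disjoint_left.2 fun x => s4 H e) f1 f2, add_mul] at hm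
  have f3 : 1 * (n + 1) ≤ (WW A u v j).ncard * (n + 1) :=
    Nat.mul_le_mul_right _ ((Set.ncard_pos f1).2 ⟨v, .inl rfl⟩)
  have d1 : ∀ x ∈ WW A u v j, x ≠ j := fun x hx k => s4 H e hx (.inl k)
  have d2 : ∀ x ∈ WW A v j n, x ≠ v := fun x hx k => s4 (u := u) H e (.inl k) hx
  have k1 := ih _ (by omega) u hu v hv j (by omega) rfl M1 τ1 (b1.mono fun x hx => by
    rcases b7 x ⟨.inl hx.1, hx.2⟩ with k | k | k | k
    exacts [k, absurd (b2.sub.1 k) (s4 H e hx.1), absurd k hx.2, absurd k.1 (d1 x hx.1)]) (by omega)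
  have k2 := ih _ (by omega) v hv j hj' n le_rfl rfl M2 τ2 (b2.mono fun x hx => by
    rcases b7 x ⟨.inr hx.1, d2 x hx.1⟩ with k | k | k | k
    exacts [absurd hx.1 (s4 H e (b1.sub.1 k)), k, absurd k (d2 x hx.1), absurd k.1 hx.2]) (by omega)
  have k3 : M2 ≠ 0 := by
    rcases b7 j ⟨.inr (.inl rfl), d2 j (.inl rfl)⟩ with k | k | k | k
    · exact absurd rfl (d1 j (b1.sub.1 k))
    · rintro rfl
      simp [(real0.1 b2).2] at k
    · exact absurd k (d2 j (.inl rfl))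
    · exact k.2
  have k4 : ∀ t ∈ M1 + M2.map (lf p), t.1 < p ∧ t.2 ≤ p := fun t ht => by
    rcases mem_add.1 ht with ht | ht
    · exact b1.sub.2 t ht
    · obtain ⟨s, hs, rfl⟩ := mem_map.1 ht
      have := (b2.sub.2 s hs).1
      refine ⟨Nat.mod_lt _ (by omega), ?_⟩
      simp only [lf, up]
      split_ifs
      exacts [le_rfl, (Nat.mod_lt _ (by omega)).le]
  exact cc u hu v hv _ hj _ (by omega) _ _ r (hT u hu v hv _ hj _ _ (by simp; omega) (by omega) k4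
    (.inr ⟨j, M1, τ1, k1, .inr ⟨rfl, .inr ⟨e, M2, τ2, k2, k3, b3, rfl, rfl⟩⟩⟩)) (by simp; omega) k4

end

end Pool.Agent.H24.Per
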