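import Pool.Agent.H24.Per2

set_option autoImplicit false

namespace Pool.Agent.H24.Per
open Pool.Agent.H11.PT Pool.Agent.H24.Bz Relation Multiset
open Pool.Agent.H24.Plt (ad ad_iff ad_comm)

def adb (y : Inp) (u v : ℕ) : Bool := decide (u < y.1.1) && decide (v < y.1.1) && ad y.1 u v
def prb (y : Inp) (r u v : ℕ) : Bool :=
  (y.2.2.getD r []).contains (u, v) || (y.2.2.getD r []).contains (v, u)
def AA (y : Inp) (u v : ℕ) : Prop := adb y u v = true

theorem prb_iff (y : Inp) (r u v : ℕ) : prb y r u v = true ↔ Pres y r u v := by simp [prb, Pres]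

theorem AA_iff (y : Inp) (u v : Fin y.1.1) : AA y u v ↔ (gr y.1.1 y.1.2).Adj u v := by
  simp [AA, adb, ad_iff]

abbrev Ty := List (ℕ × ℕ)
abbrev Key := ℕ × ℕ × ℕ × Ty × ℕ

def pm (l l' : Ty) : Bool := (l ++ l').all fun a => l.count a == l'.count a

theorem pm_iff (l l' : Ty) : pm l l' = true ↔ (l : Multiset (ℕ × ℕ)) = l' := by
  simp only [pm, List.all_eq_true, beq_iff_eq, coe_eq_coe, List.perm_iff_count]
  refine ⟨fun h a => ?_, fun h a _ => h a⟩
  by_cases e : a ∈ l ++ l'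
  · exact h a e
  · rw [List.mem_append, not_or] at e
    rw [List.count_eq_zero_of_not_mem e.1, List.count_eq_zero_of_not_mem e.2]

def ccB (p : ℕ) (l1 l : Ty) : Bool :=
  l.any fun t => (List.range p).any fun b => pm (t :: l1) ((t.1, b) :: (b, t.2) :: l)

theorem ccB_iff (p : ℕ) (l1 l : Ty) : ccB p l1 l = true ↔ Cc p l1 l := by
  simp only [ccB, List.any_eq_true, List.mem_range, pm_iff, ← cons_coe]
  constructor
  · rintro ⟨⟨a, c⟩, h, b, hb, e⟩
    obtain ⟨X, h⟩ := exists_cons_of_mem (mem_coe.2 h)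
    rw [h, cons_swap (b, c), cons_swap (a, b), cons_inj_right] at e
    exact ⟨a, b, c, X, hb, e, h⟩
  · rintro ⟨a, b, c, X, hb, e1, e2⟩
    exact ⟨(a, c), mem_coe.1 (e2 ▸ mem_cons_self _ _), b, hb, by
      rw [e1, e2, cons_swap (b, c) (a, c), cons_swap (a, b) (a, c)]⟩

def rb (p : ℕ) (y : Inp) (S : List Key) (k : Key) : Bool :=
  (k.2.2.1 == 0 && pm k.2.2.2.1 [] && k.2.2.2.2 == 0) || S.any fun s =>
    s.1 == k.1 && s.2.1 == k.2.1 && ((s.2.2.1 == k.2.2.1 && (((List.range p).any fun a =>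
      (pm k.2.2.2.1 ((a, (a + 1) % p) :: s.2.2.2.1) && k.2.2.2.2 == s.2.2.2.2 + 1) ||
      ((pm k.2.2.2.1 ((a, a) :: s.2.2.2.1) && k.2.2.2.2 == s.2.2.2.2) ||
      (pm k.2.2.2.1 ((a, p) :: s.2.2.2.1) && k.2.2.2.2 == s.2.2.2.2))) ||
      (k.2.2.2.2 == s.2.2.2.2 && ccB p s.2.2.2.1 k.2.2.2.1))) ||
    (k.2.2.1 == s.2.2.1 + 1 && ((!(s.2.2.1 != k.1 && adb y k.2.1 s.2.2.1) &&
      (pm k.2.2.2.1 s.2.2.2.1 && k.2.2.2.2 == s.2.2.2.2)) || (adb y k.2.1 s.2.2.1 && S.any fun r =>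
        r.1 == k.2.1 && r.2.1 == s.2.2.1 && r.2.2.1 == y.1.1 && (!pm r.2.2.2.1 [] &&
        ((r.2.2.2.1.all fun t => prb y ((t.1 + p - 1) % p) k.2.1 s.2.2.1 &&
          (t.2 == p || prb y t.2 s.2.2.1 k.2.1)) &&
        (pm k.2.2.2.1 (s.2.2.2.1 ++ r.2.2.2.1.map (lf p)) &&
        k.2.2.2.2 == s.2.2.2.2 + r.2.2.2.2 + (r.2.2.2.1.map (cost p)).sum)))))))

def TS (S : List Key) (u v j : ℕ) (M : Multiset (ℕ × ℕ)) (τ : ℕ) : Prop :=
  ∃ l : Ty, (l : Multiset (ℕ × ℕ)) = M ∧ (u, v, j, l, τ) ∈ S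

theorem rb_iff (p : ℕ) (y : Inp) (S : List Key) (u v j : ℕ) (l : Ty) (τ : ℕ) :
    rb p y S (u, v, j, l, τ) = true ↔ Rule p y.1.1 (AA y) (Pres y) (TS S) u v j l τ := by
  simp only [rb, Rule, Bool.or_eq_true, Bool.and_eq_true, beq_iff_eq, List.any_eq_true, pm_iff,
    ccB_iff, List.mem_range, List.all_eq_true, prb_iff, Bool.not_eq_eq_eq_not, Bool.not_true,
    ← Bool.not_eq_true, bne_iff_ne, ← cons_coe, ← coe_add, ← map_coe, coe_nil, ← sum_coe, AA,
    and_assoc (a := j = 0)]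
  refine or_congr_right ⟨?_, ?_⟩
  · rintro ⟨⟨_, _, j1, l1, τ1⟩, h, ⟨rfl, rfl⟩, h2⟩
    refine ⟨j1, l1, τ1, ⟨l1, rfl, h⟩, h2.imp_right (And.imp_right (Or.imp_right (And.imp_right ?_)))⟩
    rintro ⟨⟨_, _, _, l2, τ2⟩, h', ⟨⟨rfl, rfl⟩, rfl⟩, h2⟩
    exact ⟨l2, τ2, ⟨l2, rfl, h'⟩, h2⟩
  · rintro ⟨j1, _, τ1, ⟨l1, rfl, h⟩, h2⟩
    refine ⟨_, h, ⟨rfl, rfl⟩, h2.imp_right (And.imp_right (Or.imp_right (And.imp_right ?_)))⟩
    rintro ⟨_, τ2, ⟨l2, rfl, h⟩, h2⟩
    exact ⟨_, h, ⟨⟨rfl, rfl⟩, rfl⟩, h2⟩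

def can : Ty → ℕ → List Ty
  | [], _ => [[]]
  | t :: T, K => (List.range (K + 1) ×ˢ can T K).map fun q => List.replicate q.1 t ++ q.2

theorem pt_can (T : Ty) : PT (can T) := by
  induction T with
  | nil => exact PT.const _
  | cons t T ih =>
    change PT fun K => (List.range (K + 1) ×ˢ can T K).map fun q => List.replicate q.1 t ++ q.2
    fun_prop

theorem can_ex (T : Ty) (K : ℕ) : ∀ M : Multiset (ℕ × ℕ), (∀ t ∈ M, t ∈ T) → card M ≤ K →
    ∃ l ∈ can T K, (l : Multiset (ℕ × ℕ)) = M := by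
  induction T with
  | nil => exact fun M h _ => ⟨[], by simp [can], (eq_zero_of_forall_notMem (by simpa using h)).symm⟩
  | cons t T ih =>
    intro M h hK
    obtain ⟨l, h1, h2⟩ := ih (M.filter (¬ · = t)) (fun s hs => (List.mem_cons.1
      (h s (mem_filter.1 hs).1)).resolve_left (mem_filter.1 hs).2)
      ((card_le_card (filter_le _ _)).trans hK)
    refine ⟨_, List.mem_map.2 ⟨(M.count t, l), List.mem_product.2 ⟨List.mem_range.2
      (Nat.lt_succ_of_le ((count_le_card _ _).trans hK)), h1⟩, rfl⟩, ?_⟩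
    rw [← coe_add, coe_replicate, h2, ← filter_eq', filter_add_not]

def bb (p : ℕ) (y : Inp) : ℕ := p * y.1.1 * y.1.1 + 1

def UU (p : ℕ) (y : Inp) : List Key := List.range y.1.1 ×ˢ List.range y.1.1 ×ˢ
  List.range (y.1.1 + 1) ×ˢ can (List.range p ×ˢ List.range (p + 1)) (3 * bb p y + 2) ×ˢ
    List.range (3 * bb p y + 2 + 1)

def fx (p : ℕ) (y : Inp) : List Key := clo (UU p y) (rb p y) (UU p y).length

def alg (p : ℕ) (y : Inp) : ℕ := ((List.range (bb p y)).find? fun τ =>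
  (fx p y).contains (y.2.1, y.2.1, y.1.1, [(0, p)], τ)).getD 0

theorem pt_alg (p : ℕ) : PT (alg p) := by
  have h0 : PT (bb p) := by unfold bb; fun_prop
  have h1 : PT (UU p) := by
    have := pt_can (List.range p ×ˢ List.range (p + 1))
    unfold UU; fun_prop
  have h2 : PT fun q : (Inp × List Key) × Key => rb p q.1.1 q.1.2 q.2 := by
    unfold rb ccB pm adb prb ad lf cost up; fun_prop
  have h3 : PT (fx p) := PT.iterate
    (g := fun y S => (UU p y).filter fun k => S.contains k || rb p y S k) (PT.length h1)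
    (PT.const _) (PT.filter (by fun_prop) (PT.or (by fun_prop) h2))
    (fun y S => S.Sublist (UU p y)) _ h1 (fun _ => List.nil_sublist _)
    (fun _ _ _ => List.filter_sublist) fun _ _ => sz_sublist
  have h4 : PT fun y => (y, fx p y) := PT.pair PT.id h3
  exact PT.comp (f := fun q : Inp × List Key => ((List.range (bb p q.1)).find? fun τ =>
    q.2.contains (q.1.2.1, q.1.2.1, q.1.1.1, [(0, p)], τ)).getD 0) (by fun_prop) h4

variable {p : ℕ} {y : Inp}

theorem tr (h : (gr y.1.1 y.1.2).IsAcyclic) : Tr y.1.1 (AA y) := fun v c e => by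
  have k : ∀ a b, AA y a b → a < y.1.1 ∧ b < y.1.1 := fun a b h => by
    simp only [AA, adb, Bool.and_eq_true, decide_eq_true_eq] at h; exact h.1
  obtain ⟨hv, hc⟩ := k _ _ e
  have e' := (AA_iff y ⟨v, hv⟩ ⟨c, hc⟩).1 e
  refine ⟨(AA_iff y ⟨c, hc⟩ ⟨v, hv⟩).2 e'.symm, hv, hc, fun s => ?_⟩
  have : ∀ x, Sub (AA y) v c x → ∀ hx, ((gr y.1.1 y.1.2).deleteEdges
      {s(⟨v, hv⟩, ⟨c, hc⟩)}).Reachable ⟨c, hc⟩ ⟨x, hx⟩ := fun x s => by
    induction s with
    | refl => exact fun _ => .rfl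
    | tail _ b ih =>
      refine fun hx => (ih (k _ _ b.1).1).trans (SimpleGraph.Adj.reachable ?_)
      simpa [Fin.ext_iff, not_or] using And.intro ((AA_iff y ⟨_, (k _ _ b.1).1⟩ ⟨_, hx⟩).1 b.1) b.2
  exact SimpleGraph.isAcyclic_iff_forall_adj_isBridge.1 h e' (this v s hv).symm

theorem cov_iff (hp : 0 < p) (hs : y.2.1 < y.1.1) (τ : ℕ) : Cov p y τ ↔ ∃ L, L.length = τ ∧
    Wk p (AA y) (Pres y) {x | x < y.1.1} y.2.1 0 y.2.1 L p ∧ ∀ x < y.1.1, x = y.2.1 ∨ x ∈ L := by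
  constructor
  · rintro ⟨w, h0, h1, h2⟩
    have : ∀ k i, i + k ≤ τ → Wk p (AA y) (Pres y) {x | x < y.1.1} y.2.1 (i % p) (w i)
        ((List.range' (i + 1) k).map fun j => (w j).1) p := fun k => by
      induction k with
      | zero => exact fun i _ => .op (Nat.mod_lt _ hp)
      | succ k ih =>
        intro i hi
        refine .st (Nat.mod_lt _ hp) (w _).2 ((h1 i (by omega)).imp (congrArg _)
          (And.imp_left (AA_iff y _ _).2)) ?_
        rw [Nat.mod_add_mod]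
        exact ih (i + 1) (by omega)
    refine ⟨(List.range' 1 τ).map fun j => (w j).1, by simp,
      by simpa [h0] using this τ 0 (by omega), fun x hx => ?_⟩
    obtain ⟨i, hi, e⟩ := h2 ⟨x, hx⟩
    rcases i with _ | i
    · exact .inl (by rw [← h0, e])
    · exact .inr (List.mem_map.2 ⟨i + 1, by simp; omega, by rw [e]⟩)
  · rintro ⟨L, rfl, h1, h2⟩
    have : ∀ a x L b, Wk p (AA y) (Pres y) {x | x < y.1.1} y.2.1 a x L b → ∀ hx : x < y.1.1,
        ∀ t, t % p = a → ∃ w : ℕ → Fin y.1.1, w 0 = ⟨x, hx⟩ ∧ (∀ i < L.length, w (i + 1) = w i ∨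
          ((gr y.1.1 y.1.2).Adj (w i) (w (i + 1)) ∧ Pres y ((t + i) % p) (w i) (w (i + 1)))) ∧
          ∀ z ∈ L, ∃ i ≤ L.length, (w i).1 = z := by
      intro a x L b h
      induction h with
      | cl => exact fun hx _ _ => ⟨fun _ => ⟨_, hx⟩, rfl, by simp, by simp⟩
      | op => exact fun hx _ _ => ⟨fun _ => ⟨_, hx⟩, rfl, by simp, by simp⟩
      | @st a x z b L h k1 k2 _ ih =>
        rintro hx t rfl
        obtain ⟨w, w1, w2, w3⟩ := ih k1 (t + 1) (Nat.mod_add_mod _ _ _).symm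
        refine ⟨fun i => Nat.casesOn i ⟨x, hx⟩ w, rfl, ?_, ?_⟩
        · rintro (_ | i) hi
          · simp only [zero_add, w1]
            exact k2.imp Fin.ext (And.imp_left (AA_iff y ⟨_, hx⟩ ⟨_, k1⟩).1)
          · simpa [add_assoc, add_comm 1 i] using w2 i (by simpa using hi)
        · intro z hz
          rcases List.mem_cons.1 hz with rfl | hz
          · exact ⟨1, by simp, by simp [w1]⟩
          · obtain ⟨i, hi, e⟩ := w3 z hz
            exact ⟨i + 1, by simpa, e⟩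
    obtain ⟨w, w1, w2, w3⟩ := this _ _ _ _ h1 hs 0 (Nat.zero_mod _)
    refine ⟨w, by rw [w1], by simpa using w2, fun v => ?_⟩
    rcases h2 v v.2 with e | e
    · exact ⟨0, by simp, Fin.ext (by rw [w1, e])⟩
    · exact (w3 _ e).imp fun i hi => ⟨hi.1, Fin.ext hi.2⟩

theorem bound (hp : 0 < p) (hy : Valid p y) : ∃ τ < bb p y, Cov p y τ := by
  obtain ⟨h1, h2, h3⟩ := hy
  have wt : ∀ x < y.1.1, ∀ k, ∀ a < p, Wk p (AA y) (Pres y) {x | x < y.1.1} x a x
      (List.replicate k x) ((a + k) % p) := fun x hx k => by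
    induction k with
    | zero => exact fun a ha => by simpa [Nat.mod_eq_of_lt ha] using Wk.cl ha
    | succ k ih =>
      intro a ha
      have := ih _ (Nat.mod_lt (a + 1) hp)
      rw [Nat.mod_add_mod, add_assoc, add_comm 1] at this
      exact .st ha hx (.inl rfl) this
  have go : ∀ x z : Fin y.1.1, ∀ q : (gr y.1.1 y.1.2).Walk x z, ∀ a < p, ∃ L b, b < p ∧
      Wk p (AA y) (Pres y) {x | x < y.1.1} z a x L b ∧ L.length ≤ p * q.length ∧
        (z.1 = x ∨ z.1 ∈ L) := fun x z q => by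
    induction q with
    | nil => exact fun a ha => ⟨[], a, ha, .cl ha, by simp, .inl rfl⟩
    | @cons x u z e q ih =>
      intro a ha
      obtain ⟨r, hr, k⟩ := h3 _ _ e
      obtain ⟨L, b, b1, b2, b3, b4⟩ := ih _ (Nat.mod_lt (r + 1) hp)
      have := wt x x.2 ((r + p - a) % p) a ha
      rw [Nat.add_mod_mod, show a + (r + p - a) = r + p by omega, Nat.add_mod_right,
        Nat.mod_eq_of_lt hr] at this
      have l := Nat.mod_lt (r + p - a) hp
      refine ⟨_, b, b1, this.app hr (.st hr u.2 (.inr ⟨(AA_iff y _ _).2 e, k⟩) b2), ?_, .inr ?_⟩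
      · simp [mul_add]; omega
      · simp only [List.mem_append, List.mem_cons]; tauto
  have : ∀ m ≤ y.1.1, ∀ x : Fin y.1.1, ∀ a < p, ∃ L, L.length ≤ p * y.1.1 * m ∧
      Wk p (AA y) (Pres y) {x | x < y.1.1} y.2.1 a x L p ∧ ∀ z < m, z = x ∨ z ∈ L := fun m => by
    induction m with
    | zero => exact fun _ x a ha => ⟨[], by simp, .op ha, by simp⟩
    | succ m ih =>
      intro hm x a ha
      obtain ⟨q, hq⟩ := h1.connected.exists_isPath x ⟨m, hm⟩
      obtain ⟨L, b, b1, b2, b3, b4⟩ := go _ _ q a ha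
      obtain ⟨L', c1, c2, c3⟩ := ih (by omega) ⟨m, hm⟩ b b1
      have := Nat.mul_le_mul_left p hq.length_lt.le
      refine ⟨L ++ L', by simp [mul_add] at this ⊢; omega, b2.app b1 c2, fun z hz => ?_⟩
      have := c3 z
      simp only [List.mem_append] at *
      rcases Nat.lt_succ_iff_lt_or_eq.1 hz with e | rfl
      · rcases this e with rfl | k <;> tauto
      · tauto
  obtain ⟨L, a1, a2, a3⟩ := this _ le_rfl ⟨_, h2⟩ 0 hp
  exact ⟨_, Nat.lt_succ_of_le a1, (cov_iff hp h2 _).2 ⟨L, rfl, a2, a3⟩⟩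

theorem Wk.fin {v a x b : ℕ} {L : List ℕ} (H : Tr y.1.1 (AA y))
    (h : Wk p (AA y) (Pres y) Set.univ v a x L b) (hx : x < y.1.1) :
    Wk p (AA y) (Pres y) {x | x < y.1.1} v a x L b := by
  induction h with
  | cl h => exact .cl h
  | op h => exact .op h
  | st h _ h2 _ ih =>
    have := h2.elim (fun e => e ▸ hx) fun e => (H _ _ e.1).2.2.1
    exact .st h this h2 (ih this)

theorem main (hp : 0 < p) (hy : Valid p y) : IsLeast {τ | Cov p y τ} (alg p y) := by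
  have H := tr hy.1.isAcyclic
  have hs := hy.2.1
  have hW : WW (AA y) y.2.1 y.2.1 y.1.1 = {x | x < y.1.1} := by
    refine Set.ext fun x => ⟨s8 H hs, fun hx => ?_⟩
    have : ∀ z, ReflTransGen (gr y.1.1 y.1.2).Adj ⟨_, hs⟩ z → z.1 ∈ WW (AA y) y.2.1 y.2.1 y.1.1 :=
      fun z h => by
        induction h with
        | refl => exact .inl rfl
        | tail _ b ih => exact s2 H ih ((AA_iff y _ _).2 b) fun e => b.ne (Fin.ext (e.1.trans e.2.symm))
    exact this ⟨x, hx⟩ ((SimpleGraph.reachable_iff_reflTransGen _ _).1 (hy.1.connected _ _))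
  have key : ∀ τ < bb p y, Cov p y τ ↔ (y.2.1, y.2.1, y.1.1, [(0, p)], τ) ∈ fx p y := fun τ hτ => by
    rw [cov_iff hp hs]
    constructor
    · rintro ⟨L, rfl, h1, h2⟩
      obtain ⟨l, e, m⟩ := complete (p := p) (B := bb p y) (Q := Pres y) (T := TS (fx p y)) H
        (fun u hu v hv j hj M τ a1 a2 a3 a4 => by
          obtain ⟨l, l1, rfl⟩ := can_ex (List.range p ×ˢ List.range (p + 1)) _ M
            (fun ⟨a, b⟩ ht => by simpa [Nat.lt_succ_iff] using a3 _ ht) a1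
          exact ⟨l, rfl, clo2 (U := UU p y) (r := rb p y) (by simp [UU, *, Nat.lt_succ_iff]) ((rb_iff _ _ _ _ _ _ _ _).2 a4)⟩)
        _ _ hs _ hs _ le_rfl rfl {(0, p)} L.length (real1.2 ⟨L, 0, hW ▸ h1, by simp,
          real0.2 ⟨rfl, Set.eq_empty_of_forall_notMem fun x hx =>
            (h2 x (hW ▸ hx.1.1 :)).elim hx.1.2 hx.2⟩⟩) (by simp; omega)
      rwa [coe_eq_singleton.1 e] at m
    · intro h
      have := clo1 (U := UU p y) (r := rb p y) (I := fun k : Key => Real p (AA y) (Pres y) Set.univ k.2.1 k.2.2.2.1 k.2.2.2.2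
        (WW (AA y) k.1 k.2.1 k.2.2.1 \ {k.2.1})) (fun S k h1 h2 => sound H
          (fun u v j M τ ⟨l, e, m⟩ => e ▸ h1 _ m) ((rb_iff _ _ _ _ _ _ _ _).1 h2)) _ _ h
      obtain ⟨L, τ', a1, a2, a3⟩ := (real1 (t := (0, p)) (M := 0)).1 this
      obtain ⟨rfl, a4⟩ := real0.1 a3
      refine ⟨L, by simpa using a2.symm, a1.fin H hs, fun x hx => by_contra fun k => ?_⟩
      rw [not_or] at k
      exact Set.eq_empty_iff_forall_notMem.1 a4 x ⟨⟨hW ▸ hx, k.1⟩, k.2⟩
  obtain ⟨τ, h1, h2⟩ := bound hp hy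
  obtain ⟨σ, e⟩ := Option.isSome_iff_exists.1 ((List.find?_isSome (p := fun τ =>
    (fx p y).contains (y.2.1, y.2.1, y.1.1, [(0, p)], τ))).2 ⟨τ, List.mem_range.2 h1,
    List.contains_iff_mem.2 ((key τ h1).1 h2)⟩)
  rw [alg, e]
  obtain ⟨e1, e2, e3⟩ := List.find?_range_eq_some.1 e
  have e2 := List.mem_range.1 e2
  refine ⟨(key σ e2).2 (List.contains_iff_mem.1 e1), fun ρ hρ => not_lt.1 fun h => ?_⟩
  simpa [(key ρ (h.trans e2)).1 hρ] using e3 ρ h

end Pool.Agent.H24.Per
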