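import Pool.Agent.H24.Per3
import Pool.Agent.H25.CBase

set_option autoImplicit false

namespace Pool.Agent.H24.Per
open Pool.Agent.H11.PT Pool.Agent.H25.CB Relation
open Pool.Agent.H24.Plt (ad)

def NN (φ : F3) : ℕ := nv φ + φ.length + 1
def tm (φ : F3) (i q : ℕ) : ℕ := (i * (2 * φ.length + 3) + q + 1) * (NN φ + 2)
def ev (φ : F3) (o : ℕ) : ℕ := bif (lit φ o).2 then o / 3 + 1 else φ.length + 2 + o / 3
def lab (φ : F3) (t a : ℕ) : Bool := (decide (a < nv φ) && (t == tm φ a 0 ||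
  t == tm φ a (φ.length + 1) || t == tm φ a (2 * φ.length + 2))) ||
  ((List.range (3 * φ.length)).any fun o => a == nv φ + o / 3 &&
    (t == tm φ (lit φ o).1 (ev φ o) || t == tm φ (lit φ o).1 (ev φ o) + 1)) ||
  (a + 1 == NN φ && t == tm φ (nv φ) 0)
def spn (φ : F3) : List (ℕ × ℕ) := (List.range (NN φ - 1)).map fun a => (a, a + 1)
def red (φ : F3) : Inp × ℕ :=
  (((2 * NN φ, spn φ ++ (List.range (NN φ)).map fun a => (a, NN φ + a)), 0,
    (List.range (tm φ (nv φ) 0 + 1)).map fun t =>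
      spn φ ++ ((List.range (NN φ)).filter (lab φ t)).map fun a => (a, NN φ + a)),
   tm φ (nv φ) 0 + 1)

theorem pt_red : PT red := by unfold red spn lab ev tm NN; fun_prop

variable {φ : F3}

theorem tm1 (i : ℕ) {q q' : ℕ} (h : q < q') : tm φ i q + (NN φ + 2) ≤ tm φ i q' := by
  unfold tm
  rw [← add_one_mul]
  exact Nat.mul_le_mul_right _ (by omega)

theorem tm2 (i : ℕ) : tm φ i (2 * φ.length + 3) = tm φ (i + 1) 0 := by
  unfold tm; ring

theorem tm3 {i j q : ℕ} (h : i < j) (hq : q < 2 * φ.length + 3) :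
    tm φ i q + (NN φ + 2) ≤ tm φ j 0 := by
  have := Nat.mul_le_mul_right (2 * φ.length + 3) (show i + 1 ≤ j from h)
  unfold tm
  rw [← add_one_mul]
  exact Nat.mul_le_mul_right _ (by rw [add_mul] at this; omega)

theorem aa (u v : ℕ) : AA (red φ).1 u v ↔ (u + 1 = v ∧ v < NN φ) ∨ (v + 1 = u ∧ u < NN φ) ∨
    (u < NN φ ∧ v = NN φ + u) ∨ (v < NN φ ∧ u = NN φ + v) := by
  simp [AA, adb, ad, red, spn]
  omega

theorem pr {t : ℕ} (ht : t ≤ tm φ (nv φ) 0) (u v : ℕ) : Pres (red φ).1 t u v ↔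
    (u + 1 = v ∧ v < NN φ) ∨ (v + 1 = u ∧ u < NN φ) ∨ (u < NN φ ∧ v = NN φ + u ∧ lab φ t u = true) ∨
      (v < NN φ ∧ u = NN φ + v ∧ lab φ t v = true) := by
  simp [Pres, red, spn, List.getD_eq_getElem?_getD, Nat.lt_succ_of_le ht]
  grind

theorem lab_iff (t a : ℕ) : lab φ t a = true ↔ (a < nv φ ∧ (t = tm φ a 0 ∨
    t = tm φ a (φ.length + 1) ∨ t = tm φ a (2 * φ.length + 2))) ∨
    (∃ o < 3 * φ.length, a = nv φ + o / 3 ∧
      (t = tm φ (lit φ o).1 (ev φ o) ∨ t = tm φ (lit φ o).1 (ev φ o) + 1)) ∨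
    (a + 1 = NN φ ∧ t = tm φ (nv φ) 0) := by
  simp [lab, or_assoc]

theorem ev_lt {o : ℕ} (h : o < 3 * φ.length) : ((lit φ o).2 = true ∧ ev φ o = o / 3 + 1) ∨
    ((lit φ o).2 = false ∧ ev φ o = φ.length + 2 + o / 3) := by
  unfold ev; cases (lit φ o).2 <;> simp

theorem len : (red φ).1.2.2.length = tm φ (nv φ) 0 + 1 := by simp [red]

theorem valid : Valid (red φ).1.2.2.length (red φ).1 := by
  have h0 : 0 < NN φ := by unfold NN; omega
  have A := fun u v => (AA_iff (red φ).1 u v).symm.trans (aa u v)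
  have hn : (red φ).1.1.1 = 2 * NN φ := rfl
  refine ⟨⟨?_, SimpleGraph.isAcyclic_iff_forall_adj_isBridge.2 fun u v e h => ?_⟩,
    by simp [red, h0], fun u v e => ?_⟩
  · have : ∀ m (h : m < (red φ).1.1.1), (gr _ (red φ).1.1.2).Reachable ⟨0, by omega⟩ ⟨m, h⟩ :=
      fun m => by
        induction m using Nat.strong_induction_on with
        | _ m ih =>
        intro h
        rcases m with _ | m
        · rfl
        by_cases e : m + 1 < NN φ
        · exact (ih m (by omega) (by omega)).trans ((A _ _).2 (by simp; omega)).reachable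
        · exact (ih (m + 1 - NN φ) (by omega) (by omega)).trans
            ((A _ _).2 (by simp; omega)).reachable
    haveI _i : Nonempty (Fin (red φ).1.1.1) := ⟨⟨0, by omega⟩⟩
    exact ⟨fun u v => (this u u.2).symm.trans (this v v.2)⟩
  · rw [A] at e
    have : ∀ x, ReflTransGen ((gr _ (red φ).1.1.2).deleteEdges {s(u, v)}).Adj u x →
        ((max u.1 v.1 < NN φ → (max u.1 v.1 ≤ u.1 ↔ max u.1 v.1 ≤ x.1 ∧ x.1 < NN φ ∨
          max u.1 v.1 + NN φ ≤ x.1)) ∧ (NN φ ≤ max u.1 v.1 → (u.1 = max u.1 v.1 ↔ x.1 = max u.1 v.1))) :=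
      fun x h => by
        induction h with
        | refl => omega
        | tail _ b ih =>
          simp only [SimpleGraph.deleteEdges_adj, A, Set.mem_singleton_iff, Sym2.eq_iff,
            Fin.ext_iff] at b
          omega
    have := this v ((SimpleGraph.reachable_iff_reflTransGen _ _).1 h)
    omega
  · have k : ∀ a < NN φ, ∃ r ≤ tm φ (nv φ) 0, lab φ r a = true := fun a ha => by
      simp only [lab_iff]
      by_cases c1 : a < nv φ
      · exact ⟨_, by have := tm3 (φ := φ) (q := 0) c1 (by omega); omega, .inl ⟨c1, .inl rfl⟩⟩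
      by_cases c2 : a + 1 = NN φ
      · exact ⟨_, le_rfl, .inr (.inr ⟨c2, rfl⟩)⟩
      unfold NN at ha c2
      have := ev_lt (φ := φ) (o := 3 * (a - nv φ)) (by omega)
      have := tm3 (φ := φ) (q := ev φ (3 * (a - nv φ))) (lit_lt φ (3 * (a - nv φ))) (by omega)
      exact ⟨_, by omega, .inr (.inl ⟨3 * (a - nv φ), by omega, by omega, .inl rfl⟩)⟩
    rw [A] at e
    rw [len]
    rcases e with e | e | e | e
    · exact ⟨0, by omega, (pr (by omega) _ _).2 (.inl e)⟩
    · exact ⟨0, by omega, (pr (by omega) _ _).2 (.inr (.inl e))⟩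
    · obtain ⟨r, h1, h2⟩ := k _ e.1
      exact ⟨r, by omega, (pr h1 _ _).2 (.inr (.inr (.inl ⟨e.1, e.2, h2⟩)))⟩
    · obtain ⟨r, h1, h2⟩ := k _ e.1
      exact ⟨r, by omega, (pr h1 _ _).2 (.inr (.inr (.inr ⟨e.1, e.2, h2⟩)))⟩

theorem deg (v : Fin (red φ).1.1.1) : ((gr _ (red φ).1.1.2).neighborSet v).ncard ≤ 3 := by
  rw [← Set.ncard_image_of_injective _ Fin.val_injective]
  refine (Set.ncard_le_ncard (t := {v.1 - 1, v.1 + 1, if v.1 < NN φ then NN φ + v else v - NN φ})
    ?_ (by simp)).trans ?_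
  · rintro _ ⟨u, hu, rfl⟩
    have := (aa _ _).1 ((AA_iff (red φ).1 v u).2 hu)
    simp only [Set.mem_insert_iff, Set.mem_singleton_iff]
    split_ifs <;> omega
  · exact (Set.ncard_insert_le _ _).trans (Nat.succ_le_succ ((Set.ncard_insert_le _ _).trans
      (by simp)))

def RR (φ : F3) (t x : ℕ) (C : Set ℕ) : Prop := ∃ L : List ℕ, L.length = t ∧ (∀ L', Wk
  (tm φ (nv φ) 0 + 1) (AA (red φ).1) (Pres (red φ).1) {x | x < 2 * NN φ} 0
    (t % (tm φ (nv φ) 0 + 1)) x L' (tm φ (nv φ) 0 + 1) → Wk (tm φ (nv φ) 0 + 1) (AA (red φ).1)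
      (Pres (red φ).1) {x | x < 2 * NN φ} 0 0 0 (L ++ L') (tm φ (nv φ) 0 + 1)) ∧
  ∀ z ∈ C, z = 0 ∨ z ∈ L

theorem RR.mono {t x : ℕ} {C C' : Set ℕ} (h : RR φ t x C) (e : C' ⊆ C) : RR φ t x C' :=
  h.imp fun _ h => ⟨h.1, h.2.1, fun z hz => h.2.2 z (e hz)⟩

theorem RR.st {t x z : ℕ} {C : Set ℕ} (h : RR φ t x C) (ht : t ≤ tm φ (nv φ) 0) (hz : z < 2 * NN φ)
    (e : z = x ∨ (x + 1 = z ∧ z < NN φ) ∨ (z + 1 = x ∧ x < NN φ) ∨
      (x < NN φ ∧ z = NN φ + x ∧ lab φ t x = true) ∨ (z < NN φ ∧ x = NN φ + z ∧ lab φ t z = true)) :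
    RR φ (t + 1) z (insert z C) := by
  obtain ⟨L, h1, h2, h3⟩ := h
  refine ⟨L ++ [z], by simp [h1], fun L' k => ?_, ?_⟩
  · rw [List.append_assoc]
    refine h2 _ (.st (Nat.mod_lt _ (by omega)) hz (e.imp_right fun e => ⟨(aa _ _).2 (by tauto), ?_⟩)
      (by rwa [Nat.mod_add_mod]))
    rwa [Nat.mod_eq_of_lt (by omega), pr ht]
  · rintro w (rfl | hw)
    · simp
    · exact (h3 w hw).imp_right fun h => by simp [h]

theorem RR.wt {t x : ℕ} {C : Set ℕ} (h : RR φ t x C) (hx : x < 2 * NN φ) {s : ℕ} (hs : t ≤ s)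
    (ht : s ≤ tm φ (nv φ) 0) : RR φ s x C := by
  induction s, hs using Nat.le_induction with
  | base => exact h
  | succ s _ ih => exact ((ih (by omega)).st (by omega) hx (.inl rfl)).mono (Set.subset_insert _ _)

theorem RR.go {b s : ℕ} {C : Set ℕ} (hb : b < NN φ) (ht : s ≤ tm φ (nv φ) 0) : ∀ d t a, a < NN φ →
    a ≤ b + d → b ≤ a + d → t + d + 1 ≤ s → RR φ t a C → RR φ s b (insert b C) := by
  intro d
  induction d with
  | zero =>
    intro t a ha _ _ _ h
    exact (h.st (by omega) (by omega) (.inl (by omega))).wt (by omega) (by omega) ht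
  | succ d ih =>
    intro t a ha _ _ _ h
    refine ih (t + 1) (if a < b then a + 1 else if b < a then a - 1 else a)
      (by split_ifs <;> omega) (by split_ifs <;> omega) (by split_ifs <;> omega) (by omega)
      ((h.st (by omega) (by split_ifs <;> omega) ?_).mono (Set.subset_insert _ _))
    split_ifs
    exacts [.inr (.inl (by omega)), .inr (.inr (.inl (by omega))), .inl rfl]

theorem yes (h : SAT3 φ) : Cov (red φ).1.2.2.length (red φ).1 (red φ).2 := by
  obtain ⟨σ, h⟩ := (sat_iff φ).1 h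
  have hN : NN φ = nv φ + φ.length + 1 := rfl
  -- collecting clauses in one half
  have col : ∀ i < nv φ, ∀ q0, (σ i = true ∧ q0 = 0) ∨ (σ i = false ∧ q0 = φ.length + 1) →
      ∀ C a, a < NN φ → RR φ (tm φ i q0 + 2) a C → ∀ j ≤ φ.length, ∃ b < NN φ,
        RR φ (tm φ i (q0 + j) + 2) b (C ∪ {z | ∃ o < 3 * j, (lit φ o).1 = i ∧ (lit φ o).2 = σ i ∧
          (z = nv φ + o / 3 ∨ z = NN φ + (nv φ + o / 3))}) := by
    intro i hi q0 hq C a ha h0 j hj
    induction j with
    | zero => exact ⟨a, ha, h0.mono (by simp)⟩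
    | succ j ih =>
      obtain ⟨b, hb, h1⟩ := ih (by omega)
      have t1 := tm1 (φ := φ) i (show q0 + j < q0 + (j + 1) by omega)
      have t2 := tm3 (φ := φ) (q := q0 + (j + 1)) hi (by omega)
      have h2 := RR.go (b := nv φ + j) (s := tm φ i (q0 + (j + 1))) (by omega) (by omega)
        (NN φ - 1) _ b hb (by omega) (by omega) (by omega) h1
      refine ⟨nv φ + j, by omega, ?_⟩
      by_cases e : ∃ o, o / 3 = j ∧ (lit φ o).1 = i ∧ (lit φ o).2 = σ i
      · obtain ⟨o, e1, e2, e3⟩ := e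
        have e4 : ev φ o = q0 + (j + 1) := by
          have := ev_lt (φ := φ) (o := o) (by omega)
          rw [e3] at this
          rcases hq with ⟨k, _⟩ | ⟨k, _⟩ <;> simp [k] at this <;> omega
        have l : ∀ r ≤ 1, lab φ (tm φ i (q0 + (j + 1)) + r) (nv φ + j) = true := fun r hr =>
          (lab_iff _ _).2 (.inr (.inl ⟨o, by omega, by omega, by rw [e2, e4]; omega⟩))
        refine ((h2.st (z := NN φ + (nv φ + j)) (by omega) (by omega)
          (.inr (.inr (.inr (.inl ⟨by omega, rfl, l 0 (by omega)⟩))))).st (z := nv φ + j) (by omega)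
          (by omega) (.inr (.inr (.inr (.inr ⟨by omega, rfl, l 1 le_rfl⟩))))).mono ?_
        rintro z (hz | ⟨o', k1, k2, k3, k4⟩)
        · simp [hz]
        · by_cases c : o' < 3 * j
          · exact .inr (.inr (.inr (.inr ⟨o', c, k2, k3, k4⟩)))
          · rw [show o' / 3 = j by omega] at k4
            rcases k4 with rfl | rfl <;> simp
      · refine (h2.wt (by omega) (by omega) (by omega)).mono ?_
        rintro z (hz | ⟨o', k1, k2, k3, k4⟩)
        · simp [hz]
        · exact .inr (.inr ⟨o', by_contra fun c => e ⟨o', by omega, k2, k3⟩, k2, k3, k4⟩)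
  have blk : ∀ i < nv φ, ∀ q0, q0 = 0 ∨ q0 = φ.length + 1 → ∀ C t a, a < NN φ →
      t + NN φ ≤ tm φ i q0 → RR φ t a C →
        RR φ (tm φ i (q0 + φ.length + 1) + 2) i (insert i (insert (NN φ + i) C)) := by
    intro i hi q0 hq C t a ha ht h0
    have t1 := tm1 (φ := φ) i (show q0 < q0 + φ.length + 1 by omega)
    have t2 := tm3 (φ := φ) (q := q0 + φ.length + 1) hi (by omega)
    have l : ∀ q, q = 0 ∨ q = φ.length + 1 ∨ q = 2 * φ.length + 2 → lab φ (tm φ i q) i = true :=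
      fun q hq => (lab_iff _ _).2 (.inl ⟨hi, by rcases hq with rfl | rfl | rfl <;> simp⟩)
    exact (((((RR.go (b := i) (s := tm φ i q0) (by omega) (by omega) (NN φ - 1) _ a ha (by omega)
      (by omega) (by omega) h0).st (z := NN φ + i) (by omega) (by omega)
      (.inr (.inr (.inr (.inl ⟨by omega, rfl, l _ (by omega)⟩))))).wt (by omega)
      (s := tm φ i (q0 + φ.length + 1)) (by omega) (by omega)).st (z := i) (by omega) (by omega)
      (.inr (.inr (.inr (.inr ⟨by omega, rfl, l _ (by omega)⟩))))).wt (by omega) (by omega)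
      (by omega)).mono fun z hz => by simp at hz ⊢; tauto
  have all : ∀ i ≤ nv φ, ∃ t a, a < NN φ ∧ t + NN φ ≤ tm φ i 0 ∧ RR φ t a {z | z < i ∨
      (NN φ ≤ z ∧ z < NN φ + i) ∨ ∃ o < 3 * φ.length, (lit φ o).1 < i ∧ (lit φ o).2 = σ (lit φ o).1 ∧
        (z = nv φ + o / 3 ∨ z = NN φ + (nv φ + o / 3))} := fun i hi => by
    induction i with
    | zero => exact ⟨0, 0, by omega, by simp [tm], [], rfl, by simp, by simp⟩
    | succ i ih =>
      obtain ⟨t, a, ha, ht, h0⟩ := ih (by omega)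
      have t0 := tm2 (φ := φ) i
      have t1 := tm1 (φ := φ) i (show 2 * φ.length + 2 < 2 * φ.length + 3 by omega)
      have t2 := tm1 (φ := φ) i (show 2 * φ.length + 1 < 2 * φ.length + 2 by omega)
      have t3 := tm1 (φ := φ) i (show 0 + φ.length < φ.length + 1 by omega)
      have t4 := tm3 (φ := φ) (q := 0) (show i < nv φ by omega) (by omega)
      have fin : ∀ z : ℕ, (z < i + 1 ∨ (NN φ ≤ z ∧ z < NN φ + (i + 1)) ∨ ∃ o < 3 * φ.length,
          (lit φ o).1 < i + 1 ∧ (lit φ o).2 = σ (lit φ o).1 ∧ (z = nv φ + o / 3 ∨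
          z = NN φ + (nv φ + o / 3))) → z = i ∨ z = NN φ + i ∨ (z < i ∨ (NN φ ≤ z ∧ z < NN φ + i) ∨
          ∃ o < 3 * φ.length, (lit φ o).1 < i ∧ (lit φ o).2 = σ (lit φ o).1 ∧ (z = nv φ + o / 3 ∨
          z = NN φ + (nv φ + o / 3))) ∨ ∃ o < 3 * φ.length, (lit φ o).1 = i ∧ (lit φ o).2 = σ i ∧
          (z = nv φ + o / 3 ∨ z = NN φ + (nv φ + o / 3)) := by
        rintro z (k | k | ⟨o, k1, k2, k3, k4⟩)
        · by_cases c : z = i
          exacts [.inl c, .inr (.inr (.inl (.inl (by omega))))]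
        · by_cases c : z = NN φ + i
          exacts [.inr (.inl c), .inr (.inr (.inl (.inr (.inl (by omega)))))]
        · by_cases c : (lit φ o).1 = i
          exacts [.inr (.inr (.inr ⟨o, k1, c, c ▸ k3, k4⟩)),
            .inr (.inr (.inl (.inr (.inr ⟨o, k1, by omega, k3, k4⟩))))]
      cases c : σ i
      · obtain ⟨b, hb, h1⟩ := col i (by omega) _ (.inr ⟨c, rfl⟩) _ i (by omega)
          (by simpa using blk i (by omega) 0 (.inl rfl) _ t a ha ht h0) _ le_rfl
        rw [show φ.length + 1 + φ.length = 2 * φ.length + 1 by omega] at h1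
        exact ⟨_, b, hb, by omega, h1.mono fun z hz => by
          simpa only [Set.mem_union, Set.mem_insert_iff, Set.mem_ofPred_eq, or_assoc] using fin z hz⟩
      · obtain ⟨b, hb, h1⟩ := col i (by omega) _ (.inl ⟨c, rfl⟩) _ a ha
          (h0.wt (by omega) (by omega) (by omega)) _ le_rfl
        have h2 := blk i (by omega) _ (.inr rfl) _ _ b hb (by omega) h1
        rw [show φ.length + 1 + φ.length + 1 = 2 * φ.length + 2 by omega] at h2
        exact ⟨_, i, by omega, by omega, h2.mono (fin ·)⟩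
  obtain ⟨t, a, ha, ht, h0⟩ := all _ le_rfl
  obtain ⟨L, h1, h2, h3⟩ := (RR.go (b := NN φ - 1) (s := tm φ (nv φ) 0) (by omega) le_rfl
    (NN φ - 1) _ a ha (by omega) (by omega) (by omega) h0).st (z := NN φ + (NN φ - 1)) le_rfl
    (by omega) (.inr (.inr (.inr (.inl ⟨by omega, rfl, (lab_iff _ _).2
      (.inr (.inr ⟨by omega, rfl⟩))⟩))))
  rw [len]
  refine (cov_iff (by omega) (valid (φ := φ)).2.1 _).2 ⟨L, h1,
    L.append_nil ▸ h2 [] (.op (Nat.mod_lt _ (by omega))), fun x (hx : x < 2 * NN φ) => h3 x ?_⟩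
  simp only [Set.mem_insert_iff, Set.mem_ofPred_eq]
  by_contra k
  simp only [not_or, not_exists, not_and] at k
  obtain ⟨i, hi, e⟩ := h (if x < NN φ then x - nv φ else x - NN φ - nv φ) (by split_ifs <;> omega)
  refine (k.2.2.2.2 _ (by split_ifs <;> omega) (lit_lt _ _) e.symm).elim fun a b => ?_
  split_ifs at a b <;> omega

theorem no (h : Cov (red φ).1.2.2.length (red φ).1 (red φ).2) : SAT3 φ := by
  obtain ⟨w, h0, h1, h2⟩ := h
  have hN : NN φ = nv φ + φ.length + 1 := rfl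
  rw [len] at h1
  change ∀ i < tm φ (nv φ) 0 + 1, _ at h1
  have mv : ∀ t ≤ tm φ (nv φ) 0, ∀ a < NN φ, lab φ t a = false →
      ((w t).1 = NN φ + a ↔ (w (t + 1)).1 = NN φ + a) := fun t ht a ha l => by
    rcases h1 t (by omega) with e | ⟨-, e⟩
    · rw [e]
    · rw [Nat.mod_eq_of_lt (by omega), pr ht] at e
      rcases e with e | e | ⟨e1, e2, e⟩ | ⟨e1, e2, e⟩
      · omega
      · omega
      · have : (w t).1 ≠ a := fun k => by simp [k, l] at e
        omega
      · have : (w (t + 1)).1 ≠ a := fun k => by simp [k, l] at e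
        omega
  have stay : ∀ a < NN φ, ∀ s t, s ≤ t → t ≤ tm φ (nv φ) 0 + 1 →
      (∀ r, s ≤ r → r < t → lab φ r a = false) → ((w s).1 = NN φ + a ↔ (w t).1 = NN φ + a) :=
    fun a ha s t hst => by
      induction t, hst using Nat.le_induction with
      | base => exact fun _ _ => .rfl
      | succ t _ ih => exact fun k1 k2 => (ih (by omega) fun r _ _ => k2 r (by omega)
          (by omega)).trans (mv t (by omega) a ha (k2 t (by omega) (by omega)))
  have ent : ∀ a < NN φ, ∃ t ≤ tm φ (nv φ) 0, lab φ t a = true ∧ (w t).1 < NN φ ∧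
      (w (t + 1)).1 = NN φ + a := fun a ha => by
    obtain ⟨i, hi : i ≤ tm φ (nv φ) 0 + 1, e⟩ := h2 ⟨NN φ + a, show _ < 2 * NN φ by omega⟩
    replace e : (w i).1 = NN φ + a := congrArg Fin.val e
    induction i with
    | zero => change (w 0).1 = 0 at h0; omega
    | succ i ih =>
      by_cases c : (w i).1 = NN φ + a
      · exact ih (by omega) c
      refine ⟨i, by omega, by_contra fun l => c ((mv i (by omega) a ha (by simpa using l)).2 e), ?_, e⟩
      rcases h1 i (by omega) with k | ⟨k, -⟩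
      · rw [k] at e; exact absurd e c
      · have := (aa _ _).1 ((AA_iff _ _ _).2 k); omega
  have nl : ∀ a < nv φ, ∀ r < tm φ (nv φ) 0 + 1, r ≠ tm φ a 0 → r ≠ tm φ a (φ.length + 1) →
      r ≠ tm φ a (2 * φ.length + 2) → lab φ r a = false := fun a ha r _ _ _ _ => by
    rw [← Bool.not_eq_true, lab_iff]
    rintro (k | ⟨o, _, k, _⟩ | k) <;> omega
  obtain ⟨t0, -, z1, -, z2⟩ := ent (NN φ - 1) (by omega)
  have z3 : t0 = tm φ (nv φ) 0 := by
    rcases (lab_iff _ _).1 z1 with k | ⟨o, _, k, _⟩ | k <;> omega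
  subst z3
  refine (sat_iff φ).2 ⟨fun i => (w (tm φ i (φ.length + 1) + 1)).1 == NN φ + i, fun j hj => ?_⟩
  obtain ⟨t, a1, a2, a3, -⟩ := ent (nv φ + j) (by omega)
  obtain ⟨o, b1, b2, b3⟩ : ∃ o < 3 * φ.length, nv φ + j = nv φ + o / 3 ∧
      (t = tm φ (lit φ o).1 (ev φ o) ∨ t = tm φ (lit φ o).1 (ev φ o) + 1) := by
    rcases (lab_iff _ _).1 a2 with k | k | k
    exacts [by omega, k, by omega]
  refine ⟨o % 3, by omega, ?_⟩
  rw [show 3 * j + o % 3 = o by omega]
  have hi := lit_lt φ o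
  generalize (lit φ o).1 = i at *
  have t1 := tm1 (φ := φ) i (show 0 < φ.length + 1 by omega)
  have t2 := tm1 (φ := φ) i (show φ.length + 1 < 2 * φ.length + 2 by omega)
  have t3 := tm3 (φ := φ) (q := 2 * φ.length + 2) hi (by omega)
  rcases ev_lt b1 with ⟨c1, c2⟩ | ⟨c1, c2⟩ <;> rw [c1]
  · have t4 := tm1 (φ := φ) i (show 0 < ev φ o by omega)
    have t5 := tm1 (φ := φ) i (show ev φ o < φ.length + 1 by omega)
    obtain ⟨s, d1, d2, d3, d4⟩ := ent i (by omega)
    have s1 := stay i (by omega) (tm φ i 0 + 1) t (by omega) (by omega)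
      fun r _ _ => nl i hi r (by omega) (by omega) (by omega) (by omega)
    have s2 := stay i (by omega) (tm φ i (2 * φ.length + 2) + 1) _ (by omega) le_rfl
      fun r _ _ => nl i hi r (by omega) (by omega) (by omega) (by omega)
    rcases (lab_iff _ _).1 d2 with ⟨-, rfl | rfl | rfl⟩ | ⟨_, _, k, _⟩ | k
    · omega
    · simpa using d4
    all_goals omega
  · have t4 := tm1 (φ := φ) i (show φ.length + 1 < ev φ o by omega)
    have t5 := tm1 (φ := φ) i (show ev φ o < 2 * φ.length + 2 by omega)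
    have s1 := stay i (by omega) (tm φ i (φ.length + 1) + 1) t (by omega) (by omega)
      fun r _ _ => nl i hi r (by omega) (by omega) (by omega) (by omega)
    simp only [beq_eq_false_iff_ne]
    omega

theorem hard : NPHard fun z : Inp × ℕ => (Valid z.1.2.2.length z.1 ∧
    ∀ v, ((gr z.1.1.1 z.1.1.2).neighborSet v).ncard ≤ 3) ∧ Cov z.1.2.2.length z.1 z.2 :=
  (hard_SAT3.hardFor.red red pt_red fun _ _ => ⟨⟨valid, deg⟩, yes, no⟩).npHard

end Pool.Agent.H24.Per
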