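import Pool.Agent.H11.GDefs

set_option autoImplicit false

namespace Pool.Agent.H24.Per
open Pool.Agent.H11.PT

/-- input: graph `(n, E)`, start vertex, list of snapshots -/
abbrev Inp : Type := (ℕ × List (ℕ × ℕ)) × ℕ × List (List (ℕ × ℕ))

/-- the edge `uv` is listed in snapshot `r` -/
def Pres (y : Inp) (r u v : ℕ) : Prop := (u, v) ∈ y.2.2.getD r [] ∨ (v, u) ∈ y.2.2.getD r []

/-- periodic temporal tree with period `p` -/
def Valid (p : ℕ) (y : Inp) : Prop := (gr y.1.1 y.1.2).IsTree ∧ y.2.1 < y.1.1 ∧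
  ∀ u v, (gr y.1.1 y.1.2).Adj u v → ∃ r < p, Pres y r u v

/-- some movement of the agent covers every vertex by time `τ` -/
def Cov (p : ℕ) (y : Inp) (τ : ℕ) : Prop := ∃ w : ℕ → Fin y.1.1, (w 0).1 = y.2.1 ∧
  (∀ i < τ, w (i + 1) = w i ∨
    ((gr y.1.1 y.1.2).Adj (w i) (w (i + 1)) ∧ Pres y (i % p) (w i) (w (i + 1)))) ∧
  ∀ v, ∃ i ≤ τ, w i = v

end Pool.Agent.H24.Per
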