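import Mathlib
import Pool.Agent.H24.SpInv

set_option autoImplicit false

namespace Pool.Agent.H24.Pieces

open FreeGroup Pool.Agent.H24.HomP Pool.Agent.H24.SpInv

abbrev T : Fin 2 × Bool := (0, true)
abbrev T' : Fin 2 × Bool := (0, false)
abbrev A : Fin 2 × Bool := (1, true)
abbrev A' : Fin 2 × Bool := (1, false)

def u : List (Fin 2 × Bool) := [T, A, T, A, T', T', T']
def r : List (Fin 2 × Bool) := [T, A, T, A, T', T', T', T, T, T, A', T', A', T', A]

theorem unit1 : IsUnit (q [r] [T]) := by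
  have h : q [r] u * q [r] (invRev u) * q [r] [A] = 1 := w3 [r] (r := r) (by simp)
  have h1 : q [r] u * q [r] (invRev u) = 1 := ru_inv [r] (by rwa [mul_assoc] at h)
  have h2 : q [r] [A] = 1 := by rwa [h1, one_mul] at h
  have e : q [r] u = q [r] [T] * (q [r] [A] * (q [r] [T] * (q [r] [A] *
    (q [r] [T'] * (q [r] [T'] * q [r] [T']))))) := rfl
  have h3 : q [r] [T] * q [r] [T'] = 1 := ru_inv [r] (w := [T]) (by rwa [e, mul_assoc] at h1)
  rw [h2, one_mul, one_mul, ← mul_assoc (q [r] [T]) (q [r] [T']), h3, one_mul, ← mul_assoc, h3,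
    one_mul] at e
  have h4 : q [r] [T'] * q [r] [T] = 1 := ru_inv [r] (w := [T']) (e ▸ h1)
  exact ⟨⟨_, _, h3, h4⟩, rfl⟩

abbrev Y := ℕ × Option Bool × ℤ

def sw : Y → Y
  | (i, none, p) => if p = 1 then (i, some false, 0) else if p = 2 then (i, some true, 0) else
      if p = 3 then (i / 4, some (decide (2 ≤ i % 4)), i % 2 + 1) else (i, none, p)
  | (i, some b, p) => if p = 0 then (i, none, b.toNat + 1) else
      if p = 1 ∨ p = 2 then (4 * i + 2 * b.toNat + (p - 1).toNat, none, 3) else (i, some b, p)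

theorem sw_sw : Function.Involutive sw := by
  rintro ⟨i, _ | b, p⟩
  · rw [sw]
    split_ifs with h1 h2 h3
    · simp [sw, h1]
    · simp [sw, h2]
    · by_cases h : 2 ≤ i % 4 <;> simp only [sw, h, decide_true, decide_false, Bool.toNat_true,
        Bool.toNat_false] <;> rw [if_neg (by omega), if_pos (by omega), h3] <;> congr 1 <;> omega
    · simp [sw, h1, h2, h3]
  · rw [sw]
    split_ifs with h1 h2
    · cases b <;> simp [sw, h1]
    · rcases h2 with rfl | rfl <;> cases b <;> simp [sw] <;> omega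
    · simp only [sw, h1, h2, if_false]

def sh : Equiv.Perm Y := ⟨fun y => (y.1, y.2.1, y.2.2 - 1), fun y => (y.1, y.2.1, y.2.2 + 1),
  fun y => by simp, fun y => by simp⟩

def x : Fin 2 → Equiv.Perm Y := ![sh, sw_sw.toPerm]

def P : Submonoid (Equiv.Perm Y) where
  carrier := {g | ∀ y, 0 ≤ (g y).2.2 → 0 ≤ y.2.2}
  one_mem' := fun _ h => h
  mul_mem' := fun ha hb y h => hb _ (ha _ h)

theorem sw_pos (y : Y) (h : 0 ≤ (sw y).2.2) : 0 ≤ y.2.2 := by
  obtain ⟨i, _ | b, p⟩ := y <;> rw [sw] at h <;> split_ifs at h <;> simp only at h ⊢ <;> omega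

theorem key (i : ℕ) (c : Option Bool) (p : ℤ) (h : 0 ≤ (sh (sw (sh (sw (i, c, p))))).2.2) :
    3 ≤ p := by
  by_contra h0
  have h1 : 0 ≤ p := by
    have a : 0 ≤ (sw (sh (sw (i, c, p)))).2.2 := by simp only [sh, Equiv.coe_fn_mk] at h ⊢; omega
    have b := sw_pos _ a
    exact sw_pos (i, c, p) (by simp only [sh, Equiv.coe_fn_mk] at b; omega)
  have : p = 0 ∨ p = 1 ∨ p = 2 := by omega
  rcases this with rfl | rfl | rfl <;> rcases c with _ | _ | _ <;> simp [sw, sh] at h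

theorem hT : x 0 ∈ P := fun y h => by
  simp only [x, sh, Matrix.cons_val_zero, Equiv.coe_fn_mk] at h; omega
theorem hA : x 1 ∈ P := sw_pos
theorem hu : ev x u ∈ P := fun y h => by
  have := key y.1 y.2.1 (y.2.2 + 1 + 1 + 1) h
  omega

theorem ok_u {p : Equiv.Perm Y} (hp : p ∈ P) : ok x P p u := by
  have h1 : ok x P p (pos [0, 1, 0, 1]) := ok_pos x P (Fin.forall_fin_two.2 ⟨hT, hA⟩) hp _
  have h2 := ok_inv x P (P.mul_mem hp hu)
    (ok_pos x P (Fin.forall_fin_two.2 ⟨hT, hA⟩) (P.mul_mem hp hu) [0, 0, 0])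
  refine (ok_append x P p (pos [0, 1, 0, 1]) (invRev (pos [0, 0, 0]))).2 ⟨h1, ?_⟩
  have e : ev x u = ev x (pos [0, 1, 0, 1]) * ev x (invRev (pos [0, 0, 0])) :=
    ev_append x (pos [0, 1, 0, 1]) _
  rwa [e, ev_invRev, mul_assoc, inv_mul_cancel_right] at h2

theorem ev_r : ev x r = x 1 := by
  have : ev x r = ev x u * (ev x (invRev u) * ev x [A]) := by
    rw [← ev_append, ← ev_append]; rfl
  rw [this, ev_invRev, mul_inv_cancel_left]
  simp [ev]

theorem ok_r {p : Equiv.Perm Y} (hp : p ∈ P) : ok x P p r := by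
  refine (ok_append x P p u (invRev u ++ [A])).2 ⟨ok_u hp, (ok_append x P _ _ _).2
    ⟨ok_inv x P hp (ok_u hp), ?_⟩⟩
  rw [ev_invRev, mul_inv_cancel_right]
  exact ok_pos x P (Fin.forall_fin_two.2 ⟨hT, hA⟩) hp [1]

theorem nonunit2 : ¬ IsUnit (q [r ++ r] [T]) := by
  rintro ⟨v, hv⟩
  obtain ⟨w, hw⟩ := q_surj _ v.inv
  have h1 : q [r ++ r] (w ++ [T]) = q [r ++ r] [] := by
    rw [q_append, hw, ← hv]; exact v.inv_val
  have := ic_le [r ++ r] x P (fun s hs => by
    obtain rfl := List.mem_singleton.1 hs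
    refine ⟨?_, fun p hp => (ok_append x P _ _ _).2 ⟨ok_r hp, ok_r (ok_mem x P hp (ok_r hp))⟩⟩
    rw [ev_append, ev_r]
    exact Equiv.ext sw_sw) ((q_eq _ _ _).1 h1)
  have h2 := ok_mem x P P.one_mem ((ok_append x P 1 w [T]).1 ((this.2 1 P.one_mem).2 trivial)).1
  have h3 : ev x w * ev x [T] = 1 := (ev_append x w [T]).symm.trans this.1
  rw [one_mul, eq_inv_of_mul_eq_one_left h3] at h2
  exact absurd (h2 (0, none, -1) le_rfl) (by decide)

end Pool.Agent.H24.Pieces
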