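import Pool.Agent.H24.PinDefs
import Pool.Agent.H24.Bz1

set_option autoImplicit false

namespace Pool.Agent.H24.Pin
open Finset

def ld (m p r : ℕ → ℕ) (k u : ℕ) : ℕ :=
  ∑ j ∈ range k, if m j ≠ 1 ∧ u % m j = r j % m j then p j else 0

theorem ld_per {m p r : ℕ → ℕ} {k M u v : ℕ} (h : ∀ j < k, m j ∣ M) (e : u % M = v % M) :
    ld m p r k u = ld m p r k v := by
  refine sum_congr rfl fun j hj => ?_
  have : u % m j = v % m j := Nat.ModEq.of_dvd (h j (mem_range.1 hj)) e
  rw [this]

theorem ld_upd (m p r : ℕ → ℕ) (k u0 u : ℕ) (h : m k ≠ 1) :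
    ld m p (Function.update r k u0) (k + 1) u
      = ld m p r k u + if u % m k = u0 % m k then p k else 0 := by
  unfold ld
  rw [sum_range_succ]
  congr 1
  · refine sum_congr rfl fun j hj => ?_
    rw [Function.update_of_ne (by have := mem_range.1 hj; omega)]
  · simp [h]

theorem ld_sum {m p r : ℕ → ℕ} {k M : ℕ} (h : ∀ j < k, m j ∣ M) (hM : 0 < M) :
    ∑ u ∈ range M, ld m p r k u = ∑ j ∈ range k, if m j ≠ 1 then p j * (M / m j) else 0 := by
  unfold ld
  rw [sum_comm]
  refine sum_congr rfl fun j hj => ?_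
  have hd := h j (mem_range.1 hj)
  have hp : 0 < m j := Nat.pos_of_dvd_of_pos hd hM
  by_cases h1 : m j = 1
  · simp [h1]
  · have := Nat.count_modEq_card M hp (r j)
    rw [Nat.count_eq_card_filter_range, Nat.mod_eq_zero_of_dvd hd] at this
    simp only [ne_eq, h1, not_false_eq_true, true_and, if_true]
    rw [← sum_filter, sum_const, smul_eq_mul, mul_comm]
    simp only [Nat.ModEq, Nat.not_lt_zero, if_false, add_zero] at this
    rw [this]

theorem pack {n C M : ℕ} {m p : ℕ → ℕ} (hM : 0 < M) (hd : ∀ i j, i ≤ j → j < n → m i ∣ m j)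
    (hM' : ∀ j < n, m j ∣ M) (hp : ∀ j < n, m j ≠ 1 → p j ≤ C)
    (hs : 4 * ∑ j ∈ range n, (if m j ≠ 1 then p j * (M / m j) else 0) ≤ M * C) :
    ∀ k ≤ n, ∃ r, (∀ u, ld m p r k u ≤ C) ∧ ∀ u, 0 < ld m p r k u → 0 < ld m p r k (u + 1) →
      C < 2 * ld m p r k u ∨ C < 2 * ld m p r k (u + 1) := by
  intro k
  induction k with
  | zero => exact fun _ => ⟨fun _ => 0, by simp [ld], by simp [ld]⟩
  | succ k ih =>
    intro hk
    obtain ⟨r, h1, h2⟩ := ih (by omega)
    by_cases hm : m k = 1
    · have : ∀ u, ld m p r (k + 1) u = ld m p r k u := fun u => by simp [ld, sum_range_succ, hm]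
      exact ⟨r, by simpa [this] using h1, by simpa only [this] using h2⟩
    have hper : ∀ u v, u % m k = v % m k → ld m p r k u = ld m p r k v := fun u v e =>
      ld_per (fun j hj => hd j k hj.le (by omega)) e
    have hpk := hp k (by omega) hm
    by_cases hA : ∃ u0, 0 < ld m p r k u0 ∧ ld m p r k u0 + p k ≤ C
    · obtain ⟨u0, a1, a2⟩ := hA
      refine ⟨Function.update r k u0, fun u => ?_, fun u => ?_⟩
      · rw [ld_upd _ _ _ _ _ _ hm]
        split_ifs with e
        · rw [hper _ _ e]; exact a2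
        · simpa using h1 u
      · rw [ld_upd _ _ _ _ _ _ hm, ld_upd _ _ _ _ _ _ hm]
        have := h2 u
        have := hper u u0
        have := hper (u + 1) u0
        split_ifs <;> omega
    · push Not at hA
      have hE : ∃ u0, ld m p r k u0 = 0 := by
        by_contra hE
        push Not at hE
        have e1 : ∑ u ∈ range M, ld m p r k (u + 1) = ∑ u ∈ range M, ld m p r k u := by
          have a1 := sum_range_succ (ld m p r k) M
          have a2 := sum_range_succ' (ld m p r k) M
          have a3 : ld m p r k M = ld m p r k 0 :=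
            ld_per (M := M) (fun j hj => hM' j (by omega)) (by simp)
          omega
        have e2 : ∑ _u ∈ range M, C
            < ∑ u ∈ range M, (2 * ld m p r k u + 2 * ld m p r k (u + 1)) :=
          sum_lt_sum_of_nonempty ⟨0, mem_range.2 hM⟩ fun u _ => by
            have := h2 u (Nat.pos_of_ne_zero (hE u)) (Nat.pos_of_ne_zero (hE _))
            omega
        rw [sum_add_distrib, ← mul_sum, ← mul_sum, e1, ld_sum (fun j hj => hM' j (by omega)) hM,
          sum_const, card_range, smul_eq_mul] at e2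
        have e3 : ∑ j ∈ range k, (if m j ≠ 1 then p j * (M / m j) else 0)
            ≤ ∑ j ∈ range n, (if m j ≠ 1 then p j * (M / m j) else 0) :=
          sum_le_sum_of_subset (range_mono (by omega))
        omega
      obtain ⟨u0, a1⟩ := hE
      refine ⟨Function.update r k u0, fun u => ?_, fun u => ?_⟩
      · rw [ld_upd _ _ _ _ _ _ hm]
        split_ifs with e
        · rw [hper _ _ e]; omega
        · simpa using h1 u
      · rw [ld_upd _ _ _ _ _ _ hm, ld_upd _ _ _ _ _ _ hm]
        have := h2 u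
        have := hper u u0
        have := hper (u + 1) u0
        have := hA u
        have := hA (u + 1)
        split_ifs with e1 e2
        · exfalso
          have h3 : u + 1 ≡ u + 0 [MOD m k] := by simpa [Nat.ModEq] using e2.trans e1.symm
          have h4 := Nat.ModEq.add_left_cancel' u h3
          have h5 : m k ∣ 1 := (Nat.modEq_zero_iff_dvd).1 h4
          exact hm (Nat.dvd_one.1 h5)
        all_goals omega

theorem sched {n F : ℕ} {m p r : ℕ → ℕ} (hn : 0 < n) (h0 : m 0 = 1) (hm : ∀ j < n, 0 < m j)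
    (hd : ∀ i j, i ≤ j → j < n → m i ∣ m j)
    (hW : ∀ u, ∑ j ∈ range n, (if u % m j = r j % m j then p j else 0) ≤ F) :
    ∃ S : ℕ → ℕ, (∀ t, S t < n) ∧ ∀ i < n, (S ⁻¹' {i}).Infinite ∧
      ∀ a b, a < b → S a = i → S b = i → (∀ t, a < t → t < b → S t ≠ i) →
        ∑ t ∈ Finset.Ioc a b, p (S t) ≤ m i * F := by
  classical
  let P : ℕ → Prop := fun x => (x / n) % m (x % n) = r (x % n) % m (x % n)
  have hq : ∀ t j, j < n → (t * n + j) / n = t ∧ (t * n + j) % n = j := fun t j hj =>
    ⟨by rw [add_comm, Nat.add_mul_div_right _ _ hn, Nat.div_eq_of_lt hj, zero_add],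
      by rw [add_comm, Nat.add_mul_mod_self_right, Nat.mod_eq_of_lt hj]⟩
  have hP : ∀ t j, j < n → (P (t * n + j) ↔ t % m j = r j % m j) := fun t j hj => by
    simp only [P, (hq t j hj).1, (hq t j hj).2]
  have hinf : {x | P x}.Infinite :=
    Set.infinite_of_injective_forall_mem (f := fun t => t * n + 0)
      (fun a b h => by simpa [hn.ne'] using h) fun t => (hP t 0 hn).2 (by simp [h0, Nat.mod_one])
  let w : ℕ → ℕ := fun x => if P x then p (x % n) else 0
  have hw : ∀ t j, j < n → w (t * n + j) = if t % m j = r j % m j then p j else 0 :=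
    fun t j hj => by simp only [w, hP t j hj, (hq t j hj).2]
  have hG : ∀ t k, ∑ x ∈ range ((t + k) * n), w x ≤ ∑ x ∈ range (t * n), w x + k * F := by
    intro t k
    induction k with
    | zero => simp
    | succ k ih =>
      rw [← add_assoc, add_mul, one_mul, sum_range_add, add_mul k]
      have : ∑ j ∈ range n, w ((t + k) * n + j) ≤ F := by
        rw [sum_congr rfl fun j hj => hw (t + k) j (mem_range.1 hj)]; exact hW _
      omega
  refine ⟨fun k => Nat.nth P k % n, fun t => Nat.mod_lt _ hn, fun i hi => ⟨?_, ?_⟩⟩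
  · have hy : ∀ t, P ((r i + t * m i) * n + i) := fun t => (hP _ i hi).2 (by simp)
    refine Set.infinite_of_injective_forall_mem
      (f := fun t => Nat.count P ((r i + t * m i) * n + i)) (fun a b h => ?_) fun t => ?_
    · have := congrArg (Nat.nth P) h
      simp only [Nat.nth_count (hy _)] at this
      simpa [hn.ne', (hm i hi).ne'] using this
    · simp [Nat.nth_count (hy t), (hq _ i hi).2]
  · intro a b hab ha hb hbt
    simp only at ha hb hbt
    obtain ⟨t, ht⟩ : ∃ t, Nat.nth P a = t * n + i :=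
      ⟨Nat.nth P a / n, by rw [← ha]; exact (Nat.div_add_mod' _ _).symm⟩
    have hPa : P (t * n + i) := ht ▸ Nat.nth_mem_of_infinite hinf a
    have hy : P ((t + m i) * n + i) := (hP _ i hi).2 (by simpa using (hP _ i hi).1 hPa)
    have hc := Nat.nth_count hy
    have mono : StrictMono (Nat.nth P) := Nat.nth_strictMono hinf
    have hlt : t * n + i < (t + m i) * n + i := by
      have := Nat.mul_pos (hm i hi) hn
      rw [add_mul]; omega
    have hac : a < Nat.count P ((t + m i) * n + i) := mono.lt_iff_lt.1 (by rw [hc, ht]; exact hlt)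
    have hbc : b ≤ Nat.count P ((t + m i) * n + i) := by
      by_contra h
      exact hbt _ hac (by omega) (by rw [hc]; exact (hq _ i hi).2)
    have e1 : ∑ k ∈ Ioc a b, p (Nat.nth P k % n) = ∑ x ∈ (Ioc a b).image (Nat.nth P), w x := by
      rw [sum_image fun x _ y _ h => mono.injective h]
      exact sum_congr rfl fun k _ => by
        simp only [w]; rw [if_pos (Nat.nth_mem_of_infinite hinf k)]
    have e2 : ∑ x ∈ (Ioc a b).image (Nat.nth P), w x
        ≤ ∑ x ∈ Ico (t * n + (i + 1)) ((t + m i) * n + (i + 1)), w x := by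
      refine sum_le_sum_of_subset fun x hx => ?_
      obtain ⟨k, hk, rfl⟩ := mem_image.1 hx
      rw [mem_Ioc] at hk
      have := mono hk.1
      have := mono.monotone (hk.2.trans hbc)
      rw [mem_Ico]; omega
    have e3 := sum_range_add_sum_Ico w (m := t * n + (i + 1)) (n := (t + m i) * n + (i + 1))
      (by omega)
    rw [sum_range_add w (t * n), sum_range_add w ((t + m i) * n)] at e3
    have e4 : ∑ j ∈ range (i + 1), w (t * n + j) = ∑ j ∈ range (i + 1), w ((t + m i) * n + j) :=
      sum_congr rfl fun j hj => by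
        have hj' := mem_range.1 hj
        rw [hw _ j (by omega), hw _ j (by omega)]
        obtain ⟨c, hc⟩ := hd j i (by omega) hi
        rw [hc, Nat.add_mul_mod_self_left]
    have := hG t (m i)
    simp only
    omega

theorem nec {n F j : ℕ} {f p S : ℕ → ℕ} (hj : j < n) (hf : f j ≠ F) (h0 : ∃ i < n, f i = F)
    (h : ∀ i < n, (S ⁻¹' {i}).Infinite ∧
      ∀ a b, a < b → S a = i → S b = i → (∀ t, a < t → t < b → S t ≠ i) →
        ∑ t ∈ Finset.Ioc a b, p (S t) ≤ f i) :
    ∑ i ∈ (range n).filter (fun i => f i = F), p i + p j ≤ F := by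
  classical
  have ex : ∀ i t, i < n → ∃ s, t < s ∧ S s = i := fun i t hi => by
    obtain ⟨s, h1, h2⟩ := (h i hi).1.exists_gt t
    exact ⟨s, h2, h1⟩
  let nx : ℕ → ℕ → ℕ := fun i t => if hi : i < n then Nat.find (ex i t hi) else 0
  have nx1 : ∀ i t, i < n → t < nx i t ∧ S (nx i t) = i := fun i t hi => by
    simp only [nx, dif_pos hi]; exact Nat.find_spec (ex i t hi)
  have nx2 : ∀ i t s, i < n → t < s → s < nx i t → S s ≠ i := fun i t s hi h1 h2 h3 => by
    simp only [nx, dif_pos hi] at h2; exact Nat.find_min (ex i t hi) h2 ⟨h1, h3⟩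
  let G := (range n).filter (fun i => f i = F)
  have hG : G.Nonempty := by
    obtain ⟨i, h1, h2⟩ := h0
    exact ⟨i, mem_filter.2 ⟨mem_range.2 h1, h2⟩⟩
  let t := nx j (G.sup fun i => nx i 0)
  obtain ⟨i, hi, hmax⟩ := exists_max_image G (fun i => nx i t) hG
  obtain ⟨hi1, hi2⟩ := mem_filter.1 hi
  rw [mem_range] at hi1
  have ht := nx1 j (G.sup fun i => nx i 0) hj
  have hit : nx i 0 < t := lt_of_le_of_lt (le_sup (f := fun i => nx i 0) hi) ht.1
  let a := Nat.findGreatest (fun s => S s = i) t
  have ha : S a = i := Nat.findGreatest_spec (P := fun s => S s = i) hit.le (nx1 i 0 hi1).2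
  have ha1 : a ≤ t := Nat.findGreatest_le t
  have hij : i ≠ j := fun e => hf (e ▸ hi2)
  have ha2 : a < t := lt_of_le_of_ne ha1 fun e => hij (by rw [← ha, e]; exact ht.2)
  have hb := nx1 i t hi1
  have key := (h i hi1).2 a (nx i t) (by omega) ha hb.2 fun s h1 h2 => by
    by_cases h3 : s ≤ t
    · exact Nat.findGreatest_is_greatest (P := fun s => S s = i) h1 h3
    · exact nx2 i t s hi1 (by omega) h2
  have hGn : ∀ x ∈ G, x < n := fun x hx => mem_range.1 (mem_filter.1 hx).1
  have e1 : ∑ s ∈ insert t (G.image fun i => nx i t), p (S s) = p j + ∑ i ∈ G, p i := by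
    rw [sum_insert, sum_image, ht.2]
    · congr 1
      exact sum_congr rfl fun x hx => by rw [(nx1 x t (hGn x hx)).2]
    · intro x hx y hy e
      rw [← (nx1 x t (hGn x hx)).2, ← (nx1 y t (hGn y hy)).2]
      exact congrArg S e
    · intro hx
      obtain ⟨x, hx, e⟩ := mem_image.1 hx
      have := (nx1 x t (hGn x hx)).1
      omega
  have e2 : ∑ s ∈ insert t (G.image fun i => nx i t), p (S s) ≤ ∑ s ∈ Ioc a (nx i t), p (S s) := by
    refine sum_le_sum_of_subset fun s hs => ?_
    rw [mem_Ioc]
    rcases mem_insert.1 hs with rfl | hs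
    · omega
    · obtain ⟨x, hx, rfl⟩ := mem_image.1 hs
      have := (nx1 x t (hGn x hx)).1
      have := hmax x hx
      omega
  change ∑ i ∈ G, p i + p j ≤ F
  omega

theorem char (V : Inst) (hV : Valid V) (hρ : density V ≤ 1 / 4) :
    Feasible V ↔ ∀ j < V.length, fr V j ≠ fr V 0 →
      ∑ i ∈ (range V.length).filter (fun i => fr V i = fr V 0), du V i + du V j ≤ fr V 0 := by
  obtain ⟨hn, hpos, hdv⟩ := hV
  refine ⟨fun ⟨S, _, h⟩ j hj hf => nec hj hf ⟨0, hn, rfl⟩ h, fun h => ?_⟩
  set n := V.length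
  set F := fr V 0 with hF
  set P := ∑ i ∈ (range n).filter (fun i => fr V i = F), du V i with hPd
  have hd : ∀ i j, i ≤ j → j < n → fr V i ∣ fr V j := fun i j hij => by
    induction j, hij using Nat.le_induction with
    | base => exact fun _ => dvd_rfl
    | succ j _ ih => exact fun hj => (ih (by omega)).trans (hdv j hj)
  have hF0 : 0 < F := (hpos 0 hn).1
  let m : ℕ → ℕ := fun j => fr V j / F
  have hm : ∀ j < n, m j * F = fr V j := fun j hj => Nat.div_mul_cancel (hd 0 j (by omega) hj)
  have hm0 : ∀ j < n, 0 < m j := fun j hj => Nat.pos_of_ne_zero fun e => by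
    have := hm j hj
    have := (hpos j hj).1
    rw [e] at *; omega
  have hm1 : ∀ j < n, m j = 1 ↔ fr V j = F := fun j hj => by
    rw [← hm j hj]
    exact ⟨fun e => by simp [e], fun e => Nat.eq_of_mul_eq_mul_right hF0 (by simpa using e)⟩
  have hmd : ∀ i j, i ≤ j → j < n → m i ∣ m j := fun i j hij hj =>
    Nat.dvd_of_mul_dvd_mul_right hF0 (by rw [hm i (by omega), hm j hj]; exact hd i j hij hj)
  have hM : 0 < m (n - 1) := hm0 _ (by omega)
  have hM' : ∀ j < n, m j ∣ m (n - 1) := fun j hj => hmd j _ (by omega) (by omega)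
  set M := m (n - 1)
  set Q := ∑ j ∈ range n, (if m j ≠ 1 then du V j * (M / m j) else 0) with hQ
  have e1 : density V * (M * F) = (P * M + Q : ℕ) := by
    rw [density, sum_mul, hPd, hQ, sum_filter, sum_mul, ← sum_add_distrib, Nat.cast_sum]
    refine sum_congr rfl fun j hj => ?_
    have hj' := mem_range.1 hj
    obtain ⟨c, hc⟩ := hM' j hj'
    have a1 : (F : ℚ) ≠ 0 := by positivity
    have a2 : (m j : ℚ) ≠ 0 := by have := hm0 j hj'; positivity
    by_cases e : m j = 1
    · rw [if_pos ((hm1 j hj').1 e), if_neg (by simpa using e), (hm1 j hj').1 e]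
      push_cast; field_simp; simp
    · rw [if_neg (fun x => e ((hm1 j hj').2 x)), if_pos e, ← hm j hj', hc,
        Nat.mul_div_cancel_left _ (hm0 j hj')]
      push_cast; field_simp; ring
  have e2 : 4 * (P * M + Q) ≤ M * F := by
    have : (0 : ℚ) < M * F := by positivity
    have : (4 * (P * M + Q : ℕ) : ℚ) ≤ M * F := by rw [← e1]; nlinarith
    exact_mod_cast this
  have hPF : P ≤ F := by
    refine Nat.le_of_mul_le_mul_left (c := M) ?_ hM
    rw [mul_comm M P]; omega
  obtain ⟨r, h1, -⟩ := pack (C := F - P) (p := du V) hM hmd hM'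
    (fun j hj e => by have := h j hj fun x => e ((hm1 j hj).2 x); omega)
    (by rw [Nat.mul_sub, mul_comm M P]; omega) n le_rfl
  obtain ⟨S, s1, s2⟩ := sched (F := F) (p := du V) (r := r) hn ((hm1 0 hn).2 rfl) hm0 hmd
    fun u => by
      have : ∑ j ∈ range n, (if u % m j = r j % m j then du V j else 0) = P + ld m (du V) r n u := by
        rw [hPd, ld, sum_filter, ← sum_add_distrib]
        refine sum_congr rfl fun j hj => ?_
        have hj' := mem_range.1 hj
        by_cases e : m j = 1
        · simp [e, (hm1 j hj').1 e, Nat.mod_one]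
        · simp [e, show fr V j ≠ F from fun x => e ((hm1 j hj').2 x)]
      have := h1 u
      omega
  exact ⟨S, s1, fun i hi => ⟨(s2 i hi).1, by simpa only [hm i hi] using (s2 i hi).2⟩⟩

open Pool.Agent.H11.PT Pool.Agent.H24.Bz

def zf (V : Inst) (i : ℕ) : ℤ := (bn (V.getD i ([], [])).1 : ℤ)
def zd (V : Inst) (i : ℕ) : ℤ := (bn (V.getD i ([], [])).2 : ℤ)

def alg (V : Inst) : Bool := (List.range V.length).all fun j => decide (zf V j = zf V 0) ||
  decide ((((List.range V.length).filter fun i => decide (zf V i = zf V 0)).map (zd V)).sum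
    + zd V j ≤ zf V 0)

@[fun_prop] theorem pt_zf {α : Type} [Enc α] {V : α → Inst} {i : α → ℕ} (h : PT V) (h' : PT i) :
    PT fun x => zf (V x) (i x) := by unfold zf; fun_prop
@[fun_prop] theorem pt_zd {α : Type} [Enc α] {V : α → Inst} {i : α → ℕ} (h : PT V) (h' : PT i) :
    PT fun x => zd (V x) (i x) := by unfold zd; fun_prop

theorem pt_alg : PT alg := by unfold alg; fun_prop

theorem alg_iff (V : Inst) : alg V = true ↔ ∀ j < V.length, fr V j ≠ fr V 0 →
      ∑ i ∈ (range V.length).filter (fun i => fr V i = fr V 0), du V i + du V j ≤ fr V 0 := by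
  have a1 : ∀ i, zf V i = fr V i := fun _ => rfl
  have a2 : zd V = fun i => (du V i : ℤ) := rfl
  have a3 : (((List.range V.length).filter fun i => decide (fr V i = fr V 0)).map
      fun i => (du V i : ℤ)).sum
      = (∑ i ∈ (range V.length).filter (fun i => fr V i = fr V 0), du V i : ℕ) := by
    rw [Nat.cast_sum]; rfl
  simp only [alg, a1, a2, Nat.cast_inj, a3, List.all_eq_true, List.mem_range, Bool.or_eq_true,
    decide_eq_true_eq]
  refine forall₂_congr fun j _ => ?_
  rw [← Nat.cast_add, Nat.cast_le]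
  tauto

end Pool.Agent.H24.Pin
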