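import Pool.Agent.H11.PTDefs

set_option autoImplicit false

namespace Pool.Agent.H24.Pin

/-- an instance: the list of pairs `(f_i, p_i)`, both written in binary -/
abbrev Inst : Type := List (List Bool × List Bool)

/-- value of a binary numeral (least significant bit first) -/
def val (l : List Bool) : ℕ := l.foldr Nat.bit 0

/-- frequency of job `i` -/
def fr (V : Inst) (i : ℕ) : ℕ := val (V.getD i ([], [])).1

/-- duration of job `i` -/
def du (V : Inst) (i : ℕ) : ℕ := val (V.getD i ([], [])).2

/-- at least one job, positive numbers, frequency divisibility -/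
def Valid (V : Inst) : Prop :=
  0 < V.length ∧ (∀ i < V.length, 0 < fr V i ∧ 0 < du V i) ∧
    ∀ i, i + 1 < V.length → fr V i ∣ fr V (i + 1)

def density (V : Inst) : ℚ := ∑ i ∈ Finset.range V.length, (du V i : ℚ) / fr V i

/-- there is a schedule in which every job occurs infinitely often and every gap between two
consecutive completions of job `i` is at most `f_i` -/
def Feasible (V : Inst) : Prop :=
  ∃ S : ℕ → ℕ, (∀ t, S t < V.length) ∧ ∀ i < V.length, (S ⁻¹' {i}).Infinite ∧
    ∀ a b, a < b → S a = i → S b = i → (∀ t, a < t → t < b → S t ≠ i) →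
      ∑ t ∈ Finset.Ioc a b, du V (S t) ≤ fr V i

end Pool.Agent.H24.Pin
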