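import Pool.Agent.H24.PlDefs
import Pool.Agent.H25.CBase

set_option autoImplicit false

namespace Pool.Agent.H24.Pl
open Pool.Agent.H11.PT Pool.Agent.H25.CB Finset

theorem lr {M : Type} [AddCommMonoid M] (n : ℕ) (f : ℕ → M) :
    ((List.range n).map f).sum = ∑ i ∈ range n, f i := rfl

theorem cnt {α : Type} (p : α → Bool) (l : List α) :
    l.countP p = (l.map fun a => if p a = true then 1 else 0).sum := by
  induction l with
  | nil => rfl
  | cons a l ih => simp [List.countP_cons, ih, add_comm]

theorem gd {α : Type} (m n : ℕ) (a b d : α) (i : ℕ) :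
    (List.replicate m a ++ List.replicate n b).getD i d
      = if i < m then a else if i < m + n then b else d := by
  simp only [List.getD_eq_getElem?_getD, List.getElem?_append, List.length_replicate,
    List.getElem?_replicate]
  split_ifs <;> first | rfl | omega

theorem sh (m n i : ℕ) {M : Type} [AddCommMonoid M] (f : ℕ → M) :
    ∑ v ∈ range n, (if m + v = i then f v else 0) = if m ≤ i ∧ i < m + n then f (i - m) else 0 := by
  split_ifs with h
  · rw [sum_eq_single (i - m) (fun b _ hb => if_neg (by omega)) (fun h' => by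
      simp at h'; omega), if_pos (by omega)]
  · exact sum_eq_zero fun v hv => if_neg (by simp at hv; omega)

def ea (E : List (ℕ × ℕ)) (t : ℕ) : ℕ := (E.getD t (0, 0)).1
def eb (E : List (ℕ × ℕ)) (t : ℕ) : ℕ := (E.getD t (0, 0)).2

theorem em {E : List (ℕ × ℕ)} {t : ℕ} (h : t < E.length) : (ea E t, eb E t) ∈ E := by
  simp [ea, eb, h]

theorem clean {n k : ℕ} {E : List (ℕ × ℕ)} (J : Finset ℕ) (hJ : ∀ v ∈ J, v < n)
    (h : (E.length + k : ℝ) ≤ ∑ t ∈ range E.length,
      (if ea E t ∈ J ∧ eb E t ∈ J then (0 : ℝ) else 1) + #J) : IS (n, E, k) := by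
  let B := (range E.length).filter fun t => ea E t ∈ J ∧ eb E t ∈ J
  refine ⟨J \ B.image (ea E), fun v hv => hJ v (mem_sdiff.1 hv).1, ?_, fun e he hh => ?_⟩
  · have a1 := le_card_sdiff (B.image (ea E)) J
    have a2 := card_image_le (s := B) (f := ea E)
    have a3 : ∑ t ∈ range E.length, (if ea E t ∈ J ∧ eb E t ∈ J then (0 : ℝ) else 1) + #B
        = E.length := by
      rw [card_filter]; push_cast
      rw [← sum_add_distrib, sum_congr rfl (g := fun _ => 1) fun t _ => by split_ifs <;> simp]
      simp
    have : k + #B ≤ #J := by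
      have : (k + #B : ℝ) ≤ #J := by linarith
      exact_mod_cast this
    simp only; omega
  · obtain ⟨t, ht, rfl⟩ := List.getElem_of_mem he
    have a : ea E t = E[t].1 := by simp [ea, ht]
    have b : eb E t = E[t].2 := by simp [eb, ht]
    refine (mem_sdiff.1 hh.1).2 (mem_image.2 ⟨t, ?_, a⟩)
    simp [B, ht, a, b, (mem_sdiff.1 hh.1).1, (mem_sdiff.1 hh.2).1]

theorem cardI {n : ℕ} {I : Finset ℕ} (h : ∀ v ∈ I, v < n) :
    ∑ v ∈ range n, (if v ∈ I then (1 : ℝ) else 0) = #I := by
  rw [sum_boole, filter_mem_eq_inter, inter_eq_right.2 fun v hv => mem_range.2 (h v hv)]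

def toOut (y : ℕ × List (ℕ × ℕ) × ℕ) : Inst :=
  ((List.replicate y.2.1.length (1, 1) ++ List.replicate y.1 (1, 0),
    List.replicate y.1 (y.2.1.length + 1),
    List.replicate y.1 (1, 0) ++ List.replicate y.1 (y.2.1.length + 1, 1)),
   ((List.range y.2.1.length).map (fun t => ((t, ea y.2.1 t), (0, 1), 1)) ++
    ((List.range y.2.1.length).map (fun t => ((t, eb y.2.1 t), (0, 1), 1)) ++
    (List.range y.1).map fun v => ((y.2.1.length + v, v), (0, 0), 1)),
    (List.range y.1).map (fun v => ((v, v), (0, 1), 1)) ++
    (List.range y.1).map fun v => ((v, y.1 + v), (0, 0), y.2.1.length + 1)),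
   (0, y.2.1.length + y.2.2))

theorem hard_out : HardFor InNP (fun Y => WF Y ∧ Out2 Y) Yes := by
  refine hard_IS.red toOut (by unfold toOut ea eb; fun_prop) ?_
  rintro ⟨n, E, k⟩ ⟨-, hV⟩
  have hE : ∀ t < E.length, ea E t < eb E t ∧ eb E t < n := fun t ht => hV _ (em ht)
  set m := E.length with hm
  refine ⟨⟨⟨?_, ?_, ?_, ?_⟩, fun v => ?_⟩, ?_⟩
  · simp only [toOut, List.map_append, List.map_map, List.nodup_append, List.mem_append,
      List.mem_map, List.mem_range, Function.comp_def]
    refine ⟨List.nodup_range.map fun a b h => (Prod.ext_iff.1 h).1,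
      ⟨List.nodup_range.map fun a b h => (Prod.ext_iff.1 h).1,
        List.nodup_range.map fun a b h => (Prod.ext_iff.1 h).2, ?_⟩, ?_⟩
    · rintro _ ⟨a, ha, rfl⟩ _ ⟨b, hb, rfl⟩ h
      simp at h; omega
    · rintro _ ⟨a, ha, rfl⟩ _ (⟨b, hb, rfl⟩ | ⟨b, hb, rfl⟩) h <;> simp only [Prod.mk.injEq] at h
      · obtain ⟨rfl, h⟩ := h
        have := hE a ha; omega
      · omega
  · simp only [toOut, List.map_append, List.map_map, List.nodup_append,
      List.mem_map, List.mem_range, Function.comp_def]
    refine ⟨List.nodup_range.map fun a b h => (Prod.ext_iff.1 h).1,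
      List.nodup_range.map fun a b h => (Prod.ext_iff.1 h).1, ?_⟩
    rintro _ ⟨a, ha, rfl⟩ _ ⟨b, hb, rfl⟩ h
    simp at h; omega
  · simp only [toOut, List.mem_append, List.mem_map, List.mem_range, List.length_append,
      List.length_replicate]
    rintro _ (⟨a, ha, rfl⟩ | ⟨a, ha, rfl⟩ | ⟨a, ha, rfl⟩) <;> simp only <;>
      first | omega | (have := hE a ha; omega)
  · simp only [toOut, List.mem_append, List.mem_map, List.mem_range, List.length_append,
      List.length_replicate]
    rintro _ (⟨a, ha, rfl⟩ | ⟨a, ha, rfl⟩) <;> simp only <;> omega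
  · simp only [toOut, cnt, List.map_append, List.sum_append, List.map_map, Function.comp_def, lr,
      beq_iff_eq, sum_ite_eq', mem_range, sh]
    split_ifs <;> omega
  simp only [Yes, toOut, outS, inS, cost, List.map_append, List.sum_append, List.map_map,
    Function.comp_def, lr, sum_ite_eq', mem_range, sh, gd, List.length_append,
    List.length_replicate, List.forall_mem_append, List.forall_mem_map, List.mem_range, ← hm]
  constructor
  · rintro ⟨I, i1, i2, i3⟩
    simp only at i1 i2 i3
    let x : ℕ × ℕ → ℝ := fun e => if e.1 < m then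
      (if e.2 = (if ea E e.1 ∈ I then eb E e.1 else ea E e.1) then 1 else 0)
      else if e.2 ∈ I then 1 else 0
    let D : ℕ → ℝ := fun l => ∑ t ∈ range m, (if ea E t = l then x (t, ea E t) else 0) +
      ∑ t ∈ range m, (if eb E t = l then x (t, eb E t) else 0)
    have x0 : ∀ e, 0 ≤ x e ∧ x e ≤ 1 := fun e => by simp only [x]; split_ifs <;> norm_num
    have x1 : ∀ t < m, x (t, ea E t) + x (t, eb E t) = 1 := fun t ht => by
      have := hE t ht
      by_cases h : ea E t ∈ I <;> simp [x, ht, h, this.1.ne, this.1.ne']
    have D0 : ∀ l, 0 ≤ D l := fun l => add_nonneg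
      (sum_nonneg fun t _ => by split_ifs; exacts [(x0 _).1, le_rfl])
      (sum_nonneg fun t _ => by split_ifs; exacts [(x0 _).1, le_rfl])
    have D1 : ∀ l, D l ≤ m := fun l => by
      simp only [D, ← sum_add_distrib]
      refine (sum_le_sum (g := fun _ => 1) fun t ht => ?_).trans (by simp)
      have := x1 t (mem_range.1 ht)
      have := x0 (t, ea E t)
      have := x0 (t, eb E t)
      split_ifs <;> linarith
    have D2 : ∀ l ∈ I, D l = 0 := fun l hl => by
      simp only [D, ← sum_add_distrib]
      refine sum_eq_zero fun t ht => ?_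
      have ht := mem_range.1 ht
      have := hE t ht
      have := i3 _ (em ht)
      split_ifs with h1 h2 h2 <;> simp_all [x] <;> omega
    have x2 : ∀ v, x (m + v, v) = if v ∈ I then 1 else 0 := fun v => by simp [x]
    refine ⟨x, fun e => if e.2 < n then (if e.1 ∈ I then 1 else 0) else D e.1,
      fun l => if l ∈ I then 0 else 1, ?_, ?_, ?_, ?_, ?_, ?_⟩
    · simp [x0]
    · refine ⟨fun v hv => ?_, fun v hv => ?_⟩
      · simp only [hv, if_true]; split_ifs <;> norm_num
      · have := D0 v
        have := D1 v
        simp only [add_lt_iff_neg_left, not_lt_zero, if_false]; push_cast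
        constructor <;> linarith
    · intro i hi
      by_cases h : i < m
      · simp [h, ← add_assoc, x1 i h, not_le.2 h]
      · simp [h, hi, x0, not_lt.1 h]
    · intro l hl
      have e1 : ∑ t ∈ range m, (if ea E t = l then
          (((if t < m then (1, 1) else if t < m + n then (1, 0) else (0, 0) : ℕ × ℕ).2 : ℕ) : ℝ) *
            x (t, ea E t) else 0) = ∑ t ∈ range m, (if ea E t = l then x (t, ea E t) else 0) :=
        sum_congr rfl fun t ht => by simp [mem_range.1 ht]
      have e2 : ∑ t ∈ range m, (if eb E t = l then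
          (((if t < m then (1, 1) else if t < m + n then (1, 0) else (0, 0) : ℕ × ℕ).2 : ℕ) : ℝ) *
            x (t, eb E t) else 0) = ∑ t ∈ range m, (if eb E t = l then x (t, eb E t) else 0) :=
        sum_congr rfl fun t ht => by simp [mem_range.1 ht]
      rw [e1, e2]
      simp only [← add_assoc]
      change D l + _ = _ ∧ D l + _ ≤ _ ∧ D l + _ = _
      have := D1 l
      by_cases h : l ∈ I
      · simp [hl, h, x2, D2 l h]
      · simp [hl, h, x2]; linarith
    · intro j hj
      by_cases h : j < n
      · by_cases h' : j ∈ I <;> simp [h, h', not_le.2 h]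
      · have := D0 (j - n)
        have := D1 (j - n)
        simp only [h, hj, not_lt.1 h, if_true, if_false, and_self, add_lt_iff_neg_left,
          not_lt_zero]
        push_cast
        split_ifs <;> constructor <;> linarith
    · have a1 : ∑ t ∈ range m, (x (t, ea E t) + x (t, eb E t)) = m := by
        rw [sum_congr rfl fun t ht => x1 t (mem_range.1 ht)]; simp
      have a2 : ∑ v ∈ range n, (if v < n then (if v ∈ I then (1 : ℝ) else 0) else D v) = #I := by
        rw [← cardI i1]
        exact sum_congr rfl fun v hv => by rw [if_pos (mem_range.1 hv)]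
      have : (k : ℝ) ≤ #I := by exact_mod_cast i2
      rw [sum_add_distrib] at a1
      simp only [Nat.cast_zero, Nat.cast_one, zero_sub, neg_mul, one_mul, sum_neg_distrib, sub_self,
        zero_mul, sum_const_zero, a2]
      push_cast; linarith
  · rintro ⟨x, y, p, ⟨h1, h2, -⟩, ⟨h3, h4⟩, h5, h6, h7, h8⟩
    refine clean ((range n).filter fun v => 0 < y (v, v)) (by simp; omega) ?_
    have key : ∀ v < n, 0 < y (v, v) → ∀ t < m, (ea E t = v → x (t, ea E t) = 0) ∧
        (eb E t = v → x (t, eb E t) = 0) := fun v hv hy t ht => by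
      have a1 := (h7 v (by omega)).2
      have a2 := (h6 v hv).2.2
      have a3 := (h4 v hv).1
      simp only [hv, if_true, show ¬ (n ≤ v ∧ v < n + n) by omega, if_false, add_lt_iff_neg_left,
        not_lt_zero, add_lt_add_iff_left] at a1 a2
      have a4 : p v ≤ 0 := by
        by_contra h
        have := mul_pos (not_le.1 h) hy
        simp at a1; linarith
      have a5 : p v * (y (v, v) + y (v, n + v)) ≤ 0 := mul_nonpos_of_nonpos_of_nonneg a4 (by linarith)
      have n1 : ∀ t ∈ range m, 0 ≤ (if ea E t = v then
          (((if t < m then (1, 1) else if t < m + n then (1, 0) else (0, 0) : ℕ × ℕ).2 : ℕ) : ℝ) *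
            x (t, ea E t) else 0) := fun t ht => by
        have := (h1 t (mem_range.1 ht)).1
        split_ifs <;> positivity
      have n2 : ∀ t ∈ range m, 0 ≤ (if eb E t = v then
          (((if t < m then (1, 1) else if t < m + n then (1, 0) else (0, 0) : ℕ × ℕ).2 : ℕ) : ℝ) *
            x (t, eb E t) else 0) := fun t ht => by
        have := (h2 t (mem_range.1 ht)).1
        split_ifs <;> positivity
      have b1 := single_le_sum n1 (mem_range.2 ht)
      have b2 := single_le_sum n2 (mem_range.2 ht)
      have b3 := sum_nonneg n1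
      have b4 := sum_nonneg n2
      have := (h1 t ht).1
      have := (h2 t ht).1
      simp only [Nat.cast_zero, zero_mul, add_zero] at a2
      constructor <;> intro e <;> simp only [e, ht, if_true, Nat.cast_one, one_mul] at b1 b2 ⊢ <;>
        simp only [e] at * <;> linarith
    have a1 : ∑ t ∈ range m, (x (t, ea E t) + x (t, eb E t)) ≤ ∑ t ∈ range m,
        (if ea E t ∈ (range n).filter (fun v => 0 < y (v, v)) ∧
          eb E t ∈ (range n).filter (fun v => 0 < y (v, v)) then (0 : ℝ) else 1) :=
      sum_le_sum fun t ht => by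
        have ht := mem_range.1 ht
        split_ifs with h
        · simp only [mem_filter, mem_range] at h
          rw [(key _ h.1.1 h.1.2 t ht).1 rfl, (key _ h.2.1 h.2.2 t ht).2 rfl]; simp
        · simpa [ht, not_le.2 ht] using h5 t (by omega)
    have a2 : ∑ v ∈ range n, y (v, v) ≤ #((range n).filter fun v => 0 < y (v, v)) := by
      rw [card_filter]; push_cast
      refine sum_le_sum fun v hv => ?_
      have := (h3 v (mem_range.1 hv)).2
      split_ifs with h
      · simpa using this
      · linarith
    rw [sum_add_distrib] at a1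
    simp only [Nat.cast_zero, Nat.cast_one, zero_sub, neg_mul, one_mul, sum_neg_distrib, sub_self,
      zero_mul, sum_const_zero] at h8
    push_cast at h8
    linarith

def toIn (y : ℕ × List (ℕ × ℕ) × ℕ) : Inst :=
  ((List.replicate y.1 (y.2.1.length + 1, 0) ++ List.replicate y.1 (1, 1),
    List.replicate y.1 (y.2.1.length + 1),
    List.replicate y.2.1.length (1, 0) ++ List.replicate y.1 (1, 1)),
   ((List.range y.1).map (fun v => ((v, v), (0, 0), y.2.1.length + 1)) ++
    (List.range y.1).map fun v => ((y.1 + v, v), (0, 1), 1),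
    (List.range y.2.1.length).map (fun t => ((ea y.2.1 t, t), (0, 1), 1)) ++
    ((List.range y.2.1.length).map (fun t => ((eb y.2.1 t, t), (0, 1), 1)) ++
    (List.range y.1).map fun v => ((v, y.2.1.length + v), (0, 0), 1))),
   (0, y.2.1.length + y.2.2))

theorem hard_in : HardFor InNP (fun Y => WF Y ∧ In2 Y) Yes := by
  refine hard_IS.red toIn (by unfold toIn ea eb; fun_prop) ?_
  rintro ⟨n, E, k⟩ ⟨-, hV⟩
  have hE : ∀ t < E.length, ea E t < eb E t ∧ eb E t < n := fun t ht => hV _ (em ht)
  set m := E.length with hm
  refine ⟨⟨⟨?_, ?_, ?_, ?_⟩, fun v => ?_⟩, ?_⟩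
  · simp only [toIn, List.map_append, List.map_map, List.nodup_append,
      List.mem_map, List.mem_range, Function.comp_def]
    refine ⟨List.nodup_range.map fun a b h => (Prod.ext_iff.1 h).1,
      List.nodup_range.map fun a b h => (Prod.ext_iff.1 h).2, ?_⟩
    rintro _ ⟨a, ha, rfl⟩ _ ⟨b, hb, rfl⟩ h
    simp at h; omega
  · simp only [toIn, List.map_append, List.map_map, List.nodup_append, List.mem_append,
      List.mem_map, List.mem_range, Function.comp_def]
    refine ⟨List.nodup_range.map fun a b h => (Prod.ext_iff.1 h).2,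
      ⟨List.nodup_range.map fun a b h => (Prod.ext_iff.1 h).2,
        List.nodup_range.map fun a b h => (Prod.ext_iff.1 h).1, ?_⟩, ?_⟩
    · rintro _ ⟨a, ha, rfl⟩ _ ⟨b, hb, rfl⟩ h
      simp at h; omega
    · rintro _ ⟨a, ha, rfl⟩ _ (⟨b, hb, rfl⟩ | ⟨b, hb, rfl⟩) h <;> simp only [Prod.mk.injEq] at h
      · obtain ⟨h, rfl⟩ := h
        have := hE a ha; omega
      · omega
  · simp only [toIn, List.mem_append, List.mem_map, List.mem_range, List.length_append,
      List.length_replicate]
    rintro _ (⟨a, ha, rfl⟩ | ⟨a, ha, rfl⟩) <;> simp only <;> omega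
  · simp only [toIn, List.mem_append, List.mem_map, List.mem_range, List.length_append,
      List.length_replicate]
    rintro _ (⟨a, ha, rfl⟩ | ⟨a, ha, rfl⟩ | ⟨a, ha, rfl⟩) <;> simp only <;>
      first | omega | (have := hE a ha; omega)
  · simp only [toIn, cnt, List.map_append, List.sum_append, List.map_map, Function.comp_def, lr,
      beq_iff_eq, sum_ite_eq', mem_range, sh]
    split_ifs <;> omega
  simp only [Yes, toIn, outS, inS, cost, List.map_append, List.sum_append, List.map_map,
    Function.comp_def, lr, sum_ite_eq', mem_range, sh, gd, List.length_append,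
    List.length_replicate, List.forall_mem_append, List.forall_mem_map, List.mem_range, ← hm]
  constructor
  · rintro ⟨I, i1, i2, i3⟩
    simp only at i1 i2 i3
    let x : ℕ × ℕ → ℝ := fun e => if e.2 < m then
      (if e.1 = (if ea E e.2 ∈ I then eb E e.2 else ea E e.2) then 1 else 0)
      else if e.1 ∈ I then 1 else 0
    let D : ℕ → ℝ := fun l => ∑ t ∈ range m, (if ea E t = l then x (ea E t, t) else 0) +
      ∑ t ∈ range m, (if eb E t = l then x (eb E t, t) else 0)
    have x0 : ∀ e, 0 ≤ x e ∧ x e ≤ 1 := fun e => by simp only [x]; split_ifs <;> norm_num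
    have x1 : ∀ t < m, x (ea E t, t) + x (eb E t, t) = 1 := fun t ht => by
      have := hE t ht
      by_cases h : ea E t ∈ I <;> simp [x, ht, h, this.1.ne, this.1.ne']
    have x3 : ∀ t < m, (if ea E t ∈ I then (1 : ℝ) else 0) * x (ea E t, t)
        + (if eb E t ∈ I then (1 : ℝ) else 0) * x (eb E t, t) = 0 := fun t ht => by
      have a := hE t ht
      have b := i3 _ (em ht)
      by_cases h1 : ea E t ∈ I <;> by_cases h2 : eb E t ∈ I
      · exact absurd ⟨h1, h2⟩ b
      all_goals simp [x, h1, h2, ht, a.1.ne, a.1.ne']
    have D0 : ∀ l, 0 ≤ D l := fun l => add_nonneg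
      (sum_nonneg fun t _ => by split_ifs; exacts [(x0 _).1, le_rfl])
      (sum_nonneg fun t _ => by split_ifs; exacts [(x0 _).1, le_rfl])
    have D1 : ∀ l, D l ≤ m := fun l => by
      simp only [D, ← sum_add_distrib]
      refine (sum_le_sum (g := fun _ => 1) fun t ht => ?_).trans (by simp)
      have := x1 t (mem_range.1 ht)
      have := x0 (ea E t, t)
      have := x0 (eb E t, t)
      split_ifs <;> linarith
    have D2 : ∀ l ∈ I, D l = 0 := fun l hl => by
      simp only [D, ← sum_add_distrib]
      refine sum_eq_zero fun t ht => ?_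
      have ht := mem_range.1 ht
      have := hE t ht
      have := i3 _ (em ht)
      split_ifs with h1 h2 h2 <;> simp_all [x] <;> omega
    have x2 : ∀ v, x (v, m + v) = if v ∈ I then 1 else 0 := fun v => by simp [x]
    refine ⟨fun e => if e.1 < n then D e.2 else (if e.2 ∈ I then 1 else 0), x,
      fun l => if l ∈ I then 1 else 0, ?_, ?_, ?_, ?_, ?_, ?_⟩
    · refine ⟨fun v hv => ?_, fun v hv => ?_⟩
      · have := D0 v
        have := D1 v
        simp only [hv, if_true]; push_cast
        constructor <;> linarith
      · simp only [add_lt_iff_neg_left, not_lt_zero, if_false]; split_ifs <;> norm_num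
    · simp [x0]
    · intro i hi
      by_cases h : i < n
      · have := D1 i
        simp [h, not_le.2 h]; linarith
      · simp only [h, hi, not_lt.1 h, if_true, if_false, and_self, add_lt_iff_neg_left,
          not_lt_zero]
        split_ifs <;> norm_num
    · intro l hl
      simp only [← add_assoc]
      change _ = D l + _ ∧ _ ∧ _ = _ * (D l + _)
      have := D1 l
      by_cases h : l ∈ I
      · simp [hl, h, x2, D2 l h]
      · simp [hl, h, x2]; linarith
    · intro j hj
      by_cases h : j < m
      · have := x3 j h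
        simp only [h, not_le.2 h, if_true, if_false, false_and, add_zero, x1 j h, this]
        norm_num
      · simp only [h, hj, not_lt.1 h, if_true, if_false, and_self, x2]
        split_ifs <;> norm_num
    · have a1 : ∑ t ∈ range m, (x (ea E t, t) + x (eb E t, t)) = m := by
        rw [sum_congr rfl fun t ht => x1 t (mem_range.1 ht)]; simp
      have : (k : ℝ) ≤ #I := by exact_mod_cast i2
      rw [sum_add_distrib] at a1
      simp only [Nat.cast_zero, Nat.cast_one, zero_sub, neg_mul, one_mul, sum_neg_distrib, sub_self,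
        zero_mul, sum_const_zero, add_lt_iff_neg_left, not_lt_zero, if_false, cardI i1]
      push_cast; linarith
  · rintro ⟨x, y, p, ⟨h1, h2⟩, ⟨h3, h4, -⟩, h5, h6, h7, h8⟩
    refine clean ((range n).filter fun v => 0 < x (n + v, v)) (by simp; omega) ?_
    have key : ∀ v < n, 0 < x (n + v, v) → 0 < p v := fun v hv hy => by
      obtain ⟨a1, -, a2⟩ := h6 v hv
      have a3 := (h1 v hv).1
      rw [← a1] at a2
      simp only [hv, if_true, if_false, add_lt_iff_neg_left, not_lt_zero, add_lt_add_iff_left,
        Nat.cast_zero, Nat.cast_one, zero_mul, one_mul, zero_add] at a2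
      by_contra h
      have : p v * (x (v, v) + x (n + v, v)) ≤ 0 :=
        mul_nonpos_of_nonpos_of_nonneg (not_lt.1 h) (by linarith)
      linarith
    have a1 : ∑ t ∈ range m, (y (ea E t, t) + y (eb E t, t)) ≤ ∑ t ∈ range m,
        (if ea E t ∈ (range n).filter (fun v => 0 < x (n + v, v)) ∧
          eb E t ∈ (range n).filter (fun v => 0 < x (n + v, v)) then (0 : ℝ) else 1) :=
      sum_le_sum fun t ht => by
        have ht := mem_range.1 ht
        have b := h7 t (by omega)
        simp only [ht, not_le.2 ht, if_true, if_false, false_and, add_zero, Nat.cast_zero,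
          Nat.cast_one, zero_mul] at b
        split_ifs with h
        · simp only [mem_filter, mem_range] at h
          have c1 := key _ h.1.1 h.1.2
          have c2 := key _ h.2.1 h.2.2
          have c3 := (h3 t ht).1
          have c4 := (h4 t ht).1
          have c5 := mul_nonneg c1.le c3
          have c6 := mul_nonneg c2.le c4
          have c7 : y (ea E t, t) ≤ 0 := nonpos_of_mul_nonpos_right (by linarith [b.2]) c1
          have c8 : y (eb E t, t) ≤ 0 := nonpos_of_mul_nonpos_right (by linarith [b.2]) c2
          linarith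
        · exact b.1
    have a2 : ∑ v ∈ range n, x (n + v, v) ≤ #((range n).filter fun v => 0 < x (n + v, v)) := by
      rw [card_filter]; push_cast
      refine sum_le_sum fun v hv => ?_
      have := (h2 v (mem_range.1 hv)).2
      split_ifs with h
      · simpa using this
      · linarith
    rw [sum_add_distrib] at a1
    simp only [Nat.cast_zero, Nat.cast_one, zero_sub, neg_mul, one_mul, sum_neg_distrib, sub_self,
      zero_mul, sum_const_zero] at h8
    push_cast at h8
    linarith

end Pool.Agent.H24.Pl
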