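import Pool.Agent.H11.PTDefs

set_option autoImplicit false

namespace Pool.Agent.H24.Pl

/-- an arc: (tail, head), cost `c⁺ - c⁻` given as `(c⁺, c⁻)`, capacity -/
abbrev Arc : Type := (ℕ × ℕ) × (ℕ × ℕ) × ℕ

/-- a one-quality pooling instance with integer data: inputs `(C_i, λ_i)`, pools `C_l`,
outputs `(C_j, μ_j)`; arcs input-pool, arcs pool-output; cost bound `K⁺ - K⁻` -/
abbrev Inst : Type := (List (ℕ × ℕ) × List ℕ × List (ℕ × ℕ)) × (List Arc × List Arc) × (ℕ × ℕ)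

/-- sum of `g` over the arcs with tail `v` -/
def outS (A : List Arc) (v : ℕ) (g : ℕ × ℕ → ℝ) : ℝ :=
  (A.map fun a => if a.1.1 = v then g a.1 else 0).sum

/-- sum of `g` over the arcs with head `v` -/
def inS (A : List Arc) (v : ℕ) (g : ℕ × ℕ → ℝ) : ℝ :=
  (A.map fun a => if a.1.2 = v then g a.1 else 0).sum

def cost (A : List Arc) (x : ℕ × ℕ → ℝ) : ℝ :=
  (A.map fun a => ((a.2.1.1 : ℝ) - a.2.1.2) * x a.1).sum

/-- no repeated arcs, all ends exist -/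
def WF (Y : Inst) : Prop :=
  (Y.2.1.1.map Prod.fst).Nodup ∧ (Y.2.1.2.map Prod.fst).Nodup ∧
    (∀ a ∈ Y.2.1.1, a.1.1 < Y.1.1.length ∧ a.1.2 < Y.1.2.1.length) ∧
    ∀ a ∈ Y.2.1.2, a.1.1 < Y.1.2.1.length ∧ a.1.2 < Y.1.2.2.length

/-- every input and every pool has out-degree at most two -/
def Out2 (Y : Inst) : Prop :=
  ∀ v, Y.2.1.1.countP (fun a => a.1.1 == v) ≤ 2 ∧ Y.2.1.2.countP (fun a => a.1.1 == v) ≤ 2

/-- every pool and every output has in-degree at most two -/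
def In2 (Y : Inst) : Prop :=
  ∀ v, Y.2.1.1.countP (fun a => a.1.2 == v) ≤ 2 ∧ Y.2.1.2.countP (fun a => a.1.2 == v) ≤ 2

/-- some feasible solution has cost at most the bound -/
def Yes (Y : Inst) : Prop :=
  ∃ (x y : ℕ × ℕ → ℝ) (p : ℕ → ℝ),
    (∀ a ∈ Y.2.1.1, 0 ≤ x a.1 ∧ x a.1 ≤ a.2.2) ∧ (∀ a ∈ Y.2.1.2, 0 ≤ y a.1 ∧ y a.1 ≤ a.2.2) ∧
    (∀ i < Y.1.1.length, outS Y.2.1.1 i x ≤ (Y.1.1.getD i (0, 0)).1) ∧
    (∀ l < Y.1.2.1.length, inS Y.2.1.1 l x = outS Y.2.1.2 l y ∧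
      inS Y.2.1.1 l x ≤ Y.1.2.1.getD l 0 ∧
      inS Y.2.1.1 l (fun e => (Y.1.1.getD e.1 (0, 0)).2 * x e) = p l * outS Y.2.1.2 l y) ∧
    (∀ j < Y.1.2.2.length, inS Y.2.1.2 j y ≤ (Y.1.2.2.getD j (0, 0)).1 ∧
      inS Y.2.1.2 j (fun e => p e.1 * y e) ≤ (Y.1.2.2.getD j (0, 0)).2 * inS Y.2.1.2 j y) ∧
    cost Y.2.1.1 x + cost Y.2.1.2 y ≤ (Y.2.2.1 : ℝ) - Y.2.2.2

end Pool.Agent.H24.Pl
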