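import Pool.Agent.H24.FO

set_option autoImplicit false

/-! Plactic monoids: an interpretation of arithmetic. -/

namespace Pool.Agent.H24.Plac

open FreeMonoid FO

/-- the Knuth relations -/
def Knuth (A : Type) [LinearOrder A] (u v : FreeMonoid A) : Prop :=
  ∃ x y z : A, (x ≤ y ∧ y < z ∧ u = of x * of z * of y ∧ v = of z * of x * of y) ∨
    (x < y ∧ y ≤ z ∧ u = of y * of x * of z ∧ v = of y * of z * of x)

/-- the plactic monoid `P(A)` -/
abbrev Plactic (A : Type) [LinearOrder A] : Type := PresentedMonoid (Knuth A)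

/-- meaning of the atomic formula `u = v`, where `u`, `v` are words in variables and constants -/
def eqn {M C : Type} [Monoid M] (c : C → M) (e : List (ℕ ⊕ C) × List (ℕ ⊕ C)) (σ : ℕ → M) : Prop :=
  (e.1.map (Sum.elim σ c)).prod = (e.2.map (Sum.elim σ c)).prod

section Gen
variable {M C : Type} [Monoid M] {c : C → M}

/-- word maps -/
def W (c : C → M) (F : (ℕ → M) → M) : Prop :=
  ∃ u : List (ℕ ⊕ C), ∀ σ, (u.map (Sum.elim σ c)).prod = F σ

theorem W.var (i : ℕ) : W c fun σ => σ i := ⟨[.inl i], by simp⟩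
theorem W.one : W c fun _ => 1 := ⟨[], by simp⟩
theorem W.mul {F G : (ℕ → M) → M} (h : W c F) (k : W c G) : W c fun σ => F σ * G σ :=
  let ⟨u, hu⟩ := h; let ⟨v, hv⟩ := k; ⟨u ++ v, by simp [hu, hv]⟩
theorem W.ren {F : (ℕ → M) → M} (h : W c F) (f : ℕ → ℕ) : W c fun σ => F fun i => σ (f i) := by
  obtain ⟨u, hu⟩ := h
  refine ⟨u.map (Sum.map f id), fun σ => ?_⟩
  dsimp only
  rw [← hu, List.map_map]
  congr 2
  funext x
  cases x <;> rfl

theorem deq {F G : (ℕ → M) → M} (h : W c F) (k : W c G) : Def (eqn c) fun σ => F σ = G σ :=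
  let ⟨u, hu⟩ := h; let ⟨v, hv⟩ := k; ⟨.atom (u, v), fun σ => by simp [Fm.Sat, eqn, hu, hv]⟩

theorem supp_eqn (e : List (ℕ ⊕ C) × List (ℕ ⊕ C)) (k : ℕ)
    (h : ∀ i, Sum.inl i ∈ e.1 ++ e.2 → i < k) : Supp (eqn c e) k := fun σ τ hk => by
  have : ∀ u : List (ℕ ⊕ C), (∀ i, Sum.inl i ∈ u → i < k) →
      u.map (Sum.elim σ c) = u.map (Sum.elim τ c) := fun u hu =>
    List.map_congr_left fun x hx => by
      cases x with
      | inl i => exact hk i (hu i hx)
      | inr _ => rfl
  unfold eqn
  rw [this e.1 fun i hi => h i (by simp [hi]), this e.2 fun i hi => h i (by simp [hi])]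

theorem supp_ex (e : List (ℕ ⊕ C) × List (ℕ ⊕ C)) : ∃ k, Supp (eqn c e) k :=
  ⟨((e.1 ++ e.2).map (Sum.elim id fun _ => 0)).sum + 1, supp_eqn e _ fun i hi =>
    Nat.lt_succ_of_le (List.single_le_sum (by simp) _ (List.mem_map.2 ⟨_, hi, rfl⟩))⟩

/-- irreducible elements -/
def At (x : M) : Prop := ¬ x = 1 ∧ ∀ y z, x = y * z → y = 1 ∨ z = 1
/-- powers of an irreducible element -/
def Pw (i x : M) : Prop := ∀ u j v, At j → x = u * j * v → j = i
/-- `p` is a power of `a` with the exponent of the largest power of `i` dividing `w` -/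
def Val (a w i p : M) : Prop :=
  ¬ i = a ∧ Pw a p ∧ ∃ x, Pw i x ∧ (∃ u v, w = u * x * v) ∧ (¬ ∃ u v, w = u * (x * i) * v) ∧
    x * p * a = a * (x * p) ∧ x * p * i = i * (x * p)
/-- multiplication of exponents -/
def Mu (a x y z : M) : Prop :=
  ∃ k w u, ¬ k = 1 ∧ (∀ i v, At i → k = i * v → Val a w i 1 ∧ Val a u i 1) ∧
    (∀ v j, At j → k = v * j → Val a w j z ∧ Val a u j y) ∧
    ∀ v i j v', At i → At j → k = v * i * j * v' →
      ∃ p q, Val a w i p ∧ Val a u i q ∧ Val a w j (p * x) ∧ Val a u j (q * a)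

theorem dAt {F : (ℕ → M) → M} (h : W c F) : Def (eqn c) fun σ => At (F σ) := by
  unfold At
  repeat' first
    | apply Def.and | apply Def.not | apply Def.or | apply Def.imp | apply Def.all | apply deq
    | apply W.mul | exact W.one | exact W.var _ | exact h.ren _

theorem dPw {F G : (ℕ → M) → M} (h : W c F) (k : W c G) :
    Def (eqn c) fun σ => Pw (F σ) (G σ) := by
  unfold Pw
  repeat' first
    | apply dAt | apply Def.imp | apply Def.all | apply deq
    | apply W.mul | exact W.var _ | exact h.ren _ | exact k.ren _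

theorem dVal {F G H K : (ℕ → M) → M} (h1 : W c F) (h2 : W c G) (h3 : W c H) (h4 : W c K) :
    Def (eqn c) fun σ => Val (F σ) (G σ) (H σ) (K σ) := by
  unfold Val
  repeat' first
    | apply dPw | apply Def.and | apply Def.not | apply Def.ex | apply deq
    | apply W.mul | exact W.var _ | exact h1.ren _ | exact h2.ren _ | exact h3.ren _
    | exact h4.ren _

theorem dMu (i j k l : ℕ) : Def (eqn c) fun σ => Mu (σ i) (σ j) (σ k) (σ l) := by
  unfold Mu
  repeat' first
    | apply dAt | apply dVal | apply Def.and | apply Def.not | apply Def.ex | apply Def.imp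
    | apply Def.all | apply deq | apply W.mul | exact W.one | exact W.var _

end Gen

variable {A : Type} [LinearOrder A]

/-- generators -/
abbrev g (a : A) : Plactic A := PresentedMonoid.of _ a

/-- class of a word -/
def w (l : List A) : Plactic A := (l.map g).prod

theorem w_eq (l : List A) : w l = PresentedMonoid.mk _ (ofList l) := by
  induction l with
  | nil => rfl
  | cons a l ih => rw [w, List.map_cons, List.prod_cons, ← w, ih, ofList_cons, map_mul]; rfl

theorem ex_w (x : Plactic A) : ∃ l, x = w l := by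
  obtain ⟨x, rfl⟩ := PresentedMonoid.surjective_mk x
  exact ⟨x.toList, by rw [w_eq]; rfl⟩

@[simp] theorem w_nil : w ([] : List A) = 1 := rfl
@[simp] theorem w_cons (a : A) (l : List A) : w (a :: l) = g a * w l := by simp [w]
@[simp] theorem w_append (l l' : List A) : w (l ++ l') = w l * w l' := by simp [w]

/-- weighted length -/
def wt (f : A → ℕ) : Plactic A →* Multiplicative ℕ :=
  PresentedMonoid.lift (fun a => Multiplicative.ofAdd (f a)) (by
    rintro _ _ ⟨x, y, z, ⟨-, -, rfl, rfl⟩ | ⟨-, -, rfl, rfl⟩⟩ <;>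
      simp [mul_comm, mul_left_comm])

@[simp] theorem wt_g (f : A → ℕ) (a : A) : wt f (g a) = Multiplicative.ofAdd (f a) := rfl

/-- length -/
def len (x : Plactic A) : ℕ := (wt (fun _ => 1) x).toAdd

@[simp] theorem len_mul (x y : Plactic A) : len (x * y) = len x + len y := by simp [len]
@[simp] theorem len_one : len (1 : Plactic A) = 0 := by simp [len]
@[simp] theorem len_g (a : A) : len (g a) = 1 := by simp [len]
@[simp] theorem len_pow (x : Plactic A) (n : ℕ) : len (x ^ n) = n * len x := by simp [len]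

theorem len_zero {x : Plactic A} (h : len x = 0) : x = 1 := by
  obtain ⟨l, rfl⟩ := ex_w x
  cases l <;> simp_all

theorem At_iff {x : Plactic A} : At x ↔ ∃ a, x = g a := by
  constructor
  · rintro ⟨h1, h2⟩
    obtain ⟨l, rfl⟩ := ex_w x
    cases l with
    | nil => simp at h1
    | cons a l =>
      rcases h2 _ _ (w_cons a l) with h | h
      · simpa using congrArg len h
      · exact ⟨a, by simp [h]⟩
  · rintro ⟨a, rfl⟩
    refine ⟨fun h => by simpa using congrArg len h, fun y z h => ?_⟩
    have := congrArg len h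
    simp only [len_g, len_mul] at this
    exact (show len y = 0 ∨ len z = 0 by omega).imp len_zero len_zero

theorem At_g (a : A) : At (g a) := At_iff.2 ⟨a, rfl⟩

theorem Pw.out {i x : Plactic A} (hi : At i) (h : Pw i x) : x = i ^ len x := by
  obtain ⟨l, rfl⟩ := ex_w x
  obtain ⟨a, rfl⟩ := At_iff.1 hi
  have : ∀ b ∈ l, g b = g a := fun b hb => by
    obtain ⟨s, t, rfl⟩ := List.append_of_mem hb
    exact h (w s) _ (w t) (At_g b) (by simp [mul_assoc])
  clear h
  induction l with
  | nil => simp
  | cons b l ih =>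
    rw [w_cons, this b (by simp), len_mul, len_g, add_comm, pow_succ',
      ← ih fun c hc => this c (by simp [hc])]

theorem Pw.pow (a : A) (n : ℕ) : Pw (g a) (g a ^ n) := by
  intro u j v hj h
  obtain ⟨b, rfl⟩ := At_iff.1 hj
  by_contra hn
  have hb : a ≠ b := fun e => hn (by rw [e])
  have := congrArg (fun x => (wt (fun c => if c = b then 1 else 0) x).toAdd) h
  simp [hb] at this
  omega

/-- one step of the bicyclic action -/
def st (lo hi a : A) (t : Option ℕ) : Option ℕ :=
  if a = lo then t.map (· + 1) else if a = hi then t.map (· - 1) else none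

/-- the bicyclic action attached to two letters -/
def act (lo hi : A) (h : lo < hi) : Plactic A →* Function.End (Option ℕ) :=
  PresentedMonoid.lift (M := Function.End (Option ℕ)) (st lo hi) (by
    rintro _ _ ⟨x, y, z, ⟨h1, h2, rfl, rfl⟩ | ⟨h1, h2, rfl, rfl⟩⟩ <;>
    · funext t
      change st lo hi _ (st lo hi _ (st lo hi _ t)) = st lo hi _ (st lo hi _ (st lo hi _ t))
      unfold st
      split_ifs <;> first | (exfalso; order) | (cases t <;> simp))

theorem act_mul (lo hi : A) (h : lo < hi) (x y : Plactic A) (t : Option ℕ) :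
    act lo hi h (x * y) t = act lo hi h x (act lo hi h y t) := by rw [map_mul]; rfl

theorem act_lo (lo hi : A) (h : lo < hi) (n t : ℕ) :
    act lo hi h (g lo ^ n) (some t) = some (t + n) := by
  induction n with
  | zero => rw [pow_zero, map_one]; rfl
  | succ n ih =>
    rw [pow_succ', act_mul, ih]
    change st lo hi lo _ = _
    simp [st, add_assoc]

theorem act_hi (lo hi : A) (h : lo < hi) (n t : ℕ) :
    act lo hi h (g hi ^ n) (some t) = some (t - n) := by
  induction n with
  | zero => rw [pow_zero, map_one]; rfl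
  | succ n ih =>
    rw [pow_succ', act_mul, ih]
    change st lo hi hi _ = _
    simp [st, h.ne', Nat.sub_sub]

theorem same {a b : A} (hab : b ≠ a) {n m : ℕ}
    (h1 : g b ^ n * g a ^ m * g a ^ 1 = g a ^ 1 * (g b ^ n * g a ^ m))
    (h2 : g b ^ n * g a ^ m * g b ^ 1 = g b ^ 1 * (g b ^ n * g a ^ m)) : n = m := by
  rcases hab.lt_or_gt with h | h
  · have a1 := congrArg (fun x => act b a h x (some 0)) h1
    have a2 := congrArg (fun x => act b a h x (some 0)) h2
    simp only [act_mul, act_lo, act_hi, Option.some.injEq] at a1 a2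
    omega
  · have a1 := congrArg (fun x => act a b h x (some 0)) h1
    have a2 := congrArg (fun x => act a b h x (some 0)) h2
    simp only [act_mul, act_lo, act_hi, Option.some.injEq] at a1 a2
    omega

theorem central {a b : A} (h : a < b) (n : ℕ) :
    Commute (g b ^ n * g a ^ n) (g a) ∧ Commute (g b ^ n * g a ^ n) (g b) := by
  have h1 : Commute (g b * g a) (g a) :=
    (PresentedMonoid.mk_eq_mk_of_rel (rels := Knuth A)
      ⟨a, a, b, Or.inl ⟨le_rfl, h, rfl, rfl⟩⟩).symm.trans (mul_assoc (g a) (g b) (g a))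
  have h2 : Commute (g b * g a) (g b) :=
    (PresentedMonoid.mk_eq_mk_of_rel (rels := Knuth A)
      ⟨a, b, b, Or.inr ⟨h, le_rfl, rfl, rfl⟩⟩).trans (mul_assoc (g b) (g b) (g a))
  have : g b ^ n * g a ^ n = (g b * g a) ^ n := by
    induction n with
    | zero => simp
    | succ n ih =>
      rw [pow_succ', pow_succ, pow_succ, ← ih, ← mul_assoc, mul_assoc (g b), ih,
        ← (h2.pow_left n).eq, mul_assoc]
  rw [this]
  exact ⟨h1.pow_left n, h2.pow_left n⟩

theorem row {l l' : List A} (hl : l.Pairwise (· ≤ ·)) (h : w l = w l') : l = l' := by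
  rw [w_eq, w_eq, PresentedMonoid.mk_eq_mk_iff] at h
  have : ∀ x y : FreeMonoid A, ConGen.Rel (Knuth A) x y →
      (x.toList.Pairwise (· ≤ ·) → x = y) ∧ (y.toList.Pairwise (· ≤ ·) → x = y) := by
    intro x y h
    induction h with
    | of x y h =>
      rcases h with ⟨x, y, z, ⟨h1, h2, rfl, rfl⟩ | ⟨h1, h2, rfl, rfl⟩⟩ <;>
        constructor <;> intro h <;> simp at h <;> order
    | refl => simp
    | symm _ ih => exact ⟨fun h => (ih.2 h).symm, fun h => (ih.1 h).symm⟩
    | trans _ _ ih ih' =>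
      exact ⟨fun h => (ih.1 h).trans (ih'.1 (ih.1 h ▸ h)),
        fun h => (ih.2 ((ih'.2 h).symm ▸ h)).trans (ih'.2 h)⟩
    | mul _ _ ih ih' =>
      simp only [toList_mul, List.pairwise_append]
      exact ⟨fun h => by rw [ih.1 h.1, ih'.1 h.2.1], fun h => by rw [ih.2 h.1, ih'.2 h.2.1]⟩
  exact ofList.injective ((this _ _ h).1 hl)

/-- the largest power of `i` dividing `x` -/
def Mx (x i : Plactic A) (k : ℕ) : Prop :=
  (∃ u v, x = u * i ^ k * v) ∧ ¬ ∃ u v, x = u * i ^ (k + 1) * v

theorem Mx.uniq {x i : Plactic A} {k l : ℕ} (h : Mx x i k) (h' : Mx x i l) : k = l := by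
  have : ∀ k l, Mx x i k → Mx x i l → ¬ k < l := fun k l h h' e => by
    obtain ⟨d, rfl⟩ := Nat.exists_eq_add_of_lt e
    obtain ⟨u, v, e⟩ := h'.1
    exact h.2 ⟨u, i ^ d * v, by rw [e, add_right_comm, pow_add i (k + 1), ← mul_assoc, ← mul_assoc]⟩
  have a1 := this k l h h'
  have a2 := this l k h' h
  omega

theorem Val.out {a b : A} {x p : Plactic A} (h : Val (g a) x (g b) p) : Mx x (g b) (len p) := by
  obtain ⟨h1, h2, y, h3, h4, h5, h6, h7⟩ := h
  rw [h2.out (At_g a), h3.out (At_g b)] at h6 h7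
  have : len y = len p :=
    same (a := a) (b := b) (fun e => h1 (by rw [e])) (by rwa [pow_one]) (by rwa [pow_one])
  rw [← this, Mx, pow_succ, ← h3.out (At_g b)]
  exact ⟨h4, h5⟩

theorem Val.intro {a : A} {c : ℕ → A} (hc : StrictMono c) (ha : ∀ t, a < c t) (f : ℕ → ℕ)
    {t N : ℕ} (ht : t < N) :
    Val (g a) ((List.range N).map fun s => g (c s) ^ f s).prod (g (c t)) (g a ^ f t) := by
  refine ⟨fun h => ?_, Pw.pow _ _, _, Pw.pow _ (f t), ?_, ?_, (central (ha t) _).1,
    (central (ha t) _).2⟩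
  · simpa [(ha t).ne'] using congrArg (fun x => (wt (fun c => if c = a then 1 else 0) x).toAdd) h
  · obtain ⟨s, t, e⟩ := List.append_of_mem (List.mem_range.2 ht)
    exact ⟨_, _, by rw [e, List.map_append, List.prod_append, List.map_cons, List.prod_cons,
      mul_assoc]⟩
  · rintro ⟨u, v, e⟩
    have := congrArg (fun x => (wt (fun d => if d = c t then 1 else 0) x).toAdd) e
    simp only [map_list_prod, toAdd_list_sum, List.map_map, Function.comp_def, map_pow, wt_g,
      toAdd_pow, toAdd_ofAdd, hc.injective.eq_iff, map_mul, toAdd_mul, smul_eq_mul, mul_ite,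
      mul_one, mul_zero, if_true] at this
    have e2 : ((List.range N).map fun x => if x = t then f x else 0).sum = f t := by
      exact (Finset.sum_ite_eq' (Finset.range N) t f).trans (by simp [ht])
    omega

theorem Mu.out {a : A} {x y z : Plactic A} (h : Mu (g a) x y z) : len x * len y = len z := by
  obtain ⟨k, v, u, h0, h1, h2, h3⟩ := h
  have : ∀ (l : List A) (c : A) (s : Plactic A) (n : ℕ), k = s * w (c :: l) →
      Mx v (g c) (len x * n) → Mx u (g c) n → len x * len y = len z := by
    intro l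
    induction l with
    | nil =>
      intro c s n e a1 a2
      obtain ⟨b1, b2⟩ := h2 s _ (At_g c) (by simpa using e)
      rw [b1.out.uniq a1, b2.out.uniq a2]
    | cons d l ih =>
      intro c s n e a1 a2
      obtain ⟨p, q, b1, b2, b3, b4⟩ := h3 s _ _ (w l) (At_g c) (At_g d) (by simp [e, mul_assoc])
      refine ih d (s * g c) (n + 1) (by simp [e, mul_assoc]) ?_ ?_
      · simpa [b1.out.uniq a1, mul_add] using b3.out
      · simpa [b2.out.uniq a2] using b4.out
  obtain ⟨l, rfl⟩ := ex_w k
  cases l with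
  | nil => simp at h0
  | cons c l =>
    obtain ⟨b1, b2⟩ := h1 _ _ (At_g c) (w_cons c l)
    exact this l c 1 0 (by simp) (by simpa using b1.out) (by simpa using b2.out)

theorem Mu.intro {a : A} {c : ℕ → A} (hc : StrictMono c) (ha : ∀ t, a < c t) (x y : ℕ) :
    Mu (g a) (g a ^ x) (g a ^ y) (g a ^ (x * y)) := by
  have hs : ((List.range (y + 1)).map c).Pairwise (· ≤ ·) :=
    List.pairwise_map.2 (List.pairwise_lt_range.imp fun h => (hc h).le)
  have key : ∀ s i t, (List.range (y + 1)).map c = s ++ i :: t →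
      i = c s.length ∧ s.length + t.length = y := fun s i t e => by
    have h1 := congrArg List.length e
    have h2 := congrArg (·[s.length]?) e
    simp only [List.length_map, List.length_range, List.length_append, List.length_cons,
      List.getElem?_map, List.getElem?_append_right le_rfl, Nat.sub_self,
      List.getElem?_cons_zero] at h1 h2
    rw [List.getElem?_range (by omega)] at h2
    exact ⟨by simpa using h2.symm, by omega⟩
  have v1 := fun t => Val.intro hc ha (fun s => x * s) (t := t) (N := y + 1)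
  have v2 := fun t => Val.intro hc ha (fun s => s) (t := t) (N := y + 1)
  refine ⟨w ((List.range (y + 1)).map c),
    ((List.range (y + 1)).map fun s => g (c s) ^ (x * s)).prod,
    ((List.range (y + 1)).map fun s => g (c s) ^ s).prod, fun h => ?_, fun i v hi e => ?_,
    fun v j hj e => ?_, fun v i j v' hi hj e => ?_⟩
  rotate_left
  · obtain ⟨i, rfl⟩ := At_iff.1 hi
    obtain ⟨l, rfl⟩ := ex_w v
    obtain ⟨rfl, -⟩ := key [] i l (row hs (by simp [e]))
    exact ⟨by simpa using v1 0 (by omega), by simpa using v2 0 (by omega)⟩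
  · obtain ⟨j, rfl⟩ := At_iff.1 hj
    obtain ⟨l, rfl⟩ := ex_w v
    obtain ⟨rfl, h⟩ := key l j [] (row hs (by simp [e]))
    rw [show l.length = y by simpa using h]
    exact ⟨v1 y (by omega), v2 y (by omega)⟩
  · obtain ⟨i, rfl⟩ := At_iff.1 hi
    obtain ⟨j, rfl⟩ := At_iff.1 hj
    obtain ⟨l, rfl⟩ := ex_w v
    obtain ⟨l', rfl⟩ := ex_w v'
    obtain ⟨rfl, h⟩ := key l i (j :: l') (row hs (by simp [e, mul_assoc]))
    obtain ⟨rfl, -⟩ := key (l ++ [c l.length]) j l' (row hs (by simp [e, mul_assoc]))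
    simp only [List.length_cons, List.length_append, List.length_nil, zero_add] at h ⊢
    refine ⟨_, _, v1 _ (by omega), v2 _ (by omega), ?_, ?_⟩
    · rw [← pow_add, ← mul_add_one]; exact v1 _ (by omega)
    · rw [← pow_succ]; exact v2 _ (by omega)
  · simpa [List.range_succ] using congrArg len h

theorem undec {C : Type} [Primcodable C] (cs : C → Plactic A) {c : ℕ → A} (hc : StrictMono c) :
    ¬ ComputablePred fun n : ℕ => ∃ φ : Fm (List (ℕ ⊕ C) × List (ℕ ⊕ C)),
      φ.code = n ∧ φ.Sat (eqn cs) fun _ => 1 := by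
  obtain ⟨L, p, o, hK⟩ := H10.h10sys
  refine FO.undec supp_ex hK (Def.list
    (R := fun (k : Bool × ℕ × ℕ × ℕ) σ =>
      if k.1 then σ (k.2.1 + 1) * σ (k.2.2.1 + 1) = σ (k.2.2.2 + 1)
      else Mu (σ 0) (σ (k.2.1 + 1)) (σ (k.2.2.1 + 1)) (σ (k.2.2.2 + 1)))
    ((dAt (W.var 0)).and (deq (W.var (o + 1)) (W.var 0))) L fun k => ?_)
    (fun n => ([.inl (p + 1)], List.replicate n (.inl 0)))
    ((Primrec.const _).pair (H10.prim_replicate _)).to_comp (p + 2)
    (fun n => supp_eqn _ _ fun i hi => ?_) (fun n => ⟨?_, ?_⟩) _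
  · split_ifs
    exacts [deq ((W.var _).mul (W.var _)) (W.var _), dMu _ _ _ _]
  · simp at hi
    omega
  · rintro ⟨v, h1, h2, h3⟩
    refine ⟨fun i => Nat.casesOn i (g (c 0)) fun i => g (c 0) ^ v i, by simp [eqn, h1],
      ⟨At_g _, by simp [h2]⟩, fun k hk => ?_⟩
    have := h3 k hk
    unfold H10.Con at this
    split_ifs at this ⊢
    · simp [← this, pow_add]
    · dsimp only
      rw [← this]
      exact Mu.intro (c := fun t => c (t + 1)) (fun _ _ h => hc (by omega))
        (fun t => hc (by omega)) _ _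
  · rintro ⟨σ, h1, ⟨h2, h3⟩, h4⟩
    obtain ⟨a, ha⟩ := At_iff.1 h2
    refine ⟨fun i => len (σ (i + 1)), ?_, by simp [h3, ha], fun k hk => ?_⟩
    · simpa [eqn, ha] using congrArg len h1
    · have := h4 k hk
      unfold H10.Con
      split_ifs at this ⊢
      · dsimp only
        rw [← this, len_mul]
      · rw [ha] at this
        exact this.out

end Pool.Agent.H24.Plac
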