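import Mathlib

set_option autoImplicit false
open FirstOrder FirstOrder.Language

namespace Pool.Agent.H24.Plotkin

universe u v w w'

/-- A set of identities: pairs of terms in finitely many variables. -/
abbrev Identities (L : FirstOrder.Language.{u, v}) :=
  Set (Σ n : ℕ, L.Term (Fin n) × L.Term (Fin n))

/-- `M` satisfies all identities of `E`. -/
def Sat {L : FirstOrder.Language.{u, v}} (E : Identities L) (M : Type w) [L.Structure M] : Prop :=
  ∀ e ∈ E, ∀ v : Fin e.1 → M, e.2.1.realize v = e.2.2.realize v

/-- `F` with the tuple `ι` is the free algebra of rank `n` of the variety defined by `E`. -/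
def IsFree {L : FirstOrder.Language.{u, v}} (E : Identities L) (F : Type w) [L.Structure F]
    {n : ℕ} (ι : Fin n → F) : Prop :=
  Sat E F ∧ ∀ (M : Type w) [L.Structure M], Sat E M → ∀ f : Fin n → M,
    ∃! h : L.Hom F M, ⇑h ∘ ι = f

/-- The tuples `a` and `b` satisfy the same first-order formulas. -/
def SameType (L : FirstOrder.Language.{u, v}) {A : Type w} {B : Type w'} [L.Structure A]
    [L.Structure B] {m : ℕ} (a : Fin m → A) (b : Fin m → B) : Prop :=
  ∀ φ : L.Formula (Fin m), φ.Realize a ↔ φ.Realize b

/-- `A` and `B` realize the same types of finite tuples. -/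
def Isotypic (L : FirstOrder.Language.{u, v}) (A : Type w) (B : Type w') [L.Structure A]
    [L.Structure B] : Prop :=
  ∀ m : ℕ, (∀ a : Fin m → A, ∃ b : Fin m → B, SameType L a b) ∧
    (∀ b : Fin m → B, ∃ a : Fin m → A, SameType L a b)

end Pool.Agent.H24.Plotkin
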