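import Pool.Agent.H24.Plt1

set_option autoImplicit false

namespace Pool.Agent.H24.Plt
open Pool.Agent.H11.PT Pool.Agent.H24.Bz

def Row (y : Y) (R : List ℕ) : Prop := R.length ≤ y.1 ∧ ∀ a < R.length, R.getD a 0 < y.1 ∧
  ∀ b < R.length, (R.getD a 0 = R.getD b 0 → a = b) ∧
    (ad y (R.getD a 0) (R.getD b 0) = true ↔ a + 1 = b ∨ b + 1 = a)

def rowB (y : Y) (R : List ℕ) : Bool := decide (R.length ≤ y.1) &&
  (List.range R.length).all fun a => decide (R.getD a 0 < y.1) && (List.range R.length).all fun b =>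
    (R.getD a 0 != R.getD b 0 || a == b) &&
      (ad y (R.getD a 0) (R.getD b 0) == (a + 1 == b || b + 1 == a))

theorem rowB_iff (y : Y) (R : List ℕ) : rowB y R = true ↔ Row y R := by
  simp only [rowB, Row, Bool.and_eq_true, decide_eq_true_eq, List.all_eq_true, List.mem_range,
    Bool.or_eq_true, bne_iff_ne, beq_iff_eq, Bool.eq_iff_iff (b := _ || _), imp_iff_not_or]

def okR (y : Y) (k : ℕ × ℕ) (R : List ℕ) : Bool :=
  rowB y R && decide (0 < R.length) && R.getD 0 0 == k.1 && R.getD (R.length - 1) 0 == k.2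

def genR (y : Y) (S : List (List ℕ)) : List (List ℕ) :=
  (List.range y.1 ×ˢ ([] :: S)).map fun p => p.1 :: p.2

def rows (y : Y) (k : ℕ) : List (List ℕ) :=
  (fun S => kst (List.range y.1 ×ˢ List.range y.1) (okR y) (genR y S))^[k] []

theorem row_mem {y : Y} {R : List ℕ} (h : Row y R) : ∀ x ∈ R, x < y.1 := fun x hx => by
  obtain ⟨a, ha, rfl⟩ := List.getElem_of_mem hx
  simpa [ha] using (h.2 a ha).1

theorem sz_le {R : List ℕ} {n : ℕ} (h1 : R.length ≤ n) (h2 : ∀ x ∈ R, x < n) :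
    sz R ≤ n * (2 * n + 2) + 1 := by
  have := sz_map_le (l := R) id (S := 2 * n + 1) fun a ha => by
    have := h2 a ha; simp only [id, sz_nat]; omega
  rw [List.map_id] at this
  nlinarith

theorem pt_rows : PT fun y : Y => rows y y.1 :=
  pt_tab (B := fun y => y.1 * (2 * y.1 + 2) + 1) (by fun_prop)
    (by unfold okR rowB ad; fun_prop) (by unfold genR; fun_prop) (by fun_prop) (by fun_prop)
    fun y k c h => by
      simp only [okR, Bool.and_eq_true, rowB_iff] at h
      exact sz_le h.1.1.1.1 (row_mem h.1.1.1)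

theorem uniq {y : Y} (hy : (gr y.1 y.2).IsAcyclic) {R S : List ℕ} {k : ℕ × ℕ}
    (h1 : okR y k R = true) (h2 : okR y k S = true) : R = S := by
  simp only [okR, Bool.and_eq_true, rowB_iff, decide_eq_true_eq, beq_iff_eq] at h1 h2
  have h0 : 0 < y.1 := by have := h1.1.1.1.1; omega
  let φ : ℕ → Fin y.1 := fun x => if h : x < y.1 then ⟨x, h⟩ else ⟨0, h0⟩
  have e : ∀ x < y.1, (φ x).1 = x := fun x hx => by simp [φ, hx]
  have w : ∀ R : List ℕ, ((Row y R ∧ 0 < R.length) ∧ R.getD 0 0 = k.1) ∧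
      R.getD (R.length - 1) 0 = k.2 → ∃ p : (gr y.1 y.2).Path (φ k.1) (φ k.2),
        p.1.support.map Fin.val = R := fun R ⟨⟨⟨a1, a2⟩, a3⟩, a4⟩ => by
    have b0 : (R.map φ).map Fin.val = R := by
      rw [List.map_map]
      exact (List.map_congr_left fun x hx => e x (row_mem a1 x hx)).trans (List.map_id _)
    have b1 : R.map φ ≠ [] := by simpa [← List.length_pos_iff] using a2
    have b2 : (R.map φ).IsChain (gr y.1 y.2).Adj := List.isChain_iff_getElem.2 fun i hi => by
      simp only [List.length_map] at hi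
      rw [ad_iff, List.getElem_map, List.getElem_map, e _ (row_mem a1 _ (List.getElem_mem _)),
        e _ (row_mem a1 _ (List.getElem_mem _))]
      simpa [hi, show i < R.length by omega] using
        ((a1.2 i (by omega)).2 (i + 1) hi).2.2 (.inl rfl)
    have b3 : (R.map φ).Nodup := List.Nodup.of_map Fin.val (by
      rw [b0]
      exact List.nodup_iff_injective_getElem.2 fun a b h => Fin.ext
        (((a1.2 a a.2).2 b b.2).1 (by simpa using h)))
    refine ⟨⟨(SimpleGraph.Walk.ofSupport _ b1 b2).copy ?_ ?_, ?_⟩, by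
      rw [SimpleGraph.Walk.support_copy, SimpleGraph.Walk.support_ofSupport, b0]⟩
    · rw [← a3, List.head_eq_getElem]; simp [a2]
    · rw [← a4, List.getLast_eq_getElem]; simp [show R.length - 1 < R.length by omega]
    · simp [SimpleGraph.Walk.isPath_def, b3]
  obtain ⟨p, rfl⟩ := w R h1
  obtain ⟨q, rfl⟩ := w S h2
  rw [Subsingleton.elim (h := SimpleGraph.isAcyclic_iff_subsingleton_path.1 hy _ _) p q]

theorem rows1 {y : Y} {k : ℕ} {R : List ℕ} (h : R ∈ rows y k) : Row y R := by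
  cases k with
  | zero => simp [rows] at h
  | succ k =>
    rw [rows, Function.iterate_succ_apply'] at h
    obtain ⟨-, κ, -, h⟩ := kst1 h
    simp only [okR, Bool.and_eq_true, rowB_iff] at h
    exact h.1.1.1

theorem rows2 {y : Y} (hy : (gr y.1 y.2).IsAcyclic) (k : ℕ) : ∀ R, Row y R → 0 < R.length →
    R.length ≤ k → R ∈ rows y k := by
  induction k with
  | zero => intro R _ _ _; omega
  | succ k ih =>
    rintro (_ | ⟨s, R⟩) h1 h2 h3
    · simp at h2
    have a : okR y (s, (s :: R).getD R.length 0) (s :: R) = true := by simp [okR, rowB_iff, h1]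
    rw [rows, Function.iterate_succ_apply']
    obtain ⟨c, c1, c2⟩ := kst2 (K := List.range y.1 ×ˢ List.range y.1) (C := genR y (rows y k))
      (List.mem_product.2 ⟨List.mem_range.2 (row_mem h1 s (by simp)),
        List.mem_range.2 (h1.2 _ (by simp)).1⟩)
      (List.mem_map.2 ⟨(s, R), List.mem_product.2 ⟨List.mem_range.2 (row_mem h1 s (by simp)), by
        rcases R with _ | ⟨t, R⟩
        · simp
        · refine List.mem_cons_of_mem _ (ih _ ⟨Nat.le_of_succ_le h1.1, fun a ha => ?_⟩ (by simp)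
            (by simpa using h3))
          have := h1.2 (a + 1) (by simpa using ha)
          exact ⟨this.1, fun b hb => by simpa using this.2 (b + 1) (by simpa using hb)⟩⟩, rfl⟩) a
    exact uniq hy c2 a ▸ c1

abbrev En := List ℕ × ℕ × ℕ

def join (y : Y) (R : List ℕ) (c : En) : Bool := decide (c.2.2 < R.length) &&
  R.all fun x => !c.1.contains x && c.1.all fun z =>
    ad y x z == (x == R.getD (R.length - 1 - c.2.2) 0 && z == c.2.1)

def gen (y : Y) (Rs : List (List ℕ)) (S : List En) : List En := Rs.flatMap fun R =>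
  (List.range R.length).flatMap fun d => (R, R.getD d 0, d) :: (S.filter (join y R)).map fun c =>
    ((List.range y.1).filter fun x => R.contains x || c.1.contains x, R.getD d 0, d)

def okC (y : Y) (k : ℕ × ℕ × ℕ) (c : En) : Bool := decide (c.1.length ≤ y.1) &&
  decide (c.2.2 < y.1) && c.2 == k.2 && !c.1.contains k.1 && c.1.contains k.2.1 &&
  c.1.all fun x => decide (x < y.1) && (List.range y.1).all fun z =>
    c.1.contains z || !ad y x z || (x == k.2.1 && z == k.1)

def tab (y : Y) (Rs : List (List ℕ)) (k : ℕ) : List En :=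
  (fun S => kst (List.range y.1 ×ˢ List.range y.1 ×ˢ List.range y.1) (okC y) (gen y Rs S))^[k] []

def alg (y : Y) : Bool := (gen y (rows y y.1) (tab y (rows y y.1) y.1)).any fun c =>
  (List.range y.1).all c.1.contains

theorem okC_iff (y : Y) (k : ℕ × ℕ × ℕ) (c : En) : okC y k c = true ↔ c.1.length ≤ y.1 ∧
    c.2.2 < y.1 ∧ c.2 = k.2 ∧ k.1 ∉ c.1 ∧ k.2.1 ∈ c.1 ∧ ∀ x ∈ c.1, x < y.1 ∧ ∀ z < y.1,
      z ∉ c.1 → ad y x z = true → x = k.2.1 ∧ z = k.1 := by
  simp only [okC, Bool.and_eq_true, decide_eq_true_eq, beq_iff_eq, Bool.not_eq_true',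
    List.contains_eq_mem, decide_eq_false_iff_not, List.all_eq_true, List.mem_range,
    Bool.or_eq_true, and_assoc, or_assoc, imp_iff_not_or (b := _ ∧ _), ← or_iff_not_imp_left,
    Bool.not_eq_true]

theorem pt_alg : PT alg := by
  have h1 : PT fun p : (Y × List (List ℕ)) × List En => gen p.1.1 p.1.2 p.2 := by
    unfold gen join ad; fun_prop
  have h2 : PT fun p : Y × List (List ℕ) => tab p.1 p.2 p.1.1 :=
    pt_tab (B := fun p => p.1.1 * (2 * p.1.1 + 2) + 4 * p.1.1 + 5) (by fun_prop)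
      (by unfold okC ad; fun_prop) h1 (by fun_prop) (by fun_prop) fun y k ⟨W, v, d⟩ h => by
        obtain ⟨a1, a2, e, -, a3, a4⟩ := (okC_iff _ _ _).1 h
        rw [← e] at a3
        have := sz_le a1 fun x hx => (a4 x hx).1
        have := (a4 _ a3).1
        simp only [sz_pair, sz_nat] at *
        omega
  have h3 : PT fun y : Y => (y, rows y y.1) := PT.pair PT.id pt_rows
  unfold alg
  exact PT.any (h1.comp (PT.pair h3 (h2.comp h3))) (by fun_prop)

theorem gd_bij {y : Y} {R : List ℕ} (h : Row y R) :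
    Set.BijOn (R.getD · 0) {a | a < R.length} {x | x ∈ R} :=
  ⟨fun a (ha : a < R.length) => by simp [ha], fun a ha b hb e => ((h.2 a ha).2 b hb).1 e,
    fun x hx => by
      obtain ⟨a, ha, rfl⟩ := List.getElem_of_mem hx
      exact ⟨a, ha, by simp [ha]⟩⟩

theorem sf1 {y : Y} {R : List ℕ} (h : Row y R) {d : ℕ} (hd : d < R.length) :
    Sf y {x | x ∈ R} (R.getD d 0) d :=
  ⟨R.length, (R.getD · 0), fun _ => 0, gd_bij h, fun i hi => ⟨by simp, by simpa [add_comm] using hi,
    fun _ _ _ _ => rfl⟩, fun a ha b hb => ((h.2 a ha).2 b hb).2.trans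
      ⟨fun e => ⟨min a b, by omega, by simp only; omega⟩, fun ⟨i, _, e⟩ => by simp only at e; omega⟩,
    hd, rfl, fun _ _ => rfl⟩

theorem sf2 {y : Y} {R : List ℕ} (h : Row y R) {d : ℕ} (hd : d < R.length) {c : En}
    (h1 : Sf y {x | x ∈ c.1} c.2.1 c.2.2) (h2 : join y R c = true) :
    Sf y ({x | x ∈ R} ∪ {x | x ∈ c.1}) (R.getD d 0) d := by
  obtain ⟨W, v, δ⟩ := c
  obtain ⟨m, f, D, a1, a2, a3, a4, a5, a6⟩ := h1
  simp only [join, Bool.and_eq_true, decide_eq_true_eq, List.all_eq_true, Bool.not_eq_true',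
    List.contains_eq_mem, decide_eq_false_iff_not, beq_iff_eq,
    Bool.eq_iff_iff (b := _ && _)] at h2 a1 a4 a5 a6
  obtain ⟨j1, j2⟩ := h2
  have g := gd_bij h
  generalize hr : R.length = r at *
  have x1 : ∀ a < r, ∀ b < m, ad y (R.getD a 0) (f b) = true ↔ a = r - 1 - δ ∧ b = δ :=
    fun a ha b hb => ((j2 _ (g.1 ha)).2 _ (a1.1 hb)).trans (and_congr
      (g.2.1.eq_iff ha (show r - 1 - δ < r by omega)) (a5 ▸ a1.2.1.eq_iff hb a4))
  let D' : ℕ → ℕ := fun i => if i + 1 < r then 0 else if i + 1 = r then δ else D (i - r)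
  have d1 : ∀ i, (i + 1 < r ∧ D' i = 0) ∨ (i + 1 = r ∧ D' i = δ) ∨ (r ≤ i ∧ D' i = D (i - r)) :=
    fun i => by simp only [D']; split_ifs <;> omega
  have g1 : ∀ a < r, ∀ b < m, Rg (r + m) D' a (r + b) ↔ a = r - 1 - δ ∧ b = δ := fun a ha b hb => by
    refine ⟨fun ⟨i, hi, e⟩ => ?_, fun e => ⟨r - 1, by omega, ?_⟩⟩
    · have := d1 i
      have := a2 (i - r)
      omega
    · have := d1 (r - 1)
      omega
  have sy : ∀ n D a b, Rg n D a b ↔ Rg n D b a := fun n D a b =>
    exists_congr fun _ => and_congr_right' or_comm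
  refine ⟨r + m, fun a => if a < r then R.getD a 0 else f (a - r), D', ⟨?_, ?_, ?_⟩, ?_, ?_,
    by omega, if_pos hd, fun j hj => by have := d1 j; omega⟩
  · intro a (ha : a < r + m)
    simp only
    split_ifs with e
    exacts [.inl (g.1 e), .inr (a1.1 (show a - r < m by omega))]
  · intro a (ha : a < r + m) b (hb : b < r + m) e
    simp only at e
    split_ifs at e with e1 e2 e2
    · exact g.2.1 e1 e2 e
    · exact absurd (by simp only [e]; exact a1.1 (show b - r < m by omega)) (j2 _ (g.1 e1)).1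
    · exact absurd (by simp only [← e]; exact a1.1 (show a - r < m by omega)) (j2 _ (g.1 e2)).1
    · have := a1.2.1 (show a - r < m by omega) (show b - r < m by omega) e
      omega
  · rintro x (hx | hx)
    · obtain ⟨a, ha : a < r, rfl⟩ := g.2.2 hx
      exact ⟨a, show a < r + m by omega, if_pos ha⟩
    · obtain ⟨a, ha : a < m, rfl⟩ := a1.2.2 hx
      exact ⟨r + a, show r + a < r + m by omega, by simp⟩
  · intro i hi
    have := d1 i
    have b := a2 (i - r)
    refine ⟨by omega, by omega, fun j _ _ _ => ?_⟩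
    have := d1 j
    have := a6 (j - r)
    by_cases e : r ≤ i
    · have b := b (by omega)
      have := b.2.2 (j - r)
      omega
    · omega
  · intro a ha b hb
    simp only
    split_ifs with e1 e2 e2
    · refine ((h.2 a (hr ▸ e1)).2 b (hr ▸ e2)).2.trans ⟨fun e => ⟨min a b, by omega, ?_⟩,
        fun ⟨i, _, e⟩ => ?_⟩
      · have := d1 (min a b); omega
      · have := d1 i; omega
    · rw [x1 a e1 _ (by omega), ← g1 a e1 _ (by omega), show r + (b - r) = b by omega]
    · rw [ad_comm, sy, x1 b e2 _ (by omega), ← g1 b e2 _ (by omega), show r + (a - r) = a by omega]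
    · refine (a3 _ (by omega) _ (by omega)).trans ⟨fun ⟨i, hi, e⟩ => ⟨r + i, by omega, ?_⟩,
        fun ⟨i, hi, e⟩ => ⟨i - r, ?_⟩⟩
      · have := d1 (r + i)
        have := a2 i hi
        rw [Nat.add_sub_cancel_left] at *
        omega
      · have := d1 i
        have := a2 (i - r)
        omega

theorem mem_gen {y : Y} {Rs : List (List ℕ)} {S : List En} {c : En} : c ∈ gen y Rs S ↔
    ∃ R ∈ Rs, ∃ d < R.length, c = (R, R.getD d 0, d) ∨ ∃ c' ∈ S, join y R c' = true ∧
      ((List.range y.1).filter fun x => R.contains x || c'.1.contains x, R.getD d 0, d) = c := by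
  simp only [gen, List.mem_flatMap, List.mem_range, List.mem_cons, List.mem_map, List.mem_filter,
    and_assoc]

theorem sound (y : Y) (k : ℕ) : ∀ c ∈ gen y (rows y y.1) (tab y (rows y y.1) k),
    (∀ x ∈ c.1, x < y.1) ∧ Sf y {x | x ∈ c.1} c.2.1 c.2.2 := by
  induction k with
  | zero =>
    intro c hc
    obtain ⟨R, h1, d, hd, rfl | ⟨_, h, _⟩⟩ := mem_gen.1 hc
    · exact ⟨row_mem (rows1 h1), sf1 (rows1 h1) hd⟩
    · simp [tab] at h
  | succ k ih =>
    intro c hc
    obtain ⟨R, h1, d, hd, rfl | ⟨c', h, h2, rfl⟩⟩ := mem_gen.1 hc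
    · exact ⟨row_mem (rows1 h1), sf1 (rows1 h1) hd⟩
    · rw [tab, Function.iterate_succ_apply'] at h
      obtain ⟨a1, a2⟩ := ih c' (kst1 h).1
      refine ⟨fun x hx => List.mem_range.1 (List.mem_filter.1 hx).1, ?_⟩
      convert sf2 (rows1 h1) hd a2 h2 using 1
      ext x
      have := row_mem (rows1 h1) x
      have := a1 x
      simp only [List.mem_filter, List.mem_range, Set.mem_union, Set.mem_ofPred_eq, Bool.or_eq_true,
        List.contains_eq_mem, decide_eq_true_eq]
      tauto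

theorem det {y : Y} (hy : (gr y.1 y.2).Connected) {k : ℕ × ℕ × ℕ} {c c' : En}
    (h : okC y k c = true) (h' : okC y k c' = true) : ∀ x ∈ c.1, x ∈ c'.1 := by
  obtain ⟨-, -, -, a1, a2, a3⟩ := (okC_iff _ _ _).1 h
  obtain ⟨-, -, -, b1, b2, b3⟩ := (okC_iff _ _ _).1 h'
  intro x hx
  by_contra h2
  have : ∀ u v : Fin y.1, (gr y.1 y.2).Walk u v → u.1 ∈ c.1 → u.1 ∉ c'.1 → v.1 ∉ c'.1 := by
    intro u v p
    induction p with
    | nil => exact fun _ h => h
    | @cons u w v e _ ih =>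
      intro h1 h2
      rw [ad_iff] at e
      refine ih (by_contra fun h => h2 (((a3 _ h1).2 _ w.2 h e).1 ▸ b2)) fun h => a1 ?_
      exact ((b3 _ h).2 _ u.2 h2 (ad_comm y _ _ ▸ e)).2 ▸ h1
  obtain ⟨p⟩ := hy ⟨x, (a3 x hx).1⟩ ⟨_, (a3 _ a2).1⟩
  exact this _ _ p hx h2 b2

theorem complete {y : Y} (hy : (gr y.1 y.2).IsTree) {f D : ℕ → ℕ}
    (h1 : Set.BijOn f {a | a < y.1} {a | a < y.1}) (h2 : Dok y.1 D)
    (h3 : ∀ a < y.1, ∀ b < y.1, ad y (f a) (f b) = true ↔ Rg y.1 D a b) (k : ℕ) :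
    ∀ i d, i + d < y.1 → y.1 ≤ i + k + 1 → (i = 0 ∨ D (i - 1) ≠ 0) →
      (∀ j, i ≤ j → j < i + d → D j = 0) → ∃ c ∈ gen y (rows y y.1) (tab y (rows y y.1) k),
        c.1.length ≤ y.1 ∧ c.2 = (f (i + d), d) ∧
          ∀ x, x ∈ c.1 ↔ ∃ a, i ≤ a ∧ a < y.1 ∧ f a = x := by
  have row : ∀ i r, 0 < r → i + r ≤ y.1 → (i = 0 ∨ D (i - 1) ≠ 0) →
      (∀ j, i ≤ j → j + 1 < i + r → D j = 0) → ∃ R ∈ rows y y.1, R.length = r ∧
        (∀ a < r, R.getD a 0 = f (i + a)) ∧ ∀ x, x ∈ R ↔ ∃ a, i ≤ a ∧ a < i + r ∧ f a = x := by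
    intro i r a1 a2 a3 a4
    have e : ∀ a < r, ((List.range r).map fun a => f (i + a)).getD a 0 = f (i + a) :=
      fun a ha => by simp [List.getD_eq_getElem?_getD, ha]
    refine ⟨(List.range r).map fun a => f (i + a), rows2 hy.isAcyclic _ _
      ⟨by simp; omega, fun a ha => ?_⟩ (by simpa) (by simp; omega), by simp, e, fun x => ?_⟩
    · simp only [List.length_map, List.length_range] at ha ⊢
      rw [e a ha]
      refine ⟨h1.1 (show i + a < y.1 by omega), fun b hb => ?_⟩
      rw [e b hb, h3 _ (by omega) _ (by omega)]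
      refine ⟨fun e => ?_, fun ⟨t, ht, e⟩ => ?_, fun e => ⟨i + min a b, by omega, ?_⟩⟩
      · have := h1.2.1 (show i + a < y.1 by omega) (show i + b < y.1 by omega) e
        omega
      · have := a4 t; omega
      · have := a4 (i + min a b); omega
    · simp only [List.mem_map, List.mem_range]
      exact ⟨fun ⟨a, ha, e⟩ => ⟨i + a, by omega, by omega, e⟩,
        fun ⟨a, b1, b2, e⟩ => ⟨a - i, by omega, by rwa [show i + (a - i) = a by omega]⟩⟩
  have last : ∀ S i d, i + d < y.1 → (i = 0 ∨ D (i - 1) ≠ 0) →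
      (∀ j, i ≤ j → j + 1 < y.1 → D j = 0) → ∃ c ∈ gen y (rows y y.1) S,
        c.1.length ≤ y.1 ∧ c.2 = (f (i + d), d) ∧
          ∀ x, x ∈ c.1 ↔ ∃ a, i ≤ a ∧ a < y.1 ∧ f a = x := fun S i d a1 a2 a3 => by
    obtain ⟨R, b1, b2, b3, b4⟩ := row i (y.1 - i) (by omega) (by omega) a2
      fun j _ _ => a3 j (by omega) (by omega)
    exact ⟨_, mem_gen.2 ⟨R, b1, d, by omega, .inl rfl⟩, by simp only; omega,
      by rw [b3 d (by omega)], by rwa [show i + (y.1 - i) = y.1 by omega] at b4⟩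
  induction k with
  | zero => exact fun i d a1 a2 a3 _ => last _ i d a1 a3 fun j _ _ => by omega
  | succ k ih =>
    intro i d a1 a2 a3 a4
    by_cases e : ∃ j, i ≤ j ∧ j + 1 < y.1 ∧ D j ≠ 0
    swap
    · exact last _ i d a1 a3 fun j b1 b2 => by_contra fun h => e ⟨j, b1, b2, h⟩
    classical
    obtain ⟨j1, j2, j3⟩ := Nat.find_spec e
    have j4 := fun m => Nat.find_min e (m := m)
    generalize Nat.find e = j at j1 j2 j3 j4
    obtain ⟨k1, k2, k3⟩ := h2 j j2
    have k4 := a4 j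
    have k5 := k3 (i - 1)
    obtain ⟨R, b1, b2, b3, b4⟩ := row i (j + 1 - i) (by omega) (by omega) a3
      fun t _ _ => by have := j4 t; omega
    obtain ⟨c, c1, c2, c3, c4⟩ := ih (j + 1) (D j) k2 (by omega) (.inr j3)
      fun t _ _ => k3 t (by omega) (by omega) (by omega)
    have cr : ∀ a ≤ j, ∀ b < y.1, j < b → (ad y (f a) (f b) = true ↔
        a = j - D j ∧ b = j + 1 + D j) := fun a ha b hb hj => by
      rw [h3 a (by omega) b hb]
      refine ⟨fun ⟨t, ht, e⟩ => ?_, fun e => ⟨j, j2, .inl e⟩⟩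
      have := (h2 t ht).2.2 j
      by_cases e2 : j = t
      · subst e2; omega
      · omega
    have ij := fun a (ha : a < y.1) b (hb : b < y.1) => h1.2.1.eq_iff ha hb
    have ok : okC y (f (j - D j), f (j + 1 + D j), D j) c = true := by
      refine (okC_iff _ _ _).2 ⟨c2, by rw [c3]; simp only; omega, c3, fun h => ?_,
        (c4 _).2 ⟨_, by omega, k2, rfl⟩, fun x hx => ?_⟩
      · obtain ⟨a, _, a5, e⟩ := (c4 _).1 h
        rw [ij a a5 _ (by omega)] at e; omega
      · obtain ⟨a, _, a5, rfl⟩ := (c4 _).1 hx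
        refine ⟨h1.1 a5, fun z hz h e => ?_⟩
        obtain ⟨b, hb : b < y.1, rfl⟩ := h1.2.2 hz
        have : b ≤ j := by_contra fun h' => h ((c4 _).2 ⟨b, by omega, hb, rfl⟩)
        rw [ad_comm, cr b this a a5 (by omega)] at e
        rw [e.1, e.2]; exact ⟨rfl, rfl⟩
    obtain ⟨c', m, ok'⟩ := kst2 (K := List.range y.1 ×ˢ List.range y.1 ×ˢ List.range y.1)
      (List.mem_product.2 ⟨List.mem_range.2 (h1.1 (show j - D j < y.1 by omega)),
        List.mem_product.2 ⟨List.mem_range.2 (h1.1 k2), List.mem_range.2 (by omega)⟩⟩) c1 ok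
    have c5 : ∀ x, x ∈ c'.1 ↔ ∃ a, j + 1 ≤ a ∧ a < y.1 ∧ f a = x := fun x =>
      Iff.trans ⟨det hy.connected ok' ok x, det hy.connected ok ok' x⟩ (c4 x)
    have c6 := ((okC_iff _ _ _).1 ok').2.2.1
    refine ⟨_, mem_gen.2 ⟨R, b1, d, by omega, .inr ⟨c', by
      rwa [tab, Function.iterate_succ_apply'], ?_, rfl⟩⟩,
      (List.length_filter_le _ _).trans (by simp), by rw [b3 d (by omega)], fun x => ?_⟩
    · simp only [join, Bool.and_eq_true, decide_eq_true_eq, List.all_eq_true, Bool.not_eq_true',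
        List.contains_eq_mem, decide_eq_false_iff_not, beq_iff_eq, Bool.eq_iff_iff (b := _ && _),
        c6, b2]
      refine ⟨by omega, fun x hx => ?_⟩
      obtain ⟨a, a5, a6, rfl⟩ := (b4 x).1 hx
      refine ⟨fun h => ?_, fun z hz => ?_⟩
      · obtain ⟨b, _, b5, e⟩ := (c5 _).1 h
        rw [ij b b5 _ (by omega)] at e; omega
      · obtain ⟨b, _, b5, rfl⟩ := (c5 _).1 hz
        rw [cr a (by omega) b b5 (by omega), b3 _ (by omega), ij a (by omega) _ (by omega),
          ij b b5 _ k2]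
        omega
    · simp only [List.mem_filter, List.mem_range, Bool.or_eq_true, List.contains_eq_mem,
        decide_eq_true_eq, b4, c5]
      constructor
      · rintro ⟨-, ⟨a, _, _, e⟩ | ⟨a, _, _, e⟩⟩ <;> exact ⟨a, by omega, by omega, e⟩
      · rintro ⟨a, _, a5, rfl⟩
        refine ⟨h1.1 a5, ?_⟩
        by_cases e : a ≤ j
        exacts [.inl ⟨a, by omega, by omega, rfl⟩, .inr ⟨a, by omega, a5, rfl⟩]

theorem main (y : Y) (hy : (gr y.1 y.2).IsTree) : PathLike (gr y.1 y.2) ↔ alg y = true := by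
  have h0 : 0 < y.1 := Fin.pos_iff_nonempty.2 hy.connected.nonempty
  rw [pl_iff y h0]
  simp only [alg, List.any_eq_true, List.all_eq_true, List.mem_range, List.contains_eq_mem,
    decide_eq_true_eq]
  constructor
  · rintro ⟨v, d, m, f, D, h1, h2, h3, -⟩
    obtain rfl : m = y.1 := by
      have := h1.ncard_eq
      simpa [← Set.Iio_def, Set.ncard_eq_toFinset_card'] using this
    obtain ⟨c, c1, -, -, c2⟩ := complete hy h1 h2 h3 y.1 0 0 h0 (by omega) (.inl rfl) (by omega)
    refine ⟨c, c1, fun x hx => (c2 x).2 ?_⟩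
    obtain ⟨a, ha, e⟩ := h1.2.2 hx
    exact ⟨a, a.zero_le, ha, e⟩
  · rintro ⟨c, c1, c2⟩
    obtain ⟨a1, a2⟩ := sound y _ c c1
    exact ⟨_, _, by convert a2 using 1; exact Set.ext fun x => ⟨c2 x, a1 x⟩⟩

end Pool.Agent.H24.Plt
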