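import Pool.Agent.H11.GDefs

set_option autoImplicit false

namespace Pool.Agent.H24.Plt

/-- adjacency in the grid -/
def Adjc (p q : ℤ × ℤ) : Prop := (p.1 - q.1).natAbs + (p.2 - q.2).natAbs = 1

/-- direction of the `j`-th edge of the embedded path -/
def dir (e : ℕ → ℤ × ℤ) (j : ℕ) : ℤ × ℤ := e (j + 1) - e j

/-- elementary transformation at the path edge `i, i+1` with distance `d` -/
def Elem (n : ℕ) (e : ℕ → ℤ × ℤ) (i d : ℕ) : Prop :=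
  1 ≤ i ∧ i + 2 < n ∧ dir e (i - 1) ≠ dir e i ∧ dir e i ≠ dir e (i + 1) ∧
    d ≤ i ∧ (∀ j, i - d ≤ j → j < i → dir e j = dir e (i - 1)) ∧
    i + 1 + d < n ∧ (∀ j, i + 1 ≤ j → j < i + 1 + d → dir e j = dir e (i + 1)) ∧
    Adjc (e (i - d)) (e (i + 1 + d))

/-- edges after the transformations: `i, i+1` is replaced by `i - D i, i + 1 + D i` -/
def Rg (n : ℕ) (D : ℕ → ℕ) (a b : ℕ) : Prop := ∃ i, i + 1 < n ∧
  ((a = i - D i ∧ b = i + 1 + D i) ∨ (b = i - D i ∧ a = i + 1 + D i))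

/-- `G` is isomorphic to a path-like tree -/
def PathLike {n : ℕ} (G : SimpleGraph (Fin n)) : Prop :=
  ∃ (e : ℕ → ℤ × ℤ) (D : ℕ → ℕ) (π : Fin n ≃ Fin n),
    (∀ a < n, ∀ b < n, e a = e b → a = b) ∧ (∀ a, a + 1 < n → Adjc (e a) (e (a + 1))) ∧
    (∀ i, i + 1 < n → D i ≠ 0 → Elem n e i (D i)) ∧
    ∀ a b : Fin n, G.Adj (π a) (π b) ↔ Rg n D a b

end Pool.Agent.H24.Plt
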