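import Pool.Agent.H24.PtaDefs
import Pool.Agent.H24.Lin1
import Pool.Agent.H24.Fs1

namespace Pool.Agent.H24.Pta
open Pool.Agent.H24.Cf Pool.Agent.H24.Fs

inductive Sy | sg | u (x : Bool) | al
  deriving DecidableEq, Fintype

@[reducible] def rk : Sy → ℕ
  | .sg => 2
  | .u _ => 1
  | .al => 0

def lf : RT rk := .node .al Fin.elim0

def up (x : Bool) : ℕ → RT rk → RT rk
  | 0, t => t
  | n + 1, t => .node (.u x) fun _ => up x n t

def bn (s t : RT rk) : RT rk := .node .sg ![s, t]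

def cb : ℕ → (ℕ → ℕ) → (ℕ → ℕ) → RT rk
  | 0, _, _ => lf
  | k + 1, n, n' => up false (n 0) (bn (up true (n' 0) lf) (cb k (fun j => n (j + 1)) fun j => n' (j + 1)))

variable {m : ℕ} {A : PTAR rk m}

theorem acc_node {q s σ ch} : A.Acc q s (.node σ ch) ↔ ∃ f, (q, ⟨σ, f⟩) ∈ A.Δ ∧
    (rk σ = 0 → s ∈ A.C) ∧ ∀ i, A.Acc (f i).1 ((f i).2.elim 0 fun e => s + e) (ch i) :=
  ⟨fun h => by cases h with | node _ _ _ f _ a b c => exact ⟨f, a, b, c⟩,
    fun ⟨f, a, b, c⟩ => .node _ _ _ f _ a b c⟩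

theorem acc_lf {q s} : A.Acc q s lf ↔ (q, ⟨.al, Fin.elim0⟩) ∈ A.Δ ∧ s ∈ A.C := by
  rw [lf, acc_node]
  exact ⟨fun ⟨f, a, b, _⟩ => ⟨(funext fun i => i.elim0 : f = Fin.elim0) ▸ a, b rfl⟩,
    fun ⟨a, b⟩ => ⟨_, a, fun _ => b, fun i => i.elim0⟩⟩

theorem acc_un {q s x t} : A.Acc q s (.node (.u x) fun _ => t) ↔
    ∃ y, (q, ⟨.u x, fun _ => y⟩) ∈ A.Δ ∧ A.Acc y.1 (y.2.elim 0 fun e => s + e) t := by
  rw [acc_node]
  refine ⟨fun ⟨f, a, _, c⟩ => ⟨f 0, ?_, c 0⟩, fun ⟨y, a, c⟩ => ⟨_, a, by simp, fun _ => c⟩⟩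
  rwa [show (fun _ => f 0) = f from funext fun i => congrArg f (Subsingleton.elim _ _)]

theorem acc_bn {q s t t'} : A.Acc q s (bn t t') ↔ ∃ y z, (q, ⟨.sg, ![y, z]⟩) ∈ A.Δ ∧
    A.Acc y.1 (y.2.elim 0 fun e => s + e) t ∧ A.Acc z.1 (z.2.elim 0 fun e => s + e) t' := by
  rw [bn, acc_node]
  refine ⟨fun ⟨f, a, _, c⟩ => ⟨f 0, f 1, ?_, c 0, c 1⟩,
    fun ⟨y, z, a, c, d⟩ => ⟨_, a, by simp, Fin.forall_fin_two.2 ⟨c, d⟩⟩⟩
  rwa [show ![f 0, f 1] = f from funext (Fin.forall_fin_two.2 ⟨rfl, rfl⟩)]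

def D0 : Set (Bool × Σ σ, Fin (rk σ) → Bool × Option (Fin 2 → ℕ)) :=
  {(false, ⟨.u false, fun _ => (false, some ![1, 0])⟩),
    (false, ⟨.sg, ![(true, some 0), (false, none)]⟩), (false, ⟨.al, Fin.elim0⟩),
    (true, ⟨.u true, fun _ => (true, some ![0, 1])⟩), (true, ⟨.al, Fin.elim0⟩)}

@[reducible] def A0 : PTAR rk 2 where
  Q := Bool
  finQ := inferInstance
  q0 := false
  Δ := D0
  finΔ := by unfold D0; exact Set.toFinite _
  C := {v | v 0 = v 1}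
  sl := by
    refine IsLinearSet.isSemilinearSet ⟨0, {![1, 1]}, Set.finite_singleton _, ?_⟩
    ext v
    refine ⟨fun h => ⟨v, AddSubmonoid.mem_closure_singleton.2
      ⟨v 0, funext (Fin.forall_fin_two.2 ⟨by simp, by simpa using h⟩)⟩, zero_add v⟩, ?_⟩
    rintro ⟨_, h, rfl⟩
    obtain ⟨n, rfl⟩ := AddSubmonoid.mem_closure_singleton.1 h
    simp

theorem A0_a (n : ℕ) (t) : ∀ s, A0.Acc false s (up false n t) ↔ A0.Acc false (s + ![n, 0]) t := by
  induction n with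
  | zero => intro s; rw [show s + ![0, 0] = s from funext (Fin.forall_fin_two.2 ⟨rfl, rfl⟩)]; rfl
  | succ n ih =>
    intro s
    have e : s + ![1, 0] + ![n, 0] = s + ![n + 1, 0] :=
      funext (Fin.forall_fin_two.2 ⟨show s 0 + 1 + n = s 0 + (n + 1) by omega, rfl⟩)
    rw [up, acc_un, ← e, ← ih]
    constructor
    · rintro ⟨y, a, b⟩
      obtain rfl : y = (false, some ![1, 0]) := by simpa [D0, funext_iff] using a
      exact b
    · exact fun h => ⟨(false, some ![1, 0]), by simp [D0], h⟩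

theorem A0_b (n : ℕ) : ∀ s, A0.Acc true s (up true n lf) ↔ s 0 = s 1 + n := by
  induction n with
  | zero => intro s; rw [up, acc_lf]; simp [D0]
  | succ n ih =>
    intro s
    rw [up, acc_un]
    constructor
    · rintro ⟨y, a, b⟩
      obtain rfl : y = (true, some ![0, 1]) := by simpa [D0, funext_iff] using a
      have : s 0 = s 1 + 1 + n := (ih _).1 b
      omega
    · exact fun h => ⟨(true, some ![0, 1]), by simp [D0],
        (ih _).2 (show s 0 = s 1 + 1 + n by omega)⟩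

theorem A0_cb (k : ℕ) : ∀ n n', A0.Acc false 0 (cb k n n') ↔ ∀ j < k, n j = n' j := by
  induction k with
  | zero => intro n n'; rw [cb, acc_lf]; simp [D0]
  | succ k ih =>
    intro n n'
    rw [cb, A0_a, acc_bn, Nat.forall_lt_succ_left, ← ih]
    constructor
    · rintro ⟨y, z, a, b, c⟩
      obtain ⟨rfl, rfl⟩ : y = (true, some 0) ∧ z = (false, none) := by simpa [D0] using a
      exact ⟨by simpa using (A0_b _ _).1 b, c⟩
    · exact fun h => ⟨(true, some 0), (false, none), by simp [D0], (A0_b _ _).2 (by simp [h.1]), h.2⟩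

def Ψ (A : PTAR rk m) (x : Bool) :=
  {t : A.Q × A.Q × (Fin m → ℕ) // (t.1, ⟨.u x, fun _ => (t.2.1, some t.2.2)⟩) ∈ A.Δ}

instance (x : Bool) : Finite (Ψ A x) :=
  (A.finΔ.preimage (f := fun t : A.Q × A.Q × (Fin m → ℕ) =>
    (t.1, (⟨.u x, fun _ => (t.2.1, some t.2.2)⟩ : Σ σ, Fin (rk σ) → A.Q × Option (Fin m → ℕ))))
    fun a _ b _ h => by
      simp only [Prod.mk.injEq, Sigma.mk.injEq, heq_eq_eq, true_and, funext_iff] at h
      exact Prod.ext h.1 (Prod.ext (h.2 0).1 (Option.some.inj (h.2 0).2))).to_subtype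

def W (A : PTAR rk m) (x : Bool) (q p : A.Q) : Set (ℕ × (Fin m → ℕ)) :=
  {y | ∃ μ ∈ {μ : List (Ψ A x) | μ ∈ Set.univ ∧ ∃ f ∈ ({p} : Set A.Q),
    Path (·.1.1) (·.1.2.1) q μ f}, (μ.map fun r => (1, r.1.2.2)).sum = y}

theorem W_lin (x q p) : Lin (W A x q p) :=
  have := A.finQ
  (path_scf scf_univ _ _ q {p}).lin _

theorem W_zero {x q p v} : (0, v) ∈ W A x q p ↔ q = p ∧ v = 0 := by
  constructor
  · rintro ⟨_ | ⟨r, μ⟩, ⟨-, _, rfl, a⟩, b⟩
    · exact ⟨a, (congrArg Prod.snd b).symm⟩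
    · simpa using congrArg Prod.fst b
  · rintro ⟨rfl, rfl⟩
    exact ⟨[], ⟨trivial, _, rfl, rfl⟩, rfl⟩

theorem W_succ {x q p n v} : (n + 1, v) ∈ W A x q p ↔ ∃ q' e v',
    (q, ⟨.u x, fun _ => (q', some e)⟩) ∈ A.Δ ∧ (n, v') ∈ W A x q' p ∧ v = e + v' := by
  constructor
  · rintro ⟨_ | ⟨r, μ⟩, ⟨-, _, rfl, a⟩, b⟩
    · simpa using congrArg Prod.fst b
    · obtain ⟨rfl, a⟩ := a
      rw [List.map_cons, List.sum_cons] at b
      refine ⟨_, _, _, r.2, ⟨μ, ⟨trivial, _, rfl, a⟩, Prod.ext ?_ rfl⟩, (congrArg Prod.snd b).symm⟩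
      have := congrArg Prod.fst b
      simp only [Prod.fst_add] at this
      omega
  · rintro ⟨q', e, v', a, ⟨μ, ⟨-, _, rfl, b⟩, c⟩, rfl⟩
    refine ⟨⟨(q, q', e), a⟩ :: μ, ⟨trivial, _, rfl, rfl, b⟩, ?_⟩
    rw [List.map_cons, List.sum_cons, c]
    simp [add_comm]

theorem W_bd (A : PTAR rk m) (x) : ∃ B, ∀ n q p v, (n, v) ∈ W A x q p → ∀ j, v j ≤ B * n := by
  obtain ⟨B, hB⟩ := (Set.finite_range fun r : Ψ A x × Fin m => r.1.1.2.2 r.2).bddAbove
  refine ⟨B, fun n => ?_⟩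
  induction n with
  | zero => intro q p v h j; simp [(W_zero.1 h).2]
  | succ n ih =>
    intro q p v h j
    obtain ⟨q', e, v', a, b, rfl⟩ := W_succ.1 h
    have := ih _ _ _ b j
    have : e j ≤ B := hB ⟨(⟨(q, q', e), a⟩, j), rfl⟩
    simp only [Pi.add_apply, mul_add]
    omega

theorem W_null {x q p y} {H : AddSubmonoid _} (h : ∀ g ∈ H, y + g ∈ W A x q p) {g} (hg : g ∈ H)
    (e : g.1 = 0) : g.2 = 0 := by
  obtain ⟨B, hB⟩ := W_bd A x
  funext j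
  have := hB _ _ _ _ (h _ (H.nsmul_mem hg (B * y.1 + 1))) j
  simp only [Prod.snd_add, Prod.fst_add, Prod.smul_fst, Prod.smul_snd, e, Pi.add_apply,
    Pi.smul_apply, smul_eq_mul, mul_zero, add_zero] at this
  by_contra k
  have := Nat.le_mul_of_pos_right (B * y.1 + 1) (Nat.pos_of_ne_zero k)
  omega

theorem acc_up (hA : A.ResetFree) (x t) (n : ℕ) : ∀ q s, A.Acc q s (up x n t) ↔
    ∃ p v, (n, v) ∈ W A x q p ∧ A.Acc p (s + v) t := by
  induction n with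
  | zero => intro q s; simp [W_zero, up]
  | succ n ih =>
    intro q s
    rw [up, acc_un]
    constructor
    · rintro ⟨⟨q', _ | e⟩, a, b⟩
      · exact (hA _ a (0 : Fin 1) rfl).elim
      · obtain ⟨p, v, c, d⟩ := (ih _ _).1 b
        exact ⟨p, _, W_succ.2 ⟨_, _, _, a, c, rfl⟩, by rwa [← add_assoc]⟩
    · rintro ⟨p, _, a, b⟩
      obtain ⟨q', e, v, c, d, rfl⟩ := W_succ.1 a
      exact ⟨_, c, (ih _ _).2 ⟨p, v, d, by rwa [← add_assoc] at b⟩⟩

abbrev Dt (A : PTAR rk m) := A.Q × A.Q × A.Q × A.Q × (Fin m → ℕ) × (Fin m → ℕ)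

/-- level data: end of the spine path, start and end of the branch, next state, two vectors -/
def B2 (A : PTAR rk m) : Set (Dt A) := {t | (t.1, ⟨.sg, ![(t.2.1, some t.2.2.2.2.1),
  (t.2.2.2.1, some t.2.2.2.2.2)]⟩) ∈ A.Δ ∧ (t.2.2.1, ⟨.al, Fin.elim0⟩) ∈ A.Δ}

theorem B2_fin : (B2 A).Finite := by
  have := A.finQ
  refine ((A.finΔ.prod (Set.finite_univ (α := A.Q))).preimage (f := fun t : Dt A =>
    ((t.1, ⟨.sg, ![(t.2.1, some t.2.2.2.2.1), (t.2.2.2.1, some t.2.2.2.2.2)]⟩), t.2.2.1)) ?_).subset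
    fun t h => ⟨h.1, trivial⟩
  rintro ⟨a, b, c, d, e, f⟩ - ⟨a', b', c', d', e', f'⟩ - h
  simp at h
  simp [h]

def Run (A : PTAR rk m) (k : ℕ) (s : Fin m → ℕ) (n n' : ℕ → ℕ) (st : ℕ → A.Q) (t : ℕ → Dt A)
    (v u : ℕ → Fin m → ℕ) : Prop :=
  (∀ j < k, t j ∈ B2 A ∧ (t j).2.2.2.1 = st (j + 1) ∧ (n j, v j) ∈ W A false (st j) (t j).1 ∧
    (n' j, u j) ∈ W A true (t j).2.1 (t j).2.2.1 ∧
    s + ∑ l ∈ Finset.range j, (v l + (t l).2.2.2.2.2) + v j + (t j).2.2.2.2.1 + u j ∈ A.C) ∧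
  (st k, ⟨.al, Fin.elim0⟩) ∈ A.Δ ∧ s + ∑ l ∈ Finset.range k, (v l + (t l).2.2.2.2.2) ∈ A.C

theorem acc_cb (hA : A.ResetFree) (k : ℕ) : ∀ q s n n', A.Acc q s (cb k n n') ↔
    ∃ st t v u, st 0 = q ∧ Run A k s n n' st t v u := by
  induction k with
  | zero =>
    intro q s n n'
    rw [cb, acc_lf]
    constructor
    · exact fun h => ⟨fun _ => q, fun _ => (q, q, q, q, 0, 0), 0, 0, rfl, by simp, by simpa using h⟩
    · rintro ⟨st, t, v, u, rfl, -, h⟩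
      simpa using h
  | succ k ih =>
    intro q s n n'
    simp only [cb, acc_up hA, acc_bn, ih, acc_lf]
    constructor
    · rintro ⟨p, v0, a1, ⟨y, _ | e0⟩, ⟨z, _ | e1⟩, a2, ⟨r, u0, a3, a4, a5⟩, st, t, v, u, rfl, a6, a7, a8⟩
      · exact (hA _ a2 (0 : Fin 2) rfl).elim
      · exact (hA _ a2 (0 : Fin 2) rfl).elim
      · exact (hA _ a2 (1 : Fin 2) rfl).elim
      refine ⟨fun j => j.casesOn q st, fun j => j.casesOn (p, y, r, st 0, e0, e1) t,
        fun j => j.casesOn v0 v, fun j => j.casesOn u0 u, rfl, ?_, a7, ?_⟩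
      · rw [Nat.forall_lt_succ_left]
        refine ⟨⟨⟨a2, a4⟩, rfl, a1, a3, by simpa using a5⟩, fun j hj => ?_⟩
        obtain ⟨b1, b2, b3, b4, b5⟩ := a6 j hj
        refine ⟨b1, b2, b3, b4, ?_⟩
        rw [Finset.sum_range_succ']
        convert b5 using 4
        simp only [Option.elim]
        abel
      · rw [Finset.sum_range_succ']
        convert a8 using 1
        simp only [Option.elim]
        abel
    · rintro ⟨st, t, v, u, rfl, a1, a2, a3⟩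
      rw [Nat.forall_lt_succ_left] at a1
      obtain ⟨⟨b1, b2, b3, b4, b5⟩, a1⟩ := a1
      refine ⟨_, _, b3, _, _, b1.1, ⟨_, _, b4, b1.2, by simpa using b5⟩, fun j => st (j + 1),
        fun j => t (j + 1), fun j => v (j + 1), fun j => u (j + 1), b2.symm, fun j hj => ?_, a2, ?_⟩
      · obtain ⟨c1, c2, c3, c4, c5⟩ := a1 j hj
        refine ⟨c1, c2, c3, c4, ?_⟩
        rw [Finset.sum_range_succ'] at c5
        convert c5 using 4
        simp only [Option.elim]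
        abel
      · rw [Finset.sum_range_succ'] at a3
        convert a3 using 1
        simp only [Option.elim]
        abel

end Pool.Agent.H24.Pta
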