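import Pool.Agent.H24.Pta1

namespace Pool.Agent.H24.Pta
open Pool.Agent.H24.Cf Pool.Agent.H24.Fs Finset

theorem not_pta {m : ℕ} (A : PTAR rk m) (hA : A.ResetFree) : A.lang ≠ A0.lang := by
  intro hL
  have := A.finQ
  have hc : ∀ n n', A.Acc A.q0 0 (cb (m + 1) n n') ↔ ∀ j < m + 1, n j = n' j := fun n n' =>
    (Set.ext_iff.1 hL _).trans (A0_cb _ n n')
  choose st t v u h0 hR using fun n => (acc_cb hA _ _ _ _ _).1 ((hc n n).2 fun _ _ => rfl)
  obtain ⟨J1, _, c1, h1⟩ := disc ((Set.finite_univ (α := A.Q)).prod (B2_fin (A := A)))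
  obtain ⟨J2, _, c2, h2⟩ := lin_fam fun d : Bool × A.Q × A.Q => W_lin (A := A) d.1 d.2.1 d.2.2
  obtain ⟨J3, _, c3, h3⟩ := lin_sl A.sl
  let lv := fun n j => 0 + ∑ l ∈ range j, (v n l + (t n l).2.2.2.2.2) + v n j +
    (t n j).2.2.2.2.1 + u n j
  let fv := fun n => 0 + ∑ l ∈ range (m + 1), (v n l + (t n l).2.2.2.2.2)
  obtain ⟨n0, -, hf⟩ := flag (fun n => ((fun j : Fin (m + 1) => (c1 (st n j, t n j), c2 (n j, v n j),
    c2 (n j, u n j), c3 (lv n j))), c3 (fv n))) (m + 1) 0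
  choose N f1 f2 f3 using fun i : Fin (m + 1) => hf i i.2
  have e1 : ∀ i, ∀ j < m + 1, st (N i) j = st n0 j ∧ t (N i) j = t n0 j := fun i j hj =>
    Prod.ext_iff.1 (h1 _ ⟨trivial, ((hR n0).1 j hj).1⟩ _ (f1 i |>.1 ⟨j, hj⟩).1).symm
  choose! Ha a1 a2 using fun j (hj : j < m + 1) => h2 (false, _, _) _ ((hR n0).1 j hj).2.2.1
  choose! Hb b1 b2 using fun j (hj : j < m + 1) => h2 (true, _, _) _ ((hR n0).1 j hj).2.2.2.1
  choose! Hc d1 d2 using fun j (hj : j < m + 1) => h3 _ ((hR n0).1 j hj).2.2.2.2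
  obtain ⟨Hf, g1, g2⟩ := h3 _ (hR n0).2.2
  choose! δ a3 a4 using fun i j (hj : j < m + 1) => a2 j hj (N i j, v (N i) j)
    (by simpa only [e1 i j hj] using ((hR (N i)).1 j hj).2.2.1) (f1 i |>.1 ⟨j, hj⟩).2.1
  choose! ε b3 b4 using fun i j (hj : j < m + 1) => b2 j hj (N i j, u (N i) j)
    (by simpa only [e1 i j hj] using ((hR (N i)).1 j hj).2.2.2.1) (f1 i |>.1 ⟨j, hj⟩).2.2.1
  choose! γ d3 d4 using fun i j (hj : j < m + 1) => d2 j hj (lv (N i) j)
    ((hR (N i)).1 j hj).2.2.2.2 (f1 i |>.1 ⟨j, hj⟩).2.2.2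
  choose φ g3 g4 using fun i => g2 (fv (N i)) (hR (N i)).2.2 (f1 i).2
  have s1 : ∀ i, ∀ j ≤ m + 1, ∑ l ∈ range j, (v (N i) l + (t (N i) l).2.2.2.2.2) =
      ∑ l ∈ range j, (v n0 l + (t n0 l).2.2.2.2.2) + ∑ l ∈ range j, (δ i l).2 := fun i j hj => by
    rw [← sum_add_distrib]
    refine sum_congr rfl fun l hl => ?_
    have hl : l < m + 1 := (mem_range.1 hl).trans_le hj
    rw [(e1 i l hl).2, show v (N i) l = v n0 l + (δ i l).2 from congrArg Prod.snd (a4 i l hl)]
    abel
  have s2 : ∀ i, ∀ j < m + 1, γ i j = ∑ l ∈ range (j + 1), (δ i l).2 + (ε i j).2 := fun i j hj => by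
    have := d4 i j hj
    simp only [lv, s1 i j hj.le, (e1 i j hj).2] at this
    rw [show v (N i) j = v n0 j + (δ i j).2 from congrArg Prod.snd (a4 i j hj),
      show u (N i) j = u n0 j + (ε i j).2 from congrArg Prod.snd (b4 i j hj)] at this
    refine add_left_cancel (this.symm.trans ?_)
    rw [sum_range_succ]
    abel
  have s3 : ∀ i, φ i = ∑ l ∈ range (m + 1), (δ i l).2 := fun i => by
    have := g4 i
    simp only [fv, s1 i _ le_rfl] at this
    refine add_left_cancel (this.symm.trans ?_)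
    abel
  have l1 : ∀ i, ∀ j < m + 1, N i j = n0 j + (δ i j).1 ∧ N i j = n0 j + (ε i j).1 := fun i j hj =>
    ⟨congrArg Prod.fst (a4 i j hj), congrArg Prod.fst (b4 i j hj)⟩
  have z1 : ∀ i : Fin (m + 1), ∀ j < m + 1, i < j → (δ i j).2 = 0 := fun i j hj hi =>
    W_null (a1 j hj) (a3 i j hj) (by have := f2 i j hi; have := l1 i j hj; omega)
  have : ¬ LinearIndependent ℤ fun i x => ((∑ l ∈ range (m + 1), (δ i l).2) x : ℤ) := fun h => by
    have := h.fintype_card_le_finrank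
    simp at this
  obtain ⟨α, k1, k2⟩ := Fintype.not_linearIndependent_iff.1 this
  obtain ⟨I, k3, k4⟩ := (univ.filter fun i => α i ≠ 0).exists_max_image id
    ⟨k2.choose, mem_filter.2 ⟨mem_univ _, k2.choose_spec⟩⟩
  simp only [mem_filter, mem_univ, true_and, id] at k3 k4
  let N0 := ∑ i, (α i).natAbs
  let cf : ℕ → Fin (m + 1) → ℕ := fun j i => if j = I then (N0 + α i).toNat else N0
  have hcf : ∀ i, (cf I i : ℤ) = N0 + α i := fun i => by
    have : (α i).natAbs ≤ N0 :=
      single_le_sum (f := fun i => (α i).natAbs) (fun _ _ => Nat.zero_le _) (mem_univ i)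
    simp only [cf, if_true]
    omega
  have key : ∀ j < m + 1, ∑ i, cf j i • ∑ l ∈ range (j + 1), (δ i l).2 =
      ∑ i, N0 • ∑ l ∈ range (j + 1), (δ i l).2 := fun j hj => by
    by_cases e : j = I
    · subst e
      funext x
      have := congrFun k1 x
      simp only [Finset.sum_apply, Pi.smul_apply, smul_eq_mul, Pi.zero_apply] at this ⊢
      zify
      simp only [hcf, add_mul, sum_add_distrib, add_eq_left]
      refine .trans (sum_congr rfl fun i _ => ?_) this
      by_cases e : α i = 0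
      · simp [e]
      · rw [Nat.cast_sum]
        congr 1
        refine sum_subset (range_mono hj) fun l a b => ?_
        have := Fin.le_def.1 (k4 i e)
        rw [z1 i l (mem_range.1 a) (by simp at b; omega)]
        rfl
    · simp only [cf, if_neg e]
  let pa := fun j => (n0 j, v n0 j) + ∑ i, N0 • δ i j
  let pb := fun j => (n0 j, u n0 j) + ∑ i, cf j i • ε i j
  have s4 : ∀ j, ∑ l ∈ range j, ((pa l).2 + (t n0 l).2.2.2.2.2) =
      ∑ l ∈ range j, (v n0 l + (t n0 l).2.2.2.2.2) + ∑ i, N0 • ∑ l ∈ range j, (δ i l).2 := fun j => by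
    simp only [smul_sum]
    rw [sum_comm, ← sum_add_distrib]
    refine sum_congr rfl fun l _ => ?_
    simp only [pa, Prod.snd_add, Prod.snd_sum, Prod.smul_snd]
    abel
  have := (hc (fun j => (pa j).1) fun j => (pb j).1).1 ((acc_cb hA _ _ _ _ _).2
    ⟨st n0, t n0, fun j => (pa j).2, fun j => (pb j).2, h0 n0, fun j hj =>
      ⟨((hR n0).1 j hj).1, ((hR n0).1 j hj).2.1,
        a1 j hj _ (sum_mem fun i _ => nsmul_mem (a3 i j hj) _),
        b1 j hj _ (sum_mem fun i _ => nsmul_mem (b3 i j hj) _), ?_⟩, (hR n0).2.1, ?_⟩) I I.2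
  · simp only [pa, pb, Prod.fst_add, Prod.fst_sum, Prod.smul_fst, smul_eq_mul, add_right_inj] at this
    zify at this
    have e : ∀ i, ((ε i I).1 : ℤ) = (δ i I).1 := fun i => by have := l1 i I I.2; omega
    simp only [hcf, add_mul, sum_add_distrib, e, left_eq_add] at this
    rw [sum_eq_single I] at this
    · have := l1 I I I.2
      have := f3 I
      rcases mul_eq_zero.1 ‹α I * _ = 0› with h | h
      exacts [k3 h, by omega]
    · intro i _ hi
      by_cases e : α i = 0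
      · simp [e]
      · have := f2 i I (Fin.lt_def.1 (lt_of_le_of_ne (k4 i e) hi))
        have := l1 i I I.2
        rw [show (δ i I).1 = 0 by omega]
        simp
    · simp
  · convert d1 j hj _ (sum_mem (t := univ) fun i _ => nsmul_mem (d3 i j hj) (cf j i)) using 1
    simp only [s2 _ j hj, smul_add, sum_add_distrib, key j hj]
    rw [← sum_add_distrib, s4]
    simp only [pa, pb, Prod.snd_add, Prod.snd_sum, Prod.smul_snd, sum_range_succ, smul_add,
      sum_add_distrib]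
    abel
  · convert g1 _ (sum_mem (t := univ) fun i _ => nsmul_mem (g3 i) N0) using 1
    simp only [s3, s4]
    abel

end Pool.Agent.H24.Pta
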