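import Mathlib

/-! Parikh tree automata with reset. -/

namespace Pool.Agent.H24.Pta

/-- Finite ranked trees. -/
inductive RT {S : Type} (rk : S → ℕ) : Type
  | node (σ : S) (ch : Fin (rk σ) → RT rk)

/-- An `m`-PTAR; in a transition `(q, σ, f)` child `i` gets state `(f i).1` and
`(f i).2` is a vector to add (`some e`) or the reset symbol (`none`). -/
structure PTAR {S : Type} (rk : S → ℕ) (m : ℕ) where
  Q : Type
  finQ : Finite Q
  q0 : Q
  Δ : Set (Q × Σ σ : S, Fin (rk σ) → Q × Option (Fin m → ℕ))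
  finΔ : Δ.Finite
  C : Set (Fin m → ℕ)
  sl : IsSemilinearSet C

variable {S : Type} {rk : S → ℕ} {m : ℕ}

inductive PTAR.Acc (A : PTAR rk m) : A.Q → (Fin m → ℕ) → RT rk → Prop
  | node (q s σ f ch) : (q, ⟨σ, f⟩) ∈ A.Δ → (rk σ = 0 → s ∈ A.C) →
      (∀ i, PTAR.Acc A (f i).1 ((f i).2.elim 0 fun e => s + e) (ch i)) →
      PTAR.Acc A q s (.node σ ch)

def PTAR.lang (A : PTAR rk m) : Set (RT rk) := {t | A.Acc A.q0 0 t}

def PTAR.ResetFree (A : PTAR rk m) : Prop := ∀ x ∈ A.Δ, ∀ i, (x.2.2 i).2 ≠ none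

end Pool.Agent.H24.Pta
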