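import Mathlib

set_option autoImplicit false

/-! Diophantine equations as systems of quadratic forms without integer points at infinity. -/

namespace Pool.Agent.H24.QSys

/-- quadratic forms, as functions -/
inductive IsQ {σ : Type} : ((σ → ℚ) → ℚ) → Prop
  | mul (i j : σ) : IsQ fun w => w i * w j
  | zero : IsQ fun _ => 0
  | add {f g : (σ → ℚ) → ℚ} : IsQ f → IsQ g → IsQ fun w => f w + g w
  | smul (c : ℚ) {f : (σ → ℚ) → ℚ} : IsQ f → IsQ fun w => c * f w

variable {σ : Type}

theorem IsQ.sub {f g : (σ → ℚ) → ℚ} (hf : IsQ f) (hg : IsQ g) : IsQ fun w => f w - g w := by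
  have := hf.add (hg.smul (-1))
  convert this using 2; ring

theorem IsQ.sum {ι : Type} (s : Finset ι) {f : ι → (σ → ℚ) → ℚ} (h : ∀ i, IsQ (f i)) :
    IsQ fun w => ∑ i ∈ s, f i w := by
  classical
  induction s using Finset.induction_on with
  | empty => simpa using IsQ.zero
  | insert a s ha ih => simpa [Finset.sum_insert ha] using (h a).add ih

theorem IsQ.comp {τ : Type} (ι : σ → τ) {f : (σ → ℚ) → ℚ} (h : IsQ f) :
    IsQ fun w : τ → ℚ => f fun i => w (ι i) := by
  induction h with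
  | mul i j => exact IsQ.mul _ _
  | zero => exact IsQ.zero
  | add _ _ h h' => exact h.add h'
  | smul c _ h => exact h.smul c

theorem IsQ.hom {q : (σ → ℚ) → ℚ} (h : IsQ q) (l : ℚ) (u : σ → ℚ) :
    q (fun i => l * u i) = l ^ 2 * q u := by
  induction h with
  | mul i j => ring
  | zero => simp
  | add _ _ h h' => simp only [h, h']; ring
  | smul c _ h => simp only [h]; ring

theorem IsQ.three {q : (σ → ℚ) → ℚ} (h : IsQ q) (a b c : ℚ) (x y z : σ → ℚ) (h0 : a + b + c = 0)
    (h1 : ∀ i, a * x i + b * y i + c * z i = 0) :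
    a * q x + b * q y + c * q z = b * q (fun i => y i - x i) + c * q (fun i => z i - x i) := by
  induction h with
  | mul i j => linear_combination x i * h1 j + x j * h1 i - x i * x j * h0
  | zero => simp
  | add _ _ h h' => linear_combination h + h'
  | smul d _ h => linear_combination d * h

/-- sets cut out by quadratic forms -/
def QC (S : (σ → ℚ) → Prop) : Prop :=
  ∀ w, (∀ q, IsQ q → (∀ w', S w' → q w' = 0) → q w = 0) → S w

theorem QC.eq {f g : (σ → ℚ) → ℚ} (hf : IsQ f) (hg : IsQ g) : QC fun w => f w = g w :=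
  fun w h => sub_eq_zero.1 (h _ (hf.sub hg) fun _ h' => sub_eq_zero.2 h')

theorem QC.and {S T : (σ → ℚ) → Prop} (hS : QC S) (hT : QC T) : QC fun w => S w ∧ T w :=
  fun w h => ⟨hS w fun q hq h' => h q hq fun w' e => h' w' e.1,
    hT w fun q hq h' => h q hq fun w' e => h' w' e.2⟩

theorem QC.all {ι : Sort*} {S : ι → (σ → ℚ) → Prop} (hS : ∀ i, QC (S i)) :
    QC fun w => ∀ i, S i w :=
  fun w h i => hS i w fun q hq h' => h q hq fun w' e => h' w' (e i)

theorem pell_big (N : ℕ) : ∃ a b : ℕ, N ≤ a ∧ a * a = 2 * (b * b) + 1 := by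
  induction N with
  | zero => exact ⟨1, 0, by simp, by simp⟩
  | succ N ih =>
    obtain ⟨a, b, h, e⟩ := ih
    have : 0 < a := by rcases a with _ | a <;> simp_all
    exact ⟨3 * a + 4 * b, 2 * a + 3 * b, by omega, by nlinarith⟩

theorem sq_two (a b : ℤ) (h : a * a = 2 * (b * b)) : a = 0 ∧ b = 0 := by
  by_cases hb : b = 0
  · subst hb; simpa using h
  · exfalso
    have hb' : (b : ℝ) ≠ 0 := by exact_mod_cast hb
    have h' : (a : ℝ) * a = 2 * (b * b) := by exact_mod_cast h
    apply irrational_sqrt_two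
    refine ⟨|(a : ℚ) / b|, ?_⟩
    push_cast
    rw [← Real.sqrt_sq_eq_abs]
    congr 1
    field_simp
    linarith

/-- adding variables removes the integer points at infinity -/
theorem aniso [Fintype σ] (o : σ) (S : (σ → ℚ) → Prop) (hS : QC S) :
    ∃ T : (σ ⊕ Fin 6 → ℚ) → Prop, QC T ∧
      (∀ w : σ ⊕ Fin 6 → ℤ, T (fun i => w i) → w (.inl o) = 0 → w = 0) ∧
      (∀ w, T w → S fun i => w (.inl i)) ∧
      ∀ w : σ → ℤ, w o = 1 → S (fun i => w i) → ∃ r : Fin 6 → ℤ, T fun i => (Sum.elim w r i : ℤ) := by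
  refine ⟨fun w => S (fun i => w (.inl i)) ∧
    w (.inr 0) * w (.inr 0) = 2 * (w (.inr 1) * w (.inr 1)) + w (.inl o) * w (.inl o) ∧
    ∑ i, w (.inl i) * w (.inl i) + w (.inr 2) * w (.inr 2) + w (.inr 3) * w (.inr 3)
      + w (.inr 4) * w (.inr 4) + w (.inr 5) * w (.inr 5) = w (.inr 0) * w (.inl o),
    QC.and (fun w h => hS _ fun q hq h' => h _ (hq.comp Sum.inl) fun w' e => h' _ e)
      (QC.and (QC.eq (.mul _ _) (((IsQ.mul _ _).smul 2).add (.mul _ _)))
        (QC.eq (((((IsQ.sum _ fun i => .mul _ _).add (.mul _ _)).add (.mul _ _)).add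
          (.mul _ _)).add (.mul _ _)) (.mul _ _))), ?_, fun w h => h.1, ?_⟩
  · rintro w ⟨-, h1, h2⟩ ho
    have h1' : w (.inr 0) * w (.inr 0) = 2 * (w (.inr 1) * w (.inr 1)) := by
      simp only [ho, Int.cast_zero, mul_zero, add_zero] at h1; exact_mod_cast h1
    have h2' : ∑ i, w (.inl i) * w (.inl i) + w (.inr 2) * w (.inr 2) + w (.inr 3) * w (.inr 3)
      + w (.inr 4) * w (.inr 4) + w (.inr 5) * w (.inr 5) = 0 := by
      simp only [ho, Int.cast_zero, mul_zero] at h2; exact_mod_cast h2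
    have h3 := sq_two _ _ h1'
    have h4 : 0 ≤ ∑ i, w (.inl i) * w (.inl i) := Finset.sum_nonneg fun _ _ => mul_self_nonneg _
    have n2 := mul_self_nonneg (w (.inr 2))
    have n3 := mul_self_nonneg (w (.inr 3))
    have n4 := mul_self_nonneg (w (.inr 4))
    have n5 := mul_self_nonneg (w (.inr 5))
    have h5 : ∑ i, w (.inl i) * w (.inl i) = 0 := by linarith
    rw [Finset.sum_eq_zero_iff_of_nonneg fun _ _ => mul_self_nonneg _] at h5
    funext i
    rcases i with i | i
    · exact mul_self_eq_zero.1 (h5 i (Finset.mem_univ _))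
    · fin_cases i
      · exact h3.1
      · exact h3.2
      all_goals exact mul_self_eq_zero.1 (by simp only [Fin.reduceFinMk]; linarith)
  · intro w ho hw
    obtain ⟨a, b, hN, e⟩ := pell_big (∑ i, w i * w i).toNat
    obtain ⟨r1, r2, r3, r4, hr⟩ := Nat.sum_four_squares (a - (∑ i, w i * w i).toNat)
    have h4 : 0 ≤ ∑ i, w i * w i := Finset.sum_nonneg fun _ _ => mul_self_nonneg _
    refine ⟨![a, b, r1, r2, r3, r4], hw, ?_, ?_⟩
    · simp only [Sum.elim_inr, Sum.elim_inl, ho]
      have : (a : ℚ) * a = 2 * (b * b) + 1 := by exact_mod_cast e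
      simpa using this
    · simp only [Sum.elim_inr, Sum.elim_inl, ho]
      have h5 : ∑ i, w i * w i + r1 * r1 + r2 * r2 + r3 * r3 + r4 * r4 = a := by
        have : ((r1 ^ 2 + r2 ^ 2 + r3 ^ 2 + r4 ^ 2 : ℕ) : ℤ) = a - ∑ i, w i * w i := by
          rw [hr, Nat.cast_sub hN, Int.toNat_of_nonneg h4]
        push_cast at this
        linear_combination this
      have : ((∑ i, w i * w i + r1 * r1 + r2 * r2 + r3 * r3 + r4 * r4 : ℤ) : ℚ) = (a : ℤ) := by
        rw [h5]
      simpa using this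

open MvPolynomial in
/-- Veronese encoding -/
theorem veronese {α : Type} (z : α) (P : MvPolynomial α ℤ) :
    ∃ (τ : Type) (_ : Fintype τ) (o p : τ) (S : (τ → ℚ) → Prop), QC S ∧
      ∀ n : ℕ, (∃ x : α → ℕ, x z = n ∧ eval (fun i => (x i : ℤ)) P = 0) ↔
        ∃ w : τ → ℤ, w o = 1 ∧ w p = n ∧ S fun i => w i := by
  classical
  set D : α →₀ ℕ := ∑ d ∈ P.support, d + Finsupp.single z 1 with hD
  have hsupp : ∀ d ∈ P.support, d ≤ D := fun d hd =>
    (Finset.single_le_sum (f := fun d => d) (fun _ _ => zero_le) hd).trans le_self_add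
  have hz : Finsupp.single z 1 ≤ D := le_add_self
  let B := {d // d ≤ D}
  haveI : Finite B := (Set.finite_Iic D).to_subtype
  letI : Fintype B := Fintype.ofFinite B
  let o : B := ⟨0, zero_le⟩
  refine ⟨B ⊕ B × Fin 4, inferInstance, .inl o, .inl ⟨_, hz⟩, fun w =>
    (∀ (d e : B) (h : d.1 + e.1 ≤ D), w (.inl d) * w (.inl e) = w (.inl ⟨_, h⟩) * w (.inl o)) ∧
    (∀ d : B, w (.inl d) * w (.inl o) = ∑ k, w (.inr (d, k)) * w (.inr (d, k))) ∧
    ∑ d : B, ((coeff d.1 P : ℤ) : ℚ) * (w (.inl d) * w (.inl o)) = 0,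
    QC.and (QC.all fun _ => QC.all fun _ => QC.all fun _ => QC.eq (.mul _ _) (.mul _ _))
      (QC.and (QC.all fun _ => QC.eq (.mul _ _) (IsQ.sum _ fun _ => .mul _ _))
        (QC.eq (IsQ.sum _ fun _ => (IsQ.mul _ _).smul _) .zero)), fun n => ?_⟩
  have hev : ∀ x : α → ℕ, eval (fun i => (x i : ℤ)) P =
      ∑ d : B, coeff d.1 P * ((d.1.prod fun i k => x i ^ k : ℕ) : ℤ) := by
    intro x
    rw [eval_eq, ← Finset.sum_subtype (Finset.Iic D) (by simp [B])
      (fun d => coeff d P * ((d.prod fun i k => x i ^ k : ℕ) : ℤ))]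
    rw [← Finset.sum_subset (s₁ := P.support) (fun d hd => Finset.mem_Iic.2 (hsupp d hd))]
    · exact Finset.sum_congr rfl fun d _ => by simp [Finsupp.prod]
    · intro d _ hd
      simp [notMem_support_iff.1 hd]
  constructor
  · rintro ⟨x, hx, hP⟩
    choose r1 r2 r3 r4 hr using fun d : B => Nat.sum_four_squares (d.1.prod fun i k => x i ^ k)
    refine ⟨Sum.elim (fun d => ((d.1.prod fun i k => x i ^ k : ℕ) : ℤ))
      fun dk => (![r1 dk.1, r2 dk.1, r3 dk.1, r4 dk.1] dk.2 : ℕ), by simp [o], by simp [hx],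
      fun d e h => ?_, fun d => ?_, ?_⟩
    · simp only [Sum.elim_inl, o]
      rw [Finsupp.prod_add_index' (by simp) (fun _ _ _ => pow_add _ _ _)]
      simp
    · simp only [Sum.elim_inl, Sum.elim_inr, o, Fin.sum_univ_four, ← hr d]
      simp [sq]
    · rw [hev] at hP
      have : ((∑ d : B, coeff d.1 P * ((d.1.prod fun i k => x i ^ k : ℕ) : ℤ) : ℤ) : ℚ) = 0 := by
        rw [hP]; simp
      simpa [o] using this
  · rintro ⟨w, ho, hp, h1, h2, h3⟩
    simp only [ho, Int.cast_one, mul_one] at h1 h2 h3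
    have hnn : ∀ d : B, 0 ≤ w (.inl d) := fun d => by
      have : (0 : ℚ) ≤ w (.inl d) := by
        rw [h2 d]; exact Finset.sum_nonneg fun _ _ => mul_self_nonneg _
      exact_mod_cast this
    let x : α → ℕ := fun i =>
      if h : Finsupp.single i 1 ≤ D then (w (.inl ⟨_, h⟩)).toNat else 0
    have hx : ∀ i (h : Finsupp.single i 1 ≤ D), (x i : ℤ) = w (.inl ⟨_, h⟩) := fun i h => by
      simp only [x, dif_pos h]; exact Int.toNat_of_nonneg (hnn _)
    have hmul : ∀ (d e : B) (h : d.1 + e.1 ≤ D), w (.inl ⟨_, h⟩) = w (.inl d) * w (.inl e) :=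
      fun d e h => by exact_mod_cast (h1 d e h).symm
    have hpow : ∀ i k (h : Finsupp.single i k ≤ D), w (.inl ⟨_, h⟩) = (x i : ℤ) ^ k := by
      intro i k
      induction k with
      | zero => intro h; simpa [o] using ho
      | succ k ih =>
        intro h
        have h' := h
        rw [Finsupp.single_add] at h'
        have := hmul ⟨_, le_self_add.trans h'⟩ ⟨_, le_add_self.trans h'⟩ h'
        rw [ih, ← hx, ← pow_succ] at this
        simpa only [Finsupp.single_add] using this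
    have hall : ∀ d (h : d ≤ D), w (.inl ⟨d, h⟩) = ((d.prod fun i k => x i ^ k : ℕ) : ℤ) := by
      intro d
      induction d using Finsupp.induction_linear with
      | zero => intro h; simpa [o] using ho
      | add f g hf hg =>
        intro h
        rw [hmul ⟨_, le_self_add.trans h⟩ ⟨_, le_add_self.trans h⟩ h, hf, hg,
          Finsupp.prod_add_index' (by simp) (fun _ _ _ => pow_add _ _ _)]
        simp
      | single i k => intro h; rw [hpow]; simp
    refine ⟨x, ?_, ?_⟩
    · have := hx z hz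
      rw [hp] at this
      exact_mod_cast this
    · rw [hev]
      have : ∑ d : B, coeff d.1 P * w (.inl d) = 0 := by exact_mod_cast h3
      rw [← this]
      exact Finset.sum_congr rfl fun d _ => by rw [← hall d.1 d.2]

theorem qsys {α : Type} (z : α) (P : MvPolynomial α ℤ) :
    ∃ (τ : Type) (_ : Fintype τ) (o p : τ) (S : (τ → ℚ) → Prop), QC S ∧
      (∀ w : τ → ℤ, S (fun i => w i) → w o = 0 → w = 0) ∧
      ∀ n : ℕ, (∃ x : α → ℕ, x z = n ∧ MvPolynomial.eval (fun i => (x i : ℤ)) P = 0) ↔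
        ∃ w : τ → ℤ, w o = 1 ∧ w p = n ∧ S fun i => w i := by
  obtain ⟨τ, _, o, p, S, hS, h⟩ := veronese z P
  obtain ⟨T, hT, h1, h2, h3⟩ := aniso o S hS
  refine ⟨τ ⊕ Fin 6, inferInstance, .inl o, .inl p, T, hT, h1, fun n => (h n).trans ⟨?_, ?_⟩⟩
  · rintro ⟨w, a, b, c⟩
    obtain ⟨r, hr⟩ := h3 w a c
    exact ⟨Sum.elim w r, a, b, hr⟩
  · rintro ⟨w, a, b, c⟩
    exact ⟨fun i => w (.inl i), a, b, h2 _ c⟩

end Pool.Agent.H24.QSys
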