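import Mathlib

set_option autoImplicit false
open MvPolynomial Cardinal
open scoped Quaternion MonomialOrder

namespace Pool.Agent.H24.QuatSub

abbrev A := MvPolynomial ℕ ℂ
abbrev E := FractionRing A
abbrev R := ℍ[A, X 0, 0, X 1]
noncomputable abbrev s0 : E := algebraMap A E (X 0)
noncomputable abbrev s1 : E := algebraMap A E (X 1)
abbrev HE := ℍ[E, s0, 0, s1]

theorem sum_zero {ι : Type} [Fintype ι] (m : MonomialOrder ℕ) (f : ι → A)
    (hd : ∀ i j, f i ≠ 0 → f j ≠ 0 → m.degree (f i) = m.degree (f j) → i = j)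
    (hs : ∑ i, f i = 0) (i : ι) : f i = 0 := by
  classical
  by_contra hi
  obtain ⟨j, hj, hmax⟩ := Finset.exists_max_image (Finset.univ.filter fun i => f i ≠ 0)
    (fun i => m.toSyn (m.degree (f i))) ⟨i, by simpa using hi⟩
  have hj0 : f j ≠ 0 := (Finset.mem_filter.1 hj).2
  have h1 := congrArg (coeff (m.degree (f j))) hs
  rw [coeff_sum, Finset.sum_eq_single j, coeff_zero] at h1
  · exact m.coeff_degree_ne_zero_iff.2 hj0 h1
  · intro k _ hk
    by_cases hk0 : f k = 0
    · simp [hk0]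
    · refine m.coeff_eq_zero_of_lt (lt_of_le_of_ne (hmax k (by simpa using hk0)) fun h => ?_)
      exact hk (hd k j hk0 hj0 (m.toSyn.injective h))
  · simp

theorem aniso_poly (a b c d : A) (h : a * a - X 0 * b * b - X 1 * c * c + X 0 * X 1 * d * d = 0) :
    a = 0 ∧ b = 0 ∧ c = 0 ∧ d = 0 := by
  obtain ⟨m⟩ : Nonempty (MonomialOrder ℕ) := ⟨(MonomialOrder.lex : MonomialOrder ℕᵒᵈ)⟩
  let u : Fin 4 → A := ![1, -X 0, -X 1, X 0 * X 1]
  let v : Fin 4 → A := ![a, b, c, d]
  have hu : ∀ i, u i ≠ 0 := by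
    intro i; fin_cases i <;> simp [u]
  have hud : ∀ i j, (m.degree (u i) 0 % 2 = m.degree (u j) 0 % 2) →
      (m.degree (u i) 1 % 2 = m.degree (u j) 1 % 2) → i = j := by
    have h0 : m.degree (u 0) = 0 := m.degree_one
    have h1 : m.degree (u 1) = Finsupp.single 0 1 := by simp [u, m.degree_X]
    have h2 : m.degree (u 2) = Finsupp.single 1 1 := by simp [u, m.degree_X]
    have h3 : m.degree (u 3) = Finsupp.single 0 1 + Finsupp.single 1 1 := by
      have : u 3 = X 0 * X 1 := rfl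
      rw [this, m.degree_mul (X_ne_zero _) (X_ne_zero _), m.degree_X, m.degree_X]
    intro i j
    fin_cases i <;> fin_cases j <;> simp [h0, h1, h2, h3]
  have key := sum_zero m (fun i => u i * (v i * v i)) (fun i j hi hj hij => by
    have hvi : v i ≠ 0 := fun h0 => hi (by simp [h0])
    have hvj : v j ≠ 0 := fun h0 => hj (by simp [h0])
    rw [m.degree_mul (hu i) (mul_ne_zero hvi hvi), m.degree_mul (hu j) (mul_ne_zero hvj hvj),
      m.degree_mul hvi hvi, m.degree_mul hvj hvj] at hij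
    have h0 := DFunLike.congr_fun hij 0
    have h1 := DFunLike.congr_fun hij 1
    simp only [Finsupp.add_apply] at h0 h1
    exact hud i j (by omega) (by omega)) (by
      rw [← h, Fin.sum_univ_four]
      simp [u, v]; ring)
  have key2 : ∀ i, v i = 0 := fun i => by
    have := key i
    simp only [mul_eq_zero, hu i, false_or, or_self] at this
    exact this
  exact ⟨key2 0, key2 1, key2 2, key2 3⟩

theorem aniso (a b c d : E) (h : a * a - s0 * b * b - s1 * c * c + s0 * s1 * d * d = 0) :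
    a = 0 ∧ b = 0 ∧ c = 0 ∧ d = 0 := by
  obtain ⟨q, hq⟩ := IsLocalization.exist_integer_multiples_of_finite (nonZeroDivisors A)
    (![a, b, c, d] : Fin 4 → E)
  obtain ⟨a', ha⟩ := hq 0
  obtain ⟨b', hb⟩ := hq 1
  obtain ⟨c', hc⟩ := hq 2
  obtain ⟨d', hd⟩ := hq 3
  simp only [Algebra.smul_def, Matrix.cons_val_zero, Matrix.cons_val_one, Matrix.cons_val] at ha hb hc hd
  have hq0 : algebraMap A E q ≠ 0 := IsFractionRing.to_map_ne_zero_of_mem_nonZeroDivisors q.2
  obtain ⟨h1, h2, h3, h4⟩ := aniso_poly a' b' c' d' (IsFractionRing.injective A E (by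
    simp only [map_add, map_sub, map_mul, map_zero, ha, hb, hc, hd]
    linear_combination (algebraMap A E q) ^ 2 * h))
  rw [h1, map_zero] at ha
  rw [h2, map_zero] at hb
  rw [h3, map_zero] at hc
  rw [h4, map_zero] at hd
  exact ⟨(mul_eq_zero.1 ha.symm).resolve_left hq0, (mul_eq_zero.1 hb.symm).resolve_left hq0,
    (mul_eq_zero.1 hc.symm).resolve_left hq0, (mul_eq_zero.1 hd.symm).resolve_left hq0⟩

noncomputable def qmap (g : A →+* E) (h0 : g (X 0) = s0) (h1 : g (X 1) = s1) : R →+* HE where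
  toFun q := ⟨g q.re, g q.imI, g q.imJ, g q.imK⟩
  map_one' := by ext <;> simp
  map_zero' := by ext <;> simp
  map_add' a b := by ext <;> simp
  map_mul' a b := by ext <;> simp [h0, h1]

theorem in_class (S : Subring R) [Countable S] (hX : ∀ n, (⟨X n, 0, 0, 0⟩ : R) ∈ S)
    (hi : (⟨0, 1, 0, 0⟩ : R) ∈ S) (hj : (⟨0, 0, 1, 0⟩ : R) ∈ S) :
    ∃ (ι : Type) (D : ι → Type) (_ : ∀ i, DivisionRing (D i)) (f : S →+* ∀ i, D i),
      Function.Injective f ∧ ∀ i, Function.Surjective fun r => f r i := by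
  let comp : R → Fin 4 → A := fun q => ![q.re, q.imI, q.imJ, q.imK]
  let G : Set E := Set.range (fun w : S × Fin 4 × (ℕ →₀ ℕ) =>
    algebraMap A E (C (coeff w.2.2 (comp w.1 w.2.1)))) ∪ Set.range fun n => algebraMap A E (X n)
  let F := Subfield.closure G
  have hG : G.Countable := (Set.countable_range _).union (Set.countable_range _)
  have hF : Countable F := by
    rw [← mk_le_aleph0_iff]
    exact (Subfield.cardinalMk_closure_le_max G).trans
      (max_le (mk_le_aleph0_iff.2 hG.to_subtype) le_rfl)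
  obtain ⟨e, he⟩ := exists_surjective_nat F
  let y : ℕ → ℕ → E := fun n k => if k < n + 2 then algebraMap A E (X k) else e (k - (n + 2))
  let g : ℕ → A →+* E := fun n => eval₂Hom ((algebraMap A E).comp C) (y n)
  have hgX : ∀ n k, g n (X k) = y n k := fun n k => by simp [g]
  have hXF : ∀ k, algebraMap A E (X k) ∈ F := fun k => Subfield.subset_closure (Or.inr ⟨k, rfl⟩)
  have hyF : ∀ n k, y n k ∈ F := fun n k => by
    simp only [y]
    split_ifs
    · exact hXF k
    · exact (e _).2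
  have hgF : ∀ n (q : S) i, g n (comp q i) ∈ F := fun n q i =>
    eval₂_mem (s := F) (fun m _ => Subfield.subset_closure (s := G) (Or.inl ⟨(q, i, m), rfl⟩))
      (hyF n)
  let ev : ℕ → S →+* HE := fun n =>
    (qmap (g n) (by simp [hgX, y]) (by simp [hgX, y])).comp S.subtype
  have hev : ∀ n (a b c d : E), a ∈ F → b ∈ F → c ∈ F → d ∈ F →
      (⟨a, b, c, d⟩ : HE) ∈ (ev n).range := by
    intro n
    have h1 : ∀ a ∈ F, (⟨a, 0, 0, 0⟩ : HE) ∈ (ev n).range := by
      intro a ha
      obtain ⟨k, hk⟩ := he ⟨a, ha⟩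
      refine ⟨⟨_, hX (k + (n + 2))⟩, ?_⟩
      ext <;> simp [ev, qmap, hgX, y, hk]
    have h2 : (⟨0, 1, 0, 0⟩ : HE) ∈ (ev n).range := ⟨⟨_, hi⟩, by ext <;> simp [ev, qmap]⟩
    have h3 : (⟨0, 0, 1, 0⟩ : HE) ∈ (ev n).range := ⟨⟨_, hj⟩, by ext <;> simp [ev, qmap]⟩
    intro a b c d ha hb hc hd
    have h4 := add_mem (add_mem (add_mem (h1 a ha) (mul_mem (h1 b hb) h2)) (mul_mem (h1 c hc) h3))
      (mul_mem (h1 d hd) (mul_mem h2 h3))
    convert h4 using 1
    ext <;> simp
  have hunit : ∀ n (z : (ev n).range), IsUnit z ∨ z = 0 := by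
    rintro n ⟨_, q, rfl⟩
    obtain ⟨z, hz⟩ : ∃ z, z = ev n q := ⟨_, rfl⟩
    have ha : z.re ∈ F := hz ▸ hgF n q 0
    have hb : z.imI ∈ F := hz ▸ hgF n q 1
    have hc : z.imJ ∈ F := hz ▸ hgF n q 2
    have hd : z.imK ∈ F := hz ▸ hgF n q 3
    obtain ⟨N, hN⟩ : ∃ N, N = z.re * z.re - s0 * z.imI * z.imI - s1 * z.imJ * z.imJ +
      s0 * s1 * z.imK * z.imK := ⟨_, rfl⟩
    by_cases h0 : N = 0
    · right
      obtain ⟨h1, h2, h3, h4⟩ := aniso _ _ _ _ (hN ▸ h0)
      refine Subtype.ext (hz.symm.trans ?_)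
      ext <;> simp [h1, h2, h3, h4]
    · left
      have hNF : N⁻¹ ∈ F := by
        refine inv_mem ?_
        rw [hN]
        exact add_mem (sub_mem (sub_mem (mul_mem ha ha) (mul_mem (mul_mem (hXF 0) hb) hb))
          (mul_mem (mul_mem (hXF 1) hc) hc)) (mul_mem (mul_mem (mul_mem (hXF 0) (hXF 1)) hd) hd)
      have hNN : N⁻¹ * N = 1 := inv_mul_cancel₀ h0
      refine ⟨⟨_, ⟨_, hev n _ _ _ _ (mul_mem hNF ha) (neg_mem (mul_mem hNF hb))
        (neg_mem (mul_mem hNF hc)) (neg_mem (mul_mem hNF hd))⟩, ?_, ?_⟩, rfl⟩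
      · refine Subtype.ext ?_
        simp only [Subring.coe_mul, ← hz, Subring.coe_one]
        ext
        · simp only [QuaternionAlgebra.re_mul, QuaternionAlgebra.re_one]
          linear_combination hNN - N⁻¹ * hN
        all_goals (simp; ring)
      · refine Subtype.ext ?_
        simp only [Subring.coe_mul, ← hz, Subring.coe_one]
        ext
        · simp only [QuaternionAlgebra.re_mul, QuaternionAlgebra.re_one]
          linear_combination hNN - N⁻¹ * hN
        all_goals (simp; ring)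
  refine ⟨ℕ, fun n => (ev n).range, fun n => DivisionRing.ofIsUnitOrEqZero (hunit n),
    RingHom.pi fun n => (ev n).rangeRestrict, ?_, fun n => (ev n).rangeRestrict_surjective⟩
  rw [injective_iff_map_eq_zero]
  intro q hq
  have key : ∀ p : A, (∀ n, g n p = 0) → p = 0 := by
    intro p hp
    refine IsFractionRing.injective A E ?_
    rw [map_zero, ← hp (p.vars.sup id)]
    refine hom_congr_vars (by ext; simp [g]) (fun i hi _ => ?_) rfl
    have : i ≤ p.vars.sup id := Finset.le_sup (f := id) hi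
    rw [hgX]
    simp only [y]
    rw [if_pos (by omega)]
  have h1 : ∀ n, ev n q = 0 := fun n => congrArg Subtype.val (congrFun hq n)
  refine Subtype.ext ?_
  ext1
  · exact key _ fun n => congrArg QuaternionAlgebra.re (h1 n)
  · exact key _ fun n => congrArg QuaternionAlgebra.imI (h1 n)
  · exact key _ fun n => congrArg QuaternionAlgebra.imJ (h1 n)
  · exact key _ fun n => congrArg QuaternionAlgebra.imK (h1 n)

theorem rank_R : Module.rank ℂ R ≤ ℵ₀ := by
  rw [← rank_mul_rank ℂ A R, QuaternionAlgebra.rank_eq_four, MvPolynomial.rank_eq]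
  simp

theorem kills {D : Type} [DivisionRing D] (f : R →+* D) (hf : Function.Surjective f) :
    f ⟨0, 0, 0, 2⟩ = 0 := by
  have hc : ∀ a : A, f (algebraMap A R a) ∈ Subring.center D := by
    intro a
    rw [Subring.mem_center_iff]
    intro d
    obtain ⟨r, rfl⟩ := hf d
    rw [← map_mul, ← map_mul, Algebra.commutes]
  let φ : A →+* Subring.center D := (f.comp (algebraMap A R)).codRestrict _ hc
  letI : Algebra ℂ (Subring.center D) := (φ.comp C).toAlgebra
  have halg : IsAlgebraic ℂ (φ (X 0)) := by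
    by_contra ht
    have h1 := Transcendental.linearIndependent_sub_inv ht
    choose r hr using fun a : ℂ =>
      hf ((φ (X 0) - algebraMap ℂ (Subring.center D) a)⁻¹ : Subring.center D)
    have h2 : LinearIndependent ℂ r := by
      rw [linearIndependent_iff'] at h1 ⊢
      intro s c hs
      refine h1 s c (Subtype.ext ?_)
      have h3 := congrArg f hs
      rw [map_sum, map_zero] at h3
      rw [AddSubmonoidClass.coe_finsetSum, ZeroMemClass.coe_zero, ← h3]
      refine Finset.sum_congr rfl fun a _ => ?_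
      rw [Algebra.smul_def, Subring.coe_mul, ← hr, Algebra.smul_def, map_mul]
      rfl
    have h3 := h2.cardinal_le_rank.trans rank_R
    rw [mk_complex] at h3
    exact absurd h3 (not_le.2 aleph0_lt_continuum)
  obtain ⟨c, hc0⟩ := minpoly.mem_range_of_degree_eq_one ℂ _
    (IsAlgClosed.degree_eq_one_of_irreducible ℂ (minpoly.irreducible halg.isIntegral))
  obtain ⟨s, rfl⟩ := IsAlgClosed.exists_eq_mul_self c
  obtain ⟨t, ht⟩ : ∃ t : Subring.center D, t = algebraMap ℂ _ s := ⟨_, rfl⟩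
  have h1 : f ⟨0, 1, 0, 0⟩ * f ⟨0, 1, 0, 0⟩ = (t : D) * t := by
    rw [← Subring.coe_mul, ht, ← map_mul (algebraMap ℂ (Subring.center D)), hc0, ← map_mul]
    change _ = f (algebraMap A R (X 0))
    congr 1
    ext1 <;> simp [QuaternionAlgebra.algebraMap_eq]
  have h2 : ∀ d : D, d * t = t * d := Subring.mem_center_iff.1 t.2
  have h3 : (f ⟨0, 1, 0, 0⟩ - t) * (f ⟨0, 1, 0, 0⟩ + t) = 0 := by
    rw [sub_mul, mul_add, mul_add, h1, h2 (f ⟨0, 1, 0, 0⟩)]; abel
  have h4 : (⟨0, 0, 0, 2⟩ : R) = ⟨0, 1, 0, 0⟩ * ⟨0, 0, 1, 0⟩ - ⟨0, 0, 1, 0⟩ * ⟨0, 1, 0, 0⟩ := by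
    ext1 <;> simp
    norm_num
  rw [h4, map_sub, map_mul, map_mul]
  rcases mul_eq_zero.1 h3 with h5 | h5
  · rw [sub_eq_zero.1 h5, h2, sub_self]
  · rw [eq_neg_of_add_eq_zero_left h5, mul_neg, neg_mul, h2, sub_self]

theorem two_k_ne : (⟨0, 0, 0, 2⟩ : R) ≠ 0 := fun h => by
  have := congrArg QuaternionAlgebra.imK h
  simp at this

end Pool.Agent.H24.QuatSub
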