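import Mathlib

set_option autoImplicit false
open FirstOrder FirstOrder.Language Filter

namespace Pool.Agent.H24.RelFree

abbrev LL : FirstOrder.Language.{0, 0} := FirstOrder.Language.mk (fun _ => Unit) (fun _ => Empty)

theorem ev_term {G : Type} [LL.Structure G] {α : Type} (v : ℕ → α → G) (w : α → G)
    (h : ∀ i, ∀ᶠ N in atTop, v N i = w i) {k : ℕ} (t : LL.Term (α ⊕ Fin k)) :
    ∀ᶠ N in atTop, ∀ xs : Fin k → G,
      t.realize (Sum.elim (v N) xs) = t.realize (Sum.elim w xs) := by
  induction t with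
  | var i =>
    rcases i with i | i
    · filter_upwards [h i] with N hN xs using hN
    · exact Eventually.of_forall fun N xs => rfl
  | func f ts ih =>
    filter_upwards [eventually_all.2 ih] with N hN xs
    simp only [Term.realize, hN]

theorem ev_real {G : Type} [LL.Structure G] {α : Type} (v : ℕ → α → G) (w : α → G)
    (h : ∀ i, ∀ᶠ N in atTop, v N i = w i) {k : ℕ} (φ : LL.BoundedFormula α k) :
    ∀ᶠ N in atTop, ∀ xs : Fin k → G, φ.Realize (v N) xs ↔ φ.Realize w xs := by
  induction φ with
  | falsum => exact Eventually.of_forall fun N xs => Iff.rfl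
  | equal t1 t2 =>
    filter_upwards [ev_term v w h t1, ev_term v w h t2] with N h1 h2 xs
    simp only [BoundedFormula.Realize, h1, h2]
  | rel R ts => exact R.elim
  | imp φ ψ ih1 ih2 =>
    filter_upwards [ih1, ih2] with N h1 h2 xs
    simp only [BoundedFormula.realize_imp, h1, h2]
  | all φ ih =>
    filter_upwards [ih] with N h1 xs
    simp only [BoundedFormula.realize_all, h1]

def P {G : Type} [Group G] (u : ℕ → G) : ℕ → ℕ → G → Prop
  | 0, _, _ => True
  | m + 1, k, z => ∃ y, z = u k * y ^ 2 ∧ P u m (k + 1) y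

theorem P_def {G : Type} [Group G] [LL.Structure G]
    (hS : ∀ (n : ℕ) (f : LL.Functions n) (xs : Fin n → G),
      Structure.funMap f xs = (List.ofFn xs).prod) (m k : ℕ) :
    ∃ φ : LL.Formula (Unit ⊕ ℕ), ∀ (u : ℕ → G) (z : G),
      φ.Realize (Sum.elim (fun _ => z) u) ↔ P u m k z := by
  induction m generalizing k with
  | zero => exact ⟨⊤, fun u z => by simp [P]⟩
  | succ m ih =>
    obtain ⟨φ, hφ⟩ := ih (k + 1)
    let t : LL.Term ((Unit ⊕ ℕ) ⊕ Unit) := Term.func (l := 3) ()
      ![Term.var (Sum.inl (Sum.inr k)), Term.var (Sum.inr ()), Term.var (Sum.inr ())]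
    refine ⟨Formula.iExs Unit (((Term.var (Sum.inl (Sum.inl ()))).equal t) ⊓
      φ.relabel (Sum.elim Sum.inr (fun i => Sum.inl (Sum.inr i)))), fun u z => ?_⟩
    rw [Formula.realize_iExs]
    have key : ∀ y : Unit → G, Formula.Realize (((Term.var (Sum.inl (Sum.inl ()))).equal t) ⊓
        φ.relabel (Sum.elim Sum.inr (fun i => Sum.inl (Sum.inr i))))
        (fun a => Sum.elim (Sum.elim (fun _ => z) u) y a) ↔
        (z = u k * y () ^ 2 ∧ P u m (k + 1) (y ())) := by
      intro y
      rw [Formula.realize_inf, Formula.realize_equal, Formula.realize_relabel, ← hφ]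
      refine and_congr ?_ ?_
      · simp [t, hS, sq]
      · refine iff_of_eq (congrArg _ ?_)
        funext a
        rcases a with a | a <;> rfl
    simp only [key, P]
    exact ⟨fun ⟨y, hy⟩ => ⟨y (), hy⟩, fun ⟨y, hy⟩ => ⟨fun _ => y, hy⟩⟩

def mkE {G : Type} [Group G] [LL.Structure G]
    (hS : ∀ (n : ℕ) (f : LL.Functions n) (xs : Fin n → G),
      Structure.funMap f xs = (List.ofFn xs).prod) (α : G ≃* G) : LL.Equiv G G :=
  @Language.Equiv.mk LL G G _ _ α.toEquiv (by
    intro n f x
    rw [hS, hS]
    change α _ = _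
    rw [map_list_prod, List.map_ofFn]
    rfl) (fun r => r.elim)

def B {G : Type} [Group G] (x : ℕ → G) : ℕ → ℕ → G
  | 0, k => x k
  | m + 1, k => x k * B x m (k + 1) ^ 2

theorem main (G : Type) [Group G] (htf : ∀ g : G, ∀ n : ℕ, 0 < n → g ^ n = 1 → g = 1)
    (X : Set G) (hX : X.Infinite) (hgen : Subgroup.closure X = ⊤)
    (hfree : ∀ f : X → G, ∃ φ : G →* G, ∀ x : X, φ x = f x) [LL.Structure G]
    (hS : ∀ (n : ℕ) (f : LL.Functions n) (xs : Fin n → G),
      Structure.funMap f xs = (List.ofFn xs).prod) :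
    ¬ ∀ a b : ℕ → G, (∀ φ : LL.Formula ℕ, φ.Realize a ↔ φ.Realize b) →
        ∀ c : G, ∃ d : G, ∀ ψ : LL.Formula (Unit ⊕ ℕ),
            ψ.Realize (Sum.elim (fun _ => c) a) ↔ ψ.Realize (Sum.elim (fun _ => d) b) := by
  classical
  intro h
  let e := hX.natEmbedding
  let x : ℕ → G := fun n => e n
  have hext : ∀ g : ℕ → G, ∃ φ : G →* G, (∀ n, φ (x n) = g n) ∧
      ∀ y : X, y ∉ Set.range e → φ y = y := by
    intro g
    obtain ⟨φ, hφ⟩ := hfree (Function.extend e g (fun y => y))
    refine ⟨φ, fun n => ?_, fun y hy => ?_⟩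
    · rw [hφ, e.injective.extend_apply]
    · rw [hφ, Function.extend_apply' _ _ _ hy]
  have hid : ∀ φ : G →* G, (∀ n, φ (x n) = x n) → (∀ y : X, y ∉ Set.range e → φ y = y) →
      ∀ g, φ g = g := by
    intro φ h1 h2 g
    have : φ = MonoidHom.id G := by
      refine MonoidHom.eq_of_eqOn_dense hgen fun y hy => ?_
      by_cases hy' : (⟨y, hy⟩ : X) ∈ Set.range e
      · obtain ⟨n, hn⟩ := hy'
        have : y = x n := (congrArg Subtype.val hn).symm
        rw [this]; exact h1 n
      · exact h2 ⟨y, hy⟩ hy'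
    rw [this]; rfl
  have haut : ∀ N : ℕ, ∃ α : G ≃* G, ∀ n < N, α (x n) = x n * (x (n + 1) ^ 2)⁻¹ := by
    intro N
    obtain ⟨α, hα, hα'⟩ := hext (fun n => if n < N then x n * (x (n + 1) ^ 2)⁻¹ else x n)
    obtain ⟨β, hβ, hβ'⟩ := hext (fun n => B x (N - n) n)
    have h1 : ∀ g, β (α g) = g := by
      refine hid (β.comp α) (fun n => ?_) (fun y hy => by simp [hα' y hy, hβ' y hy])
      rw [MonoidHom.comp_apply, hα]
      split_ifs with hn
      · rw [map_mul, map_inv, map_pow, hβ, hβ, show N - n = (N - (n + 1)) + 1 by omega]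
        simp [B]
      · rw [hβ, show N - n = 0 by omega]; rfl
    have h2 : ∀ g, α (β g) = g := by
      refine hid (α.comp β) (fun n => ?_) (fun y hy => by simp [hα' y hy, hβ' y hy])
      rw [MonoidHom.comp_apply, hβ]
      have : ∀ m k, m = N - k → α (B x m k) = x k := by
        intro m
        induction m with
        | zero => intro k hk; rw [B, hα, if_neg (by omega)]
        | succ m ih =>
          intro k hk
          rw [B, map_mul, map_pow, ih (k + 1) (by omega), hα, if_pos (by omega)]
          simp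
      exact this _ _ rfl
    refine ⟨{ toFun := α, invFun := β, left_inv := h1, right_inv := h2, map_mul' := map_mul α },
      fun n hn => ?_⟩
    change α (x n) = _
    rw [hα, if_pos hn]
  choose α hα using haut
  obtain ⟨d, hd⟩ := h (fun n => x n * (x (n + 1) ^ 2)⁻¹) x (by
    intro φ
    obtain ⟨N, hN⟩ := (ev_real (fun N => α N ∘ x) (fun n => x n * (x (n + 1) ^ 2)⁻¹) (fun i => by
      filter_upwards [eventually_gt_atTop i] with N hN using hα N i hN) φ).exists
    exact (hN default).symm.trans (StrongHomClass.realize_formula (mkE hS (α N)) φ)) (x 0)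
  have hP : ∀ m, P x m 0 d := by
    intro m
    obtain ⟨φ, hφ⟩ := P_def hS m 0
    rw [← hφ, ← hd, hφ]
    have : ∀ m k, P (fun n => x n * (x (n + 1) ^ 2)⁻¹) m k (x k) := by
      intro m
      induction m with
      | zero => intro k; trivial
      | succ m ih => intro k; exact ⟨x (k + 1), by simp, ih _⟩
    exact this _ _
  have hχ : ∀ n : ℕ, ∃ χ : G →* G, ∀ y : X, χ y = if y = e n then x n else 1 :=
    fun n => hfree _
  choose χ hχ using hχ
  have hx1 : ∀ n, x n ≠ 1 := by
    intro n hn
    obtain ⟨φ, hφ, -⟩ := hext (fun k => if k = n then x (n + 1) else x n)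
    have h1 := hφ n
    rw [hn, map_one, if_pos rfl, ← hn] at h1
    have := e.injective (Subtype.ext h1)
    omega
  have hfin : ∀ g : G, ∀ᶠ n in atTop, χ n g = 1 := by
    intro g
    have hg : g ∈ Subgroup.closure X := by rw [hgen]; trivial
    induction hg using Subgroup.closure_induction with
    | mem y hy =>
      have : ∀ᶠ n in atTop, (⟨y, hy⟩ : X) ≠ e n := by
        by_cases hy' : (⟨y, hy⟩ : X) ∈ Set.range e
        · obtain ⟨k, hk⟩ := hy'
          filter_upwards [eventually_gt_atTop k] with n hn he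
          have := e.injective (hk.trans he)
          omega
        · exact Eventually.of_forall fun n he => hy' ⟨n, he.symm⟩
      filter_upwards [this] with n hn
      have := hχ n ⟨y, hy⟩
      rwa [if_neg hn] at this
    | one => simp
    | mul a b _ _ ha hb => filter_upwards [ha, hb] with n h1 h2; simp [h1, h2]
    | inv a _ ha => filter_upwards [ha] with n h1; simp [h1]
  have hpow : ∀ n (g : G), ∃ j : ℤ, χ n g = x n ^ j := by
    intro n g
    have hg : g ∈ Subgroup.closure X := by rw [hgen]; trivial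
    induction hg using Subgroup.closure_induction with
    | mem y hy =>
      have := hχ n ⟨y, hy⟩
      split_ifs at this
      · exact ⟨1, by simpa using this⟩
      · exact ⟨0, by simpa using this⟩
    | one => exact ⟨0, by simp⟩
    | mul a b _ _ ha hb =>
      obtain ⟨i, hi⟩ := ha
      obtain ⟨j, hj⟩ := hb
      exact ⟨i + j, by rw [map_mul, hi, hj, zpow_add]⟩
    | inv a _ ha =>
      obtain ⟨i, hi⟩ := ha
      exact ⟨-i, by rw [map_inv, hi, zpow_neg]⟩
  have hne : ∀ n m k z, k + m = n → P x (m + 1) k z → χ n z ≠ 1 := by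
    intro n m
    induction m with
    | zero =>
      rintro k z rfl ⟨y, rfl, -⟩ h1
      obtain ⟨j, hj⟩ := hpow (k + 0) y
      have h2 : χ (k + 0) (x k) = x k := by simpa using hχ k (e k)
      rw [map_mul, map_pow, hj, h2] at h1
      have h3 : x k ^ (1 + j * 2) = 1 := by
        rw [zpow_add, zpow_one, zpow_mul]
        exact_mod_cast h1
      have h4 : x k ^ (1 + j * 2).natAbs = 1 := by
        rw [← zpow_natCast]
        rcases Int.natAbs_eq (1 + j * 2) with h | h
        · rw [← h, h3]
        · rw [← neg_eq_iff_eq_neg] at h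
          rw [← h, zpow_neg, h3, inv_one]
      exact hx1 k (htf _ _ (by omega) h4)
    | succ m ih =>
      rintro k z hk ⟨y, rfl, hy⟩ h1
      have h2 : χ n (x k) = 1 := by
        have := hχ n (e k)
        rwa [if_neg (fun he => by have := e.injective he; omega)] at this
      rw [map_mul, map_pow, h2, one_mul] at h1
      exact ih (k + 1) y (by omega) hy (htf _ 2 (by norm_num) h1)
  obtain ⟨n, hn⟩ := (hfin d).exists
  exact hne n n 0 d (by simp) (hP _) hn

end Pool.Agent.H24.RelFree
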