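import Mathlib
import Pool.Agent.H24.NonBorel
import Pool.Agent.H24.HallGrp

set_option autoImplicit false
open MeasureTheory Set

namespace Pool.Agent.H24.ResP
open Pool.Agent.H24.HallGrp

def Tc (x y : ℕ → Bool) (k : ℕ) : Prop :=
  k = 0 ∨ (k % 3 = 1 ∧ x (k / 3) = true) ∨ (k % 3 = 2 ∧ ¬ x (k / 3) = true) ∨
    (k % 3 = 0 ∧ y (k / 3 - 1) = true)

open Classical in
noncomputable def dec (S : ℕ → Prop) : (ℕ → Bool) × (ℕ → Bool) :=
  (fun i => decide (S (3 * i + 1)), fun j => decide (S (3 * j + 3)))

def Good (Fs : Set ((ℕ → Bool) × (ℕ → Bool))) (S : ℕ → Prop) : Prop :=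
  S 0 → (∀ i, S (3 * i + 2) ↔ ¬ S (3 * i + 1)) ∧ dec S ∈ Fs

theorem Tc1 (x y : ℕ → Bool) (i : ℕ) : Tc x y (3 * i + 1) ↔ x i = true := by
  have h1 : (3 * i + 1) % 3 = 1 := by omega
  have h2 : (3 * i + 1) / 3 = i := by omega
  simp [Tc, h1, h2]

theorem Tc2 (x y : ℕ → Bool) (i : ℕ) : Tc x y (3 * i + 2) ↔ ¬ x i = true := by
  have h1 : (3 * i + 2) % 3 = 2 := by omega
  have h2 : (3 * i + 2) / 3 = i := by omega
  simp [Tc, h1, h2]

theorem Tc3 (x y : ℕ → Bool) (i : ℕ) : Tc x y (3 * i + 3) ↔ y i = true := by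
  have h1 : (3 * i + 3) % 3 = 0 := by omega
  have h2 : (3 * i + 3) / 3 - 1 = i := by omega
  simp only [Tc, h1, h2]
  simp

theorem dec_Tc (x y : ℕ → Bool) : dec (Tc x y) = (x, y) := by
  simp [dec, Tc1, Tc3]

theorem meas_b {X : Type} [MeasurableSpace X] {f : X → Bool} (hf : Measurable f) :
    Measurable fun x => f x = true :=
  (measurable_from_top (f := fun b : Bool => b = true)).comp hf

theorem meas_d {X : Type} [MeasurableSpace X] {f : X → Prop} [DecidablePred f]
    (hf : Measurable f) : Measurable fun x => decide (f x) := by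
  classical
  have := (measurable_from_top (f := fun b : Prop => decide b)).comp hf
  convert this using 1
  funext x
  simp

theorem main :
    ∃ n : ℕ, ∃ S : Set (Subgroup (FreeGroup (Fin n))),
      (∀ (N M : Subgroup (FreeGroup (Fin n))) [N.Normal] [M.Normal],
          Nonempty ((FreeGroup (Fin n) ⧸ N) ≃* (FreeGroup (Fin n) ⧸ M)) → (N ∈ S ↔ M ∈ S)) ∧
      @MeasurableSet (FreeGroup (Fin n) → Bool) (borel (FreeGroup (Fin n) → Bool))
        {f : FreeGroup (Fin n) → Bool | ∃ N : Subgroup (FreeGroup (Fin n)),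
          N.Normal ∧ N ∈ S ∧ ∀ g, f g = true ↔ g ∈ N} ∧
       ¬ @MeasurableSet (FreeGroup (Fin n) → Bool) (borel (FreeGroup (Fin n) → Bool))
          {f : FreeGroup (Fin n) → Bool | ∃ N : Subgroup (FreeGroup (Fin n)),
            N.Normal ∧
            (∀ g : FreeGroup (Fin n), g ∉ N →
              ∃ M : Subgroup (FreeGroup (Fin n)), M.Normal ∧ N ≤ M ∧ g ∉ M ∧ M ∈ S) ∧
            ∀ g, f g = true ↔ g ∈ N} := by
  classical
  obtain ⟨Fs, hF1, hF2⟩ := NonBorel.exists_proj
  refine ⟨2, {N | Good Fs (piN (· ∈ N))}, ?_, ?_, ?_⟩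
  · rintro N M _ _ ⟨e⟩
    have : piN (· ∈ N) = piN (· ∈ M) :=
      funext fun k => propext ⟨piN_iso N M e k, piN_iso M N e.symm k⟩
    simp only [mem_ofPred_eq, this]
  · rw [← BorelSpace.measurable_eq]
    have h1 : {f : F → Bool | ∃ N : Subgroup F,
          N.Normal ∧ N ∈ {N : Subgroup F | Good Fs (piN (· ∈ N))} ∧ ∀ g, f g = true ↔ g ∈ N} =
        {f : F → Bool | (f 1 = true ∧ (∀ a b, f a = true → f b = true → f (a * b) = true) ∧
          (∀ a, f a = true → f a⁻¹ = true) ∧ ∀ a g, f a = true → f (g * a * g⁻¹) = true) ∧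
          Good Fs (piN fun g => f g = true)} := by
      ext f
      constructor
      · rintro ⟨N, h1, h2, h3⟩
        simp only [mem_ofPred_eq, h3]
        exact ⟨⟨one_mem _, fun a b => mul_mem, fun a => inv_mem, fun a g h => h1.conj_mem a h g⟩, h2⟩
      · rintro ⟨⟨h1, h2, h3, h4⟩, h5⟩
        exact ⟨{ carrier := {g | f g = true}, mul_mem' := fun {a b} => h2 a b, one_mem' := h1,
                 inv_mem' := fun {a} => h3 a }, ⟨fun a h g => h4 a g h⟩, h5, fun g => Iff.rfl⟩
    rw [h1]
    have hb : ∀ g : F, Measurable fun f : F → Bool => f g = true := fun g =>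
      meas_b (measurable_pi_apply g)
    have hp : ∀ k, Measurable fun f : F → Bool => piN (fun g => f g = true) k := fun k =>
      Measurable.exists fun w => measurable_const.and ((hb _).not.and (hb _))
    refine Measurable.setOf (Measurable.and ((hb _).and (Measurable.and ?_ (Measurable.and ?_ ?_)))
      ((hp 0).imp (Measurable.and ?_ ?_)))
    · exact Measurable.forall fun a => Measurable.forall fun b => (hb _).imp ((hb _).imp (hb _))
    · exact Measurable.forall fun a => (hb _).imp (hb _)
    · exact Measurable.forall fun a => Measurable.forall fun b => (hb _).imp (hb _)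
    · exact Measurable.forall fun i => (hp _).iff (hp _).not
    · exact (hF1.preimage (Measurable.prodMk (measurable_pi_lambda _ fun i => meas_d (hp _))
        (measurable_pi_lambda _ fun i => meas_d (hp _)))).mem
  · rw [← BorelSpace.measurable_eq]
    intro hm
    let ρ : (ℕ → Bool) → F → Bool := fun x w => decide (w ∈ NT (Tc x fun _ => true))
    have hρ : Measurable ρ := by
      refine measurable_pi_lambda _ fun w => meas_d ?_
      refine measurable_const.and (measurable_const.and (Measurable.forall fun k =>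
        Measurable.imp ?_ measurable_const))
      exact measurable_const.or ((measurable_const.and (meas_b (measurable_pi_apply _))).or
        ((measurable_const.and (meas_b (measurable_pi_apply _)).not).or measurable_const))
    refine hF2 ?_
    convert hm.preimage hρ using 1
    ext x
    constructor
    · rintro ⟨y, hy⟩
      refine ⟨NT (Tc x fun _ => true), inferInstance, fun g hg => ?_, fun g => by simp [ρ]⟩
      by_cases h1 : g ∈ NT fun k => k ≠ 0 ∧ Tc x (fun _ => true) k
      · refine ⟨NT (Tc x y), inferInstance, fun w hw => ⟨hw.1, hw.2.1, fun k hk => hw.2.2 k ?_⟩,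
          fun h2 => hg ⟨h1.1, h1.2.1, fun k hk => ?_⟩, ?_⟩
        · rcases hk with h | h | h | h
          · exact Or.inl h
          · exact Or.inr (Or.inl h)
          · exact Or.inr (Or.inr (Or.inl h))
          · exact Or.inr (Or.inr (Or.inr ⟨h.1, rfl⟩))
        · by_cases h3 : k = 0
          · exact h2.2.2 k (Or.inl h3)
          · exact h1.2.2 k ⟨h3, hk⟩
        · simp only [mem_ofPred_eq, piN_NT]
          exact fun _ => ⟨fun i => by rw [Tc1, Tc2], by rwa [dec_Tc]⟩
      · refine ⟨NT fun k => k ≠ 0 ∧ Tc x (fun _ => true) k, inferInstance,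
          fun w hw => ⟨hw.1, hw.2.1, fun k hk => hw.2.2 k hk.2⟩, h1, ?_⟩
        simp only [mem_ofPred_eq, piN_NT]
        exact fun h => (h.1 rfl).elim
    · rintro ⟨N, -, h1, h2⟩
      have h3 : N = NT (Tc x fun _ => true) := Subgroup.ext fun g => by
        rw [← h2]; simp [ρ]
      subst h3
      obtain ⟨w, h4, h5, h6⟩ := F4 0
      obtain ⟨M, -, h7, h8, h9⟩ := h1 w (h5 _ (Or.inl rfl))
      obtain ⟨h10, h11⟩ := h9 ⟨w, h4, h8, h7 (h6 _)⟩
      refine ⟨(dec (piN (· ∈ M))).2, ?_⟩
      convert h11 using 1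
      refine Prod.ext (funext fun i => ?_) rfl
      have h12 := F3 _ M h7 (3 * i + 1)
      have h13 := F3 _ M h7 (3 * i + 2)
      rw [Tc1] at h12
      rw [Tc2, h10] at h13
      simp only [dec]
      by_cases h14 : piN (· ∈ M) (3 * i + 1)
      · simp [h14, h12 h14]
      · simpa [h14] using h13 h14

end Pool.Agent.H24.ResP
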