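import Pool.Agent.H24.Trinom

set_option autoImplicit false

namespace Pool.Agent.H24.Trinom

open MvPolynomial Pool.Agent.H24.QSys

theorem rename_mem {σ : Type} (ι : σ → ℕ) (hι : Function.Injective ι) (o : σ)
    (Q : Set ((σ → ℚ) → ℚ)) (F : MvPolynomial σ ℚ) (hF : F ∈ Ann (Gs o Q)) :
    rename ι F ∈ Ann (Gs (ι o) {q | (∃ q' ∈ Q, q = fun w => q' fun i => w (ι i)) ∨
      ∃ j, (¬ ∃ i, ι i = j) ∧ q = fun w => w j * w j}) := by
  have hin : ∀ (e : σ → ℕ) (s : ℕ → ℕ) (i : σ),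
      (Function.extend ι e 0 + s) (ι i) = (e + fun i => s (ι i)) i := fun e s i => by
    simp [hι.extend_apply]
  have hout : ∀ (e : σ → ℕ) (s : ℕ → ℕ) (j : ℕ), (¬ ∃ i, ι i = j) →
      (Function.extend ι e 0 + s) j = s j := fun e s j h => by
    simp [Function.extend_apply' _ _ _ h]
  have h1 : ∀ c : ℚ, L (fun _ => c) F = 0 := fun c => by
    have := L_smul c (fun _ => 1) F
    simp only [mul_one] at this
    rw [this, hF _ (Or.inl rfl) 0, mul_zero]
  rintro g (rfl | ⟨j, rfl⟩ | ⟨q, ⟨q', hq', rfl⟩ | ⟨j, hj, rfl⟩, rfl⟩ | rfl) s <;>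
    rw [L_rename ι hι]
  · exact h1 1
  · by_cases h : ∃ i, ι i = j
    · obtain ⟨i, rfl⟩ := h
      simp only [hin]
      exact hF _ (Or.inr (Or.inl ⟨i, rfl⟩)) _
    · simp only [hout _ _ _ h, h1]
  · simp only [hin]
    exact hF _ (Or.inr (Or.inr (Or.inl ⟨q', hq', rfl⟩))) _
  · simp only [hout _ _ _ hj, h1]
  · simp only [hin]
    exact hF _ (Or.inr (Or.inr (Or.inr rfl))) _

theorem Ann_mono {τ : Type} (o : τ) {Q Q' : Set ((τ → ℚ) → ℚ)} (h : Q ⊆ Q') :
    Ann (Gs o Q') ≤ Ann (Gs o Q) := by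
  intro f hf g hg
  refine hf g ?_
  rcases hg with h' | h' | ⟨q, hq, h'⟩ | h'
  · exact Or.inl h'
  · exact Or.inr (Or.inl h')
  · exact Or.inr (Or.inr (Or.inl ⟨q, h hq, h'⟩))
  · exact Or.inr (Or.inr (Or.inr h'))

theorem Ann_insert {τ : Type} (o : τ) {Q : Set ((τ → ℚ) → ℚ)} {q : (τ → ℚ) → ℚ} (hq : IsQ q)
    {f : MvPolynomial τ ℚ} (hf : f ∈ Ann (Gs o Q)) (h : L (fun e => q fun i => e i) f = 0) :
    f ∈ Ann (Gs o (insert q Q)) := by
  rintro g (h' | h' | ⟨q', rfl | hq', rfl⟩ | h') s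
  · exact hf g (Or.inl h') s
  · exact hf g (Or.inr (Or.inl h')) s
  · rw [shift_q hq f (hf _ (Or.inl rfl) 0)
      (fun i => by simpa using hf _ (Or.inr (Or.inl ⟨i, rfl⟩)) 0), h]
  · exact hf _ (Or.inr (Or.inr (Or.inl ⟨q', hq', rfl⟩))) s
  · exact hf g (Or.inr (Or.inr (Or.inr h'))) s

theorem card_three {τ : Type} (x y z : τ →₀ ℕ) (a b c : ℚ) :
    (monomial x a + monomial y b + monomial z c : MvPolynomial τ ℚ).support.card ≤ 3 := by
  classical
  have : (monomial x a + monomial y b + monomial z c : MvPolynomial τ ℚ).support ⊆ {x, y, z} := by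
    intro e he
    by_contra h
    simp only [Finset.mem_insert, Finset.mem_singleton, not_or] at h
    simp [coeff_monomial, Ne.symm h.1, Ne.symm h.2.1, Ne.symm h.2.2] at he
  exact (Finset.card_le_card this).trans Finset.card_le_three

theorem prim_scale : Primrec₂ scale := by
  unfold scale
  refine Primrec.list_map Primrec.snd ?_
  exact ((Primrec.fst.comp Primrec.snd).pair
    ((Primrec.nat_mul.comp (Primrec.fst.comp Primrec.fst)
      (Primrec.fst.comp (Primrec.snd.comp Primrec.snd))).pair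
    (Primrec.nat_mul.comp (Primrec.fst.comp Primrec.fst)
      (Primrec.snd.comp (Primrec.snd.comp Primrec.snd))))).to₂

theorem reduce (K : ℕ → Prop) {σ : Type} [Fintype σ] (o p : σ) (S : (σ → ℚ) → Prop) (hS : QC S)
    (han : ∀ w : σ → ℤ, S (fun i => w i) → w o = 0 → w = 0)
    (hK : ∀ n : ℕ, K n ↔ ∃ w : σ → ℤ, w o = 1 ∧ w p = n ∧ S fun i => w i)
    (n1 n2 : ℕ) (hn : n1 ≠ n2) (k1 : K n1) (k2 : K n2) :
    ∃ r : ℕ → List (List (List ℕ × ℕ × ℕ)), Computable r ∧ ∀ n, K n ↔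
      ∃ f ∈ Ideal.span {q : MvPolynomial ℕ ℚ | q ∈ (r n).map dec}, f ≠ 0 ∧ f.support.card ≤ 3 := by
  classical
  obtain ⟨ι, hι⟩ := exists_injective_nat σ
  set Q : Set ((σ → ℚ) → ℚ) := {q | IsQ q ∧ ∀ w, S w → q w = 0} with hQ
  have hQq : ∀ q ∈ Q, IsQ q := fun q h => h.1
  let q1 : (σ → ℚ) → ℚ := fun w => w p * w o
  let q2 : (σ → ℚ) → ℚ := fun w => w o * w o
  have i1 : IsQ q1 := .mul _ _
  have i2 : IsQ q2 := .mul _ _
  obtain ⟨T, hT⟩ : (Ann (Gs o (insert q1 (insert q2 Q)))).FG := IsNoetherian.noetherian _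
  have htri : ∀ n, K n → ∃ f ∈ Ann (Gs o Q), L (fun e => q1 fun i => e i) f = 6 * n ∧
      L (fun e => q2 fun i => e i) f = 6 ∧ (rename ι f).support.card ≤ 3 := by
    intro n hn
    obtain ⟨w, ho, hp, hw⟩ := (hK n).1 hn
    refine ⟨tri w, tri_mem o Q hQq w ho fun q hq => hq.2 _ hw, ?_, ?_, ?_⟩
    · have := tri_q w i1 0
      simpa [q1, ho, hp] using this
    · have := tri_q w i2 0
      simpa [q2, ho, hp] using this
    · simp only [tri, map_add, rename_monomial]
      exact card_three _ _ _ _ _ _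
  obtain ⟨f1, m1, a1, b1, -⟩ := htri n1 k1
  obtain ⟨f2, m2, a2, b2, -⟩ := htri n2 k2
  let h : ℕ → MvPolynomial σ ℚ := fun n =>
    ((n1 : ℚ) • f2 - (n2 : ℚ) • f1) + (n : ℚ) • (f1 - f2)
  have hm : ∀ n, h n ∈ Ann (Gs o Q) := fun n => by
    simp only [h, smul_eq_C_mul]
    exact add_mem (sub_mem (Ideal.mul_mem_left _ _ m2) (Ideal.mul_mem_left _ _ m1))
      (Ideal.mul_mem_left _ _ (sub_mem m1 m2))
  have ha : ∀ n, L (fun e => q1 fun i => e i) (h n) = 6 * n * (n1 - n2) := fun n => by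
    simp only [h, map_add, map_sub, map_smul, a1, a2, smul_eq_mul]; ring
  have hb : ∀ n, L (fun e => q2 fun i => e i) (h n) = 6 * (n1 - n2) := fun n => by
    simp only [h, map_add, map_sub, map_smul, b1, b2, smul_eq_mul]; ring
  choose l c hc hl using enc
  set A := rename ι ((n1 : ℚ) • f2 - (n2 : ℚ) • f1)
  set B := rename ι (f1 - f2)
  have hdec : ∀ n, dec (scale (c B) (l A) ++ scale (n * c A) (l B))
      = C ((c A * c B : ℕ) : ℚ) * rename ι (h n) := fun n => by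
    rw [dec_append, dec_scale, dec_scale, hl, hl]
    have : rename ι (h n) = A + C (n : ℚ) * B := by
      simp only [h]; rw [map_add, map_smul, smul_eq_C_mul B]
    rw [this]
    push_cast
    simp only [C_mul]
    ring
  have hunit : ∀ (I : Ideal (MvPolynomial ℕ ℚ)) (k : ℕ) (f : MvPolynomial ℕ ℚ), k ≠ 0 →
      C (k : ℚ) * f ∈ I → f ∈ I := fun I k f hk hf => by
    have := I.mul_mem_left (C (k : ℚ)⁻¹) hf
    rwa [← mul_assoc, ← C_mul, inv_mul_cancel₀ (by exact_mod_cast hk), C_1, one_mul] at this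
  refine ⟨fun n => (scale (c B) (l A) ++ scale (n * c A) (l B)) ::
    T.toList.map fun g => l (rename ι g), ?_, fun n => ⟨fun hn' => ?_, ?_⟩⟩
  · exact (Primrec.list_cons.comp (Primrec.list_append.comp (Primrec.const _)
      (prim_scale.comp (Primrec.nat_mul.comp Primrec.id (Primrec.const _)) (Primrec.const _)))
      (Primrec.const _)).to_comp
  · obtain ⟨f, m, a, b, hcard⟩ := htri n hn'
    have hd : (n1 : ℚ) - n2 ≠ 0 := sub_ne_zero.2 (by exact_mod_cast hn)
    have hmem : f - ((n1 : ℚ) - n2)⁻¹ • h n ∈ Ann (Gs o Q) := by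
      rw [smul_eq_C_mul]; exact sub_mem m (Ideal.mul_mem_left _ _ (hm n))
    have hJ : f - ((n1 : ℚ) - n2)⁻¹ • h n ∈ Ann (Gs o (insert q1 (insert q2 Q))) := by
      refine Ann_insert o i1 (Ann_insert o i2 hmem ?_) ?_
      · rw [map_sub, map_smul, b, hb, smul_eq_mul]; field_simp; ring
      · rw [map_sub, map_smul, a, ha, smul_eq_mul]; field_simp; ring
    refine ⟨rename ι f, ?_, fun e => ?_, hcard⟩
    · set I := Ideal.span {q : MvPolynomial ℕ ℚ | q ∈ ((scale (c B) (l A) ++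
        scale (n * c A) (l B)) :: T.toList.map fun g => l (rename ι g)).map dec}
      have e1 : rename ι (h n) ∈ I := hunit I _ _ (mul_ne_zero (hc A) (hc B))
        (Ideal.subset_span (by rw [← hdec]; exact List.mem_cons_self))
      have e2 : ∀ g ∈ Ideal.span (T : Set (MvPolynomial σ ℚ)), rename ι g ∈ I := by
        intro g hg
        refine (Ideal.span_le (I := I.comap (rename ι : MvPolynomial σ ℚ →ₐ[ℚ] _))).2 ?_ hg
        intro g hg
        refine hunit I _ _ (hc (rename ι g)) (Ideal.subset_span ?_)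
        simp only [List.map_cons, List.mem_cons, List.mem_map, Set.mem_ofPred_eq]
        exact Or.inr ⟨_, ⟨g, by simpa using hg, rfl⟩, hl _⟩
      have e3 := e2 _ (hT ▸ hJ)
      rw [map_sub, map_smul, smul_eq_C_mul] at e3
      simpa using add_mem e3 (I.mul_mem_left (C ((n1 : ℚ) - n2)⁻¹) e1)
    · have : f = 0 := rename_injective ι hι (by simpa using e)
      rw [this] at b
      simp at b
  · rintro ⟨f, hf, hne, hcard⟩
    let qn : (σ → ℚ) → ℚ := fun w => q1 w - n * q2 w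
    have iN : IsQ qn := i1.sub (i2.smul _)
    have hL : ∀ F, L (fun e => qn fun i => e i) F =
        L (fun e => q1 fun i => e i) F - n * L (fun e => q2 fun i => e i) F := fun F => by
      rw [sub_eq_add_neg, ← neg_mul, ← L_smul, ← L_add]
      congr 2; funext e; simp only [qn]; ring
    set Q' : Set ((ℕ → ℚ) → ℚ) := {q | (∃ q' ∈ insert qn Q, q = fun w => q' fun i => w (ι i)) ∨
      ∃ j, (¬ ∃ i, ι i = j) ∧ q = fun w => w j * w j} with hQ'
    have hf' : f ∈ Ann (Gs (ι o) Q') := by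
      refine (Ideal.span_le (I := Ann (Gs (ι o) Q'))).2 ?_ hf
      intro g hg
      simp only [List.map_cons, List.mem_cons, List.mem_map, Set.mem_ofPred_eq] at hg
      rcases hg with rfl | ⟨_, ⟨g, hg, rfl⟩, rfl⟩
      · rw [hdec]
        refine Ideal.mul_mem_left _ _ (rename_mem ι hι o _ _ (Ann_insert o iN (hm n) ?_))
        rw [hL, ha, hb]; ring
      · rw [hl]
        have hg' : g ∈ Ann (Gs o (insert q1 (insert q2 Q))) :=
          hT ▸ Ideal.subset_span (by simpa using hg)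
        refine Ideal.mul_mem_left _ _ (rename_mem ι hι o _ _ (Ann_insert o iN
          (Ann_mono o (fun _ h => Or.inr (Or.inr h)) hg') ?_))
        have e1 := hg' _ (Or.inr (Or.inr (Or.inl ⟨q1, Or.inl rfl, rfl⟩))) 0
        have e2 := hg' _ (Or.inr (Or.inr (Or.inl ⟨q2, Or.inr (Or.inl rfl), rfl⟩))) 0
        simp only [add_zero] at e1 e2
        rw [hL, e1, e2]; ring
    have hSw : ∀ w : ℕ → ℤ, (∀ q ∈ Q', q (fun i => w i) = 0) → S fun i => w (ι i) := fun w hw =>
      hS _ fun q hq h' => hw _ (Or.inl ⟨q, Or.inr ⟨hq, h'⟩, rfl⟩)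
    obtain ⟨w, ho, hw⟩ := sound (ι o) Q' (by
        rintro q (⟨q', rfl | hq', rfl⟩ | ⟨j, -, rfl⟩)
        · exact iN.comp ι
        · exact hq'.1.comp ι
        · exact .mul _ _) (fun w hw ho => by
        have := han (fun i => w (ι i)) (hSw w hw) ho
        funext j
        by_cases h : ∃ i, ι i = j
        · obtain ⟨i, rfl⟩ := h
          exact congrFun this i
        · simpa using hw _ (Or.inr ⟨j, h, rfl⟩)) f hne hcard (hf' _ (Or.inl rfl) 0)
      (fun i => by simpa using hf' _ (Or.inr (Or.inl ⟨i, rfl⟩)) 0)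
      (fun q hq => by simpa using hf' _ (Or.inr (Or.inr (Or.inl ⟨q, hq, rfl⟩))) 0)
      (by simpa using hf' _ (Or.inr (Or.inr (Or.inr rfl))) 0)
    refine (hK n).2 ⟨fun i => w (ι i), ho, ?_, hSw w hw⟩
    have := hw _ (Or.inl ⟨qn, Or.inl rfl, rfl⟩)
    simp only [qn, q1, q2, ho, Int.cast_one, mul_one] at this
    exact_mod_cast sub_eq_zero.1 this

theorem two_elems (K : ℕ → Prop) (h : ¬ ComputablePred K) : ∃ a b, a ≠ b ∧ K a ∧ K b := by
  by_contra hc
  apply h
  by_cases h' : ∃ a, K a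
  · obtain ⟨a, ha⟩ := h'
    refine (PrimrecPred.computablePred (Primrec.eq.comp Primrec.id (Primrec.const a))).of_eq
      fun n => ⟨fun e => (show n = a from e) ▸ ha, fun e => ?_⟩
    by_contra hne
    exact hc ⟨n, a, hne, e, ha⟩
  · refine (PrimrecPred.computablePred
      (Primrec.eq.comp (Primrec.const 0) (Primrec.const 1))).of_eq fun n => ?_
    simpa using fun e => h' ⟨n, e⟩

theorem main : ¬ ComputablePred fun Ls : List (List (List ℕ × ℕ × ℕ)) =>
    ∃ f ∈ Ideal.span {q : MvPolynomial ℕ ℚ | q ∈ Ls.map dec}, f ≠ 0 ∧ f.support.card ≤ 3 := by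
  intro hc
  obtain ⟨m, P, hP⟩ := Pool.Agent.H24.DPRM.h10
  obtain ⟨τ, _, o, p, S, hS, han, hK⟩ := qsys 0 P
  obtain ⟨a, b, hab, ha, hb⟩ := two_elems _ hP
  obtain ⟨r, hr, e⟩ := reduce _ o p S hS han hK a b hab ha hb
  apply hP
  obtain ⟨f, hf, e'⟩ := ComputablePred.computable_iff.1 hc
  refine ComputablePred.computable_iff.2 ⟨fun n => f (r n), hf.comp hr, funext fun n => ?_⟩
  rw [propext (e n)]
  exact congrFun e' (r n)

end Pool.Agent.H24.Trinom
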