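import Pool.Agent.H24.QSys
import Pool.Agent.H24.H10Sys
import Pool.Agent.H24.Trinom2

set_option autoImplicit false

/-! A finitely generated nilpotent group of class two with undecidable retract problem. -/

namespace Pool.Agent.H24.Retract

open Pool.Agent.H24.QSys

/-- generalized Heisenberg group of a biadditive map -/
@[ext] structure Heis {A B C : Type} [AddCommGroup A] [AddCommGroup B] [AddCommGroup C]
    (β : A →+ B →+ C) where
  a : A
  b : B
  c : C

variable {A B C : Type} [AddCommGroup A] [AddCommGroup B] [AddCommGroup C] {β : A →+ B →+ C}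

instance : Mul (Heis β) := ⟨fun x y => ⟨x.a + y.a, x.b + y.b, x.c + y.c + β x.a y.b⟩⟩
instance : One (Heis β) := ⟨⟨0, 0, 0⟩⟩
instance : Inv (Heis β) := ⟨fun x => ⟨-x.a, -x.b, -x.c + β x.a x.b⟩⟩

@[simp] theorem mul_a (x y : Heis β) : (x * y).a = x.a + y.a := rfl
@[simp] theorem mul_b (x y : Heis β) : (x * y).b = x.b + y.b := rfl
@[simp] theorem mul_c (x y : Heis β) : (x * y).c = x.c + y.c + β x.a y.b := rfl
@[simp] theorem one_a : (1 : Heis β).a = 0 := rfl
@[simp] theorem one_b : (1 : Heis β).b = 0 := rfl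
@[simp] theorem one_c : (1 : Heis β).c = 0 := rfl
@[simp] theorem inv_a (x : Heis β) : (x⁻¹).a = -x.a := rfl
@[simp] theorem inv_b (x : Heis β) : (x⁻¹).b = -x.b := rfl
@[simp] theorem inv_c (x : Heis β) : (x⁻¹).c = -x.c + β x.a x.b := rfl

instance : Group (Heis β) := Group.ofLeftAxioms
  (fun x y z => by ext <;> simp <;> abel) (fun x => by ext <;> simp) (fun x => by ext <;> simp)

theorem zpow_eq (x : Heis β) (h : β x.a x.b = 0) (i : ℤ) :
    x ^ i = ⟨i • x.a, i • x.b, i • x.c⟩ := by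
  induction i using Int.induction_on with
  | zero => ext <;> simp
  | succ i ih => rw [zpow_add_one, ih]; ext <;> simp [add_smul, h]
  | pred i ih => rw [zpow_sub_one, ih]; ext <;> simp [sub_smul, h, sub_eq_add_neg, add_smul]

theorem comm_eq (x y : Heis β) : x * y * x⁻¹ * y⁻¹ = ⟨0, 0, β x.a y.b - β y.a x.b⟩ := by
  ext <;> simp
  abel

theorem bz (i j : ℤ) (x : A) (y : B) : β (i • x) (j • y) = (i * j) • β x y := by
  rw [map_zsmul, map_zsmul, AddMonoidHom.smul_apply, smul_smul, mul_comm]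

theorem bz1 (i : ℤ) (x : A) (y : B) : β (i • x) y = i • β x y := by
  rw [map_zsmul, AddMonoidHom.smul_apply]

/-- projection to the abelian quotient -/
def pr : Heis β →* Multiplicative (A × B) where
  toFun x := Multiplicative.ofAdd (x.a, x.b)
  map_one' := rfl
  map_mul' _ _ := rfl

instance : Group.IsNilpotent (Heis β) := by
  refine Subgroup.isNilpotent_of_ker_le_center (pr (β := β)) (fun x hx => ?_)
  have h : (x.a, x.b) = (0, 0) := hx
  obtain ⟨h1, h2⟩ := Prod.mk.inj h
  rw [Subgroup.mem_center_iff]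
  intro y
  ext <;> simp [h1, h2, add_comm]

variable {τ : Type} [Fintype τ]

/-- the pairing given by evaluation at the integer points of the cone -/
def bil (Z : Set (τ → ℤ)) : (τ → ℤ) →+ (τ → ℤ) →+ (Z → ℤ) where
  toFun a :=
    { toFun := fun b w => (a ⬝ᵥ w.1) * (b ⬝ᵥ w.1)
      map_zero' := by ext; simp
      map_add' := fun _ _ => by ext; simp [mul_add] }
  map_zero' := by ext; simp
  map_add' := fun _ _ => by ext; simp [add_mul]

@[simp] theorem bil_apply (Z : Set (τ → ℤ)) (a b : τ → ℤ) (w : Z) :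
    bil Z a b w = (a ⬝ᵥ w.1) * (b ⬝ᵥ w.1) := rfl

/-- evaluation endomorphism -/
def rho (Z : Set (τ → ℤ)) (w : Z) (a b : τ → ℤ) : Heis (bil Z) →* Heis (bil Z) where
  toFun x := ⟨(x.a ⬝ᵥ w.1) • a, (x.b ⬝ᵥ w.1) • b, x.c w • bil Z a b⟩
  map_one' := by ext <;> simp
  map_mul' x y := by
    refine Heis.ext ?_ ?_ ?_ <;>
      simp only [mul_a, mul_b, mul_c, bz, add_dotProduct, Pi.add_apply, bil_apply] <;> module

theorem core [DecidableEq τ] (o p : τ) (S : (τ → ℚ) → Prop) (hS : QC S) (Z : Set (τ → ℤ))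
    (hZ : ∀ w, w ∈ Z ↔ S fun i => w i) (w0 : Z) (h0 : w0.1 o = 1) (n : ℕ)
    (G : Subgroup (Heis (bil Z))) (X Y : τ → G) (hX : ∀ i, (X i).1 = ⟨Pi.single i 1, 0, 0⟩)
    (hY : ∀ i, (Y i).1 = ⟨0, Pi.single i 1, 0⟩) (H : Subgroup G)
    (hH : H = Subgroup.closure {X p ^ 3 * X o * (X o)⁻¹ ^ (3 * n), Y o}) :
    (∃ w : τ → ℤ, w o = 1 ∧ w p = n ∧ S fun i => w i) ↔
      ∃ r : G →* G, r.range = H ∧ ∀ h ∈ H, r h = h := by
  set a : τ → ℤ := (3 : ℤ) • Pi.single p 1 + (1 - 3 * n : ℤ) • Pi.single o 1 with ha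
  set b : τ → ℤ := Pi.single o 1 with hb
  set z := bil Z a b with hz
  set E := X p ^ 3 * X o * (X o)⁻¹ ^ (3 * n) with hE
  have hEz : E = X p ^ (3 : ℤ) * X o ^ (1 - 3 * n : ℤ) := by
    rw [hE, zpow_sub, zpow_one, inv_pow, mul_assoc]
    norm_cast
  have hE1 : E.1 = ⟨a, 0, 0⟩ := by
    rw [hEz]
    simp only [Subgroup.coe_mul, SubgroupClass.coe_zpow, hX]
    rw [zpow_eq _ (by simp), zpow_eq _ (by simp)]
    ext <;> simp [ha, hb]
  have hEH : E ∈ H := hH ▸ Subgroup.subset_closure (by simp)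
  have hYH : Y o ∈ H := hH ▸ Subgroup.subset_closure (by simp)
  have hshape : ∀ h ∈ H, ∃ i j k : ℤ, h.1 = ⟨i • a, j • b, k • z⟩ := by
    intro h hh
    rw [hH] at hh
    induction hh using Subgroup.closure_induction with
    | mem x hx =>
      rcases hx with rfl | rfl
      · exact ⟨1, 0, 0, by rw [hE1]; simp⟩
      · exact ⟨0, 1, 0, by rw [hY]; simp [hb]⟩
    | one => exact ⟨0, 0, 0, by ext <;> simp⟩
    | mul x y _ _ hx hy =>
      obtain ⟨i, j, k, e⟩ := hx
      obtain ⟨i', j', k', e'⟩ := hy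
      refine ⟨i + i', j + j', k + k' + i * j', ?_⟩
      rw [Subgroup.coe_mul, e, e']
      refine Heis.ext ?_ ?_ ?_ <;> simp only [mul_a, mul_b, mul_c, bz, ← hz] <;> module
    | inv x _ hx =>
      obtain ⟨i, j, k, e⟩ := hx
      refine ⟨-i, -j, -k + i * j, ?_⟩
      rw [Subgroup.coe_inv, e]
      refine Heis.ext ?_ ?_ ?_ <;> simp only [inv_a, inv_b, inv_c, bz, ← hz] <;> module
  have hzz : ∀ k : ℤ, k • z = 0 → k = 0 := fun k hk => by
    have := congrFun hk w0
    simp only [hz, ha, hb, Pi.smul_apply, bil_apply, add_dotProduct, smul_dotProduct,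
      single_dotProduct, h0, smul_eq_mul, mul_one, one_mul, Pi.zero_apply, mul_eq_zero] at this
    omega
  constructor
  · rintro ⟨w, ho, hp, hw⟩
    have hall : ∀ i j k : ℤ, ∃ h ∈ H, h.1 = ⟨i • a, j • b, k • z⟩ := fun i j k => by
      refine ⟨E ^ i * Y o ^ j * (E * Y o * E⁻¹ * (Y o)⁻¹) ^ (k - i * j),
        H.mul_mem (H.mul_mem (H.zpow_mem hEH _) (H.zpow_mem hYH _)) (H.zpow_mem (H.mul_mem
          (H.mul_mem (H.mul_mem hEH hYH) (H.inv_mem hEH)) (H.inv_mem hYH)) _), ?_⟩
      simp only [Subgroup.coe_mul, SubgroupClass.coe_zpow, Subgroup.coe_inv, comm_eq, hE1, hY]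
      rw [zpow_eq _ (by simp), zpow_eq _ (by simp), zpow_eq _ (by simp)]
      refine Heis.ext ?_ ?_ ?_ <;> simp only [mul_a, mul_b, mul_c, bz, ← hz, ← hb, map_zero,
        AddMonoidHom.zero_apply, smul_zero, add_zero, zero_add, sub_zero] <;> module
    let w' : Z := ⟨w, (hZ w).2 hw⟩
    let r : G →* G := ((rho Z w' a b).comp G.subtype).codRestrict G fun g => by
      obtain ⟨h, -, e⟩ := hall (g.1.a ⬝ᵥ w) (g.1.b ⬝ᵥ w) (g.1.c w')
      exact (show h.1 = ((rho Z w' a b).comp G.subtype) g from e) ▸ h.2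
    have hfix : ∀ h ∈ H, r h = h := fun h hh => by
      obtain ⟨i, j, k, e⟩ := hshape h hh
      apply Subtype.ext
      show rho Z w' a b h.1 = h.1
      have e1 : a ⬝ᵥ w = 1 := by
        simp only [ha, hb, add_dotProduct, smul_dotProduct, single_dotProduct, ho, hp, smul_eq_mul]
        ring
      have e2 : b ⬝ᵥ w = 1 := by simp [hb, ho]
      rw [e]
      simp only [rho, MonoidHom.coe_mk, OneHom.coe_mk, w', smul_dotProduct, e1, e2, hz,
        Pi.smul_apply, bil_apply, smul_eq_mul, mul_one]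
    refine ⟨r, le_antisymm ?_ fun h hh => ⟨h, hfix h hh⟩, hfix⟩
    rintro _ ⟨g, rfl⟩
    obtain ⟨h, hh, e⟩ := hall (g.1.a ⬝ᵥ w) (g.1.b ⬝ᵥ w) (g.1.c w')
    exact (show h = r g from Subtype.ext e) ▸ hh
  · rintro ⟨r, hr, hfix⟩
    have hsh : ∀ g, ∃ i j k : ℤ, (r g).1 = ⟨i • a, j • b, k • z⟩ := fun g =>
      hshape _ (hr ▸ ⟨g, rfl⟩)
    choose ξ η κ hsh using hsh
    have hcomm : ∀ g g' : G, (r (g * g' * g⁻¹ * g'⁻¹)).1 = ⟨0, 0, (ξ g * η g' - ξ g' * η g) • z⟩ := by
      intro g g'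
      simp only [map_mul, map_inv, Subgroup.coe_mul, Subgroup.coe_inv, comm_eq, hsh, bz, ← hz,
        sub_smul]
    have hcm : ∀ g g' : G, (g * g' * g⁻¹ * g'⁻¹).1 = ⟨0, 0, bil Z g.1.a g'.1.b - bil Z g'.1.a g.1.b⟩ :=
      fun g g' => by simp only [Subgroup.coe_mul, Subgroup.coe_inv, comm_eq]
    have hEa : ξ E = 1 ∧ η E = 0 := by
      have := hsh E
      rw [hfix E hEH, hE1] at this
      have e1 : a = ξ E • a := congrArg Heis.a this
      have e2 : 0 = η E • b := congrArg Heis.b this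
      constructor
      · have : (ξ E - 1) • z = 0 := by
          rw [sub_smul, one_smul, hz, ← bz1, ← e1, sub_self]
        linarith [hzz _ this]
      · simpa [hb, eq_comm] using congrFun e2 o
    have hYa : ξ (Y o) = 0 ∧ η (Y o) = 1 := by
      have := hsh (Y o)
      rw [hfix _ hYH, hY] at this
      have e1 : 0 = ξ (Y o) • a := congrArg Heis.a this
      have e2 : Pi.single o 1 = η (Y o) • b := congrArg Heis.b this
      constructor
      · apply hzz
        rw [hz, ← bz1, ← e1]; simp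
      · simpa [hb, eq_comm] using congrFun e2 o
    have hone : ∀ g : G, g.1 = ⟨0, 0, 0⟩ → ∀ k : ℤ, (r g).1 = ⟨0, 0, k • z⟩ → k = 0 := by
      intro g hg k hk
      rw [show g = 1 from Subtype.ext hg, map_one] at hk
      exact hzz k (congrArg Heis.c hk).symm
    have hXb : ∀ i, η (X i) = 0 := fun i => by
      have := hone _ (by rw [hcm, hX, hE1]; simp) _ (hcomm E (X i))
      simpa [hEa.1, hEa.2] using this
    have hYb : ∀ i, ξ (Y i) = 0 := fun i => by
      have := hone _ (by rw [hcm, hY, hY]; simp) _ (hcomm (Y i) (Y o))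
      simpa [hYa.1, hYa.2] using this
    have hXY : ∀ i j, (X i * Y j * (X i)⁻¹ * (Y j)⁻¹).1 = ⟨0, 0, fun w => w.1 i * w.1 j⟩ :=
      fun i j => by rw [hcm, hX, hY]; ext <;> simp
    have hsym : ∀ i, ξ (X i) = ξ (X o) * η (Y i) := fun i => by
      have e : X i * Y o * (X i)⁻¹ * (Y o)⁻¹ = X o * Y i * (X o)⁻¹ * (Y i)⁻¹ := by
        apply Subtype.ext; rw [hXY, hXY]; simp [mul_comm]
      have e1 := hcomm (X i) (Y o)
      rw [e, hcomm] at e1
      have e2 := congrArg Heis.c e1
      simp only [hXb, hYa.2, mul_zero, sub_zero, mul_one] at e2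
      have := hzz _ (by rw [sub_smul, e2, sub_self] : (ξ (X o) * η (Y i) - ξ (X i)) • z = 0)
      linarith
    have hkey : ξ (X o) * (3 * η (Y p) + (1 - 3 * n)) = 1 := by
      have e1 : (r E).1.a = a := by rw [hfix E hEH, hE1]
      rw [hEz] at e1
      simp only [map_mul, map_zpow, Subgroup.coe_mul, SubgroupClass.coe_zpow, hsh, hXb] at e1
      rw [zpow_eq _ (by simp), zpow_eq _ (by simp)] at e1
      simp only [mul_a, smul_smul, ← add_smul] at e1
      have : (3 * ξ (X p) + (1 - 3 * n) * ξ (X o) - 1) • z = 0 := by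
        rw [sub_smul, one_smul, hz, ← bz1, e1, sub_self]
      have := hzz _ this
      rw [hsym p] at this
      linarith
    have hq : ∀ q : (τ → ℚ) → ℚ, IsQ q → ∃ N : ℕ, N ≠ 0 ∧ ∃ (g : G) (ω : Z → ℤ) (k : ℤ),
        g.1 = ⟨0, 0, ω⟩ ∧ (∀ w, (ω w : ℚ) = N * q fun i => w.1 i) ∧ (r g).1 = ⟨0, 0, k • z⟩ ∧
        (k : ℚ) = N * ξ (X o) * q fun i => η (Y i) := by
      intro q hq
      induction hq with
      | mul i j =>
        refine ⟨1, one_ne_zero, _, _, _, hXY i j, fun w => by simp, hcomm _ _, ?_⟩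
        rw [hXb, hsym i]; push_cast; ring
      | zero => exact ⟨1, one_ne_zero, 1, 0, 0, rfl, by simp, by rw [map_one]; ext <;> simp, by simp⟩
      | add _ _ h h' =>
        obtain ⟨N, hN, g, ω, k, e1, e2, e3, e4⟩ := h
        obtain ⟨N', hN', g', ω', k', e1', e2', e3', e4'⟩ := h'
        refine ⟨N * N', mul_ne_zero hN hN', g ^ (N' : ℤ) * g' ^ (N : ℤ), (N' : ℤ) • ω + (N : ℤ) • ω',
          N' * k + N * k', ?_, fun w => ?_, ?_, ?_⟩
        · simp only [Subgroup.coe_mul, SubgroupClass.coe_zpow, e1, e1']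
          rw [zpow_eq _ (by simp), zpow_eq _ (by simp)]
          ext <;> simp
        · simp [e2, e2']; ring
        · simp only [map_mul, map_zpow, Subgroup.coe_mul, SubgroupClass.coe_zpow, e3, e3']
          rw [zpow_eq _ (by simp), zpow_eq _ (by simp)]
          ext <;> simp
          ring
        · push_cast; rw [e4, e4']; ring
      | smul c _ h =>
        obtain ⟨N, hN, g, ω, k, e1, e2, e3, e4⟩ := h
        have hc : (c.num : ℚ) = c.den * c := (Rat.den_mul_eq_num c).symm
        refine ⟨N * c.den, mul_ne_zero hN c.den_nz, g ^ c.num, c.num • ω, c.num * k, ?_,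
          fun w => ?_, ?_, ?_⟩
        · simp only [SubgroupClass.coe_zpow, e1]
          rw [zpow_eq _ (by simp)]
          ext <;> simp
        · simp only [Pi.smul_apply, smul_eq_mul]; push_cast; rw [e2, hc]; ring
        · simp only [map_zpow, SubgroupClass.coe_zpow, e3]
          rw [zpow_eq _ (by simp)]
          ext <;> simp
          ring
        · push_cast; rw [e4, hc]; ring
    have hne : ξ (X o) ≠ 0 := fun e => by simp [e] at hkey
    refine ⟨fun i => η (Y i), hYa.2, ?_, hS _ fun q hq' hv => ?_⟩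
    · show η (Y p) = n
      rcases Int.eq_one_or_neg_one_of_mul_eq_one' hkey with h | h <;> omega
    · obtain ⟨N, hN, g, ω, k, e1, e2, e3, e4⟩ := hq q hq'
      have : ω = 0 := funext fun w => by
        have := e2 w
        rw [hv _ ((hZ w.1).1 w.2), mul_zero] at this
        exact_mod_cast this
      have hk := hone g (this ▸ e1) k e3
      rw [hk] at e4
      simpa [hN, hne] using e4

theorem main : ∃ (G : Type) (_ : Group G), Group.IsNilpotent G ∧
      ∃ (n : ℕ) (φ : FreeGroup (Fin n) →* G), Function.Surjective φ ∧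
        ¬ ComputablePred (fun L : List (List (Fin n × Bool)) =>
          ∃ r : G →* G,
            r.range = Subgroup.closure {g : G | ∃ w ∈ L, φ (FreeGroup.mk w) = g} ∧
            ∀ h ∈ Subgroup.closure {g : G | ∃ w ∈ L, φ (FreeGroup.mk w) = g}, r h = h) := by
  classical
  obtain ⟨m, P, hP⟩ := Pool.Agent.H24.DPRM.h10
  obtain ⟨τ, _, o, p, S, hS, hK⟩ := veronese 0 P
  obtain ⟨n0, -, -, h0, -⟩ := Pool.Agent.H24.Trinom.two_elems _ hP
  obtain ⟨w0, ho, -, hw0⟩ := (hK n0).1 h0
  let Z : Set (τ → ℤ) := {w | S fun i => w i}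
  let e := Fintype.equivFin (τ ⊕ τ)
  let gen : τ ⊕ τ → Heis (bil Z) := Sum.elim (fun i => ⟨Pi.single i 1, 0, 0⟩)
    fun i => ⟨0, Pi.single i 1, 0⟩
  let ψ := FreeGroup.lift fun j => gen (e.symm j)
  refine ⟨ψ.range, inferInstance, inferInstance, _, ψ.rangeRestrict, ψ.rangeRestrict_surjective, ?_⟩
  refine H10.not_comp_of_red hP (fun n => [[(e (.inl p), true), (e (.inl p), true),
    (e (.inl p), true), (e (.inl o), true)] ++ List.replicate (3 * n) (e (.inl o), false),
    [(e (.inr o), true)]]) ?_ fun n => ?_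
  · exact (Primrec.list_cons.comp (Primrec.list_append.comp (Primrec.const _)
      ((H10.prim_replicate _).comp (Primrec.nat_mul.comp (Primrec.const 3) Primrec.id)))
      (Primrec.const _)).to_comp
  · rw [hK n]
    refine core o p S hS Z (fun _ => Iff.rfl) ⟨w0, hw0⟩ ho n ψ.range
      (fun i => ψ.rangeRestrict (FreeGroup.of (e (.inl i))))
      (fun i => ψ.rangeRestrict (FreeGroup.of (e (.inr i)))) (fun i => by simp [ψ, gen])
      (fun i => by simp [ψ, gen]) _ ?_
    congr 1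
    have h1 : ∀ (k : ℕ) j, FreeGroup.mk (List.replicate k (j, false)) =
        (FreeGroup.of j : FreeGroup (Fin (Fintype.card (τ ⊕ τ))))⁻¹ ^ k := fun k j => by
      induction k with
      | zero => rfl
      | succ k ih => rw [pow_succ', ← ih]; rfl
    have h2 : FreeGroup.mk ([(e (.inl p), true), (e (.inl p), true),
        (e (.inl p), true), (e (.inl o), true)] ++ List.replicate (3 * n) (e (.inl o), false)) =
        FreeGroup.of (e (.inl p)) ^ 3 * FreeGroup.of (e (.inl o)) *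
          (FreeGroup.of (e (.inl o)))⁻¹ ^ (3 * n) := by
      rw [← FreeGroup.mul_mk, h1]; rfl
    ext g
    simp only [List.mem_cons, List.not_mem_nil, or_false, exists_eq_or_imp, exists_eq_left, h2,
      Set.mem_ofPred_eq, Set.mem_insert_iff, Set.mem_singleton_iff, map_mul, map_pow, map_inv]
    exact or_congr eq_comm eq_comm

end Pool.Agent.H24.Retract
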