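import Mathlib
import Pool.Agent.H24.HomP2
import Pool.Agent.H24.H10Sys

set_option autoImplicit false

namespace Pool.Agent.H24.RevMem

open FreeGroup Pool.Agent.H23 Pool.Agent.H24.HomP

abbrev X := ℕ × ℕ

def al (n : ℕ) : ℕ := bif n % 2 == 0 then n + 1 else n - 1
def be (n : ℕ) : ℕ := bif n % 2 == 0 then n - 1 else n + 1

theorem al_al (n : ℕ) : al (al n) = n := by
  unfold al
  rcases Nat.mod_two_eq_zero_or_one n with h | h
  · have : (n + 1) % 2 = 1 := by omega
    simp [h, this]
  · have : (n - 1) % 2 = 0 := by omega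
    simp [h, this]; omega

theorem be_be (n : ℕ) : be (be n) = n := by
  unfold be
  rcases Nat.mod_two_eq_zero_or_one n with h | h
  · rcases Nat.eq_zero_or_pos n with rfl | h0
    · rfl
    · have : (n - 1) % 2 = 1 := by omega
      simp [h, this]; omega
  · have : (n + 1) % 2 = 0 := by omega
    simp [h, this]

variable (R : ℕ → Bool)

def ga (x : X) : X :=
  bif R x.2 then (bif x.1 == 0 then (2 * x.2.unpair.1 + 2, x.2) else
    bif x.1 == 2 * x.2.unpair.1 + 2 then (0, x.2) else x) else x

theorem ga_ga (x : X) : ga R (ga R x) = x := by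
  obtain ⟨a, s⟩ := x
  unfold ga
  cases h : R s
  · simp [h]
  · by_cases h1 : a = 0
    · simp [h, h1]
    · by_cases h2 : a = 2 * s.unpair.1 + 2
      · simp [h, h2]
      · have e1 : (a == 0) = false := by simpa using h1
        have e2 : (a == 2 * s.unpair.1 + 2) = false := by simpa using h2
        simp [h, e1, e2]

def act (j : Fin 7) (x : X) : X :=
  bif j == 1 then (al x.1, x.2) else bif j == 2 then (be x.1, x.2) else
  bif j == 3 then (x.1, al x.2) else bif j == 4 then (x.1, be x.2) else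
  bif j == 5 then ga R x else x

theorem act_act (j : Fin 7) (x : X) : act R j (act R j x) = x := by
  fin_cases j <;> simp [act, al_al, be_be, ga_ga] <;> rfl

def ρ : FreeGroup (Fin 7) →* Equiv.Perm X :=
  FreeGroup.lift fun j => Function.Involutive.toPerm (act R j) (act_act R j)

@[ext] structure B where
  l : X → ZMod 2
  q : FreeGroup (Fin 7)
  n : ℤ

variable {R}

/-- The ambient group. -/
def K (_ : ℕ → Bool) := B

instance : Mul (K R) := ⟨fun a b => ⟨fun x => a.l x + b.l (ρ R a.q⁻¹ x), a.q * b.q, a.n + b.n⟩⟩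
instance : One (K R) := ⟨⟨0, 1, 0⟩⟩
instance : Inv (K R) := ⟨fun a => ⟨fun x => -a.l (ρ R a.q x), a.q⁻¹, -a.n⟩⟩

@[simp] theorem mul_l (a b : K R) (x : X) : (a * b).l x = a.l x + b.l (ρ R a.q⁻¹ x) := rfl
@[simp] theorem mul_q (a b : K R) : (a * b).q = a.q * b.q := rfl
@[simp] theorem mul_n (a b : K R) : (a * b).n = a.n + b.n := rfl
@[simp] theorem one_l (x : X) : (1 : K R).l x = 0 := rfl
@[simp] theorem one_q : (1 : K R).q = 1 := rfl
@[simp] theorem one_n : (1 : K R).n = 0 := rfl
@[simp] theorem inv_l (a : K R) (x : X) : a⁻¹.l x = -a.l (ρ R a.q x) := rfl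
@[simp] theorem inv_q (a : K R) : a⁻¹.q = a.q⁻¹ := rfl
@[simp] theorem inv_n (a : K R) : a⁻¹.n = -a.n := rfl

theorem K.ext {a b : K R} (h1 : ∀ x, a.l x = b.l x) (h2 : a.q = b.q) (h3 : a.n = b.n) : a = b :=
  B.ext (funext h1) h2 h3

instance : Group (K R) := Group.ofLeftAxioms
  (fun a b c => K.ext (fun x => by simp [add_assoc]) (by simp [mul_assoc]) (by simp [add_assoc]))
  (fun a => K.ext (fun x => by simp) (by simp) (by simp))
  (fun a => K.ext (fun x => by simp [CharTwo.add_self_eq_zero]) (by simp) (by simp))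

def fl (j : Fin 7) (b : Bool) : List (Fin 7 × Bool) := bif j == 0 || j == 6 then [] else [(j, b)]
def wt (j : Fin 7) : ℕ := bif j == 1 || j == 2 || j == 6 then 1 else 0

variable (R)

def gen (y : Fin 7 × Bool) : K R :=
  ⟨fun x => if y.1 = 0 ∧ x = (0, 0) then 1 else 0, mk (fl y.1 y.2), wt y.1⟩

theorem ρ_fl (j : Fin 7) (b : Bool) (x : X) : ρ R (mk (fl j b)) x = act R j x := by
  by_cases h : j = 0 ∨ j = 6
  · rcases h with rfl | rfl <;> rfl
  · have : (j == 0 || j == 6) = false := by simpa using h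
    cases b <;> simp [fl, this, ρ] <;> rfl

theorem fl_inv (j : Fin 7) (b : Bool) : (mk (fl j b))⁻¹ = mk (fl j (!b)) := by
  unfold fl
  cases (j == 0 || j == 6) <;> simp [invRev]

theorem gen_inv (y : Fin 7 × Bool) :
    (gen R y)⁻¹ = ⟨(gen R y).l, mk (fl y.1 (!y.2)), -wt y.1⟩ := by
  refine K.ext (fun x => ?_) (fl_inv _ _) rfl
  simp only [inv_l, gen, ρ_fl]
  by_cases h : y.1 = 0
  · simp only [h, true_and]
    have : act R 0 x = x := rfl
    rw [this, ZMod.neg_eq_self_mod_two]
  · simp [h]

abbrev W := List ((Fin 7 × Bool) × Bool)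

def lam (w : W) : List X :=
  w.foldr (fun y L => bif y.1.1 == 0 then (0, 0) :: L else L.map (act R y.1.1)) []
def fw (w : W) : List (Fin 7 × Bool) := w.flatMap fun y => fl y.1.1 (y.1.2 == y.2)
def pw (w : W) : ℕ := w.foldr (fun y s => bif y.2 then wt y.1.1 + s else s) 0
def mw (w : W) : ℕ := w.foldr (fun y s => bif y.2 then s else wt y.1.1 + s) 0

theorem ev_form (w : W) :
    ev (gen R) w = ⟨fun x => ((lam R w).count x : ℕ), mk (fw w), (pw w : ℤ) - mw w⟩ := by
  induction w with
  | nil => rfl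
  | cons y w ih =>
    obtain ⟨⟨j, b⟩, c⟩ := y
    have e : cond c (gen R (j, b)) (gen R (j, b))⁻¹ =
        ⟨(gen R (j, b)).l, mk (fl j (b == c)), cond c (wt j : ℤ) (-wt j)⟩ := by
      cases c
      · simp [gen_inv]
      · simp [gen]
    rw [ev_cons, ih, e]
    refine K.ext (fun x => ?_) ?_ ?_
    · simp only [mul_l, fl_inv, ρ_fl, gen]
      by_cases h : j = 0
      · subst h
        have : act R 0 x = x := rfl
        simp only [this, lam, List.foldr_cons, beq_self_eq_true, cond_true, List.count_cons,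
          true_and, beq_iff_eq]
        push_cast
        rw [add_comm]
        congr 1
        simp [eq_comm]
      · have h' : (j == 0) = false := by simpa using h
        simp only [h, false_and, if_false, zero_add, lam, List.foldr_cons, h', cond_false]
        congr 1
        conv_rhs => rw [← act_act R j x]
        exact (List.count_map_of_injective _ _
          (Function.Involutive.injective (act_act R j)) _).symm
    · simp [fw]
    · cases c <;> simp [pw, mw] <;> ring

theorem wp (hR : Primrec R) : ∃ f : W → Bool, Primrec f ∧ ∀ w, f w = true ↔ ev (gen R) w = 1 := by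
  have h1 : Primrec fun p : Fin 7 × X => act R p.1 p.2 := by
    unfold act ga al be; fun_prop
  have h2 : Primrec (lam R) := by
    unfold lam
    refine PR.foldr' (by fun_prop) (by fun_prop) (PR.cond' (by fun_prop) (by fun_prop)
      (PR.map' (by fun_prop) ?_))
    exact h1.comp (g := fun p : (W × ((Fin 7 × Bool) × Bool) × List X) × X => (p.1.2.1.1.1, p.2))
      (by fun_prop)
  have h3 : Primrec fw := by unfold fw fl; fun_prop
  have h4 : Primrec pw := by unfold pw wt; fun_prop
  have h5 : Primrec mw := by unfold mw wt; fun_prop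
  have h6 : Primrec fun w => reduce (fw w) := red_prim.comp h3
  refine ⟨fun w => ((lam R w).all fun x => ((lam R w).filter (· == x)).length % 2 == 0) &&
    (reduce (fw w) == [] && pw w == mw w), by fun_prop, fun w => ?_⟩
  rw [ev_form]
  simp only [Bool.and_eq_true, List.all_eq_true, beq_iff_eq, ← List.countP_eq_length_filter]
  constructor
  · rintro ⟨a, b, c⟩
    refine K.ext (fun x => ?_) (toWord_eq_nil_iff.1 b) (by simp [c])
    by_cases hx : x ∈ lam R w
    · exact (ZMod.natCast_eq_zero_iff _ _).2 (Nat.dvd_of_mod_eq_zero (a x hx))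
    · simp [List.count_eq_zero_of_not_mem hx]
  · intro h
    refine ⟨fun x _ => ?_, toWord_eq_nil_iff.2 (congrArg B.q h), ?_⟩
    · exact Nat.mod_eq_zero_of_dvd ((ZMod.natCast_eq_zero_iff _ _).1
        (congrFun (congrArg B.l h) x))
    · have : (pw w : ℤ) - mw w = 0 := congrArg B.n h
      omega

def P : Submonoid (K R) := Submonoid.closure (Set.range (gen R))

theorem gen_mem (y : Fin 7 × Bool) : gen R y ∈ P R := Submonoid.subset_closure ⟨y, rfl⟩

def z : K R := gen R (6, true)

theorem z_comm (g : K R) : Commute (z R) g :=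
  K.ext (fun x => by simp [z, gen, fl, ← one_eq_mk]) (by simp [z, gen, fl, ← one_eq_mk])
    (by simp [add_comm])

theorem inv_gen (y : Fin 7 × Bool) : (gen R y)⁻¹ * z R ^ (2 * wt y.1) = gen R (y.1, !y.2) := by
  have : ∀ m : ℕ, z R ^ m = ⟨0, 1, m⟩ := by
    intro m
    induction m with
    | zero => rfl
    | succ m ih =>
      rw [pow_succ, ih]
      exact K.ext (fun x => by simp [z, gen]) (by simp [z, gen, fl, ← one_eq_mk])
        (by simp [z, gen, wt])
  rw [this, gen_inv]
  exact K.ext (fun x => by simp [gen]) (by simp [gen]) (by simp [gen]; ring)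

theorem ex_pow {g : K R} (hg : g ∈ Subgroup.closure (Set.range (gen R))) :
    ∃ m : ℕ, g * z R ^ m ∈ P R := by
  rw [← Subgroup.mem_toSubmonoid, Subgroup.closure_toSubmonoid] at hg
  induction hg using Submonoid.closure_induction with
  | mem x hx =>
    rcases hx with ⟨y, rfl⟩ | hx
    · exact ⟨0, by simpa using gen_mem R y⟩
    · obtain ⟨y, hy⟩ := Set.mem_inv.1 hx
      exact ⟨_, by rw [← inv_inv x, ← hy, inv_gen]; exact gen_mem R _⟩
  | one => exact ⟨0, by simp⟩
  | mul x y _ _ h1 h2 =>
    obtain ⟨a, ha⟩ := h1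
    obtain ⟨b, hb⟩ := h2
    refine ⟨a + b, ?_⟩
    have := (P R).mul_mem ha hb
    rwa [mul_assoc, ← mul_assoc (z R ^ a), ((z_comm R y).pow_left a).eq, mul_assoc, ← pow_add,
      ← mul_assoc] at this

def dl (x : X) : K R := ⟨fun x' => if x' = x then 1 else 0, 1, 0⟩

theorem conj_dl (y : Fin 7 × Bool) (hy : y.1 ≠ 0) (x : X) :
    gen R y * dl R x * (gen R y)⁻¹ = dl R (act R y.1 x) := by
  rw [mul_inv_eq_iff_eq_mul]
  refine K.ext (fun x' => ?_) (by simp [dl]) (by simp [dl])
  simp only [mul_l, gen, hy, false_and, if_false, zero_add, add_zero, fl_inv, ρ_fl, dl]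
  congr 1
  exact propext ⟨fun h => by rw [← h, act_act], fun h => by rw [h, act_act]⟩

theorem dl0 : dl R (0, 0) = gen R (0, true) := K.ext (fun x => by simp [dl, gen]) rfl rfl

theorem dl_step (j : Fin 7) (h0 : j ≠ 0) (h1 : wt j = 0) {x : X} (h : dl R x ∈ P R) :
    dl R (act R j x) ∈ P R := by
  have := inv_gen R (j, true)
  simp only [h1, mul_zero, pow_zero, mul_one] at this
  rw [← conj_dl R (j, true) h0, this]
  exact (P R).mul_mem ((P R).mul_mem (gen_mem R _) h) (gen_mem R _)

theorem dl_line (a s : ℕ) : dl R (a, s) ∈ P R ↔ dl R (a, 0) ∈ P R := by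
  induction s with
  | zero => rfl
  | succ s ih =>
    rw [← ih]
    rcases Nat.mod_two_eq_zero_or_one s with h | h
    · have e : act R 3 (a, s) = (a, s + 1) := by
        show (a, al s) = _
        simp [al, h]
      exact ⟨fun k => by rw [← act_act R 3 (a, s), e]; exact dl_step R 3 (by decide) rfl k,
        fun k => e ▸ dl_step R 3 (by decide) rfl k⟩
    · have e : act R 4 (a, s) = (a, s + 1) := by
        show (a, be s) = _
        simp [be, h]
      exact ⟨fun k => by rw [← act_act R 4 (a, s), e]; exact dl_step R 4 (by decide) rfl k,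
        fun k => e ▸ dl_step R 4 (by decide) rfl k⟩

def S (x : X) : Prop := x.1 = 0 ∨ ∃ s, R s = true ∧ x.1 = 2 * s.unpair.1 + 2

def Mo : Submonoid (K R) where
  carrier := {g | 0 < g.n ∨ (g.n = 0 ∧ (∀ x, g.l x ≠ 0 → S R x) ∧ ∀ x, S R (ρ R g.q⁻¹ x) ↔ S R x)}
  one_mem' := Or.inr ⟨rfl, fun _ h => absurd rfl h, fun x => by simp⟩
  mul_mem' := by
    rintro a b (ha | ⟨a1, a2, a3⟩) (hb | ⟨b1, b2, b3⟩)
    · exact Or.inl (by rw [mul_n]; omega)
    · exact Or.inl (by rw [mul_n]; omega)
    · exact Or.inl (by rw [mul_n]; omega)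
    · refine Or.inr ⟨by rw [mul_n]; omega, fun x hx => ?_, fun x => ?_⟩
      · by_cases h : a.l x = 0
        · exact (a3 x).1 (b2 _ (by simpa [h] using hx))
        · exact a2 x h
      · rw [mul_q, mul_inv_rev, _root_.map_mul, Equiv.Perm.mul_apply, b3, a3]

theorem S_ga (x : X) (h : S R x) : S R (ga R x) := by
  unfold ga
  cases h1 : R x.2
  · exact h
  · cases x.1 == 0
    · cases x.1 == 2 * x.2.unpair.1 + 2
      · exact h
      · exact Or.inl rfl
    · exact Or.inr ⟨_, h1, rfl⟩

theorem P_le : P R ≤ Mo R := by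
  rw [P, Submonoid.closure_le]
  rintro _ ⟨⟨j, b⟩, rfl⟩
  by_cases h : wt j = 0
  · refine Or.inr ⟨by simp [gen, h], fun x hx => Or.inl ?_, fun x => ?_⟩
    · by_contra h0
      exact hx (if_neg fun e => h0 (by rw [e.2]))
    · simp only [gen, fl_inv, ρ_fl]
      fin_cases j
      · rfl
      · exact absurd h (by decide)
      · exact absurd h (by decide)
      · rfl
      · rfl
      · exact ⟨fun k => ga_ga R x ▸ S_ga R _ k, S_ga R x⟩
      · rfl
  · exact Or.inl (by simp only [gen]; omega)

theorem dl_iff (n : ℕ) : dl R (2 * n + 2, 0) ∈ P R ↔ ∃ k, R (Nat.pair n k) = true := by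
  constructor
  · intro h
    rcases P_le R h with h | ⟨_, h, _⟩
    · exact absurd h (lt_irrefl _)
    · rcases h (2 * n + 2, 0) (by simp [dl]) with h | ⟨s, h1, h2⟩
      · simp at h
      · have : n = s.unpair.1 := by simp only at h2; omega
        exact ⟨s.unpair.2, by rw [this, Nat.pair_unpair]; exact h1⟩
  · rintro ⟨k, hk⟩
    have h1 : dl R (0, Nat.pair n k) ∈ P R := (dl_line R _ _).2 (dl0 R ▸ gen_mem R _)
    have h2 := dl_step R 5 (by decide) rfl h1
    have : act R 5 (0, Nat.pair n k) = (2 * n + 2, Nat.pair n k) := by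
      show ga R _ = _
      simp [ga, hk]
    rw [this] at h2
    exact (dl_line R _ _).1 h2

def uw (n : ℕ) : W := Nat.rec [((0, true), true)] (fun _ u =>
  ((2, true), true) :: ((1, true), true) :: (u ++ [((1, true), false), ((2, true), false)])) n

theorem uw_prim : Primrec uw := by unfold uw; fun_prop

theorem ev_uw (n : ℕ) : ev (gen R) (uw n) = dl R (2 * n, 0) := by
  induction n with
  | zero => simp [uw, ev, dl0]
  | succ n ih =>
    have e : uw (n + 1) = ((2, true), true) :: ((1, true), true) ::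
      (uw n ++ [((1, true), false), ((2, true), false)]) := rfl
    have e1 : act R 2 (act R 1 (2 * n, 0)) = (2 * (n + 1), 0) := by
      show (be (al (2 * n)), 0) = _
      have : (2 * n + 1) % 2 = 1 := by omega
      simp [al, be, this]; omega
    rw [e, ev_cons, ev_cons, ev_append, ih, ← e1, ← conj_dl R (2, true) (by decide),
      ← conj_dl R (1, true) (by decide)]
    simp [ev, mul_assoc]

theorem final : ∃ (G : Type) (_ : Group G) (x : Fin 7 × Bool → G),
    (∀ a ∈ Submonoid.closure (Set.range x), ∀ b ∈ Submonoid.closure (Set.range x),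
      ∃ c ∈ Submonoid.closure (Set.range x), ∃ d ∈ Submonoid.closure (Set.range x),
        a * c = b * d) ∧
    (∀ g : G, ∃ p ∈ Submonoid.closure (Set.range x), ∃ q ∈ Submonoid.closure (Set.range x),
      g = p * q⁻¹) ∧
    (ComputablePred fun w => ev x w = 1) ∧
    ¬ ComputablePred fun w => ev x w ∈ Submonoid.closure (Set.range x) := by
  obtain ⟨A, hA, hA'⟩ := DPRM.exists_re
  obtain ⟨T, hT, _, hT'⟩ := CTools.re_stage hA
  let R : ℕ → Bool := fun s => T s.unpair.2 s.unpair.1
  have hR : Primrec R := hT.comp (g := fun s : ℕ => (s.unpair.2, s.unpair.1)) (by fun_prop)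
  let G := Subgroup.closure (Set.range (gen R))
  let x : Fin 7 × Bool → G := fun y => ⟨gen R y, Subgroup.subset_closure ⟨y, rfl⟩⟩
  have hP : ∀ g : G, g ∈ Submonoid.closure (Set.range x) ↔ g.1 ∈ P R := by
    intro g
    have : P R = (Submonoid.closure (Set.range x)).map G.subtype := by
      rw [MonoidHom.map_mclosure, ← Set.range_comp]; rfl
    rw [this]
    exact ⟨fun h => ⟨g, h, rfl⟩, fun ⟨g', h, e⟩ => (Subtype.ext e : g' = g) ▸ h⟩
  have hev : ∀ w, (ev x w).1 = ev (gen R) w := by
    intro w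
    induction w with
    | nil => rfl
    | cons y w ih =>
      rw [ev_cons, ev_cons, Subgroup.coe_mul, ih]
      cases y.2 <;> rfl
  have hz : ∀ g : G, ∃ m : ℕ, g * x (6, true) ^ m ∈ Submonoid.closure (Set.range x) := by
    intro g
    obtain ⟨m, hm⟩ := ex_pow R g.2
    exact ⟨m, (hP _).2 hm⟩
  have hzz : ∀ m : ℕ, x (6, true) ^ m ∈ Submonoid.closure (Set.range x) := fun m =>
    Submonoid.pow_mem _ (Submonoid.subset_closure (Set.mem_range_self _)) m
  refine ⟨G, inferInstance, x, fun a _ b _ => ?_, fun g => ?_, ?_, ?_⟩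
  · obtain ⟨m, hm⟩ := hz (a⁻¹ * b)
    exact ⟨_, hm, _, hzz m, by group⟩
  · obtain ⟨m, hm⟩ := hz g
    exact ⟨_, hm, _, hzz m, by group⟩
  · obtain ⟨f, f1, f2⟩ := wp R hR
    refine ComputablePred.computable_iff.2 ⟨f, f1.to_comp, funext fun w => propext ?_⟩
    rw [f2, ← hev]
    exact Subtype.ext_iff
  · refine H10.not_comp_of_red hA' (fun n => uw (n + 1))
      (uw_prim.comp Primrec.succ).to_comp fun n => ?_
    rw [hP, hev, ev_uw, Nat.mul_succ, dl_iff, hT']
    simp [R]

end Pool.Agent.H24.RevMem
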