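import Mathlib

set_option autoImplicit false

/-! One-step rewriting: terms, contexts, positive formulas. -/

namespace Pool.Agent.H24.Rw

/-- terms over the signature with constants `K`, one unary symbol `s`, one binary symbol `f`
and symbols `G` whose arguments are indexed by `ι`; variables in `V` -/
inductive Tm (K G ι V : Type) : Type
  | var (v : V) : Tm K G ι V
  | cst (k : K) : Tm K G ι V
  | s (t : Tm K G ι V) : Tm K G ι V
  | f (a b : Tm K G ι V) : Tm K G ι V
  | big (g : G) (ts : ι → Tm K G ι V) : Tm K G ι V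

variable {K G ι V W : Type}

/-- substitution -/
def Tm.subst (σ : V → Tm K G ι W) : Tm K G ι V → Tm K G ι W
  | .var v => σ v
  | .cst k => .cst k
  | .s t => .s (t.subst σ)
  | .f a b => .f (a.subst σ) (b.subst σ)
  | .big g ts => .big g fun i => (ts i).subst σ

/-- the variable `v` occurs in the term -/
def Tm.Occ (v : V) : Tm K G ι V → Prop
  | .var w => w = v
  | .cst _ => False
  | .s t => t.Occ v
  | .f a b => a.Occ v ∨ b.Occ v
  | .big _ ts => ∃ i, (ts i).Occ v

/-- ground terms with one hole (a ground term together with a position) -/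
inductive Ctx (K G ι : Type) : Type
  | hole : Ctx K G ι
  | s (C : Ctx K G ι) : Ctx K G ι
  | fl (C : Ctx K G ι) (b : Tm K G ι Empty) : Ctx K G ι
  | fr (a : Tm K G ι Empty) (C : Ctx K G ι) : Ctx K G ι
  | big (g : G) (ts : ι → Tm K G ι Empty) (i : ι) (C : Ctx K G ι) : Ctx K G ι

/-- filling the hole -/
def Ctx.fill [DecidableEq ι] : Ctx K G ι → Tm K G ι Empty → Tm K G ι Empty
  | .hole, t => t
  | .s C, t => .s (C.fill t)
  | .fl C b, t => .f (C.fill t) b
  | .fr a C, t => .f a (C.fill t)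
  | .big g ts i C, t => .big g (Function.update ts i (C.fill t))

/-- one-step rewriting of ground terms by the rules in `R` -/
def Step [DecidableEq ι] (R : Set (Tm K G ι V × Tm K G ι V)) (a b : Tm K G ι Empty) : Prop :=
  ∃ (C : Ctx K G ι) (ρ : Tm K G ι V × Tm K G ι V) (σ : V → Tm K G ι Empty),
    ρ ∈ R ∧ a = C.fill (ρ.1.subst σ) ∧ b = C.fill (ρ.2.subst σ)

/-- positive formulas in the language with equality and one binary relation -/
inductive PF : Type
  | eq (i j : ℕ) : PF
  | rel (i j : ℕ) : PF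
  | and (φ ψ : PF) : PF
  | or (φ ψ : PF) : PF
  | ex (φ : PF) : PF
  | all (φ : PF) : PF

/-- Gödel number -/
def PF.code : PF → ℕ
  | .eq i j => Nat.pair 0 (Nat.pair i j)
  | .rel i j => Nat.pair 1 (Nat.pair i j)
  | .and φ ψ => Nat.pair 2 (Nat.pair φ.code ψ.code)
  | .or φ ψ => Nat.pair 3 (Nat.pair φ.code ψ.code)
  | .ex φ => Nat.pair 4 φ.code
  | .all φ => Nat.pair 5 φ.code

/-- Tarski semantics (de Bruijn variables) -/
def PF.Sat {M : Type} (r : M → M → Prop) : PF → (ℕ → M) → Prop
  | .eq i j, σ => σ i = σ j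
  | .rel i j, σ => r (σ i) (σ j)
  | .and φ ψ, σ => φ.Sat r σ ∧ ψ.Sat r σ
  | .or φ ψ, σ => φ.Sat r σ ∨ ψ.Sat r σ
  | .ex φ, σ => ∃ m : M, φ.Sat r fun i => Nat.casesOn i m σ
  | .all φ, σ => ∀ m : M, φ.Sat r fun i => Nat.casesOn i m σ

theorem PF.code_inj : ∀ φ ψ : PF, φ.code = ψ.code → φ = ψ := by
  intro φ
  induction φ with
  | eq => intro ψ h; cases ψ <;> simp_all [PF.code, Nat.pair_eq_pair]
  | rel => intro ψ h; cases ψ <;> simp_all [PF.code, Nat.pair_eq_pair]
  | and φ φ' ih ih' =>
    intro ψ h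
    cases ψ <;> simp [PF.code, Nat.pair_eq_pair] at h
    rw [ih _ h.1, ih' _ h.2]
  | or φ φ' ih ih' =>
    intro ψ h
    cases ψ <;> simp [PF.code, Nat.pair_eq_pair] at h
    rw [ih _ h.1, ih' _ h.2]
  | ex φ ih =>
    intro ψ h
    cases ψ <;> simp [PF.code, Nat.pair_eq_pair] at h
    rw [ih _ h]
  | all φ ih =>
    intro ψ h
    cases ψ <;> simp [PF.code, Nat.pair_eq_pair] at h
    rw [ih _ h]

section Def
variable {M : Type} {r : M → M → Prop}

/-- positively definable relations -/
def PD (r : M → M → Prop) (R : (ℕ → M) → Prop) : Prop := ∃ φ : PF, ∀ σ, φ.Sat r σ ↔ R σ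

theorem PD.eq (i j : ℕ) : PD r fun σ => σ i = σ j := ⟨.eq i j, fun _ => Iff.rfl⟩
theorem PD.rel (i j : ℕ) : PD r fun σ => r (σ i) (σ j) := ⟨.rel i j, fun _ => Iff.rfl⟩
theorem PD.and {R S : (ℕ → M) → Prop} (h : PD r R) (k : PD r S) : PD r fun σ => R σ ∧ S σ :=
  let ⟨φ, hφ⟩ := h; let ⟨ψ, hψ⟩ := k; ⟨.and φ ψ, fun σ => and_congr (hφ σ) (hψ σ)⟩
theorem PD.or {R S : (ℕ → M) → Prop} (h : PD r R) (k : PD r S) : PD r fun σ => R σ ∨ S σ :=
  let ⟨φ, hφ⟩ := h; let ⟨ψ, hψ⟩ := k; ⟨.or φ ψ, fun σ => or_congr (hφ σ) (hψ σ)⟩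
theorem PD.ex {R : M → (ℕ → M) → Prop} (h : PD r fun σ => R (σ 0) fun i => σ (i + 1)) :
    PD r fun σ => ∃ m, R m σ :=
  let ⟨φ, hφ⟩ := h; ⟨.ex φ, fun _ => exists_congr fun _ => hφ _⟩

/-- walks of a given length -/
def Walk (r : M → M → Prop) : ℕ → M → M → Prop
  | 0, a, b => a = b
  | n + 1, a, b => ∃ c, r a c ∧ Walk r n c b

theorem PD.walk (n : ℕ) : ∀ i j, PD r fun σ => Walk r n (σ i) (σ j) := by
  induction n with
  | zero => exact PD.eq
  | succ n ih => exact fun i j => PD.ex ((PD.rel (i + 1) 0).and (ih 0 (j + 1)))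

end Def

/-- depth of a term -/
def Tm.Dep : ℕ → Tm K G ι V → Prop
  | 0, _ => False
  | _ + 1, .var _ => True
  | _ + 1, .cst _ => True
  | d + 1, .s t => t.Dep d
  | d + 1, .f a b => a.Dep d ∧ b.Dep d
  | d + 1, .big _ ts => ∀ i, (ts i).Dep d

theorem fin_dep [Finite K] [Finite G] [Finite ι] [Finite V] (d : ℕ) :
    {t : Tm K G ι V | t.Dep d}.Finite := by
  induction d with
  | zero => simp [Tm.Dep]
  | succ d ih =>
    refine (((((Set.finite_range Tm.var).union (Set.finite_range Tm.cst)).union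
      (ih.image Tm.s)).union (ih.image2 Tm.f ih)).union
      (Set.finite_univ.image2 Tm.big (Set.Finite.pi' fun _ => ih))).subset fun t ht => ?_
    cases t <;> simp_all [Tm.Dep]

section Add
variable [DecidableEq ι] [Fintype ι]

/-- additive weight of a ground term -/
def wt {A : Type} [AddCommMonoid A] (w : K → A) : Tm K G ι Empty → A
  | .var v => v.elim
  | .cst k => w k
  | .s t => wt w t
  | .f a b => wt w a + wt w b
  | .big _ ts => ∑ i, wt w (ts i)

theorem wt_fill {A : Type} [AddCommMonoid A] (w : K → A) (C : Ctx K G ι) :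
    ∃ c, ∀ t, wt w (C.fill t) = c + wt w t := by
  induction C with
  | hole => exact ⟨0, by simp [Ctx.fill]⟩
  | s C ih => exact ih
  | fl C b ih => obtain ⟨c, h⟩ := ih; exact ⟨c + wt w b, fun t => by
      simp only [Ctx.fill, wt, h]; abel⟩
  | fr a C ih => obtain ⟨c, h⟩ := ih; exact ⟨wt w a + c, fun t => by
      simp only [Ctx.fill, wt, h]; abel⟩
  | big g ts i C ih =>
    obtain ⟨c, h⟩ := ih
    refine ⟨c + ∑ j ∈ Finset.univ \ {i}, wt w (ts j), fun t => ?_⟩
    simp only [Ctx.fill, wt, Function.apply_update (fun _ => wt w),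
      Finset.sum_update_of_mem (Finset.mem_univ i), h]
    abel

/-- a strictly monotone size -/
def sz (w : K → ℕ) : Tm K G ι Empty → ℕ
  | .var v => v.elim
  | .cst k => w k
  | .s t => sz w t + 3
  | .f a b => sz w a + sz w b + 3
  | .big _ ts => 2 * ∑ i, sz w (ts i) + 100

theorem sz_fill (w : K → ℕ) (C : Ctx K G ι) :
    ∃ c d, 0 < d ∧ ∀ t, sz w (C.fill t) = c + d * sz w t := by
  induction C with
  | hole => exact ⟨0, 1, one_pos, by simp [Ctx.fill]⟩
  | s C ih => obtain ⟨c, d, hd, h⟩ := ih; exact ⟨c + 3, d, hd, fun t => by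
      simp only [Ctx.fill, sz, h]; ring⟩
  | fl C b ih => obtain ⟨c, d, hd, h⟩ := ih; exact ⟨c + sz w b + 3, d, hd, fun t => by
      simp only [Ctx.fill, sz, h]; ring⟩
  | fr a C ih => obtain ⟨c, d, hd, h⟩ := ih; exact ⟨c + sz w a + 3, d, hd, fun t => by
      simp only [Ctx.fill, sz, h]; ring⟩
  | big g ts i C ih =>
    obtain ⟨c, d, hd, h⟩ := ih
    refine ⟨2 * (c + ∑ j ∈ Finset.univ \ {i}, sz w (ts j)) + 100, 2 * d, by omega, fun t => ?_⟩
    simp only [Ctx.fill, sz, Function.apply_update (fun _ => sz w),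
      Finset.sum_update_of_mem (Finset.mem_univ i), h]
    ring

theorem wt_le (w : K → ℕ) (C : Ctx K G ι) (t : Tm K G ι Empty) : wt w t ≤ wt w (C.fill t) := by
  obtain ⟨c, h⟩ := wt_fill w C
  rw [h]; omega

theorem uniq (w : K → ℕ) (Sh : Tm K G ι Empty → Prop) (h1 : ∀ x, Sh x → 0 < wt w x)
    (h2 : ∀ x (D : Ctx K G ι) y, Sh x → Sh y → wt w x ≤ 1 → x = D.fill y → D = .hole)
    {x y : Tm K G ι Empty} (hx : Sh x) (hy : Sh y) :
    ∀ C D : Ctx K G ι, wt w (C.fill x) ≤ 1 → C.fill x = D.fill y →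
      x = y ∧ ∀ z, C.fill z = D.fill z := by
  have a1 := h1 x hx
  have a2 := h1 y hy
  intro C
  induction C with
  | hole =>
    intro D h e
    obtain rfl := h2 x D y hx hy h e
    exact ⟨e, fun _ => rfl⟩
  | s C ih =>
    intro D h e
    cases D with
    | hole => cases h2 y _ x hy hx (by rw [← show _ = y from e]; exact h) e.symm
    | s D => simpa [Ctx.fill] using ih D h (by simpa [Ctx.fill] using e)
    | _ => simp [Ctx.fill] at e
  | fl C b ih =>
    intro D h e
    have := wt_le w C x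
    cases D with
    | hole => cases h2 y _ x hy hx (by rw [← show _ = y from e]; exact h) e.symm
    | fl D b' =>
      simp only [Ctx.fill, wt, Tm.f.injEq] at h e
      simpa [Ctx.fill, e.2] using ih D (by omega) e.1
    | fr a' D =>
      simp only [Ctx.fill, wt, Tm.f.injEq] at h e
      have := wt_le w D y
      rw [e.2] at h
      omega
    | _ => simp [Ctx.fill] at e
  | fr a C ih =>
    intro D h e
    have := wt_le w C x
    cases D with
    | hole => cases h2 y _ x hy hx (by rw [← show _ = y from e]; exact h) e.symm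
    | fr a' D =>
      simp only [Ctx.fill, wt, Tm.f.injEq] at h e
      simpa [Ctx.fill, e.1] using ih D (by omega) e.2
    | fl D b' =>
      simp only [Ctx.fill, wt, Tm.f.injEq] at h e
      have := wt_le w D y
      rw [e.1] at h
      omega
    | _ => simp [Ctx.fill] at e
  | big g ts i C ih =>
    intro D h e
    have := wt_le w C x
    cases D with
    | hole => cases h2 y _ x hy hx (by rw [← show _ = y from e]; exact h) e.symm
    | big g' ts' j D =>
      simp only [Ctx.fill, wt, Tm.big.injEq] at h e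
      obtain ⟨rfl, e⟩ := e
      by_cases hij : i = j
      · subst hij
        have b1 := Finset.single_le_sum (f := fun k => wt w (Function.update ts i (C.fill x) k))
          (fun _ _ => Nat.zero_le _) (Finset.mem_univ i)
        have b2 := congrFun e i
        simp only [Function.update_self] at b1 b2
        obtain ⟨c1, c2⟩ := ih D (by omega) b2
        refine ⟨c1, fun z => ?_⟩
        have := congrArg (fun u => Function.update u i (D.fill z)) e
        simp only [Function.update_idem] at this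
        rw [Ctx.fill, Ctx.fill, c2, this]
      · have b1 := Finset.add_le_sum (f := fun k => wt w (Function.update ts i (C.fill x) k))
          (fun _ _ => Nat.zero_le _) (Finset.mem_univ i) (Finset.mem_univ j) hij
        have b2 := congrFun e j
        have := wt_le w D y
        simp only [Function.update_self] at b1 b2
        rw [b2] at b1
        omega
    | _ => simp [Ctx.fill] at e

/-- composition of contexts -/
def Ctx.comp : Ctx K G ι → Ctx K G ι → Ctx K G ι
  | .hole, D => D
  | .s C, D => .s (C.comp D)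
  | .fl C b, D => .fl (C.comp D) b
  | .fr a C, D => .fr a (C.comp D)
  | .big g ts i C, D => .big g ts i (C.comp D)

omit [Fintype ι] in
theorem Ctx.fill_comp (C D : Ctx K G ι) (t : Tm K G ι Empty) :
    (C.comp D).fill t = C.fill (D.fill t) := by
  induction C <;> simp_all [Ctx.comp, Ctx.fill]

omit [Fintype ι] in
theorem Ctx.fill_inj (C : Ctx K G ι) {a b : Tm K G ι Empty} (h : C.fill a = C.fill b) : a = b := by
  induction C with
  | big g ts i C ih =>
    simp only [Ctx.fill, Tm.big.injEq, true_and] at h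
    exact ih (by simpa using congrFun h i)
  | _ => simp_all [Ctx.fill]

theorem ex_cst (w : K → ℕ) (t : Tm K G ι Empty) (h : wt w t ≠ 0) :
    ∃ (C : Ctx K G ι) (k : K), w k ≠ 0 ∧ t = C.fill (.cst k) := by
  induction t with
  | var v => exact v.elim
  | cst k => exact ⟨.hole, k, h, rfl⟩
  | s t ih => obtain ⟨C, k, h1, rfl⟩ := ih h; exact ⟨.s C, k, h1, rfl⟩
  | f a b ih ih' =>
    by_cases ha : wt w a = 0
    · obtain ⟨C, k, h1, rfl⟩ := ih' (by simpa [wt, ha] using h); exact ⟨.fr a C, k, h1, rfl⟩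
    · obtain ⟨C, k, h1, rfl⟩ := ih ha; exact ⟨.fl C b, k, h1, rfl⟩
  | big g ts ih =>
    obtain ⟨i, -, hi⟩ := Finset.exists_ne_zero_of_sum_ne_zero h
    obtain ⟨C, k, h1, e⟩ := ih i hi
    exact ⟨.big g ts i C, k, h1, by simp [Ctx.fill, ← e]⟩

end Add

end Pool.Agent.H24.Rw
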