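import Pool.Agent.H24.Rw1

set_option autoImplicit false

/-! The rewrite system and its ground description. -/

namespace Pool.Agent.H24.Rw

open Tm

/-- constants: zero and seven classes of cyclically rewritten markers -/
abbrev K : Type := Option (Fin 7 × ZMod 360360)
abbrev Cn : Type := Bool × ℕ × ℕ × ℕ

/-- parameters of the system -/
structure Data (ι : Type) : Type where
  sl : Fin 5 → ι
  vr : ℕ → ι
  pf : Cn → ι
  L : List Cn
  p : ℕ
  o : ℕ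

variable {ι V : Type} (D : Data ι)

abbrev T (ι V : Type) : Type := Tm K (Fin 4) ι V
abbrev z0 : T ι V := .cst none
abbrev mk (k : Fin 7) : T ι V := .cst (some (k, 0))
def dd (k : Fin 7) : ℕ := 360360 / (7 + k)

def gen : Fin 3 ⊕ Fin 4 → T ι (ι ⊕ ι)
  | .inl 0 => z0
  | .inl 1 => s (var (.inr (D.sl 0)))
  | .inl 2 => f (var (.inr (D.sl 0))) (var (.inr (D.sl 1)))
  | .inr g => big g fun i => var (.inr i)

def hd : T ι V → Option (Fin 3 ⊕ Fin 4)
  | .var _ => none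
  | .cst k => if k = none then some (.inl 0) else none
  | .s _ => some (.inl 1)
  | .f _ _ => some (.inl 2)
  | .big g _ => some (.inr g)

def prs0 (X : ι → T ι V) (g : Fin 4) : List (T ι V × T ι V) :=
  if g = 0 then [(X (D.sl 1), z0), (X (D.sl 2), z0), (X (D.sl 3), z0)]
  else if g = 3 then [(X (D.vr D.o), s z0)] else []

def prs (X Y : ι → T ι V) : Bool ⊕ Cn → List (T ι V × T ι V)
  | .inl true => [(X (D.sl 0), Y (D.sl 0)), (X (D.sl 1), s (Y (D.sl 1))),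
      (X (D.sl 2), Y (D.sl 2)), (X (D.sl 3), s (Y (D.sl 3)))]
  | .inl false => [(X (D.sl 0), Y (D.sl 0)), (X (D.sl 0), Y (D.sl 1)), (X (D.sl 1), z0),
      (X (D.sl 2), s (Y (D.sl 2))), (X (D.sl 3), Y (D.sl 3))]
  | .inr (true, a, b, c) => [(X (D.vr a), Y (D.sl 0)), (X (D.vr b), Y (D.sl 1)),
      (s z0, Y (D.sl 2)), (X (D.vr c), Y (D.sl 3))]
  | .inr (false, a, b, c) => [(X (D.vr a), Y (D.sl 0)), (z0, Y (D.sl 1)),
      (X (D.vr b), Y (D.sl 2)), (X (D.vr c), Y (D.sl 3))]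

def gq : Bool ⊕ Cn → Fin 4
  | .inl true => 1
  | .inl false => 2
  | .inr _ => 3

def iq : Bool ⊕ Cn → ι := Sum.elim (fun _ => D.sl 4) D.pf
def act : Bool ⊕ Cn → Prop := Sum.elim (fun _ => True) (· ∈ D.L)

/-- small terms built from the arguments -/
def Sm (X Y : ι → T ι V) (u : T ι V) : Prop :=
  (∃ i, u = X i) ∨ (∃ i, u = Y i) ∨ (∃ i, u = s (Y i)) ∨ u = z0 ∨ u = s z0

theorem prs_sm {X Y : ι → T ι V} {q : Bool ⊕ Cn} {e : T ι V × T ι V} (h : e ∈ prs D X Y q) :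
    Sm X Y e.1 ∧ Sm X Y e.2 := by
  unfold Sm
  rcases q with (_ | _) | ⟨_ | _, a, b, c⟩ <;> simp only [prs, List.mem_cons, List.not_mem_nil,
    or_false] at h <;> rcases h with rfl | rfl | rfl | rfl | rfl <;> grind

theorem prs0_sm {X : ι → T ι V} {g : Fin 4} {e : T ι V × T ι V} (h : e ∈ prs0 D X g) :
    Sm X X e.1 ∧ Sm X X e.2 := by
  unfold Sm
  unfold prs0 at h
  split_ifs at h <;> simp only [List.mem_cons, List.not_mem_nil, or_false] at h <;> grind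

theorem prs_map {W : Type} (σ : V → T ι W) (X Y : ι → T ι V) (q : Bool ⊕ Cn) :
    prs D (fun i => (X i).subst σ) (fun i => (Y i).subst σ) q =
      (prs D X Y q).map (Prod.map (subst σ) (subst σ)) := by
  rcases q with (_ | _) | ⟨_ | _, a, b, c⟩ <;> rfl

theorem prs0_map {W : Type} (σ : V → T ι W) (X : ι → T ι V) (g : Fin 4) :
    prs0 D (fun i => (X i).subst σ) g = (prs0 D X g).map (Prod.map (subst σ) (subst σ)) := by
  unfold prs0
  split_ifs <;> rfl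

variable [DecidableEq ι]

def nx (i : ι) (h : Fin 3 ⊕ Fin 4) : ι → T ι (ι ⊕ ι) :=
  Function.update (fun i => var (.inl i)) i (gen D h)

/-- the rules -/
inductive Rule : T ι (ι ⊕ ι) → T ι (ι ⊕ ι) → Prop
  | c0 (g e) (h : e ∈ prs0 D (fun i => var (.inr i)) g) :
      Rule (gen D (.inr g)) (f (mk 0) (f e.1 e.2))
  | c1 (q g e) (h1 : act D q) (h2 : g ≠ 3)
      (h : e ∈ prs D (nx D (iq D q) (.inr g)) (fun i => var (.inr i)) q) :
      Rule (big (gq q) (nx D (iq D q) (.inr g))) (f (mk 0) (f e.1 e.2))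
  | c2 (q h) (h1 : act D q) (h2 : ∀ g, h = .inr g → g = 3) :
      Rule (big (gq q) (nx D (iq D q) h)) (f (mk 0) (f z0 (s z0)))
  | pl : Rule (f (mk 0) (gen D (.inl 2))) (f (mk 1) (var (.inr (D.sl 0))))
  | pr : Rule (f (mk 0) (gen D (.inl 2))) (f (mk 1) (var (.inr (D.sl 1))))
  | e0 (h) (h1 : h ≠ .inl 1) : Rule (gen D h) (mk 2)
  | e1 : Rule (gen D (.inl 1)) (mk 3)
  | e02 : Rule (mk 2) (mk 4)
  | e12 : Rule (mk 3) (mk 4)
  | sink (h) (h1 : h ≠ .inr 3) : Rule (gen D h) (mk 6)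
  | ra : Rule (gen D (.inr 3)) (f (mk 5) (var (.inr (D.vr D.p))))
  | st : Rule (f (mk 5) (gen D (.inl 1))) (f (mk 1) (var (.inr (D.sl 0))))
  | pa : Rule (mk 1) (mk 5)
  | ze (h) (h1 : h ≠ .inl 1) : Rule (f (mk 5) (gen D h)) (mk 4)
  | cyc (k i) : Rule (cst (some (k, i))) (cst (some (k, i + dd k)))

/-- the checks performed at a node -/
def Chk (g : Fin 4) (ts : ι → T ι Empty) (e : T ι Empty × T ι Empty) : Prop :=
  e ∈ prs0 D ts g ∨ ∃ q, act D q ∧ g = gq q ∧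
    ((∃ g' ts', g' ≠ 3 ∧ ts (iq D q) = big g' ts' ∧ e ∈ prs D ts ts' q) ∨
      ∃ h, hd (ts (iq D q)) = some h ∧ (∀ g, h = .inr g → g = 3) ∧ e = (z0, s z0))

/-- ground instances of the rules -/
inductive GR : T ι Empty → T ι Empty → Prop
  | chk (g ts e) (h : Chk D g ts e) : GR (big g ts) (f (mk 0) (f e.1 e.2))
  | pl (u v) : GR (f (mk 0) (f u v)) (f (mk 1) u)
  | pr (u v) : GR (f (mk 0) (f u v)) (f (mk 1) v)
  | e0 (a h) (h0 : hd a = some h) (h1 : h ≠ .inl 1) : GR a (mk 2)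
  | e1 (a) : GR (s a) (mk 3)
  | e02 : GR (mk 2) (mk 4)
  | e12 : GR (mk 3) (mk 4)
  | sink (a h) (h0 : hd a = some h) (h1 : h ≠ .inr 3) : GR a (mk 6)
  | ra (ts) : GR (big 3 ts) (f (mk 5) (ts (D.vr D.p)))
  | st (a) : GR (f (mk 5) (s a)) (f (mk 1) a)
  | pa : GR (mk 1) (mk 5)
  | ze (a h) (h0 : hd a = some h) (h1 : h ≠ .inl 1) : GR (f (mk 5) a) (mk 4)
  | cyc (k i) : GR (cst (some (k, i))) (cst (some (k, i + dd k)))

omit [DecidableEq ι] in
theorem hd_gen (h : Fin 3 ⊕ Fin 4) (σ : ι ⊕ ι → T ι Empty) :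
    hd ((gen D h).subst σ) = some h := by
  rcases h with h | h
  · fin_cases h <;> rfl
  · rfl

theorem ex_gen (h01 : D.sl 0 ≠ D.sl 1) {a : T ι Empty} {h : Fin 3 ⊕ Fin 4} (e : hd a = some h) :
    ∃ τ : ι → T ι Empty, ∀ ts, (gen D h).subst (Sum.elim ts τ) = a := by
  cases a with
  | var v => exact v.elim
  | cst k =>
    simp only [hd, Option.ite_none_right_eq_some, Option.some.injEq] at e
    obtain ⟨rfl, rfl⟩ := e
    exact ⟨fun _ => z0, fun _ => rfl⟩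
  | s t => cases e; exact ⟨fun _ => t, fun _ => rfl⟩
  | f a b =>
    cases e
    exact ⟨fun i => if i = D.sl 0 then a else b, fun _ => by simp [gen, subst, h01.symm]⟩
  | big g ts => cases e; exact ⟨ts, fun _ => rfl⟩

theorem nx_subst {ts τ : ι → T ι Empty} {i : ι} {h : Fin 3 ⊕ Fin 4}
    (e : (gen D h).subst (Sum.elim ts τ) = ts i) :
    (fun j => (nx D i h j).subst (Sum.elim ts τ)) = ts := by
  funext j
  by_cases hj : j = i
  · simp [nx, hj, e]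
  · simp [nx, hj, subst]

theorem GR_iff (h01 : D.sl 0 ≠ D.sl 1) (a b : T ι Empty) :
    (∃ l r σ, Rule D l r ∧ a = l.subst σ ∧ b = r.subst σ) ↔ GR D a b := by
  constructor
  · rintro ⟨l, r, σ, h, rfl, rfl⟩
    cases h with
    | c0 g e h =>
      exact .chk g _ (e.map (subst σ) (subst σ)) (.inl (by
        rw [prs0_map]; exact List.mem_map_of_mem h))
    | c1 q g e h1 h2 h =>
      exact .chk _ _ (e.map (subst σ) (subst σ)) (.inr ⟨q, h1, rfl, .inl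
        ⟨g, fun i => (var (.inr i) : T ι _).subst σ, h2, by simp [nx, gen, subst], by
          rw [prs_map]; exact List.mem_map_of_mem h⟩⟩)
    | c2 q h h1 h2 =>
      exact .chk _ _ (z0, s z0) (.inr ⟨q, h1, rfl, .inr ⟨h, by simp [nx, hd_gen], h2, rfl⟩⟩)
    | e0 h h1 => exact .e0 _ h (hd_gen D h σ) h1
    | sink h h1 => exact .sink _ h (hd_gen D h σ) h1
    | ze h h1 => exact .ze _ h (hd_gen D h σ) h1
    | pl => exact .pl _ _
    | pr => exact .pr _ _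
    | ra => exact .ra _
    | _ => constructor
  · intro h
    cases h with
    | chk g ts e h =>
      rcases h with h | ⟨q, h1, rfl, ⟨g, τ, h2, h3, h⟩ | ⟨h, h2, h3, rfl⟩⟩
      · have := prs0_map D (Sum.elim ts ts) (fun i => var (.inr i)) g
        obtain ⟨e, he, rfl⟩ := List.mem_map.1 (this ▸ h)
        exact ⟨_, _, Sum.elim ts ts, .c0 g e he, rfl, rfl⟩
      · have e1 := nx_subst D (h := .inr g) (τ := τ) h3.symm
        have := prs_map D (Sum.elim ts τ) (nx D (iq D q) (.inr g)) (fun i => var (.inr i)) q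
        rw [e1] at this
        obtain ⟨e, he, rfl⟩ := List.mem_map.1 (this ▸ h)
        exact ⟨_, _, Sum.elim ts τ, .c1 q g e h1 h2 he, by rw [subst, e1], rfl⟩
      · obtain ⟨τ, hτ⟩ := ex_gen D h01 h2
        exact ⟨_, _, Sum.elim ts τ, .c2 q h h1 h3, by rw [subst, nx_subst D (hτ ts)], rfl⟩
    | pl u v =>
      exact ⟨_, _, fun i => if i = .inr (D.sl 0) then u else v, .pl,
        by simp [gen, subst, h01.symm], by simp [subst]⟩
    | pr u v =>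
      exact ⟨_, _, fun i => if i = .inr (D.sl 0) then u else v, .pr,
        by simp [gen, subst, h01.symm], by simp [subst, h01.symm]⟩
    | e0 a h h0 h1 =>
      obtain ⟨τ, hτ⟩ := ex_gen D h01 h0
      exact ⟨_, _, Sum.elim τ τ, .e0 h h1, (hτ _).symm, rfl⟩
    | e1 a => exact ⟨_, _, fun _ => a, .e1, rfl, rfl⟩
    | e02 => exact ⟨_, _, fun _ => z0, .e02, rfl, rfl⟩
    | e12 => exact ⟨_, _, fun _ => z0, .e12, rfl, rfl⟩
    | sink a h h0 h1 =>
      obtain ⟨τ, hτ⟩ := ex_gen D h01 h0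
      exact ⟨_, _, Sum.elim τ τ, .sink h h1, (hτ _).symm, rfl⟩
    | ra ts => exact ⟨_, _, Sum.elim ts ts, .ra, rfl, rfl⟩
    | st a => exact ⟨_, _, fun _ => a, .st, rfl, rfl⟩
    | pa => exact ⟨_, _, fun _ => z0, .pa, rfl, rfl⟩
    | ze a h h0 h1 =>
      obtain ⟨τ, hτ⟩ := ex_gen D h01 h0
      exact ⟨_, _, Sum.elim τ τ, .ze h h1, by rw [subst, hτ]; rfl, rfl⟩
    | cyc k i => exact ⟨_, _, fun _ => z0, .cyc k i, rfl, rfl⟩

/-- the rewrite system -/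
def RS : Set (T ι (ι ⊕ ι) × T ι (ι ⊕ ι)) := {ρ | Rule D ρ.1 ρ.2}

theorem step_iff (h01 : D.sl 0 ≠ D.sl 1) (a b : T ι Empty) : Step (RS D) a b ↔
    ∃ (C : Ctx K (Fin 4) ι) (x y : T ι Empty), GR D x y ∧ a = C.fill x ∧ b = C.fill y := by
  constructor
  · rintro ⟨C, ρ, σ, h, rfl, rfl⟩
    exact ⟨C, _, _, (GR_iff D h01 _ _).1 ⟨_, _, σ, h, rfl, rfl⟩, rfl, rfl⟩
  · rintro ⟨C, x, y, h, rfl, rfl⟩
    obtain ⟨l, r, σ, h', rfl, rfl⟩ := (GR_iff D h01 _ _).2 h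
    exact ⟨C, (l, r), σ, h', rfl, rfl⟩

omit [DecidableEq ι] in
theorem gen_ne (h : Fin 3 ⊕ Fin 4) (v : ι ⊕ ι) : gen D h ≠ var v := by
  rcases h with h | h
  · fin_cases h <;> simp [gen]
  · simp [gen]

theorem RS_wf : ∀ ρ ∈ RS D, (∀ v, ρ.1 ≠ var v) ∧ ∀ v, ρ.2.Occ v → ρ.1.Occ v := by
  rintro ⟨l, r⟩ h
  cases h with
  | c0 g e h =>
    obtain ⟨h1, h2⟩ := prs0_sm D h
    refine ⟨gen_ne D (.inr g), fun v => ?_⟩
    simp only [Occ, gen, false_or]
    rintro (h | h)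
    · rcases h1 with ⟨i, e⟩ | ⟨i, e⟩ | ⟨i, e⟩ | e | e <;> rw [e] at h <;> simp_all [Occ] <;> grind
    · rcases h2 with ⟨i, e⟩ | ⟨i, e⟩ | ⟨i, e⟩ | e | e <;> rw [e] at h <;> simp_all [Occ] <;> grind
  | c1 q g e _ _ h =>
    obtain ⟨h1, h2⟩ := prs_sm D h
    refine ⟨by simp, fun v => ?_⟩
    have : ∀ u, Sm (nx D (iq D q) (.inr g)) (fun i => var (.inr i)) u → u.Occ v →
        ∃ i, (nx D (iq D q) (.inr g) i).Occ v := by
      rintro u (⟨i, rfl⟩ | ⟨i, rfl⟩ | ⟨i, rfl⟩ | rfl | rfl) h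
      · exact ⟨i, h⟩
      · exact ⟨iq D q, by simpa [nx, gen, Occ] using ⟨i, h⟩⟩
      · exact ⟨iq D q, by simpa [nx, gen, Occ] using ⟨i, h⟩⟩
      · cases h
      · cases h
    simp only [Occ, false_or]
    exact fun h => h.elim (this _ h1) (this _ h2)
  | e0 h => exact ⟨gen_ne D _, by simp [Occ]⟩
  | sink h => exact ⟨gen_ne D _, by simp [Occ]⟩
  | _ => simp [Occ, gen]

omit [DecidableEq ι] in
theorem gen_dep (h : Fin 3 ⊕ Fin 4) (d : ℕ) : (gen D h).Dep (d + 2) := by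
  rcases h with h | h
  · fin_cases h <;> simp [gen, Dep]
  · simp [gen, Dep]

theorem nx_dep (i j : ι) (h : Fin 3 ⊕ Fin 4) (d : ℕ) : (nx D i h j).Dep (d + 2) := by
  by_cases e : j = i <;> simp [nx, e, gen_dep, Dep]

theorem RS_fin [Finite ι] : (RS D).Finite := by
  refine ((fin_dep 4).prod (fin_dep 4)).subset ?_
  rintro ⟨l, r⟩ h
  cases h with
  | c0 g e h =>
    obtain ⟨h1, h2⟩ := prs0_sm D h
    refine ⟨gen_dep D (.inr g) _, trivial, ?_, ?_⟩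
    · rcases h1 with ⟨i, e⟩ | ⟨i, e⟩ | ⟨i, e⟩ | e | e <;> rw [e] <;> trivial
    · rcases h2 with ⟨i, e⟩ | ⟨i, e⟩ | ⟨i, e⟩ | e | e <;> rw [e] <;> trivial
  | c1 q g e _ _ h =>
    obtain ⟨h1, h2⟩ := prs_sm D h
    refine ⟨fun _ => nx_dep D _ _ _ _, trivial, ?_, ?_⟩
    · rcases h1 with ⟨i, e⟩ | ⟨i, e⟩ | ⟨i, e⟩ | e | e <;> rw [e] <;>
        first | trivial | exact nx_dep D _ _ _ _
    · rcases h2 with ⟨i, e⟩ | ⟨i, e⟩ | ⟨i, e⟩ | e | e <;> rw [e] <;>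
        first | trivial | exact nx_dep D _ _ _ _
  | c2 => exact ⟨fun _ => nx_dep D _ _ _ _, by simp [Dep]⟩
  | e0 h => exact ⟨gen_dep D h _, trivial⟩
  | sink h => exact ⟨gen_dep D h _, trivial⟩
  | _ => simp [Dep, gen_dep]

end Pool.Agent.H24.Rw
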