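import Pool.Agent.H24.Rw2

set_option autoImplicit false

/-! Markers are detected by closed walks; creation lemmas. -/

namespace Pool.Agent.H24.Rw

open Tm

variable {ι : Type} [DecidableEq ι] [Fintype ι] (D : Data ι)

abbrev G (ι : Type) : Type := T ι Empty
abbrev X (ι : Type) : Type := Ctx K (Fin 4) ι

/-- ground step -/
def St (a b : G ι) : Prop := ∃ (C : X ι) (x y : G ι), GR D x y ∧ a = C.fill x ∧ b = C.fill y

def ck (k : Fin 7) : K → ℕ
  | none => 0
  | some c => if c.1 = k then 1 else 0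

def pk (k : Fin 7) : K → ZMod 360360
  | none => 0
  | some c => if c.1 = k then c.2 else 0

def wk : K → ℕ
  | none => 3
  | some c => if c.1 = 1 then 2 else if c.1 = 4 then 0 else 1

/-- number of markers of class `k` -/
def cnt (k : Fin 7) (t : G ι) : ℕ := wt (ck k) t

section
omit [DecidableEq ι]
@[simp] theorem cnt_z (k : Fin 7) : cnt k (z0 : G ι) = 0 := rfl
@[simp] theorem cnt_m (k j : Fin 7) (i : ZMod 360360) :
    cnt k (cst (some (j, i)) : G ι) = if j = k then 1 else 0 := rfl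
@[simp] theorem cnt_s (k : Fin 7) (t : G ι) : cnt k (s t) = cnt k t := rfl
@[simp] theorem cnt_f (k : Fin 7) (a b : G ι) : cnt k (f a b) = cnt k a + cnt k b := rfl
@[simp] theorem cnt_big (k : Fin 7) (g : Fin 4) (ts : ι → G ι) :
    cnt k (big g ts) = ∑ i, cnt k (ts i) := rfl
end

theorem cnt_fill (k : Fin 7) (C : X ι) (t : G ι) :
    cnt k (C.fill t) = cnt k (C.fill z0) + cnt k t := by
  obtain ⟨c, h⟩ := wt_fill (ck k) C
  simp [cnt, h, wt, ck]

theorem dd_spec : ∀ j : Fin 7, 360360 = (7 + j.1) * dd j ∧ 0 < dd j := by decide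

theorem le_sum (F : G ι → ℕ) (ts : ι → G ι) (i : ι) : F (ts i) ≤ ∑ j, F (ts j) :=
  Finset.single_le_sum (f := fun j => F (ts j)) (fun _ _ => Nat.zero_le _) (Finset.mem_univ i)

omit [DecidableEq ι] in
theorem chk_sm {g : Fin 4} {ts : ι → G ι} {e : G ι × G ι} (h : Chk D g ts e) (F : G ι → ℕ) (c : ℕ)
    (h1 : ∀ t, F (s t) = F t + c) (h2 : F z0 ≤ c) (h3 : ∀ g ts i, F (ts i) ≤ F (big g ts)) :
    F e.1 ≤ ∑ j, F (ts j) + 2 * c ∧ F e.2 ≤ ∑ j, F (ts j) + 2 * c := by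
  classical
  have : ∀ Y u, Sm ts Y u → (∀ i, F (Y i) ≤ ∑ j, F (ts j)) → F u ≤ ∑ j, F (ts j) + 2 * c := by
    rintro Y u (⟨i, rfl⟩ | ⟨i, rfl⟩ | ⟨i, rfl⟩ | rfl | rfl) hY
    · have := le_sum F ts i; omega
    · have := hY i; omega
    · have := hY i; rw [h1]; omega
    · omega
    · rw [h1]; omega
  rcases h with h | ⟨q, -, rfl, ⟨g, τ, -, e3, h⟩ | ⟨h, -, -, rfl⟩⟩
  · exact ⟨this _ _ (prs0_sm D h).1 (le_sum F ts), this _ _ (prs0_sm D h).2 (le_sum F ts)⟩
  · have hY : ∀ i, F (τ i) ≤ ∑ j, F (ts j) := fun i =>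
      (h3 g τ i).trans (e3 ▸ le_sum F ts _)
    exact ⟨this _ _ (prs_sm D h).1 hY, this _ _ (prs_sm D h).2 hY⟩
  · simp only [h1]; omega

theorem chk_cnt {g : Fin 4} {ts : ι → G ι} {e : G ι × G ι} (h : Chk D g ts e) (k : Fin 7) :
    cnt k e.1 ≤ cnt k (big g ts) ∧ cnt k e.2 ≤ cnt k (big g ts) :=
  chk_sm D h (cnt k) 0 (fun _ => rfl) le_rfl fun _ ts i => le_sum (cnt k) ts i

omit [DecidableEq ι] in
theorem hd_sz {a : G ι} {h : Fin 3 ⊕ Fin 4} (e : hd a = some h) : 3 ≤ sz wk a := by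
  cases a with
  | var v => exact v.elim
  | cst k => cases k <;> simp_all [hd, sz, wk]
  | _ => simp [sz]

theorem GR.sz {a b : G ι} (h : GR D a b) :
    (∃ k i, a = cst (some (k, i)) ∧ b = cst (some (k, i + dd k))) ∨ sz wk b < sz wk a := by
  cases h with
  | cyc k i => exact .inl ⟨k, i, rfl, rfl⟩
  | chk g ts e h =>
    have := chk_sm D h (Rw.sz wk) 3 (fun _ => rfl) le_rfl fun _ ts i => by
      have := le_sum (Rw.sz wk) ts i
      simp only [Rw.sz]; omega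
    right; simp [Rw.sz, wk]; omega
  | e0 a h h0 => have := hd_sz h0; right; simp [Rw.sz, wk]; omega
  | sink a h h0 => have := hd_sz h0; right; simp [Rw.sz, wk]; omega
  | ra ts => have := le_sum (Rw.sz wk) ts (D.vr D.p); right; simp [Rw.sz, wk]; omega
  | _ => right; simp [Rw.sz, wk] <;> omega

theorem walk_inv : ∀ (n : ℕ) (a b : G ι), Walk (St D) n a b → sz wk b ≤ sz wk a ∧
    (sz wk b = sz wk a → ∃ c : Fin 7 → ℕ, ∑ k, c k = n ∧ ∀ k,
      wt (pk k) b = wt (pk k) a + (c k * dd k : ℕ) ∧ (cnt k a = 0 → c k = 0))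
  | 0, a, b, h => by cases h; exact ⟨le_rfl, fun _ => ⟨0, rfl, by simp⟩⟩
  | n + 1, _, b, ⟨_, ⟨C, x, y, h, rfl, rfl⟩, h2⟩ => by
    obtain ⟨a1, a2⟩ := walk_inv n _ _ h2
    obtain ⟨c, d, hd, e⟩ := sz_fill wk C
    rcases h.sz with ⟨k, i, rfl, rfl⟩ | h
    · have e1 : sz wk (C.fill (cst (some (k, i + dd k)))) = sz wk (C.fill (cst (some (k, i)))) := by
        rw [e, e]; rfl
      refine ⟨e1 ▸ a1, fun e2 => ?_⟩
      obtain ⟨c, h1, h2⟩ := a2 (e2.trans e1.symm)
      refine ⟨c + Pi.single k 1, by simp [Finset.sum_add_distrib, h1], fun j => ?_⟩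
      obtain ⟨b1, b2⟩ := h2 j
      obtain ⟨c', e'⟩ := wt_fill (pk j) C
      rw [cnt_fill] at b2 ⊢
      rw [b1, e', e']
      by_cases hj : k = j
      · subst hj
        simp [wt, pk]; ring
      · simpa [wt, pk, hj, Ne.symm hj] using b2
    · have : sz wk (C.fill y) < sz wk (C.fill x) := by rw [e, e]; nlinarith
      omega

/-- a marker of class `k` is present -/
def Has (k : Fin 7) (t : G ι) : Prop := Walk (St D) (7 + k) t t

theorem Has.out {k : Fin 7} {t : G ι} (h : Has D k t) : cnt k t ≠ 0 := fun h0 => by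
  obtain ⟨c, h1, h2⟩ := (walk_inv D _ _ _ h).2 rfl
  have a1 : ∀ j : Fin 7, c j = 0 ∨ c j = 7 + j.1 ∨ 14 ≤ c j := fun j => by
    have := (h2 j).1
    rw [left_eq_add, ZMod.natCast_eq_zero_iff] at this
    obtain ⟨d, hd⟩ : (7 + j.1) ∣ c j :=
      Nat.dvd_of_mul_dvd_mul_right (dd_spec j).2 ((dd_spec j).1 ▸ this)
    rcases d with _ | _ | d
    · simp [hd]
    · simp [hd]
    · right; right; nlinarith
  have a2 := (h2 k).2 h0
  have b0 := a1 0; have b1 := a1 1; have b2 := a1 2; have b3 := a1 3; have b4 := a1 4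
  have b5 := a1 5; have b6 := a1 6
  rw [Fin.sum_univ_seven] at h1
  clear a1 h2
  fin_cases k <;> simp at * <;> omega

theorem has_in (C : X ι) (k : Fin 7) (i : ZMod 360360) : Has D k (C.fill (cst (some (k, i)))) := by
  have : ∀ n i, Walk (St D) n (C.fill (cst (some (k, i))))
      (C.fill (cst (some (k, i + (n * dd k : ℕ))))) := fun n => by
    induction n with
    | zero => simp [Walk]
    | succ n ih =>
      exact fun i => ⟨_, ⟨C, _, _, .cyc k i, rfl, rfl⟩, by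
        convert ih (i + dd k) using 5; push_cast; ring⟩
  simpa [← (dd_spec k).1, Has, show (360360 : ZMod 360360) = 0 from rfl] using this (7 + k) i

/-- a step that produces a term with a marker of class `k` -/
def Cr (k : Fin 7) (a b : G ι) : Prop := St D a b ∧ Has D k b

theorem Cr.out {k : Fin 7} {a b : G ι} (h : Cr D k a b) (h0 : cnt k a = 0) :
    ∃ (C : X ι) (x y : G ι), a = C.fill x ∧ b = C.fill y ∧ GR D x y ∧ cnt k x = 0 ∧
      cnt k y ≠ 0 := by
  obtain ⟨⟨C, x, y, h1, rfl, rfl⟩, h2⟩ := h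
  have := h2.out
  rw [cnt_fill] at this h0
  exact ⟨C, x, y, rfl, rfl, h1, by omega, by omega⟩

theorem Cr.mk {k : Fin 7} {x : G ι} (C E : X ι) (h : GR D x (E.fill (mk k))) :
    Cr D k (C.fill x) (C.fill (E.fill (mk k))) :=
  ⟨⟨C, _, _, h, rfl, rfl⟩, by rw [← Ctx.fill_comp]; exact has_in D _ _ _⟩

/-- not headed by `s` -/
def NS (a : G ι) : Prop := ∃ h, hd a = some h ∧ h ≠ .inl 1

theorem crt {k : Fin 7} {x y : G ι} (h : GR D x y) (h0 : cnt k x = 0) (h1 : cnt k y ≠ 0) :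
    (k = 0 → ∃ g ts e, Chk D g ts e ∧ x = big g ts ∧ y = f (mk 0) (f e.1 e.2)) ∧
    (k = 1 → (∃ u v, x = f (mk 0) (f u v) ∧ (y = f (mk 1) u ∨ y = f (mk 1) v)) ∨
      ∃ z, x = f (mk 5) (s z) ∧ y = f (mk 1) z) ∧
    (k = 2 → NS x ∧ y = mk 2) ∧ (k = 3 → (∃ z, x = s z) ∧ y = mk 3) ∧
    (k = 4 → y = mk 4 ∧ (x = mk 2 ∨ x = mk 3 ∨ ∃ w, NS w ∧ x = f (mk 5) w)) ∧
    (k = 5 → (x = mk 1 ∧ y = mk 5) ∨ ∃ ts, x = big 3 ts ∧ y = f (mk 5) (ts (D.vr D.p))) := by
  cases h with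
  | chk g ts e h =>
    have := chk_cnt D h k
    obtain rfl : k = 0 := by
      by_contra hk
      simp only [cnt_f, cnt_m, Ne.symm hk, if_false] at h1
      omega
    simpa using h
  | ra ts =>
    have := le_sum (cnt k) ts (D.vr D.p)
    obtain rfl : k = 5 := by
      by_contra hk
      simp only [cnt_f, cnt_m, cnt_big, Ne.symm hk, if_false] at h0 h1 this
      omega
    simp
  | cyc j i => simp_all
  | e0 a h h2 h3 =>
    obtain rfl : 2 = k := by simpa using h1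
    simpa using ⟨h, h2, h3⟩
  | ze a h h2 h3 =>
    obtain rfl : 4 = k := by simpa using h1
    simpa using ⟨h, h2, h3⟩
  | sink a h h2 h3 =>
    obtain rfl : 6 = k := by simpa using h1
    simp
  | _ => fin_cases k <;> simp_all <;> grind

theorem uq0 (k : Fin 7) {C E : X ι} (h : cnt k (C.fill (mk k)) ≤ 1)
    (e : C.fill (mk k) = E.fill (mk k)) (z : G ι) : C.fill z = E.fill z :=
  (uniq (ck k) (· = mk k) (by simp [wt, ck]) (fun x D y hx hy _ e => by
    cases D <;> simp_all [Ctx.fill]) rfl rfl C E h e).2 z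

theorem uq1 (k : Fin 7) {C E : X ι} {u v : G ι} (h : cnt k (C.fill (f (mk k) u)) ≤ 1)
    (e : C.fill (f (mk k) u) = E.fill (f (mk k) v)) : u = v ∧ ∀ z, C.fill z = E.fill z := by
  have := uniq (ck k) (fun x => ∃ w, x = f (mk k) w) (by
    rintro _ ⟨w, rfl⟩; simp [wt, ck]) (by
    rintro _ D _ ⟨w, rfl⟩ ⟨w', rfl⟩ h e
    cases D with
    | fl D b => cases D <;> simp [Ctx.fill] at e
    | fr a D =>
      obtain ⟨-, rfl⟩ := f.inj e
      have := wt_le (ck k) D (f (mk k) w')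
      simp [wt, ck] at h this
      omega
    | _ => simp_all [Ctx.fill]) ⟨u, rfl⟩ ⟨v, rfl⟩ C E h e
  exact ⟨(f.inj this.1).2, this.2⟩

end Pool.Agent.H24.Rw
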