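import Pool.Agent.H24.Rw3
import Pool.Agent.H24.H10Sys

set_option autoImplicit false

/-! Soundness and completeness of the positive sentence. -/

namespace Pool.Agent.H24.Rw

open Tm

variable {ι : Type} [DecidableEq ι] [Fintype ι] (D : Data ι)

/-- a check fails somewhere in the term -/
def Mis (x : G ι) : Prop :=
  ∃ y, Cr D 0 x y ∧ ∃ t1, Cr D 1 y t1 ∧ ∃ t2, Cr D 1 y t2 ∧ ∃ s1, Cr D 2 t1 s1 ∧
    ∃ s2, Cr D 3 t2 s2 ∧ ∃ u, Cr D 4 s1 u ∧ Cr D 4 s2 u

/-- the counter differs from `n` -/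
def Neq : ℕ → G ι → Prop
  | 0, y => ∃ y', Cr D 1 y y'
  | n + 1, y => (∃ y', Cr D 4 y y') ∨ ∃ y', ∃ y'', (Cr D 1 y y' ∧ Cr D 5 y' y'') ∧ Neq n y''

/-- the sentence -/
def Phi (n : ℕ) : Prop :=
  ∃ c, ∀ x, (St D x c ∨ (Has D 0 x ∨ Has D 1 x ∨ Has D 2 x ∨ Has D 3 x ∨ Has D 4 x ∨ Has D 5 x ∨
    Has D 6 x) ∨ Mis D x) ∨ ∃ y, Cr D 5 x y ∧ Neq D n y

def Clean (t : G ι) : Prop := ∀ k, cnt k t = 0

/-- terms all of whose checks succeed -/
def Gd : G ι → Prop
  | .var _ => False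
  | .cst k => k = none
  | .s t => Gd t
  | .f _ _ => False
  | .big g ts => (∀ e, Chk D g ts e → e.1 = e.2) ∧ ∀ i, Gd (ts i)

/-- no root symbol -/
def NR : G ι → Prop
  | .var _ => False
  | .cst _ => True
  | .s t => NR t
  | .f a b => NR a ∧ NR b
  | .big g ts => g ≠ 3 ∧ ∀ i, NR (ts i)

omit [DecidableEq ι] in
theorem Gd.clean {t : G ι} (h : Gd D t) : Clean t := fun k => by
  induction t <;> simp_all [Gd]

omit [Fintype ι] in
theorem Gd.sub {C : X ι} {t : G ι} (h : Gd D (C.fill t)) : Gd D t := by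
  induction C with
  | big g ts i C ih => exact ih (by simpa using h.2 i)
  | _ => simp_all [Gd, Ctx.fill]

omit [Fintype ι] in
theorem NR.sub {C : X ι} {t : G ι} (h : NR (C.fill t)) : NR t := by
  induction C with
  | big g ts i C ih => exact ih (by simpa using h.2 i)
  | _ => simp_all [NR, Ctx.fill]

theorem not_mis {x : G ι} (h : Gd D x) : ¬ Mis D x := by
  rintro ⟨y, h0, t1, h1, t2, h2, s1, h3, s2, h4, u, h5, h6⟩
  obtain ⟨C, x, y, rfl, rfl, a1, a2, a3⟩ := h0.out D (h.clean D 0)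
  obtain ⟨g, ts, ⟨v, v'⟩, hc, rfl, rfl⟩ := (crt D a1 a2 a3).1 rfl
  obtain rfl : v = v' := (h.sub D).1 _ hc
  have c1 : ∀ k, cnt k (C.fill z0) = 0 ∧ cnt k v = 0 := fun k => by
    have b1 := h.clean D k
    have b2 := (chk_cnt D hc k).1
    rw [cnt_fill] at b1
    dsimp only at b2
    omega
  have s2' : ∀ t, Cr D 1 (C.fill (f (mk 0) (f v v))) t → t = C.fill (f (mk 1) v) := fun t ht => by
    obtain ⟨E, x, y, e, rfl, a1, a2, a3⟩ := ht.out D (by rw [cnt_fill]; simp [c1])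
    rcases (crt D a1 a2 a3).2.1 rfl with ⟨w, w', rfl, hy⟩ | ⟨z, rfl, rfl⟩
    · obtain ⟨b1, b2⟩ := uq1 0 (by rw [cnt_fill]; simp [c1]) e
      cases b1
      rw [b2]
      rcases hy with rfl | rfl <;> rfl
    · have := congrArg (cnt 5) e
      rw [cnt_fill, cnt_fill _ E] at this
      simp [c1] at this
      omega
  obtain rfl := s2' _ h1
  obtain rfl := s2' _ h2
  have c2 : ∀ k, k ≠ 1 → cnt k (C.fill (f (mk 1) v)) = 0 := fun k hk => by
    rw [cnt_fill]; simp [c1, hk.symm]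
  generalize C.fill (f (mk 1) v) = t at h3 h4 c2
  have s3 : ∀ (j : Fin 7) (E : X ι) α, (j = 2 ∨ j = 3) → t = E.fill α →
      Cr D 4 (E.fill (mk j)) u → u = E.fill (mk 4) ∧ cnt 4 (E.fill (mk 4)) ≤ 1 := by
    rintro j E α hj rfl ht
    have c3 : ∀ k, k ≠ 1 → cnt k (E.fill z0) = 0 := fun k hk => by
      have := c2 k hk
      rw [cnt_fill] at this
      omega
    refine ⟨?_, by rw [cnt_fill]; simp [c3]⟩
    obtain ⟨F, x, y, e, rfl, a1, a2, a3⟩ := ht.out D (by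
      rw [cnt_fill]; rcases hj with rfl | rfl <;> simp [c3])
    obtain ⟨rfl, hx⟩ := (crt D a1 a2 a3).2.2.2.2.1 rfl
    have b2 := congrArg (cnt 2) e
    have b3 := congrArg (cnt 3) e
    have b5 := congrArg (cnt 5) e
    rw [cnt_fill, cnt_fill _ F] at b2 b3 b5
    rcases hj with rfl | rfl <;> rcases hx with rfl | rfl | ⟨w, -, rfl⟩ <;>
      first
      | exact (uq0 _ (by rw [cnt_fill]; simp [c3]) e _).symm
      | (simp [c3] at b2 b3 b5 <;> omega)
  obtain ⟨E, α, _, e1, rfl, a1, a2, a3⟩ := h3.out D (c2 2 (by decide))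
  obtain ⟨⟨hh, b1, b2⟩, rfl⟩ := (crt D a1 a2 a3).2.2.1 rfl
  obtain ⟨E', _, _, e2, rfl, a1, a2, a3⟩ := h4.out D (c2 3 (by decide))
  obtain ⟨⟨z, rfl⟩, rfl⟩ := (crt D a1 a2 a3).2.2.2.1 rfl
  obtain ⟨d1, d2⟩ := s3 2 E _ (.inl rfl) e1 h5
  obtain ⟨d3, -⟩ := s3 3 E' _ (.inr rfl) e2 h6
  rw [e1, uq0 4 d2 (d1.symm.trans d3)] at e2
  rw [E'.fill_inj e2] at b1
  exact b2 (Option.some.inj b1).symm

/-- numerals -/
def num : ℕ → G ι
  | 0 => z0
  | n + 1 => s (num n)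

omit [DecidableEq ι] [Fintype ι] in
theorem num_gd (n : ℕ) : Gd D (num n) ∧ NR (num n : G ι) := by
  induction n <;> simp_all [num, Gd, NR]

theorem stepP {u y : G ι} (hu : Clean u) (h : Cr D 1 (f (mk 5) u) y) :
    ∃ z, u = s z ∧ y = f (mk 1) z := by
  obtain ⟨E, x, y, e, rfl, a1, a2, a3⟩ := h.out D (by simp [hu 1])
  rcases (crt D a1 a2 a3).2.1 rfl with ⟨w, w', rfl, hy⟩ | ⟨z, rfl, rfl⟩
  · have := congrArg (cnt 0) e
    rw [cnt_fill _ E] at this
    simp [hu 0] at this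
    omega
  · obtain ⟨b1, b2⟩ := uq1 5 (C := .hole) (by simp [Ctx.fill, hu 5]) e
    exact ⟨z, b1, (b2 _).symm⟩

theorem not_neq : ∀ n : ℕ, ¬ Neq D n (f (mk 5) (num n))
  | 0 => fun ⟨_, h⟩ => by
    obtain ⟨z, h, -⟩ := stepP D ((num_gd D 0).1.clean D) h
    cases h
  | n + 1 => by
    have hu := (num_gd D (n + 1)).1.clean D
    rintro (⟨y, h⟩ | ⟨y, y', ⟨h1, h2⟩, h3⟩)
    · obtain ⟨E, x, y, e, rfl, a1, a2, a3⟩ := h.out D (by simp [hu 4])
      have b2 := congrArg (cnt 2) e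
      have b3 := congrArg (cnt 3) e
      rw [cnt_fill _ E] at b2 b3
      obtain ⟨rfl, rfl | rfl | ⟨w, ⟨hh, c1, c2⟩, rfl⟩⟩ := (crt D a1 a2 a3).2.2.2.2.1 rfl
      · simp [hu 2] at b2
      · simp [hu 3] at b3
      · obtain ⟨rfl, -⟩ := uq1 5 (C := .hole) (by simp [Ctx.fill, hu 5]) e
        exact c2 (Option.some.inj c1).symm
    · obtain ⟨z, e, rfl⟩ := stepP D hu h1
      cases e
      obtain ⟨E, x, y, e, rfl, a1, a2, a3⟩ := h2.out D (by simpa [num] using hu 5)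
      rcases (crt D a1 a2 a3).2.2.2.2.2 rfl with ⟨rfl, rfl⟩ | ⟨ts, rfl, rfl⟩
      · rw [← uq0 1 (C := .fl .hole (num n)) (by simpa [Ctx.fill, num] using (hu 1).le) e] at h3
        exact not_neq n h3
      · have : NR (E.fill (big 3 ts)) := e ▸ ⟨trivial, (num_gd D n).2⟩
        exact this.sub.1 rfl

omit [DecidableEq ι] [Fintype ι] in
theorem prf (hs : Function.Injective D.sl) (x : ℕ) : ∀ i j : ℕ, ∃ g ts, g ≠ 3 ∧
    ts (D.sl 0) = num x ∧ ts (D.sl 1) = num j ∧ ts (D.sl 2) = num i ∧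
    ts (D.sl 3) = num (i * x + j) ∧ Gd D (big g ts) ∧ NR (big g ts) := by
  have mkn : ∀ (g : Fin 4) (a : Fin 5 → G ι), g ≠ 3 → (∀ j, Gd D (a j) ∧ NR (a j)) →
      (∀ ts, (∀ j, ts (D.sl j) = a j) → ∀ e, Chk D g ts e → e.1 = e.2) →
      ∃ ts, (∀ j, ts (D.sl j) = a j) ∧ Gd D (big g ts) ∧ NR (big g ts) := fun g a hg h1 h2 => by
    have e1 := hs.extend_apply a fun _ => z0
    have e2 : ∀ i, Gd D (Function.extend D.sl a (fun _ => z0) i) ∧
        NR (Function.extend D.sl a (fun _ => z0) i) := fun i => by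
      by_cases h : ∃ j, D.sl j = i
      · obtain ⟨j, rfl⟩ := h
        rw [e1]; exact h1 j
      · rw [Function.extend_apply' _ _ _ h]; exact num_gd D 0
    exact ⟨_, e1, ⟨h2 _ e1, fun i => (e2 i).1⟩, hg, fun i => (e2 i).2⟩
  have step : ∀ i j, (∃ g ts, g ≠ 3 ∧
      ts (D.sl 0) = num x ∧ ts (D.sl 1) = num j ∧ ts (D.sl 2) = num i ∧
      ts (D.sl 3) = num (i * x + j) ∧ Gd D (big g ts) ∧ NR (big g ts)) → ∀ (b : Bool) i' j',
      (if b then i' = i ∧ j' = j + 1 else j = x ∧ i' = i + 1 ∧ j' = 0) → ∃ g ts, g ≠ 3 ∧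
      ts (D.sl 0) = num x ∧ ts (D.sl 1) = num j' ∧ ts (D.sl 2) = num i' ∧
      ts (D.sl 3) = num (i' * x + j') ∧ Gd D (big g ts) ∧ NR (big g ts) := by
    rintro i j ⟨g, τ, h0, h1, h2, h3, h4, h5⟩ b i' j' hb
    obtain ⟨ts, e, h⟩ := mkn (gq (.inl b)) ![num x, num j', num i', num (i' * x + j'), big g τ]
      (by cases b <;> decide) (fun j => by fin_cases j <;> first | exact num_gd D _ | exact h5) (by
        rintro ts hts e (h | ⟨q, -, hq, ⟨g', τ', -, h6, h⟩ | ⟨h, h6, h7, -⟩⟩)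
        · cases b <;> simp [prs0, gq] at h
        · obtain rfl : q = .inl b := by
            rcases q with (_ | _) | q <;> cases b <;> simp_all [gq]
          obtain ⟨rfl, rfl⟩ := big.inj ((hts 4).symm.trans h6)
          cases b
          · obtain ⟨rfl, rfl, rfl⟩ := hb
            simp only [prs, List.mem_cons, List.not_mem_nil, or_false] at h
            rcases h with rfl | rfl | rfl | rfl | rfl <;> simp [*, num, add_mul]
          · obtain ⟨rfl, rfl⟩ := hb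
            simp only [prs, List.mem_cons, List.not_mem_nil, or_false] at h
            rcases h with rfl | rfl | rfl | rfl <;> simp [*, num, ← add_assoc]
        · obtain rfl : q = .inl b := by
            rcases q with (_ | _) | q <;> cases b <;> simp_all [gq]
          rw [show ts (iq D (.inl b)) = big g τ from hts 4] at h6
          exact absurd (h7 g (Option.some.inj h6).symm) h0)
    exact ⟨_, ts, by cases b <;> decide, e 0, e 1, e 2, e 3, h⟩
  have col : ∀ i, _ → ∀ j : ℕ, ∃ g ts, g ≠ 3 ∧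
      ts (D.sl 0) = num x ∧ ts (D.sl 1) = num j ∧ ts (D.sl 2) = num i ∧
      ts (D.sl 3) = num (i * x + j) ∧ Gd D (big g ts) ∧ NR (big g ts) := fun i h j =>
    Nat.rec h (fun j ih => step i j ih true i (j + 1) (by simp)) j
  intro i
  induction i with
  | zero =>
    refine col 0 ?_
    obtain ⟨ts, e, h⟩ := mkn 0 ![num x, z0, z0, z0, z0] (by decide)
      (fun j => by fin_cases j <;> first | exact num_gd D _ | exact num_gd D 0) (by
        rintro ts hts e (h | ⟨q, -, hq, -⟩)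
        · simp only [prs0, if_true, List.mem_cons, List.not_mem_nil, or_false] at h
          rcases h with rfl | rfl | rfl <;> simp [hts]
        · rcases q with (_ | _) | q <;> simp [gq] at hq)
    exact ⟨0, ts, by decide, e 0, e 1, e 2, by simpa [num] using e 3, h⟩
  | succ i ih => exact col _ (step i x (ih x) false _ _ (by simp))

theorem sound {n : ℕ} {ts : ι → G ι} (h : Gd D (big 3 ts)) (h' : ∀ i, NR (ts i))
    (hp : ts (D.vr D.p) = num n) : ¬ Phi D n := by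
  rintro ⟨c, hc⟩
  have key : ∀ x, Gd D x → (∀ (C : X ι) τ, x = C.fill (big 3 τ) → C = .hole ∧ τ = ts) →
      St D x c := fun x hx h2 => by
    have h1 : ∀ k, ¬ Has D k x := fun k hk => hk.out D (hx.clean D k)
    rcases hc x with (h | h | h) | ⟨y, h, h3⟩
    · exact h
    · simp [h1] at h
    · exact absurd h (not_mis D hx)
    · obtain ⟨E, x, y, rfl, rfl, a1, a2, a3⟩ := h.out D (hx.clean D 5)
      rcases (crt D a1 a2 a3).2.2.2.2.2 rfl with ⟨rfl, rfl⟩ | ⟨τ, rfl, rfl⟩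
      · cases hx.sub D
      · obtain ⟨rfl, rfl⟩ := h2 _ _ rfl
        exact absurd (hp ▸ h3) (not_neq D n)
  have k1 : ∀ n, St D (num n) c := fun n => key _ (num_gd D n).1 fun C τ e =>
    absurd rfl (NR.sub (C := C) (t := big 3 τ) (e ▸ (num_gd D n).2)).1
  have k2 := key _ h fun C τ e => by
    cases C with
    | hole => exact ⟨rfl, (big.inj e).2.symm⟩
    | big g τ' i C =>
      have := h' i
      rw [(big.inj e).2, Function.update_self] at this
      exact absurd rfl this.sub.1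
    | _ => cases e
  obtain ⟨C, x, y, a1, a2, rfl⟩ := k1 0
  obtain rfl : C = .hole := by cases C <;> simp_all [Ctx.fill, num]
  obtain ⟨C, x', y', b1, b2, b3⟩ := k1 1
  obtain ⟨E, x'', y'', c1, c2, c3⟩ := k2
  simp only [Ctx.fill, num] at a2 b2 b3 c3
  subst a2
  cases a1 <;> cases C <;> cases E <;> simp only [Ctx.fill, reduceCtorEq] at b2 b3 c2 c3 <;>
    subst_vars <;> cases b1 <;> cases c1 <;> simp_all [hd]

/-- value of a term -/
def val : G ι → ℕ
  | .s t => val t + 1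
  | _ => 0

omit [DecidableEq ι] in
theorem Clean.hd {u : G ι} (h : Clean u) : ∃ k, hd u = some k := by
  cases u with
  | var v => exact v.elim
  | cst k =>
    rcases k with _ | ⟨k, i⟩
    · exact ⟨_, rfl⟩
    · simpa using h k
  | _ => exact ⟨_, rfl⟩

omit [DecidableEq ι] in
theorem Clean.cases {u : G ι} (h : Clean u) :
    (NS u ∧ val u = 0) ∨ ∃ z, u = s z ∧ Clean z := by
  obtain ⟨k, hk⟩ := h.hd
  cases u with
  | s z => exact .inr ⟨z, rfl, h⟩
  | cst c =>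
    refine .inl ⟨⟨k, hk, ?_⟩, rfl⟩
    rintro rfl
    simp [Rw.hd] at hk
  | var v => exact v.elim
  | _ => exact .inl ⟨⟨_, rfl, by simp⟩, rfl⟩

theorem mism : ∀ (n : ℕ) (u v : G ι), Clean u → Clean v → val u = n → n < val v →
    ∃ (E : X ι) (α z : G ι), NS α ∧ u = E.fill α ∧ v = E.fill (s z) := by
  intro n
  induction n with
  | zero =>
    intro u v hu hv e1 e2
    rcases hu.cases with ⟨h, -⟩ | ⟨z, rfl, -⟩
    · rcases hv.cases with ⟨-, h'⟩ | ⟨z, rfl, -⟩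
      · omega
      · exact ⟨.hole, u, z, h, rfl, rfl⟩
    · simp [val] at e1
  | succ n ih =>
    intro u v hu hv e1 e2
    rcases hu.cases with ⟨-, h⟩ | ⟨z, rfl, hz⟩
    · omega
    rcases hv.cases with ⟨-, h'⟩ | ⟨w, rfl, hw⟩
    · omega
    obtain ⟨E, α, y, h, rfl, rfl⟩ := ih z w hz hw (by simpa [val] using e1) (by simpa [val] using e2)
    exact ⟨.s E, α, y, h, rfl, rfl⟩

theorem val_eq {C : X ι} {g : Fin 4} {ts : ι → G ι} (h1 : Clean (big g ts))
    (h2 : ¬ Mis D (C.fill (big g ts))) {e : G ι × G ι} (h : Chk D g ts e) : val e.1 = val e.2 := by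
  have hu : Clean e.1 := fun k => Nat.le_zero.1 (h1 k ▸ (chk_cnt D h k).1)
  have hv : Clean e.2 := fun k => Nat.le_zero.1 (h1 k ▸ (chk_cnt D h k).2)
  have : ∀ u v, Clean u → Clean v → GR D (f (mk 0) (f e.1 e.2)) (f (mk 1) u) →
      GR D (f (mk 0) (f e.1 e.2)) (f (mk 1) v) → ¬ val u < val v := fun u v hu hv a b hl => by
    obtain ⟨E, α, z, ⟨k, k1, k2⟩, rfl, rfl⟩ := mism _ u v hu hv rfl hl
    have e1 : ∀ t, C.fill (f (mk 1) (E.fill t)) = (C.comp (.fr (mk 1) E)).fill t := fun t => by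
      rw [Ctx.fill_comp]; rfl
    have c1 := Cr.mk D (C.comp (.fr (mk 1) E)) .hole (.e0 α k k1 k2)
    have c2 := Cr.mk D (C.comp (.fr (mk 1) E)) .hole (.e1 z)
    rw [← e1] at c1 c2
    exact h2 ⟨_, Cr.mk D C (.fl .hole _) (.chk g ts e h), _, Cr.mk D C (.fl .hole _) a, _,
      Cr.mk D C (.fl .hole _) b, _, c1, _, c2, _, Cr.mk D _ .hole .e02, Cr.mk D _ .hole .e12⟩
  have a := this _ _ hu hv (.pl _ _) (.pr _ _)
  have b := this _ _ hv hu (.pr _ _) (.pl _ _)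
  omega

theorem Clean.arg {g : Fin 4} {ts : ι → G ι} (h : Clean (big g ts)) (i : ι) : Clean (ts i) :=
  fun k => Nat.le_zero.1 (h k ▸ le_sum (cnt k) ts i)

theorem child {C : X ι} {q : Bool ⊕ Cn} {ts : ι → G ι} (h1 : Clean (big (gq q) ts))
    (h2 : ¬ Mis D (C.fill (big (gq q) ts))) (hq : act D q) :
    ∃ g τ, g ≠ 3 ∧ ts (iq D q) = big g τ ∧ ∀ e ∈ prs D ts τ q, val e.1 = val e.2 := by
  obtain ⟨k, hk⟩ := (h1.arg (iq D q)).hd
  by_cases h : ∀ g, k = .inr g → g = 3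
  · simpa [val] using val_eq D h1 h2 (.inr ⟨q, hq, rfl, .inr ⟨k, hk, h, rfl⟩⟩)
  · push Not at h
    obtain ⟨g, rfl, hg⟩ := h
    obtain ⟨τ, e⟩ : ∃ τ, ts (iq D q) = big g τ := by
      generalize ts (iq D q) = a at hk
      cases a <;> simp_all [hd]
    exact ⟨g, τ, hg, e, fun e' he => val_eq D h1 h2 (.inr ⟨q, hq, rfl, .inl ⟨g, τ, hg, e, he⟩⟩)⟩

theorem inv (t : G ι) : ∀ (C : X ι) g ts, t = big g ts → g ≠ 3 → Clean t → ¬ Mis D (C.fill t) →
    val (ts (D.sl 3)) = val (ts (D.sl 2)) * val (ts (D.sl 0)) + val (ts (D.sl 1)) := by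
  induction t with
  | big g ts ih =>
    rintro C _ _ ⟨⟩ hg h1 h2
    by_cases h0 : g = 0
    · subst h0
      have := fun e he => val_eq D (e := e) h1 h2 (.inl he)
      simp [prs0, val] at this
      simp [this]
    · obtain ⟨b, rfl⟩ : ∃ b, g = gq (.inl b) := by
        clear h1 h2; revert g; simp [gq]; decide
      obtain ⟨g, τ, a1, a2, a3⟩ := child D h1 h2 trivial
      have := ih _ (C.comp (.big _ ts (iq D (.inl b)) .hole)) g τ a2 a1 (h1.arg _) (by
        simpa [Ctx.fill_comp, Ctx.fill] using h2)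
      cases b <;> simp [prs, val] at a3 <;> simp only [a3, this] <;> grind
  | _ => intro _ _ _ h; cases h

theorem neq_of : ∀ (n : ℕ) (u : G ι), Clean u → val u ≠ n → Neq D n (f (mk 5) u)
  | 0, u, hu, h => by
    obtain ⟨-, h'⟩ | ⟨z, rfl, -⟩ := hu.cases
    · omega
    · exact ⟨_, Cr.mk D .hole (.fl .hole _) (.st z)⟩
  | n + 1, u, hu, h => by
    obtain ⟨⟨k, k1, k2⟩, -⟩ | ⟨z, rfl, hz⟩ := hu.cases
    · exact .inl ⟨_, Cr.mk D .hole .hole (.ze u k k1 k2)⟩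
    · exact .inr ⟨_, _, ⟨Cr.mk D .hole (.fl .hole _) (.st z),
        Cr.mk D (.fl .hole z) .hole .pa⟩, neq_of n z hz (by simpa [val] using h)⟩

theorem complete {n : ℕ}
    (h : ¬ ∃ v : ℕ → ℕ, v D.p = n ∧ v D.o = 1 ∧ ∀ c ∈ D.L, H10.Con v c) : Phi D n := by
  refine ⟨mk 6, fun x => ?_⟩
  by_cases h1 : Clean x
  swap
  · obtain ⟨k, hk⟩ := not_forall.1 h1
    obtain ⟨C, c, hc, rfl⟩ := ex_cst _ _ hk
    rcases c with _ | ⟨j, i⟩
    · simp [ck] at hc
    · have := has_in D C j i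
      refine .inl (.inr (.inl ?_))
      fin_cases j <;> simp_all
  obtain ⟨k, hk⟩ := h1.hd
  by_cases h2 : k = .inr 3
  swap
  · exact .inl (.inl ⟨.hole, _, _, .sink x k hk h2, rfl, rfl⟩)
  obtain ⟨ts, rfl⟩ : ∃ ts, x = big 3 ts := by cases x <;> simp_all [hd]
  by_cases h3 : Mis D (big 3 ts)
  · exact .inl (.inr (.inr h3))
  refine .inr ⟨_, Cr.mk D .hole (.fl .hole _) (.ra ts), neq_of D n _ (h1.arg _) fun e =>
    h ⟨fun i => val (ts (D.vr i)), e, ?_, fun c hc => ?_⟩⟩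
  · exact val_eq D (C := .hole) (e := (_, s z0)) h1 h3 (.inl (by simp [prs0]))
  · obtain ⟨g, τ, a1, a2, a3⟩ := child D (C := .hole) (q := .inr c) h1 h3 hc
    have := inv D _ (.big 3 ts (iq D (.inr c)) .hole) g τ a2 a1 (h1.arg _) (by
      simpa [Ctx.fill] using h3)
    rcases c with ⟨_ | _, a, b, c⟩ <;> simp [prs, val] at a3 <;> simp [H10.Con, a3, this] <;> grind

end Pool.Agent.H24.Rw
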