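import Pool.Agent.H24.ScfaDefs
import Pool.Agent.H24.Idx1
import Pool.Agent.H24.Srs
import Pool.Agent.H16.QueueM

namespace Pool.Agent.H24.Scfa
open Relation Sum Pool.Agent.H23 Pool.Agent.H16.QueueM Pool.Agent.H23.RE

variable {T T' Y : Type}

theorem scfa_erase {𝓛} {L : Language T} (h : SCFA 𝓛 L) (g : T → Option T') :
    SCFA 𝓛 ({y | ∃ w ∈ L, w.filterMap g = y} : Language T') := by
  obtain ⟨M, C, hC, rfl⟩ := h
  let M' : FA T' := ⟨M.Q, M.finQ, {r | ∃ a, (r.1, a, r.2.2) ∈ M.R ∧ a.bind g = r.2.1}, M.s, M.F⟩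
  have e : ∀ a : Option T, a.toList.filterMap g = (a.bind g).toList := by
    rintro (_ | a)
    · rfl
    · cases e : g a <;> simp [e]
  have h1 : ∀ p y α f, M'.Rec p y α f → ∃ w, M.Rec p w α f ∧ w.filterMap g = y := by
    intro p y α f h
    induction h with
    | nil q => exact ⟨[], .nil _, rfl⟩
    | step p a q x α f h _ ih =>
      obtain ⟨b, h, rfl⟩ := h
      obtain ⟨w, k, rfl⟩ := ih
      exact ⟨_, FA.Rec.step (M := M) p b q w α f h k, by rw [List.filterMap_append, e]⟩
  have h2 : ∀ p w α f, M.Rec p w α f → M'.Rec p (w.filterMap g) α f := by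
    intro p w α f h
    induction h with
    | nil q => exact .nil _
    | step p a q x α f h _ ih =>
      rw [List.filterMap_append, e]
      exact FA.Rec.step (M := M') p _ q _ α f ⟨a, h, rfl⟩ ih
  refine ⟨M', C, hC, Set.ext fun y => ⟨?_, ?_⟩⟩
  · rintro ⟨f, a, α, b, c⟩
    obtain ⟨w, k, rfl⟩ := h1 _ _ _ _ c
    exact ⟨w, ⟨f, a, α, b, k⟩, rfl⟩
  · rintro ⟨w, ⟨f, a, α, b, c⟩, rfl⟩
    exact ⟨f, a, α, b, h2 _ _ _ _ c⟩

theorem dec_gen {V : Type} [Primcodable V] [BEq V] [LawfulBEq V] [Finite V]
    (Rl : List (List V × List V)) (hm : ∀ r ∈ Rl, r.1.length ≤ r.2.length) (s : List V)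
    (W : ℕ → List V) (hW : Primrec W) (hs : ∀ n, s.length ≤ (W n).length) :
    ComputablePred fun n => ReflTransGen (Srs.St {r | r ∈ Rl}) s (W n) := by
  obtain ⟨sc, hsc, h1⟩ : ∃ sc : List V → List (List V), Primrec sc ∧
      ∀ x y, y ∈ sc x ↔ Srs.St {r | r ∈ Rl} x y := by
    refine ⟨fun x => Rl.flatMap fun r => (List.range (x.length + 1)).flatMap fun i =>
      bif x.take i ++ r.1 ++ x.drop (i + r.1.length) == x
      then [x.take i ++ r.2 ++ x.drop (i + r.1.length)] else [], by fun_prop, fun x y => ?_⟩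
    simp only [List.mem_flatMap, List.mem_range]
    refine exists_congr fun r => and_congr_right fun _ => ⟨?_, ?_⟩
    · rintro ⟨i, -, h⟩
      cases e : (x.take i ++ r.1 ++ x.drop (i + r.1.length) == x) <;> simp only [e] at h
      · simp at h
      · exact ⟨_, _, (eq_of_beq e).symm, by simpa using h⟩
    · rintro ⟨a, b, rfl, rfl⟩
      refine ⟨a.length, by simp, ?_⟩
      rw [List.drop_left' (by simp), List.append_assoc a r.1, List.take_left]
      simp
  have any : ∀ (Z : List (List V)) y, (Z.any (· == y)) = true ↔ y ∈ Z := by simp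
  refine ComputablePred.computable_iff_re_compl_re'.2 ⟨?_, ?_⟩
  · refine (re_comp' (Idx.re_rtg (α := Unit) (r := fun _ x y => ((sc x).any (· == y)) = true)
      (re_prim (by fun_prop))) (fun n => ((), s, W n)) (by fun_prop)).of_eq fun n => ?_
    simp only [any, h1]
  · refine (re_ex (p := fun n (Z : List (List V)) => (Z.any (· == s) &&
      !Z.any (· == W n) && Z.all fun x => (sc x).all fun y =>
        !Nat.ble y.length (W n).length || Z.any (· == y)) = true)
      (re_prim (by fun_prop))).of_eq fun n => ?_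
    simp only [any, Bool.and_eq_true, Bool.not_eq_true', List.all_eq_true, h1, Bool.or_eq_true,
      ← Bool.not_eq_true, Nat.ble_eq]
    have len : ∀ x y, Srs.St {r | r ∈ Rl} x y → x.length ≤ y.length := by
      rintro _ _ ⟨r, a, u, v, rfl, rfl⟩
      simpa using hm r a
    constructor
    · rintro ⟨Z, ⟨a, b⟩, c⟩ h
      suffices ∀ y, ReflTransGen (Srs.St {r | r ∈ Rl}) s y → y.length ≤ (W n).length → y ∈ Z from
        b (this _ h le_rfl)
      intro y h
      induction h with
      | refl => exact fun _ => a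
      | tail _ k ih => exact fun l => (c _ (ih ((len _ _ k).trans l)) _ k).resolve_left (not_not.2 l)
    · intro h
      have fin := (List.finite_length_le V (W n).length).subset
        (t := {y | ReflTransGen (Srs.St {r | r ∈ Rl}) s y ∧ y.length ≤ (W n).length}) fun _ h => h.2
      refine ⟨fin.toFinset.toList, ?_⟩
      simp only [Finset.mem_toList, Set.Finite.mem_toFinset, Set.mem_ofPred_eq]
      refine ⟨⟨⟨.refl, hs n⟩, fun k => h k.1⟩, fun x hx y k => ?_⟩
      by_cases e : y.length ≤ (W n).length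
      exacts [.inr ⟨hx.1.tail k, e⟩, .inl e]

theorem mg_dec [Finite T] (G : MG T) (u v : List T) (c : T) (hu : u ++ v ≠ []) :
    ComputablePred fun n => u ++ List.replicate n c ++ v ∈ G.lang := by
  have := G.finN
  have := Fintype.ofFinite (G.N ⊕ T)
  let : Primcodable (G.N ⊕ T) := .ofEquiv _ (Fintype.equivFin _)
  obtain ⟨Rl, hR⟩ : ∃ Rl : List _, {r | r ∈ Rl} = G.P := ⟨G.finP.toFinset.toList, by simp⟩
  generalize ha : u.map (inr : T → G.N ⊕ T) = a
  generalize hb : v.map (inr : T → G.N ⊕ T) = b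
  generalize hc : (inr c : G.N ⊕ T) = d
  refine (@dec_gen _ _ (@instBEqOfDecidableEq _ (Classical.decEq _)) _ _ Rl
    (fun r h => (G.mono r (hR ▸ h)).2) [inl G.S] (fun n => a ++ (List.range n).map (fun _ => d) ++ b)
    (by fun_prop) fun n => ?_).of_eq fun n => ?_
  · have := List.length_pos_iff.2 hu
    simp [← ha, ← hb] at this ⊢
    omega
  · rw [hR, ← ha, ← hb, ← hc]
    change _ ↔ ReflTransGen G.Step _ _
    simp
    rfl

inductive NT (Y P : Type)
  | s | l | r | x (y : Y) | c (p : P)

instance {P : Type} [Finite Y] [Finite P] : Finite (NT Y P) :=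
  Finite.of_surjective (fun o : Fin 3 ⊕ Y ⊕ P => o.elim ![NT.s, .l, .r] (Sum.elim .x .c)) fun
    | .s => ⟨inl 0, rfl⟩ | .l => ⟨inl 1, rfl⟩ | .r => ⟨inl 2, rfl⟩
    | .x y => ⟨inr (inl y), rfl⟩ | .c p => ⟨inr (inr p), rfl⟩

variable (S : Set (List Y × List Y)) (f : List Y)

abbrev V := NT Y S ⊕ Y ⊕ Fin 3

def pr (w : List Y) : List (V S) := w.map fun y => inl (.x y)

inductive GP : List (V S) × List (V S) → Prop
  | st : GP ([inl .s], inl .l :: pr S f ++ [inl .r])
  | lf (p : S) : GP ([inl .l, inl (.c p)], inl .l :: pr S p.1.1)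
  | sw (y p) : GP ([inl (.x y), inl (.c p)], [inl (.c p), inl (.x y)])
  | rt (p : S) : GP (pr S p.1.2 ++ [inl .r],
      inl (.c p) :: inl .r :: List.replicate p.1.2.length (inr (inr 2)))
  | tx (y) : GP ([inl (.x y)], [inr (inl y)])
  | tl : GP ([inl .l], [inr (inr 0)])
  | tr : GP ([inl .r], [inr (inr 1)])

@[reducible] def G0 [Finite Y] (hS : S.Finite) (h1 : ∀ p ∈ S, p.1 ≠ []) : MG (Y ⊕ Fin 3) where
  N := NT Y S
  finN := by have := hS.to_subtype; infer_instance
  S := .s
  P := {r | GP S f r}
  finP := by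
    have := hS.to_subtype
    obtain ⟨N, hN⟩ := (hS.image fun p => p.1.length + p.2.length).bddAbove
    refine ((List.finite_length_le _ (N + f.length + 2)).prod
      (List.finite_length_le _ (N + f.length + 2))).subset fun r h => ?_
    cases h with
    | lf p => have : _ ≤ N := hN ⟨_, p.2, rfl⟩; simp [pr] at this ⊢; omega
    | rt p => have : _ ≤ N := hN ⟨_, p.2, rfl⟩; simp [pr] at this ⊢; omega
    | _ => simp [pr]
  mono r h := by
    cases h with
    | lf p => have := List.length_pos_iff.2 (h1 _ p.2); simp [pr]; omega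
    | rt p => exact ⟨⟨.r, by simp⟩, by simp [pr]⟩
    | _ => simp

def rank : V S → ℕ
  | inl .s => 4
  | inl .l => 0
  | inl .r => 2
  | inl _ => 1
  | inr (inl _) => 1
  | inr (inr i) => if i = 0 then 0 else i + 1

def ρ (a b : V S) : Prop := rank S b < 4 ∧
  (rank S a < rank S b ∨ (rank S a = rank S b ∧ rank S a % 2 = 1))

def lt : V S → List Y
  | inl .s => f
  | inl (.x y) => [y]
  | inr (inl y) => [y]
  | _ => []

def cr : V S → List Y
  | inl (.c p) => p.1.2
  | _ => []

def val (w : List (V S)) : List Y := w.flatMap (lt S f) ++ w.reverse.flatMap (cr S)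

theorem pr_lt (w : List Y) : (pr S w).flatMap (lt S f) = w := by
  simp [pr, List.flatMap_map, lt]

theorem pr_cr (w : List Y) : (pr S w).reverse.flatMap (cr S) = [] := by
  simp [pr, cr]

theorem pr_rank {w : List Y} {a} (h : a ∈ pr S w) : rank S a = 1 := by
  obtain ⟨y, -, rfl⟩ := List.mem_map.1 h
  rfl

theorem pr_pw (w : List Y) : (pr S w).Pairwise (ρ S) :=
  List.pairwise_of_forall_mem_list fun a ha b hb => by
    simp [ρ, pr_rank S ha, pr_rank S hb]

theorem r3 {a : V S} (h : rank S a = 3) : lt S f a = [] ∧ cr S a = [] := by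
  rcases a with (_ | _ | _ | _ | _) | _ | _ <;> simp_all [rank, lt, cr]

theorem inv {r} (h : GP S f r) (u v : List (V S)) (k1 : (u ++ r.1 ++ v).Pairwise (ρ S))
    (k2 : ReflTransGen (qs S) (val S f (u ++ r.1 ++ v)) f) : (u ++ r.2 ++ v).Pairwise (ρ S) ∧
      ReflTransGen (qs S) (val S f (u ++ r.2 ++ v)) f := by
  simp only [List.pairwise_append, List.mem_append] at k1 ⊢
  obtain ⟨⟨a1, a2, a3⟩, a4, a5⟩ := k1
  have nil : ∀ l : List (V S), (∀ a ∈ l, False) → l = [] := fun l h => List.eq_nil_iff_forall_not_mem.2 h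
  cases h with
  | st =>
    obtain rfl := nil u fun a ha => by simpa [ρ, rank] using a3 a ha _ (.head _)
    obtain rfl := nil v fun a ha => by
      have := a5 _ (.inr (.head _)) a ha
      simp only [ρ, rank] at this
      omega
    refine ⟨⟨⟨a1, ?_, by simp⟩, a4, by simp⟩, ?_⟩
    · refine .cons (fun a ha => ?_) (List.pairwise_append.2 ⟨pr_pw S f, by simp, fun a ha b hb => ?_⟩)
      · rcases List.mem_append.1 ha with ha | ha
        · simp only [ρ, pr_rank S ha]; simp [rank]
        · obtain rfl := List.mem_singleton.1 ha; simp [ρ, rank]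
      · obtain rfl := List.mem_singleton.1 hb
        simp only [ρ, pr_rank S ha]; simp [rank]
    · simp [val, pr_lt, pr_cr, lt, cr]
      rfl
  | lf p =>
    obtain rfl := nil u fun a ha => by
      have := a3 a ha _ (.head _)
      simp only [ρ, rank] at this
      omega
    refine ⟨⟨⟨a1, .cons (fun a ha => by simp only [ρ, pr_rank S ha]; simp [rank]) (pr_pw S _), by simp⟩, a4, ?_⟩,
      .head ⟨p.1, p.2, val S f v, ?_, ?_⟩ k2⟩
    · rintro a (ha | ha) b hb
      · simp at ha
      · rcases List.mem_cons.1 ha with rfl | ha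
        · exact a5 _ (.inr (.head _)) b hb
        · have := a5 _ (.inr (.tail _ (.head _))) b hb
          simpa only [ρ, pr_rank S ha, show rank S (inl (.c p)) = 1 from rfl] using this
    · simp [val, pr_lt, pr_cr, lt, cr]
    · simp [val, lt, cr]
  | sw y p =>
    refine ⟨⟨⟨a1, by simp [ρ, rank], fun a ha b hb => a3 a ha b (by simp at hb ⊢; tauto)⟩, a4,
      fun a ha => a5 a (by simp at ha ⊢; tauto)⟩, by simpa [val, lt, cr] using k2⟩
  | rt p =>
    have hv : ∀ b ∈ v, rank S b = 3 := fun b hb => by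
      have := a5 (inl .r) (.inr (by simp)) b hb
      simp only [ρ, show rank S (inl .r) = 2 from rfl] at this
      omega
    have hu : ∀ b ∈ u, rank S b < 2 := fun b hb => by
      have := a3 b hb (inl .r) (by simp)
      simp only [ρ, show rank S (inl .r) = 2 from rfl] at this
      omega
    have e1 : v.flatMap (lt S f) = [] := List.flatMap_eq_nil_iff.2 fun a ha => (r3 S f (hv a ha)).1
    have e2 : v.reverse.flatMap (cr S) = [] :=
      List.flatMap_eq_nil_iff.2 fun a ha => (r3 S f (hv a (List.mem_reverse.1 ha))).2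
    refine ⟨⟨⟨a1, by simp +contextual [ρ, rank, List.pairwise_replicate], fun a ha b hb => ?_⟩, a4, ?_⟩, ?_⟩
    · have := hu a ha
      simp only [List.mem_cons, List.mem_replicate] at hb
      rcases hb with rfl | rfl | ⟨-, rfl⟩ <;> simp only [ρ, rank] at this ⊢ <;> simp <;> omega
    · rintro a (ha | ha) b hb
      · exact a5 a (.inl ha) b hb
      · simp only [List.mem_cons, List.mem_replicate] at ha
        rcases ha with rfl | rfl | ⟨-, rfl⟩ <;> simp only [ρ, hv b hb] <;> simp [rank]
    · simpa [val, pr_lt, pr_cr, lt, cr, e1, e2, List.flatMap_replicate] using k2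
  | _ =>
    refine ⟨⟨⟨a1, by simp, fun a ha b hb => ?_⟩, a4, ?_⟩, by simpa [val, lt, cr] using k2⟩
    · obtain rfl := List.mem_singleton.1 hb
      have := a3 a ha _ (.head _)
      exact this
    · rintro a (ha | ha) b hb
      · exact a5 a (.inl ha) b hb
      · obtain rfl := List.mem_singleton.1 ha
        exact a5 _ (.inr (.head _)) b hb

theorem G0_iff [Finite Y] (hS : S.Finite) (h1 : ∀ p ∈ S, p.1 ≠ []) (y : List Y) :
    (∃ w ∈ (G0 S f hS h1).lang, w.filterMap Sum.getLeft? = y) ↔ ReflTransGen (qs S) y f := by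
  constructor
  · rintro ⟨w, h, rfl⟩
    have : ∀ z, ReflTransGen (G0 S f hS h1).Step [inl .s] z →
        z.Pairwise (ρ S) ∧ ReflTransGen (qs S) (val S f z) f := by
      intro z h
      induction h with
      | refl => exact ⟨by simp, by simp [val, lt, cr]; rfl⟩
      | tail _ k ih =>
        obtain ⟨r, a, u, v, rfl, rfl⟩ := k
        exact inv S f a u v ih.1 ih.2
    convert (this _ h).2
    clear h this
    have : (w.map inr).reverse.flatMap (cr S) = [] := by simp [cr]
    rw [val, this, List.append_nil]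
    clear this
    induction w with
    | nil => rfl
    | cons a w ih => rcases a with a | a <;> simp_all [lt]
  · intro h
    let R : Set (List (V S) × List (V S)) := {r | GP S f r}
    have one : ∀ {a b}, GP S f (a, b) → ∀ s t, ReflTransGen (Srs.St R) (s ++ a ++ t) (s ++ b ++ t) :=
      fun h s t => .single (Srs.St.of h s t)
    have : ∃ j, ReflTransGen (Srs.St R) [inl .s]
        (inl .l :: pr S y ++ inl .r :: List.replicate j (inr (inr 2))) := by
      induction h using ReflTransGen.head_induction_on with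
      | refl => exact ⟨0, by simpa using one .st [] []⟩
      | head k _ ih =>
        obtain ⟨p, hp, t, rfl, rfl⟩ := k
        obtain ⟨j, ih⟩ := ih
        have mv : ∀ (t : List Y) s, ReflTransGen (Srs.St R) (pr S t ++ inl (.c ⟨p, hp⟩) :: s)
            (inl (.c ⟨p, hp⟩) :: pr S t ++ s) := fun t s => by
          induction t with
          | nil => rfl
          | cons a t ih =>
            exact ReflTransGen.trans (by simpa [pr] using Srs.ctx ih [inl (.x a)] [])
              (by simpa [pr] using one (.sw a ⟨p, hp⟩) [] (pr S t ++ s))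
        refine ⟨p.2.length + j, ih.trans (.trans (by
          simpa [pr] using one (.rt ⟨p, hp⟩) (inl .l :: pr S t) (List.replicate j (inr (inr 2))))
          (.trans (by simpa [pr] using Srs.ctx (mv t _) [inl .l] []) ?_))⟩
        simpa [pr] using one (.lf ⟨p, hp⟩) [] _
    obtain ⟨j, h⟩ := this
    have tm : ∀ t : List Y, ReflTransGen (Srs.St R) (pr S t) (t.map fun a => inr (inl a)) := fun t => by
      induction t with
      | nil => rfl
      | cons a t ih =>
        exact ReflTransGen.trans (by simpa [pr] using Srs.ctx ih [inl (.x a)] [])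
          (by simpa using one (.tx a) [] _)
    refine ⟨inr 0 :: y.map inl ++ inr 1 :: List.replicate j (inr 2), ?_, by simp [List.filterMap_map]⟩
    refine h.trans (.trans (by simpa using one .tl [] _) (.trans
      (by simpa using Srs.ctx (tm y) [inr (inr 0)] _) ?_))
    simpa [Function.comp_def] using one .tr (inr (inr 0) :: y.map fun a => inr (inl a)) _

theorem main (𝓛 : ∀ Q : Type, Language Q → Prop)
    (h1 : ∀ (T : Type) [Finite T] (G : MG T), SCFA 𝓛 G.lang)
    (h2 : ∀ (T : Type) [Finite T] (L : Language T), SCFA 𝓛 L →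
      ∃ G : MG T, ∀ w, w ≠ [] → (w ∈ L ↔ w ∈ G.lang)) : False := by
  obtain ⟨Y, _, S, f1, f2, c, u, v, a1, a2, -, a3, a4⟩ := exists_queue
  obtain ⟨G, hG⟩ := h2 _ _ (scfa_erase (h1 _ (G0 S [f1, f2] a1 fun p h => (a2 p h).1)) Sum.getLeft?)
  have hu : u ++ v ≠ [] := fun e => by
    have := a3 0 _ .refl
    simp [e] at this
  refine a4 ((mg_dec G u v c hu).of_eq fun n => ?_)
  rw [← hG _ fun e => hu (by simp at e ⊢; tauto)]
  exact G0_iff ..

end Pool.Agent.H24.Scfa
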