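import Mathlib

/-! State-controlled finite automata and monotone grammars. -/

namespace Pool.Agent.H24.Scfa

/-- Finite automaton with rules `p a → q`, `a` a letter or empty. -/
structure FA (T : Type) where
  Q : Type
  finQ : Finite Q
  R : Set (Q × Option T × Q)
  s : Q
  F : Set Q

/-- `Rec p w α f`: from `p` the automaton reads `w`, ends in `f`, and the states left form `α`. -/
inductive FA.Rec {T : Type} (M : FA T) : M.Q → List T → List M.Q → M.Q → Prop
  | nil (q) : FA.Rec M q [] [] q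
  | step (p a q x α f) : (p, a, q) ∈ M.R → FA.Rec M q x α f → FA.Rec M p (a.toList ++ x) (p :: α) f

def FA.ctl {T : Type} (M : FA T) (C : Language M.Q) : Language T :=
  {w | ∃ f ∈ M.F, ∃ α ∈ C, M.Rec M.s w α f}

def SCFA (𝓛 : ∀ Q : Type, Language Q → Prop) {T : Type} (L : Language T) : Prop :=
  ∃ (M : FA T) (C : Language M.Q), 𝓛 M.Q C ∧ M.ctl C = L

/-- Monotone (noncontracting, type 1) grammar. -/
structure MG (T : Type) where
  N : Type
  finN : Finite N
  S : N
  P : Set (List (N ⊕ T) × List (N ⊕ T))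
  finP : P.Finite
  mono : ∀ r ∈ P, (∃ A, Sum.inl A ∈ r.1) ∧ r.1.length ≤ r.2.length

def MG.Step {T : Type} (G : MG T) (a b : List (G.N ⊕ T)) : Prop :=
  ∃ r ∈ G.P, ∃ u v, a = u ++ r.1 ++ v ∧ b = u ++ r.2 ++ v

def MG.lang {T : Type} (G : MG T) : Language T :=
  {w | Relation.ReflTransGen G.Step [Sum.inl G.S] (w.map Sum.inr)}

end Pool.Agent.H24.Scfa
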