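import Pool.Agent.H24.SegDefs
import Pool.Agent.H11.Base1

set_option autoImplicit false

namespace Pool.Agent.H24.Seg
open Pool.Agent.H11.PT Finset

instance (a b : ℕ × ℕ) : Decidable (Cross a b) := by unfold Cross; infer_instance

def bd (C : List (ℕ × ℕ)) : ℕ := (C.map fun c => c.1 + c.2).sum

theorem np (g : ℕ) : InNP (SegCol g) := by
  classical
  refine PT.inNP_nats (V := fun y c => (y.1.all fun a => decide (a.1 < a.2)) &&
    ((y.1.map Prod.fst ++ y.1.map Prod.snd).all fun p =>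
      decide ((y.1.map Prod.fst ++ y.1.map Prod.snd).count p ≤ 1)) &&
    (y.1.all fun a => (List.range (g - 1)).any fun i =>
      decide (a.1 ≤ c.getD i 0) && decide (c.getD i 0 < a.2)) &&
    (y.1.all fun a => decide (1 ≤ c.getD (g + a.1) 0) && decide (c.getD (g + a.1) 0 ≤ y.2)) &&
    y.1.all fun a => y.1.all fun b =>
      !decide (Cross a b) || c.getD (g + a.1) 0 != c.getD (g + b.1) 0)
    (by unfold Cross; fun_prop) (fun y => (g + bd y.1 + 1) * (bd y.1 + y.2 + 1))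
    (by unfold bd; fun_prop) (fun y c h => ?_) fun y h => ?_
  · simp only [Bool.and_eq_true, List.all_eq_true, decide_eq_true_eq, List.any_eq_true,
      List.mem_range, Bool.or_eq_true, Bool.not_eq_true', decide_eq_false_iff_not, bne_iff_ne] at h
    obtain ⟨⟨⟨⟨h1, h2⟩, h3⟩, h4⟩, h5⟩ := h
    refine ⟨h1, List.nodup_iff_count_le_one.2 fun a => ?_,
      ⟨fun i => (c.getD i 0 : ℝ) + 1 / 2, fun a ha => ?_⟩, fun a => c.getD (g + a.1) 0, h4,
      fun a ha b hb e => (h5 a ha b hb).resolve_left (not_not.2 e)⟩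
    · by_cases e : a ∈ y.1.map Prod.fst ++ y.1.map Prod.snd
      · exact h2 a e
      · rw [List.count_eq_zero_of_not_mem e]; omega
    · obtain ⟨i, hi, a1, a2⟩ := h3 a ha
      have b1 : (a.1 : ℝ) ≤ c.getD i 0 := by exact_mod_cast a1
      have b2 : (c.getD i 0 : ℝ) + 1 ≤ a.2 := by exact_mod_cast a2
      exact ⟨⟨i, hi⟩, by simp only; linarith, by simp only; linarith⟩
  · obtain ⟨h1, h2, ⟨e, h3⟩, col, h4, h5⟩ := h
    have hb : ∀ a ∈ y.1, a.1 + a.2 ≤ bd y.1 := fun a ha =>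
      List.single_le_sum (by simp) _ (List.mem_map_of_mem (f := fun c : ℕ × ℕ => c.1 + c.2) ha)
    let F : ℕ → ℕ := fun i => if h : i < g - 1 then min (⌈e ⟨i, h⟩⌉₊ - 1) (bd y.1) else
      if h : ∃ a ∈ y.1, g + a.1 = i then col h.choose else 0
    have f1 : ∀ a ∈ y.1, F (g + a.1) = col a := fun a ha => by
      have h : ∃ b ∈ y.1, g + b.1 = g + a.1 := ⟨a, ha, rfl⟩
      simp only [F]
      rw [dif_neg (by omega), dif_pos h, List.inj_on_of_nodup_map (List.nodup_append.1 h2).1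
        h.choose_spec.1 ha (Nat.add_left_cancel h.choose_spec.2)]
    have f2 : ∀ i, F i ≤ bd y.1 + y.2 := fun i => by
      simp only [F]
      split_ifs with a b
      · omega
      · have := h4 _ b.choose_spec.1; omega
      · omega
    have f3 : ∀ i < g + bd y.1 + 1, ((List.range (g + bd y.1 + 1)).map F).getD i 0 = F i :=
      fun i hi => by simp [List.getD_eq_getElem?_getD, hi]
    have f4 : ∀ a ∈ y.1, ((List.range (g + bd y.1 + 1)).map F).getD (g + a.1) 0 = col a :=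
      fun a ha => by rw [f3 _ (by have := hb a ha; omega), f1 a ha]
    refine ⟨(List.range (g + bd y.1 + 1)).map F, ?_, ?_⟩
    · have := List.sum_le_card_nsmul ((List.range (g + bd y.1 + 1)).map F) (bd y.1 + y.2) (by
        intro x hx
        obtain ⟨u, -, rfl⟩ := List.mem_map.1 hx
        exact f2 u)
      simp only [List.length_map, List.length_range, smul_eq_mul] at this ⊢
      nlinarith
    · simp only [Bool.and_eq_true, List.all_eq_true, decide_eq_true_eq, List.any_eq_true,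
        List.mem_range, Bool.or_eq_true, Bool.not_eq_true', decide_eq_false_iff_not, bne_iff_ne]
      refine ⟨⟨⟨⟨h1, fun p _ => List.nodup_iff_count_le_one.1 h2 p⟩, fun a ha => ?_⟩,
        fun a ha => ?_⟩, fun a ha b hb => ?_⟩
      · obtain ⟨i, a1, a2⟩ := h3 a ha
        have := i.2
        have := hb a ha
        have := Nat.lt_ceil.2 a1
        have := Nat.ceil_le.2 a2.le
        refine ⟨i, i.2, ?_⟩
        rw [f3 _ (by omega)]
        simp only [F, dif_pos i.2, Fin.eta]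
        omega
      · rw [f4 a ha]; exact h4 a ha
      · rw [f4 a ha, f4 b hb]
        exact or_iff_not_imp_left.2 fun h => h5 a ha b hb (not_not.1 h)

def P (M a u i : ℕ) : ℕ := (a * M + u) * M + i

theorem lex {M a u a' u' : ℕ} (h : u < M) (h' : u' < M) :
    a * M + u < a' * M + u' ↔ a < a' ∨ (a = a' ∧ u < u') := by
  rcases lt_trichotomy a a' with e | rfl | e
  · have := Nat.mul_le_mul_right M (show a + 1 ≤ a' from e)
    rw [add_mul] at this; omega
  · omega
  · have := Nat.mul_le_mul_right M (show a' + 1 ≤ a from e)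
    rw [add_mul] at this; omega

theorem P_lt {M a u i a' u' i' : ℕ} (h1 : u < M) (h2 : u' < M) (h3 : i < M) (h4 : i' < M) :
    P M a u i < P M a' u' i' ↔ a < a' ∨ (a = a' ∧ (u < u' ∨ (u = u' ∧ i < i'))) := by
  have := lex (a := a) (a' := a') h1 h2
  have := lex (a := a') (a' := a) h2 h1
  rw [P, P, lex h3 h4]; omega

/-- record: id, x, y, zB, zC -/
abbrev R : Type := ℕ × ℕ × ℕ × ℕ × ℕ

def a1 (M t : ℕ) (r : R) : ℕ := if t < 4 then 4 * r.2.1 + t else 8 * M + 4 * r.2.2.1 + (t - 3)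
def u1 (t : ℕ) (r : R) : ℕ :=
  if t = 1 then r.2.2.2.2 else if t = 2 then r.2.2.1 else if t = 4 then r.2.2.2.1 else 0
def a2 (M t : ℕ) (r : R) : ℕ := if t = 0 then 20 * M + 4 * r.2.1 else
  if t = 1 then 16 * M + 4 * r.2.2.2.2 + 1 else if t = 2 then 8 * M + 4 * r.2.2.1 else
  if t = 3 then 4 * M + 4 * r.2.1 else if t = 4 then 16 * M + 4 * r.2.2.2.1 else 12 * M + 4 * r.2.2.1
def ch (M t : ℕ) (r : R) : ℕ × ℕ := (P M (a1 M t r) (u1 t r) r.1, P M (a2 M t r) 0 r.1)
def chs (M : ℕ) (L : List R) : List (ℕ × ℕ) := (L ×ˢ List.range 6).map fun p => ch M p.2 p.1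

@[fun_prop] theorem pt_chs {α : Type} [Enc α] {f : α → ℕ} {g : α → List R} (hf : PT f) (hg : PT g) :
    PT fun x => chs (f x) (g x) := by unfold chs ch P a1 u1 a2; fun_prop

def Ok (M : ℕ) (r : R) : Prop :=
  r.1 < M ∧ r.2.1 < M ∧ r.2.2.1 < M ∧ r.2.2.2.1 < M ∧ r.2.2.2.2 < M

theorem u1_lt {M : ℕ} {r : R} (h : Ok M r) (t : ℕ) : u1 t r < M := by
  unfold Ok at h; unfold u1; split_ifs <;> omega

def Lx (a u i a' u' i' : ℕ) : Prop := a < a' ∨ (a = a' ∧ (u < u' ∨ (u = u' ∧ i < i')))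

theorem cr {M : ℕ} {r s : R} (hr : Ok M r) (hs : Ok M s) (t t' : ℕ) :
    Cross (ch M t r) (ch M t' s) ↔
      (Lx (a1 M t r) (u1 t r) r.1 (a1 M t' s) (u1 t' s) s.1 ∧
        Lx (a1 M t' s) (u1 t' s) s.1 (a2 M t r) 0 r.1 ∧ Lx (a2 M t r) 0 r.1 (a2 M t' s) 0 s.1) ∨
      (Lx (a1 M t' s) (u1 t' s) s.1 (a1 M t r) (u1 t r) r.1 ∧
        Lx (a1 M t r) (u1 t r) r.1 (a2 M t' s) 0 s.1 ∧ Lx (a2 M t' s) 0 s.1 (a2 M t r) 0 r.1) := by
  have h0 : 0 < M := by have := hr.1; omega
  simp only [Cross, ch, Lx, P_lt (u1_lt hr t) (u1_lt hs t') hr.1 hs.1,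
    P_lt (u1_lt hs t') (u1_lt hr t) hs.1 hr.1, P_lt (u1_lt hs t') h0 hs.1 hr.1,
    P_lt (u1_lt hr t) h0 hr.1 hs.1, P_lt h0 h0 hr.1 hs.1, P_lt h0 h0 hs.1 hr.1]

theorem P_eq {M a u i a' u' i' : ℕ} (h1 : u < M) (h2 : u' < M) (h3 : i < M) (h4 : i' < M)
    (h : P M a u i = P M a' u' i') : a = a' ∧ i = i' := by
  have := P_lt (a := a) (a' := a') h1 h2 h3 h4
  have := P_lt (a := a') (a' := a) h2 h1 h4 h3
  omega

variable {ι : Type} [DecidableEq ι]

theorem mat {s : Finset ι} {T : Set ℕ} {α β : ι → ℕ} (ha : Set.BijOn α s T) (hb : Set.BijOn β s T) :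
    ∃ π : ι → ι, Set.BijOn π s s ∧ ∀ i ∈ s, β (π i) = α i := by
  rcases isEmpty_or_nonempty ι with h | h
  · exact ⟨id, Set.bijOn_id _, fun i => h.elim i⟩
  · exact ⟨Function.invFunOn β s ∘ α, (Set.BijOn.symm hb.invOn_invFunOn.symm hb).comp ha,
      fun i hi => hb.invOn_invFunOn.2 (ha.1 hi)⟩

theorem tight {s : Finset ι} {T : Set ℕ} {α β : ι → ℕ} (ha : Set.BijOn α s T)
    (hb : Set.BijOn β s T) (F G : ι → ℕ) (h : ∀ i ∈ s, ∀ j ∈ s, α i = β j → F i ≤ G j)
    (hs : ∑ i ∈ s, F i = ∑ i ∈ s, G i) : ∀ i ∈ s, ∀ j ∈ s, α i = β j → F i = G j := by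
  obtain ⟨π, h1, h2⟩ := mat ha hb
  intro i hi j hj e
  have e1 : ∑ i ∈ s, G (π i) = ∑ i ∈ s, G i := sum_nbij π h1.1 h1.2.1 h1.2.2 fun _ _ => rfl
  have := (sum_eq_sum_iff_of_le fun i hi => h i hi _ (h1.1 hi) (h2 i hi).symm).1
    (hs.trans e1.symm) i hi
  rwa [hb.2.1 (h1.1 hi) hj ((h2 i hi).trans e)] at this

theorem geo {g M : ℕ} (hg : 3 ≤ g) {l : List ι} (hn : l.Nodup) (r : ι → R)
    (ok : ∀ e ∈ l, Ok M (r e)) (inj : ∀ e ∈ l, ∀ f ∈ l, (r e).1 = (r f).1 → e = f)
    (hs : ∑ e ∈ l.toFinset, (r e).2.2.2.1 = ∑ e ∈ l.toFinset, (r e).2.2.2.2) :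
    SegCol g (chs M (l.map r), l.length) ↔ ∃ σ τ : ι → ι, Set.BijOn σ l.toFinset l.toFinset ∧
      Set.BijOn τ l.toFinset l.toFinset ∧ ∀ e ∈ l, (r (σ e)).2.2.1 = (r e).2.2.1 ∧
        (r (τ e)).2.1 = (r e).2.1 ∧ (r (σ e)).2.2.2.1 = (r (τ e)).2.2.2.2 := by
  classical
  have mem : ∀ c, c ∈ chs M (l.map r) ↔ ∃ e ∈ l, ∃ t < 6, ch M t (r e) = c := fun c => by
    constructor
    · intro h
      obtain ⟨⟨p, t⟩, h1, rfl⟩ := List.mem_map.1 h
      obtain ⟨h1, h2⟩ := List.mem_product.1 h1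
      obtain ⟨e, he, rfl⟩ := List.mem_map.1 h1
      exact ⟨e, he, t, List.mem_range.1 h2, rfl⟩
    · rintro ⟨e, he, t, ht, rfl⟩
      exact List.mem_map.2 ⟨(r e, t),
        List.mem_product.2 ⟨List.mem_map_of_mem he, List.mem_range.2 ht⟩, rfl⟩
  constructor
  · rintro ⟨-, -, -, col, h1, h2⟩
    simp only at h1 h2
    have nc : ∀ t < 6, ∀ t' < 6, ∀ e ∈ l.toFinset, ∀ f ∈ l.toFinset,
        col (ch M t (r e)) = col (ch M t' (r f)) → Ok M (r e) ∧ Ok M (r f) ∧
          (e ≠ f → (r e).1 ≠ (r f).1) ∧ _ := fun t ht t' ht' e he f hf h => by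
      have he := List.mem_toFinset.1 he
      have hf := List.mem_toFinset.1 hf
      exact ⟨ok e he, ok f hf, fun a b => a (inj e he f hf b),
        mt (cr (ok e he) (ok f hf) t t').2 fun a => h2 _ ((mem _).2 ⟨e, he, t, ht, rfl⟩) _
          ((mem _).2 ⟨f, hf, t', ht', rfl⟩) a h⟩
    have bj : ∀ t < 6, Set.InjOn (fun e => col (ch M t (r e))) l.toFinset →
        Set.BijOn (fun e => col (ch M t (r e))) l.toFinset (Icc 1 l.length : Finset ℕ) :=
      fun t ht h => by
        have m : Set.MapsTo (fun e => col (ch M t (r e))) l.toFinset (Icc 1 l.length : Finset ℕ) :=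
          fun e he => by simpa using h1 _ ((mem _).2 ⟨e, by simpa using he, t, ht, rfl⟩)
        exact ⟨m, h, surjOn_of_injOn_of_card_le _ m h (by simp [List.toFinset_card_of_nodup hn])⟩
    have b0 := bj 0 (by omega) fun e he f hf h => by
      have := nc 0 (by omega) 0 (by omega) e he f hf h
      by_contra k
      simp [k, Ok, Lx, a1, a2, u1] at this; omega
    have b3 := bj 3 (by omega) fun e he f hf h => by
      have := nc 3 (by omega) 3 (by omega) e he f hf h
      by_contra k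
      simp [k, Ok, Lx, a1, a2, u1] at this; omega
    have b5 := bj 5 (by omega) fun e he f hf h => by
      have := nc 5 (by omega) 5 (by omega) e he f hf h
      by_contra k
      simp [k, Ok, Lx, a1, a2, u1] at this; omega
    have t1 := tight b0 b3 (fun e => (r e).2.1) (fun e => (r e).2.1) (fun e he f hf h => by
      have := nc 0 (by omega) 3 (by omega) e he f hf h
      simp [Ok, Lx, a1, a2, u1] at this; omega) rfl
    obtain ⟨π, p1, p2⟩ := mat b0 b3
    have x1 : ∀ t, t = 1 ∨ t = 2 → ∀ e ∈ l.toFinset, ∀ f ∈ l.toFinset,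
        col (ch M t (r e)) = col (ch M 0 (r f)) → (r e).2.1 = (r f).2.1 := by
      intro t ht e he f hf h
      have := t1 f hf _ (p1.1 hf) (p2 f hf).symm
      have n1 := nc t (by omega) 0 (by omega) e he f hf h
      have n2 := nc t (by omega) 3 (by omega) e he _ (p1.1 hf) (h.trans (p2 f hf).symm)
      rcases ht with rfl | rfl <;> simp [Ok, Lx, a1, a2, u1] at n1 n2 this <;> omega
    have x2 : ∀ t, t = 1 ∨ t = 2 → ∀ t', t' = 1 ∨ t' = 2 → ∀ e ∈ l.toFinset, ∀ f ∈ l.toFinset,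
        col (ch M t (r e)) = col (ch M t' (r f)) → (r e).2.1 = (r f).2.1 := by
      intro t ht t' ht' e he f hf h
      obtain ⟨d, hd, e1⟩ := b0.2.2 (show col (ch M t (r e)) ∈ ((Icc 1 l.length : Finset ℕ) : Set ℕ)
        by simpa using h1 _ ((mem _).2 ⟨e, by simpa using he, t, by omega, rfl⟩))
      rw [x1 t ht e he d hd e1.symm, x1 t' ht' f hf d hd (h.symm.trans e1.symm)]
    have b1 := bj 1 (by omega) fun e he f hf h => by
      have := nc 1 (by omega) 1 (by omega) e he f hf h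
      have x := x2 1 (by omega) 1 (by omega) e he f hf h
      by_contra k
      simp [k, Ok, Lx, a1, a2, u1] at this; omega
    have b2 := bj 2 (by omega) fun e he f hf h => by
      have := nc 2 (by omega) 2 (by omega) e he f hf h
      have x := x2 2 (by omega) 2 (by omega) e he f hf h
      by_contra k
      simp [k, Ok, Lx, a1, a2, u1] at this; omega
    have t2 := tight b2 b5 (fun e => (r e).2.2.1) (fun e => (r e).2.2.1) (fun e he f hf h => by
      have := nc 2 (by omega) 5 (by omega) e he f hf h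
      simp [Ok, Lx, a1, a2, u1] at this; omega) rfl
    obtain ⟨ρ, q1, q2⟩ := mat b2 b5
    have y1 : ∀ e ∈ l.toFinset, ∀ f ∈ l.toFinset,
        col (ch M 4 (r e)) = col (ch M 2 (r f)) → (r e).2.2.1 = (r f).2.2.1 := by
      intro e he f hf h
      have := t2 f hf _ (q1.1 hf) (q2 f hf).symm
      have n1 := nc 4 (by omega) 2 (by omega) e he f hf h
      have n2 := nc 4 (by omega) 5 (by omega) e he _ (q1.1 hf) (h.trans (q2 f hf).symm)
      simp [Ok, Lx, a1, a2, u1] at n1 n2 this; omega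
    have b4 := bj 4 (by omega) fun e he f hf h => by
      have := nc 4 (by omega) 4 (by omega) e he f hf h
      obtain ⟨d, hd, e1⟩ := b2.2.2 (show col (ch M 4 (r e)) ∈ ((Icc 1 l.length : Finset ℕ) : Set ℕ)
        by simpa using h1 _ ((mem _).2 ⟨e, by simpa using he, 4, by omega, rfl⟩))
      have x := y1 e he d hd e1.symm
      have x := y1 f hf d hd (h.symm.trans e1.symm)
      by_contra k
      simp [k, Ok, Lx, a1, a2, u1] at this; omega
    have t3 := tight b4 b1 (fun e => (r e).2.2.2.1) (fun e => (r e).2.2.2.2) (fun e he f hf h => by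
      have := nc 4 (by omega) 1 (by omega) e he f hf h
      simp [Ok, Lx, a1, a2, u1] at this; omega) hs
    obtain ⟨σ, s1, s2⟩ := mat b2 b4
    obtain ⟨τ, r1, r2⟩ := mat b2 b1
    refine ⟨σ, τ, s1, r1, fun e he => ?_⟩
    have he := List.mem_toFinset.2 he
    exact ⟨y1 _ (s1.1 he) e he (s2 e he), x2 1 (by omega) 2 (by omega) _ (r1.1 he) e he (r2 e he),
      t3 _ (s1.1 he) _ (r1.1 he) ((s2 e he).trans (r2 e he).symm)⟩
  · rintro ⟨σ, τ, s1, r1, h⟩
    have pe : ∀ e ∈ l, ∀ f ∈ l, ∀ a u a' u', u < M → u' < M →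
        P M a u (r e).1 = P M a' u' (r f).1 → a = a' ∧ e = f := fun e he f hf a u a' u' h1 h2 h3 =>
      (P_eq h1 h2 (ok e he).1 (ok f hf).1 h3).imp_right (inj e he f hf)
    have i1 : ∀ e ∈ l, ∀ f ∈ l, ∀ t < 6, ∀ t' < 6, (ch M t (r e)).1 = (ch M t' (r f)).1 →
        e = f ∧ t = t' := fun e he f hf t ht t' ht' k => by
      obtain ⟨k, rfl⟩ := pe e he f hf _ _ _ _ (u1_lt (ok e he) _) (u1_lt (ok f hf) _) k
      have := ok e he
      refine ⟨rfl, ?_⟩
      unfold a1 at k; unfold Ok at this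
      split_ifs at k <;> omega
    have nd : ∀ p : ℕ × ℕ → ℕ, (∀ e ∈ l, ∀ f ∈ l, ∀ t < 6, ∀ t' < 6,
        p (ch M t (r e)) = p (ch M t' (r f)) → e = f ∧ t = t') →
        ((chs M (l.map r)).map p).Nodup := fun p hp => by
      have : (l.map r) ×ˢ List.range 6 = (l ×ˢ List.range 6).map (Prod.map r id) := by
        simp [SProd.sprod, List.product, List.flatMap_map, List.map_flatMap, Function.comp_def]
      rw [chs, this, List.map_map, List.map_map]
      refine (hn.product List.nodup_range).map_on ?_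
      rintro ⟨e, t⟩ h1 ⟨f, t'⟩ h2 k
      simp only [List.mem_product, List.mem_range] at h1 h2
      simpa using hp e h1.1 f h2.1 t h1.2 t' h2.2 k
    obtain ⟨σ', s2, s3⟩ : ∃ π : ι → ι, Set.BijOn π l.toFinset l.toFinset ∧
        ∀ i ∈ l.toFinset, σ (π i) = i := by
      rcases isEmpty_or_nonempty ι with h | h
      · exact ⟨id, Set.bijOn_id _, fun i => h.elim i⟩
      · exact ⟨_, Set.BijOn.symm s1.invOn_invFunOn.symm s1, s1.invOn_invFunOn.2⟩
    obtain ⟨τ', r2, r3⟩ : ∃ π : ι → ι, Set.BijOn π l.toFinset l.toFinset ∧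
        ∀ i ∈ l.toFinset, τ (π i) = i := by
      rcases isEmpty_or_nonempty ι with h | h
      · exact ⟨id, Set.bijOn_id _, fun i => h.elim i⟩
      · exact ⟨_, Set.BijOn.symm r1.invOn_invFunOn.symm r1, r1.invOn_invFunOn.2⟩
    let w : ℕ → ι → ι := fun t e => if t = 4 then σ' e else if t = 1 then τ' e else e
    have w1 : ∀ t, ∀ e ∈ l, w t e ∈ l ∧ e = if t = 4 then σ (w t e) else
        if t = 1 then τ (w t e) else w t e := fun t e he => by
      have he' := List.mem_toFinset.2 he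
      simp only [w]
      split_ifs
      exacts [⟨List.mem_toFinset.1 (s2.1 he'), (s3 e he').symm⟩,
        ⟨List.mem_toFinset.1 (r2.1 he'), (r3 e he').symm⟩, ⟨he, rfl⟩]
    let col : ℕ × ℕ → ℕ := fun c => if h : ∃ p : ι × ℕ, p.1 ∈ l ∧ p.2 < 6 ∧ ch M p.2 (r p.1) = c
      then l.idxOf (w h.choose.2 h.choose.1) + 1 else 0
    have c1 : ∀ e ∈ l, ∀ t < 6, col (ch M t (r e)) = l.idxOf (w t e) + 1 := fun e he t ht => by
      have k : ∃ p : ι × ℕ, p.1 ∈ l ∧ p.2 < 6 ∧ ch M p.2 (r p.1) = ch M t (r e) :=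
        ⟨(e, t), he, ht, rfl⟩
      obtain ⟨k1, k2⟩ := i1 _ k.choose_spec.1 e he _ k.choose_spec.2.1 t ht
        (congrArg Prod.fst k.choose_spec.2.2)
      simp only [col]
      rw [dif_pos k, k1, k2]
    refine ⟨?_, List.nodup_append.2 ⟨nd _ i1, nd _ ?_, ?_⟩,
      ⟨fun i => (P M (if i.1 = 0 then 4 * M else 12 * M) 0 0 : ℝ) - 1 / 2, ?_⟩, col, ?_, ?_⟩
    · intro c hc
      obtain ⟨e, he, t, ht, rfl⟩ := (mem c).1 hc
      have := ok e he
      refine (P_lt (u1_lt this t) (by have := this.1; omega) this.1 this.1).2 (.inl ?_)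
      unfold a1 a2; unfold Ok at this
      split_ifs <;> omega
    · intro e he f hf t ht t' ht' k
      have := ok e he
      have h0 : 0 < M := by have := this.1; omega
      obtain ⟨k, rfl⟩ := pe e he f hf _ _ _ _ h0 h0 k
      refine ⟨rfl, ?_⟩
      unfold a2 at k; unfold Ok at this
      split_ifs at k <;> omega
    · intro a ha b hb k
      obtain ⟨c, hc, rfl⟩ := List.mem_map.1 ha
      obtain ⟨d, hd, rfl⟩ := List.mem_map.1 hb
      obtain ⟨e, he, t, ht, rfl⟩ := (mem c).1 hc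
      obtain ⟨f, hf, t', ht', rfl⟩ := (mem d).1 hd
      have := ok e he
      obtain ⟨k, rfl⟩ := pe e he f hf _ _ _ _ (u1_lt this _) (by have := this.1; omega) k
      unfold a1 a2 at k; unfold Ok at this
      split_ifs at k <;> omega
    · intro c hc
      obtain ⟨e, he, t, ht, rfl⟩ := (mem c).1 hc
      have := ok e he
      have h0 : 0 < M := by have := this.1; omega
      have k : ∀ a, a1 M t (r e) < a → a ≤ a2 M t (r e) → ((ch M t (r e)).1 : ℝ) < P M a 0 0 - 1 / 2 ∧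
          (P M a 0 0 : ℝ) - 1 / 2 < (ch M t (r e)).2 := fun a k1 k2 => by
        have j1 : (ch M t (r e)).1 + 1 ≤ P M a 0 0 := (P_lt (u1_lt this t) h0 this.1 h0).2 (.inl k1)
        have j2 : P M a 0 0 ≤ (ch M t (r e)).2 :=
          not_lt.1 (mt (P_lt h0 h0 this.1 h0).1 (by omega))
        have j1 : ((ch M t (r e)).1 : ℝ) + 1 ≤ P M a 0 0 := by exact_mod_cast j1
        have j2 : (P M a 0 0 : ℝ) ≤ (ch M t (r e)).2 := by exact_mod_cast j2
        constructor <;> linarith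
      unfold Ok at this
      by_cases h4 : t < 4
      · exact ⟨⟨0, by omega⟩, k (4 * M) (by unfold a1; split_ifs; omega)
          (by unfold a2; split_ifs <;> omega)⟩
      · exact ⟨⟨1, by omega⟩, k (12 * M) (by unfold a1; split_ifs; omega)
          (by unfold a2; split_ifs <;> omega)⟩
    · intro c hc
      obtain ⟨e, he, t, ht, rfl⟩ := (mem c).1 hc
      rw [c1 e he t ht]
      exact ⟨by omega, List.idxOf_lt_length_of_mem (w1 t e he).1⟩
    · intro a ha b hb k1 k2
      obtain ⟨e, he, t, ht, rfl⟩ := (mem a).1 ha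
      obtain ⟨f, hf, t', ht', rfl⟩ := (mem b).1 hb
      rw [c1 e he t ht, c1 f hf t' ht', add_left_inj,
        List.idxOf_inj (w1 t e he).1] at k2
      obtain ⟨m, j1⟩ := w1 t e he
      have j2 := (w1 t' f hf).2
      rw [← k2] at j2
      generalize w t e = d at m j1 j2
      rw [cr (ok e he) (ok f hf)] at k1
      have o1 := ok e he
      have o2 := ok f hf
      have := h d m
      subst j1 j2
      interval_cases t <;> interval_cases t' <;> simp [Ok, Lx, a1, a2, u1] at k1 o1 o2 <;> omega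

end Pool.Agent.H24.Seg
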