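import Pool.Agent.H11.PTDefs

set_option autoImplicit false

namespace Pool.Agent.H24.Seg

/-- two chords (left endpoint, right endpoint) intersect -/
def Cross (a b : ℕ × ℕ) : Prop :=
  (a.1 < b.1 ∧ b.1 < a.2 ∧ a.2 < b.2) ∨ (b.1 < a.1 ∧ a.1 < b.2 ∧ b.2 < a.2)

/-- colouring problem for `g`-segment chord sets: input `(C, k)` -/
def SegCol (g : ℕ) (y : List (ℕ × ℕ) × ℕ) : Prop :=
  (∀ c ∈ y.1, c.1 < c.2) ∧ (y.1.map Prod.fst ++ y.1.map Prod.snd).Nodup ∧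
    (∃ e : Fin (g - 1) → ℝ, ∀ c ∈ y.1, ∃ i, (c.1 : ℝ) < e i ∧ e i < c.2) ∧
    ∃ col : ℕ × ℕ → ℕ, (∀ c ∈ y.1, 1 ≤ col c ∧ col c ≤ y.2) ∧
      ∀ a ∈ y.1, ∀ b ∈ y.1, Cross a b → col a ≠ col b

end Pool.Agent.H24.Seg
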