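import Mathlib

set_option autoImplicit false
open Set Filter Topology

namespace Pool.Agent.H24.SelfIdeal

theorem exists_seq : ∃ x : ℕ → ℕ → Bool, ∀ (y : ℕ → Bool) (k N : ℕ),
    ∃ n, N < n ∧ ∀ i ≤ k, x n i = y i := by
  obtain ⟨s, hs⟩ := exists_surjective_nat (List Bool)
  refine ⟨fun n i => (s (Nat.unpair n).1).getD i false, fun y k N => ?_⟩
  obtain ⟨a, ha⟩ := hs (List.ofFn (fun i : Fin (k + 1) => y i))
  refine ⟨Nat.pair a (N + 1), Nat.right_le_pair a (N + 1), fun i hi => ?_⟩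
  simp only [Nat.unpair_pair, ha]
  rw [List.getD_eq_getElem?_getD, List.getElem?_ofFn]
  simp [Nat.lt_succ_of_le hi]

noncomputable def x : ℕ → ℕ → Bool := exists_seq.choose

def Pk (z : ℕ → Bool) (k n : ℕ) : Prop := (∀ i < k, x n i = z i) ∧ x n k ≠ z k

theorem Pk_inf (z : ℕ → Bool) (k N : ℕ) : ∃ n, N < n ∧ Pk z k n := by
  obtain ⟨n, hn, h⟩ := exists_seq.choose_spec (fun i => if i = k then !z i else z i) k N
  refine ⟨n, hn, fun i hi => ?_, ?_⟩
  · have := h i hi.le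
    rw [if_neg hi.ne] at this
    exact this
  · have := h k le_rfl
    rw [if_pos rfl] at this
    intro h2
    have h3 : x n k = !z k := this
    rw [h2] at h3
    simp at h3

def II (z : ℕ → Bool) (f : ℕ → ℕ) (A : Set ℕ) : Prop :=
  ∀ᶠ k in (hyperfilter ℕ : Filter ℕ), ∀ n ∈ A, Pk z k n → n ≤ f k

def U (A : Set ℕ) : Set (ℕ → ℕ) := {f | ∀ z, II z f A}

theorem of_atTop {p : ℕ → Prop} (h : ∀ᶠ k in atTop, p k) :
    ∀ᶠ k in (hyperfilter ℕ : Filter ℕ), p k :=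
  hyperfilter_le_cofinite (by rwa [Nat.cofinite_eq_atTop])

theorem II_mono {z : ℕ → Bool} {f g : ℕ → ℕ} {A : Set ℕ} (h : II z f A)
    (hfg : ∀ᶠ k in (hyperfilter ℕ : Filter ℕ), f k ≤ g k) : II z g A := by
  filter_upwards [h, hfg] with k h1 h2 n hn hp using (h1 n hn hp).trans h2

theorem II_sub {z : ℕ → Bool} {f : ℕ → ℕ} {A B : Set ℕ} (h : II z f A) (hB : B ⊆ A) :
    II z f B := by
  filter_upwards [h] with k h1 n hn hp using h1 n (hB hn) hp

theorem II_union {z : ℕ → Bool} {f : ℕ → ℕ} {A B : Set ℕ} (h : II z f A) (h' : II z f B) :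
    II z f (A ∪ B) := by
  filter_upwards [h, h'] with k h1 h2 n hn hp
  rcases hn with hn | hn
  · exact h1 n hn hp
  · exact h2 n hn hp

theorem II_fin (z : ℕ → Bool) (f : ℕ → ℕ) {A : Set ℕ} (hA : A.Finite) : II z f A := by
  refine of_atTop ?_
  rw [eventually_all_finite hA]
  intro n _
  by_cases h : ∃ k, Pk z k n
  · obtain ⟨k, hk⟩ := h
    filter_upwards [eventually_gt_atTop k] with j hj hp
    exact absurd (hp.1 k hj) hk.2
  · exact Eventually.of_forall fun k hk => absurd ⟨k, hk⟩ h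

theorem conv_fin {A : Set ℕ} {z : ℕ → Bool} (h : Tendsto x (atTop ⊓ 𝓟 A) (𝓝 z)) (i : ℕ) :
    {n | n ∈ A ∧ x n i ≠ z i}.Finite := by
  have h1 := tendsto_pi_nhds.1 h i
  rw [nhds_discrete, tendsto_pure, eventually_inf_principal, ← Nat.cofinite_eq_atTop,
    eventually_cofinite] at h1
  refine h1.subset ?_
  rintro n ⟨h2, h3⟩ h4
  exact h3 (h4 h2)

theorem II_conv_ne {A : Set ℕ} {z w : ℕ → Bool} (h : Tendsto x (atTop ⊓ 𝓟 A) (𝓝 z))
    (hw : w ≠ z) (f : ℕ → ℕ) : II w f A := by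
  obtain ⟨i, hi⟩ := Function.ne_iff.1 hw
  have h1 := II_fin w f (conv_fin h i)
  filter_upwards [h1, of_atTop (eventually_gt_atTop i)] with k h2 h3 n hn hp
  refine h2 n ⟨hn, ?_⟩ hp
  rw [hp.1 i h3]
  exact hi

theorem U_conv {A : Set ℕ} {z : ℕ → Bool} (h : Tendsto x (atTop ⊓ 𝓟 A) (𝓝 z)) :
    (U A).Nonempty := by
  choose g hg using fun i => (conv_fin h i).bddAbove
  refine ⟨g, fun w => ?_⟩
  by_cases hw : w = z
  · subst hw
    exact Eventually.of_forall fun k n hn hp => hg k ⟨hn, hp.2⟩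
  · exact II_conv_ne h hw g

theorem exists_conv (z : ℕ → Bool) (f : ℕ → ℕ) :
    ∃ A : Set ℕ, ¬ II z f A ∧ Tendsto x (atTop ⊓ 𝓟 A) (𝓝 z) := by
  choose m hm hP using fun k => Pk_inf z k (f k)
  refine ⟨range m, fun h => ?_, tendsto_pi_nhds.2 fun i => ?_⟩
  · obtain ⟨k, hk⟩ := h.exists
    exact absurd (hk (m k) ⟨k, rfl⟩ (hP k)) (not_le.2 (hm k))
  · rw [nhds_discrete, tendsto_pure, eventually_inf_principal, ← Nat.cofinite_eq_atTop,
      eventually_cofinite]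
    refine ((finite_le_nat i).image m).subset fun n hn => ?_
    simp only [mem_ofPred_eq, not_forall] at hn
    obtain ⟨⟨k, rfl⟩, h2⟩ := hn
    refine ⟨k, ?_, rfl⟩
    by_contra h3
    exact h2 ((hP k).1 i (not_le.1 h3))

abbrev r : (ℕ → ℕ) → (ℕ → ℕ) → Prop := WellOrderingRel

theorem r_wf : WellFounded r := IsWellFounded.wf

open Classical in
noncomputable def rho (A : Set ℕ) : ℕ → ℕ :=
  if h : (U A).Nonempty then r_wf.min (U A) h else 0

theorem rho_mem {A : Set ℕ} (h : (U A).Nonempty) : rho A ∈ U A := by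
  rw [rho, dif_pos h]; exact r_wf.min_mem _ h

theorem rho_min {A : Set ℕ} {f : ℕ → ℕ} (h : f ∈ U A) : ¬ r f (rho A) := by
  rw [rho, dif_pos ⟨f, h⟩]; exact r_wf.not_lt_min _ h

theorem key {A B : Set ℕ} (hA : (U A).Nonempty) (hB : (U B).Nonempty)
    (h : ¬ r (rho B) (rho A)) : rho B ∈ U A := by
  rcases trichotomous_of r (rho B) (rho A) with h1 | h1 | h1
  · exact absurd h1 h
  · rw [h1]; exact rho_mem hA
  · by_cases h2 : ∀ᶠ k in (hyperfilter ℕ : Filter ℕ), rho B k ≤ rho A k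
    · exact absurd h1 (rho_min fun z => II_mono (rho_mem hB z) h2)
    · rw [← Ultrafilter.eventually_not] at h2
      exact fun z => II_mono (rho_mem hA z) (h2.mono fun k hk => (not_le.1 hk).le)

def ch (z : ℕ → Bool) : Set ℕ := {n | z n = true}

noncomputable def J : Set ℕ → Prop :=
  (InvImage.wf rho r_wf).fix (C := fun _ => Prop) fun A rec =>
    (U A).Nonempty ∧ ∀ z : ℕ → Bool, ∀ h : r (rho (ch z)) (rho A),
      rec (ch z) h → II z (rho (ch z)) A

theorem J_eq (A : Set ℕ) : J A ↔ (U A).Nonempty ∧ ∀ z : ℕ → Bool, r (rho (ch z)) (rho A) →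
    J (ch z) → II z (rho (ch z)) A := by
  rw [J, WellFounded.fix_eq]

theorem J_iff (A : Set ℕ) : J A ↔ (U A).Nonempty ∧ ∀ z : ℕ → Bool,
    J (ch z) → II z (rho (ch z)) A := by
  rw [J_eq]
  refine and_congr_right fun hA => ⟨fun h z hz => ?_, fun h z _ => h z⟩
  by_cases h1 : r (rho (ch z)) (rho A)
  · exact h z h1 hz
  · exact key hA ((J_eq _).1 hz).1 h1 z

theorem main : ∃ I : Set (Set ℕ),
      (∀ A B : Set ℕ, A ∈ I → B ⊆ A → B ∈ I) ∧
      (∀ A B : Set ℕ, A ∈ I → B ∈ I → A ∪ B ∈ I) ∧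
      (∀ A : Set ℕ, A.Finite → A ∈ I) ∧
      (Set.univ : Set ℕ) ∉ I ∧
      ∃ x : ℕ → (ℕ → Bool),
        {ℓ : ℕ → Bool | ∃ A : Set ℕ, A ∉ I ∧
            Filter.Tendsto x (Filter.atTop ⊓ Filter.principal A) (nhds ℓ)}
          = {f : ℕ → Bool | {n : ℕ | f n = true} ∈ I} := by
  refine ⟨{A | J A}, ?_, ?_, ?_, ?_, x, ?_⟩
  · intro A B hA hB
    obtain ⟨⟨f, hf⟩, h2⟩ := (J_iff A).1 hA
    exact (J_iff B).2 ⟨⟨f, fun z => II_sub (hf z) hB⟩, fun z hz => II_sub (h2 z hz) hB⟩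
  · intro A B hA hB
    obtain ⟨⟨f, hf⟩, h2⟩ := (J_iff A).1 hA
    obtain ⟨⟨g, hg⟩, h3⟩ := (J_iff B).1 hB
    refine (J_iff _).2 ⟨⟨fun k => max (f k) (g k), fun z => II_union ?_ ?_⟩,
      fun z hz => II_union (h2 z hz) (h3 z hz)⟩
    · exact II_mono (hf z) (Eventually.of_forall fun k => le_max_left _ _)
    · exact II_mono (hg z) (Eventually.of_forall fun k => le_max_right _ _)
  · intro A hA
    exact (J_iff _).2 ⟨⟨0, fun z => II_fin z _ hA⟩, fun z _ => II_fin z _ hA⟩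
  · intro h
    obtain ⟨⟨f, hf⟩, -⟩ := (J_iff _).1 h
    obtain ⟨A, hA, -⟩ := exists_conv (fun _ => false) f
    exact hA (II_sub (hf _) (subset_univ _))
  · ext z
    constructor
    · rintro ⟨A, hA, hc⟩
      by_contra hz
      refine hA ((J_iff _).2 ⟨U_conv hc, fun w hw => II_conv_ne hc ?_ _⟩)
      rintro rfl
      exact hz hw
    · intro hz
      obtain ⟨A, hA, hc⟩ := exists_conv z (rho (ch z))
      exact ⟨A, fun h => hA (((J_iff _).1 h).2 z hz), hc⟩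

end Pool.Agent.H24.SelfIdeal
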