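import Mathlib
import Pool.Agent.H24.AlgDefs

set_option autoImplicit false
open FirstOrder FirstOrder.Language

namespace Pool.Agent.H24.Sg

/-- The only function symbol of the language of semigroups: a binary product. -/
inductive SgFn : ℕ → Type
  | mul : SgFn 2

/-- The language of semigroups. -/
def sgLang : FirstOrder.Language.{0, 0} := ⟨SgFn, fun _ => Empty⟩

/-- A type with a product as a structure for the language of semigroups. -/
@[reducible] def sgStr (S : Type) [Mul S] : sgLang.Structure S where
  funMap := fun {_} f x => match f, x with
    | SgFn.mul, x => x 0 * x 1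
  RelMap := fun r _ => Empty.elim r

/-- Tuples of the semigroup `S` with the same type are related by an automorphism. -/
def SgHomog (S : Type) [Semigroup S] : Prop :=
  ∀ (k : ℕ) (u v : Fin k → S),
    (∀ φ : sgLang.Formula (Fin k), @Formula.Realize sgLang S (sgStr S) (Fin k) φ u ↔
      @Formula.Realize sgLang S (sgStr S) (Fin k) φ v) →
    ∃ σ : S ≃* S, ∀ i, σ (u i) = v i

/-- Tuples of the field `P` with the same type in the language of rings are related by an
automorphism. -/
def FieldHomog (P : Type) [Field P] : Prop :=
  ∀ (k : ℕ) (u v : Fin k → P),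
    (∀ φ : Language.ring.Formula (Fin k),
      @Formula.Realize Language.ring P (Ring.compatibleRingOfRing P).toStructure (Fin k) φ u ↔
        @Formula.Realize Language.ring P (Ring.compatibleRingOfRing P).toStructure (Fin k) φ v) →
    ∃ σ : P ≃+* P, ∀ i, σ (u i) = v i

/-- Tuples of the `P`-algebra `A` with the same type in the language of `P`-algebras are related
by a `P`-linear multiplicative bijection. -/
def AlgHomog (P A : Type) [Field P] [NonUnitalRing A] [Module P A] : Prop :=
  ∀ (k : ℕ) (u v : Fin k → A), Alg.TypeEq P (· * ·) (· * ·) u v →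
    ∃ σ : A ≃ₗ[P] A, (∀ a b, σ (a * b) = σ a * σ b) ∧ ∀ i, σ (u i) = v i

end Pool.Agent.H24.Sg
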