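import Mathlib
import Pool.Agent.H24.SgDefs
import Pool.Agent.H24.AlgFO

set_option autoImplicit false
open FirstOrder FirstOrder.Language MonoidAlgebra

namespace Pool.Agent.H24.Sg
open Pool.Agent.H24.Alg

theorem ext_perm {S K ι : Type} (κ : S → K) (u v : ι → S) (F : Finset ι)
    (h1 : ∀ i ∈ F, ∀ j ∈ F, u i = u j ↔ v i = v j) (h2 : ∀ i ∈ F, κ (u i) = κ (v i)) :
    ∃ π : Equiv.Perm S, (∀ s, κ (π s) = κ s) ∧ ∀ i ∈ F, π (u i) = v i := by
  classical
  induction F using Finset.induction_on with
  | empty => exact ⟨1, fun _ => rfl, by simp⟩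
  | insert a F ha ih =>
    obtain ⟨π, hπ, hu⟩ := ih (fun i hi j hj => h1 i (by simp [hi]) j (by simp [hj]))
      (fun i hi => h2 i (by simp [hi]))
    have hk : κ (π (u a)) = κ (v a) := by rw [hπ, h2 a (by simp)]
    refine ⟨Equiv.swap (π (u a)) (v a) * π, fun s => ?_, fun i hi => ?_⟩
    · rw [Equiv.Perm.mul_apply, Equiv.swap_apply_def]
      split_ifs with h h'
      · rw [← hk, ← h, hπ]
      · rw [hk, ← h', hπ]
      · exact hπ s
    · rw [Equiv.Perm.mul_apply]
      rcases Finset.mem_insert.1 hi with rfl | hi'
      · simp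
      · have h3 := h1 i hi a (by simp)
        by_cases h : u i = u a
        · rw [h, h3.1 h]; simp
        · rw [Equiv.swap_apply_of_ne_of_ne (fun e => h (π.injective e))
            (by rw [hu i hi']; exact fun e => h (h3.2 e)), hu i hi']

inductive S (X Y : Type) : Type
  | th | e1 | e2
  | a (x : X)
  | b (y : Y)

variable {X Y X' Y' : Type}

def S.mul : S X Y → S X Y → S X Y
  | .e2, s => s
  | .e1, .e1 => .e1
  | .e1, .e2 => .e1
  | .e1, .a x => .a x
  | _, _ => .th

instance : Semigroup (S X Y) where
  mul := S.mul
  mul_assoc := by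
    intro a b c
    cases a <;> cases b <;> cases c <;> rfl

theorem mul_def' (s t : S X Y) : s * t = S.mul s t := rfl

def kind : S X Y → Fin 5
  | .th => 0
  | .e1 => 1
  | .e2 => 2
  | .a _ => 3
  | .b _ => 4

theorem kind_mul (π : S X Y → S X' Y') (h : ∀ s, kind (π s) = kind s) (s t : S X Y) :
    π (s * t) = π s * π t := by
  have h0 : π .th = .th := by
    have := h .th; revert this; cases π .th <;> simp [kind]
  have h1 : π .e1 = .e1 := by
    have := h .e1; revert this; cases π .e1 <;> simp [kind]
  have h2 : π .e2 = .e2 := by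
    have := h .e2; revert this; cases π .e2 <;> simp [kind]
  have h3 : ∀ x, ∃ x', π (.a x) = .a x' := by
    intro x; have := h (.a x); revert this; cases π (.a x) <;> simp [kind]
  have h4 : ∀ x, ∃ x', π (.b x) = .b x' := by
    intro x; have := h (.b x); revert this; cases π (.b x) <;> simp [kind]
  choose f hf using h3
  choose g hg using h4
  cases s <;> cases t <;> simp only [mul_def', S.mul, h0, h1, h2, hf, hg]

def tm {α : Type} (s t : sgLang.Term α) : sgLang.Term α :=
  Functions.apply₂ (L := sgLang) SgFn.mul s t

attribute [local instance] sgStr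

@[simp] theorem realize_tm {α T : Type} [Mul T] (s t : sgLang.Term α) (v : α → T) :
    (tm s t).realize v = s.realize v * t.realize v := by
  rw [tm, Term.realize_functions_apply₂]; rfl

theorem sgHomog : SgHomog (S X Y) := by
  intro k u v h
  have hk : ∀ i, kind (u i) = kind (v i) := by
    intro i
    have a1 : (∀ y, u i * y = u i) ↔ (∀ y, v i * y = v i) := by
      simpa [Formula.Realize, Fin.snoc] using
        h (∀' (tm (Term.var (Sum.inl i)) &0 =' Term.var (Sum.inl i)))
    have a2 : (∀ y, u i * y = y) ↔ (∀ y, v i * y = y) := by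
      simpa [Formula.Realize, Fin.snoc] using
        h (∀' (tm (Term.var (Sum.inl i)) &0 =' &0))
    have a3 : (u i * u i = u i) ↔ (v i * v i = v i) := by
      simpa using h ((tm (Term.var i) (Term.var i)).equal (Term.var i))
    have a4 : (∃ e, ¬ (∀ y, e * y = y) ∧ e * u i = u i) ↔
        (∃ e, ¬ (∀ y, e * y = y) ∧ e * v i = v i) := by
      simpa [Formula.Realize, Fin.snoc] using
        h (∃' (∼(∀' (tm &0 &1 =' &1)) ⊓ (tm &0 (Term.var (Sum.inl i)) =' Term.var (Sum.inl i))))
    have b1 : ∀ s : S X Y, (∀ y, s * y = s) ↔ kind s = 0 := by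
      intro s
      constructor
      · intro h; have := h .th; revert this; cases s <;> simp [mul_def', S.mul, kind]
      · intro h y; revert h; cases s <;> simp [mul_def', S.mul, kind]
    have b2 : ∀ s : S X Y, (∀ y, s * y = y) ↔ kind s = 2 := by
      intro s
      constructor
      · intro h; have := h .e2; revert this; cases s <;> simp [mul_def', S.mul, kind]
      · intro h y; revert h; cases s <;> simp [mul_def', S.mul, kind]
    have b3 : ∀ s : S X Y, (s * s = s) ↔ kind s ≤ 2 := by
      intro s; cases s <;> simp [mul_def', S.mul, kind]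
    have b4 : ∀ s : S X Y, (∃ e, ¬ (∀ y, e * y = y) ∧ e * s = s) ↔
        (kind s = 0 ∨ kind s = 1 ∨ kind s = 3) := by
      intro s
      simp only [b2]
      constructor
      · rintro ⟨e, h1, h2⟩
        revert h1 h2
        cases e <;> cases s <;> simp [mul_def', S.mul, kind]
      · intro h
        refine ⟨.e1, by simp [kind], ?_⟩
        revert h; cases s <;> simp [mul_def', S.mul, kind]
    rw [b1, b1] at a1
    rw [b2, b2] at a2
    rw [b3, b3] at a3
    rw [b4, b4] at a4
    revert a1 a2 a3 a4
    generalize kind (u i) = p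
    generalize kind (v i) = q
    revert p q
    decide
  obtain ⟨π, h1, h2⟩ := ext_perm kind u v Finset.univ
    (fun i _ j _ => by simpa using h ((Term.var i).equal (Term.var j))) (fun i _ => hk i)
  exact ⟨{ π with map_mul' := kind_mul π h1 }, fun i => h2 i (Finset.mem_univ _)⟩

theorem fieldHomog : FieldHomog (ZMod 2) := by
  intro k u v h
  refine ⟨RingEquiv.refl _, fun i => ?_⟩
  letI := Ring.compatibleRingOfRing (ZMod 2)
  have := h ((Term.var i).equal 0)
  simp only [Formula.realize_equal, Term.realize_var, Ring.realize_zero] at this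
  change u i = v i
  revert this
  generalize u i = p
  generalize v i = q
  revert p q
  decide

abbrev P : Type := ZMod 2
abbrev A (X Y : Type) : Type := MonoidAlgebra P (S X Y)

noncomputable def mp (π : S X Y → S X' Y') (h : ∀ s, kind (π s) = kind s) :
    A X Y →ₙₐ[P] A X' Y' :=
  mapDomainNonUnitalAlgHom P P ⟨π, kind_mul π h⟩

theorem mp_apply (π : S X Y → S X' Y') (h : ∀ s, kind (π s) = kind s) (z : A X Y) :
    mp π h z = mapDomain π z := rfl

theorem md_comp {α β γ : Type} (f : α → β) (g : β → γ) (z : MonoidAlgebra P α) :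
    mapDomain g (mapDomain f z) = mapDomain (g ∘ f) z := by
  ext1
  simp [Finsupp.mapDomain_comp]

theorem md_congr {α β : Type} (f g : α → β) (z : MonoidAlgebra P α)
    (h : ∀ s ∈ z.coeff.support, f s = g s) : mapDomain f z = mapDomain g z := by
  ext1
  simp only [coeff_mapDomain]
  rw [Finsupp.mapDomain_congr h]

theorem md_id {α : Type} (z : MonoidAlgebra P α) : mapDomain id z = z := by
  ext1
  simp

noncomputable def mkE {B : Type} [NonUnitalRing B] [Module P B] (f g : B →ₙₐ[P] B)
    (h1 : ∀ z, g (f z) = z) (h2 : ∀ z, f (g z) = z) : B ≃ₗ[P] B where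
  toFun := f
  invFun := g
  left_inv := h1
  right_inv := h2
  map_add' := map_add f
  map_smul' := map_smul f

abbrev R : Type := ℝ

instance : Nonempty (S X Y) := ⟨.th⟩

def inc : S ℕ R → S R R
  | .th => .th
  | .e1 => .e1
  | .e2 => .e2
  | .a n => .a (n : ℝ)
  | .b y => .b y

theorem inc_kind (s : S ℕ R) : kind (inc s) = kind s := by cases s <;> rfl

theorem inc_inj : Function.Injective inc := by
  intro s t h
  cases s <;> cases t <;> simp_all [inc]

theorem move (F : Finset (S R R)) : ∃ π : Equiv.Perm (S R R), (∀ s, kind (π s) = kind s) ∧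
    (∀ s ∈ F, π s ∈ Set.range inc) ∧ ∀ s ∈ F, s ∈ Set.range inc → π s = s := by
  classical
  obtain ⟨e, he⟩ := Set.countable_iff_exists_injOn.1 F.countable_toSet
  have hfin : (Set.preimage (fun n => inc (.a n)) (F : Set (S R R))).Finite :=
    F.finite_toSet.preimage (fun x _ y _ h => by simpa [inc] using h)
  obtain ⟨N, hN⟩ := hfin.bddAbove
  have hN' : ∀ n, inc (.a (N + 1 + n)) ∉ F := fun n hn => by
    have := hN (show N + 1 + n ∈ Set.preimage _ _ from hn)
    omega
  let v : S R R → S R R := fun s => if s ∈ Set.range inc then s else inc (.a (N + 1 + e s))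
  obtain ⟨π, h1, h2⟩ := ext_perm kind id v F (by
    intro i hi j hj
    refine ⟨fun h => by rw [show i = j from h], fun h => ?_⟩
    simp only [v] at h
    split_ifs at h with a b b
    · exact h
    · exact absurd (h ▸ hi) (hN' _)
    · exact absurd (h ▸ hj) (hN' _)
    · have := inc_inj h
      simp only [S.a.injEq, add_right_inj] at this
      exact he hi hj this) (by
    intro i hi
    simp only [v]
    split_ifs with a
    · rfl
    · cases i with
      | th => exact absurd ⟨.th, rfl⟩ a
      | e1 => exact absurd ⟨.e1, rfl⟩ a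
      | e2 => exact absurd ⟨.e2, rfl⟩ a
      | a x => rfl
      | b y => exact absurd ⟨.b y, rfl⟩ a)
  refine ⟨π, h1, fun s hs => ?_, fun s hs h => ?_⟩
  · have := h2 s hs
    simp only [id, v] at this
    rw [this]
    split_ifs with a
    · exact a
    · exact ⟨_, rfl⟩
  · have := h2 s hs
    simp only [id, v, if_pos h] at this
    exact this

noncomputable def incE : @Language.Embedding (algLang P) (A ℕ R) (A R R)
    (algStr P (A ℕ R) (· * ·)) (algStr P (A R R) (· * ·)) :=
  @Language.Embedding.mk (algLang P) (A ℕ R) (A R R)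
    (algStr P (A ℕ R) (· * ·)) (algStr P (A R R) (· * ·))
    ⟨mp inc inc_kind, mapDomain_injective inc_inj⟩ (by
      intro n f x
      cases f with
      | add => exact map_add (mp inc inc_kind) _ _
      | neg => exact map_neg (mp inc inc_kind) _
      | zero => exact map_zero (mp inc inc_kind)
      | mul => exact map_mul (mp inc inc_kind) _ _
      | smul c => exact map_smul (mp inc inc_kind) c _) (fun r => (alg_rel P _).elim r)

theorem elem {k : ℕ} (x : Fin k → A ℕ R) :
    TypeEq P (· * ·) (· * ·) (fun i => mapDomain inc (x i)) x := by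
  classical
  letI := algStr P (A ℕ R) (· * ·)
  letI := algStr P (A R R) (· * ·)
  let f : (algLang P).Embedding (A ℕ R) (A R R) := incE
  intro φ
  refine f.isElementary_of_exists ?_ φ x
  intro n ψ y a ha
  obtain ⟨π, h1, h2, h3⟩ := move
    (a.coeff.support ∪ Finset.univ.biUnion fun i => (y i).coeff.support.image inc)
  have h1' : ∀ s, kind (π.symm s) = kind s := fun s => by rw [← h1, π.apply_symm_apply]
  let E : A R R ≃ₗ[P] A R R := mkE (mp π h1) (mp π.symm h1')
    (fun z => by simp only [mp_apply, md_comp]; simpa using md_id z)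
    (fun z => by simp only [mp_apply, md_comp]; simpa using md_id z)
  let E' := mkEquiv (K := P) (· * ·) (· * ·) E (map_mul (mp π h1))
  have hE : ∀ z, E' z = mapDomain π z := fun z => rfl
  let g : S R R → S ℕ R := Function.invFun inc
  refine ⟨mapDomain (g ∘ π) a, ?_⟩
  have := (StrongHomClass.realize_boundedFormula E' ψ).2 ha
  rw [Fin.comp_snoc] at this
  have e1 : ∀ (d d' : Empty → A R R) (xs : Fin (n + 1) → A R R),
      ψ.Realize d xs → ψ.Realize d' xs := fun d d' xs h => by
    rwa [show d' = d from funext fun e => e.elim]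
  have e2 : (E' ∘ f ∘ y) = f ∘ y := by
    symm
    funext i
    change mapDomain inc (y i) = mapDomain π (mapDomain inc (y i))
    rw [md_comp]
    refine md_congr _ _ _ fun s hs => (h3 _ ?_ ⟨s, rfl⟩).symm
    simp only [Finset.mem_union, Finset.mem_biUnion, Finset.mem_univ, true_and]
    exact Or.inr ⟨i, Finset.mem_image_of_mem _ hs⟩
  have e3 : E' a = f (mapDomain (g ∘ π) a) := by
    symm
    change mapDomain inc _ = mapDomain π a
    rw [md_comp]
    refine md_congr _ _ _ fun s hs => ?_
    exact Function.invFun_eq (h2 s (Finset.mem_union_left _ hs))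
  rw [e2, e3] at this
  exact e1 _ _ _ this

noncomputable def uu (X Y : Type) : A X Y := single .th 1 + single .e2 1 - single .e1 1

noncomputable def swF : S X X → A X X
  | .th => single .th 1
  | .e1 => uu X X
  | .e2 => single .e2 1
  | .a n => single (.b n) 1
  | .b y => single (.a y) 1

noncomputable def sw : A X X →ₙₐ[P] A X X :=
  liftMagma P ⟨swF, by
    intro s t
    cases s <;> cases t <;>
      simp only [mul_def', S.mul, swF, uu, mul_add, add_mul, mul_sub, sub_mul,
        single_mul_single, mul_one] <;> abel⟩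

theorem sw_single (s : S X X) : sw (single s 1) = swF s := by
  simp [sw]

theorem sw_sw (z : A X X) : sw (sw z) = z := by
  have : (sw (X := X)).comp sw = NonUnitalAlgHom.id P _ := by
    apply nonUnitalAlgHom_ext
    intro s
    change sw (sw _) = single s 1
    cases s <;> simp only [sw_single, swF, uu, map_add, map_sub]
    abel
  exact DFunLike.congr_fun this z

theorem same : TypeEq P (· * ·) (· * ·) ![(single .e1 1 : A ℕ R)] ![uu ℕ R] := by
  intro φ
  rw [← elem ![(single .e1 1 : A ℕ R)] φ, ← elem ![uu ℕ R] φ]
  refine typeEq_of_equiv (K := P) (· * ·) (· * ·) (mkE sw sw sw_sw sw_sw) (map_mul sw) _ _ ?_ φ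
  intro i
  obtain rfl : i = 0 := Subsingleton.elim _ _
  change sw (mp inc inc_kind (single .e1 1)) = mp inc inc_kind (uu ℕ R)
  simp only [uu, map_add, map_sub, mp_apply, mapDomain_single, inc, sw_single, swF]

def rr : S ℕ R → Option (Option ℕ)
  | .e1 => some none
  | .e2 => some none
  | .a n => some (some n)
  | _ => none

def ss : Option (Option ℕ) → S ℕ R
  | none => .th
  | some none => .e1
  | some (some n) => .a n

theorem not_algHomog : ¬ AlgHomog P (A ℕ R) := by
  intro h
  obtain ⟨σ, h1, h2⟩ := h 1 _ _ same
  have h3 : σ (single .e1 1) = uu ℕ R := h2 0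
  have h4 : ∀ z : A ℕ R, single .e1 1 * z = mapDomain ss (mapDomain rr z) := by
    intro z
    induction z using MonoidAlgebra.induction_linear with
    | zero => simp
    | add f g hf hg => rw [mul_add, hf, hg, mapDomain_add, mapDomain_add]
    | single s c =>
      rw [single_mul_single, mapDomain_single, mapDomain_single, one_mul]
      cases s <;> rfl
  have h5 : ∀ y : R, σ (mapDomain ss (mapDomain rr (σ.symm (single (.b y) 1)))) =
      single (.b y) 1 := by
    intro y
    rw [← h4, h1, h3, σ.apply_symm_apply]
    simp only [mul_def', S.mul, uu, add_mul, sub_mul, single_mul_single, mul_one]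
    abel
  have hinj : Function.Injective
      (fun y : R => (mapDomain rr (σ.symm (single (.b y) 1))).coeff) := by
    intro y y' hy
    have h6 := h5 y
    rw [coeff_injective hy, h5] at h6
    have h7 := congrArg MonoidAlgebra.coeff h6
    simp only [coeff_single] at h7
    have := Finsupp.single_left_injective (one_ne_zero (α := P)) h7
    simpa using this.symm
  have : Countable R := hinj.countable
  exact not_countable (α := ℝ) this

end Pool.Agent.H24.Sg
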