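import Mathlib

set_option autoImplicit false

namespace Pool.Agent.H24.Strip

/-- common strip partition -/
def CSP (y : List ℕ × List ℕ) : Prop :=
  ∃ B C : List (List ℕ), B.flatten = y.1 ∧ C.flatten = y.2 ∧ (∀ b ∈ B, 2 ≤ b.length) ∧
    (∀ c ∈ C, 2 ≤ c.length) ∧ B.Perm C

inductive Part : List ℕ → List (List ℕ) → Prop
  | nil : Part [] []
  | two {x y l B} : Part l B → Part (x :: y :: l) ([x, y] :: B)
  | three {x y z l B} : Part l B → Part (x :: y :: z :: l) ([x, y, z] :: B)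

def sp : List ℕ → List (List ℕ)
  | x :: y :: z :: w :: l => [x, y] :: sp (z :: w :: l)
  | l => [l]

theorem part_sp : ∀ (b : List ℕ), 2 ≤ b.length → ∀ {l B}, Part l B → Part (b ++ l) (sp b ++ B)
  | [], h, _, _, _ => by simp at h
  | [_], h, _, _, _ => by simp at h
  | [_, _], _, _, _, k => .two k
  | [_, _, _], _, _, _, k => .three k
  | _ :: _ :: z :: w :: l, _, _, _, k => .two (part_sp (z :: w :: l) (by simp) k)

theorem part_flat (B : List (List ℕ)) (h : ∀ b ∈ B, 2 ≤ b.length) :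
    Part B.flatten (B.flatMap sp) := by
  induction B with
  | nil => exact .nil
  | cons b B ih => exact part_sp b (h b (by simp)) (ih fun c hc => h c (by simp [hc]))

theorem CSP.norm {y : List ℕ × List ℕ} (h : CSP y) : ∃ B C, Part y.1 B ∧ Part y.2 C ∧ B.Perm C := by
  obtain ⟨B, C, h1, h2, h3, h4, h5⟩ := h
  exact ⟨_, _, h1 ▸ part_flat B h3, h2 ▸ part_flat C h4, h5.flatMap_right _⟩

def W (A : List (List ℕ)) : List ℕ → Prop
  | x :: y :: z :: l => [x, y] ∈ A ∧ [x, y, z] ∈ A ∧ W A (y :: z :: l)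
  | [x, y] => [x, y] ∈ A
  | _ => True

theorem W.tail {A : List (List ℕ)} : ∀ {x : ℕ} {l : List ℕ}, W A (x :: l) → W A l
  | _, [], _ => trivial
  | _, [_], _ => trivial
  | _, _ :: _ :: _, h => h.2.2

theorem Part.ok {A : List (List ℕ)} {l B} (h : Part l B) (w : W A (l.map (· % 6))) :
    ∀ b ∈ B, b.map (· % 6) ∈ A := by
  induction h with
  | nil => simp
  | @two x y l B _ ih =>
    simp only [List.forall_mem_cons]
    refine ⟨?_, ih w.tail.tail⟩
    cases l with
    | nil => exact w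
    | cons => exact w.1
  | three _ ih =>
    simp only [List.forall_mem_cons]
    exact ⟨w.2.1, ih w.tail.tail.tail⟩

def av (x : ℕ) : ℕ := 6 * x + 3
def body (e : ℕ → ℕ → ℕ) (js : List ℕ) : List ℕ := js.flatMap fun j => [e j 0, e j 1, e j 2, e j 3]
def fA (e : ℕ → ℕ → ℕ) (js : List ℕ) : List (List ℕ) :=
  js.flatMap fun j => [[e j 0, e j 1], [e j 2, e j 3]]
def fB (e : ℕ → ℕ → ℕ) : List ℕ → List ℕ → List (List ℕ)
  | pre, [] => [pre ++ [2, 2]]
  | pre, j :: js => (pre ++ [e j 0]) :: [e j 1, e j 2] :: fB e [e j 3] js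
def seg (e : ℕ → ℕ → ℕ) (s t x : ℕ) (js : List ℕ) : List ℕ :=
  [s, s, av x, av x] ++ (body e js ++ [2, 2, t, t])
def opt (e : ℕ → ℕ → ℕ) (s t x : ℕ) (js : List ℕ) (o : Bool) : List (List ℕ) :=
  [s, s] :: ((bif o then [av x, av x] :: (fA e js ++ [[2, 2]]) else fB e [av x, av x] js) ++ [[t, t]])

theorem fA_flat (e : ℕ → ℕ → ℕ) (js : List ℕ) : (fA e js).flatten = body e js := by
  induction js with
  | nil => rfl
  | cons j js ih => simp [fA, body] at ih ⊢; exact ih

theorem fB_flat (e : ℕ → ℕ → ℕ) (js pre : List ℕ) :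
    (fB e pre js).flatten = pre ++ (body e js ++ [2, 2]) := by
  induction js generalizing pre with
  | nil => simp [fB, body]
  | cons j js ih => simp [fB, ih, body]

theorem opt_flat (e : ℕ → ℕ → ℕ) (s t x : ℕ) (js : List ℕ) (o : Bool) :
    (opt e s t x js o).flatten = seg e s t x js := by
  cases o <;> simp [opt, seg, fA_flat, fB_flat]

theorem opt_len (e : ℕ → ℕ → ℕ) (s t x : ℕ) (js : List ℕ) (o : Bool) :
    ∀ b ∈ opt e s t x js o, 2 ≤ b.length := by
  have k : ∀ pre : List ℕ, 1 ≤ pre.length → ∀ b ∈ fB e pre js, 2 ≤ b.length := by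
    induction js with
    | nil => simp [fB]
    | cons j js ih =>
      intro pre h
      simp only [fB, List.forall_mem_cons]
      exact ⟨by simpa using h, by simp, ih _ (by simp)⟩
  have k' : ∀ b ∈ fA e js, 2 ≤ b.length := by
    simp only [fA, List.mem_flatMap]
    rintro b ⟨j, -, h⟩
    simp only [List.mem_cons, List.not_mem_nil, or_false] at h
    rcases h with rfl | rfl <;> simp
  have := k [av x, av x] (by simp)
  cases o <;> simp only [opt, cond, List.forall_mem_cons, List.forall_mem_append, List.cons_append]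
  · exact ⟨by simp, this, by simp⟩
  · exact ⟨by simp, by simp, ⟨k', by simp⟩, by simp⟩

structure Hyp (ok : List ℕ → Prop) (e : ℕ → ℕ → ℕ) (g : ℕ × Bool → ℕ × ℕ) (s t : ℕ) : Prop where
  h1 : ∀ j, ¬ ok [e j 0, e j 1, e j 2]
  h2 : ∀ j i, ¬ ok [e j 2, e j 3, e i 0]
  h3 : ∀ j, ¬ ok [e j 2, e j 3, 2]
  h4 : ∀ j i, ¬ ok [e j 3, e i 0, e i 1]
  h5 : ∀ j, ¬ ok [e j 1, e j 2, e j 3]
  h6 : ¬ ok [2, t]
  h7 : ¬ ok [2, t, t]
  h8 : ¬ ok [2, 2, t]
  h9 : ¬ ok [t, t, s]
  h10 : ∀ x, ¬ ok [s, s, av x]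
  h11 : ∀ u, ¬ ok [s, s, (g u).1]
  h12 : ∀ u, ¬ ok [(g u).1, (g u).2, t]

section
variable {ok : List ℕ → Prop} {e : ℕ → ℕ → ℕ} {g : ℕ × Bool → ℕ × ℕ} {s t : ℕ}

theorem inv2 {x y : ℕ} {l B} (h : Part (x :: y :: l) B) (o : ∀ b ∈ B, ok b)
    (n : ∀ z ∈ l.head?, ¬ ok [x, y, z]) : ∃ B', B = [x, y] :: B' ∧ Part l B' ∧ ∀ b ∈ B', ok b := by
  cases h with
  | two h => exact ⟨_, rfl, h, fun b hb => o b (by simp [hb])⟩
  | three h => exact (n _ rfl (o _ List.mem_cons_self)).elim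

theorem invt (H : Hyp ok e g s t) {l B} (h : Part (2 :: t :: t :: l) B) (o : ∀ b ∈ B, ok b) :
    False := by
  cases h with
  | two h => exact H.h6 (o _ (by simp))
  | three h => exact H.h7 (o _ (by simp))

theorem invA (H : Hyp ok e g s t) {r : List ℕ} (hr : ∀ z ∈ r.head?, z = s) (js : List ℕ) {B}
    (h : Part (body e js ++ 2 :: 2 :: t :: t :: r) B) (o : ∀ b ∈ B, ok b) :
    ∃ B', B = fA e js ++ [2, 2] :: [t, t] :: B' ∧ Part r B' ∧ ∀ b ∈ B', ok b := by
  induction js generalizing B with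
  | nil =>
    obtain ⟨B, rfl, h, o⟩ := inv2 h o (by simpa using H.h8)
    obtain ⟨B, rfl, h, o⟩ := inv2 h o (fun z hz => hr z hz ▸ H.h9)
    exact ⟨B, rfl, h, o⟩
  | cons j js ih =>
    obtain ⟨B, rfl, h, o⟩ := inv2 h o (by simpa using H.h1 j)
    obtain ⟨B, rfl, h, o⟩ := inv2 h o (by
      cases js with
      | nil => simpa using H.h3 j
      | cons i js => simpa using H.h2 j i)
    obtain ⟨B, rfl, h, o⟩ := ih h o
    exact ⟨B, rfl, h, o⟩

theorem invB (H : Hyp ok e g s t) {r : List ℕ} (hr : ∀ z ∈ r.head?, z = s) (js : List ℕ) {B} (i : ℕ)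
    (h : Part (e i 3 :: (body e js ++ 2 :: 2 :: t :: t :: r)) B) (o : ∀ b ∈ B, ok b) :
    ∃ B', B = fB e [e i 3] js ++ [t, t] :: B' ∧ Part r B' ∧ ∀ b ∈ B', ok b := by
  induction js generalizing B i with
  | nil =>
    change Part (e i 3 :: 2 :: 2 :: t :: t :: r) B at h
    cases h with
    | two h => exact (invt H h fun b hb => o b (by simp [hb])).elim
    | three h =>
      obtain ⟨B, rfl, h, o⟩ := inv2 h (fun b hb => o b (by simp [hb])) (fun z hz => hr z hz ▸ H.h9)
      exact ⟨B, rfl, h, o⟩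
  | cons j js ih =>
    obtain ⟨B, rfl, h, o⟩ := inv2 h o (by simpa using H.h4 i j)
    obtain ⟨B, rfl, h, o⟩ := inv2 h o (by simpa using H.h5 j)
    obtain ⟨B, rfl, h, o⟩ := ih _ h o
    exact ⟨B, rfl, h, o⟩

theorem invS (H : Hyp ok e g s t) {r : List ℕ} (hr : ∀ z ∈ r.head?, z = s) (x : ℕ) (js : List ℕ) {B}
    (h : Part (seg e s t x js ++ r) B) (o : ∀ b ∈ B, ok b) :
    ∃ c B', B = opt e s t x js c ++ B' ∧ Part r B' ∧ ∀ b ∈ B', ok b := by
  have e1 : seg e s t x js ++ r = s :: s :: av x :: av x :: (body e js ++ 2 :: 2 :: t :: t :: r) := by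
    simp [seg]
  rw [e1] at h
  obtain ⟨B, rfl, h1, o1⟩ := inv2 h o (by simpa using H.h10 x)
  clear h o
  have o' : ∀ b ∈ B.tail, ok b := fun b hb => o1 b (List.mem_of_mem_tail hb)
  cases js with
  | nil =>
    change Part (av x :: av x :: 2 :: 2 :: t :: t :: r) B at h1
    cases h1 with
    | three h => exact (invt H h o').elim
    | two h =>
      obtain ⟨B, rfl, h, o⟩ := invA H hr [] h o'
      exact ⟨true, B, by simp [opt], h, o⟩
  | cons j js =>
    change Part (av x :: av x :: e j 0 :: e j 1 :: e j 2 :: e j 3 ::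
      (body e js ++ 2 :: 2 :: t :: t :: r)) B at h1
    cases h1 with
    | two h =>
      obtain ⟨B, rfl, h, o⟩ := invA H hr (j :: js) h o'
      exact ⟨true, B, by simp [opt], h, o⟩
    | three h =>
      obtain ⟨B, rfl, h, o⟩ := inv2 h o' (by simpa using H.h5 j)
      obtain ⟨B, rfl, h, o⟩ := invB H hr js j h o
      exact ⟨false, B, by simp [opt, fB], h, o⟩

def fixS (g : ℕ × Bool → ℕ × ℕ) (s t : ℕ) (F : List (ℕ × Bool)) : List ℕ :=
  F.flatMap fun u => [s, s, (g u).1, (g u).2, t, t]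
def fixB (g : ℕ × Bool → ℕ × ℕ) (s t : ℕ) (F : List (ℕ × Bool)) : List (List ℕ) :=
  F.flatMap fun u => [[s, s], [(g u).1, (g u).2], [t, t]]

theorem fix_head (F : List (ℕ × Bool)) : ∀ z ∈ (fixS g s t F).head?, z = s := by
  cases F <;> simp [fixS]

theorem invF (H : Hyp ok e g s t) (F : List (ℕ × Bool)) {B} (h : Part (fixS g s t F) B)
    (o : ∀ b ∈ B, ok b) : B = fixB g s t F := by
  induction F generalizing B with
  | nil => cases h; rfl
  | cons u F ih =>
    obtain ⟨B, rfl, h, o⟩ := inv2 h o (by simpa using H.h11 u)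
    obtain ⟨B, rfl, h, o⟩ := inv2 h o (by simpa using H.h12 u)
    obtain ⟨B, rfl, h, o⟩ := inv2 h o (fun z hz => fix_head F z hz ▸ H.h9)
    rw [ih h o]
    rfl

def str (e : ℕ → ℕ → ℕ) (g : ℕ × Bool → ℕ × ℕ) (s t : ℕ) (js : ℕ → List ℕ) (F : List (ℕ × Bool))
    (xs : List ℕ) : List ℕ := (xs.flatMap fun x => seg e s t x (js x)) ++ fixS g s t F
def blk (e : ℕ → ℕ → ℕ) (g : ℕ × Bool → ℕ × ℕ) (s t : ℕ) (js : ℕ → List ℕ) (F : List (ℕ × Bool))
    (xs : List ℕ) (σ : ℕ → Bool) : List (List ℕ) :=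
  (xs.flatMap fun x => opt e s t x (js x) (σ x)) ++ fixB g s t F

theorem inv (H : Hyp ok e g s t) (js : ℕ → List ℕ) (F : List (ℕ × Bool)) (xs : List ℕ)
    (hx : xs.Nodup) {B} (h : Part (str e g s t js F xs) B) (o : ∀ b ∈ B, ok b) :
    ∃ σ, B = blk e g s t js F xs σ := by
  induction xs generalizing B with
  | nil => exact ⟨fun _ => true, invF H F h o⟩
  | cons x xs ih =>
    rw [str, List.flatMap_cons, List.append_assoc] at h
    obtain ⟨c, B, rfl, h, o⟩ := invS H (by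
      cases xs with
      | nil => exact fix_head F
      | cons => simp [seg]) x (js x) h o
    obtain ⟨σ, rfl⟩ := ih (List.nodup_cons.1 hx).2 h o
    refine ⟨Function.update σ x c, ?_⟩
    simp only [blk, List.flatMap_cons, Function.update_self, List.append_assoc]
    congr 2
    refine List.flatMap_congr fun y hy => ?_
    rw [Function.update_of_ne]
    rintro rfl
    exact (List.nodup_cons.1 hx).1 hy

theorem blk_flat (js : ℕ → List ℕ) (F : List (ℕ × Bool)) (xs : List ℕ) (σ : ℕ → Bool) :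
    (blk e g s t js F xs σ).flatten = str e g s t js F xs := by
  simp only [blk, str, List.flatten_append]
  congr 1
  · induction xs with
    | nil => rfl
    | cons x xs ih => simp [opt_flat, ih]
  · induction F with
    | nil => rfl
    | cons x xs ih => simp [fixB, fixS] at ih ⊢; exact ih

theorem blk_len (js : ℕ → List ℕ) (F : List (ℕ × Bool)) (xs : List ℕ) (σ : ℕ → Bool) :
    ∀ b ∈ blk e g s t js F xs σ, 2 ≤ b.length := by
  simp only [blk, fixB, List.mem_append, List.mem_flatMap]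
  rintro b (⟨x, -, h⟩ | ⟨u, -, h⟩)
  · exact opt_len _ _ _ _ _ _ b h
  · simp only [List.mem_cons, List.not_mem_nil, or_false] at h
    rcases h with rfl | rfl | rfl <;> simp

end

end Pool.Agent.H24.Strip
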