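import Pool.Agent.H24.Strip1
import Pool.Agent.H11.Base1

set_option autoImplicit false

namespace Pool.Agent.H24.Strip

open Pool.Agent.H11.PT

def eS (j i : ℕ) : ℕ := if i = 1 then 12 * j + 10 else if i = 3 then 12 * j + 5 else 12 * j + 4
def eT (j i : ℕ) : ℕ := if i = 0 then 12 * j + 4 else if i = 2 then 12 * j + 11 else 12 * j + 5
def gS (u : ℕ × Bool) : ℕ × ℕ :=
  bif u.2 then (12 * u.1 + 11, 12 * u.1 + 5) else (12 * u.1 + 5, 12 * u.1 + 11)
def gT (u : ℕ × Bool) : ℕ × ℕ :=
  bif u.2 then (12 * u.1 + 4, 12 * u.1 + 10) else (12 * u.1 + 10, 12 * u.1 + 4)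

def AS : List (List ℕ) := [[0,0],[0,3],[0,5],[3,3],[3,4],[4,4],[4,5],[5,4],[5,2],[2,2],[2,1],[5,5],
  [5,1],[1,1],[1,0],[3,2],[0,0,3],[0,0,5],[0,3,3],[0,5,5],[3,3,4],[3,3,2],[3,4,4],[4,4,4],[4,4,5],
  [4,5,4],[5,4,4],[4,5,2],[5,2,2],[3,2,2],[2,2,1],[2,1,1],[5,5,1],[5,1,1],[1,1,0],[1,0,0]]
def AT : List (List ℕ) := [[1,1],[1,3],[1,4],[3,3],[3,4],[4,5],[5,5],[5,4],[5,2],[2,2],[2,0],[4,4],
  [4,0],[0,0],[0,1],[3,2],[1,1,3],[1,1,4],[1,3,3],[1,4,4],[3,3,4],[3,3,2],[3,4,5],[4,5,5],[5,5,5],
  [5,5,4],[5,4,5],[5,5,2],[5,2,2],[3,2,2],[2,2,0],[2,0,0],[4,4,0],[4,0,0],[0,0,1],[0,1,1]]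

@[simp] theorem av_mod (x : ℕ) : av x % 6 = 3 := by unfold av; omega
@[simp] theorem eS0 (j : ℕ) : eS j 0 % 6 = 4 := by simp [eS]; omega
@[simp] theorem eS1 (j : ℕ) : eS j 1 % 6 = 4 := by simp [eS]; omega
@[simp] theorem eS2 (j : ℕ) : eS j 2 % 6 = 4 := by simp [eS]; omega
@[simp] theorem eS3 (j : ℕ) : eS j 3 % 6 = 5 := by simp [eS]; omega
@[simp] theorem eT0 (j : ℕ) : eT j 0 % 6 = 4 := by simp [eT]; omega
@[simp] theorem eT1 (j : ℕ) : eT j 1 % 6 = 5 := by simp [eT]; omega
@[simp] theorem eT2 (j : ℕ) : eT j 2 % 6 = 5 := by simp [eT]; omega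
@[simp] theorem eT3 (j : ℕ) : eT j 3 % 6 = 5 := by simp [eT]; omega
@[simp] theorem gS1 (u : ℕ × Bool) : (gS u).1 % 6 = 5 := by
  obtain ⟨j, _ | _⟩ := u <;> simp [gS] <;> omega
@[simp] theorem gS2 (u : ℕ × Bool) : (gS u).2 % 6 = 5 := by
  obtain ⟨j, _ | _⟩ := u <;> simp [gS] <;> omega
@[simp] theorem gT1 (u : ℕ × Bool) : (gT u).1 % 6 = 4 := by
  obtain ⟨j, _ | _⟩ := u <;> simp [gT] <;> omega
@[simp] theorem gT2 (u : ℕ × Bool) : (gT u).2 % 6 = 4 := by
  obtain ⟨j, _ | _⟩ := u <;> simp [gT] <;> omega

theorem hypS : Hyp (fun b => b.map (· % 6) ∈ AT) eS gS 0 1 := by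
  constructor <;> intros <;> simp [AT]

theorem hypT : Hyp (fun b => b.map (· % 6) ∈ AS) eT gT 1 0 := by
  constructor <;> intros <;> simp [AS]

theorem wS (js : ℕ → List ℕ) (F : List (ℕ × Bool)) (xs : List ℕ) :
    W AS ((str eS gS 0 1 js F xs).map (· % 6)) := by
  suffices W AS (1 :: 1 :: (str eS gS 0 1 js F xs).map (· % 6)) from this.tail.tail
  induction xs with
  | nil =>
    induction F with
    | nil => simp [str, fixS, W, AS]
    | cons u F ih =>
      simp only [str, fixS, List.flatMap_nil, List.nil_append, List.flatMap_cons, List.map_cons,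
        List.cons_append, gS1, gS2, W] at ih ⊢
      simpa [AS] using ih
  | cons x xs ih =>
    have k : ∀ (l : List ℕ) (r : List ℕ), W AS (1 :: 1 :: r) →
        W AS (4 :: 5 :: ((body eS l).map (· % 6) ++ 2 :: 2 :: 1 :: 1 :: r)) ∧
        W AS (3 :: 3 :: ((body eS l).map (· % 6) ++ 2 :: 2 :: 1 :: 1 :: r)) := by
      intro l r h
      induction l with
      | nil => simp only [body, List.flatMap_nil, List.map_nil, List.nil_append, W]; simpa [AS] using h
      | cons j l ih =>
        simp only [body, List.flatMap_cons, List.map_cons, List.cons_append, List.nil_append,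
          eS0, eS1, eS2, eS3, W] at ih ⊢
        simpa [AS] using ih.1
    have := (k (js x) _ ih).2
    simp only [str, List.flatMap_cons, seg, List.map_append, List.map_cons, List.cons_append,
      List.nil_append, List.append_assoc, av_mod, W] at this ⊢
    simpa [AS] using this

theorem wT (js : ℕ → List ℕ) (F : List (ℕ × Bool)) (xs : List ℕ) :
    W AT ((str eT gT 1 0 js F xs).map (· % 6)) := by
  suffices W AT (0 :: 0 :: (str eT gT 1 0 js F xs).map (· % 6)) from this.tail.tail
  induction xs with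
  | nil =>
    induction F with
    | nil => simp [str, fixS, W, AT]
    | cons u F ih =>
      simp only [str, fixS, List.flatMap_nil, List.nil_append, List.flatMap_cons, List.map_cons,
        List.cons_append, gT1, gT2, W] at ih ⊢
      simpa [AT] using ih
  | cons x xs ih =>
    have k : ∀ (l : List ℕ) (r : List ℕ), W AT (0 :: 0 :: r) →
        W AT (5 :: 5 :: ((body eT l).map (· % 6) ++ 2 :: 2 :: 0 :: 0 :: r)) ∧
        W AT (3 :: 3 :: ((body eT l).map (· % 6) ++ 2 :: 2 :: 0 :: 0 :: r)) := by
      intro l r h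
      induction l with
      | nil => simp only [body, List.flatMap_nil, List.map_nil, List.nil_append, W]; simpa [AT] using h
      | cons j l ih =>
        simp only [body, List.flatMap_cons, List.map_cons, List.cons_append, List.nil_append,
          eT0, eT1, eT2, eT3, W] at ih ⊢
        simpa [AT] using ih.1
    have := (k (js x) _ ih).2
    simp only [str, List.flatMap_cons, seg, List.map_append, List.map_cons, List.cons_append,
      List.nil_append, List.append_assoc, av_mod, W] at this ⊢
    simpa [AT] using this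

theorem aa_mem {e : ℕ → ℕ → ℕ} {g : ℕ × Bool → ℕ × ℕ} {s t : ℕ} (he : ∀ j i, e j i % 6 ≠ 3)
    (hg : ∀ u, (g u).1 % 6 ≠ 3) (hs : s % 6 ≠ 3) (ht : t % 6 ≠ 3) (js : ℕ → List ℕ)
    (F : List (ℕ × Bool)) (xs : List ℕ) (σ : ℕ → Bool) (x : ℕ) :
    [av x, av x] ∈ blk e g s t js F xs σ ↔ x ∈ xs ∧ σ x = true := by
  have a : ∀ y, y % 6 ≠ 3 → av x ≠ y := fun y h e => h (e ▸ av_mod x)
  have a1 := a s hs
  have a2 := a t ht
  have a3 := a 2 (by decide)
  have a4 := fun j i => a _ (he j i)
  have a5 := fun u => a _ (hg u)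
  have b : ∀ l pre, pre.length = 2 ∨ (∃ y, av x ≠ y ∧ pre = [y]) → [av x, av x] ∉ fB e pre l := by
    intro l
    induction l with
    | nil =>
      rintro pre (h | ⟨y, h, rfl⟩)
      · simp only [fB, List.mem_singleton]
        intro k
        have := congrArg List.length k
        simp [h] at this
      · simp [fB, h]
    | cons j l ih =>
      intro pre h
      simp only [fB, List.mem_cons, not_or]
      refine ⟨?_, by simp [a4], ih _ (.inr ⟨_, a4 _ _, rfl⟩)⟩
      rcases h with h | ⟨y, h, rfl⟩
      · intro k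
        have := congrArg List.length k
        simp [h] at this
      · simp [h]
  have c : ∀ y l o, [av x, av x] ∈ opt e s t y l o ↔ x = y ∧ o = true := by
    intro y l o
    have : av x = av y ↔ x = y := by unfold av; omega
    cases o
    · simp [opt, a1, a2, b l [av y, av y] (.inl rfl)]
    · simp [opt, a1, a2, a3, fA, a4, this]
  simp [blk, c, fixB, a1, a2, a5]

def pS (u : ℕ × Bool) : List ℕ := [(gS u).1, (gS u).2]
def pT (u : ℕ × Bool) : List ℕ := [(gT u).1, (gT u).2]

theorem opt_perm (x : ℕ) (l : List ℕ) (o : Bool) :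
    ((opt eS 0 1 x l o : List (List ℕ)) : Multiset (List ℕ)) + ↑(l.map fun j => pS (j, o)) =
      ↑(opt eT 1 0 x l o) + ↑(l.map fun j => pT (j, o)) := by
  have a : ((fA eS l : List (List ℕ)) : Multiset (List ℕ)) + ↑(l.map fun j => pS (j, true)) =
      ↑(fA eT l) + ↑(l.map fun j => pT (j, true)) := by
    induction l with
    | nil => rfl
    | cons j l ih =>
      simp only [fA, List.flatMap_cons, List.map_cons, List.cons_append, List.nil_append,
        ← Multiset.cons_coe, ← Multiset.singleton_add] at ih ⊢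
      have e1 : pS (j, true) = [eT j 2, eT j 3] := rfl
      have e2 : pT (j, true) = [eS j 0, eS j 1] := rfl
      have e3 : [eS j 2, eS j 3] = [eT j 0, eT j 1] := rfl
      rw [e1, e2, e3]
      refine Multiset.ext.2 fun z => ?_
      have := congrArg (Multiset.count z) (ih)
      simp only [Multiset.count_add] at this ⊢
      omega
  have b : ∀ pre, ((fB eS pre l : List (List ℕ)) : Multiset (List ℕ)) +
      ↑(l.map fun j => pS (j, false)) = ↑(fB eT pre l) + ↑(l.map fun j => pT (j, false)) := by
    clear a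
    induction l with
    | nil => intro _; rfl
    | cons j l ih =>
      intro pre
      simp only [fB, List.map_cons, ← Multiset.cons_coe, ← Multiset.singleton_add] at ih ⊢
      have e1 : pS (j, false) = [eT j 1, eT j 2] := rfl
      have e2 : pT (j, false) = [eS j 1, eS j 2] := rfl
      have e3 : eS j 0 = eT j 0 := rfl
      have e4 : eS j 3 = eT j 3 := rfl
      rw [e1, e2, e3, e4]
      refine Multiset.ext.2 fun z => ?_
      have := congrArg (Multiset.count z) (ih [eT j 3])
      simp only [Multiset.count_add] at this ⊢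
      omega
  cases o <;> simp only [opt, cond, List.cons_append, ← Multiset.cons_coe, ← Multiset.singleton_add,
    ← Multiset.coe_add, Multiset.coe_nil]
  · refine Multiset.ext.2 fun z => ?_
    have := congrArg (Multiset.count z) (b [av x, av x])
    simp only [Multiset.count_add] at this ⊢
    omega
  · refine Multiset.ext.2 fun z => ?_
    have := congrArg (Multiset.count z) (a)
    simp only [Multiset.count_add] at this ⊢
    omega

def jsOf (sl : List (ℕ × ℕ)) (x : ℕ) : List ℕ := (sl.filter fun s => s.1 == x).map (·.2)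

theorem slots_perm (sl : List (ℕ × ℕ)) (xs : List ℕ) (hx : xs.Nodup) (h : ∀ s ∈ sl, s.1 ∈ xs) :
    (xs.flatMap fun x => sl.filter fun s => s.1 == x).Perm sl := by
  induction sl with
  | nil => simp
  | cons s sl ih =>
    have e : ∀ x, ((s :: sl).filter fun s => s.1 == x) =
        (if s.1 = x then [s] else []) ++ sl.filter fun s => s.1 == x := by
      intro x
      by_cases k : s.1 = x <;> simp [k]
    simp only [e]
    refine (List.flatMap_append_perm _ _ _).symm.trans ?_
    refine List.Perm.append (l₂ := [s]) ?_ (ih fun t ht => h t (by simp [ht]))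
    have m := h s (by simp)
    clear ih h e
    induction xs with
    | nil => simp at m
    | cons y xs ih =>
      rw [List.nodup_cons] at hx
      by_cases k : s.1 = y
      · have : (xs.flatMap fun x => if s.1 = x then [s] else []) = [] := by
          simp only [List.flatMap_eq_nil_iff]
          intro x hx'
          rw [if_neg]
          rintro rfl
          exact hx.1 (k ▸ hx')
        rw [List.flatMap_cons, this, if_pos k, List.append_nil]
      · simpa [k] using ih hx.2 (by simpa [k] using m)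

theorem blk_perm (sl : List (ℕ × ℕ)) (xs : List ℕ) (hx : xs.Nodup) (h : ∀ s ∈ sl, s.1 ∈ xs)
    (F : List (ℕ × Bool)) (σ : ℕ → Bool) :
    ((blk eS gS 0 1 (jsOf sl) F xs σ : List (List ℕ)) : Multiset (List ℕ)) +
        (↑((sl.map fun s => (s.2, σ s.1)).map pS) + ↑(F.map pT)) =
      ↑(blk eT gT 1 0 (jsOf sl) F xs σ) +
        (↑((sl.map fun s => (s.2, σ s.1)).map pT) + ↑(F.map pS)) := by
  have a : ∀ p : ℕ × Bool → List ℕ, (((sl.map fun s => (s.2, σ s.1)).map p : List (List ℕ)) :
      Multiset (List ℕ)) = ↑(xs.flatMap fun x => (jsOf sl x).map fun j => p (j, σ x)) := by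
    intro p
    rw [Multiset.coe_eq_coe]
    refine (((slots_perm sl xs hx h).symm.map _).map _).trans (List.Perm.of_eq ?_)
    simp only [List.map_flatMap, jsOf, List.map_map]
    refine List.flatMap_congr fun x _ => List.map_congr_left fun s hs => ?_
    have : s.1 = x := by simpa using (List.mem_filter.1 hs).2
    simp [this]
  rw [a, a]
  have b : ((fixB gS 0 1 F : List (List ℕ)) : Multiset (List ℕ)) + ↑(F.map pT) =
      ↑(fixB gT 1 0 F) + ↑(F.map pS) := by
    induction F with
    | nil => rfl
    | cons u F ih =>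
      simp only [fixB, List.flatMap_cons, List.map_cons, List.cons_append, List.nil_append,
        ← Multiset.cons_coe, ← Multiset.singleton_add, pS, pT] at ih ⊢
      refine Multiset.ext.2 fun z => ?_
      have := congrArg (Multiset.count z) ih
      simp only [Multiset.count_add] at this ⊢
      omega
  clear a h hx
  induction xs with
  | nil => simpa [blk] using b
  | cons x xs ih =>
    simp only [blk, List.flatMap_cons, ← Multiset.coe_add] at ih ⊢
    refine Multiset.ext.2 fun z => ?_
    have h1 := congrArg (Multiset.count z) ih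
    have h2 := congrArg (Multiset.count z) (opt_perm x (jsOf sl x) (σ x))
    simp only [Multiset.count_add] at h1 h2 ⊢
    omega

theorem eS_ne (j i : ℕ) : eS j i % 6 ≠ 3 := by unfold eS; split_ifs <;> omega
theorem eT_ne (j i : ℕ) : eT j i % 6 ≠ 3 := by unfold eT; split_ifs <;> omega

theorem pT_inj : Function.Injective pT := by
  rintro ⟨i, _ | _⟩ ⟨j, _ | _⟩ <;> simp [pT, gT] <;> omega

theorem csp_iff (sl : List (ℕ × ℕ)) (xs : List ℕ) (hx : xs.Nodup) (h : ∀ s ∈ sl, s.1 ∈ xs)
    (F : List (ℕ × Bool)) :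
    CSP (str eS gS 0 1 (jsOf sl) F xs, str eT gT 1 0 (jsOf sl) F xs) ↔
      ∃ σ : ℕ → Bool, (sl.map fun s => (s.2, σ s.1)).Perm F := by
  constructor
  · intro c
    obtain ⟨B, C, hB, hC, p⟩ := c.norm
    have o1 := hB.ok (wS _ _ _)
    have o2 := hC.ok (wT _ _ _)
    obtain ⟨σ, rfl⟩ := inv hypS _ _ _ hx hB fun b hb => o2 b (p.mem_iff.1 hb)
    obtain ⟨τ, rfl⟩ := inv hypT _ _ _ hx hC fun b hb => o1 b (p.mem_iff.2 hb)
    have e : blk eT gT 1 0 (jsOf sl) F xs τ = blk eT gT 1 0 (jsOf sl) F xs σ := by
      unfold blk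
      congr 1
      refine List.flatMap_congr fun x hx => ?_
      have := p.mem_iff (a := [av x, av x])
      rw [aa_mem eS_ne (by simp) (by simp) (by simp), aa_mem eT_ne (by simp) (by simp) (by simp)]
        at this
      rw [Bool.eq_iff_iff.2 (show τ x = true ↔ σ x = true by simpa [hx] using this.symm)]
    rw [e] at p
    have k := blk_perm sl xs hx h F σ
    rw [Multiset.coe_eq_coe.2 p, add_right_inj, Multiset.coe_add, Multiset.coe_add,
      Multiset.coe_eq_coe] at k
    refine ⟨σ, (List.map_perm_map_iff pT_inj).1 ?_⟩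
    have f1 : ∀ l : List (ℕ × Bool), (l.map pS).filter (fun b => b.headD 0 % 6 == 4) = [] := by
      intro l
      rw [List.filter_eq_nil_iff, List.forall_mem_map]
      intro u _
      simp [pS]
    have f2 : ∀ l : List (ℕ × Bool), (l.map pT).filter (fun b => b.headD 0 % 6 == 4) = l.map pT := by
      intro l
      rw [List.filter_eq_self, List.forall_mem_map]
      intro u _
      simp [pT]
    have := k.filter fun b => b.headD 0 % 6 == 4
    rw [List.filter_append, List.filter_append, f1, f1, f2, f2, List.nil_append, List.append_nil]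
      at this
    exact this.symm
  · rintro ⟨σ, p⟩
    refine ⟨_, _, blk_flat _ _ _ σ, blk_flat _ _ _ σ, blk_len _ _ _ _, blk_len _ _ _ _, ?_⟩
    have k := blk_perm sl xs hx h F σ
    rwa [Multiset.coe_eq_coe.2 (p.map pS), Multiset.coe_eq_coe.2 (p.map pT),
      add_comm (F.map pT : Multiset (List ℕ)), add_left_inj, Multiset.coe_eq_coe] at k

theorem balanced (sl : List (ℕ × ℕ)) (xs : List ℕ) (hx : xs.Nodup) (h : ∀ s ∈ sl, s.1 ∈ xs)
    (F : List (ℕ × Bool)) (hF : sl.map (·.2) = F.map (·.1)) :
    (str eS gS 0 1 (jsOf sl) F xs).Perm (str eT gT 1 0 (jsOf sl) F xs) := by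
  have k := blk_perm sl xs hx h F fun _ => true
  simp only [Multiset.coe_add, Multiset.coe_eq_coe] at k
  have k := k.flatten
  simp only [List.flatten_append, blk_flat] at k
  have a : ∀ p : ℕ × Bool → List ℕ, (∀ u, (p u).Perm (p (u.1, true))) →
      (F.map p).flatten.Perm ((sl.map fun s => (s.2, true)).map p).flatten := by
    intro p hp
    have : (sl.map fun s => (s.2, true)) = F.map fun u => (u.1, true) := by
      simpa [Function.comp_def] using congrArg (List.map fun j => (j, true)) hF
    rw [this, List.map_map]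
    exact List.Perm.flatMap_left F fun u _ => hp u
  have a1 := a pS (by rintro ⟨j, _ | _⟩; exacts [.swap _ _ _, .refl _])
  have a2 := a pT (by rintro ⟨j, _ | _⟩; exacts [.swap _ _ _, .refl _])
  exact (List.perm_append_right_iff _).1 (k.trans (List.Perm.append_left _
    (List.perm_append_comm.trans (a1.append a2.symm))))

def slots (φ : List (ℕ × ℕ × ℕ)) : List (ℕ × ℕ) :=
  φ.zipIdx.flatMap fun p => [(p.1.1, p.2), (p.1.2.1, p.2), (p.1.2.2, p.2)]
def dem (φ : List (ℕ × ℕ × ℕ)) : List (ℕ × Bool) :=
  φ.zipIdx.flatMap fun p => [(p.2, true), (p.2, false), (p.2, false)]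
def red (φ : List (ℕ × ℕ × ℕ)) : List ℕ × List ℕ :=
  (str eS gS 0 1 (jsOf (slots φ)) (dem φ) (List.range (((slots φ).map (·.1)).sum + 1)),
    str eT gT 1 0 (jsOf (slots φ)) (dem φ) (List.range (((slots φ).map (·.1)).sum + 1)))

theorem red_pt : PT red := by
  unfold red str seg body fixS jsOf slots dem av eS eT gS gT
  fun_prop

theorem filter_one {α β : Type} (f : α × ℕ → List (ℕ × β)) (hf : ∀ q, ∀ z ∈ f q, z.1 = q.2)
    (l : List (α × ℕ)) (hl : l.Pairwise fun a b => a.2 ≠ b.2) (p : α × ℕ) (hp : p ∈ l) :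
    (l.flatMap f).filter (fun z => z.1 == p.2) = f p := by
  induction l with
  | nil => simp at hp
  | cons q l ih =>
    rw [List.pairwise_cons] at hl
    rw [List.flatMap_cons, List.filter_append]
    rcases List.mem_cons.1 hp with rfl | hp
    · rw [List.filter_eq_self.2 fun z hz => by simp [hf _ z hz], List.filter_eq_nil_iff.2,
        List.append_nil]
      intro z hz
      obtain ⟨q, hq, hz⟩ := List.mem_flatMap.1 hz
      simpa [hf _ z hz] using (hl.1 q hq).symm
    · rw [ih hl.2 hp, List.filter_eq_nil_iff.2 fun z hz => by simpa [hf _ z hz] using hl.1 p hp,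
        List.nil_append]

theorem hard : HardFor InNP (fun y : List ℕ × List ℕ => y.1.Perm y.2) CSP := by
  refine hard_ONE3.red red red_pt fun φ _ => ?_
  have h : ∀ s ∈ slots φ, s.1 ∈ List.range (((slots φ).map (·.1)).sum + 1) := fun s hs =>
    List.mem_range.2 (Nat.lt_succ_of_le (List.le_sum_of_mem (List.mem_map_of_mem hs)))
  refine ⟨balanced _ _ List.nodup_range h _ (by simp [slots, dem, List.map_flatMap]), ?_⟩
  rw [red, csp_iff _ _ List.nodup_range h]
  refine exists_congr fun σ => ?_
  simp only [slots, dem, List.map_flatMap, List.map_cons, List.map_nil]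
  constructor
  · intro k
    refine List.Perm.flatMap_left _ fun p hp => ?_
    have := k p.1 (List.fst_mem_of_mem_zipIdx hp)
    revert this
    cases σ p.1.1 <;> cases σ p.1.2.1 <;> cases σ p.1.2.2 <;> simp
    · exact List.perm_append_comm (l₁ := [_, _]) (l₂ := [_])
    · exact .swap _ _ _
  · intro k c hc
    obtain ⟨i, hi, rfl⟩ := List.getElem_of_mem hc
    have m : (φ[i], i) ∈ φ.zipIdx := by simp [List.mk_mem_zipIdx_iff_getElem?]
    have pw : φ.zipIdx.Pairwise fun a b => a.2 ≠ b.2 := by
      have := List.nodup_range' (s := 0) (n := φ.length)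
      rw [← List.zipIdx_map_snd 0 φ] at this
      exact List.pairwise_map.1 this
    have := k.filter fun z => z.1 == (φ[i], i).2
    rw [filter_one _ (by simp) _ pw _ m, filter_one _ (by simp) _ pw _ m] at this
    have := (this.map (·.2)).count_eq true
    revert this
    simp only [List.map_cons, List.map_nil]
    cases σ φ[i].1 <;> cases σ φ[i].2.1 <;> cases σ φ[i].2.2 <;> simp

end Pool.Agent.H24.Strip
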