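import Mathlib

set_option autoImplicit false
open FirstOrder FirstOrder.Language

namespace Pool.Agent.H24.Subdir

/-- Function symbols `+, -, ·, 0`. -/
inductive RngFn : ℕ → Type
  | add : RngFn 2
  | neg : RngFn 1
  | mul : RngFn 2
  | zero : RngFn 0

/-- The language `(+, -, ·, 0)` of rings without unit. -/
def rngLang : FirstOrder.Language.{0, 0} := ⟨RngFn, fun _ => Empty⟩

/-- A not necessarily unital ring as a structure for `(+, -, ·, 0)`. -/
@[reducible] def rngStr (R : Type) [NonUnitalRing R] : rngLang.Structure R where
  funMap := fun {_} f x => match f, x with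
    | RngFn.add, x => x 0 + x 1
    | RngFn.neg, x => - x 0
    | RngFn.mul, x => x 0 * x 1
    | RngFn.zero, _ => 0
  RelMap := fun r _ => Empty.elim r

/-- Subdirect product of division rings, unital reading. -/
def SubdirU (R : Type) [Ring R] : Prop :=
  ∃ (ι : Type) (D : ι → Type) (_ : ∀ i, DivisionRing (D i)) (f : R →+* ∀ i, D i),
    Function.Injective f ∧ ∀ i, Function.Surjective fun r => f r i

/-- Subdirect product of division rings, non-unital reading. -/
def SubdirN (R : Type) [NonUnitalRing R] : Prop :=
  ∃ (ι : Type) (D : ι → Type) (_ : ∀ i, DivisionRing (D i)) (f : R →ₙ+* ∀ i, D i),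
    Function.Injective f ∧ ∀ i, Function.Surjective fun r => f r i

end Pool.Agent.H24.Subdir
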