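import Mathlib
import Pool.Agent.H24.QuatSub
import Pool.Agent.H24.SubdirDefs

set_option autoImplicit false
open FirstOrder FirstOrder.Language Cardinal MvPolynomial

namespace Pool.Agent.H24.Subdir
open Pool.Agent.H24.QuatSub

theorem toN {S : Type} [Ring S] (h : SubdirU S) : SubdirN S := by
  obtain ⟨ι, D, hD, f, h1, h2⟩ := h
  exact ⟨ι, D, hD, f.toNonUnitalRingHom, h1, h2⟩

theorem R_notN : ¬ SubdirN R := by
  rintro ⟨ι, D, hD, f, h1, h2⟩
  refine two_k_ne (h1 ?_)
  rw [map_zero]
  funext i
  have h3 : f 1 i = 1 := by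
    obtain ⟨r, hr⟩ := h2 i 1
    have h4 := congrFun (map_mul f 1 r) i
    rw [one_mul, Pi.mul_apply] at h4
    simp only at hr
    rw [hr, mul_one] at h4
    exact h4.symm
  let g : R →+* D i :=
    { toFun := fun r => f r i
      map_one' := h3
      map_mul' := fun a b => congrFun (map_mul f a b) i
      map_zero' := congrFun (map_zero f) i
      map_add' := fun a b => congrFun (map_add f a b) i }
  exact kills g (h2 i)

def gens : Set R := Set.range (fun n => (⟨X n, 0, 0, 0⟩ : R)) ∪ {1, ⟨0, 1, 0, 0⟩, ⟨0, 0, 1, 0⟩}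

theorem exists_sub (L : FirstOrder.Language.{0, 0}) [L.Structure R] (hL : L.card ≤ ℵ₀) :
    ∃ S : L.ElementarySubstructure R, gens ⊆ S ∧ Countable S := by
  have h1 : gens.Countable := (Set.countable_range _).union (Set.toFinite _).countable
  have h2 : Infinite R := Infinite.of_injective (fun n : ℕ => (⟨X n, 0, 0, 0⟩ : R)) fun a b h =>
    X_injective (congrArg QuaternionAlgebra.re h)
  obtain ⟨S, h3, h4⟩ := exists_elementarySubstructure_card_eq L gens (ℵ₀ : Cardinal.{0}) le_rfl
    (by simpa using h1) (by simpa using hL) (by simp)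
  exact ⟨S, h3, mk_le_aleph0_iff.1 (by simpa using h4.le)⟩

theorem sub_mem (S : Subring R) [Countable S] (h : gens ⊆ S) : SubdirU S :=
  in_class S (fun n => h (Or.inl ⟨n, rfl⟩)) (h (Or.inr (by simp))) (h (Or.inr (by simp)))

theorem unital : ¬ ∃ T : FirstOrder.Language.ring.Theory, ∀ (R : Type) [Ring R],
    @Theory.Model _ R (FirstOrder.Ring.compatibleRingOfRing R).toStructure T ↔ SubdirU R := by
  rintro ⟨T, hT⟩
  letI := FirstOrder.Ring.compatibleRingOfRing R
  obtain ⟨S, h1, h2⟩ := exists_sub FirstOrder.Language.ring (by simp)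
  let S' : Subring R :=
    { carrier := S
      mul_mem' := fun {a b} ha hb => S.toSubstructure.fun_mem FirstOrder.Ring.mulFunc ![a, b]
        (Fin.forall_fin_two.2 ⟨ha, hb⟩)
      one_mem' := h1 (Or.inr (by simp))
      add_mem' := fun {a b} ha hb => S.toSubstructure.fun_mem FirstOrder.Ring.addFunc ![a, b]
        (Fin.forall_fin_two.2 ⟨ha, hb⟩)
      zero_mem' := S.toSubstructure.fun_mem FirstOrder.Ring.zeroFunc ![] (by simp)
      neg_mem' := fun {a} ha => S.toSubstructure.fun_mem FirstOrder.Ring.negFunc ![a]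
        (Fin.forall_fin_one.2 ha) }
  haveI : Countable S' := h2
  have h3 := (hT S').2 (sub_mem S' h1)
  have h4 : (FirstOrder.Ring.compatibleRingOfRing S').toStructure = S.inducedStructure := by
    refine Structure.ext ?_ ?_
    · funext n f x
      cases f <;> rfl
    · funext n r
      exact Empty.elim r
  rw [h4] at h3
  exact R_notN (toN ((hT R).1 ((S.theory_model_iff T).1 h3)))

theorem rng_card : rngLang.card ≤ ℵ₀ := by
  rw [card, mk_le_aleph0_iff]
  have : ∀ n, Countable (RngFn n) := fun n => by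
    refine Function.Injective.countable (f := fun f : RngFn n => match n, f with
      | _, RngFn.add => (0 : ℕ) | _, RngFn.neg => 1 | _, RngFn.mul => 2 | _, RngFn.zero => 3) ?_
    intro a b h
    cases a <;> cases b <;> simp_all
  exact inferInstanceAs (Countable ((Σ l, RngFn l) ⊕ (Σ _ : ℕ, Empty)))

theorem nonunital : ¬ ∃ T : rngLang.Theory, ∀ (R : Type) [NonUnitalRing R],
    @Theory.Model _ R (rngStr R) T ↔ SubdirN R := by
  rintro ⟨T, hT⟩
  letI := rngStr R
  obtain ⟨S, h1, h2⟩ := exists_sub rngLang rng_card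
  let S' : Subring R :=
    { carrier := S
      mul_mem' := fun {a b} ha hb => S.toSubstructure.fun_mem (RngFn.mul : rngLang.Functions 2)
        ![a, b] (Fin.forall_fin_two.2 ⟨ha, hb⟩)
      one_mem' := h1 (Or.inr (by simp))
      add_mem' := fun {a b} ha hb => S.toSubstructure.fun_mem (RngFn.add : rngLang.Functions 2)
        ![a, b] (Fin.forall_fin_two.2 ⟨ha, hb⟩)
      zero_mem' := S.toSubstructure.fun_mem (RngFn.zero : rngLang.Functions 0) ![] (by simp)
      neg_mem' := fun {a} ha => S.toSubstructure.fun_mem (RngFn.neg : rngLang.Functions 1) ![a]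
        (Fin.forall_fin_one.2 ha) }
  haveI : Countable S' := h2
  have h3 := (hT S').2 (toN (sub_mem S' h1))
  have h4 : rngStr S' = S.inducedStructure := by
    refine Structure.ext ?_ ?_
    · funext n f x
      cases f <;> rfl
    · funext n r
      exact Empty.elim r
  rw [h4] at h3
  exact R_notN ((hT R).1 ((S.theory_model_iff T).1 h3))

end Pool.Agent.H24.Subdir
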