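import Mathlib

set_option autoImplicit false

namespace Pool.Agent.H24.Tc

open Sum

/-- `Run δ p w q`: some path of transitions from `δ` leads from `p` to `q` and reads `w`. -/
inductive Run {Q A : Type} (δ : Set (Q × A × Q)) : Q → List A → Q → Prop
  | nil (p) : Run δ p [] p
  | cons {p a r w q} : (p, a, r) ∈ δ → Run δ r w q → Run δ p (a :: w) q

/-- `L` is recognized by an NFA with exactly `n` transitions. -/
def Rec {A : Type} (L : Set (List A)) (n : ℕ) : Prop :=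
  ∃ (Q : Type) (_ : Finite Q) (δ : Set (Q × A × Q)) (s : Q) (F : Set Q),
    δ.ncard = n ∧ L = {w | ∃ f ∈ F, Run δ s w f}

/-- transition complexity -/
noncomputable def tc {A : Type} (L : Set (List A)) : ℕ := sInf {n | Rec L n}

/-- worst-case transition complexity of inverse morphism -/
noncomputable def g (k m : ℕ) : ℕ :=
  sSup {t | ∃ (A : Type) (_ : Finite A) (h : Fin k → List A) (L : Set (List A)),
    (∃ n, Rec L n) ∧ tc L = m ∧ t = tc {w | w.flatMap h ∈ L}}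

variable {Q A : Type} {δ : Set (Q × A × Q)}

@[simp] theorem run_nil {p q} : Run δ p [] q ↔ p = q :=
  ⟨fun h => by cases h; rfl, fun h => h ▸ .nil p⟩

theorem run_cons {p q a w} : Run δ p (a :: w) q ↔ ∃ r, (p, a, r) ∈ δ ∧ Run δ r w q :=
  ⟨fun h => by cases h with | cons x y => exact ⟨_, x, y⟩, fun ⟨_, x, y⟩ => .cons x y⟩

theorem run_append {p q u v} : Run δ p (u ++ v) q ↔ ∃ r, Run δ p u r ∧ Run δ r v q := by
  induction u generalizing p with
  | nil => simp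
  | cons a u ih =>
    simp only [List.cons_append, run_cons, ih]
    exact ⟨fun ⟨r, a, s, b, c⟩ => ⟨s, ⟨r, a, b⟩, c⟩, fun ⟨s, ⟨r, a, b⟩, c⟩ => ⟨r, a, s, b, c⟩⟩

theorem Run.mem {P : Set Q} (h : ∀ x ∈ δ, x.2.2 ∈ P) {p w q} (k : Run δ p w q) (hp : p ∈ P) :
    q ∈ P := by
  induction k with
  | nil => exact hp
  | cons x _ ih => exact ih (h _ x)

theorem tc_le [Finite Q] {ι : Type} [Fintype ι] (f : ι → Q × A × Q) (D : Set ι) (s : Q) (F : Set Q) :
    tc {w | ∃ q ∈ F, Run (f '' D) s w q} ≤ Fintype.card ι :=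
  (Nat.sInf_le (show Rec _ (f '' D).ncard from ⟨Q, inferInstance, _, s, F, rfl, rfl⟩)).trans
    ((Set.ncard_image_le D.toFinite).trans
      ((Set.ncard_le_ncard D.subset_univ).trans (by simp [Set.ncard_univ])))

theorem enum [Finite Q] [Finite A] (δ : Set (Q × A × Q)) (s : Q) (I : Type) [Fintype I]
    (h : δ.ncard + 1 ≤ Fintype.card I) :
    ∃ e : I → Q, s ∈ Set.range e ∧ ∀ x ∈ δ, x.2.2 ∈ Set.range e := by
  classical
  let P : Set Q := insert s ((fun x => x.2.2) '' δ)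
  have : P.ncard ≤ δ.ncard + 1 := (Set.ncard_insert_le _ _).trans
    (Nat.succ_le_succ (Set.ncard_image_le δ.toFinite))
  haveI := Fintype.ofFinite P
  obtain ⟨i⟩ : Nonempty (P ↪ I) := Function.Embedding.nonempty_of_card_le (by
    rw [← Nat.card_eq_fintype_card, Nat.card_coe_set_eq]; omega)
  haveI : Nonempty P := ⟨⟨s, Set.mem_insert _ _⟩⟩
  have k : ∀ q ∈ P, q ∈ Set.range fun j => (Function.invFun i j).1 := fun q hq =>
    ⟨i ⟨q, hq⟩, by simp [Function.leftInverse_invFun i.injective _]⟩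
  exact ⟨_, k s (Set.mem_insert _ _), fun x hx => k _ (Set.mem_insert_of_mem _ ⟨x, hx, rfl⟩)⟩

theorem upper [Finite A] {B : Type} [Fintype B] (h : B → List A) {L : Set (List A)} {m : ℕ}
    (hL : Rec L m) (j t : ℕ) (c : m + 1 ≤ j * t) : tc {w | w.flatMap h ∈ L} ≤
      j * t * Fintype.card B * Fintype.card B * j + Fintype.card B * j * 2 ^ t * t +
        j * t * Fintype.card B := by
  classical
  obtain ⟨Q, _, δ, s, F, rfl, rfl⟩ := hL
  obtain ⟨e, ⟨s, rfl⟩, he⟩ := enum δ s (Fin j × Fin t) (by simpa using c)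
  let f : (((Fin j × Fin t) × B × B × Fin j) ⊕ (B × Fin j × Set (Fin t) × Fin t)) ⊕
      ((Fin j × Fin t) × B) → ((Fin j × Fin t) ⊕ Option (B × Fin j × Set (Fin t))) × B ×
        ((Fin j × Fin t) ⊕ Option (B × Fin j × Set (Fin t))) := fun x => match x with
    | inl (inl (i, a, b, j)) =>
      (inl i, a, inr (some (b, j, {s | Run δ (e i) (h a ++ h b) (e (j, s))})))
    | inl (inr (b, j, S, s)) => (inr (some (b, j, S)), b, inl (j, s))
    | inr (i, a) => (inl i, a, inr none)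
  let D := {x | match x with
    | inl (inl (_ : (Fin j × Fin t) × B × B × Fin j)) => True
    | inl (inr ((_, _, S, s) : B × Fin j × Set (Fin t) × Fin t)) => s ∈ S
    | inr ((i, a) : (Fin j × Fin t) × B) => ∃ q ∈ F, Run δ (e i) (h a) q}
  refine le_of_eq_of_le (congrArg tc (Set.ext fun w => ?_)) ((tc_le f D (inl s)
    {x | match x with | inl i => e i ∈ F | inr o => o = none}).trans_eq (by
      simp [Fintype.card_set]; ring))
  have d : ∀ p a r, (p, a, r) ∈ f '' D ↔ (∃ i b j, p = inl i ∧ r = inr (some (b, j,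
      {s | Run δ (e i) (h a ++ h b) (e (j, s))}))) ∨ (∃ j S s, s ∈ S ∧ p = inr (some (a, j, S)) ∧
        r = inl (j, s)) ∨ ∃ i, (∃ q ∈ F, Run δ (e i) (h a) q) ∧ p = inl i ∧ r = inr none := by
    intro p a r
    constructor
    · rintro ⟨(⟨i, a, b, j⟩ | ⟨b, j, S, s⟩) | ⟨i, a⟩, x, y⟩ <;> cases y
      exacts [.inl ⟨_, _, _, rfl, rfl⟩, .inr (.inl ⟨_, _, _, x, rfl, rfl⟩),
        .inr (.inr ⟨_, x, rfl, rfl⟩)]
    · rintro (⟨i, b, j, rfl, rfl⟩ | ⟨j, S, s, x, rfl, rfl⟩ | ⟨i, x, rfl, rfl⟩)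
      exacts [⟨inl (inl (i, a, b, j)), trivial, rfl⟩, ⟨inl (inr (a, j, S, s)), x, rfl⟩,
        ⟨inr (i, a), x, rfl⟩]
  simp only [Set.mem_ofPred_eq]
  induction w using List.twoStepInduction generalizing s with
  | nil => simp
  | singleton a => obtain ⟨s1, s2⟩ := s; simp [run_cons, d]
  | cons_cons a b w ih =>
    rw [List.flatMap_cons, List.flatMap_cons, ← List.append_assoc]
    constructor
    · rintro ⟨q, hq, r⟩
      obtain ⟨r, r1, r2⟩ := run_append.1 r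
      obtain ⟨⟨j, i⟩, rfl⟩ := r1.mem he ⟨s, rfl⟩
      obtain ⟨q, hq, r⟩ := (ih _).1 ⟨q, hq, r2⟩
      exact ⟨q, hq, .cons ((d ..).2 (.inl ⟨s, b, j, rfl, rfl⟩))
        (.cons ((d ..).2 (.inr (.inl ⟨j, _, i, r1, rfl, rfl⟩))) r)⟩
    · rintro ⟨q, hq, r⟩
      simp only [run_cons, d] at r
      obtain ⟨_, ⟨i, b', j, e1, rfl⟩ | ⟨_, _, _, _, e1, _⟩ | ⟨_, _, _, rfl⟩, _,
        ⟨_, _, _, e2, _⟩ | ⟨_, _, i', x, e2, rfl⟩ | ⟨_, _, e2, _⟩, r⟩ := r <;> cases e2 <;> cases e1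
      obtain ⟨q, hq, r⟩ := (ih _).2 ⟨q, hq, r⟩
      exact ⟨q, hq, run_append.2 ⟨_, x, r⟩⟩

end Pool.Agent.H24.Tc
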