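import Pool.Agent.H24.Tc1

set_option autoImplicit false

namespace Pool.Agent.H24.Tc

open Sum

theorem count {B ι : Type} [Fintype B] [Fintype ι] (K : ι → Set (List B))
    (hK : Function.Injective K) (T : ℕ) (h : ∀ i, ∃ n ≤ T, Rec (K i) n) :
    Fintype.card ι ≤ ((T + 1) * (Fintype.card B * (T + 1)) + 1) ^ T * ((T + 1) * 2 ^ (T + 1)) := by
  classical
  have : ∀ i, ∃ x : (Fin T → Option (Fin (T + 1) × B × Fin (T + 1))) × Fin (T + 1) ×
      Set (Fin (T + 1)), K i = {w | ∃ f ∈ x.2.2, Run {y | ∃ i, x.1 i = some y} x.2.1 w f} := by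
    intro i
    obtain ⟨_, hn, Q, _, δ, s, F, rfl, e⟩ := h i
    obtain ⟨e', hs, he⟩ := enum δ s (Fin (T + 1)) (by simpa using hn)
    let σ := Function.invFun e'
    have k : ∀ q ∈ Set.range e', e' (σ q) = q := fun q hq => Function.invFun_eq hq
    let δ' := (fun x : Q × B × Q => (σ x.1, x.2.1, σ x.2.2)) '' {x ∈ δ | x.1 ∈ Set.range e'}
    let l := δ'.toFinite.toFinset.toList
    have hl : l.length ≤ T := by
      rw [Finset.length_toList, ← Set.ncard_eq_toFinset_card]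
      exact (Set.ncard_image_le (Set.toFinite _)).trans
        ((Set.ncard_le_ncard (Set.sep_subset _ _)).trans hn)
    have d : {y | ∃ i : Fin T, l[i.1]? = some y} = δ' := by
      ext y
      rw [← δ'.toFinite.mem_toFinset, ← Finset.mem_toList, List.mem_iff_getElem?]
      exact ⟨fun ⟨i, h⟩ => ⟨i, h⟩, fun ⟨i, h⟩ =>
        ⟨⟨i, (List.getElem?_eq_some_iff.1 h).1.trans_le hl⟩, h⟩⟩
    refine ⟨(fun i => l[i.1]?, σ s, e' ⁻¹' F), e.trans (Set.ext fun w => ?_)⟩
    simp only [d, Set.mem_ofPred_eq]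
    constructor
    · rintro ⟨f, hf, r⟩
      refine ⟨σ f, by rwa [Set.mem_preimage, k f (r.mem he hs)], ?_⟩
      clear e hf
      induction r with
      | nil => exact .nil _
      | cons x _ ih => exact .cons ⟨_, ⟨x, hs⟩, rfl⟩ (ih (he _ x))
    · rintro ⟨f, hf, r⟩
      refine ⟨e' f, hf, k s hs ▸ ?_⟩
      generalize σ s = p at r
      clear hf
      induction r with
      | nil => exact .nil _
      | cons x _ ih =>
        obtain ⟨y, ⟨a, b⟩, c⟩ := x
        cases c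
        rw [k _ (he _ a)] at ih
        rw [k _ b]
        exact .cons a ih
  choose x hx using this
  simpa [Fintype.card_set] using Fintype.card_le_of_injective x fun i j e =>
    hK (by rw [hx, hx, e])

theorem rec_tc {A : Type} {L : Set (List A)} (h : ∃ n, Rec L n) : Rec L (tc L) := Nat.sInf_mem h

theorem pad {A : Type} [Finite A] {L : Set (List A)} (h : ∃ n, Rec L n) (r : ℕ) :
    ∃ L' : Set (List (A ⊕ Fin r)), (∃ n, Rec L' n) ∧ tc L' = tc L + r ∧
      ∀ w, w.map inl ∈ L' ↔ w ∈ L := by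
  obtain ⟨Q, _, δ, s, F, e1, e2⟩ := rec_tc h
  let δ' : Set (Option Q × (A ⊕ Fin r) × Option Q) :=
    (fun x => (some x.1, inl x.2.1, some x.2.2)) '' δ ∪ Set.range fun i => (some s, inr i, none)
  have R : Rec {w | ∃ f ∈ insert none (some '' F), Run δ' (some s) w f} δ'.ncard :=
    ⟨_, inferInstance, _, _, _, rfl, rfl⟩
  have k : ∀ w : List A, w.map inl ∈ {w | ∃ f ∈ insert none (some '' F), Run δ' (some s) w f} ↔
      w ∈ L := fun w => by
    have : ∀ p q, Run δ' (some p) (w.map inl) q ↔ ∃ q', q = some q' ∧ Run δ p w q' := by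
      induction w with
      | nil => simp [eq_comm]
      | cons a w ih =>
        simp only [List.map_cons, run_cons]
        refine fun p q => ⟨?_, fun ⟨q, e, t, x, y⟩ =>
          ⟨some t, .inl ⟨_, x, rfl⟩, (ih _ _).2 ⟨q, e, y⟩⟩⟩
        rintro ⟨_, ⟨x, hx, e⟩ | ⟨_, e⟩, y⟩ <;> cases e
        obtain ⟨q, e, y⟩ := (ih _ _).1 y
        exact ⟨q, e, _, hx, y⟩
    simp [this, e2]
  refine ⟨_, ⟨_, R⟩, le_antisymm ((Nat.sInf_le R).trans ((Set.ncard_union_le _ _).trans
    (add_le_add (e1 ▸ Set.ncard_image_le δ.toFinite) ?_))) ?_, k⟩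
  · rw [← Set.image_univ]
    exact (Set.ncard_image_le (Set.toFinite _)).trans (by simp [Set.ncard_univ])
  obtain ⟨P, _, γ, t, G, c1, c2⟩ := rec_tc ⟨_, R⟩
  have : ∀ i, ∃ q, (t, inr i, q) ∈ γ := fun i => by
    obtain ⟨f, -, x⟩ := c2.le ⟨none, Set.mem_insert _ _, .cons (.inr ⟨i, rfl⟩) (.nil _)⟩
    exact (run_cons.1 x).imp fun _ => And.left
  choose τ hτ using this
  let γ' : Set (P × A × P) := {x | (x.1, inl x.2.1, x.2.2) ∈ γ}
  have b : tc L ≤ γ'.ncard := Nat.sInf_le ⟨P, inferInstance, γ', t, G, rfl, Set.ext fun w => by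
    have : ∀ p q, Run γ p (w.map inl) q ↔ Run γ' p w q := by
      induction w with
      | nil => simp
      | cons a w ih => simp [run_cons, ih, γ']
    rw [← k, c2]
    simp [this]⟩
  rw [← c1]
  refine le_trans ?_ (Set.ncard_le_ncard (s := (fun x => (x.1, inl x.2.1, x.2.2)) '' γ' ∪
    Set.range fun i => (t, inr i, τ i)) ?_)
  · rw [Set.ncard_union_eq, Set.ncard_image_of_injective, Set.ncard_range_of_injective]
    · simpa using b
    · exact fun i j e => by simpa using congrArg (·.2.1) e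
    · rintro ⟨_, _, _⟩ ⟨_, _, _⟩ e
      simpa using e
    · rw [Set.disjoint_left]
      rintro _ ⟨x, -, rfl⟩ ⟨i, e⟩
      cases e
  · rintro _ (⟨x, hx, rfl⟩ | ⟨i, rfl⟩)
    exacts [hx, hτ i]

section
variable {n : ℕ} [NeZero n]

def φ (c : Fin 3) : ZMod n ⊕ ZMod n → ZMod n ⊕ ZMod n :=
  Sum.map (fun x => if c = 0 then x + 1 else x) fun y => if c = 1 then y - 1 else y

def tr : Option (Fin 3 × (ZMod n ⊕ ZMod n)) → (ZMod n ⊕ ZMod n) × Fin 3 × (ZMod n ⊕ ZMod n)
  | none => (inl 0, 2, inr 0)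
  | some x => (x.2, x.1, φ x.1 x.2)

abbrev Rn : ZMod n ⊕ ZMod n → List (Fin 3) → ZMod n ⊕ ZMod n → Prop := Run (tr '' Set.univ)

omit [NeZero n] in
theorem rn_cons {p q : ZMod n ⊕ ZMod n} {c w} :
    Rn p (c :: w) q ↔ Rn (φ c p) w q ∨ c = 2 ∧ p = inl 0 ∧ Rn (inr 0) w q := by
  rw [Rn, run_cons]
  constructor
  · rintro ⟨r, ⟨_ | x, -, e⟩, h⟩ <;> cases e
    exacts [.inr ⟨rfl, rfl, h⟩, .inl h]
  · rintro (h | ⟨rfl, rfl, h⟩)
    exacts [⟨_, ⟨some (c, p), trivial, rfl⟩, h⟩, ⟨_, ⟨none, trivial, rfl⟩, h⟩]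

omit [NeZero n] in
theorem rn_rep (r : ℕ) {q : ZMod n ⊕ ZMod n} {w} :
    (∀ p, Rn p (List.replicate r 0 ++ w) q ↔ Rn (p.map (· + (r : ZMod n)) id) w q) ∧
    (∀ p, Rn p (List.replicate r 1 ++ w) q ↔ Rn (p.map id (· - (r : ZMod n))) w q) ∧
    ∀ p, Rn p ((List.replicate r [0, 1]).flatten ++ w) q ↔
      Rn (p.map (· + (r : ZMod n)) (· - (r : ZMod n))) w q := by
  induction r with
  | zero => refine ⟨?_, ?_, ?_⟩ <;> rintro (p | p) <;> simp
  | succ r ih =>
    refine ⟨?_, ?_, ?_⟩ <;> rintro (p | p) <;>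
      simp [List.replicate_succ, rn_cons, ih, φ, add_assoc, add_comm, add_left_comm, sub_sub]

def U (l : List (ZMod n × ZMod n)) : List (Fin 3) := l.flatMap fun x =>
  List.replicate (-x.1).val 0 ++ (List.replicate x.2.val 1 ++ 2 ::
    (List.replicate (-x.2).val 1 ++ List.replicate x.1.val 0))

theorem rn_U (l : List (ZMod n × ZMod n)) {p q : ZMod n ⊕ ZMod n} {w} :
    Rn p (U l ++ w) q ↔ Rn p w q ∨ ∃ x ∈ l, p = inl x.1 ∧ Rn (inr x.2) w q := by
  induction l generalizing p with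
  | nil => simp [U]
  | cons x l ih =>
    rw [U, List.flatMap_cons, ← U]
    rcases p with p | p <;>
      simp [(rn_rep _).1, (rn_rep _).2.1, rn_cons, ih, φ, add_neg_eq_zero, or_assoc, or_comm,
        or_left_comm]

theorem lower (k : ℕ) : ∃ L : Set (List (Fin 3)), (∃ m, Rec L m) ∧ tc L ≤ 6 * n + 1 ∧
    ∃ h : Finset (ZMod n × ZMod n) → Fin (k + 2) → List (Fin 3),
      Function.Injective fun M => {w : List (Fin (k + 2)) | w.flatMap (h M) ∈ L} := by
  refine ⟨_, ⟨_, _, inferInstance, _, _, _, rfl, rfl⟩, (tc_le (tr (n := n)) Set.univ (inl 0)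
    {inr 0}).trans_eq (by simp; ring), fun M c => if c = 0 then [0, 1] else U M.toList,
    fun M N e => Finset.ext fun x => ?_⟩
  have : ∀ M : Finset (ZMod n × ZMod n), (∃ q ∈ ({inr 0} : Set (ZMod n ⊕ ZMod n)), Rn (inl 0)
      ((List.replicate x.1.val (0 : Fin (k + 2)) ++ 1 :: List.replicate x.2.val 0).flatMap
        fun c : Fin (k + 2) => if c = 0 then [0, 1] else U M.toList) q) ↔ x ∈ M := fun M => by
    have := fun p => (rn_rep x.2.val (q := (inr 0 : ZMod n ⊕ ZMod n)) (w := [])).2.2 p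
    rw [List.append_nil] at this
    simp [List.flatMap_replicate, (rn_rep _).2.2, rn_U, this, sub_eq_zero]
  rw [← this, ← this]
  exact Set.ext_iff.1 e _

end

end Pool.Agent.H24.Tc
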