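import Pool.Agent.H24.Tc2

set_option autoImplicit false

namespace Pool.Agent.H24.Tc

open Sum Filter Asymptotics

theorem up (k m : ℕ) (hm : 3 ≤ m) : ∀ t ∈ {t | ∃ (A : Type) (_ : Finite A) (h : Fin k → List A)
    (L : Set (List A)), (∃ n, Rec L n) ∧ tc L = m ∧ t = tc {w | w.flatMap h ∈ L}},
    t * Nat.log 4 (m + 1) ≤ (4 * k ^ 2 + 4 * k) * (m + 1) ^ 2 := by
  rintro _ ⟨A, _, h, L, a, b, rfl⟩
  set t := Nat.log 4 (m + 1)
  have t1 : 1 ≤ t := Nat.log_pos (by omega) (by omega)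
  have t2 : 4 ^ t ≤ m + 1 := Nat.pow_log_le_self _ (by omega)
  have t3 : t ≤ 2 ^ t := Nat.lt_two_pow_self.le
  have t4 : t * 2 ^ t ≤ m + 1 := (Nat.mul_le_mul_right _ t3).trans (by rwa [← mul_pow])
  have t5 : t ≤ m + 1 := (Nat.le_mul_of_pos_right _ (by positivity)).trans t4
  have c1 : m + 1 ≤ ((m + 1) / t + 1) * t := (Nat.lt_div_mul_add t1).le.trans_eq (by ring)
  have c2 : ((m + 1) / t + 1) * t ≤ 2 * (m + 1) := by
    have := Nat.div_mul_le_self (m + 1) t
    nlinarith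
  have u := upper h (b ▸ rec_tc a) _ t c1
  rw [Fintype.card_fin] at u
  generalize (m + 1) / t + 1 = j at *
  calc _ ≤ (j * t * k * k * j + k * j * 2 ^ t * t + j * t * k) * t := Nat.mul_le_mul_right _ u
    _ = k ^ 2 * (j * t) * (j * t) + k * (j * t) * (t * 2 ^ t) + k * (j * t) * t := by ring
    _ ≤ k ^ 2 * (2 * (m + 1)) * (2 * (m + 1)) + k * (2 * (m + 1)) * (m + 1) +
      k * (2 * (m + 1)) * (m + 1) := by gcongr
    _ = _ := by ring

theorem bdd (k m : ℕ) (hm : 3 ≤ m) : BddAbove {t | ∃ (A : Type) (_ : Finite A) (h : Fin k → List A)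
    (L : Set (List A)), (∃ n, Rec L n) ∧ tc L = m ∧ t = tc {w | w.flatMap h ∈ L}} :=
  ⟨_, fun t ht => (Nat.le_mul_of_pos_right _ (Nat.log_pos (by omega) (by omega))).trans
    (up k m hm t ht)⟩

theorem g_up (k m : ℕ) (hm : 3 ≤ m) :
    g k m * Nat.log 4 (m + 1) ≤ (4 * k ^ 2 + 4 * k) * (m + 1) ^ 2 := by
  have := Nat.log_pos (b := 4) (n := m + 1) (by omega) (by omega)
  rw [← Nat.le_div_iff_mul_le this]
  exact csSup_le' fun t ht => (Nat.le_div_iff_mul_le this).2 (up k m hm t ht)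

theorem inv_rec {A B : Type} [Finite A] [Finite B] (h : B → List A) {L : Set (List A)}
    (a : ∃ n, Rec L n) : ∃ n, Rec {w | w.flatMap h ∈ L} n := by
  obtain ⟨_, Q, _, δ, s, F, -, rfl⟩ := a
  refine ⟨_, Q, inferInstance, {x | Run δ x.1 (h x.2.1) x.2.2}, s, F, rfl, Set.ext fun w => ?_⟩
  have : ∀ p q, Run δ p (w.flatMap h) q ↔ Run {x | Run δ x.1 (h x.2.1) x.2.2} p w q := by
    induction w with
    | nil => simp
    | cons a w ih => simp [run_append, run_cons, ih]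
  simp [this]

theorem g_low (k n m : ℕ) (hn : 1 ≤ n) (hm : 6 * n + 1 ≤ m) : 2 ^ (n * n) ≤
    ((g (k + 2) m + 1) * ((k + 2) * (g (k + 2) m + 1)) + 1) ^ g (k + 2) m *
      ((g (k + 2) m + 1) * 2 ^ (g (k + 2) m + 1)) := by
  haveI : NeZero n := ⟨by omega⟩
  obtain ⟨L, a, b, h, c⟩ := lower (n := n) k
  obtain ⟨L', a', b', c'⟩ := pad a (m - tc L)
  simpa using count _ c (g (k + 2) m) fun M => ⟨_, le_csSup (bdd _ m (by omega))
    ⟨_, inferInstance, fun c => (h M c).map inl, L', a', by omega, by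
      simp only [← List.map_flatMap, c']⟩, rec_tc (inv_rec _ a)⟩

theorem big (k : ℕ) : (fun m : ℕ => (g k m : ℝ)) =O[atTop] fun m => (m : ℝ) ^ 2 / Real.log m := by
  refine IsBigO.of_bound ((4 * k ^ 2 + 4 * k) * 4 * (2 * Real.log 4)) ?_
  filter_upwards [eventually_ge_atTop 3] with m hm
  have m3 : (3 : ℝ) ≤ m := by exact_mod_cast hm
  have l0 : 0 < Real.log m := Real.log_pos (by linarith)
  have t1 : (1 : ℝ) ≤ Nat.log 4 (m + 1) := by
    exact_mod_cast Nat.log_pos (by omega) (by omega)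
  have l4 : 0 < Real.log 4 := Real.log_pos (by norm_num)
  have t2 : Real.log m ≤ 2 * Real.log 4 * Nat.log 4 (m + 1) := by
    have : (m : ℝ) ≤ 4 ^ (Nat.log 4 (m + 1) + 1) := by
      exact_mod_cast (Nat.le_succ m).trans (Nat.lt_pow_succ_log_self (by omega) _).le
    have := Real.log_le_log (by linarith) this
    rw [Real.log_pow] at this
    push_cast at this
    nlinarith
  have u : (g k m : ℝ) * Nat.log 4 (m + 1) ≤ (4 * k ^ 2 + 4 * k) * (m + 1) ^ 2 := by
    exact_mod_cast g_up k m hm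
  rw [Real.norm_of_nonneg (by positivity), Real.norm_of_nonneg (by positivity), ← mul_div_assoc,
    le_div_iff₀ l0]
  calc _ ≤ g k m * (2 * Real.log 4 * Nat.log 4 (m + 1)) := by gcongr
    _ = 2 * Real.log 4 * (g k m * Nat.log 4 (m + 1)) := by ring
    _ ≤ 2 * Real.log 4 * ((4 * k ^ 2 + 4 * k) * (2 * m) ^ 2) := by
      refine mul_le_mul_of_nonneg_left (u.trans ?_) (by positivity)
      gcongr
      linarith
    _ = _ := by ring

theorem small (k : ℕ) :
    (fun m : ℕ => (m : ℝ) ^ 2 / Real.log m) =O[atTop] fun m => (g (k + 2) m : ℝ) := by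
  refine IsBigO.of_bound (144 * 40 / Real.log 2) ?_
  filter_upwards [eventually_ge_atTop (13 + k + (4 * (k + 2) ^ 2 + 4 * (k + 2)) * 4)] with m hm
  have a := g_low k ((m - 1) / 6) m (by omega) (by omega)
  have b : g (k + 2) m + 1 ≤ m ^ 3 := by
    have := (Nat.le_mul_of_pos_right _ (Nat.log_pos (by omega) (by omega))).trans
      (g_up (k + 2) m (by omega))
    have c : (m + 1) ^ 2 ≤ 4 * m ^ 2 := by nlinarith
    have d : (4 * (k + 2) ^ 2 + 4 * (k + 2)) * 4 + 1 ≤ m := by omega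
    have e : 1 ≤ m ^ 2 := Nat.one_le_pow _ _ (by omega)
    generalize 4 * (k + 2) ^ 2 + 4 * (k + 2) = C at *
    nlinarith [Nat.mul_le_mul_left C c, Nat.mul_le_mul_right (m ^ 2) d]
  have n1 : m ≤ 12 * ((m - 1) / 6) := by omega
  have n2 : 2 ≤ (m - 1) / 6 := by omega
  generalize (m - 1) / 6 = n at *
  generalize g (k + 2) m = T at *
  have m0 : 2 ≤ m := by omega
  have T1 : 1 ≤ T := by
    rcases T with _ | T
    · have : 2 ^ 4 ≤ 2 ^ (n * n) := Nat.pow_le_pow_right (by omega) (by nlinarith)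
      simp at a
      omega
    · omega
  have c : (T + 1) * ((k + 2) * (T + 1)) + 1 ≤ m ^ 8 :=
    calc _ ≤ m ^ 3 * (m * m ^ 3) + m ^ 7 := by
          gcongr
          exacts [by omega, Nat.one_le_pow _ _ (by omega)]
      _ = 2 * m ^ 7 := by ring
      _ ≤ m * m ^ 7 := by gcongr
      _ = _ := by ring
  have d : 2 ^ (n * n) ≤ m ^ (40 * T) :=
    calc _ ≤ _ := a
      _ ≤ (m ^ 8) ^ T * (m ^ 3 * m ^ (T + 1)) := by gcongr
      _ = m ^ (9 * T + 4) := by ring
      _ ≤ _ := Nat.pow_le_pow_right (by omega) (by omega)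
  have m2 : (2 : ℝ) ≤ m := by exact_mod_cast m0
  have l0 : 0 < Real.log m := Real.log_pos (by linarith)
  have l2 : 0 < Real.log 2 := Real.log_pos (by norm_num)
  have e := Real.log_le_log (by positivity) (show (2 : ℝ) ^ (n * n) ≤ (m : ℝ) ^ (40 * T) by
    exact_mod_cast d)
  rw [Real.log_pow, Real.log_pow] at e
  push_cast at e
  have f : (m : ℝ) ≤ 12 * n := by exact_mod_cast n1
  rw [Real.norm_of_nonneg (by positivity), Real.norm_of_nonneg (by positivity), div_le_iff₀ l0,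
    div_mul_eq_mul_div, div_mul_eq_mul_div, le_div_iff₀ l2]
  calc _ ≤ (12 * n) ^ 2 * Real.log 2 := by gcongr
    _ = 144 * (n * n * Real.log 2) := by ring
    _ ≤ 144 * (40 * T * Real.log m) := by gcongr
    _ = _ := by ring

end Pool.Agent.H24.Tc
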