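import Pool.Agent.H24.ThV2

set_option autoImplicit false

/-! North-south elements with fixed points `000...` and `111...`; arithmetic gadgets whose
constants lie in Thompson's group F. -/

namespace Pool.Agent.H24.ThF

open Equiv ThV

/-- flip all letters -/
def ρ : Perm X := Function.Involutive.toPerm (fun w k => !w k) fun w => by funext k; simp

@[simp] theorem ρ_cons (b : Bool) (z : X) : ρ (cons b z) = cons (!b) (ρ z) := by
  funext k; cases k <;> rfl
@[simp] theorem ρρ (z : X) : ρ (ρ z) = z := by funext k; simp [ρ]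
theorem ρ_inv : ρ⁻¹ = ρ := rfl
theorem ρ_mul : ρ * ρ = 1 := by rw [mul_eq_one_iff_eq_inv, ρ_inv]

theorem ρ_cat (u : List Bool) (z : X) : ρ (cat u z) = cat (u.map not) (ρ z) := by
  induction u <;> simp_all

theorem ρ_mem {g : Perm X} (h : g ∈ V) : ρ * g * ρ ∈ V := fun w => by
  obtain ⟨u, v, z, e, h'⟩ := h (ρ w)
  refine ⟨u.map not, v.map not, ρ z, by rw [← ρ_cat, ← e, ρρ], fun y => ?_⟩
  rw [Perm.mul_apply, Perm.mul_apply, ← ρρ y, ← ρ_cat, ρρ, h', ρ_cat]

/-- the point `111...` -/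
def q : X := ρ p
theorem cons_q : cons true q = q := by funext k; cases k <;> rfl
theorem p_ne_q : p ≠ q := fun h => by simpa [p, q, ρ] using congrFun h 0

/-- germ at `q` -/
def G1 (g : Perm X) (k : ℤ) : Prop := G0 (ρ * g * ρ) k

theorem G1.mul {g h : Perm X} {k l : ℤ} (a : G1 g k) (b : G1 h l) : G1 (g * h) (k + l) := by
  have := G0.mul a b
  rwa [show ρ * g * ρ * (ρ * h * ρ) = ρ * (g * h) * ρ by
    simp only [mul_assoc]; rw [← mul_assoc ρ ρ, ρ_mul, one_mul]] at this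

theorem G1.inv {g : Perm X} {k : ℤ} (a : G1 g k) : G1 g⁻¹ (-k) := by
  simpa only [G1, mul_inv_rev, ρ_inv, ← mul_assoc] using G0.inv a

theorem G1.zpow {g : Perm X} {k : ℤ} (a : G1 g k) (n : ℤ) : G1 (g ^ n) (n * k) := by
  have := conj_zpow (i := n) (a := ρ) (b := g)
  rw [ρ_inv] at this
  rw [G1, ← this]
  exact G0.zpow a n

/-- north-south elements -/
def NS (f : Perm X) : Prop :=
  (∀ z, f (cons true z) = cons true (cons true z)) ∧ f p = p ∧
    ∀ w, w ≠ p → ∃ n : ℕ, (f ^ n) w 0 = true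

theorem NS.reach {f : Perm X} (h : NS f) (w : X) (hw : w ≠ p) :
    ∃ n z, ∀ m, (f ^ (m + n)) w = ρ (cons false (zs m z)) := by
  obtain ⟨n, hn⟩ := h.2.2 w hw
  refine ⟨n, ρ (tail ((f ^ n) w)), fun m => ?_⟩
  induction m with
  | zero => simp [← hn, cons_tail]
  | succ m ih => rw [add_right_comm, pow_succ', Perm.mul_apply, ih, zs_succ]; simp [h.1]

theorem NS.q {f : Perm X} (h : NS f) : f q = q := by
  have := h.1 ThF.q
  rwa [cons_q, cons_q] at this

theorem NS.fixed {f : Perm X} (h : NS f) {w : X} (e : f w = w) : w = p ∨ w = ThF.q := by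
  refine or_iff_not_imp_left.2 fun hp => ?_
  obtain ⟨n, hn⟩ := h.2.2 _ hp
  rw [Perm.pow_apply_eq_self_of_apply_eq_self e] at hn
  have e1 := cons_tail w
  rw [hn] at e1
  rw [← e1, h.1, cons_inj] at e
  have := eq_p_of (ρ (tail w)) (by conv_lhs => rw [← e.2]; simp)
  rw [← e1, ← ρρ (tail w), this]
  exact cons_q

theorem NS.triv {f g : Perm X} (h : NS f) (hc : Commute g f) (hg : G1 g 0) : g = 1 := by
  obtain ⟨a, b, e, h1⟩ := hg
  obtain rfl : a = b := by omega
  have h2 : ∀ w, w ≠ p → g w = w := fun w hw => by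
    obtain ⟨n, z, hn⟩ := h.reach w hw
    apply (f ^ (a + n)).injective
    rw [← Perm.mul_apply, ← (hc.pow_right _).eq, Perm.mul_apply, hn, ← zs_cons]
    apply ρ.injective
    rw [ρρ]
    exact h1 _
  ext1 w
  by_cases hw : w = p
  · by_contra hne
    subst hw
    exact hne (g.injective (h2 _ hne))
  · exact h2 w hw

theorem NS.fix {f f' g : Perm X} (h : NS f) (h' : NS f') (hg : g ∈ V)
    (hc : SemiconjBy g f f') : g ThF.q = ThF.q ∧ g p = p := by
  have h1 : ∀ w, f w = w → g w = p ∨ g w = ThF.q := fun w e => h'.fixed (by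
    rw [← Perm.mul_apply, ← hc.eq, Perm.mul_apply, e])
  have h3 : g ThF.q = ThF.q := by
    refine (h1 _ h.q).resolve_left fun hp => ?_
    obtain ⟨m, hm⟩ := cont hg ThF.q
    have h2 : ∀ w, w ≠ p → g w = p := fun w hw => by
      by_contra hne
      obtain ⟨n, z, hn⟩ := h.reach w hw
      obtain ⟨n', z', hn'⟩ := h'.reach _ hne
      have a1 := hn (m + n')
      have a2 := hn' (m + n)
      rw [show m + n + n' = m + n' + n by omega, ← Perm.mul_apply, ← (hc.pow_right _).eq,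
        Perm.mul_apply, a1] at a2
      have a3 := hm (ρ (cons false (zs (m + n') z))) fun i hi => by
        rw [← zs_succ]
        exact congrArg not (zs_lt _ _ _ (by omega))
      rw [a2, hp] at a3
      simp [p] at a3
    have a := h2 (cons true p) fun e => by simpa [p] using congrFun e 0
    exact p_ne_q (cons_inj.1 ((g.injective (a.trans hp.symm)).trans cons_q.symm)).2
  exact ⟨h3, (h1 _ h.2.1).resolve_right fun e => p_ne_q (g.injective (e.trans h3.symm))⟩

theorem NS.G1 {f : Perm X} (h : NS f) : G1 f 1 :=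
  ⟨1, 2, by norm_num, fun z => by simp [zs_succ, h.1]⟩

theorem NS.cent {f g : Perm X} (h : NS f) (hg : g ∈ V) (hc : Commute g f) :
    ∃ y : ℤ, g = f ^ y := by
  obtain ⟨k, hk⟩ := G0.ex (ρ_mem hg) (by
    have := (h.fix h hg hc).1
    rw [Perm.mul_apply, Perm.mul_apply, ← ThF.q, this, ThF.q, ρρ])
  refine ⟨k, ?_⟩
  rw [← mul_inv_eq_one]
  refine h.triv (hc.mul_left ((Commute.refl f).zpow_left k).inv_left) ?_
  simpa using G1.mul hk (h.G1.zpow k).inv

/-- the inverse of the first generator of F -/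
def E : Perm X where
  toFun w := if w 0 then cons true w else if w 1 then cons true (cons false (tail (tail w)))
    else tail w
  invFun w := if w 0 then (if w 1 then tail w else cons false (cons true (tail (tail w))))
    else cons false w
  left_inv w := by
    obtain ⟨b, z, rfl⟩ := ex_cons w
    obtain ⟨c, z, rfl⟩ := ex_cons z
    cases b <;> cases c <;> simp
  right_inv w := by
    obtain ⟨b, z, rfl⟩ := ex_cons w
    obtain ⟨c, z, rfl⟩ := ex_cons z
    cases b <;> cases c <;> simp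

@[simp] theorem E1' (z : X) : E (cons true z) = cons true (cons true z) := rfl
@[simp] theorem E01 (z : X) : E (cons false (cons true z)) = cons true (cons false z) := rfl
@[simp] theorem E00 (z : X) : E (cons false (cons false z)) = cons false z := rfl
@[simp] theorem I0 (z : X) : E⁻¹ (cons false z) = cons false (cons false z) := rfl
@[simp] theorem I10 (z : X) : E⁻¹ (cons true (cons false z)) = cons false (cons true z) := rfl
@[simp] theorem I11 (z : X) : E⁻¹ (cons true (cons true z)) = cons true z := rfl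

theorem E_mem : E ∈ V := fun w => by
  obtain ⟨b, z, rfl⟩ := ex_cons w
  obtain ⟨c, z, rfl⟩ := ex_cons z
  cases b <;> cases c
  · exact ⟨[false, false], [false], z, by simp, by simp⟩
  · exact ⟨[false, true], [true, false], z, by simp, by simp⟩
  · exact ⟨[true], [true, true], cons false z, by simp, by simp⟩
  · exact ⟨[true], [true, true], cons true z, by simp, by simp⟩

theorem G0_E : G0 E (-1) := ⟨2, 1, by norm_num, fun z => by simp [zs_succ]⟩
theorem G0_pow (n : ℤ) : G0 (E ^ n) (-n) := by simpa using G0_E.zpow n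

theorem Z0 {k : ℕ} {w : X} (h : Z k w) : Z k (E (cons false w)) := by
  obtain ⟨b, z, rfl⟩ := ex_cons w
  cases b
  · simpa using h
  · exact ⟨0, by omega, rfl⟩

theorem Zpow {k : ℕ} {w : X} (h : Z k w) (x : ℕ) : Z k ((E ^ x) w) := by
  induction x with
  | zero => simpa
  | succ x ih =>
    rw [pow_succ', Perm.mul_apply]
    obtain ⟨b, z, e⟩ := ex_cons ((E ^ x) w)
    rw [e] at ih ⊢
    cases b
    · apply Z0
      obtain ⟨i, hi, h⟩ := ih
      cases i with
      | zero => simp at h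
      | succ i => exact ⟨i, by omega, h⟩
    · exact ⟨0, by omega, rfl⟩

/-- a family of pairwise non-conjugate north-south elements -/
def U (x : ℕ) : Perm X := E * inb false (E ^ x)

theorem U_zero : U 0 = E := by simp [U]
theorem U_mem (x : ℕ) : U x ∈ V := V.mul_mem E_mem (inb_mem _ (V.pow_mem E_mem _))
theorem E_p : E p = p := by simpa only [cons_p] using E00 p

theorem NS_U (x : ℕ) : NS (U x) := by
  refine ⟨fun z => by rw [U, Perm.mul_apply, inb_ne _ _ _ (by simp), E1'], ?_, fun w hw => ?_⟩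
  · rw [U, Perm.mul_apply, ← cons_p, inb_same, Perm.pow_apply_eq_self_of_apply_eq_self E_p,
      cons_p, E_p]
  obtain ⟨k, hk⟩ : ∃ k, Z k w := by
    by_contra hn
    exact hw (funext fun i => by
      by_contra hi
      exact hn ⟨i, i, le_rfl, by simpa [p] using hi⟩)
  clear hw
  induction k generalizing w with
  | zero =>
    obtain ⟨i, hi, h⟩ := hk
    exact ⟨0, by simpa [Nat.le_zero.1 hi] using h⟩
  | succ k ih =>
    obtain ⟨b, z, rfl⟩ := ex_cons w
    cases b
    · obtain ⟨n, hn⟩ := ih _ (Z0 (Zpow (Z.cons.1 hk) x))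
      exact ⟨n + 1, by rw [pow_succ, Perm.mul_apply, U, Perm.mul_apply, inb_same, ← U, hn]⟩
    · exact ⟨0, rfl⟩

theorem NS_E : NS E := U_zero ▸ NS_U 0

theorem G0_U (x : ℕ) : G0 (U x) (-(x + 1)) := by
  have := G0_E.mul (G0_pow x).inb
  rw [zpow_natCast] at this
  rwa [show -((x : ℤ) + 1) = -1 + -x by ring]

theorem cone1 {b : Bool} {f f' g : Perm X} (h : NS f) (hg : g ∈ V)
    (hc : SemiconjBy g (inb b f) (inb b f')) (z : X) : g (cons b z) 0 = b := by
  have h1 : ∀ z, z ≠ p → z ≠ q → g (cons b z) 0 = b := fun z a1 a2 => by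
    by_contra hn
    have := inb_ne b f' _ hn
    rw [← Perm.mul_apply, ← hc.eq, Perm.mul_apply, g.apply_eq_iff_eq, inb_same, cons_inj] at this
    exact (h.fixed this.2).elim a1 a2
  obtain ⟨m, hm⟩ := cont hg (cons b z)
  rw [← hm (cons b fun i => if i < m then z i else decide (i = m)) fun i hi => by
    cases i with
    | zero => rfl
    | succ i => simp [show i < m by omega]]
  exact h1 _ (fun e => by simpa [p] using congrFun e m)
    (fun e => by simpa [q, ρ, p] using congrFun e (m + 1))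

theorem res_ex {b : Bool} {f f' g : Perm X} (h : NS f) (h' : NS f') (hg : g ∈ V)
    (hc : SemiconjBy g (inb b f) (inb b f')) :
    ∃ g' ∈ V, (∀ z, g (cons b z) = cons b (g' z)) ∧ SemiconjBy g' f f' := by
  obtain ⟨g', a1, a2⟩ := decomp hg b fun w => ⟨fun e => by
    have := cone1 h' (V.inv_mem hg) hc.inv_symm_left (tail (g w))
    rw [← e, cons_tail, e] at this
    simpa using this, fun e => by
    rw [← cons_tail w, e, cone1 h hg hc]⟩
  refine ⟨g', a1, a2, ?_⟩
  ext1 z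
  simpa [a2] using congrArg (fun t : Perm X => t (cons b z)) hc.eq

theorem U_conj {b : Bool} {g : Perm X} {i j : ℕ} (hg : g ∈ V)
    (hc : SemiconjBy g (inb b (U i)) (inb b (U j))) : i = j := by
  obtain ⟨g', a1, -, a2⟩ := res_ex (NS_U i) (NS_U j) hg hc
  obtain ⟨k, hk⟩ := G0.ex a1 ((NS_U i).fix (NS_U j) a1 a2).2
  have := (hk.mul (G0_U i)).uniq (a2.eq ▸ (G0_U j).mul hk)
  omega

theorem triv_iff {b : Bool} {g : Perm X} {i j : ℕ} (hij : i ≠ j) (hg : g ∈ V) :
    Commute g (inb b (U i)) ∧ Commute g (inb b (U j)) ↔ ∀ z, g (cons b z) = cons b z := by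
  refine ⟨fun ⟨h1, h2⟩ => ?_, fun h => ⟨comm_inb h _, comm_inb h _⟩⟩
  obtain ⟨g', a1, a2, a3⟩ := res_ex (NS_U i) (NS_U i) hg h1
  obtain ⟨y, hy⟩ := (NS_U i).cent a1 a3
  obtain ⟨y', hy'⟩ := (NS_U j).cent a1 (comm_of a2 h2)
  have b1 := ((NS_U i).G1.zpow y).uniq (hy ▸ hy' ▸ (NS_U j).G1.zpow y')
  have b2 := ((G0_U i).zpow y).uniq (hy ▸ hy' ▸ (G0_U j).zpow y')
  obtain rfl : y = y' := by omega
  have : y * (i - j) = 0 := by linarith
  obtain rfl : y = 0 := (mul_eq_zero.1 this).resolve_right (by omega)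
  simpa [hy] using a2

/-- equational form of being trivial on the cone of `b` -/
def TR (b : Bool) (g : Perm X) : Prop := Commute g (inb b (U 0)) ∧ Commute g (inb b (U 1))

theorem TR_iff {b : Bool} {g : Perm X} (hg : g ∈ V) : TR b g ↔ ∀ z, g (cons b z) = cons b z :=
  triv_iff (by decide) hg

theorem inv_pow0 (n : ℕ) (z : X) : (E ^ n)⁻¹ (cons false z) = cons false (zs n z) := by
  induction n generalizing z with
  | zero => simp
  | succ n ih => rw [pow_succ', mul_inv_rev, Perm.mul_apply, I0, ih, zs_cons, zs_succ]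

theorem pow1 (n : ℕ) (z : X) : (E ^ n) (cons true z) = ρ (cons false (zs n (ρ z))) := by
  induction n with
  | zero => simp
  | succ n ih => rw [pow_succ', Perm.mul_apply, ih, zs_succ]; simp

/-- equational witness for a trivial germ at `p` or `q` -/
def EG (b : Bool) (k d : Perm X) : Prop := Commute k E ∧ TR b (k * d * k⁻¹)

theorem EG.out0 {k d : Perm X} (hk : k ∈ V) (hd : d ∈ V) (h : EG false k d) : G0 d 0 := by
  obtain ⟨y, rfl⟩ := NS_E.cent hk h.1
  have h1 := (TR_iff (V.mul_mem (V.mul_mem hk hd) (V.inv_mem hk))).1 h.2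
  have h2 : G0 (E ^ y * d * (E ^ y)⁻¹) 0 := ⟨1, 1, by simp, fun z => by
    simpa only [zs_succ, zs_zero] using h1 z⟩
  simpa [mul_assoc] using ((G0_pow y).inv.mul h2).mul (G0_pow y)

theorem EG.out1 {k d : Perm X} (hk : k ∈ V) (hd : d ∈ V) (h : EG true k d) : G1 d 0 := by
  obtain ⟨y, rfl⟩ := NS_E.cent hk h.1
  have h1 := (TR_iff (V.mul_mem (V.mul_mem hk hd) (V.inv_mem hk))).1 h.2
  have h2 : G1 (E ^ y * d * (E ^ y)⁻¹) 0 := ⟨1, 1, by simp, fun z => by
    rw [zs_succ, zs_zero, Perm.mul_apply, Perm.mul_apply, ρ_cons, Bool.not_false, h1]; simp⟩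
  simpa [mul_assoc] using ((NS_E.G1.zpow y).inv.mul h2).mul (NS_E.G1.zpow y)

theorem EG.in0 {d : Perm X} (hd : d ∈ V) (h : G0 d 0) : ∃ a : ℕ, EG false (E ^ a) d := by
  obtain ⟨a, b, e1, h1⟩ := h
  obtain rfl : a = b := by omega
  have hk := V.pow_mem E_mem a
  refine ⟨a, (Commute.refl E).pow_left _,
    (TR_iff (V.mul_mem (V.mul_mem hk hd) (V.inv_mem hk))).2 fun z => ?_⟩
  rw [Perm.mul_apply, Perm.mul_apply, inv_pow0, ← zs_cons, h1, zs_cons, ← inv_pow0]
  simp

theorem EG.in1 {d : Perm X} (hd : d ∈ V) (h : G1 d 0) : ∃ a : ℕ, EG true (E ^ a)⁻¹ d := by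
  obtain ⟨a, b, e1, h1⟩ := h
  obtain rfl : a = b := by omega
  have hk := V.inv_mem (V.pow_mem E_mem a)
  refine ⟨a, ((Commute.refl E).pow_left _).inv_left,
    (TR_iff (V.mul_mem (V.mul_mem hk hd) (V.inv_mem hk))).2 fun z => ?_⟩
  have := congrArg ρ (h1 (cons false (ρ z)))
  rw [Perm.mul_apply, Perm.mul_apply, ρρ, zs_cons, ← pow1] at this
  rw [Perm.mul_apply, Perm.mul_apply, inv_inv, this]
  simp

/-- equational description of the nonnegative powers of `E` -/
def NN (g : Perm X) : Prop := Commute g E ∧ TR false (g * inb true E * g⁻¹)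

theorem NN.out {g : Perm X} (hg : g ∈ V) (h : NN g) : ∃ n : ℕ, g = E ^ n := by
  obtain ⟨y, rfl⟩ := NS_E.cent hg h.1
  have h1 := (TR_iff (V.mul_mem (V.mul_mem hg (inb_mem true E_mem)) (V.inv_mem hg))).1 h.2
  rcases y with n | n
  · exact ⟨n, by simp⟩
  · exfalso
    have h2 := h1 (zs n (cons true (cons true p)))
    rw [← inv_pow0, Perm.mul_apply, Perm.mul_apply, zpow_negSucc, inv_inv, pow_succ', mul_inv_rev,
      Perm.mul_apply, Perm.mul_apply, Equiv.apply_eq_iff_eq, Perm.inv_eq_iff_eq] at h2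
    simp at h2

theorem NN.intro (n : ℕ) : NN (E ^ n) := by
  have hk := V.pow_mem E_mem n
  refine ⟨(Commute.refl E).pow_left _,
    (TR_iff (V.mul_mem (V.mul_mem hk (inb_mem true E_mem)) (V.inv_mem hk))).2 fun z => ?_⟩
  rw [Perm.mul_apply, Perm.mul_apply, inb_ne _ _ _ (by rw [inv_pow0]; simp)]
  simp

/-- the multiplication gadget -/
def MU (σ : ℕ → Perm X) : Prop :=
  NN (σ 0) ∧ NN (σ 1) ∧ NN (σ 2) ∧ TR true (σ 3) ∧ Commute (σ 3) (inb false E) ∧
    EG false (σ 5) (σ 3 * (σ 0)⁻¹) ∧ Commute (σ 4) (E * σ 3) ∧ EG true (σ 6) (σ 4 * (σ 1)⁻¹) ∧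
    EG false (σ 7) (σ 4 * (σ 1 * σ 2)⁻¹)

theorem G_a (x y : ℕ) (k : ℤ) : G1 (U x ^ k * (E ^ y)⁻¹) (k - y) := by
  simpa [sub_eq_add_neg] using ((NS_U x).G1.zpow k).mul (NS_E.G1.zpow y).inv

theorem G_b (x y z : ℕ) (k : ℤ) : G0 (U x ^ k * (E ^ y * E ^ z)⁻¹) (y + z - k * (x + 1)) := by
  have := ((G0_U x).zpow k).mul ((G0_pow y).mul (G0_pow z)).inv
  simp only [zpow_natCast] at this
  convert this using 1
  ring

theorem MU.out {σ : ℕ → Perm X} (hσ : ∀ i, σ i ∈ V) (h : MU σ) :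
    ∃ x y : ℕ, σ 0 = E ^ x ∧ σ 1 = E ^ y ∧ σ 2 = E ^ (x * y) := by
  obtain ⟨h0, h1, h2, h3, h4, h5, h6, h7, h8⟩ := h
  obtain ⟨x, hx⟩ := h0.out (hσ 0)
  obtain ⟨y, hy⟩ := h1.out (hσ 1)
  obtain ⟨z, hz⟩ := h2.out (hσ 2)
  have a1 := (TR_iff (hσ 3)).1 h3
  obtain ⟨g', hg', h, h'⟩ := res_ex NS_E NS_E (hσ 3) h4
  obtain ⟨x', rfl⟩ := NS_E.cent hg' h'
  have a2 : σ 3 = inb false (E ^ x') := by
    ext1 w
    obtain ⟨b, z, rfl⟩ := ex_cons w
    cases b
    · rw [h, inb_same]
    · rw [a1, inb_ne _ _ _ (by simp)]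
  have a3 := h5.out0 (hσ 5) (V.mul_mem (hσ 3) (V.inv_mem (hσ 0)))
  rw [a2, hx, ← zpow_natCast] at a3
  obtain rfl : x' = x := by
    have := a3.uniq ((G0_pow x').inb.mul (G0_pow x).inv)
    omega
  rw [a2, zpow_natCast] at h6
  obtain ⟨k, hk⟩ := (NS_U x).cent (hσ 4) h6
  have a4 := h7.out1 (hσ 6) (V.mul_mem (hσ 4) (V.inv_mem (hσ 1)))
  have a5 := h8.out0 (hσ 7) (V.mul_mem (hσ 4) (V.inv_mem (V.mul_mem (hσ 1) (hσ 2))))
  rw [hk, hy] at a4 a5
  rw [hz] at a5
  have b1 := a4.uniq (G_a x y k)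
  have b2 := a5.uniq (G_b x y z k)
  obtain rfl : k = y := by omega
  refine ⟨x, y, hx, hy, ?_⟩
  rw [hz]
  congr 1
  zify
  linarith

theorem MU.intro (H : Subgroup (Perm X)) (hE : E ∈ H) (hi : ∀ g ∈ H, inb false g ∈ H) (x y : ℕ) :
    ∃ σ : ℕ → Perm X, (∀ i, σ i ∈ H) ∧ σ 0 = E ^ x ∧ σ 1 = E ^ y ∧ σ 2 = E ^ (x * y) ∧ MU σ := by
  have he := V.pow_mem E_mem
  have he' := H.pow_mem hE
  have ha := inb_mem false (he x)
  have ha' := hi _ (he' x)
  have hw := V.zpow_mem (U_mem x) (y : ℤ)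
  have hw' := H.zpow_mem (H.mul_mem hE ha') (y : ℤ)
  obtain ⟨k5, b5⟩ := EG.in0 (V.mul_mem ha (V.inv_mem (he x))) (by
    simpa using (G0_pow x).inb.mul (G0_pow x).inv)
  obtain ⟨k6, b6⟩ := EG.in1 (V.mul_mem hw (V.inv_mem (he y))) (by
      simpa only [sub_self] using G_a x y y)
  obtain ⟨k7, b7⟩ := EG.in0 (V.mul_mem hw (V.inv_mem (V.mul_mem (he y) (he (x * y))))) (by
    convert G_b x y (x * y) y using 1
    push_cast; ring)
  refine ⟨fun i => match i with
    | 0 => E ^ x | 1 => E ^ y | 2 => E ^ (x * y) | 3 => inb false (E ^ x)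
    | 4 => U x ^ (y : ℤ) | 5 => E ^ k5 | 6 => (E ^ k6)⁻¹ | _ => E ^ k7,
    fun i => by
      dsimp only; split <;> first | assumption | apply he' | exact H.inv_mem (he' _),
    rfl, rfl, rfl,
    NN.intro _, NN.intro _, NN.intro _, (TR_iff ha).2 fun z => inb_ne _ _ _ (by simp),
    ((Commute.refl E).pow_left x).map _, b5, (Commute.refl _).zpow_left _, b6, b7⟩

end Pool.Agent.H24.ThF
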