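import Pool.Agent.H24.ThF1

set_option autoImplicit false

/-! The finite presentation of F acts faithfully on Cantor space. -/

namespace Pool.Agent.H24.ThF

open Equiv ThV

/-- the two relators -/
def rels : Set (FreeGroup Bool) :=
  {(FreeGroup.of false * (FreeGroup.of true)⁻¹) *
      ((FreeGroup.of false)⁻¹ * FreeGroup.of true * FreeGroup.of false) *
      (FreeGroup.of false * (FreeGroup.of true)⁻¹)⁻¹ *
      ((FreeGroup.of false)⁻¹ * FreeGroup.of true * FreeGroup.of false)⁻¹,
    (FreeGroup.of false * (FreeGroup.of true)⁻¹) *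
      ((FreeGroup.of false)⁻¹ * (FreeGroup.of false)⁻¹ * FreeGroup.of true *
        FreeGroup.of false * FreeGroup.of false) *
      (FreeGroup.of false * (FreeGroup.of true)⁻¹)⁻¹ *
      ((FreeGroup.of false)⁻¹ * (FreeGroup.of false)⁻¹ * FreeGroup.of true *
        FreeGroup.of false * FreeGroup.of false)⁻¹}

abbrev G : Type := PresentedGroup rels

theorem chk {H : Type} [Group H] (f : Bool → H)
    (h1 : Commute (f false * (f true)⁻¹) ((f false)⁻¹ * f true * f false))
    (h2 : Commute (f false * (f true)⁻¹) ((f false)⁻¹ * ((f false)⁻¹ * f true * f false) * f false)) :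
    ∀ r ∈ rels, FreeGroup.lift f r = 1 := by
  rintro r (rfl | rfl) <;> simp only [map_mul, map_inv, FreeGroup.lift_apply_of]
  · rw [h1.eq]; group
  · simp only [← mul_assoc] at h2
    rw [h2.eq]; group

/-- the infinite generating sequence -/
def x : ℕ → G
  | 0 => PresentedGroup.of false
  | 1 => PresentedGroup.of true
  | n + 2 => (PresentedGroup.of false)⁻¹ * x (n + 1) * PresentedGroup.of false

theorem r0 (n : ℕ) : x (n + 2) = (x 0)⁻¹ * x (n + 1) * x 0 := rfl

theorem comm : ∀ n, Commute (x 0 * (x 1)⁻¹) (x (n + 2)) ∧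
    x (n + 3) = (x (n + 1))⁻¹ * x (n + 2) * x (n + 1) := by
  have c2 : Commute (x 0 * (x 1)⁻¹) (x 2) := commutatorElement_eq_one_iff_commute.1
    (PresentedGroup.one_of_mem (rels := rels) (Or.inl rfl))
  have c3 : Commute (x 0 * (x 1)⁻¹) (x 3) := commutatorElement_eq_one_iff_commute.1 (by
    have := PresentedGroup.one_of_mem (rels := rels) (Or.inr rfl)
    simp only [map_mul, map_inv] at this
    simp only [r0, ← mul_assoc, commutatorElement_def] at this ⊢
    exact this)
  have a : ∀ n, x (n + 3) = (x (n + 1))⁻¹ * x (n + 2) * x (n + 1) := fun n => by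
    induction n with
    | zero =>
      have := c2.eq
      rw [r0 1, mul_assoc (x 0)⁻¹, inv_mul_eq_iff_eq_mul.2 (show x 2 * x 0 = x 0 * ((x 1)⁻¹ * x 2 * x 1) by
        rw [← mul_assoc, ← mul_assoc, this]; group)]
    | succ n ih =>
      have e1 := r0 (n + 2)
      have e2 := r0 (n + 1)
      have e3 := r0 n
      calc x (n + 4) = (x 0)⁻¹ * ((x (n + 1))⁻¹ * x (n + 2) * x (n + 1)) * x 0 := by rw [e1, ih]
        _ = (x (n + 2))⁻¹ * ((x 0)⁻¹ * x (n + 2) * x 0) * x (n + 2) := by
          generalize x (n + 2) = y at e3 ⊢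
          nth_rw 2 4 [e3]; group
        _ = _ := by rw [← e2]
  have : ∀ n, Commute (x 0 * (x 1)⁻¹) (x (n + 2)) ∧ Commute (x 0 * (x 1)⁻¹) (x (n + 3)) := fun n => by
    induction n with
    | zero => exact ⟨c2, c3⟩
    | succ n ih => exact ⟨ih.2, by rw [a (n + 1)]; exact (ih.1.inv_right.mul_right ih.2).mul_right ih.1⟩
  exact fun n => ⟨(this n).1, a n⟩

theorem r1 (n : ℕ) : x (n + 3) = (x 1)⁻¹ * x (n + 2) * x 1 := by
  have := (comm n).1.eq
  rw [r0 (n + 1), mul_assoc (x 0)⁻¹, inv_mul_eq_iff_eq_mul, ← mul_assoc, ← mul_assoc, this]; group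

theorem c12 (n : ℕ) : Commute (x 1 * (x 2)⁻¹) (x (n + 3)) := by
  have : x (n + 4) = (x 2)⁻¹ * x (n + 3) * x 2 := by
    calc x (n + 4) = (x 0)⁻¹ * ((x 1)⁻¹ * x (n + 2) * x 1) * x 0 := by rw [r0 (n + 2), r1 n]
      _ = (x 2)⁻¹ * ((x 0)⁻¹ * x (n + 2) * x 0) * x 2 := by rw [r0 0]; group
      _ = _ := by rw [← r0 (n + 1)]
  rw [r1 (n + 1)] at this
  show _ = _
  rw [mul_assoc, show (x 2)⁻¹ * x (n + 3) = (x 1)⁻¹ * x (n + 3) * x 1 * (x 2)⁻¹ by rw [this]; group]
  group

/-- the shift endomorphism -/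
def sh : G →* G := PresentedGroup.toGroup (f := fun b => if b then x 2 else x 1) (chk _
  (by simpa [← r1 0] using c12 0) (by simpa [← r1 0, ← r1 1] using c12 1))

theorem sh_x : ∀ n, sh (x n) = x (n + 1)
  | 0 => PresentedGroup.toGroup.of _
  | 1 => PresentedGroup.toGroup.of _
  | n + 2 => by rw [r0, map_mul, map_mul, map_inv, sh_x 0, sh_x (n + 1), r1]

theorem key (g : G) : sh g * x 0 = x 0 * sh (sh g) := by
  have : (MulAut.conj (x 0)⁻¹).toMonoidHom.comp sh = sh.comp sh := PresentedGroup.ext fun b => by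
    cases b
    · exact (show _ = sh (sh (x 0)) by rw [sh_x, sh_x, r0, ← sh_x 0]; simp [x])
    · exact (show _ = sh (sh (x 1)) by rw [sh_x, sh_x, r0 1, ← sh_x 1]; simp [x])
  have := DFunLike.congr_fun this g
  simp only [MonoidHom.comp_apply, MulEquiv.coe_toMonoidHom, MulAut.conj_apply, inv_inv] at this
  rw [← this]; group

theorem keyp (b : ℕ) (g : G) : sh g * x 0 ^ b = x 0 ^ b * sh (sh^[b] g) := by
  induction b generalizing g with
  | zero => simp
  | succ b ih => rw [pow_succ', ← mul_assoc, key, mul_assoc, ih, mul_assoc]; rfl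

/-- the positive monoid, in normal form -/
inductive P : G → Prop
  | one : P 1
  | st (a : ℕ) (h : G) : P h → P (x 0 ^ a * sh h)

theorem P.sh {g : G} (h : P g) : P (sh g) := by simpa using P.st 0 g h

theorem P.cases {g : G} (h : P g) : ∃ a k, P k ∧ g = x 0 ^ a * ThF.sh k := by
  cases h with
  | one => exact ⟨0, 1, .one, by simp⟩
  | st a h hh => exact ⟨a, h, hh, rfl⟩

theorem P.mul {g h : G} (hg : P g) (hh : P h) : P (g * h) := by
  induction hh generalizing g with
  | one => simpa
  | st b h _ ih =>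
    obtain ⟨a, k, hk, rfl⟩ := hg.cases
    have : P (ThF.sh^[b] k) := Function.Iterate.rec P hk (fun _ => P.sh) b
    rw [mul_assoc, ← mul_assoc (ThF.sh k), keyp, mul_assoc, ← mul_assoc, ← pow_add, ← map_mul]
    exact .st _ _ (ih this)

theorem P.x : ∀ n, P (x n)
  | 0 => by simpa using P.st 1 1 .one
  | n + 1 => sh_x n ▸ (P.x n).sh

theorem ore {g : G} (hg : P g) : ∀ i, ∃ a b, P a ∧ P b ∧ g⁻¹ * x i = a * b⁻¹ := by
  induction hg with
  | one => exact fun i => ⟨_, 1, P.x i, .one, by simp⟩
  | st a h hh ih =>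
    rintro (_ | i)
    · cases a with
      | zero =>
        refine ⟨_, _, P.x 0, hh.sh.sh, ?_⟩
        simpa using key h⁻¹
      | succ a => exact ⟨1, _, .one, .st a h hh, by rw [pow_succ']; group⟩
    · have e : ∀ a i, sh^[a] (x i) = x (i + a) := fun a => by
        induction a with
        | zero => simp
        | succ a ih => intro i; rw [Function.iterate_succ_apply, sh_x, ih]; congr 1; omega
      obtain ⟨u, v, h1, h2, h3⟩ := ih (i + a)
      refine ⟨_, _, h1.sh, .st a v h2, ?_⟩
      have := keyp a (x i)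
      rw [e, sh_x] at this
      rw [mul_inv_rev, mul_inv_rev, ← mul_assoc, ← map_inv, ← map_inv, ← map_mul, ← h3, map_mul,
        mul_assoc, mul_assoc, mul_right_inj, inv_mul_eq_iff_eq_mul, ← mul_assoc, ← this]
      group

theorem frac (g : G) : ∃ a b, P a ∧ P b ∧ g = a * b⁻¹ := by
  have : g ∈ Subgroup.closure (Set.range (PresentedGroup.of (rels := rels))) := by
    rw [PresentedGroup.closure_range_of]; trivial
  induction this using Subgroup.closure_induction_right with
  | one => exact ⟨1, 1, .one, .one, by simp⟩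
  | mul_right g _ y hy ih =>
    obtain ⟨a, b, h1, h2, rfl⟩ := ih
    obtain ⟨i, rfl⟩ : ∃ i, y = x i := by
      obtain ⟨_ | _, rfl⟩ := hy
      exacts [⟨0, rfl⟩, ⟨1, rfl⟩]
    obtain ⟨u, v, h3, h4, e⟩ := ore h2 i
    exact ⟨_, v, h1.mul h3, h4, by rw [mul_assoc, e, mul_assoc]⟩
  | mul_inv_cancel g _ y hy ih =>
    obtain ⟨a, b, h1, h2, rfl⟩ := ih
    obtain ⟨i, rfl⟩ : ∃ i, y = x i := by
      obtain ⟨_ | _, rfl⟩ := hy
      exacts [⟨0, rfl⟩, ⟨1, rfl⟩]
    exact ⟨a, _, h1, (P.x i).mul h2, by group⟩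

@[simp] theorem inb_ft (g : Perm X) (z : X) : inb false g (cons true z) = cons true z :=
  inb_ne _ _ _ (by simp)
@[simp] theorem inb_tf (g : Perm X) (z : X) : inb true g (cons false z) = cons false z :=
  inb_ne _ _ _ (by simp)

@[simp] theorem J0 (z : X) : E.symm (cons false z) = cons false (cons false z) := rfl
@[simp] theorem J10 (z : X) : E.symm (cons true (cons false z)) = cons false (cons true z) := rfl
@[simp] theorem J11 (z : X) : E.symm (cons true (cons true z)) = cons true z := rfl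

theorem ext3 {g h : Perm X} (e : ∀ a b c z, g (cons a (cons b (cons c z))) =
    h (cons a (cons b (cons c z)))) : g = h := by
  ext1 w
  obtain ⟨a, w, rfl⟩ := ex_cons w
  obtain ⟨b, w, rfl⟩ := ex_cons w
  obtain ⟨c, w, rfl⟩ := ex_cons w
  exact e _ _ _ _

theorem conj11 (g : Perm X) : E * inb true g * E⁻¹ = inb true (inb true g) :=
  ext3 fun a b c z => by cases a <;> cases b <;> simp

theorem conj01 (g : Perm X) : E⁻¹ * inb true (inb false g) * E = inb false (inb true g) :=
  ext3 fun a b c z => by cases a <;> cases b <;> simp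

theorem comm11 (g : Perm X) : Commute (E⁻¹ * (inb true E⁻¹)⁻¹) (inb true (inb true g)) := by
  rw [← map_inv, inv_inv]
  exact ext3 fun a b c z => by cases a <;> cases b <;> cases c <;> simp

/-- the action on Cantor space -/
def φ : G →* Perm X := PresentedGroup.toGroup (f := fun b => if b then inb true E⁻¹ else E⁻¹)
  (chk _ (by simpa only [Bool.false_eq_true, if_false, if_true, inv_inv, conj11] using comm11 _)
    (by simpa only [Bool.false_eq_true, if_false, if_true, inv_inv, conj11] using comm11 _))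

theorem φ0 : φ (x 0) = E⁻¹ := PresentedGroup.toGroup.of _
theorem φ1 : φ (x 1) = inb true E⁻¹ := PresentedGroup.toGroup.of _

theorem φ_sh (g : G) : φ (sh g) = inb true (φ g) := by
  have : φ.comp sh = (inb true).comp φ := PresentedGroup.ext fun b => by
    cases b
    · exact (show φ (sh (x 0)) = inb true (φ (x 0)) by rw [sh_x, φ0, φ1])
    · exact (show φ (sh (x 1)) = inb true (φ (x 1)) by
        rw [sh_x, r0, map_mul, map_mul, map_inv, φ0, φ1, inv_inv, conj11])
  exact DFunLike.congr_fun this g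

theorem φ_inj : Function.Injective φ := by
  have a : ∀ (a : ℕ) g, G0 (φ (x 0 ^ a * sh g)) a := fun a g => by
    rw [map_mul, map_pow, φ0, φ_sh, inv_pow]
    simpa using (G0_pow a).inv.mul (h := inb true (φ g)) ⟨1, 1, rfl, by simp [zs_succ]⟩
  have b : ∀ a b g h, φ (x 0 ^ a * sh g) = φ (x 0 ^ b * sh h) → a = b ∧ φ g = φ h :=
    fun i j g h e => by
      obtain rfl : i = j := by exact_mod_cast (a i g).uniq (e ▸ a j h)
      rw [map_mul, map_mul, mul_right_inj, φ_sh, φ_sh] at e
      refine ⟨rfl, Equiv.ext fun z => ?_⟩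
      simpa using congrArg (fun t : Perm X => t (cons true z)) e
  have c : ∀ g, P g → φ g = φ 1 → g = 1 := fun g hg => by
    induction hg with
    | one => simp
    | st i h _ ih =>
      intro e
      obtain ⟨rfl, e'⟩ := b i 0 h 1 (by simpa using e)
      simp [ih e']
  have d : ∀ g, P g → ∀ h, P h → φ h = φ g → h = g := fun g hg => by
    induction hg with
    | one => exact c
    | st i g _ ih =>
      intro h hh e
      obtain ⟨j, k, hk, rfl⟩ := hh.cases
      obtain ⟨rfl, e'⟩ := b _ _ _ _ e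
      rw [ih k hk e']
  refine (injective_iff_map_eq_one φ).2 fun g e => ?_
  obtain ⟨u, v, h1, h2, rfl⟩ := frac g
  rw [map_mul, map_inv, mul_inv_eq_one] at e
  rw [d _ h2 _ h1 e, mul_inv_cancel]

theorem φ_mem (H : Subgroup (Perm X)) (h0 : E ∈ H) (h1 : inb true E ∈ H) (g : G) : φ g ∈ H :=
  PresentedGroup.generated_by rels (H.comap φ) (fun b => by
    cases b
    · exact (show φ (x 0) ∈ H from φ0 ▸ H.inv_mem h0)
    · exact (show φ (x 1) ∈ H by rw [φ1, map_inv]; exact H.inv_mem h1)) g

theorem E_F : E ∈ φ.range := by simpa using φ.range.inv_mem ⟨_, φ0⟩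

theorem inb_F (b : Bool) {g : Perm X} (h : g ∈ φ.range) : inb b g ∈ φ.range := by
  have h1 : ∀ g ∈ φ.range, inb true g ∈ φ.range := by
    rintro _ ⟨g, rfl⟩
    exact ⟨_, φ_sh g⟩
  cases b
  · obtain ⟨g, rfl⟩ := h
    have h2 : inb false E ∈ φ.range := by
      rw [show inb false E = E⁻¹ * (inb true E)⁻¹ * E * E from ext3 fun a b c z => by
        rw [← map_inv]; cases a <;> cases b <;> cases c <;> simp [-map_inv]]
      exact mul_mem (mul_mem (mul_mem (inv_mem E_F) (inv_mem (h1 _ E_F))) E_F) E_F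
    exact φ_mem (φ.range.comap (inb false)) h2 (by
      rw [Subgroup.mem_comap, ← conj01]
      exact mul_mem (mul_mem (inv_mem E_F) (h1 _ h2)) E_F) g
  · exact h1 g h

end Pool.Agent.H24.ThF
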