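import Pool.Agent.H24.ThF2

set_option autoImplicit false

/-! Merging commutation conditions into one equation. -/

namespace Pool.Agent.H24.ThF

open Equiv ThV

/-- lexicographic order -/
def L (w : X) : Lex (ℕ → Bool) := toLex w

theorem L_inj {w z : X} : L w = L z ↔ w = z := Iff.rfl

theorem cons_lt {b c : Bool} {z y : X} :
    L (cons b z) < L (cons c y) ↔ b < c ∨ (b = c ∧ L z < L y) := by
  constructor
  · rintro ⟨_ | i, h1, h2⟩
    · exact .inl h2
    · exact .inr ⟨h1 0 (by omega), i, fun j hj => h1 (j + 1) (by omega), h2⟩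
  · rintro (h | ⟨rfl, i, h1, h2⟩)
    · exact ⟨0, by simp, h⟩
    · exact ⟨i + 1, fun j hj => by cases j; exacts [rfl, h1 _ (by omega)], h2⟩

theorem cons_le {b c : Bool} {z y : X} :
    L (cons b z) ≤ L (cons c y) ↔ b < c ∨ (b = c ∧ L z ≤ L y) := by
  refine (le_iff_lt_or_eq.trans (or_congr cons_lt (L_inj.trans cons_inj))).trans ?_
  have : L z ≤ L y ↔ L z < L y ∨ z = y := le_iff_lt_or_eq
  tauto

theorem p_le (z : X) : L p ≤ L z := Pi.toLex_monotone fun _ => Bool.false_le _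
theorem le_q (z : X) : L z ≤ L q := Pi.toLex_monotone fun _ => Bool.le_true _

theorem cons_false_le (z : X) : L (cons false z) ≤ L z := by
  refine not_lt.1 fun ⟨i, h1, h2⟩ => ?_
  have : ∀ j ≤ i, cons false z j = false := fun j hj => by
    induction j with
    | zero => rfl
    | succ j ih => exact (h1 j (by omega)).trans (ih (by omega))
  exact absurd (this i le_rfl ▸ h2 : z i < false) (by simp)

theorem le_cons_true (z : X) : L z ≤ L (cons true z) := by
  refine not_lt.1 fun ⟨i, h1, h2⟩ => ?_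
  have : ∀ j ≤ i, cons true z j = true := fun j hj => by
    induction j with
    | zero => rfl
    | succ j ih => exact (h1 j (by omega)).symm.trans (ih (by omega))
  exact absurd (this i le_rfl ▸ h2 : true < z i) (by simp)

/-- order preserving permutations -/
def Mo : Subgroup (Perm X) where
  carrier := {g | ∀ w z, L (g w) < L (g z) ↔ L w < L z}
  one_mem' := fun _ _ => Iff.rfl
  mul_mem' := fun {g h} a b w z => (a (h w) (h z)).trans (b w z)
  inv_mem' := fun {g} a w z => by simpa using (a (g⁻¹ w) (g⁻¹ z)).symm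

theorem E_mo : E ∈ Mo := fun w z => by
  obtain ⟨a, w, rfl⟩ := ex_cons w
  obtain ⟨b, w, rfl⟩ := ex_cons w
  obtain ⟨c, z, rfl⟩ := ex_cons z
  obtain ⟨d, z, rfl⟩ := ex_cons z
  cases a <;> cases b <;> cases c <;> cases d <;> simp [cons_lt]

theorem inb_mo (b : Bool) {g : Perm X} (h : g ∈ Mo) : inb b g ∈ Mo := fun w z => by
  obtain ⟨a, w, rfl⟩ := ex_cons w
  obtain ⟨c, z, rfl⟩ := ex_cons z
  cases a <;> cases b <;> cases c <;> simp [cons_lt, h w z]

theorem φ_mo (g : G) : φ g ∈ Mo := φ_mem _ E_mo (inb_mo _ E_mo) g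
theorem φ_V (g : G) : φ g ∈ V := φ_mem _ E_mem (inb_mem _ E_mem) g

/-- permutations moving every point up -/
def Pos (g : Perm X) : Prop := ∀ w, L w ≤ L (g w)

theorem Pos.mul {g h : Perm X} (a : Pos g) (b : Pos h) : Pos (g * h) :=
  fun w => (b w).trans (a _)

theorem Pos.inb (b : Bool) {g : Perm X} (h : Pos g) : Pos (inb b g) := fun w => by
  rcases cases_b b w with ⟨z, rfl⟩ | h'
  · simpa [cons_le] using h z
  · rw [inb_ne _ _ _ h']

theorem Pos.conj {g h : Perm X} (a : Pos g) (b : h ∈ Mo) : Pos (h * g * h⁻¹) := fun w => by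
  exact not_lt.1 fun h' => (a (h⁻¹ w)).not_gt ((b _ _).1 (by simp at h' ⊢; exact h'))

theorem pos_E : Pos E := fun w => by
  obtain ⟨a, w, rfl⟩ := ex_cons w
  obtain ⟨b, w, rfl⟩ := ex_cons w
  cases a <;> cases b <;> simp [cons_le, cons_false_le, le_cons_true]

theorem pos_U (x : ℕ) : Pos (U x) := pos_E.mul (Pos.inb _ (by
  induction x with
  | zero => exact fun _ => le_rfl
  | succ x ih => rw [pow_succ]; exact ih.mul pos_E))

theorem prod_fix (l : List (Perm X)) (h : ∀ f ∈ l, Pos f) :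
    Pos l.prod ∧ ∀ w, l.prod w = w ↔ ∀ f ∈ l, f w = w := by
  induction l with
  | nil => exact ⟨fun _ => le_rfl, by simp⟩
  | cons f l ih =>
    obtain ⟨h1, h2⟩ := ih fun g hg => h g (by simp [hg])
    have h3 := h f (by simp)
    refine ⟨by simpa using h3.mul h1, fun w => ?_⟩
    rw [List.prod_cons, Perm.mul_apply, List.forall_mem_cons, ← h2]
    refine ⟨fun e => ?_, fun e => by rw [e.2, e.1]⟩
    have : l.prod w = w := L_inj.1 (le_antisymm (by simpa [e] using h3 (l.prod w)) (h1 w))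
    exact ⟨by rwa [this] at e, this⟩

theorem prod_one (S : Set X) (F : ℕ → Perm X) (i : ℕ) (h2 : ∀ w ∈ S, F i w ∈ S) (l : List ℕ)
    (hl : l.Nodup) (h1 : ∀ j ∈ l, j ≠ i → ∀ w ∈ S, F j w = w) (w : X) (hw : w ∈ S) :
    (l.map F).prod w = if i ∈ l then F i w else w := by
  induction l with
  | nil => simp
  | cons j l ih =>
    obtain ⟨a1, a2⟩ := List.nodup_cons.1 hl
    rw [List.map_cons, List.prod_cons, Perm.mul_apply, ih a2 fun k hk => h1 k (by simp [hk])]
    by_cases e : j = i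
    · subst e; simp [a1]
    · rw [h1 j (by simp) e _ (by split_ifs; exacts [h2 w hw, hw])]
      simp [Ne.symm e]

/-- action on the cone of `01` -/
def B (f : Perm X) : Perm X := inb false (inb true f)

/-- an involution in `V` exchanging the cones of `1` and `01` -/
def t : Perm X := Function.Involutive.toPerm (fun w => if w 0 then cons false w else
    if w 1 then tail w else w) fun w => by
  obtain ⟨a, w, rfl⟩ := ex_cons w
  obtain ⟨b, w, rfl⟩ := ex_cons w
  cases a <;> cases b <;> simp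

@[simp] theorem t1 (z : X) : t (cons true z) = cons false (cons true z) := rfl
@[simp] theorem t01 (z : X) : t (cons false (cons true z)) = cons true z := rfl
@[simp] theorem t00 (z : X) : t (cons false (cons false z)) = cons false (cons false z) := rfl
theorem t_inv : t⁻¹ = t := rfl

theorem t_mem : t ∈ V := fun w => by
  obtain ⟨b, z, rfl⟩ := ex_cons w
  obtain ⟨c, z, rfl⟩ := ex_cons z
  cases b <;> cases c
  · exact ⟨[false, false], [false, false], z, by simp, by simp⟩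
  · exact ⟨[false, true], [true], z, by simp, by simp⟩
  · exact ⟨[true], [false, true], cons false z, by simp, by simp⟩
  · exact ⟨[true], [false, true], cons true z, by simp, by simp⟩

theorem tB (f : Perm X) : SemiconjBy t (inb true f) (B f) :=
  ext3 fun a b c z => by cases a <;> cases b <;> simp [B]

/-- the `i`-th cone -/
def κ (i : ℕ) (z : X) : X := (E ^ i) (cons false (cons true z))
/-- the `i`-th bump -/
def c (i : ℕ) : Perm X := E ^ i * B (U i) * (E ^ i)⁻¹

theorem c_on (i : ℕ) (z : X) : c i (κ i z) = κ i (U i z) := by simp [c, κ, B]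

theorem mv_c {i : ℕ} {w : X} : c i w ≠ w ↔ ∃ z, (z ≠ p ∧ z ≠ q) ∧ w = κ i z := by
  constructor
  · intro h
    obtain ⟨w, rfl⟩ := (E ^ i).surjective w
    obtain ⟨a, w, rfl⟩ := ex_cons w
    obtain ⟨b, w, rfl⟩ := ex_cons w
    cases a <;> cases b <;> simp [c, B] at h
    exact ⟨w, ⟨fun e => h (e ▸ (NS_U i).2.1), fun e => h (e ▸ (NS_U i).q)⟩, rfl⟩
  · rintro ⟨z, h, rfl⟩ e
    rw [c_on] at e
    exact ((NS_U i).fixed (by simpa [κ] using e)).elim h.1 h.2

theorem κ_lt (i : ℕ) (z y : X) : L (κ i z) < L (κ i y) ↔ L z < L y := by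
  rw [κ, κ, Mo.pow_mem E_mo]; simp [cons_lt]

theorem κ_lt' {i j : ℕ} (h : i < j) (z y : X) : L (κ i z) < L (κ j y) := by
  obtain ⟨d, rfl⟩ := Nat.exists_eq_add_of_lt h
  rw [κ, κ, add_assoc, pow_add, Perm.mul_apply, Mo.pow_mem E_mo, pow_succ, Perm.mul_apply, E01,
    pow1, ρ_cons]
  simp [cons_lt]

theorem κ_idx {i j : ℕ} {z y : X} (e : κ i z = κ j y) : i = j := by
  rcases lt_trichotomy i j with h | h | h
  · exact absurd (e ▸ κ_lt' h z y) (lt_irrefl _)
  · exact h
  · exact absurd (e ▸ κ_lt' h y z) (lt_irrefl _)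

theorem κ_cvx {i : ℕ} {z y w : X} (h1 : L (κ i z) < L w) (h2 : L w < L (κ i y)) :
    ∃ v, w = κ i v := by
  obtain ⟨w, rfl⟩ := (E ^ i).surjective w
  obtain ⟨a, w, rfl⟩ := ex_cons w
  obtain ⟨b, w, rfl⟩ := ex_cons w
  rw [κ, Mo.pow_mem E_mo i _ _] at h1 h2
  cases a <;> cases b <;> first | exact ⟨w, rfl⟩ | (simp [cons_lt] at h1 h2; contradiction)

theorem merge (T : ℕ) (g : ℕ → Perm X) (hV : ∀ i, g i ∈ V) (hM : ∀ i, g i ∈ Mo)
    (h : ((List.range T).map fun i => g i * c i * (g i)⁻¹).prod = ((List.range T).map c).prod) :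
    ∀ i < T, Commute (g i) (c i) := by
  have pc : ∀ i, Pos (c i) := fun i => (((pos_U i).inb _).inb _).conj (Mo.pow_mem E_mo i)
  have mvA : ∀ i w, (g i * c i * (g i)⁻¹) w ≠ w ↔ ∃ z, (z ≠ p ∧ z ≠ q) ∧ w = g i (κ i z) :=
    fun i w => by
      simp only [← Perm.inv_eq_iff_eq, ← mv_c, Perm.mul_apply]
      exact not_congr Perm.eq_inv_iff_eq.symm
  have mv : ∀ w, (∃ i < T, ∃ z, (z ≠ p ∧ z ≠ q) ∧ w = g i (κ i z)) ↔
      ∃ j < T, ∃ z, (z ≠ p ∧ z ≠ q) ∧ w = κ j z := fun w => by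
    have a1 := (prod_fix ((List.range T).map fun i => g i * c i * (g i)⁻¹) (by
      simpa using fun i _ => (pc i).conj (hM i))).2 w
    have a2 := (prod_fix ((List.range T).map c) (by simpa using fun i _ => pc i)).2 w
    rw [h, a2] at a1
    simpa only [List.forall_mem_map, List.mem_range, not_forall, exists_prop, ← mvA, ← mv_c, ne_eq]
      using a1.symm.not
  have n0 : cons true p ≠ p ∧ cons true p ≠ q :=
    ⟨fun e => by simpa [p] using congrFun e 0, fun e => p_ne_q (cons_inj.1 (e.trans cons_q.symm)).2⟩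
  have one : ∀ i < T, ∀ j k z y z' y', z' ≠ q → g i (κ i z) = κ j z' → g i (κ i y) = κ k y' →
      ¬ j < k := fun i hi j k z y z' y' hz e1 e2 hjk => by
    have a1 : L (κ i z) < L ((g i)⁻¹ (κ j q)) := by
      rw [← hM i _ _, e1, ← Perm.mul_apply, mul_inv_cancel, Perm.one_apply, κ_lt]
      exact (le_q _).lt_of_ne hz
    have a2 : L ((g i)⁻¹ (κ j q)) < L (κ i y) := by
      rw [← hM i _ _, e2, ← Perm.mul_apply, mul_inv_cancel, Perm.one_apply]
      exact κ_lt' hjk _ _
    obtain ⟨v, hv⟩ := κ_cvx a1 a2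
    rw [hv, κ_lt] at a1 a2
    obtain ⟨j', -, u, hu, e⟩ := (mv (κ j q)).1 ⟨i, hi, v, ⟨fun e => (p_le z).not_gt (e ▸ a1),
      fun e => (le_q y).not_gt (e ▸ a2)⟩, by rw [← hv]; simp⟩
    obtain rfl := κ_idx e
    exact hu.2 (by simpa [κ] using e.symm)
  have ex : ∀ i : Fin T, ∃ j : Fin T, ∀ z, z ≠ p ∧ z ≠ q → ∃ y, g i (κ i z) = κ j y := fun i => by
    obtain ⟨j, hj, y, hy, e⟩ := (mv _).1 ⟨i, i.2, _, n0, rfl⟩
    refine ⟨⟨j, hj⟩, fun z hz => ?_⟩
    obtain ⟨k, -, y', hy', e'⟩ := (mv _).1 ⟨i, i.2, z, hz, rfl⟩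
    have a1 := one i i.2 _ _ _ _ _ _ hy.2 e e'
    have a2 := one i i.2 _ _ _ _ _ _ hy'.2 e' e
    obtain rfl : j = k := by omega
    exact ⟨y', e'⟩
  choose π hπ using ex
  have inj : Function.Injective π := Finite.injective_iff_surjective.2 fun j => by
    obtain ⟨i, hi, z, hz, e⟩ := (mv _).2 ⟨j, j.2, _, n0, rfl⟩
    obtain ⟨y, e'⟩ := hπ ⟨i, hi⟩ z hz
    exact ⟨_, Fin.ext (κ_idx (e'.symm.trans e.symm))⟩
  intro i hi
  have key : g i * c i * (g i)⁻¹ = c (π ⟨i, hi⟩) := by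
    ext1 w
    by_cases hw : w ∈ Set.range (κ (π ⟨i, hi⟩))
    · have a1 := prod_one _ (fun i => g i * c i * (g i)⁻¹) i (fun w hw => by
        by_cases e : (g i * c i * (g i)⁻¹) w = w
        · rwa [e]
        · obtain ⟨y, hy, e⟩ := (mvA i ((g i * c i * (g i)⁻¹) w)).1 (by rwa [ne_eq, apply_eq_iff_eq])
          obtain ⟨y', e'⟩ := hπ ⟨i, hi⟩ y hy
          exact ⟨y', (e.trans e').symm⟩) _ (List.nodup_range (n := T)) (by
        rintro j hj hji _ ⟨z, rfl⟩
        by_contra e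
        obtain ⟨y, hy, e⟩ := (mvA _ _).1 e
        obtain ⟨y', e'⟩ := hπ ⟨j, List.mem_range.1 hj⟩ y hy
        exact hji (congrArg Fin.val (inj (Fin.ext (κ_idx (e.trans e'))))).symm) w hw
      have a2 := prod_one _ c (π ⟨i, hi⟩) (by rintro _ ⟨z, rfl⟩; exact ⟨_, (c_on _ _).symm⟩) _
        (List.nodup_range (n := T)) (by
        rintro j - hji _ ⟨z, rfl⟩
        by_contra e
        obtain ⟨y, -, e⟩ := mv_c.1 e
        exact hji (κ_idx e).symm) w hw
      rw [h, a2] at a1
      simpa [hi] using a1.symm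
    · have a1 : c (π ⟨i, hi⟩) w = w := by
        by_contra e
        obtain ⟨y, -, e⟩ := mv_c.1 e
        exact hw ⟨y, e.symm⟩
      rw [a1]
      by_contra e
      obtain ⟨y, hy, e⟩ := (mvA _ _).1 e
      obtain ⟨y', e'⟩ := hπ ⟨i, hi⟩ y hy
      exact hw ⟨y', (e.trans e').symm⟩
  generalize (π ⟨i, hi⟩).1 = j at key
  have he := V.pow_mem E_mem
  obtain rfl : i = j := U_conj (b := true) (g := t⁻¹ * ((E ^ j)⁻¹ * g i * E ^ i) * t)
    (mul_mem (mul_mem (inv_mem t_mem) (mul_mem (mul_mem (inv_mem (he _)) (hV _)) (he _))) t_mem)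
    (((tB _).inv_symm_left.mul_left (show _ = _ by
      rw [show B (U j) = (E ^ j)⁻¹ * c j * E ^ j by rw [c]; group, ← key, c]; group)).mul_left
      (tB _))
  exact mul_inv_eq_iff_eq_mul.1 key

theorem triv01 {g : Perm X} (hg : g ∈ V) {i j : ℕ} (hij : i ≠ j) :
    Commute g (B (U i)) ∧ Commute g (B (U j)) ↔
      ∀ z, g (cons false (cons true z)) = cons false (cons true z) := by
  have a : ∀ f, Commute g (B f) ↔ Commute (t⁻¹ * g * t) (inb true f) := fun f => by
    rw [show inb true f = t⁻¹ * B f * t by rw [mul_assoc, ← (tB f).eq]; group]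
    simpa using (Commute.conj_iff t⁻¹).symm
  rw [a, a, triv_iff hij (mul_mem (mul_mem (inv_mem t_mem) hg) t_mem)]
  simp only [Perm.mul_apply, Perm.inv_eq_iff_eq, t1]

end Pool.Agent.H24.ThF
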