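import Pool.Agent.H24.ThF3

set_option autoImplicit false

/-! Single equations over Thompson's group F are undecidable. -/

namespace Pool.Agent.H24.ThF

open Equiv ThV

abbrev Wd : Type := List ((ℕ ⊕ Bool) × Bool)

/-- value of a word -/
def evF (σ : ℕ → G) (w : Wd) : G :=
  (w.map fun p : (ℕ ⊕ Bool) × Bool => (if p.2 then
    Sum.elim σ (fun b : Bool => (PresentedGroup.of b : G)) p.1
    else (Sum.elim σ (fun b : Bool => (PresentedGroup.of b : G)) p.1)⁻¹ : G)).prod

/-- computable families of word maps -/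
def WC (F : ℕ → (ℕ → G) → G) : Prop :=
  ∃ a : ℕ → Wd, Primrec a ∧ ∀ n σ, evF σ (a n) = F n σ

theorem WC.word (a : Wd) : WC fun _ σ => evF σ a := ⟨_, Primrec.const a, fun _ _ => rfl⟩
theorem WC.var (i : ℕ) : WC fun _ σ => σ i :=
  ⟨_, Primrec.const [(.inl i, true)], fun _ _ => by simp [evF]⟩

theorem WC.mul {F H : ℕ → (ℕ → G) → G} (h : WC F) (k : WC H) : WC fun n σ => F n σ * H n σ := by
  obtain ⟨a, a1, a2⟩ := h
  obtain ⟨b, b1, b2⟩ := k
  refine ⟨_, Primrec.list_append.comp a1 b1, fun n σ => ?_⟩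
  dsimp only
  rw [← a2, ← b2, evF, List.map_append, List.prod_append]; rfl

theorem WC.inv {F : ℕ → (ℕ → G) → G} (h : WC F) : WC fun n σ => (F n σ)⁻¹ := by
  obtain ⟨a, a1, a2⟩ := h
  refine ⟨fun n => ((a n).map fun x => (x.1, !x.2)).reverse, Primrec.list_reverse.comp
    (Primrec.list_map a1 ((Primrec.fst.comp Primrec.snd).pair
      (Primrec.not.comp (Primrec.snd.comp Primrec.snd))).to₂), fun n σ => ?_⟩
  dsimp only
  rw [← a2, evF, evF, List.prod_inv_reverse, List.map_reverse, List.map_map, List.map_map]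
  congr 3
  funext x
  rcases x with ⟨x, _ | _⟩ <;> simp

theorem WC.const (g : G) : WC fun _ _ => g :=
  PresentedGroup.generated_by rels
    { carrier := {g | WC fun _ _ => g}
      one_mem' := WC.word []
      mul_mem' := WC.mul
      inv_mem' := WC.inv }
    (fun b => ⟨_, Primrec.const [(.inr b, true)], fun _ _ => by simp [evF]⟩) g

theorem WC.pow (g : G) : WC fun n _ => g ^ n := by
  obtain ⟨a, -, h⟩ := WC.const g
  refine ⟨fun n => (List.replicate n (a 0)).flatten,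
    Primrec.list_flatten.comp (H10.prim_replicate _), fun n σ => ?_⟩
  induction n with
  | zero => simp [evF]
  | succ n ih =>
    dsimp only at ih ⊢
    rw [List.replicate_succ, List.flatten_cons, evF, List.map_append, List.prod_append, pow_succ',
      ← ih, ← show evF σ (a 0) = g from h 0 σ]
    rfl

theorem WC.prod {F : ℕ → ℕ → (ℕ → G) → G} (h : ∀ i, WC (F i)) (l : List ℕ) :
    WC fun n σ => (l.map fun i => F i n σ).prod := by
  induction l with
  | nil => exact WC.const 1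
  | cons i l ih => simpa using (h i).mul ih

/-- `g` acts on the cone of `01` as `f` -/
def Rs (g f : Perm X) : Prop := ∀ z, g (cons false (cons true z)) = cons false (cons true (f z))

theorem Rs.mul {g f g' f' : Perm X} (a : Rs g f) (b : Rs g' f') : Rs (g * g') (f * f') :=
  fun z => by rw [Perm.mul_apply, b, a]; rfl
theorem Rs.inv {g f : Perm X} (a : Rs g f) : Rs g⁻¹ f⁻¹ :=
  fun z => by rw [Perm.inv_eq_iff_eq, a]; simp
theorem Rs.B (f : Perm X) : Rs (B f) f := fun z => by simp [ThF.B]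
theorem Rs.uniq {g f f' : Perm X} (a : Rs g f) (b : Rs g f') : f = f' :=
  Equiv.ext fun z => by simpa using (a z).symm.trans (b z)

theorem rs_ex {g : Perm X} (h1 : g ∈ V) (h2 : g ∈ Mo) (h3 : Rs (E * g * E⁻¹) 1)
    (h4 : Rs (E⁻¹ * g * E) 1) : ∃ f ∈ V, Rs g f := by
  have a1 : g (cons false (cons false (cons true q))) = cons false (cons false (cons true q)) :=
    E.injective (h3 q)
  have a2 : g (cons true (cons false p)) = cons true (cons false p) := E⁻¹.injective (h4 p)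
  have a3 : ∀ w, t w 0 = true ↔ L (cons false (cons false (cons true q))) < L w ∧
      L w < L (cons true (cons false p)) := fun w => by
    obtain ⟨a, w, rfl⟩ := ex_cons w
    obtain ⟨b, w, rfl⟩ := ex_cons w
    have b1 : ¬ L q < L w := (le_q w).not_gt
    have b2 : ¬ L w < L p := (p_le w).not_gt
    cases a <;> cases b <;> simp [cons_lt, cons_q, b1, b2]
  obtain ⟨f, b1, b2⟩ := decomp (mul_mem (mul_mem t_mem h1) t_mem) true fun w => by
    rw [Perm.mul_apply, Perm.mul_apply, a3, ← a1, ← a2, h2 _ _, h2 _ _, ← a3,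
      show t (t w) = w from t.symm_apply_apply w]
  exact ⟨f, b1, fun z => t.injective (b2 z)⟩

open Classical in
/-- a preimage under the action -/
noncomputable def lf (f : Perm X) : G := if h : f ∈ φ.range then h.choose else 1

theorem φ_lf {f : Perm X} (h : f ∈ φ.range) : φ (lf f) = f := by
  rw [lf, dif_pos h]; exact h.choose_spec

theorem B_F {f : Perm X} (h : f ∈ φ.range) : B f ∈ φ.range := inb_F _ (inb_F _ h)
theorem U_F (i : ℕ) : U i ∈ φ.range := mul_mem E_F (inb_F _ (pow_mem E_F _))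

/-- word maps on the cone of `01` -/
def W2 (F : (ℕ → Perm X) → Perm X) : Prop :=
  ∃ a : Wd, ∀ σ τ, (∀ i < 8, Rs (φ (σ i)) (τ i)) → Rs (φ (evF σ a)) (F τ)

theorem W2.var (i : ℕ) (h : i < 8) : W2 fun τ => τ i :=
  ⟨[(.inl i, true)], fun σ τ e => by simpa [evF] using e i h⟩

theorem W2.const {f : Perm X} (h : f ∈ φ.range) : W2 fun _ => f := by
  obtain ⟨a, -, e⟩ := WC.const (lf (B f))
  exact ⟨a 0, fun σ τ _ => by rw [e, φ_lf (B_F h)]; exact Rs.B f⟩

theorem W2.mul {F H : (ℕ → Perm X) → Perm X} (h : W2 F) (k : W2 H) : W2 fun τ => F τ * H τ := by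
  obtain ⟨a, a1⟩ := h
  obtain ⟨b, b1⟩ := k
  obtain ⟨c, -, e⟩ := (WC.word a).mul (WC.word b)
  exact ⟨c 0, fun σ τ h => by rw [e, map_mul]; exact (a1 σ τ h).mul (b1 σ τ h)⟩

theorem W2.inv {F : (ℕ → Perm X) → Perm X} (h : W2 F) : W2 fun τ => (F τ)⁻¹ := by
  obtain ⟨a, a1⟩ := h
  obtain ⟨c, -, e⟩ := (WC.word a).inv
  exact ⟨c 0, fun σ τ h => by rw [e, map_inv]; exact (a1 σ τ h).inv⟩

/-- systems of conditions on the cone of `01` -/
def P2 (R : (ℕ → Perm X) → Prop) : Prop := ∃ l : List Wd, ∀ σ τ, (∀ i < 8, Rs (φ (σ i)) (τ i)) →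
  ((∀ a ∈ l, Rs (φ (evF σ a)) 1) ↔ R τ)

theorem P2.eq {F H : (ℕ → Perm X) → Perm X} (h : W2 F) (k : W2 H) : P2 fun τ => F τ = H τ := by
  obtain ⟨a, a1⟩ := h.mul k.inv
  refine ⟨[a], fun σ τ e => ?_⟩
  dsimp only
  rw [List.forall_mem_singleton, ← mul_inv_eq_one]
  exact ⟨(a1 σ τ e).uniq, fun h => h ▸ a1 σ τ e⟩

theorem P2.and {R S : (ℕ → Perm X) → Prop} (h : P2 R) (k : P2 S) : P2 fun τ => R τ ∧ S τ := by
  obtain ⟨a, a1⟩ := h
  obtain ⟨b, b1⟩ := k
  exact ⟨a ++ b, fun σ τ e => by rw [List.forall_mem_append, a1 σ τ e, b1 σ τ e]⟩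

theorem P2.mu : P2 MU := by
  unfold MU EG NN TR Commute SemiconjBy
  repeat' first
    | apply P2.and | apply P2.eq | exact W2.var _ (by decide) | exact W2.const E_F
    | exact W2.const (inb_F _ E_F) | exact W2.const (inb_F _ (U_F _)) | apply W2.mul | apply W2.inv

theorem P2.ad : P2 fun σ => NN (σ 0) ∧ NN (σ 1) ∧ σ 0 * σ 1 = σ 2 := by
  unfold NN TR Commute SemiconjBy
  repeat' first
    | apply P2.and | apply P2.eq | exact W2.var _ (by decide) | exact W2.const E_F
    | exact W2.const (inb_F _ E_F) | exact W2.const (inb_F _ (U_F _)) | apply W2.mul | apply W2.inv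

theorem undec : ¬ ComputablePred fun w : Wd => ∃ σ : ℕ → G, evF σ w = 1 := by
  obtain ⟨A, hA⟩ := P2.ad
  obtain ⟨M, hM⟩ := P2.mu
  choose u _ hu using fun i => ((WC.const (x 0)⁻¹).mul (WC.var i)).mul (WC.const (x 0))
  choose v _ hv using fun i => ((WC.const (x 0)).mul (WC.var i)).mul (WC.const (x 0)⁻¹)
  have pr : ∀ σ : ℕ → G, (∀ a ∈ (List.range 8).flatMap fun i => [u i 0, v i 0],
      Rs (φ (evF σ a)) 1) ↔ ∀ i < 8, Rs (E * φ (σ i) * E⁻¹) 1 ∧ Rs (E⁻¹ * φ (σ i) * E) 1 :=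
    fun σ => by
      simp only [List.forall_mem_flatMap, List.forall_mem_cons, hu, hv, φ0, map_mul, map_inv,
        inv_inv, List.mem_range, List.not_mem_nil, false_imp_iff, implies_true, and_true]
  have lift : ∀ (R : (ℕ → Perm X) → Prop) (l : List Wd), (∀ σ τ, (∀ i < 8, Rs (φ (σ i)) (τ i)) →
      ((∀ a ∈ l, Rs (φ (evF σ a)) 1) ↔ R τ)) → ∀ τ, (∀ i, τ i ∈ φ.range) → R τ →
      ∀ a ∈ ((List.range 8).flatMap fun i => [u i 0, v i 0]) ++ l,
        Rs (φ (evF (fun i => lf (B (τ i))) a)) 1 := fun R l h τ h1 h2 => by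
    rw [List.forall_mem_append, pr, h _ τ fun i _ => by rw [φ_lf (B_F (h1 i))]; exact Rs.B _]
    refine ⟨fun i _ => ?_, h2⟩
    rw [φ_lf (B_F (h1 i))]
    exact ⟨fun z => by simp [B], fun z => by simp [B]⟩
  obtain ⟨S, p, o, K, hK, h1, h2⟩ := H10.generic' (M := G) (fun a σ => Rs (φ (evF σ a)) 1)
    (fun f a => a.map fun x => (x.1.map f id, x.2)) (fun f a σ => by
      rw [evF, evF, List.map_map]
      refine iff_of_eq (congrArg (fun l => Rs (φ (List.prod (List.map l a))) 1) ?_)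
      funext y
      rcases y with ⟨y | y, b⟩ <;> rfl)
    (fun g n => Rs (φ g) (E ^ n)) (fun m a b ha hb => by
      have h1 := G0_pow a
      have h2 := G0_pow b
      rw [zpow_natCast] at h1 h2
      have := h1.uniq (ha.uniq hb ▸ h2)
      omega) (fun n => lf (B (E ^ n)))
    (fun b => ((List.range 8).flatMap fun i => [u i 0, v i 0]) ++ if b then A else M)
    (fun b σ h => by
      rw [List.forall_mem_append, pr] at h
      have : ∀ i, ∃ f ∈ V, i < 8 → Rs (φ (σ i)) f := fun i => by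
        by_cases hi : i < 8
        · obtain ⟨f, a, b⟩ := rs_ex (φ_V _) (φ_mo _) (h.1 i hi).1 (h.1 i hi).2
          exact ⟨f, a, fun _ => b⟩
        · exact ⟨1, one_mem _, fun h => absurd h hi⟩
      choose τ a1 a2 using this
      cases b
      · obtain ⟨x, y, h0, h1, h2⟩ := MU.out a1 ((hM σ τ a2).1 h.2)
        exact ⟨x, y, _, h0 ▸ a2 0 (by decide), h1 ▸ a2 1 (by decide), h2 ▸ a2 2 (by decide), rfl⟩
      · obtain ⟨h0, h1, h2⟩ := (hA σ τ a2).1 h.2
        obtain ⟨x, hx⟩ := h0.out (a1 0)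
        obtain ⟨y, hy⟩ := h1.out (a1 1)
        exact ⟨x, y, x + y, hx ▸ a2 0 (by decide), hy ▸ a2 1 (by decide), by
          rw [pow_add, ← hx, ← hy, h2]; exact a2 2 (by decide), rfl⟩)
    (fun b x y => by
      cases b
      · obtain ⟨τ, h, h0, h1, h2, hm⟩ := MU.intro φ.range E_F (fun _ => inb_F _) x y
        exact ⟨_, by rw [h0], by rw [h1], by rw [h2]; rfl, lift _ _ hM τ h hm⟩
      · exact ⟨_, rfl, rfl, rfl, lift _ _ hA
          (fun i => E ^ (if i = 0 then x else if i = 1 then y else x + y))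
          (fun _ => pow_mem E_F _) ⟨NN.intro _, NN.intro _, by simp [pow_add]⟩⟩)
  have cF : ∀ i, c i ∈ φ.range := fun i =>
    mul_mem (mul_mem (pow_mem E_F _) (B_F (U_F i))) (inv_mem (pow_mem E_F _))
  let D : ℕ → ℕ → (ℕ → G) → G := fun j n σ => match j with
    | 0 => (σ p)⁻¹ * lf (B E) ^ n
    | 1 => (σ o)⁻¹ * lf (B E) ^ 1
    | j + 2 => evF σ (S.getD j [])
  have hD : ∀ j, WC (D j) := fun j => match j with
    | 0 => (WC.var p).inv.mul (WC.pow _)
    | 1 => (WC.var o).inv.mul (WC.const _)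
    | _ + 2 => WC.word _
  have cs : ∀ g n, Rs (φ (g⁻¹ * lf (B E) ^ n)) 1 ↔ Rs (φ g) (E ^ n) := fun g n => by
    rw [map_mul, map_inv, map_pow, φ_lf (B_F E_F), show B E ^ n = B (E ^ n) by simp [B]]
    refine ⟨fun h => ?_, fun h => by simpa using h.inv.mul (Rs.B (E ^ n))⟩
    simpa using (Rs.B (E ^ n)).mul h.inv
  have all : ∀ n σ, (∀ j < S.length + 2, Rs (φ (D j n σ)) 1) ↔ Rs (φ (σ p)) (E ^ n) ∧
      Rs (φ (σ o)) (E ^ 1) ∧ ∀ a ∈ S, Rs (φ (evF σ a)) 1 := fun n σ => by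
    rw [Nat.forall_lt_succ_left, Nat.forall_lt_succ_left, List.forall_mem_iff_getElem, ← cs, ← cs]
    refine and_congr Iff.rfl (and_congr Iff.rfl (forall₂_congr fun j hj => ?_))
    simp [D, hj]
  let g : ℕ → ℕ → (ℕ → G) → G := fun i n σ => (x 0)⁻¹ ^ i * D (i / 2) n σ * ((x 0)⁻¹ ^ i)⁻¹
  have hg : ∀ i, WC (g i) := fun i => ((WC.const _).mul (hD _)).mul (WC.const _)
  have cm : ∀ i n σ, Commute (φ (g i n σ)) (c i) ↔ Commute (φ (D (i / 2) n σ)) (B (U i)) :=
    fun i n σ => by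
      simp only [g, map_mul, map_inv, map_pow, φ0, inv_inv, c]
      exact Commute.conj_iff _
  obtain ⟨w, w1, w2⟩ := (WC.prod (fun i => ((hg i).mul (WC.const (lf (c i)))).mul (hg i).inv)
    (List.range (2 * (S.length + 2)))).mul
    (WC.const ((List.range (2 * (S.length + 2))).map fun i => lf (c i)).prod).inv
  refine H10.not_comp_of_red hK w w1.to_comp fun n => ⟨fun h => ?_, ?_⟩
  · obtain ⟨σ, e1, e2, e3⟩ := h2 n h
    have := (all n σ).2 ⟨by rw [e1, φ_lf (B_F (pow_mem E_F _))]; exact Rs.B _,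
      by rw [e2, φ_lf (B_F (pow_mem E_F _))]; exact Rs.B _, e3⟩
    refine ⟨σ, ?_⟩
    rw [w2, mul_inv_eq_one]
    refine congrArg List.prod (List.map_congr_left fun i hi => φ_inj ?_)
    have := (cm i n σ).2 ((triv01 (φ_V _) (Nat.succ_ne_self i)).2
      (this _ (by have := List.mem_range.1 hi; omega))).2
    rw [map_mul, map_mul, φ_lf (cF i), this.eq, map_inv, mul_inv_cancel_right]
  · rintro ⟨σ, e⟩
    rw [w2, mul_inv_eq_one] at e
    have := merge (2 * (S.length + 2)) (fun i => φ (g i n σ)) (fun _ => φ_V _) (fun _ => φ_mo _) (by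
      simpa only [map_list_prod, List.map_map, Function.comp_def, map_mul, map_inv, φ_lf (cF _)]
        using congrArg φ e)
    obtain ⟨b1, b2, b3⟩ := (all n σ).1 fun j hj => (triv01 (φ_V _) (Nat.succ_ne_self (2 * j))).1
      ⟨by simpa only [show (2 * j + 1) / 2 = j by omega] using
          (cm (2 * j + 1) n σ).1 (this _ (by omega)),
        by simpa only [show 2 * j / 2 = j by omega] using (cm (2 * j) n σ).1 (this _ (by omega))⟩
    exact h1 n σ b1 b2 b3

end Pool.Agent.H24.ThF
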