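import Mathlib

set_option autoImplicit false

/-! Thompson's group V on Cantor space: local description, germs, north-south dynamics. -/

namespace Pool.Agent.H24.ThV

open Equiv

abbrev X := ℕ → Bool

/-- prepend a finite word -/
def cat (u : List Bool) (w : X) : X :=
  fun k => if h : k < u.length then u.get ⟨k, h⟩ else w (k - u.length)

/-- prepend a letter -/
def cons (b : Bool) (w : X) : X
  | 0 => b
  | k + 1 => w k

/-- drop the first letter -/
def tail (w : X) : X := fun k => w (k + 1)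

@[simp] theorem cat_nil (w : X) : cat [] w = w := by funext k; simp [cat]

@[simp] theorem cat_cons (b : Bool) (u : List Bool) (w : X) :
    cat (b :: u) w = cons b (cat u w) := by
  funext k
  cases k with
  | zero => simp [cat, cons]
  | succ k => simp [cat, cons]

@[simp] theorem cons_zero (b : Bool) (w : X) : cons b w 0 = b := rfl
@[simp] theorem cons_succ (b : Bool) (w : X) (k : ℕ) : cons b w (k + 1) = w k := rfl
@[simp] theorem tail_cons (b : Bool) (w : X) : tail (cons b w) = w := rfl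

theorem cons_tail (w : X) : cons (w 0) (tail w) = w := by
  funext k; cases k <;> rfl

theorem ex_cons (w : X) : ∃ b z, w = cons b z := ⟨_, _, (cons_tail w).symm⟩

@[simp] theorem cons_inj {b c : Bool} {w z : X} : cons b w = cons c z ↔ b = c ∧ w = z :=
  ⟨fun h => ⟨congrFun h 0, congrArg tail h⟩, fun h => by rw [h.1, h.2]⟩

theorem cat_append (u v : List Bool) (w : X) : cat (u ++ v) w = cat u (cat v w) := by
  induction u with
  | nil => simp
  | cons b u ih => simp [ih]

theorem cmp : ∀ (a b : List Bool) (x y : X), cat a x = cat b y →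
    (∃ r, b = a ++ r ∧ x = cat r y) ∨ ∃ r, a = b ++ r ∧ y = cat r x
  | [], b, x, y, h => Or.inl ⟨b, rfl, by simpa using h⟩
  | a, [], x, y, h => Or.inr ⟨a, rfl, by simpa using h.symm⟩
  | c :: a, d :: b, x, y, h => by
    simp only [cat_cons, cons_inj] at h
    obtain ⟨rfl, h⟩ := h
    simpa using cmp a b x y h

theorem pre_iff (u : List Bool) (w : X) :
    (∀ i, ∀ h : i < u.length, w i = u.get ⟨i, h⟩) ↔ ∃ z, w = cat u z := by
  constructor
  · intro h
    refine ⟨fun k => w (k + u.length), funext fun k => ?_⟩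
    unfold cat
    split_ifs with hk
    · exact h k hk
    · congr 1; omega
  · rintro ⟨z, rfl⟩ i h
    simp [cat, h]

/-- the group of permutations that are locally replacements of initial words -/
def V : Subgroup (Perm X) where
  carrier := {g | ∀ w, ∃ u v z0, w = cat u z0 ∧ ∀ z, g (cat u z) = cat v z}
  one_mem' := fun w => ⟨[], [], w, by simp, by simp⟩
  inv_mem' := fun {g} h w => by
    obtain ⟨u, v, z0, e, h'⟩ := h (g⁻¹ w)
    refine ⟨v, u, z0, ?_, fun z => ?_⟩
    · rw [← h', ← e]; simp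
    · rw [← h']; simp
  mul_mem' := fun {g h} hg hh w => by
    obtain ⟨u, v, z0, e, h1⟩ := hh w
    obtain ⟨u', v', z1, e', h2⟩ := hg (h w)
    rw [e, h1] at e'
    rcases cmp _ _ _ _ e' with ⟨r, rfl, rfl⟩ | ⟨r, rfl, -⟩
    · exact ⟨u ++ r, v', z1, by rw [e, cat_append], fun z => by
        rw [Perm.mul_apply, cat_append, h1, ← cat_append, h2]⟩
    · exact ⟨u, v' ++ r, z0, e, fun z => by rw [Perm.mul_apply, h1, cat_append, h2, cat_append]⟩

/-- `D` is a table for `g` -/
def Tab (D : List (List Bool × List Bool)) (g : Perm X) : Prop :=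
  (∀ w : X, ∃ p ∈ D, ∀ i : ℕ, ∀ h : i < p.1.length, w i = p.1.get ⟨i, h⟩) ∧
    ∀ p ∈ D, ∀ w : X, g (cat p.1 w) = cat p.2 w

theorem Tab.uniq {D : List (List Bool × List Bool)} {g h : Perm X} (a : Tab D g) (b : Tab D h) :
    g = h := by
  ext1 w
  obtain ⟨p, hp, e⟩ := a.1 w
  obtain ⟨z, rfl⟩ := (pre_iff _ _).1 e
  rw [a.2 p hp, b.2 p hp]

theorem mem_V_iff (g : Perm X) : g ∈ V ↔ ∃ D, Tab D g := by
  constructor
  · intro h
    choose u v z e h' using h
    obtain ⟨t, -, ht⟩ := isCompact_univ.elim_nhds_subcover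
      (fun w : X => PiNat.cylinder (E := fun _ => Bool) w (u w).length) fun w _ =>
        (PiNat.isOpen_cylinder (fun _ => Bool) w _).mem_nhds (PiNat.self_mem_cylinder _ _)
    refine ⟨t.toList.map fun w => (u w, v w), fun w => ?_, fun p hp => ?_⟩
    · obtain ⟨x, hx, hw⟩ := Set.mem_iUnion₂.1 (ht (Set.mem_univ w))
      refine ⟨(u x, v x), List.mem_map.2 ⟨x, by simpa using hx, rfl⟩, fun i hi => ?_⟩
      rw [PiNat.mem_cylinder_iff.1 hw i hi]
      exact (pre_iff _ _).2 ⟨_, e x⟩ i hi
    · obtain ⟨x, -, rfl⟩ := List.mem_map.1 hp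
      exact h' x
  · rintro ⟨D, h1, h2⟩ w
    obtain ⟨p, hp, e⟩ := h1 w
    obtain ⟨z, rfl⟩ := (pre_iff _ _).1 e
    exact ⟨p.1, p.2, z, rfl, h2 p hp⟩

theorem loc_cons {g : Perm X} (h : g ∈ V) (w : X) :
    ∃ b c u v z0, w = cons b (cat u z0) ∧ ∀ z, g (cons b (cat u z)) = cons c (cat v z) := by
  obtain ⟨u, v, z0, e, h'⟩ := h w
  obtain ⟨d, z1, rfl⟩ := ex_cons z0
  obtain ⟨b, u', hu⟩ := List.exists_cons_of_ne_nil (l := u ++ [d]) (by simp)
  obtain ⟨c, v', hv⟩ := List.exists_cons_of_ne_nil (l := v ++ [d]) (by simp)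
  refine ⟨b, c, u', v', z1, ?_, fun z => ?_⟩
  · rw [← cat_cons, ← hu, cat_append, e]; simp
  · rw [← cat_cons, ← hu, ← cat_cons, ← hv, cat_append, cat_append, h']

theorem cont {g : Perm X} (h : g ∈ V) (w : X) :
    ∃ m, ∀ w' : X, (∀ i < m, w' i = w i) → g w' 0 = g w 0 := by
  obtain ⟨b, c, u, v, z0, e, h'⟩ := loc_cons h w
  refine ⟨(b :: u).length, fun w' hw => ?_⟩
  obtain ⟨z, rfl⟩ := (pre_iff (b :: u) w').1 fun i hi => by
    rw [hw i hi]; exact (pre_iff (b :: u) w).2 ⟨z0, by simpa using e⟩ i hi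
  rw [e, cat_cons, h', h']; rfl

/-- the point `000...` -/
def p : X := fun _ => false

/-- `a` zeros followed by `z` -/
def zs (a : ℕ) (z : X) : X := cat (List.replicate a false) z

@[simp] theorem zs_zero (z : X) : zs 0 z = z := by simp [zs]
theorem zs_succ (a : ℕ) (z : X) : zs (a + 1) z = cons false (zs a z) := by
  simp [zs, List.replicate_succ]
theorem zs_add (a b : ℕ) (z : X) : zs (a + b) z = zs a (zs b z) := by
  simp [zs, List.replicate_add, cat_append, -List.replicate_append_replicate]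
theorem zs_cons (a : ℕ) (z : X) : zs a (cons false z) = cons false (zs a z) := by
  rw [← zs_succ, zs_add, zs_succ, zs_zero]
theorem cons_p : cons false p = p := by funext k; cases k <;> rfl
theorem zs_lt (a i : ℕ) (z : X) (h : i < a) : zs a z i = false := by simp [zs, cat, h]
theorem zs_self (a : ℕ) (z : X) : zs a z a = z 0 := by simp [zs, cat]

theorem cat_eq_p : ∀ (u : List Bool) (z : X), cat u z = p →
    u = List.replicate u.length false ∧ z = p
  | [], z, h => by simpa using h
  | b :: u, z, h => by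
    rw [cat_cons, ← cons_p, cons_inj] at h
    obtain ⟨h1, h2⟩ := cat_eq_p u z h.2
    exact ⟨by rw [List.length_cons, List.replicate_succ, ← h1, h.1], h2⟩

/-- the germ at `p` is a shift by `k` -/
def G0 (g : Perm X) (k : ℤ) : Prop :=
  ∃ a b : ℕ, (b : ℤ) - a = k ∧ ∀ z, g (zs a z) = zs b z

theorem G0.mul {g h : Perm X} {k l : ℤ} (hg : G0 g k) (hh : G0 h l) : G0 (g * h) (k + l) := by
  obtain ⟨a, b, e, h1⟩ := hg
  obtain ⟨a', b', e', h2⟩ := hh
  refine ⟨a' + a, b + b', by push_cast; omega, fun z => ?_⟩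
  rw [Perm.mul_apply, zs_add, h2, ← zs_add, add_comm b' a, zs_add, h1, zs_add]

theorem G0.inv {g : Perm X} {k : ℤ} (hg : G0 g k) : G0 g⁻¹ (-k) := by
  obtain ⟨a, b, e, h1⟩ := hg
  exact ⟨b, a, by omega, fun z => by rw [← h1]; simp⟩

theorem G0.one : G0 1 0 := ⟨0, 0, rfl, fun _ => rfl⟩

theorem G0.zpow {g : Perm X} {k : ℤ} (hg : G0 g k) (n : ℤ) : G0 (g ^ n) (n * k) := by
  induction n using Int.induction_on with
  | zero => simpa using G0.one
  | succ i ih => rw [zpow_add_one, add_mul, one_mul]; exact ih.mul hg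
  | pred i ih => rw [zpow_sub_one, sub_mul, one_mul]; exact ih.mul hg.inv

theorem G0.uniq {g : Perm X} {k l : ℤ} (hk : G0 g k) (hl : G0 g l) : k = l := by
  obtain ⟨a, b, e, h⟩ := hk.mul hl.inv
  have h1 := h fun _ => true
  simp only [mul_inv_cancel, Perm.one_apply] at h1
  rcases lt_trichotomy a b with c | c | c
  · have := congrFun h1 a
    rw [zs_self, zs_lt _ _ _ c] at this; simp at this
  · omega
  · have := congrFun h1 b
    rw [zs_self, zs_lt _ _ _ c] at this; simp at this

theorem G0.ex {g : Perm X} (h : g ∈ V) (hp : g p = p) : ∃ k, G0 g k := by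
  obtain ⟨u, v, z0, e, h'⟩ := h p
  obtain ⟨h1, rfl⟩ := cat_eq_p _ _ e.symm
  have := h' p
  rw [← e, hp] at this
  obtain ⟨h2, -⟩ := cat_eq_p _ _ this.symm
  exact ⟨_, u.length, v.length, rfl, fun z => by unfold zs; rw [← h1, ← h2, h']⟩

/-- flip the first letter -/
def r : Perm X := Function.Involutive.toPerm (fun w => cons (!w 0) (tail w)) fun w => by
  simp [cons_tail]

@[simp] theorem r_cons (b : Bool) (z : X) : r (cons b z) = cons (!b) z := rfl

theorem r_inv : r⁻¹ = r := rfl

theorem r_mem : r ∈ V := fun w => by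
  obtain ⟨b, z, rfl⟩ := ex_cons w
  exact ⟨[b], [!b], z, by simp, by simp⟩

/-- the basic north-south element -/
def e : Perm X where
  toFun w := if w 0 then cons true (cons false (tail w)) else
    if w 1 then cons true (tail w) else tail w
  invFun w := if w 0 then (if w 1 then cons false (tail w) else cons true (tail (tail w)))
    else cons false w
  left_inv w := by
    obtain ⟨b, z, rfl⟩ := ex_cons w
    obtain ⟨c, z, rfl⟩ := ex_cons z
    cases b <;> cases c <;> simp
  right_inv w := by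
    obtain ⟨b, z, rfl⟩ := ex_cons w
    obtain ⟨c, z, rfl⟩ := ex_cons z
    cases b <;> cases c <;> simp

@[simp] theorem e1 (z : X) : e (cons true z) = cons true (cons false z) := rfl
@[simp] theorem e01 (z : X) : e (cons false (cons true z)) = cons true (cons true z) := rfl
@[simp] theorem e00 (z : X) : e (cons false (cons false z)) = cons false z := rfl

theorem e_mem : e ∈ V := fun w => by
  obtain ⟨b, z, rfl⟩ := ex_cons w
  obtain ⟨c, z, rfl⟩ := ex_cons z
  cases b <;> cases c
  · exact ⟨[false, false], [false], z, by simp, by simp⟩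
  · exact ⟨[false, true], [true, true], z, by simp, by simp⟩
  · exact ⟨[true], [true, false], cons false z, by simp, by simp⟩
  · exact ⟨[true], [true, false], cons true z, by simp, by simp⟩

theorem rer : r * e * r = e⁻¹ := by
  rw [eq_inv_iff_mul_eq_one]
  ext1 w
  obtain ⟨b, z, rfl⟩ := ex_cons w
  obtain ⟨c, z, rfl⟩ := ex_cons z
  cases b <;> cases c <;> simp

theorem G0_e : G0 e (-1) := ⟨2, 1, by norm_num, fun z => by simp [zs_succ]⟩

/-- action on the cone of the letter `b` -/
def inbf (b : Bool) (g : X → X) (w : X) : X := if w 0 = b then cons b (g (tail w)) else w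

@[simp] theorem inbf_same (b : Bool) (g : X → X) (z : X) : inbf b g (cons b z) = cons b (g z) := by
  simp [inbf]

theorem inbf_ne (b : Bool) (g : X → X) (w : X) (h : w 0 ≠ b) : inbf b g w = w := by simp [inbf, h]

theorem cases_b (b : Bool) (w : X) : (∃ z, w = cons b z) ∨ w 0 ≠ b := by
  by_cases h : w 0 = b
  · exact Or.inl ⟨_, by rw [← h, cons_tail]⟩
  · exact Or.inr h

/-- the embedding of `V` onto the cone of `b` -/
def inb (b : Bool) : Perm X →* Perm X where
  toFun g :=
    { toFun := inbf b g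
      invFun := inbf b ⇑(g⁻¹)
      left_inv := fun w => by
        rcases cases_b b w with ⟨z, rfl⟩ | h
        · simp
        · rw [inbf_ne _ _ _ h, inbf_ne _ _ _ h]
      right_inv := fun w => by
        rcases cases_b b w with ⟨z, rfl⟩ | h
        · simp
        · rw [inbf_ne _ _ _ h, inbf_ne _ _ _ h] }
  map_one' := by
    ext1 w
    show inbf b _ w = w
    rcases cases_b b w with ⟨z, rfl⟩ | h
    · simp
    · rw [inbf_ne _ _ _ h]
  map_mul' g h := by
    ext1 w
    show inbf b _ w = inbf b _ (inbf b _ w)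
    rcases cases_b b w with ⟨z, rfl⟩ | h
    · simp
    · rw [inbf_ne _ _ _ h, inbf_ne _ _ _ h, inbf_ne _ _ _ h]

@[simp] theorem inb_same (b : Bool) (g : Perm X) (z : X) : inb b g (cons b z) = cons b (g z) :=
  inbf_same _ _ _

theorem inb_ne (b : Bool) (g : Perm X) (w : X) (h : w 0 ≠ b) : inb b g w = w := inbf_ne _ _ _ h

theorem inb_mem (b : Bool) {g : Perm X} (h : g ∈ V) : inb b g ∈ V := fun w => by
  rcases cases_b b w with ⟨z, rfl⟩ | h'
  · obtain ⟨u, v, z0, e, h1⟩ := h z
    exact ⟨b :: u, b :: v, z0, by simp [e], fun z => by simp [h1]⟩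
  · exact ⟨[w 0], [w 0], tail w, by simp [cons_tail], fun z => inb_ne _ _ _ (by simpa using h')⟩

theorem G0.inb {g : Perm X} {k : ℤ} (h : G0 g k) : G0 (inb false g) k := by
  obtain ⟨a, b, e, h⟩ := h
  exact ⟨a + 1, b + 1, by push_cast; omega, fun z => by simp [zs_succ, h]⟩

theorem decomp {g : Perm X} (hg : g ∈ V) (b : Bool) (h : ∀ w, g w 0 = b ↔ w 0 = b) :
    ∃ g' ∈ V, ∀ z, g (cons b z) = cons b (g' z) := by
  have h1 : ∀ z, g (cons b z) = cons b (tail (g (cons b z))) := fun z => by
    conv_lhs => rw [← cons_tail (g (cons b z)), (h (cons b z)).2 rfl]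
  have h2 : ∀ z, g⁻¹ (cons b z) = cons b (tail (g⁻¹ (cons b z))) := fun z => by
    conv_lhs => rw [← cons_tail (g⁻¹ (cons b z)), (h (g⁻¹ (cons b z))).1 (by simp)]
  refine ⟨⟨fun z => tail (g (cons b z)), fun z => tail (g⁻¹ (cons b z)),
    fun z => by simp only [← h1]; simp, fun z => by simp only [← h2]; simp⟩, fun w => ?_, h1⟩
  obtain ⟨c, d, u, v, z0, e, h'⟩ := loc_cons hg (cons b w)
  obtain ⟨rfl, rfl⟩ := cons_inj.1 e
  exact ⟨u, v, z0, rfl, fun z => by simp [h']⟩

end Pool.Agent.H24.ThV
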