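import Pool.Agent.H24.ThV1
import Pool.Agent.H24.H10Sys

set_option autoImplicit false

/-! Centralisers of north-south elements of V and the arithmetic gadgets. -/

namespace Pool.Agent.H24.ThV

open Equiv

/-- north-south elements -/
def NS (f : Perm X) : Prop :=
  (∀ z, f (cons true z) = cons true (cons false z)) ∧ ∀ w, w ≠ p → ∃ n : ℕ, (f ^ n) w 0 = true

theorem NS.pow {f : Perm X} (h : NS f) (n : ℕ) (z : X) :
    (f ^ n) (cons true z) = cons true (zs n z) := by
  induction n with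
  | zero => simp
  | succ n ih => rw [pow_succ', Perm.mul_apply, ih, h.1, zs_succ]

theorem NS.reach {f : Perm X} (h : NS f) (w : X) (hw : w ≠ p) :
    ∃ n z, ∀ m, (f ^ (m + n)) w = cons true (zs m z) := by
  obtain ⟨n, hn⟩ := h.2 w hw
  refine ⟨n, tail ((f ^ n) w), fun m => ?_⟩
  rw [pow_add, Perm.mul_apply, ← h.pow, ← hn, cons_tail]

theorem NS.triv {f g : Perm X} (h : NS f) (hc : Commute g f) (hg : G0 (r * g * r) 0) : g = 1 := by
  obtain ⟨a, b, e, h1⟩ := hg
  obtain rfl : a = b := by omega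
  have h2 : ∀ w, w ≠ p → g w = w := fun w hw => by
    obtain ⟨n, z, hn⟩ := h.reach w hw
    apply (f ^ (a + n)).injective
    rw [← Perm.mul_apply, ← (hc.pow_right _).eq, Perm.mul_apply, hn]
    have := h1 (cons false z)
    rw [zs_cons] at this
    apply r.injective
    simpa using this
  ext1 w
  by_cases hw : w = p
  · by_contra hne
    subst hw
    exact hne (g.injective (h2 _ hne))
  · exact h2 w hw

theorem eq_p_of (z : X) (h : z = cons false z) : z = p := by
  funext k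
  induction k with
  | zero => rw [h]; rfl
  | succ k ih => rw [h]; exact ih

theorem NS.fix {f g : Perm X} (h : NS f) (hg : g ∈ V) (hc : Commute g f) :
    g (cons true p) = cons true p := by
  have hq : f (cons true p) = cons true p := by rw [h.1, cons_p]
  have h1 : f (g (cons true p)) = g (cons true p) := by
    rw [← Perm.mul_apply, ← hc.eq, Perm.mul_apply, hq]
  by_cases hp : g (cons true p) = p
  · exfalso
    obtain ⟨m, hm⟩ := cont hg (cons true p)
    have h2 : ∀ w, w ≠ p → g w = p := fun w hw => by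
      by_contra hne
      obtain ⟨n, z, hn⟩ := h.reach w hw
      obtain ⟨n', z', hn'⟩ := h.reach _ hne
      have a1 := hn (m + n')
      have a2 := hn' (m + n)
      rw [show m + n + n' = m + n' + n by omega, ← Perm.mul_apply, ← (hc.pow_right _).eq,
        Perm.mul_apply, a1] at a2
      have a3 := hm (cons true (zs (m + n') z)) fun i hi => by
        cases i with
        | zero => rfl
        | succ i => exact zs_lt _ _ _ (by omega)
      rw [a2, hp] at a3
      simp [p] at a3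
    have a := h2 (cons true (cons true p)) fun e => by simpa [p] using congrFun e 0
    rw [← hp, g.apply_eq_iff_eq] at a
    simpa [p] using congrFun a 1
  · obtain ⟨n, hn⟩ := h.2 _ hp
    rw [Perm.pow_apply_eq_self_of_apply_eq_self h1] at hn
    have e1 := cons_tail (g (cons true p))
    rw [hn] at e1
    rw [← e1, h.1, cons_inj] at h1
    rw [← e1, eq_p_of _ h1.2.symm]

theorem rr : r * r = 1 := by rw [mul_eq_one_iff_eq_inv, r_inv]

theorem rconj (g : Perm X) (n : ℤ) : r * g ^ n * r = (r * g * r) ^ n := by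
  have := conj_zpow (i := n) (a := r) (b := g)
  rw [r_inv] at this
  exact this.symm

theorem NS.G1 {f : Perm X} (h : NS f) : G0 (r * f * r) 1 :=
  ⟨1, 2, by norm_num, fun z => by simp [zs_succ, h.1]⟩

theorem NS.cent {f g : Perm X} (h : NS f) (hg : g ∈ V) (hc : Commute g f) :
    ∃ y : ℤ, g = f ^ y := by
  obtain ⟨k, hk⟩ := G0.ex (g := r * g * r) (V.mul_mem (V.mul_mem r_mem hg) r_mem) (by
    have := h.fix hg hc
    rw [← cons_p]
    simp [this])
  refine ⟨k, ?_⟩
  rw [← mul_inv_eq_one]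
  refine h.triv (hc.mul_left ((Commute.refl f).zpow_left k).inv_left) ?_
  have := hk.mul (h.G1.zpow k).inv
  rw [← rconj, mul_one, add_neg_cancel] at this
  convert this using 1
  simp only [mul_inv_rev, r_inv, mul_assoc]
  rw [← mul_assoc r r, rr, one_mul]

/-- a one among the first `k+1` letters -/
def Z (k : ℕ) (w : X) : Prop := ∃ i ≤ k, w i = true

theorem Z.cons {k : ℕ} {w : X} : Z (k + 1) (cons false w) ↔ Z k w := by
  constructor
  · rintro ⟨i, hi, h⟩
    cases i with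
    | zero => simp at h
    | succ i => exact ⟨i, by omega, h⟩
  · rintro ⟨i, hi, h⟩
    exact ⟨i + 1, by omega, h⟩

theorem Z.e0 {k : ℕ} {w : X} (h : Z k w) : Z k (e (ThV.cons false w)) := by
  obtain ⟨b, z, rfl⟩ := ex_cons w
  cases b
  · simpa using h
  · exact ⟨0, by omega, rfl⟩

theorem Z.e {k : ℕ} {w : X} (h : Z k w) : Z k (e w) := by
  obtain ⟨b, z, rfl⟩ := ex_cons w
  cases b
  · apply Z.e0
    obtain ⟨i, hi, h⟩ := h
    cases i with
    | zero => simp at h
    | succ i => exact ⟨i, by omega, h⟩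
  · exact ⟨0, by omega, rfl⟩

theorem Z.epow {k : ℕ} {w : X} (h : Z k w) (x : ℕ) : Z k ((ThV.e ^ x) w) := by
  induction x with
  | zero => simpa
  | succ x ih => rw [pow_succ', Perm.mul_apply]; exact ih.e

theorem NS_u (x : ℕ) : NS (e * inb false (e ^ x)) := by
  refine ⟨fun z => by rw [Perm.mul_apply, inb_ne _ _ _ (by simp), e1], fun w hw => ?_⟩
  obtain ⟨k, hk⟩ : ∃ k, Z k w := by
    by_contra hn
    exact hw (funext fun i => by
      by_contra hi
      exact hn ⟨i, i, le_rfl, by simpa [p] using hi⟩)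
  clear hw
  induction k generalizing w with
  | zero =>
    obtain ⟨i, hi, h⟩ := hk
    exact ⟨0, by simpa [Nat.le_zero.1 hi] using h⟩
  | succ k ih =>
    obtain ⟨b, z, rfl⟩ := ex_cons w
    cases b
    · obtain ⟨n, hn⟩ := ih _ ((Z.cons.1 hk).epow x).e0
      exact ⟨n + 1, by rw [pow_succ, Perm.mul_apply, Perm.mul_apply, inb_same, hn]⟩
    · exact ⟨0, rfl⟩

theorem NS_e : NS e := by simpa using NS_u 0

theorem G0_epow (n : ℤ) : G0 (e ^ n) (-n) := by simpa using G0_e.zpow n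

/-- equational form of being trivial on the cone of `b` -/
def Tr (b : Bool) (g : Perm X) : Prop := Commute g (inb b r) ∧ Commute g (inb b e)

theorem pres {b : Bool} {g : Perm X} (h : ∀ z, g (cons b z) = cons b z) (w : X) :
    g w 0 = b ↔ w 0 = b := by
  constructor
  · intro h1
    have := h (tail (g w))
    rw [← h1, cons_tail, g.apply_eq_iff_eq] at this
    rw [← this, h1]
  · intro h1
    rw [← cons_tail w, h1, h]; rfl

theorem comm_inb {b : Bool} {g : Perm X} (h : ∀ z, g (cons b z) = cons b z) (k : Perm X) :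
    Commute g (inb b k) := by
  ext1 w
  rcases cases_b b w with ⟨z, rfl⟩ | hw
  · simp [h]
  · rw [Perm.mul_apply, Perm.mul_apply, inb_ne _ _ _ hw, inb_ne _ _ _ (mt (pres h w).1 hw)]

theorem comm_of {b : Bool} {g g' k : Perm X} (h : ∀ z, g (cons b z) = cons b (g' z))
    (hc : Commute g (inb b k)) : Commute g' k := by
  ext1 z
  have := congrArg (fun t : Perm X => t (cons b z)) hc.eq
  simpa [h] using this

theorem Tr_iff {b : Bool} {g : Perm X} (hg : g ∈ V) :
    Tr b g ↔ ∀ z, g (cons b z) = cons b z := by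
  refine ⟨fun ⟨h1, h2⟩ => ?_, fun h => ⟨comm_inb h _, comm_inb h _⟩⟩
  have hf : ∀ w, inb b r w = w ↔ w 0 ≠ b := fun w => by
    rcases cases_b b w with ⟨z, rfl⟩ | hw
    · obtain ⟨c, z, rfl⟩ := ex_cons z
      simp
    · simp [hw, inb_ne _ _ _ hw]
  obtain ⟨g', hg', h⟩ := decomp hg b fun w => by
    rw [← not_iff_not]
    refine (hf _).symm.trans (Iff.trans ?_ (hf w))
    rw [← Perm.mul_apply, ← h1.eq, Perm.mul_apply, g.apply_eq_iff_eq]
  obtain ⟨y, rfl⟩ := NS_e.cent hg' (comm_of h h2)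
  have a := (comm_of h h1).eq
  have a2 : r * e ^ y * r = e ^ y := by rw [← a, mul_assoc, rr, mul_one]
  rw [rconj, rer, inv_zpow'] at a2
  have a3 := (G0_epow (-y)).uniq (a2 ▸ G0_epow y)
  obtain rfl : y = 0 := by omega
  simpa using h

theorem einv_pow (n : ℕ) (z : X) : (e ^ n)⁻¹ (cons false z) = cons false (zs n z) := by
  rw [Perm.inv_eq_iff_eq]
  induction n with
  | zero => simp
  | succ n ih => rw [pow_succ, Perm.mul_apply, zs_succ, e00, ← ih]

/-- equational witness for a trivial germ at `p` -/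
def E0 (k d : Perm X) : Prop := Commute k e ∧ Tr false (k * d * k⁻¹)

theorem E0.out {k d : Perm X} (hk : k ∈ V) (hd : d ∈ V) (h : E0 k d) : G0 d 0 := by
  obtain ⟨y, rfl⟩ := NS_e.cent hk h.1
  have h1 := (Tr_iff (V.mul_mem (V.mul_mem hk hd) (V.inv_mem hk))).1 h.2
  have h2 : G0 (e ^ y * d * (e ^ y)⁻¹) 0 := ⟨1, 1, by simp, fun z => by
    simpa only [zs_succ, zs_zero] using h1 z⟩
  have := ((G0_epow y).inv.mul h2).mul (G0_epow y)
  simpa [mul_assoc] using this

theorem E0.intro {d : Perm X} (hd : d ∈ V) (h : G0 d 0) : ∃ k ∈ V, E0 k d := by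
  obtain ⟨a, b, e1, h1⟩ := h
  obtain rfl : a = b := by omega
  have hk := V.pow_mem e_mem a
  refine ⟨e ^ a, hk, (Commute.refl e).pow_left _,
    (Tr_iff (V.mul_mem (V.mul_mem hk hd) (V.inv_mem hk))).2 fun z => ?_⟩
  rw [Perm.mul_apply, Perm.mul_apply, einv_pow, ← zs_cons, h1, zs_cons, ← einv_pow]
  simp

/-- equational description of the nonnegative powers of `e` -/
def N (g : Perm X) : Prop := Commute g e ∧ Tr false (g * inb true r * g⁻¹)

theorem N.out {g : Perm X} (hg : g ∈ V) (h : N g) : ∃ n : ℕ, g = e ^ n := by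
  obtain ⟨y, rfl⟩ := NS_e.cent hg h.1
  have h1 := (Tr_iff (V.mul_mem (V.mul_mem hg (inb_mem true r_mem)) (V.inv_mem hg))).1 h.2
  rcases y with n | n
  · exact ⟨n, by simp⟩
  · exfalso
    have h2 := h1 (zs n (cons true p))
    rw [← einv_pow, Perm.mul_apply, Perm.mul_apply, zpow_negSucc, inv_inv, pow_succ', mul_inv_rev,
      Perm.mul_apply, Perm.mul_apply, Equiv.apply_eq_iff_eq, Perm.inv_eq_iff_eq] at h2
    simp at h2

theorem N.intro (n : ℕ) : N (e ^ n) := by
  have hk := V.pow_mem e_mem n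
  refine ⟨(Commute.refl e).pow_left _,
    (Tr_iff (V.mul_mem (V.mul_mem hk (inb_mem true r_mem)) (V.inv_mem hk))).2 fun z => ?_⟩
  rw [Perm.mul_apply, Perm.mul_apply, inb_ne _ _ _ (by rw [einv_pow]; simp)]
  simp

/-- the multiplication gadget -/
def Mu (σ : ℕ → Perm X) : Prop :=
  N (σ 0) ∧ N (σ 1) ∧ N (σ 2) ∧ Tr true (σ 3) ∧ Commute (σ 3) (inb false e) ∧
    E0 (σ 5) (σ 3 * (σ 0)⁻¹) ∧ Commute (σ 4) (e * σ 3) ∧ E0 (σ 6) (r * σ 4 * (σ 1)⁻¹ * r) ∧
    E0 (σ 7) (σ 4 * (σ 1 * σ 2)⁻¹)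

theorem G_u (x y : ℕ) (k : ℤ) :
    G0 (r * (e * inb false (e ^ x)) ^ k * (e ^ y)⁻¹ * r) (k - y) := by
  have := ((NS_u x).G1.zpow k).mul (NS_e.G1.zpow y).inv
  rw [← rconj, ← rconj, mul_one, mul_one, zpow_natCast, ← sub_eq_add_neg] at this
  convert this using 1
  simp only [mul_inv_rev, r_inv, mul_assoc]
  rw [← mul_assoc r r, rr, one_mul]

theorem G_u' (x y z : ℕ) (k : ℤ) :
    G0 ((e * inb false (e ^ x)) ^ k * (e ^ y * e ^ z)⁻¹) (y + z - k * (x + 1)) := by
  have := ((G0_e.mul (G0_epow x).inb).zpow k).mul ((G0_epow y).mul (G0_epow z)).inv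
  simp only [zpow_natCast] at this
  convert this using 1
  ring

theorem Mu.out {σ : ℕ → Perm X} (hσ : ∀ i, σ i ∈ V) (h : Mu σ) :
    ∃ x y : ℕ, σ 0 = e ^ x ∧ σ 1 = e ^ y ∧ σ 2 = e ^ (x * y) := by
  obtain ⟨h0, h1, h2, h3, h4, h5, h6, h7, h8⟩ := h
  obtain ⟨x, hx⟩ := h0.out (hσ 0)
  obtain ⟨y, hy⟩ := h1.out (hσ 1)
  obtain ⟨z, hz⟩ := h2.out (hσ 2)
  have a1 := (Tr_iff (hσ 3)).1 h3
  obtain ⟨g', hg', h⟩ := decomp (hσ 3) false fun w => by
    simpa using (pres a1 w).not
  obtain ⟨x', rfl⟩ := NS_e.cent hg' (comm_of h h4)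
  have a2 : σ 3 = inb false (e ^ x') := by
    ext1 w
    obtain ⟨b, z, rfl⟩ := ex_cons w
    cases b
    · rw [h, inb_same]
    · rw [a1, inb_ne _ _ _ (by simp)]
  have a3 := h5.out (hσ 5) (V.mul_mem (hσ 3) (V.inv_mem (hσ 0)))
  rw [a2, hx, ← zpow_natCast] at a3
  obtain rfl : x' = x := by
    have := a3.uniq ((G0_epow x').inb.mul (G0_epow x).inv)
    omega
  rw [a2, zpow_natCast] at h6
  obtain ⟨k, hk⟩ := (NS_u x).cent (hσ 4) h6
  have a4 := h7.out (hσ 6)
    (V.mul_mem (V.mul_mem (V.mul_mem r_mem (hσ 4)) (V.inv_mem (hσ 1))) r_mem)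
  have a5 := h8.out (hσ 7) (V.mul_mem (hσ 4) (V.inv_mem (V.mul_mem (hσ 1) (hσ 2))))
  rw [hk, hy] at a4 a5
  rw [hz] at a5
  have b1 := a4.uniq (G_u x y k)
  have b2 := a5.uniq (G_u' x y z k)
  obtain rfl : k = y := by omega
  refine ⟨x, y, hx, hy, ?_⟩
  rw [hz]
  congr 1
  zify
  linarith

theorem Mu.intro (x y : ℕ) : ∃ σ : ℕ → Perm X, (∀ i, σ i ∈ V) ∧ σ 0 = e ^ x ∧ σ 1 = e ^ y ∧
    σ 2 = e ^ (x * y) ∧ Mu σ := by
  have he := V.pow_mem e_mem
  have ha := inb_mem false (he x)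
  have hw := V.zpow_mem (V.mul_mem e_mem ha) (y : ℤ)
  obtain ⟨k5, a5, b5⟩ := E0.intro (V.mul_mem ha (V.inv_mem (he x))) (by
    simpa using (G0_epow x).inb.mul (G0_epow x).inv)
  obtain ⟨k6, a6, b6⟩ := E0.intro
    (V.mul_mem (V.mul_mem (V.mul_mem r_mem hw) (V.inv_mem (he y))) r_mem) (by
      simpa only [sub_self] using G_u x y y)
  obtain ⟨k7, a7, b7⟩ := E0.intro (V.mul_mem hw (V.inv_mem (V.mul_mem (he y) (he (x * y))))) (by
    convert G_u' x y (x * y) y using 1
    push_cast; ring)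
  refine ⟨fun i => match i with
    | 0 => e ^ x | 1 => e ^ y | 2 => e ^ (x * y) | 3 => inb false (e ^ x)
    | 4 => (e * inb false (e ^ x)) ^ (y : ℤ) | 5 => k5 | 6 => k6 | _ => k7,
    fun i => by dsimp only; split <;> first | assumption | apply he, rfl, rfl, rfl,
    N.intro _, N.intro _, N.intro _, (Tr_iff ha).2 fun z => inb_ne _ _ _ (by simp),
    ((Commute.refl e).pow_left x).map _, b5, (Commute.refl _).zpow_left _, b6, b7⟩

abbrev Tb := List (List Bool × List Bool)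
abbrev At := List ((ℕ ⊕ Tb) × Bool)

open Classical in
/-- the element described by a table -/
noncomputable def τ0 (D : Tb) : Perm X := if h : ∃ g, Tab D g then h.choose else 1

theorem τ0_eq {D : Tb} {g : Perm X} (h : Tab D g) : τ0 D = g := by
  have h' : ∃ g, Tab D g := ⟨g, h⟩
  rw [τ0, dif_pos h']
  exact h'.choose_spec.uniq h

/-- value of a word -/
noncomputable def ev (σ : ℕ → Perm X) (a : At) : Perm X :=
  (a.map fun x => if x.2 then Sum.elim σ τ0 x.1 else (Sum.elim σ τ0 x.1)⁻¹).prod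

/-- all constants are genuine tables -/
def ok (a : At) : Prop := ∀ x ∈ a, ∀ D, x.1 = Sum.inr D → ∃ g, Tab D g

/-- word maps -/
def W (F : (ℕ → Perm X) → Perm X) : Prop := ∃ a, ok a ∧ ∀ σ, ev σ a = F σ

theorem W.var (i : ℕ) : W fun σ => σ i :=
  ⟨[(.inl i, true)], by simp [ok], fun σ => by simp [ev]⟩

theorem W.const {g : Perm X} (h : g ∈ V) : W fun _ => g := by
  obtain ⟨D, hD⟩ := (mem_V_iff g).1 h
  exact ⟨[(.inr D, true)], by simpa [ok] using ⟨g, hD⟩, fun σ => by simp [ev, τ0_eq hD]⟩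

theorem W.mul {F G : (ℕ → Perm X) → Perm X} (hF : W F) (hG : W G) : W fun σ => F σ * G σ := by
  obtain ⟨a, a1, a2⟩ := hF
  obtain ⟨b, b1, b2⟩ := hG
  refine ⟨a ++ b, fun x hx => (List.mem_append.1 hx).elim (a1 x) (b1 x), fun σ => ?_⟩
  dsimp only
  rw [← a2, ← b2, ev, List.map_append, List.prod_append]; rfl

theorem W.inv {F : (ℕ → Perm X) → Perm X} (hF : W F) : W fun σ => (F σ)⁻¹ := by
  obtain ⟨a, a1, a2⟩ := hF
  refine ⟨(a.map fun x => (x.1, !x.2)).reverse, fun x hx => ?_, fun σ => ?_⟩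
  · obtain ⟨y, hy, rfl⟩ := List.mem_map.1 (List.mem_reverse.1 hx)
    exact a1 y hy
  · dsimp only
    rw [← a2, ev, ev, List.prod_inv_reverse, List.map_reverse, List.map_map, List.map_map]
    congr 3
    funext x
    rcases x with ⟨x, _ | _⟩ <;> simp

/-- relations given by finite systems of equations -/
def PP (R : (ℕ → Perm X) → Prop) : Prop :=
  ∃ L : List At, ∀ σ, (∀ a ∈ L, ok a ∧ ev σ a = 1) ↔ R σ

theorem PP.eq {F G : (ℕ → Perm X) → Perm X} (hF : W F) (hG : W G) : PP fun σ => F σ = G σ := by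
  obtain ⟨a, a1, a2⟩ := hF.mul hG.inv
  exact ⟨[a], fun σ => by simp [a1, a2, mul_inv_eq_one]⟩

theorem PP.and {R S : (ℕ → Perm X) → Prop} (hR : PP R) (hS : PP S) : PP fun σ => R σ ∧ S σ := by
  obtain ⟨a, a1⟩ := hR
  obtain ⟨b, b1⟩ := hS
  exact ⟨a ++ b, fun σ => by rw [List.forall_mem_append, a1, b1]⟩

theorem PP.comm {F G : (ℕ → Perm X) → Perm X} (hF : W F) (hG : W G) :
    PP fun σ => Commute (F σ) (G σ) := PP.eq (hF.mul hG) (hG.mul hF)

theorem PP.tr (b : Bool) {F : (ℕ → Perm X) → Perm X} (hF : W F) : PP fun σ => Tr b (F σ) :=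
  (PP.comm hF (W.const (inb_mem b r_mem))).and (PP.comm hF (W.const (inb_mem b e_mem)))

theorem PP.e0 {F G : (ℕ → Perm X) → Perm X} (hF : W F) (hG : W G) :
    PP fun σ => E0 (F σ) (G σ) :=
  (PP.comm hF (W.const e_mem)).and (PP.tr false ((hF.mul hG).mul hF.inv))

theorem PP.n (i : ℕ) : PP fun σ => N (σ i) :=
  (PP.comm (W.var i) (W.const e_mem)).and
    (PP.tr false (((W.var i).mul (W.const (inb_mem true r_mem))).mul (W.var i).inv))

theorem PP.mu : PP Mu :=
  (PP.n 0).and <| (PP.n 1).and <| (PP.n 2).and <| (PP.tr true (W.var 3)).and <|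
    (PP.comm (W.var 3) (W.const (inb_mem false e_mem))).and <|
    (PP.e0 (W.var 5) ((W.var 3).mul (W.var 0).inv)).and <|
    (PP.comm (W.var 4) ((W.const e_mem).mul (W.var 3))).and <|
    (PP.e0 (W.var 6) ((((W.const r_mem).mul (W.var 4)).mul (W.var 1).inv).mul
      (W.const r_mem))).and <|
    PP.e0 (W.var 7) ((W.var 4).mul ((W.var 1).mul (W.var 2)).inv)

theorem PP.ad : PP fun σ => N (σ 0) ∧ N (σ 1) ∧ σ 0 * σ 1 = σ 2 :=
  (PP.n 0).and <| (PP.n 1).and <| PP.eq ((W.var 0).mul (W.var 1)) (W.var 2)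

theorem undec : ¬ ComputablePred fun S : List At =>
    ∃ σ : ℕ → V, ∀ a ∈ S, ok a ∧ ev (fun i => σ i) a = 1 := by
  obtain ⟨A, hA⟩ := PP.ad
  obtain ⟨M, hM⟩ := PP.mu
  obtain ⟨D, hD⟩ := (mem_V_iff e).1 e_mem
  have hev : ∀ i n σ, ev σ ((.inl i, false) :: List.replicate n (.inr D, true)) =
      (σ i)⁻¹ * e ^ n := fun i n σ => by simp [ev, τ0_eq hD]
  refine H10.generic (M := V) (fun a σ => ok a ∧ ev (fun i => σ i) a = 1)
    (fun f a => a.map fun x => (x.1.map f id, x.2)) (fun f a σ => ?_)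
    (fun g n => g.1 = e ^ n) (fun m a b ha hb => ?_) (fun n => ⟨e ^ n, V.pow_mem e_mem n⟩)
    (fun b => if b then A else M) (fun b σ h => ?_) (fun b x y => ?_)
    (fun i n => (.inl i, false) :: List.replicate n (.inr D, true))
    (fun i => (Primrec.list_cons.comp (Primrec.const _) (H10.prim_replicate _)).to_comp)
    (fun i n σ h => ?_) (fun i n σ h => ⟨?_, ?_⟩)
  · refine and_congr ?_ (Eq.congr_left ?_)
    · simp only [ok, List.forall_mem_map]
      refine forall₂_congr fun x _ => forall_congr' fun D => ?_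
      rcases x with ⟨x | x, b⟩ <;> simp
    · rw [ev, ev, List.map_map]
      congr 2
      funext x
      rcases x with ⟨x | x, b⟩ <;> simp
  · have h1 := G0_epow a
    have h2 := G0_epow b
    rw [zpow_natCast] at h1 h2
    rw [← ha] at h1
    rw [← hb] at h2
    have := h1.uniq h2
    omega
  · cases b
    · obtain ⟨x, y, h0, h1, h2⟩ := Mu.out (fun i => (σ i).2) ((hM _).1 h)
      exact ⟨x, y, _, h0, h1, h2, by simp⟩
    · obtain ⟨h0, h1, h2⟩ := (hA _).1 h
      obtain ⟨x, hx⟩ := h0.out (σ 0).2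
      obtain ⟨y, hy⟩ := h1.out (σ 1).2
      exact ⟨x, y, x + y, hx, hy, h2.symm.trans (by rw [pow_add, ← hx, ← hy]), by simp⟩
  · cases b
    · obtain ⟨σ, h, h0, h1, h2, hm⟩ := Mu.intro x y
      exact ⟨fun i => ⟨σ i, h i⟩, Subtype.ext h0, Subtype.ext h1, Subtype.ext h2, (hM _).2 hm⟩
    · refine ⟨fun i => ⟨e ^ (if i = 0 then x else if i = 1 then y else x + y),
        V.pow_mem e_mem _⟩, rfl, rfl, rfl, (hA _).2 ⟨N.intro _, N.intro _, ?_⟩⟩
      simp [pow_add]
  · have := h.2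
    rwa [hev, inv_mul_eq_one] at this
  · intro x hx D' h'
    rcases List.mem_cons.1 hx with rfl | hx
    · simp at h'
    · rw [List.eq_of_mem_replicate hx] at h'
      exact ⟨e, by rw [← Sum.inr.inj h']; exact hD⟩
  · rw [hev, h]; simp

end Pool.Agent.H24.ThV
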