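import Mathlib
import Pool.Agent.H24.FOOld
import Pool.Agent.H24.PlotkinDefs

set_option autoImplicit false
open FirstOrder FirstOrder.Language Filter

namespace Pool.Agent.H24.TreeAlg

inductive Fn : ℕ → Type
  | up : Fn 1
  | dn : ℕ → Fn 1
  | col : Fn 1

def LT : FirstOrder.Language.{0, 0} := ⟨Fn, fun _ => Empty⟩

theorem LT_rel (n : ℕ) : IsEmpty (LT.Relations n) := inferInstanceAs (IsEmpty Empty)

@[ext] structure T where
  l : ℤ
  d : ℕ → ℕ
  fin : ∃ m, ∀ i, m ≤ i → d i = 0

def up (y : T) : T := ⟨y.l + 1, fun i => y.d (i + 1), by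
  obtain ⟨m, hm⟩ := y.fin
  exact ⟨m, fun i hi => hm _ (by omega)⟩⟩

def dn (n : ℕ) (y : T) : T := ⟨y.l - 1, fun i => Nat.casesOn i (n + 1) y.d, by
  obtain ⟨m, hm⟩ := y.fin
  refine ⟨m + 1, fun i hi => ?_⟩
  obtain ⟨j, rfl⟩ : ∃ j, i = j + 1 := ⟨i - 1, by omega⟩
  exact hm j (by omega)⟩

def col (y : T) : T := if Even y.l then y else up y

instance : LT.Structure T where
  funMap := fun {_} f x => match f, x with
    | Fn.up, x => up (x 0)
    | Fn.dn n, x => dn n (x 0)
    | Fn.col, x => col (x 0)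
  RelMap := fun r _ => Empty.elim r

def InH (p : ℤ → Prop) (y : T) : Prop :=
  ∃ m : ℕ, p (y.l + m) ∧ (∀ i < m, y.d i ≠ 0) ∧ ∀ i, m ≤ i → y.d i = 0

theorem InH.up {p : ℤ → Prop} (hp : ∀ z, p z → p (z + 1)) {y : T} (h : InH p y) :
    InH p (up y) := by
  obtain ⟨m, h1, h2, h3⟩ := h
  cases m with
  | zero => exact ⟨0, by simpa [TreeAlg.up] using hp _ h1, by simp, fun i _ => h3 _ (by omega)⟩
  | succ m =>
    refine ⟨m, ?_, fun i hi => h2 _ (by omega), fun i hi => h3 _ (by omega)⟩
    convert h1 using 1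
    simp only [TreeAlg.up]; push_cast; ring

theorem InH.dn {p : ℤ → Prop} (n : ℕ) {y : T} (h : InH p y) : InH p (dn n y) := by
  obtain ⟨m, h1, h2, h3⟩ := h
  refine ⟨m + 1, ?_, fun i hi => ?_, fun i hi => ?_⟩
  · convert h1 using 1
    simp only [TreeAlg.dn]; push_cast; ring
  · cases i with
    | zero => simp [TreeAlg.dn]
    | succ i => exact h2 i (by omega)
  · cases i with
    | zero => omega
    | succ i => exact h3 i (by omega)

def H (p : ℤ → Prop) (hp : ∀ z, p z → p (z + 1)) : LT.Substructure T where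
  carrier := {y | InH p y}
  fun_mem := by
    intro n f x hx
    cases f with
    | up => exact InH.up hp (hx 0)
    | dn n => exact InH.dn n (hx 0)
    | col =>
      change InH p (col (x 0))
      unfold col
      split_ifs
      · exact hx 0
      · exact InH.up hp (hx 0)

def Hs (s : ℤ) : LT.Substructure T := H (fun z => s ≤ z) (fun _ h => by omega)

def Hi : LT.Substructure T := H (fun _ => True) (fun _ h => h)

def cond (s : ℤ) (y : T) (i : ℕ) : Prop := s ≤ y.l + i ∧ ∀ j, i < j → y.d j = 0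

open Classical in
noncomputable def sg (s : ℤ) (N : ℕ) (y : T) : T :=
  ⟨y.l, fun i => if cond s y i then y.d i else _root_.Equiv.swap 0 (N + 1) (y.d i), by
    obtain ⟨m, hm⟩ := y.fin
    refine ⟨max m (s - y.l).toNat, fun i hi => ?_⟩
    have h1 : cond s y i := ⟨by omega, fun j hj => hm j (by omega)⟩
    rw [if_pos h1]
    exact hm i (by omega)⟩

theorem cond_sg (s : ℤ) (N : ℕ) (y : T) (i : ℕ) : cond s (sg s N y) i ↔ cond s y i := by
  classical
  refine and_congr_right fun h0 => ⟨fun h => ?_, fun h j hj => ?_⟩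
  · have h0' : s ≤ y.l + i := h0
    obtain ⟨m, hm⟩ := y.fin
    have : ∀ k j, i < j → m ≤ j + k → y.d j = 0 := by
      intro k
      induction k with
      | zero => exact fun j _ h2 => hm j h2
      | succ k ih =>
        intro j h1 h2
        have h3 : cond s y j := ⟨by omega, fun j' hj' => ih j' (by omega) (by omega)⟩
        have h4 := h j h1
        simp only [sg, if_pos h3] at h4
        exact h4
    exact fun j hj => this m j hj (by omega)
  · have h0' : s ≤ y.l + i := h0
    have h3 : cond s y j := ⟨by omega, fun j' hj' => h j' (by omega)⟩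
    simp only [sg, if_pos h3]
    exact h j hj

theorem sg_sg (s : ℤ) (N : ℕ) (y : T) : sg s N (sg s N y) = y := by
  refine T.ext rfl (funext fun i => ?_)
  by_cases h : cond s y i
  · have h1 := (cond_sg s N y i).2 h
    simp only [sg, if_pos h] at h1 ⊢
    rw [if_pos h1]
  · have h1 := mt (cond_sg s N y i).1 h
    simp only [sg, if_neg h] at h1 ⊢
    rw [if_neg h1]
    simp

theorem sg_up (s : ℤ) (N : ℕ) (y : T) : sg s N (up y) = up (sg s N y) := by
  classical
  refine T.ext rfl (funext fun i => ?_)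
  have : cond s (up y) i ↔ cond s y (i + 1) := by
    refine and_congr (by simp only [up]; push_cast; omega) ⟨fun h j hj => ?_, fun h j hj => h _ (by omega)⟩
    obtain ⟨k, rfl⟩ : ∃ k, j = k + 1 := ⟨j - 1, by omega⟩
    exact h k (by omega)
  exact if_congr this rfl rfl

theorem sg_dn (s : ℤ) (N n : ℕ) (hn : n < N) (y : T) : sg s N (dn n y) = dn n (sg s N y) := by
  classical
  refine T.ext rfl (funext fun i => ?_)
  cases i with
  | zero =>
    simp only [sg, dn]
    split_ifs
    · rfl
    · exact _root_.Equiv.swap_apply_of_ne_of_ne (by simp) (by simp; omega)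
  | succ i =>
    have : cond s (dn n y) (i + 1) ↔ cond s y i := by
      refine and_congr (by simp only [dn]; push_cast; omega)
        ⟨fun h j hj => h (j + 1) (by omega), fun h j hj => ?_⟩
      obtain ⟨k, rfl⟩ : ∃ k, j = k + 1 := ⟨j - 1, by omega⟩
      exact h k (by omega)
    exact if_congr this rfl rfl

theorem sg_col (s : ℤ) (N : ℕ) (y : T) : sg s N (col y) = col (sg s N y) := by
  unfold col
  have : (sg s N y).l = y.l := rfl
  rw [this]
  split_ifs
  · rfl
  · exact sg_up s N y

theorem fresh (y : T) : ∀ᶠ N in atTop, ∀ i, y.d i ≠ N + 1 := by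
  obtain ⟨m, hm⟩ := y.fin
  filter_upwards [eventually_ge_atTop ((Finset.range m).sup y.d)] with N hN i
  by_cases h : i < m
  · have := Finset.le_sup (f := y.d) (Finset.mem_range.2 h)
    omega
  · rw [hm i (by omega)]; omega

theorem sg_fix (s : ℤ) (N : ℕ) (y : T) (hy : y ∈ Hs s) (hN : ∀ i, y.d i ≠ N + 1) :
    sg s N y = y := by
  obtain ⟨m, h1, h2, h3⟩ := hy
  refine T.ext rfl (funext fun i => ?_)
  simp only [sg]
  split_ifs with h
  · rfl
  · by_cases hi : i < m
    · exact _root_.Equiv.swap_apply_of_ne_of_ne (h2 i hi) (hN i)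
    · exact absurd ⟨by omega, fun j hj => h3 j (by omega)⟩ h

theorem sg_mem (s : ℤ) (N : ℕ) (y : T) (hN : ∀ i, y.d i ≠ N + 1) : sg s N y ∈ Hs s := by
  classical
  have hex : ∃ m : ℕ, s ≤ y.l + m ∧ ∀ i, m ≤ i → y.d i = 0 := by
    obtain ⟨m, hm⟩ := y.fin
    exact ⟨max m (s - y.l).toNat, by omega, fun i hi => hm i (by omega)⟩
  obtain ⟨h1, h2⟩ := Nat.find_spec hex
  refine ⟨Nat.find hex, h1, fun i hi => ?_, fun i hi => ?_⟩
  · simp only [sg]
    split_ifs with h
    · intro h0
      refine Nat.find_min hex hi ⟨h.1, fun j hj => ?_⟩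
      rcases hj.eq_or_lt with rfl | hj
      · exact h0
      · exact h.2 j hj
    · intro h0
      rw [_root_.Equiv.swap_apply_eq_iff] at h0
      exact hN i (by simpa using h0)
  · have h3 : cond s y i := ⟨by omega, fun j hj => h2 j (by omega)⟩
    simp only [sg, if_pos h3]
    exact h2 i hi

noncomputable def sgE (s : ℤ) (N : ℕ) : T ≃ T := Function.Involutive.toPerm (sg s N) (sg_sg s N)

theorem tv (S : LT.Substructure T)
    (h : ∀ n (x : Fin n → S), ∃ s, (∀ i, (x i : T) ∈ Hs s) ∧ Hs s ≤ S) : S.IsElementary := by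
  refine S.isElementary_of_exists fun n φ x a ha => ?_
  obtain ⟨s, h1, h2⟩ := h n x
  obtain ⟨N, h3, h4, h5⟩ := ((FO.asym LT_rel (sgE s) (fun n f => by
    cases f with
    | up => exact Eventually.of_forall fun N x => sg_up s N _
    | dn n => exact (eventually_gt_atTop n).mono fun N hN x => sg_dn s N n hN _
    | col => exact Eventually.of_forall fun N x => sg_col s N _) φ).and
    ((fresh a).and (eventually_all.2 fun i => fresh (x i)))).exists
  refine ⟨⟨sg s N a, h2 (sg_mem s N a h4)⟩, ?_⟩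
  have h6 := (h3 _ _).2 ha
  rw [Fin.comp_snoc, Unique.eq_default (sgE s N ∘ default)] at h6
  have h7 : sgE s N ∘ Subtype.val ∘ x = Subtype.val ∘ x :=
    funext fun i => sg_fix s N _ (h1 i) (h5 i)
  rw [h7] at h6
  exact h6

theorem Hs_mono {s s' : ℤ} (h : s ≤ s') : Hs s' ≤ Hs s := by
  rintro y ⟨m, h1, h2⟩
  exact ⟨m, h.trans h1, h2⟩

theorem Hs_le (s : ℤ) : Hs s ≤ Hi := by
  rintro y ⟨m, h1, h2⟩
  exact ⟨m, trivial, h2⟩

theorem Hi_bound {ι : Type} [Finite ι] (x : ι → T) (hx : ∀ i, x i ∈ Hi) :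
    ∃ s : ℤ, ∀ i, x i ∈ Hs s := by
  obtain ⟨s, hs⟩ := (Set.finite_range fun i => (x i).l).bddBelow
  refine ⟨s, fun i => ?_⟩
  obtain ⟨m, -, h2⟩ := hx i
  have := hs ⟨i, rfl⟩
  exact ⟨m, by simp only at this ⊢; omega, h2⟩

theorem Hs_el (s : ℤ) : (Hs s).IsElementary := tv _ fun n x => ⟨s, fun i => (x i).2, le_rfl⟩

theorem Hi_el : Hi.IsElementary := tv _ fun n x => by
  obtain ⟨s, hs⟩ := Hi_bound (fun i => (x i : T)) fun i => (x i).2
  exact ⟨s, hs, Hs_le s⟩

def shift (k : ℤ) : T ≃[LT] T where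
  toFun y := ⟨y.l + 2 * k, y.d, y.fin⟩
  invFun y := ⟨y.l - 2 * k, y.d, y.fin⟩
  left_inv y := T.ext (by simp) rfl
  right_inv y := T.ext (by simp) rfl
  map_fun' := by
    intro n f x
    cases f with
    | up => exact T.ext (by simp [Structure.funMap, up]; ring) rfl
    | dn n => exact T.ext (by simp [Structure.funMap, dn]; ring) rfl
    | col =>
      simp only [Structure.funMap, col, Function.comp]
      have : Even ((x 0).l + 2 * k) ↔ Even (x 0).l := by simp [Int.even_add]
      simp only [this]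
      split_ifs
      · rfl
      · exact T.ext (by simp [up]; ring) rfl
  map_rel' := fun r => (LT_rel _).elim r

theorem transfer (S S' : LT.Substructure T) (hS : S.IsElementary) (hS' : S'.IsElementary)
    (h1 : S ≤ Hi) (s' : ℤ) (h2 : Hs s' ≤ S') (m : ℕ) (a : Fin m → S) :
    ∃ b : Fin m → S', Plotkin.SameType LT a b := by
  obtain ⟨s, hs⟩ := Hi_bound (fun i => (a i : T)) fun i => h1 (a i).2
  refine ⟨fun i => ⟨shift |s' - s| (a i), h2 ?_⟩, fun φ => ?_⟩
  · obtain ⟨k, h3, h4⟩ := hs i
    refine ⟨k, ?_, h4⟩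
    have := le_abs_self (s' - s)
    have := abs_nonneg (s' - s)
    change s' ≤ (a i : T).l + 2 * |s' - s| + k
    omega
  · rw [← hS φ, ← hS' φ, ← StrongHomClass.realize_formula (shift |s' - s|) φ]
    rfl

theorem isotyp (S S' : LT.Substructure T) (hS : S.IsElementary) (hS' : S'.IsElementary)
    (h1 : S ≤ Hi) (h1' : S' ≤ Hi) (s s' : ℤ) (h2 : Hs s ≤ S) (h2' : Hs s' ≤ S') :
    Plotkin.Isotypic LT S S' := fun m =>
  ⟨transfer S S' hS hS' h1 s' h2' m, fun b => by
    obtain ⟨a, ha⟩ := transfer S' S hS' hS h1' s h2 m b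
    exact ⟨a, fun φ => (ha φ).symm⟩⟩

def root (s : ℤ) : T := ⟨s, fun _ => 0, 0, fun _ _ => rfl⟩

theorem root_mem (s : ℤ) : root s ∈ Hs s := ⟨0, by simp [root], by simp, fun _ _ => rfl⟩

theorem dn_up (y : T) (h : y.d 0 ≠ 0) : dn (y.d 0 - 1) (up y) = y := by
  refine T.ext (by simp [dn, up]) (funext fun i => ?_)
  cases i with
  | zero => simp only [dn]; show y.d 0 - 1 + 1 = y.d 0; omega
  | succ i => rfl

theorem Hs_fg (s : ℤ) : Structure.FG LT (Hs s) := by
  rw [← Substructure.fg_iff_structure_fg]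
  have : Hs s = Substructure.closure LT {root s} := by
    refine le_antisymm ?_ (Substructure.closure_le.2 (by simpa using root_mem s))
    have hup : ∀ y ∈ Substructure.closure LT {root s}, up y ∈ Substructure.closure LT {root s} :=
      fun y hy => (Substructure.closure LT {root s}).fun_mem (Fn.up : LT.Functions 1) ![y]
        (by simpa using hy)
    have hdn : ∀ n, ∀ y ∈ Substructure.closure LT {root s},
        dn n y ∈ Substructure.closure LT {root s} :=
      fun n y hy => (Substructure.closure LT {root s}).fun_mem (Fn.dn n : LT.Functions 1) ![y]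
        (by simpa using hy)
    have hr : ∀ k : ℕ, root (s + k) ∈ Substructure.closure LT {root s} := by
      intro k
      induction k with
      | zero => simpa using Substructure.subset_closure (L := LT) (Set.mem_singleton (root s))
      | succ k ih =>
        have := hup _ ih
        convert this using 1
        exact T.ext (by simp [root, up]; ring) rfl
    rintro y ⟨m, h1, h2, h3⟩
    induction m generalizing y with
    | zero =>
      have := hr (y.l - s).toNat
      convert this using 1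
      exact T.ext (by simp only [root]; simp at h1; omega) (funext fun i => h3 i (by omega))
    | succ m ih =>
      rw [← dn_up y (h2 0 (by omega))]
      refine hdn _ _ (ih ?_ (fun i hi => h2 _ (by omega)) (fun i hi => h3 _ (by omega)))
      simp only [up] at h1 ⊢
      push_cast at h1
      omega
  rw [this]
  exact Substructure.fg_closure_singleton _

theorem Hi_not_fg : ¬ Structure.FG LT Hi := by
  rw [← Substructure.fg_iff_structure_fg]
  rintro ⟨F, hF⟩
  obtain ⟨s, hs⟩ := Hi_bound (fun i : F => (i : T)) fun i =>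
    hF ▸ Substructure.subset_closure i.2
  have h1 : Hi ≤ Hs s := hF ▸ Substructure.closure_le.2 fun y hy => hs ⟨y, hy⟩
  obtain ⟨m, h2, h3, -⟩ := h1 (Hs_le _ (root_mem (s - 1)))
  cases m with
  | zero => simp [root] at h2
  | succ m => exact h3 0 (by omega) rfl

theorem not_iso (e : Hs 0 ≃[LT] Hs 1) : False := by
  have hup : ∀ y : Hs 0, (e ⟨up y, InH.up (fun _ h => by omega) y.2⟩ : T) = up (e y) := fun y =>
    congrArg Subtype.val (e.map_fun (Fn.up : LT.Functions 1) ![y])
  have hdn : ∀ n (y : Hs 0), (e ⟨dn n y, InH.dn n y.2⟩ : T) = dn n (e y) := fun n y =>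
    congrArg Subtype.val (e.map_fun (Fn.dn n : LT.Functions 1) ![y])
  have hcol : (e ⟨root 0, root_mem 0⟩ : T) = col (e ⟨root 0, root_mem 0⟩) := by
    have := congrArg Subtype.val (e.map_fun (Fn.col : LT.Functions 1) ![⟨root 0, root_mem 0⟩])
    refine Eq.trans ?_ this
    congr 2
  obtain ⟨y, hy⟩ : ∃ y, y = e ⟨root 0, root_mem 0⟩ := ⟨_, rfl⟩
  rw [← hy] at hcol
  have h1 : (y : T).d 0 = 0 := by
    by_contra h
    obtain ⟨z, hz⟩ := e.surjective ⟨up y, InH.up (fun _ h => by omega) y.2⟩
    have h2 := hdn ((y : T).d 0 - 1) z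
    rw [hz, dn_up _ h, hy] at h2
    have h3 := congrArg (fun w : Hs 0 => (w : T).d 0) (e.injective (Subtype.ext h2))
    simp [dn, root] at h3
  obtain ⟨m, h2, h3, h4⟩ := y.2
  have hm : m = 0 := by
    by_contra h
    exact h3 0 (by omega) h1
  subst hm
  have h5 : Even (y : T).l := by
    by_contra h
    rw [col, if_neg h] at hcol
    have := congrArg T.l hcol
    simp [up] at this
  have h6 : 1 ≤ (y : T).l - 1 := by
    obtain ⟨k, hk⟩ := h5
    simp at h2
    omega
  obtain ⟨z, hz⟩ := e.surjective ⟨root ((y : T).l - 1), Hs_mono h6 (root_mem _)⟩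
  have h7 := hup z
  rw [hz] at h7
  have h8 : up (root ((y : T).l - 1)) = y :=
    T.ext (by simp [up, root]) (funext fun i => (h4 i (by omega)).symm)
  rw [h8, hy] at h7
  have h9 : up z = root 0 := congrArg Subtype.val (e.injective (Subtype.ext h7))
  have h10 : (z : T).d 0 ≠ 0 := by
    obtain ⟨m, h11, h12, -⟩ := z.2
    refine h12 0 ?_
    have := congrArg T.l h9
    simp only [up, root] at this h11
    omega
  have h11 := hdn ((z : T).d 0 - 1) ⟨up z, InH.up (fun _ h => by omega) z.2⟩
  simp only [dn_up _ h10, Subtype.coe_eta, hz] at h11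
  have := congrArg (fun w : T => w.d 0) h11
  simp [dn, root] at this

end Pool.Agent.H24.TreeAlg
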