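import Pool.Agent.H24.QSys
import Pool.Agent.H24.DPRM

set_option autoImplicit false

/-! Trinomials in polynomial ideals encode Diophantine equations. -/

namespace Pool.Agent.H24.Trinom

open MvPolynomial Pool.Agent.H24.QSys

variable {τ : Type}

/-- the linear functional given by a function of the exponent vector -/
noncomputable def L (g : (τ → ℕ) → ℚ) : MvPolynomial τ ℚ →ₗ[ℚ] ℚ :=
  (basisMonomials τ ℚ).constr ℚ fun e => g e

theorem L_mon (g : (τ → ℕ) → ℚ) (e : τ →₀ ℕ) (c : ℚ) : L g (monomial e c) = c * g e := by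
  have : (monomial e c : MvPolynomial τ ℚ) = c • basisMonomials τ ℚ e := by
    simp [smul_monomial]
  rw [this, map_smul, L, Module.Basis.constr_basis, smul_eq_mul]

theorem L_sum (g : (τ → ℕ) → ℚ) (f : MvPolynomial τ ℚ) :
    L g f = ∑ e ∈ f.support, coeff e f * g e := by
  conv_lhs => rw [f.as_sum]
  rw [map_sum]
  simp only [L_mon]

theorem L_mul (g : (τ → ℕ) → ℚ) (d : τ →₀ ℕ) (a : ℚ) (f : MvPolynomial τ ℚ) :
    L g (monomial d a * f) = a * L (fun e => g (e + ⇑d)) f := by
  induction f using MvPolynomial.induction_on' with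
  | monomial u b => rw [monomial_mul, L_mon, L_mon, add_comm d u, Finsupp.coe_add]; ring
  | add p q hp hq => rw [mul_add, map_add, map_add, hp, hq]; ring

theorem L_add (g h : (τ → ℕ) → ℚ) (f : MvPolynomial τ ℚ) :
    L (fun e => g e + h e) f = L g f + L h f := by
  simp [L_sum, mul_add, Finset.sum_add_distrib]

theorem L_smul (c : ℚ) (g : (τ → ℕ) → ℚ) (f : MvPolynomial τ ℚ) :
    L (fun e => c * g e) f = c * L g f := by
  simp only [L_sum, Finset.mul_sum]; exact Finset.sum_congr rfl fun _ _ => by ring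

theorem L_rename {σ : Type} (ι : σ → τ) (hι : Function.Injective ι) (g : (τ → ℕ) → ℚ)
    (F : MvPolynomial σ ℚ) : L g (rename ι F) = L (fun e => g (Function.extend ι e 0)) F := by
  induction F using MvPolynomial.induction_on' with
  | monomial u b =>
    rw [rename_monomial, L_mon, L_mon]
    congr 2
    funext j
    by_cases h : ∃ i, ι i = j
    · obtain ⟨i, rfl⟩ := h
      rw [Finsupp.mapDomain_apply hι, hι.extend_apply]
    · rw [Finsupp.mapDomain_of_notMem_range _ _ h, Function.extend_apply' _ _ _ h]; rfl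
  | add p q hp hq => simp only [map_add, hp, hq]

/-- annihilator of a family of functions of the exponent under shifts -/
def Ann (G : Set ((τ → ℕ) → ℚ)) : Ideal (MvPolynomial τ ℚ) where
  carrier := {f | ∀ g ∈ G, ∀ s : τ → ℕ, L (fun e => g (e + s)) f = 0}
  add_mem' := fun ha hb g hg s => by rw [map_add, ha g hg s, hb g hg s, add_zero]
  zero_mem' := fun g _ s => map_zero _
  smul_mem' := fun c f hf g hg s => by
    induction c using MvPolynomial.induction_on' with
    | monomial u b =>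
      rw [smul_eq_mul, L_mul]
      have := hf g hg (⇑u + s)
      simp only [← add_assoc] at this
      rw [this, mul_zero]
    | add p q hp hq => rw [add_smul, map_add, hp, hq, add_zero]

theorem growth (s : ℕ) (hs : 2 ≤ s) (j : ℕ) :
    (s + 2 + j) * (2 ^ s + 1) + s < s * 2 ^ (s + 2 + j) := by
  induction j with
  | zero =>
    have : 4 ≤ 2 ^ s := by
      calc 4 = 2 ^ 2 := rfl
        _ ≤ 2 ^ s := Nat.pow_le_pow_right (by omega) hs
    rw [add_zero, pow_add]; nlinarith
  | succ j ih =>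
    rw [← add_assoc, pow_succ]
    have : 2 ^ s + 1 ≤ (s + 2 + j) * (2 ^ s + 1) := Nat.le_mul_of_pos_left _ (by omega)
    nlinarith

theorem sorted (x y z : ℕ) (h1 : x + 1 < y) (h2 : y + 1 < z)
    (h : ((z : ℚ) - x) * ((-2) ^ y - (-2) ^ x) = ((y : ℚ) - x) * ((-2) ^ z - (-2) ^ x)) : False := by
  obtain ⟨s, rfl⟩ : ∃ s, y = x + s := ⟨y - x, by omega⟩
  obtain ⟨j, rfl⟩ : ∃ j, z = x + (s + 2 + j) := ⟨z - x - s - 2, by omega⟩
  have hg := growth s (by omega) j
  set t := s + 2 + j
  have hx : ((-2 : ℚ)) ^ x ≠ 0 := pow_ne_zero _ (by norm_num)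
  have h' : (t : ℚ) * ((-2) ^ s - 1) = s * ((-2) ^ t - 1) := by
    apply mul_left_cancel₀ hx
    push_cast at h
    rw [pow_add, pow_add] at h
    linear_combination h
  have hg' : (t : ℚ) * (2 ^ s + 1) + s < s * 2 ^ t := by exact_mod_cast hg
  have ht : (0 : ℚ) ≤ t := Nat.cast_nonneg _
  have hs : (0 : ℚ) ≤ s := Nat.cast_nonneg _
  have p1 : (0 : ℚ) ≤ t * 2 ^ s := by positivity
  have p2 : (0 : ℚ) ≤ s * 2 ^ t := by positivity
  rcases neg_pow_eq_or 2 s with e | e <;> rcases neg_pow_eq_or 2 t with e' | e' <;>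
    rw [e, e'] at h' <;> nlinarith
where
  neg_pow_eq_or (a : ℚ) (n : ℕ) : (-a) ^ n = a ^ n ∨ (-a) ^ n = -a ^ n := by
    rcases Nat.even_or_odd n with h | h
    · exact Or.inl (h.neg_pow a)
    · exact Or.inr (h.neg_pow a)

theorem coll (x y z : ℕ) (hxy : x ≠ y) (hxz : x ≠ z) (hyz : y ≠ z)
    (h : ((z : ℚ) - x) * ((-2) ^ y - (-2) ^ x) = ((y : ℚ) - x) * ((-2) ^ z - (-2) ^ x)) :
    x + 1 = y ∨ y + 1 = x ∨ x + 1 = z ∨ z + 1 = x ∨ y + 1 = z ∨ z + 1 = y := by
  by_contra hc
  rcases lt_or_gt_of_ne hxy with a | a <;> rcases lt_or_gt_of_ne hxz with b | b <;>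
    rcases lt_or_gt_of_ne hyz with c | c
  · exact sorted x y z (by omega) (by omega) h
  · exact sorted x z y (by omega) (by omega) h.symm
  · omega
  · exact sorted z x y (by omega) (by omega) (by linear_combination h)
  · exact sorted y x z (by omega) (by omega) (by linear_combination -h)
  · omega
  · exact sorted y z x (by omega) (by omega) (by linear_combination h)
  · exact sorted z y x (by omega) (by omega) (by linear_combination -h)

theorem diffq {q : (τ → ℚ) → ℚ} (h : IsQ q) (a b c : ℚ) (x y z : τ → ℚ) (ha : a ≠ 0) (hb : b ≠ 0)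
    (hc : c ≠ 0) (h0 : a + b + c = 0) (h1 : ∀ i, a * x i + b * y i + c * z i = 0)
    (hq : a * q x + b * q y + c * q z = 0) : q (fun i => y i - x i) = 0 := by
  rw [h.three a b c x y z h0 h1] at hq
  have e : (fun i => z i - x i) = fun i => (-b / c) * (y i - x i) := by
    funext i
    field_simp
    linear_combination h1 i - x i * h0
  rw [e, h.hom] at hq
  have : a * b * q (fun i => y i - x i) = 0 := by
    field_simp at hq
    linear_combination b * q (fun i => y i - x i) * h0 - hq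
  simpa [ha, hb] using this

theorem sound (o : τ) (Q : Set ((τ → ℚ) → ℚ)) (hQ : ∀ q ∈ Q, IsQ q)
    (han : ∀ w : τ → ℤ, (∀ q ∈ Q, q (fun i => w i) = 0) → w o = 0 → w = 0)
    (f : MvPolynomial τ ℚ) (hf : f ≠ 0) (hc : f.support.card ≤ 3)
    (h0 : L (fun _ => 1) f = 0) (h1 : ∀ i, L (fun e => e i) f = 0)
    (h2 : ∀ q ∈ Q, L (fun e => q fun i => e i) f = 0) (h3 : L (fun e => (-2) ^ e o) f = 0) :
    ∃ w : τ → ℤ, w o = 1 ∧ ∀ q ∈ Q, q (fun i => w i) = 0 := by
  classical
  simp only [L_sum] at h0 h1 h2 h3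
  have hpos : 0 < f.support.card := Finset.card_pos.2 (by simpa using hf)
  have hcoef : ∀ e ∈ f.support, coeff e f ≠ 0 := fun e he => mem_support_iff.1 he
  have : f.support.card = 1 ∨ f.support.card = 2 ∨ f.support.card = 3 := by omega
  rcases this with h | h | h
  · obtain ⟨x, hx⟩ := Finset.card_eq_one.1 h
    rw [hx] at h0 hcoef
    exact absurd (by simpa using h0) (hcoef x (by simp))
  · obtain ⟨x, y, hxy, hx⟩ := Finset.card_eq_two.1 h
    rw [hx] at h0 h1 hcoef
    simp only [Finset.sum_pair hxy] at h0 h1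
    exfalso
    apply hxy
    ext i
    have : coeff x f * ((x i : ℚ) - y i) = 0 := by linear_combination h1 i - y i * h0
    have := (mul_eq_zero.1 this).resolve_left (hcoef x (by simp))
    exact_mod_cast sub_eq_zero.1 this
  · obtain ⟨x, y, z, hxy, hxz, hyz, hx⟩ := Finset.card_eq_three.1 h
    rw [hx] at h0 h1 h2 h3 hcoef
    have hs : ∀ F : (τ →₀ ℕ) → ℚ, ∑ e ∈ ({x, y, z} : Finset _), F e = F x + F y + F z := fun F => by
      rw [Finset.sum_insert (by simp [hxy, hxz]), Finset.sum_pair hyz, add_assoc]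
    simp only [hs, mul_one] at h0 h1 h2 h3
    have ha := hcoef x (by simp)
    have hb := hcoef y (by simp)
    have hc := hcoef z (by simp)
    generalize coeff x f = a at *
    generalize coeff y f = b at *
    generalize coeff z f = c at *
    have key : ∀ (a b c : ℚ) (x y z : τ →₀ ℕ), a ≠ 0 → b ≠ 0 → c ≠ 0 → a + b + c = 0 →
        (∀ i, a * x i + b * y i + c * z i = 0) →
        (∀ q ∈ Q, a * q (fun i => x i) + b * q (fun i => y i) + c * q (fun i => z i) = 0) →
        ∀ q ∈ Q, q (fun i => (((y i : ℤ) - x i : ℤ) : ℚ)) = 0 := by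
      intro a b c x y z ha hb hc h0 h1 h2 q hq
      simpa using diffq (hQ q hq) a b c _ _ _ ha hb hc h0 h1 (h2 q hq)
    have k1 := key a b c x y z ha hb hc h0 h1 h2
    have k2 := key b a c y x z hb ha hc (by linarith) (fun i => by linarith [h1 i])
      (fun q hq => by linarith [h2 q hq])
    have k3 := key a c b x z y ha hc hb (by linarith) (fun i => by linarith [h1 i])
      (fun q hq => by linarith [h2 q hq])
    have k4 := key c a b z x y hc ha hb (by linarith) (fun i => by linarith [h1 i])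
      (fun q hq => by linarith [h2 q hq])
    have k5 := key b c a y z x hb hc ha (by linarith) (fun i => by linarith [h1 i])
      (fun q hq => by linarith [h2 q hq])
    have k6 := key c b a z y x hc hb ha (by linarith) (fun i => by linarith [h1 i])
      (fun q hq => by linarith [h2 q hq])
    have ne : ∀ x y : τ →₀ ℕ, x ≠ y → (∀ q ∈ Q, q (fun i => (((y i : ℤ) - x i : ℤ) : ℚ)) = 0) →
        x o ≠ y o := by
      intro x y hxy hq e
      apply hxy
      have := han (fun i => (y i : ℤ) - x i) hq (by simp [e])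
      ext i
      have := congrFun this i
      simp only [Pi.zero_apply] at this
      omega
    have hcol := coll (x o) (y o) (z o) (ne _ _ hxy k1) (ne _ _ hxz k3) (ne _ _ hyz k5) (by
      apply mul_left_cancel₀ hc
      have e1 : b * ((y o : ℚ) - x o) + c * ((z o : ℚ) - x o) = 0 := by
        linear_combination h1 o - x o * h0
      have e2 : b * ((-2 : ℚ) ^ y o - (-2) ^ x o) + c * ((-2) ^ z o - (-2) ^ x o) = 0 := by
        linear_combination h3 - (-2) ^ x o * h0
      linear_combination ((-2 : ℚ) ^ y o - (-2) ^ x o) * e1 - ((y o : ℚ) - x o) * e2)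
    rcases hcol with e | e | e | e | e | e
    · exact ⟨_, by omega, k1⟩
    · exact ⟨_, by omega, k2⟩
    · exact ⟨_, by omega, k3⟩
    · exact ⟨_, by omega, k4⟩
    · exact ⟨_, by omega, k5⟩
    · exact ⟨_, by omega, k6⟩

/-- exponent vectors along a line -/
noncomputable def ex [Fintype τ] (w : τ → ℤ) (k : ℕ) : τ →₀ ℕ :=
  Finsupp.equivFunOnFinite.symm fun i => (3 * |w i| + k * w i).toNat

theorem ex_cast [Fintype τ] (w : τ → ℤ) (k : ℕ) (hk : k ≤ 3) (i : τ) :
    (ex w k i : ℤ) = 3 * |w i| + k * w i := by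
  simp only [ex, Finsupp.equivFunOnFinite_symm_apply_apply]
  apply Int.toNat_of_nonneg
  have := neg_abs_le (w i)
  have := abs_nonneg (w i)
  interval_cases k <;> push_cast <;> linarith

/-- the trinomial of pattern `x ^ 3 - 3 x + 2` -/
noncomputable def tri [Fintype τ] (w : τ → ℤ) : MvPolynomial τ ℚ :=
  monomial (ex w 0) 2 + monomial (ex w 1) (-3) + monomial (ex w 3) 1

theorem L_tri [Fintype τ] (w : τ → ℤ) (g : (τ → ℕ) → ℚ) :
    L g (tri w) = 2 * g (ex w 0) - 3 * g (ex w 1) + g (ex w 3) := by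
  simp only [tri, map_add, L_mon]; ring

theorem exq [Fintype τ] (w : τ → ℤ) (k : ℕ) (hk : k ≤ 3) (s : τ → ℕ) (i : τ) :
    (((⇑(ex w k) + s) i : ℕ) : ℚ) = 3 * |(w i : ℚ)| + s i + k * w i := by
  have : ((ex w k i : ℤ) : ℚ) = ((3 * |w i| + k * w i : ℤ) : ℚ) := by rw [ex_cast w k hk]
  push_cast at this
  simp only [Pi.add_apply, Nat.cast_add, this]; ring

theorem tri_q [Fintype τ] (w : τ → ℤ) {q : (τ → ℚ) → ℚ} (h : IsQ q) (s : τ → ℕ) :
    L (fun e => q fun i => ((e + s) i : ℕ)) (tri w) = 6 * q fun i => w i := by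
  rw [L_tri]
  have := h.three 2 (-3) 1 (fun i => (((⇑(ex w 0) + s) i : ℕ) : ℚ))
    (fun i => (((⇑(ex w 1) + s) i : ℕ) : ℚ)) (fun i => (((⇑(ex w 3) + s) i : ℕ) : ℚ)) (by norm_num)
    (fun i => by simp only [exq w _ (by norm_num : 0 ≤ 3), exq w _ (by norm_num : 1 ≤ 3),
      exq w _ le_rfl]; push_cast; ring)
  have e1 : (fun i => (((⇑(ex w 1) + s) i : ℕ) : ℚ) - (((⇑(ex w 0) + s) i : ℕ) : ℚ))
      = fun i => (w i : ℚ) := by
    funext i; rw [exq w _ (by norm_num), exq w _ (by norm_num)]; push_cast; ring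
  have e3 : (fun i => (((⇑(ex w 3) + s) i : ℕ) : ℚ) - (((⇑(ex w 0) + s) i : ℕ) : ℚ))
      = fun i => 3 * (w i : ℚ) := by
    funext i; rw [exq w _ (by norm_num), exq w _ (by norm_num)]; push_cast; ring
  rw [e1, e3, h.hom] at this
  linear_combination this

/-- the defining family of functionals -/
def Gs (o : τ) (Q : Set ((τ → ℚ) → ℚ)) : Set ((τ → ℕ) → ℚ) :=
  {g | g = (fun _ => 1) ∨ (∃ i, g = fun e => e i) ∨ (∃ q ∈ Q, g = fun e => q fun i => e i) ∨
    g = fun e => (-2) ^ e o}

theorem tri_mem [Fintype τ] (o : τ) (Q : Set ((τ → ℚ) → ℚ)) (hQ : ∀ q ∈ Q, IsQ q) (w : τ → ℤ)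
    (ho : w o = 1) (hw : ∀ q ∈ Q, q (fun i => w i) = 0) : tri w ∈ Ann (Gs o Q) := by
  rintro g (rfl | ⟨i, rfl⟩ | ⟨q, hq, rfl⟩ | rfl) s
  · rw [L_tri]; norm_num
  · rw [L_tri]
    simp only [exq w _ (by norm_num : 0 ≤ 3), exq w _ (by norm_num : 1 ≤ 3), exq w _ le_rfl]
    push_cast; ring
  · rw [tri_q w (hQ q hq), hw q hq, mul_zero]
  · rw [L_tri]
    have e : ∀ k ≤ 3, ex w k o = 3 + k := fun k hk => by
      have := ex_cast w k hk o
      rw [ho] at this
      simp only [abs_one, mul_one] at this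
      omega
    simp only [Pi.add_apply, e 0 (by norm_num), e 1 (by norm_num), e 3 le_rfl, pow_add]
    ring

/-- decoding of the input format -/
noncomputable def dec (p : List (List ℕ × ℕ × ℕ)) : MvPolynomial ℕ ℚ :=
  (p.map (fun t => MvPolynomial.C ((t.2.1 : ℚ) - (t.2.2 : ℚ)) *
    (t.1.map (MvPolynomial.X : ℕ → MvPolynomial ℕ ℚ)).prod)).sum

/-- scaling an encoded polynomial -/
def scale (k : ℕ) (p : List (List ℕ × ℕ × ℕ)) : List (List ℕ × ℕ × ℕ) :=
  p.map fun t => (t.1, k * t.2.1, k * t.2.2)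

theorem dec_append (p q : List (List ℕ × ℕ × ℕ)) : dec (p ++ q) = dec p + dec q := by
  simp [dec]

theorem dec_scale (k : ℕ) (p : List (List ℕ × ℕ × ℕ)) : dec (scale k p) = C (k : ℚ) * dec p := by
  induction p with
  | nil => simp [dec, scale]
  | cons t p ih =>
    simp only [dec, scale, List.map_cons, List.sum_cons] at ih ⊢
    rw [ih, mul_add, ← mul_assoc, ← C_mul]
    push_cast
    rw [mul_sub]

theorem enc (f : MvPolynomial ℕ ℚ) : ∃ (l : List (List ℕ × ℕ × ℕ)) (c : ℕ), c ≠ 0 ∧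
    dec l = C (c : ℚ) * f := by
  induction f using MvPolynomial.induction_on with
  | C a =>
    refine ⟨[([], a.num.toNat, (-a.num).toNat)], a.den, a.den_nz, ?_⟩
    have h : ((a.num.toNat : ℤ) : ℚ) - ((-a.num).toNat : ℤ) = a.den * a := by
      rw [← Int.cast_sub, Int.toNat_sub_toNat_neg, Rat.den_mul_eq_num]
    simp only [dec, List.map_cons, List.map_nil, List.prod_nil, List.sum_cons, List.sum_nil,
      mul_one, add_zero, ← C_mul, ← h, Int.cast_natCast]
  | add p q hp hq =>
    obtain ⟨l, c, hc, h⟩ := hp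
    obtain ⟨l', c', hc', h'⟩ := hq
    refine ⟨scale c' l ++ scale c l', c * c', mul_ne_zero hc hc', ?_⟩
    rw [dec_append, dec_scale, dec_scale, h, h']
    push_cast
    rw [C_mul]; ring
  | mul_X p i hp =>
    obtain ⟨l, c, hc, h⟩ := hp
    refine ⟨l.map fun t => (i :: t.1, t.2), c, hc, ?_⟩
    rw [← mul_assoc, ← h]
    clear h
    induction l with
    | nil => simp [dec]
    | cons t l ih =>
      simp only [dec, List.map_cons, List.sum_cons, List.prod_cons] at ih ⊢
      rw [ih]; ring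

theorem shift_q {q : (τ → ℚ) → ℚ} (h : IsQ q) (f : MvPolynomial τ ℚ)
    (h0 : L (fun _ => 1) f = 0) (h1 : ∀ i, L (fun e => e i) f = 0) (s : τ → ℕ) :
    L (fun e => q fun i => ((e + s) i : ℕ)) f = L (fun e => q fun i => e i) f := by
  induction h with
  | mul i j =>
    have : (fun e : τ → ℕ => (((e + s) i : ℕ) : ℚ) * ((e + s) j : ℕ)) = fun e =>
        (e i : ℚ) * e j + ((s j : ℚ) * e i + ((s i : ℚ) * e j + (s i * s j : ℚ) * 1)) := by
      funext e; simp only [Pi.add_apply]; push_cast; ring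
    rw [this, L_add, L_add, L_add, L_smul, L_smul, L_smul, h0, h1, h1]; ring
  | zero => rfl
  | add _ _ h h' => rw [L_add, L_add, h, h']
  | smul c _ h => rw [L_smul, L_smul, h]

end Pool.Agent.H24.Trinom
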