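import Pool.Agent.H24.UcDefs
import Pool.Agent.H24.Per3
import Pool.Agent.H23.Ori3

set_option autoImplicit false

namespace Pool.Agent.H24.Uc
open Pool.Agent.H11.PT Pool.Agent.H24.Per Relation Finset
open Pool.Agent.H23.Ori (dc dc_iff dc_of)
open Pool.Agent.H24.Plt (ad)

def Re (A : ℕ → ℕ → Prop) (W : Set ℕ) (v a : ℕ) (b d : Bool) (w B : ℕ) : Prop :=
  ∃ (c : ℕ → ℕ) (D : Finset ℕ), (∀ x ∈ D, x ∈ W) ∧ (∀ x ∈ W, ∀ y ∈ W, A x y → c x ≠ c y) ∧
    (∀ x ∈ D, c x ≠ 0) ∧ (∀ x ∈ W, x ∉ D → (x = v ∧ d = false) ∨ ∃ y ∈ D, A x y ∧ c x < c y) ∧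
    c v = a ∧ (v ∈ D ↔ b = true) ∧ ∑ x ∈ D, c x = w ∧ ∀ x ∈ W, c x ≤ B

abbrev K := ℕ × ℕ × ℕ × ℕ × Bool × Bool × ℕ

def Rl (n : ℕ) (A : ℕ → ℕ → Prop) (S : List K) (k : K) : Prop :=
  (k.2.2.1 = 0 ∧ ((k.2.2.2.2.1 = true ∧ ¬ k.2.2.2.1 = 0 ∧ k.2.2.2.2.2.2 = k.2.2.2.1) ∨
    (k.2.2.2.2.1 = false ∧ k.2.2.2.2.2.1 = false ∧ k.2.2.2.2.2.2 = 0))) ∨
  ∃ s, s ∈ S ∧ s.1 = k.1 ∧ s.2.1 = k.2.1 ∧ s.2.2.1 + 1 = k.2.2.1 ∧ s.2.2.2.1 = k.2.2.2.1 ∧
    s.2.2.2.2.1 = k.2.2.2.2.1 ∧ ((¬ (¬ s.2.2.1 = k.1 ∧ A k.2.1 s.2.2.1) ∧ s.2.2.2.2.2 = k.2.2.2.2.2) ∨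
      (¬ s.2.2.1 = k.1 ∧ A k.2.1 s.2.2.1 ∧ ∃ r, r ∈ S ∧ r.1 = k.2.1 ∧ r.2.1 = s.2.2.1 ∧ r.2.2.1 = n ∧
        ¬ k.2.2.2.1 = r.2.2.2.1 ∧ (r.2.2.2.2.2.1 = true ∨ (k.2.2.2.2.1 = true ∧ r.2.2.2.1 < k.2.2.2.1)) ∧
        (k.2.2.2.2.2.1 = false ∨ s.2.2.2.2.2.1 = true ∨
          (r.2.2.2.2.1 = true ∧ k.2.2.2.1 < r.2.2.2.1)) ∧
        k.2.2.2.2.2.2 = s.2.2.2.2.2.2 + r.2.2.2.2.2.2))

def I (A : ℕ → ℕ → Prop) (k : K) : Prop :=
  ∃ B, Re A (WW A k.1 k.2.1 k.2.2.1) k.2.1 k.2.2.2.1 k.2.2.2.2.1 k.2.2.2.2.2.1 k.2.2.2.2.2.2 B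

variable {n B : ℕ} {A : ℕ → ℕ → Prop}

theorem sound (H : Tr n A) {S : List K} {k : K} (hS : ∀ s ∈ S, I A s) (h : Rl n A S k) : I A k := by
  classical
  obtain ⟨u, v, j, a, b, d, w⟩ := k
  have ir : ∀ x, ¬ A x x := fun x e => (H _ _ e).2.2.2 .refl
  unfold Rl at h
  dsimp only at h
  rcases h with ⟨rfl, ⟨rfl, e, rfl⟩ | ⟨rfl, rfl, rfl⟩⟩ | ⟨⟨u, v, j, a, b, d1, w1⟩, m, rfl, rfl, rfl,
    rfl, rfl, ⟨e, f⟩ | ⟨e1, e, ⟨v, j, n, a2, b2, d2, w2⟩, m2, rfl, rfl, rfl, f1, f2, f3, rfl⟩⟩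
  · exact ⟨_, fun _ => w, {v}, by simp [WW], by simpa [WW] using ir v, by simpa using e,
      by simp [WW], rfl, by simp, by simp, fun _ _ => le_rfl⟩
  · exact ⟨_, fun _ => a, ∅, by simp [WW], by simpa [WW] using ir v, by simp,
      by simp [WW], rfl, by simp, by simp, fun _ _ => le_rfl⟩
  · obtain ⟨rfl, rfl⟩ := f
    have := hS _ m
    unfold I at this ⊢
    simpa only [s7 e] using this
  · obtain ⟨B1, c1, D1, p1, p2, p3, p4, p5, p6, p7, p8⟩ := hS _ m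
    obtain ⟨B2, c2, D2, q1, q2, q3, q4, q5, q6, q7, q8⟩ := hS _ m2
    dsimp only at *
    have dj := fun x => s4 (u := u) (x := x) H e
    have cr := s5 (u := u) H e
    have hv : v ∈ WW A u v j := .inl rfl
    have hj : j ∈ WW A v j n := .inl rfl
    obtain ⟨c, k1, k2⟩ : ∃ c : ℕ → ℕ, (∀ x ∈ WW A u v j, c x = c1 x) ∧
        ∀ x ∈ WW A v j n, c x = c2 x :=
      ⟨fun x => if x ∈ WW A u v j then c1 x else c2 x, fun x h => if_pos h,
        fun x h => if_neg fun h' => dj x h' h⟩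
    refine ⟨max B1 B2, c, D1 ∪ D2, ?_, ?_, ?_, ?_, (k1 v hv).trans p5, ?_, ?_, ?_⟩
    all_goals try rw [s6 H e e1]
    · exact fun x h => (mem_union.1 h).imp (p1 x) (q1 x)
    · rintro x (hx | hx) y (hy | hy) r
      · rw [k1 x hx, k1 y hy]; exact p2 x hx y hy r
      · obtain ⟨rfl, rfl⟩ := cr x hx y hy (.inl r)
        rw [k1 x hx, k2 y hy, p5, q5]; exact f1
      · obtain ⟨rfl, rfl⟩ := cr y hy x hx (.inr r)
        rw [k1 y hy, k2 x hx, p5, q5]; exact Ne.symm f1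
      · rw [k2 x hx, k2 y hy]; exact q2 x hx y hy r
    · intro x h
      rcases mem_union.1 h with h | h
      · rw [k1 x (p1 x h)]; exact p3 x h
      · rw [k2 x (q1 x h)]; exact q3 x h
    · rintro x (hx | hx) h <;> rw [mem_union, not_or] at h
      · rcases p4 x hx h.1 with ⟨rfl, g⟩ | ⟨y, g1, g2, g3⟩
        · rcases f3 with f | f | f
          · exact .inl ⟨rfl, f⟩
          · simp [g] at f
          · exact .inr ⟨j, mem_union_right _ (q6.2 f.1), e, by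
              rw [k1 x hx, k2 j hj, p5, q5]; exact f.2⟩
        · exact .inr ⟨y, mem_union_left _ g1, g2, by rwa [k1 x hx, k1 y (p1 y g1)]⟩
      · rcases q4 x hx h.2 with ⟨rfl, g⟩ | ⟨y, g1, g2, g3⟩
        · rcases f2 with f | f
          · simp [g] at f
          · exact .inr ⟨v, mem_union_left _ (p6.2 f.1), (H _ _ e).1, by
              rw [k1 v hv, k2 x hx, p5, q5]; exact f.2⟩
        · exact .inr ⟨y, mem_union_right _ g1, g2, by rwa [k2 x hx, k2 y (q1 y g1)]⟩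
    · rw [mem_union, ← p6]
      exact or_iff_left fun h => dj v hv (q1 v h)
    · rw [sum_union (disjoint_left.2 fun x h h' => dj x (p1 x h) (q1 x h')), ← p7, ← q7]
      exact congrArg₂ _ (sum_congr rfl fun x h => k1 x (p1 x h))
        (sum_congr rfl fun x h => k2 x (q1 x h))
    · rintro x (hx | hx)
      · rw [k1 x hx]; exact le_max_of_le_left (p8 x hx)
      · rw [k2 x hx]; exact le_max_of_le_right (q8 x hx)

theorem complete (H : Tr n A) {S : List K} (hT : ∀ u < n, ∀ v < n, ∀ j ≤ n, ∀ a ≤ B, ∀ b d,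
    ∀ w ≤ B, Rl n A S (u, v, j, a, b, d, w) → (u, v, j, a, b, d, w) ∈ S) :
    ∀ m, ∀ u < n, ∀ v < n, ∀ j ≤ n, (WW A u v j).ncard * (n + 1) + j = m → ∀ a b d, ∀ w ≤ B,
      Re A (WW A u v j) v a b d w B → (u, v, j, a, b, d, w) ∈ S := by
  classical
  intro m
  induction m using Nat.strong_induction_on with
  | _ m ih =>
  intro u hu v hv j hj hm a b d w hw h
  have ha : a ≤ B := by
    obtain ⟨c, D, -, -, -, -, rfl, -, -, p⟩ := h
    exact p v (.inl rfl)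
  refine hT u hu v hv j hj a ha b d w hw ?_
  rcases j with _ | j
  · obtain ⟨c, D, p1, p2, p3, p4, rfl, p6, rfl, -⟩ := h
    have e : WW A u v 0 = {v} := by simp [WW]
    rw [e] at p1 p4
    refine .inl ⟨rfl, ?_⟩
    cases b
    · obtain rfl : D = ∅ := eq_empty_of_forall_notMem fun x hx => by
        obtain rfl : x = v := p1 x hx
        simpa using p6.1 hx
      simpa using p4 v rfl
    · obtain rfl : D = {v} := eq_singleton_iff_unique_mem.2 ⟨p6.2 rfl, p1⟩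
      simpa using p3
  by_cases e : j ≠ u ∧ A v j
  swap
  · rw [s7 e] at h hm
    exact .inr ⟨_, ih _ (by omega) u hu v hv j (by omega) rfl a b d w hw h, rfl, rfl, rfl, rfl, rfl,
      .inl ⟨e, rfl⟩⟩
  obtain ⟨e1, e⟩ := e
  rw [s6 H e e1] at h hm
  have dj := fun x => s4 (u := u) (x := x) H e
  have cr := s5 (u := u) H e
  have hv' : v ∈ WW A u v j := .inl rfl
  have hj' : j ∈ WW A v j n := .inl rfl
  have fin : ∀ u v j, v < n → (WW A u v j).Finite := fun u v j hv =>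
    (Set.finite_lt_nat n).subset fun x hx => s8 H hv hx
  rw [Set.ncard_union_eq (Set.disjoint_left.2 dj) (fin _ _ _ hv) (fin _ _ _ hj), add_mul] at hm
  have n1 := Nat.mul_le_mul_right (n + 1) ((Set.ncard_pos (fin u v j hv)).2 ⟨v, hv'⟩)
  have n2 := Nat.mul_le_mul_right (n + 1) ((Set.ncard_pos (fin v j n hj)).2 ⟨j, hj'⟩)
  obtain ⟨c, D, p1, p2, p3, p4, rfl, p6, rfl, p8⟩ := h
  have sp : ∑ x ∈ D, c x = ∑ x ∈ D.filter (· ∈ WW A u v j), c x +
      ∑ x ∈ D.filter (· ∈ WW A v j n), c x := by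
    rw [← sum_filter_add_sum_filter_not D (· ∈ WW A u v j)]
    exact congrArg _ (sum_congr (filter_congr fun x hx =>
      ⟨fun k => (p1 x hx).resolve_left k, fun k k' => dj x k' k⟩) fun _ _ => rfl)
  have re : ∀ (W : Set ℕ) z, z ∈ W → W ⊆ WW A u v j ∪ WW A v j n →
      (∀ x ∈ W, ∀ y ∈ WW A u v j ∪ WW A v j n, A x y → y ∈ W ∨ x = z) → (v ∈ W → v = z) →
      Re A W z (c z) (decide (z ∈ D)) (decide (z ∈ D ∨ ∃ y ∈ D, y ∈ W ∧ A z y ∧ c z < c y))
        (∑ x ∈ D.filter (· ∈ W), c x) B := fun W z hz sW k k' =>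
    ⟨c, D.filter (· ∈ W), fun x h => (mem_filter.1 h).2, fun x hx y hy => p2 x (sW hx) y (sW hy),
      fun x h => p3 x (mem_filter.1 h).1, fun x hx h => by
        have h' : x ∉ D := fun g => h (mem_filter.2 ⟨g, hx⟩)
        by_cases g : ∃ y ∈ D, y ∈ W ∧ A x y ∧ c x < c y
        · obtain ⟨y, g1, g2, g3⟩ := g
          exact .inr ⟨y, mem_filter.2 ⟨g1, g2⟩, g3⟩
        · have : x = z := by
            rcases p4 x (sW hx) h' with ⟨rfl, -⟩ | ⟨y, g1, g2, g3⟩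
            · exact k' hx
            · exact (k x hx y (p1 y g1) g2).resolve_left fun g4 => g ⟨y, g1, g4, g2, g3⟩
          subst this
          exact .inl ⟨rfl, by simp only [decide_eq_false_iff_not, not_or]; exact ⟨h', g⟩⟩,
      rfl, by simp [hz], rfl, fun x hx => p8 x (sW hx)⟩
  have r1 := ih _ (by omega) u hu v hv j (by omega) rfl _ _ _ _ (by omega)
    (re _ v hv' Set.subset_union_left (fun x hx y hy r => hy.imp_right fun g =>
      (cr x hx y g (.inl r)).1) fun _ => rfl)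
  have r2 := ih _ (by omega) v hv j hj n le_rfl rfl _ _ _ _ (by omega)
    (re _ j hj' Set.subset_union_right (fun x hx y hy r => hy.symm.imp_right fun g =>
      (cr y g x hx (.inr r)).2) fun g => absurd g (dj v hv'))
  refine .inr ⟨_, r1, rfl, rfl, rfl, rfl, Bool.eq_iff_iff.2 (decide_eq_true_iff.trans p6),
    .inr ⟨e1, e, _, r2, rfl, rfl, rfl, p2 v (.inl hv') j (.inr hj') e, ?_, ?_, sp⟩⟩
  · simp only [decide_eq_true_eq]
    by_cases g : j ∈ D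
    · exact .inl (.inl g)
    rcases p4 j (.inr hj') g with ⟨rfl, -⟩ | ⟨y, g1, g2, g3⟩
    · exact absurd hj' (dj _ hv')
    rcases p1 y g1 with g4 | g4
    · obtain ⟨rfl, -⟩ := cr y g4 j hj' (.inr g2)
      exact .inr ⟨p6.1 g1, g3⟩
    · exact .inl (.inr ⟨y, g1, g4, g2, g3⟩)
  · simp only [decide_eq_true_eq]
    by_cases g : v ∈ D
    · exact .inr (.inl (.inl g))
    rcases p4 v (.inl hv') g with ⟨-, g⟩ | ⟨y, g1, g2, g3⟩
    · exact .inl g
    rcases p1 y g1 with g4 | g4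
    · exact .inr (.inl (.inr ⟨y, g1, g4, g2, g3⟩))
    · obtain ⟨-, rfl⟩ := cr v hv' y g4 (.inl g2)
      exact .inr (.inr ⟨g1, g3⟩)

abbrev Y := ℕ × List (ℕ × ℕ)

def ad2 (y : Y) (u v : ℕ) : Bool := adb (y, 0, []) u v

def UU (y : Y) : List K := List.range y.1 ×ˢ List.range y.1 ×ˢ List.range (y.1 + 1) ×ˢ
  List.range (y.1 * y.1 + 1) ×ˢ [true, false] ×ˢ [true, false] ×ˢ List.range (y.1 * y.1 + 1)

noncomputable def rb (y : Y) (S : List K) (k : K) : Bool :=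
  dc (Rl y.1 (fun u v => ad2 y u v = true) S k)

noncomputable def fx (y : Y) : List K := clo (UU y) (rb y) (UU y).length

def gd (S : List K) (n w : ℕ) : Bool :=
  S.any fun k => k.1 == 0 && k.2.1 == 0 && k.2.2.1 == n && k.2.2.2.2.2.1 && k.2.2.2.2.2.2 == w

noncomputable def alg (y : Y) : ℕ :=
  ((List.range (y.1 * y.1 + 1)).find? fun w => gd (fx y) y.1 w).getD 0

theorem pt_alg : PT alg := by
  have h1 : PT UU := by unfold UU; fun_prop
  have h2 : PT fun q : (Y × List K) × K => rb q.1.1 q.1.2 q.2 := by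
    unfold rb Rl ad2 adb ad; fun_prop
  have h3 : PT fx := PT.iterate
    (g := fun y S => (UU y).filter fun k => S.contains k || rb y S k) (PT.length h1)
    (PT.const _) (PT.filter (by fun_prop) (PT.or (by fun_prop) h2))
    (fun y S => S.Sublist (UU y)) _ h1 (fun _ => List.nil_sublist _)
    (fun _ _ _ => List.filter_sublist) fun _ _ => sz_sublist
  have h4 : PT fun y => (y, fx y) := PT.pair PT.id h3
  exact PT.comp (f := fun q : Y × List K => ((List.range (q.1.1 * q.1.1 + 1)).find? fun w =>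
    gd q.2 q.1.1 w).getD 0) (by unfold gd; fun_prop) h4

theorem uc_iff {y : Y} {w : ℕ} (h0 : 0 < y.1) : UC (gr y.1 y.2) w ↔
    ∃ a b, Re (AA (y, 0, [])) {x | x < y.1} 0 a b true w w := by
  classical
  have ad := AA_iff (y, 0, [])
  constructor
  · rintro ⟨c, D, p1, p2, p3, rfl⟩
    have le : ∀ x ∈ D, c x ≤ ∑ d ∈ D, c d := fun x hx =>
      single_le_sum (f := c) (fun _ _ => Nat.zero_le _) hx
    refine ⟨_, decide (0 ∈ D.map Fin.valEmbedding), fun x => if h : x < y.1 then c ⟨x, h⟩ else 0,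
      D.map Fin.valEmbedding, by simp, fun x hx z hz r => ?_, by simpa using p2, fun x hx h => ?_,
      rfl, by simp, by simp, fun x hx => ?_⟩
    · simp only [show x < y.1 from hx, show z < y.1 from hz, dite_true]
      exact p1 _ _ ((ad ⟨x, hx⟩ ⟨z, hz⟩).1 r)
    · obtain ⟨d, d1, d2, d3⟩ := p3 ⟨x, hx⟩ fun g => h (mem_map_of_mem Fin.valEmbedding g)
      exact .inr ⟨d, mem_map_of_mem Fin.valEmbedding d1, (ad ⟨x, hx⟩ d).2 d2, by
        simpa [show x < y.1 from hx] using d3⟩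
    · simp only [show x < y.1 from hx, dite_true]
      by_cases g : ⟨x, hx⟩ ∈ D
      · exact le _ g
      · obtain ⟨d, d1, -, d3⟩ := p3 _ g
        exact d3.le.trans (le _ d1)
  · rintro ⟨a, b, c, D, p1, p2, p3, p4, -, -, rfl, -⟩
    refine ⟨fun v => c v, univ.filter fun v => v.1 ∈ D, fun u v r => p2 _ u.2 _ v.2 ((ad u v).2 r),
      fun d h => p3 _ (mem_filter.1 h).2, fun v h => ?_, ?_⟩
    · obtain ⟨-, g⟩ | ⟨z, g1, g2, g3⟩ := p4 v v.2 (by simpa using h)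
      · simp at g
      · exact ⟨⟨z, p1 z g1⟩, by simpa using g1, (ad v ⟨z, p1 z g1⟩).1 g2, g3⟩
    · exact sum_bij (fun v _ => v.1) (fun v h => (mem_filter.1 h).2) (fun _ _ _ _ => Fin.ext)
        (fun z h => ⟨⟨z, p1 z h⟩, by simpa using h, rfl⟩) fun _ _ => rfl

theorem main {y : Y} (hy : (gr y.1 y.2).IsTree) : IsLeast {w | UC (gr y.1 y.2) w} (alg y) := by
  have H := tr (y := (y, 0, [])) hy.isAcyclic
  have hs : 0 < y.1 := Fin.pos hy.connected.nonempty.some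
  have hW : WW (AA (y, 0, [])) 0 0 y.1 = {x | x < y.1} := by
    refine Set.ext fun x => ⟨s8 H hs, fun hx => ?_⟩
    have : ∀ z, ReflTransGen (gr y.1 y.2).Adj ⟨_, hs⟩ z → z.1 ∈ WW (AA (y, 0, [])) 0 0 y.1 :=
      fun z h => by
        induction h with
        | refl => exact .inl rfl
        | tail _ b ih =>
          exact s2 H ih ((AA_iff (y, 0, []) _ _).2 b) fun e => b.ne (Fin.ext (e.1.trans e.2.symm))
    exact this ⟨x, hx⟩ ((SimpleGraph.reachable_iff_reflTransGen _ _).1 (hy.connected _ _))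
  have key : ∀ w < y.1 * y.1 + 1, UC (gr y.1 y.2) w ↔ gd (fx y) y.1 w = true := fun w hw => by
    constructor
    · intro h
      obtain ⟨a, b, c, D, p⟩ := (uc_iff hs).1 h
      have := complete (B := y.1 * y.1) (S := fx y) H (fun u hu v hv j hj a ha b d w hw r =>
        clo2 (U := UU y) (r := rb y) (by cases b <;> cases d <;> simp [UU, *, Nat.lt_succ_iff])
          (dc_iff.2 r)) _ _ hs _ hs _ le_rfl rfl a b true w (by omega)
        (hW ▸ ⟨c, D, p.1, p.2.1, p.2.2.1, p.2.2.2.1, p.2.2.2.2.1, p.2.2.2.2.2.1, p.2.2.2.2.2.2.1,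
          fun x hx => (p.2.2.2.2.2.2.2 x hx).trans (by omega)⟩)
      exact List.any_eq_true.2 ⟨_, this, by simp⟩
    · intro h
      obtain ⟨⟨u, v, j, a, b, d, w'⟩, m, e⟩ := List.any_eq_true.1 h
      simp only [Bool.and_eq_true, beq_iff_eq] at e
      obtain ⟨⟨⟨⟨rfl, rfl⟩, rfl⟩, rfl⟩, rfl⟩ := e
      obtain ⟨B, c, D, p1, p2, p3, p4, -, -, p7, -⟩ := clo1 (U := UU y) (r := rb y)
        (I := I (AA (y, 0, []))) (fun S k h1 h2 => sound H h1 (dc_iff.1 h2)) _ _ m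
      dsimp only at *
      rw [hW] at p1 p2 p4
      classical
      have le : ∀ x ∈ D, c x ≤ w' := fun x hx =>
        p7 ▸ single_le_sum (f := c) (fun _ _ => Nat.zero_le _) hx
      refine (uc_iff hs).2 ⟨_, decide (0 ∈ D), c, D, p1, p2, p3, p4, rfl, by simp, p7, fun x hx => ?_⟩
      by_cases g : x ∈ D
      · exact le x g
      · obtain ⟨-, g⟩ | ⟨z, g1, -, g3⟩ := p4 x hx g
        · simp at g
        · exact g3.le.trans (le z g1)
  obtain ⟨τ, h1, h2⟩ : ∃ w < y.1 * y.1 + 1, UC (gr y.1 y.2) w :=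
    ⟨_, Nat.lt_succ_of_le ((sum_le_card_nsmul _ _ y.1 fun x _ => x.2).trans (by simp)),
      fun v => v.1 + 1, univ, fun u v r e => r.ne (Fin.ext (by simpa using e)), by simp, by simp, rfl⟩
  obtain ⟨σ, e⟩ := Option.isSome_iff_exists.1 ((List.find?_isSome (p := fun w =>
    gd (fx y) y.1 w)).2 ⟨τ, List.mem_range.2 h1, (key τ h1).1 h2⟩)
  rw [alg, e]
  obtain ⟨e1, e2, e3⟩ := List.find?_range_eq_some.1 e
  have e2 := List.mem_range.1 e2
  refine ⟨(key σ e2).2 e1, fun ρ hρ => not_lt.1 fun h => ?_⟩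
  simpa [(key ρ (h.trans e2)).1 hρ] using e3 ρ h

end Pool.Agent.H24.Uc
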