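import Pool.Agent.H25.CBase

set_option autoImplicit false

namespace Pool.Agent.H24.Uc
open Pool.Agent.H11.PT Pool.Agent.H25.CB

def ll (φ : F3) (o : ℕ) : ℕ := 2 * (lit φ o).1 + if (lit φ o).2 = true then 0 else 1
def RR (φ : F3) : ℕ := 2 * nv φ + 6 * φ.length
def QQ (φ : F3) : ℕ := 2 * nv φ + 8 * φ.length + 1

def SS (φ : F3) (q l : ℕ) : Prop :=
  (q < nv φ ∧ l / 2 = q) ∨
  (nv φ ≤ q ∧ q < nv φ + φ.length ∧ 2 * nv φ ≤ l ∧ (l - 2 * nv φ) / 6 = q - nv φ ∧ l % 2 = 0) ∨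
  (nv φ + φ.length ≤ q ∧ q < nv φ + 7 * φ.length ∧
    (l = 2 * nv φ + (q - nv φ - φ.length) ∨ l = ll φ ((q - nv φ - φ.length) / 2))) ∨
  (nv φ + 7 * φ.length ≤ q ∧ q < nv φ + 8 * φ.length ∧ 2 * nv φ ≤ l ∧
    (l - 2 * nv φ) / 6 = q - nv φ - 7 * φ.length ∧ l % 2 = 1) ∨
  (nv φ + 8 * φ.length ≤ q ∧ q < 2 * nv φ + 8 * φ.length ∧ l / 2 = q - nv φ - 8 * φ.length) ∨
  (q = 2 * nv φ + 8 * φ.length ∧ ¬ (l < 2 * nv φ ∧ l % 2 = 0) ∧
    ¬ (2 * nv φ ≤ l ∧ (l - 2 * nv φ) % 6 = 1))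

def pi (φ : F3) (l : ℕ) : ℕ := if 2 * nv φ ≤ l ∧ (l - 2 * nv φ) % 6 = 0 then l + 1 else
  if 2 * nv φ ≤ l ∧ (l - 2 * nv φ) % 6 = 1 then l - 1 else l

theorem pi_pi (φ : F3) (l : ℕ) : pi φ (pi φ l) = l ∧ (l < RR φ → pi φ l < RR φ) := by
  unfold pi RR; split_ifs <;> omega

theorem ll_lt (φ : F3) (o : ℕ) : ll φ o < 2 * nv φ := by
  have := lit_lt φ o
  unfold ll; split_ifs <;> omega

def Mid (φ : F3) : Prop := ∃ σ : ℕ → ℕ → ℕ,
  (∀ τ ≤ QQ φ, ∀ l < RR φ, σ τ l < RR φ ∧ ∀ l' < RR φ, σ τ l = σ τ l' → l = l') ∧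
  (∀ l < RR φ, σ 0 l = l ∧ σ (QQ φ) l = pi φ l) ∧
  ∀ τ < QQ φ, ∀ l < RR φ, ¬ SS φ τ l → σ (τ + 1) l = σ τ l

theorem mid_sat {φ : F3} (h : Mid φ) : SAT3 φ := by
  obtain ⟨σ, h1, h2, h3⟩ := h
  have sj : ∀ τ ≤ QQ φ, ∀ x < RR φ, ∃ l < RR φ, σ τ l = x := fun τ hτ x hx => by
    obtain ⟨l, a, b⟩ := Finset.surj_on_of_inj_on_of_card_le (s := Finset.range (RR φ))
      (t := Finset.range (RR φ)) (fun l _ => σ τ l)
      (fun l a => Finset.mem_range.2 (h1 τ hτ l (Finset.mem_range.1 a)).1)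
      (fun l l' a b => (h1 τ hτ l (Finset.mem_range.1 a)).2 l' (Finset.mem_range.1 b)) le_rfl x
      (Finset.mem_range.2 hx)
    exact ⟨l, Finset.mem_range.1 a, b.symm⟩
  choose! P p1 p2 using sj
  have eq : ∀ τ ≤ QQ φ, ∀ x < RR φ, ∀ l < RR φ, σ τ l = x → P τ x = l := fun τ hτ x hx l hl e =>
    (h1 τ hτ _ (p1 τ hτ x hx)).2 l hl ((p2 τ hτ x hx).trans e.symm)
  have mv : ∀ τ < QQ φ, ∀ x < RR φ, P (τ + 1) x = P τ x ∨
      (SS φ τ (P τ x) ∧ SS φ τ (P (τ + 1) x)) := fun τ hτ x hx => by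
    by_cases a : SS φ τ (P τ x)
    · by_cases b : SS φ τ (P (τ + 1) x)
      · exact .inr ⟨a, b⟩
      · exact .inl (eq τ hτ.le x hx _ (p1 _ hτ x hx)
          ((h3 τ hτ _ (p1 _ hτ x hx) b).symm.trans (p2 _ hτ x hx))).symm
    · exact .inl (eq _ hτ x hx _ (p1 _ hτ.le x hx)
        ((h3 τ hτ _ (p1 _ hτ.le x hx) a).trans (p2 _ hτ.le x hx)))
  have e0 : ∀ x < RR φ, P 0 x = x := fun x hx => eq 0 (by omega) x hx x hx (h2 x hx).1
  have eQ : ∀ x < RR φ, P (QQ φ) x = pi φ x := fun x hx => eq _ le_rfl x hx _ ((pi_pi φ x).2 hx)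
    ((h2 _ ((pi_pi φ x).2 hx)).2.trans (pi_pi φ x).1)
  unfold QQ RR at *
  have va : ∀ i < nv φ, ∀ τ ≤ nv φ, P τ (2 * i) / 2 = i := fun i hi τ => by
    induction τ with
    | zero => intro _; rw [e0 _ (by omega)]; omega
    | succ τ ih =>
      intro hτ
      have := mv τ (by omega) (2 * i) (by omega)
      unfold SS at this
      omega
  have vb : ∀ i < nv φ, ∀ τ, nv φ ≤ τ → τ ≤ nv φ + 8 * φ.length → P τ (2 * i) = P (nv φ) (2 * i) := by
    intro i hi
    have a0 := va i hi _ le_rfl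
    have a1 : ∀ τ σ, τ ≤ σ → σ ≤ 2 * nv φ + 8 * φ.length → (2 * nv φ ≤ P τ (2 * i) ∧
        nv φ + φ.length + (P τ (2 * i) - 2 * nv φ) < τ) → (2 * nv φ ≤ P σ (2 * i) ∧
        nv φ + φ.length + (P σ (2 * i) - 2 * nv φ) < σ) := fun τ σ h => by
      induction σ, h using Nat.le_induction with
      | base => exact fun _ h => h
      | succ σ _ ih =>
        intro a b
        have := ih (by omega) b
        have := mv σ (by omega) (2 * i) (by omega)
        have := p1 (σ + 1) (by omega) (2 * i) (by omega)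
        have := ll_lt φ ((σ - nv φ - φ.length) / 2)
        unfold SS at *
        omega
    have a2 : ∀ τ ≤ nv φ + 8 * φ.length, ¬ (2 * nv φ ≤ P τ (2 * i) ∧
        nv φ + φ.length + (P τ (2 * i) - 2 * nv φ) < τ) := fun τ a b => by
      have := a1 τ _ (by omega) le_rfl b
      have := mv (2 * nv φ + 8 * φ.length) (by omega) (2 * i) (by omega)
      rw [eQ _ (by omega), pi, if_neg (by omega), if_neg (by omega)] at this
      unfold SS at this
      omega
    intro τ h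
    induction τ, h using Nat.le_induction with
    | base => exact fun _ => rfl
    | succ τ _ ih =>
      intro a
      have := ih (by omega)
      have := a2 _ a
      have := mv τ (by omega) (2 * i) (by omega)
      have := ll_lt φ ((τ - nv φ - φ.length) / 2)
      unfold SS at *
      omega
  rw [sat_iff]
  refine ⟨fun i => decide (P (nv φ) (2 * i) = 2 * i + 1), fun j hj => ?_⟩
  by_contra n
  push Not at n
  have fl : ∀ o, o / 3 = j → P (nv φ) (2 * (lit φ o).1) = ll φ o := fun o e => by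
    have a := n (o % 3) (by omega)
    rw [show 3 * j + o % 3 = o by omega] at a
    have := va _ (lit_lt φ o) _ le_rfl
    unfold ll
    cases b : (lit φ o).2 <;> simp [b] at a ⊢ <;> omega
  have cl : ∀ τ ≤ 2 * nv φ + 8 * φ.length, 2 * nv φ ≤ P τ (2 * nv φ + 6 * j) ∧
      (P τ (2 * nv φ + 6 * j) - 2 * nv φ) / 6 = j ∧ P τ (2 * nv φ + 6 * j) % 2 = 0 := fun τ => by
    induction τ with
    | zero => intro _; rw [e0 _ (by omega)]; omega
    | succ τ ih =>
      intro a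
      have := ih (by omega)
      have b := mv τ (by omega) (2 * nv φ + 6 * j) (by omega)
      have := ll_lt φ ((τ - nv φ - φ.length) / 2)
      have l := lit_lt φ ((τ - nv φ - φ.length) / 2)
      have := fl ((τ - nv φ - φ.length) / 2)
      have := vb _ l (τ + 1)
      have : P (τ + 1) (2 * (lit φ ((τ - nv φ - φ.length) / 2)).1) ≠ P (τ + 1) (2 * nv φ + 6 * j) :=
        fun e => by
          have c := p2 (τ + 1) (by omega) (2 * (lit φ ((τ - nv φ - φ.length) / 2)).1) (by omega)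
          rw [e, p2 (τ + 1) (by omega) _ (by omega)] at c
          omega
      unfold SS at b
      omega
  have := cl _ le_rfl
  have := mv (2 * nv φ + 8 * φ.length) (by omega) (2 * nv φ + 6 * j) (by omega)
  rw [eQ _ (by omega), pi, if_pos (by omega)] at this
  unfold SS at this
  omega

theorem sat_mid {φ : F3} (h : SAT3 φ) : Mid φ := by
  obtain ⟨α, h⟩ := (sat_iff φ).1 h
  choose! r r1 r2 using h
  obtain ⟨f, f1, f2⟩ : ∃ f : ℕ → ℕ, (∀ i, f i / 2 = i) ∧
      ∀ j < φ.length, ∀ i, ll φ (3 * j + r j) ≠ f i :=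
    ⟨fun i => 2 * i + if α i = true then 1 else 0, fun i => by dsimp only; split_ifs <;> omega,
      fun j hj i e => by
      have a := r2 j hj
      unfold ll at e
      dsimp only at e
      have : (lit φ (3 * j + r j)).1 = i := by split_ifs at e <;> omega
      rw [this] at a e
      rw [← a] at e
      split_ifs at e <;> omega⟩
  have hs : ∀ τ, ∃ a b, τ < 2 * nv φ + 8 * φ.length → (τ < nv φ ∧ a = 2 * τ ∧ b = f τ) ∨
      (∃ j < φ.length, τ = nv φ + j ∧ a = 2 * nv φ + 6 * j ∧ b = a + 2 * r j) ∨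
      (∃ j < φ.length, (τ = nv φ + φ.length + 6 * j + 2 * r j ∨
        τ = nv φ + φ.length + 6 * j + 2 * r j + 1) ∧ a + φ.length = nv φ + τ ∧
          b = ll φ (3 * j + r j)) ∨
      (nv φ + φ.length ≤ τ ∧ τ < nv φ + 7 * φ.length ∧ a = b ∧ a = 0 ∧ ∀ j < φ.length,
        ¬ (τ = nv φ + φ.length + 6 * j + 2 * r j ∨ τ = nv φ + φ.length + 6 * j + 2 * r j + 1)) ∨
      (∃ j < φ.length, τ = nv φ + 7 * φ.length + j ∧ a = 2 * nv φ + 6 * j + 1 ∧ b = a + 2 * r j) ∨
      ∃ i < nv φ, τ = nv φ + 8 * φ.length + i ∧ a = 2 * i ∧ b = f i := fun τ => by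
    by_cases c1 : τ < nv φ
    · exact ⟨_, _, fun _ => .inl ⟨c1, rfl, rfl⟩⟩
    by_cases c2 : τ < nv φ + φ.length
    · exact ⟨_, _, fun _ => .inr (.inl ⟨τ - nv φ, by omega, by omega, rfl, rfl⟩)⟩
    by_cases c3 : τ < nv φ + 7 * φ.length
    · by_cases c : ∃ j < φ.length, τ = nv φ + φ.length + 6 * j + 2 * r j ∨
          τ = nv φ + φ.length + 6 * j + 2 * r j + 1
      · obtain ⟨j, c4, c5⟩ := c
        exact ⟨nv φ + τ - φ.length, _, fun _ => .inr (.inr (.inl ⟨j, c4, c5, by omega, rfl⟩))⟩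
      · exact ⟨0, 0, fun _ => .inr (.inr (.inr (.inl ⟨by omega, c3, rfl, rfl,
          fun j a b => c ⟨j, a, b⟩⟩)))⟩
    by_cases c4 : τ < nv φ + 8 * φ.length
    · exact ⟨_, _, fun _ => .inr (.inr (.inr (.inr (.inl
        ⟨τ - nv φ - 7 * φ.length, by omega, by omega, rfl, rfl⟩))))⟩
    · exact ⟨_, _, fun _ => .inr (.inr (.inr (.inr (.inr
        ⟨τ - nv φ - 8 * φ.length, by omega, by omega, rfl, rfl⟩))))⟩
  choose a b hs using hs
  have hn : 0 < nv φ := Nat.succ_pos _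
  have sw : ∀ τ x, (x = a τ → Equiv.swap (a τ) (b τ) x = b τ) ∧
      (x = b τ → Equiv.swap (a τ) (b τ) x = a τ) ∧
      (x ≠ a τ → x ≠ b τ → Equiv.swap (a τ) (b τ) x = x) := fun τ x =>
    ⟨by rintro rfl; simp, by rintro rfl; simp, Equiv.swap_apply_of_ne_of_ne⟩
  have ab : ∀ τ < 2 * nv φ + 8 * φ.length, a τ < RR φ ∧ b τ < RR φ ∧
      (a τ = b τ ∨ (SS φ τ (a τ) ∧ SS φ τ (b τ))) := fun τ hτ => by
    unfold RR SS
    rcases hs τ hτ with k | ⟨j, k⟩ | ⟨j, k⟩ | k | ⟨j, k⟩ | ⟨j, k⟩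
    · have := f1 τ; omega
    · have := r1 j k.1; omega
    · have := r1 j k.1
      have := ll_lt φ (3 * j + r j)
      rw [show (τ - nv φ - φ.length) / 2 = 3 * j + r j by omega]
      omega
    · omega
    · have := r1 j k.1; omega
    · have := f1 j; omega
  obtain ⟨P, P0, P1⟩ : ∃ P : ℕ → ℕ → ℕ, (∀ x, P 0 x = x) ∧
      ∀ τ x, P (τ + 1) x = Equiv.swap (a τ) (b τ) (P τ x) :=
    ⟨fun τ x => Nat.rec x (fun τ y => Equiv.swap (a τ) (b τ) y) τ, fun _ => rfl, fun _ _ => rfl⟩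
  obtain ⟨σ, s0, s1⟩ : ∃ σ : ℕ → ℕ → ℕ, (∀ x, σ 0 x = x) ∧
      ∀ τ x, σ (τ + 1) x = σ τ (Equiv.swap (a τ) (b τ) x) :=
    ⟨fun τ => Nat.rec id (fun τ g x => g (Equiv.swap (a τ) (b τ) x)) τ, fun _ => rfl, fun _ _ => rfl⟩
  have sP : ∀ τ x, σ τ (P τ x) = x := fun τ x => by
    induction τ with
    | zero => rw [s0, P0]
    | succ τ ih => rw [s1, P1, Equiv.swap_apply_self, ih]
  have si : ∀ τ ≤ 2 * nv φ + 8 * φ.length, ∀ l < RR φ, σ τ l < RR φ ∧
      ∀ l', σ τ l = σ τ l' → l = l' := fun τ => by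
    induction τ with
    | zero => simp [s0]
    | succ τ ih =>
      intro hτ l hl
      have := ab τ hτ
      have := sw τ l
      obtain ⟨c, d⟩ := ih (by omega) (Equiv.swap (a τ) (b τ) l) (by omega)
      exact ⟨by rwa [s1], fun l' e => (Equiv.swap (a τ) (b τ)).injective (d _ (by rwa [s1, s1] at e))⟩
  have Pv : ∀ i < nv φ, ∀ τ ≤ 2 * nv φ + 8 * φ.length,
      (i < τ ∧ τ ≤ nv φ + 8 * φ.length + i → P τ (2 * i) = f i) ∧
      (¬ (i < τ ∧ τ ≤ nv φ + 8 * φ.length + i) → P τ (2 * i) = 2 * i) := fun i hi τ => by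
    induction τ with
    | zero => simp [P0]
    | succ τ ih =>
      intro hτ
      have := ih (by omega)
      have := sw τ (P τ (2 * i))
      have := f1 i
      rw [P1]
      rcases hs τ hτ with k | ⟨j, k⟩ | ⟨j, k⟩ | k | ⟨j, k⟩ | ⟨j, k⟩
      · have := f1 τ
        have : τ = i → f τ = f i := congrArg f
        omega
      · omega
      · have := f2 j k.1 i
        have := ll_lt φ (3 * j + r j)
        have := r1 j k.1
        omega
      · omega
      · omega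
      · have := f1 j
        have : j = i → f j = f i := congrArg f
        omega
  have Py : ∀ i < φ.length, ∀ τ ≤ 2 * nv φ + 8 * φ.length,
      (τ ≤ nv φ + i → P τ (2 * nv φ + 6 * i) = 2 * nv φ + 6 * i) ∧
      (nv φ + i < τ → τ ≤ nv φ + φ.length + 6 * i + 2 * r i →
        P τ (2 * nv φ + 6 * i) = 2 * nv φ + 6 * i + 2 * r i) ∧
      (τ = nv φ + φ.length + 6 * i + 2 * r i + 1 → P τ (2 * nv φ + 6 * i) = ll φ (3 * i + r i)) ∧
      (nv φ + φ.length + 6 * i + 2 * r i + 1 < τ → τ ≤ nv φ + 7 * φ.length + i →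
        P τ (2 * nv φ + 6 * i) = 2 * nv φ + 6 * i + 2 * r i + 1) ∧
      (nv φ + 7 * φ.length + i < τ → P τ (2 * nv φ + 6 * i) = 2 * nv φ + 6 * i + 1) :=
    fun i hi τ => by
    induction τ with
    | zero => simp [P0]
    | succ τ ih =>
      intro hτ
      obtain ⟨i1, i2, i3, i4, i5⟩ := ih (by omega)
      obtain ⟨w1, w2, w3⟩ := sw τ (P τ (2 * nv φ + 6 * i))
      have := r1 i hi
      have := ll_lt φ (3 * i + r i)
      rw [P1]
      generalize Equiv.swap (a τ) (b τ) (P τ (2 * nv φ + 6 * i)) = z at *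
      generalize P τ (2 * nv φ + 6 * i) = y at *
      rcases hs τ hτ with k | ⟨j, k⟩ | ⟨j, k⟩ | k | ⟨j, k⟩ | ⟨j, k⟩
      · have := f1 τ
        omega
      · have := r1 j k.1
        by_cases e : j = i
        · subst e; omega
        · omega
      · have := r1 j k.1
        have := ll_lt φ (3 * j + r j)
        by_cases e : j = i
        · subst e; omega
        · omega
      · have := k.2.2.2.2 i hi
        omega
      · have := r1 j k.1
        by_cases e : j = i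
        · subst e; omega
        · omega
      · have := f1 j
        omega
  refine ⟨fun τ l => if τ = QQ φ then pi φ l else σ τ l, fun τ hτ l hl => ?_,
    fun l hl => ⟨by simp [QQ, s0], by simp⟩, fun τ hτ l hl n => ?_⟩
  · by_cases e : τ = QQ φ
    · simp only [e, if_true]
      exact ⟨(pi_pi φ l).2 hl, fun l' _ k => by rw [← (pi_pi φ l).1, k, (pi_pi φ l').1]⟩
    · simp only [e, if_false]
      exact (si τ (by unfold QQ at *; omega) l hl).imp_right fun k l' _ => k l'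
  · simp only [hτ.ne, if_false]
    split_ifs with e
    · obtain rfl : τ = 2 * nv φ + 8 * φ.length := by unfold QQ at e; omega
      unfold SS RR at *
      by_cases c : l < 2 * nv φ
      · have := (Pv (l / 2) (by omega) _ le_rfl).2 (by omega)
        have k := sP (2 * nv φ + 8 * φ.length) (2 * (l / 2))
        rw [this, show 2 * (l / 2) = l by omega] at k
        rw [k, pi, if_neg (by omega), if_neg (by omega)]
      · have := (Py ((l - 2 * nv φ) / 6) (by omega) _ le_rfl).2.2.2.2 (by omega)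
        have k := sP (2 * nv φ + 8 * φ.length) (2 * nv φ + 6 * ((l - 2 * nv φ) / 6))
        rw [this, show 2 * nv φ + 6 * ((l - 2 * nv φ) / 6) + 1 = l by omega] at k
        rw [k, pi, if_neg (by omega), if_pos (by omega)]
        omega
    · have := ab τ (by unfold QQ at *; omega)
      rw [s1]
      rcases this.2.2 with k | k
      · rw [k, Equiv.swap_self]; rfl
      · rw [(sw τ l).2.2 (by rintro rfl; exact n k.1) (by rintro rfl; exact n k.2)]

end Pool.Agent.H24.Uc
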