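import Pool.Agent.H24.Uc2

set_option autoImplicit false

namespace Pool.Agent.H24.Uc
open Pool.Agent.H11.PT Pool.Agent.H25.CB

def LL (φ : F3) : ℕ := 9 * RR φ + QQ φ + 1
def bl (φ : F3) (t : ℕ) : ℕ := t / LL φ
def off (φ : F3) (t : ℕ) : ℕ := t % LL φ
def rr (φ : F3) (t : ℕ) : ℕ := min (bl φ t + 1) (2 * RR φ - bl φ t)
def act (φ : F3) (l t : ℕ) : Prop := bl φ t < 2 * RR φ ∧ (l = RR φ ∨ (l < RR φ ∧
  ((bl φ t < RR φ ∧ l < rr φ t) ∨ (RR φ ≤ bl φ t ∧ pi φ l < rr φ t))))
def brk (φ : F3) (l t : ℕ) : Prop := ¬ act φ l t ∨ ¬ act φ l (t + 1) ∨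
  (l = RR φ ∧ off φ t + 1 = LL φ) ∨ (l < RR φ ∧ ((off φ t < 9 * RR φ ∧ off φ t % RR φ = l) ∨
    (bl φ t + 1 = RR φ ∧ 9 * RR φ ≤ off φ t ∧ SS φ (off φ t - 9 * RR φ) l)))

theorem RR_pos (φ : F3) : 2 ≤ RR φ := by
  have : 0 < nv φ := Nat.succ_pos _
  unfold RR; omega

theorem bo (φ : F3) (β q : ℕ) (h : q < LL φ) :
    bl φ (β * LL φ + q) = β ∧ off φ (β * LL φ + q) = q := by
  unfold bl off
  rw [Nat.add_comm, Nat.add_mul_div_right _ _ (by omega), Nat.add_mul_mod_self_right,
    Nat.div_eq_of_lt h, Nat.mod_eq_of_lt h]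
  simp

theorem ob (φ : F3) (t : ℕ) : bl φ t * LL φ + off φ t = t ∧ off φ t < LL φ :=
  ⟨Nat.div_add_mod' _ _, Nat.mod_lt _ (Nat.succ_pos _)⟩

theorem st (φ : F3) (t : ℕ) : (off φ t + 1 < LL φ ∧ bl φ (t + 1) = bl φ t ∧
    off φ (t + 1) = off φ t + 1) ∨
    (off φ t + 1 = LL φ ∧ bl φ (t + 1) = bl φ t + 1 ∧ off φ (t + 1) = 0) := by
  obtain ⟨a, b⟩ := ob φ t
  by_cases h : off φ t + 1 < LL φ
  · have := bo φ (bl φ t) _ h
    rw [← Nat.add_assoc, a] at this
    exact .inl ⟨h, this⟩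
  · have := bo φ (bl φ t + 1) 0 (by omega)
    rw [show (bl φ t + 1) * LL φ + 0 = t + 1 by rw [Nat.add_mul]; omega] at this
    exact .inr ⟨by omega, this⟩

theorem nSS (φ : F3) (l : ℕ) : ¬ SS φ (QQ φ) l := by unfold SS QQ; omega

def Route (φ : F3) : Prop := ∃ col : ℕ → ℕ → ℕ,
  (∀ t l l', act φ l t → act φ l' t → col l t = col l' t → l = l') ∧
  (∀ l t, ¬ brk φ l t → col l (t + 1) = col l t) ∧
  (∀ t, bl φ t < 2 * RR φ → col (RR φ) t = rr φ t) ∧
  ∀ l t, l < RR φ → act φ l t → col l t < rr φ t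

theorem fill {ρ m0 : ℕ} {g : ℕ → ℕ} (h1 : ∀ m < ρ, g m < ρ)
    (h2 : ∀ m < ρ, ∀ m' < ρ, g m = g m' → m = m') (h3 : ∀ m < ρ, m ≠ m0 → g m = m) :
    ∀ m < ρ, g m = m := fun m hm => by
  by_cases e : m = m0
  · by_contra n
    exact n (h2 _ (h1 m hm) m hm (h3 _ (h1 m hm) fun k => n (k.trans e.symm)))
  · exact h3 m hm e

theorem route_mid {φ : F3} (h : Route φ) : Mid φ := by
  obtain ⟨col, h1, h2, -, h4⟩ := h
  have R2 := RR_pos φ
  have hL : LL φ = 9 * RR φ + QQ φ + 1 := rfl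
  have lf : ∀ t, (bl φ t + 1 < RR φ ∨ (bl φ t + 1 = RR φ ∧ off φ t ≤ 9 * RR φ)) →
      ∀ m < rr φ t, col m t = m := fun t => by
    induction t with
    | zero =>
      intro _ m hm
      have b : bl φ 0 = 0 := by simp [bl]
      have := h4 m 0 (by unfold rr at hm; omega) (by unfold act rr at *; omega)
      unfold rr at *
      omega
    | succ t ih =>
      intro a
      have s := st φ t
      have ac : ∀ m < rr φ (t + 1), m < RR φ ∧ act φ m (t + 1) := fun m hm => by
        unfold act rr at *; omega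
      refine fill (m0 := if off φ t + 1 = LL φ then bl φ t + 1 else off φ t % RR φ)
        (fun m hm => h4 m _ (ac m hm).1 (ac m hm).2)
        (fun m hm m' hm' => h1 _ m m' (ac m hm).2 (ac m' hm').2) fun m hm n => ?_
      have c : m < rr φ t := by unfold rr at *; split_ifs at n <;> omega
      rw [h2 m t, ih (by omega) m c]
      have := ac m hm
      have : act φ m t := by unfold act rr at *; omega
      simp only [brk, this, (ac m hm).2, not_true, false_or]
      split_ifs at n <;> omega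
  have rt : ∀ n t, t + n + 1 = 2 * RR φ * LL φ →
      (RR φ ≤ bl φ t ∨ (bl φ t + 1 = RR φ ∧ off φ t + 1 = LL φ)) →
      ∀ m < rr φ t, col (pi φ m) t = m := fun n => by
    have ac : ∀ t, (RR φ ≤ bl φ t ∨ (bl φ t + 1 = RR φ ∧ off φ t + 1 = LL φ)) →
        ∀ m < rr φ t, pi φ m < RR φ ∧ act φ (pi φ m) t := fun t a m hm => by
      have := pi_pi φ m
      unfold act rr at *; omega
    induction n with
    | zero =>
      intro t e a m hm
      have := bo φ (2 * RR φ - 1) (LL φ - 1) (by omega)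
      rw [show (2 * RR φ - 1) * LL φ + (LL φ - 1) = t by
        rw [Nat.sub_mul]
        have : LL φ ≤ 2 * RR φ * LL φ := Nat.le_mul_of_pos_left _ (by omega)
        omega] at this
      have := h4 _ t (ac t a m hm).1 (ac t a m hm).2
      unfold rr at *
      omega
    | succ n ih =>
      intro t e a
      have s := st φ t
      have b : bl φ (t + 1) < 2 * RR φ := (Nat.div_lt_iff_lt_mul (by omega)).2 (by omega)
      refine fill (g := fun m => col (pi φ m) t)
        (m0 := if off φ t + 1 = LL φ then rr φ t - 1 else pi φ (off φ t % RR φ))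
        (fun m hm => h4 _ _ (ac t a m hm).1 (ac t a m hm).2)
        (fun m hm m' hm' k => by
          rw [← (pi_pi φ m).1, h1 _ _ _ (ac t a m hm).2 (ac t a m' hm').2 k, (pi_pi φ m').1])
        fun m hm n => ?_
      have c : m < rr φ (t + 1) := by unfold rr at *; split_ifs at n <;> omega
      show col (pi φ m) t = m
      rw [← h2 _ t, ih (t + 1) (by omega) (by omega) m c]
      have := ac t a m hm
      have k := nSS φ (pi φ m)
      simp only [brk, this.2, (ac (t + 1) (by omega) m c).2, not_true, false_or]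
      rintro (d | ⟨-, d | d⟩)
      · omega
      · rw [if_neg (by omega), d.2, (pi_pi φ m).1] at n
        exact n rfl
      · rw [show off φ t - 9 * RR φ = QQ φ by omega] at d
        exact k d.2.2
  have b : ∀ τ ≤ QQ φ, bl φ ((RR φ - 1) * LL φ + (9 * RR φ + τ)) = RR φ - 1 ∧
      off φ ((RR φ - 1) * LL φ + (9 * RR φ + τ)) = 9 * RR φ + τ := fun τ h => bo φ _ _ (by omega)
  have ac : ∀ τ ≤ QQ φ, ∀ l < RR φ, act φ l ((RR φ - 1) * LL φ + (9 * RR φ + τ)) ∧
      rr φ ((RR φ - 1) * LL φ + (9 * RR φ + τ)) = RR φ := fun τ h l hl => by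
    have := b τ h
    unfold act rr; omega
  refine ⟨fun τ l => col l ((RR φ - 1) * LL φ + (9 * RR φ + τ)), fun τ hτ l hl =>
    ⟨(h4 l _ hl (ac τ hτ l hl).1).trans_eq (ac τ hτ l hl).2, fun l' hl' =>
      h1 _ l l' (ac τ hτ l hl).1 (ac τ hτ l' hl').1⟩, fun l hl => ⟨?_, ?_⟩, fun τ hτ l hl n => ?_⟩
  · have := b 0 (by omega)
    exact lf _ (by omega) l (hl.trans_eq (ac 0 (by omega) l hl).2.symm)
  · have := b _ le_rfl
    have k := rt (RR φ * LL φ) ((RR φ - 1) * LL φ + (9 * RR φ + QQ φ)) (by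
      rw [Nat.sub_mul, Nat.mul_assoc]
      have : LL φ ≤ RR φ * LL φ := Nat.le_mul_of_pos_left _ (by omega)
      omega) (by omega) (pi φ l) (((pi_pi φ l).2 hl).trans_eq (ac _ le_rfl l hl).2.symm)
    rwa [(pi_pi φ l).1] at k
  · refine h2 l ((RR φ - 1) * LL φ + (9 * RR φ + τ)) ?_
    have := b τ hτ.le
    have k : act φ l ((RR φ - 1) * LL φ + (9 * RR φ + τ) + 1) := (ac (τ + 1) hτ l hl).1
    simp only [brk, k, (ac τ hτ.le l hl).1, not_true, false_or]
    rw [this.2, Nat.add_sub_cancel_left]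
    simp only [n, and_false, or_false]
    omega

theorem mid_route {φ : F3} (h : Mid φ) : Route φ := by
  obtain ⟨σ, h1, h2, h3⟩ := h
  have R2 := RR_pos φ
  have hL : LL φ = 9 * RR φ + QQ φ + 1 := rfl
  refine ⟨fun l t => if l = RR φ then rr φ t else
    if bl φ t + 1 < RR φ ∨ (bl φ t + 1 = RR φ ∧ off φ t < 9 * RR φ) then l else
    if bl φ t + 1 = RR φ then σ (off φ t - 9 * RR φ) l else pi φ l, fun t l l' a b => ?_,
    fun l t n => ?_, fun t _ => by simp, fun l t hl a => ?_⟩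
  · have o := (ob φ t).2
    have k := h1 (off φ t - 9 * RR φ) (by omega)
    have k1 := k l
    have k2 := k l'
    have : pi φ l = pi φ l' → l = l' := fun e => by rw [← (pi_pi φ l).1, e, (pi_pi φ l').1]
    unfold act rr at *
    dsimp only
    split_ifs
    all_goals first | omega | exact (k1 (by omega)).2 l' (by omega)
  · have s := st φ t
    simp only [brk, not_or, not_not] at n
    obtain ⟨n1, n2, n3, n4⟩ := n
    by_cases e : l = RR φ
    · simp only [e, if_true]
      unfold rr; omega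
    have hl : l < RR φ := by unfold act at n1; omega
    simp only [e, if_false]
    have k := h2 l hl
    split_ifs with c1 c2 c3 c4 c5 c6 c7 c8
    all_goals first | rfl | omega | skip
    · rw [show off φ (t + 1) - 9 * RR φ = 0 by omega, k.1]
    · rw [show off φ (t + 1) - 9 * RR φ = off φ t - 9 * RR φ + 1 by omega]
      exact h3 _ (by omega) l hl fun d => n4 ⟨hl, .inr ⟨by omega, by omega, d⟩⟩
    · rw [show off φ t - 9 * RR φ = QQ φ by omega, k.2]
  · have o := (ob φ t).2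
    have k := (h1 (off φ t - 9 * RR φ) (by omega) l hl).1
    unfold act rr at *
    dsimp only
    split_ifs <;> omega

end Pool.Agent.H24.Uc
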