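import Pool.Agent.H24.Uc3

set_option autoImplicit false

namespace Pool.Agent.H24.Uc
open Pool.Agent.H11.PT Pool.Agent.H25.CB Finset

abbrev J := ℕ × ℕ × ℕ

def VV (φ : F3) (x : J) : Prop := x.2.1 ≤ x.2.2 ∧ act φ x.1 x.2.1 ∧
  (x.2.1 = 0 ∨ brk φ x.1 (x.2.1 - 1)) ∧ brk φ x.1 x.2.2 ∧
  ∀ u, u ∈ List.range x.2.2 → x.2.1 ≤ u → ¬ brk φ x.1 u

def ov (x y : J) : Prop := x.2.1 ≤ y.2.2 ∧ y.2.1 ≤ x.2.2

def UJ (V : J → Prop) (w : ℕ) : Prop := ∃ (c : J → ℕ) (D : Finset J),
  (∀ x y, V x → V y → x ≠ y → ov x y → c x ≠ c y) ∧ (∀ d ∈ D, V d ∧ c d ≠ 0) ∧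
  (∀ x, V x → x ∉ D → ∃ d ∈ D, x ≠ d ∧ ov x d ∧ c x < c d) ∧ ∑ d ∈ D, c d = w

def kk (φ : F3) : ℕ := ∑ β ∈ range (2 * RR φ), min (β + 1) (2 * RR φ - β)

def GG (φ : F3) (β : ℕ) : J := (RR φ, β * LL φ, β * LL φ + (LL φ - 1))

variable {φ : F3}

theorem VV.nb {x : J} (h : VV φ x) {u : ℕ} (a : x.2.1 ≤ u) (b : u < x.2.2) : ¬ brk φ x.1 u :=
  h.2.2.2.2 u (List.mem_range.2 b) a

theorem VV.ac {x : J} (h : VV φ x) {u : ℕ} (a : x.2.1 ≤ u) (b : u ≤ x.2.2) : act φ x.1 u := by
  rcases a.eq_or_lt with rfl | a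
  · exact h.2.1
  · have := h.nb (u := u - 1) (by omega) (by omega)
    simp only [brk, not_or, not_not] at this
    rw [show u = u - 1 + 1 by omega]
    exact this.2.1

theorem VV.uq {x y : J} (h : VV φ x) (k : VV φ y) (e : x.1 = y.1) (o : ov x y) : x = y := by
  have a : ∀ {x y : J}, VV φ x → VV φ y → x.1 = y.1 → ov x y → ¬ x.2.1 < y.2.1 ∧ ¬ x.2.2 < y.2.2 :=
    fun {x y} h k e o => ⟨fun n => h.nb (u := y.2.1 - 1) (by omega) (by unfold ov at o; omega)
      (e ▸ k.2.2.1.resolve_left (by omega)), fun n => k.nb o.2 n (e ▸ h.2.2.2.1)⟩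
  have := a h k e o
  have := a k h e.symm o.symm
  exact Prod.ext e (Prod.ext (by omega) (by omega))

theorem ex_pc {l t : ℕ} (h : act φ l t) : ∃ x, VV φ x ∧ x.1 = l ∧ x.2.1 ≤ t ∧ t ≤ x.2.2 := by
  classical
  have a : ∃ e, t ≤ e ∧ brk φ l e := ⟨t + 2 * RR φ * LL φ, by omega, .inl fun k => by
    have : bl φ (t + 2 * RR φ * LL φ) = bl φ t + 2 * RR φ :=
      Nat.add_mul_div_right _ _ (Nat.succ_pos _)
    unfold act at k; omega⟩
  have b := Nat.find_spec a
  have c := Nat.findGreatest_le (P := fun s => s = 0 ∨ brk φ l (s - 1)) t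
  have d := Nat.findGreatest_spec (P := fun s => s = 0 ∨ brk φ l (s - 1)) (Nat.zero_le t) (.inl rfl)
  have e : ∀ u, Nat.findGreatest (fun s => s = 0 ∨ brk φ l (s - 1)) t ≤ u → u < Nat.find a →
      ¬ brk φ l u := fun u h1 h2 n => by
    by_cases k : t ≤ u
    · exact Nat.find_min a h2 ⟨k, n⟩
    · exact Nat.findGreatest_is_greatest (k := u + 1) (n := t) (P := fun s => s = 0 ∨ brk φ l (s - 1))
        (by omega) (by omega) (.inr n)
  refine ⟨(l, Nat.findGreatest (fun s => s = 0 ∨ brk φ l (s - 1)) t, Nat.find a),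
    ⟨c.trans b.1, ?_, d, b.2, fun u h1 h2 => e u h2 (List.mem_range.1 h1)⟩, rfl, c, b.1⟩
  rcases c.eq_or_lt with k | k
  · exact k.symm ▸ h
  · have := e _ le_rfl (by omega)
    simp only [brk, not_or, not_not] at this
    exact this.1

theorem in_GG (φ : F3) (β u : ℕ) : (GG φ β).2.1 ≤ u ∧ u ≤ (GG φ β).2.2 ↔ bl φ u = β := by
  have hL : 0 < LL φ := Nat.succ_pos _
  dsimp only [GG]
  refine ⟨fun h => ?_, ?_⟩
  · have := bo φ β (u - β * LL φ) (by omega)
    rw [show β * LL φ + (u - β * LL φ) = u by omega] at this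
    exact this.1
  · rintro rfl
    have := ob φ u
    omega

theorem vv_GG {β : ℕ} (h : β < 2 * RR φ) : VV φ (GG φ β) := by
  have hL : 0 < LL φ := Nat.succ_pos _
  have a := bo φ β 0 hL
  have b := bo φ β (LL φ - 1) (by omega)
  refine ⟨Nat.le_add_right _ _, ⟨a.1.trans_lt h, .inl rfl⟩, ?_,
    .inr (.inr (.inl ⟨rfl, ?_⟩)), fun u h1 h2 => ?_⟩
  · by_cases e : β * LL φ = 0
    · exact .inl e
    · refine .inr (.inr (.inr (.inl ⟨rfl, ?_⟩)))
      have := st φ (β * LL φ - 1)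
      rw [show β * LL φ - 1 + 1 = β * LL φ + 0 by omega] at this
      show off φ (β * LL φ - 1) + 1 = LL φ
      omega
  · show off φ (β * LL φ + (LL φ - 1)) + 1 = LL φ
    omega
  · replace h1 := List.mem_range.1 h1
    have c := (in_GG φ β u).1 ⟨h2, h1.le⟩
    have d := (in_GG φ β (u + 1)).1 ⟨by omega, h1⟩
    have := st φ u
    have e : act φ (RR φ) u := ⟨by omega, .inl rfl⟩
    have f : act φ (RR φ) (u + 1) := ⟨by omega, .inl rfl⟩
    show ¬ brk φ (RR φ) u
    simp only [brk, e, f, not_true, false_or, lt_irrefl, false_and, or_false]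
    omega

theorem VV.gg {x : J} (h : VV φ x) (e : x.1 = RR φ) {u : ℕ} (a : x.2.1 ≤ u) (b : u ≤ x.2.2) :
    x = GG φ (bl φ u) := by
  have := (in_GG φ _ u).2 rfl
  exact h.uq (vv_GG (h.ac a b).1) e ⟨by omega, by omega⟩

theorem bl_GG (φ : F3) (β : ℕ) : bl φ (GG φ β).2.1 = β :=
  (in_GG φ β _).1 ⟨le_rfl, Nat.le_add_right _ _⟩

theorem route_uj (h : Route φ) : UJ (VV φ) (kk φ) := by
  obtain ⟨col, h1, h2, h3, h4⟩ := h
  have cs : ∀ x, VV φ x → ∀ u, x.2.1 ≤ u → u ≤ x.2.2 → col x.1 u = col x.1 x.2.1 :=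
    fun x hx u a => by
    induction u, a using Nat.le_induction with
    | base => exact fun _ => rfl
    | succ u a ih => exact fun b => (h2 _ _ (hx.nb a b)).trans (ih (by omega))
  have cg : ∀ β < 2 * RR φ, col (GG φ β).1 (GG φ β).2.1 = min (β + 1) (2 * RR φ - β) :=
    fun β hβ => (h3 _ ((bl_GG φ β).trans_lt hβ)).trans (by rw [rr, bl_GG])
  refine ⟨fun x => col x.1 x.2.1, (range (2 * RR φ)).image (GG φ), fun x y hx hy n o e => ?_,
    fun d hd => ?_, fun x hx n => ?_, ?_⟩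
  · have a := hx.1
    have b := hy.1
    unfold ov at o
    refine n (hx.uq hy (h1 (max x.2.1 y.2.1) _ _ (hx.ac (by omega) (by omega))
      (hy.ac (by omega) (by omega)) ?_) o)
    rw [cs x hx _ (by omega) (by omega), cs y hy _ (by omega) (by omega)]
    exact e
  · obtain ⟨β, a, rfl⟩ := mem_image.1 hd
    replace a := mem_range.1 a
    exact ⟨vv_GG a, by dsimp only; rw [cg β a]; omega⟩
  · have m : GG φ (bl φ x.2.1) ∈ (range (2 * RR φ)).image (GG φ) :=
      mem_image_of_mem _ (mem_range.2 hx.2.1.1)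
    have e : x.1 ≠ RR φ := fun e => n (hx.gg e le_rfl hx.1 ▸ m)
    have := (in_GG φ _ x.2.1).2 rfl
    have a := hx.1
    refine ⟨_, m, fun k => e (congrArg Prod.fst k), ⟨by omega, by omega⟩, ?_⟩
    dsimp only
    rw [cg _ hx.2.1.1]
    exact h4 _ _ (hx.2.1.2.resolve_left e).1 hx.2.1
  · rw [sum_image fun a _ b _ e => by rw [← bl_GG φ a, e, bl_GG]]
    exact sum_congr rfl fun β h => cg β (mem_range.1 h)

theorem uj_route {w : ℕ} (h : UJ (VV φ) w) (hw : w ≤ kk φ) : Route φ := by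
  obtain ⟨c, D, h1, h2, h3, h4⟩ := h
  have R2 := RR_pos φ
  have hL : LL φ = 9 * RR φ + QQ φ + 1 := rfl
  have ep : ∀ l t, act φ l t → ∃ x, VV φ x ∧ x.1 = l ∧ x.2.1 ≤ t ∧ t ≤ x.2.2 := fun _ _ => ex_pc
  choose! pc p1 p2 p3 p4 using ep
  have inj : ∀ t l l', act φ l t → act φ l' t → c (pc l t) = c (pc l' t) → l = l' :=
    fun t l l' a b e => by
    by_contra n
    exact h1 _ _ (p1 l t a) (p1 l' t b) (fun k => n (by rw [← p2 l t a, k, p2 l' t b]))
      ⟨(p3 l t a).trans (p4 l' t b), (p3 l' t b).trans (p4 l t a)⟩ e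
  have cf : ∀ x, VV φ x → x.1 ≠ RR φ → ∀ β, ∀ j < 9, ¬ (x.2.1 ≤ β * LL φ + (j * RR φ + x.1) ∧
      β * LL φ + (j * RR φ + x.1) < x.2.2) := fun x hx n β j hj a => by
    have l := (hx.2.1.2.resolve_left n).1
    have : j * RR φ + RR φ ≤ 9 * RR φ := by nlinarith
    have b := (bo φ β (j * RR φ + x.1) (by omega)).2
    refine hx.nb a.1 a.2 (.inr (.inr (.inr ⟨l, .inl ⟨by omega, ?_⟩⟩)))
    rw [b, Nat.mul_add_mod_self_right, Nat.mod_eq_of_lt l]
  have lo : ∀ β < 2 * RR φ, ¬ (GG φ β ∈ D ∧ min (β + 1) (2 * RR φ - β) ≤ c (GG φ β)) →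
      ∀ j < 7, ∃ d ∈ D, β * LL φ + j * RR φ < d.2.1 ∧ d.2.1 < β * LL φ + (j + 3) * RR φ ∧
        min (β + 1) (2 * RR φ - β) ≤ c d + 1 := fun β hβ n j hj => by
    have j1 : (j + 1) * RR φ = j * RR φ + RR φ := by ring
    have j2 : (j + 2) * RR φ = j * RR φ + 2 * RR φ := by ring
    have j3 : (j + 3) * RR φ = j * RR φ + 3 * RR φ := by ring
    have j9 : j * RR φ ≤ 6 * RR φ := Nat.mul_le_mul_right _ (by omega)
    obtain ⟨p, hp⟩ : ∃ p, p = β * LL φ + (j + 2) * RR φ := ⟨_, rfl⟩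
    have b : bl φ p = β := hp ▸ (bo φ β _ (by omega)).1
    obtain ⟨l, a1, a2, a3⟩ : ∃ l, l ≠ RR φ ∧ act φ l p ∧
        min (β + 1) (2 * RR φ - β) ≤ c (pc l p) + 1 := by
      by_contra! k
      have ac : ∀ m < min (β + 1) (2 * RR φ - β), (if β < RR φ then m else pi φ m) ≠ RR φ ∧
          act φ (if β < RR φ then m else pi φ m) p := fun m hm => by
        have := pi_pi φ m
        unfold act rr
        split_ifs <;> omega
      have := card_le_card_of_injOn (s := range (min (β + 1) (2 * RR φ - β)))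
        (t := range (min (β + 1) (2 * RR φ - β) - 1))
        (fun m => c (pc (if β < RR φ then m else pi φ m) p)) (fun m hm => by
          have := ac m (by simpa using hm)
          have := k _ this.1 this.2
          simp only [coe_range, Set.mem_Iio]
          omega) fun m hm m' hm' e => by
          have := inj p _ _ (ac m (by simpa using hm)).2 (ac m' (by simpa using hm')).2 e
          split_ifs at this
          · exact this
          · rw [← (pi_pi φ m).1, this, (pi_pi φ m').1]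
      simp only [card_range] at this
      omega
    have q1 := p1 l p a2
    have q2 := p2 l p a2
    have q3 := p3 l p a2
    have q4 := p4 l p a2
    generalize pc l p = x at *
    subst q2
    have l1 := (a2.2.resolve_left a1).1
    have c1 := cf x q1 a1 β (j + 1) (by omega)
    have c2 := cf x q1 a1 β (j + 2) (by omega)
    by_cases m : x ∈ D
    · exact ⟨x, m, by omega, by omega, a3⟩
    obtain ⟨d, d1, -, d3, d4⟩ := h3 x q1 m
    have v := (h2 d d1).1
    have v1 := v.1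
    unfold ov at d3
    by_cases e : d.1 = RR φ
    · have g := v.gg e (u := max x.2.1 d.2.1) (by omega) (by omega)
      rw [(in_GG φ β _).1 (by unfold GG; dsimp only; omega)] at g
      exact absurd ⟨g ▸ d1, by rw [← g]; omega⟩ n
    · have c3 := cf d v e β j (by omega)
      have := (v.2.1.2.resolve_left e).1
      exact ⟨d, d1, by omega, by omega, by omega⟩
  have lo2 : ∀ β < 2 * RR φ, ¬ (GG φ β ∈ D ∧ min (β + 1) (2 * RR φ - β) ≤ c (GG φ β)) →
      min (β + 1) (2 * RR φ - β) < ∑ d ∈ D with bl φ d.2.1 = β, c d := fun β hβ n => by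
    obtain ⟨x, x1, x2, x3, x4⟩ := lo β hβ n 0 (by omega)
    obtain ⟨y, y1, y2, y3, y4⟩ := lo β hβ n 3 (by omega)
    obtain ⟨z, z1, z2, z3, z4⟩ := lo β hβ n 6 (by omega)
    have m : ∀ d ∈ D, β * LL φ < d.2.1 → d.2.1 < β * LL φ + 9 * RR φ →
        d ∈ D.filter fun d => bl φ d.2.1 = β := fun d a b e =>
      mem_filter.2 ⟨a, (in_GG φ β _).1 (by unfold GG; dsimp only; omega)⟩
    have xy : x ≠ y := by rintro rfl; omega
    have xz : x ≠ z := by rintro rfl; omega
    have yz : y ≠ z := by rintro rfl; omega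
    have := sum_le_sum_of_subset (f := c) (s := {x, y, z})
      (t := D.filter fun d => bl φ d.2.1 = β) (by
        intro d hd
        simp only [mem_insert, mem_singleton] at hd
        rcases hd with rfl | rfl | rfl <;> exact m _ ‹_› (by omega) (by omega))
    rw [sum_insert (by simp [xy, xz]), sum_pair yz] at this
    have := (h2 x x1).2
    have := (h2 y y1).2
    have := (h2 z z1).2
    omega
  have gm : ∀ β, GG φ β ∈ D → GG φ β ∈ D.filter fun d => bl φ d.2.1 = β := fun β a =>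
    mem_filter.2 ⟨a, bl_GG φ β⟩
  have lo3 : ∀ β ∈ range (2 * RR φ),
      min (β + 1) (2 * RR φ - β) ≤ ∑ d ∈ D with bl φ d.2.1 = β, c d := fun β hβ => by
    by_cases n : GG φ β ∈ D ∧ min (β + 1) (2 * RR φ - β) ≤ c (GG φ β)
    · exact n.2.trans (single_le_sum (fun _ _ => Nat.zero_le _) (gm β n.1))
    · exact (lo2 β (mem_range.1 hβ) n).le
  have eq := (sum_eq_sum_iff_of_le lo3).1 (le_antisymm (sum_le_sum lo3) (by
    rw [sum_fiberwise_of_maps_to fun d hd => mem_range.2 (h2 d hd).1.2.1.1, h4]; exact hw))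
  have gd : ∀ β < 2 * RR φ, c (GG φ β) = min (β + 1) (2 * RR φ - β) ∧
      ∀ d ∈ D, bl φ d.2.1 = β → d = GG φ β := fun β hβ => by
    have e := eq β (mem_range.2 hβ)
    obtain ⟨a, b⟩ : GG φ β ∈ D ∧ min (β + 1) (2 * RR φ - β) ≤ c (GG φ β) := by
      by_contra n
      exact (lo2 β hβ n).ne e
    have := single_le_sum (f := c) (fun _ _ => Nat.zero_le _) (gm β a)
    refine ⟨by omega, fun d hd k => ?_⟩
    by_contra n
    have := sum_le_sum_of_subset (f := c) (s := {d, GG φ β})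
      (t := D.filter fun d => bl φ d.2.1 = β) (by
        intro y hy
        simp only [mem_insert, mem_singleton] at hy
        rcases hy with rfl | rfl
        exacts [mem_filter.2 ⟨hd, k⟩, gm β a])
    rw [sum_pair n] at this
    have := (h2 d hd).2
    omega
  refine ⟨fun l t => c (pc l t), inj, fun l t n => ?_, fun t ht => ?_, fun l t hl a => ?_⟩
  · have k := n
    simp only [brk, not_or, not_not] at k
    have q3 := p3 l t k.1
    have q4 := p4 l t k.1
    have : t ≠ (pc l t).2.2 := fun e => n (by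
      have := (p1 l t k.1).2.2.2.1
      rwa [p2 l t k.1, ← e] at this)
    have q5 := p3 l _ k.2.1
    have q6 := p4 l _ k.2.1
    exact congrArg c ((p1 l _ k.2.1).uq (p1 l t k.1) ((p2 l _ k.2.1).trans (p2 l t k.1).symm)
      ⟨by omega, by omega⟩)
  · have a : act φ (RR φ) t := ⟨ht, .inl rfl⟩
    dsimp only
    rw [(p1 _ t a).gg (p2 _ t a) (p3 _ t a) (p4 _ t a), (gd _ ht).1, rr]
  · have q1 := p1 l t a
    have q2 := p2 l t a
    have q3 := p3 l t a
    have q4 := p4 l t a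
    dsimp only
    generalize pc l t = x at *
    have ng : ∀ β, x ≠ GG φ β := fun β e => hl.ne (q2.symm.trans (congrArg Prod.fst e))
    have ne : ∀ u, x.2.1 ≤ u → u ≤ x.2.2 → c x ≠ rr φ u := fun u b d => by
      have k := (q1.ac b d).1
      have := (in_GG φ _ u).2 rfl
      rw [rr, ← (gd _ k).1]
      exact h1 _ _ q1 (vv_GG k) (ng _) ⟨by omega, by omega⟩
    have iv : ∀ u, x.2.1 ≤ u → u ≤ x.2.2 → (c x < rr φ u ↔ c x < rr φ x.2.1) := fun u b => by
      induction u, b using Nat.le_induction with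
      | base => exact fun _ => .rfl
      | succ u b ih =>
        intro d
        have := ih (by omega)
        have := ne u b (by omega)
        have := ne (u + 1) (by omega) d
        have := st φ u
        unfold rr at *
        omega
    obtain ⟨d, d1, -, d3, d4⟩ := h3 x q1 fun m => ng _ ((gd _ q1.2.1.1).2 x m rfl)
    have v := (h2 d d1).1
    have g := (gd _ v.2.1.1).2 d d1 rfl
    have v1 := v.1
    unfold ov at d3
    have g2 := v.gg (by rw [g]; rfl) (u := max x.2.1 d.2.1) (by omega) (by omega)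
    rw [g2, (gd _ (v.ac (by omega) (by omega)).1).1] at d4
    exact (iv t q3 q4).2 ((iv (max x.2.1 d.2.1) (by omega) (by omega)).1 d4)

theorem sat_uj (φ : F3) : SAT3 φ ↔ ∃ w ≤ kk φ, UJ (VV φ) w :=
  ⟨fun h => ⟨_, le_rfl, route_uj (mid_route (sat_mid h))⟩,
    fun ⟨_, a, b⟩ => mid_sat (route_mid (uj_route b a))⟩

end Pool.Agent.H24.Uc
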