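import Pool.Agent.H24.UcDefs

set_option autoImplicit false

namespace Pool.Agent.H24.Uc
open Pool.Agent.H11.PT

/-- `G` is the intersection graph of a family of nonempty intervals of the real line -/
def IntG {n : ℕ} (G : SimpleGraph (Fin n)) : Prop :=
  ∃ I : Fin n → Set ℝ, (∀ v, (I v).OrdConnected ∧ (I v).Nonempty) ∧
    ∀ u v, G.Adj u v ↔ u ≠ v ∧ (I u ∩ I v).Nonempty

/-- interval graph `G` and positive `k` (in binary) with up-colour domination weight at most `k` -/
def UCI (y : ℕ × List (ℕ × ℕ) × List Bool) : Prop :=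
  IntG (gr y.1 y.2.1) ∧ 1 ≤ bin y.2.2 ∧ ∃ w ≤ bin y.2.2, UC (gr y.1 y.2.1) w

end Pool.Agent.H24.Uc
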