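import Pool.Agent.H24.Uc4
import Pool.Agent.H24.UcDefs2
import Pool.Agent.H23.Ori3
import Pool.Agent.H24.Rtmp

set_option autoImplicit false

namespace Pool.Agent.H24.Uc
open Pool.Agent.H11.PT Pool.Agent.H25.CB Pool.Agent.H23.Ori Pool.Agent.H24.Bz Finset

theorem int_of {n : ℕ} {G : SimpleGraph (Fin n)} (L R : Fin n → ℕ) (h : ∀ u, L u < R u)
    (e : ∀ u v, G.Adj u v ↔ u ≠ v ∧ L u < R v ∧ L v < R u) : IntG G := by
  refine ⟨fun u => Set.Ico (L u : ℝ) (R u), fun v => ⟨Set.ordConnected_Ico,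
    Set.nonempty_Ico.2 (by exact_mod_cast h v)⟩, fun u v => (e u v).trans ?_⟩
  rw [Set.Ico_inter_Ico, Set.nonempty_Ico]
  have := h u
  have := h v
  simp only [lt_inf_iff, sup_lt_iff, Nat.cast_lt]
  tauto

theorem int_to {n : ℕ} {G : SimpleGraph (Fin n)} (h : IntG G) : ∃ L R : Fin n → ℕ,
    (∀ u, L u < R u ∧ R u ≤ n * n) ∧ ∀ u v, G.Adj u v ↔ u ≠ v ∧ L u < R v ∧ L v < R u := by
  classical
  obtain ⟨I, h1, h2⟩ := h
  have : ∀ e : Fin n × Fin n, (I e.1 ∩ I e.2).Nonempty → ∃ q, q ∈ I e.1 ∩ I e.2 := fun _ h => h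
  choose! q hq using this
  have a : ∀ u v, ∀ e, q e ∈ I u → q e ∈ I v →
      #{e | ∀ x ∈ I u, q e < x} < #{e | ∃ x ∈ I v, q e ≤ x} := fun u v e b c =>
    card_lt_card ⟨fun f hf => by
      simp only [mem_filter, mem_univ, true_and] at hf ⊢
      exact ⟨_, c, (hf _ b).le⟩, fun k => by
      have := k (show e ∈ _ by simp only [mem_filter, mem_univ, true_and]; exact ⟨_, c, le_rfl⟩)
      simp only [mem_filter, mem_univ, true_and] at this
      exact lt_irrefl _ (this _ b)⟩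
  have b : ∀ u v, #{e | ∀ x ∈ I u, q e < x} < #{e | ∃ x ∈ I v, q e ≤ x} →
      ∃ x ∈ I u, ∃ y ∈ I v, x ≤ y := fun u v k => by
    obtain ⟨e, e1, e2⟩ := exists_mem_notMem_of_card_lt_card k
    simp only [mem_filter, mem_univ, true_and, not_forall, not_lt] at e1 e2
    obtain ⟨y, y1, y2⟩ := e1
    obtain ⟨x, x1, x2⟩ := e2
    exact ⟨x, x1, y, y1, x2.trans y2⟩
  refine ⟨fun u => #{e | ∀ x ∈ I u, q e < x}, fun v => #{e | ∃ x ∈ I v, q e ≤ x}, fun u => ⟨?_,
    (card_le_univ _).trans (by simp)⟩, fun u v => (h2 u v).trans (and_congr_right fun _ =>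
      ⟨fun k => ?_, fun k => ?_⟩)⟩
  · have := hq (u, u) (by simpa using (h1 u).2)
    exact a u u _ this.1 this.1
  · have := hq (u, v) k
    exact ⟨a u v _ this.1 this.2, a v u _ this.2 this.1⟩
  · obtain ⟨x, x1, y, y1, c⟩ := b u v k.1
    obtain ⟨y', y2, x', x2, d⟩ := b v u k.2
    rcases le_total x y' with f | f
    · exact ⟨y', (h1 u).1.out x1 x2 ⟨f, d⟩, y2⟩
    · exact ⟨x, x1, (h1 v).1.out y2 y1 ⟨f, c⟩⟩

theorem uj_iff {n : ℕ} {G : SimpleGraph (Fin n)} {V : J → Prop} (x : Fin n → J)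
    (hi : Function.Injective x) (hv : ∀ y, V y ↔ ∃ i, x i = y)
    (ha : ∀ u v, G.Adj u v ↔ u ≠ v ∧ ov (x u) (x v)) (w : ℕ) : UJ V w ↔ UC G w := by
  constructor
  · rintro ⟨c, D, h1, h2, h3, h4⟩
    have v : ∀ i, V (x i) := fun i => (hv _).2 ⟨i, rfl⟩
    refine ⟨fun i => c (x i), univ.filter fun i => x i ∈ D, fun a b e =>
      h1 _ _ (v a) (v b) (hi.ne ((ha a b).1 e).1) ((ha a b).1 e).2,
      fun d hd => (h2 _ (mem_filter.1 hd).2).2, fun a m => ?_, h4 ▸ ?_⟩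
    · obtain ⟨d, d1, d2, d3, d4⟩ := h3 _ (v a) (by simpa using m)
      obtain ⟨i, rfl⟩ := (hv d).1 (h2 d d1).1
      exact ⟨i, by simpa using d1, (ha a i).2 ⟨fun e => d2 (e ▸ rfl), d3⟩, d4⟩
    · refine sum_nbij x (by simp) hi.injOn (fun d hd => ?_) fun _ _ => rfl
      obtain ⟨i, rfl⟩ := (hv d).1 (h2 d hd).1
      exact ⟨i, by simpa using hd, rfl⟩
  · rintro ⟨c, D, h1, h2, h3, h4⟩
    have e : ∀ i, Function.extend x c 0 (x i) = c i := hi.extend_apply _ _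
    refine ⟨Function.extend x c 0, D.image x, fun a b ma mb n o => ?_, fun d hd => ?_,
      fun a ma m => ?_, ?_⟩
    · obtain ⟨a, rfl⟩ := (hv a).1 ma
      obtain ⟨b, rfl⟩ := (hv b).1 mb
      rw [e, e]
      exact h1 a b ((ha a b).2 ⟨fun k => n (k ▸ rfl), o⟩)
    · obtain ⟨d, m, rfl⟩ := mem_image.1 hd
      exact ⟨(hv _).2 ⟨d, rfl⟩, e d ▸ h2 d m⟩
    · obtain ⟨a, rfl⟩ := (hv a).1 ma
      obtain ⟨d, d1, d2, d3⟩ := h3 a fun k => m (mem_image_of_mem _ k)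
      exact ⟨x d, mem_image_of_mem _ d1, hi.ne ((ha a d).1 d2).1, ((ha a d).1 d2).2,
        by rwa [e, e]⟩
    · rw [sum_image hi.injOn, ← h4]
      exact sum_congr rfl fun i _ => e i

section
variable {α : Type} [Enc α] {p q : α → Prop} {f : α → F3} {g h : α → ℕ}

@[fun_prop] theorem dcLe (hf : PT g) (hg : PT h) : PT fun x => dc (g x ≤ h x) :=
  (PT.decLe hf hg).of_eq fun x => dc_eq (by simp)
@[fun_prop] theorem dcImp (hp : PT fun x => dc (p x)) (hq : PT fun x => dc (q x)) :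
    PT fun x => dc (p x → q x) := dc_of (dcOr (dcNot hp) hq) fun _ => imp_iff_not_or.symm
@[fun_prop] theorem dcIff (hp : PT fun x => dc (p x)) (hq : PT fun x => dc (q x)) :
    PT fun x => dc (p x ↔ q x) :=
  dc_of (dcAnd (dcImp hp hq) (dcImp hq hp)) fun _ => iff_iff_implies_and_implies.symm
@[fun_prop] theorem pt_RR : PT RR := by unfold RR; fun_prop
@[fun_prop] theorem pt_QQ : PT QQ := by unfold QQ; fun_prop
@[fun_prop] theorem pt_LL : PT LL := by unfold LL; fun_prop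
@[fun_prop] theorem pt_bl (hf : PT f) (hg : PT g) : PT fun x => bl (f x) (g x) := by
  unfold bl; fun_prop
@[fun_prop] theorem pt_off (hf : PT f) (hg : PT g) : PT fun x => off (f x) (g x) := by
  unfold off; fun_prop
@[fun_prop] theorem pt_rr (hf : PT f) (hg : PT g) : PT fun x => rr (f x) (g x) := by
  unfold rr; fun_prop
@[fun_prop] theorem pt_ll (hf : PT f) (hg : PT g) : PT fun x => ll (f x) (g x) := by
  unfold ll; fun_prop
@[fun_prop] theorem pt_pi (hf : PT f) (hg : PT g) : PT fun x => pi (f x) (g x) := by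
  unfold pi; fun_prop
theorem pt_SS (hf : PT f) (hg : PT g) (hh : PT h) : PT fun x => dc (SS (f x) (g x) (h x)) := by
  unfold SS; fun_prop
theorem pt_act (hf : PT f) (hg : PT g) (hh : PT h) : PT fun x => dc (act (f x) (g x) (h x)) := by
  unfold act; fun_prop
theorem pt_brk (hf : PT f) (hg : PT g) (hh : PT h) : PT fun x => dc (brk (f x) (g x) (h x)) :=
  dcOr (dcNot (pt_act hf hg hh)) (dcOr (dcNot (pt_act hf hg (by fun_prop))) (dcOr (by fun_prop)
    (dcAnd (by fun_prop) (dcOr (by fun_prop) (dcAnd (by fun_prop) (dcAnd (by fun_prop)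
      (pt_SS hf (by fun_prop) hg)))))))
theorem pt_VV : PT fun y : F3 × J => dc (VV y.1 y.2) :=
  dcAnd (by fun_prop) (dcAnd (pt_act (by fun_prop) (by fun_prop) (by fun_prop))
    (dcAnd (dcOr (by fun_prop) (pt_brk (by fun_prop) (by fun_prop) (by fun_prop)))
      (dcAnd (pt_brk (by fun_prop) (by fun_prop) (by fun_prop))
        (dcAll (r := fun (y : F3 × J) u => y.2.2.1 ≤ u → ¬ brk y.1 y.2.1 u) (by fun_prop)
          (dcImp (by fun_prop) (dcNot (pt_brk (by fun_prop) (by fun_prop) (by fun_prop))))))))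
end

noncomputable def ps (φ : F3) : List J := (List.range (RR φ + 1) ×ˢ
  List.range (2 * RR φ * LL φ) ×ˢ List.range (2 * RR φ * LL φ)).filter fun x => dc (VV φ x)

theorem pt_ps : PT ps := PT.filter (by fun_prop) pt_VV

theorem mem_ps (φ : F3) (x : J) : x ∈ ps φ ↔ VV φ x := by
  obtain ⟨l, s, e⟩ := x
  simp only [ps, List.mem_filter, List.mem_product, List.mem_range, dc_iff, and_iff_right_iff_imp]
  intro h
  have a : e < 2 * RR φ * LL φ := (Nat.div_lt_iff_lt_mul (Nat.succ_pos _)).1 (h.ac h.1 le_rfl).1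
  have b := h.2.1.2
  have c := h.1
  dsimp only at b c
  omega

theorem nd_ps (φ : F3) : (ps φ).Nodup :=
  (List.nodup_range.product (List.nodup_range.product List.nodup_range)).filter _

noncomputable def eds (L : List J) : List (ℕ × ℕ) :=
  (List.range L.length ×ˢ List.range L.length).filter fun e =>
    dc (ov (L.getD e.1 (0, 0, 0)) (L.getD e.2 (0, 0, 0)))

theorem pt_eds : PT eds := by unfold eds ov; fun_prop

theorem hard : NPHard UCI := by
  have k : ∀ φ, kk φ = ((List.range (2 * RR φ)).map fun β => min (β + 1) (2 * RR φ - β)).sum :=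
    fun φ => by rw [kk, ← List.toFinset_range, List.sum_toFinset _ List.nodup_range]
  refine (hard_SAT3.red (fun φ => ((ps φ).length, eds (ps φ), toBits (kk φ)))
    (pt_ps.length.pair ((pt_eds.comp pt_ps).pair (PT.toBits ?_))) fun φ => ?_).npHard
  · rw [funext k]; fun_prop
  have a : ∀ u v, (gr (ps φ).length (eds (ps φ))).Adj u v ↔ u ≠ v ∧
      ov ((ps φ).get u) ((ps φ).get v) := fun u v => by
    simp only [gr, eds, SimpleGraph.fromRel_adj, List.mem_filter, List.mem_product, List.mem_range,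
      Fin.is_lt, dc_iff, true_and, List.getD_eq_getElem _ _ u.2, List.getD_eq_getElem _ _ v.2,
      List.get_eq_getElem, ov]
    tauto
  have b := uj_iff (V := VV φ) (ps φ).get (List.nodup_iff_injective_get.1 (nd_ps φ))
    (fun y => (mem_ps φ y).symm.trans List.mem_iff_get) a
  have c : 1 ≤ kk φ := by
    have := RR_pos φ
    exact le_trans (by omega) (single_le_sum (f := fun β => min (β + 1) (2 * RR φ - β))
      (fun _ _ => Nat.zero_le _) (mem_range.2 (show 0 < 2 * RR φ by omega)))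
  have d : IntG (gr (ps φ).length (eds (ps φ))) := int_of (fun u => ((ps φ).get u).2.1)
    (fun u => ((ps φ).get u).2.2 + 1)
    (fun u => Nat.lt_succ_of_le ((mem_ps φ _).1 (List.get_mem _ _)).1) fun u v => by
      simp only [a, ov, Nat.lt_succ_iff]
  simp only [UCI, bin, ofDigits_toBits, sat_uj, b, c, d, true_and]

def CK (y : ℕ × List (ℕ × ℕ)) (c : List ℕ) : Prop := ∀ u, u ∈ List.range y.1 →
  c.getD (4 * u + 2) 0 < c.getD (4 * u + 3) 0 ∧
  (c.getD (4 * u + 1) 0 = 1 → ¬ c.getD (4 * u) 0 = 0) ∧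
  (¬ c.getD (4 * u + 1) 0 = 1 → ∃ d, d ∈ List.range y.1 ∧ c.getD (4 * d + 1) 0 = 1 ∧
    (¬ u = d ∧ ((u, d) ∈ y.2 ∨ (d, u) ∈ y.2)) ∧ c.getD (4 * u) 0 < c.getD (4 * d) 0) ∧
  ∀ v, v ∈ List.range y.1 → ((¬ u = v ∧ ((u, v) ∈ y.2 ∨ (v, u) ∈ y.2)) →
    ¬ c.getD (4 * u) 0 = c.getD (4 * v) 0) ∧ ((¬ u = v ∧ ((u, v) ∈ y.2 ∨ (v, u) ∈ y.2)) ↔
      ¬ u = v ∧ c.getD (4 * u + 2) 0 < c.getD (4 * v + 3) 0 ∧
        c.getD (4 * v + 2) 0 < c.getD (4 * u + 3) 0)

def WT (n : ℕ) (c : List ℕ) : ℕ :=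
  ((List.range n).map fun u => if c.getD (4 * u + 1) 0 = 1 then c.getD (4 * u) 0 else 0).sum

theorem wt_eq (n : ℕ) (c : List ℕ) :
    WT n c = ∑ u : Fin n with c.getD (4 * u.1 + 1) 0 = 1, c.getD (4 * u.1) 0 := by
  rw [WT, ← List.sum_toFinset _ List.nodup_range, List.toFinset_range, sum_filter,
    ← Fin.sum_univ_eq_sum_range]

theorem cert {n B : ℕ} (a b c d : Fin n → ℕ) (h : ∀ u, a u ≤ B ∧ b u ≤ B ∧ c u ≤ B ∧ d u ≤ B) :
    ∃ l : List ℕ, l.length + l.sum ≤ 4 * n * (B + 1) ∧ ∀ u : Fin n, l.getD (4 * u) 0 = a u ∧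
      l.getD (4 * u + 1) 0 = b u ∧ l.getD (4 * u + 2) 0 = c u ∧ l.getD (4 * u + 3) 0 = d u := by
  obtain ⟨g, g1, g2⟩ : ∃ g : ℕ → ℕ, (∀ i, g i ≤ B) ∧ ∀ u : Fin n, g (4 * u) = a u ∧
      g (4 * u + 1) = b u ∧ g (4 * u + 2) = c u ∧ g (4 * u + 3) = d u := by
    refine ⟨fun i => if k : i / 4 < n then (if i % 4 = 0 then a ⟨_, k⟩ else if i % 4 = 1 then
      b ⟨_, k⟩ else if i % 4 = 2 then c ⟨_, k⟩ else d ⟨_, k⟩) else 0, fun i => ?_, fun u => ?_⟩
    · dsimp only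
      split_ifs with k
      any_goals have := h ⟨_, k⟩
      all_goals omega
    · have e : ∀ j < 4, (4 * u.1 + j) / 4 = u ∧ (4 * u.1 + j) % 4 = j := fun j _ => by omega
      simp [e 1, e 2, e 3]
  refine ⟨(List.range (4 * n)).map g, ?_, fun u => ?_⟩
  · have := List.sum_le_card_nsmul ((List.range (4 * n)).map g) B (by simp [g1])
    simp only [List.length_map, List.length_range, smul_eq_mul] at this ⊢
    linarith
  · have e : ∀ i < 4 * n, ((List.range (4 * n)).map g).getD i 0 = g i := fun i hi => by simp [hi]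
    have := u.2
    rw [e _ (by omega), e _ (by omega), e _ (by omega), e _ (by omega)]
    exact g2 u

theorem np : InNP UCI := by
  refine PT.inNP_nats (V := fun y c => decide ((1 : ℤ) ≤ bn y.2.2) &&
    decide (((WT y.1 c : ℕ) : ℤ) ≤ bn y.2.2) && dc (CK (y.1, y.2.1) c))
    (by unfold WT CK; fun_prop) (fun y => 4 * y.1 * (y.1 * y.1 + 1 + 1)) (by fun_prop)
    (fun y c h => ?_) fun y h => ?_
  all_goals
    have ad : ∀ u v : Fin y.1, (gr y.1 y.2.1).Adj u v ↔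
      ¬ u.1 = v.1 ∧ ((u.1, v.1) ∈ y.2.1 ∨ (v.1, u.1) ∈ y.2.1) := fun u v => by
      simp [gr, Fin.ext_iff]
  · simp only [Bool.and_eq_true, decide_eq_true_eq, dc_iff, ← Rtmp.bin_bn, CK, List.mem_range] at h
    obtain ⟨⟨h1, h2⟩, h3⟩ := h
    refine ⟨int_of (fun u => c.getD (4 * u + 2) 0) (fun u => c.getD (4 * u + 3) 0)
      (fun u => (h3 u u.2).1) fun u v => ?_, by omega, WT y.1 c, by omega,
      fun u => c.getD (4 * u) 0, univ.filter fun u => c.getD (4 * u.1 + 1) 0 = 1, fun u v e =>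
        ((h3 u u.2).2.2.2 v v.2).1 ((ad u v).1 e), fun d hd => (h3 d d.2).2.1 (mem_filter.1 hd).2,
      fun v m => ?_, (wt_eq _ _).symm⟩
    · rw [ad, ((h3 u u.2).2.2.2 v v.2).2, Ne, Fin.ext_iff]
    · obtain ⟨d, d1, d2, d3, d4⟩ := (h3 v v.2).2.2.1 (by simpa using m)
      exact ⟨⟨d, d1⟩, by simpa using d2, (ad _ _).2 d3, d4⟩
  · obtain ⟨h1, h2, w, h3, h4⟩ := h
    obtain ⟨L, R, r1, r2⟩ := int_to h1
    obtain ⟨w, h3, h5, c, D, c1, c2, c3, c4⟩ :
        ∃ w ≤ bin y.2.2, w ≤ y.1 * y.1 ∧ UC (gr y.1 y.2.1) w := by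
      by_cases k : w ≤ y.1 * y.1
      · exact ⟨w, h3, k, h4⟩
      have : ∑ d : Fin y.1, (d.1 + 1) ≤ y.1 * y.1 := by
        simpa using sum_le_card_nsmul univ (fun d : Fin y.1 => d.1 + 1) y.1 fun d _ => d.2
      exact ⟨_, by omega, this, fun d => d.1 + 1, univ,
        fun u v e f => e.ne (Fin.ext (Nat.succ.inj f)),
        fun _ _ => Nat.succ_ne_zero _, by simp, rfl⟩
    have b : ∀ d ∈ D, c d ≤ w := fun d hd =>
      c4 ▸ single_le_sum (f := c) (fun _ _ => Nat.zero_le _) hd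
    obtain ⟨l, l1, l2⟩ := cert (B := y.1 * y.1 + 1) c (fun u => if u ∈ D then 1 else 0) L R
      fun u => ⟨by
        by_cases m : u ∈ D
        · have := b u m; omega
        · obtain ⟨d, d1, -, d2⟩ := c3 u m
          have := b d d1; omega, by split_ifs <;> omega, by have := r1 u; omega,
        by have := r1 u; omega⟩
    have m : ∀ u : Fin y.1, l.getD (4 * u + 1) 0 = 1 ↔ u ∈ D := fun u => by
      rw [(l2 u).2.1]; split_ifs <;> simp [*]
    have e : WT y.1 l = w := by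
      rw [wt_eq, ← c4]
      exact sum_congr (by ext u; simp only [mem_filter, mem_univ, true_and, m]) fun u _ => (l2 u).1
    refine ⟨l, l1, ?_⟩
    simp only [Bool.and_eq_true, decide_eq_true_eq, dc_iff, ← Rtmp.bin_bn, CK, List.mem_range]
    refine ⟨⟨by omega, by omega⟩, fun u hu => ?_⟩
    obtain ⟨u, rfl⟩ : ∃ v : Fin y.1, v.1 = u := ⟨⟨u, hu⟩, rfl⟩
    rw [m, (l2 u).1, (l2 u).2.2.1, (l2 u).2.2.2]
    refine ⟨(r1 u).1, c2 u, fun k => ?_, fun v hv => ?_⟩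
    · obtain ⟨d, d1, d2, d3⟩ := c3 u k
      exact ⟨d, d.2, (m d).2 d1, (ad _ _).1 d2, by rwa [(l2 d).1]⟩
    · obtain ⟨v, rfl⟩ : ∃ x : Fin y.1, x.1 = v := ⟨⟨v, hv⟩, rfl⟩
      rw [(l2 v).1, (l2 v).2.2.1, (l2 v).2.2.2, ← ad, ← Fin.ext_iff]
      exact ⟨c1 u v, r2 u v⟩

end Pool.Agent.H24.Uc
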