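import Pool.Agent.H24.UcDefs2

set_option autoImplicit false

namespace Pool.Agent.H24.Uc
open Pool.Agent.H11.PT

/-- bipartite graph `G` and positive `k` (in binary) with up-colour domination weight at most `k` -/
def UCB (y : ℕ × List (ℕ × ℕ) × List Bool) : Prop :=
  (gr y.1 y.2.1).IsBipartite ∧ 1 ≤ bin y.2.2 ∧ ∃ w ≤ bin y.2.2, UC (gr y.1 y.2.1) w

end Pool.Agent.H24.Uc
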