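import Pool.Agent.H24.Uc5
import Pool.Agent.H24.UcDefs3

set_option autoImplicit false

namespace Pool.Agent.H24.Uc
open Pool.Agent.H11.PT Pool.Agent.H25.CB Pool.Agent.H23.Ori Pool.Agent.H24.Bz Finset

def UN (n : ℕ) (A : ℕ → ℕ → Prop) (w : ℕ) : Prop := ∃ (c : ℕ → ℕ) (D : Finset ℕ),
  (∀ x < n, ∀ y < n, A x y → c x ≠ c y) ∧ (∀ d ∈ D, d < n ∧ c d ≠ 0) ∧
  (∀ x < n, x ∉ D → ∃ d ∈ D, (A x d ∨ A d x) ∧ c x < c d) ∧ ∑ d ∈ D, c d = w

theorem un_iff {n : ℕ} {G : SimpleGraph (Fin n)} {A : ℕ → ℕ → Prop}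
    (ha : ∀ u v, G.Adj u v ↔ A u v ∨ A v u) (w : ℕ) : UN n A w ↔ UC G w := by
  constructor
  · rintro ⟨c, D, h1, h2, h3, h4⟩
    refine ⟨fun i => c i, univ.filter fun i => i.1 ∈ D, fun a b e =>
      ((ha a b).1 e).elim (h1 _ a.2 _ b.2) fun k => (h1 _ b.2 _ a.2 k).symm,
      fun d hd => (h2 _ (mem_filter.1 hd).2).2, fun a m => ?_, h4 ▸ ?_⟩
    · obtain ⟨d, d1, d2, d3⟩ := h3 _ a.2 (by simpa using m)
      exact ⟨⟨d, (h2 d d1).1⟩, by simpa using d1, (ha a _).2 d2, d3⟩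
    · exact sum_nbij Fin.val (by simp) Fin.val_injective.injOn
        (fun d hd => ⟨⟨d, (h2 d hd).1⟩, by simpa using hd, rfl⟩) fun _ _ => rfl
  · rintro ⟨c, D, h1, h2, h3, h4⟩
    have e : ∀ i : Fin n, Function.extend Fin.val c 0 i.1 = c i :=
      Fin.val_injective.extend_apply _ _
    refine ⟨Function.extend Fin.val c 0, D.image Fin.val, fun a ma b mb o => ?_, fun d hd => ?_,
      fun a ma m => ?_, ?_⟩
    · rw [e ⟨a, ma⟩, e ⟨b, mb⟩]
      exact h1 _ _ ((ha _ _).2 (.inl o))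
    · obtain ⟨d, m, rfl⟩ := mem_image.1 hd
      exact ⟨d.2, e d ▸ h2 d m⟩
    · obtain ⟨d, d1, d2, d3⟩ := h3 ⟨a, ma⟩ fun k => m (mem_image_of_mem _ k)
      exact ⟨d, mem_image_of_mem _ d1, (ha _ _).1 d2, by rwa [e ⟨a, ma⟩, e]⟩
    · rw [sum_image Fin.val_injective.injOn, ← h4]
      exact sum_congr rfl fun i _ => e i

def lv (φ : F3) (o : ℕ) : ℕ := 4 * (lit φ o).1 + 4 + if (lit φ o).2 = true then 0 else 1

def AB (φ : F3) (u v : ℕ) : Prop :=
  (u = 0 ∧ v < 4 * nv φ + 8 ∧ ((0 < v ∧ v < 4) ∨ (4 ≤ v ∧ v % 4 < 2))) ∨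
  (4 ≤ u ∧ u < 4 * nv φ + 8 ∧ 2 ≤ u % 4 ∧ v % 4 < 2 ∧ u / 4 = v / 4) ∨
  (4 * nv φ + 8 ≤ u ∧ (v = lv φ (3 * (u - (4 * nv φ + 8))) ∨
    v = lv φ (3 * (u - (4 * nv φ + 8)) + 1) ∨ v = lv φ (3 * (u - (4 * nv φ + 8)) + 2)))

theorem lv_lt (φ : F3) (o : ℕ) : 4 ≤ lv φ o ∧ lv φ o < 4 * nv φ + 4 ∧ lv φ o % 4 < 2 := by
  have := lit_lt φ o
  unfold lv; split_ifs <;> omega

theorem AB_side {φ : F3} {u v : ℕ} (h : AB φ u v) :
    ¬ (0 < u ∧ u < 4 * nv φ + 8 ∧ (u < 4 ∨ u % 4 < 2)) ∧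
      (0 < v ∧ v < 4 * nv φ + 8 ∧ (v < 4 ∨ v % 4 < 2)) ∧ (u = 0 ∨ 4 ≤ v) := by
  have := lv_lt φ (3 * (u - (4 * nv φ + 8)))
  have := lv_lt φ (3 * (u - (4 * nv φ + 8)) + 1)
  have := lv_lt φ (3 * (u - (4 * nv φ + 8)) + 2)
  unfold AB at h
  omega

theorem sat_un (φ : F3) :
    SAT3 φ ↔ ∃ w ≤ nv φ + 3, UN (4 * nv φ + 8 + φ.length) (AB φ) w := by
  rw [sat_iff]
  constructor
  · rintro ⟨α, h⟩
    obtain ⟨f, f1, f2⟩ : ∃ f : ℕ → ℕ, (∀ i, f i / 4 = i + 1 ∧ f i % 4 < 2) ∧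
        ∀ o, α (lit φ o).1 = (lit φ o).2 → f (lit φ o).1 = lv φ o :=
      ⟨fun i => 4 * i + 4 + if α i = true then 0 else 1, fun i => by
        dsimp only; split_ifs <;> omega, fun o e => by simp only [lv, e]⟩
    have m : ∀ i ≤ nv φ, f i ∈ insert 0 ((range (nv φ + 1)).image f) := fun i hi =>
      mem_insert_of_mem (mem_image_of_mem _ (mem_range.2 (by omega)))
    refine ⟨_, ?_, fun v => if v = 0 then 2 else
      if 4 ≤ v ∧ v < 4 * nv φ + 8 ∧ v % 4 < 2 then 1 else 0, insert 0 ((range (nv φ + 1)).image f),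
      fun x _ y _ a => ?_, fun d hd => ?_, fun x hx n => ?_, rfl⟩
    · rw [sum_insert (by simp only [mem_image, not_exists]; intro i; have := f1 i; omega)]
      have := sum_le_card_nsmul ((range (nv φ + 1)).image f) (fun v => if v = 0 then 2 else
        if 4 ≤ v ∧ v < 4 * nv φ + 8 ∧ v % 4 < 2 then 1 else 0) 1 fun v hv => by
          obtain ⟨i, -, rfl⟩ := mem_image.1 hv
          have := f1 i
          split_ifs <;> omega
      have b := card_image_le (s := range (nv φ + 1)) (f := f)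
      simp only [card_range, smul_eq_mul, if_true] at this b ⊢
      omega
    · have := AB_side a
      dsimp only
      split_ifs <;> omega
    · rcases mem_insert.1 hd with rfl | hd
      · simp
      · obtain ⟨i, a, rfl⟩ := mem_image.1 hd
        have := f1 i
        have := mem_range.1 a
        dsimp only
        split_ifs <;> omega
    · have x0 : x ≠ 0 := fun e => n (e ▸ mem_insert_self _ _)
      by_cases a : x < 4 * nv φ + 8
      · by_cases b : x < 4 ∨ x % 4 < 2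
        · refine ⟨0, mem_insert_self _ _, .inr (.inl (by omega)), ?_⟩
          dsimp only
          split_ifs <;> omega
        · have := f1 (x / 4 - 1)
          refine ⟨_, m (x / 4 - 1) (by omega), .inl (.inr (.inl (by omega))), ?_⟩
          dsimp only
          split_ifs <;> omega
      · obtain ⟨i, i1, i2⟩ := h (x - (4 * nv φ + 8)) (by omega)
        have := lv_lt φ (3 * (x - (4 * nv φ + 8)) + i)
        refine ⟨_, f2 _ i2 ▸ m _ (lit_lt φ _).le, .inl (.inr (.inr ⟨by omega, ?_⟩)), ?_⟩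
        · interval_cases i <;> simp
        · dsimp only
          split_ifs <;> omega
  · rintro ⟨w, hw, c, D, h1, h2, h3, h4⟩
    obtain ⟨S, hS⟩ : ∃ S : ℕ → ℕ, ∀ g, S g = ∑ d ∈ D with min (d / 4) (nv φ + 2) = g, c d :=
      ⟨_, fun _ => rfl⟩
    have s : S 0 + ∑ i ∈ range (nv φ + 1), S (i + 1) + S (nv φ + 2) = w := by
      rw [← h4, ← sum_fiberwise_of_maps_to (s := D) (f := c) (t := range (nv φ + 3))
        (g := fun d => min (d / 4) (nv φ + 2)) fun d _ => mem_range.2 (by omega)]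
      simp only [← hS]
      rw [sum_range_succ _ (nv φ + 2), sum_range_succ' _ (nv φ + 1), Nat.add_comm (S 0)]
    have s1 : ∀ d ∈ D, ∀ g, min (d / 4) (nv φ + 2) = g → c d ≤ S g := fun d hd g e =>
      hS g ▸ single_le_sum (f := c) (fun _ _ => Nat.zero_le _) (mem_filter.2 ⟨hd, e⟩)
    have s2 : ∀ d ∈ D, ∀ d' ∈ D, d ≠ d' → ∀ g, min (d / 4) (nv φ + 2) = g →
        min (d' / 4) (nv φ + 2) = g → 2 ≤ S g := fun d hd d' hd' n g e e' => by
      have := sum_le_sum_of_subset (f := c) (s := {d, d'})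
        (t := D.filter fun d => min (d / 4) (nv φ + 2) = g) (by
          intro y hy
          simp only [mem_insert, mem_singleton] at hy
          rcases hy with rfl | rfl
          exacts [mem_filter.2 ⟨hd, e⟩, mem_filter.2 ⟨hd', e'⟩])
      rw [sum_pair n, ← hS] at this
      have := (h2 d hd).2
      have := (h2 d' hd').2
      omega
    have nb : ∀ x < 4 * nv φ + 8, x ∉ D → (0 < x ∧ x < 4) ∨ (4 ≤ x ∧ 2 ≤ x % 4) →
        ∃ d ∈ D, d / 4 = x / 4 ∧ (d = 0 ∨ (4 ≤ x ∧ d % 4 < 2)) := fun x hx n k => by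
      obtain ⟨d, d1, d2, -⟩ := h3 x (by omega) n
      refine ⟨d, d1, ?_⟩
      rcases d2 with a | a
      · unfold AB at a; omega
      · have := AB_side a
        omega
    have z : 0 ∉ D → 2 ≤ S 0 := fun n => by
      refine s2 1 ?_ 2 ?_ (by omega) 0 (by omega) (by omega) <;> by_contra k
      · obtain ⟨d, d1, d2⟩ := nb 1 (by omega) k (by omega)
        exact n ((show d = 0 by omega) ▸ d1)
      · obtain ⟨d, d1, d2⟩ := nb 2 (by omega) k (by omega)
        exact n ((show d = 0 by omega) ▸ d1)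
    have v : ∀ i ∈ range (nv φ + 1), 1 ≤ S (i + 1) ∧ (S 0 < 2 → 2 ≤ S (i + 1)) := fun i hi => by
      replace hi := mem_range.1 hi
      have l : ∀ d ∈ D, d / 4 = i + 1 → d % 4 < 2 →
          1 ≤ S (i + 1) ∧ (S 0 < 2 → 2 ≤ S (i + 1)) := fun d hd a b => by
        have := s1 d hd (i + 1) (by omega)
        have := (h2 d hd).2
        refine ⟨by omega, fun k => ?_⟩
        have m : 0 ∈ D := by by_contra n; have := z n; omega
        have := s1 0 m 0 (by omega)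
        have := (h2 0 m).2
        have := h1 0 (by omega) d (by omega) (.inl (by omega))
        omega
      by_cases a : 4 * i + 6 ∈ D
      · by_cases b : 4 * i + 7 ∈ D
        · have := s2 _ a _ b (by omega) (i + 1) (by omega) (by omega)
          omega
        · obtain ⟨d, d1, d2⟩ := nb _ (by omega) b (by omega)
          exact l d d1 (by omega) (by omega)
      · obtain ⟨d, d1, d2⟩ := nb _ (by omega) a (by omega)
        exact l d d1 (by omega) (by omega)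
    have hn : 0 < nv φ := Nat.succ_pos _
    have z2 : 2 ≤ S 0 := by
      by_contra! k
      have := card_nsmul_le_sum _ _ _ fun i hi => (v i hi).2 k
      have m : 0 ∈ D := by by_contra n; have := z n; omega
      have := s1 0 m 0 (by omega)
      have := (h2 0 m).2
      simp only [card_range, smul_eq_mul] at *
      omega
    have t := sum_le_sum fun i hi => (v i hi).1
    have eq := (sum_eq_sum_iff_of_le fun i hi => (v i hi).1).1 (le_antisymm t (by simp; omega))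
    simp only [sum_const, card_range, smul_eq_mul] at t
    refine ⟨fun i => decide (4 * i + 4 ∈ D), fun j hj => ?_⟩
    obtain ⟨d, d1, d2, -⟩ := h3 (4 * nv φ + 8 + j) (by omega) fun m => by
      have := s1 _ m (nv φ + 2) (by omega)
      have := (h2 _ m).2
      omega
    obtain ⟨i, i1, rfl⟩ : ∃ i < 3, d = lv φ (3 * j + i) := by
      rcases d2 with a | a
      · unfold AB at a
        rw [Nat.add_sub_cancel_left] at a
        rcases a with a | a | ⟨-, a | a | a⟩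
        any_goals omega
        exacts [⟨0, by omega, a⟩, ⟨1, by omega, a⟩, ⟨2, by omega, a⟩]
      · have := AB_side a
        omega
    refine ⟨i, i1, ?_⟩
    have l := lit_lt φ (3 * j + i)
    unfold lv at d1
    cases e : (lit φ (3 * j + i)).2
    · simp only [e, Bool.false_eq_true, if_false] at d1
      simp only [decide_eq_false_iff_not]
      intro m
      have := s2 _ m _ d1 (by omega) ((lit φ (3 * j + i)).1 + 1) (by omega) (by omega)
      have := eq (lit φ (3 * j + i)).1 (mem_range.2 (by omega))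
      omega
    · simpa [e] using d1

noncomputable def edb (φ : F3) : List (ℕ × ℕ) :=
  (List.range (4 * nv φ + 8 + φ.length) ×ˢ List.range (4 * nv φ + 8 + φ.length)).filter fun e =>
    dc (AB φ e.1 e.2)

theorem pt_edb : PT edb := by unfold edb AB lv; fun_prop

theorem hardb : NPHard UCB := by
  refine (hard_SAT3.red (fun φ => (4 * nv φ + 8 + φ.length, edb φ, toBits (nv φ + 3)))
    (PT.pair (by fun_prop) (pt_edb.pair (PT.toBits (by fun_prop)))) fun φ => ?_).npHard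
  have a : ∀ u v, (gr (4 * nv φ + 8 + φ.length) (edb φ)).Adj u v ↔ AB φ u v ∨ AB φ v u :=
    fun u v => by
    simp only [gr, edb, SimpleGraph.fromRel_adj, List.mem_filter, List.mem_product, List.mem_range,
      Fin.is_lt, dc_iff, true_and, and_iff_right_iff_imp]
    rintro k rfl
    have := AB_side (k.elim id id)
    omega
  have d : (gr (4 * nv φ + 8 + φ.length) (edb φ)).IsBipartite := ⟨SimpleGraph.Coloring.mk
    (fun u => if 0 < u.1 ∧ u.1 < 4 * nv φ + 8 ∧ (u.1 < 4 ∨ u.1 % 4 < 2) then 0 else 1)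
    fun {u v} e => by
      rcases (a u v).1 e with k | k <;> simp only [(AB_side k).1, (AB_side k).2.1] <;> simp⟩
  simp only [UCB, bin, ofDigits_toBits, sat_un, un_iff a, d, true_and, Nat.le_add_left]

def CB (y : ℕ × List (ℕ × ℕ)) (c : List ℕ) : Prop := ∀ u, u ∈ List.range y.1 →
  (c.getD (4 * u + 1) 0 = 1 → ¬ c.getD (4 * u) 0 = 0) ∧
  (¬ c.getD (4 * u + 1) 0 = 1 → ∃ d, d ∈ List.range y.1 ∧ c.getD (4 * d + 1) 0 = 1 ∧
    (¬ u = d ∧ ((u, d) ∈ y.2 ∨ (d, u) ∈ y.2)) ∧ c.getD (4 * u) 0 < c.getD (4 * d) 0) ∧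
  ∀ v, v ∈ List.range y.1 → (¬ u = v ∧ ((u, v) ∈ y.2 ∨ (v, u) ∈ y.2)) →
    ¬ c.getD (4 * u) 0 = c.getD (4 * v) 0 ∧
      ¬ c.getD (4 * u + 2) 0 % 2 = c.getD (4 * v + 2) 0 % 2

theorem npb : InNP UCB := by
  refine PT.inNP_nats (V := fun y c => decide ((1 : ℤ) ≤ bn y.2.2) &&
    decide (((WT y.1 c : ℕ) : ℤ) ≤ bn y.2.2) && dc (CB (y.1, y.2.1) c))
    (by unfold WT CB; fun_prop) (fun y => 4 * y.1 * (y.1 * y.1 + 1 + 1)) (by fun_prop)
    (fun y c h => ?_) fun y h => ?_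
  all_goals
    have ad : ∀ u v : Fin y.1, (gr y.1 y.2.1).Adj u v ↔
      ¬ u.1 = v.1 ∧ ((u.1, v.1) ∈ y.2.1 ∨ (v.1, u.1) ∈ y.2.1) := fun u v => by
      simp [gr, Fin.ext_iff]
  · simp only [Bool.and_eq_true, decide_eq_true_eq, dc_iff, ← Rtmp.bin_bn, CB, List.mem_range] at h
    obtain ⟨⟨h1, h2⟩, h3⟩ := h
    refine ⟨⟨SimpleGraph.Coloring.mk (fun u => ⟨c.getD (4 * u.1 + 2) 0 % 2, by omega⟩)
      fun {u v} e k => ((h3 u u.2).2.2 v v.2 ((ad u v).1 e)).2 (congrArg Fin.val k)⟩, by omega,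
      WT y.1 c, by omega, fun u => c.getD (4 * u) 0,
      univ.filter fun u => c.getD (4 * u.1 + 1) 0 = 1, fun u v e =>
        ((h3 u u.2).2.2 v v.2 ((ad u v).1 e)).1, fun d hd => (h3 d d.2).1 (mem_filter.1 hd).2,
      fun v m => ?_, (wt_eq _ _).symm⟩
    obtain ⟨d, d1, d2, d3, d4⟩ := (h3 v v.2).2.1 (by simpa using m)
    exact ⟨⟨d, d1⟩, by simpa using d2, (ad _ _).2 d3, d4⟩
  · obtain ⟨⟨L⟩, h2, w, h3, h4⟩ := h
    obtain ⟨w, h3, h5, c, D, c1, c2, c3, c4⟩ :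
        ∃ w ≤ bin y.2.2, w ≤ y.1 * y.1 ∧ UC (gr y.1 y.2.1) w := by
      by_cases k : w ≤ y.1 * y.1
      · exact ⟨w, h3, k, h4⟩
      have : ∑ d : Fin y.1, (d.1 + 1) ≤ y.1 * y.1 := by
        simpa using sum_le_card_nsmul univ (fun d : Fin y.1 => d.1 + 1) y.1 fun d _ => d.2
      exact ⟨_, by omega, this, fun d => d.1 + 1, univ,
        fun u v e f => e.ne (Fin.ext (Nat.succ.inj f)),
        fun _ _ => Nat.succ_ne_zero _, by simp, rfl⟩
    have b : ∀ d ∈ D, c d ≤ w := fun d hd =>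
      c4 ▸ single_le_sum (f := c) (fun _ _ => Nat.zero_le _) hd
    obtain ⟨l, l1, l2⟩ := cert (B := y.1 * y.1 + 1) c (fun u => if u ∈ D then 1 else 0)
      (fun u => (L u).1) 0 fun u => ⟨by
        by_cases m : u ∈ D
        · have := b u m; omega
        · obtain ⟨d, d1, -, d2⟩ := c3 u m
          have := b d d1; omega, by split_ifs <;> omega, by have := (L u).2; omega, by simp⟩
    have m : ∀ u : Fin y.1, l.getD (4 * u + 1) 0 = 1 ↔ u ∈ D := fun u => by
      rw [(l2 u).2.1]; split_ifs <;> simp [*]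
    have e : WT y.1 l = w := by
      rw [wt_eq, ← c4]
      exact sum_congr (by ext u; simp only [mem_filter, mem_univ, true_and, m]) fun u _ => (l2 u).1
    refine ⟨l, l1, ?_⟩
    simp only [Bool.and_eq_true, decide_eq_true_eq, dc_iff, ← Rtmp.bin_bn, CB, List.mem_range]
    refine ⟨⟨by omega, by omega⟩, fun u hu => ?_⟩
    obtain ⟨u, rfl⟩ : ∃ v : Fin y.1, v.1 = u := ⟨⟨u, hu⟩, rfl⟩
    rw [m, (l2 u).1, (l2 u).2.2.1]
    refine ⟨c2 u, fun k => ?_, fun v hv => ?_⟩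
    · obtain ⟨d, d1, d2, d3⟩ := c3 u k
      exact ⟨d, d.2, (m d).2 d1, (ad _ _).1 d2, by rwa [(l2 d).1]⟩
    · obtain ⟨v, rfl⟩ : ∃ x : Fin y.1, x.1 = v := ⟨⟨v, hv⟩, rfl⟩
      rw [(l2 v).1, (l2 v).2.2.1, ← ad]
      refine fun k => ⟨c1 u v k, fun f => L.valid k (Fin.ext ?_)⟩
      have := (L u).2
      have := (L v).2
      omega

end Pool.Agent.H24.Uc
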