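import Pool.Agent.H11.GDefs

set_option autoImplicit false

namespace Pool.Agent.H24.Uc

/-- `G` has a colouring `c` and an up-colour dominating set `D` for `(G, c)` of weight `w` -/
def UC {n : ℕ} (G : SimpleGraph (Fin n)) (w : ℕ) : Prop :=
  ∃ (c : Fin n → ℕ) (D : Finset (Fin n)), (∀ u v, G.Adj u v → c u ≠ c v) ∧ (∀ d ∈ D, c d ≠ 0) ∧
    (∀ v, v ∉ D → ∃ d ∈ D, G.Adj v d ∧ c v < c d) ∧ ∑ d ∈ D, c d = w

end Pool.Agent.H24.Uc
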