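import Mathlib
import Pool.Agent.H24.Srs
import Pool.Agent.H16.QueueM
import Pool.Agent.H23.PR

set_option autoImplicit false

namespace Pool.Agent.H24.Wave

open Relation Pool.Agent.H24.Srs Pool.Agent.H16.QueueM

inductive L (Y P : Type)
  | t (y : Y) | w (p : P) | c | e | z | d | g

open L

instance {Y P : Type} [Finite Y] [Finite P] : Finite (L Y P) :=
  Finite.of_surjective (fun x : Y ⊕ P ⊕ Fin 5 => match x with
    | .inl y => t y | .inr (.inl p) => w p | .inr (.inr i) => [c, e, z, d, g].getD i c) (by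
      rintro (y | p | _ | _ | _ | _ | _)
      exacts [⟨.inl y, rfl⟩, ⟨.inr (.inl p), rfl⟩, ⟨.inr (.inr 0), rfl⟩, ⟨.inr (.inr 1), rfl⟩,
        ⟨.inr (.inr 2), rfl⟩, ⟨.inr (.inr 3), rfl⟩, ⟨.inr (.inr 4), rfl⟩])

variable {Y : Type} (S : Set (List Y × List Y)) (f1 f2 : Y)

inductive R0 : ℕ → L Y S → List (L Y S) → List (L Y S) → Prop
  | dy (y) : R0 2 (t y) [] [t y, d]
  | dc : R0 2 c [] [c, d]
  | st (p : S) : R0 0 g (c :: p.1.1.map t) [c, w p]
  | mv (p y) : R0 1 (w p) [t y] [t y, w p]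
  | en (p : S) : R0 p.1.2.length (w p) [e] (p.1.2.map t ++ [e])
  | ht : R0 0 g [c, t f1, t f2, e, c] [z]

def RR : Set (List (L Y S) × List (L Y S)) :=
  {p | (∃ k a r, R0 S f1 f2 k a r p.2 ∧ p.1 = List.replicate k d ++ a :: r) ∨
    ∃ x, p = ([z, x], [z]) ∨ p = ([x, z], [z])}

variable {S f1 f2}

theorem fin [Finite Y] (hS : S.Finite) : (RR S f1 f2).Finite := by
  haveI : Finite S := hS
  obtain ⟨N, hN⟩ := (hS.image fun p => p.1.length + p.2.length).bddAbove
  refine ((List.finite_length_le _ (N + 6)).prod (List.finite_length_le _ (N + 6))).subset ?_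
  rintro ⟨l, o⟩ (⟨k, a, r, h, rfl⟩ | ⟨x, h | h⟩)
  · cases h with
    | st p => have := hN ⟨_, p.2, rfl⟩; simp at this ⊢; omega
    | en p => have := hN ⟨_, p.2, rfl⟩; simp at this ⊢; omega
    | _ => simp
  all_goals cases h; simp

theorem zred (u : List (L Y S)) (h : z ∈ u) : ReflTransGen (St (RR S f1 f2)) u [z] := by
  obtain ⟨s, v, rfl⟩ := List.append_of_mem h
  have h1 : ReflTransGen (St (RR S f1 f2)) (z :: v) [z] := by
    induction v with
    | nil => exact .refl
    | cons x v ih => exact (ih (by simp)).head ⟨_, Or.inr ⟨x, Or.inl rfl⟩, [], v, rfl, rfl⟩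
  induction s with
  | nil => exact h1
  | cons x s ih =>
    exact ReflTransGen.tail (by simpa using ctx (ih (by simp)) [x] [])
      ⟨_, Or.inr ⟨x, Or.inr rfl⟩, [], [], rfl, rfl⟩

theorem R0.nz {k a r o} (h : R0 S f1 f2 k a r o) : a ≠ d ∧ a ≠ z ∧ ∀ x ∈ r, x ≠ d ∧ x ≠ g ∧ x ≠ z := by
  cases h <;> simp

theorem zper {u v : List (L Y S)} (h : St (RR S f1 f2) u v) (hz : z ∈ u) : z ∈ v := by
  obtain ⟨p, ⟨k, a, r, h1, h2⟩ | ⟨x, rfl | rfl⟩, s, s', rfl, rfl⟩ := h
  · simp only [h2, List.mem_append, List.mem_replicate, List.mem_cons] at hz ⊢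
    rcases hz with (hz | hz | hz | hz) | hz
    exacts [Or.inl (Or.inl hz), by simp at hz, absurd hz.symm h1.nz.2.1,
      absurd rfl (h1.nz.2.2 _ hz).2.2, Or.inr hz]
  all_goals simp

theorem zper' {u v : List (L Y S)} (h : ReflTransGen (St (RR S f1 f2)) u v) (hz : z ∈ u) :
    z ∈ v := by
  induction h with
  | refl => exact hz
  | tail _ h ih => exact zper h ih

theorem rep_inj {α : Type} {d a b : α} {u v : List α} (ha : a ≠ d) (hb : b ≠ d) {i j : ℕ}
    (h : List.replicate i d ++ a :: u = List.replicate j d ++ b :: v) :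
    i = j ∧ a = b ∧ u = v := by
  induction i generalizing j with
  | zero => cases j <;> simp_all [List.replicate_succ]
  | succ i ih =>
    cases j with
    | zero => simp_all [List.replicate_succ]
    | succ j => simpa using ih (j := j) (by simpa [List.replicate_succ] using h)

variable (h1 : ∀ p ∈ S, p.1 ≠ [] ∧ p.2 ≠ [] ∧ p.1.length ≤ 2 ∧ ¬ p.1 <+: [f1, f2])
  (h2 : ∀ p ∈ S, ∀ p' ∈ S, p.1 <+: p'.1 → p = p')
include h1

theorem len : ∀ p ∈ RR S f1 f2, p.2.length < p.1.length := by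
  rintro ⟨l, o⟩ (⟨k, a, r, h, rfl⟩ | ⟨x, h | h⟩)
  · cases h with
    | st p => simpa using List.length_pos_iff.2 (h1 _ p.2).1
    | _ => simp
  all_goals cases h; simp

theorem R0.zero {k a r o} (h : R0 S f1 f2 k a r o) (hk : k = 0) : a = g := by
  cases h with
  | en p => exact absurd (List.length_eq_zero_iff.1 hk) (h1 _ p.2).2.1
  | _ => simp_all

include h2

theorem R0.det {k a r o k' r' o'} (h : R0 S f1 f2 k a r o) (h' : R0 S f1 f2 k' a r' o')
    {v v'} (e : r ++ v = r' ++ v') : k = k' ∧ r = r' ∧ o = o' := by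
  have n : ∀ (p : S) (v v' : List (L Y S)), p.1.1.map t ++ v ≠ t f1 :: t f2 :: v' := fun p v v' e => by
    obtain ⟨a, _, b, c⟩ := h1 _ p.2
    rcases hp : p.1.1 with _ | ⟨x, _ | ⟨y, _ | _⟩⟩ <;> simp_all
  have m : ∀ p q : S, p.1.1.map t <+: q.1.1.map (t (P := S)) → p = q := fun p q k =>
    Subtype.ext (h2 _ p.2 _ q.2 ((List.prefix_map_iff_of_injective fun _ _ => t.inj).1 k))
  clear h1 h2
  cases h <;> cases h'
  case st.st p q =>
    obtain rfl : p = q := (List.prefix_or_prefix_of_prefix ⟨v, rfl⟩ ⟨v', (List.cons.inj e).2.symm⟩).elim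
      (m _ _) fun k => (m _ _ k).symm
    simp
  case st.ht p => exact absurd (List.cons.inj e).2 (n p _ _)
  case ht.st p => exact absurd (List.cons.inj e).2.symm (n p _ _)
  all_goals simp_all

theorem confl : Confl (RR S f1 f2) := by
  refine newman (len h1) (loc fun p hp q hq s v v' e hs => ?_)
  by_cases hz : z ∈ p.1 ++ v
  · exact ⟨[z], zred _ (zper ⟨p, hp, [], v, by simp, by simp⟩ hz),
      zred _ (zper ⟨q, hq, s, v', by simp [e], by simp⟩ hz)⟩
  obtain ⟨k, a, r, a1, a2⟩ | ⟨x, rfl | rfl⟩ := hp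
  rotate_left
  · simp at hz
  · simp at hz
  obtain ⟨k', a', r', b1, b2⟩ | ⟨x, rfl | rfl⟩ := hq
  rotate_left
  · simp [e] at hz
  · simp [e] at hz
  rw [a2, b2, List.append_assoc, List.append_assoc, List.append_eq_append_iff] at e
  have key : ∀ j, j + s.length = k → List.replicate k' d ++ a' :: (r' ++ v') =
      List.replicate j d ++ a :: (r ++ v) → ∃ z, ReflTransGen (St (RR S f1 f2)) (p.2 ++ v) z ∧
      ReflTransGen (St (RR S f1 f2)) (s ++ (q.2 ++ v')) z := fun j hj e => by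
    obtain ⟨rfl, rfl, e1⟩ := rep_inj b1.nz.1 a1.nz.1 e
    obtain ⟨rfl, rfl, e2⟩ := b1.det h1 h2 a1 e1
    obtain rfl : s = [] := List.length_eq_zero_iff.1 (by omega)
    rw [e2, List.append_cancel_left e1]
    exact ⟨_, .refl, .refl⟩
  rcases e with ⟨_ | ⟨x, s'⟩, rfl, e⟩ | ⟨s', e, e'⟩
  · exact key 0 (by simp) e.symm
  · simp only [List.cons_append, List.cons.injEq] at e
    have : s'.length < r.length := by simpa [a2] using hs
    obtain ⟨r1, rfl⟩ := List.prefix_of_prefix_length_le ⟨_, e.2.symm⟩ ⟨v, rfl⟩ this.le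
    obtain ⟨y, r1, rfl⟩ := List.exists_cons_of_length_pos (l := r1) (by simpa using this)
    have k1 := a1.nz.2.2 y (by simp)
    have k2 := List.append_cancel_left ((List.append_assoc _ _ _).symm.trans e.2)
    cases k' with
    | zero => simp_all [b1.zero h1 rfl]
    | succ => simp_all [List.replicate_succ]
  · obtain ⟨a, -, b⟩ := List.append_eq_replicate_iff.1 e.symm
    exact key s'.length (by omega) (b ▸ e')

omit h1 h2

inductive Sg (Y : Type)
  | i2 | i1 | run (q : List Y) | lock (q : List Y) | dead | halt | bad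

open Classical in
noncomputable def act : L Y S → Sg Y → Sg Y
  | c, .i2 => .i1
  | _, .i2 => .bad
  | e, .i1 => .run []
  | _, .i1 => .bad
  | t y, .run q => .run (y :: q)
  | d, .run q => .run q
  | w p, .run q => .run (q ++ p.1.2)
  | c, .run q => .lock q
  | d, .lock q => .lock q
  | g, .lock q => if q = [f1, f2] then .halt else if h : ∃ q', qs S q q' then .lock h.choose
      else .dead
  | _, .halt => .halt
  | _, .bad => .bad
  | _, _ => .dead

noncomputable def sg (f1 f2 : Y) (u : List (L Y S)) (s : Sg Y) : Sg Y :=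
  u.foldr (act (f1 := f1) (f2 := f2)) s

theorem sg_append (u v : List (L Y S)) (s : Sg Y) :
    sg f1 f2 (u ++ v) s = sg f1 f2 u (sg f1 f2 v s) := List.foldr_append
@[simp] theorem sg_cons (x : L Y S) (v : List (L Y S)) (s : Sg Y) :
    sg f1 f2 (x :: v) s = act (f1 := f1) (f2 := f2) x (sg f1 f2 v s) := rfl
@[simp] theorem sg_nil (s : Sg Y) : sg (S := S) f1 f2 [] s = s := rfl

theorem sg_abs (u : List (L Y S)) : sg f1 f2 u .halt = .halt ∧ sg f1 f2 u .bad = .bad ∧
    sg f1 f2 u .dead = .dead := by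
  induction u with
  | nil => simp
  | cons x u ih => cases x <;> simp [ih, act]

theorem sg_t (q r : List Y) : sg f1 f2 (q.map (t (P := S))) (.run r) = .run (q ++ r) := by
  induction q <;> simp_all [act]

theorem sg_d (k : ℕ) (r : List Y) : sg f1 f2 (List.replicate k (d : L Y S)) (.run r) = .run r := by
  induction k <;> simp_all [act, List.replicate_succ]

include h1 h2 in
theorem sg_inv {u v : List (L Y S)} (h : ReflTransGen (St (RR S f1 f2)) u v) (hz : z ∉ v)
    (s : Sg Y) : sg f1 f2 u s = sg f1 f2 v s := by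
  induction h with
  | refl => rfl
  | tail k h ih =>
    rw [ih fun a => hz (zper h a)]
    obtain ⟨⟨l, o⟩, ⟨k, a, r, b, rfl⟩ | ⟨x, b | b⟩, s1, s2, rfl, rfl⟩ := h
    rotate_left
    · cases b; simp at hz
    · cases b; simp at hz
    simp only [sg_append]
    generalize sg f1 f2 s2 s = s
    congr 1
    cases b with
    | ht => simp at hz
    | st p =>
      obtain ⟨a1, -, -, a2⟩ := h1 _ p.2
      obtain ⟨r, y, hy⟩ := List.eq_nil_or_concat' p.1.1 |>.resolve_left a1
      cases s with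
      | run q =>
        have e : ∃ q', qs S (p.1.1 ++ q) q' := ⟨_, _, p.2, q, rfl, rfl⟩
        have n : p.1.1 ++ q ≠ [f1, f2] := fun k => a2 ⟨_, k⟩
        obtain ⟨p', b1, q', b2, b3⟩ := e.choose_spec
        obtain rfl : p.1 = p' := (List.prefix_or_prefix_of_prefix ⟨q, rfl⟩ ⟨q', b2.symm⟩).elim
          (h2 _ p.2 _ b1) fun k => (h2 _ b1 _ p.2 k).symm
        obtain rfl := List.append_cancel_left b2
        simp [sg_t, act, n, e, b3]
      | _ => simp [hy, sg_append, act, sg_abs]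
    | en p => cases s <;> simp [sg_append, act, sg_abs, sg_t, sg_d]
    | _ => cases s <;> simp [act, List.replicate_succ]

theorem sg_lock (q : List Y) (m : List (L Y S)) : sg f1 f2 m (.lock q) = .dead ∨
    (∃ q', ReflTransGen (qs S) q q' ∧ sg f1 f2 m (.lock q) = .lock q') ∨
    (ReflTransGen (qs S) q [f1, f2] ∧ sg f1 f2 m (.lock q) = .halt) := by
  induction m with
  | nil => exact Or.inr (Or.inl ⟨q, .refl, rfl⟩)
  | cons x m ih =>
    rcases ih with h | ⟨q', a, h⟩ | ⟨a, h⟩
    · left; cases x <;> simp [h, act]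
    · cases x with
      | d => exact Or.inr (Or.inl ⟨q', a, by simp [h, act]⟩)
      | g =>
        simp only [sg_cons, h, act]
        split_ifs with k1 k2
        · exact Or.inr (Or.inr ⟨k1 ▸ a, rfl⟩)
        · exact Or.inr (Or.inl ⟨_, a.tail k2.choose_spec, rfl⟩)
        · exact Or.inl rfl
      | _ => left; simp [h, act]
    · right; right; cases x <;> simp [h, act, a]

def Pas (x : List (L Y S)) : Prop := ∀ a ∈ x, a ≠ d ∧ a ≠ g ∧ a ≠ z

include h1 in
theorem redex {n x v : List (L Y S)} (h : St (RR S f1 f2) (n ++ x) v) (hz : z ∉ n ++ x) :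
    (∃ v, St (RR S f1 f2) n v) ∨ (∃ v, St (RR S f1 f2) x v) ∨ ∃ k a r o s l l', R0 S f1 f2 k a r o ∧
      List.replicate k d ++ a :: r = l ++ l' ∧ n = s ++ l ∧ l' <+: x ∧ l' ≠ [] ∧
      ∃ y, y ∈ l.head? ∧ (y = d ∨ y = g) := by
  obtain ⟨⟨l, o⟩, hp, s1, s2, e, rfl⟩ := h
  rcases List.append_eq_append_iff.1 e with ⟨x', e1, e2⟩ | ⟨x', rfl, -⟩
  · rcases List.append_eq_append_iff.1 e1 with ⟨l1, rfl, e3⟩ | ⟨l1, -, rfl⟩
    · by_cases k1 : l1 = []
      · exact Or.inr (Or.inl ⟨_, _, hp, [], s2, by simpa [k1, show l = _ from e3] using e2, rfl⟩)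
      by_cases k2 : x' = []
      · exact Or.inl ⟨_, _, hp, s1, [], by simp [show l = _ from e3, k2], rfl⟩
      obtain ⟨k, a, r, b, e4⟩ | ⟨y, b | b⟩ := hp
      · refine Or.inr (Or.inr ⟨k, a, r, o, s1, l1, x', b, e4.symm.trans e3, rfl, ⟨_, e2.symm⟩, k2, ?_⟩)
        obtain ⟨y, l1, rfl⟩ := List.exists_cons_of_ne_nil k1
        have := e4.symm.trans e3
        cases k with
        | zero => simp_all [b.zero h1 rfl]
        | succ => simp_all [List.replicate_succ]
      all_goals cases b; simp [e] at hz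
    · exact Or.inr (Or.inl ⟨_, _, hp, l1, s2, e2, rfl⟩)
  · exact Or.inl ⟨_, _, hp, s1, x', rfl, rfl⟩

include h1 in
theorem irr_pas {x : List (L Y S)} (h : Pas x) : Irr (RR S f1 f2) x := by
  rintro _ ⟨⟨l, o⟩, ⟨k, a, r, b, rfl⟩ | ⟨y, b | b⟩, s1, s2, rfl, rfl⟩
  · cases k with
    | zero => exact (h g (by simp [b.zero h1 rfl])).2.1 rfl
    | succ => exact (h d (by simp)).1 rfl
  all_goals cases b; exact (h z (by simp)).2.2 rfl

theorem fuel (x : L Y S) (hx : R0 S f1 f2 2 x [] [x, d]) (k : ℕ) (v : List (L Y S)) :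
    ReflTransGen (St (RR S f1 f2)) (List.replicate (2 * k) d ++ x :: v)
      (x :: (List.replicate k d ++ v)) := by
  induction k generalizing v with
  | zero => exact .refl
  | succ k ih =>
    refine .head ⟨(_, _), Or.inl ⟨_, _, _, hx, rfl⟩, List.replicate (2 * k) d, v, ?_, rfl⟩ ?_
    · simp [Nat.mul_succ, List.replicate_add]
    · simpa [List.replicate_succ'] using ih (d :: v)

theorem wave (p : S) (q : List Y) : ∃ K, ReflTransGen (St (RR S f1 f2))
    (List.replicate K d ++ w p :: (q.map t ++ [e])) ((q ++ p.1.2).map t ++ [e]) := by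
  induction q with
  | nil => exact ⟨p.1.2.length, .single ⟨(_, _), Or.inl ⟨_, _, _, .en p, rfl⟩, [], [], by simp, by simp⟩⟩
  | cons y q ih =>
    obtain ⟨K, h⟩ := ih
    refine ⟨2 * K + 1, .head ⟨(_, _), Or.inl ⟨_, _, _, .mv p y, rfl⟩, List.replicate (2 * K) d,
      q.map t ++ [e], by simp [List.replicate_add], rfl⟩ ?_⟩
    simpa using (fuel _ (.dy y) K _).trans (by simpa using ctx h [t y] [])

theorem sim {q q' : List Y} (h : ReflTransGen (qs S) q q') : ∃ m, ReflTransGen (St (RR S f1 f2))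
    (m ++ c :: (q.map t ++ [e])) (c :: (q'.map t ++ [e])) := by
  induction h with
  | refl => exact ⟨[], .refl⟩
  | tail _ h ih =>
    obtain ⟨m, hm⟩ := ih
    obtain ⟨p, hp, r, rfl, rfl⟩ := h
    obtain ⟨K, h⟩ := wave (f1 := f1) (f2 := f2) ⟨p, hp⟩ r
    refine ⟨List.replicate (2 * K) d ++ g :: m, .trans
      (b := List.replicate (2 * K) d ++ g :: c :: ((p.1 ++ r).map t ++ [e]))
      (by simpa using ctx (ctx hm [g] []) (List.replicate (2 * K) d) []) (.head ⟨(_, _), Or.inl
        ⟨_, _, _, .st ⟨p, hp⟩, rfl⟩, List.replicate (2 * K) d, r.map t ++ [e], by simp, rfl⟩ ?_)⟩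
    simpa using (fuel _ .dc K _).trans (by simpa using ctx h [c] [])

theorem isZ : IsZ (cl (RR S f1 f2) [z]) := fun x => by
  obtain ⟨u, rfl⟩ := cl_surj x
  exact ⟨cl_of (zred _ (by simp)), cl_of (zred _ (by simp))⟩

theorem irr_one (x : L Y S) : Irr (RR S f1 f2) [x] := by
  rintro _ ⟨⟨l, o⟩, ⟨k, a, r, b, rfl⟩ | ⟨y, b | b⟩, s1, s2, e, rfl⟩
  all_goals have := congrArg List.length e; cases b <;> simp at this <;> omega

theorem mem_PP {a b : (cg (RR S f1 f2)).Quotient} (h : a ≠ cl _ [z]) :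
    b ∈ PP a ↔ ∀ m, cl _ m * a * b = cl _ [z] → cl _ m * a = cl _ [z] := by
  refine ⟨fun k m => (k _ isZ).2 h _, fun k y hy => ?_⟩
  obtain rfl : y = cl _ [z] := (hy _).1.symm.trans (isZ y).2
  exact ⟨fun e => absurd e h, fun _ m => by obtain ⟨m, rfl⟩ := cl_surj m; exact k m⟩

theorem nbad (m : List (L Y S)) (s : Sg Y) (a : s ≠ .bad) (b : s ≠ .i1) (b' : s ≠ .i2) :
    sg f1 f2 m s ≠ .bad := by
  suffices sg f1 f2 m s ≠ .bad ∧ sg f1 f2 m s ≠ .i1 ∧ sg f1 f2 m s ≠ .i2 from this.1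
  induction m with
  | nil => exact ⟨a, b, b'⟩
  | cons x m ih =>
    rw [sg_cons]
    generalize sg f1 f2 m s = s at ih
    cases s <;> cases x <;> simp_all [act] <;> split_ifs <;> simp

theorem midc {k a r o} (h : R0 S f1 f2 k a r o) {l l'} (e : List.replicate k d ++ a :: r = l ++ l')
    (n : l ≠ []) (n' : l' ≠ []) : sg f1 f2 l .i2 = .bad := by
  obtain ⟨l, x, rfl⟩ := (List.eq_nil_or_concat' l).resolve_left n
  rw [sg_append]
  by_cases hx : x = c
  swap
  · cases x <;> simp_all [act, sg_abs]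
  subst hx
  rcases List.eq_nil_or_concat' l with rfl | ⟨l, x, rfl⟩
  · cases h with
    | en p => cases hp : p.1.2 <;> simp [hp, List.replicate_succ] at e
    | _ => simp_all [List.replicate_succ]
  by_cases hx : x = L.e
  swap
  · cases x <;> simp_all [act, sg_abs, sg_append]
  subst hx
  have a1 : c ∈ List.replicate k d ++ a :: r := by simp [e]
  have a2 : L.e ∈ List.replicate k d ++ a :: r := by simp [e]
  cases h
  case ht =>
    rcases l with _ | ⟨_, _ | ⟨_, _ | ⟨_, _ | ⟨_, _ | ⟨_, _ | _⟩⟩⟩⟩⟩ <;> simp_all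
  all_goals simp at a1 a2

include h1

theorem endc {k a r o} (h : R0 S f1 f2 k a r o) {l} (e : List.replicate k d ++ a :: r = l ++ [c]) :
    sg f1 f2 l .i1 = .bad ∨ sg f1 f2 l .i1 = .halt := by
  have a := congrArg List.getLast? e
  cases h with
  | dc => left; rw [← (List.append_inj' (s₁ := [d, d]) e rfl).1]; rfl
  | ht =>
    right; rw [← (List.append_inj' (s₁ := [g, c, t f1, t f2, L.e]) e rfl).1]
    simp [act]
  | st p =>
    obtain ⟨r, y, hy⟩ := List.eq_nil_or_concat' p.1.1 |>.resolve_left (h1 _ p.2).1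
    simp [hy, List.getLast?_cons] at a
  | _ => simp at a

include h2

theorem main (q : List Y) : CConj (cl (RR S f1 f2) (c :: (q.map t ++ [e])))
    (cl _ (q.map t ++ [e, c])) ↔ ¬ ReflTransGen (qs S) q [f1, f2] := by
  have hc := confl h1 h2
  have p0 : Pas (q.map (t (P := S)) ++ [e]) := by simp [Pas, or_imp, forall_and]
  have p1 : Pas (c :: (q.map (t (P := S)) ++ [e])) := by simp [Pas, or_imp, forall_and]
  have p2 : Pas (q.map (t (P := S)) ++ [e, c]) := by simp [Pas, or_imp, forall_and]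
  have nz : ∀ {x}, Irr (RR S f1 f2) x → z ∉ x → cl (RR S f1 f2) x ≠ cl _ [z] := fun a b k =>
    b ((a.eq ((cl_irr hc (irr_one z)).1 k)) ▸ List.mem_singleton_self z)
  have n1 := nz (irr_pas h1 p1) fun k => (p1 _ k).2.2 rfl
  have n2 := nz (irr_pas h1 p2) fun k => (p2 _ k).2.2 rfl
  constructor
  · rintro ⟨γ, a1, -, -, a2, -⟩ hq
    obtain ⟨γ, rfl⟩ := cl_surj γ
    obtain ⟨n, b1, b2⟩ := ex_nf (len h1) _ γ (Nat.lt_succ_self _)
    rw [cl_of b1] at a1 a2
    rw [mem_PP n1] at a1
    by_cases hz : z ∈ n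
    · exact n1 (a1 [] (cl_of (zred _ (by simp [hz]))))
    have i : Irr (RR S f1 f2) (c :: (q.map t ++ [e]) ++ n) := fun v hv => by
      rcases redex h1 hv (by simp [hz]) with ⟨v, k⟩ | ⟨v, k⟩ | ⟨_, _, _, _, s, l, _, _, _, k, _, _, y, k1, k2⟩
      · exact irr_pas h1 p1 v k
      · exact b2 v k
      · have := p1 y (k ▸ List.mem_append_right _ (List.mem_of_mem_head? k1))
        tauto
    have e1 := (red_len (len h1) ((cl_irr hc i).1 a2.symm)).resolve_right (by simp; omega)
    obtain ⟨n, rfl⟩ : ∃ n', n = c :: n' := by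
      cases n with
      | nil => cases q <;> simp at e1
      | cons x n => exact ⟨n, by simp_all⟩
    obtain ⟨m, hm⟩ := sim (f1 := f1) (f2 := f2) hq
    have k1 := cl_of (ctx hm [g] [])
    have k2 : cl (RR S f1 f2) (g :: m) * cl _ (c :: (q.map t ++ [e])) =
      cl _ [g, c, t f1, t f2, e] := by simpa [← cl_append] using k1
    refine nz (fun v hv => ?_) (by simp) (k2.symm.trans (a1 _ ?_))
    · rcases redex h1 (n := [g]) hv (by simp) with ⟨v, k⟩ | ⟨v, k⟩ | ⟨_, _, _, _, s, l, l', k0, k1, k, k2, _, y, k3, _⟩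
      · exact irr_one _ v k
      · exact irr_pas h1 (by simp [Pas]) v k
      · obtain rfl : l = [g] := by
          rcases s with _ | ⟨_, s⟩ <;> rcases l with _ | ⟨_, l⟩ <;> simp_all
        obtain ⟨rfl, rfl, rfl⟩ := rep_inj (j := 0) k0.nz.1 (by simp) k1
        obtain ⟨x, hx⟩ := k2
        have := (k0.det h1 h2 .ht (v := x ++ [c]) (v' := []) (by rw [← List.append_assoc, hx]; rfl)).2.1
        simp [this] at hx
    · rw [k2]
      exact cl_of (.head ⟨(_, _), Or.inl ⟨_, _, _, .ht, rfl⟩, [], n, rfl, rfl⟩ (zred _ (by simp)))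
  · intro hq
    refine ⟨cl _ [c], (mem_PP n1).2 fun m hm => ?_, cl _ (q.map t ++ [e]),
      (mem_PP n2).2 fun m hm => ?_, by simp [← cl_append], by simp [← cl_append]⟩
    · obtain ⟨n, b1, b2⟩ := ex_nf (len h1) _ (m ++ c :: (q.map t ++ [e])) (Nat.lt_succ_self _)
      rw [← cl_append, cl_of b1] at hm ⊢
      by_contra k
      have hz : z ∉ n := fun a => k (cl_of (zred _ a))
      refine nz (fun v hv => ?_) (by simp [hz]) hm
      rcases redex h1 hv (by simp [hz]) with ⟨v, k⟩ | ⟨v, k⟩ | ⟨_, _, _, _, s, l, l', k0, k1, rfl, k2, k3, -⟩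
      · exact b2 v k
      · exact irr_pas h1 (by simp [Pas]) v k
      obtain rfl : l' = [c] := (List.prefix_cons_iff.1 k2).resolve_left k3 |>.elim fun _ h => by
        simp_all
      have s1 := sg_inv h1 h2 b1 hz .i1
      have s2 := sg_lock (f1 := f1) (f2 := f2) q m
      rw [sg_append, sg_cons, sg_append, sg_append] at s1
      simp only [sg_cons, sg_nil, act, sg_t, List.append_nil] at s1
      rw [s1] at s2
      rcases endc h1 k0 k1 with a | a <;> simp [a, sg_abs, hq] at s2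
    · obtain ⟨n, b1, b2⟩ := ex_nf (len h1) _ (m ++ (q.map t ++ [e, c])) (Nat.lt_succ_self _)
      rw [← cl_append, cl_of b1] at hm ⊢
      by_contra k
      have hz : z ∉ n := fun a => k (cl_of (zred _ a))
      refine nz (fun v hv => ?_) (by simp [hz]) hm
      rcases redex h1 hv (by simp [hz]) with ⟨v, k⟩ | ⟨v, k⟩ | ⟨_, _, _, _, s, l, l', k0, k1, rfl, k2, k3, y, k4, -⟩
      · exact b2 v k
      · exact irr_pas h1 p0 v k
      have s1 := sg_inv h1 h2 b1 hz .i2
      have s2 : ∀ r, sg f1 f2 m (.run r) ≠ .bad := fun r => nbad m _ (by simp) (by simp) (by simp)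
      rw [sg_append, sg_append, sg_append, midc k0 k1 (by rintro rfl; simp at k4) k3] at s1
      simp [act, sg_t, sg_abs, s2] at s1

omit h1 h2

theorem final : ∃ (A : Type) (_ : Finite A) (_ : Primcodable A) (R : Set (List A × List A)),
    R.Finite ∧ (∀ p ∈ R, p.2.length < p.1.length) ∧ Confl R ∧
    ¬ ComputablePred fun x : List A × List A => CConj (cl R x.1) (cl R x.2) := by
  obtain ⟨Y, _, S, f1, f2, a, u, v, hS, h1, h2, -, h⟩ := exists_queue
  haveI : Finite S := hS
  obtain ⟨n, ⟨ε⟩⟩ := Finite.exists_equiv_fin (L Y S)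
  letI := Primcodable.ofEquiv _ ε
  refine ⟨L Y S, inferInstance, this, RR S f1 f2, fin hS, len h1, confl h1 h2, fun k => h ?_⟩
  have hp : Primrec fun n : ℕ => ((c :: ((u ++ List.replicate n a ++ v).map t ++ [e]),
      (u ++ List.replicate n a ++ v).map t ++ [e, c]) : List (L Y S) × List (L Y S)) := by
    have : Primrec fun n : ℕ => u.map (t (P := S)) ++ ((List.range n).map fun _ => t a) ++ v.map t := by
      fun_prop
    have : Primrec fun n : ℕ => (u ++ List.replicate n a ++ v).map (t (P := S)) :=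
      this.of_eq fun n => by simp
    fun_prop
  obtain ⟨_, k⟩ := k
  exact (ComputablePred.not ⟨inferInstance, k.comp hp.to_comp⟩).of_eq fun n =>
    (main h1 h2 _).not.trans not_not

end Pool.Agent.H24.Wave
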